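import Pool.Agent.MQ.Bridge

/-!
The Fubini-Study density: gradient and Laplacian of `log ‖F‖` for a holomorphic map `F` into a
complex inner product space.
-/

namespace Pool.Agent.MQ

open Complex Laplacian Topology Filter

open Pool.Agent.H30M (gg)

section

variable {V : Type*} [NormedAddCommGroup V] [InnerProductSpace ℂ V]

lemma hasFDerivAt_holoV {F : ℂ → V} {F' : V} {z : ℂ} (hF : HasDerivAt F F' z) :
    HasFDerivAt F ((ContinuousLinearMap.toSpanSingleton ℂ F').restrictScalars ℝ) z :=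
  hF.hasFDerivAt.restrictScalars ℝ

lemma fderiv_holoV {F : ℂ → V} {F' : V} {z : ℂ} (hF : HasDerivAt F F' z) (v : ℂ) :
    fderiv ℝ F z v = v • F' := by
  rw [(hasFDerivAt_holoV hF).fderiv]
  simp

lemma hasFDerivAt_inner_holo {F G : ℂ → V} {F' G' : V} {z : ℂ} (hF : HasDerivAt F F' z)
    (hG : HasDerivAt G G' z) :
    HasFDerivAt (fun w => inner ℂ (F w) (G w)) ((fderivInnerCLM ℂ (F z, G z)).comp
      (((ContinuousLinearMap.toSpanSingleton ℂ F').restrictScalars ℝ).prod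
        ((ContinuousLinearMap.toSpanSingleton ℂ G').restrictScalars ℝ))) z :=
  (hasFDerivAt_holoV hF).inner ℂ (hasFDerivAt_holoV hG)

lemma fderiv_inner_holo {F G : ℂ → V} {F' G' : V} {z : ℂ} (hF : HasDerivAt F F' z)
    (hG : HasDerivAt G G' z) (v : ℂ) :
    fderiv ℝ (fun w => inner ℂ (F w) (G w)) z v =
      v * inner ℂ (F z) G' + (starRingEnd ℂ) v * inner ℂ F' (G z) := by
  rw [(hasFDerivAt_inner_holo hF hG).fderiv]
  simp [fderivInnerCLM_apply, inner_smul_left, inner_smul_right]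

/-- The gradient of the square of the norm. -/
theorem gr_sqnorm {F : ℂ → V} {F' : V} {z : ℂ} (hF : HasDerivAt F F' z) :
    gr (fun w => ‖F w‖ ^ 2) z = 2 * (starRingEnd ℂ) (inner ℂ (F z) F') := by
  have e : (fun w => ‖F w‖ ^ 2) = fun w => (inner ℂ (F w) (F w)).re := by
    funext w
    rw [← inner_self_eq_norm_sq (𝕜 := ℂ)]; rfl
  have h : HasFDerivAt (fun w => (inner ℂ (F w) (F w)).re)
      (Complex.reCLM.comp (fderiv ℝ (fun w => inner ℂ (F w) (F w)) z)) z :=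
    Complex.reCLM.hasFDerivAt.comp z
      (hasFDerivAt_inner_holo hF hF).differentiableAt.hasFDerivAt
  rw [e, h.gr, grL_apply]
  simp only [ContinuousLinearMap.coe_comp, Function.comp_apply]
  rw [fderiv_inner_holo hF hF, fderiv_inner_holo hF hF]
  have hs : inner ℂ F' (F z) = (starRingEnd ℂ) (inner ℂ (F z) F') := (inner_conj_symm _ _).symm
  rw [hs]
  generalize inner ℂ (F z) F' = c
  apply Complex.ext
  · simp; ring
  · simp; ring

theorem differentiableAt_sqnorm {F : ℂ → V} {F' : V} {z : ℂ} (hF : HasDerivAt F F' z) :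
    DifferentiableAt ℝ (fun w => ‖F w‖ ^ 2) z := by
  have e : (fun w => ‖F w‖ ^ 2) = fun w => (inner ℂ (F w) (F w)).re := by
    funext w
    rw [← inner_self_eq_norm_sq (𝕜 := ℂ)]; rfl
  rw [e]
  exact (Complex.reCLM.hasFDerivAt.comp z
      (hasFDerivAt_inner_holo hF hF).differentiableAt.hasFDerivAt).differentiableAt

theorem contDiffAt_sqnorm {F : ℂ → V} {z : ℂ} [CompleteSpace V] (hF : AnalyticAt ℂ F z)
    {n : WithTop ℕ∞} : ContDiffAt ℝ n (fun w => ‖F w‖ ^ 2) z :=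
  ((hF.contDiffAt (n := n)).restrict_scalars ℝ).norm_sq ℂ

theorem contDiffAt_log_norm {F : ℂ → V} {z : ℂ} [CompleteSpace V] (hF : AnalyticAt ℂ F z)
    (h0 : F z ≠ 0) {n : WithTop ℕ∞} : ContDiffAt ℝ n (fun w => Real.log ‖F w‖) z := by
  have h1 : ContDiffAt ℝ n (fun w => Real.log (‖F w‖ ^ 2) / 2) z :=
    ((contDiffAt_sqnorm hF).log (by simpa using h0)).div_const 2
  refine h1.congr_of_eventuallyEq ?_
  filter_upwards with w
  rw [Real.log_pow]; push_cast; ring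

/-- The Laplacian of the square of the norm. -/
theorem lp_sqnorm {F : ℂ → V} {z : ℂ} [CompleteSpace V] (hF : AnalyticAt ℂ F z) :
    lp (fun w => ‖F w‖ ^ 2) z = 4 * ‖deriv F z‖ ^ 2 := by
  have hd : AnalyticAt ℂ (deriv F) z := hF.deriv
  have h1 : HasDerivAt F (deriv F z) z := hF.differentiableAt.hasDerivAt
  have h2 : HasDerivAt (deriv F) (deriv (deriv F) z) z := hd.differentiableAt.hasDerivAt
  have e : gr (fun w => ‖F w‖ ^ 2) =ᶠ[𝓝 z]
      fun w => 2 * (starRingEnd ℂ) (inner ℂ (F w) (deriv F w)) := by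
    filter_upwards [hF.eventually_analyticAt] with w hw
    exact gr_sqnorm hw.differentiableAt.hasDerivAt
  have h3 := (hasFDerivAt_inner_holo h1 h2).differentiableAt
  have h4 : HasFDerivAt (fun w => 2 * (starRingEnd ℂ) (inner ℂ (F w) (deriv F w)))
      ((2 : ℂ) • ((Complex.conjCLE : ℂ →L[ℝ] ℂ).comp
        (fderiv ℝ (fun w => inner ℂ (F w) (deriv F w)) z))) z := by
    have h5 : HasFDerivAt (fun w => (starRingEnd ℂ) (inner ℂ (F w) (deriv F w)))
        ((Complex.conjCLE : ℂ →L[ℝ] ℂ).comp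
        (fderiv ℝ (fun w => inner ℂ (F w) (deriv F w)) z)) z :=
      (Complex.conjCLE : ℂ →L[ℝ] ℂ).hasFDerivAt.comp z h3.hasFDerivAt
    exact h5.const_mul 2
  unfold lp
  rw [dv_congr e]
  unfold dv
  rw [h4.fderiv]
  simp only [FunLike.coe_smul, Pi.smul_apply, ContinuousLinearMap.coe_comp,
    Function.comp_apply, ContinuousLinearEquiv.coe_coe, Complex.conjCLE_apply]
  rw [fderiv_inner_holo h1 h2, fderiv_inner_holo h1 h2]
  have hn : inner ℂ (deriv F z) (deriv F z) = ((‖deriv F z‖ ^ 2 : ℝ) : ℂ) := by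
    rw [inner_self_eq_norm_sq_to_K]; simp
  rw [hn]
  generalize ‖deriv F z‖ ^ 2 = t
  generalize inner ℂ (F z) (deriv (deriv F) z) = c
  simp only [smul_eq_mul, Complex.mul_re, Complex.mul_im, Complex.conj_re, Complex.conj_im,
    Complex.add_re, Complex.add_im, Complex.ofReal_re, Complex.ofReal_im, Complex.one_re,
    Complex.one_im, Complex.I_re, Complex.I_im, map_one]
  norm_num
  ring

/-- The gradient of `log ‖F‖`. -/
theorem gr_log_normV {F : ℂ → V} {F' : V} {z : ℂ} (hF : HasDerivAt F F' z) (h0 : F z ≠ 0) :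
    gr (fun w => Real.log ‖F w‖) z =
      (((‖F z‖ ^ 2)⁻¹ : ℝ) : ℂ) * (starRingEnd ℂ) (inner ℂ (F z) F') := by
  have hp : 0 < ‖F z‖ ^ 2 := by have := norm_pos_iff.2 h0; positivity
  have hK : HasDerivAt (fun t : ℝ => Real.log t / 2) ((‖F z‖ ^ 2)⁻¹ / 2) (‖F z‖ ^ 2) :=
    (Real.hasDerivAt_log hp.ne').div_const 2
  have hd : DifferentiableAt ℝ (fun w => ‖F w‖ ^ 2) z := differentiableAt_sqnorm hF
  have h := gr_comp hK hd
  have e : (fun w => Real.log ‖F w‖) = fun w => Real.log (‖F w‖ ^ 2) / 2 := by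
    funext w
    rw [Real.log_pow]; push_cast; ring
  rw [e, h, gr_sqnorm hF]
  push_cast
  ring

/-- The Fubini-Study density of `F` with derivative `F'`. -/
noncomputable def fsd (x v : V) : ℝ :=
  2 * (‖x‖ ^ 2 * ‖v‖ ^ 2 - ‖inner ℂ x v‖ ^ 2) / ‖x‖ ^ 4

theorem fsd_nonneg (x v : V) : 0 ≤ fsd x v := by
  unfold fsd
  apply div_nonneg _ (by positivity)
  have h := norm_inner_le_norm (𝕜 := ℂ) x v
  have h2 : ‖inner ℂ x v‖ ^ 2 ≤ (‖x‖ * ‖v‖) ^ 2 := pow_le_pow_left₀ (norm_nonneg _) h 2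
  nlinarith

/-- **The Laplacian of `log ‖F‖`.** -/
theorem lap_log_normV {F : ℂ → V} {z : ℂ} [CompleteSpace V] (hF : AnalyticAt ℂ F z)
    (h0 : F z ≠ 0) : Δ (fun w => Real.log ‖F w‖) z = fsd (F z) (deriv F z) := by
  have hn : 0 < ‖F z‖ := norm_pos_iff.2 h0
  have hp : 0 < ‖F z‖ ^ 2 := by positivity
  have hF' : HasDerivAt F (deriv F z) z := hF.differentiableAt.hasDerivAt
  have e : (fun w => Real.log ‖F w‖) = fun w => (fun t => Real.log t / 2) (‖F w‖ ^ 2) := by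
    funext w
    simp only
    rw [Real.log_pow]; push_cast; ring
  have hu : ContDiffAt ℝ 2 (fun w => ‖F w‖ ^ 2) z := contDiffAt_sqnorm hF
  have hφ : ContDiffAt ℝ 2 (fun t : ℝ => Real.log t / 2) (‖F z‖ ^ 2) :=
    (Real.contDiffAt_log.2 hp.ne').div_const 2
  have d1 : deriv (fun t : ℝ => Real.log t / 2) = fun t => t⁻¹ / 2 := by
    funext t
    rw [deriv_div_const, Real.deriv_log]
  have d2 : deriv (deriv (fun t : ℝ => Real.log t / 2)) (‖F z‖ ^ 2) =
      - ((‖F z‖ ^ 2) ^ 2)⁻¹ / 2 := by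
    rw [d1, deriv_div_const, deriv_inv]
  rw [e, Pool.Agent.H30M.lap_comp hφ hu, d2, d1, ← lp_eq_lap hu, lp_sqnorm hF, gg_self,
    gr_sqnorm hF', norm_mul, RCLike.norm_conj]
  unfold fsd
  simp only [Complex.norm_ofNat]
  field_simp
  ring

theorem lp_log_normV {F : ℂ → V} {z : ℂ} [CompleteSpace V] (hF : AnalyticAt ℂ F z)
    (h0 : F z ≠ 0) : lp (fun w => Real.log ‖F w‖) z = fsd (F z) (deriv F z) := by
  rw [lp_eq_lap (contDiffAt_log_norm hF h0), lap_log_normV hF h0]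

theorem lap_log_normV_nonneg {F : ℂ → V} {z : ℂ} [CompleteSpace V] (hF : AnalyticAt ℂ F z)
    (h0 : F z ≠ 0) : 0 ≤ Δ (fun w => Real.log ‖F w‖) z := by
  rw [lap_log_normV hF h0]; exact fsd_nonneg _ _

/-- The density does not change under `F ↦ g F`. -/
theorem fsd_smul (x v : V) (a c : ℂ) (ha : a ≠ 0) : fsd (a • x) (a • v + c • x) = fsd x v := by
  have ha' : 0 < ‖a‖ := norm_pos_iff.2 ha
  by_cases hx : x = 0
  · simp [fsd, hx]
  have hx' : 0 < ‖x‖ := norm_pos_iff.2 hx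
  -- the Gram determinant
  have key : ‖a • x‖ ^ 2 * ‖a • v + c • x‖ ^ 2 - ‖inner ℂ (a • x) (a • v + c • x)‖ ^ 2 =
      ‖a‖ ^ 4 * (‖x‖ ^ 2 * ‖v‖ ^ 2 - ‖inner ℂ x v‖ ^ 2) := by
    have e1 : ‖a • v + c • x‖ ^ 2 = ‖a‖ ^ 2 * ‖v‖ ^ 2 + ‖c‖ ^ 2 * ‖x‖ ^ 2 +
        2 * ((starRingEnd ℂ) a * c * inner ℂ v x).re := by
      rw [norm_add_sq (𝕜 := ℂ), norm_smul, norm_smul, inner_smul_left, inner_smul_right]
      simp only [RCLike.re_to_complex]
      ring_nf
    have e2 : inner ℂ (a • x) (a • v + c • x) =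
        (starRingEnd ℂ) a * (a * inner ℂ x v + c * ((‖x‖ ^ 2 : ℝ) : ℂ)) := by
      rw [inner_add_right, inner_smul_left, inner_smul_left, inner_smul_right, inner_smul_right,
        inner_self_eq_norm_sq_to_K]
      simp only [Complex.coe_algebraMap, Complex.ofReal_pow]
      ring
    rw [e1, e2, norm_smul, norm_mul, RCLike.norm_conj, mul_pow, mul_pow]
    have e3 : inner ℂ v x = (starRingEnd ℂ) (inner ℂ x v) := (inner_conj_symm _ _).symm
    rw [e3]
    generalize inner ℂ x v = y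
    generalize ‖x‖ ^ 2 = s
    generalize ‖v‖ ^ 2 = t
    have n1 : ‖a * y + c * (s : ℂ)‖ ^ 2 = Complex.normSq (a * y + c * (s : ℂ)) :=
      Complex.sq_norm _
    rw [n1]
    have n2 : ‖a‖ ^ 4 = (‖a‖ ^ 2) ^ 2 := by ring
    rw [n2, Complex.sq_norm, Complex.sq_norm, Complex.sq_norm]
    simp only [Complex.normSq_apply, Complex.add_re, Complex.add_im, Complex.mul_re,
      Complex.mul_im, Complex.conj_re, Complex.conj_im, Complex.ofReal_re, Complex.ofReal_im]
    ring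
  unfold fsd
  rw [key, norm_smul]
  field_simp

end

end Pool.Agent.MQ
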