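import Mathlib

/-!
# MQ Ker: the Jensen kernel `2 ε² / (|w|² + ε²)²` on `ℂ`: mass `2 π`, approximate identity
-/

set_option autoImplicit false

open MeasureTheory Filter Topology Set

namespace Pool.Agent.MQ

/-- the kernel, `Δ (1/2) log (|w|² + ε²)` -/
noncomputable def ker (ε : ℝ) (w : ℂ) : ℝ := 2 * ε ^ 2 / (‖w‖ ^ 2 + ε ^ 2) ^ 2

theorem ker_nonneg (ε : ℝ) (w : ℂ) : 0 ≤ ker ε w := by
  unfold ker; positivity

private theorem ker_deriv {ε : ℝ} (hε : 0 < ε) (y : ℝ) :
    HasDerivAt (fun y : ℝ => -(ε ^ 2 / (y ^ 2 + ε ^ 2))) (y ^ (2 - 1) • (2 * ε ^ 2 / (y ^ 2 + ε ^ 2) ^ 2)) y := by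
  have h0 : y ^ 2 + ε ^ 2 ≠ 0 := by positivity
  have h1 : HasDerivAt (fun y : ℝ => y ^ 2 + ε ^ 2) (2 * y) y := by
    simpa using (hasDerivAt_pow 2 y).add_const (ε ^ 2)
  have h2 := ((hasDerivAt_const y (ε ^ 2)).div h1 h0).neg
  refine HasDerivAt.congr_deriv (f := fun y : ℝ => -(ε ^ 2 / (y ^ 2 + ε ^ 2))) h2 ?_
  rw [smul_eq_mul, pow_one]
  field_simp
  ring

private theorem ker_prim_tendsto {ε : ℝ} : Tendsto (fun y : ℝ => -(ε ^ 2 / (y ^ 2 + ε ^ 2))) atTop (𝓝 0) := by
  have h1 : Tendsto (fun y : ℝ => y ^ 2 + ε ^ 2) atTop atTop :=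
    tendsto_atTop_add_const_right _ _ (tendsto_pow_atTop (by norm_num))
  have h2 := (h1.const_div_atTop (ε ^ 2)).neg
  simpa using h2

theorem ker_integrable {ε : ℝ} (hε : 0 < ε) : Integrable (ker ε) := by
  have h := (integrable_fun_norm_addHaar (volume : Measure ℂ) (f := fun y : ℝ => 2 * ε ^ 2 / (y ^ 2 + ε ^ 2) ^ 2)).2
  rw [Complex.finrank_real_complex] at h
  refine h ?_
  refine integrableOn_Ioi_deriv_of_nonneg' (g := fun y : ℝ => -(ε ^ 2 / (y ^ 2 + ε ^ 2))) (a := 0)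
    (fun x _ => ker_deriv hε x) ?_ ker_prim_tendsto
  intro x hx
  have hx0 : (0 : ℝ) < x := hx
  simp only [smul_eq_mul]
  positivity

theorem ker_integral {ε : ℝ} (hε : 0 < ε) : ∫ w : ℂ, ker ε w = 2 * Real.pi := by
  have h := integral_fun_norm_addHaar (volume : Measure ℂ) (fun y : ℝ => 2 * ε ^ 2 / (y ^ 2 + ε ^ 2) ^ 2)
  rw [Complex.finrank_real_complex] at h
  have h1 : ∫ y in Ioi (0 : ℝ), y ^ (2 - 1) • (2 * ε ^ 2 / (y ^ 2 + ε ^ 2) ^ 2) = 1 := by
    have h2 := integral_Ioi_of_hasDerivAt_of_nonneg' (g := fun y : ℝ => -(ε ^ 2 / (y ^ 2 + ε ^ 2))) (a := 0)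
      (fun x _ => ker_deriv hε x) (fun x hx => by
        have hx0 : (0 : ℝ) < x := hx
        simp only [smul_eq_mul]
        positivity) ker_prim_tendsto
    rw [h2]
    have : ε ≠ 0 := hε.ne'
    field_simp
    simp
  rw [h1] at h
  have h3 : (volume : Measure ℂ).real (Metric.ball 0 1) = Real.pi := by
    rw [Measure.real, Complex.volume_ball]
    simp
  rw [h3] at h
  have h4 : ∀ w : ℂ, ker ε w = 2 * ε ^ 2 / (‖w‖ ^ 2 + ε ^ 2) ^ 2 := fun w => rfl
  simp only [h4]
  rw [h]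
  simp

theorem ker_scale {ε : ℝ} (hε : 0 < ε) (w : ℂ) : ε ^ 2 * ker ε (ε * w) = ker 1 w := by
  unfold ker
  have : ε ≠ 0 := hε.ne'
  rw [norm_mul, Complex.norm_real, Real.norm_of_nonneg hε.le]
  have h1 : (ε * ‖w‖) ^ 2 + ε ^ 2 = ε ^ 2 * (‖w‖ ^ 2 + 1 ^ 2) := by ring
  rw [h1]
  have h2 : ‖w‖ ^ 2 + 1 ^ 2 ≠ 0 := by positivity
  field_simp

/-- change of variables `z = a + ε w` -/
theorem ker_shift {ε : ℝ} (hε : 0 < ε) (a : ℂ) (τ : ℂ → ℝ) :
    ∫ z : ℂ, ker ε (z - a) * τ z = ∫ w : ℂ, ker 1 w * τ (a + ε * w) := by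
  have h1 : ∫ z : ℂ, ker ε (z - a) * τ z = ∫ z : ℂ, ker ε z * τ (a + z) := by
    rw [← integral_add_left_eq_self (fun z => ker ε (z - a) * τ z) a]
    simp
  rw [h1]
  have h2 := Measure.integral_comp_smul (volume : Measure ℂ) (fun z : ℂ => ker ε z * τ (a + z)) ε
  rw [Complex.finrank_real_complex] at h2
  have h3 : (fun w : ℂ => ker 1 w * τ (a + ε * w)) = fun w : ℂ => ε ^ 2 * ((fun z : ℂ => ker ε z * τ (a + z)) (ε • w)) := by
    funext w
    simp only [Complex.real_smul]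
    rw [← ker_scale hε w]
    ring
  rw [h3, integral_const_mul, h2, abs_of_pos (by positivity), smul_eq_mul, ← mul_assoc, mul_inv_cancel₀ (by positivity), one_mul]

/-- the kernel is an approximate identity -/
theorem ker_tendsto_of_bounded {τ : ℂ → ℝ} (hτ : Continuous τ) {M : ℝ} (hM : ∀ z, |τ z| ≤ M) (a : ℂ) :
    Tendsto (fun ε : ℝ => ∫ z : ℂ, ker ε (z - a) * τ z) (𝓝[>] 0) (𝓝 (2 * Real.pi * τ a)) := by
  have h0 : ∫ w : ℂ, ker 1 w * τ a = 2 * Real.pi * τ a := by
    rw [integral_mul_const, ker_integral one_pos]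
  rw [← h0]
  have h1 : Tendsto (fun ε : ℝ => ∫ w : ℂ, ker 1 w * τ (a + ε * w)) (𝓝[>] 0) (𝓝 (∫ w : ℂ, ker 1 w * τ a)) := by
    refine tendsto_integral_filter_of_dominated_convergence (fun w => ker 1 w * M) ?_ ?_ ((ker_integrable one_pos).mul_const M) ?_
    · refine Eventually.of_forall fun ε => ?_
      exact (ker_integrable one_pos).aestronglyMeasurable.mul (hτ.comp (by fun_prop)).aestronglyMeasurable
    · refine Eventually.of_forall fun ε => Eventually.of_forall fun w => ?_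
      rw [Real.norm_eq_abs, abs_mul, abs_of_nonneg (ker_nonneg 1 w)]
      exact mul_le_mul_of_nonneg_left (hM _) (ker_nonneg 1 w)
    · refine Eventually.of_forall fun w => ?_
      have h2 : Tendsto (fun ε : ℝ => a + (ε : ℂ) * w) (𝓝[>] 0) (𝓝 a) := by
        have h3 : Continuous (fun ε : ℝ => a + (ε : ℂ) * w) := by fun_prop
        have h4 := h3.tendsto 0
        simp only [Complex.ofReal_zero, zero_mul, add_zero] at h4
        exact h4.mono_left nhdsWithin_le_nhds
      exact ((hτ.tendsto a).comp h2).const_mul _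
  refine h1.congr' ?_
  filter_upwards [self_mem_nhdsWithin] with ε hε
  exact (ker_shift hε a τ).symm

/-- the kernel is an approximate identity: continuous functions with compact support -/
theorem ker_tendsto_of_compact {τ : ℂ → ℝ} (hτ : Continuous τ) (hc : HasCompactSupport τ) (a : ℂ) :
    Tendsto (fun ε : ℝ => ∫ z : ℂ, ker ε (z - a) * τ z) (𝓝[>] 0) (𝓝 (2 * Real.pi * τ a)) := by
  obtain ⟨M, hM⟩ := hτ.bounded_above_of_compact_support hc
  exact ker_tendsto_of_bounded hτ (fun z => by simpa using hM z) a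

/-- mass of the kernel -/
theorem ker_mass (e : ℝ) (he : 0 < e) : (∫ w : ℂ, 2 * e ^ 2 / (‖w‖ ^ 2 + e ^ 2) ^ 2) = 2 * Real.pi := ker_integral he

theorem ker_tendsto (τ : ℂ → ℝ) (hτ : Continuous τ) (hc : HasCompactSupport τ) (a : ℂ) :
    Tendsto (fun e : ℝ => ∫ z : ℂ, 2 * e ^ 2 / (‖z - a‖ ^ 2 + e ^ 2) ^ 2 * τ z) (𝓝[>] 0) (𝓝 (2 * Real.pi * τ a)) :=
  ker_tendsto_of_compact hτ hc a

/-! ### Polar coordinates with a logarithmic radius -/

private theorem polar_integrable {f : ℂ → ℝ} (hf : Integrable f) :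
    IntegrableOn (fun p : ℝ × ℝ => p.1 * f (Complex.polarCoord.symm p)) (Ioi (0 : ℝ) ×ˢ Ioo (-Real.pi) Real.pi) (volume.prod volume) := by
  have h1 : Integrable (fun p : ℝ × ℝ => f (Complex.measurableEquivRealProd.symm p)) :=
    (Complex.volume_preserving_equiv_real_prod.symm).integrable_comp_of_integrable hf
  have h2 := (integrableOn_image_iff_integrableOn_abs_det_fderiv_smul (volume : Measure (ℝ × ℝ))
    (s := polarCoord.target) (f := polarCoord.symm) (f' := fderivPolarCoordSymm) polarCoord.open_target.measurableSet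
    (fun p _ => (hasFDerivAt_polarCoord_symm p).hasFDerivWithinAt) polarCoord.symm.injOn
    (fun p : ℝ × ℝ => f (Complex.measurableEquivRealProd.symm p))).1 h1.integrableOn
  have h3 : IntegrableOn (fun p : ℝ × ℝ => p.1 * f (Complex.polarCoord.symm p)) polarCoord.target volume := by
    refine h2.congr_fun ?_ polarCoord.open_target.measurableSet
    intro p hp
    have hp1 : (0 : ℝ) < p.1 := hp.1
    simp only [det_fderivPolarCoordSymm, smul_eq_mul, abs_of_pos hp1]
    rfl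
  exact h3

theorem polar_radial (g : ℝ → ℝ) (u : ℂ → ℝ) (hint : Integrable (fun z : ℂ => g (Real.log ‖z‖) / ‖z‖ ^ 2 * u z)) :
    ∫ z : ℂ, g (Real.log ‖z‖) / ‖z‖ ^ 2 * u z = 2 * Real.pi * ∫ s : ℝ, g s * Real.circleAverage u 0 (Real.exp s) := by
  have h1 := Complex.integral_comp_polarCoord_symm (fun z : ℂ => g (Real.log ‖z‖) / ‖z‖ ^ 2 * u z)
  rw [← h1]
  have h2 := setIntegral_prod _ (polar_integrable hint)
  have h3 : ∫ p in polarCoord.target, p.1 • (g (Real.log ‖Complex.polarCoord.symm p‖) / ‖Complex.polarCoord.symm p‖ ^ 2 * u (Complex.polarCoord.symm p)) =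
      ∫ r in Ioi (0 : ℝ), ∫ θ in Ioo (-Real.pi) Real.pi,
        r * (g (Real.log ‖Complex.polarCoord.symm (r, θ)‖) / ‖Complex.polarCoord.symm (r, θ)‖ ^ 2 * u (Complex.polarCoord.symm (r, θ))) := h2
  rw [h3]
  have h4 : ∀ r ∈ Ioi (0 : ℝ), ∫ θ in Ioo (-Real.pi) Real.pi,
        r * (g (Real.log ‖Complex.polarCoord.symm (r, θ)‖) / ‖Complex.polarCoord.symm (r, θ)‖ ^ 2 * u (Complex.polarCoord.symm (r, θ))) =
      r⁻¹ * (2 * Real.pi * (g (Real.log r) * Real.circleAverage u 0 r)) := by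
    intro r hr
    have hr0 : (0 : ℝ) < r := hr
    have e1 : ∀ θ : ℝ, r * (g (Real.log ‖Complex.polarCoord.symm (r, θ)‖) / ‖Complex.polarCoord.symm (r, θ)‖ ^ 2 * u (Complex.polarCoord.symm (r, θ))) =
        r⁻¹ * g (Real.log r) * u (circleMap 0 r θ) := by
      intro θ
      have e2 : Complex.polarCoord.symm (r, θ) = circleMap 0 r θ := by
        rw [Complex.polarCoord_symm_apply, circleMap, Complex.exp_mul_I]
        simp
      have e3 : ‖circleMap 0 r θ‖ = r := by simp [abs_of_pos hr0]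
      rw [e2, e3]
      field_simp
    simp only [e1]
    rw [integral_const_mul, ← integral_Ioc_eq_integral_Ioo, ← intervalIntegral.integral_of_le (by linarith [Real.pi_pos])]
    have e4 : ∫ θ in (-Real.pi)..Real.pi, u (circleMap 0 r θ) = 2 * Real.pi * Real.circleAverage u 0 r := by
      have hper : (fun θ => u (circleMap 0 r θ)).Periodic (2 * Real.pi) := fun x => by simp [periodic_circleMap 0 r x]
      have e5 := hper.intervalIntegral_add_eq (-Real.pi) 0
      rw [show -Real.pi + 2 * Real.pi = Real.pi by ring, zero_add] at e5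
      rw [e5, Real.circleAverage_def, smul_eq_mul]
      have := Real.pi_ne_zero
      field_simp
    rw [e4]
    ring
  rw [setIntegral_congr_fun measurableSet_Ioi h4]
  have h5 := integral_image_eq_integral_abs_deriv_smul (s := univ) (f := Real.exp) (f' := Real.exp) MeasurableSet.univ
    (fun x _ => (Real.hasDerivAt_exp x).hasDerivWithinAt) Real.exp_injective.injOn
    (fun r : ℝ => r⁻¹ * (2 * Real.pi * (g (Real.log r) * Real.circleAverage u 0 r)))
  rw [image_univ, Real.range_exp, setIntegral_univ] at h5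
  rw [h5, ← integral_const_mul]
  refine integral_congr_ae (Eventually.of_forall fun s => ?_)
  have := Real.exp_pos s
  simp only [smul_eq_mul, Real.log_exp, abs_of_pos this]
  field_simp

theorem polar_radial_one (g : ℝ → ℝ) (hint : Integrable (fun z : ℂ => g (Real.log ‖z‖) / ‖z‖ ^ 2)) :
    ∫ z : ℂ, g (Real.log ‖z‖) / ‖z‖ ^ 2 = 2 * Real.pi * ∫ s : ℝ, g s := by
  have h := polar_radial g (fun _ => 1) (by simpa using hint)
  simpa [Real.circleAverage_const] using h

end Pool.Agent.MQ
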