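import Pool.Agent.H30M.Tau2
import Pool.Agent.H30M.Green
import Pool.Agent.MQ.Ker
import Pool.Agent.H13.OT.Std
import Pool.Agent.H36.BP.OrdDefs

/-!
# MQ Ord: curves of order two

`∫ τ_R Δ log ‖F‖ ≤ C (1 + R²)` for the lifts `F` without zeros of the curves of order two.
-/

set_option autoImplicit false

open MeasureTheory Complex Set Filter Topology Laplacian InnerProductSpace

namespace Pool.Agent.MQ

open Pool.Agent.H30M (rho)
open Pool.Agent.H36.BP (EN OrdTwo)

/-! ## the density at scale `R` -/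

private theorem st_deriv_continuous : Continuous (deriv Real.smoothTransition) :=
  (Real.smoothTransition.contDiff (n := 1)).continuous_deriv le_rfl

/-- `rho (z / R) / R²` in logarithmic polar coordinates -/
theorem rho_scale {R : ℝ} (hR : 0 < R) (z : ℂ) :
    rho (z / R) / R ^ 2 = deriv Real.smoothTransition (Real.log ‖z‖ - Real.log R) / ‖z‖ ^ 2 := by
  rcases eq_or_ne z 0 with rfl | hz
  · rw [zero_div, Pool.Agent.H30M.rho_eq_zero (Or.inl (by simp))]
    simp
  · have hn : 0 < ‖z‖ := norm_pos_iff.2 hz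
    have e : ‖z / (R : ℂ)‖ = ‖z‖ / R := by
      rw [norm_div, Complex.norm_real, Real.norm_of_nonneg hR.le]
    rw [rho, e, Real.log_div hn.ne' hR.ne']
    field_simp

theorem continuous_rho_scale (R : ℝ) : Continuous fun z : ℂ => rho (z / R) / R ^ 2 :=
  (Pool.Agent.H30M.continuous_rho.comp (continuous_id.div_const _)).div_const _

theorem rho_scale_eq_zero {R : ℝ} (hR : 0 < R) {z : ℂ} (hz : ‖z‖ ≤ R ∨ Real.exp 1 * R ≤ ‖z‖) : rho (z / R) / R ^ 2 = 0 := by
  have e : ‖z / (R : ℂ)‖ = ‖z‖ / R := by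
    rw [norm_div, Complex.norm_real, Real.norm_of_nonneg hR.le]
  rw [Pool.Agent.H30M.rho_eq_zero, zero_div]
  rw [e, div_le_one hR, le_div_iff₀ hR]
  exact hz

theorem rho_scale_hasCompactSupport {R : ℝ} (hR : 0 < R) : HasCompactSupport fun z : ℂ => rho (z / R) / R ^ 2 := by
  refine HasCompactSupport.intro (isCompact_closedBall (0 : ℂ) (Real.exp 1 * R)) fun z hz => ?_
  rw [mem_closedBall_zero_iff, not_le] at hz
  exact rho_scale_eq_zero hR (Or.inr hz.le)

theorem integrable_rho_scale_mul {R : ℝ} (hR : 0 < R) {u : ℂ → ℝ} (hu : Continuous u) :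
    Integrable fun z : ℂ => rho (z / R) / R ^ 2 * u z :=
  ((continuous_rho_scale R).mul hu).integrable_of_hasCompactSupport (rho_scale_hasCompactSupport hR).mul_right

private theorem int_st_deriv (L : ℝ) : ∫ s : ℝ, deriv Real.smoothTransition (s - L) = 1 := by
  rw [integral_sub_right_eq_self (fun s => deriv Real.smoothTransition s) L]
  have h1 : ∫ s : ℝ, deriv Real.smoothTransition s = ∫ s in (0 : ℝ)..1, deriv Real.smoothTransition s := by
    rw [intervalIntegral.integral_of_le zero_le_one]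
    refine (setIntegral_eq_integral_of_forall_compl_eq_zero fun s hs => Pool.Agent.H30M.deriv_st_eq_zero ?_).symm
    rw [mem_Ioc, not_and_or, not_lt, not_le] at hs
    exact hs.imp id le_of_lt
  rw [h1, intervalIntegral.integral_deriv_eq_sub
    (fun x _ => (Real.smoothTransition.contDiff (n := 1)).differentiable (by norm_num) x) (st_deriv_continuous.intervalIntegrable _ _)]
  simp

/-- averages with respect to `rho (z / R) / R²` are controlled by circle averages -/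
theorem int_rho_scale_le {u : ℂ → ℝ} (hu : Continuous u) {R B : ℝ} (hR : 0 < R)
    (hB : ∀ r, R ≤ r → r ≤ Real.exp 1 * R → Real.circleAverage u 0 r ≤ B) :
    ∫ z : ℂ, rho (z / R) / R ^ 2 * u z ≤ 2 * Real.pi * B := by
  have hint := integrable_rho_scale_mul hR hu
  simp only [rho_scale hR] at hint ⊢
  rw [polar_radial (fun s => deriv Real.smoothTransition (s - Real.log R)) u hint]
  refine mul_le_mul_of_nonneg_left ?_ (by positivity)
  have hz : ∀ s : ℝ, s ∉ Icc (Real.log R) (Real.log R + 1) → deriv Real.smoothTransition (s - Real.log R) = 0 := by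
    intro s hs
    rw [mem_Icc, not_and_or, not_le, not_le] at hs
    exact Pool.Agent.H30M.deriv_st_eq_zero (hs.imp (fun h => by linarith) fun h => by linarith)
  have hcs : HasCompactSupport fun s : ℝ => deriv Real.smoothTransition (s - Real.log R) :=
    HasCompactSupport.intro isCompact_Icc hz
  have hc : Continuous fun s : ℝ => deriv Real.smoothTransition (s - Real.log R) :=
    st_deriv_continuous.comp (continuous_id.sub continuous_const)
  have hca : Continuous fun s : ℝ => Real.circleAverage u 0 (Real.exp s) := by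
    have h1 : (fun s : ℝ => Real.circleAverage u 0 (Real.exp s)) =
        fun s => (2 * Real.pi)⁻¹ * ∫ θ in (0 : ℝ)..2 * Real.pi, u (circleMap 0 (Real.exp s) θ) := by
      funext s
      rw [Real.circleAverage_def, smul_eq_mul]
    rw [h1]
    refine continuous_const.mul ?_
    refine intervalIntegral.continuous_parametric_intervalIntegral_of_continuous' (f := fun (s : ℝ) (θ : ℝ) => u (circleMap 0 (Real.exp s) θ)) ?_ _ _
    unfold circleMap
    fun_prop
  have i1 : Integrable fun s : ℝ => deriv Real.smoothTransition (s - Real.log R) * Real.circleAverage u 0 (Real.exp s) :=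
    (hc.mul hca).integrable_of_hasCompactSupport hcs.mul_right
  have i2 : Integrable fun s : ℝ => deriv Real.smoothTransition (s - Real.log R) * B :=
    (hc.mul continuous_const).integrable_of_hasCompactSupport hcs.mul_right
  calc ∫ s : ℝ, deriv Real.smoothTransition (s - Real.log R) * Real.circleAverage u 0 (Real.exp s)
      ≤ ∫ s : ℝ, deriv Real.smoothTransition (s - Real.log R) * B := by
        refine integral_mono i1 i2 fun s => ?_
        by_cases hs : s ∈ Icc (Real.log R) (Real.log R + 1)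
        · refine mul_le_mul_of_nonneg_left (hB _ ?_ ?_) (Pool.Agent.H30M.deriv_st_nonneg _)
          · rw [← Real.log_le_iff_le_exp hR]
            exact hs.1
          · have h2 := Real.exp_le_exp.2 hs.2
            rw [Real.exp_add, Real.exp_log hR] at h2
            linarith [h2, mul_comm R (Real.exp 1)]
        · simp only [hz s hs, zero_mul, le_refl]
    _ = B := by rw [integral_mul_const, int_st_deriv, one_mul]

/-- the characteristic function of a curve of order two -/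
theorem int_rho_scale_le_of_order {u : ℂ → ℝ} (hu : Continuous u) {A : ℝ}
    (hA : ∀ r : ℝ, 0 < r → Real.circleAverage u 0 r ≤ A * (1 + r ^ 2)) :
    ∃ C : ℝ, 0 ≤ C ∧ ∀ R : ℝ, 0 < R → ∫ z : ℂ, rho (z / R) / R ^ 2 * u z ≤ C * (1 + R ^ 2) := by
  have he : 1 ≤ Real.exp 1 := Real.one_le_exp zero_le_one
  refine ⟨2 * Real.pi * (|A| * Real.exp 1 ^ 2), by positivity, fun R hR => ?_⟩
  have h := int_rho_scale_le hu (B := |A| * Real.exp 1 ^ 2 * (1 + R ^ 2)) hR fun r h1 h2 => by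
    have hr : 0 < r := hR.trans_le h1
    calc Real.circleAverage u 0 r ≤ A * (1 + r ^ 2) := hA r hr
      _ ≤ |A| * (1 + r ^ 2) := mul_le_mul_of_nonneg_right (le_abs_self A) (by positivity)
      _ ≤ |A| * (Real.exp 1 ^ 2 * (1 + R ^ 2)) := by
          refine mul_le_mul_of_nonneg_left ?_ (abs_nonneg _)
          have h3 : r ^ 2 ≤ (Real.exp 1 * R) ^ 2 := pow_le_pow_left₀ hr.le h2 2
          have h4 : (1 : ℝ) ≤ Real.exp 1 ^ 2 := one_le_pow₀ he
          nlinarith
      _ = |A| * Real.exp 1 ^ 2 * (1 + R ^ 2) := by ring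
  calc _ ≤ _ := h
    _ = _ := by ring

/-! ## lifts -/

section

variable {V : Type} [NormedAddCommGroup V] [InnerProductSpace ℂ V] [CompleteSpace V]

theorem contDiff_log_norm {F : ℂ → V} (hF : Differentiable ℂ F) (h0 : ∀ z, F z ≠ 0) {n : ℕ∞} :
    ContDiff ℝ n fun z => Real.log ‖F z‖ := by
  have h1 : ContDiff ℝ n F := (hF.contDiff (n := n)).restrict_scalars ℝ
  exact (h1.norm ℂ h0).log fun z => norm_ne_zero_iff.2 (h0 z)

theorem continuous_log_norm {F : ℂ → V} (hF : Differentiable ℂ F) (h0 : ∀ z, F z ≠ 0) : Continuous fun z => Real.log ‖F z‖ :=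
  (contDiff_log_norm hF h0 (n := 0)).continuous

/-- ORD: `I(R) = ∫ τ_R Δ log ‖F‖ ≤ C (1 + R²)` -/
theorem ord_int {F : ℂ → V} (hF : Differentiable ℂ F) (h0 : ∀ z, F z ≠ 0) {A : ℝ}
    (hA : ∀ r : ℝ, 0 < r → Real.circleAverage (fun z => Real.log ‖F z‖) 0 r ≤ A * (1 + r ^ 2)) :
    ∃ C : ℝ, 0 ≤ C ∧ ∀ R : ℝ, 0 < R → ∀ τ : ℂ → ℝ, ContDiff ℝ 2 τ → HasCompactSupport τ →
      (∀ z, Δ τ z = rho (z / R) / R ^ 2 - rho z) → ∫ z, τ z * Δ (fun z => Real.log ‖F z‖) z ≤ C * (1 + R ^ 2) := by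
  have hc := continuous_log_norm hF h0
  obtain ⟨C, hC0, hC⟩ := int_rho_scale_le_of_order hc hA
  set B : ℝ := ∫ z : ℂ, rho z * Real.log ‖F z‖ with hB
  refine ⟨C + |B|, by positivity, fun R hR τ hτ hτc hlap => ?_⟩
  rw [Pool.Agent.H30M.green2 hτ hτc fun z _ => (contDiff_log_norm hF h0 (n := 2)).contDiffAt]
  simp only [hlap, sub_mul]
  have i2 : Integrable fun z : ℂ => rho z * Real.log ‖F z‖ := by
    have h := integrable_rho_scale_mul one_pos hc
    simpa using h
  rw [integral_sub (integrable_rho_scale_mul hR hc) i2, ← hB]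
  have h1 := hC R hR
  have h2 : -B ≤ |B| := neg_le_abs B
  nlinarith [abs_nonneg B, sq_nonneg R]

/-- ORD for the weights `tau R` -/
theorem ord_tau {F : ℂ → V} (hF : Differentiable ℂ F) (h0 : ∀ z, F z ≠ 0) {A : ℝ}
    (hA : ∀ r : ℝ, 0 < r → Real.circleAverage (fun z => Real.log ‖F z‖) 0 r ≤ A * (1 + r ^ 2)) :
    ∃ C : ℝ, 0 ≤ C ∧ ∀ R : ℝ, 1 ≤ R → ∫ z, Pool.Agent.H30M.tau R z * Δ (fun z => Real.log ‖F z‖) z ≤ C * (1 + R ^ 2) := by
  obtain ⟨C, hC0, hC⟩ := ord_int hF h0 hA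
  exact ⟨C, hC0, fun R hR => hC R (by linarith) _ (Pool.Agent.H30M.contDiff_tau R) (Pool.Agent.H30M.hcs_tau hR)
    fun z => Pool.Agent.H30M.lap_tau hR z⟩

/-- the averages of `log ‖F‖` -/
theorem avg_log_norm_le {F : ℂ → V} (hF : Differentiable ℂ F) (h0 : ∀ z, F z ≠ 0) {A : ℝ}
    (hA : ∀ r : ℝ, 0 < r → Real.circleAverage (fun z => Real.log ‖F z‖) 0 r ≤ A * (1 + r ^ 2)) :
    ∃ C : ℝ, 0 ≤ C ∧ ∀ R : ℝ, 0 < R → Pool.Agent.H30M.avg R (fun z => Real.log ‖F z‖) ≤ C * (1 + R ^ 2) :=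
  int_rho_scale_le_of_order (continuous_log_norm hF h0) hA

omit [CompleteSpace V] in
/-- a curve of order two (bounded lifts on discs) has a characteristic function bounded by `A (1 + r²)` -/
theorem circleAverage_le_of_ordTwo {F : ℂ → V} (hF : Differentiable ℂ F) (h0 : ∀ z, F z ≠ 0) (ho : OrdTwo F) :
    ∃ A : ℝ, ∀ r : ℝ, 0 < r → Real.circleAverage (fun z => Real.log ‖F z‖) 0 r ≤ A * (1 + r ^ 2) := by
  obtain ⟨C₀, hC₀⟩ := ho
  refine ⟨|Real.log ‖F 0‖| + 3 * |C₀|, fun r hr => ?_⟩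
  obtain ⟨G, hG, hG1, hG0, hGf⟩ := hC₀ (r + 1) (by linarith)
  have hG0' : G 0 ≠ 0 := by
    intro h0
    rw [h0, norm_zero] at hG0
    exact absurd hG0 (not_le.2 (Real.exp_pos _))
  have h1 := Pool.Agent.H13.OT.average_le (f := F) hr (lt_add_one r) hG hG1 hG0' hGf hF.differentiableOn
    fun z _ => ⟨h0 z, 1, one_ne_zero, (one_smul _ _).symm⟩
  have h2 : -(C₀ * (1 + (r + 1) ^ 2)) ≤ Real.log ‖G 0‖ := by
    rw [Real.le_log_iff_exp_le (norm_pos_iff.2 hG0')]
    exact hG0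
  have h3 : C₀ * (1 + (r + 1) ^ 2) ≤ 3 * |C₀| * (1 + r ^ 2) := by
    have h4 : C₀ ≤ |C₀| := le_abs_self _
    have h5 : 0 ≤ |C₀| := abs_nonneg _
    have h6 : 1 + (r + 1) ^ 2 ≤ 3 * (1 + r ^ 2) := by nlinarith [sq_nonneg (r - 1)]
    calc C₀ * (1 + (r + 1) ^ 2) ≤ |C₀| * (1 + (r + 1) ^ 2) := mul_le_mul_of_nonneg_right h4 (by positivity)
      _ ≤ |C₀| * (3 * (1 + r ^ 2)) := mul_le_mul_of_nonneg_left h6 h5
      _ = _ := by ring
  have h7 : Real.log ‖F 0‖ ≤ |Real.log ‖F 0‖| * (1 + r ^ 2) := by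
    have h8 : Real.log ‖F 0‖ ≤ |Real.log ‖F 0‖| := le_abs_self _
    have h9 : 0 ≤ |Real.log ‖F 0‖| := abs_nonneg _
    nlinarith [sq_nonneg r]
  nlinarith

/-- ORD for `OrdTwo` -/
theorem ord_of_ordTwo {F : ℂ → V} (hF : Differentiable ℂ F) (h0 : ∀ z, F z ≠ 0) (ho : OrdTwo F) :
    ∃ C : ℝ, 0 ≤ C ∧ ∀ R : ℝ, 1 ≤ R → ∫ z, Pool.Agent.H30M.tau R z * Δ (fun z => Real.log ‖F z‖) z ≤ C * (1 + R ^ 2) := by
  obtain ⟨A, hA⟩ := circleAverage_le_of_ordTwo hF h0 ho
  exact ord_tau hF h0 hA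

end

/-! ## from the maximum norm to the Euclidean norm -/

theorem continuous_log_norm_pi {N : ℕ} {F : ℂ → Fin (N + 1) → ℂ} (hF : Continuous F) (h0 : ∀ z, F z ≠ 0) :
    Continuous fun z => Real.log ‖F z‖ := hF.norm.log fun z => norm_ne_zero_iff.2 (h0 z)

/-- the Euclidean lift of a lift -/
theorem circleAverage_toLp_le {N : ℕ} {F : ℂ → Fin (N + 1) → ℂ} (hF : Differentiable ℂ F) (h0 : ∀ z, F z ≠ 0) {A : ℝ}
    (hA : ∀ r : ℝ, 0 < r → Real.circleAverage (fun z => Real.log ‖F z‖) 0 r ≤ A * (1 + r ^ 2)) :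
    Differentiable ℂ (fun z => (WithLp.toLp 2 (F z) : EN N)) ∧ (∀ z, (WithLp.toLp 2 (F z) : EN N) ≠ 0) ∧
      ∃ A' : ℝ, ∀ r : ℝ, 0 < r → Real.circleAverage (fun z => Real.log ‖(WithLp.toLp 2 (F z) : EN N)‖) 0 r ≤ A' * (1 + r ^ 2) := by
  have hd : Differentiable ℂ (fun z => (WithLp.toLp 2 (F z) : EN N)) :=
    (PiLp.continuousLinearEquiv 2 ℂ (fun _ : Fin (N + 1) => ℂ)).symm.differentiable.comp hF
  have hne : ∀ z, (WithLp.toLp 2 (F z) : EN N) ≠ 0 := fun z h => h0 z (by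
    have := congrArg WithLp.ofLp h
    simpa using this)
  refine ⟨hd, hne, |A| + Real.log (N + 1), fun r hr => ?_⟩
  have hN : (1 : ℝ) ≤ N + 1 := by
    have : (0 : ℝ) ≤ N := Nat.cast_nonneg N
    linarith
  have hlog : 0 ≤ Real.log ((N : ℝ) + 1) := Real.log_nonneg hN
  have hle : ∀ z, Real.log ‖(WithLp.toLp 2 (F z) : EN N)‖ ≤ Real.log ‖F z‖ + Real.log (N + 1) := by
    intro z
    have hp : 0 < ‖F z‖ := norm_pos_iff.2 (h0 z)
    rw [← Real.log_mul hp.ne' (by linarith)]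
    refine Real.log_le_log (norm_pos_iff.2 (hne z)) ?_
    rw [EuclideanSpace.norm_eq]
    have h1 : ∑ i, ‖(WithLp.toLp 2 (F z) : EN N) i‖ ^ 2 ≤ ((N : ℝ) + 1) * ‖F z‖ ^ 2 := by
      calc ∑ i, ‖(WithLp.toLp 2 (F z) : EN N) i‖ ^ 2 ≤ ∑ _i : Fin (N + 1), ‖F z‖ ^ 2 :=
            Finset.sum_le_sum fun i _ => pow_le_pow_left₀ (norm_nonneg _) (norm_le_pi_norm (F z) i) 2
        _ = _ := by simp
    have h2 : ((N : ℝ) + 1) * ‖F z‖ ^ 2 ≤ (‖F z‖ * ((N : ℝ) + 1)) ^ 2 := by
      nlinarith [sq_nonneg ‖F z‖, mul_nonneg (sq_nonneg ‖F z‖) (by linarith : (0 : ℝ) ≤ N)]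
    calc Real.sqrt (∑ i, ‖(WithLp.toLp 2 (F z) : EN N) i‖ ^ 2) ≤ Real.sqrt ((‖F z‖ * ((N : ℝ) + 1)) ^ 2) :=
          Real.sqrt_le_sqrt (h1.trans h2)
      _ = ‖F z‖ * (N + 1) := Real.sqrt_sq (by positivity)
  have c1 : Continuous fun z => Real.log ‖(WithLp.toLp 2 (F z) : EN N)‖ := continuous_log_norm hd hne
  have c2 := continuous_log_norm_pi hF.continuous h0
  have hci : ∀ {u : ℂ → ℝ}, Continuous u → CircleIntegrable u 0 r := fun hu => hu.continuousOn.circleIntegrable'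
  calc Real.circleAverage (fun z => Real.log ‖(WithLp.toLp 2 (F z) : EN N)‖) 0 r
      ≤ Real.circleAverage (fun z => Real.log ‖F z‖ + Real.log (N + 1)) 0 r :=
        Real.circleAverage_mono (hci c1) (hci (c2.add continuous_const)) fun z _ => hle z
    _ = Real.circleAverage (fun z => Real.log ‖F z‖) 0 r + Real.log (N + 1) := by
        rw [Real.circleAverage_fun_add (hci c2) (hci continuous_const), Real.circleAverage_const]
    _ ≤ A * (1 + r ^ 2) + Real.log (N + 1) := by linarith [hA r hr]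
    _ ≤ (|A| + Real.log (N + 1)) * (1 + r ^ 2) := by
        nlinarith [mul_le_mul_of_nonneg_right (le_abs_self A) (by positivity : (0 : ℝ) ≤ 1 + r ^ 2), sq_nonneg r,
          mul_nonneg hlog (sq_nonneg r)]

end Pool.Agent.MQ
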