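import Pool.Agent.MQ.AJSec
import Pool.Agent.TG.Rm

/-!
# MQ AJ: the theorem of Abhyankar and Jung

The roots of a monic polynomial whose coefficients are holomorphic near `0` in `ℂ²`, with simple roots outside the axes, are holomorphic functions
of `(x ^ (1 / n), y ^ (1 / n))`, `n = d!`.
-/

set_option autoImplicit false

open Topology Filter Metric

noncomputable section

namespace Pool.Agent.MQ.AJ

variable {d : ℕ}

/-- the exponential map -/
private def ee (ω : ℂ × ℂ) : ℂ × ℂ := (Complex.exp ω.1, Complex.exp ω.2)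

private theorem ee_analytic (ω : ℂ × ℂ) : AnalyticAt ℂ ee ω :=
  (analyticAt_fst.cexp').prod (analyticAt_snd.cexp')

/-- periodic functions on a half space -/
private theorem per_int {α : Type*} {S : Set ℂ} {T : ℂ} (hS : ∀ u ∈ S, ∀ m : ℤ, u + m * T ∈ S) {f : ℂ → α} (h : ∀ u ∈ S, f (u + T) = f u) :
    ∀ (m : ℤ), ∀ u ∈ S, f (u + m * T) = f u := by
  intro m
  induction m using Int.induction_on with
  | zero => intro u _; simp
  | succ k ih =>
    intro u hu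
    have h1 := h (u + (k : ℤ) * T) (hS u hu k)
    rw [← ih u hu, ← h1]
    congr 1
    push_cast
    ring
  | pred k ih =>
    intro u hu
    have h1 := h (u + (-(k : ℤ) - 1 : ℤ) * T) (hS u hu _)
    rw [← ih u hu, ← h1]
    congr 1
    push_cast
    ring

/-- a local branch of the logarithm -/
private theorem local_log {a : ℂ} (ha : a ≠ 0) : ∃ l : ℂ → ℂ, AnalyticAt ℂ l a ∧ l a = Complex.log a ∧ ∀ᶠ s in 𝓝 a, ∃ m : ℤ,
    Complex.log s = l s + m * (2 * Real.pi * Complex.I) := by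
  refine ⟨fun s => Complex.log a + Complex.log (s / a), ?_, ?_, ?_⟩
  · refine analyticAt_const.add (AnalyticAt.clog ?_ ?_)
    · exact analyticAt_id.div analyticAt_const ha
    · show a / a ∈ Complex.slitPlane
      rw [div_self ha]
      exact Complex.one_mem_slitPlane
  · show Complex.log a + Complex.log (a / a) = Complex.log a
    rw [div_self ha, Complex.log_one, add_zero]
  · filter_upwards [eventually_ne_nhds ha] with s hs
    have h1 : Complex.exp (Complex.log s) = Complex.exp (Complex.log a + Complex.log (s / a)) := by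
      rw [Complex.exp_log hs, Complex.exp_add, Complex.exp_log ha, Complex.exp_log (div_ne_zero hs ha), mul_div_cancel₀ s ha]
    obtain ⟨m, hm⟩ := Complex.exp_eq_exp_iff_exists_int.1 h1
    exact ⟨m, hm⟩

/-- **The theorem of Abhyankar and Jung.** -/
theorem abhyankar_jung {p : Fin d → ℂ × ℂ → ℂ} (hp : ∀ i, AnalyticAt ℂ (p i) 0)
    (hs : ∀ᶠ x in 𝓝 (0 : ℂ × ℂ), x.1 ≠ 0 → x.2 ≠ 0 → ∀ l : Fin d → ℂ, (∀ t, pv d (fun i => p i x) t = ∏ j, (t - l j)) → Function.Injective l) :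
    ∃ n : ℕ, 1 ≤ n ∧ ∃ L : Fin d → ℂ × ℂ → ℂ, (∀ j, AnalyticAt ℂ (L j) 0) ∧
      ∀ᶠ s in 𝓝 (0 : ℂ × ℂ), ∀ t, pv d (fun i => p i (s.1 ^ n, s.2 ^ n)) t = ∏ j, (t - L j s) := by
  -- the radius
  have hpe : ∀ᶠ x in 𝓝 (0 : ℂ × ℂ), ∀ i, AnalyticAt ℂ (p i) x := eventually_all.2 fun i => (hp i).eventually_analyticAt
  have hbd : ∀ᶠ x in 𝓝 (0 : ℂ × ℂ), ‖fv p x‖ < ‖fv p 0‖ + 1 :=
    ((fv_analytic hp).continuousAt.norm).eventually_lt_const (by linarith)
  obtain ⟨r, hr, hball⟩ := Metric.eventually_nhds_iff_ball.1 ((hpe.and hs).and hbd)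
  set c : ℝ := Real.log r with hc
  -- the half space
  set Ω : Set (ℂ × ℂ) := {ω | ω.1.re < c ∧ ω.2.re < c} with hΩ
  have hΩo : IsOpen Ω := by
    refine IsOpen.inter ?_ ?_
    · exact isOpen_lt (Complex.continuous_re.comp continuous_fst) continuous_const
    · exact isOpen_lt (Complex.continuous_re.comp continuous_snd) continuous_const
  have hΩc : Convex ℝ Ω := by
    refine Convex.inter ?_ ?_
    · exact convex_halfSpace_lt ((Complex.reLm.comp (LinearMap.fst ℝ ℂ ℂ)).isLinear) c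
    · exact convex_halfSpace_lt ((Complex.reLm.comp (LinearMap.snd ℝ ℂ ℂ)).isLinear) c
  have hexp : ∀ u : ℂ, u.re < c → ‖Complex.exp u‖ < r := by
    intro u hu
    rw [Complex.norm_exp, ← Real.lt_log_iff_exp_lt hr]
    exact hu
  have hEball : ∀ ω ∈ Ω, ee ω ∈ ball (0 : ℂ × ℂ) r := by
    intro ω hω
    rw [mem_ball_zero_iff, Prod.norm_def]
    exact max_lt (hexp _ hω.1) (hexp _ hω.2)
  set P : Fin d → ℂ × ℂ → ℂ := fun i ω => p i (ee ω) with hP
  have hPan : ∀ i, ∀ ω ∈ Ω, AnalyticAt ℂ (P i) ω := fun i ω hω =>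
    ((hball _ (hEball ω hω)).1.1 i).fun_comp (ee_analytic ω)
  have hPs : Simp Ω P := by
    intro ω hω l hl
    exact (hball _ (hEball ω hω)).1.2 (Complex.exp_ne_zero _) (Complex.exp_ne_zero _) l hl
  obtain ⟨F, hFan, hFr⟩ := exists_sections hΩo hΩc hPan hPs
  have hFc : ContinuousOn F Ω := fun ω hω => (hFan ω hω).continuousAt.continuousWithinAt
  -- translations
  set T : ℂ := 2 * Real.pi * Complex.I with hT
  have hTre : T.re = 0 := by simp [hT]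
  have hmem1 : ∀ (m : ℂ), m.im = 0 → ∀ ω ∈ Ω, (ω.1 + m * T, ω.2) ∈ Ω := by
    intro m hm ω hω
    refine ⟨?_, hω.2⟩
    show (ω.1 + m * T).re < c
    rw [Complex.add_re, Complex.mul_re, hTre, hm]
    simpa using hω.1
  have hmem2 : ∀ (m : ℂ), m.im = 0 → ∀ ω ∈ Ω, (ω.1, ω.2 + m * T) ∈ Ω := by
    intro m hm ω hω
    refine ⟨hω.1, ?_⟩
    show (ω.2 + m * T).re < c
    rw [Complex.add_re, Complex.mul_re, hTre, hm]
    simpa using hω.2
  have hexpT : ∀ (u : ℂ), Complex.exp (u + 1 * T) = Complex.exp u := by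
    intro u
    rw [one_mul, hT]
    exact Complex.exp_periodic u
  obtain ⟨σ₁, hσ₁⟩ := sections_perm (G := fun ω => F (ω.1 + 1 * T, ω.2)) hΩo hΩc hPan hPs hFc
    (hFc.comp (by fun_prop) fun ω hω => hmem1 1 (by simp) ω hω) hFr (fun ω hω => by
      rw [hFr _ (hmem1 1 (by simp) ω hω)]
      have h1 : ee (ω.1 + 1 * T, ω.2) = ee ω := by simp only [ee, hexpT]
      funext i
      simp only [fv, hP, h1])
  obtain ⟨σ₂, hσ₂⟩ := sections_perm (G := fun ω => F (ω.1, ω.2 + 1 * T)) hΩo hΩc hPan hPs hFc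
    (hFc.comp (by fun_prop) fun ω hω => hmem2 1 (by simp) ω hω) hFr (fun ω hω => by
      rw [hFr _ (hmem2 1 (by simp) ω hω)]
      have h1 : ee (ω.1, ω.2 + 1 * T) = ee ω := by simp only [ee, hexpT]
      funext i
      simp only [fv, hP, h1])
  have hk1 : ∀ (k : ℕ), ∀ ω ∈ Ω, ∀ j, F (ω.1 + k * T, ω.2) j = F ω ((σ₁ ^ k) j) := by
    intro k
    induction k with
    | zero => intro ω _ j; simp
    | succ k ih =>
      intro ω hω j
      have h1 := hσ₁ _ (hmem1 k (by simp) ω hω) j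
      have h2 : (ω.1 + ((k + 1 : ℕ) : ℂ) * T, ω.2) = ((ω.1 + (k : ℂ) * T, ω.2).1 + 1 * T, (ω.1 + (k : ℂ) * T, ω.2).2) := by
        refine Prod.ext ?_ rfl
        simp only
        push_cast
        ring
      rw [h2, h1, ih ω hω, pow_succ, Equiv.Perm.mul_apply]
  have hk2 : ∀ (k : ℕ), ∀ ω ∈ Ω, ∀ j, F (ω.1, ω.2 + k * T) j = F ω ((σ₂ ^ k) j) := by
    intro k
    induction k with
    | zero => intro ω _ j; simp
    | succ k ih =>
      intro ω hω j
      have h1 := hσ₂ _ (hmem2 k (by simp) ω hω) j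
      have h2 : (ω.1, ω.2 + ((k + 1 : ℕ) : ℂ) * T) = ((ω.1, ω.2 + (k : ℂ) * T).1, (ω.1, ω.2 + (k : ℂ) * T).2 + 1 * T) := by
        refine Prod.ext rfl ?_
        simp only
        push_cast
        ring
      rw [h2, h1, ih ω hω, pow_succ, Equiv.Perm.mul_apply]
  set n : ℕ := Fintype.card (Equiv.Perm (Fin d)) with hn
  have hn1 : 1 ≤ n := Fintype.card_pos
  have hn0 : (0 : ℝ) < n := by exact_mod_cast hn1
  have hper1 : ∀ ω ∈ Ω, ∀ m : ℤ, F (ω.1 + m * (n * T), ω.2) = F ω := by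
    intro ω hω m
    refine per_int (S := {u : ℂ | (u, ω.2) ∈ Ω}) (T := n * T) (f := fun u => F (u, ω.2)) ?_ ?_ m ω.1 hω
    · intro u hu m
      have h1 := hmem1 (m * n) (by simp) (u, ω.2) hu
      have h2 : u + (m : ℂ) * (n * T) = u + (m : ℂ) * n * T := by ring
      show (u + (m : ℂ) * (n * T), ω.2) ∈ Ω
      rw [h2]
      exact h1
    · intro u hu
      funext j
      rw [hk1 n (u, ω.2) hu j, hn, pow_card_eq_one, Equiv.Perm.one_apply]
  have hper2 : ∀ ω ∈ Ω, ∀ m : ℤ, F (ω.1, ω.2 + m * (n * T)) = F ω := by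
    intro ω hω m
    refine per_int (S := {u : ℂ | (ω.1, u) ∈ Ω}) (T := n * T) (f := fun u => F (ω.1, u)) ?_ ?_ m ω.2 hω
    · intro u hu m
      have h1 := hmem2 (m * n) (by simp) (ω.1, u) hu
      have h2 : u + (m : ℂ) * (n * T) = u + (m : ℂ) * n * T := by ring
      show (ω.1, u + (m : ℂ) * (n * T)) ∈ Ω
      rw [h2]
      exact h1
    · intro u hu
      funext j
      rw [hk2 n (ω.1, u) hu j, hn, pow_card_eq_one, Equiv.Perm.one_apply]
  -- the radius upstairs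
  set ρ : ℝ := Real.exp (c / n) with hρ
  have hρ0 : 0 < ρ := Real.exp_pos _
  have hlogmem : ∀ s : ℂ, s ≠ 0 → ‖s‖ < ρ → ((n : ℂ) * Complex.log s).re < c := by
    intro s hs0 hsρ
    have h1 : Real.log ‖s‖ < c / n := by
      rw [Real.log_lt_iff_lt_exp (norm_pos_iff.2 hs0)]
      exact hsρ
    have h2 : ((n : ℂ) * Complex.log s).re = n * Real.log ‖s‖ := by
      rw [Complex.mul_re, Complex.natCast_re, Complex.natCast_im, Complex.log_re]
      ring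
    rw [h2]
    rw [lt_div_iff₀ hn0] at h1
    linarith
  set L : Fin d → ℂ × ℂ → ℂ := fun j s => F (n * Complex.log s.1, n * Complex.log s.2) j with hL
  have hmemL : ∀ s ∈ ball (0 : ℂ × ℂ) ρ, s.1 ≠ 0 → s.2 ≠ 0 → ((n : ℂ) * Complex.log s.1, (n : ℂ) * Complex.log s.2) ∈ Ω := by
    intro s hsb h1 h2
    rw [mem_ball_zero_iff, Prod.norm_def, max_lt_iff] at hsb
    exact ⟨hlogmem _ h1 hsb.1, hlogmem _ h2 hsb.2⟩
  have hLr : ∀ s ∈ ball (0 : ℂ × ℂ) ρ, s.1 ≠ 0 → s.2 ≠ 0 → rm d (fun j => L j s) = fv p (s.1 ^ n, s.2 ^ n) := by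
    intro s hsb h1 h2
    have h3 := hFr _ (hmemL s hsb h1 h2)
    have h4 : ee ((n : ℂ) * Complex.log s.1, (n : ℂ) * Complex.log s.2) = (s.1 ^ n, s.2 ^ n) := by
      simp only [ee]
      rw [Complex.exp_nat_mul, Complex.exp_nat_mul, Complex.exp_log h1, Complex.exp_log h2]
    have h5 : fv P ((n : ℂ) * Complex.log s.1, (n : ℂ) * Complex.log s.2) = fv p (s.1 ^ n, s.2 ^ n) := by
      funext i
      simp only [fv, hP, h4]
    rw [← h5, ← h3]
  have hpow : ∀ s ∈ ball (0 : ℂ × ℂ) ρ, (s.1 ^ n, s.2 ^ n) ∈ ball (0 : ℂ × ℂ) r := by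
    intro s hsb
    rw [mem_ball_zero_iff, Prod.norm_def, max_lt_iff] at hsb
    have h1 : ∀ z : ℂ, ‖z‖ < ρ → ‖z ^ n‖ < r := by
      intro z hz
      rw [norm_pow]
      calc ‖z‖ ^ n < ρ ^ n := pow_lt_pow_left₀ hz (norm_nonneg _) (by omega)
        _ = r := by
          rw [hρ, ← Real.exp_nat_mul, mul_div_cancel₀ _ hn0.ne', hc, Real.exp_log hr]
    rw [mem_ball_zero_iff, Prod.norm_def]
    exact max_lt (h1 _ hsb.1) (h1 _ hsb.2)
  have hLan : ∀ j, ∀ s ∈ ball (0 : ℂ × ℂ) ρ, s.1 ≠ 0 → s.2 ≠ 0 → AnalyticAt ℂ (L j) s := by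
    intro j s hsb h1 h2
    obtain ⟨l₁, hl₁, hl₁0, hl₁e⟩ := local_log h1
    obtain ⟨l₂, hl₂, hl₂0, hl₂e⟩ := local_log h2
    have hF1 : AnalyticAt ℂ (fun ω => F ω j) ((n : ℂ) * l₁ s.1, (n : ℂ) * l₂ s.2) := by
      rw [hl₁0, hl₂0]
      exact (analyticAt_pi_iff.1 (hFan _ (hmemL s hsb h1 h2))) j
    have hin : AnalyticAt ℂ (fun s : ℂ × ℂ => ((n : ℂ) * l₁ s.1, (n : ℂ) * l₂ s.2)) s := by
      refine AnalyticAt.prod ?_ ?_
      · exact analyticAt_const.mul (hl₁.fun_comp analyticAt_fst)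
      · exact analyticAt_const.mul (hl₂.fun_comp analyticAt_snd)
    have hcomp : AnalyticAt ℂ (fun s : ℂ × ℂ => F ((n : ℂ) * l₁ s.1, (n : ℂ) * l₂ s.2) j) s :=
      AnalyticAt.fun_comp (g := fun ω => F ω j) (f := fun s : ℂ × ℂ => ((n : ℂ) * l₁ s.1, (n : ℂ) * l₂ s.2)) hF1 hin
    refine hcomp.congr ?_
    have he1 : ∀ᶠ s' in 𝓝 s, ∃ m : ℤ, Complex.log s'.1 = l₁ s'.1 + m * (2 * Real.pi * Complex.I) := continuous_fst.continuousAt.eventually hl₁e
    have he2 : ∀ᶠ s' in 𝓝 s, ∃ m : ℤ, Complex.log s'.2 = l₂ s'.2 + m * (2 * Real.pi * Complex.I) := continuous_snd.continuousAt.eventually hl₂e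
    have he3 : ∀ᶠ s' in 𝓝 s, ((n : ℂ) * l₁ s'.1, (n : ℂ) * l₂ s'.2) ∈ Ω := by
      refine hin.continuousAt.eventually (hΩo.mem_nhds ?_)
      simp only
      rw [hl₁0, hl₂0]
      exact hmemL s hsb h1 h2
    filter_upwards [he1, he2, he3] with s' ⟨m₁, hm₁⟩ ⟨m₂, hm₂⟩ hs'
    have h3 : ((n : ℂ) * l₁ s'.1 + m₁ * (n * T), (n : ℂ) * l₂ s'.2) ∈ Ω := by
      have := hmem1 (m₁ * n) (by simp) _ hs'
      have h2 : (n : ℂ) * l₁ s'.1 + (m₁ : ℂ) * (n * T) = (n : ℂ) * l₁ s'.1 + (m₁ : ℂ) * n * T := by ring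
      rw [h2]
      exact this
    have h4 := hper1 _ hs' m₁
    have h5 := hper2 _ h3 m₂
    simp only at h4 h5
    rw [hL]
    simp only
    rw [hm₁, hm₂, ← hT]
    have h6 : (n : ℂ) * (l₁ s'.1 + m₁ * T) = (n : ℂ) * l₁ s'.1 + m₁ * (n * T) := by ring
    have h7 : (n : ℂ) * (l₂ s'.2 + m₂ * T) = (n : ℂ) * l₂ s'.2 + m₂ * (n * T) := by ring
    rw [h6, h7, h5, h4]
  have hLb : ∀ j, ∀ s ∈ ball (0 : ℂ × ℂ) ρ, s.1 ≠ 0 → s.2 ≠ 0 → ‖L j s‖ ≤ |‖fv p 0‖ + 1| * 2 ^ d + d + 1 := by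
    intro j s hsb h1 h2
    refine rm_bound (fun j => L j s) (fun i => ?_) j
    rw [hLr s hsb h1 h2]
    exact (norm_le_pi_norm _ i).trans (hball _ (hpow s hsb)).2.le
  -- extension
  have hh : AnalyticAt ℂ (fun s : ℂ × ℂ => s.1 * s.2) 0 := analyticAt_fst.mul analyticAt_snd
  have hline : ∀ s : ℂ × ℂ, ∀ᶠ ε in 𝓝[≠] (0 : ℂ), (s.1 + ε) * (s.2 + ε) ≠ 0 := by
    intro s
    have h1 : ∀ a : ℂ, ∀ᶠ ε in 𝓝[≠] (0 : ℂ), a + ε ≠ 0 := by
      intro a
      rcases eq_or_ne a 0 with rfl | ha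
      · filter_upwards [self_mem_nhdsWithin] with ε hε
        simpa using hε
      · have h2 : ∀ᶠ ε in 𝓝 (0 : ℂ), a + ε ≠ 0 := by
          have h3 : ContinuousAt (fun ε : ℂ => a + ε) 0 := (continuous_const.add continuous_id).continuousAt
          exact h3.eventually_ne (by simpa using ha)
        exact h2.filter_mono nhdsWithin_le_nhds
    filter_upwards [h1 s.1, h1 s.2] with ε h2 h3
    exact mul_ne_zero h2 h3
  have htend : ∀ s : ℂ × ℂ, Tendsto (fun ε : ℂ => (s.1 + ε, s.2 + ε)) (𝓝[≠] 0) (𝓝 s) := by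
    intro s
    have h1 : Tendsto (fun ε : ℂ => (s.1 + ε, s.2 + ε)) (𝓝 0) (𝓝 (s.1 + 0, s.2 + 0)) := by
      have : Continuous fun ε : ℂ => (s.1 + ε, s.2 + ε) := by fun_prop
      exact this.tendsto 0
    rw [add_zero, add_zero] at h1
    exact h1.mono_left nhdsWithin_le_nhds
  have hne : ¬ ∀ᶠ y in 𝓝 (0 : ℂ × ℂ), y.1 * y.2 = 0 := by
    intro h
    obtain ⟨ε, h1, h2⟩ := (((htend 0).eventually h).and (hline 0)).exists
    exact h2 h1
  have hext : ∀ j, ∃ φ : ℂ × ℂ → ℂ, AnalyticAt ℂ φ 0 ∧ ∀ᶠ y in 𝓝 (0 : ℂ × ℂ), y.1 * y.2 ≠ 0 → φ y = L j y := by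
    intro j
    refine Pool.Agent.TG.riemann_one hh hne ?_ (M := |‖fv p 0‖ + 1| * 2 ^ d + d + 1) ?_
    · filter_upwards [ball_mem_nhds (0 : ℂ × ℂ) hρ0] with s hs0 hs1
      exact hLan j s hs0 (left_ne_zero_of_mul hs1) (right_ne_zero_of_mul hs1)
    · filter_upwards [ball_mem_nhds (0 : ℂ × ℂ) hρ0] with s hs0 hs1
      exact hLb j s hs0 (left_ne_zero_of_mul hs1) (right_ne_zero_of_mul hs1)
  choose φ hφ hφe using hext
  refine ⟨n, hn1, φ, hφ, ?_⟩
  -- the identity near `0`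
  have hpn : AnalyticAt ℂ (fun s : ℂ × ℂ => fv p (s.1 ^ n, s.2 ^ n)) 0 := by
    have h1 : AnalyticAt ℂ (fun s : ℂ × ℂ => (s.1 ^ n, s.2 ^ n)) 0 := (analyticAt_fst.pow n).prod (analyticAt_snd.pow n)
    have h2 : ((fun s : ℂ × ℂ => (s.1 ^ n, s.2 ^ n)) 0) = 0 := by
      show (((0 : ℂ × ℂ).1) ^ n, ((0 : ℂ × ℂ).2) ^ n) = 0
      simp [zero_pow (show n ≠ 0 by omega)]
    have h3 : AnalyticAt ℂ (fv p) ((fun s : ℂ × ℂ => (s.1 ^ n, s.2 ^ n)) 0) := by
      rw [h2]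
      exact fv_analytic hp
    exact AnalyticAt.fun_comp (g := fv p) (f := fun s : ℂ × ℂ => (s.1 ^ n, s.2 ^ n)) h3 h1
  have hψ : AnalyticAt ℂ (fun s : ℂ × ℂ => rm d (fun j => φ j s)) 0 :=
    (rm_analytic _).fun_comp (analyticAt_pi_iff.2 hφ)
  have hag : ∀ᶠ s in 𝓝 (0 : ℂ × ℂ), s.1 * s.2 ≠ 0 → rm d (fun j => φ j s) = fv p (s.1 ^ n, s.2 ^ n) := by
    filter_upwards [eventually_all.2 hφe, ball_mem_nhds (0 : ℂ × ℂ) hρ0] with s h1 h2 h3
    rw [← hLr s h2 (left_ne_zero_of_mul h3) (right_ne_zero_of_mul h3)]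
    congr 1
    funext j
    exact h1 j h3
  filter_upwards [hpn.eventually_analyticAt, hψ.eventually_analyticAt, hag.eventually_nhds] with s h1 h2 h3 t
  have h4 : rm d (fun j => φ j s) = fv p (s.1 ^ n, s.2 ^ n) := by
    refine tendsto_nhds_unique (h2.continuousAt.tendsto.comp (htend s)) (((h1.continuousAt.tendsto).comp (htend s)).congr' ?_)
    filter_upwards [(htend s).eventually h3, hline s] with ε h5 h6
    exact (h5 h6).symm
  exact pv_of_rm h4 t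

end Pool.Agent.MQ.AJ
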