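import Mathlib

/-!
# MQ AJCov: the roots of a monic polynomial as a covering

`rm d l` are the values at `0, …, d - 1` of the monic polynomial with the roots `l`.  It is a proper map, a local homeomorphism at the injective `l`,
so a covering over the polynomials with distinct roots.
-/

set_option autoImplicit false

open Topology Filter

noncomputable section

namespace Pool.Agent.MQ.AJ

variable {d : ℕ}

/-- the values at `0, …, d - 1` of the monic polynomial with the roots `l` -/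
def rm (d : ℕ) (l : Fin d → ℂ) : Fin d → ℂ := fun i => ∏ j, (((i : ℕ) : ℂ) - l j)

theorem rm_analytic (l : Fin d → ℂ) : AnalyticAt ℂ (rm d) l := by
  unfold rm
  rw [analyticAt_pi_iff]
  intro i
  have h : ∀ j ∈ (Finset.univ : Finset (Fin d)), AnalyticAt ℂ (fun l : Fin d → ℂ => ((i : ℕ) : ℂ) - l j) l := fun j _ =>
    analyticAt_const.sub ((ContinuousLinearMap.proj (R := ℂ) (φ := fun _ : Fin d => ℂ) j).analyticAt l)
  exact Finset.analyticAt_fun_prod _ h

theorem rm_continuous : Continuous (rm d) := continuous_iff_continuousAt.2 fun l => (rm_analytic l).continuousAt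

open Polynomial in
/-- a polynomial of degree `< d` which vanishes at `0, …, d - 1` is zero -/
theorem poly_zero {p : ℂ[X]} (hp : p.degree < d) (h : ∀ i : Fin d, p.eval (((i : ℕ) : ℂ)) = 0) : p = 0 := by
  refine Polynomial.eq_zero_of_degree_lt_of_eval_finset_eq_zero (s := (Finset.univ : Finset (Fin d)).map
    ⟨fun i : Fin d => (((i : ℕ) : ℂ)), fun i j hij => Fin.ext (Nat.cast_injective hij)⟩) ?_ ?_
  · simpa using hp
  · intro x hx
    simp only [Finset.mem_map, Finset.mem_univ, true_and] at hx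
    obtain ⟨i, rfl⟩ := hx
    exact h i

open Polynomial in
/-- two monic polynomials of degree `d` with the same values at `0, …, d - 1` agree -/
theorem monic_eq {p q : ℂ[X]} (hp : p.Monic) (hq : q.Monic) (hpd : p.natDegree = d) (hqd : q.natDegree = d)
    (h : ∀ i : Fin d, p.eval (((i : ℕ) : ℂ)) = q.eval (((i : ℕ) : ℂ))) : p = q := by
  have h1 : (p - q).degree < d := by
    rw [← hpd, ← Polynomial.degree_eq_natDegree hp.ne_zero]
    refine Polynomial.degree_sub_lt_left ?_ hp.ne_zero ?_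
    · rw [Polynomial.degree_eq_natDegree hp.ne_zero, Polynomial.degree_eq_natDegree hq.ne_zero, hpd, hqd]
    · rw [hp.leadingCoeff, hq.leadingCoeff]
  have h2 := poly_zero h1 fun i => by rw [Polynomial.eval_sub, h i, sub_self]
  exact sub_eq_zero.1 h2

open Polynomial in
/-- the monic polynomial with the roots `l` -/
def mp (l : Fin d → ℂ) : ℂ[X] := ∏ j, (X - C (l j))

theorem mp_eval (l : Fin d → ℂ) (t : ℂ) : (mp l).eval t = ∏ j, (t - l j) := by
  simp [mp, Polynomial.eval_prod]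

theorem mp_monic (l : Fin d → ℂ) : (mp l).Monic := Polynomial.monic_prod_X_sub_C _ _

theorem mp_natDegree (l : Fin d → ℂ) : (mp l).natDegree = d := by
  rw [mp, Polynomial.natDegree_finsetProd_X_sub_C_eq_card]
  simp

theorem mp_eq_of_rm {l m : Fin d → ℂ} (h : rm d l = rm d m) : mp l = mp m := by
  refine monic_eq (mp_monic l) (mp_monic m) (mp_natDegree l) (mp_natDegree m) fun i => ?_
  rw [mp_eval, mp_eval]
  exact congrFun h i

theorem prod_eq_of_rm {l m : Fin d → ℂ} (h : rm d l = rm d m) (t : ℂ) : ∏ j, (t - l j) = ∏ j, (t - m j) := by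
  rw [← mp_eval, ← mp_eval, mp_eq_of_rm h]

/-- the fibres are finite -/
theorem rm_fiber_finite (x : Fin d → ℂ) : (rm d ⁻¹' {x}).Finite := by
  rcases Set.eq_empty_or_nonempty (rm d ⁻¹' {x}) with h | ⟨m, hm⟩
  · rw [h]
    exact Set.finite_empty
  · have hm' : rm d m = x := hm
    refine (Set.Finite.pi' (t := fun _ : Fin d => Set.range m) fun _ => Set.finite_range m).subset ?_
    intro l hl j
    have hl' : rm d l = x := hl
    have h1 := prod_eq_of_rm (hl'.trans hm'.symm) (l j)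
    rw [Finset.prod_eq_zero (Finset.mem_univ j) (sub_self _)] at h1
    obtain ⟨k, -, hk⟩ := Finset.prod_eq_zero_iff.1 h1.symm
    exact ⟨k, (sub_eq_zero.1 hk).symm⟩

/-- roots are bounded by the values -/
theorem rm_bound {C : ℝ} (l : Fin d → ℂ) (h : ∀ i, ‖rm d l i‖ ≤ C) (j : Fin d) : ‖l j‖ ≤ |C| * 2 ^ d + d + 1 := by
  by_contra hcon
  rw [not_le] at hcon
  have hC : C ≤ |C| := le_abs_self C
  have hC0 : 0 ≤ |C| := abs_nonneg C
  have h2 : (0 : ℝ) < 2 ^ d := by positivity
  -- every `i` is near some root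
  have hnear : ∀ i : Fin d, ∃ k : Fin d, ‖((i : ℕ) : ℂ) - l k‖ < 1 / 2 := by
    intro i
    by_contra hno
    push Not at hno
    have hi : ‖((i : ℕ) : ℂ)‖ ≤ d := by
      rw [Complex.norm_natCast]
      exact_mod_cast i.2.le
    have hbig : |C| * 2 ^ d + 1 < ‖((i : ℕ) : ℂ) - l j‖ := by
      have := norm_sub_norm_le (l j) (((i : ℕ) : ℂ))
      rw [norm_sub_rev] at this
      linarith
    have h3 : (|C| * 2 ^ d + 1) * (1 / 2) ^ (d - 1) ≤ ‖rm d l i‖ := by
      rw [rm, norm_prod, ← Finset.mul_prod_erase _ _ (Finset.mem_univ j)]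
      refine mul_le_mul hbig.le ?_ (by positivity) (norm_nonneg _)
      calc ((1 : ℝ) / 2) ^ (d - 1) = ∏ _k ∈ (Finset.univ : Finset (Fin d)).erase j, ((1 : ℝ) / 2) := by
            rw [Finset.prod_const, Finset.card_erase_of_mem (Finset.mem_univ j), Finset.card_univ, Fintype.card_fin]
        _ ≤ _ := Finset.prod_le_prod (fun _ _ => by positivity) fun k _ => hno k
    have h4 : (0 : ℝ) < (1 / 2) ^ (d - 1) := by positivity
    have hd : 1 ≤ d := Nat.one_le_iff_ne_zero.2 fun h0 => by subst h0; exact j.elim0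
    have h5 : (2 : ℝ) ^ d * (1 / 2) ^ (d - 1) = 2 := by
      obtain ⟨e, rfl⟩ := Nat.exists_eq_add_of_le hd
      rw [Nat.add_sub_cancel_left, pow_add, pow_one, one_div, inv_pow]
      field_simp
    have h6 : (|C| * 2 ^ d + 1) * (1 / 2) ^ (d - 1) = 2 * |C| + (1 / 2) ^ (d - 1) := by
      rw [add_mul, mul_assoc, h5]
      ring
    have h7 := h3.trans (h i)
    rw [h6] at h7
    linarith
  choose k hk using hnear
  have hinj : Function.Injective k := by
    intro a b hab
    have h1 := hk a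
    have h2 := hk b
    rw [hab] at h1
    have h3 : ‖((a : ℕ) : ℂ) - ((b : ℕ) : ℂ)‖ < 1 := by
      have h4 : ((a : ℕ) : ℂ) - ((b : ℕ) : ℂ) = (((a : ℕ) : ℂ) - l (k b)) - (((b : ℕ) : ℂ) - l (k b)) := by ring
      rw [h4]
      refine (norm_sub_le _ _).trans_lt ?_
      linarith
    have h5 : ‖(((a : ℕ) : ℤ) - ((b : ℕ) : ℤ) : ℤ)‖ < 1 := by
      rw [Int.norm_eq_abs]
      have h6 : ‖((((a : ℕ) : ℤ) - ((b : ℕ) : ℤ) : ℤ) : ℂ)‖ < 1 := by push_cast; exact h3
      rw [Complex.norm_intCast] at h6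
      exact h6
    have h7 : (((a : ℕ) : ℤ) - ((b : ℕ) : ℤ) : ℤ) = 0 := by
      rw [Int.norm_eq_abs] at h5
      have h8 : |(((a : ℕ) : ℤ) - ((b : ℕ) : ℤ) : ℤ)| < 1 := by exact_mod_cast h5
      exact Int.abs_lt_one_iff.1 h8
    exact Fin.ext (by omega)
  obtain ⟨a, ha⟩ := (Finite.injective_iff_surjective.1 hinj) j
  have h1 := hk a
  rw [ha] at h1
  have hi : ‖((a : ℕ) : ℂ)‖ ≤ d := by
    rw [Complex.norm_natCast]
    exact_mod_cast a.2.le
  have h3 := norm_sub_norm_le (l j) (((a : ℕ) : ℂ))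
  rw [norm_sub_rev] at h3
  have h4 : 0 ≤ |C| * 2 ^ d := by positivity
  linarith

theorem rm_proper : IsProperMap (rm d) := by
  rw [isProperMap_iff_tendsto_cocompact]
  refine ⟨rm_continuous, Filter.tendsto_cocompact_cocompact_of_norm fun ε => ⟨|ε| * 2 ^ d + d + 1, fun l hl => ?_⟩⟩
  by_contra hcon
  rw [not_lt] at hcon
  have h1 : ‖l‖ ≤ |ε| * 2 ^ d + d + 1 :=
    (pi_norm_le_iff_of_nonneg (by positivity)).2 fun j => rm_bound l (fun i => (norm_le_pi_norm _ i).trans hcon) j
  linarith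

/-- the derivative of `rm` -/
def rmD (l : Fin d → ℂ) : (Fin d → ℂ) →L[ℂ] (Fin d → ℂ) :=
  ContinuousLinearMap.pi fun i => ∑ j, (∏ k ∈ Finset.univ.erase j, (((i : ℕ) : ℂ) - l k)) • (-(ContinuousLinearMap.proj (R := ℂ) (φ := fun _ : Fin d => ℂ) j))

theorem rm_hasFDerivAt (l : Fin d → ℂ) : HasFDerivAt (rm d) (rmD l) l := by
  unfold rm rmD
  rw [hasFDerivAt_pi]
  intro i
  refine HasFDerivAt.finsetProd (u := (Finset.univ : Finset (Fin d))) (g := fun j (l : Fin d → ℂ) => ((i : ℕ) : ℂ) - l j) fun j _ => ?_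
  exact ((ContinuousLinearMap.proj (R := ℂ) (φ := fun _ : Fin d => ℂ) j).hasFDerivAt).const_sub _

open Polynomial in
theorem rmD_injective {l : Fin d → ℂ} (hl : Function.Injective l) : Function.Injective (rmD l) := by
  rw [injective_iff_map_eq_zero]
  intro h h0
  set p : ℂ[X] := ∑ j, C (h j) * ∏ k ∈ Finset.univ.erase j, (X - C (l k)) with hp
  have hev : ∀ t, p.eval t = ∑ j, h j * ∏ k ∈ Finset.univ.erase j, (t - l k) := by
    intro t
    simp [hp, Polynomial.eval_finsetSum, Polynomial.eval_prod]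
  have hdeg : p.degree < d := by
    rw [hp]
    refine (Polynomial.degree_sum_le _ _).trans_lt ?_
    rw [Finset.sup_lt_iff (by exact WithBot.bot_lt_coe d)]
    intro j _
    refine (Polynomial.degree_mul_le _ _).trans_lt ?_
    have hd : 1 ≤ d := Nat.one_le_iff_ne_zero.2 fun h0 => by subst h0; exact j.elim0
    have h1 : (∏ k ∈ Finset.univ.erase j, (X - C (l k)) : ℂ[X]).degree = ((d - 1 : ℕ) : WithBot ℕ) := by
      rw [Polynomial.degree_prod]
      simp only [Polynomial.degree_X_sub_C, Finset.sum_const, Finset.card_erase_of_mem (Finset.mem_univ j), Finset.card_univ, Fintype.card_fin]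
      simp
    rw [h1]
    calc (C (h j) : ℂ[X]).degree + ((d - 1 : ℕ) : WithBot ℕ) ≤ 0 + ((d - 1 : ℕ) : WithBot ℕ) := by
          gcongr
          exact Polynomial.degree_C_le
      _ < d := by
          rw [zero_add]
          exact_mod_cast Nat.sub_lt hd one_pos
  have hz : ∀ i : Fin d, p.eval (((i : ℕ) : ℂ)) = 0 := by
    intro i
    have h1 := congrFun h0 i
    simp only [rmD, ContinuousLinearMap.coe_pi', FunLike.coe_sum, Finset.sum_apply, FunLike.coe_smul, Pi.smul_apply,
      neg_apply, ContinuousLinearMap.proj_apply, smul_eq_mul, Pi.zero_apply] at h1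
    rw [hev]
    have h2 : ∑ j, h j * ∏ k ∈ Finset.univ.erase j, (((i : ℕ) : ℂ) - l k) = - ∑ j, (∏ k ∈ Finset.univ.erase j, (((i : ℕ) : ℂ) - l k)) * -h j := by
      rw [← Finset.sum_neg_distrib]
      exact Finset.sum_congr rfl fun j _ => by ring
    rw [h2, h1, neg_zero]
  have hp0 := poly_zero hdeg hz
  funext j
  have h1 := hev (l j)
  rw [hp0, Polynomial.eval_zero, Finset.sum_eq_single j] at h1
  · have h2 : ∏ k ∈ Finset.univ.erase j, (l j - l k) ≠ 0 := by
      rw [Finset.prod_ne_zero_iff]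
      intro k hk
      rw [sub_ne_zero]
      exact fun h => (Finset.ne_of_mem_erase hk) (hl h.symm)
    exact (mul_eq_zero.1 h1.symm).resolve_right h2
  · intro k _ hk
    rw [Finset.prod_eq_zero (Finset.mem_erase.2 ⟨hk.symm, Finset.mem_univ j⟩) (sub_self _), mul_zero]
  · intro h
    exact absurd (Finset.mem_univ j) h

/-- the derivative as an equivalence -/
theorem rm_equiv {l : Fin d → ℂ} (hl : Function.Injective l) : ∃ e : (Fin d → ℂ) ≃L[ℂ] (Fin d → ℂ), (e : (Fin d → ℂ) →L[ℂ] (Fin d → ℂ)) = rmD l := by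
  let e := (LinearEquiv.ofInjectiveEndo (rmD l : (Fin d → ℂ) →ₗ[ℂ] (Fin d → ℂ)) (rmD_injective hl)).toContinuousLinearEquiv
  exact ⟨e, by ext x; rfl⟩

/-- a local inverse -/
theorem rm_local {l : Fin d → ℂ} (hl : Function.Injective l) :
    ∃ e : OpenPartialHomeomorph (Fin d → ℂ) (Fin d → ℂ), l ∈ e.source ∧ (e : (Fin d → ℂ) → (Fin d → ℂ)) = rm d ∧ AnalyticAt ℂ e.symm (rm d l) := by
  obtain ⟨i, hi⟩ := rm_equiv hl
  have hd : HasFDerivAt (rm d) (i : (Fin d → ℂ) →L[ℂ] (Fin d → ℂ)) l := by rw [hi]; exact rm_hasFDerivAt l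
  have hs : HasStrictFDerivAt (rm d) (i : (Fin d → ℂ) →L[ℂ] (Fin d → ℂ)) l := (rm_analytic l).hasStrictFDerivAt.congr_fderiv hd.fderiv
  refine ⟨hs.toOpenPartialHomeomorph (rm d), hs.mem_toOpenPartialHomeomorph_source, hs.toOpenPartialHomeomorph_coe, ?_⟩
  refine OpenPartialHomeomorph.analyticAt_symm' (i := i) _ hs.mem_toOpenPartialHomeomorph_source ?_ ?_
  · rw [hs.toOpenPartialHomeomorph_coe]
    exact rm_analytic l
  · rw [hs.toOpenPartialHomeomorph_coe]
    exact hd.fderiv

/-- the values of the polynomials with distinct roots -/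
def simp (d : ℕ) : Set (Fin d → ℂ) := {x | ∀ l, rm d l = x → Function.Injective l}

theorem rm_cov : IsCoveringMapOn (rm d) (simp d) := by
  refine rm_proper.isClosedMap.isCoveringMapOn_of_isLocalHomeomorphOn (fun x _ => rm_fiber_finite x) ?_
  intro l hl
  obtain ⟨e, h1, h2, -⟩ := rm_local (hl l rfl)
  exact ⟨e, h1, h2.symm⟩

end Pool.Agent.MQ.AJ
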