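import Pool.Agent.MQ.AJMul

/-!
# MQ AJM: the theorem of Abhyankar and Jung for families with multiple roots
-/

set_option autoImplicit false

open Topology Filter Metric

noncomputable section

namespace Pool.Agent.MQ.AJ

variable {d e : ℕ}

private theorem line_ne (s : ℂ × ℂ) : ∀ᶠ ε in 𝓝[≠] (0 : ℂ), (s.1 + ε) ≠ 0 ∧ (s.2 + ε) ≠ 0 := by
  have h1 : ∀ a : ℂ, ∀ᶠ ε in 𝓝[≠] (0 : ℂ), a + ε ≠ 0 := by
    intro a
    rcases eq_or_ne a 0 with rfl | ha
    · filter_upwards [self_mem_nhdsWithin] with ε hε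
      simpa using hε
    · have h2 : ∀ᶠ ε in 𝓝 (0 : ℂ), a + ε ≠ 0 := by
        have h3 : ContinuousAt (fun ε : ℂ => a + ε) 0 := (continuous_const.add continuous_id).continuousAt
        exact h3.eventually_ne (by simpa using ha)
      exact h2.filter_mono nhdsWithin_le_nhds
  exact (h1 s.1).and (h1 s.2)

private theorem line_tendsto (s : ℂ × ℂ) : Tendsto (fun ε : ℂ => (s.1 + ε, s.2 + ε)) (𝓝[≠] 0) (𝓝 s) := by
  have h1 : Tendsto (fun ε : ℂ => (s.1 + ε, s.2 + ε)) (𝓝 0) (𝓝 (s.1 + 0, s.2 + 0)) := by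
    have : Continuous fun ε : ℂ => (s.1 + ε, s.2 + ε) := by fun_prop
    exact this.tendsto 0
  rw [add_zero, add_zero] at h1
  exact h1.mono_left nhdsWithin_le_nhds

/-- a punctured bidisc is connected -/
private theorem punctured_preconnected (r : ℝ) : IsPreconnected {s : ℂ × ℂ | s ∈ ball (0 : ℂ × ℂ) r ∧ s.1 ≠ 0 ∧ s.2 ≠ 0} := by
  rcases le_or_gt r 0 with hr | hr
  · have : {s : ℂ × ℂ | s ∈ ball (0 : ℂ × ℂ) r ∧ s.1 ≠ 0 ∧ s.2 ≠ 0} = ∅ := by
      ext s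
      simp [ball_eq_empty.2 hr]
    rw [this]
    exact isPreconnected_empty
  set c := Real.log r
  have h1 : {s : ℂ × ℂ | s ∈ ball (0 : ℂ × ℂ) r ∧ s.1 ≠ 0 ∧ s.2 ≠ 0} =
      (fun ω : ℂ × ℂ => (Complex.exp ω.1, Complex.exp ω.2)) '' {ω | ω.1.re < c ∧ ω.2.re < c} := by
    ext s
    simp only [Set.mem_ofPred_eq, Set.mem_image, Prod.exists]
    rw [mem_ball_zero_iff, Prod.norm_def, max_lt_iff]
    constructor
    · rintro ⟨⟨h1, h2⟩, h3, h4⟩
      refine ⟨Complex.log s.1, Complex.log s.2, ⟨?_, ?_⟩, ?_⟩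
      · rw [Complex.log_re]
        exact Real.log_lt_log (norm_pos_iff.2 h3) h1
      · rw [Complex.log_re]
        exact Real.log_lt_log (norm_pos_iff.2 h4) h2
      · rw [Complex.exp_log h3, Complex.exp_log h4]
    · rintro ⟨a, b, ⟨h1, h2⟩, rfl⟩
      refine ⟨⟨?_, ?_⟩, Complex.exp_ne_zero _, Complex.exp_ne_zero _⟩
      · rw [Complex.norm_exp, ← Real.lt_log_iff_exp_lt hr]
        exact h1
      · rw [Complex.norm_exp, ← Real.lt_log_iff_exp_lt hr]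
        exact h2
  rw [h1]
  refine IsPreconnected.image ?_ _ (by fun_prop)
  refine Convex.isPreconnected ?_
  refine Convex.inter ?_ ?_
  · exact convex_halfSpace_lt ((Complex.reLm.comp (LinearMap.fst ℝ ℂ ℂ)).isLinear) c
  · exact convex_halfSpace_lt ((Complex.reLm.comp (LinearMap.snd ℝ ℂ ℂ)).isLinear) c

/-- **The theorem of Abhyankar and Jung with multiplicities.** -/
theorem abhyankar_jung_mul {p : Fin d → ℂ × ℂ → ℂ} (hp : ∀ i, AnalyticAt ℂ (p i) 0)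
    (hs : ∀ᶠ x in 𝓝 (0 : ℂ × ℂ), x.1 ≠ 0 → x.2 ≠ 0 → ∀ l : Fin d → ℂ, (∀ t, pv d (fun i => p i x) t = ∏ j, (t - l j)) → (Finset.univ.image l).card = e) :
    ∃ n : ℕ, 1 ≤ n ∧ ∃ (L : Fin e → ℂ × ℂ → ℂ) (m : Fin e → ℕ), (∀ k, 1 ≤ m k) ∧ (∀ k, AnalyticAt ℂ (L k) 0) ∧
      (∀ᶠ s in 𝓝 (0 : ℂ × ℂ), s.1 ≠ 0 → s.2 ≠ 0 → Function.Injective fun k => L k s) ∧
      ∀ᶠ s in 𝓝 (0 : ℂ × ℂ), ∀ t, pv d (fun i => p i (s.1 ^ n, s.2 ^ n)) t = ∏ k, (t - L k s) ^ m k := by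
  classical
  -- roots
  choose l hl using fun x : ℂ × ℂ => exists_roots fun i => p i x
  have hm' : ∀ x : ℂ × ℂ, ∃ m : Fin e → ℂ, (Finset.univ.image (l x)).card = e →
      Function.Injective m ∧ (∀ j, ∃ k, l x j = m k) ∧ ∀ k, ∃ j, m k = l x j := by
    intro x
    by_cases h : (Finset.univ.image (l x)).card = e
    · obtain ⟨m, h1⟩ := exists_distinct h
      exact ⟨m, fun _ => h1⟩
    · exact ⟨0, fun h' => absurd h' h⟩
  choose m hm using hm'
  have hcard : ∀ᶠ x in 𝓝 (0 : ℂ × ℂ), x.1 ≠ 0 → x.2 ≠ 0 → (Finset.univ.image (l x)).card = e := by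
    filter_upwards [hs] with x hx h1 h2
    exact hx h1 h2 _ (hl x)
  -- power sums
  choose S hSa hS using fun k => exists_psum (d := d) k
  have hpv : ∀ {x : ℂ × ℂ}, (∀ i, AnalyticAt ℂ (p i) x) → AnalyticAt ℂ (fun y => fun i => p i y) x := fun h => analyticAt_pi_iff.2 h
  have hSx : ∀ k {x : ℂ × ℂ}, (∀ i, AnalyticAt ℂ (p i) x) → AnalyticAt ℂ (fun y => ∑ j, l y j ^ k) x := by
    intro k x hx
    have h1 : (fun y => ∑ j, l y j ^ k) = fun y => S k (fun i => p i y) := by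
      funext y
      exact hS k _ _ (hl y)
    rw [h1]
    exact (hSa k _).fun_comp (hpv hx)
  have hpe : ∀ᶠ x in 𝓝 (0 : ℂ × ℂ), ∀ i, AnalyticAt ℂ (p i) x := eventually_all.2 fun i => (hp i).eventually_analyticAt
  -- the bound of the roots
  have hbd : ∀ᶠ x in 𝓝 (0 : ℂ × ℂ), ‖fv p x‖ < ‖fv p 0‖ + 1 :=
    ((fv_analytic hp).continuousAt.norm).eventually_lt_const (by linarith)
  have hroot : ∀ᶠ x in 𝓝 (0 : ℂ × ℂ), ∀ j, ‖l x j‖ ≤ |‖fv p 0‖ + 1| * 2 ^ d + d + 1 := by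
    filter_upwards [hbd] with x hx j
    refine rm_bound (l x) (fun i => ?_) j
    rw [rm_of_pv (hl x)]
    exact (norm_le_pi_norm (fv p x) i).trans hx.le
  obtain ⟨M, hM⟩ := coeff_bounded (d := e) (|‖fv p 0‖ + 1| * 2 ^ d + d + 1)
  -- the coefficients of the reduced polynomial
  have hh : AnalyticAt ℂ (fun s : ℂ × ℂ => s.1 * s.2) 0 := analyticAt_fst.mul analyticAt_snd
  have hne : ¬ ∀ᶠ y in 𝓝 (0 : ℂ × ℂ), y.1 * y.2 = 0 := by
    intro h
    obtain ⟨ε, h1, h2, h3⟩ := (((line_tendsto 0).eventually h).and (line_ne 0)).exists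
    exact (mul_ne_zero h2 h3) h1
  have hoff : ∀ y : ℂ × ℂ, y.1 ≠ 0 → y.2 ≠ 0 → ∀ᶠ y' in 𝓝 y, y'.1 ≠ 0 ∧ y'.2 ≠ 0 := fun y h1 h2 =>
    (continuous_fst.continuousAt.eventually_ne h1).and (continuous_snd.continuousAt.eventually_ne h2)
  have hq : ∀ i : Fin e, ∃ φ : ℂ × ℂ → ℂ, AnalyticAt ℂ φ 0 ∧ ∀ᶠ y in 𝓝 (0 : ℂ × ℂ), y.1 * y.2 ≠ 0 → φ y = (mp (m y)).coeff i := by
    intro i
    refine Pool.Agent.TG.riemann_one hh hne ?_ (M := M) ?_
    · filter_upwards [hpe, hcard.eventually_nhds] with y hy1 hy2 hy3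
      have h1 := left_ne_zero_of_mul hy3
      have h2 := right_ne_zero_of_mul hy3
      have hcy := hy2.self_of_nhds h1 h2
      obtain ⟨h3, h4, h5⟩ := hm y hcy
      refine solve_analytic (A := fun y => Matrix.of fun i j : Fin e => ∑ k, l y k ^ ((i : ℕ) + j)) (b := fun y i => -∑ k, l y k ^ ((i : ℕ) + e))
        (c := fun y i => (mp (m y)).coeff i) ?_ ?_ (hankel_det h3 h4 h5) ?_ i
      · intro a b
        exact hSx _ hy1
      · intro a
        exact (hSx _ hy1).fun_neg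
      · filter_upwards [hy2, hoff y h1 h2] with y' h6 h7
        obtain ⟨h8, h9, -⟩ := hm y' (h6 h7.1 h7.2)
        exact hankel_solve h8 h9
    · filter_upwards [hroot, hcard] with y hy1 hy2 hy3
      have hcy := hy2 (left_ne_zero_of_mul hy3) (right_ne_zero_of_mul hy3)
      refine hM _ (fun k => ?_) i
      obtain ⟨j, hj⟩ := (hm y hcy).2.2 k
      rw [hj]
      exact hy1 j
  choose q hqa hqe using hq
  have hqall : ∀ᶠ x in 𝓝 (0 : ℂ × ℂ), x.1 ≠ 0 → x.2 ≠ 0 → ∀ t, pv e (fun i => q i x) t = ∏ j, (t - m x j) := by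
    filter_upwards [eventually_all.2 hqe] with x hx h1 h2 t
    rw [← pv_coeff]
    congr 1
    funext i
    exact hx i (mul_ne_zero h1 h2)
  obtain ⟨n, hn, L, hLa, hLe⟩ := abhyankar_jung hqa (by
    filter_upwards [hqall, hcard] with x hx hcx h1 h2 l' hl'
    exact inj_of_prod (hm x (hcx h1 h2)).1 fun t => by rw [← hl', hx h1 h2])
  -- pull back
  have hpow : Tendsto (fun s : ℂ × ℂ => (s.1 ^ n, s.2 ^ n)) (𝓝 0) (𝓝 0) := by
    have h1 : Continuous fun s : ℂ × ℂ => (s.1 ^ n, s.2 ^ n) := by fun_prop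
    have h2 := h1.tendsto 0
    have h3 : ((0 : ℂ × ℂ).1 ^ n, (0 : ℂ × ℂ).2 ^ n) = 0 := by simp [zero_pow (show n ≠ 0 by omega)]
    rwa [h3] at h2
  have hgood : ∀ᶠ s in 𝓝 (0 : ℂ × ℂ), s.1 ≠ 0 → s.2 ≠ 0 → (Function.Injective fun k => L k s) ∧ (∀ j, ∃ k, l (s.1 ^ n, s.2 ^ n) j = L k s) ∧
      ∀ k, ∃ j, L k s = l (s.1 ^ n, s.2 ^ n) j := by
    filter_upwards [hLe, hpow.eventually hqall, hpow.eventually hcard] with s h1 h2 h3 h4 h5
    have h6 := h2 (pow_ne_zero n h4) (pow_ne_zero n h5)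
    obtain ⟨h7, h8, h9⟩ := hm _ (h3 (pow_ne_zero n h4) (pow_ne_zero n h5))
    have h10 : ∀ t, ∏ j, (t - L j s) = ∏ j, (t - m (s.1 ^ n, s.2 ^ n) j) := fun t => by rw [← h1, h6]
    have hLi : Function.Injective fun k => L k s := inj_of_prod h7 h10
    refine ⟨hLi, fun j => ?_, fun k => ?_⟩
    · obtain ⟨k, hk⟩ := h8 j
      have h11 := h10 (m (s.1 ^ n, s.2 ^ n) k)
      rw [Finset.prod_eq_zero (f := fun j => m (s.1 ^ n, s.2 ^ n) k - m (s.1 ^ n, s.2 ^ n) j) (Finset.mem_univ k) (sub_self _)] at h11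
      obtain ⟨k', -, hk'⟩ := Finset.prod_eq_zero_iff.1 h11
      exact ⟨k', by rw [hk]; exact sub_eq_zero.1 hk'⟩
    · have h11 := h10 (L k s)
      rw [Finset.prod_eq_zero (f := fun j => L k s - L j s) (Finset.mem_univ k) (sub_self _)] at h11
      obtain ⟨k', -, hk'⟩ := Finset.prod_eq_zero_iff.1 h11.symm
      obtain ⟨j, hj⟩ := h9 k'
      exact ⟨j, by rw [← hj]; exact sub_eq_zero.1 hk'⟩
  -- the radius
  have hpe' : ∀ᶠ s in 𝓝 (0 : ℂ × ℂ), ∀ i, AnalyticAt ℂ (p i) (s.1 ^ n, s.2 ^ n) := hpow.eventually hpe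
  have hLae : ∀ᶠ s in 𝓝 (0 : ℂ × ℂ), ∀ k, AnalyticAt ℂ (L k) s := eventually_all.2 fun k => (hLa k).eventually_analyticAt
  obtain ⟨r, hr, hball⟩ := Metric.eventually_nhds_iff_ball.1 ((hgood.and hpe').and hLae)
  set U : Set (ℂ × ℂ) := {s | s ∈ ball (0 : ℂ × ℂ) r ∧ s.1 ≠ 0 ∧ s.2 ≠ 0} with hU
  have hUo : IsOpen U := isOpen_ball.inter ((isOpen_ne.preimage continuous_fst).inter (isOpen_ne.preimage continuous_snd))
  -- multiplicities are continuous
  have hmc : ∀ k, ∀ s ∈ U, ContinuousAt (fun s => (mu (l (s.1 ^ n, s.2 ^ n)) (fun k => L k s) k : ℂ)) s := by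
    intro k s hsU
    obtain ⟨hsb, hs1, hs2⟩ := hsU
    have hU' : ∀ᶠ s' in 𝓝 s, s' ∈ U := hUo.mem_nhds ⟨hsb, hs1, hs2⟩
    refine (solve_analytic (A := fun s : ℂ × ℂ => (Matrix.vandermonde fun k => L k s).transpose) (b := fun s i => ∑ j, l (s.1 ^ n, s.2 ^ n) j ^ (i : ℕ))
      (c := fun s k => (mu (l (s.1 ^ n, s.2 ^ n)) (fun k => L k s) k : ℂ)) ?_ ?_ ?_ ?_ k).continuousAt
    · intro i j
      simp only [Matrix.transpose_apply, Matrix.vandermonde_apply]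
      exact ((hball s hsb).2 j).fun_pow _
    · intro i
      have h1 : AnalyticAt ℂ (fun y => ∑ j, l y j ^ (i : ℕ)) (s.1 ^ n, s.2 ^ n) := hSx i (hball s hsb).1.2
      exact AnalyticAt.fun_comp (g := fun y => ∑ j, l y j ^ (i : ℕ)) (f := fun s : ℂ × ℂ => (s.1 ^ n, s.2 ^ n)) h1
        ((analyticAt_fst.fun_pow n).prod (analyticAt_snd.fun_pow n))
    · rw [Matrix.det_transpose]
      exact Matrix.det_vandermonde_ne_zero_iff.2 ((hball s hsb).1.1 hs1 hs2).1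
    · filter_upwards [hU'] with s' hs'
      obtain ⟨hs'b, hs'1, hs'2⟩ := hs'
      obtain ⟨h1, h2, -⟩ := (hball s' hs'b).1.1 hs'1 hs'2
      funext i
      have h3 := sum_mu h1 h2 (fun t => t ^ (i : ℕ))
      rw [h3, Matrix.mulVec, dotProduct]
      refine Finset.sum_congr rfl fun k _ => ?_
      rw [Matrix.transpose_apply, Matrix.vandermonde_apply, mul_comm]
  have hUpc : IsPreconnected U := punctured_preconnected r
  obtain ⟨s₀, hs₀⟩ : U.Nonempty := by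
    refine ⟨(((r / 2 : ℝ) : ℂ), ((r / 2 : ℝ) : ℂ)), ?_, ?_, ?_⟩
    · rw [mem_ball_zero_iff, Prod.norm_def, max_lt_iff]
      simp only [Complex.norm_real, Real.norm_eq_abs]
      rw [abs_of_pos (by positivity)]
      exact ⟨by linarith, by linarith⟩
    · exact Complex.ofReal_ne_zero.2 (by positivity)
    · exact Complex.ofReal_ne_zero.2 (by positivity)
  have hconst : ∀ k, ∀ s ∈ U, mu (l (s.1 ^ n, s.2 ^ n)) (fun k => L k s) k = mu (l (s₀.1 ^ n, s₀.2 ^ n)) (fun k => L k s₀) k := by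
    intro k s hsU
    have hc : ContinuousOn (fun s => mu (l (s.1 ^ n, s.2 ^ n)) (fun k => L k s) k) U := by
      intro s hsU
      have h1 : ContinuousAt (fun s => (mu (l (s.1 ^ n, s.2 ^ n)) (fun k => L k s) k : ℂ)) s := hmc k s hsU
      have h2 : IsClosedEmbedding (fun k : ℕ => (k : ℂ)) := by
        have h3 := Complex.isometry_ofReal.isClosedEmbedding.comp Nat.isClosedEmbedding_coe_real
        exact h3
      exact (h2.isInducing.continuousAt_iff.2 h1).continuousWithinAt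
    exact hUpc.constant hc hsU hs₀
  refine ⟨n, hn, L, fun k => mu (l (s₀.1 ^ n, s₀.2 ^ n)) (fun k => L k s₀) k, ?_, hLa, ?_, ?_⟩
  · intro k
    exact mu_pos ((hball s₀ hs₀.1).1.1 hs₀.2.1 hs₀.2.2).2.2 k
  · filter_upwards [hgood] with s h1 h2 h3
    exact (h1 h2 h3).1
  · filter_upwards [ball_mem_nhds (0 : ℂ × ℂ) hr] with s hsb t
    have hoffU : ∀ s ∈ U, pv d (fun i => p i (s.1 ^ n, s.2 ^ n)) t = ∏ k, (t - L k s) ^ mu (l (s₀.1 ^ n, s₀.2 ^ n)) (fun k => L k s₀) k := by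
      intro s hsU
      obtain ⟨h1, h2, -⟩ := (hball s hsU.1).1.1 hsU.2.1 hsU.2.2
      rw [hl, prod_mu h1 h2 (fun z => t - z)]
      exact Finset.prod_congr rfl fun k _ => by rw [hconst k s hsU]
    have hc1 : ContinuousAt (fun s : ℂ × ℂ => pv d (fun i => p i (s.1 ^ n, s.2 ^ n)) t) s := by
      unfold pv
      refine continuousAt_const.add ?_
      refine tendsto_finsetSum _ fun i _ => ?_
      refine Tendsto.mul ?_ tendsto_const_nhds
      have h1 : ContinuousAt (p i) ((fun s : ℂ × ℂ => (s.1 ^ n, s.2 ^ n)) s) := ((hball s hsb).1.2 i).continuousAt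
      exact ContinuousAt.comp (f := fun s : ℂ × ℂ => (s.1 ^ n, s.2 ^ n)) h1 (by fun_prop)
    have hc2 : ContinuousAt (fun s : ℂ × ℂ => ∏ k, (t - L k s) ^ mu (l (s₀.1 ^ n, s₀.2 ^ n)) (fun k => L k s₀) k) s := by
      refine tendsto_finsetProd _ fun k _ => ?_
      exact (tendsto_const_nhds.sub ((hball s hsb).2 k).continuousAt).pow _
    refine tendsto_nhds_unique (hc1.tendsto.comp (line_tendsto s)) ((hc2.tendsto.comp (line_tendsto s)).congr' ?_)
    filter_upwards [(line_tendsto s).eventually (isOpen_ball.mem_nhds hsb), line_ne s] with ε h1 h2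
    exact (hoffU _ ⟨h1, h2.1, h2.2⟩).symm

end Pool.Agent.MQ.AJ
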