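import Pool.Agent.MQ.AJSec

/-!
# MQ AJPs: the power sums of the roots are holomorphic functions of the coefficients
-/

set_option autoImplicit false

open Topology Filter

noncomputable section

namespace Pool.Agent.MQ.AJ

variable {d : ℕ}

/-- the elementary symmetric functions of the roots -/
theorem exists_esymm (k : ℕ) : ∃ E : (Fin d → ℂ) → ℂ, (∀ p, AnalyticAt ℂ E p) ∧
    ∀ p l, (∀ t, pv d p t = ∏ j, (t - l j)) → MvPolynomial.aeval l (MvPolynomial.esymm (Fin d) ℂ k) = E p := by
  rcases Nat.eq_zero_or_pos k with rfl | hk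
  · refine ⟨fun _ => 1, fun _ => analyticAt_const, fun p l _ => ?_⟩
    simp
  by_cases hkd : k ≤ d
  · refine ⟨fun p => (-1) ^ k * p ⟨d - k, by omega⟩, fun p => analyticAt_const.mul
      ((ContinuousLinearMap.proj (R := ℂ) (φ := fun _ : Fin d => ℂ) ⟨d - k, by omega⟩).analyticAt p), fun p l h => ?_⟩
    have h1 : mp l = pp p := by
      refine monic_eq (mp_monic l) (pp_monic p) (mp_natDegree l) (pp_natDegree p) fun i => ?_
      rw [mp_eval, pp_eval, h]
    have h2 : (pp p).coeff (d - k) = p ⟨d - k, by omega⟩ := by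
      rw [pp, Polynomial.coeff_add, Polynomial.coeff_X_pow, if_neg (by omega), zero_add, Polynomial.finsetSum_coeff,
        Finset.sum_eq_single (⟨d - k, by omega⟩ : Fin d)]
      · simp
      · intro i _ hi
        rw [Polynomial.coeff_C_mul, Polynomial.coeff_X_pow, if_neg, mul_zero]
        intro h3
        exact hi (Fin.ext h3.symm)
      · intro h3
        exact absurd (Finset.mem_univ _) h3
    have h3 := Multiset.prod_X_sub_C_coeff ((Finset.univ : Finset (Fin d)).val.map l) (k := d - k) (by simp)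
    have h4 : (((Finset.univ : Finset (Fin d)).val.map l).map fun t => Polynomial.X - Polynomial.C t).prod = mp l := by
      rw [Multiset.map_map, mp]
      rfl
    have h5 : Multiset.card ((Finset.univ : Finset (Fin d)).val.map l) = d := by simp
    rw [h4, h1, h2, h5, show d - (d - k) = k by omega] at h3
    rw [MvPolynomial.aeval_esymm_eq_multiset_esymm]
    show _ = (-1) ^ k * p ⟨d - k, by omega⟩
    rw [h3, ← mul_assoc, ← mul_pow]
    norm_num
  · refine ⟨fun _ => 0, fun _ => analyticAt_const, fun p l _ => ?_⟩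
    rw [MvPolynomial.aeval_esymm_eq_multiset_esymm, Multiset.esymm, Multiset.powersetCard_eq_empty]
    · simp
    · simpa using hkd

/-- the power sums of the roots -/
theorem exists_psum (k : ℕ) : ∃ S : (Fin d → ℂ) → ℂ, (∀ p, AnalyticAt ℂ S p) ∧
    ∀ (p l : Fin d → ℂ), (∀ t, pv d p t = ∏ j, (t - l j)) → ∑ j, l j ^ k = S p := by
  have hps : ∀ (l : Fin d → ℂ) (k : ℕ), MvPolynomial.aeval l (MvPolynomial.psum (Fin d) ℂ k) = ∑ j, l j ^ k := by
    intro l k
    simp [MvPolynomial.psum]
  induction k using Nat.strong_induction_on with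
  | _ k ih =>
  rcases Nat.eq_zero_or_pos k with rfl | hk
  · exact ⟨fun _ => d, fun _ => analyticAt_const, fun p l _ => by simp⟩
  · have ih' : ∀ m : ℕ, ∃ S : (Fin d → ℂ) → ℂ, m < k → (∀ p, AnalyticAt ℂ S p) ∧ ∀ (p l : Fin d → ℂ), (∀ t, pv d p t = ∏ j, (t - l j)) → ∑ j, l j ^ m = S p := by
      intro m
      by_cases hm : m < k
      · obtain ⟨S, h1, h2⟩ := ih m hm
        exact ⟨S, fun _ => ⟨h1, h2⟩⟩
      · exact ⟨0, fun h => absurd h hm⟩
    choose S hS using ih'
    choose E hEa hE using fun k => exists_esymm (d := d) k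
    refine ⟨fun p => (-1) ^ (k + 1) * k * E k p - ∑ a ∈ (Finset.HasAntidiagonal.antidiagonal k : Finset (ℕ × ℕ)).filter (fun a => a.1 ∈ Set.Ioo 0 k), (-1) ^ a.1 * E a.1 p * S a.2 p, fun p => ?_, fun p l h => ?_⟩
    · refine (analyticAt_const.mul (hEa k p)).sub (Finset.analyticAt_fun_sum _ fun a ha => ?_)
      simp only [Finset.mem_filter, Finset.HasAntidiagonal.mem_antidiagonal, Set.mem_Ioo] at ha
      exact (analyticAt_const.mul (hEa a.1 p)).mul ((hS a.2 (by omega)).1 p)
    · rw [← hps, MvPolynomial.psum_eq_mul_esymm_sub_sum (Fin d) ℂ k hk, map_sub, map_mul, map_sum, hE k p l h]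
      congr 1
      · simp
      · refine Finset.sum_congr rfl fun a ha => ?_
        simp only [Finset.mem_filter, Finset.HasAntidiagonal.mem_antidiagonal, Set.mem_Ioo] at ha
        rw [map_mul, map_mul, hE a.1 p l h, hps, (hS a.2 (by omega)).2 p l h]
        simp

end Pool.Agent.MQ.AJ
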