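import Pool.Agent.MQ.AJ
import Pool.Agent.MQ.AJPs

/-!
# MQ AJMul: the theorem of Abhyankar and Jung with multiplicities

The roots of a monic polynomial whose coefficients are holomorphic near `0` in `ℂ²` are holomorphic functions of `(x ^ (1 / n), y ^ (1 / n))`, if
the number of distinct roots is constant outside the axes.
-/

set_option autoImplicit false

open Topology Filter Metric

noncomputable section

namespace Pool.Agent.MQ.AJ

variable {d e : ℕ}

/-- the coefficients of the monic polynomial with the roots `l` -/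
theorem pv_coeff (l : Fin d → ℂ) (t : ℂ) : pv d (fun i => (mp l).coeff i) t = ∏ j, (t - l j) := by
  rw [← mp_eval, Polynomial.eval_eq_sum_range, mp_natDegree, Finset.sum_range_succ, ← Fin.sum_univ_eq_sum_range (fun i => (mp l).coeff i * t ^ i)]
  have h : (mp l).coeff d = 1 := by
    have := (mp_monic l).coeff_natDegree
    rwa [mp_natDegree] at this
  rw [h, pv]
  ring

theorem coeff_continuous (i : Fin d) : Continuous fun l : Fin d → ℂ => (mp l).coeff i := by
  have h : (fun l : Fin d → ℂ => (mp l).coeff i) = fun l => (-1) ^ (d - i) * MvPolynomial.aeval l (MvPolynomial.esymm (Fin d) ℂ (d - i)) := by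
    funext l
    have h3 := Multiset.prod_X_sub_C_coeff ((Finset.univ : Finset (Fin d)).val.map l) (k := i) (by simp [i.2.le])
    have h4 : (((Finset.univ : Finset (Fin d)).val.map l).map fun t => Polynomial.X - Polynomial.C t).prod = mp l := by
      rw [Multiset.map_map, mp]
      rfl
    have h5 : Multiset.card ((Finset.univ : Finset (Fin d)).val.map l) = d := by simp
    rw [h4, h5] at h3
    rw [h3, MvPolynomial.aeval_esymm_eq_multiset_esymm]
  rw [h]
  refine continuous_const.mul ?_
  simp only [MvPolynomial.aeval_eq_eval]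
  exact MvPolynomial.continuous_eval _

theorem coeff_bounded (R : ℝ) : ∃ M : ℝ, ∀ l : Fin d → ℂ, (∀ k, ‖l k‖ ≤ R) → ∀ i : Fin d, ‖(mp l).coeff i‖ ≤ M := by
  have h : Continuous fun l : Fin d → ℂ => fun i : Fin d => (mp l).coeff i := continuous_pi fun i => coeff_continuous i
  obtain ⟨M, hM⟩ := (isCompact_closedBall (0 : Fin d → ℂ) |R|).exists_bound_of_continuousOn h.continuousOn
  refine ⟨M, fun l hl i => ?_⟩
  have h1 : l ∈ closedBall (0 : Fin d → ℂ) |R| := by
    rw [mem_closedBall_zero_iff, pi_norm_le_iff_of_nonneg (abs_nonneg R)]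
    exact fun k => (hl k).trans (le_abs_self R)
  exact (norm_le_pi_norm (fun i : Fin d => (mp l).coeff i) i).trans (hM l h1)

/-- determinants of analytic matrices -/
theorem det_analytic {E : Type*} [NormedAddCommGroup E] [NormedSpace ℂ E] {A : E → Matrix (Fin e) (Fin e) ℂ} {x : E}
    (h : ∀ i j, AnalyticAt ℂ (fun y => A y i j) x) : AnalyticAt ℂ (fun y => (A y).det) x := by
  have h1 : (fun y => (A y).det) = fun y => ∑ σ : Equiv.Perm (Fin e), ((Equiv.Perm.sign σ : ℤ) : ℂ) * ∏ i, A y (σ i) i := by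
    funext y
    rw [Matrix.det_apply']
  rw [h1]
  refine Finset.analyticAt_fun_sum _ fun σ _ => analyticAt_const.mul ?_
  exact Finset.analyticAt_fun_prod _ fun i _ => h _ _

/-- the solution of a regular linear system is analytic -/
theorem solve_analytic {E : Type*} [NormedAddCommGroup E] [NormedSpace ℂ E] {A : E → Matrix (Fin e) (Fin e) ℂ} {b c : E → Fin e → ℂ} {x : E}
    (hA : ∀ i j, AnalyticAt ℂ (fun y => A y i j) x) (hb : ∀ i, AnalyticAt ℂ (fun y => b y i) x) (hdet : (A x).det ≠ 0)
    (h : ∀ᶠ y in 𝓝 x, (A y).mulVec (c y) = b y) (i : Fin e) : AnalyticAt ℂ (fun y => c y i) x := by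
  have hd := det_analytic hA
  have h1 : AnalyticAt ℂ (fun y => ((A y).updateCol i (b y)).det) x := by
    refine det_analytic fun k j => ?_
    rcases eq_or_ne j i with rfl | hj
    · simp only [Matrix.updateCol_self]
      exact hb k
    · simp only [Matrix.updateCol_ne hj]
      exact hA k j
  refine (h1.div hd hdet).congr ?_
  filter_upwards [h, hd.continuousAt.eventually_ne hdet] with y hy hdy
  have h2 : (A y).cramer (b y) = (A y).det • c y := by
    rw [Matrix.cramer_eq_adjugate_mulVec, ← hy, Matrix.mulVec_mulVec, Matrix.adjugate_mul, Matrix.smul_mulVec, Matrix.one_mulVec]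
  have h3 : ((A y).updateCol i (b y)).det = (A y).det * c y i := by
    rw [← Matrix.cramer_apply, h2]
    rfl
  show ((A y).updateCol i (b y)).det / (A y).det = c y i
  rw [h3, mul_div_cancel_left₀ _ hdy]

/-- families of distinct numbers with the same product -/
theorem inj_of_prod {l m : Fin e → ℂ} (hm : Function.Injective m) (h : ∀ t, ∏ j, (t - l j) = ∏ j, (t - m j)) : Function.Injective l := by
  have hex : ∀ k, ∃ j, m k = l j := by
    intro k
    have h1 := h (m k)
    rw [Finset.prod_eq_zero (f := fun j => m k - m j) (Finset.mem_univ k) (sub_self _)] at h1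
    obtain ⟨j, -, hj⟩ := Finset.prod_eq_zero_iff.1 h1
    exact ⟨j, sub_eq_zero.1 hj⟩
  choose s hs using hex
  have hsi : Function.Injective s := fun a b hab => hm (by rw [hs a, hs b, hab])
  obtain ⟨-, hsu⟩ := Finite.injective_iff_bijective.1 hsi
  intro a b hab
  obtain ⟨a', rfl⟩ := hsu a
  obtain ⟨b', rfl⟩ := hsu b
  rw [← hs, ← hs] at hab
  rw [hm hab]

/-- the distinct roots -/
theorem exists_distinct {l : Fin d → ℂ} (h : (Finset.univ.image l).card = e) :
    ∃ m : Fin e → ℂ, Function.Injective m ∧ (∀ j, ∃ k, l j = m k) ∧ ∀ k, ∃ j, m k = l j := by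
  classical
  let g := (Finset.univ.image l).equivFinOfCardEq h
  refine ⟨fun k => (g.symm k : ℂ), fun a b hab => g.symm.injective (Subtype.ext hab), fun j => ?_, fun k => ?_⟩
  · refine ⟨g ⟨l j, Finset.mem_image_of_mem l (Finset.mem_univ j)⟩, ?_⟩
    simp
  · obtain ⟨j, -, hj⟩ := Finset.mem_image.1 (g.symm k).2
    exact ⟨j, hj.symm⟩

/-- multiplicities -/
def mu (l : Fin d → ℂ) (m : Fin e → ℂ) (k : Fin e) : ℕ := by
  classical exact (Finset.univ.filter fun j => l j = m k).card

theorem mu_pos {l : Fin d → ℂ} {m : Fin e → ℂ} (h : ∀ k, ∃ j, m k = l j) (k : Fin e) : 1 ≤ mu l m k := by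
  classical
  obtain ⟨j, hj⟩ := h k
  exact Finset.card_pos.2 ⟨j, Finset.mem_filter.2 ⟨Finset.mem_univ j, hj.symm⟩⟩

theorem prod_mu {l : Fin d → ℂ} {m : Fin e → ℂ} (hm : Function.Injective m) (h : ∀ j, ∃ k, l j = m k) (f : ℂ → ℂ) :
    ∏ j, f (l j) = ∏ k, f (m k) ^ mu l m k := by
  classical
  choose s hs using h
  rw [← Finset.prod_fiberwise_of_maps_to (s := Finset.univ) (t := Finset.univ) (g := s) (fun _ _ => Finset.mem_univ _)]
  refine Finset.prod_congr rfl fun k _ => ?_
  have h1 : (Finset.univ.filter fun j => s j = k) = Finset.univ.filter fun j => l j = m k := by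
    refine Finset.filter_congr fun j _ => ?_
    rw [hs j]
    exact ⟨fun h => by rw [h], fun h => hm h⟩
  have h2 : ∏ j ∈ Finset.univ.filter (fun j => s j = k), f (l j) = ∏ j ∈ Finset.univ.filter (fun j => s j = k), f (m k) := by
    refine Finset.prod_congr rfl fun j hj => ?_
    rw [hs j, (Finset.mem_filter.1 hj).2]
  rw [h2, Finset.prod_const, h1]
  rfl

theorem sum_mu {l : Fin d → ℂ} {m : Fin e → ℂ} (hm : Function.Injective m) (h : ∀ j, ∃ k, l j = m k) (f : ℂ → ℂ) :
    ∑ j, f (l j) = ∑ k, (mu l m k : ℂ) * f (m k) := by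
  classical
  choose s hs using h
  rw [← Finset.sum_fiberwise_of_maps_to (s := Finset.univ) (t := Finset.univ) (g := s) (fun _ _ => Finset.mem_univ _)]
  refine Finset.sum_congr rfl fun k _ => ?_
  have h1 : (Finset.univ.filter fun j => s j = k) = Finset.univ.filter fun j => l j = m k := by
    refine Finset.filter_congr fun j _ => ?_
    rw [hs j]
    exact ⟨fun h => by rw [h], fun h => hm h⟩
  have h2 : ∑ j ∈ Finset.univ.filter (fun j => s j = k), f (l j) = ∑ j ∈ Finset.univ.filter (fun j => s j = k), f (m k) := by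
    refine Finset.sum_congr rfl fun j hj => ?_
    rw [hs j, (Finset.mem_filter.1 hj).2]
  rw [h2, Finset.sum_const, h1, nsmul_eq_mul]
  rfl

/-- the Hankel matrix of the power sums -/
theorem hankel_eq {l : Fin d → ℂ} {m : Fin e → ℂ} (hm : Function.Injective m) (h : ∀ j, ∃ k, l j = m k) :
    (Matrix.of fun i j : Fin e => ∑ k, l k ^ ((i : ℕ) + j)) = (Matrix.vandermonde m).transpose * Matrix.diagonal (fun k => (mu l m k : ℂ)) * Matrix.vandermonde m := by
  ext i j
  rw [Matrix.of_apply, sum_mu hm h (fun t => t ^ ((i : ℕ) + j)), Matrix.mul_apply]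
  refine Finset.sum_congr rfl fun k _ => ?_
  rw [Matrix.mul_diagonal, Matrix.transpose_apply, Matrix.vandermonde_apply, Matrix.vandermonde_apply, pow_add]
  ring

theorem hankel_det {l : Fin d → ℂ} {m : Fin e → ℂ} (hm : Function.Injective m) (h : ∀ j, ∃ k, l j = m k) (h' : ∀ k, ∃ j, m k = l j) :
    (Matrix.of fun i j : Fin e => ∑ k, l k ^ ((i : ℕ) + j)).det ≠ 0 := by
  rw [hankel_eq hm h, Matrix.det_mul, Matrix.det_mul, Matrix.det_transpose, Matrix.det_diagonal]
  have h1 : (Matrix.vandermonde m).det ≠ 0 := Matrix.det_vandermonde_ne_zero_iff.2 hm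
  have h2 : ∏ k, (mu l m k : ℂ) ≠ 0 := by
    rw [Finset.prod_ne_zero_iff]
    intro k _
    exact_mod_cast (Nat.one_le_iff_ne_zero.1 (mu_pos h' k))
  exact mul_ne_zero (mul_ne_zero h1 h2) h1

theorem hankel_solve {l : Fin d → ℂ} {m : Fin e → ℂ} (_hm : Function.Injective m) (h : ∀ j, ∃ k, l j = m k) :
    (Matrix.of fun i j : Fin e => ∑ k, l k ^ ((i : ℕ) + j)).mulVec (fun i : Fin e => (mp m).coeff i) = fun i : Fin e => -∑ k, l k ^ ((i : ℕ) + e) := by
  funext i
  rw [Matrix.mulVec, dotProduct]
  simp only [Matrix.of_apply]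
  rw [eq_neg_iff_add_eq_zero]
  have h1 : ∀ k, l k ^ ((i : ℕ)) * (pv e (fun i : Fin e => (mp m).coeff i) (l k)) = 0 := by
    intro k
    obtain ⟨j, hj⟩ := h k
    rw [pv_coeff, Finset.prod_eq_zero (Finset.mem_univ j) (by rw [hj, sub_self]), mul_zero]
  calc (∑ j : Fin e, (∑ k, l k ^ ((i : ℕ) + j)) * (mp m).coeff j) + ∑ k, l k ^ ((i : ℕ) + e)
      = ∑ k, l k ^ ((i : ℕ)) * (pv e (fun i : Fin e => (mp m).coeff i) (l k)) := by
        have h2 : ∑ j : Fin e, (∑ k, l k ^ ((i : ℕ) + j)) * (mp m).coeff j = ∑ k, ∑ j : Fin e, l k ^ ((i : ℕ) + j) * (mp m).coeff j := by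
          rw [Finset.sum_comm]
          exact Finset.sum_congr rfl fun j _ => by rw [Finset.sum_mul]
        rw [h2, ← Finset.sum_add_distrib]
        refine Finset.sum_congr rfl fun k _ => ?_
        rw [pv, mul_add, Finset.mul_sum, pow_add, add_comm]
        congr 1
        exact Finset.sum_congr rfl fun j _ => by rw [pow_add]; ring
    _ = 0 := Finset.sum_eq_zero fun k _ => h1 k

end Pool.Agent.MQ.AJ
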