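import Pool.Agent.MQ.AJCov

/-!
# MQ AJSec: the roots of a holomorphic family of monic polynomials with simple roots over a convex open set
-/

set_option autoImplicit false

open Topology Filter

noncomputable section

namespace Pool.Agent.MQ.AJ

variable {d : ℕ}

/-- the value at `t` of the monic polynomial with the lower coefficients `p` -/
def pv (d : ℕ) (p : Fin d → ℂ) (t : ℂ) : ℂ := t ^ d + ∑ i, p i * t ^ (i : ℕ)

open Polynomial in
/-- the monic polynomial with the lower coefficients `p` -/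
def pp (p : Fin d → ℂ) : ℂ[X] := X ^ d + ∑ i, C (p i) * X ^ (i : ℕ)

theorem pp_eval (p : Fin d → ℂ) (t : ℂ) : (pp p).eval t = pv d p t := by
  simp [pp, pv, Polynomial.eval_finsetSum]

open Polynomial in
theorem pp_deg (p : Fin d → ℂ) : (∑ i, C (p i) * X ^ (i : ℕ) : ℂ[X]).degree < d := by
  refine (Polynomial.degree_sum_le _ _).trans_lt ?_
  rw [Finset.sup_lt_iff (by exact WithBot.bot_lt_coe d)]
  intro i _
  refine (Polynomial.degree_C_mul_X_pow_le _ _).trans_lt ?_
  exact_mod_cast i.2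

theorem pp_monic (p : Fin d → ℂ) : (pp p).Monic := Polynomial.monic_X_pow_add (pp_deg p)

theorem pp_natDegree (p : Fin d → ℂ) : (pp p).natDegree = d := by
  have h : (pp p).degree = d := by
    rw [pp, Polynomial.degree_add_eq_left_of_degree_lt]
    · exact Polynomial.degree_X_pow d
    · rw [Polynomial.degree_X_pow]
      exact pp_deg p
  exact Polynomial.natDegree_eq_of_degree_eq_some h

/-- a monic polynomial with the right values at `0, …, d - 1` -/
theorem pv_of_rm {p : Fin d → ℂ} {l : Fin d → ℂ} (h : rm d l = fun i : Fin d => pv d p ((i : ℕ) : ℂ)) (t : ℂ) : pv d p t = ∏ j, (t - l j) := by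
  rw [← pp_eval, ← mp_eval]
  congr 1
  refine monic_eq (pp_monic p) (mp_monic l) (pp_natDegree p) (mp_natDegree l) fun i => ?_
  rw [pp_eval, mp_eval]
  exact (congrFun h i).symm

theorem rm_of_pv {p : Fin d → ℂ} {l : Fin d → ℂ} (h : ∀ t, pv d p t = ∏ j, (t - l j)) : rm d l = fun i : Fin d => pv d p ((i : ℕ) : ℂ) := by
  funext i
  rw [h]
  rfl

/-- the roots -/
theorem exists_roots (p : Fin d → ℂ) : ∃ l : Fin d → ℂ, ∀ t, pv d p t = ∏ j, (t - l j) := by
  have hs : (pp p).Splits := IsAlgClosed.splits _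
  have h1 := hs.eq_prod_roots_of_monic (pp_monic p)
  have h2 : (pp p).roots.card = d := by
    rw [← hs.natDegree_eq_card_roots, pp_natDegree]
  set L := (pp p).roots.toList with hL
  have h3 : L.length = d := by rw [hL, Multiset.length_toList, h2]
  refine ⟨fun j => L.get (j.cast h3.symm), fun t => ?_⟩
  rw [← pp_eval, h1, Polynomial.eval_multiset_prod, Multiset.map_map]
  have h4 : (pp p).roots = (L : Multiset ℂ) := by rw [hL, Multiset.coe_toList]
  rw [h4, Multiset.map_coe, Multiset.prod_coe]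
  have h5 : ∏ j : Fin d, (t - L.get (j.cast h3.symm)) = ∏ j : Fin L.length, (t - L.get j) := by
    refine Fintype.prod_equiv (finCongr h3.symm) _ _ fun j => ?_
    rfl
  rw [h5, ← List.prod_ofFn]
  congr 1
  refine List.ext_get (by simp) fun n h6 h7 => ?_
  simp

section

variable {E : Type*} [NormedAddCommGroup E] [NormedSpace ℂ E] {Ω : Set E} {p : Fin d → E → ℂ}

/-- all roots are simple over `Ω` -/
def Simp (Ω : Set E) (p : Fin d → E → ℂ) : Prop :=
  ∀ ω ∈ Ω, ∀ l : Fin d → ℂ, (∀ t, pv d (fun i => p i ω) t = ∏ j, (t - l j)) → Function.Injective l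

/-- the map to the values -/
def fv (p : Fin d → E → ℂ) (ω : E) : Fin d → ℂ := fun i => pv d (fun k => p k ω) ((i : ℕ) : ℂ)

theorem fv_analytic {ω : E} (hp : ∀ i, AnalyticAt ℂ (p i) ω) : AnalyticAt ℂ (fv p) ω := by
  unfold fv pv
  rw [analyticAt_pi_iff]
  intro i
  refine analyticAt_const.add ?_
  refine Finset.analyticAt_fun_sum _ fun k _ => ?_
  exact (hp k).mul analyticAt_const

omit [NormedAddCommGroup E] [NormedSpace ℂ E] in
theorem fv_mem (hs : Simp Ω p) {ω : E} (hω : ω ∈ Ω) : fv p ω ∈ simp d := fun l hl => hs ω hω l (pv_of_rm hl)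

/-- a continuous family of roots is analytic -/
theorem roots_analytic (hΩ : IsOpen Ω) (hp : ∀ i, ∀ ω ∈ Ω, AnalyticAt ℂ (p i) ω) (hs : Simp Ω p) {F : E → Fin d → ℂ} (hF : ContinuousOn F Ω)
    (h : ∀ ω ∈ Ω, rm d (F ω) = fv p ω) : ∀ ω ∈ Ω, AnalyticAt ℂ F ω := by
  intro ω hω
  have hinj : Function.Injective (F ω) := fv_mem hs hω _ (h ω hω)
  obtain ⟨e, h1, h2, h3⟩ := rm_local hinj
  have h4 : ∀ᶠ ω' in 𝓝 ω, F ω' = e.symm (fv p ω') := by
    have h5 : ∀ᶠ ω' in 𝓝 ω, F ω' ∈ e.source := (hF.continuousAt (hΩ.mem_nhds hω)).eventually (e.open_source.mem_nhds h1)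
    filter_upwards [h5, hΩ.mem_nhds hω] with ω' h6 h7
    rw [← h ω' h7, ← h2, e.left_inv h6]
  have h8 : AnalyticAt ℂ (fun ω' => e.symm (fv p ω')) ω := by
    rw [h ω hω] at h3
    exact h3.fun_comp (fv_analytic fun i => hp i ω hω)
  exact h8.congr (h4.mono fun _ h => h.symm)

/-- **The roots over a convex set.** -/
theorem exists_sections (hΩ : IsOpen Ω) (hc : Convex ℝ Ω) (hp : ∀ i, ∀ ω ∈ Ω, AnalyticAt ℂ (p i) ω) (hs : Simp Ω p) :
    ∃ F : E → Fin d → ℂ, (∀ ω ∈ Ω, AnalyticAt ℂ F ω) ∧ ∀ ω ∈ Ω, rm d (F ω) = fv p ω := by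
  rcases Set.eq_empty_or_nonempty Ω with he | hne
  · refine ⟨0, fun ω hω => ?_, fun ω hω => ?_⟩
    · rw [he] at hω
      exact absurd hω (Set.notMem_empty ω)
    · rw [he] at hω
      exact absurd hω (Set.notMem_empty ω)
  · have : ContractibleSpace Ω := hc.contractibleSpace hne
    have : LocallyPathConnectedSpace Ω := hΩ.locallyPathConnectedSpace
    obtain ⟨ω₀, hω₀⟩ := hne
    have hcf : Continuous fun ω : Ω => fv p ω.1 := by
      rw [continuous_iff_continuousAt]
      intro ω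
      exact ((fv_analytic fun i => hp i ω.1 ω.2).continuousAt).comp continuous_subtype_val.continuousAt
    obtain ⟨l₀, hl₀⟩ := exists_roots fun i => p i ω₀
    obtain ⟨F, ⟨-, hF⟩, -⟩ := rm_cov.existsUnique_continuousMap_lifts (A := Ω) ⟨fun ω : Ω => fv p ω.1, hcf⟩ (a₀ := ⟨ω₀, hω₀⟩) (e₀ := l₀)
      (rm_of_pv hl₀) fun ω => fv_mem hs ω.2
    classical
    set G : E → Fin d → ℂ := fun ω => if h : ω ∈ Ω then F ⟨ω, h⟩ else 0 with hG
    have hGF : ∀ ω (h : ω ∈ Ω), G ω = F ⟨ω, h⟩ := fun ω h => by rw [hG]; simp only [dif_pos h]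
    have hval : ∀ ω ∈ Ω, rm d (G ω) = fv p ω := by
      intro ω h
      rw [hGF ω h]
      exact congrFun hF ⟨ω, h⟩
    have hcont : ContinuousOn G Ω := by
      rw [continuousOn_iff_continuous_domRestrict]
      have h1 : Ω.domRestrict G = F := by
        funext ω
        exact hGF ω.1 ω.2
      rw [h1]
      exact F.continuous
    exact ⟨G, roots_analytic hΩ hp hs hcont hval, hval⟩

/-- two families of roots agree up to a permutation -/
theorem sections_perm (hΩ : IsOpen Ω) (hc : Convex ℝ Ω) (hp : ∀ i, ∀ ω ∈ Ω, AnalyticAt ℂ (p i) ω) (hs : Simp Ω p) {F G : E → Fin d → ℂ}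
    (hF : ContinuousOn F Ω) (hG : ContinuousOn G Ω) (hFr : ∀ ω ∈ Ω, rm d (F ω) = fv p ω) (hGr : ∀ ω ∈ Ω, rm d (G ω) = fv p ω) :
    ∃ σ : Equiv.Perm (Fin d), ∀ ω ∈ Ω, ∀ j, G ω j = F ω (σ j) := by
  rcases Set.eq_empty_or_nonempty Ω with he | hne
  · refine ⟨1, fun ω hω => ?_⟩
    rw [he] at hω
    exact absurd hω (Set.notMem_empty ω)
  · have : ContractibleSpace Ω := hc.contractibleSpace hne
    have : LocallyPathConnectedSpace Ω := hΩ.locallyPathConnectedSpace
    obtain ⟨ω₀, hω₀⟩ := hne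
    have hFi : Function.Injective (F ω₀) := fv_mem hs hω₀ _ (hFr ω₀ hω₀)
    have hGi : Function.Injective (G ω₀) := fv_mem hs hω₀ _ (hGr ω₀ hω₀)
    have hex : ∀ j, ∃ k, G ω₀ j = F ω₀ k := by
      intro j
      have h1 := prod_eq_of_rm ((hFr ω₀ hω₀).trans (hGr ω₀ hω₀).symm) (G ω₀ j)
      rw [Finset.prod_eq_zero (f := fun k => G ω₀ j - G ω₀ k) (Finset.mem_univ j) (sub_self _)] at h1
      obtain ⟨k, -, hk⟩ := Finset.prod_eq_zero_iff.1 h1
      exact ⟨k, sub_eq_zero.1 hk⟩
    choose s hs' using hex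
    have hsi : Function.Injective s := by
      intro a b hab
      apply hGi
      rw [hs' a, hs' b, hab]
    set σ : Equiv.Perm (Fin d) := Equiv.ofBijective s (Finite.injective_iff_bijective.1 hsi) with hσ
    have hcf : Continuous fun ω : Ω => fv p ω.1 := by
      rw [continuous_iff_continuousAt]
      intro ω
      exact ((fv_analytic fun i => hp i ω.1 ω.2).continuousAt).comp continuous_subtype_val.continuousAt
    have hcF : Continuous fun ω : Ω => F ω.1 := continuousOn_iff_continuous_domRestrict.1 hF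
    have hcG : Continuous fun ω : Ω => G ω.1 := continuousOn_iff_continuous_domRestrict.1 hG
    have hcFs : Continuous fun ω : Ω => fun j => F ω.1 (σ j) := continuous_pi fun j => (continuous_apply (σ j)).comp hcF
    have huniq := rm_cov.existsUnique_continuousMap_lifts (A := Ω) ⟨fun ω : Ω => fv p ω.1, hcf⟩ (a₀ := ⟨ω₀, hω₀⟩) (e₀ := G ω₀)
      (hGr ω₀ hω₀) fun ω => fv_mem hs ω.2
    have h1 := huniq.unique (y₁ := ⟨fun ω : Ω => G ω.1, hcG⟩) (y₂ := ⟨fun ω : Ω => fun j => F ω.1 (σ j), hcFs⟩) ⟨rfl, ?_⟩ ⟨?_, ?_⟩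
    · refine ⟨σ, fun ω hω j => ?_⟩
      have h2 := congrArg (fun f : C(Ω, Fin d → ℂ) => f ⟨ω, hω⟩ j) h1
      exact h2
    · funext ω
      exact hGr ω.1 ω.2
    · funext j
      exact (hs' j).symm
    · funext ω
      have h3 : rm d (fun j => F ω.1 (σ j)) = rm d (F ω.1) := by
        funext i
        exact Equiv.prod_comp σ fun j => ((i : ℕ) : ℂ) - F ω.1 j
      exact h3.trans (hFr ω.1 ω.2)

end

end Pool.Agent.MQ.AJ
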