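import Pool.Agent.MQ.CDefs

/-!
# MQ C6 AlgR: one form which vanishes on all the algebraic germs of a finite family
-/

set_option autoImplicit false

open Topology Filter MvPolynomial Asymptotics

noncomputable section

namespace Pool.Agent.MQ

open Pool.Agent.H36.BP (EN)

variable {M : ℕ}

theorem exists_alg {P : Ideal (MvPolynomial (Fin (M + 1)) ℂ)} [P.IsPrime] {r : ℕ} (c : Fin r → ℂ → EN M) :
    ∃ (R : MvPolynomial (Fin (M + 1)) ℂ) (d : ℕ), R.IsHomogeneous d ∧ R ∉ P ∧ ∀ i, NonAlgC P (c i) ∨ ∀ᶠ t in 𝓝 (0 : ℂ), eval (c i t).ofLp R = 0 := by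
  have hex : ∀ i, ∃ (R : MvPolynomial (Fin (M + 1)) ℂ) (d : ℕ), R.IsHomogeneous d ∧ R ∉ P ∧
      (NonAlgC P (c i) ∨ ∀ᶠ t in 𝓝 (0 : ℂ), eval (c i t).ofLp R = 0) := by
    intro i
    by_cases h : NonAlgC P (c i)
    · refine ⟨1, 0, isHomogeneous_one _ _, ?_, Or.inl h⟩
      intro h1
      exact (Ideal.IsPrime.ne_top ‹_›) ((Ideal.eq_top_iff_one _).2 h1)
    · simp only [NonAlgC, not_forall] at h
      obtain ⟨R, d, hR, hP, hn⟩ := h
      refine ⟨R, d, hR, hP, Or.inr ?_⟩
      rw [Filter.not_frequently] at hn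
      filter_upwards [hn] with t ht
      simpa using ht
  choose R d hR hP h using hex
  refine ⟨∏ i, R i, ∑ i, d i, IsHomogeneous.prod _ _ _ fun i _ => hR i, ?_, ?_⟩
  · intro hmem
    obtain ⟨i, -, hi⟩ := (Ideal.IsPrime.prod_mem_iff (p := P)).1 hmem
    exact hP i hi
  · intro i
    rcases h i with h1 | h1
    · exact Or.inl h1
    · right
      filter_upwards [h1] with t ht
      rw [map_prod]
      exact Finset.prod_eq_zero (Finset.mem_univ i) ht

end Pool.Agent.MQ
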