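import Pool.Agent.MQ.CoordB

/-!
# MQ BetaG: the local equation of the invariant curve along a curve of the foliation

The equation `g` of the invariant curve satisfies `dg (v) = k g`, so `(g ∘ cc)' = ζ' k g` along the curves (`deriv_g_cc`).
`g_ne` (Be3): if `g = 0` at a point where `v ≠ 0`, then `g = 0` near this point, `R = 0` on the curve by the identity theorem.
`norm_DD_le` (Be4): `DD = ζ' (div v - k)`, `|ζ'| ‖v‖ = ‖cc'‖ ≤ C lam`, and `‖v‖` is bounded below off the center.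
`SingBox.an_inv`, `GBox.Reg.an_inv`: the local equations of the singular and the regular boxes are analytic and invariant.
-/

set_option autoImplicit false

open Topology Filter Metric MvPolynomial Asymptotics

noncomputable section

namespace Pool.Agent.MQ

open Pool.Agent.H36.BP (EN fs)
open Pool.Agent.H17EF (projVar coneE)

variable {M : ℕ} {P : Ideal (MvPolynomial (Fin (M + 1)) ℂ)} {FF : Set (EN M × EN M)}

/-! ## the equation `dg (v) = K g` -/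

/-- `y' = h y` and `y z = 0` give `y = 0` near `z` -/
private theorem eventually_zero_of_ode {y h : ℂ → ℂ} {z : ℂ} (hy : AnalyticAt ℂ y z) (hh : AnalyticAt ℂ h z)
    (hd : ∀ᶠ w in 𝓝 z, deriv y w = h w * y w) (h0 : y z = 0) : ∀ᶠ w in 𝓝 z, y w = 0 := by
  have h1 := hy.analyticOrderAt_deriv_add_one
  have h2 : (fun w => y w - y z) = y := by
    funext w
    rw [h0, sub_zero]
  rw [h2, analyticOrderAt_congr (f := deriv y) (g := fun w => h w * y w) hd] at h1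
  have h3 : analyticOrderAt (fun w => h w * y w) z = analyticOrderAt h z + analyticOrderAt y z := analyticOrderAt_mul hh hy
  rw [h3] at h1
  rw [← analyticOrderAt_eq_top]
  by_contra h4
  obtain ⟨n, hn⟩ := ENat.ne_top_iff_exists.1 h4
  rw [← hn] at h1
  have h5 : ((n : ℕ∞)) + 1 ≤ n := by
    calc ((n : ℕ∞)) + 1 ≤ analyticOrderAt h z + n + 1 := by gcongr; exact le_add_self
      _ = n := h1
  have h6 : ((n + 1 : ℕ) : ℕ∞) ≤ (n : ℕ) := by exact_mod_cast h5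
  have h7 : n + 1 ≤ n := by exact_mod_cast h6
  omega

private theorem fderiv_fst' (p w : ℂ × ℂ) : fderiv ℂ (fun p : ℂ × ℂ => p.1) p w = w.1 := by
  have h1 : HasFDerivAt (fun p : ℂ × ℂ => p.1) (ContinuousLinearMap.fst ℂ ℂ ℂ) p := hasFDerivAt_fst
  rw [h1.fderiv]
  rfl

private theorem fderiv_snd' (p w : ℂ × ℂ) : fderiv ℂ (fun p : ℂ × ℂ => p.2) p w = w.2 := by
  have h1 : HasFDerivAt (fun p : ℂ × ℂ => p.2) (ContinuousLinearMap.snd ℂ ℂ ℂ) p := hasFDerivAt_snd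
  rw [h1.fderiv]
  rfl

/-- `g` is an invariant function of `v`, with the cofactor `K` -/
def Cof (B : GBox P FF) (g K : ℂ × ℂ → ℂ) : Prop :=
  (∀ p, AnalyticAt ℂ g p) ∧ AnalyticOnNhd ℂ K (closedBall 0 B.r) ∧ ∀ p, fderiv ℂ g p (B.v p) = K p * g p

theorem Cof.one (B : GBox P FF) {g : ℂ × ℂ → ℂ} (hg : ∀ p, g p = 1) : Cof B g fun _ => 0 := by
  have h1 : g = fun _ => 1 := funext hg
  subst h1
  refine ⟨fun p => analyticAt_const, fun p _ => analyticAt_const, fun p => ?_⟩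
  simp

theorem Cof.mul {B : GBox P FF} {g₁ g₂ K₁ K₂ : ℂ × ℂ → ℂ} (h₁ : Cof B g₁ K₁) (h₂ : Cof B g₂ K₂) :
    Cof B (fun p => g₁ p * g₂ p) fun p => K₁ p + K₂ p := by
  refine ⟨fun p => (h₁.1 p).mul (h₂.1 p), fun p hp => (h₁.2.1 p hp).add (h₂.2.1 p hp), fun p => ?_⟩
  rw [fderiv_fun_mul (h₁.1 p).differentiableAt (h₂.1 p).differentiableAt]
  simp only [add_apply, smul_apply, smul_eq_mul]
  rw [h₁.2.2 p, h₂.2.2 p]
  ring

theorem Cof.fst {B : GBox P FF} {K : ℂ × ℂ → ℂ} (hK : AnalyticOnNhd ℂ K (closedBall 0 B.r)) (h : ∀ p, (B.v p).1 = p.1 * K p) :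
    Cof B (fun p => p.1) K := by
  refine ⟨fun p => analyticAt_fst, hK, fun p => ?_⟩
  rw [fderiv_fst', h, mul_comm]

theorem Cof.snd {B : GBox P FF} {K : ℂ × ℂ → ℂ} (hK : AnalyticOnNhd ℂ K (closedBall 0 B.r)) (h : ∀ p, (B.v p).2 = p.2 * K p) :
    Cof B (fun p => p.2) K := by
  refine ⟨fun p => analyticAt_snd, hK, fun p => ?_⟩
  rw [fderiv_snd', h, mul_comm]

theorem SingBox.exists_K {B : GBox P FF} {g : ℂ × ℂ → ℂ} (hg : SingBox B g) : ∃ K, Cof B g K := by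
  have hpow : ∀ (k : ℕ) (a : ℂ × ℂ → ℂ), AnalyticOnNhd ℂ a (closedBall 0 B.r) → AnalyticOnNhd ℂ (fun p : ℂ × ℂ => p.1 ^ k * a p) (closedBall 0 B.r) :=
    fun k a ha p hp => (analyticAt_fst.pow k).mul (ha p hp)
  have h1 : ∀ {l l' : ℂ × ℂ → ℂ} {Q : Prop}, (∀ p, l p = l' p) ∨ (∀ p, l p = 1) ∧ Q → (∃ K, Cof B l' K) → ∃ K, Cof B l K := by
    intro l l' Q h hK
    rcases h with h | ⟨h, -⟩
    · rw [show l = l' from funext h]
      exact hK
    · exact ⟨_, Cof.one B h⟩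
  have h2 : ∀ {g₁ g₂ : ℂ × ℂ → ℂ}, (∀ p, g p = g₁ p * g₂ p) → (∃ K, Cof B g₁ K) → (∃ K, Cof B g₂ K) → ∃ K, Cof B g K := by
    intro g₁ g₂ h ⟨K₁, h₁⟩ ⟨K₂, h₂⟩
    rw [show g = fun p => g₁ p * g₂ p from funext h]
    exact ⟨_, h₁.mul h₂⟩
  cases hg with
  | node a b g₁ g₂ ha hb ha0 hb0 hq h hg h₁ h₂ =>
    exact h2 hg (h1 h₁ ⟨a, Cof.fst ha fun p => by rw [h]⟩) (h1 h₂ ⟨b, Cof.snd hb fun p => by rw [h]⟩)
  | saddleNode k hk a b g₁ ha hb ha0 hb0 h hg h₁ =>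
    exact h2 hg (h1 h₁ ⟨_, Cof.fst (hpow k a ha) fun p => by rw [h, pow_succ']; ring⟩) ⟨b, Cof.snd hb fun p => by rw [h]⟩
  | formal k hk a b ha hb ha0 hb0 h c hc hJ hR hg =>
    exact h1 hg ⟨_, Cof.fst (hpow k a ha) fun p => by rw [h, pow_succ']; ring⟩

/-- a regular box -/
theorem Cof.reg {B : GBox P FF} (hB : B.Reg) {g : ℂ × ℂ → ℂ} {S : Finset ℂ} (hg : ∀ p, g p = ∏ a ∈ S, (p.1 - a)) : Cof B g fun _ => 0 := by
  classical
  rw [show g = fun p => ∏ a ∈ S, (p.1 - a) from funext hg]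
  clear hg
  induction S using Finset.induction_on with
  | empty => exact Cof.one B fun p => by simp
  | insert a S ha ih =>
    have h1 : Cof B (fun p => p.1 - a) fun _ => 0 := by
      refine ⟨fun p => analyticAt_fst.sub analyticAt_const, fun p _ => analyticAt_const, fun p => ?_⟩
      rw [fderiv_sub_const, fderiv_fst', hB p, zero_mul]
    have h2 := h1.mul ih
    simp only [add_zero] at h2
    have h3 : (fun p : ℂ × ℂ => ∏ b ∈ insert a S, (p.1 - b)) = fun p : ℂ × ℂ => (p.1 - a) * ∏ b ∈ S, (p.1 - b) := by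
      funext p
      rw [Finset.prod_insert ha]
    rw [h3]
    exact h2

theorem Cof.an_inv {B : GBox P FF} {g K : ℂ × ℂ → ℂ} (hK : Cof B g K) : AnalyticOnNhd ℂ g (closedBall 0 B.r) ∧ InvEq B g :=
  ⟨fun p _ => hK.1 p, fun p hp _ => ⟨K, hK.2.1 p hp, Filter.Eventually.of_forall hK.2.2⟩⟩

/-- the local equation of a singular box is analytic and invariant -/
theorem SingBox.an_inv {B : GBox P FF} {g : ℂ × ℂ → ℂ} (hg : SingBox B g) : AnalyticOnNhd ℂ g (closedBall 0 B.r) ∧ InvEq B g := by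
  obtain ⟨K, hK⟩ := hg.exists_K
  exact hK.an_inv

/-- the local equation of a regular box is analytic and invariant -/
theorem GBox.Reg.an_inv {B : GBox P FF} (hB : B.Reg) {g : ℂ × ℂ → ℂ} {S : Finset ℂ} (hg : ∀ p, g p = ∏ a ∈ S, (p.1 - a)) :
    AnalyticOnNhd ℂ g (closedBall 0 B.r) ∧ InvEq B g :=
  (Cof.reg hB hg).an_inv

/-! ## along a curve -/

/-- near a point of the curve where `v ≠ 0` -/
theorem eventually_v_ne (B : GBox P FF) {F : ℂ → EN M} (hF : Crv P FF F) {z : ℂ} (hz : z ∈ B.Om F) (hv : B.v (B.cc F z) ≠ 0) :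
    ∀ᶠ w in 𝓝 z, w ∈ B.Om F ∧ B.v (B.cc F w) ≠ 0 := by
  obtain ⟨hcc, hb, -⟩ := cc_lift B hF.diff hF.mem hz
  have h1 : ContinuousAt (fun w => B.v (B.cc F w)) z :=
    ContinuousAt.comp (f := B.cc F) (g := B.v) (B.v_an _ (ball_subset_closedBall hb)).continuousAt hcc.continuousAt
  exact ((isOpen_Om B hF.diff hF.mem).eventually_mem hz).and (h1.eventually_ne hv)

/-- `ζ'` is analytic where `v ≠ 0`. -/
theorem zt_an (B : GBox P FF) {F : ℂ → EN M} (hF : Crv P FF F) {z : ℂ} (hz : z ∈ B.Om F) (hv : B.v (B.cc F z) ≠ 0) : AnalyticAt ℂ (B.zt F) z := by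
  obtain ⟨hcc, hb, -⟩ := cc_lift B hF.diff hF.mem hz
  have hva : AnalyticAt ℂ (fun w => B.v (B.cc F w)) z := (B.v_an _ (ball_subset_closedBall hb)).comp hcc
  have h0 := eventually_v_ne B hF hz hv
  by_cases h2 : (B.v (B.cc F z)).2 = 0
  · have h1 : (B.v (B.cc F z)).1 ≠ 0 := fun h1 => hv (Prod.ext h1 h2)
    have h1a : AnalyticAt ℂ (fun w => (B.v (B.cc F w)).1) z := analyticAt_fst.comp hva
    have hda : AnalyticAt ℂ (fun w => (deriv (B.cc F) w).1) z := analyticAt_fst.comp hcc.deriv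
    refine (hda.div h1a h1).congr ?_
    filter_upwards [h0, h1a.continuousAt.eventually_ne h1] with w hw hw1
    have h3 := congrArg Prod.fst ((deriv_cc B hF hw.1).2 hw.2)
    simp only [Pi.div_apply]
    rw [h3, Prod.smul_fst, smul_eq_mul, mul_div_assoc, div_self hw1, mul_one]
  · have h2a : AnalyticAt ℂ (fun w => (B.v (B.cc F w)).2) z := analyticAt_snd.comp hva
    have hda : AnalyticAt ℂ (fun w => (deriv (B.cc F) w).2) z := analyticAt_snd.comp hcc.deriv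
    refine (hda.div h2a h2).congr ?_
    filter_upwards [h0, h2a.continuousAt.eventually_ne h2] with w hw hw1
    have h3 := congrArg Prod.snd ((deriv_cc B hF hw.1).2 hw.2)
    simp only [Pi.div_apply]
    rw [h3, Prod.smul_snd, smul_eq_mul, mul_div_assoc, div_self hw1, mul_one]

/-- `(g ∘ cc)' = ζ' k g`, where `dg (v) = k g`. -/
theorem deriv_g_cc (B : GBox P FF) {g : ℂ × ℂ → ℂ} (hg : AnalyticOnNhd ℂ g (closedBall 0 B.r)) {F : ℂ → EN M} (hF : Crv P FF F) {z : ℂ} (hz : z ∈ B.Om F)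
    (hv : B.v (B.cc F z) ≠ 0) {k : ℂ} (hk : fderiv ℂ g (B.cc F z) (B.v (B.cc F z)) = k * g (B.cc F z)) :
    deriv (fun w => g (B.cc F w)) z = B.zt F z * k * g (B.cc F z) := by
  obtain ⟨hcc, hb, -⟩ := cc_lift B hF.diff hF.mem hz
  have hb' := ball_subset_closedBall hb
  have h1 : HasDerivAt (fun w => g (B.cc F w)) (fderiv ℂ g (B.cc F z) (deriv (B.cc F) z)) z :=
    (hg _ hb').differentiableAt.hasFDerivAt.comp_hasDerivAt z hcc.differentiableAt.hasDerivAt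
  rw [h1.deriv, (deriv_cc B hF hz).2 hv, map_smul, hk, smul_eq_mul, mul_assoc]

/-- `DD = ζ' (div v - k)`, where `dg (v) = k g`. -/
theorem DD_eq (B : GBox P FF) {g : ℂ × ℂ → ℂ} (hg : AnalyticOnNhd ℂ g (closedBall 0 B.r)) {F : ℂ → EN M} (hF : Crv P FF F) {z : ℂ} (hz : z ∈ B.Om F)
    (hv : B.v (B.cc F z) ≠ 0) (h0 : g (B.cc F z) ≠ 0) {k : ℂ} (hk : fderiv ℂ g (B.cc F z) (B.v (B.cc F z)) = k * g (B.cc F z)) :
    B.DD g F z = B.zt F z * (dvg B.v (B.cc F z) - k) := by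
  rw [GBox.DD, deriv_g_cc B hg hF hz hv hk, mul_div_assoc, div_self h0]
  ring

theorem g_ne {A : Atlas P FF} {D : CData A} {F : ℂ → EN M} (hF : Crv P FF F) (hR : ∃ z, eval (F z).ofLp D.R ≠ 0) {i : A.ι} {z : ℂ}
    (hz : z ∈ (A.B i).Om F) (hv : (A.B i).v ((A.B i).cc F z) ≠ 0) : D.g i ((A.B i).cc F z) ≠ 0 := by
  intro h0
  obtain ⟨hcc, hb, c, hc, hc0, hcF⟩ := cc_lift (A.B i) hF.diff hF.mem hz
  have hb' := ball_subset_closedBall hb
  obtain ⟨K, hKa, hK⟩ := D.inv i _ hb' hv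
  have hga : AnalyticAt ℂ (fun w => D.g i ((A.B i).cc F w)) z := (D.an i _ hb').comp hcc
  have hKc : AnalyticAt ℂ (fun w => K ((A.B i).cc F w)) z := hKa.comp hcc
  have hzt := zt_an (A.B i) hF hz hv
  have hev := eventually_v_ne (A.B i) hF hz hv
  have h1 : ∀ᶠ w in 𝓝 z, D.g i ((A.B i).cc F w) = 0 := by
    refine eventually_zero_of_ode hga (hzt.mul hKc) ?_ h0
    filter_upwards [hev, hcc.continuousAt.eventually hK] with w hw hw2
    exact deriv_g_cc (A.B i) (D.an i) hF hw.1 hw.2 hw2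
  have h2 : ∀ᶠ w in 𝓝 z, eval (F w).ofLp D.R = 0 := by
    filter_upwards [h1, hcF, hev] with w hw hFw hw2
    have h3 := (cc_lift (A.B i) hF.diff hF.mem hw2.1).2.1
    have h4 : (F w).ofLp = fun k => c w * ((A.B i).σ ((A.B i).cc F w)).ofLp k := by
      conv_lhs => rw [hFw]
      rfl
    rw [h4, Pool.Agent.H17.eval_smul_of_isHomogeneous D.hom, D.van i _ h3 hw, mul_zero]
  obtain ⟨z₁, hz₁⟩ := hR
  have h5 : AnalyticOnNhd ℂ (fun w => eval (F w).ofLp D.R) Set.univ := by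
    intro w _
    have h6 : ∀ k, AnalyticAt ℂ (fun w => (F w).ofLp k) w := fun k =>
      ((EuclideanSpace.proj (𝕜 := ℂ) k).analyticAt _).comp (hF.diff.analyticAt w)
    have h7 := AnalyticAt.aeval_mvPolynomial h6 D.R
    exact h7
  exact hz₁ (h5.eqOn_zero_of_preconnected_of_eventuallyEq_zero isPreconnected_univ (Set.mem_univ z) h2 (Set.mem_univ z₁))

theorem norm_DD_le (B : GBox P FF) {g : ℂ × ℂ → ℂ} (hg : AnalyticOnNhd ℂ g (closedBall 0 B.r)) (hi : InvEq B g) {s : ℝ} (hs : 0 < s) :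
    ∃ C : ℝ, 0 < C ∧ ∀ F : ℂ → EN M, Crv P FF F →
      ∀ z ∈ B.Om F, B.cc F z ∉ ball (0 : ℂ × ℂ) s → g (B.cc F z) ≠ 0 → ‖B.DD g F z‖ ≤ C * lam F z := by
  obtain ⟨C₀, hC₀, hlam⟩ := lam_cc B
  have hcp : IsCompact (closedBall (0 : ℂ × ℂ) B.r ∩ (ball (0 : ℂ × ℂ) s)ᶜ) := (isCompact_closedBall _ _).inter_right isOpen_ball.isClosed_compl
  have hv0 : ∀ p ∈ closedBall (0 : ℂ × ℂ) B.r ∩ (ball (0 : ℂ × ℂ) s)ᶜ, B.v p ≠ 0 := by
    intro p hp h
    rw [B.zero p hp.1 h] at hp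
    exact hp.2 (mem_ball_self hs)
  -- the bound of `div v - k`
  obtain ⟨C₁, hC₁⟩ : ∃ C₁ : ℝ, ∀ p ∈ closedBall (0 : ℂ × ℂ) B.r ∩ (ball (0 : ℂ × ℂ) s)ᶜ, ∃ k : ℂ, fderiv ℂ g p (B.v p) = k * g p ∧ ‖dvg B.v p - k‖ ≤ C₁ := by
    refine hcp.induction_on (p := fun S => ∃ C₁ : ℝ, ∀ p ∈ S, ∃ k : ℂ, fderiv ℂ g p (B.v p) = k * g p ∧ ‖dvg B.v p - k‖ ≤ C₁) ?_ ?_ ?_ ?_
    · exact ⟨0, fun p hp => hp.elim⟩
    · rintro S T hST ⟨C₁, h⟩
      exact ⟨C₁, fun p hp => h p (hST hp)⟩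
    · rintro S T ⟨C₁, h₁⟩ ⟨C₂, h₂⟩
      refine ⟨max C₁ C₂, fun p hp => ?_⟩
      rcases hp with hp | hp
      · obtain ⟨k, hk, hk'⟩ := h₁ p hp
        exact ⟨k, hk, hk'.trans (le_max_left _ _)⟩
      · obtain ⟨k, hk, hk'⟩ := h₂ p hp
        exact ⟨k, hk, hk'.trans (le_max_right _ _)⟩
    · intro p hp
      obtain ⟨h, hh, hh'⟩ := hi p hp.1 (hv0 p hp)
      have h1 : AnalyticAt ℂ (fderiv ℂ B.v) p := (B.v_an p hp.1).fderiv
      have h2 : ContinuousAt (fun p => (fderiv ℂ B.v p (1, 0)).1) p := (h1.continuousAt.clm_apply continuousAt_const).fst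
      have h3 : ContinuousAt (fun p => (fderiv ℂ B.v p (0, 1)).2) p := (h1.continuousAt.clm_apply continuousAt_const).snd
      have h4 : ContinuousAt (fun p => ‖dvg B.v p - h p‖) p := ((h2.add h3).sub hh.continuousAt).norm
      have h5 : ∀ᶠ q in 𝓝 p, ‖dvg B.v q - h q‖ < ‖dvg B.v p - h p‖ + 1 := h4.eventually_lt continuousAt_const (by linarith)
      refine ⟨{q | (fderiv ℂ g q (B.v q) = h q * g q) ∧ ‖dvg B.v q - h q‖ < ‖dvg B.v p - h p‖ + 1}, mem_nhdsWithin_of_mem_nhds (hh'.and h5),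
        ‖dvg B.v p - h p‖ + 1, fun q hq => ⟨h q, hq.1, hq.2.le⟩⟩
  -- the lower bound of `‖v‖`
  obtain ⟨m, hm0, hm⟩ : ∃ m : ℝ, 0 < m ∧ ∀ p ∈ closedBall (0 : ℂ × ℂ) B.r ∩ (ball (0 : ℂ × ℂ) s)ᶜ, m ≤ ‖B.v p‖ := by
    rcases (closedBall (0 : ℂ × ℂ) B.r ∩ (ball (0 : ℂ × ℂ) s)ᶜ).eq_empty_or_nonempty with he | hne
    · refine ⟨1, one_pos, fun p hp => ?_⟩
      rw [he] at hp
      exact hp.elim
    · obtain ⟨q, hq, hmin⟩ := hcp.exists_isMinOn hne (f := fun p => ‖B.v p‖)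
        (fun p hp => (B.v_an p hp.1).continuousAt.norm.continuousWithinAt)
      exact ⟨‖B.v q‖, norm_pos_iff.2 (hv0 q hq), fun p hp => hmin hp⟩
  refine ⟨(|C₁| + 1) / m * C₀, by positivity, fun F hF z hz hcz hgz => ?_⟩
  obtain ⟨hcc, hb, -⟩ := cc_lift B hF.diff hF.mem hz
  have hS : B.cc F z ∈ closedBall (0 : ℂ × ℂ) B.r ∩ (ball (0 : ℂ × ℂ) s)ᶜ := ⟨ball_subset_closedBall hb, hcz⟩
  obtain ⟨k, hk, hk'⟩ := hC₁ _ hS
  rw [DD_eq B hg hF hz (hv0 _ hS) hgz hk, norm_mul]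
  have h1 : ‖B.zt F z‖ ≤ ‖deriv (B.cc F) z‖ / m := by
    rw [le_div_iff₀ hm0, (deriv_cc B hF hz).2 (hv0 _ hS), norm_smul]
    exact mul_le_mul_of_nonneg_left (hm _ hS) (norm_nonneg _)
  have h2 : ‖dvg B.v (B.cc F z) - k‖ ≤ |C₁| + 1 := hk'.trans ((le_abs_self _).trans (by linarith))
  have h3 := (hlam F hF.diff hF.mem z hz).1
  calc ‖B.zt F z‖ * ‖dvg B.v (B.cc F z) - k‖ ≤ (‖deriv (B.cc F) z‖ / m) * (|C₁| + 1) :=
        mul_le_mul h1 h2 (norm_nonneg _) (by positivity)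
    _ ≤ (C₀ * lam F z / m) * (|C₁| + 1) := by gcongr
    _ = (|C₁| + 1) / m * C₀ * lam F z := by ring

end Pool.Agent.MQ
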