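import Pool.Agent.MQ.GeoDefs

/-!
# MQ Chg1: the change of coordinates between two boxes

`Φ w = T (c⁻¹ • σ_A w)` with `T` from `B.opn`.  `om_A (w, u) = 0` iff `om_B (Φ w, DΦ u) = 0` by `spans`, so the two linear forms are proportional, with
the analytic factor `t w = om_B (Φ w, DΦ u₀) / om_A (w, u₀)`.
-/

set_option autoImplicit false

open Topology Filter Metric MvPolynomial Asymptotics

noncomputable section

namespace Pool.Agent.MQ

open Pool.Agent.H36.BP (EN)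
open Pool.Agent.H17EF (coneE)

variable {M : ℕ} {P : Ideal (MvPolynomial (Fin (M + 1)) ℂ)} {FF : Set (EN M × EN M)}

theorem exists_om_ne {B : GBox P FF} {p : ℂ × ℂ} (h : B.v p ≠ 0) : ∃ u : ℂ × ℂ, B.om p u ≠ 0 := by
  by_contra hcon
  push Not at hcon
  have e2 := hcon (1, 0)
  have e3 := hcon (0, 1)
  simp only [GBox.om, mul_zero, zero_sub, mul_one, neg_eq_zero, sub_zero] at e2 e3
  exact h (Prod.ext e3 e2)

theorem om_sub_smul (B : GBox P FF) (p u u' : ℂ × ℂ) (a : ℂ) : B.om p (u - a • u') = B.om p u - a * B.om p u' := by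
  simp only [GBox.om, Prod.snd_sub, Prod.fst_sub, Prod.smul_fst, Prod.smul_snd, smul_eq_mul]
  ring

theorem om_analyticAt (B : GBox P FF) {Φ U : ℂ × ℂ → ℂ × ℂ} {p : ℂ × ℂ} (hp : Φ p ∈ ball (0 : ℂ × ℂ) B.r) (hΦ : AnalyticAt ℂ Φ p) (hU : AnalyticAt ℂ U p) :
    AnalyticAt ℂ (fun w => B.om (Φ w) (U w)) p := by
  have h1 : AnalyticAt ℂ (fun w => B.v (Φ w)) p := (B.v_an _ (ball_subset_closedBall hp)).comp hΦ
  have h2 : AnalyticAt ℂ (fun w => (B.v (Φ w)).1) p := (analyticAt_fst (𝕜 := ℂ)).comp h1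
  have h3 : AnalyticAt ℂ (fun w => (B.v (Φ w)).2) p := (analyticAt_snd (𝕜 := ℂ)).comp h1
  have h4 : AnalyticAt ℂ (fun w => (U w).1) p := (analyticAt_fst (𝕜 := ℂ)).comp hU
  have h5 : AnalyticAt ℂ (fun w => (U w).2) p := (analyticAt_snd (𝕜 := ℂ)).comp hU
  exact (h2.mul h5).sub (h3.mul h4)

/-- the kernels of the two forms correspond -/
theorem om_eq_zero_iff {A B : GBox P FF} {w : ℂ × ℂ} (hw : w ∈ ball (0 : ℂ × ℂ) A.r) {Φ : ℂ × ℂ → ℂ × ℂ} {k : ℂ × ℂ → ℂ} (hΦ : AnalyticAt ℂ Φ w)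
    (hk : AnalyticAt ℂ k w) (hk0 : k w ≠ 0) (hm : Φ w ∈ ball (0 : ℂ × ℂ) B.r) (heq : ∀ᶠ y in 𝓝 w, A.σ y = k y • B.σ (Φ y)) (u : ℂ × ℂ) :
    A.om w u = 0 ↔ B.om (Φ w) (fderiv ℂ Φ w u) = 0 := by
  have hσB : AnalyticAt ℂ B.σ (Φ w) := B.σ_an _ (ball_subset_closedBall hm)
  have hd1 : HasFDerivAt A.σ (fderiv ℂ A.σ w) w := (A.σ_an w (ball_subset_closedBall hw)).differentiableAt.hasFDerivAt
  have hd2 : HasFDerivAt (fun w => B.σ (Φ w)) ((fderiv ℂ B.σ (Φ w)).comp (fderiv ℂ Φ w)) w :=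
    hσB.differentiableAt.hasFDerivAt.comp w hΦ.differentiableAt.hasFDerivAt
  have hd3 := hk.differentiableAt.hasFDerivAt.smul hd2
  have h5 : fderiv ℂ A.σ w = _ := hd1.unique (hd3.congr_of_eventuallyEq heq)
  have h6 := congrArg (fun T : ℂ × ℂ →L[ℂ] EN M => T u) h5
  simp only [add_apply, smul_apply, ContinuousLinearMap.comp_apply,
    ContinuousLinearMap.smulRight_apply] at h6
  have e1 := A.spans w (ball_subset_closedBall hw) u 0 1 one_ne_zero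
  have e2 := B.spans (Φ w) (ball_subset_closedBall hm) (fderiv ℂ Φ w u) (fderiv ℂ k w u) (k w) hk0
  rw [one_smul, one_smul, zero_smul, add_zero, heq.self_of_nhds, h6] at e1
  have e3 := e1.symm.trans e2
  simp only [GBox.om, sub_eq_zero]
  exact e3

/-- MODULE Chg, `Chg1`. -/
theorem exists_chg (A B : GBox P FF) {p q : ℂ × ℂ} {c : ℂ} (hp : p ∈ ball (0 : ℂ × ℂ) A.r) (hq : q ∈ ball (0 : ℂ × ℂ) B.r) (hc : c ≠ 0)
    (h : A.σ p = c • B.σ q) (hv : A.v p ≠ 0) : ∃ Φ t, Chg A B p Φ t ∧ Φ p = q := by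
  obtain ⟨T, κ, hT, hκ, hTq, hκq, hev⟩ := B.opn q hq
  have hy : AnalyticAt ℂ (fun w => c⁻¹ • A.σ w) p := (A.σ_an p (ball_subset_closedBall hp)).const_smul (c := c⁻¹)
  have hyp : c⁻¹ • A.σ p = B.σ q := by rw [h, smul_smul, inv_mul_cancel₀ hc, one_smul]
  obtain ⟨Φ, hΦdef⟩ : ∃ Φ : ℂ × ℂ → ℂ × ℂ, Φ = fun w => T (c⁻¹ • A.σ w) := ⟨_, rfl⟩
  obtain ⟨k, hkdef⟩ : ∃ k : ℂ × ℂ → ℂ, k = fun w => c * κ (c⁻¹ • A.σ w) := ⟨_, rfl⟩
  have hΦ : AnalyticAt ℂ Φ p := by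
    rw [hΦdef]
    exact AnalyticAt.comp (g := T) (f := fun w => c⁻¹ • A.σ w) (by rw [hyp]; exact hT) hy
  have hk : AnalyticAt ℂ k p := by
    rw [hkdef]
    exact analyticAt_const.mul (AnalyticAt.comp (g := κ) (f := fun w => c⁻¹ • A.σ w) (by rw [hyp]; exact hκ) hy)
  have hΦp : Φ p = q := by rw [hΦdef]; simp only [hyp, hTq]
  have hkp : k p ≠ 0 := by rw [hkdef]; simp only [hyp, hκq, mul_one]; exact hc
  have heq : ∀ᶠ w in 𝓝 p, A.σ w = k w • B.σ (Φ w) := by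
    have h1 : Tendsto (fun w => c⁻¹ • A.σ w) (𝓝 p) (𝓝 (B.σ q)) := by
      have h2 := hy.continuousAt.tendsto
      simp only [hyp] at h2
      exact h2
    filter_upwards [h1.eventually hev, isOpen_ball.mem_nhds hp] with w h2 h3
    have h4 := h2 (A.cone _ (A.mem w (ball_subset_closedBall h3)) _ (inv_ne_zero hc))
    rw [hkdef, hΦdef]
    show A.σ w = (c * κ (c⁻¹ • A.σ w)) • B.σ (T (c⁻¹ • A.σ w))
    rw [mul_smul, ← h4, smul_smul, mul_inv_cancel₀ hc, one_smul]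
  have hmem : Φ p ∈ ball (0 : ℂ × ℂ) B.r := by rw [hΦp]; exact hq
  have hker : ∀ᶠ w in 𝓝 p, ∀ u : ℂ × ℂ, A.om w u = 0 ↔ B.om (Φ w) (fderiv ℂ Φ w u) = 0 := by
    filter_upwards [isOpen_ball.mem_nhds hp, hΦ.continuousAt.eventually (isOpen_ball.mem_nhds hmem), hΦ.eventually_analyticAt,
      hk.eventually_analyticAt, hk.continuousAt.eventually_ne hkp, heq.eventually_nhds] with w h1 h2 h3 h4 h5 h6 u
    exact om_eq_zero_iff h1 h3 h4 h5 h2 h6 u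
  obtain ⟨u₀, hu₀⟩ := exists_om_ne hv
  have hA : AnalyticAt ℂ (fun w => A.om w u₀) p := om_analyticAt A (Φ := fun w => w) hp analyticAt_id analyticAt_const
  have hB : AnalyticAt ℂ (fun w => B.om (Φ w) (fderiv ℂ Φ w u₀)) p := by
    refine om_analyticAt B hmem hΦ ?_
    exact ((ContinuousLinearMap.apply ℂ (ℂ × ℂ) u₀).analyticAt _).comp hΦ.fderiv
  refine ⟨Φ, fun w => B.om (Φ w) (fderiv ℂ Φ w u₀) / A.om w u₀, ⟨hΦ, hmem, ?_, hB.div hA hu₀, ?_, ?_⟩, hΦp⟩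
  · filter_upwards [heq, hk.continuousAt.eventually_ne hkp] with w h1 h2
    exact ⟨k w, h2, h1⟩
  · exact div_ne_zero (fun h0 => hu₀ ((hker.self_of_nhds u₀).2 h0)) hu₀
  · filter_upwards [hker, hA.continuousAt.eventually_ne hu₀] with w h1 h2 u
    have h3 := (h1 (u - (A.om w u / A.om w u₀) • u₀)).1 (by rw [om_sub_smul, div_mul_cancel₀ _ h2, sub_self])
    rw [map_sub, map_smul, om_sub_smul, sub_eq_zero] at h3
    rw [h3]
    ring

end Pool.Agent.MQ
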