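import Pool.Agent.MQ.Coord
import Pool.Agent.H36.BP.WdA

/-!
# MQ CoordB: the velocity in a box (`Crd4`, `Crd6`)
-/

set_option autoImplicit false

open Topology Filter Metric MvPolynomial Asymptotics MeasureTheory Laplacian

noncomputable section

namespace Pool.Agent.MQ

open Pool.Agent.H36.BP (EN fs wd)
open Pool.Agent.H17EF (projVar coneE)

variable {M : ℕ} {P : Ideal (MvPolynomial (Fin (M + 1)) ℂ)} {FF : Set (EN M × EN M)}

/-- the velocity of the lift -/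
private theorem CoordB_deriv (B : GBox P FF) {F : ℂ → EN M} (hF : Differentiable ℂ F) (hm : ∀ z, F z ∈ coneE P) {z : ℂ} (hz : z ∈ B.Om F) :
    B.cc F z ∈ ball (0 : ℂ × ℂ) B.r ∧ ∃ a c : ℂ, c ≠ 0 ∧ F z = c • B.σ (B.cc F z) ∧
      deriv F z = c • fderiv ℂ B.σ (B.cc F z) (deriv (B.cc F) z) + a • B.σ (B.cc F z) := by
  obtain ⟨h1, h2, c, h3, h4, h5⟩ := cc_lift B hF hm hz
  refine ⟨h2, deriv c z, c z, h4, h5.self_of_nhds, ?_⟩
  have h6 : AnalyticAt ℂ B.σ (B.cc F z) := B.σ_an _ (ball_subset_closedBall h2)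
  have h7 : HasDerivAt (fun w => B.σ (B.cc F w)) (fderiv ℂ B.σ (B.cc F z) (deriv (B.cc F) z)) z :=
    h6.differentiableAt.hasFDerivAt.comp_hasDerivAt z h1.differentiableAt.hasDerivAt
  have h8 := (h3.differentiableAt.hasDerivAt).smul h7
  have h9 : deriv F z = deriv (fun w => c w • B.σ (B.cc F w)) z := (show F =ᶠ[𝓝 z] fun w => c w • B.σ (B.cc F w) from h5).deriv_eq
  rw [h9]
  exact h8.deriv

/-- MODULE Coord, `Crd4`: `om (F') = 0` and `F' = ζ' v`. -/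
theorem deriv_cc (B : GBox P FF) {F : ℂ → EN M} (hF : Crv P FF F) {z : ℂ} (hz : z ∈ B.Om F) :
    B.om (B.cc F z) (deriv (B.cc F) z) = 0 ∧ (B.v (B.cc F z) ≠ 0 → deriv (B.cc F) z = B.zt F z • B.v (B.cc F z)) := by
  obtain ⟨h2, a, c, h4, h5, h6⟩ := CoordB_deriv B hF.diff hF.mem hz
  have h7 := hF.tan z
  rw [h5, h6] at h7
  have h8 := (B.spans _ (ball_subset_closedBall h2) _ a c h4).mp h7
  refine ⟨sub_eq_zero.mpr h8, fun hv => ?_⟩
  unfold GBox.zt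
  split_ifs with h9
  · have h10 : (B.v (B.cc F z)).1 ≠ 0 := fun h => hv (Prod.ext h h9)
    rw [h9, zero_mul] at h8
    have h11 : (deriv (B.cc F) z).2 = 0 := (mul_eq_zero.mp h8).resolve_left h10
    refine Prod.ext ?_ ?_
    · rw [Prod.smul_fst, smul_eq_mul]
      exact (div_mul_cancel₀ _ h10).symm
    · rw [Prod.smul_snd, smul_eq_mul, h9, mul_zero, h11]
  · refine Prod.ext ?_ ?_
    · rw [Prod.smul_fst, smul_eq_mul, div_mul_eq_mul_div, eq_div_iff h9]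
      linear_combination -h8
    · rw [Prod.smul_snd, smul_eq_mul]
      exact (div_mul_cancel₀ _ h9).symm

private theorem CoordB_norm (w : ℂ × ℂ) : ∃ u : ℂ × ℂ, ‖u‖ = 1 ∧ w = (‖w‖ : ℂ) • u := by
  by_cases hw : w = 0
  · refine ⟨(1, 0), by simp [Prod.norm_def], by simp [hw]⟩
  · have h1 : ‖w‖ ≠ 0 := norm_ne_zero_iff.mpr hw
    have h2 : (‖w‖ : ℂ) ≠ 0 := by exact_mod_cast h1
    refine ⟨(‖w‖ : ℂ)⁻¹ • w, ?_, ?_⟩
    · rw [norm_smul, norm_inv, Complex.norm_real, norm_norm, inv_mul_cancel₀ h1]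
    · rw [smul_inv_smul₀ h2]

private theorem CoordB_ne (B : GBox P FF) {p : ℂ × ℂ} (hp : p ∈ closedBall (0 : ℂ × ℂ) B.r) : B.σ p ≠ 0 := by
  have h := (B.imm p hp).ne_zero 0
  exact h

private theorem CoordB_wd {X : Type} [TopologicalSpace X] {f g : X → EN M} {S : Set X} (hf : ContinuousOn f S) (hg : ContinuousOn g S) :
    ContinuousOn (fun q => wd (f q) (g q)) S := by
  unfold wd
  have h1 : ContinuousOn (fun q => (inner ℂ (f q) (g q) : ℂ)) S := hf.inner hg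
  exact Real.continuous_sqrt.comp_continuousOn (((hf.norm.pow 2).mul (hg.norm.pow 2)).sub (h1.norm.pow 2))

private theorem CoordB_cont (B : GBox P FF) : ContinuousOn (fun q : (ℂ × ℂ) × (ℂ × ℂ) => fs (B.σ q.1) (fderiv ℂ B.σ q.1 q.2))
    (closedBall (0 : ℂ × ℂ) B.r ×ˢ sphere (0 : ℂ × ℂ) 1) := by
  have h1 : ContinuousOn B.σ (closedBall 0 B.r) := B.σ_an.continuousOn
  have h2 : ContinuousOn (fderiv ℂ B.σ) (closedBall 0 B.r) := fun p hp => (B.σ_an p hp).fderiv.continuousAt.continuousWithinAt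
  have h3 : ContinuousOn (fun q : (ℂ × ℂ) × (ℂ × ℂ) => B.σ q.1) (closedBall (0 : ℂ × ℂ) B.r ×ˢ sphere (0 : ℂ × ℂ) 1) :=
    h1.comp continuousOn_fst fun _ hq => hq.1
  have h4 : ContinuousOn (fun q : (ℂ × ℂ) × (ℂ × ℂ) => fderiv ℂ B.σ q.1 q.2) (closedBall (0 : ℂ × ℂ) B.r ×ˢ sphere (0 : ℂ × ℂ) 1) :=
    (h2.comp continuousOn_fst fun _ hq => hq.1).clm_apply continuousOn_snd
  unfold fs
  exact (CoordB_wd h3 h4).div (h3.norm.pow 2) fun q hq => pow_ne_zero 2 (norm_ne_zero_iff.mpr (CoordB_ne B hq.1))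

private theorem CoordB_split (B : GBox P FF) (p u : ℂ × ℂ) : fderiv ℂ B.σ p u = u.1 • fderiv ℂ B.σ p (1, 0) + u.2 • fderiv ℂ B.σ p (0, 1) := by
  rw [← map_smul, ← map_smul, ← map_add]
  congr 1
  simp

private theorem CoordB_pos (B : GBox P FF) {p u : ℂ × ℂ} (hp : p ∈ closedBall (0 : ℂ × ℂ) B.r) (hu : ‖u‖ = 1) :
    0 < fs (B.σ p) (fderiv ℂ B.σ p u) := by
  refine div_pos (lt_of_le_of_ne (Pool.Agent.H36.BP.wd_nonneg _ _) fun h => ?_) (pow_pos (norm_pos_iff.mpr (CoordB_ne B hp)) 2)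
  obtain ⟨a, ha⟩ := (Pool.Agent.H36.BP.wd_eq_zero (CoordB_ne B hp)).mp h.symm
  have h6 := Fintype.linearIndependent_iff.mp (B.imm p hp) ![-a, u.1, u.2]
  have h7 := CoordB_split B p u
  have h8 := h6 (by
    rw [Fin.sum_univ_three]
    show -a • B.σ p + u.1 • fderiv ℂ B.σ p (1, 0) + u.2 • fderiv ℂ B.σ p (0, 1) = 0
    rw [add_assoc, ← h7, ha, neg_smul, neg_add_cancel])
  have h9 : u.1 = 0 := h8 1
  have h10 : u.2 = 0 := h8 2
  have h11 : u = 0 := Prod.ext h9 h10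
  rw [h11, norm_zero] at hu
  exact zero_ne_one hu

private theorem CoordB_minmax {X : Type} [TopologicalSpace X] {K : Set X} (hK : IsCompact K) (hne : K.Nonempty) {f : X → ℝ} (hf : ContinuousOn f K)
    (hpos : ∀ q ∈ K, 0 < f q) : ∃ m C : ℝ, 0 < m ∧ 0 < C ∧ ∀ q ∈ K, m ≤ f q ∧ f q ≤ C := by
  obtain ⟨q, hq, hqm⟩ := hK.exists_isMinOn hne hf
  obtain ⟨q', hq', hqM⟩ := hK.exists_isMaxOn hne hf
  exact ⟨f q, f q', hpos q hq, hpos q' hq', fun p hp => ⟨isMinOn_iff.mp hqm p hp, isMaxOn_iff.mp hqM p hp⟩⟩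

private theorem CoordB_ex (r : ℝ) (hr : 0 < r) : (closedBall (0 : ℂ × ℂ) r ×ˢ sphere (0 : ℂ × ℂ) 1).Nonempty := by
  refine ⟨((0, 0), (1, 0)), ?_, ?_⟩
  · exact mem_closedBall_self hr.le
  · rw [mem_sphere_zero_iff_norm]
    simp [Prod.norm_def]

/-- the length on the compact set of the unit vectors of the box -/
private theorem CoordB_bounds (B : GBox P FF) : ∃ m C : ℝ, 0 < m ∧ 0 < C ∧ ∀ p ∈ closedBall (0 : ℂ × ℂ) B.r, ∀ u : ℂ × ℂ, ‖u‖ = 1 →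
    m ≤ fs (B.σ p) (fderiv ℂ B.σ p u) ∧ fs (B.σ p) (fderiv ℂ B.σ p u) ≤ C := by
  have hKc : IsCompact (closedBall (0 : ℂ × ℂ) B.r ×ˢ sphere (0 : ℂ × ℂ) 1) := (isCompact_closedBall _ _).prod (isCompact_sphere _ _)
  obtain ⟨m, C, h1, h2, h3⟩ := CoordB_minmax hKc (CoordB_ex B.r B.pos) (CoordB_cont B)
    (fun q hq => CoordB_pos B hq.1 (mem_sphere_zero_iff_norm.mp hq.2))
  exact ⟨m, C, h1, h2, fun p hp u hu => h3 (p, u) ⟨hp, mem_sphere_zero_iff_norm.mpr hu⟩⟩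

/-- MODULE Coord, `Crd6`: the speed in the box. -/
theorem lam_cc (B : GBox P FF) : ∃ C : ℝ, 0 < C ∧ ∀ F : ℂ → EN M, Differentiable ℂ F → (∀ z, F z ∈ coneE P) → ∀ z ∈ B.Om F,
    ‖deriv (B.cc F) z‖ ≤ C * lam F z ∧ lam F z ≤ C * ‖deriv (B.cc F) z‖ := by
  obtain ⟨m, C, hm, hC, h⟩ := CoordB_bounds B
  refine ⟨max C m⁻¹, lt_max_of_lt_left hC, fun F hF hFm z hz => ?_⟩
  obtain ⟨h2, a, c, h4, h5, h6⟩ := CoordB_deriv B hF hFm hz
  obtain ⟨u, hu, hw⟩ := CoordB_norm (deriv (B.cc F) z)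
  have hne : B.σ (B.cc F z) ≠ 0 := (B.imm _ (ball_subset_closedBall h2)).ne_zero 0
  set n : ℝ := ‖deriv (B.cc F) z‖ with hn
  have hn0 : 0 ≤ n := norm_nonneg _
  have key : lam F z = n * fs (B.σ (B.cc F z)) (fderiv ℂ B.σ (B.cc F z) u) := by
    unfold lam
    rw [h6, hw]
    nth_rw 1 [h5]
    rw [Pool.Agent.H36.BP.fs_inv hne _ h4 a, map_smul]
    unfold fs
    rw [Pool.Agent.H36.BP.wd_smul_right, Complex.norm_real, Real.norm_eq_abs, abs_of_nonneg hn0, mul_div_assoc]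
  obtain ⟨h7, h8⟩ := h _ (ball_subset_closedBall h2) u hu
  rw [key]
  constructor
  · have h9 : n = m⁻¹ * (n * m) := by field_simp
    calc n = m⁻¹ * (n * m) := h9
      _ ≤ max C m⁻¹ * (n * fs (B.σ (B.cc F z)) (fderiv ℂ B.σ (B.cc F z) u)) :=
        mul_le_mul (le_max_right _ _) (mul_le_mul_of_nonneg_left h7 hn0) (by positivity) (le_trans hC.le (le_max_left _ _))
  · rw [mul_comm]
    exact mul_le_mul (h8.trans (le_max_left _ _)) le_rfl hn0 (le_trans hC.le (le_max_left _ _))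

end Pool.Agent.MQ
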