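import Pool.Agent.MQ.Coord
import Pool.Agent.MQ.CoordB

/-!
# MQ Chg2: the change of coordinates along a curve

Where `v_A (p) = 0` the derivative of `Φ` is bijective, so `v_B (Φ p) = 0` and both `ζ'` are `0`.  Where `v_A (p) ≠ 0`: `ζ_A DΦ v_A = ζ_B v_B`; take
the exterior product with `DΦ u`.
-/

set_option autoImplicit false

open Topology Filter Metric MvPolynomial Asymptotics

noncomputable section

namespace Pool.Agent.MQ

open Pool.Agent.H36.BP (EN)
open Pool.Agent.H17EF (coneE)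

variable {M : ℕ} {P : Ideal (MvPolynomial (Fin (M + 1)) ℂ)} {FF : Set (EN M × EN M)}

/-- the determinant of a linear map of `ℂ × ℂ` -/
theorem wedge_det (L : ℂ × ℂ →L[ℂ] ℂ × ℂ) (a b : ℂ × ℂ) :
    (L a).1 * (L b).2 - (L a).2 * (L b).1 = L.det * (a.1 * b.2 - a.2 * b.1) := by
  have h1 : L.det = (L (1, 0)).1 * (L (0, 1)).2 - (L (0, 1)).1 * (L (1, 0)).2 := by
    rw [ContinuousLinearMap.det, ← LinearMap.det_toMatrix (Module.Basis.finTwoProd ℂ), Matrix.det_fin_two]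
    simp [LinearMap.toMatrix_apply]
  have h2 : ∀ c : ℂ × ℂ, L c = c.1 • L (1, 0) + c.2 • L (0, 1) := by
    intro c
    have e : c = c.1 • ((1, 0) : ℂ × ℂ) + c.2 • ((0, 1) : ℂ × ℂ) := by ext <;> simp
    conv_lhs => rw [e]
    rw [map_add, map_smul, map_smul]
  rw [h1, h2 a, h2 b]
  simp only [Prod.fst_add, Prod.snd_add, Prod.smul_fst, Prod.smul_snd, smul_eq_mul]
  ring

/-- the derivative of a change of coordinates is injective -/
theorem chg_inj {A B : GBox P FF} {p : ℂ × ℂ} (hp : p ∈ ball (0 : ℂ × ℂ) A.r) {Φ : ℂ × ℂ → ℂ × ℂ} (han : AnalyticAt ℂ Φ p)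
    (hm : Φ p ∈ ball (0 : ℂ × ℂ) B.r) (heq : ∀ᶠ w in 𝓝 p, ∃ c : ℂ, c ≠ 0 ∧ A.σ w = c • B.σ (Φ w)) :
    Function.Injective (fderiv ℂ Φ p) := by
  rw [injective_iff_map_eq_zero]
  intro u hu
  have hσA : AnalyticAt ℂ A.σ p := A.σ_an p (ball_subset_closedBall hp)
  have hσB : AnalyticAt ℂ B.σ (Φ p) := B.σ_an _ (ball_subset_closedBall hm)
  have hBΦ : AnalyticAt ℂ (fun w => B.σ (Φ w)) p := hσB.comp han
  have hne : B.σ (Φ p) ≠ 0 := by
    have h := (B.imm _ (ball_subset_closedBall hm)).ne_zero 0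
    simpa using h
  obtain ⟨k, hk⟩ : ∃ k, (B.σ (Φ p)) k ≠ 0 := by
    by_contra hcon
    push Not at hcon
    exact hne (by ext k; exact hcon k)
  have hc1 : AnalyticAt ℂ (fun w => A.σ w k) p :=
    AnalyticAt.comp (g := fun v : EN M => (EuclideanSpace.proj k : EN M →L[ℂ] ℂ) v) (f := A.σ)
      ((EuclideanSpace.proj k : EN M →L[ℂ] ℂ).analyticAt _) hσA
  have hc2 : AnalyticAt ℂ (fun w => B.σ (Φ w) k) p :=
    AnalyticAt.comp (g := fun v : EN M => (EuclideanSpace.proj k : EN M →L[ℂ] ℂ) v) (f := fun w => B.σ (Φ w))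
      ((EuclideanSpace.proj k : EN M →L[ℂ] ℂ).analyticAt _) hBΦ
  have hc : AnalyticAt ℂ (fun w => A.σ w k / B.σ (Φ w) k) p := hc1.div hc2 hk
  have hev : ∀ᶠ w in 𝓝 p, A.σ w = (A.σ w k / B.σ (Φ w) k) • B.σ (Φ w) := by
    filter_upwards [heq, hc2.continuousAt.eventually_ne hk] with w h1 h2
    obtain ⟨c, -, h3⟩ := h1
    have h4 : A.σ w k = c * B.σ (Φ w) k := by
      rw [h3]
      rfl
    rw [h4, mul_div_assoc, div_self h2, mul_one]
    exact h3
  have hd1 : HasFDerivAt A.σ (fderiv ℂ A.σ p) p := hσA.differentiableAt.hasFDerivAt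
  have hd2 : HasFDerivAt (fun w => B.σ (Φ w)) ((fderiv ℂ B.σ (Φ p)).comp (fderiv ℂ Φ p)) p :=
    hσB.differentiableAt.hasFDerivAt.comp p han.differentiableAt.hasFDerivAt
  have hd3 := hc.differentiableAt.hasFDerivAt.smul hd2
  have h5 : fderiv ℂ A.σ p = _ := hd1.unique (hd3.congr_of_eventuallyEq hev)
  have h6 := congrArg (fun T : ℂ × ℂ →L[ℂ] EN M => T u) h5
  simp only [add_apply, smul_apply, ContinuousLinearMap.comp_apply,
    ContinuousLinearMap.smulRight_apply, hu, map_zero, smul_zero, zero_add] at h6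
  obtain ⟨c, hc0, h7⟩ := heq.self_of_nhds
  set e := (fderiv ℂ (fun w => A.σ w k / B.σ (Φ w) k) p) u with he
  have h8 : fderiv ℂ A.σ p u = (e * c⁻¹) • A.σ p := by
    rw [h6, h7, smul_smul, mul_assoc, inv_mul_cancel₀ hc0, mul_one]
  have h9 : fderiv ℂ A.σ p u = u.1 • fderiv ℂ A.σ p (1, 0) + u.2 • fderiv ℂ A.σ p (0, 1) := by
    rw [← map_smul, ← map_smul, ← map_add]
    congr 1
    ext <;> simp
  have h10 := Fintype.linearIndependent_iff.1 (A.imm p (ball_subset_closedBall hp)) ![-(e * c⁻¹), u.1, u.2] (by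
    rw [Fin.sum_univ_three]
    simp only [Matrix.cons_val_zero, Matrix.cons_val_one, Matrix.cons_val_two, Matrix.head_cons, Matrix.tail_cons]
    rw [neg_smul, ← h8, h9]
    abel)
  have h11 := h10 1
  have h12 := h10 2
  simp only [Matrix.cons_val_one, Matrix.cons_val_two, Matrix.head_cons, Matrix.tail_cons, Matrix.cons_val_zero] at h11 h12
  exact Prod.ext h11 h12

/-- MODULE Chg, `Chg2`: along a curve. -/
theorem chg_curve {A B : GBox P FF} {F : ℂ → EN M} (hF : Crv P FF F) {z : ℂ} (hA : z ∈ A.Om F) (hB : z ∈ B.Om F) {Φ : ℂ × ℂ → ℂ × ℂ} {t : ℂ × ℂ → ℂ}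
    (h : Chg A B (A.cc F z) Φ t) : ∀ᶠ w in 𝓝 z, w ∈ A.Om F ∧ w ∈ B.Om F ∧ B.cc F w = Φ (A.cc F w) ∧
      t (A.cc F w) * B.zt F w = A.zt F w * (fderiv ℂ Φ (A.cc F w)).det := by
  have hcz := (cc_lift A hF.diff hF.mem hA).1.continuousAt
  have hOA : ∀ᶠ w in 𝓝 z, w ∈ A.Om F := (isOpen_Om A hF.diff hF.mem).mem_nhds hA
  have hOB : ∀ᶠ w in 𝓝 z, w ∈ B.Om F := (isOpen_Om B hF.diff hF.mem).mem_nhds hB
  have hΦb : ∀ᶠ p in 𝓝 (A.cc F z), Φ p ∈ ball (0 : ℂ × ℂ) B.r := h.an.continuousAt.eventually (isOpen_ball.mem_nhds h.mem)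
  have hcc : ∀ᶠ w in 𝓝 z, B.cc F w = Φ (A.cc F w) := by
    filter_upwards [hOA, hcz.eventually h.eq, hcz.eventually hΦb] with w h1 h2 h3
    obtain ⟨-, -, c, -, hc, h4⟩ := cc_lift A hF.diff hF.mem h1
    obtain ⟨c', hc', h5⟩ := h2
    show B.crd (F w) = _
    rw [h4.self_of_nhds, h5, smul_smul]
    exact crd_smul B h3 (mul_ne_zero hc hc')
  have hball : ∀ᶠ w in 𝓝 z, A.cc F w ∈ ball (0 : ℂ × ℂ) A.r := by
    filter_upwards [hOA] with w h1
    exact (cc_lift A hF.diff hF.mem h1).2.1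
  filter_upwards [hOA, hOB, hcc.eventually_nhds, hcz.eventually h.eq.eventually_nhds, hcz.eventually h.om, hcz.eventually hΦb,
    hcz.eventually h.an.eventually_analyticAt, hcz.eventually (h.t_an.continuousAt.eventually_ne h.t_ne), hball]
    with w h1 h2 h3 h4 h5 h6 h7 h8 h9
  refine ⟨h1, h2, h3.self_of_nhds, ?_⟩
  have hinj := chg_inj h9 h7 h6 h4
  have hsurj : Function.Surjective (fderiv ℂ Φ (A.cc F w)) :=
    LinearMap.injective_iff_surjective (f := (fderiv ℂ Φ (A.cc F w) : ℂ × ℂ →ₗ[ℂ] ℂ × ℂ)).1 hinj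
  have hder : deriv (B.cc F) w = fderiv ℂ Φ (A.cc F w) (deriv (A.cc F) w) := by
    have e1 : HasDerivAt (fun y => Φ (A.cc F y)) (fderiv ℂ Φ (A.cc F w) (deriv (A.cc F) w)) w :=
      h7.differentiableAt.hasFDerivAt.comp_hasDerivAt w (cc_lift A hF.diff hF.mem h1).1.differentiableAt.hasDerivAt
    exact (e1.congr_of_eventuallyEq h3).deriv
  by_cases hv : A.v (A.cc F w) = 0
  · have hvB : B.v (B.cc F w) = 0 := by
      have e1 : ∀ u : ℂ × ℂ, B.om (Φ (A.cc F w)) u = 0 := by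
        intro u
        obtain ⟨u', rfl⟩ := hsurj u
        rw [h5 u', GBox.om, hv]
        simp
      have e2 := e1 (1, 0)
      have e3 := e1 (0, 1)
      simp only [GBox.om, mul_zero, zero_sub, mul_one, neg_eq_zero, sub_zero] at e2 e3
      rw [h3.self_of_nhds]
      exact Prod.ext e3 e2
    have zA : A.zt F w = 0 := by
      rw [GBox.zt, if_pos (by rw [hv]; rfl), hv]
      simp
    have zB : B.zt F w = 0 := by
      rw [GBox.zt, if_pos (by rw [hvB]; rfl), hvB]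
      simp
    rw [zA, zB, mul_zero, zero_mul]
  · obtain ⟨u, hu⟩ : ∃ u : ℂ × ℂ, A.om (A.cc F w) u ≠ 0 := by
      by_contra hcon
      push Not at hcon
      have e2 := hcon (1, 0)
      have e3 := hcon (0, 1)
      simp only [GBox.om, mul_zero, zero_sub, mul_one, neg_eq_zero, sub_zero] at e2 e3
      exact hv (Prod.ext e3 e2)
    have hvB : B.v (B.cc F w) ≠ 0 := by
      intro h0
      have e1 := h5 u
      rw [← h3.self_of_nhds, GBox.om, h0] at e1
      simp only [Prod.fst_zero, Prod.snd_zero, zero_mul, sub_self] at e1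
      exact mul_ne_zero h8 hu e1.symm
    have eA := (deriv_cc A hF h1).2 hv
    have eB := (deriv_cc B hF h2).2 hvB
    have e1 : A.zt F w • fderiv ℂ Φ (A.cc F w) (A.v (A.cc F w)) = B.zt F w • B.v (B.cc F w) := by
      rw [← eB, hder, ← map_smul, ← eA]
    have e2 := wedge_det (fderiv ℂ Φ (A.cc F w)) (A.v (A.cc F w)) u
    have e3 := h5 u
    rw [← h3.self_of_nhds] at e3
    have e4 := congrArg Prod.fst e1
    have e5 := congrArg Prod.snd e1
    simp only [Prod.smul_fst, Prod.smul_snd, smul_eq_mul] at e4 e5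
    simp only [GBox.om] at e3 hu
    refine mul_right_cancel₀ hu ?_
    have e6 : A.zt F w * (fderiv ℂ Φ (A.cc F w)).det * ((A.v (A.cc F w)).1 * u.2 - (A.v (A.cc F w)).2 * u.1) =
        (A.zt F w * ((fderiv ℂ Φ (A.cc F w)) (A.v (A.cc F w))).1) * ((fderiv ℂ Φ (A.cc F w)) u).2 -
          (A.zt F w * ((fderiv ℂ Φ (A.cc F w)) (A.v (A.cc F w))).2) * ((fderiv ℂ Φ (A.cc F w)) u).1 := by
      rw [mul_assoc, ← e2]
      ring
    rw [e6, e4, e5]
    linear_combination (-(B.zt F w)) * e3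

end Pool.Agent.MQ
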