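import Pool.Agent.MQ.CoordB

/-!
# MQ Chg3, Chg4: the change from a box to a regular box, along a curve

`B` regular: `om_B (Φ; DΦ u) = - D(Φ₁) u`, so `D(Φ₁) = t (v₂ dx - v₁ dy)`; the symmetry of the second derivative of `Φ₁` gives
`v · ∇t + t div v = 0`.
-/

set_option autoImplicit false

open Topology Filter Metric MvPolynomial Asymptotics MeasureTheory Laplacian

noncomputable section

namespace Pool.Agent.MQ

open Pool.Agent.H36.BP (EN fs)
open Pool.Agent.H17EF (projVar coneE)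

variable {M : ℕ} {P : Ideal (MvPolynomial (Fin (M + 1)) ℂ)} {FF : Set (EN M × EN M)}

/-- `v · ∇t = - t div v` -/
theorem chg_div {A B : GBox P FF} (hB : B.Reg) {p : ℂ × ℂ} (hp : p ∈ ball (0 : ℂ × ℂ) A.r) {Φ : ℂ × ℂ → ℂ × ℂ} {t : ℂ × ℂ → ℂ}
    (h : Chg A B p Φ t) : fderiv ℂ t p (A.v p) = -(t p * dvg A.v p) := by
  have hv : AnalyticAt ℂ A.v p := A.v_an p (ball_subset_closedBall hp)
  have hv1 : AnalyticAt ℂ (fun w => (A.v w).1) p := analyticAt_fst.fun_comp hv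
  have hv2 : AnalyticAt ℂ (fun w => (A.v w).2) p := analyticAt_snd.fun_comp hv
  have ht := h.t_an
  have hf : AnalyticAt ℂ (fun w => (Φ w).1) p := analyticAt_fst.fun_comp h.an
  have hD : AnalyticAt ℂ (fderiv ℂ fun w => (Φ w).1) p := hf.fderiv
  have hDf : ∀ᶠ w in 𝓝 p, ∀ u : ℂ × ℂ, fderiv ℂ (fun w => (Φ w).1) w u = -(t w * A.om w u) := by
    filter_upwards [h.om, h.an.eventually_analyticAt] with w h1 h2 u
    have h3 : fderiv ℂ (fun w => (Φ w).1) w = (ContinuousLinearMap.fst ℂ ℂ ℂ).comp (fderiv ℂ Φ w) :=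
      ((ContinuousLinearMap.fst ℂ ℂ ℂ).hasFDerivAt.comp w h2.differentiableAt.hasFDerivAt).fderiv
    have h4 := h1 u
    have h5 := hB (Φ w)
    simp only [GBox.om, h5, zero_mul, one_mul, zero_sub] at h4
    rw [h3, ContinuousLinearMap.comp_apply, ContinuousLinearMap.coe_fst', ← neg_eq_iff_eq_neg, h4, GBox.om]
  have hx : (fun w => fderiv ℂ (fun w => (Φ w).1) w (1, 0)) =ᶠ[𝓝 p] fun w => t w * (A.v w).2 := by
    filter_upwards [hDf] with w hw
    rw [hw, GBox.om]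
    ring
  have hy : (fun w => fderiv ℂ (fun w => (Φ w).1) w (0, 1)) =ᶠ[𝓝 p] fun w => -(t w * (A.v w).1) := by
    filter_upwards [hDf] with w hw
    rw [hw, GBox.om]
    ring
  have hsym : fderiv ℂ (fderiv ℂ fun w => (Φ w).1) p (0, 1) (1, 0) = fderiv ℂ (fderiv ℂ fun w => (Φ w).1) p (1, 0) (0, 1) := by
    have h1 : ContDiffAt ℂ 2 (fun w => (Φ w).1) p := hf.contDiffAt
    exact (h1.isSymmSndFDerivAt (by simp)).eq _ _
  have hap : ∀ u a : ℂ × ℂ, fderiv ℂ (fun w => fderiv ℂ (fun w => (Φ w).1) w u) p a = fderiv ℂ (fderiv ℂ fun w => (Φ w).1) p a u := by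
    intro u a
    have h1 := (hD.differentiableAt.hasFDerivAt.clm_apply (hasFDerivAt_const u p)).fderiv
    rw [h1]
    simp
  have h1 : fderiv ℂ (fun w => t w * (A.v w).2) p (0, 1) = fderiv ℂ (fun w => -(t w * (A.v w).1)) p (1, 0) := by
    rw [← hx.fderiv_eq, ← hy.fderiv_eq, hap, hap, hsym]
  have h2 : fderiv ℂ (fun w => t w * (A.v w).2) p (0, 1) = t p * fderiv ℂ (fun w => (A.v w).2) p (0, 1) + (A.v p).2 * fderiv ℂ t p (0, 1) := by
    rw [fderiv_fun_mul ht.differentiableAt hv2.differentiableAt]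
    simp
  have h3 : fderiv ℂ (fun w => -(t w * (A.v w).1)) p (1, 0) = -(t p * fderiv ℂ (fun w => (A.v w).1) p (1, 0) + (A.v p).1 * fderiv ℂ t p (1, 0)) := by
    rw [fderiv_fun_neg, fderiv_fun_mul ht.differentiableAt hv1.differentiableAt]
    simp
  have h4 : ∀ u : ℂ × ℂ, fderiv ℂ (fun w => (A.v w).1) p u = (fderiv ℂ A.v p u).1 := fun u => by
    have h : fderiv ℂ (fun w => (A.v w).1) p = (ContinuousLinearMap.fst ℂ ℂ ℂ).comp (fderiv ℂ A.v p) :=
      ((ContinuousLinearMap.fst ℂ ℂ ℂ).hasFDerivAt.comp p hv.differentiableAt.hasFDerivAt).fderiv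
    rw [h]
    rfl
  have h5 : ∀ u : ℂ × ℂ, fderiv ℂ (fun w => (A.v w).2) p u = (fderiv ℂ A.v p u).2 := fun u => by
    have h : fderiv ℂ (fun w => (A.v w).2) p = (ContinuousLinearMap.snd ℂ ℂ ℂ).comp (fderiv ℂ A.v p) :=
      ((ContinuousLinearMap.snd ℂ ℂ ℂ).hasFDerivAt.comp p hv.differentiableAt.hasFDerivAt).fderiv
    rw [h]
    rfl
  rw [h2, h3, h4, h5] at h1
  have h6 : A.v p = (A.v p).1 • ((1 : ℂ), (0 : ℂ)) + (A.v p).2 • ((0 : ℂ), (1 : ℂ)) := by
    ext <;> simp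
  rw [h6, map_add, map_smul, map_smul, smul_eq_mul, smul_eq_mul, dvg]
  linear_combination h1

/-- `Chg4`: `d log t = - div v dζ` along the curves. -/
theorem chg_sing_reg {A B : GBox P FF} (hB : B.Reg) {F : ℂ → EN M} (hF : Crv P FF F) {z : ℂ} (hzA : z ∈ A.Om F) (hv : A.v (A.cc F z) ≠ 0)
    {Φ : ℂ × ℂ → ℂ × ℂ} {t : ℂ × ℂ → ℂ} (h : Chg A B (A.cc F z) Φ t) :
    deriv (fun w => t (A.cc F w)) z = - (dvg A.v (A.cc F z) * A.zt F z * t (A.cc F z)) := by
  obtain ⟨h1, h2, -⟩ := cc_lift A hF.diff hF.mem hzA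
  have h3 := (deriv_cc A hF hzA).2 hv
  have h4 := chg_div hB h2 h
  have h5 : HasDerivAt (fun w => t (A.cc F w)) (fderiv ℂ t (A.cc F z) (deriv (A.cc F) z)) z :=
    h.t_an.differentiableAt.hasFDerivAt.comp_hasDerivAt z h1.differentiableAt.hasDerivAt
  rw [h5.deriv, h3, map_smul, h4, smul_eq_mul]
  ring

/-- `Chg3`: regular boxes. -/
theorem chg_reg_reg {A B : GBox P FF} (hA : A.Reg) (hB : B.Reg) {F : ℂ → EN M} (hF : Crv P FF F) {z : ℂ} (hzA : z ∈ A.Om F)
    {Φ : ℂ × ℂ → ℂ × ℂ} {t : ℂ × ℂ → ℂ} (h : Chg A B (A.cc F z) Φ t) : ∀ᶠ w in 𝓝 z, t (A.cc F w) = t (A.cc F z) := by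
  obtain ⟨h1, h2, -⟩ := cc_lift A hF.diff hF.mem hzA
  -- the change near the points of the curve
  have hc : ContinuousAt (A.cc F) z := h1.continuousAt
  have hq : ∀ᶠ q in 𝓝 (A.cc F z), Chg A B q Φ t := by
    filter_upwards [h.an.eventually_analyticAt, h.t_an.eventually_analyticAt, h.eq.eventually_nhds, h.om.eventually_nhds,
      h.an.continuousAt.eventually (isOpen_ball.mem_nhds h.mem), h.t_an.continuousAt.eventually_ne h.t_ne] with q a1 a2 a3 a4 a5 a6
    exact ⟨a1, a5, a3, a2, a6, a4⟩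
  have hd : ∀ᶠ w in 𝓝 z, HasDerivAt (fun w => t (A.cc F w)) 0 w := by
    filter_upwards [hc.eventually hq, (isOpen_Om A hF.diff hF.mem).mem_nhds hzA] with w hw hwA
    obtain ⟨k1, k2, -⟩ := cc_lift A hF.diff hF.mem hwA
    have hv : A.v (A.cc F w) ≠ 0 := by
      rw [hA]
      intro h
      exact one_ne_zero (congrArg Prod.snd h)
    have k3 := (deriv_cc A hF hwA).2 hv
    have k4 := chg_div hB k2 hw
    have k5 : HasDerivAt (fun w => t (A.cc F w)) (fderiv ℂ t (A.cc F w) (deriv (A.cc F) w)) w :=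
      hw.t_an.differentiableAt.hasFDerivAt.comp_hasDerivAt w k1.differentiableAt.hasDerivAt
    have k6 : dvg A.v (A.cc F w) = 0 := by
      have h7 : A.v = fun _ => (0, 1) := funext hA
      rw [dvg, h7]
      simp
    rw [k3, map_smul, k4, k6, mul_zero, neg_zero, smul_zero] at k5
    exact k5
  obtain ⟨ε, hε, hball⟩ := Metric.eventually_nhds_iff_ball.1 hd
  have hconst : ∀ w ∈ ball z ε, t (A.cc F w) = t (A.cc F z) := by
    intro w hw
    have hdiff : DifferentiableOn ℂ (fun w => t (A.cc F w)) (ball z ε) := fun y hy => (hball y hy).differentiableAt.differentiableWithinAt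
    have hpre : IsPreconnected (ball z ε) := (convex_ball z ε).isPreconnected
    exact isOpen_ball.is_const_of_deriv_eq_zero hpre hdiff (fun y hy => (hball y hy).deriv) hw (mem_ball_self hε)
  exact Metric.eventually_nhds_iff_ball.2 ⟨ε, hε, hconst⟩

end Pool.Agent.MQ
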