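import Pool.Agent.MQ.Gauge
import Pool.Agent.MQ.BetaG
import Pool.Agent.MQ.Chg1
import Pool.Agent.MQ.Chg2
import Pool.Agent.MQ.Chg3
import Pool.Agent.MQ.CoordB

/-!
# MQ Be12: the field `gr (mm i ∘ cc)` in two boxes
-/

set_option autoImplicit false

open Topology Filter Metric MvPolynomial Asymptotics MeasureTheory Laplacian

noncomputable section

namespace Pool.Agent.MQ

open Pool.Agent.H36.BP (EN fs)

variable {M : ℕ} {P : Ideal (MvPolynomial (Fin (M + 1)) ℂ)} {FF : Set (EN M × EN M)}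

/-- the common part: the change of the potentials along the curve -/
theorem be_common {A : Atlas P FF} {D : CData A} {mm : A.ι → ℂ × ℂ → ℝ} (hm : Gauge A D mm) {F : ℂ → EN M} (hF : Crv P FF F)
    {i j : A.ι} {z : ℂ} (hzi : z ∈ (A.B i).Om F) (hzj : z ∈ (A.B j).Om F) (hv : (A.B i).v ((A.B i).cc F z) ≠ 0) :
    ∃ (Φ : ℂ × ℂ → ℂ × ℂ) (t s : ℂ × ℂ → ℂ), Chg (A.B i) (A.B j) ((A.B i).cc F z) Φ t ∧ AnalyticAt ℂ s ((A.B i).cc F z) ∧ s ((A.B i).cc F z) ≠ 0 ∧
      ∀ᶠ w in 𝓝 z, D.g j ((A.B j).cc F w) = s ((A.B i).cc F w) * D.g i ((A.B i).cc F w) ∧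
        mm j ((A.B j).cc F w) = mm i ((A.B i).cc F w) + Real.log ‖s ((A.B i).cc F w)‖ - Real.log ‖t ((A.B i).cc F w)‖ := by
  obtain ⟨hai, hbi, ci, hci, hci0, hei⟩ := cc_lift (A.B i) hF.diff hF.mem hzi
  obtain ⟨haj, hbj, cj, hcj, hcj0, hej⟩ := cc_lift (A.B j) hF.diff hF.mem hzj
  have h1 : (A.B i).σ ((A.B i).cc F z) = (cj z / ci z) • (A.B j).σ ((A.B j).cc F z) := by
    have e1 := hei.self_of_nhds
    have e2 := hej.self_of_nhds
    rw [e1] at e2
    rw [div_eq_inv_mul, mul_smul, ← e2, smul_smul, inv_mul_cancel₀ hci0, one_smul]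
  obtain ⟨Φ, t, hC, hΦ⟩ := exists_chg (A.B i) (A.B j) hbi hbj (div_ne_zero hcj0 hci0) h1 hv
  obtain ⟨s, hs, hs0, hse⟩ := D.comp i j _ hbi Φ t hC
  have hmm := hm.comp i j _ hbi Φ t s hC hs hs0 hse
  have hcv := chg_curve hF hzi hzj hC
  have ht : Tendsto ((A.B i).cc F) (𝓝 z) (𝓝 ((A.B i).cc F z)) := hai.continuousAt
  refine ⟨Φ, t, s, hC, hs, hs0, ?_⟩
  filter_upwards [hcv, ht.eventually hse, ht.eventually hmm] with w h2 h3 h4
  rw [h2.2.2.1]
  exact ⟨h3, h4⟩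

/-- in a regular box the first coordinate is locally constant along the curve -/
theorem be_const {B : GBox P FF} (hB : B.Reg) {F : ℂ → EN M} (hF : Crv P FF F) {z : ℂ} (hz : z ∈ B.Om F) :
    ∀ᶠ w in 𝓝 z, (B.cc F w).1 = (B.cc F z).1 := by
  have hO := isOpen_Om B hF.diff hF.mem
  have hd : ∀ w ∈ B.Om F, HasDerivAt (fun w => (B.cc F w).1) 0 w := by
    intro w hw
    obtain ⟨ha, -, -⟩ := cc_lift B hF.diff hF.mem hw
    have h1 := ha.differentiableAt.hasDerivAt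
    have h2 : HasDerivAt (fun w => (B.cc F w).1) (deriv (B.cc F) w).1 w := by
      have := (ContinuousLinearMap.fst ℂ ℂ ℂ).hasFDerivAt.comp_hasDerivAt w h1
      exact this
    have h3 := (deriv_cc B hF hw).1
    unfold GBox.om at h3
    rw [hB] at h3
    simp only [zero_mul, one_mul, zero_sub, neg_eq_zero] at h3
    rwa [h3] at h2
  obtain ⟨ε, hε, hball⟩ := Metric.isOpen_iff.1 hO z hz
  filter_upwards [Metric.ball_mem_nhds z hε] with w hw
  have hc : ∀ x ∈ ball z ε, HasDerivWithinAt (fun w => (B.cc F w).1) 0 (ball z ε) x := fun x hx => (hd x (hball hx)).hasDerivWithinAt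
  have h4 := (convex_ball z ε).norm_image_sub_le_of_norm_hasDerivWithin_le (C := 0) hc (fun x _ => by simp) (mem_ball_self hε) hw
  rw [zero_mul, norm_le_zero_iff, sub_eq_zero] at h4
  exact h4

/-- the local equation of the invariant curve is locally constant along the curve in a regular box -/
theorem be_g_const {A : Atlas P FF} {D : CData A} {F : ℂ → EN M} (hF : Crv P FF F) {j : A.ι} (hj : (A.B j).Reg) {z : ℂ} (hzj : z ∈ (A.B j).Om F) :
    ∀ᶠ w in 𝓝 z, D.g j ((A.B j).cc F w) = D.g j ((A.B j).cc F z) := by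
  obtain ⟨S, hS⟩ := D.reg j hj
  filter_upwards [be_const hj hF hzj] with w hw
  rw [hS, hS, hw]

theorem differentiableAt_mm_cc {A : Atlas P FF} {D : CData A} {mm : A.ι → ℂ × ℂ → ℝ} (hm : Gauge A D mm) {F : ℂ → EN M} (hF : Crv P FF F)
    {i : A.ι} {z : ℂ} (hzi : z ∈ (A.B i).Om F) : ContDiffAt ℝ 2 (fun w => mm i ((A.B i).cc F w)) z := by
  obtain ⟨hai, hbi, -⟩ := cc_lift (A.B i) hF.diff hF.mem hzi
  exact ((hm.smooth i).contDiffAt (isOpen_ball.mem_nhds hbi)).comp z ((hai.contDiffAt (n := 2)).restrict_scalars ℝ)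

/-- MODULE Beta, `Be1`. -/
theorem beta_reg {A : Atlas P FF} {D : CData A} {mm : A.ι → ℂ × ℂ → ℝ} (hm : Gauge A D mm) {F : ℂ → EN M} (hF : Crv P FF F)
    (hR : ∃ z, eval (F z).ofLp D.R ≠ 0) {i j : A.ι} (hi : (A.B i).Reg) (hj : (A.B j).Reg) {z : ℂ} (hzi : z ∈ (A.B i).Om F) (hzj : z ∈ (A.B j).Om F) :
    gr (fun w => mm i ((A.B i).cc F w)) z = gr (fun w => mm j ((A.B j).cc F w)) z := by
  have hv : (A.B i).v ((A.B i).cc F z) ≠ 0 := by
    rw [hi]; simp
  obtain ⟨Φ, t, s, hC, hs, hs0, hev⟩ := be_common hm hF hzi hzj hv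
  have ht := chg_reg_reg hi hj hF hzi hC
  have hgi : D.g i ((A.B i).cc F z) ≠ 0 := g_ne hF hR hzi hv
  have e : (fun w => mm j ((A.B j).cc F w)) =ᶠ[𝓝 z] fun w => mm i ((A.B i).cc F w) +
      (Real.log ‖s ((A.B i).cc F z)‖ - Real.log ‖t ((A.B i).cc F z)‖) := by
    have h0 := hev.self_of_nhds.1
    filter_upwards [hev, ht, be_g_const (D := D) hF hi hzi, be_g_const (D := D) hF hj hzj] with w h1 h2 h3 h4
    have hsw : s ((A.B i).cc F w) = s ((A.B i).cc F z) := by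
      have h5 := h1.1
      rw [h3, h4, h0] at h5
      exact (mul_right_cancel₀ hgi h5).symm
    rw [h1.2, h2, hsw]
    ring
  rw [gr_congr e]
  have hd : DifferentiableAt ℝ (fun w => mm i ((A.B i).cc F w)) z := (differentiableAt_mm_cc hm hF hzi).differentiableAt (by norm_num)
  rw [gr_add hd (differentiableAt_const _)]
  simp [gr_const]

/-- MODULE Beta, `Be2`. -/
theorem beta_sing {A : Atlas P FF} {D : CData A} {mm : A.ι → ℂ × ℂ → ℝ} (hm : Gauge A D mm) {F : ℂ → EN M} (hF : Crv P FF F)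
    (hR : ∃ z, eval (F z).ofLp D.R ≠ 0) {i j : A.ι} (hj : (A.B j).Reg) {z : ℂ} (hzi : z ∈ (A.B i).Om F) (hzj : z ∈ (A.B j).Om F)
    (hv : (A.B i).v ((A.B i).cc F z) ≠ 0) :
    gr (fun w => mm j ((A.B j).cc F w)) z = gr (fun w => mm i ((A.B i).cc F w)) z + (starRingEnd ℂ) ((A.B i).DD (D.g i) F z) := by
  obtain ⟨Φ, t, s, hC, hs, hs0, hev⟩ := be_common hm hF hzi hzj hv
  have hgi : D.g i ((A.B i).cc F z) ≠ 0 := g_ne hF hR hzi hv
  obtain ⟨hai, hbi, -⟩ := cc_lift (A.B i) hF.diff hF.mem hzi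
  have hS : AnalyticAt ℂ (fun w => s ((A.B i).cc F w)) z := hs.comp hai
  have hT : AnalyticAt ℂ (fun w => t ((A.B i).cc F w)) z := hC.t_an.comp hai
  have hS0 : s ((A.B i).cc F z) ≠ 0 := hs0
  have hT0 : t ((A.B i).cc F z) ≠ 0 := hC.t_ne
  have hdt := chg_sing_reg hj hF hzi hv hC
  have h0 := hev.self_of_nhds.1
  have hgj : D.g j ((A.B j).cc F z) ≠ 0 := by
    rw [h0]; exact mul_ne_zero hs0 hgi
  -- the quotient is constant
  have hcst : ∀ᶠ w in 𝓝 z, D.g i ((A.B i).cc F w) = D.g j ((A.B j).cc F z) * (s ((A.B i).cc F w))⁻¹ := by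
    have hne : ∀ᶠ w in 𝓝 z, s ((A.B i).cc F w) ≠ 0 := hS.continuousAt.eventually_ne hS0
    filter_upwards [hev, hne, be_g_const (D := D) hF hj hzj] with w h1 h2 h3
    rw [← h3, h1.1]
    field_simp
  have hds : deriv (fun w => D.g i ((A.B i).cc F w)) z / D.g i ((A.B i).cc F z) =
      - (deriv (fun w => s ((A.B i).cc F w)) z / s ((A.B i).cc F z)) := by
    have h1 : HasDerivAt (fun w => D.g j ((A.B j).cc F z) * (s ((A.B i).cc F w))⁻¹)
        (D.g j ((A.B j).cc F z) * (-deriv (fun w => s ((A.B i).cc F w)) z / s ((A.B i).cc F z) ^ 2)) z :=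
      (hS.differentiableAt.hasDerivAt.inv hS0).const_mul _
    have h2 := (h1.congr_of_eventuallyEq hcst).deriv
    rw [h2, hcst.self_of_nhds]
    field_simp
  have e : (fun w => mm j ((A.B j).cc F w)) =ᶠ[𝓝 z] fun w => mm i ((A.B i).cc F w) +
      (Real.log ‖s ((A.B i).cc F w)‖ - Real.log ‖t ((A.B i).cc F w)‖) := by
    filter_upwards [hev] with w h1
    rw [h1.2]
    ring
  have hd : DifferentiableAt ℝ (fun w => mm i ((A.B i).cc F w)) z := (differentiableAt_mm_cc hm hF hzi).differentiableAt (by norm_num)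
  have hlS : DifferentiableAt ℝ (fun w => Real.log ‖s ((A.B i).cc F w)‖) z :=
    (Pool.Agent.H30M.contDiffAt_log_norm hS hS0).differentiableAt (by norm_num)
  have hlT : DifferentiableAt ℝ (fun w => Real.log ‖t ((A.B i).cc F w)‖) z :=
    (Pool.Agent.H30M.contDiffAt_log_norm hT hT0).differentiableAt (by norm_num)
  have hlg : ∀ {f : ℂ → ℂ}, AnalyticAt ℂ f z → f z ≠ 0 → gr (fun w => Real.log ‖f w‖) z = (starRingEnd ℂ) (deriv f z / f z) := by
    intro f hf hf0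
    apply Complex.ext
    · rw [gr_re, Pool.Agent.H30M.fderiv_log_norm hf.differentiableAt hf0, mul_one, Complex.conj_re]
    · rw [gr_im, Pool.Agent.H30M.fderiv_log_norm hf.differentiableAt hf0, Complex.conj_im, Complex.mul_re, Complex.I_re, Complex.I_im]
      ring
  have hsub : DifferentiableAt ℝ (fun w => Real.log ‖s ((A.B i).cc F w)‖ - Real.log ‖t ((A.B i).cc F w)‖) z := hlS.sub hlT
  rw [gr_congr e, gr_add hd hsub, gr_sub hlS hlT, hlg hS hS0, hlg hT hT0, hdt]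
  unfold GBox.DD
  rw [hds, ← map_sub]
  congr 2
  field_simp
  ring

end Pool.Agent.MQ
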