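import Pool.Agent.MQ.EE2
import Pool.Agent.MQ.Be12
import Pool.Agent.MQ.CoordB

/-!
# MQ AsmDefs: the function `E`, glued over the boxes
-/

set_option autoImplicit false

open Topology Filter Metric MvPolynomial Asymptotics MeasureTheory Laplacian

noncomputable section

namespace Pool.Agent.MQ

open Pool.Agent.H36.BP (EN fs)
open Pool.Agent.H17BP (IsChart IsForm)
open Pool.Agent.H17EF (projVar coneE)
open Pool.Agent.H30M (tau avg rhoR LogSing)

variable {M : ℕ} {P : Ideal (MvPolynomial (Fin (M + 1)) ℂ)} {FF : Set (EN M × EN M)}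

/-- a box which contains `F z` in the polydisc of radius `r / 4` -/
def idx (A : Atlas P FF) {F : ℂ → EN M} (hF : Crv P FF F) (z : ℂ) : A.ι := (A.cover _ (hF.mem z)).choose

theorem idx_mem (A : Atlas P FF) {F : ℂ → EN M} (hF : Crv P FF F) (z : ℂ) :
    F z ∈ (A.B (idx A hF z)).U ((A.B (idx A hF z)).r / 4) := (A.cover _ (hF.mem z)).choose_spec

theorem GBox.U_mono (B : GBox P FF) {s t : ℝ} (h : s ≤ t) : B.U s ⊆ B.U t := by
  rintro x ⟨p, hp, c, hc, hx⟩
  exact ⟨p, ball_subset_ball h hp, c, hc, hx⟩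

theorem idx_Om (A : Atlas P FF) {F : ℂ → EN M} (hF : Crv P FF F) (z : ℂ) : z ∈ (A.B (idx A hF z)).Om F :=
  GBox.U_mono _ (by have := (A.B (idx A hF z)).pos; linarith) (idx_mem A hF z)

/-- `EE` in the box `i`, with the weight of `Q` -/
def EB (A : Atlas P FF) (D : CData A) (mm : A.ι → ℂ × ℂ → ℝ) (m j : ℕ) (W : EN M → EN M → EN M → ℂ) (Q : MvPolynomial (Fin (M + 1)) ℂ) (d K n : ℕ)
    (F : ℂ → EN M) (i : A.ι) (z : ℂ) : ℝ :=
  EE A D mm m j W F i z + K / n * (Real.log ‖eval (F z).ofLp Q‖ - d * Real.log ‖F z‖)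

/-- the function `E` of the pack -/
def Eg (A : Atlas P FF) (D : CData A) (mm : A.ι → ℂ × ℂ → ℝ) (m j : ℕ) (W : EN M → EN M → EN M → ℂ) (Q : MvPolynomial (Fin (M + 1)) ℂ) (d K n : ℕ)
    {F : ℂ → EN M} (hF : Crv P FF F) (z : ℂ) : ℝ := EB A D mm m j W Q d K n F (idx A hF z) z

end Pool.Agent.MQ
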