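import Pool.Agent.MQ.AsmA
import Pool.Agent.MQ.AsmDefs
import Pool.Agent.H17EF.Alg

/-!
# MQ AsmC: the Laplacian inequality
-/

set_option autoImplicit false

open Topology Filter Metric MvPolynomial Asymptotics MeasureTheory Laplacian

noncomputable section

namespace Pool.Agent.MQ

open Pool.Agent.H36.BP (EN fs)
open Pool.Agent.H17BP (IsChart IsForm Surface)
open Pool.Agent.H17EF (projVar coneE LE)
open Pool.Agent.H30M (tau avg rhoR LogSing)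

variable {M : ℕ} {P : Ideal (MvPolynomial (Fin (M + 1)) ℂ)} {FF : Set (EN M × EN M)}

namespace Asm

theorem analyticAt_eval_F {F : ℂ → EN M} (hF : Differentiable ℂ F) (Q : MvPolynomial (Fin (M + 1)) ℂ) (z : ℂ) :
    AnalyticAt ℂ (fun w => eval (F w).ofLp Q) z := by
  have h1 : AnalyticAt ℂ (fun w => (F w).ofLp) z := by
    have h2 : AnalyticAt ℂ F z := hF.analyticAt z
    exact ((LE M).symm : EN M →L[ℂ] (Fin (M + 1) → ℂ)).analyticAt (F z) |>.comp h2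
  exact Pool.Agent.H17EF.analyticAt_eval h1 Q

theorem analyticAt_v_cc (B : GBox P FF) {F : ℂ → EN M} (hF : Crv P FF F) {z : ℂ} (hz : z ∈ B.Om F) :
    AnalyticAt ℂ (fun w => B.v (B.cc F w)) z := by
  obtain ⟨hcc, hb, -⟩ := cc_lift B hF.diff hF.mem hz
  exact (B.v_an _ (ball_subset_closedBall hb)).comp hcc

theorem analyticAt_σ_cc (B : GBox P FF) {F : ℂ → EN M} (hF : Crv P FF F) {z : ℂ} (hz : z ∈ B.Om F) :
    AnalyticAt ℂ (fun w => B.σ (B.cc F w)) z := by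
  obtain ⟨hcc, hb, -⟩ := cc_lift B hF.diff hF.mem hz
  exact (B.σ_an _ (ball_subset_closedBall hb)).comp hcc

theorem analyticAt_zt_of_v (B : GBox P FF) {F : ℂ → EN M} (hF : Crv P FF F) {z : ℂ} (hz : z ∈ B.Om F) (hv : B.v (B.cc F z) ≠ 0) :
    AnalyticAt ℂ (B.zt F) z := by
  obtain ⟨hcc, hb, -⟩ := cc_lift B hF.diff hF.mem hz
  have hvan := analyticAt_v_cc B hF hz
  have hO := (isOpen_Om B hF.diff hF.mem).mem_nhds hz
  have hvne : ∀ᶠ w in 𝓝 z, B.v (B.cc F w) ≠ 0 := hvan.continuousAt.eventually_ne hv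
  have hd : AnalyticAt ℂ (deriv (B.cc F)) z := hcc.deriv
  have hf : ∀ {f : ℂ → ℂ × ℂ}, AnalyticAt ℂ f z → AnalyticAt ℂ (fun w => (f w).1) z := fun {f} h =>
    ((ContinuousLinearMap.fst ℂ ℂ ℂ).analyticAt (f z)).comp h
  have hs : ∀ {f : ℂ → ℂ × ℂ}, AnalyticAt ℂ f z → AnalyticAt ℂ (fun w => (f w).2) z := fun {f} h =>
    ((ContinuousLinearMap.snd ℂ ℂ ℂ).analyticAt (f z)).comp h
  by_cases h2 : (B.v (B.cc F z)).2 = 0
  · have h1 : (B.v (B.cc F z)).1 ≠ 0 := fun h => hv (Prod.ext h h2)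
    have e : (fun w => (deriv (B.cc F) w).1 / (B.v (B.cc F w)).1) =ᶠ[𝓝 z] B.zt F := by
      filter_upwards [hO, hvne, (hf hvan).continuousAt.eventually_ne h1] with w hw hvw h1w
      have h3 := congrArg Prod.fst ((deriv_cc B hF hw).2 hvw)
      rw [div_eq_iff h1w, h3]
      rfl
    exact ((hf hd).div (hf hvan) h1).congr e
  · have e : (fun w => (deriv (B.cc F) w).2 / (B.v (B.cc F w)).2) =ᶠ[𝓝 z] B.zt F := by
      filter_upwards [hO, hvne, (hs hvan).continuousAt.eventually_ne h2] with w hw hvw h2w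
      have h3 := congrArg Prod.snd ((deriv_cc B hF hw).2 hvw)
      rw [div_eq_iff h2w, h3]
      rfl
    exact ((hs hd).div (hs hvan) h2).congr e

theorem analyticAt_W_cc (B : GBox P FF) {m j : ℕ} {W : EN M → EN M → EN M → ℂ} (hW : IsForm (coneE P) m j W) {F : ℂ → EN M} (hF : Crv P FF F)
    {z : ℂ} (hz : z ∈ B.Om F) : AnalyticAt ℂ (fun w => GBox.W B W (B.cc F w)) z := by
  obtain ⟨hcc, hb, -⟩ := cc_lift B hF.diff hF.mem hz
  have h := hW.analytic B.σ (B.cc F z) (B.σ_an _ (ball_subset_closedBall hb)) (by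
    filter_upwards [isOpen_ball.mem_nhds hb] with p hp
    exact B.mem p (ball_subset_closedBall hp))
  exact h.comp hcc

/-- the Laplacian of `log |σ (cc)|` -/
theorem lap_log_σ (B : GBox P FF) {F : ℂ → EN M} (hF : Crv P FF F) {z : ℂ} (hz : z ∈ B.Om F) :
    ContDiffAt ℝ 2 (fun w => Real.log ‖B.σ (B.cc F w)‖) z ∧ Δ (fun w => Real.log ‖B.σ (B.cc F w)‖) z = 2 * lam F z ^ 2 := by
  obtain ⟨hcc, hb, c, hc, hc0, hFc⟩ := cc_lift B hF.diff hF.mem hz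
  have h1 := analyticAt_σ_cc B hF hz
  have h0 : B.σ (B.cc F z) ≠ 0 := σ_ne B (ball_subset_closedBall hb)
  have hFz : F z ≠ 0 := by
    rw [hFc.self_of_nhds]
    exact smul_ne_zero hc0 h0
  refine ⟨contDiffAt_log_norm h1 h0, ?_⟩
  have e : (fun w => Real.log ‖F w‖) =ᶠ[𝓝 z] fun w => Real.log ‖c w‖ + Real.log ‖B.σ (B.cc F w)‖ := by
    filter_upwards [hFc, hc.continuousAt.eventually_ne hc0, h1.continuousAt.eventually_ne h0] with w hw hcw hσ
    rw [hw, norm_smul, Real.log_mul (norm_ne_zero_iff.2 hcw) (norm_ne_zero_iff.2 hσ)]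
  have h2 := (lap_log_norm (hF.diff.analyticAt z) hFz).2
  rw [Pool.Agent.H30M.lap_congr e, Pool.Agent.H30M.lap_add (Pool.Agent.H30M.contDiffAt_log_norm hc hc0) (contDiffAt_log_norm h1 h0),
    Pool.Agent.H30M.lap_log_norm hc hc0, zero_add] at h2
  exact h2

private theorem lap_lin {u₁ u₂ u₃ u₄ u₅ u₆ u₇ : ℂ → ℝ} {z : ℂ} (h₁ : ContDiffAt ℝ 2 u₁ z) (h₂ : ContDiffAt ℝ 2 u₂ z) (h₃ : ContDiffAt ℝ 2 u₃ z)
    (h₄ : ContDiffAt ℝ 2 u₄ z) (h₅ : ContDiffAt ℝ 2 u₅ z) (h₆ : ContDiffAt ℝ 2 u₆ z) (h₇ : ContDiffAt ℝ 2 u₇ z) (a b c e : ℝ) :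
    ContDiffAt ℝ 2 (fun w => u₁ w + (a * u₂ w + u₃ w + b * u₄ w - u₅ w) + c * (u₆ w - e * u₇ w)) z ∧
    Δ (fun w => u₁ w + (a * u₂ w + u₃ w + b * u₄ w - u₅ w) + c * (u₆ w - e * u₇ w)) z =
      Δ u₁ z + (a * Δ u₂ z + Δ u₃ z + b * Δ u₄ z - Δ u₅ z) + c * (Δ u₆ z - e * Δ u₇ z) := by
  have ha : ContDiffAt ℝ 2 (fun w => a * u₂ w) z := contDiffAt_const.mul h₂
  have hb : ContDiffAt ℝ 2 (fun w => b * u₄ w) z := contDiffAt_const.mul h₄
  have he : ContDiffAt ℝ 2 (fun w => e * u₇ w) z := contDiffAt_const.mul h₇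
  have h6 : ContDiffAt ℝ 2 (fun w => u₆ w - e * u₇ w) z := h₆.sub he
  have hc : ContDiffAt ℝ 2 (fun w => c * (u₆ w - e * u₇ w)) z := contDiffAt_const.mul h6
  have h23 : ContDiffAt ℝ 2 (fun w => a * u₂ w + u₃ w) z := ha.add h₃
  have h24 : ContDiffAt ℝ 2 (fun w => a * u₂ w + u₃ w + b * u₄ w) z := h23.add hb
  have h25 : ContDiffAt ℝ 2 (fun w => a * u₂ w + u₃ w + b * u₄ w - u₅ w) z := h24.sub h₅
  have h15 : ContDiffAt ℝ 2 (fun w => u₁ w + (a * u₂ w + u₃ w + b * u₄ w - u₅ w)) z := h₁.add h25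
  refine ⟨h15.add hc, ?_⟩
  rw [Pool.Agent.H30M.lap_add h15 hc, Pool.Agent.H30M.lap_add h₁ h25, Pool.Agent.H30M.lap_sub h24 h₅, Pool.Agent.H30M.lap_add h23 hb,
    Pool.Agent.H30M.lap_add ha h₃, Pool.Agent.H30M.lap_const_mul h₂, Pool.Agent.H30M.lap_const_mul h₄, Pool.Agent.H30M.lap_const_mul h6,
    Pool.Agent.H30M.lap_sub h₆ he, Pool.Agent.H30M.lap_const_mul h₇]

theorem lap_EB {A : Atlas P FF} {D : CData A} {mm : A.ι → ℂ × ℂ → ℝ} (hm : Gauge A D mm) {m j : ℕ} {W : EN M → EN M → EN M → ℂ}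
    (hW : IsForm (coneE P) m j W) {F : ℂ → EN M} (hF : Crv P FF F) {Q : MvPolynomial (Fin (M + 1)) ℂ} (d K n : ℕ) {i : A.ι} {z : ℂ}
    (hz : z ∈ (A.B i).Om F) (hv : (A.B i).v ((A.B i).cc F z) ≠ 0) (hzt : (A.B i).zt F z ≠ 0) (hWz : GBox.W (A.B i) W ((A.B i).cc F z) ≠ 0)
    (hg : D.g i ((A.B i).cc F z) ≠ 0) (hQ : eval (F z).ofLp Q ≠ 0) :
    ContDiffAt ℝ 2 (fun w => EE A D mm m j W F i w + K / n * (Real.log ‖eval (F w).ofLp Q‖ - d * Real.log ‖F w‖)) z ∧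
    Δ (fun w => EE A D mm m j W F i w + K / n * (Real.log ‖eval (F w).ofLp Q‖ - d * Real.log ‖F w‖)) z =
      (2 * j / m - 2 * (K * d / n)) * lam F z ^ 2 - dv (gr fun w => mm i ((A.B i).cc F w)) z := by
  obtain ⟨hcc, hb, -⟩ := cc_lift (A.B i) hF.diff hF.mem hz
  have h1 := analyticAt_zt_of_v (A.B i) hF hz hv
  have h2 := analyticAt_W_cc (A.B i) hW hF hz
  have h3 : AnalyticAt ℂ (fun w => D.g i ((A.B i).cc F w)) z := (D.an i _ (ball_subset_closedBall hb)).comp hcc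
  have h4 := lap_log_σ (A.B i) hF hz
  have h5 := contDiffAt_mm_cc hm hF hz
  have h6 := analyticAt_eval_F hF.diff Q z
  have hFz := F_ne hF A z
  have h7 := lap_log_norm (hF.diff.analyticAt z) hFz
  have key := lap_lin (Pool.Agent.H30M.contDiffAt_log_norm h1 hzt) (Pool.Agent.H30M.contDiffAt_log_norm h2 hWz)
    (Pool.Agent.H30M.contDiffAt_log_norm h3 hg) h4.1 h5 (Pool.Agent.H30M.contDiffAt_log_norm h6 hQ) h7.1 (1 / m) (j / m) (K / n) d
  refine ⟨key.1, ?_⟩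
  have e5 : Δ (fun w => mm i ((A.B i).cc F w)) z = dv (gr fun w => mm i ((A.B i).cc F w)) z := (lp_eq_lap h5).symm
  refine key.2.trans ?_
  rw [Pool.Agent.H30M.lap_log_norm h1 hzt, Pool.Agent.H30M.lap_log_norm h2 hWz, Pool.Agent.H30M.lap_log_norm h3 hg, h4.2, e5,
    Pool.Agent.H30M.lap_log_norm h6 hQ, h7.2]
  ring

end Asm

open Asm

/-- **Module AsmC.** -/
theorem Eg_lap {A : Atlas P FF} {D : CData A} {mm : A.ι → ℂ × ℂ → ℝ} (hm : Gauge A D mm) {m j : ℕ} (hm1 : 1 ≤ m) {W : EN M → EN M → EN M → ℂ}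
    (hW : IsForm (coneE P) m j W) {F : ℂ → EN M} (hF : Crv P FF F) (hR : ∃ z, eval (F z).ofLp D.R ≠ 0)
    (hWF : ∃ z w, Pool.Agent.H17BP.Tan (coneE P) (F z) w ∧ W (F z) (deriv F z) w ≠ 0)
    {Q : MvPolynomial (Fin (M + 1)) ℂ} {d K n : ℕ} (_hQ : Q.IsHomogeneous d) (hQF : ∃ z, eval (F z).ofLp Q ≠ 0)
    {η : ℂ → ℂ} {err : ℂ → ℝ} (hη : ContDiff ℝ 1 η) (he : Continuous err)
    (h : ∀ i, ∀ z ∈ (A.B i).Om F, dv (gr fun w => mm i ((A.B i).cc F w)) z ≤ dv η z + err z) {z : ℂ}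
    (hz : ContDiffAt ℝ 2 (Eg A D mm m j W Q d K n hF) z) :
    (2 * j / m - 2 * (K * d / n)) * lam F z ^ 2 ≤ Δ (Eg A D mm m j W Q d K n hF) z + dv η z + err z := by
  set i := idx A hF z with hi
  have hzi : z ∈ (A.B i).Om F := idx_Om A hF z
  have hgen := ne_near hm1 hW hF hR hWF hzi
  -- `Q (F)` is not zero near `z`
  have hQne : ∀ᶠ w in 𝓝[≠] z, eval (F w).ofLp Q ≠ 0 := by
    obtain ⟨z₁, hz₁⟩ := hQF
    rcases (analyticAt_eval_F hF.diff Q z).eventually_eq_zero_or_eventually_ne_zero with h | h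
    · exfalso
      have han : AnalyticOnNhd ℂ (fun w => eval (F w).ofLp Q) Set.univ := fun w _ => analyticAt_eval_F hF.diff Q w
      have := han.eqOn_zero_of_preconnected_of_eventuallyEq_zero isPreconnected_univ (Set.mem_univ z) h (Set.mem_univ z₁)
      exact hz₁ this
    · exact h
  have hEg : ∀ᶠ w in 𝓝[≠] z, Eg A D mm m j W Q d K n hF w = EB A D mm m j W Q d K n F i w := by
    filter_upwards [hgen] with w hw
    unfold Eg EB
    rw [EE_eq hm hm1 hW hF hw.1 (idx_Om A hF w) hw.2.1 hw.2.2.1 hw.2.2.2.2.1 hw.2.2.2.2.2]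
  have hEg' : ∀ᶠ w in 𝓝[≠] z, Eg A D mm m j W Q d K n hF =ᶠ[𝓝 w] EB A D mm m j W Q d K n F i := by
    filter_upwards [eventually_eventually_nhdsWithin.2 hEg, self_mem_nhdsWithin] with w hw hwz
    rwa [isOpen_compl_singleton.nhdsWithin_eq hwz] at hw
  have hineq : ∀ᶠ w in 𝓝[≠] z, (2 * j / m - 2 * (K * d / n)) * lam F w ^ 2 ≤ lp (Eg A D mm m j W Q d K n hF) w + dv η w + err w := by
    filter_upwards [hgen, hQne, hEg', (hz.eventually (by simp)).filter_mono nhdsWithin_le_nhds] with w hw hQw hEw hCw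
    obtain ⟨-, hlap⟩ := lap_EB hm hW hF (Q := Q) d K n hw.1 hw.2.1 hw.2.2.2.1 hw.2.2.2.2.1 hw.2.2.2.2.2 hQw
    rw [lp_eq_lap hCw, Pool.Agent.H30M.lap_congr hEw]
    have h1 := h i w hw.1
    have h2 : Δ (EB A D mm m j W Q d K n F i) w = (2 * j / m - 2 * (K * d / n)) * lam F w ^ 2 - dv (gr fun w => mm i ((A.B i).cc F w)) w := hlap
    rw [h2]
    linarith
  have hlam : Continuous (lam F) := continuous_lam hF.diff (F_ne hF A)
  have c1 : Tendsto (fun w => (2 * j / m - 2 * (K * d / n)) * lam F w ^ 2) (𝓝[≠] z) (𝓝 ((2 * j / m - 2 * (K * d / n)) * lam F z ^ 2)) :=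
    ((continuous_const.mul (hlam.pow 2)).tendsto z).mono_left nhdsWithin_le_nhds
  have c2 : Tendsto (fun w => lp (Eg A D mm m j W Q d K n hF) w + dv η w + err w) (𝓝[≠] z)
      (𝓝 (lp (Eg A D mm m j W Q d K n hF) z + dv η z + err z)) :=
    (((continuousAt_lp hz).add (continuousAt_dv hη.contDiffAt)).add he.continuousAt).tendsto.mono_left nhdsWithin_le_nhds
  have := le_of_tendsto_of_tendsto c1 c2 hineq
  rwa [lp_eq_lap hz] at this

end Pool.Agent.MQ
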