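import Pool.Agent.MQ.GeoDefs

/-!
# MQ Coord: the coordinates of a box along a curve
-/

set_option autoImplicit false

open Topology Filter Metric MvPolynomial

noncomputable section

namespace Pool.Agent.MQ

open Pool.Agent.H36.BP (EN fs)
open Pool.Agent.H17EF (projVar coneE)

variable {M : ℕ} {P : Ideal (MvPolynomial (Fin (M + 1)) ℂ)} {FF : Set (EN M × EN M)}

theorem coneE_ne_zero {x : EN M} (hx : x ∈ coneE P) : x ≠ 0 := by
  intro h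
  refine hx.1 ?_
  rw [h, map_zero]

/-- MODULE Coord, `Crd1`. -/
theorem crd_smul (B : GBox P FF) {p : ℂ × ℂ} (hp : p ∈ ball (0 : ℂ × ℂ) B.r) {c : ℂ} (hc : c ≠ 0) : B.crd (c • B.σ p) = p := by
  have h : ∃ q ∈ ball (0 : ℂ × ℂ) B.r, ∃ d : ℂ, d ≠ 0 ∧ c • B.σ p = d • B.σ q := ⟨p, hp, c, hc, rfl⟩
  have h1 : B.crd (c • B.σ p) = h.choose := dif_pos h
  obtain ⟨h2, d, hd, h3⟩ := h.choose_spec
  rw [h1]
  refine (B.inj p (ball_subset_closedBall hp) _ (ball_subset_closedBall h2) (c⁻¹ * d) ?_).symm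
  rw [← smul_smul, ← h3, smul_smul, inv_mul_cancel₀ hc, one_smul]

/-- the coordinate map and the factor near a point of the box, as analytic functions -/
theorem crd_near (B : GBox P FF) {x : EN M} (hx : x ∈ B.U B.r) :
    ∃ (T : EN M → ℂ × ℂ) (c : EN M → ℂ), AnalyticAt ℂ T x ∧ AnalyticAt ℂ c x ∧ T x = B.crd x ∧ c x ≠ 0 ∧
      ∀ᶠ y in 𝓝 x, y ∈ coneE P → T y ∈ ball (0 : ℂ × ℂ) B.r ∧ c y ≠ 0 ∧ y = c y • B.σ (T y) := by
  obtain ⟨p, hp, a, ha, rfl⟩ := hx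
  obtain ⟨T, c, hT, hc, hTp, hcp, h⟩ := B.opn p hp
  have hm : AnalyticAt ℂ (fun y : EN M => a⁻¹ • y) (a • B.σ p) := analyticAt_const.fun_smul analyticAt_id
  have hv : a⁻¹ • (a • B.σ p) = B.σ p := by rw [smul_smul, inv_mul_cancel₀ ha, one_smul]
  have hT1 : AnalyticAt ℂ (fun y : EN M => T (a⁻¹ • y)) (a • B.σ p) := by
    refine AnalyticAt.fun_comp (g := T) ?_ hm
    rw [hv]; exact hT
  have hc1 : AnalyticAt ℂ (fun y : EN M => c (a⁻¹ • y)) (a • B.σ p) := by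
    refine AnalyticAt.fun_comp (g := c) ?_ hm
    rw [hv]; exact hc
  refine ⟨fun y => T (a⁻¹ • y), fun y => a * c (a⁻¹ • y), hT1, analyticAt_const.mul hc1, ?_, ?_, ?_⟩
  · show T (a⁻¹ • (a • B.σ p)) = _
    rw [hv, hTp, crd_smul B hp ha]
  · show a * c (a⁻¹ • (a • B.σ p)) ≠ 0
    rw [hv, hcp, mul_one]
    exact ha
  · have e1 : ∀ᶠ y in 𝓝 (a • B.σ p), T (a⁻¹ • y) ∈ ball (0 : ℂ × ℂ) B.r := by
      refine hT1.continuousAt.eventually_mem (isOpen_ball.mem_nhds ?_)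
      show T (a⁻¹ • (a • B.σ p)) ∈ _
      rw [hv, hTp]
      exact hp
    have e2 : ∀ᶠ y in 𝓝 (a • B.σ p), c (a⁻¹ • y) ≠ 0 := by
      refine hc1.continuousAt.eventually_ne ?_
      show c (a⁻¹ • (a • B.σ p)) ≠ 0
      rw [hv, hcp]
      exact one_ne_zero
    have e3 : ∀ᶠ y in 𝓝 (a • B.σ p), a⁻¹ • y ∈ coneE P → a⁻¹ • y = c (a⁻¹ • y) • B.σ (T (a⁻¹ • y)) := by
      have h5 : Tendsto (fun y : EN M => a⁻¹ • y) (𝓝 (a • B.σ p)) (𝓝 (B.σ p)) := by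
        have := hm.continuousAt.tendsto
        rwa [hv] at this
      exact h5.eventually h
    filter_upwards [e1, e2, e3] with y h1 h2 h3 hy
    refine ⟨h1, mul_ne_zero ha h2, ?_⟩
    have h4 := h3 (B.cone y hy a⁻¹ (inv_ne_zero ha))
    rw [← smul_smul, ← h4, smul_smul, mul_inv_cancel₀ ha, one_smul]

/-- MODULE Coord, `Crd2`. -/
theorem isOpen_Om (B : GBox P FF) {F : ℂ → EN M} (hF : Differentiable ℂ F) (hm : ∀ z, F z ∈ coneE P) : IsOpen (B.Om F) := by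
  rw [isOpen_iff_mem_nhds]
  intro z hz
  obtain ⟨T, c, hT, hc, hTx, hcx, h⟩ := crd_near B hz
  filter_upwards [hF.continuous.continuousAt.eventually h] with w hw
  obtain ⟨h1, h2, h3⟩ := hw (hm w)
  exact ⟨_, h1, _, h2, h3⟩

/-- MODULE Coord, `Crd3`. -/
theorem cc_lift (B : GBox P FF) {F : ℂ → EN M} (hF : Differentiable ℂ F) (hm : ∀ z, F z ∈ coneE P) {z₀ : ℂ} (hz : z₀ ∈ B.Om F) :
    AnalyticAt ℂ (B.cc F) z₀ ∧ B.cc F z₀ ∈ ball (0 : ℂ × ℂ) B.r ∧ ∃ c : ℂ → ℂ, AnalyticAt ℂ c z₀ ∧ c z₀ ≠ 0 ∧ ∀ᶠ z in 𝓝 z₀, F z = c z • B.σ (B.cc F z) := by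
  obtain ⟨T, c, hT, hc, hTx, hcx, h⟩ := crd_near B hz
  have hFz : AnalyticAt ℂ F z₀ := hF.analyticAt z₀
  have hcc : ∀ w, (F w ∈ coneE P → T (F w) ∈ ball (0 : ℂ × ℂ) B.r ∧ c (F w) ≠ 0 ∧ F w = c (F w) • B.σ (T (F w))) → B.cc F w = T (F w) := by
    intro w hw
    obtain ⟨h1, h2, h3⟩ := hw (hm w)
    show B.crd (F w) = _
    conv_lhs => rw [h3]
    exact crd_smul B h1 h2
  have he : ∀ᶠ w in 𝓝 z₀, B.cc F w = T (F w) := (hF.continuous.continuousAt.eventually h).mono hcc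
  have hTF : AnalyticAt ℂ (fun w => T (F w)) z₀ := hT.fun_comp hFz
  refine ⟨hTF.congr (he.mono fun w hw => hw.symm), ?_, fun w => c (F w), hc.fun_comp hFz, hcx, ?_⟩
  · rw [he.self_of_nhds]
    exact ((hF.continuous.continuousAt.eventually h).self_of_nhds (hm z₀)).1
  · filter_upwards [hF.continuous.continuousAt.eventually h, he] with w hw hw2
    rw [hw2]
    exact (hw (hm w)).2.2

/-- MODULE Coord, `Crd5`. -/
theorem isClosed_cc (B : GBox P FF) {F : ℂ → EN M} (hF : Differentiable ℂ F) (hm : ∀ z, F z ∈ coneE P) {s : ℝ} (hs : s < B.r) :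
    IsClosed {z | z ∈ B.Om F ∧ B.cc F z ∈ closedBall (0 : ℂ × ℂ) s} := by
  refine IsSeqClosed.isClosed fun u z hu hz => ?_
  obtain ⟨p, hp, φ, hφ, hlim⟩ := (isCompact_closedBall (0 : ℂ × ℂ) s).tendsto_subseq fun n => (hu n).2
  have hpr : p ∈ ball (0 : ℂ × ℂ) B.r := closedBall_subset_ball hs hp
  have hσ : ContinuousAt B.σ p := (B.σ_an p (ball_subset_closedBall hpr)).continuousAt
  have hFz : Tendsto (fun n => F (u (φ n))) atTop (𝓝 (F z)) := (hF.continuous.tendsto z).comp (hz.comp hφ.tendsto_atTop)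
  have hσz : Tendsto (fun n => B.σ (B.cc F (u (φ n)))) atTop (𝓝 (B.σ p)) := hσ.tendsto.comp hlim
  have h1 : ∀ n, ((inner ℂ (B.σ (B.cc F (u (φ n)))) (B.σ (B.cc F (u (φ n)))) : ℂ)) • F (u (φ n)) =
      ((inner ℂ (B.σ (B.cc F (u (φ n)))) (F (u (φ n))) : ℂ)) • B.σ (B.cc F (u (φ n))) := by
    intro n
    obtain ⟨h2, h3, c, h4, h5, h6⟩ := cc_lift B hF hm (hu (φ n)).1
    have h7 := h6.self_of_nhds
    set y := B.σ (B.cc F (u (φ n)))
    rw [h7, inner_smul_right, smul_smul, mul_comm]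
  have h2 : (inner ℂ (B.σ p) (B.σ p) : ℂ) • F z = (inner ℂ (B.σ p) (F z) : ℂ) • B.σ p := by
    refine tendsto_nhds_unique ((hσz.inner hσz).smul hFz) ?_
    refine Tendsto.congr (fun n => (h1 n).symm) ((hσz.inner hFz).smul hσz)
  have h3 : B.σ p ≠ 0 := coneE_ne_zero (B.mem p (ball_subset_closedBall hpr))
  have h4 : (inner ℂ (B.σ p) (B.σ p) : ℂ) ≠ 0 := inner_self_ne_zero.2 h3
  have h5 : F z = ((inner ℂ (B.σ p) (B.σ p) : ℂ)⁻¹ * inner ℂ (B.σ p) (F z)) • B.σ p := by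
    rw [← smul_smul, ← h2, smul_smul, inv_mul_cancel₀ h4, one_smul]
  have h6 : ((inner ℂ (B.σ p) (B.σ p) : ℂ)⁻¹ * inner ℂ (B.σ p) (F z)) ≠ 0 := by
    intro h7
    rw [h7, zero_smul] at h5
    exact coneE_ne_zero (hm z) h5
  refine ⟨⟨p, hpr, _, h6, h5⟩, ?_⟩
  have h8 : B.cc F z = p := by
    show B.crd (F z) = p
    rw [h5]
    exact crd_smul B hpr h6
  rw [h8]
  exact hp

end Pool.Agent.MQ
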