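import Pool.Agent.MQ.EE1
import Pool.Agent.MQ.Coord

/-!
# MQ EE2: along a curve of the foliation the zeros of the speed, of the section and of the equation of the invariant curve are isolated

The identity theorem.  `W_formula`: `c ^ j W (F, F', u) = det (cc', u₀) ^ m W_B (cc)` for `u = c σ' u₀ + a F`.  So `W (F, F', ·)` vanishes near a point
iff the coefficient of `W` in a box does; the set of these points is open and closed.
-/

set_option autoImplicit false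

open Topology Filter Metric MvPolynomial Asymptotics

noncomputable section

namespace Pool.Agent.MQ

open Pool.Agent.H36.BP (EN fs)
open Pool.Agent.H17BP (IsChart IsForm Surface Tan)
open Pool.Agent.H17EF (projVar coneE)

variable {M : ℕ} {P : Ideal (MvPolynomial (Fin (M + 1)) ℂ)} {FF : Set (EN M × EN M)}

/-! ## tangent vectors of the cone -/

theorem tan_smul (B : GBox P FF) {x v : EN M} (hv : v ∈ Tan (coneE P) x) {c : ℂ} (hc : c ≠ 0) : c • v ∈ Tan (coneE P) (c • x) := by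
  obtain ⟨γ, h1, h2, h3, h4⟩ := hv
  refine ⟨fun z => c • γ z, (analyticAt_const (v := c)).fun_smul h1, ?_, ?_, ?_⟩
  · filter_upwards [h2] with z hz
    exact B.cone _ hz c hc
  · show c • γ 0 = c • x
    rw [h3]
  · have h5 : HasDerivAt (fun z => c • γ z) (c • deriv γ 0) 0 := h1.differentiableAt.hasDerivAt.const_smul c
    rw [h5.deriv, h4]

theorem tan_eq (B : GBox P FF) {p : ℂ × ℂ} (hp : p ∈ ball (0 : ℂ × ℂ) B.r) {c : ℂ} (hc : c ≠ 0) {u : EN M} (hu : u ∈ Tan (coneE P) (c • B.σ p)) :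
    ∃ (u₀ : ℂ × ℂ) (a : ℂ), u = c • fderiv ℂ B.σ p u₀ + a • c • B.σ p := by
  obtain ⟨δ, h1, h2, h3, h4⟩ := tan_smul B hu (inv_ne_zero hc)
  rw [smul_smul, inv_mul_cancel₀ hc, one_smul] at h3
  obtain ⟨T, e, hT, he, hTp, hep, hop⟩ := B.opn p hp
  have hop' : ∀ᶠ z in 𝓝 (0 : ℂ), δ z = e (δ z) • B.σ (T (δ z)) := by
    have h5 : ∀ᶠ z in 𝓝 (0 : ℂ), δ z ∈ coneE P → δ z = e (δ z) • B.σ (T (δ z)) := by
      have h6 : Tendsto δ (𝓝 0) (𝓝 (δ 0)) := h1.continuousAt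
      rw [h3] at h6
      exact h6.eventually hop
    filter_upwards [h5, h2] with z hz hz'
    exact hz hz'
  rw [← h3] at hT he
  have hTd : HasDerivAt (fun z => T (δ z)) (deriv (fun z => T (δ z)) 0) 0 := (hT.comp h1).differentiableAt.hasDerivAt
  have hed : HasDerivAt (fun z => e (δ z)) (deriv (fun z => e (δ z)) 0) 0 := (he.comp h1).differentiableAt.hasDerivAt
  have hT0 : T (δ 0) = p := by rw [h3, hTp]
  have he0 : e (δ 0) = 1 := by rw [h3, hep]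
  have hσ : HasFDerivAt B.σ (fderiv ℂ B.σ p) (T (δ 0)) := by
    rw [hT0]
    exact (B.σ_an p (ball_subset_closedBall hp)).differentiableAt.hasFDerivAt
  have h7 : HasDerivAt (fun z => B.σ (T (δ z))) (fderiv ℂ B.σ p (deriv (fun z => T (δ z)) 0)) 0 := hσ.comp_hasDerivAt 0 hTd
  have h8 := hed.smul h7
  have h9 : deriv δ 0 = e (δ 0) • fderiv ℂ B.σ p (deriv (fun z => T (δ z)) 0) + deriv (fun z => e (δ z)) 0 • B.σ (T (δ 0)) := by
    refine Eq.trans (Filter.EventuallyEq.deriv_eq hop') ?_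
    exact h8.deriv
  rw [he0, one_smul, hT0, h4] at h9
  refine ⟨deriv (fun z => T (δ z)) 0, deriv (fun z => e (δ z)) 0, ?_⟩
  have h10 : u = c • c⁻¹ • u := by rw [smul_smul, mul_inv_cancel₀ hc, one_smul]
  rw [h10, h9, smul_add, smul_comm c (deriv (fun z => e (δ z)) 0)]

/-- `c ^ j W (F, F', u) = det (cc', u₀) ^ m W_B (cc)` -/
theorem W_formula (B : GBox P FF) {m j : ℕ} {W : EN M → EN M → EN M → ℂ} (hW : IsForm (coneE P) m j W) {F : ℂ → EN M} (hF : Crv P FF F)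
    {z : ℂ} (hz : z ∈ B.Om F) : ∃ c : ℂ, c ≠ 0 ∧ F z = c • B.σ (B.cc F z) ∧
      (∀ u₀ : ℂ × ℂ, c • fderiv ℂ B.σ (B.cc F z) u₀ ∈ Tan (coneE P) (F z)) ∧
      ∀ (u₀ : ℂ × ℂ) (a : ℂ), c ^ j * W (F z) (deriv F z) (c • fderiv ℂ B.σ (B.cc F z) u₀ + a • c • B.σ (B.cc F z)) =
        ((deriv (B.cc F) z).1 * u₀.2 - (deriv (B.cc F) z).2 * u₀.1) ^ m * GBox.W B W (B.cc F z) := by
  obtain ⟨hcc, hp, c, hc, hc0, hcF⟩ := cc_lift B hF.diff hF.mem hz
  have hFz : F z = c z • B.σ (B.cc F z) := hcF.self_of_nhds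
  have hx : B.σ (B.cc F z) ∈ coneE P := B.mem _ (ball_subset_closedBall hp)
  have hσ : HasFDerivAt B.σ (fderiv ℂ B.σ (B.cc F z)) (B.cc F z) := (B.σ_an _ (ball_subset_closedBall hp)).differentiableAt.hasFDerivAt
  have h7 : HasDerivAt (fun w => B.σ (B.cc F w)) (fderiv ℂ B.σ (B.cc F z) (deriv (B.cc F) z)) z :=
    hσ.comp_hasDerivAt z hcc.differentiableAt.hasDerivAt
  have h8 := hc.differentiableAt.hasDerivAt.smul h7
  have h9 : deriv F z = c z • fderiv ℂ B.σ (B.cc F z) (deriv (B.cc F) z) + (deriv c z / c z) • c z • B.σ (B.cc F z) := by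
    rw [smul_smul, div_mul_cancel₀ _ hc0]
    exact (Filter.EventuallyEq.deriv_eq hcF).trans h8.deriv
  refine ⟨c z, hc0, hFz, fun u₀ => ?_, fun u₀ a => ?_⟩
  · rw [hFz]
    exact tan_smul B (tan_box B hp u₀) hc0
  · have t1 := tan_box B hp (deriv (B.cc F) z)
    have t2 := tan_box B hp u₀
    rw [hFz, h9, hW.add_smul _ (B.cone _ hx (c z) hc0) _ (tan_smul B t1 hc0) _ (tan_smul B t2 hc0) (deriv c z / c z) a,
      hW.scale _ hx _ t1 _ t2 (c z) hc0, vec_pair (fderiv ℂ B.σ (B.cc F z)) (deriv (B.cc F) z), vec_pair (fderiv ℂ B.σ (B.cc F z)) u₀,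
      hW.det _ hx _ (tan_box B hp _) _ (tan_box B hp _)]
    rfl

/-- `W (F, F', u) = 0` for all tangent vectors `u` of the cone if the coefficient of `W` in the box is `0` -/
theorem W_curve (B : GBox P FF) {m j : ℕ} {W : EN M → EN M → EN M → ℂ} (hW : IsForm (coneE P) m j W) {F : ℂ → EN M} (hF : Crv P FF F)
    {z : ℂ} (hz : z ∈ B.Om F) (h0 : GBox.W B W (B.cc F z) = 0) : ∀ u ∈ Tan (coneE P) (F z), W (F z) (deriv F z) u = 0 := by
  intro u hu
  obtain ⟨-, hp, -⟩ := cc_lift B hF.diff hF.mem hz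
  obtain ⟨c, hc0, hFz, -, hf⟩ := W_formula B hW hF hz
  obtain ⟨u₀, a, hu'⟩ := tan_eq B hp hc0 (by rw [← hFz]; exact hu)
  have e2 := hf u₀ a
  rw [h0, mul_zero, ← hu'] at e2
  exact (mul_eq_zero.1 e2).resolve_left (pow_ne_zero j hc0)

/-- the converse, where the speed is not `0` -/
theorem W_curve' (B : GBox P FF) {m j : ℕ} {W : EN M → EN M → EN M → ℂ} (hW : IsForm (coneE P) m j W) {F : ℂ → EN M} (hF : Crv P FF F)
    {z : ℂ} (hz : z ∈ B.Om F) (hs : deriv (B.cc F) z ≠ 0) (h0 : ∀ u ∈ Tan (coneE P) (F z), W (F z) (deriv F z) u = 0) :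
    GBox.W B W (B.cc F z) = 0 := by
  obtain ⟨c, hc0, hFz, ht, hf⟩ := W_formula B hW hF hz
  have key : ∀ u₀ : ℂ × ℂ, ((deriv (B.cc F) z).1 * u₀.2 - (deriv (B.cc F) z).2 * u₀.1) ^ m * GBox.W B W (B.cc F z) = 0 := by
    intro u₀
    rw [← hf u₀ 0, zero_smul, add_zero, h0 _ (ht u₀), mul_zero]
  by_cases h1 : (deriv (B.cc F) z).1 = 0
  · have h2 : (deriv (B.cc F) z).2 ≠ 0 := fun h2 => hs (Prod.ext h1 h2)
    have h3 := key (1, 0)
    refine (mul_eq_zero.1 h3).resolve_left (pow_ne_zero m ?_)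
    show (deriv (B.cc F) z).1 * 0 - (deriv (B.cc F) z).2 * 1 ≠ 0
    rw [mul_zero, mul_one, zero_sub]
    exact neg_ne_zero.2 h2
  · have h3 := key (0, 1)
    refine (mul_eq_zero.1 h3).resolve_left (pow_ne_zero m ?_)
    show (deriv (B.cc F) z).1 * 1 - (deriv (B.cc F) z).2 * 0 ≠ 0
    rw [mul_zero, mul_one, sub_zero]
    exact h1

/-! ## analytic functions along the curve -/

theorem W_an (B : GBox P FF) {m j : ℕ} {W : EN M → EN M → EN M → ℂ} (hW : IsForm (coneE P) m j W) {p : ℂ × ℂ} (hp : p ∈ ball (0 : ℂ × ℂ) B.r) :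
    AnalyticAt ℂ (GBox.W B W) p := by
  refine hW.analytic B.σ p (B.σ_an p (ball_subset_closedBall hp)) ?_
  filter_upwards [isOpen_ball.mem_nhds hp] with q hq
  exact B.mem q (ball_subset_closedBall hq)

/-- the curve is not constant in the box -/
theorem cc_not_const (B : GBox P FF) {F : ℂ → EN M} (hF : Crv P FF F) {z : ℂ} (hz : z ∈ B.Om F) (p₀ : ℂ × ℂ) :
    ¬ ∀ᶠ w in 𝓝 z, B.cc F w = p₀ := by
  intro h
  obtain ⟨-, -, c, hc, hc0, hcF⟩ := cc_lift B hF.diff hF.mem hz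
  have hne : ∀ w, F w ≠ 0 := by
    intro w hw
    have h1 := (hF.mem w).1
    exact h1 (by rw [hw]; exact map_zero _)
  obtain ⟨k, hk⟩ : ∃ k, (B.σ p₀).ofLp k ≠ 0 := by
    by_contra hcon
    push Not at hcon
    apply hne z
    rw [hcF.self_of_nhds, h.self_of_nhds]
    have : B.σ p₀ = 0 := by ext k; exact hcon k
    rw [this, smul_zero]
  have h1 : AnalyticOnNhd ℂ (fun w => (B.σ p₀).ofLp k • F w - (F w).ofLp k • B.σ p₀) Set.univ := by
    intro w _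
    have h6 : AnalyticAt ℂ (fun w => (F w).ofLp k) w := ((EuclideanSpace.proj (𝕜 := ℂ) k).analyticAt _).comp (hF.diff.analyticAt w)
    exact ((analyticAt_const (v := (B.σ p₀).ofLp k)).fun_smul (hF.diff.analyticAt w)).fun_sub (h6.fun_smul (analyticAt_const (v := B.σ p₀)))
  have h2 : (fun w => (B.σ p₀).ofLp k • F w - (F w).ofLp k • B.σ p₀) =ᶠ[𝓝 z] 0 := by
    filter_upwards [hcF, h] with w hw hw'
    rw [hw'] at hw
    show (B.σ p₀).ofLp k • F w - (F w).ofLp k • B.σ p₀ = 0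
    rw [hw]
    show (B.σ p₀).ofLp k • c w • B.σ p₀ - (c w * (B.σ p₀).ofLp k) • B.σ p₀ = 0
    rw [smul_smul, mul_comm, sub_self]
  have h3 := h1.eqOn_zero_of_preconnected_of_eventuallyEq_zero isPreconnected_univ (Set.mem_univ z) h2
  have h4 : ∀ w, F w = ((F w).ofLp k / (B.σ p₀).ofLp k) • B.σ p₀ := by
    intro w
    have h5 := h3 (Set.mem_univ w)
    have h6 : (B.σ p₀).ofLp k • F w = (F w).ofLp k • B.σ p₀ := sub_eq_zero.1 h5
    rw [div_eq_inv_mul, mul_smul, ← h6, smul_smul, inv_mul_cancel₀ hk, one_smul]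
  obtain ⟨z₁, w₁, hzw⟩ := hF.nc
  have h5 : (F w₁).ofLp k ≠ 0 := by
    intro h6
    apply hne w₁
    rw [h4 w₁, h6, zero_div, zero_smul]
  apply hzw ((F z₁).ofLp k / (F w₁).ofLp k)
  have h6 : ((F z₁).ofLp k / (F w₁).ofLp k) • F w₁ = ((F z₁).ofLp k / (F w₁).ofLp k) • ((F w₁).ofLp k / (B.σ p₀).ofLp k) • B.σ p₀ :=
    congrArg (fun x => ((F z₁).ofLp k / (F w₁).ofLp k) • x) (h4 w₁)
  rw [h6, smul_smul, div_mul_div_cancel₀ h5]
  exact h4 z₁

theorem cc_ne_near (B : GBox P FF) {F : ℂ → EN M} (hF : Crv P FF F) {z : ℂ} (hz : z ∈ B.Om F) (p₀ : ℂ × ℂ) : ∀ᶠ w in 𝓝[≠] z, B.cc F w ≠ p₀ := by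
  obtain ⟨hcc, -, -⟩ := cc_lift B hF.diff hF.mem hz
  have h0 : AnalyticAt ℂ (fun w => B.cc F w - p₀) z := hcc.sub analyticAt_const
  rcases h0.eventually_eq_zero_or_eventually_ne_zero with h | h
  · exact (cc_not_const B hF hz p₀ (h.mono fun w hw => sub_eq_zero.1 hw)).elim
  · exact h.mono fun w hw => sub_ne_zero.1 hw

theorem deriv_cc_ne_near (B : GBox P FF) {F : ℂ → EN M} (hF : Crv P FF F) {z : ℂ} (hz : z ∈ B.Om F) : ∀ᶠ w in 𝓝[≠] z, deriv (B.cc F) w ≠ 0 := by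
  obtain ⟨hcc, -, -⟩ := cc_lift B hF.diff hF.mem hz
  rcases hcc.deriv.eventually_eq_zero_or_eventually_ne_zero with h | h
  · exfalso
    obtain ⟨ε, hε, hb⟩ := Metric.eventually_nhds_iff_ball.1 (h.and hcc.eventually_analyticAt)
    have hd : DifferentiableOn ℂ (B.cc F) (ball z ε) := fun w hw => (hb w hw).2.differentiableAt.differentiableWithinAt
    obtain ⟨a, ha⟩ := isOpen_ball.exists_is_const_of_deriv_eq_zero (convex_ball z ε).isPreconnected hd fun w hw => (hb w hw).1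
    exact cc_not_const B hF hz a (Metric.eventually_nhds_iff_ball.2 ⟨ε, hε, ha⟩)
  · exact h

/-- `v ≠ 0` and `ζ' ≠ 0` near every point -/
theorem v_ne_near (B : GBox P FF) {F : ℂ → EN M} (hF : Crv P FF F) {z : ℂ} (hz : z ∈ B.Om F) :
    ∀ᶠ w in 𝓝[≠] z, w ∈ B.Om F ∧ B.v (B.cc F w) ≠ 0 ∧ deriv (B.cc F) w ≠ 0 ∧ B.zt F w ≠ 0 := by
  have h1 : ∀ᶠ w in 𝓝[≠] z, w ∈ B.Om F := ((isOpen_Om B hF.diff hF.mem).eventually_mem hz).filter_mono nhdsWithin_le_nhds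
  filter_upwards [h1, cc_ne_near B hF hz 0, deriv_cc_ne_near B hF hz] with w hw hw0 hw1
  obtain ⟨-, hp, -⟩ := cc_lift B hF.diff hF.mem hw
  have hv : B.v (B.cc F w) ≠ 0 := fun h => hw0 (B.zero _ (ball_subset_closedBall hp) h)
  refine ⟨hw, hv, hw1, fun h => hw1 ?_⟩
  rw [(deriv_cc B hF hw).2 hv, h, zero_smul]

/-! ## the section -/

theorem Atlas.exists_Om (A : Atlas P FF) {F : ℂ → EN M} (hF : Crv P FF F) (z : ℂ) : ∃ i, z ∈ (A.B i).Om F := by
  obtain ⟨i, p, hp, c, hc, h⟩ := A.cover _ (hF.mem z)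
  exact ⟨i, p, ball_subset_ball (by have := (A.B i).pos; linarith) hp, c, hc, h⟩

theorem W_ne_near {A : Atlas P FF} {m j : ℕ} {W : EN M → EN M → EN M → ℂ}
    (hW : IsForm (coneE P) m j W) {F : ℂ → EN M} (hF : Crv P FF F)
    (hWF : ∃ z w, Pool.Agent.H17BP.Tan (coneE P) (F z) w ∧ W (F z) (deriv F z) w ≠ 0) {i : A.ι} {z : ℂ} (hz : z ∈ (A.B i).Om F) :
    ∀ᶠ w in 𝓝[≠] z, GBox.W (A.B i) W ((A.B i).cc F w) ≠ 0 := by
  have han : ∀ {i : A.ι} {z : ℂ}, z ∈ (A.B i).Om F → AnalyticAt ℂ (fun w => GBox.W (A.B i) W ((A.B i).cc F w)) z := by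
    intro i z hz
    obtain ⟨hcc, hp, -⟩ := cc_lift (A.B i) hF.diff hF.mem hz
    exact (W_an (A.B i) hW hp).comp hcc
  rcases (han hz).eventually_eq_zero_or_eventually_ne_zero with h | h
  swap
  · exact h
  exfalso
  set Z : Set ℂ := {z | ∀ᶠ w in 𝓝 z, ∀ u ∈ Tan (coneE P) (F w), W (F w) (deriv F w) u = 0} with hZ
  have hopen : IsOpen Z := by
    rw [isOpen_iff_eventually]
    intro w hw
    exact hw.eventually_nhds
  have hOm : ∀ {i : A.ι} {z : ℂ}, z ∈ (A.B i).Om F → ∀ᶠ w in 𝓝 z, w ∈ (A.B i).Om F := fun {i z} hz =>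
    (isOpen_Om (A.B i) hF.diff hF.mem).eventually_mem hz
  have hmem : ∀ {i : A.ι} {z : ℂ}, z ∈ (A.B i).Om F → (∀ᶠ w in 𝓝 z, GBox.W (A.B i) W ((A.B i).cc F w) = 0) → z ∈ Z := by
    intro i z hz h
    filter_upwards [h, hOm hz] with w hw hw'
    exact W_curve (A.B i) hW hF hw' hw
  have hclosed : IsClosed Z := by
    rw [← closure_subset_iff_isClosed]
    intro z₁ hz₁
    obtain ⟨i', hi'⟩ := A.exists_Om hF z₁
    refine hmem hi' ((han hi').frequently_zero_iff_eventually_zero.1 ?_)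
    -- `Z` is open and meets every neighbourhood of `z₁`
    have h1 : ∃ᶠ w in 𝓝 z₁, w ∈ Z := mem_closure_iff_frequently.1 hz₁
    have h2 : ∀ᶠ w in 𝓝[≠] z₁, w ∈ (A.B i').Om F ∧ deriv ((A.B i').cc F) w ≠ 0 := by
      filter_upwards [v_ne_near (A.B i') hF hi'] with w hw
      exact ⟨hw.1, hw.2.2.1⟩
    have h3 : ∃ᶠ w in 𝓝[≠] z₁, w ∈ Z := by
      rw [frequently_nhdsWithin_iff]
      intro hcon
      obtain ⟨V, hV, hVo, hzV⟩ := _root_.eventually_nhds_iff.1 hcon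
      obtain ⟨w, hwZ, hwV⟩ := (h1.and_eventually (hVo.eventually_mem hzV)).exists
      have h4 : ∀ᶠ w' in 𝓝[≠] w, w' ∈ Z ∧ w' ∈ V := ((hopen.eventually_mem hwZ).and (hVo.eventually_mem hwV)).filter_mono nhdsWithin_le_nhds
      have h5 : ∀ᶠ w' in 𝓝[≠] w, w' ≠ z₁ := by
        by_cases hw : w = z₁
        · rw [hw]
          exact self_mem_nhdsWithin
        · exact (eventually_ne_nhds hw).filter_mono nhdsWithin_le_nhds
      obtain ⟨w', hw', hw''⟩ := (h4.and h5).exists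
      exact hV w' hw'.2 ⟨hw'.1, hw''⟩
    refine (h3.and_eventually h2).mono ?_
    rintro w ⟨hw, hw1, hw2⟩
    exact W_curve' (A.B i') hW hF hw1 hw2 hw.self_of_nhds
  have huniv : Z = Set.univ := IsClopen.eq_univ ⟨hclosed, hopen⟩ ⟨z, hmem hz h⟩
  obtain ⟨z₂, w₂, ht, hne⟩ := hWF
  have h6 : z₂ ∈ Z := by
    rw [huniv]
    exact Set.mem_univ _
  exact hne (h6.self_of_nhds w₂ ht)

/-! ## the equation of the invariant curve -/

theorem g_ne_near {A : Atlas P FF} {D : CData A} {F : ℂ → EN M} (hF : Crv P FF F) (hR : ∃ z, eval (F z).ofLp D.R ≠ 0) {i : A.ι} {z : ℂ}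
    (hz : z ∈ (A.B i).Om F) : ∀ᶠ w in 𝓝[≠] z, D.g i ((A.B i).cc F w) ≠ 0 := by
  obtain ⟨hcc, hb, c, hc, hc0, hcF⟩ := cc_lift (A.B i) hF.diff hF.mem hz
  have hga : AnalyticAt ℂ (fun w => D.g i ((A.B i).cc F w)) z := (D.an i _ (ball_subset_closedBall hb)).comp hcc
  rcases hga.eventually_eq_zero_or_eventually_ne_zero with h | h
  swap
  · exact h
  exfalso
  have h2 : ∀ᶠ w in 𝓝 z, eval (F w).ofLp D.R = 0 := by
    filter_upwards [h, hcF, (isOpen_Om (A.B i) hF.diff hF.mem).eventually_mem hz] with w hw hFw hw2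
    have h3 := (cc_lift (A.B i) hF.diff hF.mem hw2).2.1
    have h4 : (F w).ofLp = fun k => c w * ((A.B i).σ ((A.B i).cc F w)).ofLp k := by
      conv_lhs => rw [hFw]
      rfl
    rw [h4, Pool.Agent.H17.eval_smul_of_isHomogeneous D.hom, D.van i _ h3 hw, mul_zero]
  obtain ⟨z₁, hz₁⟩ := hR
  have h5 : AnalyticOnNhd ℂ (fun w => eval (F w).ofLp D.R) Set.univ := by
    intro w _
    have h6 : ∀ k, AnalyticAt ℂ (fun w => (F w).ofLp k) w := fun k =>
      ((EuclideanSpace.proj (𝕜 := ℂ) k).analyticAt _).comp (hF.diff.analyticAt w)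
    exact AnalyticAt.aeval_mvPolynomial h6 D.R
  exact hz₁ (h5.eqOn_zero_of_preconnected_of_eventuallyEq_zero isPreconnected_univ (Set.mem_univ z) h2 (Set.mem_univ z₁))

/-- MODULE EE, `EE2`: identity theorem. -/
theorem ne_near {A : Atlas P FF} {D : CData A} {m j : ℕ} (_hm1 : 1 ≤ m) {W : EN M → EN M → EN M → ℂ}
    (hW : IsForm (coneE P) m j W) {F : ℂ → EN M} (hF : Crv P FF F) (hR : ∃ z, eval (F z).ofLp D.R ≠ 0)
    (hWF : ∃ z w, Pool.Agent.H17BP.Tan (coneE P) (F z) w ∧ W (F z) (deriv F z) w ≠ 0) {i : A.ι} {z : ℂ} (hz : z ∈ (A.B i).Om F) :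
    ∀ᶠ w in 𝓝[≠] z, w ∈ (A.B i).Om F ∧ (A.B i).v ((A.B i).cc F w) ≠ 0 ∧ deriv ((A.B i).cc F) w ≠ 0 ∧ (A.B i).zt F w ≠ 0 ∧
      GBox.W (A.B i) W ((A.B i).cc F w) ≠ 0 ∧ D.g i ((A.B i).cc F w) ≠ 0 := by
  filter_upwards [v_ne_near (A.B i) hF hz, W_ne_near hW hF hWF hz, g_ne_near hF hR hz] with w h1 h2 h3
  exact ⟨h1.1, h1.2.1, h1.2.2.1, h1.2.2.2, h2, h3⟩

end Pool.Agent.MQ
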