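import Pool.Agent.MQ.KF
import Pool.Agent.MQ.CoordB

/-!
# MQ/NodeT: the mean of `log |ζ'|` near a node

`loc_int`: integration of a pointwise bound.  `nt_dq`: the sine of the angle between `F` and the center of the box is at most `C |p|`.
`node_T2`: the second clause of `LocalT` at a node.
-/

set_option autoImplicit false

open Topology Filter Metric MvPolynomial MeasureTheory

noncomputable section

namespace Pool.Agent.MQ

open Pool.Agent.H36.BP (EN fs)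
open Pool.Agent.H17EF (coneE)
open Pool.Agent.H30M (tau rhoR avg continuous_rhoR hcs_rhoR rhoR_nonneg int_rhoR)

variable {M : ℕ} {P : Ideal (MvPolynomial (Fin (M + 1)) ℂ)} {FF : Set (EN M × EN M)}

/-! ## integration of a pointwise bound -/

theorem loc_int {S : Set ℂ} (hS : MeasurableSet S) {f w : ℂ → ℝ} {R : ℝ} (hw : Integrable fun z => rhoR R z * w z) (hw0 : ∀ z, 0 ≤ w z)
    (hle : ∀ᵐ z : ℂ, z ∈ S → f z ≤ w z) : ∫ z in S, rhoR R z * max 0 (f z) ≤ avg R w := by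
  have h1 : ∫ z in S, rhoR R z * max 0 (f z) ≤ ∫ z in S, rhoR R z * w z := by
    refine integral_mono_of_nonneg (Eventually.of_forall fun z => mul_nonneg (rhoR_nonneg R z) (le_max_left _ _)) hw.integrableOn ?_
    rw [EventuallyLE, ae_restrict_iff' hS]
    filter_upwards [hle] with z hz hzS
    exact mul_le_mul_of_nonneg_left (max_le (hw0 z) (hz hzS)) (rhoR_nonneg R z)
  exact h1.trans (setIntegral_le_integral hw (Eventually.of_forall fun z => mul_nonneg (rhoR_nonneg R z) (hw0 z)))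

/-! ## the angle -/

/-- the sine of the angle is at most the distance to any multiple of `q` -/
theorem nt_sin_le {q x : EN M} (hq : ‖q‖ = 1) (hx : x ≠ 0) (a : ℂ) : Real.sqrt (1 - ‖(inner ℂ q x : ℂ)‖ ^ 2 / ‖x‖ ^ 2) ≤ ‖x - a • q‖ / ‖x‖ := by
  have hxp : 0 < ‖x‖ := norm_pos_iff.2 hx
  refine Real.sqrt_le_iff.2 ⟨by positivity, ?_⟩
  have h1 := norm_sub_sq (𝕜 := ℂ) x (a • q)
  have h2 : RCLike.re (inner ℂ x (a • q) : ℂ) ≤ ‖a‖ * ‖(inner ℂ q x : ℂ)‖ := by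
    rw [inner_smul_right]
    calc RCLike.re (a * inner ℂ x q) ≤ ‖a * inner ℂ x q‖ := RCLike.re_le_norm _
      _ = _ := by rw [norm_mul, norm_inner_symm]
  have h3 : ‖a • q‖ = ‖a‖ := by rw [norm_smul, hq, mul_one]
  rw [h3] at h1
  rw [div_pow, le_div_iff₀ (by positivity), sub_mul, div_mul_cancel₀ _ (by positivity)]
  nlinarith [sq_nonneg (‖a‖ - ‖(inner ℂ q x : ℂ)‖)]

/-- the center of the box and the angle -/
theorem nt_dq (B : GBox P FF) : ∃ q : EN M, ‖q‖ = 1 ∧ (∃ t : ℂ, q = t • B.σ 0 ∧ t ≠ 0) ∧ ∃ C : ℝ, 0 < C ∧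
    ∀ F : ℂ → EN M, Differentiable ℂ F → (∀ z, F z ∈ coneE P) → ∀ z ∈ B.Om F, dq q F z ≤ C * ‖B.cc F z‖ := by
  have h0 : (0 : ℂ × ℂ) ∈ closedBall (0 : ℂ × ℂ) B.r := mem_closedBall_self B.pos.le
  have hσ0 : B.σ 0 ≠ 0 := cone_ne (B.mem 0 h0)
  have hn0 : ‖B.σ 0‖ ≠ 0 := norm_ne_zero_iff.2 hσ0
  set t : ℂ := ((‖B.σ 0‖⁻¹ : ℝ) : ℂ) with ht
  have ht0 : t ≠ 0 := by
    rw [ht, Complex.ofReal_ne_zero]
    exact inv_ne_zero hn0
  have hq1 : ‖t • B.σ 0‖ = 1 := by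
    rw [norm_smul, ht, Complex.norm_real, norm_inv, norm_norm, inv_mul_cancel₀ hn0]
  have hK : IsCompact (closedBall (0 : ℂ × ℂ) B.r) := isCompact_closedBall 0 B.r
  have hcσ : ContinuousOn B.σ (closedBall 0 B.r) := B.σ_an.continuousOn
  -- a lower bound for `‖σ‖`
  obtain ⟨p₀, hp₀, hmin⟩ := hK.exists_isMinOn ⟨0, h0⟩ hcσ.norm
  set m := ‖B.σ p₀‖ with hm
  have hmp : 0 < m := norm_pos_iff.2 (cone_ne (B.mem p₀ hp₀))
  -- a Lipschitz constant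
  have hfd : ContinuousOn (fun p => ‖fderiv ℂ B.σ p‖) (closedBall 0 B.r) := fun p hp => (B.σ_an p hp).fderiv.continuousAt.continuousWithinAt.norm
  obtain ⟨L, hL⟩ := hK.bddAbove_image hfd
  have hLb : ∀ p ∈ closedBall (0 : ℂ × ℂ) B.r, ‖fderiv ℂ B.σ p‖ ≤ L := fun p hp => hL ⟨p, hp, rfl⟩
  have hL0 : 0 ≤ L := (norm_nonneg _).trans (hLb 0 h0)
  have hlip : ∀ p ∈ closedBall (0 : ℂ × ℂ) B.r, ‖B.σ p - B.σ 0‖ ≤ L * ‖p‖ := by
    intro p hp
    have := (convex_closedBall (0 : ℂ × ℂ) B.r).norm_image_sub_le_of_norm_fderiv_le (𝕜 := ℂ) (f := B.σ) (fun x hx => (B.σ_an x hx).differentiableAt)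
      hLb h0 hp
    simpa using this
  refine ⟨t • B.σ 0, hq1, ⟨t, rfl, ht0⟩, (L + 1) / m, by positivity, fun F hF hm' z hz => ?_⟩
  obtain ⟨-, hb, c, hc, hc0, hev⟩ := cc_lift B hF hm' hz
  have hFz := hev.self_of_nhds
  set p := B.cc F z with hp
  have hpc : p ∈ closedBall (0 : ℂ × ℂ) B.r := ball_subset_closedBall hb
  have hσp : 0 < ‖B.σ p‖ := norm_pos_iff.2 (cone_ne (B.mem p hpc))
  have hFne : F z ≠ 0 := cone_ne (hm' z)
  have h1 := nt_sin_le hq1 hFne (c z * t⁻¹)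
  have h2 : (c z * t⁻¹) • t • B.σ 0 = c z • B.σ 0 := by
    rw [smul_smul, mul_assoc, inv_mul_cancel₀ ht0, mul_one]
  rw [h2] at h1
  have h3 : ‖F z - c z • B.σ 0‖ / ‖F z‖ = ‖B.σ p - B.σ 0‖ / ‖B.σ p‖ := by
    have hcn : ‖c z‖ ≠ 0 := norm_ne_zero_iff.2 hc0
    rw [hFz, ← smul_sub, norm_smul, norm_smul, mul_div_mul_left _ _ hcn]
  rw [h3] at h1
  have h4 : m ≤ ‖B.σ p‖ := hmin hpc
  calc dq (t • B.σ 0) F z ≤ ‖B.σ p - B.σ 0‖ / ‖B.σ p‖ := h1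
    _ ≤ (L * ‖p‖) / m := div_le_div₀ (by positivity) (hlip p hpc) hmp h4
    _ ≤ (L + 1) / m * ‖p‖ := by
        rw [div_mul_eq_mul_div]
        exact div_le_div_of_nonneg_right (mul_le_mul_of_nonneg_right (by linarith) (norm_nonneg p)) hmp.le

/-- if the angle is `0`, the curve is at the center of the box -/
theorem nt_dq_zero (B : GBox P FF) {q : EN M} (hq : ‖q‖ = 1) {t : ℂ} (ht : q = t • B.σ 0) {F : ℂ → EN M} (hF : Differentiable ℂ F)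
    (hm : ∀ z, F z ∈ coneE P) {z : ℂ} (hz : z ∈ B.Om F) (h : dq q F z = 0) : B.cc F z = 0 := by
  obtain ⟨-, hb, c, hc, hc0, hev⟩ := cc_lift B hF hm hz
  have hFz := hev.self_of_nhds
  have hFne : F z ≠ 0 := cone_ne (hm z)
  have hFp : 0 < ‖F z‖ := norm_pos_iff.2 hFne
  have h1 : kkD 0 q F z = 0 := by rw [← dq_sq hq, h]; ring
  have h2 : ‖(inner ℂ q (F z) : ℂ)‖ ^ 2 = ‖F z‖ ^ 2 := by
    unfold kkD at h1
    have h3 : ‖(inner ℂ q (F z) : ℂ)‖ ^ 2 / ‖F z‖ ^ 2 = 1 := by linarith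
    rwa [div_eq_one_iff_eq (by positivity)] at h3
  -- `F z = ⟨q, F z⟩ q`
  have h4 : F z - (inner ℂ q (F z) : ℂ) • q = 0 := by
    have h5 := norm_sub_sq (𝕜 := ℂ) (F z) ((inner ℂ q (F z) : ℂ) • q)
    have h6 : RCLike.re (inner ℂ (F z) ((inner ℂ q (F z) : ℂ) • q) : ℂ) = ‖(inner ℂ q (F z) : ℂ)‖ ^ 2 := by
      obtain ⟨h7, h8⟩ := kk_conj (F z) q
      rw [inner_smul_right, RCLike.re_to_complex, Complex.mul_re, h7, h8, Complex.sq_norm, Complex.normSq_apply]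
      ring
    rw [h6, norm_smul, hq, mul_one] at h5
    have h7 : ‖F z - (inner ℂ q (F z) : ℂ) • q‖ ^ 2 = 0 := by rw [h5]; linarith
    exact norm_eq_zero.1 (pow_eq_zero_iff two_ne_zero |>.1 h7)
  have h5 : F z = (inner ℂ q (F z) * t : ℂ) • B.σ 0 := by
    exact (sub_eq_zero.1 h4).trans (by rw [mul_smul, ← ht])
  have h6 : B.σ (B.cc F z) = ((c z)⁻¹ * (inner ℂ q (F z) * t) : ℂ) • B.σ 0 := by
    rw [mul_smul, ← h5]
    conv_rhs => rw [hFz]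
    rw [smul_smul, inv_mul_cancel₀ hc0, one_smul]
  exact B.inj _ (ball_subset_closedBall hb) 0 (mem_closedBall_self B.pos.le) _ h6

/-! ## the bound of `ζ'` at a node -/

/-- a positive lower bound of a function without zeros on the closed polydisc -/
theorem nt_lower {a : ℂ × ℂ → ℂ} {r : ℝ} (hr : 0 < r) (ha : AnalyticOnNhd ℂ a (closedBall 0 r)) (ha0 : ∀ p ∈ closedBall (0 : ℂ × ℂ) r, a p ≠ 0) :
    ∃ c : ℝ, 0 < c ∧ ∀ p ∈ closedBall (0 : ℂ × ℂ) r, c ≤ ‖a p‖ := by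
  obtain ⟨p₀, hp₀, hmin⟩ := (isCompact_closedBall (0 : ℂ × ℂ) r).exists_isMinOn ⟨0, mem_closedBall_self hr.le⟩ ha.continuousOn.norm
  exact ⟨‖a p₀‖, norm_pos_iff.2 (ha0 p₀ hp₀), fun p hp => hmin hp⟩

/-- `‖ζ'‖ ‖p‖ ≤ C λ` at a node -/
theorem nt_zt (B : GBox P FF) {a b : ℂ × ℂ → ℂ} (ha : AnalyticOnNhd ℂ a (closedBall 0 B.r)) (hb : AnalyticOnNhd ℂ b (closedBall 0 B.r))
    (ha0 : ∀ p ∈ closedBall (0 : ℂ × ℂ) B.r, a p ≠ 0) (hb0 : ∀ p ∈ closedBall (0 : ℂ × ℂ) B.r, b p ≠ 0)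
    (h : ∀ p, B.v p = (p.1 * a p, p.2 * b p)) : ∃ C : ℝ, 0 < C ∧ ∀ F : ℂ → EN M, Crv P FF F → ∀ z ∈ B.Om F, ‖B.zt F z‖ * ‖B.cc F z‖ ≤ C * lam F z := by
  obtain ⟨c₁, hc₁, h₁⟩ := nt_lower B.pos ha ha0
  obtain ⟨c₂, hc₂, h₂⟩ := nt_lower B.pos hb hb0
  obtain ⟨C, hC, hCl⟩ := lam_cc B
  set c := min c₁ c₂ with hc
  have hcp : 0 < c := lt_min hc₁ hc₂
  refine ⟨C / c, by positivity, fun F hF z hz => ?_⟩
  obtain ⟨-, hbl, -⟩ := cc_lift B hF.diff hF.mem hz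
  have hpc := ball_subset_closedBall hbl
  have hv : c * ‖B.cc F z‖ ≤ ‖B.v (B.cc F z)‖ := by
    rw [h, Prod.norm_def, Prod.norm_def, mul_max_of_nonneg _ _ hcp.le, norm_mul, norm_mul]
    refine max_le_max ?_ ?_
    · rw [mul_comm]
      exact mul_le_mul_of_nonneg_left ((min_le_left _ _).trans (h₁ _ hpc)) (norm_nonneg _)
    · rw [mul_comm]
      exact mul_le_mul_of_nonneg_left ((min_le_right _ _).trans (h₂ _ hpc)) (norm_nonneg _)
  rcases eq_or_ne (B.cc F z) 0 with h0 | h0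
  · rw [h0, norm_zero, mul_zero]
    exact mul_nonneg (by positivity) (kk_lam_nonneg F z)
  · have hvne : B.v (B.cc F z) ≠ 0 := fun h3 => h0 (B.zero _ hpc h3)
    have h4 := (deriv_cc B hF hz).2 hvne
    have h5 : ‖deriv (B.cc F) z‖ = ‖B.zt F z‖ * ‖B.v (B.cc F z)‖ := by rw [h4, norm_smul]
    have h6 := (hCl F hF.diff hF.mem z hz).1
    rw [div_mul_eq_mul_div, le_div_iff₀ hcp]
    calc ‖B.zt F z‖ * ‖B.cc F z‖ * c = ‖B.zt F z‖ * (c * ‖B.cc F z‖) := by ring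
      _ ≤ ‖B.zt F z‖ * ‖B.v (B.cc F z)‖ := mul_le_mul_of_nonneg_left hv (norm_nonneg _)
      _ = ‖deriv (B.cc F) z‖ := h5.symm
      _ ≤ C * lam F z := h6

/-- `log ‖ζ'‖ ≤ log C + log (1 + λ / δ)` at a node -/
theorem nt_log_zt (B : GBox P FF) {a b : ℂ × ℂ → ℂ} (ha : AnalyticOnNhd ℂ a (closedBall 0 B.r)) (hb : AnalyticOnNhd ℂ b (closedBall 0 B.r))
    (ha0 : ∀ p ∈ closedBall (0 : ℂ × ℂ) B.r, a p ≠ 0) (hb0 : ∀ p ∈ closedBall (0 : ℂ × ℂ) B.r, b p ≠ 0)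
    (h : ∀ p, B.v p = (p.1 * a p, p.2 * b p)) : ∃ q : EN M, ‖q‖ = 1 ∧ (∃ t : ℂ, q = t • B.σ 0 ∧ t ≠ 0) ∧ ∃ C : ℝ, 0 ≤ C ∧
      ∀ F : ℂ → EN M, Crv P FF F → ∀ z ∈ B.Om F, Real.log ‖B.zt F z‖ ≤ C + Real.log (1 + lam F z / dq q F z) := by
  obtain ⟨q, hq, ⟨t, ht, ht0⟩, C₁, hC₁, hd⟩ := nt_dq B
  obtain ⟨C₂, hC₂, hz⟩ := nt_zt B ha hb ha0 hb0 h
  refine ⟨q, hq, ⟨t, ht, ht0⟩, Real.log (1 + C₁ * C₂), Real.log_nonneg (by nlinarith [mul_pos hC₁ hC₂]), fun F hF z hzO => ?_⟩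
  have hlam := kk_lam_nonneg F z
  have hdq0 := dq_nonneg q F z
  have hC12 : 0 < C₁ * C₂ := mul_pos hC₁ hC₂
  have hr : 0 ≤ Real.log (1 + C₁ * C₂) + Real.log (1 + lam F z / dq q F z) := by
    have h1 : 0 ≤ Real.log (1 + C₁ * C₂) := Real.log_nonneg (by linarith)
    have h2 : 0 ≤ Real.log (1 + lam F z / dq q F z) := Real.log_nonneg (by
      have := div_nonneg hlam hdq0
      linarith)
    linarith
  rcases eq_or_ne (B.cc F z) 0 with h0 | h0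
  · have hzt : B.zt F z = 0 := by
      unfold GBox.zt
      rw [h0, h]
      simp
    rw [hzt, norm_zero, Real.log_zero]
    exact hr
  · have hdqp : 0 < dq q F z := lt_of_le_of_ne hdq0 fun h1 => h0 (nt_dq_zero B hq ht hF.diff hF.mem hzO h1.symm)
    have hpp : 0 < ‖B.cc F z‖ := norm_pos_iff.2 h0
    rcases eq_or_ne (B.zt F z) 0 with hzt | hzt
    · rw [hzt, norm_zero, Real.log_zero]
      exact hr
    · have h3 := hz F hF z hzO
      have h4 := hd F hF.diff hF.mem z hzO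
      have h5 : ‖B.zt F z‖ ≤ C₁ * C₂ * (lam F z / dq q F z) := by
        rw [← mul_div_assoc, le_div_iff₀ hdqp]
        calc ‖B.zt F z‖ * dq q F z ≤ ‖B.zt F z‖ * (C₁ * ‖B.cc F z‖) := mul_le_mul_of_nonneg_left h4 (norm_nonneg _)
          _ = C₁ * (‖B.zt F z‖ * ‖B.cc F z‖) := by ring
          _ ≤ C₁ * (C₂ * lam F z) := mul_le_mul_of_nonneg_left h3 hC₁.le
          _ = _ := by ring
      have hx : 0 ≤ lam F z / dq q F z := div_nonneg hlam hdq0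
      rw [← Real.log_mul (by linarith) (by linarith)]
      refine Real.log_le_log (norm_pos_iff.2 hzt) (h5.trans ?_)
      nlinarith [mul_nonneg hC12.le hx]

/-- a nonconstant curve is not always in the line `q` -/
theorem crv_ne {F : ℂ → EN M} (hF : Crv P FF F) {q : EN M} (hq : ‖q‖ = 1) : ∃ z, ‖(inner ℂ q (F z) : ℂ)‖ ≠ ‖F z‖ := by
  by_contra hcon
  push Not at hcon
  obtain ⟨z, w, hzw⟩ := hF.nc
  have key : ∀ z, F z = (inner ℂ q (F z) : ℂ) • q := by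
    intro z
    have h5 := norm_sub_sq (𝕜 := ℂ) (F z) ((inner ℂ q (F z) : ℂ) • q)
    have h6 : RCLike.re (inner ℂ (F z) ((inner ℂ q (F z) : ℂ) • q) : ℂ) = ‖(inner ℂ q (F z) : ℂ)‖ ^ 2 := by
      obtain ⟨h7, h8⟩ := kk_conj (F z) q
      rw [inner_smul_right, RCLike.re_to_complex, Complex.mul_re, h7, h8, Complex.sq_norm, Complex.normSq_apply]
      ring
    rw [h6, norm_smul, hq, mul_one, hcon z] at h5
    have h7 : ‖F z - (inner ℂ q (F z) : ℂ) • q‖ ^ 2 = 0 := by rw [h5]; ring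
    exact sub_eq_zero.1 (norm_eq_zero.1 (pow_eq_zero_iff two_ne_zero |>.1 h7))
  have hw : (inner ℂ q (F w) : ℂ) ≠ 0 := by
    intro h
    have := hcon w
    rw [h, norm_zero] at this
    exact cone_ne (hF.mem w) (norm_eq_zero.1 this.symm)
  refine hzw (inner ℂ q (F z) * (inner ℂ q (F w))⁻¹) ?_
  rw [key w, inner_smul_right, inner_self_eq_norm_sq_to_K, hq, smul_smul]
  conv_lhs => rw [key z]
  congr 1
  simp
  field_simp

/-- **LocalT at a node, second clause** -/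
theorem node_T2 (B : GBox P FF) {a b : ℂ × ℂ → ℂ} (ha : AnalyticOnNhd ℂ a (closedBall 0 B.r)) (hb : AnalyticOnNhd ℂ b (closedBall 0 B.r))
    (ha0 : ∀ p ∈ closedBall (0 : ℂ × ℂ) B.r, a p ≠ 0) (hb0 : ∀ p ∈ closedBall (0 : ℂ × ℂ) B.r, b p ≠ 0)
    (h : ∀ p, B.v p = (p.1 * a p, p.2 * b p)) {Q : MvPolynomial (Fin (M + 1)) ℂ} {d : ℕ} (hQ : Q.IsHomogeneous d) (K n : ℕ)
    {F : ℂ → EN M} (hF : Crv P FF F) (hQF : ∃ z, eval (F z).ofLp Q ≠ 0) {s δ : ℝ} (hδ : 0 ≤ δ) :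
    ∃ C : ℝ, 0 ≤ C ∧ ∀ R, 1 ≤ R →
      ∫ z in B.Om F ∩ {z | B.cc F z ∈ ball (0 : ℂ × ℂ) s}, rhoR R z *
        max 0 (Real.log ‖B.zt F z‖ + K / n * (Real.log ‖eval (F z).ofLp Q‖ - d * Real.log ‖F z‖)) ≤ δ * En F R + C * Real.log (1 + En F R) + C := by
  obtain ⟨q, hq, -, C₁, hC₁, hlog⟩ := nt_log_zt B ha hb ha0 hb0 h
  obtain ⟨C₂, hC₂1, hC₂⟩ := nt_form_le hQ
  obtain ⟨A, hA⟩ := crv_En hF
  have hne : ∀ z, F z ≠ 0 := fun z => cone_ne (hF.mem z)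
  obtain ⟨C₃, hC₃, hkk⟩ := kk hF.diff hne hq (crv_ne hF hq) hA
  have hpi := Real.pi_pos
  have hlC₂ : 0 ≤ Real.log C₂ := Real.log_nonneg hC₂1
  have hKn : (0 : ℝ) ≤ K / n := by positivity
  set C₄ : ℝ := C₁ + K / n * Real.log C₂ with hC₄
  have hC₄0 : 0 ≤ C₄ := by positivity
  refine ⟨2 * Real.pi * C₄ + C₃ + 2 * Real.pi, by positivity, fun R hR => ?_⟩
  obtain ⟨hi, hle⟩ := hkk R hR
  have hi1 : Integrable (rhoR R) := (continuous_rhoR R).integrable_of_hasCompactSupport (hcs_rhoR hR)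
  have hwi : Integrable fun z => rhoR R z * (C₄ + Real.log (1 + lam F z / dq q F z)) :=
    ((hi1.mul_const C₄).add hi).congr (Eventually.of_forall fun z => by
      simp only [Pi.add_apply]
      ring)
  have hS : MeasurableSet (B.Om F ∩ {z | B.cc F z ∈ ball (0 : ℂ × ℂ) s}) := by
    have h1 : ContinuousOn (B.cc F) (B.Om F) := fun z hz => (cc_lift B hF.diff hF.mem hz).1.continuousAt.continuousWithinAt
    exact (h1.isOpen_inter_preimage (isOpen_Om B hF.diff hF.mem) isOpen_ball).measurableSet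
  have hb1 := loc_int (S := B.Om F ∩ {z | B.cc F z ∈ ball (0 : ℂ × ℂ) s}) hS
    (f := fun z => Real.log ‖B.zt F z‖ + K / n * (Real.log ‖eval (F z).ofLp Q‖ - d * Real.log ‖F z‖)) hwi
    (fun z => by
      have h2 : 0 ≤ Real.log (1 + lam F z / dq q F z) := (kk_log_half hq F z).1
      linarith)
    (by
      filter_upwards [nt_ae_ne (nt_form_diff Q hF.diff) hQF] with z hz hzS
      have h2 := hlog F hF z hzS.1
      have h3 := mul_le_mul_of_nonneg_left (nt_log_form hC₂1 hC₂ (hne z) hz) hKn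
      rw [hC₄]
      linarith)
  have h4 : avg R (fun z => C₄ + Real.log (1 + lam F z / dq q F z)) = 2 * Real.pi * C₄ + avg R fun z => Real.log (1 + lam F z / dq q F z) := by
    unfold avg
    rw [← int_rhoR hR, ← integral_mul_const, ← integral_add (hi1.mul_const _) hi]
    exact integral_congr_ae (Eventually.of_forall fun z => by ring)
  have hE : 0 ≤ En F R := by
    rw [← kI_eq_En]
    exact kI_nonneg F hR
  have hlE : 0 ≤ Real.log (1 + En F R) := Real.log_nonneg (by linarith)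
  have h5 : 0 ≤ δ * En F R := mul_nonneg hδ hE
  have h6 : 2 * Real.pi * Real.log (1 + En F R) ≤ (2 * Real.pi * C₄ + C₃ + 2 * Real.pi) * Real.log (1 + En F R) :=
    mul_le_mul_of_nonneg_right (by nlinarith [mul_nonneg hpi.le hC₄0]) hlE
  rw [h4] at hb1
  linarith

end Pool.Agent.MQ
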