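import Pool.Agent.MQ.AsmD1
import Pool.Agent.MQ.NodeT
import Pool.Agent.MQ.EE2
import Pool.Agent.MQ.CoordB
import Pool.Agent.H30M.Key

/-!
# MQ AsmD2: integrability on the small polydisc of a singular box
-/

set_option autoImplicit false

open Topology Filter Metric MvPolynomial Asymptotics MeasureTheory Laplacian

noncomputable section

namespace Pool.Agent.MQ

open Pool.Agent.H36.BP (EN fs)
open Pool.Agent.H17BP (IsChart IsForm)
open Pool.Agent.H17EF (projVar coneE)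
open Pool.Agent.H30M (tau avg rhoR LogSing continuous_rhoR hcs_rhoR rhoR_nonneg int_rhoR)

variable {M : ℕ} {P : Ideal (MvPolynomial (Fin (M + 1)) ℂ)} {FF : Set (EN M × EN M)}

/-- `ζ'` is meromorphic -/
theorem asd_zt_mero (B : GBox P FF) {F : ℂ → EN M} (hF : Crv P FF F) {z₀ : ℂ} (hz : z₀ ∈ B.Om F) : MeromorphicAt (B.zt F) z₀ := by
  obtain ⟨han, hmem, -⟩ := cc_lift B hF.diff hF.mem hz
  have hv : AnalyticAt ℂ (fun z => B.v (B.cc F z)) z₀ := AnalyticAt.comp (g := B.v) (f := B.cc F) (B.v_an _ (ball_subset_closedBall hmem)) han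
  have hv1 : AnalyticAt ℂ (fun z => (B.v (B.cc F z)).1) z₀ := analyticAt_fst.comp hv
  have hv2 : AnalyticAt ℂ (fun z => (B.v (B.cc F z)).2) z₀ := analyticAt_snd.comp hv
  have hd1 : AnalyticAt ℂ (fun z => (deriv (B.cc F) z).1) z₀ := analyticAt_fst.comp han.deriv
  have hd2 : AnalyticAt ℂ (fun z => (deriv (B.cc F) z).2) z₀ := analyticAt_snd.comp han.deriv
  rcases hv2.eventually_eq_zero_or_eventually_ne_zero with h | h
  · refine (hd1.meromorphicAt.div hv1.meromorphicAt).congr ?_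
    filter_upwards [h.filter_mono nhdsWithin_le_nhds] with z hz
    unfold GBox.zt
    rw [if_pos hz]
    rfl
  · refine (hd2.meromorphicAt.div hv2.meromorphicAt).congr ?_
    filter_upwards [h] with z hz
    unfold GBox.zt
    rw [if_neg hz]
    rfl

theorem asm_int {A : Atlas P FF} {D : CData A} {m j : ℕ} (hm1 : 1 ≤ m) {W : EN M → EN M → EN M → ℂ} (hW : IsForm (coneE P) m j W) {F : ℂ → EN M}
    (hF : Crv P FF F) (hR : ∃ z, eval (F z).ofLp D.R ≠ 0) (hWF : ∃ z w, Pool.Agent.H17BP.Tan (coneE P) (F z) w ∧ W (F z) (deriv F z) w ≠ 0) {i : A.ι}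
    {s : ℝ} (hs : s < (A.B i).r) {Q : MvPolynomial (Fin (M + 1)) ℂ} {d : ℕ} (hQF : ∃ z, eval (F z).ofLp Q ≠ 0) (t : ℝ)
    {R : ℝ} (hR1 : 1 ≤ R) :
    IntegrableOn (fun z => rhoR R z * max 0 (Real.log ‖(A.B i).zt F z‖ + t * (Real.log ‖eval (F z).ofLp Q‖ - d * Real.log ‖F z‖)))
      ((A.B i).Om F ∩ {z | (A.B i).cc F z ∈ ball (0 : ℂ × ℂ) s}) := by
  obtain ⟨s', h1, h2⟩ := exists_between hs
  refine GBox.integrableOn_max (A.B i) h1 (isOpen_Om _ hF.diff hF.mem)
    (fun z hz => (cc_lift _ hF.diff hF.mem hz).1.continuousAt.continuousWithinAt) (isClosed_cc _ hF.diff hF.mem h2) (fun z hz => ?_) hR1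
  have l1 : LogSing (fun z => Real.log ‖(A.B i).zt F z‖) ((meromorphicOrderAt ((A.B i).zt F) z).untop₀ : ℤ) z := by
    refine LogSing.log_norm_mero (asd_zt_mero _ hF hz) fun ht => ?_
    rw [meromorphicOrderAt_eq_top_iff] at ht
    obtain ⟨w, hw1, hw2⟩ := (ht.and (ne_near hm1 hW hF hR hWF hz)).exists
    exact hw2.2.2.2.1 hw1
  have l2 := LogSing.log_norm ((nt_form_diff Q hF.diff).analyticAt z) (Pool.Agent.H30M.order_ne_top (nt_form_diff Q hF.diff) hQF z)
  have l3 : LogSing (fun z => Real.log ‖F z‖) 0 z := LogSing.of_contDiffAt (contDiffAt_log_normE (hF.diff.analyticAt z) (cone_ne (hF.mem z)))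
  exact ⟨_, l1.add ((l2.sub (l3.const_mul d)).const_mul t)⟩

end Pool.Agent.MQ
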