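import Pool.Agent.MQ.OrdV

/-!
# MQ MLog: the averages of `log (1 + lam)`
-/

set_option autoImplicit false

open MeasureTheory Topology Filter Metric Laplacian Set

noncomputable section

namespace Pool.Agent.MQ

open Pool.Agent.H30M (tau rhoR avg rho tau_nonneg contDiff_tau hcs_tau green_tau rhoR_nonneg)
open Pool.Agent.H36.BP (EN)

variable {N M : ℕ}

theorem continuous_lam_sq {F : ℂ → EN M} (hF : Differentiable ℂ F) (h0 : ∀ z, F z ≠ 0) : Continuous fun z => lam F z ^ 2 := by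
  have hd : Continuous (deriv F) := (hF.contDiff (n := 1)).continuous_deriv le_rfl
  have hn : ∀ z, ‖F z‖ ≠ 0 := fun z => norm_ne_zero_iff.2 (h0 z)
  have e : (fun z => lam F z ^ 2) = fun z => (‖F z‖ ^ 2 * ‖deriv F z‖ ^ 2 - ‖(inner ℂ (F z) (deriv F z) : ℂ)‖ ^ 2) / ‖F z‖ ^ 4 := by
    funext z
    have h1 : ‖(inner ℂ (F z) (deriv F z) : ℂ)‖ ^ 2 ≤ ‖F z‖ ^ 2 * ‖deriv F z‖ ^ 2 := by
      rw [← mul_pow]
      exact pow_le_pow_left₀ (norm_nonneg _) (norm_inner_le_norm _ _) 2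
    unfold lam Pool.Agent.H36.BP.fs Pool.Agent.H36.BP.wd
    rw [div_pow, Real.sq_sqrt (sub_nonneg.2 h1)]
    ring_nf
  rw [e]
  refine Continuous.div₀ ?_ (hF.continuous.norm.pow 4) fun z => pow_ne_zero 4 (hn z)
  exact ((hF.continuous.norm.pow 2).mul (hd.norm.pow 2)).sub ((hF.continuous.inner hd).norm.pow 2)

theorem continuous_lam' {F : ℂ → EN M} (hF : Differentiable ℂ F) (h0 : ∀ z, F z ≠ 0) : Continuous (lam F) := by
  have h := (continuous_lam_sq hF h0).sqrt
  refine h.congr fun z => ?_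
  rw [Real.sqrt_sq (lam_nonneg' F z)]

/-- `rho` is bounded -/
theorem exists_rho_le : ∃ K : ℝ, 0 ≤ K ∧ ∀ z, rho z ≤ K := by
  have hcs : HasCompactSupport rho := by
    have := Pool.Agent.H30M.hcs_rhoR (R := 1) le_rfl
    rwa [Pool.Agent.H30M.rhoR_one] at this
  obtain ⟨K, hK⟩ := Pool.Agent.H30M.continuous_rho.bounded_above_of_compact_support hcs
  refine ⟨|K|, abs_nonneg K, fun z => ?_⟩
  have := hK z
  rw [Real.norm_eq_abs] at this
  exact (le_abs_self _).trans (this.trans (le_abs_self K))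

/-- the average of the square of a density is controlled by its energy on a larger disc -/
theorem exists_avg_sq_le : ∃ K : ℝ, 0 ≤ K ∧ ∀ {l : ℂ → ℝ}, Continuous l → ∀ R, 1 ≤ R →
    avg R (fun z => l z ^ 2) ≤ K / R ^ 2 * ∫ z, tau (Real.exp 2 * R) z * l z ^ 2 := by
  obtain ⟨K, hK0, hK⟩ := exists_rho_le
  refine ⟨K, hK0, fun {l} hl0 R hR => ?_⟩
  have hR0 : 0 < R := by linarith
  have he : 1 ≤ Real.exp 2 * R := by
    have := Real.one_le_exp (zero_le_two (α := ℝ))
    nlinarith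
  have hc : Continuous fun z => l z ^ 2 := hl0.pow 2
  unfold Pool.Agent.H30M.avg
  rw [← integral_const_mul]
  refine integral_mono (((Pool.Agent.H30M.continuous_rhoR R).mul hc).integrable_of_hasCompactSupport ((Pool.Agent.H30M.hcs_rhoR hR).mul_right))
    ((((contDiff_tau _).continuous.mul hc).integrable_of_hasCompactSupport ((hcs_tau he).mul_right)).const_mul _) fun z => ?_
  have hl : 0 ≤ l z ^ 2 := sq_nonneg _
  have h1 : rhoR R z ≤ K / R ^ 2 * tau (Real.exp 2 * R) z := by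
    have hKR : 0 ≤ K / R ^ 2 := by positivity
    by_cases hz : ‖z‖ ≤ Real.exp 1 * R
    · have h2 := Pool.Agent.H30M.one_le_tau hR hz
      have h3 : rhoR R z ≤ K / R ^ 2 := div_le_div_of_nonneg_right (hK _) (by positivity)
      nlinarith
    · rw [Pool.Agent.H30M.rhoR_eq_zero hR (Or.inr (not_le.1 hz).le)]
      exact mul_nonneg hKR (tau_nonneg he z)
  calc rhoR R z * l z ^ 2 ≤ (K / R ^ 2 * tau (Real.exp 2 * R) z) * l z ^ 2 := mul_le_mul_of_nonneg_right h1 hl
    _ = _ := by ring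

/-- V8 for an arbitrary density -/
theorem mlog_gen {l : ℂ → ℝ} (hc : Continuous l) (h0 : ∀ z, 0 ≤ l z) {A : ℝ} (hA : ∀ R, 1 ≤ R → ∫ z, tau R z * l z ^ 2 ≤ A * R ^ 2) :
    ∃ C, ∀ R, 1 ≤ R → avg R (fun z => Real.log (1 + l z)) ≤ C := by
  obtain ⟨K, hK0, hK⟩ := exists_avg_sq_le
  have hc2 : Continuous fun z => l z ^ 2 := hc.pow 2
  refine ⟨2 * Real.pi + K * (|A| * Real.exp 2 ^ 2), fun R hR => ?_⟩
  have hR0 : 0 < R := by linarith
  have he : 1 ≤ Real.exp 2 * R := by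
    have := Real.one_le_exp (zero_le_two (α := ℝ))
    nlinarith
  have h1 : avg R (fun z => l z ^ 2) ≤ K * (|A| * Real.exp 2 ^ 2) := by
    refine (hK hc R hR).trans ?_
    have h2 : ∫ z, tau (Real.exp 2 * R) z * l z ^ 2 ≤ |A| * (Real.exp 2 * R) ^ 2 :=
      (hA _ he).trans (mul_le_mul_of_nonneg_right (le_abs_self A) (sq_nonneg _))
    calc K / R ^ 2 * ∫ z, tau (Real.exp 2 * R) z * l z ^ 2 ≤ K / R ^ 2 * (|A| * (Real.exp 2 * R) ^ 2) :=
          mul_le_mul_of_nonneg_left h2 (by positivity)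
      _ = K * (|A| * Real.exp 2 ^ 2) := by
        field_simp
  have hci : ∀ {f : ℂ → ℝ}, Continuous f → Integrable fun z => rhoR R z * f z := fun hf =>
    ((Pool.Agent.H30M.continuous_rhoR R).mul hf).integrable_of_hasCompactSupport ((Pool.Agent.H30M.hcs_rhoR hR).mul_right)
  have hlog : Continuous fun z => Real.log (1 + l z) :=
    (continuous_const.add hc).log fun z => (add_pos_of_pos_of_nonneg one_pos (h0 z)).ne'
  have h3 : avg R (fun z => Real.log (1 + l z)) ≤ ∫ z, (rhoR R z + rhoR R z * l z ^ 2) := by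
    unfold Pool.Agent.H30M.avg
    refine integral_mono (hci hlog) ((by simpa using hci continuous_const (f := fun _ => (1 : ℝ)) : Integrable fun z => rhoR R z).add (hci hc2)) fun z => ?_
    have h4 := h0 z
    have h5 : Real.log (1 + l z) ≤ 1 + l z ^ 2 := by
      have := Real.log_le_sub_one_of_pos (add_pos_of_pos_of_nonneg one_pos h4)
      nlinarith [sq_nonneg (l z - 1)]
    calc rhoR R z * Real.log (1 + l z) ≤ rhoR R z * (1 + l z ^ 2) := mul_le_mul_of_nonneg_left h5 (rhoR_nonneg R z)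
      _ = _ := by ring
  rw [integral_add (by simpa using hci continuous_const (f := fun _ => (1 : ℝ))) (hci hc2), Pool.Agent.H30M.int_rhoR hR] at h3
  exact h3.trans (by
    have : ∫ z, rhoR R z * l z ^ 2 = avg R (fun z => l z ^ 2) := rfl
    rw [this]
    linarith)

/-- the average of the square of the length is controlled by the energy of a larger disc -/
theorem exists_avg_lam_sq_le : ∃ K : ℝ, 0 ≤ K ∧ ∀ {M : ℕ} {F : ℂ → EN M}, Differentiable ℂ F → (∀ z, F z ≠ 0) → ∀ R, 1 ≤ R →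
    avg R (fun z => lam F z ^ 2) ≤ K / R ^ 2 * En F (Real.exp 2 * R) := by
  obtain ⟨K, hK0, hK⟩ := exists_avg_sq_le
  exact ⟨K, hK0, fun {M F} hF h0 R hR => hK (continuous_lam' hF h0) R hR⟩

/-- V8 -/
theorem mlog {F : ℂ → EN M} (hF : Differentiable ℂ F) (h0 : ∀ z, F z ≠ 0) {A : ℝ} (hA : ∀ R, 1 ≤ R → En F R ≤ A * R ^ 2) :
    ∃ C, ∀ R, 1 ≤ R → avg R (fun z => Real.log (1 + lam F z)) ≤ C :=
  mlog_gen (continuous_lam' hF h0) (lam_nonneg' F) hA

end Pool.Agent.MQ
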