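import Pool.Agent.MQ.AsmDefs
import Pool.Agent.MQ.AsmD2
import Pool.Agent.MQ.MLog

/-!
# MQ AsmD: the mean of `E`
-/

set_option autoImplicit false

open Topology Filter Metric MvPolynomial Asymptotics MeasureTheory Laplacian

noncomputable section

namespace Pool.Agent.MQ

open Pool.Agent.H36.BP (EN fs)
open Pool.Agent.H17BP (IsChart IsForm)
open Pool.Agent.H17EF (projVar coneE)
open Pool.Agent.H30M (tau avg rhoR LogSing continuous_rhoR hcs_rhoR rhoR_nonneg int_rhoR)

variable {M : ℕ} {P : Ideal (MvPolynomial (Fin (M + 1)) ℂ)} {FF : Set (EN M × EN M)}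

theorem asd_W_cont (B : GBox P FF) {m j : ℕ} {W : EN M → EN M → EN M → ℂ} (hW : IsForm (coneE P) m j W) :
    ContinuousOn (GBox.W B W) (ball 0 B.r) := by
  intro p hp
  refine ContinuousAt.continuousWithinAt (AnalyticAt.continuousAt (𝕜 := ℂ) (hW.analytic B.σ p (B.σ_an p (ball_subset_closedBall hp)) ?_))
  filter_upwards [isOpen_ball.mem_nhds hp] with q hq
  exact B.mem q (ball_subset_closedBall hq)

/-- `log x ≤ log (1 + C)` if `0 ≤ x ≤ C` -/
theorem asd_log_le {x C : ℝ} (h0 : 0 ≤ x) (h : x ≤ C) : Real.log x ≤ Real.log (1 + C) := by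
  rcases h0.eq_or_lt with rfl | h1
  · rw [Real.log_zero]
    exact Real.log_nonneg (by linarith)
  · exact Real.log_le_log h1 (by linarith)

/-- the bound of the coefficients of `EE` on the polydisc of radius `r / 4` -/
theorem asd_coeff {A : Atlas P FF} {D : CData A} {mm : A.ι → ℂ × ℂ → ℝ} (hm : Gauge A D mm) {m j : ℕ} {W : EN M → EN M → EN M → ℂ}
    (hW : IsForm (coneE P) m j W) (i : A.ι) : ∃ C : ℝ, 0 ≤ C ∧ ∀ p ∈ closedBall (0 : ℂ × ℂ) ((A.B i).r / 4),
      1 / m * Real.log ‖GBox.W (A.B i) W p‖ + Real.log ‖D.g i p‖ + j / m * Real.log ‖(A.B i).σ p‖ - mm i p ≤ C := by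
  have hpos := (A.B i).pos
  have hK : IsCompact (closedBall (0 : ℂ × ℂ) ((A.B i).r / 4)) := isCompact_closedBall _ _
  have hsub : closedBall (0 : ℂ × ℂ) ((A.B i).r / 4) ⊆ ball 0 (A.B i).r := closedBall_subset_ball (by linarith)
  obtain ⟨C₁, h1⟩ := hK.exists_bound_of_continuousOn ((asd_W_cont (A.B i) hW).mono hsub)
  obtain ⟨C₂, h2⟩ := hK.exists_bound_of_continuousOn ((D.an i).continuousOn.mono (hsub.trans ball_subset_closedBall))
  obtain ⟨C₃, h3⟩ := hK.exists_bound_of_continuousOn ((A.B i).σ_an.continuousOn.mono (hsub.trans ball_subset_closedBall))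
  obtain ⟨C₄, h4⟩ := hK.exists_bound_of_continuousOn ((hm.smooth i).continuousOn.mono hsub)
  have h0 : (0 : ℂ × ℂ) ∈ closedBall (0 : ℂ × ℂ) ((A.B i).r / 4) := mem_closedBall_self (by linarith)
  have hC₁ : 0 ≤ C₁ := (norm_nonneg _).trans (h1 0 h0)
  have hC₂ : 0 ≤ C₂ := (norm_nonneg _).trans (h2 0 h0)
  have hC₃ : 0 ≤ C₃ := (norm_nonneg _).trans (h3 0 h0)
  have hC₄ : 0 ≤ C₄ := (norm_nonneg _).trans (h4 0 h0)
  have l1 : 0 ≤ Real.log (1 + C₁) := Real.log_nonneg (by linarith)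
  have l2 : 0 ≤ Real.log (1 + C₂) := Real.log_nonneg (by linarith)
  have l3 : 0 ≤ Real.log (1 + C₃) := Real.log_nonneg (by linarith)
  refine ⟨1 / m * Real.log (1 + C₁) + Real.log (1 + C₂) + j / m * Real.log (1 + C₃) + C₄, by positivity, fun p hp => ?_⟩
  have e1 := mul_le_mul_of_nonneg_left (asd_log_le (norm_nonneg _) (h1 p hp)) (show (0 : ℝ) ≤ 1 / m by positivity)
  have e2 := asd_log_le (norm_nonneg _) (h2 p hp)
  have e3 := mul_le_mul_of_nonneg_left (asd_log_le (norm_nonneg _) (h3 p hp)) (show (0 : ℝ) ≤ j / m by positivity)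
  have e4 := h4 p hp
  rw [Real.norm_eq_abs, abs_le] at e4
  linarith [e4.1]

/-- the bound of `ζ'` where `v ≠ 0` -/
theorem asd_zt (B : GBox P FF) {K : Set (ℂ × ℂ)} (hK : IsCompact K) (hKr : K ⊆ closedBall 0 B.r) (hv : ∀ p ∈ K, B.v p ≠ 0) :
    ∃ C : ℝ, 0 < C ∧ ∀ F : ℂ → EN M, Crv P FF F → ∀ z ∈ B.Om F, B.cc F z ∈ K → ‖B.zt F z‖ ≤ C * lam F z := by
  obtain ⟨C, hC, hCl⟩ := lam_cc B
  rcases K.eq_empty_or_nonempty with rfl | hne
  · exact ⟨1, one_pos, fun F _ z _ h => absurd h (Set.notMem_empty _)⟩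
  obtain ⟨p₀, hp₀, hmin⟩ := hK.exists_isMinOn hne (B.v_an.continuousOn.mono hKr).norm
  have hc : 0 < ‖B.v p₀‖ := norm_pos_iff.2 (hv p₀ hp₀)
  refine ⟨C / ‖B.v p₀‖, by positivity, fun F hF z hz hp => ?_⟩
  have h1 := (deriv_cc B hF hz).2 (hv _ hp)
  have h2 := (hCl F hF.diff hF.mem z hz).1
  have h3 : ‖B.v p₀‖ ≤ ‖B.v (B.cc F z)‖ := hmin hp
  rw [h1, norm_smul] at h2
  rw [div_mul_eq_mul_div, le_div_iff₀ hc]
  exact (mul_le_mul_of_nonneg_left h3 (norm_nonneg _)).trans h2

theorem asd_log_mul {C l : ℝ} (hC : 0 < C) (hl : 0 ≤ l) {x : ℝ} (hx : 0 ≤ x) (h : x ≤ C * l) :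
    Real.log x ≤ |Real.log C| + max 0 (Real.log l) := by
  have h0 : 0 ≤ |Real.log C| + max 0 (Real.log l) := add_nonneg (abs_nonneg _) (le_max_left _ _)
  rcases hx.eq_or_lt with rfl | hx
  · rwa [Real.log_zero]
  rcases hl.eq_or_lt with rfl | hl
  · rw [mul_zero] at h
    exact absurd h (not_le.2 hx)
  refine (Real.log_le_log hx h).trans ?_
  rw [Real.log_mul hC.ne' hl.ne']
  exact add_le_add (le_abs_self _) (le_max_right _ _)

/-- the small polydisc of a singular box -/
def GBox.Sm (B : GBox P FF) (F : ℂ → EN M) (s : ℝ) : Set ℂ := B.Om F ∩ {z | B.cc F z ∈ ball (0 : ℂ × ℂ) s}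

theorem asd_Sm_open (B : GBox P FF) {F : ℂ → EN M} (hF : Crv P FF F) (s : ℝ) : IsOpen (B.Sm F s) := by
  refine ContinuousOn.isOpen_inter_preimage (f := B.cc F) (fun z hz => ?_) (isOpen_Om B hF.diff hF.mem) isOpen_ball
  exact (cc_lift B hF.diff hF.mem hz).1.continuousAt.continuousWithinAt

/-- the positive part in the small polydisc -/
def GBox.fT (B : GBox P FF) (F : ℂ → EN M) (Q : MvPolynomial (Fin (M + 1)) ℂ) (d K n : ℕ) (z : ℂ) : ℝ :=
  max 0 (Real.log ‖B.zt F z‖ + K / n * (Real.log ‖eval (F z).ofLp Q‖ - d * Real.log ‖F z‖))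

open Classical in
/-- the pointwise bound of `E` -/
theorem asd_pt {A : Atlas P FF} {D : CData A} {mm : A.ι → ℂ × ℂ → ℝ} (hm : Gauge A D mm) {m j : ℕ} {W : EN M → EN M → EN M → ℂ}
    (hW : IsForm (coneE P) m j W) {F : ℂ → EN M} (hF : Crv P FF F) {s : ℝ} (hs : 0 < s)
    {Q : MvPolynomial (Fin (M + 1)) ℂ} {d K n : ℕ} (hQ : Q.IsHomogeneous d) :
    ∃ C : ℝ, 0 ≤ C ∧ ∀ z, eval (F z).ofLp Q ≠ 0 → Eg A D mm m j W Q d K n hF z ≤ C + max 0 (Real.log (lam F z)) +
      ∑ i, (if (A.B i).Reg then 0 else ((A.B i).Sm F s).indicator ((A.B i).fT F Q d K n) z) := by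
  obtain ⟨CQ, hCQ1, hCQ⟩ := nt_form_le hQ
  have key : ∀ i : A.ι, ∃ C : ℝ, 0 ≤ C ∧ ∀ z ∈ (A.B i).Om F, (A.B i).cc F z ∈ closedBall (0 : ℂ × ℂ) ((A.B i).r / 4) → eval (F z).ofLp Q ≠ 0 →
      EB A D mm m j W Q d K n F i z ≤ C + max 0 (Real.log (lam F z)) +
        (if (A.B i).Reg then 0 else ((A.B i).Sm F s).indicator ((A.B i).fT F Q d K n) z) := by
    intro i
    have hpos := (A.B i).pos
    obtain ⟨C₁, hC₁, h1⟩ := asd_coeff hm hW i
    -- the part outside the small polydisc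
    set K₀ : Set (ℂ × ℂ) := closedBall (0 : ℂ × ℂ) ((A.B i).r / 4) \ (if (A.B i).Reg then ∅ else ball (0 : ℂ × ℂ) s) with hK₀
    have hK : IsCompact K₀ := by
      refine (isCompact_closedBall _ _).diff ?_
      split_ifs
      · exact isOpen_empty
      · exact isOpen_ball
    have hKr : K₀ ⊆ closedBall 0 (A.B i).r := Set.sdiff_subset.trans (closedBall_subset_closedBall (by linarith))
    have hv : ∀ p ∈ K₀, (A.B i).v p ≠ 0 := by
      intro p hp h0
      by_cases hreg : (A.B i).Reg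
      · rw [hreg p] at h0
        exact one_ne_zero (congrArg Prod.snd h0)
      · have := (A.B i).zero p (hKr hp) h0
        rw [hK₀, if_neg hreg] at hp
        exact hp.2 (this ▸ mem_ball_self hs)
    obtain ⟨C₂, hC₂, h2⟩ := asd_zt (A.B i) hK hKr hv
    have hCl : 0 ≤ Real.log CQ := Real.log_nonneg hCQ1
    refine ⟨C₁ + |Real.log C₂| + K / n * Real.log CQ, by positivity, fun z hz hp hQz => ?_⟩
    have hF0 : F z ≠ 0 := cone_ne (hF.mem z)
    have e1 := h1 _ hp
    have e2 : (K : ℝ) / n * (Real.log ‖eval (F z).ofLp Q‖ - d * Real.log ‖F z‖) ≤ K / n * Real.log CQ :=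
      mul_le_mul_of_nonneg_left (nt_log_form hCQ1 hCQ hF0 hQz) (by positivity)
    have e3 : 0 ≤ max 0 (Real.log (lam F z)) := le_max_left _ _
    have hid : EB A D mm m j W Q d K n F i z = (Real.log ‖(A.B i).zt F z‖ + K / n * (Real.log ‖eval (F z).ofLp Q‖ - d * Real.log ‖F z‖)) +
        (1 / m * Real.log ‖GBox.W (A.B i) W ((A.B i).cc F z)‖ + Real.log ‖D.g i ((A.B i).cc F z)‖ + j / m * Real.log ‖(A.B i).σ ((A.B i).cc F z)‖ -
          mm i ((A.B i).cc F z)) := by
      unfold EB EE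
      ring
    by_cases hin : (A.B i).cc F z ∈ K₀
    · have e4 := asd_log_mul hC₂ (kk_lam_nonneg F z) (norm_nonneg _) (h2 F hF z hz hin)
      have e5 : 0 ≤ (if (A.B i).Reg then 0 else ((A.B i).Sm F s).indicator ((A.B i).fT F Q d K n) z) := by
        split_ifs
        · exact le_rfl
        · exact Set.indicator_nonneg (fun _ _ => le_max_left _ _) _
      rw [hid]
      linarith
    · have hreg : ¬ (A.B i).Reg := by
        intro hreg
        rw [hK₀, if_pos hreg, Set.sdiff_empty] at hin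
        exact hin hp
      have hb : (A.B i).cc F z ∈ ball (0 : ℂ × ℂ) s := by
        rw [hK₀, if_neg hreg] at hin
        by_contra hc
        exact hin ⟨hp, hc⟩
      rw [if_neg hreg, Set.indicator_of_mem (show z ∈ (A.B i).Sm F s from ⟨hz, hb⟩)]
      have e6 : Real.log ‖(A.B i).zt F z‖ + K / n * (Real.log ‖eval (F z).ofLp Q‖ - d * Real.log ‖F z‖) ≤ (A.B i).fT F Q d K n z := le_max_right _ _
      have e7 : 0 ≤ |Real.log C₂| := abs_nonneg _
      have e8 : (0 : ℝ) ≤ K / n * Real.log CQ := by positivity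
      rw [hid]
      linarith
  choose C hC0 hC using key
  refine ⟨∑ i, C i, Finset.sum_nonneg fun i _ => hC0 i, fun z hQz => ?_⟩
  set i := idx A hF z with hi
  have hz : z ∈ (A.B i).Om F := idx_Om A hF z
  have hp : (A.B i).cc F z ∈ closedBall (0 : ℂ × ℂ) ((A.B i).r / 4) := by
    obtain ⟨p, hp, c, hc, hx⟩ := idx_mem A hF z
    have hpos := (A.B i).pos
    have : (A.B i).cc F z = p := by
      unfold GBox.cc
      rw [hx]
      exact crd_smul _ (ball_subset_ball (by linarith) hp) hc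
    rw [this]
    exact ball_subset_closedBall hp
  refine (hC i z hz hp hQz).trans ?_
  have h1 : C i ≤ ∑ i, C i := Finset.single_le_sum (f := C) (fun i _ => hC0 i) (Finset.mem_univ i)
  have h2 := Finset.single_le_sum (f := fun i => if (A.B i).Reg then (0 : ℝ) else ((A.B i).Sm F s).indicator ((A.B i).fT F Q d K n) z)
    (fun i _ => by
      show (0 : ℝ) ≤ _
      split_ifs
      · exact le_rfl
      · exact Set.indicator_nonneg (fun _ _ => le_max_left _ _) _) (Finset.mem_univ i)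
  linarith

/-- **the mean of `E`** -/
theorem Eg_mean {A : Atlas P FF} {D : CData A} {mm : A.ι → ℂ × ℂ → ℝ} (hm : Gauge A D mm) {m j : ℕ} (hm1 : 1 ≤ m) {W : EN M → EN M → EN M → ℂ}
    (hW : IsForm (coneE P) m j W) {F : ℂ → EN M} (hF : Crv P FF F) (hR : ∃ z, eval (F z).ofLp D.R ≠ 0)
    (hWF : ∃ z w, Pool.Agent.H17BP.Tan (coneE P) (F z) w ∧ W (F z) (deriv F z) w ≠ 0) {s : ℝ} (hs : 0 < s) (hs' : ∀ i, ¬ (A.B i).Reg → s ≤ (A.B i).r / 8)
    {Q : MvPolynomial (Fin (M + 1)) ℂ} {d K n : ℕ} (hQ : Q.IsHomogeneous d) (hQF : ∃ z, eval (F z).ofLp Q ≠ 0) {δ : ℝ} (hδ : 0 < δ)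
    (hT : ∀ i, ¬ (A.B i).Reg → LocalT (A.B i) F Q d K n s δ)
    (hlog : ∃ C : ℝ, ∀ R, 1 ≤ R → ∫ z, rhoR R z * max 0 (Real.log (lam F z)) ≤ C) :
    ∃ C : ℝ, 0 ≤ C ∧ ∀ R, 1 ≤ R → avg R (Eg A D mm m j W Q d K n hF) ≤ Fintype.card A.ι * δ * En F R + C * Real.log (1 + En F R) + C := by
  classical
  obtain ⟨C₁, hC₁, h1⟩ := asd_pt (K := K) (n := n) hm hW hF hs hQ
  obtain ⟨C₂, h2⟩ := hlog
  have hF0 : ∀ z, F z ≠ 0 := fun z => cone_ne (hF.mem z)
  have key : ∀ i : A.ι, ∃ C : ℝ, 0 ≤ C ∧ ∀ R, 1 ≤ R →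
      ∫ z, rhoR R z * (if (A.B i).Reg then 0 else ((A.B i).Sm F s).indicator ((A.B i).fT F Q d K n) z) ≤ δ * En F R + C * Real.log (1 + En F R) + C := by
    intro i
    by_cases hreg : (A.B i).Reg
    · refine ⟨0, le_rfl, fun R hR1 => ?_⟩
      have h0 : 0 ≤ En F R := integral_nonneg fun z => mul_nonneg (Pool.Agent.H30M.tau_nonneg hR1 z) (sq_nonneg _)
      simp only [if_pos hreg, mul_zero, integral_zero, zero_mul, add_zero]
      positivity
    · obtain ⟨-, C, hC, h⟩ := hT i hreg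
      refine ⟨C, hC, fun R hR1 => ?_⟩
      simp only [if_neg hreg]
      have e : (fun z => rhoR R z * ((A.B i).Sm F s).indicator ((A.B i).fT F Q d K n) z) =
          ((A.B i).Sm F s).indicator fun z => rhoR R z * (A.B i).fT F Q d K n z := by
        funext z
        by_cases hz : z ∈ (A.B i).Sm F s
        · rw [Set.indicator_of_mem hz, Set.indicator_of_mem hz]
        · rw [Set.indicator_of_notMem hz, Set.indicator_of_notMem hz, mul_zero]
      rw [e, integral_indicator (asd_Sm_open _ hF s).measurableSet]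
      exact h R hR1
  choose C hC0 hC using key
  refine ⟨C₁ * (2 * Real.pi) + |C₂| + ∑ i, C i, add_nonneg (by positivity) (Finset.sum_nonneg fun i _ => hC0 i), fun R hR1 => ?_⟩
  have hEn0 : 0 ≤ En F R := integral_nonneg fun z => mul_nonneg (Pool.Agent.H30M.tau_nonneg hR1 z) (sq_nonneg _)
  have hlog0 : 0 ≤ Real.log (1 + En F R) := Real.log_nonneg (by linarith)
  -- integrability of the three pieces
  have i1 : Integrable fun z => rhoR R z * C₁ := (((continuous_rhoR R).mul continuous_const).integrable_of_hasCompactSupport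
    ((hcs_rhoR hR1).mul_right))
  have i2 : Integrable fun z => rhoR R z * max 0 (Real.log (lam F z)) := by
    have hc : Continuous fun z => max 0 (Real.log (lam F z)) := by
      have h3 : (fun z => max 0 (Real.log (lam F z))) = fun z => Real.log (max 1 (lam F z)) := by
        funext z
        rcases le_total 1 (lam F z) with h | h
        · rw [max_eq_right h, max_eq_right (Real.log_nonneg h)]
        · rw [max_eq_left h, Real.log_one, max_eq_left (Real.log_nonpos (kk_lam_nonneg F z) h)]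
      rw [h3]
      exact (continuous_const.max (continuous_lam' hF.diff hF0)).log fun z => (lt_of_lt_of_le one_pos (le_max_left _ _)).ne'
    exact ((continuous_rhoR R).mul hc).integrable_of_hasCompactSupport ((hcs_rhoR hR1).mul_right)
  have i3 : ∀ i : A.ι, Integrable fun z => rhoR R z * (if (A.B i).Reg then 0 else ((A.B i).Sm F s).indicator ((A.B i).fT F Q d K n) z) := by
    intro i
    by_cases hreg : (A.B i).Reg
    · simp only [if_pos hreg, mul_zero]
      exact integrable_zero _ _ _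
    · simp only [if_neg hreg]
      have e : (fun z => rhoR R z * ((A.B i).Sm F s).indicator ((A.B i).fT F Q d K n) z) =
          ((A.B i).Sm F s).indicator fun z => rhoR R z * (A.B i).fT F Q d K n z := by
        funext z
        by_cases hz : z ∈ (A.B i).Sm F s
        · rw [Set.indicator_of_mem hz, Set.indicator_of_mem hz]
        · rw [Set.indicator_of_notMem hz, Set.indicator_of_notMem hz, mul_zero]
      rw [e, integrable_indicator_iff (asd_Sm_open _ hF s).measurableSet]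
      have hpos := (A.B i).pos
      have := hs' i hreg
      exact asm_int (D := D) hm1 hW hF hR hWF (by linarith) hQF _ hR1
  have i4 : Integrable fun z => ∑ i, rhoR R z * (if (A.B i).Reg then 0 else ((A.B i).Sm F s).indicator ((A.B i).fT F Q d K n) z) :=
    integrable_finsetSum _ fun i _ => i3 i
  have i12 : Integrable fun z => rhoR R z * C₁ + rhoR R z * max 0 (Real.log (lam F z)) := i1.add i2
  have i5 : Integrable fun z => rhoR R z * C₁ + rhoR R z * max 0 (Real.log (lam F z)) +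
      ∑ i, rhoR R z * (if (A.B i).Reg then 0 else ((A.B i).Sm F s).indicator ((A.B i).fT F Q d K n) z) := i12.add i4
  have hval : ∫ z, (rhoR R z * C₁ + rhoR R z * max 0 (Real.log (lam F z)) +
      ∑ i, rhoR R z * (if (A.B i).Reg then 0 else ((A.B i).Sm F s).indicator ((A.B i).fT F Q d K n) z)) =
      2 * Real.pi * C₁ + (∫ z, rhoR R z * max 0 (Real.log (lam F z))) +
        ∑ i, ∫ z, rhoR R z * (if (A.B i).Reg then 0 else ((A.B i).Sm F s).indicator ((A.B i).fT F Q d K n) z) := by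
    rw [integral_add i12 i4, integral_add i1 i2, integral_finsetSum _ fun i _ => i3 i, integral_mul_const, int_rhoR hR1]
  have hle : ∀ᵐ z : ℂ, rhoR R z * Eg A D mm m j W Q d K n hF z ≤ rhoR R z * C₁ + rhoR R z * max 0 (Real.log (lam F z)) +
      ∑ i, rhoR R z * (if (A.B i).Reg then 0 else ((A.B i).Sm F s).indicator ((A.B i).fT F Q d K n) z) := by
    filter_upwards [nt_ae_ne (nt_form_diff Q hF.diff) hQF] with z hz
    rw [← Finset.mul_sum, ← mul_add, ← mul_add]
    exact mul_le_mul_of_nonneg_left (h1 z hz) (rhoR_nonneg R z)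
  have hnn : ∀ z : ℂ, 0 ≤ rhoR R z * C₁ + rhoR R z * max 0 (Real.log (lam F z)) +
      ∑ i, rhoR R z * (if (A.B i).Reg then 0 else ((A.B i).Sm F s).indicator ((A.B i).fT F Q d K n) z) := by
    intro z
    have hρ := rhoR_nonneg R z
    refine add_nonneg (add_nonneg (mul_nonneg hρ hC₁) (mul_nonneg hρ (le_max_left _ _))) (Finset.sum_nonneg fun i _ => mul_nonneg hρ ?_)
    split_ifs
    · exact le_rfl
    · exact Set.indicator_nonneg (fun _ _ => le_max_left _ _) _
  have hmain : avg R (Eg A D mm m j W Q d K n hF) ≤ ∫ z, (rhoR R z * C₁ + rhoR R z * max 0 (Real.log (lam F z)) +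
      ∑ i, rhoR R z * (if (A.B i).Reg then 0 else ((A.B i).Sm F s).indicator ((A.B i).fT F Q d K n) z)) := by
    by_cases hi : Integrable fun z => rhoR R z * Eg A D mm m j W Q d K n hF z
    · exact integral_mono_ae hi i5 hle
    · unfold avg
      rw [integral_undef hi]
      exact integral_nonneg hnn
  rw [hval] at hmain
  have hsum : ∑ i, ∫ z, rhoR R z * (if (A.B i).Reg then 0 else ((A.B i).Sm F s).indicator ((A.B i).fT F Q d K n) z) ≤
      Fintype.card A.ι * δ * En F R + (∑ i, C i) * Real.log (1 + En F R) + ∑ i, C i := by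
    refine (Finset.sum_le_sum fun i _ => hC i R hR1).trans (le_of_eq ?_)
    rw [Finset.sum_add_distrib, Finset.sum_add_distrib, Finset.sum_const, Finset.card_univ, nsmul_eq_mul, Finset.sum_mul]
    ring
  have h3 := h2 R hR1
  have h4 := le_abs_self C₂
  have hpi := Real.pi_pos
  have h5 : 0 ≤ C₁ * (2 * Real.pi) * Real.log (1 + En F R) := by positivity
  have h6 : 0 ≤ |C₂| * Real.log (1 + En F R) := by positivity
  linarith

end Pool.Agent.MQ
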