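import Pool.Agent.MQ.AsmB
import Pool.Agent.MQ.AsmC
import Pool.Agent.MQ.AsmD

/-!
# MQ Asm: the pack of a curve from the local packages
-/

set_option autoImplicit false

open Topology Filter Metric MvPolynomial Asymptotics MeasureTheory Laplacian

noncomputable section

namespace Pool.Agent.MQ

open Pool.Agent.H36.BP (EN fs)
open Pool.Agent.H17BP (IsChart IsForm)
open Pool.Agent.H17EF (projVar coneE)
open Pool.Agent.H30M (tau avg rhoR LogSing)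

variable {M : ℕ} {P : Ideal (MvPolynomial (Fin (M + 1)) ℂ)} {FF : Set (EN M × EN M)}

/-- **the pack of a curve from the local packages** -/
theorem pack_of_local {A : Atlas P FF} {D : CData A} {mm : A.ι → ℂ × ℂ → ℝ} (hm : Gauge A D mm) {m j : ℕ} (hm1 : 1 ≤ m) {W : EN M → EN M → EN M → ℂ}
    (hW : IsForm (coneE P) m j W) {F : ℂ → EN M} (hF : Crv P FF F) (hR : ∃ z, eval (F z).ofLp D.R ≠ 0)
    (hWF : ∃ z w, Pool.Agent.H17BP.Tan (coneE P) (F z) w ∧ W (F z) (deriv F z) w ≠ 0) {s : ℝ} (hs : 0 < s) (hs' : ∀ i, ¬ (A.B i).Reg → s ≤ (A.B i).r / 8)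
    (hsep : ∀ i, ¬ (A.B i).Reg → ∀ j, j ≠ i → ∀ x ∈ (A.B i).U s, x ∉ (A.B j).U (A.B j).r)
    {Q : MvPolynomial (Fin (M + 1)) ℂ} {d K n : ℕ} (hQ : Q.IsHomogeneous d) (hQF : ∃ z, eval (F z).ofLp Q ≠ 0) (hn : 1 ≤ n) {δ : ℝ} (hδ : 0 < δ)
    (hN : ∀ i, ¬ (A.B i).Reg → LocalN (A.B i) (D.g i) F s δ) (hT : ∀ i, ¬ (A.B i).Reg → LocalT (A.B i) F Q d K n s δ)
    (hlog : ∃ C : ℝ, ∀ R, 1 ≤ R → ∫ z, rhoR R z * max 0 (Real.log (lam F z)) ≤ C) :
    Pack F (lam F) (2 * j / m - 2 * (K * d / n)) (Fintype.card A.ι * δ) := by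
  obtain ⟨C₁, η, err, hC₁, h1, h2, h3, h4, h5, h6⟩ := exists_eta hm hF hR hs hs' hsep hδ hN
  obtain ⟨C₂, hC₂, h7⟩ := Eg_mean hm hm1 hW hF hR hWF hs hs' hQ hQF hδ hT hlog
  have hlen : ∀ R, 0 ≤ Len F R := fun R => integral_nonneg fun z => mul_nonneg (norm_nonneg _) (kk_lam_nonneg F z)
  have hEn : ∀ R, 1 ≤ R → 0 ≤ En F R := fun R hR => integral_nonneg fun z => mul_nonneg (Pool.Agent.H30M.tau_nonneg hR z) (sq_nonneg _)
  refine ⟨C₁ + C₂, Eg A D mm m j W Q d K n hF, η, err, by positivity, fun z => Eg_logSing hm hm1 hW hF hR hWF hQ hQF hn hT z, h1, fun z => ?_, h3,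
    fun z hz => Eg_lap hm hm1 hW hF hR hWF hQ hQF h1 h3 h6 hz, fun R hR => ?_, fun R hR => ?_⟩
  · refine (h2 z).trans ?_
    have : 0 ≤ lam F z := kk_lam_nonneg F z
    nlinarith
  · have := h5 R hR
    have h8 : 0 ≤ Len F R := hlen R
    change _ ≤ _ + (C₁ + C₂) * Len F R + (C₁ + C₂)
    nlinarith
  · have := h7 R hR
    have h9 : 0 ≤ Real.log (1 + En F R) := Real.log_nonneg (by linarith [hEn R hR])
    nlinarith

end Pool.Agent.MQ
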