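import Pool.Agent.MQ.Green
import Pool.Agent.H30M.Calc

/-!
Bridges between `gr`, `ip`, `dv`, `lp` and Mathlib's Laplacian, `gg` of H30M; holomorphic
vector fields; chain rules.
-/

namespace Pool.Agent.MQ

open MeasureTheory Complex Laplacian

open Pool.Agent.H30M (gg)

/-- The scalar product of two gradients. -/
theorem gg_eq_ip (u v : ℂ → ℝ) (z : ℂ) : gg u v z = ip (gr u z) (gr v z) := rfl

theorem gg_self (u : ℂ → ℝ) (z : ℂ) : gg u u z = ‖gr u z‖ ^ 2 := by
  rw [gg_eq_ip, ip_self]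

/-- `lp` is Mathlib's Laplacian at points of class `C²`. -/
theorem lp_eq_lap {u : ℂ → ℝ} {z : ℂ} (hu : ContDiffAt ℝ 2 u z) : lp u z = Δ u z := by
  rw [Pool.Agent.H30M.lap_eq hu]
  have hd : DifferentiableAt ℝ (gr u) z := differentiableAt_gr hu
  unfold lp dv
  have h1 : HasFDerivAt (fun w => fderiv ℝ u w 1) (Complex.reCLM.comp (fderiv ℝ (gr u) z)) z :=
    Complex.reCLM.hasFDerivAt.comp z hd.hasFDerivAt
  have h2 : HasFDerivAt (fun w => fderiv ℝ u w Complex.I)
      (Complex.imCLM.comp (fderiv ℝ (gr u) z)) z :=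
    Complex.imCLM.hasFDerivAt.comp z hd.hasFDerivAt
  rw [h1.fderiv, h2.fderiv]
  rfl

/-- Green with Mathlib's Laplacian: derivatives on the test function. -/
theorem green_lap {g u : ℂ → ℝ} (hg : ContDiff ℝ 2 g) (hc : HasCompactSupport g)
    (hu : ∀ z ∈ tsupport g, ContDiffAt ℝ 1 u z) :
    ∫ z, ip (gr g z) (gr u z) = - ∫ z, u z * Δ g z := by
  rw [green1' hg hc hu]
  congr 1
  apply integral_congr_ae
  filter_upwards with z
  rw [lp_eq_lap hg.contDiffAt]

theorem green_lap' {g u : ℂ → ℝ} (hg : ContDiff ℝ 1 g) (hc : HasCompactSupport g)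
    (hu : ∀ z ∈ tsupport g, ContDiffAt ℝ 2 u z) :
    ∫ z, ip (gr g z) (gr u z) = - ∫ z, g z * Δ u z := by
  rw [green1 hg hc hu]
  congr 1
  apply integral_congr_ae
  filter_upwards with z
  by_cases hz : z ∈ tsupport g
  · rw [lp_eq_lap (hu z hz)]
  · rw [image_eq_zero_of_notMem_tsupport hz]; simp

/-! ### holomorphic vector fields -/

lemma fderiv_holo {G : ℂ → ℂ} {z : ℂ} (hG : DifferentiableAt ℂ G z) (v : ℂ) :
    fderiv ℝ G z v = deriv G z * v := by
  have h := hG.hasDerivAt.hasFDerivAt.restrictScalars ℝ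
  rw [h.fderiv]
  simp [mul_comm]

lemma hasFDerivAt_conj_holo {G : ℂ → ℂ} {z : ℂ} (hG : DifferentiableAt ℂ G z) :
    HasFDerivAt (fun w => (starRingEnd ℂ) (G w))
      ((Complex.conjCLE : ℂ →L[ℝ] ℂ).comp (fderiv ℝ G z)) z :=
  (Complex.conjCLE : ℂ →L[ℝ] ℂ).hasFDerivAt.comp z (hG.restrictScalars ℝ).hasFDerivAt

/-- The real field `conj G` has divergence zero when `G` is holomorphic. -/
theorem dv_conj {G : ℂ → ℂ} {z : ℂ} (hG : DifferentiableAt ℂ G z) :
    dv (fun w => (starRingEnd ℂ) (G w)) z = 0 := by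
  unfold dv
  rw [(hasFDerivAt_conj_holo hG).fderiv]
  simp only [ContinuousLinearMap.coe_comp, Function.comp_apply,
    ContinuousLinearEquiv.coe_coe, Complex.conjCLE_apply]
  rw [fderiv_holo hG, fderiv_holo hG]
  simp

/-- The gradient of the logarithm of the modulus. -/
theorem gr_log_norm {h : ℂ → ℂ} {z : ℂ} (hh : DifferentiableAt ℂ h z) (h0 : h z ≠ 0) :
    gr (fun w => Real.log ‖h w‖) z = (starRingEnd ℂ) (deriv h z / h z) := by
  apply Complex.ext
  · rw [gr_re, Pool.Agent.H30M.fderiv_log_norm hh h0, mul_one, Complex.conj_re]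
  · rw [gr_im, Pool.Agent.H30M.fderiv_log_norm hh h0, Complex.mul_I_re, Complex.conj_im]

theorem gr_re_holo {G : ℂ → ℂ} {z : ℂ} (hG : DifferentiableAt ℂ G z) :
    gr (fun w => (G w).re) z = (starRingEnd ℂ) (deriv G z) := by
  have h : HasFDerivAt (fun w => (G w).re) (Complex.reCLM.comp (fderiv ℝ G z)) z :=
    Complex.reCLM.hasFDerivAt.comp z (hG.restrictScalars ℝ).hasFDerivAt
  rw [h.gr, grL_apply]
  simp only [ContinuousLinearMap.coe_comp, Function.comp_apply]
  rw [fderiv_holo hG, fderiv_holo hG]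
  apply Complex.ext <;> simp

theorem gr_im_holo {G : ℂ → ℂ} {z : ℂ} (hG : DifferentiableAt ℂ G z) :
    gr (fun w => (G w).im) z = Complex.I * (starRingEnd ℂ) (deriv G z) := by
  have h : HasFDerivAt (fun w => (G w).im) (Complex.imCLM.comp (fderiv ℝ G z)) z :=
    Complex.imCLM.hasFDerivAt.comp z (hG.restrictScalars ℝ).hasFDerivAt
  rw [h.gr, grL_apply]
  simp only [ContinuousLinearMap.coe_comp, Function.comp_apply]
  rw [fderiv_holo hG, fderiv_holo hG]
  apply Complex.ext <;> simp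

/-- Composition of a real function of a complex variable with a holomorphic function. -/
theorem gr_comp_holo {ψ : ℂ → ℝ} {G : ℂ → ℂ} {z : ℂ} (hψ : DifferentiableAt ℝ ψ (G z))
    (hG : DifferentiableAt ℂ G z) :
    gr (fun w => ψ (G w)) z = gr ψ (G z) * (starRingEnd ℂ) (deriv G z) := by
  have h : HasFDerivAt (fun w => ψ (G w)) ((fderiv ℝ ψ (G z)).comp (fderiv ℝ G z)) z :=
    hψ.hasFDerivAt.comp z (hG.restrictScalars ℝ).hasFDerivAt
  rw [h.gr, grL_apply]
  simp only [ContinuousLinearMap.coe_comp, Function.comp_apply]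
  rw [fderiv_holo hG, fderiv_holo hG, fderiv_eq_ip, fderiv_eq_ip]
  apply Complex.ext
  · simp [ip, Complex.mul_re]
  · simp [ip, Complex.mul_im]

theorem contDiffAt_conj_holo {G : ℂ → ℂ} {z : ℂ} {n : WithTop ℕ∞} (hG : AnalyticAt ℂ G z) :
    ContDiffAt ℝ n (fun w => (starRingEnd ℂ) (G w)) z :=
  (Complex.conjCLE : ℂ →L[ℝ] ℂ).contDiff.contDiffAt.comp z
    ((hG.contDiffAt (n := n)).restrict_scalars ℝ)

/-- Cauchy: the flux of a holomorphic field against a test function vanishes. -/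
theorem int_conj_holo {g : ℂ → ℝ} {G : ℂ → ℂ} (hg : ContDiff ℝ 1 g) (hc : HasCompactSupport g)
    (hG : ∀ z ∈ tsupport g, AnalyticAt ℂ G z) :
    ∫ z, ip (gr g z) ((starRingEnd ℂ) (G z)) = 0 := by
  rw [ibp hg hc (fun z hz => contDiffAt_conj_holo (hG z hz))]
  have h : (fun z => g z * dv (fun w => (starRingEnd ℂ) (G w)) z) = fun _ => 0 := by
    funext z
    by_cases hz : z ∈ tsupport g
    · rw [dv_conj (hG z hz).differentiableAt, mul_zero]
    · rw [image_eq_zero_of_notMem_tsupport hz, zero_mul]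
  rw [h]; simp

end Pool.Agent.MQ
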