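import Pool.Agent.MQ.VDefs
import Pool.Agent.MQ.FS

/-!
# MQ Fub (V1): the Fubini-Study density along a holomorphic curve
-/

set_option autoImplicit false

open MeasureTheory Topology Filter Metric Laplacian

noncomputable section

namespace Pool.Agent.MQ

open Pool.Agent.H36.BP (EN)

variable {M : ℕ}

theorem gram_nonneg (x v : EN M) : 0 ≤ ‖x‖ ^ 2 * ‖v‖ ^ 2 - ‖inner ℂ x v‖ ^ 2 := by
  have h := norm_inner_le_norm (𝕜 := ℂ) x v
  have h2 : ‖inner ℂ x v‖ ^ 2 ≤ (‖x‖ * ‖v‖) ^ 2 := pow_le_pow_left₀ (norm_nonneg _) h 2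
  nlinarith

theorem fs_sq_eq (x v : EN M) : 2 * Pool.Agent.H36.BP.fs x v ^ 2 = fsd x v := by
  unfold Pool.Agent.H36.BP.fs Pool.Agent.H36.BP.wd fsd
  rw [div_pow, Real.sq_sqrt (gram_nonneg x v)]
  ring

/-- The length of the derivative squared, by the Gram determinant. -/
theorem lam_sq (F : ℂ → EN M) (z : ℂ) : lam F z ^ 2 =
    (‖F z‖ ^ 2 * ‖deriv F z‖ ^ 2 - ‖inner ℂ (F z) (deriv F z)‖ ^ 2) / ‖F z‖ ^ 4 := by
  unfold lam Pool.Agent.H36.BP.fs Pool.Agent.H36.BP.wd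
  rw [div_pow, Real.sq_sqrt (gram_nonneg _ _)]
  ring

theorem lam_nonneg (F : ℂ → EN M) (z : ℂ) : 0 ≤ lam F z := by
  unfold lam Pool.Agent.H36.BP.fs Pool.Agent.H36.BP.wd
  positivity

/-- V1 -/
theorem lap_log_norm {F : ℂ → EN M} {z : ℂ} (hF : AnalyticAt ℂ F z) (h0 : F z ≠ 0) :
    ContDiffAt ℝ 2 (fun w => Real.log ‖F w‖) z ∧ Δ (fun w => Real.log ‖F w‖) z = 2 * lam F z ^ 2 := by
  refine ⟨contDiffAt_log_norm hF h0, ?_⟩
  rw [lap_log_normV hF h0]
  exact (fs_sq_eq _ _).symm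

/-- V1 -/
theorem continuous_lam {F : ℂ → EN M} (hF : Differentiable ℂ F) (h0 : ∀ z, F z ≠ 0) : Continuous (lam F) := by
  have hd : Continuous (deriv F) := (hF.contDiff (n := 1)).continuous_deriv le_rfl
  have hc : Continuous F := hF.continuous
  unfold lam Pool.Agent.H36.BP.fs Pool.Agent.H36.BP.wd
  apply Continuous.div
  · exact Real.continuous_sqrt.comp (((hc.norm.pow 2).mul (hd.norm.pow 2)).sub
      ((Continuous.inner hc hd).norm.pow 2))
  · exact hc.norm.pow 2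
  · intro z
    have := norm_pos_iff.2 (h0 z)
    positivity

end Pool.Agent.MQ
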