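import Pool.Agent.MQ.Be12
import Pool.Agent.MQ.CoordB
import Pool.Agent.MQ.Fub
import Pool.Agent.MQ.Bridge

/-!
# MQ AsmA: the vector field `η` and the error
-/

set_option autoImplicit false

open Topology Filter Metric MvPolynomial Asymptotics MeasureTheory Laplacian

noncomputable section

namespace Pool.Agent.MQ

open Pool.Agent.H36.BP (EN fs)
open Pool.Agent.H17BP (IsChart IsForm Surface)
open Pool.Agent.H17EF (projVar coneE)
open Pool.Agent.H30M (tau avg rhoR LogSing)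

variable {M : ℕ} {P : Ideal (MvPolynomial (Fin (M + 1)) ℂ)} {FF : Set (EN M × EN M)}

namespace Asm

theorem σ_ne (B : GBox P FF) {p : ℂ × ℂ} (hp : p ∈ closedBall (0 : ℂ × ℂ) B.r) : B.σ p ≠ 0 := by
  have h := (B.imm p hp).ne_zero 0
  simpa using h

theorem F_ne {F : ℂ → EN M} (hF : Crv P FF F) (A : Atlas P FF) (z : ℂ) : F z ≠ 0 := by
  obtain ⟨i, p, hp, c, hc, e⟩ := A.cover (F z) (hF.mem z)
  rw [e]
  refine smul_ne_zero hc (σ_ne (A.B i) ?_)
  exact ball_subset_closedBall (ball_subset_ball (by linarith [(A.B i).pos]) hp)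

/-- the covering by the boxes, along the curve -/
theorem exists_box {F : ℂ → EN M} (hF : Crv P FF F) (A : Atlas P FF) (z : ℂ) :
    ∃ i, z ∈ (A.B i).Om F ∧ (A.B i).cc F z ∈ ball (0 : ℂ × ℂ) ((A.B i).r / 4) := by
  obtain ⟨i, p, hp, c, hc, e⟩ := A.cover (F z) (hF.mem z)
  have hp' : p ∈ ball (0 : ℂ × ℂ) (A.B i).r := ball_subset_ball (by linarith [(A.B i).pos]) hp
  refine ⟨i, ⟨p, hp', c, hc, e⟩, ?_⟩
  unfold GBox.cc
  rw [e, crd_smul _ hp' hc]
  exact hp

/-- a point of `Om` with coordinates in the polydisc of radius `s` lies over this polydisc -/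
theorem mem_U_of_cc (B : GBox P FF) {F : ℂ → EN M} {z : ℂ} (hz : z ∈ B.Om F) {s : ℝ} (h : B.cc F z ∈ ball (0 : ℂ × ℂ) s) : F z ∈ B.U s := by
  obtain ⟨p, hp, c, hc, e⟩ := hz
  refine ⟨p, ?_, c, hc, e⟩
  unfold GBox.cc at h
  rwa [e, crd_smul _ hp hc] at h

theorem v_ne_of_cc (B : GBox P FF) {F : ℂ → EN M} (hF : Crv P FF F) {z : ℂ} (hz : z ∈ B.Om F) {s : ℝ} (hs : 0 < s)
    (h : B.cc F z ∉ ball (0 : ℂ × ℂ) s) : B.v (B.cc F z) ≠ 0 := by
  intro h0
  have h1 := (cc_lift B hF.diff hF.mem hz).2.1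
  have h2 := B.zero _ (ball_subset_closedBall h1) h0
  rw [h2] at h
  exact h (mem_ball_self hs)

theorem contDiffAt_cc (B : GBox P FF) {F : ℂ → EN M} (hF : Crv P FF F) {z : ℂ} (hz : z ∈ B.Om F) {n : WithTop ℕ∞} :
    ContDiffAt ℝ n (B.cc F) z :=
  ((cc_lift B hF.diff hF.mem hz).1.contDiffAt (n := n)).restrict_scalars ℝ

theorem contDiffAt_mm_cc {A : Atlas P FF} {D : CData A} {mm : A.ι → ℂ × ℂ → ℝ} (hm : Gauge A D mm) {F : ℂ → EN M} (hF : Crv P FF F) {i : A.ι} {z : ℂ}
    (hz : z ∈ (A.B i).Om F) : ContDiffAt ℝ 2 (fun w => mm i ((A.B i).cc F w)) z := by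
  have h1 := (cc_lift (A.B i) hF.diff hF.mem hz).2.1
  have h2 : ContDiffAt ℝ 2 (mm i) ((A.B i).cc F z) := (hm.smooth i).contDiffAt (isOpen_ball.mem_nhds h1)
  exact h2.comp z (contDiffAt_cc _ hF hz)

/-- bound of the gradient of the gauge -/
theorem norm_gr_mm_le {A : Atlas P FF} {D : CData A} {mm : A.ι → ℂ × ℂ → ℝ} (hm : Gauge A D mm) (i : A.ι) :
    ∃ C : ℝ, 0 ≤ C ∧ ∀ F : ℂ → EN M, Crv P FF F → ∀ z ∈ (A.B i).Om F, (A.B i).cc F z ∈ ball (0 : ℂ × ℂ) ((A.B i).r / 4) →
      ‖gr (fun w => mm i ((A.B i).cc F w)) z‖ ≤ C * lam F z := by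
  have hpos := (A.B i).pos
  have hsub : closedBall (0 : ℂ × ℂ) ((A.B i).r / 4) ⊆ ball 0 (A.B i).r := closedBall_subset_ball (by linarith)
  obtain ⟨K, hK⟩ : ∃ K, ∀ p ∈ closedBall (0 : ℂ × ℂ) ((A.B i).r / 4), ‖fderiv ℝ (mm i) p‖ ≤ K := by
    have hc : ContinuousOn (fun p => fderiv ℝ (mm i) p) (closedBall 0 ((A.B i).r / 4)) := by
      intro p hp
      have h2 : ContDiffAt ℝ 2 (mm i) p := (hm.smooth i).contDiffAt (isOpen_ball.mem_nhds (hsub hp))
      exact (h2.fderiv_right (m := 1) (by norm_num)).continuousAt.continuousWithinAt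
    exact (isCompact_closedBall _ _).exists_bound_of_continuousOn hc
  obtain ⟨C, hC, hl⟩ := lam_cc (A.B i)
  refine ⟨max K 0 * C, by positivity, fun F hF z hz hz4 => ?_⟩
  have h1 := (cc_lift (A.B i) hF.diff hF.mem hz).2.1
  have h2 : ContDiffAt ℝ 2 (mm i) ((A.B i).cc F z) := (hm.smooth i).contDiffAt (isOpen_ball.mem_nhds h1)
  have hd : DifferentiableAt ℂ ((A.B i).cc F) z := (cc_lift (A.B i) hF.diff hF.mem hz).1.differentiableAt
  have h3 : HasFDerivAt (fun w => mm i ((A.B i).cc F w)) ((fderiv ℝ (mm i) ((A.B i).cc F z)).comp (fderiv ℝ ((A.B i).cc F) z)) z :=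
    (h2.differentiableAt (by norm_num)).hasFDerivAt.comp z (hd.restrictScalars ℝ).hasFDerivAt
  rw [norm_gr, h3.fderiv]
  have h4 : ‖fderiv ℝ ((A.B i).cc F) z‖ ≤ ‖deriv ((A.B i).cc F) z‖ := by
    refine ContinuousLinearMap.opNorm_le_bound _ (norm_nonneg _) fun v => ?_
    have := hd.hasDerivAt.hasFDerivAt.restrictScalars ℝ
    rw [this.fderiv]
    simp only [ContinuousLinearMap.coe_restrictScalars', ContinuousLinearMap.toSpanSingleton_apply, norm_smul]
    rw [mul_comm]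
  calc _ ≤ ‖fderiv ℝ (mm i) ((A.B i).cc F z)‖ * ‖fderiv ℝ ((A.B i).cc F) z‖ := ContinuousLinearMap.opNorm_comp_le _ _
    _ ≤ max K 0 * (C * lam F z) := by
        refine mul_le_mul ((hK _ (ball_subset_closedBall hz4)).trans (le_max_left _ _)) (h4.trans (hl F hF.diff hF.mem z hz).1) (norm_nonneg _)
          (le_max_right _ _)
    _ = _ := by ring

/-- the local data of `η`: `0` in the regular boxes, `LocalN` in the singular ones -/
structure EtaL (B : GBox P FF) (g : ℂ × ℂ → ℂ) (F : ℂ → EN M) (s δ : ℝ) (C : ℝ) (η : ℂ → ℂ) (err : ℂ → ℝ) : Prop where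
  nonneg : 0 ≤ C
  diff : ContDiffOn ℝ 1 η (B.Om F)
  cont : ContinuousOn err (B.Om F)
  out : ∀ z ∈ B.Om F, B.cc F z ∉ ball (0 : ℂ × ℂ) s → (¬ B.Reg → η z = (starRingEnd ℂ) (B.DD g F z)) ∧ err z = 0
  reg : B.Reg → ∀ z, η z = 0 ∧ err z = 0
  le : ∀ z ∈ B.Om F, ‖η z‖ ≤ C * lam F z
  err_nonneg : ∀ z ∈ B.Om F, 0 ≤ err z
  dv_nonneg : ∀ z ∈ B.Om F, 0 ≤ dv η z + err z
  int : ∀ R, 1 ≤ R → ∫ z in B.Om F, tau R z * err z ≤ δ * En F R + C * Len F R + C

theorem En_nonneg (F : ℂ → EN M) {R : ℝ} (hR : 1 ≤ R) : 0 ≤ En F R :=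
  integral_nonneg fun z => mul_nonneg (Pool.Agent.H30M.tau_nonneg hR z) (sq_nonneg _)

theorem Len_nonneg (F : ℂ → EN M) (R : ℝ) : 0 ≤ Len F R :=
  integral_nonneg fun z => mul_nonneg (norm_nonneg _) (lam_nonneg F z)

theorem exists_etaL {A : Atlas P FF} {D : CData A} {F : ℂ → EN M} (hF : Crv P FF F) (hR : ∃ z, eval (F z).ofLp D.R ≠ 0) {s : ℝ} (hs : 0 < s)
    {δ : ℝ} (hδ : 0 < δ) (hN : ∀ i, ¬ (A.B i).Reg → LocalN (A.B i) (D.g i) F s δ) (i : A.ι) :
    ∃ C η err, EtaL (A.B i) (D.g i) F s δ C η err := by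
  by_cases hr : (A.B i).Reg
  · refine ⟨0, fun _ => 0, fun _ => 0, le_rfl, contDiffOn_const, continuousOn_const, fun z hz h => ⟨fun h' => absurd hr h', rfl⟩,
      fun _ z => ⟨rfl, rfl⟩, fun z hz => by simp, fun z hz => le_rfl, fun z hz => by simp, fun R hR1 => ?_⟩
    simp only [mul_zero, integral_zero, zero_mul, add_zero]
    exact mul_nonneg hδ.le (En_nonneg F hR1)
  · obtain ⟨C, η, err, hC, h1, h2, h3, h4, h5, h6, h7⟩ := hN i hr
    obtain ⟨C', hC', hl⟩ := lam_cc (A.B i)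
    obtain ⟨C'', hC'', hD⟩ := norm_DD_le (A.B i) (D.an i) (D.inv i) hs
    refine ⟨max C (C * C' + C''), η, err, le_max_of_le_left hC, h1, h2, fun z hz h => ⟨fun _ => (h3 z hz h).1, (h3 z hz h).2⟩,
      fun h => absurd h hr, fun z hz => ?_, h5, h6, fun R hR1 => ?_⟩
    · have hl0 := lam_nonneg F z
      have hle : (C * C' + C'') * lam F z ≤ max C (C * C' + C'') * lam F z := mul_le_mul_of_nonneg_right (le_max_right _ _) hl0
      refine le_trans ?_ hle
      by_cases hin : (A.B i).cc F z ∈ ball (0 : ℂ × ℂ) s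
      · refine (h4 z hz hin).trans ?_
        have := mul_le_mul_of_nonneg_left (hl F hF.diff hF.mem z hz).1 hC
        nlinarith [mul_nonneg hC''.le hl0]
      · rw [(h3 z hz hin).1, RCLike.norm_conj]
        have hv := v_ne_of_cc (A.B i) hF hz hs hin
        refine (hD F hF z hz hin (g_ne hF hR hz hv)).trans ?_
        nlinarith [mul_nonneg (mul_nonneg hC hC'.le) hl0]
    · refine (h7 R hR1).trans ?_
      have hL := Len_nonneg F R
      have : C ≤ max C (C * C' + C'') := le_max_left _ _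
      nlinarith [mul_le_mul_of_nonneg_right this hL]

end Asm

open Asm

/-- **Module AsmA.** -/
theorem exists_eta {A : Atlas P FF} {D : CData A} {mm : A.ι → ℂ × ℂ → ℝ} (hm : Gauge A D mm) {F : ℂ → EN M} (hF : Crv P FF F)
    (hR : ∃ z, eval (F z).ofLp D.R ≠ 0) {s : ℝ} (hs : 0 < s) (hs' : ∀ i, ¬ (A.B i).Reg → s ≤ (A.B i).r / 8)
    (hsep : ∀ i, ¬ (A.B i).Reg → ∀ j, j ≠ i → ∀ x ∈ (A.B i).U s, x ∉ (A.B j).U (A.B j).r) {δ : ℝ} (hδ : 0 < δ)
    (hN : ∀ i, ¬ (A.B i).Reg → LocalN (A.B i) (D.g i) F s δ) :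
    ∃ (C : ℝ) (η : ℂ → ℂ) (err : ℂ → ℝ), 0 ≤ C ∧ ContDiff ℝ 1 η ∧ (∀ z, ‖η z‖ ≤ C * lam F z) ∧ Continuous err ∧ (∀ z, 0 ≤ err z) ∧
      (∀ R, 1 ≤ R → ∫ z, tau R z * err z ≤ Fintype.card A.ι * δ * En F R + C * Len F R + C) ∧
      ∀ i, ∀ z ∈ (A.B i).Om F, dv (gr fun w => mm i ((A.B i).cc F w)) z ≤ dv η z + err z := by
  choose C₁ ηs errs hL using exists_etaL hF hR hs hδ hN
  choose C₂ hC₂ hB₂ using norm_gr_mm_le hm
  choose idx hidx hidx4 using exists_box hF A
  -- the local formula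
  have key : ∀ i, ∀ z ∈ (A.B i).Om F, gr (fun w => mm (idx z) ((A.B (idx z)).cc F w)) z + ηs (idx z) z =
      gr (fun w => mm i ((A.B i).cc F w)) z + ηs i z := by
    intro i z hz
    by_cases hi : i = idx z
    · subst hi; rfl
    by_cases hri : (A.B i).Reg
    · by_cases hrj : (A.B (idx z)).Reg
      · rw [((hL i).reg hri z).1, ((hL (idx z)).reg hrj z).1, beta_reg hm hF hR hri hrj hz (hidx z)]
      · have hout : (A.B (idx z)).cc F z ∉ ball (0 : ℂ × ℂ) s := fun hin =>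
          hsep _ hrj i hi (F z) (mem_U_of_cc _ (hidx z) hin) hz
        have hv := v_ne_of_cc _ hF (hidx z) hs hout
        rw [((hL i).reg hri z).1, ((hL (idx z)).out z (hidx z) hout).1 hrj, beta_sing hm hF hR hri (hidx z) hz hv, add_zero]
    · by_cases hrj : (A.B (idx z)).Reg
      · have hout : (A.B i).cc F z ∉ ball (0 : ℂ × ℂ) s := fun hin =>
          hsep _ hri (idx z) (Ne.symm hi) (F z) (mem_U_of_cc _ hz hin) (hidx z)
        have hv := v_ne_of_cc _ hF hz hs hout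
        rw [((hL (idx z)).reg hrj z).1, ((hL i).out z hz hout).1 hri, beta_sing hm hF hR hrj hz (hidx z) hv, add_zero]
      · exact absurd (hidx z) (A.disj i (idx z) hi hri hrj (F z) hz)
  set η : ℂ → ℂ := fun z => gr (fun w => mm (idx z) ((A.B (idx z)).cc F w)) z + ηs (idx z) z with hη
  set err : ℂ → ℝ := fun z => ∑ i, ((A.B i).Om F).indicator (errs i) z with herr
  have hO : ∀ i, IsOpen ((A.B i).Om F) := fun i => isOpen_Om (A.B i) hF.diff hF.mem
  have hloc : ∀ i, ∀ z ∈ (A.B i).Om F, η =ᶠ[𝓝 z] fun z => gr (fun w => mm i ((A.B i).cc F w)) z + ηs i z := by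
    intro i z hz
    filter_upwards [(hO i).mem_nhds hz] with w hw
    exact key i w hw
  have hind0 : ∀ i z, 0 ≤ ((A.B i).Om F).indicator (errs i) z := by
    intro i z
    refine Set.indicator_nonneg (fun w hw => (hL i).err_nonneg w hw) z
  have hindc : ∀ i, Continuous (((A.B i).Om F).indicator (errs i)) := by
    intro i
    rw [continuous_iff_continuousAt]
    intro z
    by_cases hz : z ∈ (A.B i).Om F
    · have h1 : ((A.B i).Om F).indicator (errs i) =ᶠ[𝓝 z] errs i := by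
        filter_upwards [(hO i).mem_nhds hz] with w hw
        exact Set.indicator_of_mem hw _
      exact ((hL i).cont.continuousAt ((hO i).mem_nhds hz)).congr h1.symm
    · by_cases hri : (A.B i).Reg
      · have h1 : ((A.B i).Om F).indicator (errs i) = fun _ => 0 := by
          funext w
          by_cases hw : w ∈ (A.B i).Om F
          · rw [Set.indicator_of_mem hw, ((hL i).reg hri w).2]
          · rw [Set.indicator_of_notMem hw]
        rw [h1]
        exact continuousAt_const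
      · have hcl := isClosed_cc (A.B i) hF.diff hF.mem (s := s) (lt_of_le_of_lt (hs' i hri) (by linarith [(A.B i).pos]))
        have h1 : ((A.B i).Om F).indicator (errs i) =ᶠ[𝓝 z] fun _ => 0 := by
          filter_upwards [hcl.isOpen_compl.mem_nhds (fun h => hz h.1)] with w hw
          by_cases hw' : w ∈ (A.B i).Om F
          · rw [Set.indicator_of_mem hw']
            refine ((hL i).out w hw' fun h => hw ⟨hw', ball_subset_closedBall h⟩).2
          · rw [Set.indicator_of_notMem hw']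
        exact continuousAt_const.congr h1.symm
  refine ⟨(∑ i, C₁ i) + ∑ i, C₂ i, η, err, ?_, ?_, ?_, ?_, ?_, ?_, ?_⟩
  · exact add_nonneg (Finset.sum_nonneg fun i _ => (hL i).nonneg) (Finset.sum_nonneg fun i _ => hC₂ i)
  · rw [contDiff_iff_contDiffAt]
    intro z
    refine ContDiffAt.congr_of_eventuallyEq ?_ (hloc (idx z) z (hidx z))
    refine (contDiffAt_gr (contDiffAt_mm_cc hm hF (hidx z)) (by norm_num)).add ?_
    exact (hL (idx z)).diff.contDiffAt ((hO (idx z)).mem_nhds (hidx z))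
  · intro z
    have hl0 := lam_nonneg F z
    calc ‖η z‖ ≤ ‖gr (fun w => mm (idx z) ((A.B (idx z)).cc F w)) z‖ + ‖ηs (idx z) z‖ := norm_add_le _ _
      _ ≤ C₂ (idx z) * lam F z + C₁ (idx z) * lam F z := add_le_add (hB₂ _ F hF z (hidx z) (hidx4 z)) ((hL _).le z (hidx z))
      _ ≤ (∑ i, C₂ i) * lam F z + (∑ i, C₁ i) * lam F z := by
          refine add_le_add (mul_le_mul_of_nonneg_right ?_ hl0) (mul_le_mul_of_nonneg_right ?_ hl0)
          · exact Finset.single_le_sum (f := C₂) (fun i _ => hC₂ i) (Finset.mem_univ _)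
          · exact Finset.single_le_sum (f := C₁) (fun i _ => (hL i).nonneg) (Finset.mem_univ _)
      _ = _ := by ring
  · exact continuous_finsetSum _ fun i _ => hindc i
  · exact fun z => Finset.sum_nonneg fun i _ => hind0 i z
  · intro R hR1
    have hint : ∀ i, Integrable fun z => tau R z * ((A.B i).Om F).indicator (errs i) z := fun i =>
      int_mul (Pool.Agent.H30M.contDiff_tau R).continuous (Pool.Agent.H30M.hcs_tau hR1) fun z _ => (hindc i).continuousAt
    have e1 : ∫ z, tau R z * err z = ∑ i, ∫ z, tau R z * ((A.B i).Om F).indicator (errs i) z := by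
      rw [← integral_finsetSum _ fun i _ => hint i]
      congr 1
      funext z
      rw [herr]
      simp only [Finset.mul_sum]
    have e2 : ∀ i, ∫ z, tau R z * ((A.B i).Om F).indicator (errs i) z = ∫ z in (A.B i).Om F, tau R z * errs i z := by
      intro i
      rw [← integral_indicator (hO i).measurableSet]
      congr 1
      funext z
      by_cases hz : z ∈ (A.B i).Om F
      · rw [Set.indicator_of_mem hz, Set.indicator_of_mem hz]
      · rw [Set.indicator_of_notMem hz, Set.indicator_of_notMem hz, mul_zero]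
    rw [e1]
    have hLn := Len_nonneg F R
    have hC2 : 0 ≤ ∑ i, C₂ i := Finset.sum_nonneg fun i _ => hC₂ i
    calc _ ≤ ∑ i, (δ * En F R + C₁ i * Len F R + C₁ i) := Finset.sum_le_sum fun i _ => by rw [e2 i]; exact (hL i).int R hR1
      _ = Fintype.card A.ι * δ * En F R + (∑ i, C₁ i) * Len F R + ∑ i, C₁ i := by
          rw [Finset.sum_add_distrib, Finset.sum_add_distrib, Finset.sum_const, Finset.card_univ, ← Finset.sum_mul, nsmul_eq_mul, mul_assoc]
      _ ≤ _ := by nlinarith [mul_nonneg hC2 hLn]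
  · intro i z hz
    have h1 : dv η z = dv (gr fun w => mm i ((A.B i).cc F w)) z + dv (ηs i) z := by
      rw [dv_congr (hloc i z hz)]
      refine dv_add ?_ ?_
      · exact (contDiffAt_gr (m := 1) (contDiffAt_mm_cc hm hF hz) (by norm_num)).differentiableAt (by norm_num)
      · exact ((hL i).diff.contDiffAt ((hO i).mem_nhds hz)).differentiableAt (by norm_num)
    have h2 : errs i z ≤ err z := by
      have := Finset.single_le_sum (f := fun i => ((A.B i).Om F).indicator (errs i) z) (fun i _ => hind0 i z) (Finset.mem_univ i)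
      simp only [Set.indicator_of_mem hz] at this
      exact this
    have h3 := (hL i).dv_nonneg z hz
    rw [h1]
    linarith

end Pool.Agent.MQ
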