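import Pool.Agent.MQ.AsmB0

/-!
# MQ AsmB1: the local form of the function `E` in a box
-/

set_option autoImplicit false

open Topology Filter Metric MvPolynomial Asymptotics MeasureTheory Laplacian

noncomputable section

namespace Pool.Agent.MQ

open Pool.Agent.H36.BP (EN fs)
open Pool.Agent.H17BP (IsChart IsForm Surface)
open Pool.Agent.H17EF (projVar coneE eval_smul_form)
open Pool.Agent.H30M (tau avg rhoR LogSing)

variable {M : ℕ} {P : Ideal (MvPolynomial (Fin (M + 1)) ℂ)} {FF : Set (EN M × EN M)}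

namespace GBox

variable (B : GBox P FF)

/-- the value of the form `Q` at the point of the chart -/
def qc (Q : MvPolynomial (Fin (M + 1)) ℂ) (F : ℂ → EN M) (z : ℂ) : ℂ := eval (B.σ (B.cc F z)).ofLp Q

theorem analyticAt_qc {F : ℂ → EN M} {z₀ : ℂ} (hcc : AnalyticAt ℂ (B.cc F) z₀) (hmem : B.cc F z₀ ∈ ball (0 : ℂ × ℂ) B.r)
    (Q : MvPolynomial (Fin (M + 1)) ℂ) : AnalyticAt ℂ (B.qc Q F) z₀ :=
  analyticAt_evalE (γ := fun z => B.σ (B.cc F z)) (AnalyticAt.comp (g := B.σ) (f := B.cc F) (B.σ_an _ (ball_subset_closedBall hmem)) hcc) Q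

theorem sigma_ne {p : ℂ × ℂ} (hp : p ∈ closedBall (0 : ℂ × ℂ) B.r) : B.σ p ≠ 0 := by
  have := (B.imm p hp).ne_zero 0
  simpa using this

/-- `log ‖Q (F)‖ - d log ‖F‖` through the chart -/
theorem log_Q_eq {F : ℂ → EN M} {z : ℂ} {c : ℂ} (hc : c ≠ 0) (hF : F z = c • B.σ (B.cc F z)) (hmem : B.cc F z ∈ ball (0 : ℂ × ℂ) B.r)
    {Q : MvPolynomial (Fin (M + 1)) ℂ} {d : ℕ} (hQ : Q.IsHomogeneous d) (hq : B.qc Q F z ≠ 0) :
    Real.log ‖eval (F z).ofLp Q‖ - d * Real.log ‖F z‖ = Real.log ‖B.qc Q F z‖ - d * Real.log ‖B.σ (B.cc F z)‖ := by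
  have h1 : eval (F z).ofLp Q = c ^ d * B.qc Q F z := by
    conv_lhs => rw [hF]
    rw [eval_smulE hQ]
    rfl
  have h2 : ‖F z‖ = ‖c‖ * ‖B.σ (B.cc F z)‖ := by
    conv_lhs => rw [hF]
    rw [norm_smul]
  have h3 : ‖B.σ (B.cc F z)‖ ≠ 0 := norm_ne_zero_iff.2 (B.sigma_ne (ball_subset_closedBall hmem))
  have h4 : ‖c‖ ≠ 0 := norm_ne_zero_iff.2 hc
  rw [h1, h2, norm_mul, norm_pow, Real.log_mul (pow_ne_zero _ h4) (norm_ne_zero_iff.2 hq), Real.log_mul h4 h3, Real.log_pow]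
  ring

/-- `Q (F) ≠ 0` iff the value in the chart is not zero -/
theorem qc_ne_iff {F : ℂ → EN M} {z : ℂ} {c : ℂ} (hc : c ≠ 0) (hF : F z = c • B.σ (B.cc F z)) 
    {Q : MvPolynomial (Fin (M + 1)) ℂ} {d : ℕ} (hQ : Q.IsHomogeneous d) : B.qc Q F z ≠ 0 ↔ eval (F z).ofLp Q ≠ 0 := by
  have h1 : eval (F z).ofLp Q = c ^ d * B.qc Q F z := by
    conv_lhs => rw [hF]
    rw [eval_smulE hQ]
    rfl
  rw [h1]
  simp [hc]

/-- the existence of the analytic function `h = ζ'^n q^K` near every point -/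
theorem exists_h {F : ℂ → EN M} {z₀ : ℂ} (hz : z₀ ∈ B.Om F) (hcc : AnalyticAt ℂ (B.cc F) z₀) (hmem : B.cc F z₀ ∈ ball (0 : ℂ × ℂ) B.r)
    (hd : ∀ᶠ z in 𝓝 z₀, B.v (B.cc F z) ≠ 0 → deriv (B.cc F) z = B.zt F z • B.v (B.cc F z))
    {Q : MvPolynomial (Fin (M + 1)) ℂ} {K n : ℕ}
    (hT : ¬ B.Reg → ∀ z₀ ∈ B.Om F, B.cc F z₀ = 0 → ∃ h : ℂ → ℂ, AnalyticAt ℂ h z₀ ∧
      ∀ᶠ z in 𝓝[≠] z₀, h z = B.zt F z ^ n * eval (B.σ (B.cc F z)).ofLp Q ^ K) :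
    ∃ h : ℂ → ℂ, AnalyticAt ℂ h z₀ ∧ ∀ᶠ z in 𝓝[≠] z₀, h z = B.zt F z ^ n * B.qc Q F z ^ K := by
  by_cases hv : B.v (B.cc F z₀) = 0
  · have h0 := B.zero _ (ball_subset_closedBall hmem) hv
    have hr : ¬ B.Reg := by
      intro hr
      rw [hr] at hv
      simpa using congrArg Prod.snd hv
    exact hT hr z₀ hz h0
  · exact ⟨fun z => B.zt F z ^ n * B.qc Q F z ^ K, ((B.analyticAt_zt hcc hmem hd hv).pow n).mul ((B.analyticAt_qc hcc hmem Q).pow K),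
      Eventually.of_forall fun _ => rfl⟩

/-- the smooth part of `E` -/
def sm (m j d K n : ℕ) (mm : ℂ × ℂ → ℝ) (F : ℂ → EN M) (z : ℂ) : ℝ :=
  ((j : ℝ) / m - K * d / n) * Real.log ‖B.σ (B.cc F z)‖ - mm (B.cc F z)

theorem contDiffAt_mm {F : ℂ → EN M} {z₀ : ℂ} (hcc : AnalyticAt ℂ (B.cc F) z₀) (hmem : B.cc F z₀ ∈ ball (0 : ℂ × ℂ) B.r)
    {mm : ℂ × ℂ → ℝ} (hm : ContDiffOn ℝ 2 mm (ball 0 B.r)) : ContDiffAt ℝ 2 (fun z => mm (B.cc F z)) z₀ :=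
  ContDiffAt.comp (g := mm) z₀ (hm.contDiffAt (isOpen_ball.mem_nhds hmem)) ((hcc.contDiffAt (n := 2)).restrict_scalars ℝ)

theorem contDiffAt_log_sigma {F : ℂ → EN M} {z₀ : ℂ} (hcc : AnalyticAt ℂ (B.cc F) z₀) (hmem : B.cc F z₀ ∈ ball (0 : ℂ × ℂ) B.r) :
    ContDiffAt ℝ 2 (fun z => Real.log ‖B.σ (B.cc F z)‖) z₀ :=
  contDiffAt_log_normE (γ := fun z => B.σ (B.cc F z)) (AnalyticAt.comp (g := B.σ) (f := B.cc F) (B.σ_an _ (ball_subset_closedBall hmem)) hcc)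
    (B.sigma_ne (ball_subset_closedBall hmem))

theorem contDiffAt_sm {F : ℂ → EN M} {z₀ : ℂ} (hcc : AnalyticAt ℂ (B.cc F) z₀) (hmem : B.cc F z₀ ∈ ball (0 : ℂ × ℂ) B.r)
    {mm : ℂ × ℂ → ℝ} (hm : ContDiffOn ℝ 2 mm (ball 0 B.r)) (m j d K n : ℕ) : ContDiffAt ℝ 2 (B.sm m j d K n mm F) z₀ :=
  (contDiffAt_const.mul (B.contDiffAt_log_sigma hcc hmem)).sub (B.contDiffAt_mm hcc hmem hm)

end GBox

/-- an analytic function which is not `0` at some points near `z₀` has finite order -/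
theorem order_ne_top_of_ne {g : ℂ → ℂ} {z₀ : ℂ} (h : ∀ᶠ z in 𝓝[≠] z₀, g z ≠ 0) : analyticOrderAt g z₀ ≠ ⊤ := by
  intro ht
  rw [analyticOrderAt_eq_top] at ht
  have h1 := (ht.filter_mono (nhdsWithin_le_nhds (s := {z₀}ᶜ))).and h
  obtain ⟨z, hz⟩ := h1.exists
  exact hz.2 hz.1

end Pool.Agent.MQ
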