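import Pool.Agent.MQ.AsmDefs
import Pool.Agent.MQ.AsmB1

/-!
# MQ AsmB: the function `Eg` near a point, and its logarithmic singularities
-/

set_option autoImplicit false

open Topology Filter Metric MvPolynomial Asymptotics MeasureTheory Laplacian

noncomputable section

namespace Pool.Agent.MQ

open Pool.Agent.H36.BP (EN fs)
open Pool.Agent.H17BP (IsChart IsForm)
open Pool.Agent.H17EF (projVar coneE)
open Pool.Agent.H30M (tau avg rhoR LogSing)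

variable {M : ℕ} {P : Ideal (MvPolynomial (Fin (M + 1)) ℂ)} {FF : Set (EN M × EN M)}

/-- AsmB: the function `Eg` near a point of the box `i` -/
theorem Eg_eq {A : Atlas P FF} {D : CData A} {mm : A.ι → ℂ × ℂ → ℝ} (hm : Gauge A D mm) {m j : ℕ} (hm1 : 1 ≤ m) {W : EN M → EN M → EN M → ℂ}
    (hW : IsForm (coneE P) m j W) {F : ℂ → EN M} (hF : Crv P FF F) (hR : ∃ z, eval (F z).ofLp D.R ≠ 0)
    (hWF : ∃ z w, Pool.Agent.H17BP.Tan (coneE P) (F z) w ∧ W (F z) (deriv F z) w ≠ 0)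
    (Q : MvPolynomial (Fin (M + 1)) ℂ) (d K n : ℕ) {i : A.ι} {z : ℂ} (hz : z ∈ (A.B i).Om F) :
    ∀ᶠ w in 𝓝[≠] z, Eg A D mm m j W Q d K n hF w = EB A D mm m j W Q d K n F i w := by
  filter_upwards [ne_near (D := D) hm1 hW hF hR hWF hz] with w hw
  obtain ⟨h1, h2, h3, h4, h5, h6⟩ := hw
  have e := EE_eq hm hm1 hW hF h1 (idx_Om A hF w) h2 h3 h5 h6
  unfold Eg EB
  rw [e]

/-- the local form of `Eg`: `h = ζ'^n q^K` -/
theorem Eg_local {A : Atlas P FF} (D : CData A) (mm : A.ι → ℂ × ℂ → ℝ) {m j : ℕ} (hm1 : 1 ≤ m) {W : EN M → EN M → EN M → ℂ}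
    (hW : IsForm (coneE P) m j W) {F : ℂ → EN M} (hF : Crv P FF F) (hR : ∃ z, eval (F z).ofLp D.R ≠ 0)
    (hWF : ∃ z w, Pool.Agent.H17BP.Tan (coneE P) (F z) w ∧ W (F z) (deriv F z) w ≠ 0)
    {Q : MvPolynomial (Fin (M + 1)) ℂ} {d K n : ℕ} (hQ : Q.IsHomogeneous d) (hQF : ∃ z, eval (F z).ofLp Q ≠ 0) (hn : 1 ≤ n)
    {i : A.ι} {z₀ : ℂ} (hz : z₀ ∈ (A.B i).Om F)
    (hT : ¬ (A.B i).Reg → ∀ z₀ ∈ (A.B i).Om F, (A.B i).cc F z₀ = 0 → ∃ h : ℂ → ℂ, AnalyticAt ℂ h z₀ ∧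
      ∀ᶠ z in 𝓝[≠] z₀, h z = (A.B i).zt F z ^ n * eval ((A.B i).σ ((A.B i).cc F z)).ofLp Q ^ K) :
    ∃ h : ℂ → ℂ, AnalyticAt ℂ h z₀ ∧ analyticOrderAt h z₀ ≠ ⊤ ∧
      AnalyticAt ℂ (fun w => GBox.W (A.B i) W ((A.B i).cc F w)) z₀ ∧ analyticOrderAt (fun w => GBox.W (A.B i) W ((A.B i).cc F w)) z₀ ≠ ⊤ ∧
      AnalyticAt ℂ (fun w => D.g i ((A.B i).cc F w)) z₀ ∧ analyticOrderAt (fun w => D.g i ((A.B i).cc F w)) z₀ ≠ ⊤ ∧
      ∀ᶠ w in 𝓝[≠] z₀, EB A D mm m j W Q d K n F i w = (1 / n : ℝ) * Real.log ‖h w‖ + (1 / m : ℝ) * Real.log ‖GBox.W (A.B i) W ((A.B i).cc F w)‖ +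
        Real.log ‖D.g i ((A.B i).cc F w)‖ + (A.B i).sm m j d K n (mm i) F w := by
  set B := A.B i with hB
  obtain ⟨hcc, hmem, c, hc, hc0, hFc⟩ := cc_lift B hF.diff hF.mem hz
  have hOm : ∀ᶠ z in 𝓝 z₀, z ∈ B.Om F := (isOpen_Om B hF.diff hF.mem).mem_nhds hz
  have hd : ∀ᶠ z in 𝓝 z₀, B.v (B.cc F z) ≠ 0 → deriv (B.cc F) z = B.zt F z • B.v (B.cc F z) := by
    filter_upwards [hOm] with z hz
    exact (deriv_cc B hF hz).2
  obtain ⟨h, hh, hhe⟩ := B.exists_h hz hcc hmem hd hT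
  have hne := ne_near (D := D) hm1 hW hF hR hWF hz
  have hmemn : ∀ᶠ z in 𝓝 z₀, B.cc F z ∈ ball (0 : ℂ × ℂ) B.r := hcc.continuousAt.eventually (isOpen_ball.mem_nhds hmem)
  have hcn : ∀ᶠ z in 𝓝 z₀, c z ≠ 0 := hc.continuousAt.eventually_ne hc0
  -- `Q (F) ≠ 0` near `z₀`
  have hQn : ∀ᶠ z in 𝓝[≠] z₀, eval (F z).ofLp Q ≠ 0 := by
    have hA : AnalyticOnNhd ℂ (fun z => eval (F z).ofLp Q) Set.univ := fun z _ => analyticAt_evalE (hF.diff.analyticAt z) Q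
    rcases (hA z₀ (Set.mem_univ _)).eventually_eq_zero_or_eventually_ne_zero with h0 | h0
    · obtain ⟨w, hw⟩ := hQF
      exact absurd (hA.eqOn_zero_of_preconnected_of_eventuallyEq_zero isPreconnected_univ (Set.mem_univ z₀) h0 (Set.mem_univ w)) hw
    · exact h0
  have hqn : ∀ᶠ z in 𝓝[≠] z₀, B.qc Q F z ≠ 0 := by
    filter_upwards [hQn, hFc.filter_mono nhdsWithin_le_nhds, hcn.filter_mono nhdsWithin_le_nhds] with z h1 h2 h3
    exact (B.qc_ne_iff h3 h2 hQ).2 h1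
  have hWa : AnalyticAt ℂ (fun w => GBox.W B W (B.cc F w)) z₀ := AnalyticAt.comp (g := GBox.W B W) (f := B.cc F) (B.analyticAt_W0 hW hmem) hcc
  have hga : AnalyticAt ℂ (fun w => D.g i (B.cc F w)) z₀ := AnalyticAt.comp (g := D.g i) (f := B.cc F) (D.analyticAt_g i hmem) hcc
  refine ⟨h, hh, ?_, hWa, ?_, hga, ?_, ?_⟩
  · apply order_ne_top_of_ne
    filter_upwards [hne, hhe, hqn] with w h1 h2 h3
    rw [h2]
    exact mul_ne_zero (pow_ne_zero _ h1.2.2.2.1) (pow_ne_zero _ h3)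
  · apply order_ne_top_of_ne
    filter_upwards [hne] with w h1
    exact h1.2.2.2.2.1
  · apply order_ne_top_of_ne
    filter_upwards [hne] with w h1
    exact h1.2.2.2.2.2
  · filter_upwards [hne, hhe, hqn, hFc.filter_mono nhdsWithin_le_nhds, hcn.filter_mono nhdsWithin_le_nhds,
      hmemn.filter_mono nhdsWithin_le_nhds] with w h1 h2 h3 h4 h5 h6
    have e1 := B.log_Q_eq h5 h4 h6 hQ h3
    have hn0 : (n : ℝ) ≠ 0 := by positivity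
    have e2 : Real.log ‖h w‖ = n * Real.log ‖B.zt F w‖ + K * Real.log ‖B.qc Q F w‖ := by
      rw [h2, norm_mul, norm_pow, norm_pow, Real.log_mul (pow_ne_zero _ (norm_ne_zero_iff.2 h1.2.2.2.1)) (pow_ne_zero _ (norm_ne_zero_iff.2 h3)),
        Real.log_pow, Real.log_pow]
    unfold EB EE
    rw [e1, e2]
    unfold GBox.sm
    rw [← hB]
    field_simp
    ring

/-- AsmB: `Eg` has logarithmic singularities with coefficients `≥ 0` -/
theorem Eg_logSing {A : Atlas P FF} {D : CData A} {mm : A.ι → ℂ × ℂ → ℝ} (hm : Gauge A D mm) {m j : ℕ} (hm1 : 1 ≤ m) {W : EN M → EN M → EN M → ℂ}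
    (hW : IsForm (coneE P) m j W) {F : ℂ → EN M} (hF : Crv P FF F) (hR : ∃ z, eval (F z).ofLp D.R ≠ 0)
    (hWF : ∃ z w, Pool.Agent.H17BP.Tan (coneE P) (F z) w ∧ W (F z) (deriv F z) w ≠ 0)
    {Q : MvPolynomial (Fin (M + 1)) ℂ} {d K n : ℕ} (hQ : Q.IsHomogeneous d) (hQF : ∃ z, eval (F z).ofLp Q ≠ 0) (hn : 1 ≤ n) {s δ : ℝ}
    (hT : ∀ i, ¬ (A.B i).Reg → LocalT (A.B i) F Q d K n s δ) (z : ℂ) :
    ∃ c, 0 ≤ c ∧ LogSing (Eg A D mm m j W Q d K n hF) c z := by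
  have hz := idx_Om A hF z
  set i := idx A hF z with hi
  obtain ⟨h, hh, ho, hWa, hWo, hga, hgo, he⟩ := Eg_local D mm hm1 hW hF hR hWF hQ hQF hn hz fun hr => (hT i hr).1
  obtain ⟨hcc, hmem, -⟩ := cc_lift (A.B i) hF.diff hF.mem hz
  have h1 := (LogSing.log_norm hh ho).const_mul (1 / n : ℝ)
  have h2 := (LogSing.log_norm hWa hWo).const_mul (1 / m : ℝ)
  have h3 := LogSing.log_norm hga hgo
  have h4 := LogSing.of_contDiffAt ((A.B i).contDiffAt_sm hcc hmem (hm.smooth i) m j d K n)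
  have h5 := ((h1.add h2).add h3).add h4
  refine ⟨_, ?_, h5.congr ?_⟩
  · positivity
  · filter_upwards [Eg_eq hm hm1 hW hF hR hWF Q d K n hz, he] with w hw hw'
    rw [hw, hw']

end Pool.Agent.MQ
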