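import Pool.Agent.MQ.GeoDefs
import Pool.Agent.H17EF.Alg

/-!
# MQ AsmB0: regularity of the local functions of a box along a curve
-/

set_option autoImplicit false

open Topology Filter Metric MvPolynomial Asymptotics MeasureTheory Laplacian

noncomputable section

namespace Pool.Agent.MQ

open Pool.Agent.H36.BP (EN fs)
open Pool.Agent.H17BP (IsChart IsForm Surface)
open Pool.Agent.H17EF (projVar coneE eval_smul_form)
open Pool.Agent.H30M (tau avg rhoR LogSing)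

variable {M : ℕ} {P : Ideal (MvPolynomial (Fin (M + 1)) ℂ)} {FF : Set (EN M × EN M)}

/-- evaluation of a form at an analytic map -/
theorem analyticAt_evalE {E : Type} [NormedAddCommGroup E] [NormedSpace ℂ E] {γ : E → EN M} {z₀ : E} (h : AnalyticAt ℂ γ z₀)
    (Q : MvPolynomial (Fin (M + 1)) ℂ) : AnalyticAt ℂ (fun z => eval (γ z).ofLp Q) z₀ := by
  have h1 : ∀ i, AnalyticAt ℂ (fun z => (γ z).ofLp i) z₀ := fun i =>
    ((EuclideanSpace.proj i : EN M →L[ℂ] ℂ).analyticAt (γ z₀)).comp h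
  refine (AnalyticAt.aeval_mvPolynomial h1 Q).congr (Eventually.of_forall fun y => ?_)
  exact congrArg (fun f : MvPolynomial (Fin (M + 1)) ℂ →+* ℂ => f Q) (MvPolynomial.coe_aeval_eq_eval (γ y).ofLp)

theorem eval_smulE {Q : MvPolynomial (Fin (M + 1)) ℂ} {d : ℕ} (hQ : Q.IsHomogeneous d) (c : ℂ) (x : EN M) :
    eval (c • x).ofLp Q = c ^ d * eval x.ofLp Q := by
  rw [← eval_smul_form hQ]
  rfl

/-- the logarithm of the norm of an analytic map into `EN M` is of class `C²` -/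
theorem contDiffAt_log_normE {γ : ℂ → EN M} {z : ℂ} (h : AnalyticAt ℂ γ z) (h0 : γ z ≠ 0) :
    ContDiffAt ℝ 2 (fun w => Real.log ‖γ w‖) z := by
  have h1 : ContDiffAt ℝ 2 γ z := (h.contDiffAt (n := 2)).restrict_scalars ℝ
  exact ContDiffAt.log (h1.norm ℂ h0) (norm_ne_zero_iff.2 h0)

namespace GBox

variable (B : GBox P FF)

theorem mem_Om_iff {F : ℂ → EN M} {z : ℂ} : z ∈ B.Om F ↔ ∃ p ∈ ball (0 : ℂ × ℂ) B.r, ∃ c : ℂ, c ≠ 0 ∧ F z = c • B.σ p := Iff.rfl

/-- `zt` is given by the first quotient where `v.1 ≠ 0` -/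
theorem zt_eq_fst {F : ℂ → EN M} {z : ℂ} (h : deriv (B.cc F) z = B.zt F z • B.v (B.cc F z)) (h1 : (B.v (B.cc F z)).1 ≠ 0) :
    B.zt F z = (deriv (B.cc F) z).1 / (B.v (B.cc F z)).1 := by
  rw [eq_div_iff h1, h]
  simp

theorem zt_eq_snd {F : ℂ → EN M} {z : ℂ} (h1 : (B.v (B.cc F z)).2 ≠ 0) :
    B.zt F z = (deriv (B.cc F) z).2 / (B.v (B.cc F z)).2 := by
  unfold GBox.zt
  rw [if_neg h1]

/-- `ζ'` is analytic where `v ≠ 0` -/
theorem analyticAt_zt {F : ℂ → EN M} {z₀ : ℂ} (hcc : AnalyticAt ℂ (B.cc F) z₀) (hmem : B.cc F z₀ ∈ ball (0 : ℂ × ℂ) B.r)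
    (hd : ∀ᶠ z in 𝓝 z₀, B.v (B.cc F z) ≠ 0 → deriv (B.cc F) z = B.zt F z • B.v (B.cc F z)) (hv : B.v (B.cc F z₀) ≠ 0) :
    AnalyticAt ℂ (B.zt F) z₀ := by
  have hva : AnalyticAt ℂ (fun z => B.v (B.cc F z)) z₀ := (B.v_an _ (ball_subset_closedBall hmem)).comp hcc
  have h1 : AnalyticAt ℂ (fun z => (B.v (B.cc F z)).1) z₀ := ((ContinuousLinearMap.fst ℂ ℂ ℂ).analyticAt _).comp hva
  have h2 : AnalyticAt ℂ (fun z => (B.v (B.cc F z)).2) z₀ := ((ContinuousLinearMap.snd ℂ ℂ ℂ).analyticAt _).comp hva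
  have hda : AnalyticAt ℂ (deriv (B.cc F)) z₀ := hcc.deriv
  have h3 : AnalyticAt ℂ (fun z => (deriv (B.cc F) z).1) z₀ := ((ContinuousLinearMap.fst ℂ ℂ ℂ).analyticAt _).comp hda
  have h4 : AnalyticAt ℂ (fun z => (deriv (B.cc F) z).2) z₀ := ((ContinuousLinearMap.snd ℂ ℂ ℂ).analyticAt _).comp hda
  by_cases h : (B.v (B.cc F z₀)).2 = 0
  · have h0 : (B.v (B.cc F z₀)).1 ≠ 0 := fun h' => hv (Prod.ext h' h)
    refine (h3.div h1 h0).congr ?_
    filter_upwards [hd, h1.continuousAt.eventually_ne h0] with z hz hz1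
    exact (B.zt_eq_fst (hz fun h' => hz1 (by rw [h']; rfl)) hz1).symm
  · refine (h4.div h2 h).congr ?_
    filter_upwards [h2.continuousAt.eventually_ne h] with z hz
    exact (B.zt_eq_snd hz).symm

/-- `W` is analytic in the box -/
theorem analyticAt_W0 {m j : ℕ} {W : EN M → EN M → EN M → ℂ} (hW : IsForm (coneE P) m j W) {p : ℂ × ℂ} (hp : p ∈ ball (0 : ℂ × ℂ) B.r) :
    AnalyticAt ℂ (fun q => W (B.σ q) (fderiv ℂ B.σ q (1, 0)) (fderiv ℂ B.σ q (0, 1))) p := by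
  refine hW.analytic B.σ p (B.σ_an p (ball_subset_closedBall hp)) ?_
  filter_upwards [isOpen_ball.mem_nhds hp] with q hq
  exact B.mem q (ball_subset_closedBall hq)

end GBox

/-- the local equations are analytic -/
theorem SingBox.analyticAt {B : GBox P FF} {g : ℂ × ℂ → ℂ} (h : SingBox B g) (p : ℂ × ℂ) : AnalyticAt ℂ g p := by
  have e1 : ∀ {k : ℂ × ℂ → ℂ}, (∀ p, k p = p.1) → AnalyticAt ℂ k p := by
    intro k hk
    rw [_root_.funext hk]
    exact analyticAt_fst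
  have e2 : ∀ {k : ℂ × ℂ → ℂ}, (∀ p, k p = p.2) → AnalyticAt ℂ k p := by
    intro k hk
    rw [_root_.funext hk]
    exact analyticAt_snd
  have e3 : ∀ {k : ℂ × ℂ → ℂ}, (∀ p, k p = 1) → AnalyticAt ℂ k p := by
    intro k hk
    rw [_root_.funext hk]
    exact analyticAt_const
  cases h with
  | node a b g₁ g₂ ha hb ha0 hb0 hq h hg h₁ h₂ =>
    rw [_root_.funext hg]
    refine AnalyticAt.mul ?_ ?_
    · rcases h₁ with h₁ | h₁
      · exact e1 h₁
      · exact e3 h₁.1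
    · rcases h₂ with h₂ | h₂
      · exact e2 h₂
      · exact e3 h₂.1
  | saddleNode k hk a b g₁ ha hb ha0 hb0 h hg h₁ =>
    rw [_root_.funext hg]
    refine AnalyticAt.mul ?_ analyticAt_snd
    rcases h₁ with h₁ | h₁
    · exact e1 h₁
    · exact e3 h₁.1
  | formal k hk a b ha hb ha0 hb0 h c hc hJ hR hg =>
    rcases hg with hg | hg
    · exact e1 hg
    · exact e3 hg.1

theorem CData.analyticAt_g {A : Atlas P FF} (D : CData A) (i : A.ι) {p : ℂ × ℂ} (hp : p ∈ ball (0 : ℂ × ℂ) (A.B i).r) :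
    AnalyticAt ℂ (D.g i) p := D.an i p (ball_subset_closedBall hp)

end Pool.Agent.MQ
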