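import Pool.Agent.MQ.AsmB1

/-!
# MQ AsmD1: integrability of the local term of `LocalT`
-/

set_option autoImplicit false

open Topology Filter Metric MvPolynomial Asymptotics MeasureTheory Laplacian

noncomputable section

namespace Pool.Agent.MQ

open Pool.Agent.H36.BP (EN fs)
open Pool.Agent.H17BP (IsChart IsForm)
open Pool.Agent.H17EF (projVar coneE)
open Pool.Agent.H30M (tau avg rhoR LogSing rhoR_nonneg continuous_rhoR hcs_rhoR)

variable {M : ℕ} {P : Ideal (MvPolynomial (Fin (M + 1)) ℂ)} {FF : Set (EN M × EN M)}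

open Classical in
/-- the cut-off `1` on the polydisc of radius `s`, `0` outside the polydisc of radius `s'` -/
def GBox.cut (B : GBox P FF) (F : ℂ → EN M) (s s' : ℝ) (z : ℂ) : ℝ :=
  if z ∈ B.Om F then max 0 (min 1 ((s' - ‖B.cc F z‖) / (s' - s))) else 0

section

variable (B : GBox P FF) {F : ℂ → EN M} {s s' : ℝ}

theorem GBox.cut_nonneg (z : ℂ) : 0 ≤ B.cut F s s' z := by
  unfold GBox.cut
  split_ifs
  · exact le_max_left _ _
  · exact le_rfl

theorem GBox.cut_eq_one (hs : s < s') {z : ℂ} (hz : z ∈ B.Om F) (h : B.cc F z ∈ ball (0 : ℂ × ℂ) s) : B.cut F s s' z = 1 := by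
  unfold GBox.cut
  rw [if_pos hz]
  rw [mem_ball_zero_iff] at h
  have h1 : 1 ≤ (s' - ‖B.cc F z‖) / (s' - s) := by
    rw [le_div_iff₀ (by linarith)]
    linarith
  rw [min_eq_left h1]
  exact max_eq_right zero_le_one

theorem GBox.cut_eq_zero (hs : s < s') {z : ℂ} (h : ¬ (z ∈ B.Om F ∧ B.cc F z ∈ closedBall (0 : ℂ × ℂ) s')) : B.cut F s s' z = 0 := by
  unfold GBox.cut
  split_ifs with hz
  · have h1 : s' < ‖B.cc F z‖ := by
      by_contra hcon
      exact h ⟨hz, by rw [mem_closedBall_zero_iff]; exact not_lt.1 hcon⟩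
    have h2 : (s' - ‖B.cc F z‖) / (s' - s) ≤ 0 := div_nonpos_of_nonpos_of_nonneg (by linarith) (by linarith)
    exact max_eq_left ((min_le_right _ _).trans h2)
  · rfl

theorem GBox.continuous_cut (hs : s < s') (hO : IsOpen (B.Om F)) (hcc : ContinuousOn (B.cc F) (B.Om F))
    (hcl : IsClosed {z | z ∈ B.Om F ∧ B.cc F z ∈ closedBall (0 : ℂ × ℂ) s'}) : Continuous (B.cut F s s') := by
  rw [continuous_iff_continuousAt]
  intro z
  by_cases hz : z ∈ B.Om F
  · have h1 : ContinuousAt (fun w => max 0 (min 1 ((s' - ‖B.cc F w‖) / (s' - s)))) z := by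
      have := (hcc z hz).continuousAt (hO.mem_nhds hz)
      exact continuousAt_const.max (continuousAt_const.min ((continuousAt_const.sub this.norm).div_const _))
    refine h1.congr ?_
    filter_upwards [hO.mem_nhds hz] with w hw
    unfold GBox.cut
    rw [if_pos hw]
  · have h1 : (B.cut F s s') =ᶠ[𝓝 z] fun _ => 0 := by
      filter_upwards [hcl.isOpen_compl.mem_nhds fun h => hz h.1] with w hw
      exact B.cut_eq_zero hs hw
    exact continuousAt_const.congr h1.symm

/-- the integrability of the term in `LocalT` -/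
theorem GBox.integrableOn_max (hs : s < s') (hO : IsOpen (B.Om F)) (hcc : ContinuousOn (B.cc F) (B.Om F))
    (hcl : IsClosed {z | z ∈ B.Om F ∧ B.cc F z ∈ closedBall (0 : ℂ × ℂ) s'}) {u : ℂ → ℝ} (hu : ∀ z ∈ B.Om F, ∃ c, LogSing u c z)
    {R : ℝ} (hR : 1 ≤ R) : IntegrableOn (fun z => rhoR R z * max 0 (u z)) (B.Om F ∩ {z | B.cc F z ∈ ball (0 : ℂ × ℂ) s}) := by
  classical
  set φ : ℂ → ℝ := fun z => rhoR R z * B.cut F s s' z with hφ
  have hφc : Continuous φ := (continuous_rhoR R).mul (B.continuous_cut hs hO hcc hcl)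
  have hφs : HasCompactSupport φ := (hcs_rhoR hR).mul_right
  have hts : ∀ z ∈ tsupport φ, z ∈ B.Om F := by
    intro z hz
    have h1 : tsupport φ ⊆ {z | z ∈ B.Om F ∧ B.cc F z ∈ closedBall (0 : ℂ × ℂ) s'} := by
      refine closure_minimal (fun w hw => ?_) hcl
      by_contra hcon
      refine hw ?_
      rw [hφ]
      simp only
      rw [B.cut_eq_zero hs hcon, mul_zero]
    exact (h1 hz).1
  set c : ℂ → ℝ := fun z => if h : z ∈ B.Om F then (hu z h).choose else 0 with hc
  have hw : ∀ z ∈ tsupport φ, LogSing u (c z) z := by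
    intro z hz
    have h := hts z hz
    rw [hc]
    simp only [dif_pos h]
    exact (hu z h).choose_spec
  have h1 := LogSing.integrable_mul hφc hφs hw
  have h2 := h1.pos_part
  have hO2 : IsOpen (B.Om F ∩ {z | B.cc F z ∈ ball (0 : ℂ × ℂ) s}) := hcc.isOpen_inter_preimage hO isOpen_ball
  refine (h2.integrableOn (s := B.Om F ∩ {z | B.cc F z ∈ ball (0 : ℂ × ℂ) s})).congr_fun (fun z hz => ?_) hO2.measurableSet
  have h3 : φ z = rhoR R z := by
    rw [hφ]
    simp only
    rw [B.cut_eq_one hs hz.1 hz.2, mul_one]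
  simp only [h3]
  rw [max_comm, mul_max_of_nonneg _ _ (rhoR_nonneg R z), mul_zero]

end

end Pool.Agent.MQ
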