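import Pool.Agent.H17BP.Surf
import Pool.Agent.H17BP.Model

/-!
# MQ Iso: isolated points of a closed surface in a projective space are finitely many
-/

set_option autoImplicit false

open Topology Filter Metric

noncomputable section

namespace Pool.Agent.MQ

open Pool.Agent.H17BP (Pr Surface IsChart)

variable {V : Type} [NormedAddCommGroup V] [NormedSpace ℂ V]

/-- proportional vectors -/
def prSetoid (V : Type) [NormedAddCommGroup V] [NormedSpace ℂ V] : Setoid V where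
  r := Pr
  iseqv :=
    { refl := fun x => ⟨1, one_ne_zero, (one_smul ℂ x).symm⟩
      symm := fun {x y} ⟨c, hc, h⟩ => ⟨c⁻¹, inv_ne_zero hc, by rw [h, smul_smul, inv_mul_cancel₀ hc, one_smul]⟩
      trans := fun {x y z} ⟨c, hc, h⟩ ⟨c', hc', h'⟩ => ⟨c * c', mul_ne_zero hc hc', by rw [h, h', smul_smul]⟩ }

theorem pr_symm {x y : V} (h : Pr x y) : Pr y x := (prSetoid V).iseqv.symm h

theorem pr_trans {x y z : V} (h : Pr x y) (h' : Pr y z) : Pr x z := (prSetoid V).iseqv.trans h h'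

theorem pr_refl (x : V) : Pr x x := (prSetoid V).iseqv.refl x

/-- representatives of a finite set of vectors up to scalars -/
theorem exists_repr {S F : Set V} (hS : ∀ x ∈ S, ∀ c : ℂ, c ≠ 0 → c • x ∈ S) (hF : F.Finite) (hFS : F ⊆ S) :
    ∃ (r : ℕ) (y : Fin r → V), (∀ j, y j ∈ S) ∧ (∀ i j, i ≠ j → ¬ Pr (y i) (y j)) ∧ ∀ x ∈ F, ∃ j, Pr x (y j) := by
  let _ := prSetoid V
  obtain ⟨ρ, hρ⟩ : ∃ ρ : V → V, ρ = fun x => Quotient.out (⟦x⟧ : Quotient (prSetoid V)) := ⟨_, rfl⟩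
  have h1 : ∀ x, Pr (ρ x) x := fun x => by
    rw [hρ]
    exact Quotient.exact (Quotient.out_eq (⟦x⟧ : Quotient (prSetoid V)))
  have h2 : ∀ x y, Pr x y → ρ x = ρ y := fun x y h => by
    rw [hρ]
    show Quotient.out (⟦x⟧ : Quotient (prSetoid V)) = Quotient.out (⟦y⟧ : Quotient (prSetoid V))
    rw [Quotient.sound h]
  obtain ⟨r, e⟩ := Finite.exists_equiv_fin (α := ρ '' F) (h := hF.image ρ)
  obtain ⟨e⟩ := e
  refine ⟨r, fun i => (e.symm i).1, fun j => ?_, fun i j hij h => ?_, fun x hx => ?_⟩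
  · obtain ⟨x, hx, hxe⟩ := (e.symm j).2
    obtain ⟨c, hc, h⟩ := h1 x
    show (e.symm j).1 ∈ S
    rw [← hxe, h]
    exact hS x (hFS hx) c hc
  · obtain ⟨x, hx, hxe⟩ := (e.symm i).2
    obtain ⟨x', hx', hxe'⟩ := (e.symm j).2
    have h' : Pr (ρ x) (ρ x') := by
      rw [hxe, hxe']
      exact h
    have h3 : ρ x = ρ x' := h2 _ _ (pr_trans (pr_symm (h1 x)) (pr_trans h' (h1 x')))
    rw [hxe, hxe'] at h3
    exact hij (e.symm.injective (Subtype.ext h3))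
  · refine ⟨e ⟨ρ x, x, hx, rfl⟩, ?_⟩
    simp only [Equiv.symm_apply_apply]
    exact pr_symm (h1 x)

/-- **Isolated points are finitely many.** -/
theorem finite_of_isolated [FiniteDimensional ℂ V] {X S : Set V} (hX : Surface X) (hSX : S ⊆ X) (hS : ∀ x ∈ S, ∀ c : ℂ, c ≠ 0 → c • x ∈ S)
    (hiso : ∀ x ∈ X, ∀ᶠ y in 𝓝 x, y ∈ S → Pr y x) :
    ∃ (r : ℕ) (y : Fin r → V), (∀ j, y j ∈ S) ∧ (∀ i j, i ≠ j → ¬ Pr (y i) (y j)) ∧ ∀ x ∈ S, ∃ j, Pr x (y j) := by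
  have : ProperSpace V := FiniteDimensional.proper ℂ V
  have hK : IsCompact (X ∩ sphere (0 : V) 1) := by
    refine (isCompact_sphere (0 : V) 1).of_isClosed_subset ?_ Set.inter_subset_right
    refine isClosed_of_closure_subset fun x hx => ?_
    have h1 : x ∈ sphere (0 : V) 1 := by
      have h2 : closure (X ∩ sphere (0 : V) 1) ⊆ sphere (0 : V) 1 := closure_minimal Set.inter_subset_right isClosed_sphere
      exact h2 hx
    have h3 : x ≠ 0 := by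
      rintro rfl
      simp at h1
    exact ⟨hX.closed x (closure_mono Set.inter_subset_left hx) h3, h1⟩
  obtain ⟨F, hF1, hF2, hF3⟩ : ∃ F : Set V, F.Finite ∧ F ⊆ S ∧ ∀ x ∈ X ∩ sphere (0 : V) 1, x ∈ S → ∃ y ∈ F, Pr x y := by
    refine hK.induction_on (p := fun T : Set V => ∃ F : Set V, F.Finite ∧ F ⊆ S ∧ ∀ x ∈ T, x ∈ S → ∃ y ∈ F, Pr x y) ?_ ?_ ?_ ?_
    · exact ⟨∅, Set.finite_empty, Set.empty_subset _, fun x hx => hx.elim⟩
    · rintro s t hst ⟨F, h1, h2, h3⟩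
      exact ⟨F, h1, h2, fun x hx => h3 x (hst hx)⟩
    · rintro s t ⟨F, h1, h2, h3⟩ ⟨F', h1', h2', h3'⟩
      refine ⟨F ∪ F', h1.union h1', Set.union_subset h2 h2', ?_⟩
      rintro x (h | h) hx
      · obtain ⟨y, h4, h5⟩ := h3 x h hx
        exact ⟨y, Or.inl h4, h5⟩
      · obtain ⟨y, h4, h5⟩ := h3' x h hx
        exact ⟨y, Or.inr h4, h5⟩
    · rintro x ⟨hx, -⟩
      by_cases hxS : x ∈ S
      · exact ⟨_, mem_nhdsWithin_of_mem_nhds (hiso x hx), {x}, Set.finite_singleton x, Set.singleton_subset_iff.2 hxS,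
          fun y hy hyS => ⟨x, rfl, hy hyS⟩⟩
      · refine ⟨_, mem_nhdsWithin_of_mem_nhds (hiso x hx), ∅, Set.finite_empty, Set.empty_subset _, fun y hy hyS => ?_⟩
        obtain ⟨c, hc, h⟩ := pr_symm (hy hyS)
        exact absurd (h ▸ hS y hyS c hc) hxS
  obtain ⟨r, y, h1, h2, h3⟩ := exists_repr hS hF1 hF2
  refine ⟨r, y, h1, h2, fun x hx => ?_⟩
  have hx0 : x ≠ 0 := by
    rintro rfl
    exact hX.zero (hSX hx)
  have hn : (‖x‖ : ℂ) ≠ 0 := by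
    simpa using hx0
  have h4 : (‖x‖ : ℂ)⁻¹ • x ∈ S := hS x hx _ (inv_ne_zero hn)
  have h5 : (‖x‖ : ℂ)⁻¹ • x ∈ sphere (0 : V) 1 := by
    rw [mem_sphere_zero_iff_norm, norm_smul, norm_inv, Complex.norm_real, norm_norm]
    exact inv_mul_cancel₀ (norm_ne_zero_iff.2 hx0)
  obtain ⟨y', hy', h6⟩ := hF3 _ ⟨hSX h4, h5⟩ h4
  obtain ⟨j, hj⟩ := h3 y' hy'
  have h7 : Pr x ((‖x‖ : ℂ)⁻¹ • x) := ⟨(‖x‖ : ℂ), hn, by rw [smul_smul, mul_inv_cancel₀ hn, one_smul]⟩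
  exact ⟨j, pr_trans h7 (pr_trans h6 hj)⟩

/-- isolatedness from a chart -/
theorem isolated_of_chart {X S : Set V} (hS : ∀ x ∈ S, ∀ c : ℂ, c ≠ 0 → c • x ∈ S) (hSX : S ⊆ X) {σ : ℂ × ℂ → V} {τ : V → ℂ × ℂ} (hσ : IsChart X σ τ)
    (h : ∀ᶠ p in 𝓝 (0 : ℂ × ℂ), p ≠ 0 → σ p ∉ S) : ∀ᶠ y in 𝓝 (σ 0), y ∈ S → Pr y (σ 0) := by
  have hτ : Tendsto τ (𝓝 (σ 0)) (𝓝 0) := by
    have := hσ.τ_an.continuousAt.tendsto
    rwa [hσ.left.self_of_nhds] at this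
  filter_upwards [hσ.right, hτ.eventually h] with y h1 h2 hy
  obtain ⟨c, hc, hyc⟩ := h1 (hSX hy)
  by_cases h3 : τ y = 0
  · rw [h3] at hyc
    exact ⟨c, hc, hyc⟩
  · exfalso
    apply h2 h3
    have h4 : σ (τ y) = c⁻¹ • y := by
      conv_rhs => rw [hyc]
      rw [smul_smul, inv_mul_cancel₀ hc, one_smul]
    rw [h4]
    exact hS y hy _ (inv_ne_zero hc)

/-- the zero of a node or of a saddle-node with two separatrices is isolated -/
theorem zero_node {a b : ℂ × ℂ → ℂ} (ha : AnalyticAt ℂ a 0) (hb : AnalyticAt ℂ b 0) (ha0 : a 0 ≠ 0) (hb0 : b 0 ≠ 0) (k l : ℕ) :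
    ∀ᶠ p in 𝓝 (0 : ℂ × ℂ), p ≠ 0 → (p.1 ^ (k + 1) * a p, p.2 ^ (l + 1) * b p) ≠ (0 : ℂ × ℂ) := by
  filter_upwards [ha.continuousAt.eventually_ne ha0, hb.continuousAt.eventually_ne hb0] with p h1 h2 hp h
  apply hp
  rw [Prod.mk_eq_zero] at h
  have h3 := (mul_eq_zero.1 h.1).resolve_right h1
  have h4 := (mul_eq_zero.1 h.2).resolve_right h2
  exact Prod.ext (pow_eq_zero_iff (by omega) |>.1 h3) (pow_eq_zero_iff (by omega) |>.1 h4)

/-- the zero of a saddle-node is isolated -/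
theorem zero_saddle {a b : ℂ × ℂ → ℂ} (ha : AnalyticAt ℂ a 0) (hb : AnalyticAt ℂ b 0) (ha0 : a 0 ≠ 0)
    (hb1 : fderiv ℂ b 0 (0, 1) ≠ 0) (k : ℕ) :
    ∀ᶠ p in 𝓝 (0 : ℂ × ℂ), p ≠ 0 → (p.1 ^ (k + 1) * a p, b p) ≠ (0 : ℂ × ℂ) := by
  have h1 : HasDerivAt (fun t : ℂ => b (0, t)) (fderiv ℂ b 0 (0, 1)) 0 := by
    have h2 : HasDerivAt (fun t : ℂ => ((0 : ℂ), t)) ((0 : ℂ), (1 : ℂ)) 0 := (hasDerivAt_const (0 : ℂ) (0 : ℂ)).prodMk (hasDerivAt_id (0 : ℂ))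
    have h3 : HasFDerivAt b (fderiv ℂ b 0) ((fun t : ℂ => ((0 : ℂ), t)) 0) := by
      show HasFDerivAt b (fderiv ℂ b 0) ((0 : ℂ), (0 : ℂ))
      exact hb.differentiableAt.hasFDerivAt
    exact h3.comp_hasDerivAt (0 : ℂ) h2
  have h4 : ∀ᶠ t in 𝓝 (0 : ℂ), t ≠ 0 → b (0, t) ≠ 0 := by
    have h5 := h1.eventually_ne hb1 (c := 0)
    rw [eventually_nhdsWithin_iff] at h5
    filter_upwards [h5] with t ht h6
    exact ht h6
  have h7 : Tendsto (fun p : ℂ × ℂ => p.2) (𝓝 0) (𝓝 0) := continuous_snd.tendsto 0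
  filter_upwards [ha.continuousAt.eventually_ne ha0, h7.eventually h4] with p h8 h9 hp h
  apply hp
  rw [Prod.mk_eq_zero] at h
  have h10 : p.1 = 0 := pow_eq_zero_iff (by omega) |>.1 ((mul_eq_zero.1 h.1).resolve_right h8)
  have h11 : p = (0, p.2) := Prod.ext h10 rfl
  refine Prod.ext h10 ?_
  by_contra h12
  apply h9 h12
  rw [← h11]
  exact h.2

end Pool.Agent.MQ
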