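import Pool.Agent.MQ.FDefs
import Pool.Agent.MQ.Iso
import Pool.Agent.E2.Loc

/-!
# MQ Sing: the singular points of a reduced foliation are finitely many
-/

set_option autoImplicit false

open Topology Filter MvPolynomial Asymptotics

noncomputable section

namespace Pool.Agent.MQ

open Pool.Agent.H36.BP (EN)
open Pool.Agent.H14.PP (Tan IsCone)
open Pool.Agent.H17BP (IsChart Surface Pr)
open Pool.Agent.H17EF (projVar coneE)
open Pool.Agent.H22.W (tan_smul tan_mem)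
open Pool.Agent.E2 (tan_fderiv_chart tan_chart isCone)

variable {M : ℕ} {P : Ideal (MvPolynomial (Fin (M + 1)) ℂ)} {FF : Set (EN M × EN M)} {σ : ℂ × ℂ → EN M} {τ : EN M → ℂ × ℂ} {v : ℂ × ℂ → ℂ × ℂ}

/-- the singular points of the foliation: all tangent vectors belong to `FF` -/
def Sg (P : Ideal (MvPolynomial (Fin (M + 1)) ℂ)) (FF : Set (EN M × EN M)) : Set (EN M) :=
  {x | x ∈ coneE P ∧ ∀ w, Tan (coneE P) x w → (x, w) ∈ FF}

theorem Sg_subset : Sg P FF ⊆ coneE P := fun _ h => h.1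

/-- a point with `v ≠ 0` is not singular -/
theorem notMem_Sg_of_ne {p : ℂ × ℂ} (h1 : ∀ w : ℂ × ℂ, Tan (coneE P) (σ p) (fderiv ℂ σ p w))
    (h2 : ∀ (w : ℂ × ℂ) (a c : ℂ), c ≠ 0 → ((c • σ p, c • fderiv ℂ σ p w + a • σ p) ∈ FF ↔ (v p).1 * w.2 = (v p).2 * w.1))
    (hv : v p ≠ 0) : σ p ∉ Sg P FF := by
  intro h
  have key : ∀ w : ℂ × ℂ, (v p).1 * w.2 = (v p).2 * w.1 := fun w => by
    have h3 := (h2 w 0 1 one_ne_zero).1
    rw [one_smul, one_smul, zero_smul, add_zero] at h3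
    exact h3 (h.2 _ (h1 w))
  apply hv
  have h4 := key (0, 1)
  have h5 := key (1, 0)
  simp only [mul_one, mul_zero] at h4 h5
  exact Prod.ext h4 h5.symm

/-- the types of points -/
theorem Reduced.cases (h : Reduced P σ v) : (∀ p, v p = (0, 1)) ∨ v 0 = 0 ∧ ∀ᶠ p in 𝓝 (0 : ℂ × ℂ), p ≠ 0 → v p ≠ 0 := by
  cases h with
  | regular h => exact Or.inl h
  | node a b ha hb ha0 hb0 hq h =>
    refine Or.inr ⟨by rw [h]; simp, ?_⟩
    filter_upwards [zero_node ha hb ha0 hb0 0 0] with p hp h0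
    rw [h]
    simpa using hp h0
  | saddleNode k hk a b ha hb ha0 hb0 h =>
    refine Or.inr ⟨by rw [h]; simp, ?_⟩
    filter_upwards [zero_node ha hb ha0 hb0 k 0] with p hp h0
    rw [h]
    simpa using hp h0
  | formal k hk a b ha hb ha0 hb0 h c hc hJ hR =>
    have hb00 : b 0 = 0 := by
      have h1 := (hJ 0).norm_left.bound
      obtain ⟨C, h2⟩ := h1
      have h3 := h2.self_of_nhds
      have h4 : jet c 0 0 = 0 := by simp [jet, hc]
      have h5 : deriv (jet c 0) 0 = 0 := by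
        have h6 : jet c 0 = fun _ => c 0 := by
          funext t
          simp [jet]
        rw [h6, deriv_const]
      rw [h4, h5] at h3
      simp only [zero_mul, sub_zero, norm_norm, zero_add, pow_one, norm_zero, mul_zero] at h3
      exact norm_le_zero_iff.1 h3
    refine Or.inr ⟨by rw [h, hb00]; simp, ?_⟩
    filter_upwards [zero_saddle ha hb ha0 hb0 k] with p hp h0
    rw [h]
    exact hp h0

/-- the singular points form a cone -/
theorem Sg_smul (hX : Surface (coneE P)) (h : IsReduced P FF) : ∀ x ∈ Sg P FF, ∀ c : ℂ, c ≠ 0 → c • x ∈ Sg P FF := by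
  intro x hx c hc
  obtain ⟨σ, τ, v, hσ, rfl, hsp, -⟩ := h x hx.1
  refine ⟨hX.smul _ hx.1 c hc, fun w hw => ?_⟩
  have hcone := isCone hX
  have h1 : Tan (coneE P) (σ 0) (c⁻¹ • w) := by
    have h2 := tan_smul hcone hw (inv_ne_zero hc)
    rwa [smul_smul, inv_mul_cancel₀ hc, one_smul] at h2
  obtain ⟨w', a, h3⟩ := (tan_chart hX hσ).self_of_nhds.2 _ h1
  have h4 : w = c • fderiv ℂ σ 0 w' + (c * a) • σ 0 := by
    have h5 : c • c⁻¹ • w = c • (fderiv ℂ σ 0 w' + a • σ 0) := by rw [h3]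
    rw [smul_smul, mul_inv_cancel₀ hc, one_smul, smul_add, smul_smul] at h5
    exact h5
  have h6 := hx.2 _ h1
  rw [h3] at h6
  have h7 := (hsp.self_of_nhds w' a 1 one_ne_zero).1 (by rw [one_smul, one_smul]; exact h6)
  rw [h4]
  exact (hsp.self_of_nhds w' (c * a) c hc).2 h7

/-- the singular points are isolated -/
theorem Sg_isolated (hX : Surface (coneE P)) (h : IsReduced P FF) : ∀ x ∈ coneE P, ∀ᶠ y in 𝓝 x, y ∈ Sg P FF → Pr y x := by
  intro x hx
  obtain ⟨σ, τ, v, hσ, rfl, hsp, hr⟩ := h x hx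
  refine isolated_of_chart (Sg_smul hX h) Sg_subset hσ ?_
  have h1 : ∀ᶠ p in 𝓝 (0 : ℂ × ℂ), ∀ w : ℂ × ℂ, Tan (coneE P) (σ p) (fderiv ℂ σ p w) := by
    filter_upwards [hσ.σ_an.eventually_analyticAt, eventually_eventually_nhds.2 hσ.σ_mem] with p h2 h3 w
    exact tan_fderiv_chart h2 h3 w
  have h2 : ∀ᶠ p in 𝓝 (0 : ℂ × ℂ), p ≠ 0 → v p ≠ 0 := by
    rcases hr.cases with h3 | ⟨-, h3⟩
    · exact Eventually.of_forall fun p _ => by rw [h3 p]; simp
    · exact h3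
  filter_upwards [h1, h2, hsp] with p h3 h4 h5 hp
  exact notMem_Sg_of_ne h3 h5 (h4 hp)

/-- a point which is not singular is regular -/
theorem regular_of_notMem_Sg (hX : Surface (coneE P)) (h : IsReduced P FF) {x : EN M} (hx : x ∈ coneE P) (hs : x ∉ Sg P FF) :
    ∃ (σ : ℂ × ℂ → EN M) (τ : EN M → ℂ × ℂ), IsChart (coneE P) σ τ ∧ σ 0 = x ∧ Spans FF σ fun _ => (0, 1) := by
  obtain ⟨σ, τ, v, hσ, rfl, hsp, hr⟩ := h x hx
  rcases hr.cases with h1 | ⟨h1, -⟩
  · refine ⟨σ, τ, hσ, rfl, ?_⟩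
    have h2 : v = fun _ => (0, 1) := funext h1
    rw [← h2]
    exact hsp
  · exfalso
    refine hs ⟨hx, fun w hw => ?_⟩
    obtain ⟨w', a, rfl⟩ := (tan_chart hX hσ).self_of_nhds.2 _ hw
    have h3 := (hsp.self_of_nhds w' a 1 one_ne_zero).2 (by rw [h1]; simp)
    rwa [one_smul, one_smul] at h3

/-- a regular point is not singular -/
theorem notMem_Sg_of_regular {σ : ℂ × ℂ → EN M} {τ : EN M → ℂ × ℂ} (hσ : IsChart (coneE P) σ τ) (hsp : Spans FF σ fun _ => (0, 1)) :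
    σ 0 ∉ Sg P FF :=
  notMem_Sg_of_ne (v := fun _ => (0, 1)) (fun w => tan_fderiv_chart hσ.σ_an hσ.σ_mem w) hsp.self_of_nhds (by simp)

/-- MODULE Sing: **finitely many singular points** -/
theorem exists_sing (hX : Surface (coneE P)) (h : IsReduced P FF) :
    ∃ (r : ℕ) (y : Fin r → EN M), (∀ j, y j ∈ Sg P FF) ∧ (∀ i j, i ≠ j → ¬ Pr (y i) (y j)) ∧
      ∀ x ∈ coneE P, (∀ j, ¬ Pr x (y j)) → ∃ (σ : ℂ × ℂ → EN M) (τ : EN M → ℂ × ℂ), IsChart (coneE P) σ τ ∧ σ 0 = x ∧ Spans FF σ fun _ => (0, 1) := by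
  obtain ⟨r, y, h1, h2, h3⟩ := finite_of_isolated hX Sg_subset (Sg_smul hX h) (Sg_isolated hX h)
  exact ⟨r, y, h1, h2, fun x hx h4 => regular_of_notMem_Sg hX h hx fun h5 => (h3 x h5).elim fun j hj => h4 j hj⟩

end Pool.Agent.MQ
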