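import Pool.Agent.MQ.GeoDefs
import Pool.Agent.MQ.Sing

/-!
# MQ Atl: the atlas
-/

set_option autoImplicit false

open Topology Filter Metric MvPolynomial Asymptotics

noncomputable section

namespace Pool.Agent.MQ

open Pool.Agent.H36.BP (EN)
open Pool.Agent.H14.PP (Tan IsCone)
open Pool.Agent.H17BP (IsChart Surface Pr)
open Pool.Agent.H17EF (projVar coneE)
open Pool.Agent.H22.W (tan_smul tan_mem)
open Pool.Agent.E2 (tan_fderiv_chart isCone)

variable {M : ℕ} {P : Ideal (MvPolynomial (Fin (M + 1)) ℂ)} {FF : Set (EN M × EN M)}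

/-! ## proportional vectors -/

private def ph (x y : EN M) : ℝ := ‖x‖ * ‖y‖ - ‖inner ℂ x y‖

private theorem ph_cont : Continuous fun p : EN M × EN M => ph p.1 p.2 := by
  unfold ph
  exact (continuous_fst.norm.mul continuous_snd.norm).sub (Continuous.inner continuous_fst continuous_snd).norm

private theorem ph_pos {x y : EN M} (hx : x ≠ 0) (hy : y ≠ 0) (h : ¬ Pr x y) : 0 < ph x y := by
  have h1 : ‖inner ℂ x y‖ ≤ ‖x‖ * ‖y‖ := norm_inner_le_norm x y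
  have h2 : ‖inner ℂ x y‖ ≠ ‖x‖ * ‖y‖ := by
    intro he
    obtain ⟨r, hr, hyx⟩ := (norm_inner_eq_norm_iff hx hy).1 he
    exact h ⟨r⁻¹, inv_ne_zero hr, by rw [hyx, smul_smul, inv_mul_cancel₀ hr, one_smul]⟩
  unfold ph
  have := lt_of_le_of_ne h1 h2
  linarith

private theorem ph_pr {x y : EN M} (h : Pr x y) : ph x y = 0 := by
  obtain ⟨c, -, rfl⟩ := h
  unfold ph
  rw [norm_smul, inner_smul_left, norm_mul, RCLike.norm_conj, inner_self_eq_norm_sq_to_K, norm_pow]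
  simp
  ring

private theorem ph_comm (x y : EN M) : ph x y = ph y x := by
  unfold ph
  rw [norm_inner_symm, mul_comm]

attribute [local irreducible] ph

/-! ## boxes -/

/-- the tangent vectors in a box -/
theorem GBox.tan_eq (B : GBox P FF) {p : ℂ × ℂ} (hp : p ∈ ball (0 : ℂ × ℂ) B.r) {w : EN M} (hw : Tan (coneE P) (B.σ p) w) :
    ∃ (w' : ℂ × ℂ) (a : ℂ), w = fderiv ℂ B.σ p w' + a • B.σ p := by
  obtain ⟨T, c, hT, hc, hTp, hcp, hev⟩ := B.opn p hp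
  obtain ⟨γ, ⟨hγ, hγX⟩, hγ0, hγ1⟩ := hw
  have hT' : AnalyticAt ℂ T (γ 0) := by rw [hγ0]; exact hT
  have hc' : AnalyticAt ℂ c (γ 0) := by rw [hγ0]; exact hc
  have hTγ : AnalyticAt ℂ (fun t => T (γ t)) 0 := AnalyticAt.comp (g := T) (f := γ) hT' hγ
  have hcγ : AnalyticAt ℂ (fun t => c (γ t)) 0 := AnalyticAt.comp (g := c) (f := γ) hc' hγ
  have e1 : ∀ᶠ t in 𝓝 (0 : ℂ), γ t = c (γ t) • B.σ (T (γ t)) := by
    have h1 : Tendsto γ (𝓝 0) (𝓝 (B.σ p)) := by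
      have := hγ.continuousAt.tendsto; rwa [hγ0] at this
    filter_upwards [h1.eventually hev, hγX] with t h2 h3 using h2 h3
  have hσ : HasFDerivAt B.σ (fderiv ℂ B.σ p) (T (γ 0)) := by
    rw [hγ0, hTp]
    exact (B.σ_an p (ball_subset_closedBall hp)).differentiableAt.hasFDerivAt
  have h2 : HasDerivAt (fun t => B.σ (T (γ t))) (fderiv ℂ B.σ p (deriv (fun t => T (γ t)) 0)) 0 :=
    hσ.comp_hasDerivAt (0 : ℂ) hTγ.differentiableAt.hasDerivAt
  have h3 := hcγ.differentiableAt.hasDerivAt.smul h2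
  have h4 : deriv γ 0 = c (γ 0) • fderiv ℂ B.σ p (deriv (fun t => T (γ t)) 0) + deriv (fun t => c (γ t)) 0 • B.σ (T (γ 0)) := by
    have h5 : HasDerivAt γ (c (γ 0) • fderiv ℂ B.σ p (deriv (fun t => T (γ t)) 0) + deriv (fun t => c (γ t)) 0 • B.σ (T (γ 0))) 0 :=
      h3.congr_of_eventuallyEq e1
    exact h5.deriv
  refine ⟨deriv (fun t => T (γ t)) 0, deriv (fun t => c (γ t)) 0, ?_⟩
  rw [← hγ1, h4, hγ0, hcp, hTp, one_smul]

theorem GBox.tan_fderiv (B : GBox P FF) {p : ℂ × ℂ} (hp : p ∈ ball (0 : ℂ × ℂ) B.r) (w : ℂ × ℂ) : Tan (coneE P) (B.σ p) (fderiv ℂ B.σ p w) := by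
  refine tan_fderiv_chart (B.σ_an p (ball_subset_closedBall hp)) ?_ w
  filter_upwards [isOpen_ball.mem_nhds hp] with q hq using B.mem q (ball_subset_closedBall hq)

/-- the singular points of a box -/
theorem GBox.mem_Sg_iff (B : GBox P FF) {p : ℂ × ℂ} (hp : p ∈ ball (0 : ℂ × ℂ) B.r) : B.σ p ∈ Sg P FF ↔ B.v p = 0 := by
  constructor
  · intro h
    by_contra hv
    exact notMem_Sg_of_ne (v := B.v) (B.tan_fderiv hp) (B.spans p (ball_subset_closedBall hp)) hv h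
  · intro hv
    refine ⟨B.mem p (ball_subset_closedBall hp), fun w hw => ?_⟩
    obtain ⟨w', a, rfl⟩ := B.tan_eq hp hw
    have h1 := (B.spans p (ball_subset_closedBall hp) w' a 1 one_ne_zero).2 (by rw [hv]; simp)
    rwa [one_smul, one_smul] at h1

/-- the cones over the polydiscs are relatively open -/
theorem GBox.U_open (hX : Surface (coneE P)) (B : GBox P FF) {s : ℝ} (hs : s ≤ B.r) {x : EN M} (hx : x ∈ B.U s) :
    ∀ᶠ y in 𝓝 x, y ∈ coneE P → y ∈ B.U s := by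
  obtain ⟨p, hp, c, hc, rfl⟩ := hx
  obtain ⟨T, e, hT, he, hTp, hep, hev⟩ := B.opn p (ball_subset_ball hs hp)
  have h1 : Tendsto (fun y : EN M => c⁻¹ • y) (𝓝 (c • B.σ p)) (𝓝 (B.σ p)) := by
    have h2 : Continuous (fun y : EN M => c⁻¹ • y) := continuous_const_smul _
    have h3 := h2.tendsto (c • B.σ p)
    rwa [smul_smul, inv_mul_cancel₀ hc, one_smul] at h3
  have h4 : ∀ᶠ y in 𝓝 (B.σ p), T y ∈ ball (0 : ℂ × ℂ) s := by
    apply hT.continuousAt.eventually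
    rw [hTp]
    exact isOpen_ball.mem_nhds hp
  have h5 : ∀ᶠ y in 𝓝 (B.σ p), e y ≠ 0 := he.continuousAt.eventually_ne (by rw [hep]; exact one_ne_zero)
  filter_upwards [h1.eventually hev, h1.eventually h4, h1.eventually h5] with y a1 a2 a3 hy
  have a4 := a1 (hX.smul y hy _ (inv_ne_zero hc))
  refine ⟨T (c⁻¹ • y), a2, c * e (c⁻¹ • y), mul_ne_zero hc a3, ?_⟩
  have a5 : c • c⁻¹ • y = c • (e (c⁻¹ • y) • B.σ (T (c⁻¹ • y))) := congrArg (fun z => c • z) a4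
  rwa [smul_smul, mul_inv_cancel₀ hc, one_smul, smul_smul] at a5

/-- the center of a box is not a singular point if the box is regular, and is one otherwise -/
theorem RedBox.v_zero {B : GBox P FF} (h : RedBox B) : B.v 0 = 0 := by
  cases h with
  | node a b ha hb ha0 hb0 hq h => rw [h]; simp
  | saddleNode k hk a b ha hb ha0 hb0 h => rw [h]; simp
  | formal k hk a b ha hb ha0 hb0 h c hc hJ hR =>
    have hb00 : b 0 = 0 := by
      obtain ⟨C, h2⟩ := (hJ 0).norm_left.bound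
      have h3 := h2.self_of_nhds
      have h4 : jet c 0 0 = 0 := by simp [jet, hc]
      have h5 : deriv (jet c 0) 0 = 0 := by
        have h6 : jet c 0 = fun _ => c 0 := by
          funext t
          simp [jet]
        rw [h6, deriv_const]
      rw [h4, h5] at h3
      simp only [zero_mul, sub_zero, norm_norm, zero_add, pow_one, norm_zero, mul_zero] at h3
      exact norm_le_zero_iff.1 h3
    rw [h, hb00]; simp

theorem GBox.zero_mem (B : GBox P FF) : (0 : ℂ × ℂ) ∈ ball (0 : ℂ × ℂ) B.r := mem_ball_self B.pos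

theorem GBox.notMem_Sg_of_reg (B : GBox P FF) (h : B.Reg) : B.σ 0 ∉ Sg P FF := by
  rw [B.mem_Sg_iff B.zero_mem, h 0]
  simp

theorem GBox.mem_Sg_of_zero (B : GBox P FF) (h : B.v 0 = 0) : B.σ 0 ∈ Sg P FF := (B.mem_Sg_iff B.zero_mem).2 h

/-- there is a box at the point -/
theorem Sg_smul' (hX : Surface (coneE P)) (h : ∀ x ∈ coneE P, ∃ B : GBox P FF, B.σ 0 = x) : ∀ x ∈ Sg P FF, ∀ c : ℂ, c ≠ 0 → c • x ∈ Sg P FF := by
  intro x hx c hc
  obtain ⟨B, rfl⟩ := h x hx.1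
  refine ⟨hX.smul _ hx.1 c hc, fun w hw => ?_⟩
  have h1 : Tan (coneE P) (B.σ 0) (c⁻¹ • w) := by
    have h2 := tan_smul (isCone hX) hw (inv_ne_zero hc)
    rwa [smul_smul, inv_mul_cancel₀ hc, one_smul] at h2
  obtain ⟨w', a, h3⟩ := B.tan_eq B.zero_mem h1
  have h4 : w = c • fderiv ℂ B.σ 0 w' + (c * a) • B.σ 0 := by
    have h5 : c • c⁻¹ • w = c • (fderiv ℂ B.σ 0 w' + a • B.σ 0) := by rw [h3]
    rw [smul_smul, mul_inv_cancel₀ hc, one_smul, smul_add, smul_smul] at h5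
    exact h5
  rw [h4]
  refine (B.spans 0 (ball_subset_closedBall B.zero_mem) w' (c * a) c hc).2 ?_
  rw [(B.mem_Sg_iff B.zero_mem).1 hx]
  simp

theorem Sg_isolated' (hX : Surface (coneE P)) (h : ∀ x ∈ coneE P, ∃ B : GBox P FF, B.σ 0 = x) :
    ∀ x ∈ coneE P, ∀ᶠ y in 𝓝 x, y ∈ Sg P FF → Pr y x := by
  intro x hx
  obtain ⟨B, rfl⟩ := h x hx
  have h1 : B.σ 0 ∈ B.U B.r := ⟨0, B.zero_mem, 1, one_ne_zero, (one_smul ℂ _).symm⟩
  filter_upwards [B.U_open hX le_rfl h1] with y hy hs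
  obtain ⟨p, hp, c, hc, rfl⟩ := hy hs.1
  have h2 : B.σ p ∈ Sg P FF := by
    have := Sg_smul' hX h _ hs c⁻¹ (inv_ne_zero hc)
    rwa [smul_smul, inv_mul_cancel₀ hc, one_smul] at this
  have h3 := B.zero p (ball_subset_closedBall hp) ((B.mem_Sg_iff hp).1 h2)
  rw [h3]
  exact ⟨c, hc, rfl⟩

/-! ## the atlas -/

/-- **MODULE Atl.** -/
theorem exists_atlas (hX : Surface (coneE P)) (Good : GBox P FF → Prop)
    (h : ∀ x ∈ coneE P, ∀ W ∈ 𝓝 x, ∃ B : GBox P FF, B.σ 0 = x ∧ (∀ p ∈ closedBall (0 : ℂ × ℂ) B.r, B.σ p ∈ W) ∧ (B.Reg ∨ B.v 0 = 0) ∧ Good B) :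
    ∃ A : Atlas P FF, ∀ i, Good (A.B i) := by
  classical
  have hbox : ∀ x ∈ coneE P, ∃ B : GBox P FF, B.σ 0 = x := fun x hx => by
    obtain ⟨B, h1, -⟩ := h x hx Set.univ univ_mem
    exact ⟨B, h1⟩
  have hsm := Sg_smul' hX hbox
  have hne : ∀ x ∈ coneE P, x ≠ 0 := fun x hx h0 => hX.zero (by rwa [← h0])
  obtain ⟨r, y, hy1, hy2, hy3⟩ := finite_of_isolated hX Sg_subset hsm (Sg_isolated' hX hbox)
  have hyc : ∀ j, y j ∈ coneE P := fun j => (hy1 j).1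
  -- neighbourhoods of the singular points which are pairwise not proportional
  have hW : ∀ j, ∃ W ∈ 𝓝 (y j), ∀ k, k ≠ j → ∃ W' ∈ 𝓝 (y k), ∀ u ∈ W, ∀ u' ∈ W', 0 < ph u u' := by
    intro j
    have h1 : ∀ k, k ≠ j → ∃ W ∈ 𝓝 (y j), ∃ W' ∈ 𝓝 (y k), ∀ u ∈ W, ∀ u' ∈ W', 0 < ph u u' := by
      intro k hk
      have h2 : 0 < ph (y j) (y k) := ph_pos (hne _ (hyc j)) (hne _ (hyc k)) (hy2 j k (Ne.symm hk))
      have h3 : ∀ᶠ p in 𝓝 ((y j), (y k)), 0 < ph p.1 p.2 := ph_cont.continuousAt.eventually (isOpen_Ioi.mem_nhds h2)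
      rw [nhds_prod_eq] at h3
      obtain ⟨W, hW, W', hW', h4⟩ := Filter.mem_prod_iff.1 h3
      refine ⟨W, hW, W', hW', fun u hu u' hu' => ?_⟩
      have h5 : (u, u') ∈ W ×ˢ W' := Set.mk_mem_prod hu hu'
      exact h4 h5
    choose! W hW W' hW' h5 using h1
    refine ⟨⋂ k ∈ (Finset.univ.filter fun k => k ≠ j), W k, ?_, ?_⟩
    · rw [Filter.biInter_finset_mem]
      intro k hk
      exact hW k (Finset.mem_filter.1 hk).2
    · intro k hk
      refine ⟨W' k, hW' k hk, fun u hu u' hu' => ?_⟩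
      have h6 : u ∈ W k := by
        simp only [Finset.mem_filter, Finset.mem_univ, true_and, Set.mem_iInter] at hu
        exact hu k hk
      exact h5 k hk u h6 u' hu'
  choose W hWn hWW using hW
  choose! W' hW'n hWW' using hWW
  -- the singular boxes
  have hsing : ∀ j, ∃ B : GBox P FF, B.σ 0 = y j ∧ (∀ p ∈ closedBall (0 : ℂ × ℂ) B.r, B.σ p ∈ W j ∩ ⋂ k ∈ (Finset.univ.filter fun k => j ≠ k), W' k j) ∧
      (B.Reg ∨ B.v 0 = 0) ∧ Good B := by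
    intro j
    refine h (y j) (hyc j) _ (inter_mem (hWn j) ?_)
    rw [Filter.biInter_finset_mem]
    intro k hk
    exact hW'n k j (Finset.mem_filter.1 hk).2
  choose BS hBS1 hBS2 hBS3 hBS4 using hsing
  -- neighbourhoods of the regular points
  have hWx : ∀ x, x ∈ coneE P → x ∉ Sg P FF → {u | ∀ j, 0 < ph u (y j)} ∈ 𝓝 x := by
    intro x hx hxs
    have h1 : ∀ j, {u | 0 < ph u (y j)} ∈ 𝓝 x := by
      intro j
      have h2 : 0 < ph x (y j) := by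
        refine ph_pos (hne _ hx) (hne _ (hyc j)) ?_
        rintro ⟨c, hc, rfl⟩
        exact hxs (hsm _ (hy1 j) c hc)
      have h3 : Continuous fun u => ph u (y j) := ph_cont.comp (Continuous.prodMk_left (y j))
      exact h3.continuousAt.eventually (isOpen_Ioi.mem_nhds h2)
    have h4 : {u | ∀ j, 0 < ph u (y j)} = ⋂ j, {u | 0 < ph u (y j)} := by
      ext u; simp
    rw [h4]
    exact Filter.iInter_mem.2 h1
  have hreg : ∀ x : {x // x ∈ coneE P ∧ x ∉ Sg P FF}, ∃ B : GBox P FF, B.σ 0 = x ∧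
      (∀ p ∈ closedBall (0 : ℂ × ℂ) B.r, ∀ j, 0 < ph (B.σ p) (y j)) ∧ B.Reg ∧ Good B := by
    rintro ⟨x, hx, hxs⟩
    obtain ⟨B, h1, h2, h3, h4⟩ := h x hx _ (hWx x hx hxs)
    refine ⟨B, h1, h2, ?_, h4⟩
    rcases h3 with h3 | h3
    · exact h3
    · exact absurd (by rw [← h1]; exact B.mem_Sg_of_zero h3) hxs
  choose BR hBR1 hBR2 hBR3 hBR4 using hreg
  -- compactness
  have : ProperSpace (EN M) := FiniteDimensional.proper ℂ (EN M)
  have hK : IsCompact (coneE P ∩ sphere (0 : EN M) 1) := by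
    refine (isCompact_sphere (0 : EN M) 1).of_isClosed_subset ?_ Set.inter_subset_right
    refine isClosed_of_closure_subset fun x hx => ?_
    have h1 : x ∈ sphere (0 : EN M) 1 := isClosed_sphere.closure_subset_iff.2 Set.inter_subset_right hx
    refine ⟨hX.closed x (closure_mono Set.inter_subset_left hx) ?_, h1⟩
    rintro rfl
    simp at h1
  have hcenter : ∀ (B : GBox P FF), B.σ 0 ∈ B.U (B.r / 4) := fun B =>
    ⟨0, mem_ball_self (by have := B.pos; linarith), 1, one_ne_zero, (one_smul ℂ _).symm⟩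
  have hUsm : ∀ (B : GBox P FF) (s : ℝ) (x : EN M), x ∈ B.U s → ∀ c : ℂ, c ≠ 0 → c • x ∈ B.U s := by
    rintro B s x ⟨p, hp, c, hc, rfl⟩ c' hc'
    exact ⟨p, hp, c' * c, mul_ne_zero hc' hc, by rw [smul_smul]⟩
  have hr4 : ∀ B : GBox P FF, B.r / 4 ≤ B.r := fun B => by have := B.pos; linarith
  let N : EN M → Set (EN M) := fun x => if hx : x ∈ coneE P ∧ x ∉ Sg P FF then {u | u ∈ coneE P → u ∈ (BR ⟨x, hx⟩).U ((BR ⟨x, hx⟩).r / 4)}
    else {u | u ∈ coneE P → ∃ j, u ∈ (BS j).U ((BS j).r / 4)}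
  have hN : ∀ x ∈ coneE P ∩ sphere (0 : EN M) 1, N x ∈ 𝓝 x := by
    rintro x ⟨hx, -⟩
    by_cases hs : x ∈ Sg P FF
    · have e : N x = {u | u ∈ coneE P → ∃ j, u ∈ (BS j).U ((BS j).r / 4)} := dif_neg (fun h => h.2 hs)
      rw [e]
      obtain ⟨j, c, hc, hxj⟩ := hy3 x hs
      have h1 : x ∈ (BS j).U ((BS j).r / 4) := by
        rw [hxj, ← hBS1 j]
        exact hUsm _ _ _ (hcenter (BS j)) c hc
      filter_upwards [(BS j).U_open hX (hr4 _) h1] with u hu hu'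
      exact ⟨j, hu hu'⟩
    · have e : N x = {u | u ∈ coneE P → u ∈ (BR ⟨x, hx, hs⟩).U ((BR ⟨x, hx, hs⟩).r / 4)} := dif_pos ⟨hx, hs⟩
      rw [e]
      have h1 : x ∈ (BR ⟨x, hx, hs⟩).U ((BR ⟨x, hx, hs⟩).r / 4) := by
        have h2 := hcenter (BR ⟨x, hx, hs⟩)
        rwa [hBR1] at h2
      filter_upwards [(BR ⟨x, hx, hs⟩).U_open hX (hr4 _) h1] with u hu hu' using hu hu'
  obtain ⟨t, -, ht⟩ := hK.elim_nhds_subcover N hN
  -- the index type
  let T : Finset {x // x ∈ coneE P ∧ x ∉ Sg P FF} := t.subtype _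
  let BB : Fin r ⊕ T → GBox P FF := Sum.elim BS fun x => BR x
  have hBSred : ∀ j, (BS j).v 0 = 0 := by
    intro j
    rcases hBS3 j with h1 | h1
    · exact absurd (by rw [hBS1]; exact hy1 j) ((BS j).notMem_Sg_of_reg h1)
    · exact h1
  have hdisj : ∀ i j : Fin r, i ≠ j → ∀ p ∈ closedBall (0 : ℂ × ℂ) (BS i).r, ∀ q ∈ closedBall (0 : ℂ × ℂ) (BS j).r, 0 < ph ((BS i).σ p) ((BS j).σ q) := by
    intro i j hij p hp q hq
    refine hWW' i j (Ne.symm hij) _ (hBS2 i p hp).1 _ ?_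
    have h1 := (hBS2 j q hq).2
    simp only [Finset.mem_filter, Finset.mem_univ, true_and, Set.mem_iInter] at h1
    exact h1 i (Ne.symm hij)
  have hUph : ∀ (B B' : GBox P FF) (s s' : ℝ), (∀ p ∈ ball (0 : ℂ × ℂ) s, ∀ q ∈ ball (0 : ℂ × ℂ) s', 0 < ph (B.σ p) (B'.σ q)) →
      ∀ x ∈ B.U s, x ∉ B'.U s' := by
    rintro B B' s s' h1 x ⟨p, hp, c, hc, hx⟩ ⟨q, hq, c', hc', hx'⟩
    have h2 := h1 p hp q hq
    have h3 : Pr (B.σ p) (B'.σ q) := by
      refine ⟨c⁻¹ * c', mul_ne_zero (inv_ne_zero hc) hc', ?_⟩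
      rw [hx] at hx'
      have h4 : c⁻¹ • c • B.σ p = c⁻¹ • c' • B'.σ q := by rw [hx']
      rwa [smul_smul, inv_mul_cancel₀ hc, one_smul, smul_smul] at h4
    rw [ph_pr h3] at h2
    exact lt_irrefl _ h2
  have hsep : ∀ i : Fin r, ∃ s, 0 < s ∧ s ≤ (BS i).r / 8 ∧ ∀ x : T, ∀ p ∈ ball (0 : ℂ × ℂ) s, ∀ q ∈ ball (0 : ℂ × ℂ) (BR x).r,
      0 < ph ((BS i).σ p) ((BR x).σ q) := by
    intro i
    have h1 : ∀ x : T, ∀ᶠ p in 𝓝 (0 : ℂ × ℂ), ∀ q ∈ closedBall (0 : ℂ × ℂ) (BR x).r, 0 < ph ((BS i).σ p) ((BR x).σ q) := by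
      intro x
      have hcomp : IsCompact (closedBall (0 : ℂ × ℂ) (BR x).r) := isCompact_closedBall _ _
      refine hcomp.eventually_forall_of_forall_eventually fun q hq => ?_
      have h2 : 0 < ph ((BS i).σ 0) ((BR x).σ q) := by
        have h3 := hBR2 x q hq i
        rw [hBS1, ph_comm]
        exact h3
      have h4 : ContinuousAt (fun z : (ℂ × ℂ) × (ℂ × ℂ) => ph ((BS i).σ z.1) ((BR x).σ z.2)) (0, q) := by
        have a1 : ContinuousAt (fun z : (ℂ × ℂ) × (ℂ × ℂ) => (BS i).σ z.1) (0, q) :=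
          ContinuousAt.comp (g := (BS i).σ) (f := fun z : (ℂ × ℂ) × (ℂ × ℂ) => z.1)
            ((BS i).σ_an 0 (ball_subset_closedBall (BS i).zero_mem)).continuousAt continuousAt_fst
        have a2 : ContinuousAt (fun z : (ℂ × ℂ) × (ℂ × ℂ) => (BR x).σ z.2) (0, q) :=
          ContinuousAt.comp (g := (BR x).σ) (f := fun z : (ℂ × ℂ) × (ℂ × ℂ) => z.2)
            ((BR x).σ_an q hq).continuousAt continuousAt_snd
        exact ContinuousAt.comp (g := fun z : EN M × EN M => ph z.1 z.2)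
          (f := fun z : (ℂ × ℂ) × (ℂ × ℂ) => ((BS i).σ z.1, (BR x).σ z.2)) ph_cont.continuousAt (a1.prodMk a2)
      exact h4.eventually (isOpen_Ioi.mem_nhds h2)
    have h5 : ∀ᶠ p in 𝓝 (0 : ℂ × ℂ), ∀ x : T, ∀ q ∈ closedBall (0 : ℂ × ℂ) (BR x).r, 0 < ph ((BS i).σ p) ((BR x).σ q) :=
      eventually_all.2 h1
    obtain ⟨ε, hε, h6⟩ := Metric.eventually_nhds_iff_ball.1 h5
    have hpos := (BS i).pos
    refine ⟨min ε ((BS i).r / 8), lt_min hε (by linarith), min_le_right _ _, fun x p hp q hq => ?_⟩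
    exact h6 p (ball_subset_ball (min_le_left _ _) hp) x q (ball_subset_closedBall hq)
  have hnreg : ∀ i, ¬ (BB i).Reg → ∃ j, i = Sum.inl j := by
    rintro (j | x) hi
    · exact ⟨j, rfl⟩
    · exact absurd (hBR3 x) hi
  refine ⟨{ ι := Fin r ⊕ T, B := BB, red := ?_, cover := ?_, disj := ?_, sep := ?_ }, ?_⟩
  · rintro (j | x)
    · exact Or.inr (hBSred j)
    · exact Or.inl (hBR3 x)
  · intro x hx
    have hx0 : 0 < ‖x‖ := norm_pos_iff.2 (hne x hx)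
    have hc : ((‖x‖⁻¹ : ℝ) : ℂ) ≠ 0 := by
      rw [Complex.ofReal_ne_zero]; exact inv_ne_zero hx0.ne'
    have h1 : ((‖x‖⁻¹ : ℝ) : ℂ) • x ∈ coneE P ∩ sphere (0 : EN M) 1 := by
      refine ⟨hX.smul x hx _ hc, ?_⟩
      rw [mem_sphere_zero_iff_norm, norm_smul, Complex.norm_real, norm_inv, norm_norm, inv_mul_cancel₀ hx0.ne']
    have hback : ∀ (B : GBox P FF) (s : ℝ), ((‖x‖⁻¹ : ℝ) : ℂ) • x ∈ B.U s → x ∈ B.U s := by
      intro B s h2
      have h3 := hUsm B s _ h2 _ (inv_ne_zero hc)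
      rwa [smul_smul, inv_mul_cancel₀ hc, one_smul] at h3
    obtain ⟨w, hw, hxw⟩ := Set.mem_iUnion₂.1 (ht h1)
    by_cases hs : w ∈ coneE P ∧ w ∉ Sg P FF
    · have e : N w = {u | u ∈ coneE P → u ∈ (BR ⟨w, hs⟩).U ((BR ⟨w, hs⟩).r / 4)} := dif_pos hs
      rw [e] at hxw
      have hwT : (⟨w, hs⟩ : {x // x ∈ coneE P ∧ x ∉ Sg P FF}) ∈ T := Finset.mem_subtype.2 hw
      exact ⟨Sum.inr ⟨⟨w, hs⟩, hwT⟩, hback _ _ (hxw h1.1)⟩
    · have e : N w = {u | u ∈ coneE P → ∃ j, u ∈ (BS j).U ((BS j).r / 4)} := dif_neg hs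
      rw [e] at hxw
      obtain ⟨j, hj⟩ := hxw h1.1
      exact ⟨Sum.inl j, hback _ _ hj⟩
  · intro i j hij hi hj
    obtain ⟨i', rfl⟩ := hnreg i hi
    obtain ⟨j', rfl⟩ := hnreg j hj
    have hij' : i' ≠ j' := fun e => hij (by rw [e])
    exact hUph (BS i') (BS j') _ _ fun p hp q hq => hdisj i' j' hij' p (ball_subset_closedBall hp) q (ball_subset_closedBall hq)
  · intro i hi
    obtain ⟨i', rfl⟩ := hnreg i hi
    obtain ⟨s, hs, hs8, h1⟩ := hsep i'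
    refine ⟨s, hs, hs8, ?_⟩
    rintro (j | x) hj
    · have hij' : i' ≠ j := fun e => hj (by rw [e])
      have hsr : s ≤ (BS i').r := by have := (BS i').pos; linarith
      exact hUph (BS i') (BS j) _ _ fun p hp q hq => hdisj i' j hij' p (ball_subset_closedBall (ball_subset_ball hsr hp)) q (ball_subset_closedBall hq)
    · exact hUph (BS i') (BR x) _ _ fun p hp q hq => h1 x p hp q hq
  · rintro (j | x)
    · exact hBS4 j
    · exact hBR4 x

/-- the same for boxes with a fixed germ -/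
theorem exists_atlas_of_germ (hX : Surface (coneE P)) (Good : GBox P FF → Prop)
    (h : ∀ x ∈ coneE P, ∃ σ : ℂ × ℂ → EN M, σ 0 = x ∧ ∀ᶠ r in 𝓝[>] (0 : ℝ), ∃ B : GBox P FF, B.σ = σ ∧ B.r = r ∧ (B.Reg ∨ B.v 0 = 0) ∧ Good B) :
    ∃ A : Atlas P FF, ∀ i, Good (A.B i) := by
  refine exists_atlas hX Good fun x hx W hW => ?_
  obtain ⟨σ, h0, h1⟩ := h x hx
  obtain ⟨r, B, hB1, hB2, hB3, hB4⟩ := h1.exists
  have hσ : ContinuousAt σ 0 := by
    rw [← hB1]; exact (B.σ_an 0 (ball_subset_closedBall B.zero_mem)).continuousAt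
  have h2 : ∀ᶠ p in 𝓝 (0 : ℂ × ℂ), σ p ∈ W := hσ.eventually (by rw [h0]; exact hW)
  obtain ⟨ε, hε, h3⟩ := Metric.eventually_nhds_iff_ball.1 h2
  have h4 : ∀ᶠ r in 𝓝[>] (0 : ℝ), r < ε := mem_nhdsWithin_of_mem_nhds (Iio_mem_nhds hε)
  obtain ⟨r', ⟨B', hB1', hB2', hB3', hB4'⟩, hr'⟩ := (h1.and h4).exists
  refine ⟨B', by rw [hB1', h0], fun p hp => ?_, hB3', hB4'⟩
  rw [hB1']
  refine h3 p (mem_ball.2 (lt_of_le_of_lt (mem_closedBall.1 hp) ?_))
  rw [hB2']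
  exact hr'

end Pool.Agent.MQ
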