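import Pool.Agent.MQ.Res

/-!
The general residue formula: a real vector field `b` which near every point `z` of the support of
the test function is `conj (c / (w - z)) + V w` with `V` of class `C¹` and divergence `D`.
-/

namespace Pool.Agent.MQ

open MeasureTheory Complex Filter Topology Metric Set

theorem finite_exc {K : Set ℂ} (hK : IsCompact K) {P : ℂ → Prop}
    (h : ∀ z ∈ K, ∀ᶠ w in 𝓝[≠] z, P w) : {w | w ∈ K ∧ ¬ P w}.Finite := by
  have h1 : ∀ z ∈ K, {w | w ≠ z → P w} ∈ 𝓝 z := by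
    intro z hz
    have := h z hz
    rw [eventually_nhdsWithin_iff] at this
    exact this
  obtain ⟨t, -, ht⟩ := hK.elim_nhds_subcover (fun z => {w | w ≠ z → P w}) h1
  refine t.finite_toSet.subset ?_
  rintro w ⟨hw, hn⟩
  obtain ⟨z, hz, hwz⟩ := mem_iUnion₂.1 (ht hw)
  by_contra hne
  apply hn
  apply hwz
  intro e
  apply hne
  rw [e]
  exact hz

/-- Near `z` the field `b` is `conj (c / (w - z))` plus a `C¹` field with divergence `D`. -/
def HasRes (b : ℂ → ℂ) (D : ℂ → ℝ) (c : ℂ) (z : ℂ) : Prop :=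
  ∃ V : ℂ → ℂ, ContDiffAt ℝ 1 V z ∧ (∀ᶠ w in 𝓝[≠] z, dv V w = D w) ∧
    ∀ᶠ w in 𝓝[≠] z, b w = (starRingEnd ℂ) (c / (w - z)) + V w

theorem HasRes.congr {b b' : ℂ → ℂ} {D D' : ℂ → ℝ} {c z : ℂ} (h : HasRes b D c z)
    (hb : b' =ᶠ[𝓝[≠] z] b) (hD : D' =ᶠ[𝓝[≠] z] D) : HasRes b' D' c z := by
  obtain ⟨V, h1, h2, h3⟩ := h
  refine ⟨V, h1, ?_, ?_⟩
  · filter_upwards [h2, hD] with w e1 e2
    rw [e1, e2]
  · filter_upwards [h3, hb] with w e1 e2
    rw [← e1, e2]

theorem HasRes.add {b b' : ℂ → ℂ} {D D' : ℂ → ℝ} {c c' z : ℂ} (h : HasRes b D c z)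
    (h' : HasRes b' D' c' z) :
    HasRes (fun w => b w + b' w) (fun w => D w + D' w) (c + c') z := by
  obtain ⟨V, h1, h2, h3⟩ := h
  obtain ⟨V', h1', h2', h3'⟩ := h'
  have d1 : ∀ᶠ w in 𝓝[≠] z, DifferentiableAt ℝ V w := by
    apply eventually_nhdsWithin_of_eventually_nhds
    filter_upwards [h1.eventually (by norm_num)] with w hw using hw.differentiableAt (by norm_num)
  have d2 : ∀ᶠ w in 𝓝[≠] z, DifferentiableAt ℝ V' w := by
    apply eventually_nhdsWithin_of_eventually_nhds
    filter_upwards [h1'.eventually (by norm_num)] with w hw using hw.differentiableAt (by norm_num)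
  refine ⟨fun w => V w + V' w, h1.add h1', ?_, ?_⟩
  · filter_upwards [h2, h2', d1, d2] with w e1 e2 e3 e4
    rw [dv_add e3 e4, e1, e2]
  · filter_upwards [h3, h3'] with w e1 e2
    rw [e1, e2, add_div, map_add]; ring

theorem HasRes.const_mul {b : ℂ → ℂ} {D : ℂ → ℝ} {c z : ℂ} (t : ℝ) (h : HasRes b D c z) :
    HasRes (fun w => (t : ℂ) * b w) (fun w => t * D w) ((t : ℂ) * c) z := by
  obtain ⟨V, h1, h2, h3⟩ := h
  have d1 : ∀ᶠ w in 𝓝[≠] z, DifferentiableAt ℝ V w := by
    apply eventually_nhdsWithin_of_eventually_nhds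
    filter_upwards [h1.eventually (by norm_num)] with w hw using hw.differentiableAt (by norm_num)
  refine ⟨fun w => (t : ℂ) * V w, contDiffAt_const.mul h1, ?_, ?_⟩
  · filter_upwards [h2, d1] with w e1 e3
    rw [dv_const_mul t e3, e1]
  · filter_upwards [h3] with w e1
    rw [e1, mul_add, mul_div_assoc, map_mul, Complex.conj_ofReal]

/-- A field of class `C¹`. -/
theorem hasRes_of_contDiffAt {V : ℂ → ℂ} {z : ℂ} (hV : ContDiffAt ℝ 1 V z) :
    HasRes V (dv V) 0 z :=
  ⟨V, hV, Eventually.of_forall fun _ => rfl, Eventually.of_forall fun w => by simp⟩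

/-- The gradient of a function of class `C²`. -/
theorem hasRes_gr {u : ℂ → ℝ} {z : ℂ} (hu : ContDiffAt ℝ 2 u z) : HasRes (gr u) (lp u) 0 z :=
  hasRes_of_contDiffAt (contDiffAt_gr hu (by norm_num))

/-- A meromorphic field with a simple pole. -/
theorem hasRes_of_mero {Θ H : ℂ → ℂ} {c z : ℂ} (hH : AnalyticAt ℂ H z)
    (h : ∀ᶠ w in 𝓝[≠] z, Θ w = c / (w - z) + H w) :
    HasRes (fun w => (starRingEnd ℂ) (Θ w)) (fun _ => 0) c z := by
  refine ⟨fun w => (starRingEnd ℂ) (H w), contDiffAt_conj_holo hH, ?_, ?_⟩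
  · apply eventually_nhdsWithin_of_eventually_nhds
    filter_upwards [hH.eventually_analyticAt] with w hw using dv_conj hw.differentiableAt
  · filter_upwards [h] with w hw
    rw [hw, map_add]

/-- The logarithmic derivative of a meromorphic function has residue the order. -/
theorem hasRes_logDeriv {ρ : ℂ → ℂ} {z : ℂ} (h : MeromorphicAt ρ z)
    (h0 : meromorphicOrderAt ρ z ≠ ⊤) :
    HasRes (fun w => (starRingEnd ℂ) (deriv ρ w / ρ w)) (fun _ => 0)
      (((meromorphicOrderAt ρ z).untop₀ : ℤ) : ℂ) z := by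
  obtain ⟨k, hk1, hk2, hk3⟩ := (meromorphicOrderAt_ne_top_iff h).1 h0
  have hdk : AnalyticAt ℂ (fun w => deriv k w / k w) z := hk1.deriv.div hk1 hk2
  refine hasRes_of_mero hdk ?_
  set n := (meromorphicOrderAt ρ z).untop₀ with hn
  have hk3' : ∀ᶠ w in 𝓝[≠] z, ρ w = (w - z) ^ n • k w := hk3
  have hk4 : ∀ᶠ w in 𝓝[≠] z, ρ =ᶠ[𝓝 w] fun x => (x - z) ^ n • k x := by
    rw [eventually_nhdsWithin_iff] at hk3' ⊢
    filter_upwards [hk3'.eventually_nhds] with w hw hwz
    have : ∀ᶠ x in 𝓝 w, x ≠ z := isOpen_ne.mem_nhds hwz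
    filter_upwards [hw, this] with x hx hxz
    exact hx hxz
  have hk5 : ∀ᶠ w in 𝓝[≠] z, k w ≠ 0 ∧ AnalyticAt ℂ k w := by
    apply eventually_nhdsWithin_of_eventually_nhds
    filter_upwards [hk1.continuousAt.eventually_ne hk2, hk1.eventually_analyticAt] with w a b
      using ⟨a, b⟩
  filter_upwards [hk4, hk5, self_mem_nhdsWithin] with w e1 e2 e3
  have e3' : w - z ≠ 0 := sub_ne_zero.2 e3
  have hd1 : HasDerivAt (fun x : ℂ => (x - z) ^ n) (n * (w - z) ^ (n - 1)) w := by
    have h1 : HasDerivAt (fun x : ℂ => x - z) 1 w := (hasDerivAt_id w).sub_const z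
    have h2 := (hasDerivAt_zpow n (w - z) (Or.inl e3')).comp w h1
    simpa [Function.comp_def] using h2
  have hd2 : HasDerivAt (fun x : ℂ => (x - z) ^ n • k x)
      (n * (w - z) ^ (n - 1) * k w + (w - z) ^ n * deriv k w) w := by
    have := hd1.mul e2.2.differentiableAt.hasDerivAt
    exact this
  have e4 : ρ w = (w - z) ^ n * k w := e1.self_of_nhds
  rw [e1.deriv_eq, hd2.deriv, e4]
  have h5 : (w - z) ^ n ≠ 0 := zpow_ne_zero _ e3'
  have h6 : k w ≠ 0 := e2.1
  rw [zpow_sub_one₀ e3']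
  field_simp

/-- **The general residue formula.** -/
theorem res_gen {g : ℂ → ℝ} (hg : ContDiff ℝ 1 g) (hc : HasCompactSupport g)
    {b : ℂ → ℂ} {D : ℂ → ℝ} {c : ℂ → ℂ} (h : ∀ z ∈ tsupport g, HasRes b D (c z) z) :
    Integrable (fun z => ip (gr g z) (b z)) ∧ Integrable (fun z => g z * D z) ∧
    {z | z ∈ tsupport g ∧ c z ≠ 0}.Finite ∧
    (∫ z, ip (gr g z) (b z)) =
      - (∫ z, g z * D z) - 2 * Real.pi * (∑ᶠ z, (c z).re * g z) := by
  classical
  have hK : IsCompact (tsupport g) := hc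
  -- the residues vanish in punctured neighbourhoods
  have hzero : ∀ z ∈ tsupport g, ∀ᶠ w in 𝓝[≠] z, w ∈ tsupport g → c w = 0 := by
    intro z hz
    obtain ⟨V, h1, h2, h3⟩ := h z hz
    have h3' : ∀ᶠ w in 𝓝[≠] z, b =ᶠ[𝓝 w] fun x => (starRingEnd ℂ) (c z / (x - z)) + V x := by
      rw [eventually_nhdsWithin_iff] at h3 ⊢
      filter_upwards [h3.eventually_nhds] with w hw hwz
      have : ∀ᶠ x in 𝓝 w, x ≠ z := isOpen_ne.mem_nhds hwz
      filter_upwards [hw, this] with x hx hxz
      exact hx hxz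
    have h1' : ∀ᶠ w in 𝓝[≠] z, ContinuousAt V w := by
      apply eventually_nhdsWithin_of_eventually_nhds
      filter_upwards [h1.eventually (by norm_num)] with w hw using hw.continuousAt
    filter_upwards [h3', h1', self_mem_nhdsWithin] with w e1 e2 e3 hw
    have e3' : w - z ≠ 0 := sub_ne_zero.2 e3
    obtain ⟨V', g1, g2, g3⟩ := h w hw
    have hbc : ContinuousAt (fun x => (starRingEnd ℂ) (c z / (x - z)) + V x) w := by
      apply ContinuousAt.add _ e2
      exact Complex.continuous_conj.continuousAt.comp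
        (continuousAt_const.div (continuousAt_id.sub continuousAt_const) e3')
    -- (x - w) * conj (b x - V' x) tends to c w and to 0
    have t1 : Tendsto (fun x => (x - w) * (starRingEnd ℂ)
        (((starRingEnd ℂ) (c z / (x - z)) + V x) - V' x)) (𝓝[≠] w) (𝓝 0) := by
      have t2 : ContinuousAt (fun x => (x - w) * (starRingEnd ℂ)
          (((starRingEnd ℂ) (c z / (x - z)) + V x) - V' x)) w := by
        apply ContinuousAt.mul (by fun_prop)
        exact Complex.continuous_conj.continuousAt.comp (hbc.sub g1.continuousAt)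
      have t3 := t2.tendsto.mono_left (nhdsWithin_le_nhds (s := {w}ᶜ))
      simpa using t3
    have t4 : (fun x => (x - w) * (starRingEnd ℂ)
        (((starRingEnd ℂ) (c z / (x - z)) + V x) - V' x)) =ᶠ[𝓝[≠] w] fun _ => c w := by
      have e1' : ∀ᶠ x in 𝓝[≠] w, b x = (starRingEnd ℂ) (c z / (x - z)) + V x :=
        eventually_nhdsWithin_of_eventually_nhds e1
      filter_upwards [e1', g3, self_mem_nhdsWithin] with x a1 a2 a3
      have a3' : x - w ≠ 0 := sub_ne_zero.2 a3
      rw [← a1, a2]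
      simp only [add_sub_cancel_right, RingHomCompTriple.comp_apply, RingHom.id_apply]
      field_simp
    have t5 : Tendsto (fun _ : ℂ => c w) (𝓝[≠] w) (𝓝 0) := t1.congr' t4
    exact tendsto_nhds_unique tendsto_const_nhds t5
  have hSfin : {z | z ∈ tsupport g ∧ c z ≠ 0}.Finite := by
    have := finite_exc hK (P := fun w => w ∈ tsupport g → c w = 0) hzero
    refine this.subset ?_
    rintro w ⟨hw, hn⟩
    exact ⟨hw, fun hh => hn (hh hw)⟩
  set S : Finset ℂ := hSfin.toFinset with hS
  have hmemS : ∀ z, z ∈ S ↔ z ∈ tsupport g ∧ c z ≠ 0 := fun z => by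
    rw [hS, Set.Finite.mem_toFinset]; rfl
  -- subtract the principal parts
  set W : ℂ → ℂ := fun x => b x - ∑ a ∈ S, (starRingEnd ℂ) (c a / (x - a)) with hW
  set U : ℂ → ℂ := fun x => limUnder (𝓝[≠] x) W with hU
  have hWloc : ∀ z ∈ tsupport g, ∃ Y : ℂ → ℂ, ContDiffAt ℝ 1 Y z ∧
      (∀ᶠ w in 𝓝[≠] z, dv Y w = D w) ∧ ∀ᶠ w in 𝓝[≠] z, W w = Y w := by
    intro z hz
    obtain ⟨V, h1, h2, h3⟩ := h z hz
    have han : ∀ a ∈ S.erase z, AnalyticAt ℂ (fun x => c a / (x - a)) z := by
      intro a ha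
      have hne : z - a ≠ 0 := sub_ne_zero.2 (fun e => (Finset.mem_erase.1 ha).1 e.symm)
      exact analyticAt_const.div (analyticAt_id.sub analyticAt_const) hne
    have hanS : AnalyticAt ℂ (fun x => ∑ a ∈ S.erase z, c a / (x - a)) z :=
      Finset.analyticAt_fun_sum _ han
    refine ⟨fun x => V x - (starRingEnd ℂ) (∑ a ∈ S.erase z, c a / (x - a)),
      h1.sub (contDiffAt_conj_holo hanS), ?_, ?_⟩
    · have d1 : ∀ᶠ w in 𝓝[≠] z, DifferentiableAt ℝ V w := by
        apply eventually_nhdsWithin_of_eventually_nhds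
        filter_upwards [h1.eventually (by norm_num)] with w hw
          using hw.differentiableAt (by norm_num)
      have d2 : ∀ᶠ w in 𝓝[≠] z, AnalyticAt ℂ (fun x => ∑ a ∈ S.erase z, c a / (x - a)) w :=
        eventually_nhdsWithin_of_eventually_nhds hanS.eventually_analyticAt
      filter_upwards [h2, d1, d2] with w e1 e2 e3
      rw [dv_sub e2 ((hasFDerivAt_conj_holo e3.differentiableAt).differentiableAt),
        dv_conj e3.differentiableAt, e1, sub_zero]
    · filter_upwards [h3] with w e1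
      rw [hW]
      simp only
      rw [e1]
      by_cases hzS : z ∈ S
      · rw [← Finset.add_sum_erase S _ hzS, map_sum]
        ring
      · have hcz : c z = 0 := by
          by_contra hne
          exact hzS ((hmemS z).2 ⟨hz, hne⟩)
        rw [Finset.erase_eq_of_notMem hzS, hcz, map_sum]
        simp
  have hUloc : ∀ z ∈ tsupport g, ∃ Y : ℂ → ℂ, ContDiffAt ℝ 1 Y z ∧
      (∀ᶠ w in 𝓝[≠] z, dv Y w = D w) ∧ (∀ᶠ w in 𝓝[≠] z, W w = Y w) ∧ U =ᶠ[𝓝 z] Y := by
    intro z hz
    obtain ⟨Y, y1, y2, y3⟩ := hWloc z hz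
    refine ⟨Y, y1, y2, y3, ?_⟩
    have y1' : ∀ᶠ w in 𝓝 z, ContinuousAt Y w := by
      filter_upwards [y1.eventually (by norm_num)] with w hw using hw.continuousAt
    have y3' := y3
    rw [eventually_nhdsWithin_iff] at y3'
    filter_upwards [y1', y3'.eventually_nhds] with w a1 a2
    have hlim : Tendsto W (𝓝[≠] w) (𝓝 (Y w)) := by
      have b1 : Tendsto Y (𝓝[≠] w) (𝓝 (Y w)) := a1.tendsto.mono_left nhdsWithin_le_nhds
      refine b1.congr' ?_
      by_cases hwz : w = z
      · rw [hwz]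
        filter_upwards [y3] with x hx using hx.symm
      · have : ∀ᶠ x in 𝓝 w, x ≠ z := isOpen_ne.mem_nhds hwz
        apply eventually_nhdsWithin_of_eventually_nhds
        filter_upwards [a2, this] with x hx hxz using (hx hxz).symm
    exact hlim.limUnder_eq
  have hUc : ∀ z ∈ tsupport g, ContDiffAt ℝ 1 U z := by
    intro z hz
    obtain ⟨Y, y1, -, -, y4⟩ := hUloc z hz
    exact y1.congr_of_eventuallyEq y4
  -- almost everywhere identities
  have hae1 : ∀ᵐ z : ℂ, z ∈ tsupport g →
      b z = U z + ∑ a ∈ S, (starRingEnd ℂ) (c a / (z - a)) := by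
    have hfin := finite_exc hK (P := fun w => b w = U w + ∑ a ∈ S, (starRingEnd ℂ) (c a / (w - a)))
      (fun z hz => by
        obtain ⟨Y, -, -, y3, y4⟩ := hUloc z hz
        filter_upwards [y3, eventually_nhdsWithin_of_eventually_nhds y4] with w a1 a2
        rw [a2, ← a1, hW]
        simp)
    have h0 := hfin.measure_zero (volume : Measure ℂ)
    rw [ae_iff]
    refine measure_mono_null ?_ h0
    intro z hz
    simp only [mem_ofPred_eq, Classical.not_imp] at hz
    exact hz
  have hae2 : ∀ᵐ z : ℂ, z ∈ tsupport g → dv U z = D z := by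
    have hfin := finite_exc hK (P := fun w => dv U w = D w)
      (fun z hz => by
        obtain ⟨Y, -, y2, -, y4⟩ := hUloc z hz
        filter_upwards [y2, eventually_nhdsWithin_of_eventually_nhds y4.eventuallyEq_nhds]
          with w a1 a2
        rw [dv_congr a2, a1])
    have h0 := hfin.measure_zero (volume : Measure ℂ)
    rw [ae_iff]
    refine measure_mono_null ?_ h0
    intro z hz
    simp only [mem_ofPred_eq, Classical.not_imp] at hz
    exact hz
  have hgr : Continuous (gr g) := continuous_gr hg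
  have hgc : HasCompactSupport (gr g) := hasCompactSupport_gr hc
  have iU : Integrable (fun z => ip (gr g z) (U z)) :=
    int_ip hgr hgc (fun z hz => (hUc z (tsupport_gr g hz)).continuousAt)
  have iD : Integrable (fun z => g z * dv U z) :=
    int_mul hg.continuous hc (fun z hz => continuousAt_dv (hUc z hz))
  have iS : ∀ a ∈ S, Integrable (fun z => ip (gr g z) ((starRingEnd ℂ) (c a / (z - a)))) :=
    fun a _ => int_res (gr g) hgr hgc (c a) a
  have eb : (fun z => ip (gr g z) (b z)) =ᵐ[volume] fun z => ip (gr g z) (U z) +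
      ∑ a ∈ S, ip (gr g z) ((starRingEnd ℂ) (c a / (z - a))) := by
    filter_upwards [hae1] with z hz
    by_cases hzt : z ∈ tsupport g
    · rw [hz hzt, ip_add_right]
      congr 1
      generalize S = T
      induction T using Finset.induction_on with
      | empty => simp
      | insert a T ha ih => rw [Finset.sum_insert ha, Finset.sum_insert ha, ip_add_right, ih]
    · rw [gr_eq_zero hzt]; simp
  have eD : (fun z => g z * D z) =ᵐ[volume] fun z => g z * dv U z := by
    filter_upwards [hae2] with z hz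
    by_cases hzt : z ∈ tsupport g
    · rw [hz hzt]
    · rw [image_eq_zero_of_notMem_tsupport hzt]; simp
  have iSum : Integrable (fun z => ∑ a ∈ S, ip (gr g z) ((starRingEnd ℂ) (c a / (z - a)))) :=
    integrable_finsetSum _ iS
  refine ⟨(iU.add iSum).congr eb.symm, iD.congr eD.symm, hSfin, ?_⟩
  have eD' : ∫ z, g z * D z = ∫ z, g z * dv U z := integral_congr_ae eD
  rw [integral_congr_ae eb, eD', integral_add iU iSum, ibp hg hc hUc,
    integral_finsetSum _ iS]
  have e3 : ∑ a ∈ S, ∫ z, ip (gr g z) ((starRingEnd ℂ) (c a / (z - a))) =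
      - (2 * Real.pi * ∑ᶠ z, (c z).re * g z) := by
    have hsupp : Function.support (fun z => (c z).re * g z) ⊆ S := by
      intro z hz
      rw [Finset.mem_coe, hmemS]
      rw [Function.mem_support] at hz
      refine ⟨?_, ?_⟩
      · by_contra hn
        apply hz
        rw [image_eq_zero_of_notMem_tsupport hn, mul_zero]
      · intro h0
        apply hz
        rw [h0]; simp
    rw [finsum_eq_sum_of_support_subset _ hsupp, Finset.mul_sum, ← Finset.sum_neg_distrib]
    refine Finset.sum_congr rfl fun a _ => ?_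
    rw [res_one hg hc (c a) a]
  rw [e3]
  ring

end Pool.Agent.MQ
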