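import Pool.Agent.MQ.Ax0
import Pool.Agent.MQ.ResGen

/-!
# MQ AxisT: the flux of the field of one axis

The flux of `χ conj a` is, up to residues, the integral of `τ ∇χ ⬝ conj a`.
-/

set_option autoImplicit false

open MeasureTheory Topology Filter Metric Laplacian

noncomputable section

namespace Pool.Agent.MQ.AxisA

open Pool.Agent.H30M (tau tau_nonneg contDiff_tau hcs_tau deriv_st_eq_zero deriv_st_nonneg pl_finite)
open Pool.Agent.H36.BP (EN fs)
open Pool.Agent.MQ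

variable {U : Set ℂ} {x y a b : ℂ → ℂ} {K κ : ℝ} {g : ℂ → ℂ}

theorem axis0_of (h : Axis U x y a b K κ g) : Axis0 U x y a b K 1 :=
  ⟨h.isOpen, h.hx, h.hy, h.ha, h.hb, h.dx, h.dy, h.ab, h.closed⟩

open Classical in
/-- the residues of `a` -/
def rs (h : Axis U x y a b K κ g) (z : ℂ) : ℂ :=
  if hz : z ∈ U ∧ x z = 0 ∧ y z = 0 then (h.pole z hz.1 hz.2.1 hz.2.2).choose else 0

theorem rs_hasRes (h : Axis U x y a b K κ g) {z : ℂ} (hz : z ∈ U) :
    HasRes (fun w => (starRingEnd ℂ) (a w)) (fun _ => 0) (rs h z) z := by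
  classical
  by_cases hp : x z = 0 ∧ y z = 0
  · have h1 : rs h z = (h.pole z hz hp.1 hp.2).choose := dif_pos ⟨hz, hp.1, hp.2⟩
    rw [h1]
    obtain ⟨H, hH, -, hH2, -⟩ := (h.pole z hz hp.1 hp.2).choose_spec
    exact hasRes_of_mero hH hH2
  · have h1 : rs h z = 0 := dif_neg fun h2 => hp h2.2
    have h2 : x z ≠ 0 ∨ y z ≠ 0 := by
      by_contra h3
      push Not at h3
      exact hp h3
    rw [h1]
    exact hasRes_of_mero (h.ha z hz h2) (Eventually.of_forall fun w => by simp)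

theorem rs_le (hκ : 0 ≤ κ) (h : Axis U x y a b K κ g) (z : ℂ) : (rs h z).re ≤ κ * mult g z := by
  classical
  by_cases hp : z ∈ U ∧ x z = 0 ∧ y z = 0
  · have h1 : rs h z = (h.pole z hp.1 hp.2.1 hp.2.2).choose := dif_pos hp
    rw [h1]
    obtain ⟨H, -, hH2, -⟩ := (h.pole z hp.1 hp.2.1 hp.2.2).choose_spec
    exact hH2
  · have h1 : rs h z = 0 := dif_neg hp
    rw [h1, Complex.zero_re]
    exact mul_nonneg hκ (Nat.cast_nonneg _)

end Pool.Agent.MQ.AxisA

namespace Pool.Agent.MQ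

open Pool.Agent.H30M (tau tau_nonneg contDiff_tau hcs_tau pl_finite)
open Pool.Agent.H36.BP (EN fs)
open AxisA

/-- **The flux of the field of one axis.** -/
theorem axis : ∃ c₁ : ℝ, 0 < c₁ ∧ ∀ {N : ℕ} {F : ℂ → EN N} (_ : Differentiable ℂ F) (_ : ∀ z, F z ≠ 0) {g : ℂ → ℂ} (_ : Differentiable ℂ g)
    (_ : ∃ z, g z ≠ 0) {d : ℕ} (_ : ∀ z, ‖g z‖ ≤ ‖F z‖ ^ d) {U : Set ℂ} {x y a b : ℂ → ℂ} {K κ : ℝ} (_ : 0 ≤ K) (_ : 0 ≤ κ) (_ : Axis U x y a b K κ g)
    {n : ℕ} (_ : 1 ≤ n) {r₀ η b₀ : ℝ} (_ : 0 < η) (_ : 2 * η ≤ r₀) (_ : r₀ < 1)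
    (_ : ∀ z ∈ U, ‖x z‖ ≤ η → r₀ / 2 ≤ ‖y z‖ → ‖y z‖ ≤ r₀ → g z ≠ 0 ∧ b₀ ≤ lu F g d z ∧ lu F g d z ≤ b₀ + 2 * n ∧
      (n / 2) * ‖b z‖ ≤ ‖gr (lu F g d) z‖),
    ∃ χ : ℂ → ℝ, (∀ z, 0 ≤ χ z ∧ χ z ≤ 1) ∧ (∀ z, χ z ≠ 0 → z ∈ U ∧ ‖x z‖ ≤ η ∧ ‖y z‖ ≤ r₀) ∧
      (∀ z ∈ U, ‖x z‖ ≤ η / 2 → ‖y z‖ ≤ r₀ / 2 → χ z = 1) ∧
      (∀ R, 1 ≤ R → Integrable fun z => ip (gr (tau R) z) (χ z * (starRingEnd ℂ) (a z))) ∧
      ∃ C, ∀ R, 1 ≤ R → Fl (fun z => χ z * (starRingEnd ℂ) (a z)) R ≤ (c₁ * K * (d / n) + 2 * κ * d) * En F R + C := by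
  obtain ⟨M, hM0, hM⟩ := st_deriv_bdd
  refine ⟨96 * M, by positivity, ?_⟩
  intro N F hF h0 g hg hg0 d hgF U x y a b K κ hK hκ h n hn r₀ η b₀ hη0 h2η hr hreg
  have hη : η ≤ r₀ := by linarith
  have hr0 : 0 < r₀ := by linarith
  obtain ⟨C₁, hC₁⟩ := ax_int hM0 hM hF h0 hg hgF hK (axis0_of h) hn hη0 hη hr hreg
  obtain ⟨C₂, hC₂⟩ := jen hF h0 hg hg0 hgF
  have hχ := contDiff_chi (axis0_of h) hη0 hη hr
  -- the main identity
  have main : ∀ R, 1 ≤ R → Integrable (fun z => ip (gr (tau R) z) (chi U x y η r₀ z * (starRingEnd ℂ) (a z))) ∧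
      Fl (fun z => chi U x y η r₀ z * (starRingEnd ℂ) (a z)) R = 2 * Real.pi * (∑ᶠ z, (rs h z).re * (tau R z * chi U x y η r₀ z)) +
        ∫ z, tau R z * ip (gr (chi U x y η r₀) z) ((starRingEnd ℂ) (a z)) := by
    intro R hR
    have hτ : ContDiff ℝ 1 (tau R) := (contDiff_tau R).of_le (by norm_num)
    have hφ : ContDiff ℝ 1 fun z => tau R z * chi U x y η r₀ z := hτ.mul hχ
    have hφc : HasCompactSupport fun z => tau R z * chi U x y η r₀ z := (hcs_tau hR).mul_right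
    have hsub : tsupport (fun z => tau R z * chi U x y η r₀ z) ⊆ TT U x y η r₀ :=
      (tsupport_mul_subset_right (f := tau R) (g := chi U x y η r₀)).trans (tsupport_chi (axis0_of h) hη0 hη hr)
    obtain ⟨i1, -, -, e1⟩ := res_gen hφ hφc (b := fun w => (starRingEnd ℂ) (a w)) (D := fun _ => 0) (c := rs h)
      fun z hz => rs_hasRes h (hsub hz).1
    have i2 : Integrable fun z => tau R z * ip (gr (chi U x y η r₀) z) ((starRingEnd ℂ) (a z)) :=
      Pool.Agent.H30M.integrable_tau_mul hR (continuous_ip_chi (axis0_of h) hη0 hη hr)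
    have hgr : ∀ z, gr (fun z => tau R z * chi U x y η r₀ z) z = (tau R z : ℂ) * gr (chi U x y η r₀) z + (chi U x y η r₀ z : ℂ) * gr (tau R) z :=
      fun z => gr_mul (hτ.contDiffAt.differentiableAt (by norm_num)) (hχ.contDiffAt.differentiableAt (by norm_num))
    have e2 : ∀ z, ip (gr (tau R) z) (chi U x y η r₀ z * (starRingEnd ℂ) (a z)) =
        ip (gr (fun z => tau R z * chi U x y η r₀ z) z) ((starRingEnd ℂ) (a z)) - tau R z * ip (gr (chi U x y η r₀) z) ((starRingEnd ℂ) (a z)) := by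
      intro z
      rw [hgr z, ip_add_left, ip_smul_left, ip_smul_left, ip_smul_right]
      ring
    refine ⟨(i1.sub i2).congr (Eventually.of_forall fun z => (e2 z).symm), ?_⟩
    unfold Fl
    rw [integral_congr_ae (Eventually.of_forall e2), integral_sub i1 i2, e1]
    simp only [mul_zero, integral_zero]
    ring
  refine ⟨chi U x y η r₀, fun z => ⟨chi_nonneg _ _ z, chi_le_one _ _ z⟩, fun z hz => mem_TT_of_ne hη0 hr0 hz, fun z hz hx hy => ?_,
    fun R hR => (main R hR).1, C₁ + κ * C₂, fun R hR => ?_⟩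
  · rw [chi_of_mem hz, ct_of_le hη0 hx, ct_of_le hr0 hy, one_mul]
  · rw [(main R hR).2]
    -- the residues
    have hmul : (Function.support fun z => mult g z * tau R z).Finite := by
      obtain ⟨w, hw⟩ := hg0
      have hA : AnalyticOnNhd ℂ g Set.univ := fun z _ => hg.analyticAt z
      refine pl_finite (hcs_tau hR) (fun z _ => hg.analyticAt z) fun z _ => ?_
      refine hA.analyticOrderAt_ne_top_of_isPreconnected isPreconnected_univ (Set.mem_univ w) (Set.mem_univ z) ?_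
      rw [(hg.analyticAt w).analyticOrderAt_eq_zero.2 hw]
      simp
    have hκm : (Function.support fun z => κ * (mult g z * tau R z)).Finite :=
      hmul.subset fun z hz h1 => hz (by simp only [h1, mul_zero])
    have hle : ∀ z, (rs h z).re * (tau R z * chi U x y η r₀ z) ≤ κ * (mult g z * tau R z) := by
      intro z
      have h1 := rs_le hκ h z
      have h2 : 0 ≤ tau R z * chi U x y η r₀ z := mul_nonneg (tau_nonneg hR z) (chi_nonneg _ _ z)
      have h3 : tau R z * chi U x y η r₀ z ≤ tau R z := mul_le_of_le_one_right (tau_nonneg hR z) (chi_le_one _ _ z)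
      have h4 : 0 ≤ κ * mult g z := mul_nonneg hκ (Nat.cast_nonneg _)
      calc (rs h z).re * (tau R z * chi U x y η r₀ z) ≤ κ * mult g z * (tau R z * chi U x y η r₀ z) := mul_le_mul_of_nonneg_right h1 h2
        _ ≤ κ * mult g z * tau R z := mul_le_mul_of_nonneg_left h3 h4
        _ = _ := by ring
    have hsum : 2 * Real.pi * (∑ᶠ z, (rs h z).re * (tau R z * chi U x y η r₀ z)) ≤ κ * (2 * d * En F R + C₂) := by
      by_cases hfin : (Function.support fun z => (rs h z).re * (tau R z * chi U x y η r₀ z)).Finite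
      · have h1 : ∑ᶠ z, (rs h z).re * (tau R z * chi U x y η r₀ z) ≤ ∑ᶠ z, κ * (mult g z * tau R z) := finsum_le_finsum' hfin hκm hle
        rw [← mul_finsum] at h1
        have h2 := mul_le_mul_of_nonneg_left (hC₂ R hR) hκ
        have h3 := mul_le_mul_of_nonneg_left h1 (show (0 : ℝ) ≤ 2 * Real.pi by positivity)
        linarith
      · rw [finsum_of_infinite_support hfin, mul_zero]
        have h1 : 0 ≤ 2 * Real.pi * ∑ᶠ z, mult g z * tau R z :=
          mul_nonneg (by positivity) (finsum_nonneg fun z => mul_nonneg (Nat.cast_nonneg _) (tau_nonneg hR z))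
        exact mul_nonneg hκ (h1.trans (hC₂ R hR))
    have hint : ∫ z, tau R z * ip (gr (chi U x y η r₀) z) ((starRingEnd ℂ) (a z)) ≤
        ∫ z, tau R z * max 0 (ip (gr (chi U x y η r₀) z) ((starRingEnd ℂ) (a z))) :=
      integral_mono (Pool.Agent.H30M.integrable_tau_mul hR (continuous_ip_chi (axis0_of h) hη0 hη hr))
        (Pool.Agent.H30M.integrable_tau_mul hR (continuous_const.max (continuous_ip_chi (axis0_of h) hη0 hη hr)))
        fun z => mul_le_mul_of_nonneg_left (le_max_right _ _) (tau_nonneg hR z)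
    have h5 := hC₁ R hR
    nlinarith [hsum, hint, h5]

end Pool.Agent.MQ
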