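import Pool.Agent.MQ.GeoDefs
import Pool.Agent.MQ.Sing

/-!
# MQ Box: the boxes
-/

set_option autoImplicit false

open Topology Filter Metric MvPolynomial Asymptotics

noncomputable section

namespace Pool.Agent.MQ

open Pool.Agent.H36.BP (EN)
open Pool.Agent.H17BP (IsChart Surface Pr)
open Pool.Agent.H17EF (projVar coneE)

variable {M : ℕ}

private theorem analyticAt_coord {E : Type*} [NormedAddCommGroup E] [NormedSpace ℂ E] {f : E → EN M} {x : E} (hf : AnalyticAt ℂ f x) (k : Fin (M + 1)) :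
    AnalyticAt ℂ (fun p => f p k) x :=
  AnalyticAt.comp (g := fun v : EN M => (EuclideanSpace.proj k : EN M →L[ℂ] ℂ) v) (f := f) ((EuclideanSpace.proj k : EN M →L[ℂ] ℂ).analyticAt _) hf

private theorem exists_coord {x : EN M} (hx : x ≠ 0) : ∃ k, x k ≠ 0 := by
  by_contra hcon
  push Not at hcon
  exact hx (by ext k; exact hcon k)

/-- a chart is injective up to scalars -/
theorem chart_inj {X : Set (EN M)} {σ : ℂ × ℂ → EN M} {τ : EN M → ℂ × ℂ} (hσ : IsChart X σ τ) :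
    ∀ᶠ p in 𝓝 ((0 : ℂ × ℂ), (0 : ℂ × ℂ)), ∀ c : ℂ, σ p.1 = c • σ p.2 → p.1 = p.2 := by
  obtain ⟨k, hk⟩ := exists_coord hσ.ne
  have hcoord := analyticAt_coord hσ.σ_an k
  have t1 : Tendsto (fun p : (ℂ × ℂ) × (ℂ × ℂ) => p.1) (𝓝 ((0 : ℂ × ℂ), (0 : ℂ × ℂ))) (𝓝 0) := continuous_fst.tendsto _
  have t2 : Tendsto (fun p : (ℂ × ℂ) × (ℂ × ℂ) => p.2) (𝓝 ((0 : ℂ × ℂ), (0 : ℂ × ℂ))) (𝓝 0) := continuous_snd.tendsto _
  have h1 : Tendsto (fun p : (ℂ × ℂ) × (ℂ × ℂ) => (σ p.2, σ p.1 k / σ p.2 k)) (𝓝 ((0 : ℂ × ℂ), (0 : ℂ × ℂ))) (𝓝 (σ 0, (1 : ℂ))) := by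
    refine (hσ.σ_an.continuousAt.tendsto.comp t2).prodMk_nhds ?_
    have h2 := (hcoord.continuousAt.tendsto.comp t1).div (hcoord.continuousAt.tendsto.comp t2) hk
    rwa [div_self hk] at h2
  filter_upwards [h1.eventually hσ.inv, t1.eventually hσ.left, t2.eventually hσ.left, t2.eventually (hcoord.continuousAt.eventually_ne hk)]
    with p h2 h3 h4 h5 c h6
  have h7 : σ p.1 k = c * σ p.2 k := by
    rw [h6]
    rfl
  have h8 : σ p.1 k / σ p.2 k = c := by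
    rw [h7]
    field_simp
  simp only [h8] at h2
  rw [← h3, ← h4, h6, h2, h4]

/-- a chart is an immersion transversal to the lines -/
theorem chart_imm {X : Set (EN M)} {σ : ℂ × ℂ → EN M} {τ : EN M → ℂ × ℂ} (hσ : IsChart X σ τ) :
    ∀ᶠ p in 𝓝 (0 : ℂ × ℂ), LinearIndependent ℂ ![σ p, fderiv ℂ σ p (1, 0), fderiv ℂ σ p (0, 1)] := by
  have hσc : Tendsto σ (𝓝 (0 : ℂ × ℂ)) (𝓝 (σ 0)) := hσ.σ_an.continuousAt.tendsto
  have t1 : Tendsto (fun p : ℂ × ℂ => (σ p, (1 : ℂ))) (𝓝 0) (𝓝 (σ 0, (1 : ℂ))) := hσc.prodMk_nhds tendsto_const_nhds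
  filter_upwards [hσ.σ_an.eventually_analyticAt, hσ.left.eventually_nhds, hσc.eventually hσ.τ_an.eventually_analyticAt,
    t1.eventually hσ.inv.eventually_nhds, hσ.σ_an.continuousAt.eventually_ne hσ.ne] with p h1 h2 h3 h4 h5
  have h6 : ∀ w : ℂ × ℂ, fderiv ℂ τ (σ p) (fderiv ℂ σ p w) = w := by
    intro w
    have h7 : HasFDerivAt (fun q => τ (σ q)) ((fderiv ℂ τ (σ p)).comp (fderiv ℂ σ p)) p :=
      HasFDerivAt.comp (g := τ) (f := σ) p h3.differentiableAt.hasFDerivAt h1.differentiableAt.hasFDerivAt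
    have h8 : HasFDerivAt (fun q => τ (σ q)) (ContinuousLinearMap.id ℂ (ℂ × ℂ)) p :=
      (hasFDerivAt_id p).congr_of_eventuallyEq (h2.mono fun q hq => hq)
    have h9 := h7.unique h8
    exact congrArg (fun L : (ℂ × ℂ) →L[ℂ] (ℂ × ℂ) => L w) h9
  have h7 : fderiv ℂ τ (σ p) (σ p) = 0 := by
    have h8 : HasDerivAt (fun c : ℂ => c • σ p) (σ p) 1 := by
      have h9 : HasDerivAt (fun c : ℂ => c • σ p) ((1 : ℂ) • σ p) 1 := (hasDerivAt_id (1 : ℂ)).smul_const (σ p)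
      rwa [one_smul] at h9
    have h9 : HasFDerivAt τ (fderiv ℂ τ (σ p)) ((1 : ℂ) • σ p) := by
      rw [one_smul]
      exact h3.differentiableAt.hasFDerivAt
    have h10 : HasDerivAt (fun c : ℂ => τ (c • σ p)) (fderiv ℂ τ (σ p) (σ p)) 1 := h9.comp_hasDerivAt (1 : ℂ) h8
    have h11 : Tendsto (fun c : ℂ => (σ p, c)) (𝓝 1) (𝓝 (σ p, (1 : ℂ))) := tendsto_const_nhds.prodMk_nhds tendsto_id
    have h12 : HasDerivAt (fun c : ℂ => τ (c • σ p)) 0 1 :=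
      (hasDerivAt_const (1 : ℂ) (τ (σ p))).congr_of_eventuallyEq ((h11.eventually h4).mono fun c hc => hc)
    exact h10.unique h12
  rw [Fintype.linearIndependent_iff]
  intro g hg
  rw [Fin.sum_univ_three] at hg
  simp only [Matrix.cons_val_zero, Matrix.cons_val_one, Matrix.cons_val_two, Matrix.head_cons, Matrix.tail_cons] at hg
  have h8 := congrArg (fderiv ℂ τ (σ p)) hg
  rw [map_add, map_add, map_smul, map_smul, map_smul, map_zero, h6, h6, h7] at h8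
  have h9 := congrArg Prod.fst h8
  have h10 := congrArg Prod.snd h8
  simp at h9 h10
  rw [h9, h10, zero_smul, zero_smul, add_zero, add_zero] at hg
  have h11 := (smul_eq_zero.1 hg).resolve_right h5
  intro i
  fin_cases i
  · exact h11
  · exact h9
  · exact h10

/-- the coordinate map of a chart -/
theorem chart_opn {X : Set (EN M)} {σ : ℂ × ℂ → EN M} {τ : EN M → ℂ × ℂ} (hσ : IsChart X σ τ) :
    ∀ᶠ p in 𝓝 (0 : ℂ × ℂ), ∃ (T : EN M → ℂ × ℂ) (c : EN M → ℂ), AnalyticAt ℂ T (σ p) ∧ AnalyticAt ℂ c (σ p) ∧ T (σ p) = p ∧ c (σ p) = 1 ∧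
      ∀ᶠ y in 𝓝 (σ p), y ∈ X → y = c y • σ (T y) := by
  have hσc : Tendsto σ (𝓝 (0 : ℂ × ℂ)) (𝓝 (σ 0)) := hσ.σ_an.continuousAt.tendsto
  obtain ⟨k, hk⟩ := exists_coord hσ.ne
  have hcoord := analyticAt_coord hσ.σ_an k
  filter_upwards [hσ.σ_an.eventually_analyticAt, hσ.left, hσc.eventually hσ.τ_an.eventually_analyticAt,
    hσc.eventually hσ.right.eventually_nhds, hcoord.continuousAt.eventually_ne hk] with p h1 h2 h3 h4 h5
  have h6 : AnalyticAt ℂ (fun y => σ (τ y)) (σ p) := AnalyticAt.comp (g := σ) (f := τ) (by rw [h2]; exact h1) h3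
  have h7 : σ (τ (σ p)) k ≠ 0 := by rwa [h2]
  have h8 : AnalyticAt ℂ (fun y : EN M => y k) (σ p) := analyticAt_coord (f := fun y : EN M => y) analyticAt_id k
  refine ⟨τ, fun y => y k / σ (τ y) k, h3, h8.div (analyticAt_coord h6 k) h7, h2, ?_, ?_⟩
  · show σ p k / σ (τ (σ p)) k = 1
    rw [h2]
    exact div_self h5
  · filter_upwards [h4, (analyticAt_coord h6 k).continuousAt.eventually_ne h7] with y h9 h10 hy
    obtain ⟨c, hc, h11⟩ := h9 hy
    have h12 : y k = c * σ (τ y) k := by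
      conv_lhs => rw [h11]
      rfl
    have h13 : y k / σ (τ y) k = c := by
      rw [h12]
      field_simp
    rw [h13]
    exact h11

/-- a property of the points near `0` holds on small closed polydiscs -/
theorem closedBall_of_eventually {E : Type*} [NormedAddCommGroup E] {p : E → Prop} (h : ∀ᶠ x in 𝓝 (0 : E), p x) :
    ∀ᶠ r in 𝓝[>] (0 : ℝ), ∀ x ∈ closedBall (0 : E) r, p x := by
  obtain ⟨ε, hε, h1⟩ := Metric.eventually_nhds_iff_ball.1 h
  filter_upwards [mem_nhdsWithin_of_mem_nhds (Iio_mem_nhds hε)] with r hr x hx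
  exact h1 x (mem_ball.2 (lt_of_le_of_lt (mem_closedBall.1 hx) (Set.mem_Iio.1 hr)))

/-- MODULE Box: a germ of a chart gives small boxes -/
theorem gbox_of_germ {P : Ideal (MvPolynomial (Fin (M + 1)) ℂ)} {FF : Set (EN M × EN M)} (hX : Surface (coneE P)) {σ : ℂ × ℂ → EN M}
    {τ : EN M → ℂ × ℂ} {v : ℂ × ℂ → ℂ × ℂ} (hσ : IsChart (coneE P) σ τ) (hsp : Spans FF σ v) (hv : AnalyticAt ℂ v 0)
    (hv0 : ∀ᶠ p in 𝓝 (0 : ℂ × ℂ), p ≠ 0 → v p ≠ 0) : ∀ᶠ r in 𝓝[>] (0 : ℝ), ∃ B : GBox P FF, B.σ = σ ∧ B.v = v ∧ B.r = r := by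
  filter_upwards [closedBall_of_eventually hσ.σ_an.eventually_analyticAt, closedBall_of_eventually hv.eventually_analyticAt,
    closedBall_of_eventually hσ.σ_mem, closedBall_of_eventually (E := (ℂ × ℂ) × (ℂ × ℂ)) (chart_inj hσ), closedBall_of_eventually (chart_imm hσ),
    closedBall_of_eventually hsp, closedBall_of_eventually (chart_opn hσ), closedBall_of_eventually hv0, self_mem_nhdsWithin]
    with r h1 h2 h3 h4 h5 h6 h7 h8 h9
  refine ⟨{
    σ := σ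
    v := v
    r := r
    pos := h9
    σ_an := h1
    v_an := h2
    mem := h3
    inj := fun p hp q hq c hc => h4 (p, q) ?_ c hc
    imm := h5
    spans := h6
    opn := fun p hp => h7 p (ball_subset_closedBall hp)
    cone := hX.smul
    zero := fun p hp hpv => ?_ }, rfl, rfl, rfl⟩
  · rw [mem_closedBall, dist_zero_right] at hp hq ⊢
    exact max_le hp hq
  · by_contra h10
    exact h8 p hp h10 hpv

theorem gbox_analytic {a : ℂ × ℂ → ℂ} (ha : AnalyticAt ℂ a 0) : ∀ᶠ r in 𝓝[>] (0 : ℝ), AnalyticOnNhd ℂ a (closedBall 0 r) :=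
  closedBall_of_eventually ha.eventually_analyticAt

theorem gbox_ne {a : ℂ × ℂ → ℂ} (ha : AnalyticAt ℂ a 0) (ha0 : a 0 ≠ 0) : ∀ᶠ r in 𝓝[>] (0 : ℝ), ∀ p ∈ closedBall (0 : ℂ × ℂ) r, a p ≠ 0 :=
  closedBall_of_eventually (ha.continuousAt.eventually_ne ha0)

/-- the vector field of a reduced germ is analytic -/
theorem Reduced.analytic {P : Ideal (MvPolynomial (Fin (M + 1)) ℂ)} {σ : ℂ × ℂ → EN M} {v : ℂ × ℂ → ℂ × ℂ} (h : Reduced P σ v) : AnalyticAt ℂ v 0 := by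
  cases h with
  | regular h =>
    have h1 : v = fun _ => (0, 1) := funext h
    rw [h1]
    exact analyticAt_const
  | node a b ha hb ha0 hb0 hq h =>
    have h1 : v = fun p => (p.1 * a p, p.2 * b p) := funext h
    rw [h1]
    exact (analyticAt_fst.mul ha).prod (analyticAt_snd.mul hb)
  | saddleNode k hk a b ha hb ha0 hb0 h =>
    have h1 : v = fun p => (p.1 ^ (k + 1) * a p, p.2 * b p) := funext h
    rw [h1]
    exact ((analyticAt_fst.pow _).mul ha).prod (analyticAt_snd.mul hb)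
  | formal k hk a b ha hb ha0 hb0 h c hc hJ hR =>
    have h1 : v = fun p => (p.1 ^ (k + 1) * a p, b p) := funext h
    rw [h1]
    exact ((analyticAt_fst.pow _).mul ha).prod hb

/-- `v ≠ 0` outside the center -/
theorem Reduced.ne {P : Ideal (MvPolynomial (Fin (M + 1)) ℂ)} {σ : ℂ × ℂ → EN M} {v : ℂ × ℂ → ℂ × ℂ} (h : Reduced P σ v) :
    ∀ᶠ p in 𝓝 (0 : ℂ × ℂ), p ≠ 0 → v p ≠ 0 := by
  rcases h.cases with h3 | ⟨-, h3⟩
  · exact Eventually.of_forall fun p _ => by rw [h3 p]; simp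
  · exact h3

/-- a reduced germ gives small boxes -/
theorem gbox_of_reduced {P : Ideal (MvPolynomial (Fin (M + 1)) ℂ)} {FF : Set (EN M × EN M)} (hX : Surface (coneE P)) {σ : ℂ × ℂ → EN M}
    {τ : EN M → ℂ × ℂ} {v : ℂ × ℂ → ℂ × ℂ} (hσ : IsChart (coneE P) σ τ) (hsp : Spans FF σ v) (h : Reduced P σ v) :
    ∀ᶠ r in 𝓝[>] (0 : ℝ), ∃ B : GBox P FF, B.σ = σ ∧ B.v = v ∧ B.r = r ∧ (B.Reg ∨ RedBox B) := by
  have h1 := gbox_of_germ hX hσ hsp h.analytic h.ne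
  cases h with
  | regular h =>
    filter_upwards [h1] with r ⟨B, h2, h3, h4⟩
    exact ⟨B, h2, h3, h4, Or.inl fun p => by rw [h3, h]⟩
  | node a b ha hb ha0 hb0 hq h =>
    filter_upwards [h1, gbox_analytic ha, gbox_analytic hb, gbox_ne ha ha0, gbox_ne hb hb0] with r ⟨B, h2, h3, h4⟩ h5 h6 h7 h8
    refine ⟨B, h2, h3, h4, Or.inr (.node a b ?_ ?_ ?_ ?_ hq fun p => by rw [h3, h])⟩
    · rwa [h4]
    · rwa [h4]
    · rwa [h4]
    · rwa [h4]
  | saddleNode k hk a b ha hb ha0 hb0 h =>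
    filter_upwards [h1, gbox_analytic ha, gbox_analytic hb, gbox_ne ha ha0, gbox_ne hb hb0] with r ⟨B, h2, h3, h4⟩ h5 h6 h7 h8
    refine ⟨B, h2, h3, h4, Or.inr (.saddleNode k hk a b ?_ ?_ ?_ ?_ fun p => by rw [h3, h])⟩
    · rwa [h4]
    · rwa [h4]
    · rwa [h4]
    · rwa [h4]
  | formal k hk a b ha hb ha0 hb0 h c hc hJ hR =>
    filter_upwards [h1, gbox_analytic ha, gbox_analytic hb, gbox_ne ha ha0] with r ⟨B, h2, h3, h4⟩ h5 h6 h7
    refine ⟨B, h2, h3, h4, Or.inr (.formal k hk a b ?_ ?_ ?_ hb0 (fun p => by rw [h3, h]) c hc hJ ?_)⟩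
    · rwa [h4]
    · rwa [h4]
    · rwa [h4]
    · rwa [h2]

/-- MODULE Box -/
theorem exists_gbox {P : Ideal (MvPolynomial (Fin (M + 1)) ℂ)} {FF : Set (EN M × EN M)} (hX : Surface (coneE P)) (h : IsReduced P FF) {x : EN M}
    (hx : x ∈ coneE P) {W : Set (EN M)} (hW : W ∈ 𝓝 x) :
    ∃ B : GBox P FF, B.σ 0 = x ∧ (∀ p ∈ closedBall (0 : ℂ × ℂ) B.r, B.σ p ∈ W) ∧ (B.Reg ∨ RedBox B) := by
  obtain ⟨σ, τ, v, hσ, h0, hsp, hred⟩ := h x hx
  have hσc : Tendsto σ (𝓝 (0 : ℂ × ℂ)) (𝓝 x) := by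
    have := hσ.σ_an.continuousAt.tendsto
    rwa [h0] at this
  have h1 : ∀ᶠ p in 𝓝 (0 : ℂ × ℂ), σ p ∈ W := hσc hW
  obtain ⟨r, ⟨B, h2, h3, h4, h5⟩, h6⟩ := ((gbox_of_reduced hX hσ hsp hred).and (closedBall_of_eventually h1)).exists
  refine ⟨B, by rw [h2, h0], ?_, h5⟩
  rw [h2, h4]
  exact h6

end Pool.Agent.MQ
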