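import Pool.Agent.MQ.GeoDefs

/-!
# MQ InvS: the local equations of the boxes are analytic and their divisors are invariant
-/

set_option autoImplicit false

open Topology Filter Metric MvPolynomial

noncomputable section

namespace Pool.Agent.MQ

open Pool.Agent.H36.BP (EN)

variable {M : ℕ} {P : Ideal (MvPolynomial (Fin (M + 1)) ℂ)} {FF : Set (EN M × EN M)}

namespace InvS

/-- `g` is analytic on the closed polydisc of radius `r` and `dg (v) = h g` with `h` analytic there -/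
def Q (r : ℝ) (v : ℂ × ℂ → ℂ × ℂ) (g : ℂ × ℂ → ℂ) : Prop :=
  AnalyticOnNhd ℂ g (closedBall 0 r) ∧ ∃ h : ℂ × ℂ → ℂ, AnalyticOnNhd ℂ h (closedBall 0 r) ∧
    ∀ p ∈ closedBall (0 : ℂ × ℂ) r, ∀ᶠ w in 𝓝 p, fderiv ℂ g w (v w) = h w * g w

theorem Q.one {r : ℝ} {v : ℂ × ℂ → ℂ × ℂ} {g : ℂ × ℂ → ℂ} (hg : ∀ p, g p = 1) : Q r v g := by
  have : g = fun _ => 1 := funext hg
  subst this
  refine ⟨analyticOnNhd_const, fun _ => 0, analyticOnNhd_const, fun p _ => Eventually.of_forall fun w => ?_⟩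
  simp

theorem Q.fst {r : ℝ} {v : ℂ × ℂ → ℂ × ℂ} {g a : ℂ × ℂ → ℂ} (hg : ∀ p, g p = p.1) (ha : AnalyticOnNhd ℂ a (closedBall 0 r))
    (hv : ∀ p, (v p).1 = p.1 * a p) : Q r v g := by
  have : g = fun p => p.1 := funext hg
  subst this
  refine ⟨fun p _ => analyticAt_fst, a, ha, fun p _ => Eventually.of_forall fun w => ?_⟩
  have : fderiv ℂ (fun p : ℂ × ℂ => p.1) w = ContinuousLinearMap.fst ℂ ℂ ℂ := fderiv_fst
  rw [this, ContinuousLinearMap.coe_fst', hv, mul_comm]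

theorem Q.snd {r : ℝ} {v : ℂ × ℂ → ℂ × ℂ} {g a : ℂ × ℂ → ℂ} (hg : ∀ p, g p = p.2) (ha : AnalyticOnNhd ℂ a (closedBall 0 r))
    (hv : ∀ p, (v p).2 = p.2 * a p) : Q r v g := by
  have : g = fun p => p.2 := funext hg
  subst this
  refine ⟨fun p _ => analyticAt_snd, a, ha, fun p _ => Eventually.of_forall fun w => ?_⟩
  have : fderiv ℂ (fun p : ℂ × ℂ => p.2) w = ContinuousLinearMap.snd ℂ ℂ ℂ := fderiv_snd
  rw [this, ContinuousLinearMap.coe_snd', hv, mul_comm]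

theorem Q.mul {r : ℝ} {v : ℂ × ℂ → ℂ × ℂ} {g g₁ g₂ : ℂ × ℂ → ℂ} (hg : ∀ p, g p = g₁ p * g₂ p) (h₁ : Q r v g₁) (h₂ : Q r v g₂) : Q r v g := by
  have : g = fun p => g₁ p * g₂ p := funext hg
  subst this
  obtain ⟨e₁, a₁, ha₁, k₁⟩ := h₁
  obtain ⟨e₂, a₂, ha₂, k₂⟩ := h₂
  refine ⟨e₁.mul e₂, fun w => a₁ w + a₂ w, ha₁.add ha₂, fun p hp => ?_⟩
  filter_upwards [k₁ p hp, k₂ p hp, (e₁ p hp).eventually_analyticAt, (e₂ p hp).eventually_analyticAt] with w q₁ q₂ d₁ d₂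
  rw [fderiv_fun_mul d₁.differentiableAt d₂.differentiableAt]
  simp only [ContinuousLinearMap.add_apply, ContinuousLinearMap.smul_apply, smul_eq_mul, q₁, q₂]
  ring

theorem Q.inv {B : GBox P FF} {g : ℂ × ℂ → ℂ} (h : Q B.r B.v g) : AnalyticOnNhd ℂ g (closedBall 0 B.r) ∧ InvEq B g := by
  obtain ⟨e, a, ha, k⟩ := h
  exact ⟨e, fun p hp _ => ⟨a, ha p hp, k p hp⟩⟩

end InvS

open InvS in
theorem SingBox.inv {B : GBox P FF} {g : ℂ × ℂ → ℂ} (h : SingBox B g) : AnalyticOnNhd ℂ g (closedBall 0 B.r) ∧ InvEq B g := by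
  apply InvS.Q.inv
  have pw : ∀ (k : ℕ) {a : ℂ × ℂ → ℂ}, AnalyticOnNhd ℂ a (closedBall 0 B.r) → AnalyticOnNhd ℂ (fun p : ℂ × ℂ => p.1 ^ k * a p) (closedBall 0 B.r) :=
    fun k a ha p hp => (analyticAt_fst.pow k).mul (ha p hp)
  cases h with
  | node a b g₁ g₂ ha hb ha0 hb0 hq hv hg h₁ h₂ =>
    refine Q.mul hg ?_ ?_
    · rcases h₁ with h₁ | ⟨h₁, -⟩
      · exact Q.fst h₁ ha fun p => by rw [hv]
      · exact Q.one h₁
    · rcases h₂ with h₂ | ⟨h₂, -⟩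
      · exact Q.snd h₂ hb fun p => by rw [hv]
      · exact Q.one h₂
  | saddleNode k hk a b g₁ ha hb ha0 hb0 hv hg h₁ =>
    refine Q.mul hg ?_ (Q.snd (fun p => rfl) hb fun p => by rw [hv])
    rcases h₁ with h₁ | ⟨h₁, -⟩
    · exact Q.fst h₁ (pw k ha) fun p => by rw [hv, pow_succ]; ring
    · exact Q.one h₁
  | formal k hk a b ha hb ha0 hb0 hv c hc hJ hR hg =>
    rcases hg with hg | ⟨hg, -⟩
    · exact Q.fst hg (pw k ha) fun p => by rw [hv, pow_succ]; ring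
    · exact Q.one hg

theorem reg_inv {B : GBox P FF} (hB : B.Reg) {g : ℂ × ℂ → ℂ} {S : Finset ℂ} (hg : ∀ p, g p = ∏ a ∈ S, (p.1 - a)) :
    AnalyticOnNhd ℂ g (closedBall 0 B.r) ∧ InvEq B g := by
  have : g = fun p => ∏ a ∈ S, (p.1 - a) := funext hg
  subst this
  refine ⟨fun p _ => Finset.analyticAt_fun_prod S fun a _ => analyticAt_fst.sub analyticAt_const, fun p _ _ => ⟨fun _ => 0, analyticAt_const, Eventually.of_forall fun w => ?_⟩⟩
  have hv : B.v w = ((0 : ℂ), (1 : ℂ)) := hB w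
  rw [hv, zero_mul]
  have hf : AnalyticAt ℂ (fun x : ℂ => ∏ a ∈ S, (x - a)) w.1 := Finset.analyticAt_fun_prod S fun a _ => analyticAt_id.sub analyticAt_const
  have h1 : HasFDerivAt (fun p : ℂ × ℂ => ∏ a ∈ S, (p.1 - a)) ((fderiv ℂ (fun x : ℂ => ∏ a ∈ S, (x - a)) w.1).comp (ContinuousLinearMap.fst ℂ ℂ ℂ)) w :=
    HasFDerivAt.comp w hf.differentiableAt.hasFDerivAt hasFDerivAt_fst
  rw [h1.fderiv]
  simp

end Pool.Agent.MQ
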