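import Pool.Agent.MQ.CDefs
import Pool.Agent.H17BP.Ift
import Pool.Agent.H17BP.Div

/-!
# MQ Unit (C8): two local equations with the same zeros
-/

set_option autoImplicit false

open Topology Filter MvPolynomial Asymptotics

noncomputable section

namespace Pool.Agent.MQ

open Pool.Agent.H36.BP (EN)
open Pool.Agent.H17BP (IsChart Pr Surface Coord coord_iff exists_div_x dx dy)
open Pool.Agent.H17EF (projVar coneE)

variable {M : ℕ}

/-- a linear form on `ℂ × ℂ` is zero if it vanishes on the basis -/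
private theorem Unit_lin {L : ℂ × ℂ →L[ℂ] ℂ} (h1 : L (1, 0) = 0) (h2 : L (0, 1) = 0) : L = 0 := by
  refine ContinuousLinearMap.ext fun x => ?_
  have e : x = x.1 • ((1, 0) : ℂ × ℂ) + x.2 • ((0, 1) : ℂ × ℂ) := by ext <;> simp
  rw [e, map_add, map_smul, map_smul, h1, h2]
  simp

private theorem Unit_zero_coord {l l' T : ℂ × ℂ → ℂ} (hl : AnalyticAt ℂ l 0) (hl' : AnalyticAt ℂ l' 0) (h0 : l 0 = 0)
    (hT : Coord l T) (h' : fderiv ℂ l' 0 ≠ 0) (hz : ∀ᶠ x in 𝓝 0, (l x = 0 → l' x = 0)) :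
    ∃ u : ℂ × ℂ → ℂ, AnalyticAt ℂ u 0 ∧ u 0 ≠ 0 ∧ ∀ᶠ x in 𝓝 0, l' x = u x * l x := by
  obtain ⟨θ', g1, g2, g3, g4⟩ := hT.inv
  have han : AnalyticAt ℂ (fun x => (l x, T x)) 0 := hT.an
  have hzero : (fun x => (l x, T x)) (0 : ℂ × ℂ) = 0 := hT.zero
  have hh : AnalyticAt ℂ (fun z => l' (θ' z)) 0 := by
    have : AnalyticAt ℂ l' (θ' 0) := by rw [g2]; exact hl'
    exact this.comp g1
  have hc' : Tendsto θ' (𝓝 0) (𝓝 0) := by
    have := g1.continuousAt.tendsto; rwa [g2] at this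
  have hcθ : Tendsto (fun x => (l x, T x)) (𝓝 (0 : ℂ × ℂ)) (𝓝 0) := by
    have h : Tendsto (fun x => (l x, T x)) (𝓝 (0 : ℂ × ℂ)) (𝓝 ((fun x => (l x, T x)) (0 : ℂ × ℂ))) := han.continuousAt
    rwa [hzero] at h
  have hv : ∀ᶠ y in 𝓝 (0 : ℂ), (fun z => l' (θ' z)) (0, y) = 0 := by
    have e1 : ∀ᶠ z in 𝓝 (0 : ℂ × ℂ), (l (θ' z), T (θ' z)) = z ∧ (l (θ' z) = 0 → l' (θ' z) = 0) := by
      filter_upwards [g4, hc'.eventually hz] with z a b using ⟨a, b⟩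
    have e2 : Tendsto (fun y : ℂ => ((0, y) : ℂ × ℂ)) (𝓝 0) (𝓝 0) :=
      (Continuous.prodMk_right (0 : ℂ)).tendsto' _ _ rfl
    filter_upwards [e2.eventually e1] with y hy
    apply hy.2
    have := congrArg Prod.fst hy.1
    exact this
  obtain ⟨k, hk, hk2⟩ := exists_div_x hh hv
  have hk' : AnalyticAt ℂ (fun x => k (l x, T x)) 0 := by
    have h3 : AnalyticAt ℂ k ((fun x => (l x, T x)) (0 : ℂ × ℂ)) := by rw [hzero]; exact hk
    exact AnalyticAt.comp (g := k) (f := fun x => (l x, T x)) h3 han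
  have heq : ∀ᶠ x in 𝓝 (0 : ℂ × ℂ), l' x = k (l x, T x) * l x := by
    filter_upwards [g3, hcθ.eventually hk2] with x a b
    rw [a] at b
    rw [b, smul_eq_mul, mul_comm]
  refine ⟨fun x => k (l x, T x), hk', ?_, heq⟩
  intro hu0
  apply h'
  have e3 : HasFDerivAt (fun x => k (l x, T x) * l x)
      (k (l 0, T 0) • fderiv ℂ l 0 + l 0 • fderiv ℂ (fun x => k (l x, T x)) 0) 0 :=
    hk'.differentiableAt.hasFDerivAt.mul hl.differentiableAt.hasFDerivAt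
  have e4 : HasFDerivAt l' (k (l 0, T 0) • fderiv ℂ l 0 + l 0 • fderiv ℂ (fun x => k (l x, T x)) 0) 0 :=
    e3.congr_of_eventuallyEq heq
  have hu0' : k (l 0, T 0) = 0 := hu0
  rw [e4.fderiv]
  refine ContinuousLinearMap.ext fun x => ?_
  show k (l 0, T 0) * fderiv ℂ l 0 x + l 0 * fderiv ℂ (fun x => k (l x, T x)) 0 x = 0
  rw [hu0', h0, zero_mul, zero_mul, add_zero]

private theorem Unit_zero {l l' : ℂ × ℂ → ℂ} (hl : AnalyticAt ℂ l 0) (hl' : AnalyticAt ℂ l' 0) (h0 : l 0 = 0)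
    (h : fderiv ℂ l 0 ≠ 0) (h' : fderiv ℂ l' 0 ≠ 0) (hz : ∀ᶠ x in 𝓝 0, (l x = 0 → l' x = 0)) :
    ∃ u : ℂ × ℂ → ℂ, AnalyticAt ℂ u 0 ∧ u 0 ≠ 0 ∧ ∀ᶠ x in 𝓝 0, l' x = u x * l x := by
  by_cases hx : dx l 0 = 0
  · have hy : dy l 0 ≠ 0 := by
      intro hy
      exact h (Unit_lin hx hy)
    have hT : AnalyticAt ℂ (fun x : ℂ × ℂ => x.1) 0 := analyticAt_fst
    have hd : HasFDerivAt (fun x : ℂ × ℂ => x.1) (ContinuousLinearMap.fst ℂ ℂ ℂ) 0 := hasFDerivAt_fst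
    have e1 : dx (fun x : ℂ × ℂ => x.1) 0 = 1 := by
      show fderiv ℂ (fun x : ℂ × ℂ => x.1) 0 (1, 0) = 1
      rw [hd.fderiv]; rfl
    have e2 : dy (fun x : ℂ × ℂ => x.1) 0 = 0 := by
      show fderiv ℂ (fun x : ℂ × ℂ => x.1) 0 (0, 1) = 0
      rw [hd.fderiv]; rfl
    have hc : Coord l (fun x => x.1) := by
      rw [coord_iff hl hT h0 rfl, e1, e2, hx]
      simpa using hy
    exact Unit_zero_coord hl hl' h0 hc h' hz
  · have hT : AnalyticAt ℂ (fun x : ℂ × ℂ => x.2) 0 := analyticAt_snd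
    have hd : HasFDerivAt (fun x : ℂ × ℂ => x.2) (ContinuousLinearMap.snd ℂ ℂ ℂ) 0 := hasFDerivAt_snd
    have e1 : dx (fun x : ℂ × ℂ => x.2) 0 = 0 := by
      show fderiv ℂ (fun x : ℂ × ℂ => x.2) 0 (1, 0) = 0
      rw [hd.fderiv]; rfl
    have e2 : dy (fun x : ℂ × ℂ => x.2) 0 = 1 := by
      show fderiv ℂ (fun x : ℂ × ℂ => x.2) 0 (0, 1) = 1
      rw [hd.fderiv]; rfl
    have hc : Coord l (fun x => x.2) := by
      rw [coord_iff hl hT h0 rfl, e1, e2]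
      simpa using hx
    exact Unit_zero_coord hl hl' h0 hc h' hz

/-- C8 -/
theorem unit {l l' : ℂ × ℂ → ℂ} {p : ℂ × ℂ} (hl : AnalyticAt ℂ l p) (hl' : AnalyticAt ℂ l' p) (h : l p = 0 → fderiv ℂ l p ≠ 0)
    (h' : l' p = 0 → fderiv ℂ l' p ≠ 0) (hz : ∀ᶠ x in 𝓝 p, (l x = 0 ↔ l' x = 0)) :
    ∃ u : ℂ × ℂ → ℂ, AnalyticAt ℂ u p ∧ u p ≠ 0 ∧ ∀ᶠ x in 𝓝 p, l' x = u x * l x := by
  have hzp : l p = 0 ↔ l' p = 0 := hz.self_of_nhds
  by_cases h0 : l p = 0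
  · -- translate to the origin
    have ht : AnalyticAt ℂ (fun x : ℂ × ℂ => x + p) 0 := analyticAt_id.add analyticAt_const
    have ht0 : (fun x : ℂ × ℂ => x + p) 0 = p := zero_add p
    have htc : Tendsto (fun x : ℂ × ℂ => x + p) (𝓝 0) (𝓝 p) := by
      have h : Tendsto (fun x : ℂ × ℂ => x + p) (𝓝 0) (𝓝 ((fun x : ℂ × ℂ => x + p) 0)) := ht.continuousAt
      rwa [ht0] at h
    have a1 : AnalyticAt ℂ (fun x => l (x + p)) 0 := by
      have : AnalyticAt ℂ l ((fun x : ℂ × ℂ => x + p) 0) := by rw [ht0]; exact hl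
      exact AnalyticAt.comp (g := l) (f := fun x : ℂ × ℂ => x + p) this ht
    have a2 : AnalyticAt ℂ (fun x => l' (x + p)) 0 := by
      have : AnalyticAt ℂ l' ((fun x : ℂ × ℂ => x + p) 0) := by rw [ht0]; exact hl'
      exact AnalyticAt.comp (g := l') (f := fun x : ℂ × ℂ => x + p) this ht
    have d1 : fderiv ℂ (fun x => l (x + p)) 0 = fderiv ℂ l p := by
      rw [fderiv_comp_add_right, zero_add]
    have d2 : fderiv ℂ (fun x => l' (x + p)) 0 = fderiv ℂ l' p := by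
      rw [fderiv_comp_add_right, zero_add]
    obtain ⟨u, hu1, hu2, hu3⟩ := Unit_zero a1 a2 (by simpa using h0) (by rw [d1]; exact h h0)
      (by rw [d2]; exact h' (hzp.1 h0)) (by filter_upwards [htc.eventually hz] with x hx using hx.1)
    have hs : AnalyticAt ℂ (fun x : ℂ × ℂ => x - p) p := analyticAt_id.sub analyticAt_const
    have hs0 : (fun x : ℂ × ℂ => x - p) p = 0 := sub_self p
    have hsc : Tendsto (fun x : ℂ × ℂ => x - p) (𝓝 p) (𝓝 0) := by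
      have h : Tendsto (fun x : ℂ × ℂ => x - p) (𝓝 p) (𝓝 ((fun x : ℂ × ℂ => x - p) p)) := hs.continuousAt
      rwa [hs0] at h
    refine ⟨fun x => u (x - p), ?_, ?_, ?_⟩
    · have : AnalyticAt ℂ u ((fun x : ℂ × ℂ => x - p) p) := by rw [hs0]; exact hu1
      exact AnalyticAt.comp (g := u) (f := fun x : ℂ × ℂ => x - p) this hs
    · simpa using hu2
    · filter_upwards [hsc.eventually hu3] with x hx
      simpa using hx
  · have h0' : l' p ≠ 0 := fun e => h0 (hzp.2 e)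
    refine ⟨fun x => l' x / l x, hl'.div hl h0, div_ne_zero h0' h0, ?_⟩
    filter_upwards [hl.continuousAt.eventually_ne h0] with x hx
    field_simp

/-- C8 -/
theorem loc_smooth {P : Ideal (MvPolynomial (Fin (M + 1)) ℂ)} {σ : ℂ × ℂ → EN M} {v : ℂ × ℂ → ℂ × ℂ} {l : ℂ × ℂ → ℂ} (h : LocC P σ v l) :
    ∀ᶠ p in 𝓝 (0 : ℂ × ℂ), (v p ≠ 0 → l p = 0 → fderiv ℂ l p ≠ 0) ∧ AnalyticAt ℂ l p := by
  have hone : ∀ (v : ℂ × ℂ → ℂ × ℂ) (l : ℂ × ℂ → ℂ), (∀ p, l p = 1) → ∀ p, (v p ≠ 0 → l p = 0 → fderiv ℂ l p ≠ 0) ∧ AnalyticAt ℂ l p := by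
    intro v l hl p
    refine ⟨fun _ h0 => ?_, ?_⟩
    · rw [hl p] at h0
      exact absurd h0 one_ne_zero
    · have : l = fun _ => 1 := funext hl
      rw [this]; exact analyticAt_const
  have hfst : ∀ (v : ℂ × ℂ → ℂ × ℂ) (l : ℂ × ℂ → ℂ), (∀ p, l p = p.1) → ∀ p, (v p ≠ 0 → l p = 0 → fderiv ℂ l p ≠ 0) ∧ AnalyticAt ℂ l p := by
    intro v l hl p
    have e : l = fun p => p.1 := funext hl
    refine ⟨fun _ _ h0 => ?_, ?_⟩
    · have hd : HasFDerivAt (fun x : ℂ × ℂ => x.1) (ContinuousLinearMap.fst ℂ ℂ ℂ) p := hasFDerivAt_fst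
      rw [e, hd.fderiv] at h0
      have := congrArg (fun L : ℂ × ℂ →L[ℂ] ℂ => L (1, 0)) h0
      simp at this
    · rw [e]; exact analyticAt_fst
  have hsnd : ∀ (v : ℂ × ℂ → ℂ × ℂ) (l : ℂ × ℂ → ℂ), (∀ p, l p = p.2) → ∀ p, (v p ≠ 0 → l p = 0 → fderiv ℂ l p ≠ 0) ∧ AnalyticAt ℂ l p := by
    intro v l hl p
    have e : l = fun p => p.2 := funext hl
    refine ⟨fun _ _ h0 => ?_, ?_⟩
    · have hd : HasFDerivAt (fun x : ℂ × ℂ => x.2) (ContinuousLinearMap.snd ℂ ℂ ℂ) p := hasFDerivAt_snd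
      rw [e, hd.fderiv] at h0
      have := congrArg (fun L : ℂ × ℂ →L[ℂ] ℂ => L (0, 1)) h0
      simp at this
    · rw [e]; exact analyticAt_snd
  have hprod : ∀ (v : ℂ × ℂ → ℂ × ℂ) (l : ℂ × ℂ → ℂ), v 0 = 0 → (∀ p, l p = p.1 * p.2) →
      ∀ p, (v p ≠ 0 → l p = 0 → fderiv ℂ l p ≠ 0) ∧ AnalyticAt ℂ l p := by
    intro v l hv0 hl p
    have e : l = fun p => p.1 * p.2 := funext hl
    refine ⟨fun hv _ h0 => ?_, ?_⟩
    · have hd : HasFDerivAt (fun x : ℂ × ℂ => x.1 * x.2) (p.1 • ContinuousLinearMap.snd ℂ ℂ ℂ + p.2 • ContinuousLinearMap.fst ℂ ℂ ℂ) p :=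
        hasFDerivAt_fst.mul hasFDerivAt_snd
      rw [e, hd.fderiv] at h0
      have e1 := congrArg (fun L : ℂ × ℂ →L[ℂ] ℂ => L (1, 0)) h0
      have e2 := congrArg (fun L : ℂ × ℂ →L[ℂ] ℂ => L (0, 1)) h0
      simp at e1 e2
      apply hv
      have hp : p = 0 := Prod.ext e2 e1
      rw [hp, hv0]
    · rw [e]; exact analyticAt_fst.mul analyticAt_snd
  have htwo : ∀ (v : ℂ × ℂ → ℂ × ℂ) (l l₁ l₂ : ℂ × ℂ → ℂ), v 0 = 0 → (∀ p, l p = l₁ p * l₂ p) →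
      ((∀ p, l₁ p = p.1) ∨ ∀ p, l₁ p = 1) → ((∀ p, l₂ p = p.2) ∨ ∀ p, l₂ p = 1) →
      ∀ p, (v p ≠ 0 → l p = 0 → fderiv ℂ l p ≠ 0) ∧ AnalyticAt ℂ l p := by
    intro v l l₁ l₂ hv0 hl h1 h2
    rcases h1 with h1 | h1 <;> rcases h2 with h2 | h2
    · exact hprod v l hv0 (fun p => by rw [hl, h1, h2])
    · exact hfst v l (fun p => by rw [hl, h1, h2, mul_one])
    · exact hsnd v l (fun p => by rw [hl, h1, h2, one_mul])
    · exact hone v l (fun p => by rw [hl, h1, h2, one_mul])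
  refine Eventually.of_forall ?_
  cases h with
  | regular h hl =>
    rcases hl with hl | hl
    · exact hone v l hl
    · exact hfst v l hl
  | node a b l₁ l₂ ha hb ha0 hb0 hq h hl h₁ h₂ =>
    exact htwo v l l₁ l₂ (by rw [h]; simp) hl (h₁.imp id And.left) (h₂.imp id And.left)
  | saddleNode k hk a b l₁ l₂ ha hb ha0 hb0 h hl h₁ h₂ =>
    exact htwo v l l₁ l₂ (by rw [h]; simp) hl (h₁.imp id And.left) (h₂.imp id And.left)
  | formal k hk a b ha hb ha0 hb0 h c hc hJ hR hl =>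
    rcases hl with hl | ⟨hl, -⟩
    · exact hfst v l hl
    · exact hone v l hl

end Pool.Agent.MQ
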