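import Pool.Agent.MQ.CDefs2
import Pool.Agent.MQ.Unit
import Pool.Agent.MQ.InvS

/-!
# MQ CDat: the data of the invariant curve from the equations in the boxes

PROOF.  The transition maps are local diffeomorphisms, the property `InvAt` is invariant under scaling; so the two local equations have the same zeros near
the points with `v p ≠ 0` and `unit` gives the factor.  A point with `v p = 0` is the center of a singular box, which meets no other box near its center.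
-/

set_option autoImplicit false

open Topology Filter Metric MvPolynomial Asymptotics

noncomputable section

namespace Pool.Agent.MQ

open Pool.Agent.H36.BP (EN)
open Pool.Agent.H17BP (IsChart Pr Surface)
open Pool.Agent.H17EF (projVar coneE)

variable {M : ℕ} {P : Ideal (MvPolynomial (Fin (M + 1)) ℂ)} {FF : Set (EN M × EN M)}

/-- the property `InvAt` is invariant under scaling -/
theorem inv_smul (hX : Surface (coneE P)) (B : GBox P FF) {R : MvPolynomial (Fin (M + 1)) ℂ} {d : ℕ} (hR : R.IsHomogeneous d) {p : ℂ × ℂ}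
    (hp : p ∈ ball (0 : ℂ × ℂ) B.r) {c : ℂ} (hc : c ≠ 0) (h : InvAt P FF R (B.σ p)) : InvAt P FF R (c • B.σ p) := by
  obtain ⟨γ, hγ, h0, h1, h2⟩ := h
  obtain ⟨T, κ, hT, hκ, hTp, hκp, hn⟩ := B.opn p hp
  have hγt : Tendsto γ (𝓝 0) (𝓝 (B.σ p)) := by
    have := hγ.continuousAt.tendsto
    rwa [h0] at this
  have hq : AnalyticAt ℂ (fun t => T (γ t)) 0 := AnalyticAt.comp (g := T) (f := γ) (by rw [h0]; exact hT) hγ
  have hk : AnalyticAt ℂ (fun t => κ (γ t)) 0 := AnalyticAt.comp (g := κ) (f := γ) (by rw [h0]; exact hκ) hγ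
  have hq0 : T (γ 0) = p := by rw [h0, hTp]
  have hk0 : κ (γ 0) = 1 := by rw [h0, hκp]
  have hqt : Tendsto (fun t => T (γ t)) (𝓝 0) (𝓝 p) := by
    have := hq.continuousAt.tendsto
    rwa [hq0] at this
  have hr : ∀ᶠ t in 𝓝 (0 : ℂ), γ t = κ (γ t) • B.σ (T (γ t)) := by
    filter_upwards [hγt.eventually hn, h1] with t h3 h4
    exact h3 h4.1
  have hbal : ∀ᶠ t in 𝓝 (0 : ℂ), T (γ t) ∈ ball (0 : ℂ × ℂ) B.r := hqt.eventually (isOpen_ball.mem_nhds hp)
  have hkne : ∀ᶠ t in 𝓝 (0 : ℂ), κ (γ t) ≠ 0 := hk.continuousAt.eventually_ne (by rw [hk0]; exact one_ne_zero)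
  have hd : ∀ᶠ t in 𝓝 (0 : ℂ), deriv γ t = κ (γ t) • fderiv ℂ B.σ (T (γ t)) (deriv (fun s => T (γ s)) t) +
      deriv (fun s => κ (γ s)) t • B.σ (T (γ t)) := by
    filter_upwards [hr.eventually_nhds, hbal, hq.eventually_analyticAt, hk.eventually_analyticAt] with t h6 h7 h8 h9
    rw [Filter.EventuallyEq.deriv_eq h6]
    have h10 : HasDerivAt (fun s => B.σ (T (γ s))) (fderiv ℂ B.σ (T (γ t)) (deriv (fun s => T (γ s)) t)) t :=
      ((B.σ_an _ (ball_subset_closedBall h7)).differentiableAt.hasFDerivAt).comp_hasDerivAt t h8.differentiableAt.hasDerivAt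
    exact (h9.differentiableAt.hasDerivAt.smul h10).deriv
  refine ⟨fun t => c • γ t, analyticAt_const.fun_smul hγ, by simp only [h0], ?_, ?_⟩
  · filter_upwards [h1, hr, hbal, hkne, hd, hγ.eventually_analyticAt] with t h3 h4 h5 h6 h7 h8
    obtain ⟨h9, h10, h11⟩ := h3
    have h12 : deriv (fun s => c • γ s) t = c • deriv γ t := (h8.differentiableAt.hasDerivAt.const_smul c).deriv
    refine ⟨hX.smul _ h9 c hc, ?_, ?_⟩
    · rw [h12]
      have e1 : (B.v (T (γ t))).1 * (deriv (fun s => T (γ s)) t).2 = (B.v (T (γ t))).2 * (deriv (fun s => T (γ s)) t).1 := by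
        refine (B.spans _ (ball_subset_closedBall h5) _ (deriv (fun s => κ (γ s)) t) (κ (γ t)) h6).1 ?_
        rw [← h7, ← h4]
        exact h10
      have e2 := (B.spans _ (ball_subset_closedBall h5) (deriv (fun s => T (γ s)) t) (c * deriv (fun s => κ (γ s)) t) (c * κ (γ t))
        (mul_ne_zero hc h6)).2 e1
      have e3 : c • γ t = (c * κ (γ t)) • B.σ (T (γ t)) := by
        conv_lhs => rw [h4]
        rw [smul_smul]
      have e4 : c • deriv γ t = (c * κ (γ t)) • fderiv ℂ B.σ (T (γ t)) (deriv (fun s => T (γ s)) t) +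
          (c * deriv (fun s => κ (γ s)) t) • B.σ (T (γ t)) := by
        rw [h7, smul_add, smul_smul, smul_smul]
      rw [e3, e4]
      exact e2
    · have h13 : eval (c • γ t).ofLp R = c ^ d * eval (γ t).ofLp R := Pool.Agent.H17EF.eval_smul_form hR _ _
      rw [h13, h11, mul_zero]
  · refine h2.mono fun t h3 h4 => h3 ?_
    obtain ⟨e, he, h5⟩ := h4
    refine ⟨e, he, ?_⟩
    have h6 : c • γ t = c • (e • B.σ p) := Eq.trans h5 (smul_comm e c (B.σ p))
    exact smul_right_injective _ hc h6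

/-- the change of coordinates is an immersion -/
theorem Chg.fderiv_inj {A B : GBox P FF} {p : ℂ × ℂ} (hp : p ∈ ball (0 : ℂ × ℂ) A.r) {Φ : ℂ × ℂ → ℂ × ℂ} {t : ℂ × ℂ → ℂ} (h : Chg A B p Φ t)
    {u : ℂ × ℂ} (hu : fderiv ℂ Φ p u = 0) : u = 0 := by
  have hB := ball_subset_closedBall h.mem
  have hA := ball_subset_closedBall hp
  have hne : B.σ (Φ p) ≠ 0 := by
    have := (B.imm _ hB).ne_zero 0
    simpa using this
  obtain ⟨k, hk⟩ : ∃ k, (B.σ (Φ p)) k ≠ 0 := by
    by_contra hcon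
    push Not at hcon
    exact hne (by ext k; exact hcon k)
  have hco : ∀ {f : ℂ × ℂ → EN M} {x : ℂ × ℂ}, AnalyticAt ℂ f x → AnalyticAt ℂ (fun y => f y k) x := fun hf =>
    AnalyticAt.comp (g := fun v : EN M => (EuclideanSpace.proj k : EN M →L[ℂ] ℂ) v) ((EuclideanSpace.proj k : EN M →L[ℂ] ℂ).analyticAt _) hf
  have hBΦ : AnalyticAt ℂ (fun w => B.σ (Φ w)) p := AnalyticAt.comp (g := B.σ) (f := Φ) (B.σ_an _ hB) h.an
  have hcan : AnalyticAt ℂ (fun w => A.σ w k / B.σ (Φ w) k) p := (hco (A.σ_an _ hA)).div (hco hBΦ) hk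
  have heq : A.σ =ᶠ[𝓝 p] fun w => (A.σ w k / B.σ (Φ w) k) • B.σ (Φ w) := by
    have h1 : ∀ᶠ w in 𝓝 p, B.σ (Φ w) k ≠ 0 := (hco hBΦ).continuousAt.eventually_ne hk
    filter_upwards [h.eq, h1] with w h2 h3
    obtain ⟨c, hc, h4⟩ := h2
    have h5 : A.σ w k = c * B.σ (Φ w) k := by
      rw [h4]
      rfl
    rw [h5, mul_div_assoc, div_self h3, mul_one]
    exact h4
  have hder : HasFDerivAt (fun w => (A.σ w k / B.σ (Φ w) k) • B.σ (Φ w)) ((A.σ p k / B.σ (Φ p) k) • ((fderiv ℂ B.σ (Φ p)).comp (fderiv ℂ Φ p)) +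
      (fderiv ℂ (fun w => A.σ w k / B.σ (Φ w) k) p).smulRight (B.σ (Φ p))) p :=
    hcan.differentiableAt.hasFDerivAt.smul ((B.σ_an _ hB).differentiableAt.hasFDerivAt.comp p h.an.differentiableAt.hasFDerivAt)
  have h1 : fderiv ℂ A.σ p u = (fderiv ℂ (fun w => A.σ w k / B.σ (Φ w) k) p u) • B.σ (Φ p) := by
    rw [heq.fderiv_eq, hder.fderiv]
    simp [hu]
  obtain ⟨c, hc, h2⟩ := h.eq.self_of_nhds
  set a : ℂ := fderiv ℂ (fun w => A.σ w k / B.σ (Φ w) k) p u with ha
  have h3 : fderiv ℂ A.σ p u = (a / c) • A.σ p := by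
    rw [h1, h2, smul_smul, div_mul_cancel₀ _ hc]
  have h4 : fderiv ℂ A.σ p u = u.1 • fderiv ℂ A.σ p (1, 0) + u.2 • fderiv ℂ A.σ p (0, 1) := by
    rw [← map_smul, ← map_smul, ← map_add]
    congr 1
    ext <;> simp
  have h5 := Fintype.linearIndependent_iff.1 (A.imm p hA) ![-(a / c), u.1, u.2] (by
    have h6 : u.1 • fderiv ℂ A.σ p (1, 0) + u.2 • fderiv ℂ A.σ p (0, 1) = (a / c) • A.σ p := by rw [← h4, h3]
    rw [Fin.sum_univ_three]
    change (-(a / c)) • A.σ p + u.1 • fderiv ℂ A.σ p (1, 0) + u.2 • fderiv ℂ A.σ p (0, 1) = 0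
    rw [add_assoc, h6, neg_smul, neg_add_cancel])
  exact Prod.ext (h5 1) (h5 2)

/-- the vector field does not vanish after the change -/
theorem Chg.v_ne {A B : GBox P FF} {p : ℂ × ℂ} {Φ : ℂ × ℂ → ℂ × ℂ} {t : ℂ × ℂ → ℂ} (h : Chg A B p Φ t) (hv : A.v p ≠ 0) : B.v (Φ p) ≠ 0 := by
  intro h0
  apply hv
  have h1 := h.om.self_of_nhds
  have h2 : ∀ u : ℂ × ℂ, A.om p u = 0 := fun u => by
    have h3 := h1 u
    have h4 : B.om (Φ p) (fderiv ℂ Φ p u) = 0 := by simp [GBox.om, h0]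
    rw [h4] at h3
    exact (mul_eq_zero.1 h3.symm).resolve_left h.t_ne
  have h5 := h2 (0, 1)
  have h6 := h2 (1, 0)
  simp only [GBox.om, mul_one, mul_zero, sub_zero, zero_sub, neg_eq_zero] at h5 h6
  exact Prod.ext h5 h6

/-- the compatibility at the points with `v p ≠ 0` -/
theorem comp_of_ne (hX : Surface (coneE P)) {R : MvPolynomial (Fin (M + 1)) ℂ} {d : ℕ} (hR : R.IsHomogeneous d) {A B : GBox P FF} {g g' : ℂ × ℂ → ℂ}
    (hg : CG R A g) (hg' : CG R B g') {p : ℂ × ℂ} (hp : p ∈ ball (0 : ℂ × ℂ) A.r) (hv : A.v p ≠ 0) {Φ : ℂ × ℂ → ℂ × ℂ} {t : ℂ × ℂ → ℂ}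
    (h : Chg A B p Φ t) : ∃ s : ℂ × ℂ → ℂ, AnalyticAt ℂ s p ∧ s p ≠ 0 ∧ ∀ᶠ w in 𝓝 p, g' (Φ w) = s w * g w := by
  have hvB := h.v_ne hv
  have hB := ball_subset_closedBall h.mem
  have hA := ball_subset_closedBall hp
  have hg'an : AnalyticAt ℂ (fun w => g' (Φ w)) p := AnalyticAt.comp (g := g') (f := Φ) (hg'.smooth _ hB).1 h.an
  refine unit (l := g) (l' := fun w => g' (Φ w)) (hg.smooth p hA).1 hg'an ((hg.smooth p hA).2 hv) ?_ ?_
  · intro h0 h1
    have h2 := (hg'.smooth _ hB).2 hvB h0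
    apply h2
    have h3 : fderiv ℂ (fun w => g' (Φ w)) p = (fderiv ℂ g' (Φ p)).comp (fderiv ℂ Φ p) :=
      ((hg'.smooth _ hB).1.differentiableAt.hasFDerivAt.comp p h.an.differentiableAt.hasFDerivAt).fderiv
    rw [h3] at h1
    have hinj : Function.Injective (fderiv ℂ Φ p : ℂ × ℂ →ₗ[ℂ] ℂ × ℂ) := by
      rw [injective_iff_map_eq_zero]
      intro u hu
      exact h.fderiv_inj hp hu
    have hsurj := LinearMap.injective_iff_surjective.1 hinj
    ext
    · obtain ⟨u, hu⟩ := hsurj (1, 0)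
      have h4 := congrArg (fun L : ℂ × ℂ →L[ℂ] ℂ => L u) h1
      simp only [ContinuousLinearMap.comp_apply, _root_.zero_apply] at h4
      have hu' : fderiv ℂ Φ p u = (1, 0) := hu
      rw [hu'] at h4
      simpa using h4
    · obtain ⟨u, hu⟩ := hsurj (0, 1)
      have h4 := congrArg (fun L : ℂ × ℂ →L[ℂ] ℂ => L u) h1
      simp only [ContinuousLinearMap.comp_apply, _root_.zero_apply] at h4
      have hu' : fderiv ℂ Φ p u = (0, 1) := hu
      rw [hu'] at h4
      simpa using h4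
  · have e1 : ∀ᶠ w in 𝓝 p, w ∈ ball (0 : ℂ × ℂ) A.r := isOpen_ball.mem_nhds hp
    have e2 : ∀ᶠ w in 𝓝 p, Φ w ∈ ball (0 : ℂ × ℂ) B.r := h.an.continuousAt.eventually (isOpen_ball.mem_nhds h.mem)
    have e3 : ∀ᶠ w in 𝓝 p, A.v w ≠ 0 := (A.v_an p hA).continuousAt.eventually_ne hv
    have e4 : ∀ᶠ w in 𝓝 p, B.v (Φ w) ≠ 0 := by
      have h5 : ContinuousAt (fun w => B.v (Φ w)) p := ContinuousAt.comp (g := B.v) (f := Φ) (B.v_an _ hB).continuousAt h.an.continuousAt
      exact h5.eventually_ne hvB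
    filter_upwards [e1, e2, e3, e4, h.eq] with w h1 h2 h3 h4 h5
    obtain ⟨c, hc, h6⟩ := h5
    rw [← hg.iff w (ball_subset_closedBall h1) h3, ← hg'.iff (Φ w) (ball_subset_closedBall h2) h4]
    constructor
    · intro h7
      have h8 := inv_smul hX A hR h1 (inv_ne_zero hc) h7
      rwa [h6, smul_smul, inv_mul_cancel₀ hc, one_smul] at h8
    · intro h7
      rw [h6]
      exact inv_smul hX B hR h2 hc h7

/-- the local equation vanishes on an axis if it vanishes at the center -/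
theorem SingBox.axis {B : GBox P FF} {g : ℂ × ℂ → ℂ} (h : SingBox B g) (h0 : g 0 = 0) : (∀ t : ℂ, g (0, t) = 0) ∨ ∀ t : ℂ, g (t, 0) = 0 := by
  cases h with
  | node a b g₁ g₂ ha hb ha0 hb0 hq h hg h₁ h₂ =>
    rcases h₁ with h₁ | ⟨h₁, -⟩
    · exact Or.inl fun t => by rw [hg, h₁]; simp
    · rcases h₂ with h₂ | ⟨h₂, -⟩
      · exact Or.inr fun t => by rw [hg, h₂]; simp
      · rw [hg, h₁, h₂] at h0
        simp at h0
  | saddleNode k hk a b g₁ ha hb ha0 hb0 h hg h₁ => exact Or.inr fun t => by rw [hg]; simp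
  | formal k hk a b ha hb ha0 hb0 h c hc hJ hR hg =>
    rcases hg with hg | ⟨hg, -⟩
    · exact Or.inl fun t => by rw [hg]
    · rw [hg] at h0
      simp at h0

/-- `R = 0` on the curve, in a box -/
theorem van_of_good {R : MvPolynomial (Fin (M + 1)) ℂ} {B : GBox P FF} {g : ℂ × ℂ → ℂ} (hg : CG R B g) {p : ℂ × ℂ} (hp : p ∈ ball (0 : ℂ × ℂ) B.r)
    (h0 : g p = 0) : eval (B.σ p).ofLp R = 0 := by
  have key : ∀ q ∈ ball (0 : ℂ × ℂ) B.r, B.v q ≠ 0 → g q = 0 → eval (B.σ q).ofLp R = 0 := by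
    intro q hq hv hq0
    obtain ⟨γ, -, h1, h2, -⟩ := (hg.iff q (ball_subset_closedBall hq) hv).2 hq0
    have h3 := h2.self_of_nhds.2.2
    rwa [h1] at h3
  by_cases hv : B.v p = 0
  · have hp0 := B.zero p (ball_subset_closedBall hp) hv
    subst hp0
    have hreg : ¬ B.Reg := fun h => by
      rw [h 0] at hv
      simp at hv
    have hcont : ContinuousAt (fun q => eval (B.σ q).ofLp R) (0 : ℂ × ℂ) := by
      have h1 : AnalyticAt ℂ (fun q => (MvPolynomial.aeval (fun i => (B.σ q).ofLp i) R : ℂ)) 0 := by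
        refine AnalyticAt.aeval_mvPolynomial (fun i => ?_) R
        exact ((EuclideanSpace.proj i : EN M →L[ℂ] ℂ).analyticAt _).comp (B.σ_an 0 (ball_subset_closedBall hp))
      have h2 : AnalyticAt ℂ (fun q => eval (B.σ q).ofLp R) (0 : ℂ × ℂ) := by
        refine h1.congr (Eventually.of_forall fun p => ?_)
        simp only [MvPolynomial.aeval_eq_eval]
      exact h2.continuousAt
    have hvne : ∀ q ∈ ball (0 : ℂ × ℂ) B.r, q ≠ 0 → B.v q ≠ 0 := fun q hq hq0 h => hq0 (B.zero q (ball_subset_closedBall hq) h)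
    have hlim : ∀ (c : ℂ → ℂ × ℂ), Continuous c → c 0 = 0 → (∀ t, t ≠ 0 → c t ≠ 0) → (∀ t, g (c t) = 0) → eval (B.σ 0).ofLp R = 0 := by
      intro c hc hc0 hcne hgc
      have h1 : Tendsto c (𝓝[≠] 0) (𝓝 0) := by
        have h2 := (hc.tendsto 0).mono_left (nhdsWithin_le_nhds (s := {0}ᶜ))
        rwa [hc0] at h2
      have h2 : Tendsto (fun t => eval (B.σ (c t)).ofLp R) (𝓝[≠] 0) (𝓝 (eval (B.σ 0).ofLp R)) := hcont.tendsto.comp h1
      have h3 : (fun t => eval (B.σ (c t)).ofLp R) =ᶠ[𝓝[≠] 0] fun _ => 0 := by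
        filter_upwards [h1.eventually (isOpen_ball.mem_nhds hp), self_mem_nhdsWithin] with t h4 h5
        exact key _ h4 (hvne _ h4 (hcne t h5)) (hgc t)
      exact tendsto_nhds_unique (h2.congr' h3) tendsto_const_nhds
    rcases (hg.sing hreg).axis h0 with h1 | h1
    · refine hlim (fun t => (0, t)) (by fun_prop) rfl (fun t ht h => ht ?_) h1
      have := congrArg Prod.snd h
      simpa using this
    · refine hlim (fun t => (t, 0)) (by fun_prop) rfl (fun t ht h => ht ?_) h1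
      have := congrArg Prod.fst h
      simpa using this
  · exact key p hp hv h0

/-- MODULE CDat: `comp` by `unit` at the points with `v p ≠ 0`; `v p = 0` is the center of a singular box, there `j = i` by `sep` and
`Φ = id` by `inj`; `van` by continuity at the center. -/
theorem cdata_of_good (hX : Surface (coneE P)) {R : MvPolynomial (Fin (M + 1)) ℂ} {d : ℕ} (hRh : R.IsHomogeneous d) (hRP : R ∉ P) (A : Atlas P FF)
    (hA : ∀ i, ∃ g, CG R (A.B i) g) : ∃ D : CData A, ∀ i, ¬ (A.B i).Reg → SingBox (A.B i) (D.g i) := by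
  choose g hg using hA
  have hreg : ∀ i, (A.B i).Reg → ∃ S : Finset ℂ, ∀ p, g i p = ∏ a ∈ S, (p.1 - a) := fun i hi => by
    rcases (hg i).reg hi with h | h
    · exact ⟨∅, fun p => by rw [h]; simp⟩
    · exact ⟨{0}, fun p => by rw [h]; simp⟩
  have hinv : ∀ i, AnalyticOnNhd ℂ (g i) (closedBall 0 (A.B i).r) ∧ InvEq (A.B i) (g i) := fun i => by
    by_cases hi : (A.B i).Reg
    · obtain ⟨S, hS⟩ := hreg i hi
      exact reg_inv hi hS
    · exact ((hg i).sing hi).inv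
  refine ⟨⟨g, R, d, hRh, hRP, hreg, fun i => (hinv i).1, fun i => (hinv i).2, fun i p hp h0 => van_of_good (hg i) hp h0, ?_⟩,
    fun i hi => (hg i).sing hi⟩
  intro i j p hp Φ t h
  by_cases hv : (A.B i).v p = 0
  · have hp0 := (A.B i).zero p (ball_subset_closedBall hp) hv
    subst hp0
    have hreg : ¬ (A.B i).Reg := fun h => by
      rw [h 0] at hv
      simp at hv
    obtain ⟨s, hs, -, hsep⟩ := A.sep i hreg
    have hij : j = i := by
      by_contra hne
      obtain ⟨c, hc, h1⟩ := h.eq.self_of_nhds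
      exact hsep j hne ((A.B i).σ 0) ⟨0, mem_ball_self hs, 1, one_ne_zero, (one_smul _ _).symm⟩ ⟨Φ 0, h.mem, c, hc, h1⟩
    subst hij
    refine ⟨fun _ => 1, analyticAt_const, one_ne_zero, ?_⟩
    filter_upwards [h.eq, isOpen_ball.mem_nhds hp, h.an.continuousAt.eventually (isOpen_ball.mem_nhds h.mem)] with w h1 h2 h3
    obtain ⟨c, -, h4⟩ := h1
    have h5 := (A.B j).inj w (ball_subset_closedBall h2) (Φ w) (ball_subset_closedBall h3) c h4
    rw [← h5, one_mul]
  · exact comp_of_ne hX hRh (hg i) (hg j) hp hv h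

end Pool.Agent.MQ
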