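import Pool.Agent.MQ.CDefs2
import Pool.Agent.MQ.Box
import Pool.Agent.MQ.Unit

/-!
# MQ GoodC: small boxes with the local equation of the invariant curve
-/

set_option autoImplicit false

open Topology Filter Metric MvPolynomial Asymptotics

noncomputable section

namespace Pool.Agent.MQ

open Pool.Agent.H36.BP (EN)
open Pool.Agent.H17BP (IsChart Pr Surface)
open Pool.Agent.H17EF (projVar coneE)
open Pool.Agent.E2 (tan_fderiv_chart)

variable {M : ℕ} {P : Ideal (MvPolynomial (Fin (M + 1)) ℂ)} {FF : Set (EN M × EN M)}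

private theorem analyticAt_evalG (Q : MvPolynomial (Fin (M + 1)) ℂ) (x : EN M) : AnalyticAt ℂ (fun x : EN M => eval x.ofLp Q) x := by
  have h : ∀ i : Fin (M + 1), AnalyticAt ℂ (fun x : EN M => x.ofLp i) x := fun i =>
    (EuclideanSpace.proj (𝕜 := ℂ) (ι := Fin (M + 1)) i : EN M →L[ℂ] ℂ).analyticAt x
  have := AnalyticAt.aeval_mvPolynomial (𝕜 := ℂ) h Q
  simpa [MvPolynomial.aeval_eq_eval] using this

/-- a germ which is not identically zero has no contact of high order -/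
theorem not_isBigO_of_ne {f : ℂ → ℂ} (hf : AnalyticAt ℂ f 0) (h : ∃ᶠ t in 𝓝 (0 : ℂ), f t ≠ 0) :
    ∃ n : ℕ, ¬ f =O[𝓝 0] fun t : ℂ => t ^ (n + 1) := by
  have h1 : ¬ ∀ᶠ z in 𝓝 (0 : ℂ), f z = 0 := fun h2 => h (h2.mono fun z hz hz' => hz' hz)
  obtain ⟨m, q, hq, hq0, hgq⟩ := (hf.exists_eventuallyEq_pow_smul_nonzero_iff).2 h1
  refine ⟨m, fun h2 => ?_⟩
  have h3 : (fun z : ℂ => (z - 0) ^ m • q z) =O[𝓝 0] fun t : ℂ => t ^ (m + 1) :=
    IsBigO.congr' h2 hgq (Eventually.of_forall fun _ => rfl)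
  obtain ⟨B, hB⟩ := h3.bound
  have h4 : ∀ᶠ z in 𝓝[≠] (0 : ℂ), ‖q z‖ ≤ B * ‖z‖ := by
    filter_upwards [nhdsWithin_le_nhds hB, self_mem_nhdsWithin] with z hz hz0
    have hz0' : 0 < ‖z‖ := norm_pos_iff.2 hz0
    rw [sub_zero, norm_smul, norm_pow, norm_pow, pow_succ] at hz
    have h5 : ‖z‖ ^ m * ‖q z‖ ≤ ‖z‖ ^ m * (B * ‖z‖) := by linarith
    exact le_of_mul_le_mul_left h5 (pow_pos hz0' m)
  have h5 : Tendsto (fun z : ℂ => B * ‖z‖) (𝓝[≠] 0) (𝓝 0) := by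
    have h6 : Tendsto (fun z : ℂ => B * ‖z‖) (𝓝 0) (𝓝 (B * ‖(0 : ℂ)‖)) := (continuous_const.mul continuous_norm).tendsto 0
    rw [norm_zero, mul_zero] at h6
    exact h6.mono_left nhdsWithin_le_nhds
  have h6 : Tendsto (fun z : ℂ => ‖q z‖) (𝓝[≠] 0) (𝓝 ‖q 0‖) := hq.continuousAt.norm.tendsto.mono_left nhdsWithin_le_nhds
  exact hq0 (norm_le_zero_iff.1 (le_of_tendsto_of_tendsto h6 h5 h4))

theorem LocC.reduced {σ : ℂ × ℂ → EN M} {v : ℂ × ℂ → ℂ × ℂ} {l : ℂ × ℂ → ℂ} (h : LocC P σ v l) : Reduced P σ v := by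
  cases h with
  | regular h hl => exact .regular h
  | node a b l₁ l₂ ha hb ha0 hb0 hq h hl h₁ h₂ => exact .node a b ha hb ha0 hb0 hq h
  | saddleNode k hk a b l₁ l₂ ha hb ha0 hb0 h hl h₁ h₂ => exact .saddleNode k hk a b ha hb ha0 hb0 h
  | formal k hk a b ha hb ha0 hb0 h c hc hJ hR hl => exact .formal k hk a b ha hb ha0 hb0 h c hc hJ hR

theorem LocC.eq_of_reg {σ : ℂ × ℂ → EN M} {v : ℂ × ℂ → ℂ × ℂ} {l : ℂ × ℂ → ℂ} (h : LocC P σ v l) (hv : ∀ p, v p = (0, 1)) :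
    (∀ p, l p = 1) ∨ ∀ p, l p = p.1 := by
  have key : v 0 = 0 → False := fun h0 => by
    rw [hv 0] at h0
    exact one_ne_zero (congrArg Prod.snd h0)
  cases h with
  | regular h hl => exact hl
  | node a b l₁ l₂ ha hb ha0 hb0 hq h hl h₁ h₂ => exact (key (by rw [h]; simp)).elim
  | saddleNode k hk a b l₁ l₂ ha hb ha0 hb0 h hl h₁ h₂ => exact (key (by rw [h]; simp)).elim
  | formal k hk a b ha hb ha0 hb0 h c hc hJ hR hl =>
    exfalso
    have h1 : b = fun _ => 1 := by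
      funext p
      have h2 := hv p
      rw [h p] at h2
      exact congrArg Prod.snd h2
    apply hb0
    rw [h1]
    simp

/-- the chart of a box with the local equation, by type -/
theorem LocC.singBox {σ : ℂ × ℂ → EN M} (hσ : AnalyticAt ℂ σ 0) {v : ℂ × ℂ → ℂ × ℂ} {l : ℂ × ℂ → ℂ} (h : LocC P σ v l) :
    ∀ᶠ r in 𝓝[>] (0 : ℝ), ∀ B : GBox P FF, B.σ = σ → B.v = v → B.r = r → (∀ p, v p = (0, 1)) ∨ SingBox B l := by
  cases h with
  | regular h hl => exact Eventually.of_forall fun r B _ _ _ => Or.inl h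
  | node a b l₁ l₂ ha hb ha0 hb0 hq h hl h₁ h₂ =>
    filter_upwards [gbox_analytic ha, gbox_analytic hb, gbox_ne ha ha0, gbox_ne hb hb0] with r h5 h6 h7 h8 B h2 h3 h4
    refine Or.inr (.node a b l₁ l₂ ?_ ?_ ?_ ?_ hq (fun p => by rw [h3, h]) hl ?_ ?_)
    · rwa [h4]
    · rwa [h4]
    · rwa [h4]
    · rwa [h4]
    · rw [h2]
      exact h₁
    · rw [h2]
      exact h₂
  | saddleNode k hk a b l₁ l₂ ha hb ha0 hb0 h hl h₁ h₂ =>
    rcases h₂ with h₂ | ⟨h₂, hna⟩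
    · filter_upwards [gbox_analytic ha, gbox_analytic hb, gbox_ne ha ha0, gbox_ne hb hb0] with r h5 h6 h7 h8 B h2 h3 h4
      refine Or.inr (.saddleNode k hk a b l₁ ?_ ?_ ?_ ?_ (fun p => by rw [h3, h]) (fun p => by rw [hl, h₂]) ?_)
      · rwa [h4]
      · rwa [h4]
      · rwa [h4]
      · rwa [h4]
      · rw [h2]
        exact h₁
    · have hb' : AnalyticAt ℂ (fun p : ℂ × ℂ => p.2 * b p) 0 := analyticAt_snd.mul hb
      have hjet : ∀ (J : ℕ) (t : ℂ), jet (fun _ => 0) J t = 0 := fun J t => by simp [jet]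
      have hjet' : ∀ J : ℕ, jet (fun _ => 0) J = fun _ => 0 := fun J => funext (hjet J)
      filter_upwards [gbox_analytic ha, gbox_analytic hb', gbox_ne ha ha0] with r h5 h6 h7 B h2 h3 h4
      refine Or.inr (.formal k hk a (fun p => p.2 * b p) ?_ ?_ ?_ ?_ (fun p => by rw [h3, h]) (fun _ => 0) rfl ?_ ?_ ?_)
      · rwa [h4]
      · rwa [h4]
      · rwa [h4]
      · have h8 : HasFDerivAt (fun p : ℂ × ℂ => p.2 * b p)
            ((0 : ℂ × ℂ).2 • fderiv ℂ b 0 + b 0 • ContinuousLinearMap.snd ℂ ℂ ℂ) 0 :=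
          hasFDerivAt_snd.mul hb.differentiableAt.hasFDerivAt
        rw [h8.fderiv]
        simpa using hb0
      · intro J
        refine (isBigO_zero _ _).congr_left fun t => ?_
        rw [hjet' J]
        simp
      · intro R d hR hRP
        have h8 := hna R d hR hRP
        have h9 : AnalyticAt ℂ (fun t : ℂ => eval (σ (t, 0)).ofLp R) 0 := by
          have h10 : AnalyticAt ℂ (fun t : ℂ => σ (t, 0)) 0 :=
            AnalyticAt.comp (g := σ) (f := fun t : ℂ => (t, (0 : ℂ))) hσ (analyticAt_id.prod analyticAt_const)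
          exact AnalyticAt.comp (g := fun x : EN M => eval x.ofLp R) (f := fun t : ℂ => σ (t, 0)) (analyticAt_evalG R _) h10
        obtain ⟨n, h10⟩ := not_isBigO_of_ne h9 h8
        refine ⟨n, ?_⟩
        rw [h2]
        simpa only [hjet] using h10
      · rcases h₁ with h₁ | ⟨h₁, h₁'⟩
        · exact Or.inl fun p => by rw [hl, h₁, h₂, mul_one]
        · refine Or.inr ⟨fun p => by rw [hl, h₁, h₂, mul_one], ?_⟩
          rw [h2]
          exact h₁'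
  | formal k hk a b ha hb ha0 hb0 h c hc hJ hR hl =>
    filter_upwards [gbox_analytic ha, gbox_analytic hb, gbox_ne ha ha0] with r h5 h6 h7 B h2 h3 h4
    refine Or.inr (.formal k hk a b ?_ ?_ ?_ hb0 (fun p => by rw [h3, h]) c hc hJ ?_ ?_)
    · rwa [h4]
    · rwa [h4]
    · rwa [h4]
    · rwa [h2]
    · rw [h2]
      exact hl

/-- MODULE GoodC -/
theorem good_of_C (hX : Surface (coneE P)) {σ : ℂ × ℂ → EN M} {τ : EN M → ℂ × ℂ} {v : ℂ × ℂ → ℂ × ℂ} {l : ℂ × ℂ → ℂ}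
    (hσ : IsChart (coneE P) σ τ) (hsp : Spans FF σ v) (hl : LocC P σ v l) {R : MvPolynomial (Fin (M + 1)) ℂ}
    (hR : ∀ᶠ p in 𝓝 (0 : ℂ × ℂ), σ p ∉ Sg P FF → (InvAt P FF R (σ p) ↔ l p = 0)) :
    ∀ᶠ r in 𝓝[>] (0 : ℝ), ∃ B : GBox P FF, B.σ = σ ∧ B.r = r ∧ (B.Reg ∨ RedBox B) ∧ CG R B l := by
  have h1 : ∀ᶠ p in 𝓝 (0 : ℂ × ℂ), ∀ w : ℂ × ℂ, Pool.Agent.H14.PP.Tan (coneE P) (σ p) (fderiv ℂ σ p w) := by
    filter_upwards [hσ.σ_an.eventually_analyticAt, eventually_eventually_nhds.2 hσ.σ_mem] with p h2 h3 w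
    exact tan_fderiv_chart h2 h3 w
  have h2 : ∀ᶠ p in 𝓝 (0 : ℂ × ℂ), v p ≠ 0 → (InvAt P FF R (σ p) ↔ l p = 0) := by
    filter_upwards [h1, hsp, hR] with p h3 h4 h5 h6
    exact h5 (notMem_Sg_of_ne h3 h4 h6)
  filter_upwards [gbox_of_reduced hX hσ hsp hl.reduced, hl.singBox (FF := FF) hσ.σ_an, closedBall_of_eventually (loc_smooth hl),
    closedBall_of_eventually h2] with r ⟨B, h3, h4, h5, h6⟩ h7 h8 h9
  refine ⟨B, h3, h5, h6, ?_, ?_, ?_, ?_⟩
  · intro h10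
    refine hl.eq_of_reg fun p => ?_
    rw [← h4]
    exact h10 p
  · intro h10
    refine (h7 B h3 h4 h5).resolve_left fun h11 => h10 fun p => ?_
    rw [h4]
    exact h11 p
  · intro p hp
    rw [h5] at hp
    rw [h4]
    exact ⟨(h8 p hp).2, (h8 p hp).1⟩
  · intro p hp hvp
    rw [h5] at hp
    rw [h4] at hvp
    rw [h3]
    exact h9 p hp hvp

end Pool.Agent.MQ
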