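import Pool.Agent.MQ.ExC
import Pool.Agent.MQ.Sing
import Pool.Agent.MQ.GoodC
import Pool.Agent.MQ.CDat
import Pool.Agent.MQ.Atl
import Pool.Agent.H90.SG.Poly

/-!
# MQ CC: the atlas and the invariant curve
-/

set_option autoImplicit false

open Topology Filter Metric MvPolynomial Asymptotics

noncomputable section

namespace Pool.Agent.MQ

open Pool.Agent.H36.BP (EN)
open Pool.Agent.H13.SM (conTan)
open Pool.Agent.H17BP (IsChart Surface)
open Pool.Agent.H17EF (projVar coneE)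
open Pool.Agent.H62.FC (Homog)
open Pool.Agent.H17LG.Variety (FunField)

variable {M : ℕ} {P : Ideal (MvPolynomial (Fin (M + 1)) ℂ)} {FF : Set (EN M × EN M)}

/-- MODULE CC: the atlas and the invariant curve -/
theorem exists_cdata [P.IsPrime] {z : Fin 2 → FunField P} (hP : Homog P) (hz : IsTranscendenceBasis ℂ z) (hX : Surface (coneE P))
    (hsm : ∀ y : Fin (M + 1) → ℂ, y ≠ 0 → (∀ Q ∈ P, eval y Q = 0) → Module.finrank ℂ (conTan P y) ≤ 3) (h : IsReduced P FF) :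
    ∃ (A : Atlas P FF) (D : CData A), ∀ i, ¬ (A.B i).Reg → SingBox (A.B i) (D.g i) := by
  obtain ⟨R, d, hRh, hRP, hR⟩ := exists_C hX (fun R d hRh hRP σ τ hσ => Pool.Agent.H90.SG.thin_coneE hP hz hsm hRh hRP hσ) h
  obtain ⟨A, hA⟩ := exists_atlas_of_germ hX (fun B : GBox P FF => ∃ g, CG R B g) fun x hx => by
    obtain ⟨σ, τ, v, l, hσ, h0, hsp, hl, hl2⟩ := hR x hx
    refine ⟨σ, h0, ?_⟩
    filter_upwards [good_of_C hX hσ hsp hl hl2] with r ⟨B, e1, e2, e3, e4⟩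
    exact ⟨B, e1, e2, e3.imp_right RedBox.v_zero, l, e4⟩
  obtain ⟨D, hD⟩ := cdata_of_good hX hRh hRP A hA
  exact ⟨A, D, hD⟩

end Pool.Agent.MQ
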