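import Pool.Agent.MQ.FDefs
import Pool.Agent.MQ.Sing

/-!
# MQ CDefs: the invariant part of an algebraic curve
-/

set_option autoImplicit false

open Topology Filter MvPolynomial Asymptotics

noncomputable section

namespace Pool.Agent.MQ

open Pool.Agent.H36.BP (EN)
open Pool.Agent.H17BP (IsChart Pr)
open Pool.Agent.H17EF (projVar coneE)

variable {M : ℕ}

/-- through `x` there is a piece of a leaf which is contained in `{R = 0}` -/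
def InvAt (P : Ideal (MvPolynomial (Fin (M + 1)) ℂ)) (FF : Set (EN M × EN M)) (R : MvPolynomial (Fin (M + 1)) ℂ) (x : EN M) : Prop :=
  ∃ γ : ℂ → EN M, AnalyticAt ℂ γ 0 ∧ γ 0 = x ∧ (∀ᶠ t in 𝓝 (0 : ℂ), γ t ∈ coneE P ∧ (γ t, deriv γ t) ∈ FF ∧ eval (γ t).ofLp R = 0) ∧
    ∃ᶠ t in 𝓝 (0 : ℂ), ¬ Pr (γ t) x

/-- through `p` there is a curve tangent to `v` which is contained in `{q = 0}` -/
def LeafIn (v : ℂ × ℂ → ℂ × ℂ) (q : ℂ × ℂ → ℂ) (p : ℂ × ℂ) : Prop :=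
  ∃ γ : ℂ → ℂ × ℂ, AnalyticAt ℂ γ 0 ∧ γ 0 = p ∧
    (∀ᶠ t in 𝓝 (0 : ℂ), (v (γ t)).1 * (deriv γ t).2 = (v (γ t)).2 * (deriv γ t).1 ∧ q (γ t) = 0) ∧ ∃ᶠ t in 𝓝 (0 : ℂ), γ t ≠ p

/-- the germ `c` lies in no algebraic curve -/
def NonAlgC (P : Ideal (MvPolynomial (Fin (M + 1)) ℂ)) (c : ℂ → EN M) : Prop :=
  ∀ (R : MvPolynomial (Fin (M + 1)) ℂ) (d : ℕ), R.IsHomogeneous d → R ∉ P → ∃ᶠ t in 𝓝 (0 : ℂ), eval (c t).ofLp R ≠ 0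

/-- The vector field `v` and the local equation `l` of the invariant curve in the chart `σ`; an axis which is not in the curve is not algebraic. -/
inductive LocC (P : Ideal (MvPolynomial (Fin (M + 1)) ℂ)) (σ : ℂ × ℂ → EN M) (v : ℂ × ℂ → ℂ × ℂ) (l : ℂ × ℂ → ℂ) : Prop
  | regular (h : ∀ p, v p = (0, 1)) (hl : (∀ p, l p = 1) ∨ ∀ p, l p = p.1)
  | node (a b l₁ l₂ : ℂ × ℂ → ℂ) (ha : AnalyticAt ℂ a 0) (hb : AnalyticAt ℂ b 0) (ha0 : a 0 ≠ 0) (hb0 : b 0 ≠ 0)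
      (hq : ∀ k l : ℕ, 1 ≤ k → 1 ≤ l → k * a 0 ≠ l * b 0) (h : ∀ p, v p = (p.1 * a p, p.2 * b p)) (hl : ∀ p, l p = l₁ p * l₂ p)
      (h₁ : (∀ p, l₁ p = p.1) ∨ (∀ p, l₁ p = 1) ∧ NonAlgC P fun t => σ (0, t))
      (h₂ : (∀ p, l₂ p = p.2) ∨ (∀ p, l₂ p = 1) ∧ NonAlgC P fun t => σ (t, 0))
  | saddleNode (k : ℕ) (hk : 1 ≤ k) (a b l₁ l₂ : ℂ × ℂ → ℂ) (ha : AnalyticAt ℂ a 0) (hb : AnalyticAt ℂ b 0) (ha0 : a 0 ≠ 0) (hb0 : b 0 ≠ 0)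
      (h : ∀ p, v p = (p.1 ^ (k + 1) * a p, p.2 * b p)) (hl : ∀ p, l p = l₁ p * l₂ p)
      (h₁ : (∀ p, l₁ p = p.1) ∨ (∀ p, l₁ p = 1) ∧ NonAlgC P fun t => σ (0, t))
      (h₂ : (∀ p, l₂ p = p.2) ∨ (∀ p, l₂ p = 1) ∧ NonAlgC P fun t => σ (t, 0))
  | formal (k : ℕ) (hk : 1 ≤ k) (a b : ℂ × ℂ → ℂ) (ha : AnalyticAt ℂ a 0) (hb : AnalyticAt ℂ b 0) (ha0 : a 0 ≠ 0)
      (hb0 : fderiv ℂ b 0 (0, 1) ≠ 0) (h : ∀ p, v p = (p.1 ^ (k + 1) * a p, b p)) (c : ℕ → ℂ) (hc : c 0 = 0)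
      (hJ : ∀ J, (fun t => b (t, jet c J t) - deriv (jet c J) t * (t ^ (k + 1) * a (t, jet c J t))) =O[𝓝 0] fun t : ℂ => t ^ (J + 1))
      (hR : ∀ (R : MvPolynomial (Fin (M + 1)) ℂ) (d : ℕ), R.IsHomogeneous d → R ∉ P → ∃ n : ℕ,
        ¬ (fun t => eval (σ (t, jet c n t)).ofLp R) =O[𝓝 0] fun t : ℂ => t ^ (n + 1))
      (hl : (∀ p, l p = p.1) ∨ (∀ p, l p = 1) ∧ NonAlgC P fun t => σ (0, t))

end Pool.Agent.MQ
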