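import Pool.Agent.MQ.Green
import Pool.Agent.H30M.Tau2
import Pool.Agent.H36.BP.Defs

/-!
# MQ VDefs: one variable

`tau R` (in `H30M`) is the test function, `avg R u` the mean over the annulus `R < |z| < e R` (times `2 π`), `gr` the gradient.
-/

set_option autoImplicit false

open MeasureTheory Topology Filter Metric Laplacian

noncomputable section

namespace Pool.Agent.MQ

open Pool.Agent.H30M (tau rhoR avg rho)
open Pool.Agent.H36.BP (EN fs)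

variable {N M : ℕ}

/-- the length of the derivative of the curve `F` -/
def lam (F : ℂ → EN M) (z : ℂ) : ℝ := fs (F z) (deriv F z)

/-- the energy -/
def En (F : ℂ → EN M) (R : ℝ) : ℝ := ∫ z, tau R z * lam F z ^ 2

/-- the length -/
def Len (F : ℂ → EN M) (R : ℝ) : ℝ := ∫ z, ‖gr (tau R) z‖ * lam F z

/-- the flux of the vector field `V` -/
def Fl (V : ℂ → ℂ) (R : ℝ) : ℝ := -∫ z, ip (gr (tau R) z) (V z)

/-- near every point `w` is the logarithm of the modulus of a meromorphic function plus a function of class `C²` -/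
def LM (w : ℂ → ℝ) : Prop :=
  ∀ a : ℂ, ∃ (g h : ℂ → ℂ) (ψ : ℂ → ℝ), AnalyticAt ℂ g a ∧ AnalyticAt ℂ h a ∧ ContDiffAt ℝ 2 ψ a ∧
    ∀ᶠ z in 𝓝[≠] a, g z ≠ 0 ∧ h z ≠ 0 ∧ w z = Real.log ‖g z‖ - Real.log ‖h z‖ + ψ z

/-- near `a` the field `V` is the conjugate of `r / (z - a)` plus a field of class `C¹` -/
def SPt (V : ℂ → ℂ) (r : ℂ) (a : ℂ) : Prop :=
  ∃ H : ℂ → ℂ, ContDiffAt ℝ 1 H a ∧ ∀ᶠ z in 𝓝[≠] a, V z = (starRingEnd ℂ) (r / (z - a)) + H z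

/-- the logarithm of the form `g` along the curve `F` -/
def lu (F : ℂ → EN N) (g : ℂ → ℂ) (d : ℕ) (z : ℂ) : ℝ := Real.log ‖g z‖ - d * Real.log ‖F z‖

/-- the multiplicity of the zero of `g` at `z` -/
def mult (g : ℂ → ℂ) (z : ℂ) : ℝ := analyticOrderNatAt g z

/-- One axis of a box: holomorphic functions `x`, `y` on the open set `U`, with `x' = x a`, `y' = y b`, `|a| ≤ K |b|`; the common zeros of `x` and `y`
are simple poles of `a`, with residues not greater than `κ` times the multiplicity of the zero of `g`. -/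
structure Axis (U : Set ℂ) (x y a b : ℂ → ℂ) (K κ : ℝ) (g : ℂ → ℂ) : Prop where
  isOpen : IsOpen U
  hx : ∀ z ∈ U, AnalyticAt ℂ x z
  hy : ∀ z ∈ U, AnalyticAt ℂ y z
  ha : ∀ z ∈ U, x z ≠ 0 ∨ y z ≠ 0 → AnalyticAt ℂ a z
  hb : ∀ z ∈ U, x z ≠ 0 ∨ y z ≠ 0 → AnalyticAt ℂ b z
  dx : ∀ z ∈ U, x z ≠ 0 ∨ y z ≠ 0 → deriv x z = x z * a z
  dy : ∀ z ∈ U, x z ≠ 0 ∨ y z ≠ 0 → deriv y z = y z * b z
  ab : ∀ z ∈ U, x z ≠ 0 ∨ y z ≠ 0 → ‖a z‖ ≤ K * ‖b z‖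
  closed : ∀ r : ℝ, r < 1 → IsClosed {z | z ∈ U ∧ ‖x z‖ ≤ r ∧ ‖y z‖ ≤ r}
  pole : ∀ z ∈ U, x z = 0 → y z = 0 → ∃ (r : ℂ) (H : ℂ → ℂ), AnalyticAt ℂ H z ∧ r.re ≤ κ * mult g z ∧
    (∀ᶠ w in 𝓝[≠] z, a w = r / (w - z) + H w) ∧ ∀ᶠ w in 𝓝[≠] z, x w ≠ 0 ∨ y w ≠ 0

end Pool.Agent.MQ
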