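import Pool.Agent.MQ.FDefs
import Pool.Agent.MQ.VDefs
import Pool.Agent.H30M.Mean2
import Pool.Agent.H13.OT.Wrap

/-!
# MQ GeoDefs: boxes, coordinates along curves, the chart changes

`GBox`: a chart on a closed polydisc with the vector field of the foliation.  `U s`: the cone over the polydisc of radius `s` (the norm of `ℂ × ℂ` is the
sup norm, so `ball 0 s` is a polydisc).  `crd x`: the coordinates of `x`.  `om p w = v ∧ w`.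
`Crv`: the lifts of the curves of the theorem.
-/

set_option autoImplicit false

open Topology Filter Metric MvPolynomial Asymptotics MeasureTheory Laplacian

noncomputable section

namespace Pool.Agent.MQ

open Pool.Agent.H36.BP (EN fs)
open Pool.Agent.H17BP (IsChart IsForm)
open Pool.Agent.H17EF (projVar coneE)
open Pool.Agent.H30M (tau avg LogSing)

variable {M : ℕ} {P : Ideal (MvPolynomial (Fin (M + 1)) ℂ)} {FF : Set (EN M × EN M)}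

/-! ## boxes -/

/-- a chart on a closed polydisc with the vector field `v` of the foliation -/
structure GBox (P : Ideal (MvPolynomial (Fin (M + 1)) ℂ)) (FF : Set (EN M × EN M)) where
  σ : ℂ × ℂ → EN M
  v : ℂ × ℂ → ℂ × ℂ
  r : ℝ
  pos : 0 < r
  σ_an : AnalyticOnNhd ℂ σ (closedBall 0 r)
  v_an : AnalyticOnNhd ℂ v (closedBall 0 r)
  mem : ∀ p ∈ closedBall (0 : ℂ × ℂ) r, σ p ∈ coneE P
  inj : ∀ p ∈ closedBall (0 : ℂ × ℂ) r, ∀ q ∈ closedBall (0 : ℂ × ℂ) r, ∀ c : ℂ, σ p = c • σ q → p = q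
  imm : ∀ p ∈ closedBall (0 : ℂ × ℂ) r, LinearIndependent ℂ ![σ p, fderiv ℂ σ p (1, 0), fderiv ℂ σ p (0, 1)]
  spans : ∀ p ∈ closedBall (0 : ℂ × ℂ) r, ∀ (w : ℂ × ℂ) (a c : ℂ), c ≠ 0 →
    ((c • σ p, c • fderiv ℂ σ p w + a • σ p) ∈ FF ↔ (v p).1 * w.2 = (v p).2 * w.1)
  /-- the points of the surface near `σ p` are near the same polydisc, with an analytic coordinate map -/
  opn : ∀ p ∈ ball (0 : ℂ × ℂ) r, ∃ (T : EN M → ℂ × ℂ) (c : EN M → ℂ), AnalyticAt ℂ T (σ p) ∧ AnalyticAt ℂ c (σ p) ∧ T (σ p) = p ∧ c (σ p) = 1 ∧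
    ∀ᶠ y in 𝓝 (σ p), y ∈ coneE P → y = c y • σ (T y)
  /-- the surface is a cone -/
  cone : ∀ x ∈ coneE P, ∀ c : ℂ, c ≠ 0 → c • x ∈ coneE P
  zero : ∀ p ∈ closedBall (0 : ℂ × ℂ) r, v p = 0 → p = 0

/-- the cone over the polydisc of radius `s` -/
def GBox.U (B : GBox P FF) (s : ℝ) : Set (EN M) := {x | ∃ p ∈ ball (0 : ℂ × ℂ) s, ∃ c : ℂ, c ≠ 0 ∧ x = c • B.σ p}

open Classical in
/-- the coordinates of the point `x` of the box -/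
def GBox.crd (B : GBox P FF) (x : EN M) : ℂ × ℂ :=
  if h : ∃ p ∈ ball (0 : ℂ × ℂ) B.r, ∃ c : ℂ, c ≠ 0 ∧ x = c • B.σ p then h.choose else 0

/-- the 1-form of the foliation -/
def GBox.om (B : GBox P FF) (p w : ℂ × ℂ) : ℂ := (B.v p).1 * w.2 - (B.v p).2 * w.1

/-- the divergence of `v` -/
def dvg (v : ℂ × ℂ → ℂ × ℂ) (p : ℂ × ℂ) : ℂ := (fderiv ℂ v p (1, 0)).1 + (fderiv ℂ v p (0, 1)).2

/-- the box is regular, the leaves are `{x = const}` -/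
def GBox.Reg (B : GBox P FF) : Prop := ∀ p, B.v p = (0, 1)

/-- the germ at `0` of the curve `c` is contained in no algebraic curve -/
def NonAlg (P : Ideal (MvPolynomial (Fin (M + 1)) ℂ)) (c : ℂ → EN M) : Prop :=
  ∀ (R : MvPolynomial (Fin (M + 1)) ℂ) (d : ℕ), R.IsHomogeneous d → R ∉ P → ∃ᶠ t in 𝓝 (0 : ℂ), eval (c t).ofLp R ≠ 0

/-- a box with a reduced singular point at the center -/
inductive RedBox (B : GBox P FF) : Prop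
  | node (a b : ℂ × ℂ → ℂ) (ha : AnalyticOnNhd ℂ a (closedBall 0 B.r)) (hb : AnalyticOnNhd ℂ b (closedBall 0 B.r))
      (ha0 : ∀ p ∈ closedBall (0 : ℂ × ℂ) B.r, a p ≠ 0) (hb0 : ∀ p ∈ closedBall (0 : ℂ × ℂ) B.r, b p ≠ 0)
      (hq : ∀ k l : ℕ, 1 ≤ k → 1 ≤ l → k * a 0 ≠ l * b 0) (h : ∀ p, B.v p = (p.1 * a p, p.2 * b p))
  | saddleNode (k : ℕ) (hk : 1 ≤ k) (a b : ℂ × ℂ → ℂ) (ha : AnalyticOnNhd ℂ a (closedBall 0 B.r))
      (hb : AnalyticOnNhd ℂ b (closedBall 0 B.r)) (ha0 : ∀ p ∈ closedBall (0 : ℂ × ℂ) B.r, a p ≠ 0)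
      (hb0 : ∀ p ∈ closedBall (0 : ℂ × ℂ) B.r, b p ≠ 0) (h : ∀ p, B.v p = (p.1 ^ (k + 1) * a p, p.2 * b p))
  | formal (k : ℕ) (hk : 1 ≤ k) (a b : ℂ × ℂ → ℂ) (ha : AnalyticOnNhd ℂ a (closedBall 0 B.r))
      (hb : AnalyticOnNhd ℂ b (closedBall 0 B.r)) (ha0 : ∀ p ∈ closedBall (0 : ℂ × ℂ) B.r, a p ≠ 0)
      (hb0 : fderiv ℂ b 0 (0, 1) ≠ 0) (h : ∀ p, B.v p = (p.1 ^ (k + 1) * a p, b p)) (c : ℕ → ℂ) (hc : c 0 = 0)
      (hJ : ∀ J, (fun t => b (t, jet c J t) - deriv (jet c J) t * (t ^ (k + 1) * a (t, jet c J t))) =O[𝓝 0] fun t : ℂ => t ^ (J + 1))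
      (hR : ∀ (R : MvPolynomial (Fin (M + 1)) ℂ) (d : ℕ), R.IsHomogeneous d → R ∉ P → ∃ n : ℕ,
        ¬ (fun t => eval (B.σ (t, jet c n t)).ofLp R) =O[𝓝 0] fun t : ℂ => t ^ (n + 1))

/-- the local equation `g` of the invariant curve at a singular point: `1`, `x`, `y` or `x y`, according to the axes which lie in algebraic curves -/
inductive SingBox (B : GBox P FF) (g : ℂ × ℂ → ℂ) : Prop
  | node (a b g₁ g₂ : ℂ × ℂ → ℂ) (ha : AnalyticOnNhd ℂ a (closedBall 0 B.r)) (hb : AnalyticOnNhd ℂ b (closedBall 0 B.r))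
      (ha0 : ∀ p ∈ closedBall (0 : ℂ × ℂ) B.r, a p ≠ 0) (hb0 : ∀ p ∈ closedBall (0 : ℂ × ℂ) B.r, b p ≠ 0)
      (hq : ∀ k l : ℕ, 1 ≤ k → 1 ≤ l → k * a 0 ≠ l * b 0) (h : ∀ p, B.v p = (p.1 * a p, p.2 * b p))
      (hg : ∀ p, g p = g₁ p * g₂ p)
      (h₁ : (∀ p, g₁ p = p.1) ∨ (∀ p, g₁ p = 1) ∧ NonAlg P fun t => B.σ (0, t))
      (h₂ : (∀ p, g₂ p = p.2) ∨ (∀ p, g₂ p = 1) ∧ NonAlg P fun t => B.σ (t, 0))
  | saddleNode (k : ℕ) (hk : 1 ≤ k) (a b g₁ : ℂ × ℂ → ℂ) (ha : AnalyticOnNhd ℂ a (closedBall 0 B.r))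
      (hb : AnalyticOnNhd ℂ b (closedBall 0 B.r)) (ha0 : ∀ p ∈ closedBall (0 : ℂ × ℂ) B.r, a p ≠ 0)
      (hb0 : ∀ p ∈ closedBall (0 : ℂ × ℂ) B.r, b p ≠ 0) (h : ∀ p, B.v p = (p.1 ^ (k + 1) * a p, p.2 * b p))
      (hg : ∀ p, g p = g₁ p * p.2) (h₁ : (∀ p, g₁ p = p.1) ∨ (∀ p, g₁ p = 1) ∧ NonAlg P fun t => B.σ (0, t))
  | formal (k : ℕ) (hk : 1 ≤ k) (a b : ℂ × ℂ → ℂ) (ha : AnalyticOnNhd ℂ a (closedBall 0 B.r))
      (hb : AnalyticOnNhd ℂ b (closedBall 0 B.r)) (ha0 : ∀ p ∈ closedBall (0 : ℂ × ℂ) B.r, a p ≠ 0)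
      (hb0 : fderiv ℂ b 0 (0, 1) ≠ 0) (h : ∀ p, B.v p = (p.1 ^ (k + 1) * a p, b p)) (c : ℕ → ℂ) (hc : c 0 = 0)
      (hJ : ∀ J, (fun t => b (t, jet c J t) - deriv (jet c J) t * (t ^ (k + 1) * a (t, jet c J t))) =O[𝓝 0] fun t : ℂ => t ^ (J + 1))
      (hR : ∀ (R : MvPolynomial (Fin (M + 1)) ℂ) (d : ℕ), R.IsHomogeneous d → R ∉ P → ∃ n : ℕ,
        ¬ (fun t => eval (B.σ (t, jet c n t)).ofLp R) =O[𝓝 0] fun t : ℂ => t ^ (n + 1))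
      (hg : (∀ p, g p = p.1) ∨ (∀ p, g p = 1) ∧ NonAlg P fun t => B.σ (0, t))

/-- `Φ` is the change of coordinates from the box `A` to the box `B` near `p`, and `om_B = t om_A` -/
structure Chg (A B : GBox P FF) (p : ℂ × ℂ) (Φ : ℂ × ℂ → ℂ × ℂ) (t : ℂ × ℂ → ℂ) : Prop where
  an : AnalyticAt ℂ Φ p
  mem : Φ p ∈ ball (0 : ℂ × ℂ) B.r
  eq : ∀ᶠ w in 𝓝 p, ∃ c : ℂ, c ≠ 0 ∧ A.σ w = c • B.σ (Φ w)
  t_an : AnalyticAt ℂ t p
  t_ne : t p ≠ 0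
  om : ∀ᶠ w in 𝓝 p, ∀ u : ℂ × ℂ, B.om (Φ w) (fderiv ℂ Φ w u) = t w * A.om w u

/-! ## the atlas -/

/-- A finite cover of the surface by boxes.  The center of a singular box has a neighbourhood which meets no other box. -/
structure Atlas (P : Ideal (MvPolynomial (Fin (M + 1)) ℂ)) (FF : Set (EN M × EN M)) where
  ι : Type
  [fin : Fintype ι]
  B : ι → GBox P FF
  red : ∀ i, (B i).Reg ∨ (B i).v 0 = 0
  cover : ∀ x ∈ coneE P, ∃ i, x ∈ (B i).U ((B i).r / 4)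
  disj : ∀ i j, i ≠ j → ¬ (B i).Reg → ¬ (B j).Reg → ∀ x ∈ (B i).U (B i).r, x ∉ (B j).U (B j).r
  sep : ∀ i, ¬ (B i).Reg → ∃ s, 0 < s ∧ s ≤ (B i).r / 8 ∧ ∀ j, j ≠ i → ∀ x ∈ (B i).U s, x ∉ (B j).U (B j).r

attribute [instance] Atlas.fin

/-- the divisor `{g = 0}` is invariant (outside the singular point) -/
def InvEq (B : GBox P FF) (g : ℂ × ℂ → ℂ) : Prop :=
  ∀ p ∈ closedBall (0 : ℂ × ℂ) B.r, B.v p ≠ 0 → ∃ h : ℂ × ℂ → ℂ, AnalyticAt ℂ h p ∧ ∀ᶠ w in 𝓝 p, fderiv ℂ g w (B.v w) = h w * g w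

/-- The invariant curve, which contains all algebraic separatrices, with its local equations `g i`. -/
structure CData (A : Atlas P FF) where
  g : A.ι → ℂ × ℂ → ℂ
  R : MvPolynomial (Fin (M + 1)) ℂ
  d : ℕ
  hom : R.IsHomogeneous d
  notMem : R ∉ P
  reg : ∀ i, (A.B i).Reg → ∃ S : Finset ℂ, ∀ p, g i p = ∏ a ∈ S, (p.1 - a)
  an : ∀ i, AnalyticOnNhd ℂ (g i) (closedBall 0 (A.B i).r)
  inv : ∀ i, InvEq (A.B i) (g i)
  van : ∀ i, ∀ p ∈ ball (0 : ℂ × ℂ) (A.B i).r, g i p = 0 → eval ((A.B i).σ p).ofLp R = 0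
  comp : ∀ i j, ∀ p ∈ ball (0 : ℂ × ℂ) (A.B i).r, ∀ Φ t, Chg (A.B i) (A.B j) p Φ t → ∃ s : ℂ × ℂ → ℂ, AnalyticAt ℂ s p ∧ s p ≠ 0 ∧
    ∀ᶠ w in 𝓝 p, g j (Φ w) = s w * g i w

/-! ## curves -/

/-- a lift of an entire curve of order two which is tangent to the foliation and not constant -/
structure Crv (P : Ideal (MvPolynomial (Fin (M + 1)) ℂ)) (FF : Set (EN M × EN M)) (F : ℂ → EN M) : Prop where
  diff : Differentiable ℂ F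
  mem : ∀ z, F z ∈ coneE P
  tan : ∀ z, (F z, deriv F z) ∈ FF
  ord : ∃ A : ℝ, ∀ r : ℝ, 0 < r → Real.circleAverage (fun z => Real.log ‖F z‖) 0 r ≤ A * (1 + r ^ 2)
  nc : ∃ z w, ∀ c : ℂ, F z ≠ c • F w

/-- the part of the plane which the curve maps into the box -/
def GBox.Om (B : GBox P FF) (F : ℂ → EN M) : Set ℂ := {z | F z ∈ B.U B.r}

/-- the coordinates of the curve in the box -/
def GBox.cc (B : GBox P FF) (F : ℂ → EN M) (z : ℂ) : ℂ × ℂ := B.crd (F z)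

open Classical in
/-- `F' = ζ' v` in the box -/
def GBox.zt (B : GBox P FF) (F : ℂ → EN M) (z : ℂ) : ℂ :=
  if (B.v (B.cc F z)).2 = 0 then (deriv (B.cc F) z).1 / (B.v (B.cc F z)).1 else (deriv (B.cc F) z).2 / (B.v (B.cc F z)).2

/-- the logarithmic derivative of the flat section of the normal bundle, divided by the equation `g` of the invariant curve -/
def GBox.DD (B : GBox P FF) (g : ℂ × ℂ → ℂ) (F : ℂ → EN M) (z : ℂ) : ℂ :=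
  dvg B.v (B.cc F z) * B.zt F z - deriv (fun w => g (B.cc F w)) z / g (B.cc F z)

/-- **The interface of the analysis.**  `l` is a density; `l = lam F` in the first stage. -/
def Pack (F : ℂ → EN M) (l : ℂ → ℝ) (ε₀ δ : ℝ) : Prop :=
  ∃ (C : ℝ) (E : ℂ → ℝ) (η : ℂ → ℂ) (err : ℂ → ℝ), 0 ≤ C ∧ (∀ z, ∃ c, 0 ≤ c ∧ LogSing E c z) ∧ ContDiff ℝ 1 η ∧ (∀ z, ‖η z‖ ≤ C * l z) ∧
    Continuous err ∧ (∀ z, ContDiffAt ℝ 2 E z → ε₀ * lam F z ^ 2 ≤ Δ E z + dv η z + err z) ∧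
    (∀ R, 1 ≤ R → ∫ z, tau R z * err z ≤ δ * En F R + C * (∫ z, ‖gr (tau R) z‖ * l z) + C) ∧
    ∀ R, 1 ≤ R → avg R E ≤ δ * En F R + C * Real.log (1 + En F R) + C

/-- **The interface of a singular point, normal bundle half**: near the exits of the box the field is `conj D`, its divergence is nonnegative up to a small
error. -/
def LocalN (B : GBox P FF) (g : ℂ × ℂ → ℂ) (F : ℂ → EN M) (s δ : ℝ) : Prop :=
  ∃ (C : ℝ) (η : ℂ → ℂ) (err : ℂ → ℝ), 0 ≤ C ∧ ContDiffOn ℝ 1 η (B.Om F) ∧ ContinuousOn err (B.Om F) ∧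
    (∀ z ∈ B.Om F, B.cc F z ∉ ball (0 : ℂ × ℂ) s → η z = (starRingEnd ℂ) (B.DD g F z) ∧ err z = 0) ∧
    (∀ z ∈ B.Om F, B.cc F z ∈ ball (0 : ℂ × ℂ) s → ‖η z‖ ≤ C * ‖deriv (B.cc F) z‖) ∧ (∀ z ∈ B.Om F, 0 ≤ err z) ∧
    (∀ z ∈ B.Om F, 0 ≤ dv η z + err z) ∧
    ∀ R, 1 ≤ R → ∫ z in B.Om F, tau R z * err z ≤ δ * En F R + C * Len F R + C

/-- **The interface of a singular point, tangent bundle half**: `Q` is a form of degree `d`, `K` and `n` are numbers with `K d / n ≤ δ`. -/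
def LocalT (B : GBox P FF) (F : ℂ → EN M) (Q : MvPolynomial (Fin (M + 1)) ℂ) (d K n : ℕ) (s δ : ℝ) : Prop :=
  (∀ z₀ ∈ B.Om F, B.cc F z₀ = 0 → ∃ h : ℂ → ℂ, AnalyticAt ℂ h z₀ ∧ ∀ᶠ z in 𝓝[≠] z₀, h z = B.zt F z ^ n * eval (B.σ (B.cc F z)).ofLp Q ^ K) ∧
    ∃ C : ℝ, 0 ≤ C ∧ ∀ R, 1 ≤ R →
      ∫ z in B.Om F ∩ {z | B.cc F z ∈ ball (0 : ℂ × ℂ) s}, Pool.Agent.H30M.rhoR R z *
        max 0 (Real.log ‖B.zt F z‖ + K / n * (Real.log ‖eval (F z).ofLp Q‖ - d * Real.log ‖F z‖)) ≤ δ * En F R + C * Real.log (1 + En F R) + C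

end Pool.Agent.MQ
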