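import Pool.Agent.MQ.CDefs
import Pool.Agent.MQ.GeoDefs

/-!
# MQ CDefs2: the local equation of the invariant curve in a box
-/

set_option autoImplicit false

open Topology Filter Metric MvPolynomial Asymptotics

noncomputable section

namespace Pool.Agent.MQ

open Pool.Agent.H36.BP (EN)
open Pool.Agent.H17EF (projVar coneE)

variable {M : ℕ} {P : Ideal (MvPolynomial (Fin (M + 1)) ℂ)} {FF : Set (EN M × EN M)}

/-- `g` is the equation in the box `B` of the invariant part of `{R = 0}` -/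
structure CG (R : MvPolynomial (Fin (M + 1)) ℂ) (B : GBox P FF) (g : ℂ × ℂ → ℂ) : Prop where
  reg : B.Reg → (∀ p, g p = 1) ∨ ∀ p, g p = p.1
  sing : ¬ B.Reg → SingBox B g
  smooth : ∀ p ∈ closedBall (0 : ℂ × ℂ) B.r, AnalyticAt ℂ g p ∧ (B.v p ≠ 0 → g p = 0 → fderiv ℂ g p ≠ 0)
  iff : ∀ p ∈ closedBall (0 : ℂ × ℂ) B.r, B.v p ≠ 0 → (InvAt P FF R (B.σ p) ↔ g p = 0)

end Pool.Agent.MQ
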