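import Pool.Agent.MQ.CDefs
import Pool.Agent.E1.Disc

/-!
# MQ CStub: the invariant part of an algebraic curve (stub)

Every theorem is one module `Pool/Agent/MQ/<Name>.lean`, with the same statement.
-/

set_option autoImplicit false

open Topology Filter MvPolynomial Asymptotics

noncomputable section

namespace Pool.Agent.MQ.CStub

open Pool.Agent.H36.BP (EN)
open Pool.Agent.H17BP (IsChart Pr Surface)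
open Pool.Agent.H17EF (projVar coneE)
open Pool.Agent.MQ

variable {M : ℕ}

/-! ## C1 `InvL`: from the surface to the chart -/

theorem inv_iff {P : Ideal (MvPolynomial (Fin (M + 1)) ℂ)} {FF : Set (EN M × EN M)} {σ : ℂ × ℂ → EN M} {τ : EN M → ℂ × ℂ} {v : ℂ × ℂ → ℂ × ℂ}
    (hX : Surface (coneE P)) (hσ : IsChart (coneE P) σ τ) (hsp : Spans FF σ v) {R : MvPolynomial (Fin (M + 1)) ℂ} {d : ℕ} (hR : R.IsHomogeneous d) :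
    ∀ᶠ p in 𝓝 (0 : ℂ × ℂ), InvAt P FF R (σ p) ↔ LeafIn v (fun p => eval (σ p).ofLp R) p := sorry

/-! ## C2 `LeafReg`: regular points -/

theorem leaf_regular {q : ℂ × ℂ → ℂ} (hq : AnalyticAt ℂ q 0) (hq0 : ∃ᶠ p in 𝓝 (0 : ℂ × ℂ), q p ≠ 0) :
    (∀ᶠ p in 𝓝 (0 : ℂ × ℂ), ¬ LeafIn (fun _ => (0, 1)) q p) ∨ ∀ᶠ p in 𝓝 (0 : ℂ × ℂ), (LeafIn (fun _ => (0, 1)) q p ↔ p.1 = 0) := sorry

/-! ## C3 `LeafDisc`: if there are invariant points near `0` with the property `T` then there is an invariant disc through `0` -/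

theorem leaf_disc {v : ℂ × ℂ → ℂ × ℂ} (hv : AnalyticAt ℂ v 0) (hv0 : ∀ᶠ p in 𝓝 (0 : ℂ × ℂ), p ≠ 0 → v p ≠ 0) {q : ℂ × ℂ → ℂ} (hq : AnalyticAt ℂ q 0)
    (hq0 : ∃ᶠ p in 𝓝 (0 : ℂ × ℂ), q p ≠ 0) {T : ℂ × ℂ → Prop} (hT : ∃ᶠ p in 𝓝 (0 : ℂ × ℂ), p ≠ 0 ∧ T p ∧ LeafIn v q p) :
    ∃ c : ℂ → ℂ × ℂ, AnalyticAt ℂ c 0 ∧ c 0 = 0 ∧
      (∀ᶠ t in 𝓝 (0 : ℂ), (v (c t)).1 * (deriv c t).2 = (v (c t)).2 * (deriv c t).1 ∧ q (c t) = 0) ∧ ∃ᶠ t in 𝓝 (0 : ℂ), c t ≠ 0 ∧ T (c t) := sorry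

/-! ## C4 `NoDisc`: the invariant discs through a reduced singular point -/

theorem node_no {a b : ℂ × ℂ → ℂ} (ha : AnalyticAt ℂ a 0) (hb : AnalyticAt ℂ b 0) (ha0 : a 0 ≠ 0) (hb0 : b 0 ≠ 0)
    (hq : ∀ k l : ℕ, 1 ≤ k → 1 ≤ l → k * a 0 ≠ l * b 0) {c : ℂ → ℂ × ℂ} (hc : AnalyticAt ℂ c 0) (hc0 : c 0 = 0)
    (ht : ∀ᶠ t in 𝓝 (0 : ℂ), (c t).1 * a (c t) * (deriv c t).2 = (c t).2 * b (c t) * (deriv c t).1) :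
    (∀ᶠ t in 𝓝 (0 : ℂ), (c t).1 = 0) ∨ ∀ᶠ t in 𝓝 (0 : ℂ), (c t).2 = 0 := sorry

theorem saddle_no {k : ℕ} (hk : 1 ≤ k) {a b : ℂ × ℂ → ℂ} (ha : AnalyticAt ℂ a 0) (hb : AnalyticAt ℂ b 0) (ha0 : a 0 ≠ 0) (hb0 : b 0 ≠ 0)
    {c : ℂ → ℂ × ℂ} (hc : AnalyticAt ℂ c 0) (hc0 : c 0 = 0)
    (ht : ∀ᶠ t in 𝓝 (0 : ℂ), (c t).1 ^ (k + 1) * a (c t) * (deriv c t).2 = (c t).2 * b (c t) * (deriv c t).1) :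
    (∀ᶠ t in 𝓝 (0 : ℂ), (c t).1 = 0) ∨ ∀ᶠ t in 𝓝 (0 : ℂ), (c t).2 = 0 := sorry

/-- an invariant disc through a saddle-node which is not in the strong separatrix has infinite contact with the formal weak separatrix -/
theorem formal_contact {k : ℕ} (hk : 1 ≤ k) {a b : ℂ × ℂ → ℂ} (ha : AnalyticAt ℂ a 0) (hb : AnalyticAt ℂ b 0) (ha0 : a 0 ≠ 0)
    (hb0 : fderiv ℂ b 0 (0, 1) ≠ 0) {e : ℕ → ℂ} (he : e 0 = 0)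
    (hJ : ∀ J, (fun t => b (t, jet e J t) - deriv (jet e J) t * (t ^ (k + 1) * a (t, jet e J t))) =O[𝓝 0] fun t : ℂ => t ^ (J + 1))
    {c : ℂ → ℂ × ℂ} (hc : AnalyticAt ℂ c 0) (hc0 : c 0 = 0) (hx : ∃ᶠ t in 𝓝 (0 : ℂ), (c t).1 ≠ 0)
    (ht : ∀ᶠ t in 𝓝 (0 : ℂ), (c t).1 ^ (k + 1) * a (c t) * (deriv c t).2 = b (c t) * (deriv c t).1) (J : ℕ) :
    (fun t => (c t).2 - jet e J (c t).1) =O[𝓝 0] fun t : ℂ => (c t).1 ^ (J + 1) := sorry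

theorem formal_no {P : Ideal (MvPolynomial (Fin (M + 1)) ℂ)} {σ : ℂ × ℂ → EN M} (hσ : AnalyticAt ℂ σ 0) {k : ℕ} (hk : 1 ≤ k) {a b : ℂ × ℂ → ℂ}
    (ha : AnalyticAt ℂ a 0) (hb : AnalyticAt ℂ b 0) (ha0 : a 0 ≠ 0) (hb0 : fderiv ℂ b 0 (0, 1) ≠ 0) {e : ℕ → ℂ} (he : e 0 = 0)
    (hJ : ∀ J, (fun t => b (t, jet e J t) - deriv (jet e J) t * (t ^ (k + 1) * a (t, jet e J t))) =O[𝓝 0] fun t : ℂ => t ^ (J + 1))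
    {R : MvPolynomial (Fin (M + 1)) ℂ} (hR : ∃ n : ℕ, ¬ (fun t => eval (σ (t, jet e n t)).ofLp R) =O[𝓝 0] fun t : ℂ => t ^ (n + 1))
    {c : ℂ → ℂ × ℂ} (hc : AnalyticAt ℂ c 0) (hc0 : c 0 = 0)
    (ht : ∀ᶠ t in 𝓝 (0 : ℂ), (c t).1 ^ (k + 1) * a (c t) * (deriv c t).2 = b (c t) * (deriv c t).1 ∧ eval (σ (c t)).ofLp R = 0) :
    ∀ᶠ t in 𝓝 (0 : ℂ), (c t).1 = 0 := sorry

/-! ## C5 `LeafAxis`: the points of an axis -/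

/-- the axis `{p.1 = 0}`; `f (t) = v.2 (0, t)` does not vanish for small `t ≠ 0` -/
theorem leaf_axis {v : ℂ × ℂ → ℂ × ℂ} (hv : AnalyticAt ℂ v 0) (h1 : ∀ᶠ t in 𝓝 (0 : ℂ), (v (0, t)).1 = 0)
    (h2 : ∀ᶠ t in 𝓝 (0 : ℂ), t ≠ 0 → (v (0, t)).2 ≠ 0) {q : ℂ × ℂ → ℂ} (hq : AnalyticAt ℂ q 0) :
    ∀ᶠ t in 𝓝 (0 : ℂ), t ≠ 0 → (LeafIn v q (0, t) ↔ ∀ᶠ s in 𝓝 (0 : ℂ), q (0, s) = 0) := sorry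

/-- the axis `{p.2 = 0}` -/
theorem leaf_axis' {v : ℂ × ℂ → ℂ × ℂ} (hv : AnalyticAt ℂ v 0) (h1 : ∀ᶠ t in 𝓝 (0 : ℂ), (v (t, 0)).2 = 0)
    (h2 : ∀ᶠ t in 𝓝 (0 : ℂ), t ≠ 0 → (v (t, 0)).1 ≠ 0) {q : ℂ × ℂ → ℂ} (hq : AnalyticAt ℂ q 0) :
    ∀ᶠ t in 𝓝 (0 : ℂ), t ≠ 0 → (LeafIn v q (t, 0) ↔ ∀ᶠ s in 𝓝 (0 : ℂ), q (s, 0) = 0) := sorry

/-! ## C6 `AlgR` -/

theorem exists_alg {P : Ideal (MvPolynomial (Fin (M + 1)) ℂ)} [P.IsPrime] {r : ℕ} (c : Fin r → ℂ → EN M) :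
    ∃ (R : MvPolynomial (Fin (M + 1)) ℂ) (d : ℕ), R.IsHomogeneous d ∧ R ∉ P ∧ ∀ i, NonAlgC P (c i) ∨ ∀ᶠ t in 𝓝 (0 : ℂ), eval (c i t).ofLp R = 0 := sorry

/-! ## C7 `ExC`: the assembly -/

theorem exists_C {P : Ideal (MvPolynomial (Fin (M + 1)) ℂ)} [P.IsPrime] {FF : Set (EN M × EN M)} (hX : Surface (coneE P))
    (hne : ∀ (R : MvPolynomial (Fin (M + 1)) ℂ) (d : ℕ), R.IsHomogeneous d → R ∉ P → ∀ σ τ, IsChart (coneE P) σ τ →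
      ∃ᶠ p in 𝓝 (0 : ℂ × ℂ), eval (σ p).ofLp R ≠ 0) (hF : IsReduced P FF) :
    ∃ (R : MvPolynomial (Fin (M + 1)) ℂ) (d : ℕ), R.IsHomogeneous d ∧ R ∉ P ∧ ∀ x ∈ coneE P, ∃ (σ : ℂ × ℂ → EN M) (τ : EN M → ℂ × ℂ)
      (v : ℂ × ℂ → ℂ × ℂ) (l : ℂ × ℂ → ℂ), IsChart (coneE P) σ τ ∧ σ 0 = x ∧ Spans FF σ v ∧ LocC P σ v l ∧
        ∀ᶠ p in 𝓝 (0 : ℂ × ℂ), σ p ∉ Sg P FF → (InvAt P FF R (σ p) ↔ l p = 0) := sorry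

/-! ## C8 `Unit`: two local equations with the same zeros -/

theorem unit {l l' : ℂ × ℂ → ℂ} {p : ℂ × ℂ} (hl : AnalyticAt ℂ l p) (hl' : AnalyticAt ℂ l' p) (h : l p = 0 → fderiv ℂ l p ≠ 0)
    (h' : l' p = 0 → fderiv ℂ l' p ≠ 0) (hz : ∀ᶠ x in 𝓝 p, (l x = 0 ↔ l' x = 0)) :
    ∃ u : ℂ × ℂ → ℂ, AnalyticAt ℂ u p ∧ u p ≠ 0 ∧ ∀ᶠ x in 𝓝 p, l' x = u x * l x := sorry

theorem loc_smooth {P : Ideal (MvPolynomial (Fin (M + 1)) ℂ)} {σ : ℂ × ℂ → EN M} {v : ℂ × ℂ → ℂ × ℂ} {l : ℂ × ℂ → ℂ} (h : LocC P σ v l) :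
    ∀ᶠ p in 𝓝 (0 : ℂ × ℂ), (v p ≠ 0 → l p = 0 → fderiv ℂ l p ≠ 0) ∧ AnalyticAt ℂ l p := sorry

end Pool.Agent.MQ.CStub
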