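import Pool.Agent.MQ.CDefs2
import Pool.Agent.MQ.CStub

/-!
# MQ CStub2: stub for CC
-/

set_option autoImplicit false

open Topology Filter Metric MvPolynomial Asymptotics

noncomputable section

namespace Pool.Agent.MQ.CStub

open Pool.Agent.H36.BP (EN)
open Pool.Agent.H17BP (IsChart Pr Surface)
open Pool.Agent.H17EF (projVar coneE)
open Pool.Agent.MQ

variable {M : ℕ} {P : Ideal (MvPolynomial (Fin (M + 1)) ℂ)} {FF : Set (EN M × EN M)}

/-- MODULE GoodC (helper82): small boxes; from `gbox_of_germ`, `closedBall_of_eventually` (Box), `loc_smooth` (Unit) and `LocC`.  The type `saddleNode` with a weak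
axis which is not algebraic becomes `SingBox.formal` with `c = 0`. -/
theorem good_of_C (hX : Surface (coneE P)) {σ : ℂ × ℂ → EN M} {τ : EN M → ℂ × ℂ} {v : ℂ × ℂ → ℂ × ℂ} {l : ℂ × ℂ → ℂ}
    (hσ : IsChart (coneE P) σ τ) (hsp : Spans FF σ v) (hl : LocC P σ v l) {R : MvPolynomial (Fin (M + 1)) ℂ}
    (hR : ∀ᶠ p in 𝓝 (0 : ℂ × ℂ), σ p ∉ Sg P FF → (InvAt P FF R (σ p) ↔ l p = 0)) :
    ∀ᶠ r in 𝓝[>] (0 : ℝ), ∃ B : GBox P FF, B.σ = σ ∧ B.r = r ∧ (B.Reg ∨ RedBox B) ∧ CG R B l := sorry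

/-- MODULE CDat (helper97): `comp` by `unit` at the points with `v p ≠ 0`; `v p = 0` is the center of a singular box, there `j = i` by `disj` / `sep` and
`Φ = id` by `inj`; `van` by continuity at the center; `an`, `inv` by `SingBox.inv` and `reg_inv` (MQ/InvS). -/
theorem cdata_of_good (hX : Surface (coneE P)) {R : MvPolynomial (Fin (M + 1)) ℂ} {d : ℕ} (hRh : R.IsHomogeneous d) (hRP : R ∉ P) (A : Atlas P FF)
    (hA : ∀ i, ∃ g, CG R (A.B i) g) : ∃ D : CData A, ∀ i, ¬ (A.B i).Reg → SingBox (A.B i) (D.g i) := sorry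

end Pool.Agent.MQ.CStub
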