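import Pool.Agent.MQ.Jen

/-!
# MQ Charge: the energy in a level region of a form along the curve
-/

set_option autoImplicit false

open MeasureTheory Topology Filter Metric Laplacian

namespace Pool.Agent.MQ

open Pool.Agent.H30M (tau rhoR avg rho LogSing gg uu II HH tau_nonneg HH_nonneg integrable_tau_mul)
open Pool.Agent.H36.BP (EN fs)

variable {N : ℕ}

/-- **Charge** -/
theorem charge {F : ℂ → EN N} (hF : Differentiable ℂ F) (h0 : ∀ z, F z ≠ 0) {g : ℂ → ℂ} (hg : Differentiable ℂ g) {d : ℕ}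
    (hgF : ∀ z, ‖g z‖ ≤ ‖F z‖ ^ d) {n : ℕ} (hn : 1 ≤ n) (b₀ : ℝ) : ∃ C, ∀ R, 1 ≤ R →
      ∫ z, tau R z * {z | g z ≠ 0 ∧ b₀ ≤ lu F g d z ∧ lu F g d z ≤ b₀ + 2 * n}.indicator (fun z => ‖gr (lu F g d) z‖ ^ 2) z ≤
        12 * n * (d * En F R) + C := by
  set L : ℂ → ℝ := fun z => Real.log ‖F z‖ with hL
  have hlu : lu F g d = uu L g d := rfl
  by_cases hg0 : ∃ z, g z ≠ 0
  swap
  · push Not at hg0
    refine ⟨0, fun R hR => ?_⟩
    have he : ∀ z, tau R z * {z | g z ≠ 0 ∧ b₀ ≤ lu F g d z ∧ lu F g d z ≤ b₀ + 2 * n}.indicator (fun z => ‖gr (lu F g d) z‖ ^ 2) z = 0 := by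
      intro z
      rw [Set.indicator_of_notMem (fun h => h.1 (hg0 z)), mul_zero]
    simp only [he, integral_zero]
    have := En_nonneg F hR
    positivity
  refine ⟨10 * Real.pi * n * (1 / 2 + |b₀| + 2 * n), fun R hR => ?_⟩
  have hH : ∀ k : ℕ, Integrable fun z => tau R z * HH L g d (b₀ + 2 * k + 1) z := fun k =>
    integrable_tau_mul hR (Pool.Agent.H30M.continuous_HH (cg_L hF h0) hg _)
  have hi : Integrable fun z => ∑ k ∈ Finset.range n, 5 * (tau R z * HH L g d (b₀ + 2 * k + 1) z) :=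
    integrable_finsetSum _ fun k _ => (hH k).const_mul _
  have h1 : ∫ z, tau R z * {z | g z ≠ 0 ∧ b₀ ≤ lu F g d z ∧ lu F g d z ≤ b₀ + 2 * n}.indicator (fun z => ‖gr (lu F g d) z‖ ^ 2) z ≤
      ∫ z, ∑ k ∈ Finset.range n, 5 * (tau R z * HH L g d (b₀ + 2 * k + 1) z) := by
    refine integral_mono_of_nonneg (Eventually.of_forall fun z => mul_nonneg (tau_nonneg hR z) (Set.indicator_nonneg (fun _ _ => by positivity) z)) hi
      (Eventually.of_forall fun z => ?_)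
    have ht := tau_nonneg hR z
    by_cases hz : z ∈ {z | g z ≠ 0 ∧ b₀ ≤ lu F g d z ∧ lu F g d z ≤ b₀ + 2 * n}
    · simp only [Set.indicator_of_mem hz]
      obtain ⟨hz0, hz1, hz2⟩ := hz
      rw [hlu] at hz1 hz2 ⊢
      obtain ⟨k, hk, hk1, hk2⟩ : ∃ k < n, b₀ + 2 * (k : ℝ) ≤ uu L g d z ∧ uu L g d z ≤ b₀ + 2 * k + 2 := by
        have hf1 : ((⌊(uu L g d z - b₀) / 2⌋₊ : ℕ) : ℝ) ≤ (uu L g d z - b₀) / 2 := Nat.floor_le (by linarith)
        have hf2 : (uu L g d z - b₀) / 2 < (⌊(uu L g d z - b₀) / 2⌋₊ : ℕ) + 1 := Nat.lt_floor_add_one _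
        by_cases hlt : ⌊(uu L g d z - b₀) / 2⌋₊ < n
        · exact ⟨_, hlt, by linarith, by linarith⟩
        · refine ⟨n - 1, by omega, ?_, ?_⟩
          · have h3 : (n : ℝ) ≤ (⌊(uu L g d z - b₀) / 2⌋₊ : ℕ) := by exact_mod_cast not_lt.1 hlt
            have h4 : ((n - 1 : ℕ) : ℝ) ≤ n := by exact_mod_cast Nat.sub_le n 1
            linarith
          · have h4 : ((n - 1 : ℕ) : ℝ) = n - 1 := by push_cast [hn]; ring
            rw [h4]; linarith
      have h2 := Pool.Agent.H30M.le_HH (L := L) (d := (d : ℝ)) (b := b₀ + 2 * k + 1) (cg_L hF h0) hg hz0 (by linarith) (by linarith)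
      refine le_trans ?_ (Finset.single_le_sum (f := fun k : ℕ => 5 * (tau R z * HH L g d (b₀ + 2 * k + 1) z))
        (fun j _ => mul_nonneg (by norm_num) (mul_nonneg ht (HH_nonneg _ _ _ _ _))) (Finset.mem_range.2 hk))
      have h3 : ‖gr (uu L g d) z‖ ^ 2 = gg (uu L g d) (uu L g d) z := by
        rw [← ip_self]; rfl
      rw [h3]
      have h4 : gg (uu L g d) (uu L g d) z ≤ 5 * HH L g d (b₀ + 2 * k + 1) z := by linarith
      calc tau R z * gg (uu L g d) (uu L g d) z ≤ tau R z * (5 * HH L g d (b₀ + 2 * k + 1) z) := mul_le_mul_of_nonneg_left h4 ht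
        _ = _ := by ring
    · simp only [Set.indicator_of_notMem hz, mul_zero]
      exact Finset.sum_nonneg fun k _ => mul_nonneg (by norm_num) (mul_nonneg ht (HH_nonneg _ _ _ _ _))
  refine h1.trans ?_
  rw [integral_finsetSum _ fun k _ => (hH k).const_mul _]
  have h2 : ∀ k ∈ Finset.range n, ∫ z, 5 * (tau R z * HH L g d (b₀ + 2 * k + 1) z)
      ≤ 5 * (d * (2 * En F R) + 2 * Real.pi * (1 / 2 + |b₀| + 2 * n)) := by
    intro k hk
    have hkm : (k : ℝ) + 1 ≤ n := by exact_mod_cast Finset.mem_range.1 hk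
    have hk0 : (0 : ℝ) ≤ k := k.cast_nonneg
    rw [integral_const_mul]
    have h5 := Pool.Agent.H30M.key (cg_L hF h0) (cg_lap_nonneg hF h0) hg hg0 (by positivity : (0 : ℝ) ≤ d) (cg_le h0 hgF) (b₀ + 2 * k + 1) hR
    rw [cg_II hF h0] at h5
    refine mul_le_mul_of_nonneg_left (h5.trans ?_) (by norm_num)
    have h3 := Pool.Agent.H30M.ky_const (b₀ + 2 * k + 1)
    have h4 : |b₀ + 2 * k + 1| ≤ |b₀| + (2 * k + 1) := by
      rw [add_assoc]
      refine (abs_add_le _ _).trans ?_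
      rw [abs_of_nonneg (by positivity : (0 : ℝ) ≤ 2 * k + 1)]
    have h5 : Real.log (1 + Real.exp (2 * (b₀ + 2 * k + 1))) / 2 - (b₀ + 2 * k + 1) ≤ 1 / 2 + |b₀| + 2 * n := by linarith
    have := Real.pi_pos
    nlinarith
  refine (Finset.sum_le_sum h2).trans ?_
  rw [Finset.sum_const, Finset.card_range, nsmul_eq_mul]
  have hE := En_nonneg F hR
  have h6 : (0 : ℝ) ≤ n * (d * En F R) := by positivity
  nlinarith

end Pool.Agent.MQ
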