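import Pool.Agent.H17EF.Count

/-!
# MQ Cnt: forms of degree `d` with contact of order `K d` with a germ of curve

On a surface there is, for every `K` and every germ `S` of holomorphic curve in the affine cone, a form of some degree `d ≥ 1` which does not vanish on
the surface and has contact of order at least `K d` with the germ.
-/

set_option autoImplicit false

open MvPolynomial

noncomputable section

namespace Pool.Agent.MQ

open Pool.Agent.H17LG.Variety (FunField)

variable {N : ℕ} {P : Ideal (MvPolynomial (Fin (N + 1)) ℂ)}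

/-- a form along a holomorphic curve is holomorphic -/
theorem analyticAt_eval_curve {S : ℂ → Fin (N + 1) → ℂ} {y : ℂ} (hS : AnalyticAt ℂ S y) (Q : MvPolynomial (Fin (N + 1)) ℂ) :
    AnalyticAt ℂ (fun t => eval (S t) Q) y := by
  induction Q using MvPolynomial.induction_on with
  | C a => simpa using analyticAt_const
  | add p q hp hq =>
    have h1 := hp.add hq
    exact h1.congr (Filter.Eventually.of_forall fun t => by simp)
  | mul_X p i hp =>
    have h1 : AnalyticAt ℂ (fun t => S t i) y := by
      have := (ContinuousLinearMap.proj (R := ℂ) (φ := fun _ : Fin (N + 1) => ℂ) i).analyticAt (S y)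
      exact this.comp_of_eq hS rfl
    exact (hp.mul h1).congr (Filter.Eventually.of_forall fun t => by simp)

/-- the first `n` Taylor coefficients of a form along a curve -/
def jetL (S : ℂ → Fin (N + 1) → ℂ) (y : ℂ) (hS : AnalyticAt ℂ S y) (n : ℕ) : MvPolynomial (Fin (N + 1)) ℂ →ₗ[ℂ] (Fin n → ℂ) where
  toFun Q k := iteratedDeriv k (fun t => eval (S t) Q) y
  map_add' p q := by
    funext k
    have h1 : (fun t => eval (S t) (p + q)) = (fun t => eval (S t) p) + fun t => eval (S t) q := by
      funext t; simp
    rw [h1, iteratedDeriv_add ((analyticAt_eval_curve hS p).contDiffAt) ((analyticAt_eval_curve hS q).contDiffAt)]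
    rfl
  map_smul' a p := by
    funext k
    have h1 : (fun t => eval (S t) (a • p)) = fun t => a * eval (S t) p := by
      funext t; simp [smul_eval]
    rw [h1, iteratedDeriv_const_mul_field]
    rfl

/-- **Contact.** For every `K` there is a form of some degree `d ≥ 1`, not zero on the surface, which has contact of order at least `K d` with the germ. -/
theorem exists_contact [P.IsPrime] {z : Fin 2 → FunField P} (hz : IsTranscendenceBasis ℂ z)
    (hX : ∃ i, (X i : MvPolynomial (Fin (N + 1)) ℂ) ∉ P) {S : ℂ → Fin (N + 1) → ℂ} {y : ℂ} (hS : AnalyticAt ℂ S y) (K : ℕ) :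
    ∃ d : ℕ, 1 ≤ d ∧ ∃ Q : MvPolynomial (Fin (N + 1)) ℂ, Q.IsHomogeneous d ∧ Q ∉ P ∧
      ((K * d : ℕ) : ℕ∞) ≤ analyticOrderAt (fun t => eval (S t) Q) y := by
  obtain ⟨d, hd, h⟩ := Pool.Agent.H17EF.exists_form_of_conditions hz hX K
  obtain ⟨Q, hQ, hQP, hL⟩ := h (jetL S y hS (K * d))
  refine ⟨d, hd, Q, hQ, hQP, ?_⟩
  rw [natCast_le_analyticOrderAt_iff_iteratedDeriv_eq_zero (analyticAt_eval_curve hS Q)]
  intro i hi
  exact congrFun hL ⟨i, hi⟩

end Pool.Agent.MQ
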