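import Pool.Agent.MQ.CoreD

/-!
# MQ Core: the pack of a curve from an atlas along the curve

The global function is `E = - log ∑ χ k exp (- e k)`.  Near a point of `U i` it is `e i - mm i`, where `mm i = log ∑ χ k exp (e i - e k)` is of class `C²`,
and the global field is `grad (mm i) + η i`.
-/

set_option autoImplicit false

open Topology Filter Metric MeasureTheory Laplacian

noncomputable section

namespace Pool.Agent.MQ.Core

open Pool.Agent.H30M (tau avg LogSing rhoR)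
open Pool.Agent.H36.BP (EN)

theorem ev_nhds {p : ℂ → Prop} {z : ℂ} (h : ∀ᶠ w in 𝓝[≠] z, p w) : ∀ᶠ w in 𝓝[≠] z, ∀ᶠ x in 𝓝 w, p x := by
  have h2 := eventually_eventually_nhdsWithin.2 h
  filter_upwards [h2, self_mem_nhdsWithin] with w hw hne
  rwa [IsOpen.nhdsWithin_eq isOpen_compl_singleton hne] at hw

theorem ev_all {p : ℂ → Prop} {z : ℂ} (h : ∀ᶠ x in 𝓝[≠] z, p x) : ∀ᶠ w in 𝓝 z, ∀ᶠ x in 𝓝[≠] w, p x := by
  have h1 := ev_nhds h
  rw [eventually_nhdsWithin_iff] at h1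
  filter_upwards [h1] with w hw
  by_cases hwz : w = z
  · rw [hwz]; exact h
  · exact (hw hwz).filter_mono nhdsWithin_le_nhds

/-- gradient of `log |w - z|` -/
theorem gr_log {z w : ℂ} (h : w ≠ z) : gr (fun w => Real.log ‖w - z‖) w = (starRingEnd ℂ) (1 / (w - z)) := by
  have h1 := gr_log_norm (h := fun w => w - z) (z := w) (by fun_prop) (sub_ne_zero.2 h)
  have e : deriv (fun w : ℂ => w - z) w = 1 := by simp
  rwa [e] at h1

theorem diff_log {z w : ℂ} (h : w ≠ z) : DifferentiableAt ℝ (fun w : ℂ => Real.log ‖w - z‖) w :=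
  (Pool.Agent.H30M.contDiffAt_log_norm (h := fun ζ => ζ - z) (by fun_prop) (sub_ne_zero.2 h)).differentiableAt (by norm_num)

theorem gr_cls {c : ℝ} {s e : ℂ → ℝ} {z : ℂ} (hs : ContDiffAt ℝ 2 s z) (he : e =ᶠ[𝓝[≠] z] fun w => c * Real.log ‖w - z‖ + s w) :
    ∀ᶠ w in 𝓝[≠] z, gr e w = (c : ℂ) * (starRingEnd ℂ) (1 / (w - z)) + gr s w := by
  have h1 : ∀ᶠ w in 𝓝[≠] z, ContDiffAt ℝ 2 s w := (hs.eventually (by simp)).filter_mono nhdsWithin_le_nhds
  filter_upwards [ev_nhds he, h1, self_mem_nhdsWithin] with w hw h2 hne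
  rw [gr_congr (show e =ᶠ[𝓝 w] fun w => c * Real.log ‖w - z‖ + s w from hw),
    gr_add ((diff_log hne).const_mul c) (h2.differentiableAt (by norm_num)), gr_const_mul c (diff_log hne), gr_log hne]

/-- the difference of two local logarithms -/
theorem removable {e₁ e₂ : ℂ → ℝ} {η₁ η₂ : ℂ → ℂ} {z : ℂ}
    (h₁ : ∃ c, LogSing e₁ c z) (h₂ : ∃ c, LogSing e₂ c z) (hη₁ : ContinuousAt η₁ z)
    (hη₂ : ContinuousAt η₂ z) (h : ∀ᶠ w in 𝓝[≠] z, gr e₁ w + η₁ w = gr e₂ w + η₂ w) :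
    ∃ φ : ℂ → ℝ, ContDiffAt ℝ 2 φ z ∧ (∀ᶠ w in 𝓝[≠] z, e₂ w - e₁ w = φ w) ∧ gr φ =ᶠ[𝓝 z] fun w => η₁ w - η₂ w := by
  obtain ⟨c₁, s₁, hs₁, he₁⟩ := h₁
  obtain ⟨c₂, s₂, hs₂, he₂⟩ := h₂
  have hφ : ContDiffAt ℝ 2 (fun w => s₂ w - s₁ w) z := hs₂.sub hs₁
  have hd1 : ∀ᶠ w in 𝓝[≠] z, DifferentiableAt ℝ s₁ w :=
    ((hs₁.eventually (by simp)).filter_mono nhdsWithin_le_nhds).mono fun w hw => hw.differentiableAt (by norm_num)
  have hd2 : ∀ᶠ w in 𝓝[≠] z, DifferentiableAt ℝ s₂ w :=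
    ((hs₂.eventually (by simp)).filter_mono nhdsWithin_le_nhds).mono fun w hw => hw.differentiableAt (by norm_num)
  have key : ∀ᶠ w in 𝓝[≠] z, ((c₂ - c₁ : ℝ) : ℂ) * (starRingEnd ℂ) (1 / (w - z)) = η₁ w - η₂ w - gr (fun w => s₂ w - s₁ w) w := by
    filter_upwards [gr_cls hs₁ he₁, gr_cls hs₂ he₂, h, hd1, hd2] with w h1 h2 h3 h4 h5
    rw [gr_sub h5 h4]
    rw [h1, h2] at h3
    push_cast
    linear_combination - h3
  have hG : ContinuousAt (fun w => η₁ w - η₂ w - gr (fun w => s₂ w - s₁ w) w) z :=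
    (hη₁.sub hη₂).sub (continuousAt_gr (hφ.of_le (by norm_num)))
  have hc : ((c₂ - c₁ : ℝ) : ℂ) = 0 := by
    have t1 : Tendsto (fun w => (starRingEnd ℂ) (w - z) * (η₁ w - η₂ w - gr (fun w => s₂ w - s₁ w) w)) (𝓝[≠] z) (𝓝 0) := by
      have t2 : ContinuousAt (fun w => (starRingEnd ℂ) (w - z) * (η₁ w - η₂ w - gr (fun w => s₂ w - s₁ w) w)) z := by
        refine ContinuousAt.mul ?_ hG
        exact (Complex.continuous_conj.comp (continuous_id.sub continuous_const)).continuousAt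
      have t3 := t2.tendsto.mono_left (nhdsWithin_le_nhds (s := {z}ᶜ))
      simpa using t3
    refine tendsto_nhds_unique (tendsto_const_nhds (f := 𝓝[≠] z)) (t1.congr' ?_)
    filter_upwards [key, self_mem_nhdsWithin] with w hw hne
    have h0 : w - z ≠ 0 := sub_ne_zero.2 hne
    rw [← hw]
    have h1 : (starRingEnd ℂ) (w - z) ≠ 0 := (map_ne_zero _).2 h0
    rw [map_div₀, map_one]
    field_simp
  have hc' : c₂ - c₁ = 0 := by exact_mod_cast hc
  refine ⟨fun w => s₂ w - s₁ w, hφ, ?_, ?_⟩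
  · filter_upwards [he₁, he₂] with w h1 h2
    rw [h1, h2]
    have : c₂ = c₁ := by linarith
    rw [this]; ring
  · refine ((continuousAt_gr (hφ.of_le (by norm_num))).eventuallyEq_nhds_iff_eventuallyEq_nhdsNE (hη₁.sub hη₂)).1 ?_
    filter_upwards [key] with w hw
    rw [hc, zero_mul] at hw
    show gr (fun w => s₂ w - s₁ w) w = η₁ w - η₂ w
    linear_combination hw

variable {l : ℂ → ℝ} {ι : Type} {U : ι → Set ℂ} {χ e : ι → ℂ → ℝ} {η : ι → ℂ → ℂ} {C : ℝ}

/-- the continuous extension of `e k - e i` -/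
def ps (e : ι → ℂ → ℝ) (i k : ι) (w : ℂ) : ℝ := limUnder (𝓝[≠] w) fun x => e k x - e i x

theorem ps_eq {i k : ι} {z : ℂ} {φ : ℂ → ℝ} (hφ : ContDiffAt ℝ 2 φ z) (h : ∀ᶠ w in 𝓝[≠] z, e k w - e i w = φ w) : ps e i k =ᶠ[𝓝 z] φ := by
  filter_upwards [ev_all h, hφ.eventually (by simp)] with w h1 h2
  refine Tendsto.limUnder_eq ?_
  exact (h2.continuousAt.tendsto.mono_left nhdsWithin_le_nhds).congr' (h1.mono fun x hx => hx.symm)

theorem ext (h : Patches l U χ e η C) {i k : ι} {z : ℂ} (hi : z ∈ U i) (hk : z ∈ U k) : ContDiffAt ℝ 2 (ps e i k) z ∧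
    (∀ᶠ w in 𝓝[≠] z, e k w - e i w = ps e i k w) ∧ gr (ps e i k) =ᶠ[𝓝 z] fun w => η i w - η k w := by
  have c1 : ContinuousAt (η i) z := ((h.field i).contDiffAt ((h.isOpen i).mem_nhds hi)).continuousAt
  have c2 : ContinuousAt (η k) z := ((h.field k).contDiffAt ((h.isOpen k).mem_nhds hk)).continuousAt
  obtain ⟨φ, h1, h2, h3⟩ := removable (h.log i z hi) (h.log k z hk) c1 c2 (h.comp i k z hi hk)
  have h4 := ps_eq h1 h2
  refine ⟨h1.congr_of_eventuallyEq h4, ?_, ?_⟩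
  · filter_upwards [h2, h4.filter_mono nhdsWithin_le_nhds] with w h5 h6
    rw [h5, h6]
  · exact (gr_eventuallyEq h4).trans h3

theorem cocycle (h : Patches l U χ e η C) {i j k : ι} {z : ℂ} (hi : z ∈ U i) (hj : z ∈ U j) (hk : z ∈ U k) :
    ps e i k z = ps e i j z + ps e j k z := by
  obtain ⟨a1, a2, -⟩ := ext h hi hk
  obtain ⟨b1, b2, -⟩ := ext h hi hj
  obtain ⟨c1, c2, -⟩ := ext h hj hk
  have t1 : Tendsto (ps e i k) (𝓝[≠] z) (𝓝 (ps e i k z)) := a1.continuousAt.tendsto.mono_left nhdsWithin_le_nhds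
  have t2 : Tendsto (fun w => ps e i j w + ps e j k w) (𝓝[≠] z) (𝓝 (ps e i j z + ps e j k z)) :=
    (b1.continuousAt.add c1.continuousAt).tendsto.mono_left nhdsWithin_le_nhds
  refine tendsto_nhds_unique t1 (t2.congr' ?_)
  filter_upwards [a2, b2, c2] with w h1 h2 h3
  rw [← h1, ← h2, ← h3]; ring

theorem ps_self (h : Patches l U χ e η C) {i : ι} {z : ℂ} (hi : z ∈ U i) : ps e i i z = 0 := by
  have := cocycle h hi hi hi
  linarith

variable [Fintype ι]

/-- the sum -/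
def SS (χ e : ι → ℂ → ℝ) (i : ι) (w : ℂ) : ℝ := ∑ k, χ k w * Real.exp (-(ps e i k w))

/-- the gauge -/
def mm (χ e : ι → ℂ → ℝ) (i : ι) (w : ℂ) : ℝ := Real.log (SS χ e i w)

omit [Fintype ι] in
theorem term_smooth (h : Patches l U χ e η C) {i : ι} {z : ℂ} (hi : z ∈ U i) (k : ι) :
    ContDiffAt ℝ 2 (fun w => χ k w * Real.exp (-(ps e i k w))) z := by
  by_cases hk : z ∈ tsupport (χ k)
  · exact (h.smooth k).contDiffAt.mul (Real.contDiff_exp.contDiffAt.comp z (ext h hi (h.supp k hk)).1.neg)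
  · have h1 : (fun w => χ k w * Real.exp (-(ps e i k w))) =ᶠ[𝓝 z] fun _ => 0 := by
      filter_upwards [notMem_tsupport_iff_eventuallyEq.1 hk] with w hw
      rw [hw]; simp
    exact contDiffAt_const.congr_of_eventuallyEq h1

theorem SS_smooth (h : Patches l U χ e η C) {i : ι} {z : ℂ} (hi : z ∈ U i) : ContDiffAt ℝ 2 (SS χ e i) z := by
  unfold SS
  exact ContDiffAt.sum fun k _ => term_smooth h hi k

theorem SS_pos (h : Patches l U χ e η C) (i : ι) (z : ℂ) : 0 < SS χ e i z := by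
  obtain ⟨j, hj⟩ := h.cover z
  refine Finset.sum_pos' (fun k _ => mul_nonneg (h.nonneg k z) (Real.exp_pos _).le) ⟨j, Finset.mem_univ _, ?_⟩
  rw [hj, one_mul]
  exact Real.exp_pos _

omit [Fintype ι] in
theorem mem_of_one {j : ι} {z : ℂ} (hj : χ j z = 1) : z ∈ tsupport (χ j) :=
  subset_tsupport _ (by rw [Function.mem_support, hj]; norm_num)

theorem SS_ge (h : Patches l U χ e η C) {j : ι} {z : ℂ} (hj : χ j z = 1) : 1 ≤ SS χ e j z := by
  have h1 : χ j z * Real.exp (-(ps e j j z)) ≤ SS χ e j z :=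
    Finset.single_le_sum (f := fun k => χ k z * Real.exp (-(ps e j k z))) (fun k _ => mul_nonneg (h.nonneg k z) (Real.exp_pos _).le) (Finset.mem_univ j)
  rw [hj, ps_self h (h.supp j (mem_of_one hj))] at h1
  simpa using h1

theorem mm_smooth (h : Patches l U χ e η C) {i : ι} {z : ℂ} (hi : z ∈ U i) : ContDiffAt ℝ 2 (mm χ e i) z :=
  (SS_smooth h hi).log (SS_pos h i z).ne'

theorem SS_comp (h : Patches l U χ e η C) {i j : ι} {z : ℂ} (hi : z ∈ U i) (hj : z ∈ U j) :
    SS χ e i z = Real.exp (-(ps e i j z)) * SS χ e j z := by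
  unfold SS
  rw [Finset.mul_sum]
  refine Finset.sum_congr rfl fun k _ => ?_
  by_cases hk : χ k z = 0
  · rw [hk]; ring
  · rw [cocycle h hi hj (h.supp k (subset_tsupport _ hk)), neg_add, Real.exp_add]; ring

theorem mm_comp (h : Patches l U χ e η C) {i j : ι} {z : ℂ} (hi : z ∈ U i) (hj : z ∈ U j) : mm χ e i z = mm χ e j z - ps e i j z := by
  unfold mm
  rw [SS_comp h hi hj, Real.log_mul (Real.exp_pos _).ne' (SS_pos h j z).ne', Real.log_exp]; ring

theorem gr_comp' (h : Patches l U χ e η C) {i j : ι} {z : ℂ} (hi : z ∈ U i) (hj : z ∈ U j) :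
    gr (mm χ e i) z + η i z = gr (mm χ e j) z + η j z := by
  have h1 : mm χ e i =ᶠ[𝓝 z] fun w => mm χ e j w - ps e i j w := by
    filter_upwards [(h.isOpen i).mem_nhds hi, (h.isOpen j).mem_nhds hj] with w a b using mm_comp h a b
  obtain ⟨a1, -, a3⟩ := ext h hi hj
  rw [gr_congr h1, gr_sub ((mm_smooth h hj).differentiableAt (by norm_num)) (a1.differentiableAt (by norm_num)), a3.eq_of_nhds]
  ring

open Classical in
/-- the global field -/
def fld (U : ι → Set ℂ) (χ e : ι → ℂ → ℝ) (η : ι → ℂ → ℂ) (z : ℂ) : ℂ :=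
  if hz : ∃ i, z ∈ U i then gr (mm χ e hz.choose) z + η hz.choose z else 0

theorem fld_eq (h : Patches l U χ e η C) {i : ι} {z : ℂ} (hi : z ∈ U i) : fld U χ e η z = gr (mm χ e i) z + η i z := by
  have hz : ∃ i, z ∈ U i := ⟨i, hi⟩
  unfold fld
  rw [dif_pos hz]
  exact gr_comp' h hz.choose_spec hi

omit [Fintype ι] in
theorem mem_some (h : Patches l U χ e η C) (z : ℂ) : ∃ i, z ∈ U i ∧ χ i z = 1 := by
  obtain ⟨j, hj⟩ := h.cover z
  exact ⟨j, h.supp j (mem_of_one hj), hj⟩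

theorem fld_ev (h : Patches l U χ e η C) {i : ι} {z : ℂ} (hi : z ∈ U i) : fld U χ e η =ᶠ[𝓝 z] fun w => gr (mm χ e i) w + η i w := by
  filter_upwards [(h.isOpen i).mem_nhds hi] with w hw using fld_eq h hw

theorem fld_smooth (h : Patches l U χ e η C) : ContDiff ℝ 1 (fld U χ e η) := by
  rw [contDiff_iff_contDiffAt]
  intro z
  obtain ⟨i, hi, -⟩ := mem_some h z
  exact ((contDiffAt_gr (mm_smooth h hi) (by norm_num)).add ((h.field i).contDiffAt ((h.isOpen i).mem_nhds hi))).congr_of_eventuallyEq (fld_ev h hi)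

theorem gr_sum {κ : Type} (s : Finset κ) {f : κ → ℂ → ℝ} {z : ℂ} (hf : ∀ k ∈ s, DifferentiableAt ℝ (f k) z) :
    gr (fun w => ∑ k ∈ s, f k w) z = ∑ k ∈ s, gr (f k) z := by
  rw [gr_eq, (HasFDerivAt.fun_sum fun k hk => (hf k hk).hasFDerivAt).fderiv, map_sum]
  rfl

omit [Fintype ι] in
theorem term_le (h : Patches l U χ e η C) (hl0 : ∀ z, 0 ≤ l z) (hC : 0 ≤ C) {j : ι} {z : ℂ} (hj : z ∈ tsupport (χ j)) (k : ι)
    (hb : z ∈ tsupport (χ k) → |ps e j k z| ≤ C) :
    ‖gr (fun w => χ k w * Real.exp (-(ps e j k w))) z‖ ≤ Real.exp C * (3 * C * l z) := by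
  have hnn : 0 ≤ Real.exp C * (3 * C * l z) := by have := hl0 z; positivity
  by_cases hk : z ∈ tsupport (χ k)
  · have hjU := h.supp j hj
    have hkU := h.supp k hk
    obtain ⟨a1, -, a3⟩ := ext h hjU hkU
    have hd : DifferentiableAt ℝ (ps e j k) z := a1.differentiableAt (by norm_num)
    have hde : DifferentiableAt ℝ (fun w => Real.exp (-(ps e j k w))) z := hd.neg.exp
    have h1 : gr (fun w => Real.exp (-(ps e j k w))) z = ((-Real.exp (-(ps e j k z)) : ℝ) : ℂ) * (η j z - η k z) := by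
      have h2 : HasDerivAt (fun t : ℝ => Real.exp (-t)) (-Real.exp (-(ps e j k z))) (ps e j k z) := by
        have := (hasDerivAt_neg (ps e j k z)).exp
        simpa using this
      rw [gr_comp h2 hd, a3.eq_of_nhds]
    rw [gr_mul ((h.smooth k).differentiable (by norm_num) z) hde, h1]
    have hb := abs_le.1 (hb hk)
    have he : Real.exp (-(ps e j k z)) ≤ Real.exp C := Real.exp_le_exp.2 (by linarith [hb.1])
    have n1 : ‖η j z - η k z‖ ≤ 2 * C * l z := by
      refine (norm_sub_le _ _).trans ?_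
      have := h.field_le j z hjU
      have := h.field_le k z hkU
      linarith
    have n2 := h.gr_le k z
    have n3 : 0 ≤ Real.exp (-(ps e j k z)) := (Real.exp_pos _).le
    have n4 : 0 ≤ C * l z := mul_nonneg hC (hl0 z)
    refine (norm_add_le _ _).trans ?_
    rw [norm_mul, norm_mul, norm_mul, Complex.norm_real, Complex.norm_real, Complex.norm_real, norm_neg, Real.norm_of_nonneg n3,
      Real.norm_of_nonneg (h.nonneg k z)]
    have m1 : χ k z * (Real.exp (-(ps e j k z)) * ‖η j z - η k z‖) ≤ Real.exp C * (2 * C * l z) := by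
      calc χ k z * (Real.exp (-(ps e j k z)) * ‖η j z - η k z‖) ≤ 1 * (Real.exp (-(ps e j k z)) * ‖η j z - η k z‖) :=
            mul_le_mul_of_nonneg_right (h.le_one k z) (mul_nonneg n3 (norm_nonneg _))
        _ = Real.exp (-(ps e j k z)) * ‖η j z - η k z‖ := one_mul _
        _ ≤ Real.exp C * (2 * C * l z) := mul_le_mul he n1 (norm_nonneg _) (Real.exp_pos _).le
    have m2 : Real.exp (-(ps e j k z)) * ‖gr (χ k) z‖ ≤ Real.exp C * (C * l z) := mul_le_mul he n2 (norm_nonneg _) (Real.exp_pos _).le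
    calc _ ≤ Real.exp C * (2 * C * l z) + Real.exp C * (C * l z) := add_le_add m1 m2
      _ = Real.exp C * (3 * C * l z) := by ring
  · have h1 : (fun w => χ k w * Real.exp (-(ps e j k w))) =ᶠ[𝓝 z] fun _ => 0 := by
      filter_upwards [notMem_tsupport_iff_eventuallyEq.1 hk] with w hw
      rw [hw]; simp
    rw [gr_congr h1, gr_const, norm_zero]
    exact hnn

omit [Fintype ι] in
theorem ps_val (h : Patches l U χ e η C) {j k : ι} {z : ℂ} (hj : z ∈ U j) (hk : z ∈ U k) (cj : ContDiffAt ℝ 2 (e j) z) (ck : ContDiffAt ℝ 2 (e k) z) :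
    ps e j k z = e k z - e j z := by
  obtain ⟨a1, a2, -⟩ := ext h hj hk
  have t1 : Tendsto (ps e j k) (𝓝[≠] z) (𝓝 (ps e j k z)) := a1.continuousAt.tendsto.mono_left nhdsWithin_le_nhds
  have t2 : Tendsto (fun w => e k w - e j w) (𝓝[≠] z) (𝓝 (e k z - e j z)) :=
    (ck.continuousAt.sub cj.continuousAt).tendsto.mono_left nhdsWithin_le_nhds
  exact tendsto_nhds_unique (t1.congr' (a2.mono fun w hw => hw.symm)) t2

theorem ev_reg (h : Patches l U χ e η C) (z : ℂ) : ∀ᶠ w in 𝓝[≠] z, ∀ k, w ∈ tsupport (χ k) → ContDiffAt ℝ 2 (e k) w := by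
  rw [eventually_all]
  intro k
  by_cases hk : z ∈ tsupport (χ k)
  · obtain ⟨c, hc⟩ := h.log k z (h.supp k hk)
    exact hc.eventually.mono fun w hw _ => hw
  · have : ∀ᶠ w in 𝓝 z, w ∉ tsupport (χ k) := (isClosed_tsupport _).isOpen_compl.mem_nhds hk
    exact (this.filter_mono nhdsWithin_le_nhds).mono fun w hw hn => absurd hn hw

theorem fld_le_reg (h : Patches l U χ e η C) (hl0 : ∀ z, 0 ≤ l z) (hC : 0 ≤ C) {z : ℂ} (hz : ∀ k, z ∈ tsupport (χ k) → ContDiffAt ℝ 2 (e k) z) :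
    ‖fld U χ e η z‖ ≤ (Fintype.card ι * (Real.exp C * (3 * C)) + C) * l z := by
  obtain ⟨j, hj, hj1⟩ := mem_some h z
  have hjs := mem_of_one hj1
  have hb : ∀ k, z ∈ tsupport (χ k) → |ps e j k z| ≤ C := by
    intro k hk
    rw [ps_val h hj (h.supp k hk) (hz j hjs) (hz k hk), abs_sub_comm]
    exact h.bound j k z hj1 hk (hz j hjs) (hz k hk)
  have h1 : ‖gr (SS χ e j) z‖ ≤ Fintype.card ι * (Real.exp C * (3 * C * l z)) := by
    have h2 : gr (SS χ e j) z = ∑ k, gr (fun w => χ k w * Real.exp (-(ps e j k w))) z :=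
      gr_sum (z := z) Finset.univ fun k _ => (term_smooth h hj k).differentiableAt (by norm_num)
    rw [h2]
    refine (norm_sum_le _ _).trans ?_
    refine (Finset.sum_le_card_nsmul _ _ _ fun k _ => term_le h hl0 hC hjs k (hb k)).trans ?_
    rw [nsmul_eq_mul, Finset.card_univ]
  have h3 : gr (mm χ e j) z = (((SS χ e j z)⁻¹ : ℝ) : ℂ) * gr (SS χ e j) z :=
    gr_comp (Real.hasDerivAt_log (SS_pos h j z).ne') ((SS_smooth h hj).differentiableAt (by norm_num))
  have h4 : (SS χ e j z)⁻¹ ≤ 1 := inv_le_one_of_one_le₀ (SS_ge h hj1)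
  have h5 : 0 ≤ (SS χ e j z)⁻¹ := inv_nonneg.2 (SS_pos h j z).le
  rw [fld_eq h hj]
  refine (norm_add_le _ _).trans ?_
  rw [h3, norm_mul, Complex.norm_real, Real.norm_of_nonneg h5]
  have h6 := h.field_le j z hj
  have h7 : (SS χ e j z)⁻¹ * ‖gr (SS χ e j) z‖ ≤ 1 * ‖gr (SS χ e j) z‖ := mul_le_mul_of_nonneg_right h4 (norm_nonneg _)
  calc _ ≤ Fintype.card ι * (Real.exp C * (3 * C * l z)) + C * l z := by linarith
    _ = _ := by ring

theorem fld_le (h : Patches l U χ e η C) (hl : Continuous l) (hl0 : ∀ z, 0 ≤ l z) (hC : 0 ≤ C) (z : ℂ) :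
    ‖fld U χ e η z‖ ≤ (Fintype.card ι * (Real.exp C * (3 * C)) + C) * l z := by
  have t1 : Tendsto (fun w => ‖fld U χ e η w‖) (𝓝[≠] z) (𝓝 ‖fld U χ e η z‖) :=
    ((fld_smooth h).continuous.norm.tendsto z).mono_left nhdsWithin_le_nhds
  have t2 : Tendsto (fun w => (Fintype.card ι * (Real.exp C * (3 * C)) + C) * l w) (𝓝[≠] z)
      (𝓝 ((Fintype.card ι * (Real.exp C * (3 * C)) + C) * l z)) := ((continuous_const.mul hl).tendsto z).mono_left nhdsWithin_le_nhds
  exact le_of_tendsto_of_tendsto t1 t2 ((ev_reg h z).mono fun w hw => fld_le_reg h hl0 hC hw)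

/-- the global function -/
def Eg (χ e : ι → ℂ → ℝ) (w : ℂ) : ℝ := -Real.log (∑ k, χ k w * Real.exp (-(e k w)))

theorem Eg_eq (h : Patches l U χ e η C) {i : ι} {z : ℂ} (hi : z ∈ U i) : ∀ᶠ w in 𝓝[≠] z, Eg χ e w = e i w - mm χ e i w := by
  have h1 : ∀ᶠ w in 𝓝[≠] z, ∀ k, χ k w * Real.exp (-(e k w)) = Real.exp (-(e i w)) * (χ k w * Real.exp (-(ps e i k w))) := by
    rw [eventually_all]
    intro k
    by_cases hk : z ∈ tsupport (χ k)
    · obtain ⟨-, a2, -⟩ := ext h hi (h.supp k hk)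
      filter_upwards [a2] with w hw
      rw [← hw, show -(e k w) = -(e i w) + -(e k w - e i w) by ring, Real.exp_add]; ring
    · have := (notMem_tsupport_iff_eventuallyEq.1 hk).filter_mono (nhdsWithin_le_nhds (s := {z}ᶜ))
      filter_upwards [this] with w hw
      rw [hw]; simp
  filter_upwards [h1] with w hw
  have h2 : ∑ k, χ k w * Real.exp (-(e k w)) = Real.exp (-(e i w)) * SS χ e i w := by
    rw [Finset.sum_congr rfl fun k _ => hw k, ← Finset.mul_sum]; rfl
  unfold Eg mm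
  rw [h2, Real.log_mul (Real.exp_pos _).ne' (SS_pos h i w).ne', Real.log_exp]
  ring

theorem Eg_le (h : Patches l U χ e η C) {k : ι} {z : ℂ} (hk : χ k z = 1) : Eg χ e z ≤ e k z := by
  have h1 : χ k z * Real.exp (-(e k z)) ≤ ∑ k, χ k z * Real.exp (-(e k z)) :=
    Finset.single_le_sum (f := fun k => χ k z * Real.exp (-(e k z))) (fun k _ => mul_nonneg (h.nonneg k z) (Real.exp_pos _).le) (Finset.mem_univ k)
  rw [hk, one_mul] at h1
  have h2 := Real.log_le_log (Real.exp_pos _) h1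
  rw [Real.log_exp] at h2
  unfold Eg
  linarith

/-- `E` near a point of `U i`, with the function `v` -/
theorem logSing_Eg (h : Patches l U χ e η C) {i : ι} {z : ℂ} (hi : z ∈ U i) {v : ℂ → ℝ} {c : ℝ} (hc : LogSing (fun w => e i w + v w) c z) :
    LogSing (fun w => Eg χ e w + v w) c z := by
  have h1 := hc.sub (LogSing.of_contDiffAt (mm_smooth h hi))
  rw [sub_zero] at h1
  refine h1.congr ?_
  filter_upwards [Eg_eq h hi] with w hw
  rw [hw]; ring

theorem lap_Eg (h : Patches l U χ e η C) {i : ι} {z : ℂ} (hi : z ∈ U i) {v : ℂ → ℝ} (hv : ∃ c, LogSing v c z) :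
    ∀ᶠ w in 𝓝[≠] z, ContDiffAt ℝ 2 (e i) w ∧ ContDiffAt ℝ 2 v w ∧ w ∈ U i ∧
      Δ (fun w => Eg χ e w + v w) w + dv (fld U χ e η) w = Δ (e i) w + Δ v w + dv (η i) w := by
  obtain ⟨c, hc⟩ := h.log i z hi
  obtain ⟨c', hc'⟩ := hv
  have hU : ∀ᶠ w in 𝓝[≠] z, w ∈ U i := nhdsWithin_le_nhds ((h.isOpen i).mem_nhds hi)
  filter_upwards [hc.eventually, hc'.eventually, ev_nhds (Eg_eq h hi), hU] with w h1 h2 h3 h4
  refine ⟨h1, h2, h4, ?_⟩
  have m1 := mm_smooth h h4
  have e1 : (fun w => Eg χ e w + v w) =ᶠ[𝓝 w] (fun w => e i w - mm χ e i w) + v := by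
    filter_upwards [h3] with x hx
    simp only [Pi.add_apply]
    rw [hx]
  have e2 : Δ (fun w => Eg χ e w + v w) w = Δ (e i) w - Δ (mm χ e i) w + Δ v w := by
    rw [Pool.Agent.H30M.lap_congr e1, (h1.sub m1).laplacian_add h2]
    congr 1
    exact h1.laplacian_sub m1
  have d1 : DifferentiableAt ℝ (gr (mm χ e i)) w := differentiableAt_gr m1
  have d2 : DifferentiableAt ℝ (η i) w := ((h.field i).contDiffAt ((h.isOpen i).mem_nhds h4)).differentiableAt (by norm_num)
  have e3 : dv (fld U χ e η) w = Δ (mm χ e i) w + dv (η i) w := by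
    rw [dv_congr (fld_ev h h4), dv_add d1 d2]
    congr 1
    exact lp_eq_lap m1
  rw [e2, e3]; ring

/-! ## the error -/

theorem continuous_err {U K : Set ℂ} (hU : IsOpen U) (hK : IsClosed K) {f : ℂ → ℝ} (hf : ContinuousOn f U) (h0 : ∀ z ∈ U, z ∉ K → f z = 0) (hKU : K ⊆ U) :
    Continuous (U.indicator f) := by
  rw [continuous_iff_continuousAt]
  intro z
  by_cases hz : z ∈ U
  · have h1 : U.indicator f =ᶠ[𝓝 z] f := by
      filter_upwards [hU.mem_nhds hz] with w hw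
      rw [Set.indicator_of_mem hw]
    exact (hf.continuousAt (hU.mem_nhds hz)).congr h1.symm
  · have h1 : U.indicator f =ᶠ[𝓝 z] fun _ => 0 := by
      filter_upwards [hK.isOpen_compl.mem_nhds (fun hn => hz (hKU hn))] with w hw
      by_cases hwU : w ∈ U
      · rw [Set.indicator_of_mem hwU, h0 w hwU hw]
      · rw [Set.indicator_of_notMem hwU]
    exact continuousAt_const.congr h1.symm

theorem en_nonneg {M : ℕ} (F : ℂ → EN M) {R : ℝ} (hR : 1 ≤ R) : 0 ≤ En F R :=
  integral_nonneg fun z => mul_nonneg (Pool.Agent.H30M.tau_nonneg hR z) (sq_nonneg _)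

omit [Fintype ι] in
theorem measurable_one (h : Patches l U χ e η C) (i : ι) : MeasurableSet {z | χ i z = 1} :=
  (isClosed_eq (h.smooth i).continuous continuous_const).measurableSet

omit [Fintype ι] in
/-- integrability of the positive part in one box -/
theorem integrable_pos (h : Patches l U χ e η C) (i : ι) {v : ℂ → ℝ} (hp : ∀ z ∈ U i, ∃ c, 0 ≤ c ∧ LogSing (fun w => e i w + v w) c z) {R : ℝ}
    (hR : 1 ≤ R) : Integrable (({z | χ i z = 1} : Set ℂ).indicator fun z => rhoR R z * max 0 (e i z + v z)) := by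
  have hc : ∀ z ∈ U i, ∃ c, LogSing (fun w => e i w + v w) c z := fun z hz => let ⟨c, _, h1⟩ := hp z hz; ⟨c, h1⟩
  choose! c hc using hc
  have hcont : Continuous fun z => rhoR R z * χ i z := (Pool.Agent.H30M.continuous_rhoR R).mul (h.smooth i).continuous
  have hcs : HasCompactSupport fun z => rhoR R z * χ i z := (Pool.Agent.H30M.hcs_rhoR hR).mul_right
  have h1 : Integrable fun z => rhoR R z * χ i z * (e i z + v z) := by
    refine LogSing.integrable_mul hcont hcs (w := fun z => e i z + v z) (c := c) fun z hz => hc z (h.supp i ?_)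
    exact tsupport_mul_subset_right (f := rhoR R) (g := χ i) hz
  have h2 := h1.pos_part.indicator (measurable_one h i)
  refine h2.congr (Eventually.of_forall fun z => ?_)
  by_cases hz : χ i z = 1
  · have hz' : z ∈ ({z | χ i z = 1} : Set ℂ) := hz
    rw [Set.indicator_of_mem hz', Set.indicator_of_mem hz']
    have h0 := Pool.Agent.H30M.rhoR_nonneg R z
    show max (rhoR R z * χ i z * (e i z + v z)) 0 = rhoR R z * max 0 (e i z + v z)
    rw [hz, mul_one, max_comm, mul_max_of_nonneg _ _ h0, mul_zero]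
  · have hz' : z ∉ ({z | χ i z = 1} : Set ℂ) := hz
    rw [Set.indicator_of_notMem hz', Set.indicator_of_notMem hz']

/-- **The core.** -/
theorem core {M : ℕ} {F : ℂ → EN M} (hF : Continuous (lam F)) (hl : Continuous l) (hl0 : ∀ z, 0 ≤ l z) (hC : 0 ≤ C) (h : Patches l U χ e η C)
    {K : ι → Set ℂ} {err : ι → ℂ → ℝ} (hK : ∀ i, IsClosed (K i)) (hKU : ∀ i, K i ⊆ U i) (herr : ∀ i, ContinuousOn (err i) (U i))
    (herr0 : ∀ i, ∀ z ∈ U i, 0 ≤ err i z) (herrK : ∀ i, ∀ z ∈ U i, z ∉ K i → err i z = 0) {δ : ℝ}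
    (herri : ∀ i, ∃ C : ℝ, ∀ R, 1 ≤ R → ∫ z in U i, tau R z * err i z ≤ δ * En F R + C * (∫ z, ‖gr (tau R) z‖ * l z) + C)
    {v : ℂ → ℝ} {ε₀ : ℝ} (hv : ∀ z, ∃ c, LogSing v c z)
    (hlap : ∀ i, ∀ z ∈ U i, ContDiffAt ℝ 2 (e i) z → ContDiffAt ℝ 2 v z → ε₀ * lam F z ^ 2 ≤ Δ (e i) z + Δ v z + dv (η i) z + err i z)
    (hp : ∀ i, ∀ z ∈ U i, ∃ c, 0 ≤ c ∧ LogSing (fun w => e i w + v w) c z)
    (hm : ∀ i, ∃ C : ℝ, ∀ R, 1 ≤ R → ∫ z in {z | χ i z = 1}, rhoR R z * max 0 (e i z + v z) ≤ δ * En F R + C * Real.log (1 + En F R) + C) :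
    ∃ (C : ℝ) (E : ℂ → ℝ) (η : ℂ → ℂ) (err : ℂ → ℝ), 0 ≤ C ∧ (∀ z, ∃ c, 0 ≤ c ∧ LogSing E c z) ∧ ContDiff ℝ 1 η ∧ (∀ z, ‖η z‖ ≤ C * l z) ∧
      Continuous err ∧ (∀ z, 0 ≤ err z) ∧ (∀ z, ContDiffAt ℝ 2 E z → ε₀ * lam F z ^ 2 ≤ Δ E z + dv η z + err z) ∧
      (∀ R, 1 ≤ R → ∫ z, tau R z * err z ≤ (Fintype.card ι * δ) * En F R + C * (∫ z, ‖gr (tau R) z‖ * l z) + C) ∧
      ∀ R, 1 ≤ R → avg R E ≤ (Fintype.card ι * δ) * En F R + C * Real.log (1 + En F R) + C := by
  choose C₁ hC₁ using herri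
  choose C₂ hC₂ using hm
  have hce : ∀ i, Continuous ((U i).indicator (err i)) := fun i => continuous_err (h.isOpen i) (hK i) (herr i) (herrK i) (hKU i)
  have hle0 : ∀ i z, 0 ≤ (U i).indicator (err i) z := fun i z => Set.indicator_nonneg (fun z hz => herr0 i z hz) z
  have hs1 : 0 ≤ ∑ i, |C₁ i| := Finset.sum_nonneg fun i _ => abs_nonneg _
  have hs2 : 0 ≤ ∑ i, |C₂ i| := Finset.sum_nonneg fun i _ => abs_nonneg _
  have hs3 : 0 ≤ (Fintype.card ι * (Real.exp C * (3 * C)) + C : ℝ) := by positivity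
  refine ⟨(Fintype.card ι * (Real.exp C * (3 * C)) + C) + ∑ i, |C₁ i| + ∑ i, |C₂ i|, fun w => Eg χ e w + v w, fld U χ e η,
    fun z => ∑ i, (U i).indicator (err i) z, by positivity, ?_, fld_smooth h, ?_, continuous_finsetSum _ fun i _ => hce i,
    fun z => Finset.sum_nonneg fun i _ => hle0 i z, ?_, ?_, ?_⟩
  · intro z
    obtain ⟨i, hi, -⟩ := mem_some h z
    obtain ⟨c, hc, h1⟩ := hp i z hi
    exact ⟨c, hc, logSing_Eg h hi h1⟩
  · intro z
    refine (fld_le h hl hl0 hC z).trans (mul_le_mul_of_nonneg_right ?_ (hl0 z))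
    linarith
  · intro z hz
    obtain ⟨i, hi, -⟩ := mem_some h z
    have hlE : ContinuousAt (Δ fun w => Eg χ e w + v w) z := by
      have h2 : lp (fun w => Eg χ e w + v w) =ᶠ[𝓝 z] Δ fun w => Eg χ e w + v w := by
        filter_upwards [hz.eventually (by simp)] with w hw using lp_eq_lap hw
      exact (continuousAt_lp hz).congr h2
    have hdv : ContinuousAt (dv (fld U χ e η)) z := continuousAt_dv (fld_smooth h).contDiffAt
    have herc : Continuous fun z => ∑ i, (U i).indicator (err i) z := continuous_finsetSum _ fun i _ => hce i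
    have t1 : Tendsto (fun w => ε₀ * lam F w ^ 2) (𝓝[≠] z) (𝓝 (ε₀ * lam F z ^ 2)) :=
      ((continuous_const.mul (hF.pow 2)).tendsto z).mono_left nhdsWithin_le_nhds
    have t2 : Tendsto (fun w => Δ (fun w => Eg χ e w + v w) w + dv (fld U χ e η) w + ∑ i, (U i).indicator (err i) w) (𝓝[≠] z)
        (𝓝 (Δ (fun w => Eg χ e w + v w) z + dv (fld U χ e η) z + ∑ i, (U i).indicator (err i) z)) :=
      ((hlE.add hdv).add herc.continuousAt).tendsto.mono_left nhdsWithin_le_nhds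
    refine le_of_tendsto_of_tendsto t1 t2 ?_
    filter_upwards [lap_Eg h hi (hv z)] with w hw
    obtain ⟨h1, h2, h3, h4⟩ := hw
    have h5 := hlap i w h3 h1 h2
    have h6 : err i w ≤ ∑ i, (U i).indicator (err i) w := by
      have h7 := Finset.single_le_sum (f := fun i => (U i).indicator (err i) w) (fun k _ => hle0 k w) (Finset.mem_univ i)
      simp only [Set.indicator_of_mem h3] at h7
      exact h7
    show _ ≤ _
    rw [h4]
    linarith
  · intro R hR
    have hLen : 0 ≤ ∫ z, ‖gr (tau R) z‖ * l z := integral_nonneg fun z => mul_nonneg (norm_nonneg _) (hl0 z)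
    have h1 : ∀ i, Integrable fun z => tau R z * (U i).indicator (err i) z := fun i =>
      ((Pool.Agent.H30M.contDiff_tau R).continuous.mul (hce i)).integrable_of_hasCompactSupport (Pool.Agent.H30M.hcs_tau hR).mul_right
    have h2 : ∫ z, tau R z * ∑ i, (U i).indicator (err i) z = ∑ i, ∫ z in U i, tau R z * err i z := by
      rw [show (fun z => tau R z * ∑ i, (U i).indicator (err i) z) = fun z => ∑ i, tau R z * (U i).indicator (err i) z from
        funext fun z => Finset.mul_sum _ _ _]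
      rw [integral_finsetSum _ fun i _ => h1 i]
      refine Finset.sum_congr rfl fun i _ => ?_
      rw [← integral_indicator (h.isOpen i).measurableSet]
      congr 1
      funext z
      by_cases hz : z ∈ U i
      · rw [Set.indicator_of_mem hz, Set.indicator_of_mem hz]
      · rw [Set.indicator_of_notMem hz, Set.indicator_of_notMem hz, mul_zero]
    rw [h2]
    have h3 : ∀ i, ∫ z in U i, tau R z * err i z ≤ δ * En F R + |C₁ i| * (∫ z, ‖gr (tau R) z‖ * l z) + |C₁ i| := by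
      intro i
      have := hC₁ i R hR
      have := mul_le_mul_of_nonneg_right (le_abs_self (C₁ i)) hLen
      linarith [le_abs_self (C₁ i)]
    calc ∑ i, ∫ z in U i, tau R z * err i z ≤ ∑ i, (δ * En F R + |C₁ i| * (∫ z, ‖gr (tau R) z‖ * l z) + |C₁ i|) := Finset.sum_le_sum fun i _ => h3 i
      _ = (Fintype.card ι * δ) * En F R + (∑ i, |C₁ i|) * (∫ z, ‖gr (tau R) z‖ * l z) + ∑ i, |C₁ i| := by
        rw [Finset.sum_add_distrib, Finset.sum_add_distrib, Finset.sum_mul, Finset.sum_const, Finset.card_univ, nsmul_eq_mul]; ring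
      _ ≤ _ := by
        have := mul_le_mul_of_nonneg_right (show (∑ i, |C₁ i|) ≤ (Fintype.card ι * (Real.exp C * (3 * C)) + C) + ∑ i, |C₁ i| + ∑ i, |C₂ i| by linarith) hLen
        linarith
  · intro R hR
    have hEn := en_nonneg F hR
    have hlog : 0 ≤ Real.log (1 + En F R) := Real.log_nonneg (by linarith)
    have hcE : ∀ z, ∃ c, LogSing (fun w => Eg χ e w + v w) c z := by
      intro z
      obtain ⟨i, hi, -⟩ := mem_some h z
      obtain ⟨c, -, h1⟩ := hp i z hi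
      exact ⟨c, logSing_Eg h hi h1⟩
    choose c hc using hcE
    have i1 : Integrable fun z => rhoR R z * (Eg χ e z + v z) :=
      LogSing.integrable_mul (Pool.Agent.H30M.continuous_rhoR R) (Pool.Agent.H30M.hcs_rhoR hR) (w := fun z => Eg χ e z + v z) (c := c) fun z _ => hc z
    have i2 := fun i => integrable_pos h i (hp i) hR
    have h1 : avg R (fun w => Eg χ e w + v w) ≤ ∫ z, ∑ i, ({z | χ i z = 1} : Set ℂ).indicator (fun z => rhoR R z * max 0 (e i z + v z)) z := by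
      refine integral_mono i1 (integrable_finsetSum _ fun i _ => i2 i) fun z => ?_
      obtain ⟨k, hk⟩ := h.cover z
      have h0 := Pool.Agent.H30M.rhoR_nonneg R z
      have h2 : (({z | χ k z = 1} : Set ℂ).indicator fun z => rhoR R z * max 0 (e k z + v z)) z = rhoR R z * max 0 (e k z + v z) :=
        Set.indicator_of_mem (show z ∈ {z | χ k z = 1} from hk) _
      have h3 := Finset.single_le_sum (f := fun i => (({z | χ i z = 1} : Set ℂ).indicator fun z => rhoR R z * max 0 (e i z + v z)) z)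
        (fun i _ => Set.indicator_nonneg (fun z _ => mul_nonneg (Pool.Agent.H30M.rhoR_nonneg R z) (le_max_left _ _)) z) (Finset.mem_univ k)
      have h4 : rhoR R z * (Eg χ e z + v z) ≤ rhoR R z * max 0 (e k z + v z) :=
        mul_le_mul_of_nonneg_left ((add_le_add (Eg_le h hk) le_rfl).trans (le_max_right _ _)) h0

      rw [h2] at h3
      exact h4.trans h3
    refine h1.trans ?_
    rw [integral_finsetSum _ fun i _ => i2 i]
    have h3 : ∀ i, ∫ z, ({z | χ i z = 1} : Set ℂ).indicator (fun z => rhoR R z * max 0 (e i z + v z)) z ≤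
        δ * En F R + |C₂ i| * Real.log (1 + En F R) + |C₂ i| := by
      intro i
      rw [integral_indicator (measurable_one h i)]
      have := hC₂ i R hR
      have := mul_le_mul_of_nonneg_right (le_abs_self (C₂ i)) hlog
      linarith [le_abs_self (C₂ i)]
    calc _ ≤ ∑ i, (δ * En F R + |C₂ i| * Real.log (1 + En F R) + |C₂ i|) := Finset.sum_le_sum fun i _ => h3 i
      _ = (Fintype.card ι * δ) * En F R + (∑ i, |C₂ i|) * Real.log (1 + En F R) + ∑ i, |C₂ i| := by
        rw [Finset.sum_add_distrib, Finset.sum_add_distrib, Finset.sum_mul, Finset.sum_const, Finset.card_univ, nsmul_eq_mul]; ring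
      _ ≤ _ := by
        have := mul_le_mul_of_nonneg_right (show (∑ i, |C₂ i|) ≤ (Fintype.card ι * (Real.exp C * (3 * C)) + C) + ∑ i, |C₁ i| + ∑ i, |C₂ i| by linarith) hlog
        linarith

end Pool.Agent.MQ.Core
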