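import Pool.Agent.MQ.VDefs
import Pool.Agent.MQ.Bridge
import Pool.Agent.H30M.Mean2

/-!
# MQ CoreD: an atlas along a curve, in one variable

The plane is covered by finitely many open sets `U i`.  `e i` is the logarithm of the length of the section in the box `i` (with the weight of the
invariant curve), `η i` the local field: the conjugate of the meromorphic function `D i` outside the core of the box, a `C¹` modification of it in the core.
-/

set_option autoImplicit false

open Topology Filter Metric MeasureTheory Laplacian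

noncomputable section

namespace Pool.Agent.MQ

open Pool.Agent.H30M (tau avg LogSing rhoR)
open Pool.Agent.H36.BP (EN)

/-- **An atlas along a curve**, `l` is the density.  The sets `{χ i = 1}` cover the plane; `bound`: the functions `e i - e j` are bounded where `χ i = 1`,
`χ j ≠ 0`.  `comp`: `grad (e i) + η i` is (outside the singularities) independent of `i`. -/
structure Patches (l : ℂ → ℝ) {ι : Type} (U : ι → Set ℂ) (χ e : ι → ℂ → ℝ) (η : ι → ℂ → ℂ) (C : ℝ) : Prop where
  isOpen : ∀ i, IsOpen (U i)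
  smooth : ∀ i, ContDiff ℝ 2 (χ i)
  nonneg : ∀ i z, 0 ≤ χ i z
  le_one : ∀ i z, χ i z ≤ 1
  supp : ∀ i, tsupport (χ i) ⊆ U i
  gr_le : ∀ i z, ‖gr (χ i) z‖ ≤ C * l z
  cover : ∀ z, ∃ i, χ i z = 1
  log : ∀ i, ∀ z ∈ U i, ∃ c : ℝ, LogSing (e i) c z
  field : ∀ i, ContDiffOn ℝ 1 (η i) (U i)
  field_le : ∀ i, ∀ z ∈ U i, ‖η i z‖ ≤ C * l z
  comp : ∀ i j, ∀ z ∈ U i, z ∈ U j → ∀ᶠ w in 𝓝[≠] z, gr (e i) w + η i w = gr (e j) w + η j w
  bound : ∀ i j z, χ i z = 1 → z ∈ tsupport (χ j) → ContDiffAt ℝ 2 (e i) z → ContDiffAt ℝ 2 (e j) z → |e i z - e j z| ≤ C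

end Pool.Agent.MQ
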