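import Pool.Agent.MQ.Core
import Pool.Agent.MQ.MLog

/-!
# MQ CoreMn: the mean hypothesis of the core from a pointwise bound
-/

set_option autoImplicit false

open Topology Filter Metric MeasureTheory Laplacian

noncomputable section

namespace Pool.Agent.MQ.Core

open Pool.Agent.H30M (tau avg LogSing rhoR)
open Pool.Agent.H36.BP (EN)

variable {l : ℂ → ℝ} {ι : Type} {U : ι → Set ℂ} {χ e : ι → ℂ → ℝ} {η : ι → ℂ → ℂ} {C : ℝ}

/-- the singularities have measure zero -/
theorem ae_c2 {V : Set ℂ} {w : ℂ → ℝ} (hw : ∀ z ∈ V, ∃ c, LogSing w c z) : ∀ᵐ z : ℂ, z ∈ V → ContDiffAt ℝ 2 w z := by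
  have h0 : volume {z | z ∈ V ∧ ¬ ContDiffAt ℝ 2 w z} = 0 := by
    refine measure_null_of_locally_null _ fun z hz => ?_
    obtain ⟨c, hc⟩ := hw z hz.1
    refine ⟨{z}, ?_, by simp⟩
    have h1 := hc.eventually
    rw [eventually_nhdsWithin_iff] at h1
    rw [mem_nhdsWithin_iff_eventually]
    filter_upwards [h1] with w hw hws
    by_contra hne
    exact hws.2 (hw hne)
  rw [ae_iff]
  convert h0 using 2
  ext z
  simp

/-- **The hypothesis `hm` of `core` from a pointwise bound.** -/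
theorem mean_of_le {M : ℕ} (F : ℂ → EN M) (h : Patches l U χ e η C) (hl : Continuous l) (hl0 : ∀ z, 0 ≤ l z) {A : ℝ}
    (hA : ∀ R, 1 ≤ R → ∫ z, tau R z * l z ^ 2 ≤ A * R ^ 2) (i : ι) {v : ℂ → ℝ} (hv : ∀ z, ∃ c, LogSing v c z)
    (hp : ∀ z ∈ U i, ∃ c, 0 ≤ c ∧ LogSing (fun w => e i w + v w) c z) {C₀ : ℝ}
    (hle : ∀ z, χ i z = 1 → ContDiffAt ℝ 2 (e i) z → ContDiffAt ℝ 2 v z → e i z + v z ≤ C₀ + Real.log (1 + l z)) {δ : ℝ} (hδ : 0 ≤ δ) :
    ∃ C : ℝ, ∀ R, 1 ≤ R → ∫ z in {z | χ i z = 1}, rhoR R z * max 0 (e i z + v z) ≤ δ * En F R + C * Real.log (1 + En F R) + C := by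
  obtain ⟨C₁, hC₁⟩ := mlog_gen hl hl0 hA
  refine ⟨2 * Real.pi * |C₀| + |C₁|, fun R hR => ?_⟩
  have hEn := en_nonneg F hR
  have hlog : 0 ≤ Real.log (1 + En F R) := Real.log_nonneg (by linarith)
  have hc1 : Continuous fun z => Real.log (1 + l z) := by
    have h1 : Continuous fun z => 1 + l z := continuous_const.add hl
    exact h1.log fun z => ne_of_gt (show 0 < 1 + l z by have := hl0 z; linarith)
  have i1 : Integrable fun z => rhoR R z * (|C₀| + Real.log (1 + l z)) :=
    ((Pool.Agent.H30M.continuous_rhoR R).mul (continuous_const.add hc1)).integrable_of_hasCompactSupport (Pool.Agent.H30M.hcs_rhoR hR).mul_right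
  have hnn : ∀ z, 0 ≤ |C₀| + Real.log (1 + l z) := fun z => add_nonneg (abs_nonneg _) (Real.log_nonneg (by linarith [hl0 z]))
  have h1 : ∫ z in {z | χ i z = 1}, rhoR R z * max 0 (e i z + v z) ≤ ∫ z, rhoR R z * (|C₀| + Real.log (1 + l z)) := by
    rw [← integral_indicator (measurable_one h i)]
    refine integral_mono_ae (integrable_pos h i hp hR) i1 ?_
    filter_upwards [ae_c2 (V := U i) (h.log i), ae_c2 (V := Set.univ) fun z _ => hv z] with z h2 h3
    by_cases hz : χ i z = 1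
    · have hz' : z ∈ ({z | χ i z = 1} : Set ℂ) := hz
      rw [Set.indicator_of_mem hz']
      refine mul_le_mul_of_nonneg_left (max_le (hnn z) ?_) (Pool.Agent.H30M.rhoR_nonneg R z)
      refine (hle z hz (h2 (h.supp i (mem_of_one hz))) (h3 trivial)).trans ?_
      linarith [le_abs_self C₀]
    · have hz' : z ∉ ({z | χ i z = 1} : Set ℂ) := hz
      rw [Set.indicator_of_notMem hz']
      exact mul_nonneg (Pool.Agent.H30M.rhoR_nonneg R z) (hnn z)
  have i2 : Integrable fun z => rhoR R z * |C₀| :=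
    ((Pool.Agent.H30M.continuous_rhoR R).mul continuous_const).integrable_of_hasCompactSupport (Pool.Agent.H30M.hcs_rhoR hR).mul_right
  have i3 : Integrable fun z => rhoR R z * Real.log (1 + l z) :=
    ((Pool.Agent.H30M.continuous_rhoR R).mul hc1).integrable_of_hasCompactSupport (Pool.Agent.H30M.hcs_rhoR hR).mul_right
  have h2 : ∫ z, rhoR R z * (|C₀| + Real.log (1 + l z)) = 2 * Real.pi * |C₀| + avg R fun z => Real.log (1 + l z) := by
    rw [show (fun z => rhoR R z * (|C₀| + Real.log (1 + l z))) = fun z => rhoR R z * |C₀| + rhoR R z * Real.log (1 + l z) from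
      funext fun z => mul_add _ _ _, integral_add i2 i3, integral_mul_const, Pool.Agent.H30M.int_rhoR hR]
    rfl
  have h3 := hC₁ R hR
  have h4 : 0 ≤ (2 * Real.pi * |C₀| + |C₁|) * Real.log (1 + En F R) := mul_nonneg (by have := Real.pi_pos; positivity) hlog
  have h5 : 0 ≤ δ * En F R := mul_nonneg hδ hEn
  linarith [le_abs_self C₁]

end Pool.Agent.MQ.Core
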