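import Pool.Agent.MQ.GeoDefs
import Pool.Agent.MQ.Fub

/-!
# MQ Crd7: the energy density of a curve
-/

set_option autoImplicit false

open Topology Filter Metric MvPolynomial Asymptotics MeasureTheory Laplacian

noncomputable section

namespace Pool.Agent.MQ

open Pool.Agent.H36.BP (EN fs)

variable {M : ℕ}

/-- MODULE Coord, `Crd7`. -/
theorem continuous_lam_lap {F : ℂ → EN M} (hF : Differentiable ℂ F) (h0 : ∀ z, F z ≠ 0) : Continuous (lam F) ∧
    (∀ z, Δ (fun w => Real.log ‖F w‖) z = 2 * lam F z ^ 2) :=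
  ⟨continuous_lam hF h0, fun z => (lap_log_norm (hF.analyticAt z) (h0 z)).2⟩

end Pool.Agent.MQ
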