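import Pool.Agent.H17BP.Surf
import Pool.Agent.H17BP.Model
import Pool.Agent.H17EF.Bridge
import Pool.Agent.H14.V.MainV

/-!
# MQ Defs: reduced models

`Y` is the cone of a smooth closed surface in `ℙ^M` with a map to the surface `X` of the ideal `P`, given near every point by one of the linear maps
`π k`.  A foliation of `Y` is given by the polynomial 1-forms `A i`, a curve `C` in `Y` by the forms `C k`.
-/

set_option autoImplicit false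

open Topology Filter MvPolynomial Asymptotics

noncomputable section

namespace Pool.Agent.MQ

open Pool.Agent.H36.BP (EN)
open Pool.Agent.H17 (PN VanishesAt HolomorphicInto)
open Pool.Agent.H17BP (Pr Surface IsChart)
open Pool.Agent.H17EF (projVar coneE)
open Pool.Agent.H14.V (IsLift)
open Pool.Agent.H13.OT (OrderTwo)

variable {N M : ℕ} {κ ι γ : Type}

/-- the value of the 1-form `∑ A l dy_l` at the point `y` and the vector `w` -/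
def ev (A : Fin (M + 1) → MvPolynomial (Fin (M + 1)) ℂ) (y w : EN M) : ℂ := ∑ l, eval y.ofLp (A l) * w.ofLp l

/-- the germ at `0` of the curve `c` in `Y` is mapped into no algebraic curve of `X` -/
def NonAlg (P : Ideal (MvPolynomial (Fin (N + 1)) ℂ)) (π : κ → EN M →L[ℂ] EN N) (c : ℂ → EN M) : Prop :=
  ∀ (R : MvPolynomial (Fin (N + 1)) ℂ) (d : ℕ), R.IsHomogeneous d → R ∉ P → ∃ᶠ t in 𝓝 (0 : ℂ), ∃ k, eval (π k (c t)).ofLp R ≠ 0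

/-- `Chart ... v l`: in the chart `σ` of `Y` the foliation is given by the vector field `v`, the curve by the equation `l = 0`, and the image in the tangent
space of `X` of the direction of the leaves extends to the whole chart. -/
structure Box (Y : Set (EN M)) (π : κ → EN M →L[ℂ] EN N) (A : ι → Fin (M + 1) → MvPolynomial (Fin (M + 1)) ℂ)
    (C : γ → MvPolynomial (Fin (M + 1)) ℂ) (σ : ℂ × ℂ → EN M) (τ : EN M → ℂ × ℂ) (v : ℂ × ℂ → ℂ × ℂ) (l : ℂ × ℂ → ℂ) : Prop where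
  chart : IsChart Y σ τ
  fol : ∃ h : ι → ℂ × ℂ → ℂ, (∀ i, AnalyticAt ℂ (h i) 0) ∧ (∃ i, h i 0 ≠ 0) ∧
    ∀ i, ∀ᶠ p in 𝓝 (0 : ℂ × ℂ), ∀ w : ℂ × ℂ, ev (A i) (σ p) (fderiv ℂ σ p w) = h i p * ((v p).1 * w.2 - (v p).2 * w.1)
  crv : ∃ u : γ → ℂ × ℂ → ℂ, (∀ k, AnalyticAt ℂ (u k) 0) ∧ (∃ k, u k 0 ≠ 0) ∧
    ∀ k, ∀ᶠ p in 𝓝 (0 : ℂ × ℂ), eval (σ p).ofLp (C k) = u k p * l p
  dir : ∃ (k : κ) (u : ℂ × ℂ → EN N), AnalyticAt ℂ u 0 ∧ LinearIndependent ℂ ![π k (σ 0), u 0] ∧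
    ∀ᶠ p in 𝓝 (0 : ℂ × ℂ), ∃ a b : ℂ, π k (fderiv ℂ σ p (v p)) = a • π k (σ p) + b • u p

/-- a regular point of the foliation -/
def Regular (Y : Set (EN M)) (π : κ → EN M →L[ℂ] EN N) (A : ι → Fin (M + 1) → MvPolynomial (Fin (M + 1)) ℂ)
    (C : γ → MvPolynomial (Fin (M + 1)) ℂ) (y : EN M) : Prop :=
  ∃ (σ : ℂ × ℂ → EN M) (τ : EN M → ℂ × ℂ) (l : ℂ × ℂ → ℂ), σ 0 = y ∧ Box Y π A C σ τ (fun _ => (1, 0)) l ∧
    ((∀ p, l p = 1) ∨ ∀ p, l p = p.2)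

/-- a singular point of the foliation with a generator `(x a, y b)`, `a (0) b (0) ≠ 0`, where `a (0) / b (0)` is not a positive rational number -/
def Node (P : Ideal (MvPolynomial (Fin (N + 1)) ℂ)) (Y : Set (EN M)) (π : κ → EN M →L[ℂ] EN N) (A : ι → Fin (M + 1) → MvPolynomial (Fin (M + 1)) ℂ)
    (C : γ → MvPolynomial (Fin (M + 1)) ℂ) (y : EN M) : Prop :=
  ∃ (σ : ℂ × ℂ → EN M) (τ : EN M → ℂ × ℂ) (l l₁ l₂ a b : ℂ × ℂ → ℂ), σ 0 = y ∧ AnalyticAt ℂ a 0 ∧ AnalyticAt ℂ b 0 ∧ b 0 ≠ 0 ∧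
    (∀ m n : ℕ, 0 < n → n * a 0 ≠ m * b 0) ∧ Box Y π A C σ τ (fun p => (p.1 * a p, p.2 * b p)) l ∧ (∀ p, l p = l₁ p * l₂ p) ∧
    ((∀ p, l₁ p = p.1) ∨ (∀ p, l₁ p = 1) ∧ NonAlg P π fun t => σ (0, t)) ∧
    ((∀ p, l₂ p = p.2) ∨ (∀ p, l₂ p = 1) ∧ NonAlg P π fun t => σ (t, 0))

/-- a saddle-node with the strong separatrix `{p.1 = 0}` and the weak separatrix `{p.2 = 0}`, which is contained in the curve `C` -/
def SaddleC (P : Ideal (MvPolynomial (Fin (N + 1)) ℂ)) (Y : Set (EN M)) (π : κ → EN M →L[ℂ] EN N) (A : ι → Fin (M + 1) → MvPolynomial (Fin (M + 1)) ℂ)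
    (C : γ → MvPolynomial (Fin (M + 1)) ℂ) (y : EN M) : Prop :=
  ∃ (k : ℕ) (σ : ℂ × ℂ → EN M) (τ : EN M → ℂ × ℂ) (l₁ a b : ℂ × ℂ → ℂ), 1 ≤ k ∧ σ 0 = y ∧ AnalyticAt ℂ a 0 ∧ AnalyticAt ℂ b 0 ∧ a 0 ≠ 0 ∧ b 0 ≠ 0 ∧
    Box Y π A C σ τ (fun p => (p.1 ^ (k + 1) * a p, p.2 * b p)) (fun p => l₁ p * p.2) ∧
    ((∀ p, l₁ p = p.1) ∨ (∀ p, l₁ p = 1) ∧ NonAlg P π fun t => σ (0, t))

/-- the polynomial `∑ i ≤ J, c i * t ^ i` -/
def jet (c : ℕ → ℂ) (J : ℕ) (t : ℂ) : ℂ := ∑ i ∈ Finset.range (J + 1), c i * t ^ i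

/-- a saddle-node with the strong separatrix `{p.1 = 0}`; its formal weak separatrix `p.2 = ∑ c i * p.1 ^ i` is contained in no algebraic curve -/
def SaddleN (P : Ideal (MvPolynomial (Fin (N + 1)) ℂ)) (Y : Set (EN M)) (π : κ → EN M →L[ℂ] EN N) (A : ι → Fin (M + 1) → MvPolynomial (Fin (M + 1)) ℂ)
    (C : γ → MvPolynomial (Fin (M + 1)) ℂ) (y : EN M) : Prop :=
  ∃ (k : ℕ) (σ : ℂ × ℂ → EN M) (τ : EN M → ℂ × ℂ) (l₁ a b : ℂ × ℂ → ℂ) (c : ℕ → ℂ), 1 ≤ k ∧ σ 0 = y ∧ AnalyticAt ℂ a 0 ∧ AnalyticAt ℂ b 0 ∧ a 0 ≠ 0 ∧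
    fderiv ℂ b 0 (0, 1) ≠ 0 ∧ Box Y π A C σ τ (fun p => (p.1 ^ (k + 1) * a p, b p)) l₁ ∧
    ((∀ p, l₁ p = p.1) ∨ (∀ p, l₁ p = 1) ∧ NonAlg P π fun t => σ (0, t)) ∧ c 0 = 0 ∧
    (∀ J, (fun t => b (t, jet c J t) - deriv (jet c J) t * (t ^ (k + 1) * a (t, jet c J t))) =O[𝓝 0] fun t : ℂ => t ^ (J + 1)) ∧
    ∀ (R : MvPolynomial (Fin (N + 1)) ℂ) (d : ℕ), R.IsHomogeneous d → R ∉ P → ∃ (n : ℕ) (i : κ),
      ¬ (fun t : ℂ => eval (π i (σ (t, jet c n t))).ofLp R) =O[𝓝 0] fun t : ℂ => t ^ (n + 1)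

/-- A reduced model over the surface of `P`: a smooth closed surface `Y` with a map to it, étale outside `{R = 0}`, and a foliation with reduced
singularities. -/
structure Model (P : Ideal (MvPolynomial (Fin (N + 1)) ℂ)) (Y : Set (EN M)) (π : κ → EN M →L[ℂ] EN N)
    (A : ι → Fin (M + 1) → MvPolynomial (Fin (M + 1)) ℂ) (D : ℕ) (C : γ → MvPolynomial (Fin (M + 1)) ℂ) (E : ℕ)
    (R : MvPolynomial (Fin (N + 1)) ℂ) : Prop where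
  surf : Surface Y
  ne : ∀ y ∈ Y, ∃ k, π k y ≠ 0
  mem : ∀ y ∈ Y, ∀ k, π k y ≠ 0 → π k y ∈ coneE P
  pr : ∀ y ∈ Y, ∀ k l, π k y ≠ 0 → π l y ≠ 0 → Pr (π k y) (π l y)
  homA : ∀ i l, (A i l).IsHomogeneous D
  euler : ∀ y ∈ Y, ∀ i, ev (A i) y y = 0
  homC : ∀ k, (C k).IsHomogeneous E
  loc : ∀ y ∈ Y, Regular Y π A C y ∨ Node P Y π A C y ∨ SaddleC P Y π A C y ∨ SaddleN P Y π A C y
  curve : ∀ y ∈ Y, (∀ k, eval y.ofLp (C k) = 0) → ∀ k, eval (π k y).ofLp R = 0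
  etale : ∀ (σ : ℂ × ℂ → EN M) (τ : EN M → ℂ × ℂ), IsChart Y σ τ → ∀ k, π k (σ 0) ≠ 0 → eval (π k (σ 0)).ofLp R ≠ 0 →
    LinearIndependent ℂ ![π k (σ 0), π k (fderiv ℂ σ 0 (1, 0)), π k (fderiv ℂ σ 0 (0, 1))]

/-- The entire curve `f` in the surface of `P` is the image of a curve in `Y` which is tangent to the foliation and not of larger growth. -/
def Lifts (Y : Set (EN M)) (π : κ → EN M →L[ℂ] EN N) (A : ι → Fin (M + 1) → MvPolynomial (Fin (M + 1)) ℂ) (f : ℂ → PN N) : Prop :=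
  ∃ (F : ℂ → EN N) (G : ℂ → EN M) (B : ℝ), IsLift F f ∧ Differentiable ℂ G ∧ (∀ z, G z ∈ Y) ∧ (∀ z k, π k (G z) ≠ 0 → Pr (π k (G z)) (F z)) ∧
    (∀ z i, ev (A i) (G z) (deriv G z) = 0) ∧
    ∀ r : ℝ, 0 < r → Real.circleAverage (fun z => Real.log ‖G z‖) 0 r ≤ B * (1 + Real.circleAverage (fun z => Real.log ‖F z‖) 0 r)

end Pool.Agent.MQ
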