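import Pool.Agent.MQ.MDefs
import Pool.Agent.E1.ChowF
import Pool.Agent.E2.Cov
import Pool.Agent.H90.SG.Poly
import Pool.Agent.H17.BrodyLimit

/-!
# MQ Desc: the image of a curve under a holomorphic map is contained in a curve
-/

set_option autoImplicit false

open Topology Filter Metric MvPolynomial

noncomputable section

namespace Pool.Agent.MQ

open Pool.Agent.H36.BP (EN)
open Pool.Agent.H17 (PN VanishesAt HolomorphicInto vanishesAt_mk_iff)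
open Pool.Agent.H17BP (Surface IsChart)
open Pool.Agent.H17EF (projVar coneE LE mem_coneE)
open Pool.Agent.H17LG.Variety (FunField)
open Pool.Agent.H62.FC (Homog)
open Pool.Agent.H14.PP (eval_smulEN analyticAt_evalEN continuous_evalEN)
open Pool.Agent.E2 (Proper)

variable {N M : ℕ}

/-- the cone over the image of the curve -/
def imCone (P' : Ideal (MvPolynomial (Fin (M + 1)) ℂ)) (φ : PN M → PN N) (R' : MvPolynomial (Fin (M + 1)) ℂ) : Set (EN N) :=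
  {x | ∃ h : x.ofLp ≠ 0, ∃ y ∈ projVar P', VanishesAt R' y ∧ Projectivization.mk ℂ x.ofLp h = φ y}

theorem imCone_smul {P' : Ideal (MvPolynomial (Fin (M + 1)) ℂ)} {φ : PN M → PN N} {R' : MvPolynomial (Fin (M + 1)) ℂ} :
    ∀ x ∈ imCone P' φ R', ∀ c : ℂ, c ≠ 0 → c • x ∈ imCone P' φ R' := by
  rintro x ⟨h, y, hy, hR, e⟩ c hc
  have h2 : (c • x).ofLp ≠ 0 := by
    rw [WithLp.ofLp_smul]
    exact smul_ne_zero hc h
  refine ⟨h2, y, hy, hR, ?_⟩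
  rw [← e, Projectivization.mk_eq_mk_iff']
  exact ⟨c, by rw [WithLp.ofLp_smul]⟩

theorem zero_notMem_imCone {P' : Ideal (MvPolynomial (Fin (M + 1)) ℂ)} {φ : PN M → PN N} {R' : MvPolynomial (Fin (M + 1)) ℂ} :
    (0 : EN N) ∉ imCone P' φ R' := by
  rintro ⟨h, -⟩
  exact h rfl

/-- a polynomial which is not in the ideal of a surface defines a proper subset -/
theorem proper_zer {P' : Ideal (MvPolynomial (Fin (M + 1)) ℂ)} [P'.IsPrime] (hP' : Homog P') {z' : Fin 2 → FunField P'} (hz' : IsTranscendenceBasis ℂ z')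
    (hsm' : ∀ y : Fin (M + 1) → ℂ, y ≠ 0 → (∀ Q ∈ P', eval y Q = 0) → Module.finrank ℂ (Pool.Agent.H13.SM.conTan P' y) ≤ 3)
    {R' : MvPolynomial (Fin (M + 1)) ℂ} {d' : ℕ} (hR' : R'.IsHomogeneous d') (hRP' : R' ∉ P') :
    Proper (coneE P') {y | y ∈ coneE P' ∧ eval y.ofLp R' = 0} := by
  intro x hx
  obtain ⟨σ, τ, hσ, h0⟩ := (Pool.Agent.H90.SG.surface_coneE hP' hz' hsm').chart x hx
  refine ⟨σ, τ, 1, fun _ p => eval (σ p).ofLp R', hσ, h0, fun _ => (analyticAt_evalEN R' (σ 0)).fun_comp hσ.σ_an, ?_, ?_⟩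
  · filter_upwards [hσ.σ_mem] with p hp
    exact ⟨fun h _ => h.2, fun h => ⟨hp, h 0⟩⟩
  · intro h
    refine Pool.Agent.H90.SG.thin_coneE hP' hz' hsm' hR' hRP' hσ ?_
    filter_upwards [h] with p hp
    exact not_not.2 (hp 0)

theorem mk_mem_projVar' {P' : Ideal (MvPolynomial (Fin (M + 1)) ℂ)} (hP' : Homog P') {y : EN M} (hy : y ∈ coneE P') :
    ∃ h : y.ofLp ≠ 0, Projectivization.mk ℂ y.ofLp h ∈ projVar P' :=
  (mem_coneE hP').1 hy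

/-- the image of a small disc -/
theorem small_disc {P' : Ideal (MvPolynomial (Fin (M + 1)) ℂ)} (hP' : Homog P') {φ : PN M → PN N} (hφ : HolomorphicMap (projVar P') φ)
    {R' : MvPolynomial (Fin (M + 1)) ℂ} {d' : ℕ} (hR' : R'.IsHomogeneous d') {γ : ℂ → EN M} (hγ : AnalyticOnNhd ℂ γ (closedBall 0 1))
    (hγZ : ∀ z ∈ closedBall (0 : ℂ) 1, γ z ∈ coneE P' ∧ eval (γ z).ofLp R' = 0) {z₀ : ℂ} (hz₀ : z₀ ∈ closedBall (0 : ℂ) (1 / 2)) :
    ∃ (ρ : ℝ) (δ : ℂ → EN N), 0 < ρ ∧ AnalyticOnNhd ℂ δ (closedBall 0 1) ∧ (∀ t ∈ closedBall (0 : ℂ) 1, δ t ∈ imCone P' φ R') ∧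
      ∀ t ∈ closedBall (0 : ℂ) 1, ∀ (h : (γ (z₀ + ρ * t)).ofLp ≠ 0) (h' : (δ t).ofLp ≠ 0),
        φ (Projectivization.mk ℂ (γ (z₀ + ρ * t)).ofLp h) = Projectivization.mk ℂ (δ t).ofLp h' := by
  have hz1 : z₀ ∈ closedBall (0 : ℂ) 1 := closedBall_subset_closedBall (by norm_num) hz₀
  obtain ⟨hy0, hyP⟩ := mk_mem_projVar' hP' (hγZ z₀ hz1).1
  obtain ⟨v, hv, hv0, hev⟩ := hφ _ hy0 hyP
  have hl : ∀ z ∈ closedBall (0 : ℂ) 1, AnalyticAt ℂ (fun z => (γ z).ofLp) z := fun z hz =>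
    ((PiLp.continuousLinearEquiv 2 ℂ (fun _ : Fin (M + 1) => ℂ)) : EN M →L[ℂ] (Fin (M + 1) → ℂ)).analyticAt (γ z) |>.comp (hγ z hz)
  have hc : Tendsto (fun z => (γ z).ofLp) (𝓝 z₀) (𝓝 (γ z₀).ofLp) := (hl z₀ hz1).continuousAt
  have hb : ∀ᶠ z in 𝓝 z₀, z ∈ closedBall (0 : ℂ) 1 := by
    have h1 : ball (0 : ℂ) 1 ∈ 𝓝 z₀ := isOpen_ball.mem_nhds (by
      rw [mem_closedBall, dist_zero_right] at hz₀
      rw [mem_ball, dist_zero_right]
      linarith)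
    filter_upwards [h1] with z hz
    exact ball_subset_closedBall hz
  have h1 : ∀ᶠ z in 𝓝 z₀, z ∈ closedBall (0 : ℂ) 1 ∧ AnalyticAt ℂ v (γ z).ofLp ∧ v (γ z).ofLp ≠ 0 ∧
      ∀ (hw : (γ z).ofLp ≠ 0) (hv : v (γ z).ofLp ≠ 0), Projectivization.mk ℂ (γ z).ofLp hw ∈ projVar P' →
        φ (Projectivization.mk ℂ (γ z).ofLp hw) = Projectivization.mk ℂ (v (γ z).ofLp) hv := by
    filter_upwards [hb, hc.eventually hv.eventually_analyticAt, hc.eventually (hv.continuousAt.eventually_ne hv0), hc.eventually hev] with z a b c d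
    exact ⟨a, b, c, d⟩
  obtain ⟨ε, hε, hball⟩ := Metric.eventually_nhds_iff.1 h1
  have hin : ∀ t ∈ closedBall (0 : ℂ) 1, dist (z₀ + ((ε / 2 : ℝ) : ℂ) * t) z₀ < ε := by
    intro t ht
    rw [mem_closedBall, dist_zero_right] at ht
    rw [dist_eq_norm, add_sub_cancel_left, norm_mul, Complex.norm_real, Real.norm_of_nonneg (by positivity)]
    nlinarith
  refine ⟨ε / 2, fun t => WithLp.toLp 2 (v (γ (z₀ + ((ε / 2 : ℝ) : ℂ) * t)).ofLp), by positivity, fun t ht => ?_, fun t ht => ?_, fun t ht h h' => ?_⟩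
  · obtain ⟨h2, h3, -, -⟩ := hball (hin t ht)
    have h4 : AnalyticAt ℂ (fun t : ℂ => z₀ + ((ε / 2 : ℝ) : ℂ) * t) t := by fun_prop
    have h5 : AnalyticAt ℂ (fun t : ℂ => (γ (z₀ + ((ε / 2 : ℝ) : ℂ) * t)).ofLp) t :=
      AnalyticAt.fun_comp (g := fun z => (γ z).ofLp) (f := fun t : ℂ => z₀ + ((ε / 2 : ℝ) : ℂ) * t) (hl _ h2) h4
    have h6 : AnalyticAt ℂ (fun t : ℂ => v (γ (z₀ + ((ε / 2 : ℝ) : ℂ) * t)).ofLp) t :=
      AnalyticAt.fun_comp (g := v) (f := fun t : ℂ => (γ (z₀ + ((ε / 2 : ℝ) : ℂ) * t)).ofLp) h3 h5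
    exact ((PiLp.continuousLinearEquiv 2 ℂ (fun _ : Fin (N + 1) => ℂ)).symm : (Fin (N + 1) → ℂ) →L[ℂ] EN N).analyticAt _ |>.comp h6
  · obtain ⟨h2, h3, h4, h5⟩ := hball (hin t ht)
    obtain ⟨h6, h7⟩ := mk_mem_projVar' hP' (hγZ _ h2).1
    refine ⟨h4, _, h7, ?_, (h5 h6 h4 h7).symm⟩
    rw [vanishesAt_mk_iff hR']
    exact (hγZ _ h2).2
  · obtain ⟨h2, h3, h4, h5⟩ := hball (hin t ht)
    obtain ⟨h6, h7⟩ := mk_mem_projVar' hP' (hγZ _ h2).1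
    exact h5 h6 h4 h7

/-- **The image of a curve is contained in a curve.** -/
theorem descent {P : Ideal (MvPolynomial (Fin (N + 1)) ℂ)} [P.IsPrime] {z : Fin 2 → FunField P} (hz : IsTranscendenceBasis ℂ z)
    {P' : Ideal (MvPolynomial (Fin (M + 1)) ℂ)} [P'.IsPrime] (hP' : Homog P') {z' : Fin 2 → FunField P'} (hz' : IsTranscendenceBasis ℂ z')
    (hsm' : ∀ y : Fin (M + 1) → ℂ, y ≠ 0 → (∀ Q ∈ P', eval y Q = 0) → Module.finrank ℂ (Pool.Agent.H13.SM.conTan P' y) ≤ 3)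
    {φ : PN M → PN N} (hφ : HolomorphicMap (projVar P') φ) {R' : MvPolynomial (Fin (M + 1)) ℂ} {d' : ℕ} (hR' : R'.IsHomogeneous d') (hRP' : R' ∉ P') :
    ∃ (R : MvPolynomial (Fin (N + 1)) ℂ) (d : ℕ), R.IsHomogeneous d ∧ R ∉ P ∧ ∀ y ∈ projVar P', VanishesAt R' y → VanishesAt R (φ y) := by
  classical
  have hX' : Surface (coneE P') := Pool.Agent.H90.SG.surface_coneE hP' hz' hsm'
  obtain ⟨r, γ, hγ, hγZ, hcov⟩ := Pool.Agent.E2.exists_discs hX' (Z := {y | y ∈ coneE P' ∧ eval y.ofLp R' = 0}) (fun y hy => hy.1) (by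
    rintro x ⟨hx, hx2⟩ c hc
    refine ⟨hX'.smul x hx c hc, ?_⟩
    rw [eval_smulEN hR', hx2, mul_zero]) (proper_zer hP' hz' hsm' hR' hRP')
  have h1 : ∀ (i : Fin r) (z₀ : closedBall (0 : ℂ) (1 / 2)), ∃ (ρ : ℝ) (δ : ℂ → EN N), 0 < ρ ∧ AnalyticOnNhd ℂ δ (closedBall 0 1) ∧
      (∀ t ∈ closedBall (0 : ℂ) 1, δ t ∈ imCone P' φ R') ∧
      ∀ t ∈ closedBall (0 : ℂ) 1, ∀ (h : (γ i (z₀ + ρ * t)).ofLp ≠ 0) (h' : (δ t).ofLp ≠ 0),
        φ (Projectivization.mk ℂ (γ i (z₀ + ρ * t)).ofLp h) = Projectivization.mk ℂ (δ t).ofLp h' :=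
    fun i z₀ => small_disc hP' hφ hR' (hγ i) (hγZ i) z₀.2
  choose ρ δ hρ hδ hδZ hδφ using h1
  have h2 : ∀ i : Fin r, ∃ T : Finset (closedBall (0 : ℂ) (1 / 2)), closedBall (0 : ℂ) (1 / 2) ⊆ ⋃ x ∈ T, ball (x : ℂ) (ρ i x / 2) := by
    intro i
    exact (isCompact_closedBall (0 : ℂ) (1 / 2)).elim_nhds_subcover' (fun x hx => ball x (ρ i ⟨x, hx⟩ / 2))
      (fun x hx => ball_mem_nhds x (half_pos (hρ i ⟨x, hx⟩)))
  choose T hT using h2
  let I := Σ i : Fin r, {x // x ∈ T i}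
  let e : I ≃ Fin (Fintype.card I) := Fintype.equivFin I
  obtain ⟨R, d, hR, hRP, hRZ⟩ := Pool.Agent.E1.exists_form_of_discs hz (Pool.Agent.H62.FC.exists_X_notMem (r := 2) (by norm_num) ⟨z, hz⟩)
    (Z := imCone P' φ R') zero_notMem_imCone imCone_smul (fun j => δ (e.symm j).1 (e.symm j).2.1) (fun j => hδ _ _) (fun j => hδZ _ _) (by
      rintro x ⟨hx, y, hy, hyR, exy⟩
      have hy1 : (WithLp.toLp 2 y.rep : EN M) ∈ coneE P' := by
        rw [mem_coneE hP']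
        refine ⟨y.rep_nonzero, ?_⟩
        have : Projectivization.mk ℂ y.rep y.rep_nonzero = y := y.mk_rep
        rw [← this] at hy
        exact hy
      obtain ⟨i, w, hw, c, hc, hcw⟩ := hcov (WithLp.toLp 2 y.rep) ⟨hy1, hyR⟩
      obtain ⟨x₀, hx₀⟩ := Set.mem_iUnion.1 (hT i hw)
      obtain ⟨hx₀T, hx₀b⟩ := Set.mem_iUnion.1 hx₀
      have hρ0 : 0 < ρ i x₀ := hρ i x₀
      have hρC : ((ρ i x₀ : ℝ) : ℂ) ≠ 0 := Complex.ofReal_ne_zero.2 hρ0.ne'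
      set t : ℂ := (w - x₀) / (ρ i x₀ : ℝ) with ht
      have ht2 : t ∈ closedBall (0 : ℂ) (1 / 2) := by
        rw [mem_closedBall, dist_zero_right, ht, norm_div, Complex.norm_real, Real.norm_of_nonneg hρ0.le, div_le_iff₀ hρ0]
        rw [mem_ball, dist_eq_norm] at hx₀b
        linarith
      have ht1 : t ∈ closedBall (0 : ℂ) 1 := closedBall_subset_closedBall (by norm_num) ht2
      have hwt : (x₀ : ℂ) + (ρ i x₀ : ℝ) * t = w := by
        rw [ht, mul_div_cancel₀ _ hρC]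
        ring
      refine ⟨e ⟨i, ⟨x₀, hx₀T⟩⟩, t, ht2, ?_⟩
      rw [e.symm_apply_apply]
      show ∃ c : ℂ, c ≠ 0 ∧ δ i x₀ t = c • x
      obtain ⟨hd0, -⟩ := hδZ i x₀ t ht1
      have hγ0 : (γ i ((x₀ : ℂ) + (ρ i x₀ : ℝ) * t)).ofLp ≠ 0 := by
        rw [hwt, hcw, WithLp.ofLp_smul]
        exact smul_ne_zero hc y.rep_nonzero
      have h3 := hδφ i x₀ t ht1 hγ0 hd0
      have h4 : Projectivization.mk ℂ (γ i ((x₀ : ℂ) + (ρ i x₀ : ℝ) * t)).ofLp hγ0 = y := by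
        have h5 : Projectivization.mk ℂ (γ i ((x₀ : ℂ) + (ρ i x₀ : ℝ) * t)).ofLp hγ0 = Projectivization.mk ℂ y.rep y.rep_nonzero := by
          rw [Projectivization.mk_eq_mk_iff']
          refine ⟨c, ?_⟩
          rw [hwt, hcw, WithLp.ofLp_smul]
        rw [h5, y.mk_rep]
      rw [h4, ← exy, Projectivization.mk_eq_mk_iff'] at h3
      obtain ⟨a, ha⟩ := h3
      have ha0 : a ≠ 0 := by
        rintro rfl
        rw [zero_smul] at ha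
        exact hx ha.symm
      refine ⟨a⁻¹, inv_ne_zero ha0, ?_⟩
      apply (WithLp.ofLp_injective 2)
      rw [WithLp.ofLp_smul, ← ha, smul_smul, inv_mul_cancel₀ ha0, one_smul])
  refine ⟨R, d, hR, hRP, fun y hy hyR => ?_⟩
  have h5 := hRZ (WithLp.toLp 2 (φ y).rep) ⟨(φ y).rep_nonzero, y, hy, hyR, (φ y).mk_rep⟩
  exact h5

end Pool.Agent.MQ
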