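import Pool.Agent.MQ.Chg1

/-!
# MQ Gauge: a smooth metric of the normal bundle twisted by the invariant curve

At a point `p` of the box `i` a triple `(Φ, t, s)` is a change of coordinates to the box `k` with the factors `t` of the 1-forms and `s` of the equations
of the invariant curve.  The triples exist over the box `k` and their germs are unique.
`mm i p = log ∑ k, χ k (Φ p) * ‖t p‖ / ‖s p‖`.
-/

set_option autoImplicit false

open Topology Filter Metric MvPolynomial Asymptotics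

noncomputable section

namespace Pool.Agent.MQ

open Pool.Agent.H36.BP (EN)
open Pool.Agent.H17BP (Surface)
open Pool.Agent.H17EF (coneE)

variable {M : ℕ} {P : Ideal (MvPolynomial (Fin (M + 1)) ℂ)} {FF : Set (EN M × EN M)}

theorem GBox.σ_ne (B : GBox P FF) {p : ℂ × ℂ} (hp : p ∈ closedBall (0 : ℂ × ℂ) B.r) : B.σ p ≠ 0 := by
  have h := (B.imm p hp).ne_zero 0
  simpa using h

/-- the form `om p` is not zero where `v p` is not zero -/
theorem GBox.exists_om (B : GBox P FF) {p : ℂ × ℂ} (h : B.v p ≠ 0) : ∃ u : ℂ × ℂ, B.om p u ≠ 0 := by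
  by_contra hcon
  push Not at hcon
  have h1 := hcon (1, 0)
  have h2 := hcon (0, 1)
  simp only [GBox.om, mul_zero, zero_sub, mul_one, neg_eq_zero, sub_zero] at h1 h2
  exact h (Prod.ext h2 h1)

namespace Gau

theorem chg_ev {A B : GBox P FF} {p : ℂ × ℂ} {Φ : ℂ × ℂ → ℂ × ℂ} {t : ℂ × ℂ → ℂ} (h : Chg A B p Φ t) : ∀ᶠ w in 𝓝 p, Chg A B w Φ t := by
  have h1 : ∀ᶠ w in 𝓝 p, Φ w ∈ ball (0 : ℂ × ℂ) B.r := h.an.continuousAt.eventually (isOpen_ball.mem_nhds h.mem)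
  have h2 : ∀ᶠ w in 𝓝 p, t w ≠ 0 := h.t_an.continuousAt.eventually_ne h.t_ne
  filter_upwards [h.an.eventually_analyticAt, h1, eventually_eventually_nhds.2 h.eq, h.t_an.eventually_analyticAt, h2,
    eventually_eventually_nhds.2 h.om] with w a1 a2 a3 a4 a5 a6
  exact ⟨a1, a2, a3, a4, a5, a6⟩

/-- composition of two changes of coordinates -/
theorem chg_comp {A B C : GBox P FF} {p : ℂ × ℂ} {Φ Ψ : ℂ × ℂ → ℂ × ℂ} {t t' : ℂ × ℂ → ℂ} (h : Chg A B p Φ t) (h' : Chg B C (Φ p) Ψ t') :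
    Chg A C p (fun w => Ψ (Φ w)) (fun w => t' (Φ w) * t w) := by
  have hc := h.an.continuousAt
  refine ⟨h'.an.comp h.an, h'.mem, ?_, (h'.t_an.comp h.an).mul h.t_an, mul_ne_zero h'.t_ne h.t_ne, ?_⟩
  · filter_upwards [h.eq, hc.eventually h'.eq] with w a1 a2
    obtain ⟨c, hc0, hc1⟩ := a1
    obtain ⟨c', hc0', hc1'⟩ := a2
    exact ⟨c * c', mul_ne_zero hc0 hc0', by rw [hc1, hc1', smul_smul]⟩
  · filter_upwards [h.om, hc.eventually h'.om, h.an.eventually_analyticAt, hc.eventually h'.an.eventually_analyticAt] with w a1 a2 a3 a4 u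
    have e : fderiv ℂ (fun w => Ψ (Φ w)) w u = fderiv ℂ Ψ (Φ w) (fderiv ℂ Φ w u) := by
      have := fderiv_comp w a4.differentiableAt a3.differentiableAt
      change fderiv ℂ (Ψ ∘ Φ) w u = _
      rw [this]
      rfl
    rw [e, a2, a1]
    ring

theorem chg_refl (A : GBox P FF) {p : ℂ × ℂ} (hp : p ∈ ball (0 : ℂ × ℂ) A.r) : Chg A A p (fun w => w) (fun _ => 1) := by
  refine ⟨analyticAt_id, hp, Eventually.of_forall fun w => ⟨1, one_ne_zero, by rw [one_smul]⟩, analyticAt_const, one_ne_zero,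
    Eventually.of_forall fun w u => ?_⟩
  have : fderiv ℂ (fun w : ℂ × ℂ => w) w = ContinuousLinearMap.id ℂ (ℂ × ℂ) := fderiv_fun_id
  rw [this, one_mul]
  rfl

/-- the germ of the map is unique -/
theorem chg_unique {A B : GBox P FF} {p : ℂ × ℂ} {Φ Ψ : ℂ × ℂ → ℂ × ℂ} {t t' : ℂ × ℂ → ℂ} (h : Chg A B p Φ t) (h' : Chg A B p Ψ t') :
    Φ =ᶠ[𝓝 p] Ψ := by
  have h1 : ∀ᶠ w in 𝓝 p, Φ w ∈ ball (0 : ℂ × ℂ) B.r := h.an.continuousAt.eventually (isOpen_ball.mem_nhds h.mem)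
  have h2 : ∀ᶠ w in 𝓝 p, Ψ w ∈ ball (0 : ℂ × ℂ) B.r := h'.an.continuousAt.eventually (isOpen_ball.mem_nhds h'.mem)
  filter_upwards [h1, h2, h.eq, h'.eq] with w a1 a2 a3 a4
  obtain ⟨c, hc0, hc⟩ := a3
  obtain ⟨c', -, hc'⟩ := a4
  refine B.inj _ (ball_subset_closedBall a1) _ (ball_subset_closedBall a2) (c⁻¹ * c') ?_
  rw [mul_smul, ← hc', hc, smul_smul, inv_mul_cancel₀ hc0, one_smul]

/-- the factor of the 1-forms is unique -/
theorem chg_unique_t {A B : GBox P FF} {p : ℂ × ℂ} (hp : p ∈ ball (0 : ℂ × ℂ) A.r) {Φ Ψ : ℂ × ℂ → ℂ × ℂ} {t t' : ℂ × ℂ → ℂ}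
    (h : Chg A B p Φ t) (h' : Chg A B p Ψ t') : t p = t' p := by
  have key : ∀ᶠ w in 𝓝 p, A.v w ≠ 0 → t w = t' w := by
    filter_upwards [h.om, h'.om, eventually_eventually_nhds.2 (chg_unique h h')] with w a1 a2 a3 hv
    obtain ⟨u, hu⟩ := A.exists_om hv
    have e1 : Φ w = Ψ w := a3.self_of_nhds
    have e2 : fderiv ℂ Φ w = fderiv ℂ Ψ w := Filter.EventuallyEq.fderiv_eq a3
    have e3 := a1 u
    rw [e1, e2, a2 u] at e3
    exact (mul_right_cancel₀ hu e3).symm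
  by_cases hv : A.v p = 0
  · have hp0 : p = 0 := A.zero p (ball_subset_closedBall hp) hv
    subst hp0
    have h1 : ∀ᶠ w in 𝓝[≠] (0 : ℂ × ℂ), t w = t' w := by
      have h2 : ∀ᶠ w in 𝓝 (0 : ℂ × ℂ), w ∈ closedBall (0 : ℂ × ℂ) A.r := closedBall_mem_nhds _ A.pos
      filter_upwards [key.filter_mono nhdsWithin_le_nhds, h2.filter_mono nhdsWithin_le_nhds, self_mem_nhdsWithin] with w a1 a2 a3
      exact a1 fun hw => a3 (A.zero w a2 hw)
    have c1 : Tendsto t (𝓝[≠] (0 : ℂ × ℂ)) (𝓝 (t 0)) := h.t_an.continuousAt.tendsto.mono_left nhdsWithin_le_nhds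
    have c2 : Tendsto t' (𝓝[≠] (0 : ℂ × ℂ)) (𝓝 (t' 0)) := h'.t_an.continuousAt.tendsto.mono_left nhdsWithin_le_nhds
    exact tendsto_nhds_unique (c1.congr' h1) c2
  · exact key.self_of_nhds hv

variable {A : Atlas P FF} {D : CData A}

/-- a change of coordinates with the two factors -/
structure Trp (A : Atlas P FF) (D : CData A) (i k : A.ι) (p : ℂ × ℂ) (Φ : ℂ × ℂ → ℂ × ℂ) (t s : ℂ × ℂ → ℂ) : Prop where
  chg : Chg (A.B i) (A.B k) p Φ t
  s_an : AnalyticAt ℂ s p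
  s_ne : s p ≠ 0
  g : ∀ᶠ w in 𝓝 p, D.g k (Φ w) = s w * D.g i w

theorem trp_ev {i k : A.ι} {p : ℂ × ℂ} {Φ : ℂ × ℂ → ℂ × ℂ} {t s : ℂ × ℂ → ℂ} (h : Trp A D i k p Φ t s) :
    ∀ᶠ w in 𝓝 p, Trp A D i k w Φ t s := by
  filter_upwards [chg_ev h.chg, h.s_an.eventually_analyticAt, h.s_an.continuousAt.eventually_ne h.s_ne, eventually_eventually_nhds.2 h.g] with w a1 a2 a3 a4
  exact ⟨a1, a2, a3, a4⟩

theorem trp_comp {i j k : A.ι} {p : ℂ × ℂ} {Φ Ψ : ℂ × ℂ → ℂ × ℂ} {t s t' s' : ℂ × ℂ → ℂ} (h : Trp A D i j p Φ t s)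
    (h' : Trp A D j k (Φ p) Ψ t' s') : Trp A D i k p (fun w => Ψ (Φ w)) (fun w => t' (Φ w) * t w) (fun w => s' (Φ w) * s w) := by
  refine ⟨chg_comp h.chg h'.chg, (h'.s_an.comp h.chg.an).mul h.s_an, mul_ne_zero h'.s_ne h.s_ne, ?_⟩
  filter_upwards [h.g, h.chg.an.continuousAt.eventually h'.g] with w a1 a2
  rw [a2, a1, mul_assoc]

theorem freq_of_prod {S : Finset ℂ} {g : ℂ × ℂ → ℂ} (hS : ∀ p, g p = ∏ a ∈ S, (p.1 - a)) (p : ℂ × ℂ) : ∃ᶠ w in 𝓝 p, g w ≠ 0 := by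
  classical
  have hfin : ((fun a : ℂ => a - p.1) '' (S : Set ℂ)).Finite := S.finite_toSet.image _
  have h1 : ∀ᶠ e in 𝓝[≠] (0 : ℂ), e ∉ ((fun a : ℂ => a - p.1) '' (S : Set ℂ)) := by
    have h2 : (((fun a : ℂ => a - p.1) '' (S : Set ℂ)) \ {0})ᶜ ∈ 𝓝 (0 : ℂ) :=
      (hfin.subset Set.sdiff_subset).isClosed.isOpen_compl.mem_nhds fun h => h.2 rfl
    filter_upwards [mem_nhdsWithin_of_mem_nhds h2, self_mem_nhdsWithin] with e a1 a2 a3
    exact a1 ⟨a3, a2⟩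
  have h2 : Tendsto (fun e : ℂ => ((p.1 + e, p.2) : ℂ × ℂ)) (𝓝[≠] (0 : ℂ)) (𝓝 p) := by
    have : ContinuousAt (fun e : ℂ => ((p.1 + e, p.2) : ℂ × ℂ)) 0 := by fun_prop
    have h3 := this.tendsto.mono_left (nhdsWithin_le_nhds (s := {(0 : ℂ)}ᶜ))
    simpa using h3
  refine h2.frequently (Eventually.frequently ?_)
  filter_upwards [h1] with e he
  rw [hS]
  refine Finset.prod_ne_zero_iff.2 fun a ha h0 => he ⟨a, ha, ?_⟩
  change p.1 + e - a = 0 at h0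
  change a - p.1 = e
  linear_combination -h0

/-- the equation of the invariant curve is not zero near any point of the box -/
theorem g_freq (D : CData A) (i : A.ι) {p : ℂ × ℂ} (hp : p ∈ ball (0 : ℂ × ℂ) (A.B i).r) : ∃ᶠ w in 𝓝 p, D.g i w ≠ 0 := by
  by_cases hr : (A.B i).Reg
  · obtain ⟨S, hS⟩ := D.reg i hr
    exact freq_of_prod hS p
  · intro hcon
    have hz : ∀ᶠ w in 𝓝 p, D.g i w = 0 := by
      filter_upwards [hcon] with w hw
      exact not_not.1 hw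
    have hpos := (A.B i).pos
    have hsub : ball (0 : ℂ × ℂ) (A.B i).r ⊆ closedBall (0 : ℂ × ℂ) (A.B i).r := ball_subset_closedBall
    have hall : Set.EqOn (D.g i) 0 (ball (0 : ℂ × ℂ) (A.B i).r) :=
      ((D.an i).mono hsub).eqOn_zero_of_preconnected_of_eventuallyEq_zero (convex_ball _ _).isPreconnected hp hz
    set u : ℂ × ℂ := ((((A.B i).r / 2 : ℝ) : ℂ), 0) with hu
    have hnu : ‖u‖ = (A.B i).r / 2 := by
      rw [hu, Prod.norm_def]
      simp only [Complex.norm_real, norm_zero, Real.norm_eq_abs]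
      rw [abs_of_pos (by linarith), max_eq_left (by linarith)]
    have hub : u ∈ ball (0 : ℂ × ℂ) (A.B i).r := by
      rw [mem_ball_zero_iff, hnu]
      linarith
    obtain ⟨k, q, hq, c, hc, he⟩ := A.cover ((A.B i).σ u) ((A.B i).mem u (hsub hub))
    have hk := (A.B k).pos
    have hq' : q ∈ ball (0 : ℂ × ℂ) (A.B k).r := ball_subset_ball (by linarith) hq
    have hki : i ≠ k := by
      rintro rfl
      have h1 : u = q := (A.B i).inj _ (hsub hub) _ (hsub hq') c he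
      rw [← h1, mem_ball_zero_iff, hnu] at hq
      linarith
    have hkr : (A.B k).Reg := by
      by_contra hkr
      exact A.disj i k hki hr hkr ((A.B i).σ u) ⟨u, hub, 1, one_ne_zero, by rw [one_smul]⟩ ⟨q, hq', c, hc, he⟩
    have hv : (A.B k).v q ≠ 0 := by
      rw [hkr q]
      exact fun h0 => one_ne_zero (congrArg Prod.snd h0)
    have he' : (A.B k).σ q = c⁻¹ • (A.B i).σ u := by rw [he, smul_smul, inv_mul_cancel₀ hc, one_smul]
    obtain ⟨Ψ, t, h1, h2⟩ := exists_chg (A.B k) (A.B i) hq' hub (inv_ne_zero hc) he' hv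
    obtain ⟨s, hs1, hs2, hs3⟩ := D.comp k i q hq' Ψ t h1
    obtain ⟨S, hS⟩ := D.reg k hkr
    refine freq_of_prod hS q ?_
    have hΨ : ∀ᶠ w in 𝓝 q, Ψ w ∈ ball (0 : ℂ × ℂ) (A.B i).r := h1.an.continuousAt.eventually (isOpen_ball.mem_nhds h1.mem)
    filter_upwards [hs3, hΨ, hs1.continuousAt.eventually_ne hs2] with w a1 a2 a3 a4
    have a5 : D.g i (Ψ w) = 0 := hall a2
    rw [a5] at a1
    exact a4 ((mul_eq_zero.1 a1.symm).resolve_left a3)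

theorem trp_unique {i k : A.ι} {p : ℂ × ℂ} (hp : p ∈ ball (0 : ℂ × ℂ) (A.B i).r) {Φ Ψ : ℂ × ℂ → ℂ × ℂ} {t s t' s' : ℂ × ℂ → ℂ}
    (h : Trp A D i k p Φ t s) (h' : Trp A D i k p Ψ t' s') : Φ p = Ψ p ∧ t p = t' p ∧ s p = s' p := by
  refine ⟨(chg_unique h.chg h'.chg).self_of_nhds, chg_unique_t hp h.chg h'.chg, ?_⟩
  by_contra hne
  have h1 : ∀ᶠ w in 𝓝 p, s w - s' w ≠ 0 := (h.s_an.continuousAt.sub h'.s_an.continuousAt).eventually_ne (sub_ne_zero.2 hne)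
  obtain ⟨w, hg, h2, h3, h4, h5⟩ := ((g_freq D i hp).and_eventually (h1.and (h.g.and (h'.g.and (chg_unique h.chg h'.chg))))).exists
  apply h2
  have h6 : s w * D.g i w = s' w * D.g i w := by rw [← h3, ← h4, h5]
  exact sub_eq_zero.2 (mul_right_cancel₀ hg h6)

/-- over the box `k` there are triples -/
theorem exists_trp (D : CData A) {i k : A.ι} {p : ℂ × ℂ} (hp : p ∈ ball (0 : ℂ × ℂ) (A.B i).r) {q : ℂ × ℂ} (hq : q ∈ ball (0 : ℂ × ℂ) (A.B k).r)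
    {c : ℂ} (hc : c ≠ 0) (h : (A.B i).σ p = c • (A.B k).σ q) : ∃ Φ t s, Trp A D i k p Φ t s ∧ Φ p = q := by
  by_cases hv : (A.B i).v p = 0
  · have hp0 : p = 0 := (A.B i).zero p (ball_subset_closedBall hp) hv
    have hr : ¬ (A.B i).Reg := fun hr => by
      have := hr p
      rw [hv] at this
      simpa using congrArg Prod.snd this
    obtain ⟨s₀, hs0, -, hs⟩ := A.sep i hr
    have hki : k = i := by
      by_contra hne
      refine hs k hne ((A.B i).σ p) ⟨p, ?_, 1, one_ne_zero, by rw [one_smul]⟩ ⟨q, hq, c, hc, h⟩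
      rw [hp0]
      exact mem_ball_self hs0
    subst hki
    refine ⟨fun w => w, fun _ => 1, fun _ => 1, ⟨chg_refl _ hp, analyticAt_const, one_ne_zero, Eventually.of_forall fun w => by rw [one_mul]⟩, ?_⟩
    exact (A.B k).inj _ (ball_subset_closedBall hp) _ (ball_subset_closedBall hq) c h
  · obtain ⟨Φ, t, h1, h2⟩ := exists_chg (A.B i) (A.B k) hp hq hc h hv
    obtain ⟨s, hs1, hs2, hs3⟩ := D.comp i k p hp Φ t h1
    exact ⟨Φ, t, s, ⟨h1, hs1, hs2, hs3⟩, h2⟩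

/-- the cut-off function of the box `k` -/
def bmp (B : GBox P FF) : ContDiffBump (0 : ℂ × ℂ) where
  rIn := B.r / 4
  rOut := B.r / 2
  rIn_pos := by have := B.pos; linarith
  rIn_lt_rOut := by have := B.pos; linarith

open Classical in
/-- the terms of the sum -/
def tt (A : Atlas P FF) (D : CData A) (i k : A.ι) (p : ℂ × ℂ) : ℝ :=
  if h : ∃ x : (ℂ × ℂ → ℂ × ℂ) × (ℂ × ℂ → ℂ) × (ℂ × ℂ → ℂ), Trp A D i k p x.1 x.2.1 x.2.2 then
    bmp (A.B k) (h.choose.1 p) * (‖h.choose.2.1 p‖ / ‖h.choose.2.2 p‖) else 0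

theorem tt_eq {i k : A.ι} {p : ℂ × ℂ} (hp : p ∈ ball (0 : ℂ × ℂ) (A.B i).r) {Φ : ℂ × ℂ → ℂ × ℂ} {t s : ℂ × ℂ → ℂ} (h : Trp A D i k p Φ t s) :
    tt A D i k p = bmp (A.B k) (Φ p) * (‖t p‖ / ‖s p‖) := by
  have hex : ∃ x : (ℂ × ℂ → ℂ × ℂ) × (ℂ × ℂ → ℂ) × (ℂ × ℂ → ℂ), Trp A D i k p x.1 x.2.1 x.2.2 := ⟨(Φ, t, s), h⟩
  unfold tt
  rw [dif_pos hex]
  obtain ⟨h1, h2, h3⟩ := trp_unique hp hex.choose_spec h
  rw [h1, h2, h3]

theorem tt_nonneg (i k : A.ι) (p : ℂ × ℂ) : 0 ≤ tt A D i k p := by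
  unfold tt
  split_ifs with h
  · exact mul_nonneg (ContDiffBump.nonneg _) (div_nonneg (norm_nonneg _) (norm_nonneg _))
  · exact le_rfl

theorem sum_pos (D : CData A) {i : A.ι} {p : ℂ × ℂ} (hp : p ∈ ball (0 : ℂ × ℂ) (A.B i).r) : 0 < ∑ k, tt A D i k p := by
  obtain ⟨k, q, hq, c, hc, h⟩ := A.cover ((A.B i).σ p) ((A.B i).mem p (ball_subset_closedBall hp))
  have hk := (A.B k).pos
  have hq' : q ∈ ball (0 : ℂ × ℂ) (A.B k).r := ball_subset_ball (by linarith) hq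
  obtain ⟨Φ, t, s, h1, h2⟩ := exists_trp D hp hq' hc h
  refine lt_of_lt_of_le ?_ (Finset.single_le_sum (f := fun k => tt A D i k p) (fun k _ => tt_nonneg i k p) (Finset.mem_univ k))
  change 0 < tt A D i k p
  rw [tt_eq hp h1, h2, ContDiffBump.one_of_mem_closedBall (bmp (A.B k)) (ball_subset_closedBall hq), one_mul]
  exact div_pos (norm_pos_iff.2 h1.chg.t_ne) (norm_pos_iff.2 h1.s_ne)

/-- the points near a point outside of the box `k` are outside of the half of this box -/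
theorem off_half (B B' : GBox P FF) {p : ℂ × ℂ} (hp : p ∈ ball (0 : ℂ × ℂ) B.r) (h : B.σ p ∉ B'.U B'.r) :
    ∀ᶠ w in 𝓝 p, ∀ q ∈ ball (0 : ℂ × ℂ) (B'.r / 2), ∀ c : ℂ, B.σ w ≠ c • B'.σ q := by
  have hr := B'.pos
  have hsub : closedBall (0 : ℂ × ℂ) (B'.r / 2) ⊆ closedBall (0 : ℂ × ℂ) B'.r := closedBall_subset_closedBall (by linarith)
  have hcont : ContinuousOn B'.σ (closedBall (0 : ℂ × ℂ) (B'.r / 2)) := B'.σ_an.continuousOn.mono hsub
  obtain ⟨q₀, hq₀, hmin⟩ := (isCompact_closedBall (0 : ℂ × ℂ) (B'.r / 2)).exists_isMinOn ⟨0, mem_closedBall_self (by linarith)⟩ hcont.norm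
  have hm : 0 < ‖B'.σ q₀‖ := norm_pos_iff.2 (B'.σ_ne (hsub hq₀))
  set R : ℝ := (‖B.σ p‖ + 1) / ‖B'.σ q₀‖ with hR
  have hcpt : IsCompact ((fun x : ℂ × (ℂ × ℂ) => x.1 • B'.σ x.2) '' (closedBall (0 : ℂ) R ×ˢ closedBall (0 : ℂ × ℂ) (B'.r / 2))) := by
    refine ((isCompact_closedBall _ _).prod (isCompact_closedBall _ _)).image_of_continuousOn ?_
    refine continuousOn_fst.smul (hcont.comp continuousOn_snd fun x hx => hx.2)
  have hnot : B.σ p ∉ (fun x : ℂ × (ℂ × ℂ) => x.1 • B'.σ x.2) '' (closedBall (0 : ℂ) R ×ˢ closedBall (0 : ℂ × ℂ) (B'.r / 2)) := by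
    rintro ⟨⟨c, q⟩, ⟨-, hq⟩, he⟩
    refine h ⟨q, closedBall_subset_ball (by linarith) hq, c, ?_, he.symm⟩
    rintro rfl
    apply B.σ_ne (ball_subset_closedBall hp)
    rw [← he]
    exact zero_smul _ _
  have hc : ContinuousAt B.σ p := (B.σ_an p (ball_subset_closedBall hp)).continuousAt
  have h1 := hc.eventually (hcpt.isClosed.isOpen_compl.mem_nhds hnot)
  have h2 : ∀ᶠ w in 𝓝 p, ‖B.σ w‖ < ‖B.σ p‖ + 1 := hc.norm.eventually (Iio_mem_nhds (by linarith))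
  filter_upwards [h1, h2] with w a1 a2 q hq c he
  apply a1
  refine ⟨(c, q), ⟨?_, ball_subset_closedBall hq⟩, he.symm⟩
  rw [mem_closedBall_zero_iff, hR, le_div_iff₀ hm]
  have h3 : ‖B'.σ q₀‖ ≤ ‖B'.σ q‖ := hmin (ball_subset_closedBall hq)
  have h4 : ‖c‖ * ‖B'.σ q‖ = ‖B.σ w‖ := by rw [he, norm_smul]
  have h5 : ‖c‖ * ‖B'.σ q₀‖ ≤ ‖c‖ * ‖B'.σ q‖ := mul_le_mul_of_nonneg_left h3 (norm_nonneg _)
  linarith

theorem tt_contDiffAt (D : CData A) (i k : A.ι) {p : ℂ × ℂ} (hp : p ∈ ball (0 : ℂ × ℂ) (A.B i).r) : ContDiffAt ℝ 2 (tt A D i k) p := by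
  have hball : ∀ᶠ w in 𝓝 p, w ∈ ball (0 : ℂ × ℂ) (A.B i).r := isOpen_ball.mem_nhds hp
  by_cases h : (A.B i).σ p ∈ (A.B k).U (A.B k).r
  · obtain ⟨q, hq, c, hc, he⟩ := h
    obtain ⟨Φ, t, s, h1, h2⟩ := exists_trp D hp hq hc he
    have h3 : tt A D i k =ᶠ[𝓝 p] fun w => bmp (A.B k) (Φ w) * (‖t w‖ / ‖s w‖) := by
      filter_upwards [trp_ev h1, hball] with w a1 a2
      exact tt_eq a2 a1
    refine ContDiffAt.congr_of_eventuallyEq ?_ h3
    have hΦ : ContDiffAt ℝ 2 Φ p := h1.chg.an.restrictScalars.contDiffAt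
    have ht : ContDiffAt ℝ 2 t p := h1.chg.t_an.restrictScalars.contDiffAt
    have hs : ContDiffAt ℝ 2 s p := h1.s_an.restrictScalars.contDiffAt
    exact ((bmp (A.B k)).contDiff.contDiffAt.comp p hΦ).mul ((ht.norm ℂ h1.chg.t_ne).div (hs.norm ℂ h1.s_ne) (norm_ne_zero_iff.2 h1.s_ne))
  · have h3 : tt A D i k =ᶠ[𝓝 p] fun _ => 0 := by
      filter_upwards [off_half (A.B i) (A.B k) hp h, hball] with w a1 a2
      by_cases hex : ∃ x : (ℂ × ℂ → ℂ × ℂ) × (ℂ × ℂ → ℂ) × (ℂ × ℂ → ℂ), Trp A D i k w x.1 x.2.1 x.2.2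
      · obtain ⟨x, hx⟩ := hex
        obtain ⟨c, hc, he⟩ := hx.chg.eq.self_of_nhds
        have h4 : bmp (A.B k) (x.1 w) = 0 := by
          refine ContDiffBump.zero_of_le_dist (bmp (A.B k)) ?_
          by_contra hlt
          exact a1 (x.1 w) (mem_ball.2 (not_le.1 hlt)) c he
        rw [tt_eq a2 hx, h4, zero_mul]
      · exact dif_neg hex
    exact contDiffAt_const.congr_of_eventuallyEq h3

/-- the terms under a change of coordinates -/
theorem tt_comp (D : CData A) {i j : A.ι} (k : A.ι) {p : ℂ × ℂ} (hp : p ∈ ball (0 : ℂ × ℂ) (A.B i).r) {Φ : ℂ × ℂ → ℂ × ℂ} {t s : ℂ × ℂ → ℂ}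
    (h : Trp A D i j p Φ t s) : tt A D j k (Φ p) * (‖t p‖ / ‖s p‖) = tt A D i k p := by
  have hΦ := h.chg.mem
  by_cases hex : ∃ x : (ℂ × ℂ → ℂ × ℂ) × (ℂ × ℂ → ℂ) × (ℂ × ℂ → ℂ), Trp A D j k (Φ p) x.1 x.2.1 x.2.2
  · obtain ⟨x, hx⟩ := hex
    rw [tt_eq hΦ hx, tt_eq hp (trp_comp h hx), norm_mul, norm_mul, mul_assoc, div_mul_div_comm]
  · have h1 : ¬ ∃ x : (ℂ × ℂ → ℂ × ℂ) × (ℂ × ℂ → ℂ) × (ℂ × ℂ → ℂ), Trp A D i k p x.1 x.2.1 x.2.2 := by
      rintro ⟨x, hx⟩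
      obtain ⟨c, hc, he⟩ := h.chg.eq.self_of_nhds
      obtain ⟨c', hc', he'⟩ := hx.chg.eq.self_of_nhds
      have he2 : (A.B j).σ (Φ p) = (c⁻¹ * c') • (A.B k).σ (x.1 p) := by
        rw [mul_smul, ← he', he, smul_smul, inv_mul_cancel₀ hc, one_smul]
      obtain ⟨Ψ, t', s', h2, -⟩ := exists_trp D hΦ hx.chg.mem (mul_ne_zero (inv_ne_zero hc) hc') he2
      exact hex ⟨(Ψ, t', s'), h2⟩
    unfold tt
    rw [dif_neg hex, dif_neg h1, zero_mul]

end Gau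

/-- a smooth metric of the normal bundle twisted by the invariant curve, in the boxes -/
structure Gauge (A : Atlas P FF) (D : CData A) (mm : A.ι → ℂ × ℂ → ℝ) : Prop where
  smooth : ∀ i, ContDiffOn ℝ 2 (mm i) (ball 0 (A.B i).r)
  comp : ∀ i j, ∀ p ∈ ball (0 : ℂ × ℂ) (A.B i).r, ∀ Φ t s, Chg (A.B i) (A.B j) p Φ t → AnalyticAt ℂ s p → s p ≠ 0 →
    (∀ᶠ w in 𝓝 p, D.g j (Φ w) = s w * D.g i w) → ∀ᶠ w in 𝓝 p, mm j (Φ w) = mm i w + Real.log ‖s w‖ - Real.log ‖t w‖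

/-- MODULE Gauge.  `mm i p = log ∑_j χ_j (σ_i p) ‖t_ij p‖ / ‖s_ij p‖`, `χ_j` a smooth function of the coordinates in the box `j`, `1` on the polydisc
of radius `r_j / 4`, `0` outside the one of radius `r_j / 2`.  At the center of a singular box only `j = i` occurs (`sep`). -/
theorem exists_gauge (_hX : Surface (coneE P)) (A : Atlas P FF) (D : CData A) : ∃ mm, Gauge A D mm := by
  refine ⟨fun i p => Real.log (∑ k, Gau.tt A D i k p), fun i p hp => ?_, fun i j p hp Φ t s h1 h2 h3 h4 => ?_⟩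
  · refine ContDiffAt.contDiffWithinAt ?_
    exact (ContDiffAt.sum fun k _ => Gau.tt_contDiffAt D i k hp).log (Gau.sum_pos D hp).ne'
  · have hT : Gau.Trp A D i j p Φ t s := ⟨h1, h2, h3, h4⟩
    have hball : ∀ᶠ w in 𝓝 p, w ∈ ball (0 : ℂ × ℂ) (A.B i).r := isOpen_ball.mem_nhds hp
    filter_upwards [Gau.trp_ev hT, hball] with w a1 a2
    have ht : 0 < ‖t w‖ := norm_pos_iff.2 a1.chg.t_ne
    have hs : 0 < ‖s w‖ := norm_pos_iff.2 a1.s_ne
    have e : ∑ k, Gau.tt A D i k w = (∑ k, Gau.tt A D j k (Φ w)) * (‖t w‖ / ‖s w‖) := by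
      rw [Finset.sum_mul]
      exact Finset.sum_congr rfl fun k _ => (Gau.tt_comp D k a2 a1).symm
    have hpos := Gau.sum_pos D (i := j) a1.chg.mem
    change Real.log (∑ k, Gau.tt A D j k (Φ w)) = Real.log (∑ k, Gau.tt A D i k w) + Real.log ‖s w‖ - Real.log ‖t w‖
    rw [e, Real.log_mul hpos.ne' (div_pos ht hs).ne', Real.log_div ht.ne' hs.ne']
    ring

end Pool.Agent.MQ
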