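import Pool.Agent.MQ.EEDefs
import Pool.Agent.MQ.Gauge
import Pool.Agent.MQ.Coord
import Pool.Agent.MQ.Chg1
import Pool.Agent.MQ.Chg2

/-!
# MQ EE1: the length of the section along the curve is independent of the box

`σ_A = c (σ_B ∘ Φ)`, so `c ^ j W_A = (det DΦ) ^ m W_B`; `t ζ'_B = ζ'_A det DΦ`, `g_B = s g_A`, `mm_B = mm_A + log ‖s‖ - log ‖t‖`.
-/

set_option autoImplicit false

open Topology Filter Metric MvPolynomial Asymptotics

noncomputable section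

namespace Pool.Agent.MQ

open Pool.Agent.H36.BP (EN fs)
open Pool.Agent.H17BP (IsChart IsForm Surface Tan)
open Pool.Agent.H17EF (projVar coneE)

variable {M : ℕ} {P : Ideal (MvPolynomial (Fin (M + 1)) ℂ)} {FF : Set (EN M × EN M)}

/-- the determinant of an endomorphism of `ℂ × ℂ` -/
theorem det_pair (L : ℂ × ℂ →L[ℂ] ℂ × ℂ) :
    L.det = (L (1, 0)).1 * (L (0, 1)).2 - (L (1, 0)).2 * (L (0, 1)).1 := by
  show LinearMap.det (L : ℂ × ℂ →ₗ[ℂ] ℂ × ℂ) = _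
  rw [← LinearMap.det_toMatrix (Module.Basis.finTwoProd ℂ), Matrix.det_fin_two]
  simp only [LinearMap.toMatrix_apply, Module.Basis.finTwoProd_zero, Module.Basis.finTwoProd_one,
    ContinuousLinearMap.coe_coe, Module.Basis.coe_finTwoProd_repr, Matrix.cons_val_zero, Matrix.cons_val_one]
  ring

theorem vec_pair (L : ℂ × ℂ →L[ℂ] EN M) (u : ℂ × ℂ) : L u = u.1 • L (1, 0) + u.2 • L (0, 1) := by
  rw [← map_smul, ← map_smul, ← map_add]
  congr 1
  ext <;> simp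

/-- the factor of proportionality of two charts -/
theorem exists_factor {f g : ℂ × ℂ → EN M} {p : ℂ × ℂ} (hf : DifferentiableAt ℂ f p) (hg : DifferentiableAt ℂ g p) (h0 : g p ≠ 0)
    (h : ∀ᶠ w in 𝓝 p, ∃ c : ℂ, c ≠ 0 ∧ f w = c • g w) :
    ∃ c : ℂ × ℂ → ℂ, DifferentiableAt ℂ c p ∧ c p ≠ 0 ∧ ∀ᶠ w in 𝓝 p, f w = c w • g w := by
  obtain ⟨k, hk⟩ : ∃ k, (g p).ofLp k ≠ 0 := by
    by_contra hcon
    push Not at hcon
    apply h0
    ext k
    exact hcon k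
  let π : EN M →L[ℂ] ℂ := EuclideanSpace.proj k
  have hπ : ∀ x : EN M, π x = x.ofLp k := fun x => rfl
  have hgk : DifferentiableAt ℂ (fun w => π (g w)) p := π.differentiableAt.comp p hg
  have hfk : DifferentiableAt ℂ (fun w => π (f w)) p := π.differentiableAt.comp p hf
  have hev : ∀ᶠ w in 𝓝 p, π (g w) ≠ 0 := hgk.continuousAt.eventually_ne hk
  have hall : ∀ᶠ w in 𝓝 p, f w = (π (f w) / π (g w)) • g w ∧ π (f w) / π (g w) ≠ 0 := by
    filter_upwards [h, hev] with w hw hw'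
    obtain ⟨c, hc, e⟩ := hw
    have h1 : π (f w) = c * π (g w) := by
      rw [e, map_smul, smul_eq_mul]
    have h2 : π (f w) / π (g w) = c := by
      rw [h1, mul_div_assoc, div_self hw', mul_one]
    rw [h2]
    exact ⟨e, hc⟩
  have hk' : π (g p) ≠ 0 := hk
  have hdiv : DifferentiableAt ℂ (fun w => π (f w) / π (g w)) p := by
    have h1 : DifferentiableAt ℂ (fun x : ℂ => x⁻¹) (π (g p)) := differentiableAt_inv hk'
    have h2 := hfk.mul (h1.comp p hgk)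
    refine h2.congr_of_eventuallyEq (Filter.Eventually.of_forall fun w => ?_)
    show π (f w) / π (g w) = π (f w) * (π (g w))⁻¹
    rw [div_eq_mul_inv]
  refine ⟨fun w => π (f w) / π (g w), hdiv, hall.self_of_nhds.2, ?_⟩
  filter_upwards [hall] with w hw
  exact hw.1

/-- tangent vectors of a chart -/
theorem tan_box (B : GBox P FF) {q : ℂ × ℂ} (hq : q ∈ ball (0 : ℂ × ℂ) B.r) (u : ℂ × ℂ) :
    fderiv ℂ B.σ q u ∈ Tan (coneE P) (B.σ q) := by
  have h1 : AnalyticAt ℂ B.σ q := B.σ_an q (ball_subset_closedBall hq)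
  have h2 : HasDerivAt (fun z : ℂ => q + z • u) u 0 := by
    have h := ((hasDerivAt_id (0 : ℂ)).smul_const u).const_add q
    rwa [one_smul] at h
  have h3 : (fun z : ℂ => q + z • u) 0 = q := by
    show q + (0 : ℂ) • u = q
    rw [zero_smul, add_zero]
  have h4 : AnalyticAt ℂ (fun z : ℂ => q + z • u) 0 :=
    analyticAt_const.add (analyticAt_id.smul analyticAt_const)
  refine ⟨fun z => B.σ (q + z • u), ?_, ?_, ?_, ?_⟩
  · have h5 : AnalyticAt ℂ B.σ ((fun z : ℂ => q + z • u) 0) := by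
      rw [h3]
      exact h1
    exact h5.comp (g := B.σ) (f := fun z : ℂ => q + z • u) h4
  · have h6 : ∀ᶠ z in 𝓝 (0 : ℂ), q + z • u ∈ ball (0 : ℂ × ℂ) B.r := by
      refine h4.continuousAt.eventually_mem ?_
      have h3' : q + (0 : ℂ) • u = q := h3
      rw [h3']
      exact isOpen_ball.mem_nhds hq
    filter_upwards [h6] with z hz
    exact B.mem _ (ball_subset_closedBall hz)
  · show B.σ (q + (0 : ℂ) • u) = B.σ q
    rw [zero_smul, add_zero]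
  · have h7 : HasFDerivAt B.σ (fderiv ℂ B.σ q) ((fun z : ℂ => q + z • u) 0) := by
      rw [h3]
      exact h1.differentiableAt.hasFDerivAt
    exact (h7.comp_hasDerivAt 0 h2).deriv

/-- the change of the coefficient of the section `W` -/
theorem W_chg {A B : GBox P FF} {m j : ℕ} {W : EN M → EN M → EN M → ℂ} (hW : IsForm (coneE P) m j W) {p : ℂ × ℂ}
    (hp : p ∈ ball (0 : ℂ × ℂ) A.r) {Φ : ℂ × ℂ → ℂ × ℂ} {t : ℂ × ℂ → ℂ} (h : Chg A B p Φ t) :
    ∃ c : ℂ, c ≠ 0 ∧ A.σ p = c • B.σ (Φ p) ∧ c ^ j * GBox.W A W p = (fderiv ℂ Φ p).det ^ m * GBox.W B W (Φ p) := by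
  have hσA : AnalyticAt ℂ A.σ p := A.σ_an p (ball_subset_closedBall hp)
  have hσB : AnalyticAt ℂ B.σ (Φ p) := B.σ_an _ (ball_subset_closedBall h.mem)
  have hx : B.σ (Φ p) ≠ 0 := (B.imm (Φ p) (ball_subset_closedBall h.mem)).ne_zero 0
  have hcomp : DifferentiableAt ℂ (fun w => B.σ (Φ w)) p := (hσB.comp h.an).differentiableAt
  obtain ⟨c, hc, hc0, hce⟩ := exists_factor hσA.differentiableAt hcomp hx h.eq
  have hd : ∀ u, fderiv ℂ A.σ p u = c p • fderiv ℂ B.σ (Φ p) (fderiv ℂ Φ p u) + (fderiv ℂ c p u) • B.σ (Φ p) := by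
    intro u
    have e1 : fderiv ℂ A.σ p = fderiv ℂ (fun w => c w • B.σ (Φ w)) p := Filter.EventuallyEq.fderiv_eq hce
    have e2 : HasFDerivAt (fun w => B.σ (Φ w)) ((fderiv ℂ B.σ (Φ p)).comp (fderiv ℂ Φ p)) p :=
      hσB.differentiableAt.hasFDerivAt.comp p h.an.differentiableAt.hasFDerivAt
    have e3 : fderiv ℂ (fun w => c w • B.σ (Φ w)) p = c p • (fderiv ℂ B.σ (Φ p)).comp (fderiv ℂ Φ p) +
        (fderiv ℂ c p).smulRight (B.σ (Φ p)) := (hc.hasFDerivAt.smul e2).fderiv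
    rw [e1, e3]
    rfl
  have hAx : A.σ p ∈ coneE P := A.mem p (ball_subset_closedBall hp)
  have hBx : B.σ (Φ p) ∈ coneE P := B.mem _ (ball_subset_closedBall h.mem)
  refine ⟨c p, hc0, hce.self_of_nhds, ?_⟩
  -- remove the radial parts
  have hAeq : A.σ p = c p • B.σ (Φ p) := hce.self_of_nhds
  have e1 : ∀ u, fderiv ℂ A.σ p u + (-(fderiv ℂ c p u / c p)) • A.σ p = c p • fderiv ℂ B.σ (Φ p) (fderiv ℂ Φ p u) := by
    intro u
    rw [hd u, hAeq, smul_smul, add_assoc, ← add_smul]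
    have : fderiv ℂ c p u + -(fderiv ℂ c p u / c p) * c p = 0 := by
      field_simp
      ring
    rw [this, zero_smul, add_zero]
  have e2 : GBox.W A W p = W (c p • B.σ (Φ p)) (c p • fderiv ℂ B.σ (Φ p) (fderiv ℂ Φ p (1, 0)))
      (c p • fderiv ℂ B.σ (Φ p) (fderiv ℂ Φ p (0, 1))) := by
    unfold GBox.W
    rw [← hW.add_smul (A.σ p) hAx _ (tan_box A hp (1, 0)) _ (tan_box A hp (0, 1))
      (-(fderiv ℂ c p (1, 0) / c p)) (-(fderiv ℂ c p (0, 1) / c p)), e1, e1, ← hAeq]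
  rw [e2, hW.scale (B.σ (Φ p)) hBx _ (tan_box B h.mem _) _ (tan_box B h.mem _) (c p) hc0,
    vec_pair (fderiv ℂ B.σ (Φ p)) (fderiv ℂ Φ p (1, 0)), vec_pair (fderiv ℂ B.σ (Φ p)) (fderiv ℂ Φ p (0, 1)),
    hW.det (B.σ (Φ p)) hBx _ (tan_box B h.mem _) _ (tan_box B h.mem _), det_pair]
  rfl

/-- MODULE EE, `EE1`: independent of the box, where `F' ∧ F ≠ 0`, `W ≠ 0`, `g ≠ 0`. -/
theorem EE_eq {A : Atlas P FF} {D : CData A} {mm : A.ι → ℂ × ℂ → ℝ} (hm : Gauge A D mm) {m j : ℕ} (hm1 : 1 ≤ m) {W : EN M → EN M → EN M → ℂ}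
    (hW : IsForm (coneE P) m j W) {F : ℂ → EN M} (hF : Crv P FF F) {i i' : A.ι} {z : ℂ} (hzi : z ∈ (A.B i).Om F) (hzj : z ∈ (A.B i').Om F)
    (hv : (A.B i).v ((A.B i).cc F z) ≠ 0) (hs : deriv ((A.B i).cc F) z ≠ 0) (hWz : GBox.W (A.B i) W ((A.B i).cc F z) ≠ 0)
    (hg : D.g i ((A.B i).cc F z) ≠ 0) : EE A D mm m j W F i z = EE A D mm m j W F i' z := by
  obtain ⟨-, hp, cA, -, hcA, hFA⟩ := cc_lift (A.B i) hF.diff hF.mem hzi
  obtain ⟨-, hq, cB, -, hcB, hFB⟩ := cc_lift (A.B i') hF.diff hF.mem hzj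
  have h1 : (A.B i).σ ((A.B i).cc F z) = (cB z / cA z) • (A.B i').σ ((A.B i').cc F z) := by
    have e1 := hFA.self_of_nhds
    have e2 := hFB.self_of_nhds
    rw [e1] at e2
    rw [div_eq_inv_mul, mul_smul, ← e2, smul_smul, inv_mul_cancel₀ hcA, one_smul]
  obtain ⟨Φ, t, hch, hΦ⟩ := exists_chg (A.B i) (A.B i') hp hq (div_ne_zero hcB hcA) h1 hv
  obtain ⟨s, hsan, hs0, hsg⟩ := D.comp i i' _ hp Φ t hch
  have e1 := (hm.comp i i' _ hp Φ t s hch hsan hs0 hsg).self_of_nhds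
  have e2 := hsg.self_of_nhds
  obtain ⟨-, -, -, e3⟩ := (chg_curve hF hzi hzj hch).self_of_nhds
  obtain ⟨c, hc, e4, e5⟩ := W_chg hW hp hch
  obtain ⟨-, hzt⟩ := deriv_cc (A.B i) hF hzi
  have hzt0 : (A.B i).zt F z ≠ 0 := by
    intro h0
    apply hs
    rw [hzt hv, h0, zero_smul]
  rw [hΦ] at e1 e2 e4 e5
  unfold EE
  generalize (A.B i).cc F z = p at *
  generalize (A.B i').cc F z = q at *
  have hm0 : (m : ℝ) ≠ 0 := by
    have : (0 : ℝ) < m := by exact_mod_cast hm1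
    exact this.ne'
  have hdet : (fderiv ℂ Φ p).det ≠ 0 ∧ GBox.W (A.B i') W q ≠ 0 := by
    have h2 : (fderiv ℂ Φ p).det ^ m * GBox.W (A.B i') W q ≠ 0 := by
      rw [← e5]
      exact mul_ne_zero (pow_ne_zero _ hc) hWz
    refine ⟨fun h3 => ?_, right_ne_zero_of_mul h2⟩
    apply h2
    rw [h3, zero_pow (by omega), zero_mul]
  have hztB : (A.B i').zt F z ≠ 0 := by
    intro h0
    have h3 : (A.B i).zt F z * (fderiv ℂ Φ p).det = 0 := by
      rw [← e3, h0, mul_zero]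
    exact mul_ne_zero hzt0 hdet.1 h3
  have l1 : j * Real.log ‖c‖ + Real.log ‖GBox.W (A.B i) W p‖ =
      m * Real.log ‖(fderiv ℂ Φ p).det‖ + Real.log ‖GBox.W (A.B i') W q‖ := by
    have h2 := congrArg (fun x => Real.log ‖x‖) e5
    simp only [norm_mul, norm_pow] at h2
    rw [Real.log_mul (pow_ne_zero _ (norm_ne_zero_iff.2 hc)) (norm_ne_zero_iff.2 hWz),
      Real.log_mul (pow_ne_zero _ (norm_ne_zero_iff.2 hdet.1)) (norm_ne_zero_iff.2 hdet.2),
      Real.log_pow, Real.log_pow] at h2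
    exact h2
  have l2 : Real.log ‖t p‖ + Real.log ‖(A.B i').zt F z‖ =
      Real.log ‖(A.B i).zt F z‖ + Real.log ‖(fderiv ℂ Φ p).det‖ := by
    have h2 := congrArg (fun x => Real.log ‖x‖) e3
    simp only [norm_mul] at h2
    rw [Real.log_mul (norm_ne_zero_iff.2 hch.t_ne) (norm_ne_zero_iff.2 hztB),
      Real.log_mul (norm_ne_zero_iff.2 hzt0) (norm_ne_zero_iff.2 hdet.1)] at h2
    exact h2
  have l3 : Real.log ‖D.g i' q‖ = Real.log ‖s p‖ + Real.log ‖D.g i p‖ := by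
    rw [e2, norm_mul, Real.log_mul (norm_ne_zero_iff.2 hs0) (norm_ne_zero_iff.2 hg)]
  have l4 : Real.log ‖(A.B i).σ p‖ = Real.log ‖c‖ + Real.log ‖(A.B i').σ q‖ := by
    have hx : (A.B i').σ q ≠ 0 := ((A.B i').imm q (ball_subset_closedBall hq)).ne_zero 0
    rw [e4, norm_smul, Real.log_mul (norm_ne_zero_iff.2 hc) (norm_ne_zero_iff.2 hx)]
  rw [l3, e1, l4]
  have l1' : Real.log ‖GBox.W (A.B i) W p‖ = m * Real.log ‖(fderiv ℂ Φ p).det‖ +
      Real.log ‖GBox.W (A.B i') W q‖ - j * Real.log ‖c‖ := by linarith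
  rw [l1']
  have l2' : Real.log ‖(A.B i).zt F z‖ = Real.log ‖t p‖ + Real.log ‖(A.B i').zt F z‖ - Real.log ‖(fderiv ℂ Φ p).det‖ := by
    linarith
  rw [l2']
  field_simp
  ring

end Pool.Agent.MQ
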