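import Pool.Agent.MQ.GeoDefs

/-!
# MQ EEDefs: the length of the section along the curve, in the boxes
-/

set_option autoImplicit false

open Topology Filter Metric MvPolynomial Asymptotics

noncomputable section

namespace Pool.Agent.MQ

open Pool.Agent.H36.BP (EN)

variable {M : ℕ} {P : Ideal (MvPolynomial (Fin (M + 1)) ℂ)} {FF : Set (EN M × EN M)}

/-- the coefficient of the section `W` of `m K - j H` in the box -/
def GBox.W (B : GBox P FF) (W : EN M → EN M → EN M → ℂ) (p : ℂ × ℂ) : ℂ := W (B.σ p) (fderiv ℂ B.σ p (1, 0)) (fderiv ℂ B.σ p (0, 1))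

/-- the logarithm of the length of the section `W` along the curve, in the box -/
def EE (A : Atlas P FF) (D : CData A) (mm : A.ι → ℂ × ℂ → ℝ) (m j : ℕ) (W : EN M → EN M → EN M → ℂ) (F : ℂ → EN M) (i : A.ι) (z : ℂ) : ℝ :=
  Real.log ‖(A.B i).zt F z‖ + (1 / m * Real.log ‖GBox.W (A.B i) W ((A.B i).cc F z)‖ + Real.log ‖D.g i ((A.B i).cc F z)‖ +
    j / m * Real.log ‖(A.B i).σ ((A.B i).cc F z)‖ - mm i ((A.B i).cc F z))

end Pool.Agent.MQ
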