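import Pool.Agent.MQ.CDefs

/-!
# MQ FormC: the invariant discs through a saddle-node with a formal weak separatrix

PROOF.  `w = y - jet (x)` satisfies `x ^ (k + 1) a w' = x' (O (x ^ (J + 1)) + β w + o (w))`, `β ≠ 0`.  If the order of `w` is less than the one of
`x ^ (J + 1)` then the left side has larger order than the right side.
-/

set_option autoImplicit false

open Topology Filter MvPolynomial Asymptotics

noncomputable section

namespace Pool.Agent.MQ

open Pool.Agent.H36.BP (EN)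
open Pool.Agent.H17BP (IsChart Pr)
open Pool.Agent.H17EF (projVar coneE)

variable {M : ℕ}

private theorem fc_jet_an (c : ℕ → ℂ) (J : ℕ) (s : ℂ) : AnalyticAt ℂ (jet c J) s := by
  change AnalyticAt ℂ (fun t => ∑ i ∈ Finset.range (J + 1), c i * t ^ i) s
  fun_prop

private theorem fc_jet_zero {c : ℕ → ℂ} (hc : c 0 = 0) (J : ℕ) : jet c J 0 = 0 := by
  unfold jet
  rw [Finset.sum_range_succ']
  simp [hc]

/-- the order of a germ and of its derivative -/
private theorem fc_order {x : ℂ → ℂ} (hx : AnalyticAt ℂ x 0) (hne : ¬ ∀ᶠ t in 𝓝 (0 : ℂ), x t = 0) :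
    ∃ (p : ℕ) (u : ℂ → ℂ), AnalyticAt ℂ u 0 ∧ u 0 ≠ 0 ∧ (∀ᶠ t in 𝓝 (0 : ℂ), x t = t ^ p * u t) ∧
      ∀ᶠ t in 𝓝 (0 : ℂ), t * deriv x t = t ^ p * (p * u t + t * deriv u t) := by
  obtain ⟨p, u, hu, hu0, h⟩ := hx.exists_eventuallyEq_pow_smul_nonzero_iff.2 hne
  have h' : ∀ᶠ t in 𝓝 (0 : ℂ), x t = t ^ p * u t := by
    filter_upwards [h] with t ht
    simpa using ht
  refine ⟨p, u, hu, hu0, h', ?_⟩
  filter_upwards [h'.eventually_nhds, hu.eventually_analyticAt] with t ht hut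
  have e : x =ᶠ[𝓝 t] fun s => s ^ p * u s := ht
  have hd : HasDerivAt (fun s : ℂ => s ^ p * u s) (p * t ^ (p - 1) * u t + t ^ p * deriv u t) t :=
    (hasDerivAt_pow p t).mul hut.differentiableAt.hasDerivAt
  rw [e.deriv_eq, hd.deriv]
  rcases Nat.eq_zero_or_pos p with h0 | h0
  · subst h0
    simp
  · obtain ⟨n, rfl⟩ : ∃ n, p = n + 1 := ⟨p - 1, by omega⟩
    simp only [Nat.add_sub_cancel]
    ring

/-- an invariant disc through a saddle-node which is not in the strong separatrix has infinite contact with the formal weak separatrix -/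
theorem formal_contact {k : ℕ} (hk : 1 ≤ k) {a b : ℂ × ℂ → ℂ} (ha : AnalyticAt ℂ a 0) (hb : AnalyticAt ℂ b 0) (ha0 : a 0 ≠ 0)
    (hb0 : fderiv ℂ b 0 (0, 1) ≠ 0) {e : ℕ → ℂ} (he : e 0 = 0)
    (hJ : ∀ J, (fun t => b (t, jet e J t) - deriv (jet e J) t * (t ^ (k + 1) * a (t, jet e J t))) =O[𝓝 0] fun t : ℂ => t ^ (J + 1))
    {c : ℂ → ℂ × ℂ} (hc : AnalyticAt ℂ c 0) (hc0 : c 0 = 0) (hx : ∃ᶠ t in 𝓝 (0 : ℂ), (c t).1 ≠ 0)
    (ht : ∀ᶠ t in 𝓝 (0 : ℂ), (c t).1 ^ (k + 1) * a (c t) * (deriv c t).2 = b (c t) * (deriv c t).1) (J : ℕ) :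
    (fun t => (c t).2 - jet e J (c t).1) =O[𝓝 0] fun t : ℂ => (c t).1 ^ (J + 1) := by
  have _ha0 := ha0
  set x : ℂ → ℂ := fun t => (c t).1 with hxdef
  set y : ℂ → ℂ := fun t => (c t).2 with hydef
  set j : ℂ → ℂ := jet e J with hj
  have hxa : AnalyticAt ℂ x 0 := analyticAt_fst.fun_comp hc
  have hya : AnalyticAt ℂ y 0 := analyticAt_snd.fun_comp hc
  have hja : ∀ s, AnalyticAt ℂ j s := fc_jet_an e J
  have hx0 : x 0 = 0 := by simp [hxdef, hc0]
  have hy0 : y 0 = 0 := by simp [hydef, hc0]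
  have hj0 : j 0 = 0 := fc_jet_zero he J
  have hjx : AnalyticAt ℂ (fun t => j (x t)) 0 := (hja _).fun_comp hxa
  set w : ℂ → ℂ := fun t => y t - j (x t) with hw
  have hwa : AnalyticAt ℂ w 0 := hya.sub hjx
  change w =O[𝓝 0] fun t : ℂ => x t ^ (J + 1)
  have hxne : ¬ ∀ᶠ t in 𝓝 (0 : ℂ), x t = 0 := fun h => hx (h.mono fun t ht h' => h' ht)
  by_cases hwne : ∀ᶠ t in 𝓝 (0 : ℂ), w t = 0
  · have e1 : w =ᶠ[𝓝 0] fun _ => 0 := hwne
    exact (isBigO_zero _ _).congr' e1.symm EventuallyEq.rfl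
  obtain ⟨p, u, hu, hu0, hxu, hxd⟩ := fc_order hxa hxne
  obtain ⟨m, v, hv, hv0, hwv, hwd⟩ := fc_order hwa hwne
  have hp : 1 ≤ p := by
    rcases Nat.eq_zero_or_pos p with h0 | h0
    · subst h0
      have := hxu.self_of_nhds
      rw [hx0] at this
      simp at this
      exact absurd this.symm hu0
    · exact h0
  -- `t ^ p = O (x)`
  have hbig : ∀ {f g : ℂ → ℂ} {n : ℕ}, AnalyticAt ℂ g 0 → g 0 ≠ 0 → (∀ᶠ t in 𝓝 (0 : ℂ), f t = t ^ n * g t) →
      (f =O[𝓝 0] fun t : ℂ => t ^ n) ∧ ((fun t : ℂ => t ^ n) =O[𝓝 0] f) := by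
    intro f g n hg hg0 hfg
    have h1 : g =O[𝓝 0] fun _ => (1 : ℂ) := hg.continuousAt.tendsto.isBigO_one ℂ
    have h2 : (fun t => (g t)⁻¹) =O[𝓝 0] fun _ => (1 : ℂ) := (hg.continuousAt.inv₀ hg0).tendsto.isBigO_one ℂ
    constructor
    · have h3 := (isBigO_refl (fun t : ℂ => t ^ n) (𝓝 0)).mul h1
      refine (h3.congr' ?_ ?_)
      · filter_upwards [hfg] with t ht using ht.symm
      · exact Eventually.of_forall fun t => mul_one _
    · have h3 := (isBigO_refl f (𝓝 0)).mul h2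
      refine h3.congr' ?_ (Eventually.of_forall fun t => mul_one _)
      filter_upwards [hfg, hg.continuousAt.eventually_ne hg0] with t ht hgt
      rw [ht, mul_assoc, mul_inv_cancel₀ hgt, mul_one]
  obtain ⟨hx1, hx2⟩ := hbig hu hu0 hxu
  obtain ⟨hw1, hw2⟩ := hbig hv hv0 hwv
  by_cases hm : p * (J + 1) ≤ m
  · -- the order is large
    have h1 : (fun t : ℂ => t ^ m) =O[𝓝 0] fun t : ℂ => t ^ (p * (J + 1)) := by
      refine IsBigO.of_bound 1 ?_
      filter_upwards [Metric.ball_mem_nhds (0 : ℂ) one_pos] with t ht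
      rw [one_mul, norm_pow, norm_pow]
      exact pow_le_pow_of_le_one (norm_nonneg _) (by simpa using (mem_ball_zero_iff.1 ht).le) hm
    have h2 : (fun t : ℂ => t ^ (p * (J + 1))) =O[𝓝 0] fun t : ℂ => x t ^ (J + 1) := by
      have h3 := hx2.pow (J + 1)
      refine h3.congr (fun t => ?_) fun t => rfl
      rw [← pow_mul]
    exact (hw1.trans h1).trans h2
  exfalso
  push Not at hm
  set β : ℂ := fderiv ℂ b 0 (0, 1) with hβ
  -- notation
  have hl : 𝓝[≠] (0 : ℂ) ≤ 𝓝 0 := nhdsWithin_le_nhds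
  have hcy : Tendsto c (𝓝 0) (𝓝 0) := by
    have := hc.continuousAt.tendsto
    rwa [hc0] at this
  have hcj : Tendsto (fun t => (x t, j (x t))) (𝓝 (0 : ℂ)) (𝓝 (0 : ℂ × ℂ)) := by
    have h1 : ContinuousAt (fun t => (x t, j (x t))) 0 := hxa.continuousAt.prodMk hjx.continuousAt
    have h2 := h1.tendsto
    simp only [hx0, hj0] at h2
    exact h2
  have hpair : Tendsto (fun t => (c t, (x t, j (x t)))) (𝓝 (0 : ℂ)) (𝓝 ((0 : ℂ × ℂ), (0 : ℂ × ℂ))) := by
    rw [nhds_prod_eq]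
    exact hcy.prodMk hcj
  have hdiff : ∀ t, c t - (x t, j (x t)) = (0, w t) := fun t => by
    ext <;> simp [hxdef, hw, hydef]
  have hwnorm : (fun t => c t - (x t, j (x t))) =O[𝓝 0] w := by
    refine IsBigO.of_bound 1 (Eventually.of_forall fun t => ?_)
    rw [hdiff, one_mul, Prod.norm_mk, norm_zero]
    exact max_le (norm_nonneg _) le_rfl
  -- term2
  have T2 : (fun t => b (c t) - b (x t, j (x t)) - β * w t) =o[𝓝 0] w := by
    have h1 := (hb.hasStrictFDerivAt).isLittleO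
    have h2 := h1.comp_tendsto hpair
    have h3 := h2.trans_isBigO hwnorm
    refine h3.congr (fun t => ?_) fun t => rfl
    simp only [Function.comp]
    rw [hdiff]
    have h4 : ((0 : ℂ), w t) = w t • ((0 : ℂ), (1 : ℂ)) := by simp
    rw [h4, map_smul, smul_eq_mul, hβ]
    ring
  -- term3
  have T3 : (fun t => deriv j (x t) * (x t ^ (k + 1) * (a (c t) - a (x t, j (x t))))) =o[𝓝 0] w := by
    have h1 := (ha.hasStrictFDerivAt).isBigO_sub
    have h2 := h1.comp_tendsto hpair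
    have h3 : (fun t => a (c t) - a (x t, j (x t))) =O[𝓝 0] w := by
      refine IsBigO.trans ?_ hwnorm
      exact h2
    have h4 : (fun t => deriv j (x t)) =O[𝓝 0] fun _ => (1 : ℂ) := by
      have h5 : ContinuousAt (fun t => deriv j (x t)) 0 := ((hja (x 0)).deriv.continuousAt).comp hxa.continuousAt
      exact h5.tendsto.isBigO_one ℂ
    have h6 : (fun t => x t ^ (k + 1)) =o[𝓝 0] fun _ => (1 : ℂ) := by
      rw [isLittleO_one_iff]
      have h7 : Tendsto (fun t => x t ^ (k + 1)) (𝓝 0) (𝓝 (x 0 ^ (k + 1))) := (hxa.continuousAt.pow (k + 1)).tendsto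
      rwa [hx0, zero_pow (by omega)] at h7
    have h8 := h4.mul_isLittleO (h6.mul_isBigO h3)
    refine h8.congr (fun t => rfl) fun t => by ring
  -- term1
  have T1 : (fun t => b (x t, j (x t)) - deriv j (x t) * (x t ^ (k + 1) * a (x t, j (x t)))) =o[𝓝[≠] 0] fun t : ℂ => t ^ m := by
    have h0 : Tendsto x (𝓝 0) (𝓝 0) := by
      have := hxa.continuousAt.tendsto
      rwa [hx0] at this
    have h1 := (hJ J).comp_tendsto h0
    have h2 : (fun t => b (x t, j (x t)) - deriv j (x t) * (x t ^ (k + 1) * a (x t, j (x t)))) =O[𝓝 0] fun t : ℂ => x t ^ (J + 1) := h1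
    have h3 : (fun t : ℂ => x t ^ (J + 1)) =O[𝓝 0] fun t : ℂ => t ^ (p * (J + 1)) := by
      have h4 := hx1.pow (J + 1)
      refine h4.congr (fun t => rfl) fun t => ?_
      rw [← pow_mul]
    have h5 : (fun t : ℂ => t ^ (p * (J + 1))) =o[𝓝 0] fun t : ℂ => t ^ m := isLittleO_pow_pow hm
    exact ((h2.trans h3).trans_isLittleO h5).mono hl
  -- sum
  have S : (fun t => (b (c t) - deriv j (x t) * (x t ^ (k + 1) * a (c t))) - β * w t) =o[𝓝[≠] 0] fun t : ℂ => t ^ m := by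
    have h1 := (T1.add ((T2.trans_isBigO hw1).mono hl)).sub ((T3.trans_isBigO hw1).mono hl)
    refine h1.congr (fun t => ?_) fun t => rfl
    ring
  -- the equation
  have E : ∀ᶠ t in 𝓝 (0 : ℂ), x t ^ (k + 1) * a (c t) * (t * deriv w t) = (t * deriv x t) * (b (c t) - deriv j (x t) * (x t ^ (k + 1) * a (c t))) := by
    filter_upwards [ht, hc.eventually_analyticAt] with t e1 han
    have d1 : HasDerivAt x (deriv c t).1 t := (hasFDerivAt_fst (𝕜 := ℂ) (p := c t)).comp_hasDerivAt t han.differentiableAt.hasDerivAt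
    have d2 : HasDerivAt y (deriv c t).2 t := (hasFDerivAt_snd (𝕜 := ℂ) (p := c t)).comp_hasDerivAt t han.differentiableAt.hasDerivAt
    have d3 : HasDerivAt (fun t => j (x t)) (deriv j (x t) * (deriv c t).1) t := (hja (x t)).differentiableAt.hasDerivAt.comp t d1
    have d4 : HasDerivAt w ((deriv c t).2 - deriv j (x t) * (deriv c t).1) t := d2.sub d3
    rw [d4.deriv, d1.deriv]
    have e2 : x t ^ (k + 1) * a (c t) * (deriv c t).2 = b (c t) * (deriv c t).1 := e1
    calc x t ^ (k + 1) * a (c t) * (t * ((deriv c t).2 - deriv j (x t) * (deriv c t).1)) =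
        t * (x t ^ (k + 1) * a (c t) * (deriv c t).2) - t * (deriv j (x t) * (deriv c t).1 * (x t ^ (k + 1) * a (c t))) := by ring
      _ = t * (b (c t) * (deriv c t).1) - t * (deriv j (x t) * (deriv c t).1 * (x t ^ (k + 1) * a (c t))) := by rw [e2]
      _ = _ := by ring
  -- `N = o (t ^ m)`
  have hunit : AnalyticAt ℂ (fun t => (p : ℂ) * u t + t * deriv u t) 0 :=
    (analyticAt_const.mul hu).add (analyticAt_id.mul hu.deriv)
  have hunit0 : (p : ℂ) * u 0 + 0 * deriv u 0 ≠ 0 := by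
    rw [zero_mul, add_zero]
    exact mul_ne_zero (by exact_mod_cast (by omega : p ≠ 0)) hu0
  have N : (fun t => b (c t) - deriv j (x t) * (x t ^ (k + 1) * a (c t))) =o[𝓝[≠] 0] fun t : ℂ => t ^ m := by
    have h1 : (fun t : ℂ => t ^ (p * k) * (u t ^ (k + 1) * a (c t) * (m * v t + t * deriv v t) * ((p : ℂ) * u t + t * deriv u t)⁻¹)) =o[𝓝 0]
        fun _ => (1 : ℂ) := by
      rw [isLittleO_one_iff]
      have c1 : ContinuousAt (fun t : ℂ => t ^ (p * k) * (u t ^ (k + 1) * a (c t) * (m * v t + t * deriv v t) * ((p : ℂ) * u t + t * deriv u t)⁻¹)) 0 := by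
        have hac : ContinuousAt (fun t => a (c t)) 0 := by
          refine ContinuousAt.comp (g := a) ?_ hc.continuousAt
          rw [hc0]; exact ha.continuousAt
        exact (continuousAt_id.pow _).mul ((((hu.continuousAt.pow _).mul hac).mul ((continuousAt_const.mul hv.continuousAt).add
          (continuousAt_id.mul hv.deriv.continuousAt))).mul (hunit.continuousAt.inv₀ hunit0))
      have h2 := c1.tendsto
      rwa [zero_pow (Nat.mul_ne_zero (by omega) (by omega)), zero_mul] at h2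
    have h3 := ((isBigO_refl (fun t : ℂ => t ^ m) (𝓝 0)).mul_isLittleO h1).mono hl
    refine h3.congr' ?_ (Eventually.of_forall fun t => mul_one _)
    have hall := (E.and (hxu.and (hxd.and hwd))).and (hunit.continuousAt.eventually_ne hunit0)
    filter_upwards [hall.filter_mono hl, self_mem_nhdsWithin] with t ⟨⟨e1, e2, e3, e4⟩, e5⟩ hne
    have hne : t ≠ 0 := hne
    rw [e3, e4] at e1
    have hpm : t ^ p ≠ 0 := pow_ne_zero _ hne
    have e6 : (t ^ p * (p * u t + t * deriv u t)) * (t ^ m * (t ^ (p * k) * (u t ^ (k + 1) * a (c t) * (m * v t + t * deriv v t) *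
        ((p : ℂ) * u t + t * deriv u t)⁻¹))) = (t ^ p * (p * u t + t * deriv u t)) * (b (c t) - deriv j (x t) * (x t ^ (k + 1) * a (c t))) := by
      rw [← e1]
      have e7 : x t ^ (k + 1) = t ^ p * t ^ (p * k) * u t ^ (k + 1) := by
        rw [e2, mul_pow, ← pow_mul, ← pow_add]
        ring
      rw [e7]
      field_simp
    exact mul_left_cancel₀ (mul_ne_zero hpm e5) e6
  have W : (fun t : ℂ => t ^ m) =o[𝓝[≠] 0] fun t : ℂ => t ^ m := by
    have h1 : (fun t => β * w t) =o[𝓝[≠] 0] fun t : ℂ => t ^ m := by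
      refine (N.sub S).congr (fun t => ?_) fun t => rfl
      ring
    have h2 : w =o[𝓝[≠] 0] fun t : ℂ => t ^ m := (isLittleO_const_mul_left_iff hb0).1 h1
    exact (hw2.mono hl).trans_isLittleO h2
  have h1 := W.def (c := 1 / 2) (by norm_num)
  have h2 : ∀ᶠ t in 𝓝[≠] (0 : ℂ), False := by
    filter_upwards [h1, self_mem_nhdsWithin] with t h3 h4
    have h5 : 0 < ‖t ^ m‖ := norm_pos_iff.2 (pow_ne_zero _ h4)
    linarith
  obtain ⟨t, hf⟩ := h2.exists
  exact hf

/-- MODULE C4: a formal separatrix which lies in no algebraic curve -/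
theorem formal_no {P : Ideal (MvPolynomial (Fin (M + 1)) ℂ)} {σ : ℂ × ℂ → EN M} (hσ : AnalyticAt ℂ σ 0) {k : ℕ} (hk : 1 ≤ k) {a b : ℂ × ℂ → ℂ}
    (ha : AnalyticAt ℂ a 0) (hb : AnalyticAt ℂ b 0) (ha0 : a 0 ≠ 0) (hb0 : fderiv ℂ b 0 (0, 1) ≠ 0) {e : ℕ → ℂ} (he : e 0 = 0)
    (hJ : ∀ J, (fun t => b (t, jet e J t) - deriv (jet e J) t * (t ^ (k + 1) * a (t, jet e J t))) =O[𝓝 0] fun t : ℂ => t ^ (J + 1))
    {R : MvPolynomial (Fin (M + 1)) ℂ} (hR : ∃ n : ℕ, ¬ (fun t => eval (σ (t, jet e n t)).ofLp R) =O[𝓝 0] fun t : ℂ => t ^ (n + 1))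
    {c : ℂ → ℂ × ℂ} (hc : AnalyticAt ℂ c 0) (hc0 : c 0 = 0)
    (ht : ∀ᶠ t in 𝓝 (0 : ℂ), (c t).1 ^ (k + 1) * a (c t) * (deriv c t).2 = b (c t) * (deriv c t).1 ∧ eval (σ (c t)).ofLp R = 0) :
    ∀ᶠ t in 𝓝 (0 : ℂ), (c t).1 = 0 := by
  by_contra hxne
  obtain ⟨n, hn⟩ := hR
  have hx : ∃ᶠ t in 𝓝 (0 : ℂ), (c t).1 ≠ 0 := by
    rw [Filter.not_eventually] at hxne
    exact hxne
  have hcon := formal_contact hk ha hb ha0 hb0 he hJ hc hc0 hx (ht.mono fun t h => h.1) n
  have hxa : AnalyticAt ℂ (fun t => (c t).1) 0 := analyticAt_fst.fun_comp hc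
  have hja := fc_jet_an e n
  have hj0 := fc_jet_zero he n
  -- the function `q`
  have hq : AnalyticAt ℂ (fun p => eval (σ p).ofLp R) 0 := by
    have h1 : AnalyticAt ℂ (fun p => (MvPolynomial.aeval (fun i => (σ p).ofLp i) R : ℂ)) 0 := by
      refine AnalyticAt.aeval_mvPolynomial (fun i => ?_) R
      exact ((EuclideanSpace.proj i : EN M →L[ℂ] ℂ).analyticAt _).comp hσ
    refine h1.congr (Eventually.of_forall fun p => ?_)
    simp only [MvPolynomial.aeval_eq_eval]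
  have hj0' : ((0 : ℂ), jet e n 0) = 0 := by rw [hj0]; rfl
  have hf : AnalyticAt ℂ (fun s => eval (σ (s, jet e n s)).ofLp R) 0 := by
    have h1 : AnalyticAt ℂ (fun s => (s, jet e n s)) 0 := analyticAt_id.prod (hja 0)
    refine AnalyticAt.fun_comp (g := fun p => eval (σ p).ofLp R) (f := fun s => (s, jet e n s)) ?_ h1
    rw [hj0']
    exact hq
  set x : ℂ → ℂ := fun t => (c t).1 with hxdef
  set f : ℂ → ℂ := fun s => eval (σ (s, jet e n s)).ofLp R with hfdef
  have hx0 : x 0 = 0 := by simp [hxdef, hc0]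
  have hfne : ¬ ∀ᶠ s in 𝓝 (0 : ℂ), f s = 0 := fun h => hn ((isBigO_zero _ _).congr' (EventuallyEq.symm h) EventuallyEq.rfl)
  obtain ⟨m, g, hg, hg0, hfg, -⟩ := fc_order hf hfne
  have hm : m ≤ n := by
    by_contra hmn
    push Not at hmn
    apply hn
    have h1 : g =O[𝓝 0] fun _ => (1 : ℂ) := hg.continuousAt.tendsto.isBigO_one ℂ
    have h2 : (fun t : ℂ => t ^ m) =O[𝓝 0] fun t : ℂ => t ^ (n + 1) := by
      refine IsBigO.of_bound 1 ?_
      filter_upwards [Metric.ball_mem_nhds (0 : ℂ) one_pos] with t ht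
      rw [one_mul, norm_pow, norm_pow]
      exact pow_le_pow_of_le_one (norm_nonneg _) (by simpa using (mem_ball_zero_iff.1 ht).le) hmn
    refine (h2.mul h1).congr' ?_ (Eventually.of_forall fun t => mul_one _)
    filter_upwards [hfg] with t h3 using h3.symm
  -- along the curve
  have hxt : Tendsto x (𝓝 0) (𝓝 0) := by
    have := hxa.continuousAt.tendsto
    rwa [hx0] at this
  have hjx : ContinuousAt (fun t => jet e n (x t)) 0 := ((hja (x 0)).continuousAt).comp hxa.continuousAt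
  have hcy : Tendsto c (𝓝 0) (𝓝 0) := by
    have := hc.continuousAt.tendsto
    rwa [hc0] at this
  have hcj : Tendsto (fun t => (x t, jet e n (x t))) (𝓝 (0 : ℂ)) (𝓝 (0 : ℂ × ℂ)) := by
    have h1 : ContinuousAt (fun t => (x t, jet e n (x t))) 0 := hxa.continuousAt.prodMk hjx
    have h2 := h1.tendsto
    rw [hx0, hj0'] at h2
    exact h2
  have hpair : Tendsto (fun t => (c t, (x t, jet e n (x t)))) (𝓝 (0 : ℂ)) (𝓝 ((0 : ℂ × ℂ), (0 : ℂ × ℂ))) := by
    rw [nhds_prod_eq]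
    exact hcy.prodMk hcj
  have h1 : (fun t => c t - (x t, jet e n (x t))) =O[𝓝 0] fun t => x t ^ (n + 1) := by
    refine IsBigO.trans (IsBigO.of_bound 1 (Eventually.of_forall fun t => ?_)) hcon
    have h2 : c t - (x t, jet e n (x t)) = (0, (c t).2 - jet e n (x t)) := by
      ext <;> simp [hxdef]
    rw [h2, one_mul, Prod.norm_mk, norm_zero]
    exact max_le (norm_nonneg _) le_rfl
  have h2 := (hq.hasStrictFDerivAt).isBigO_sub.comp_tendsto hpair
  have h3 : (fun t => f (x t)) =O[𝓝 0] fun t => x t ^ (n + 1) := by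
    refine (IsBigO.trans h2 h1).neg_left.congr' ?_ EventuallyEq.rfl
    filter_upwards [ht] with t h4
    simp only [Function.comp, h4.2, hfdef]
    ring
  have h4 : (fun t => x t ^ m) =O[𝓝 0] fun t => f (x t) := by
    have h5 : (fun t => (g (x t))⁻¹) =O[𝓝 0] fun _ => (1 : ℂ) := by
      have h6 : Tendsto (fun t => g (x t)) (𝓝 0) (𝓝 (g 0)) := hg.continuousAt.tendsto.comp hxt
      exact (h6.inv₀ hg0).isBigO_one ℂ
    refine ((isBigO_refl (fun t => f (x t)) (𝓝 0)).mul h5).congr' ?_ (Eventually.of_forall fun t => mul_one _)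
    filter_upwards [hxt.eventually hfg, hxt.eventually (hg.continuousAt.eventually_ne hg0)] with t h6 h7
    rw [h6, mul_assoc, mul_inv_cancel₀ h7, mul_one]
  have h5 : (fun t => x t ^ (n + 1)) =o[𝓝 0] fun t => x t ^ m := by
    have h6 : (fun s : ℂ => s ^ (n + 1)) =o[𝓝 0] fun s : ℂ => s ^ m := isLittleO_pow_pow (by omega)
    exact h6.comp_tendsto hxt
  have h6 := ((h4.trans h3).trans_isLittleO h5).def (c := 1 / 2) (by norm_num)
  obtain ⟨t, h7, h8⟩ := (hx.and_eventually h6).exists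
  have h9 : 0 < ‖x t ^ m‖ := norm_pos_iff.2 (pow_ne_zero _ h7)
  linarith

end Pool.Agent.MQ
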