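import Pool.Agent.MQ.CDefs

/-!
# MQ LeafAxis: the invariant points of an axis
-/

set_option autoImplicit false

open Topology Filter MvPolynomial Asymptotics

noncomputable section

namespace Pool.Agent.MQ

/-- a piece of the axis `{p.1 = 0}` is tangent to `v` -/
private theorem leaf_axis_aux {v : ℂ × ℂ → ℂ × ℂ} {q : ℂ × ℂ → ℂ} {t : ℂ} (h1 : ∀ᶠ s in 𝓝 t, (v (0, s)).1 = 0) (h2 : ∀ᶠ s in 𝓝 t, q (0, s) = 0) :
    LeafIn v q (0, t) := by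
  have hd : ∀ s : ℂ, HasDerivAt (fun s : ℂ => ((0 : ℂ), t + s)) ((0 : ℂ), (1 : ℂ)) s := fun s =>
    (hasDerivAt_const s (0 : ℂ)).prodMk ((hasDerivAt_id s).const_add t)
  have hc : Tendsto (fun s : ℂ => t + s) (𝓝 0) (𝓝 t) := by
    have : Continuous fun s : ℂ => t + s := by fun_prop
    have h := this.tendsto 0
    rwa [add_zero] at h
  refine ⟨fun s => (0, t + s), by fun_prop, by simp, ?_, ?_⟩
  · filter_upwards [hc.eventually h1, hc.eventually h2] with s e1 e2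
    rw [(hd s).deriv]
    exact ⟨by simp [e1], e2⟩
  · have h3 : ∀ᶠ s : ℂ in 𝓝[≠] 0, ((0 : ℂ), t + s) ≠ (0, t) := by
      filter_upwards [self_mem_nhdsWithin] with s hs h
      rw [Prod.mk.injEq] at h
      exact hs (by simpa using h.2)
    exact (h3.frequently).filter_mono nhdsWithin_le_nhds

private theorem leaf_axis_aux' {v : ℂ × ℂ → ℂ × ℂ} {q : ℂ × ℂ → ℂ} {t : ℂ} (h1 : ∀ᶠ s in 𝓝 t, (v (s, 0)).2 = 0) (h2 : ∀ᶠ s in 𝓝 t, q (s, 0) = 0) :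
    LeafIn v q (t, 0) := by
  have hd : ∀ s : ℂ, HasDerivAt (fun s : ℂ => (t + s, (0 : ℂ))) ((1 : ℂ), (0 : ℂ)) s := fun s =>
    ((hasDerivAt_id s).const_add t).prodMk (hasDerivAt_const s (0 : ℂ))
  have hc : Tendsto (fun s : ℂ => t + s) (𝓝 0) (𝓝 t) := by
    have : Continuous fun s : ℂ => t + s := by fun_prop
    have h := this.tendsto 0
    rwa [add_zero] at h
  refine ⟨fun s => (t + s, 0), by fun_prop, by simp, ?_, ?_⟩
  · filter_upwards [hc.eventually h1, hc.eventually h2] with s e1 e2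
    rw [(hd s).deriv]
    exact ⟨by simp [e1], e2⟩
  · have h3 : ∀ᶠ s : ℂ in 𝓝[≠] 0, (t + s, (0 : ℂ)) ≠ (t, 0) := by
      filter_upwards [self_mem_nhdsWithin] with s hs h
      rw [Prod.mk.injEq] at h
      exact hs (by simpa using h.1)
    exact (h3.frequently).filter_mono nhdsWithin_le_nhds

private theorem leaf_mem {v : ℂ × ℂ → ℂ × ℂ} {q : ℂ × ℂ → ℂ} {p : ℂ × ℂ} (h : LeafIn v q p) : q p = 0 := by
  obtain ⟨γ, _, h0, h1, _⟩ := h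
  have := h1.self_of_nhds.2
  rwa [h0] at this

/-- C5: the axis `{p.1 = 0}`; `f (t) = v.2 (0, t)` does not vanish for small `t ≠ 0` -/
theorem leaf_axis {v : ℂ × ℂ → ℂ × ℂ} (hv : AnalyticAt ℂ v 0) (h1 : ∀ᶠ t in 𝓝 (0 : ℂ), (v (0, t)).1 = 0)
    (h2 : ∀ᶠ t in 𝓝 (0 : ℂ), t ≠ 0 → (v (0, t)).2 ≠ 0) {q : ℂ × ℂ → ℂ} (hq : AnalyticAt ℂ q 0) :
    ∀ᶠ t in 𝓝 (0 : ℂ), t ≠ 0 → (LeafIn v q (0, t) ↔ ∀ᶠ s in 𝓝 (0 : ℂ), q (0, s) = 0) := by
  have _hv := hv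
  have _h2 := h2
  have hq1 : AnalyticAt ℂ (fun s : ℂ => q (0, s)) 0 :=
    AnalyticAt.comp' (f := fun s : ℂ => ((0 : ℂ), s)) (x := 0) hq (analyticAt_const.prod analyticAt_id)
  rcases hq1.eventually_eq_zero_or_eventually_ne_zero with h | h
  · filter_upwards [h.eventually_nhds, h1.eventually_nhds] with t e1 e2 _
    exact ⟨fun _ => h, fun _ => leaf_axis_aux e2 e1⟩
  · rw [eventually_nhdsWithin_iff] at h
    filter_upwards [h] with t e1 ht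
    refine ⟨fun hl => absurd (leaf_mem hl) (e1 ht), fun hs => ?_⟩
    exfalso
    have h3 : ∀ᶠ s : ℂ in 𝓝[≠] 0, q (0, s) ≠ 0 := by
      rw [eventually_nhdsWithin_iff]; exact h
    have h4 : ∀ᶠ s : ℂ in 𝓝[≠] 0, q (0, s) = 0 := hs.filter_mono nhdsWithin_le_nhds
    obtain ⟨s, hs1, hs2⟩ := (h3.and h4).exists
    exact hs1 hs2

/-- C5: the axis `{p.2 = 0}` -/
theorem leaf_axis' {v : ℂ × ℂ → ℂ × ℂ} (hv : AnalyticAt ℂ v 0) (h1 : ∀ᶠ t in 𝓝 (0 : ℂ), (v (t, 0)).2 = 0)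
    (h2 : ∀ᶠ t in 𝓝 (0 : ℂ), t ≠ 0 → (v (t, 0)).1 ≠ 0) {q : ℂ × ℂ → ℂ} (hq : AnalyticAt ℂ q 0) :
    ∀ᶠ t in 𝓝 (0 : ℂ), t ≠ 0 → (LeafIn v q (t, 0) ↔ ∀ᶠ s in 𝓝 (0 : ℂ), q (s, 0) = 0) := by
  have _hv := hv
  have _h2 := h2
  have hq1 : AnalyticAt ℂ (fun s : ℂ => q (s, 0)) 0 :=
    AnalyticAt.comp' (f := fun s : ℂ => (s, (0 : ℂ))) (x := 0) hq (analyticAt_id.prod analyticAt_const)
  rcases hq1.eventually_eq_zero_or_eventually_ne_zero with h | h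
  · filter_upwards [h.eventually_nhds, h1.eventually_nhds] with t e1 e2 _
    exact ⟨fun _ => h, fun _ => leaf_axis_aux' e2 e1⟩
  · rw [eventually_nhdsWithin_iff] at h
    filter_upwards [h] with t e1 ht
    refine ⟨fun hl => absurd (leaf_mem hl) (e1 ht), fun hs => ?_⟩
    exfalso
    have h3 : ∀ᶠ s : ℂ in 𝓝[≠] 0, q (s, 0) ≠ 0 := by
      rw [eventually_nhdsWithin_iff]; exact h
    have h4 : ∀ᶠ s : ℂ in 𝓝[≠] 0, q (s, 0) = 0 := hs.filter_mono nhdsWithin_le_nhds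
    obtain ⟨s, hs1, hs2⟩ := (h3.and h4).exists
    exact hs1 hs2

end Pool.Agent.MQ
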