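import Pool.Agent.MQ.CDefs
import Pool.Agent.E1.Disc
import Pool.Agent.H17BP.Art

/-!
# MQ C3 `LeafDisc`: an invariant disc through `0`

If infinitely many invariant points accumulate at `0` then they lie on one disc `c` of the zero set of `q`; all derivatives `v^j q` vanish along `c`.
If `c` is transversal to `v` at some point then all partial derivatives of `q` vanish along `c`, so `q = 0`.
-/

set_option autoImplicit false

open Topology Filter MvPolynomial Asymptotics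

noncomputable section

namespace Pool.Agent.MQ

theorem ld_clm {E F : Type*} [NormedAddCommGroup E] [NormedSpace ℂ E] [NormedAddCommGroup F] [NormedSpace ℂ F] {G : Type*} [NormedAddCommGroup G]
    [NormedSpace ℂ G] {L : E → F →L[ℂ] G} {v : E → F} {p : E} (hL : AnalyticAt ℂ L p) (hv : AnalyticAt ℂ v p) : AnalyticAt ℂ (fun x => L x (v x)) p :=
  AnalyticAt.fun_comp (g := fun q : (F →L[ℂ] G) × F => (ContinuousLinearMap.id ℂ (F →L[ℂ] G)) q.1 q.2) (f := fun x => (L x, v x))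
    ((ContinuousLinearMap.id ℂ (F →L[ℂ] G)).analyticAt_bilinear _) (hL.prod hv)

/-- the derivative along `v` -/
def ldD (v : ℂ × ℂ → ℂ × ℂ) (f : ℂ × ℂ → ℂ) (p : ℂ × ℂ) : ℂ := fderiv ℂ f p (v p)

theorem ldD_analyticAt {v : ℂ × ℂ → ℂ × ℂ} {f : ℂ × ℂ → ℂ} {p : ℂ × ℂ} (hv : AnalyticAt ℂ v p) (hf : AnalyticAt ℂ f p) :
    AnalyticAt ℂ (ldD v f) p := ld_clm hf.fderiv hv

theorem ldD_congr {v : ℂ × ℂ → ℂ × ℂ} {f g : ℂ × ℂ → ℂ} {p : ℂ × ℂ} (h : f =ᶠ[𝓝 p] g) : ldD v f =ᶠ[𝓝 p] ldD v g := by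
  filter_upwards [h.eventuallyEq_nhds] with x hx
  unfold ldD
  rw [hx.fderiv_eq]

/-- `f`, `v f`, …, `v^j f` vanish along `c` -/
def LdK (v : ℂ × ℂ → ℂ × ℂ) (c : ℂ → ℂ × ℂ) : ℕ → (ℂ × ℂ → ℂ) → Prop
  | 0, f => AnalyticAt ℂ f 0 ∧ ∀ᶠ t in 𝓝 (0 : ℂ), f (c t) = 0
  | j + 1, f => (AnalyticAt ℂ f 0 ∧ ∀ᶠ t in 𝓝 (0 : ℂ), f (c t) = 0) ∧ LdK v c j (ldD v f)

namespace LdK

variable {v : ℂ × ℂ → ℂ × ℂ} {c : ℂ → ℂ × ℂ}

theorem base {j : ℕ} {f : ℂ × ℂ → ℂ} (h : LdK v c j f) : AnalyticAt ℂ f 0 ∧ ∀ᶠ t in 𝓝 (0 : ℂ), f (c t) = 0 := by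
  cases j with
  | zero => exact h
  | succ j => exact h.1

theorem mono {j : ℕ} : ∀ {f : ℂ × ℂ → ℂ}, LdK v c (j + 1) f → LdK v c j f := by
  induction j with
  | zero => exact fun h => h.1
  | succ j ih => exact fun h => ⟨h.1, ih h.2⟩

theorem congr (hct : Tendsto c (𝓝 0) (𝓝 0)) {j : ℕ} : ∀ {f g : ℂ × ℂ → ℂ}, f =ᶠ[𝓝 0] g → LdK v c j f → LdK v c j g := by
  have h0 : ∀ {f g : ℂ × ℂ → ℂ}, f =ᶠ[𝓝 0] g → (AnalyticAt ℂ f 0 ∧ ∀ᶠ t in 𝓝 (0 : ℂ), f (c t) = 0) →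
      (AnalyticAt ℂ g 0 ∧ ∀ᶠ t in 𝓝 (0 : ℂ), g (c t) = 0) := by
    intro f g hfg h
    refine ⟨h.1.congr hfg, ?_⟩
    filter_upwards [h.2, hct.eventually hfg] with t h1 h2
    rw [← h2, h1]
  induction j with
  | zero => exact fun hfg h => h0 hfg h
  | succ j ih => exact fun hfg h => ⟨h0 hfg h.1, ih (ldD_congr hfg) h.2⟩

theorem add (hct : Tendsto c (𝓝 0) (𝓝 0)) {j : ℕ} : ∀ {f g : ℂ × ℂ → ℂ}, LdK v c j f → LdK v c j g → LdK v c j fun p => f p + g p := by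
  have h0 : ∀ {f g : ℂ × ℂ → ℂ}, (AnalyticAt ℂ f 0 ∧ ∀ᶠ t in 𝓝 (0 : ℂ), f (c t) = 0) → (AnalyticAt ℂ g 0 ∧ ∀ᶠ t in 𝓝 (0 : ℂ), g (c t) = 0) →
      (AnalyticAt ℂ (fun p => f p + g p) 0 ∧ ∀ᶠ t in 𝓝 (0 : ℂ), (fun p => f p + g p) (c t) = 0) := by
    intro f g hf hg
    refine ⟨hf.1.add hg.1, ?_⟩
    filter_upwards [hf.2, hg.2] with t h1 h2
    show f (c t) + g (c t) = 0
    rw [h1, h2, add_zero]
  induction j with
  | zero => exact fun hf hg => h0 hf hg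
  | succ j ih =>
    intro f g hf hg
    refine ⟨h0 hf.1 hg.1, (ih hf.2 hg.2).congr hct ?_⟩
    filter_upwards [hf.1.1.eventually_analyticAt, hg.1.1.eventually_analyticAt] with p h1 h2
    unfold ldD
    rw [fderiv_fun_add h1.differentiableAt h2.differentiableAt]
    rfl

theorem mul (hct : Tendsto c (𝓝 0) (𝓝 0)) (hv : AnalyticAt ℂ v 0) {j : ℕ} :
    ∀ {a f : ℂ × ℂ → ℂ}, AnalyticAt ℂ a 0 → LdK v c j f → LdK v c j fun p => a p * f p := by
  have h0 : ∀ {a f : ℂ × ℂ → ℂ}, AnalyticAt ℂ a 0 → (AnalyticAt ℂ f 0 ∧ ∀ᶠ t in 𝓝 (0 : ℂ), f (c t) = 0) →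
      (AnalyticAt ℂ (fun p => a p * f p) 0 ∧ ∀ᶠ t in 𝓝 (0 : ℂ), (fun p => a p * f p) (c t) = 0) := by
    intro a f ha hf
    refine ⟨ha.mul hf.1, ?_⟩
    filter_upwards [hf.2] with t h1
    show a (c t) * f (c t) = 0
    rw [h1, mul_zero]
  induction j with
  | zero => exact fun ha hf => h0 ha hf
  | succ j ih =>
    intro a f ha hf
    refine ⟨h0 ha hf.1, (add hct (ih (ldD_analyticAt hv ha) hf.mono) (ih ha hf.2)).congr hct ?_⟩
    filter_upwards [ha.eventually_analyticAt, hf.1.1.eventually_analyticAt] with p h1 h2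
    unfold ldD
    rw [fderiv_fun_mul h1.differentiableAt h2.differentiableAt]
    simp only [add_apply, smul_apply, smul_eq_mul]
    ring

end LdK

/-- two independent vectors -/
theorem ld_lin {L : ℂ × ℂ →L[ℂ] ℂ} {a b : ℂ × ℂ} (ha : L a = 0) (hb : L b = 0) (hJ : a.1 * b.2 - a.2 * b.1 ≠ 0) : L = 0 := by
  have h : ∀ x : ℂ × ℂ, L x = x.1 * L (1, 0) + x.2 * L (0, 1) := by
    intro x
    have h1 : x = x.1 • ((1 : ℂ), (0 : ℂ)) + x.2 • ((0 : ℂ), (1 : ℂ)) := by ext <;> simp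
    conv_lhs => rw [h1]
    rw [map_add, map_smul, map_smul, smul_eq_mul, smul_eq_mul]
  rw [h] at ha hb
  have e1 : L (1, 0) = 0 := by
    have : (a.1 * b.2 - a.2 * b.1) * L (1, 0) = 0 := by linear_combination b.2 * ha - a.2 * hb
    exact (mul_eq_zero.1 this).resolve_left hJ
  have e2 : L (0, 1) = 0 := by
    have : (a.1 * b.2 - a.2 * b.1) * L (0, 1) = 0 := by linear_combination a.1 * hb - b.1 * ha
    exact (mul_eq_zero.1 this).resolve_left hJ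
  refine ContinuousLinearMap.ext fun x => ?_
  rw [h, e1, e2]
  simp

/-- the derivative of `f ∘ c`, where `f` vanishes along `c` -/
theorem ld_chain {f : ℂ × ℂ → ℂ} {c : ℂ → ℂ × ℂ} {t : ℂ} (hf : AnalyticAt ℂ f (c t)) (hc : AnalyticAt ℂ c t) (h : ∀ᶠ s in 𝓝 t, f (c s) = 0) :
    fderiv ℂ f (c t) (deriv c t) = 0 := by
  have h1 : HasDerivAt (fun s => f (c s)) (fderiv ℂ f (c t) (deriv c t)) t :=
    hf.differentiableAt.hasFDerivAt.comp_hasDerivAt t hc.differentiableAt.hasDerivAt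
  have h2 : HasDerivAt (fun s => f (c s)) 0 t := (hasDerivAt_const t (0 : ℂ)).congr_of_eventuallyEq h
  exact h1.unique h2

theorem ld_ext {f : ℂ × ℂ → ℂ} {c : ℂ → ℂ × ℂ} (hf : AnalyticAt ℂ f (c 0)) (hc : AnalyticAt ℂ c 0) (h : ∃ᶠ t in 𝓝[≠] (0 : ℂ), f (c t) = 0) :
    ∀ᶠ t in 𝓝 (0 : ℂ), f (c t) = 0 := by
  have h1 : AnalyticAt ℂ (fun t => f (c t)) 0 := AnalyticAt.fun_comp hf hc
  exact h1.frequently_zero_iff_eventually_zero.1 h

namespace LdK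

variable {v : ℂ × ℂ → ℂ × ℂ} {c : ℂ → ℂ × ℂ}

theorem part0 (hc : AnalyticAt ℂ c 0) (hc0 : c 0 = 0)
    (hJ : ∀ᶠ t in 𝓝[≠] (0 : ℂ), (v (c t)).1 * (deriv c t).2 - (v (c t)).2 * (deriv c t).1 ≠ 0) {f : ℂ × ℂ → ℂ}
    (h1 : AnalyticAt ℂ f 0 ∧ ∀ᶠ t in 𝓝 (0 : ℂ), f (c t) = 0) (h2 : ∀ᶠ t in 𝓝 (0 : ℂ), ldD v f (c t) = 0) (e : ℂ × ℂ) :
    AnalyticAt ℂ (fun p => fderiv ℂ f p e) 0 ∧ ∀ᶠ t in 𝓝 (0 : ℂ), (fun p => fderiv ℂ f p e) (c t) = 0 := by
  have hA : AnalyticAt ℂ (fun p => fderiv ℂ f p e) 0 := ld_clm h1.1.fderiv analyticAt_const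
  have hct : Tendsto c (𝓝 0) (𝓝 0) := by
    have := hc.continuousAt.tendsto
    rwa [hc0] at this
  refine ⟨hA, ld_ext (by rw [hc0]; exact hA) hc (Eventually.frequently ?_)⟩
  have e1 : ∀ᶠ t in 𝓝[≠] (0 : ℂ), AnalyticAt ℂ f (c t) := (hct.eventually h1.1.eventually_analyticAt).filter_mono nhdsWithin_le_nhds
  have e2 : ∀ᶠ t in 𝓝[≠] (0 : ℂ), AnalyticAt ℂ c t := hc.eventually_analyticAt.filter_mono nhdsWithin_le_nhds
  have e3 : ∀ᶠ t in 𝓝[≠] (0 : ℂ), ∀ᶠ s in 𝓝 t, f (c s) = 0 := (eventually_eventually_nhds.2 h1.2).filter_mono nhdsWithin_le_nhds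
  have e4 : ∀ᶠ t in 𝓝[≠] (0 : ℂ), ldD v f (c t) = 0 := h2.filter_mono nhdsWithin_le_nhds
  filter_upwards [e1, e2, e3, e4, hJ] with t a1 a2 a3 a4 a5
  have h3 := ld_chain a1 a2 a3
  have h4 : fderiv ℂ f (c t) (v (c t)) = 0 := a4
  show fderiv ℂ f (c t) e = 0
  rw [ld_lin h4 h3 a5]
  rfl

theorem part (hc : AnalyticAt ℂ c 0) (hc0 : c 0 = 0) (hv : AnalyticAt ℂ v 0)
    (hJ : ∀ᶠ t in 𝓝[≠] (0 : ℂ), (v (c t)).1 * (deriv c t).2 - (v (c t)).2 * (deriv c t).1 ≠ 0) {j : ℕ} :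
    ∀ {f : ℂ × ℂ → ℂ}, LdK v c (j + 1) f → ∀ e : ℂ × ℂ, LdK v c j fun p => fderiv ℂ f p e := by
  have hct : Tendsto c (𝓝 0) (𝓝 0) := by
    have := hc.continuousAt.tendsto
    rwa [hc0] at this
  induction j with
  | zero => exact fun h e => part0 hc hc0 hJ h.1 h.2.2 e
  | succ j ih =>
    intro f h e
    refine ⟨part0 hc hc0 hJ h.1 h.2.base.2 e, ?_⟩
    have hf := h.1.1
    have k1 : LdK v c j fun p => fderiv ℂ (ldD v f) p e := ih h.2 e
    have k2 := ih h.mono ((1 : ℂ), (0 : ℂ))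
    have k3 := ih h.mono ((0 : ℂ), (1 : ℂ))
    have hve : AnalyticAt ℂ (fun p => fderiv ℂ v p e) 0 := ld_clm hv.fderiv analyticAt_const
    have a1 : AnalyticAt ℂ (fun p => -(fderiv ℂ v p e).1) 0 := (AnalyticAt.fun_comp (g := fun x : ℂ × ℂ => x.1) analyticAt_fst hve).neg
    have a2 : AnalyticAt ℂ (fun p => -(fderiv ℂ v p e).2) 0 := (AnalyticAt.fun_comp (g := fun x : ℂ × ℂ => x.2) analyticAt_snd hve).neg
    refine (add hct k1 (add hct (mul hct hv a1 k2) (mul hct hv a2 k3))).congr hct ?_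
    filter_upwards [hf.eventually_analyticAt, hv.eventually_analyticAt] with p h1 h2
    have d2 : HasFDerivAt (fderiv ℂ f) (fderiv ℂ (fderiv ℂ f) p) p := h1.fderiv.differentiableAt.hasFDerivAt
    have e1 : fderiv ℂ (ldD v f) p e = fderiv ℂ f p (fderiv ℂ v p e) + fderiv ℂ (fderiv ℂ f) p e (v p) := by
      have := (d2.clm_apply h2.differentiableAt.hasFDerivAt).fderiv
      unfold ldD
      rw [this]
      rfl
    have e2 : ldD v (fun p => fderiv ℂ f p e) p = fderiv ℂ (fderiv ℂ f) p (v p) e := by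
      have := (d2.clm_apply (hasFDerivAt_const e p)).fderiv
      unfold ldD
      rw [this]
      simp
    have e3 : fderiv ℂ (fderiv ℂ f) p (v p) e = fderiv ℂ (fderiv ℂ f) p e (v p) := by
      have hs : IsSymmSndFDerivAt ℂ f p := (h1.contDiffAt (n := 2)).isSymmSndFDerivAt (by simp)
      exact hs.eq (v p) e
    have e4 : fderiv ℂ f p (fderiv ℂ v p e) = (fderiv ℂ v p e).1 * fderiv ℂ f p (1, 0) + (fderiv ℂ v p e).2 * fderiv ℂ f p (0, 1) := by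
      generalize fderiv ℂ v p e = x
      have h1 : x = x.1 • ((1 : ℂ), (0 : ℂ)) + x.2 • ((0 : ℂ), (1 : ℂ)) := by ext <;> simp
      conv_lhs => rw [h1]
      rw [map_add, map_smul, map_smul, smul_eq_mul, smul_eq_mul]
    rw [e2, e3, e1, e4]
    ring

end LdK

/-- a class of functions with zeros at `0` and closed under derivatives -/
theorem ld_taylor {S : (ℂ × ℂ → ℂ) → Prop} (h1 : ∀ f, S f → AnalyticAt ℂ f 0) (h2 : ∀ f, S f → f 0 = 0)
    (h3 : ∀ f, S f → ∀ e, S fun p => fderiv ℂ f p e) {f : ℂ × ℂ → ℂ} (hf : S f) : ∀ᶠ p in 𝓝 (0 : ℂ × ℂ), f p = 0 := by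
  have key : ∀ (n : ℕ) (f : ℂ × ℂ → ℂ), S f → ∀ m, iteratedFDeriv ℂ n f 0 m = 0 := by
    intro n
    induction n with
    | zero =>
      intro f hf m
      rw [iteratedFDeriv_zero_apply]
      exact h2 f hf
    | succ n ih =>
      intro f hf m
      rw [iteratedFDeriv_succ_apply_right]
      have h := ih (fun p => fderiv ℂ f p (m (Fin.last n))) (h3 f hf _) (Fin.init m)
      have h4 : (fun p => fderiv ℂ f p (m (Fin.last n))) = (ContinuousLinearMap.apply ℂ ℂ (m (Fin.last n))) ∘ (fderiv ℂ f) := rfl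
      rw [h4, ContinuousLinearMap.iteratedFDeriv_comp_left _ (h1 f hf).fderiv.contDiffAt (i := n) (n := ⊤) le_top] at h
      exact h
  obtain ⟨p, r, hp⟩ := h1 f hf
  have hball : Metric.eball (0 : ℂ × ℂ) r ∈ 𝓝 (0 : ℂ × ℂ) := Metric.eball_mem_nhds 0 hp.r_pos
  filter_upwards [hball] with y hy
  have h4 := hp.hasSum_iteratedFDeriv hy
  have h5 : (fun n : ℕ => ((n.factorial : ℂ))⁻¹ • iteratedFDeriv ℂ n f 0 fun _ => y) = fun _ => 0 := by
    funext n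
    rw [key n f hf, smul_zero]
  rw [h5, zero_add] at h4
  exact h4.unique hasSum_zero

/-- the iterated derivatives along `v` -/
theorem ldD_iter_analyticAt {v : ℂ × ℂ → ℂ × ℂ} {f : ℂ × ℂ → ℂ} {p : ℂ × ℂ} (hv : AnalyticAt ℂ v p) (hf : AnalyticAt ℂ f p) (i : ℕ) :
    AnalyticAt ℂ ((ldD v)^[i] f) p := by
  induction i with
  | zero => exact hf
  | succ i ih =>
    rw [Function.iterate_succ_apply']
    exact ldD_analyticAt hv ih

theorem LdK.of_iter {v : ℂ × ℂ → ℂ × ℂ} {c : ℂ → ℂ × ℂ} {j : ℕ} :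
    ∀ {f : ℂ × ℂ → ℂ}, (∀ i : ℕ, AnalyticAt ℂ ((ldD v)^[i] f) 0 ∧ ∀ᶠ t in 𝓝 (0 : ℂ), (ldD v)^[i] f (c t) = 0) → LdK v c j f := by
  induction j with
  | zero => exact fun h => h 0
  | succ j ih => exact fun h => ⟨h 0, ih fun i => h (i + 1)⟩

/-- a curve which is not constant -/
theorem ld_deriv_ne {γ : ℂ → ℂ × ℂ} (hγ : AnalyticAt ℂ γ 0) (h : ∃ᶠ t in 𝓝 (0 : ℂ), γ t ≠ γ 0) : ∀ᶠ t in 𝓝[≠] (0 : ℂ), deriv γ t ≠ 0 := by
  refine (hγ.deriv.eventually_eq_zero_or_eventually_ne_zero).resolve_left fun h0 => ?_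
  obtain ⟨δ, hδ, hb⟩ := Metric.eventually_nhds_iff_ball.1 (h0.and hγ.eventually_analyticAt)
  refine h (Metric.eventually_nhds_iff_ball.2 ⟨δ, hδ, fun t ht => ?_⟩)
  rw [not_not]
  exact Metric.isOpen_ball.is_const_of_deriv_eq_zero (convex_ball (0 : ℂ) δ).isPreconnected
    (fun x hx => (hb x hx).2.differentiableAt.differentiableWithinAt) (fun x hx => (hb x hx).1) ht (Metric.mem_ball_self hδ)

/-- the derivatives of `q` along `v` vanish at an invariant point -/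
theorem LeafIn.ldD_eq_zero {v : ℂ × ℂ → ℂ × ℂ} {q : ℂ × ℂ → ℂ} {p : ℂ × ℂ} (h : LeafIn v q p) (hv : AnalyticAt ℂ v p) (hq : AnalyticAt ℂ q p) (i : ℕ) :
    (ldD v)^[i] q p = 0 := by
  obtain ⟨γ, hγ, rfl, h1, h2⟩ := h
  have h3 := ld_deriv_ne hγ h2
  have key : ∀ᶠ t in 𝓝 (0 : ℂ), (ldD v)^[i] q (γ t) = 0 := by
    induction i with
    | zero => exact h1.mono fun t ht => ht.2
    | succ i ih =>
      have hA := ldD_iter_analyticAt hv hq i
      have hB := ldD_iter_analyticAt hv hq (i + 1)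
      refine ld_ext hB hγ (Eventually.frequently ?_)
      have e1 : ∀ᶠ t in 𝓝[≠] (0 : ℂ), AnalyticAt ℂ ((ldD v)^[i] q) (γ t) :=
        (hγ.continuousAt.eventually hA.eventually_analyticAt).filter_mono nhdsWithin_le_nhds
      have e2 : ∀ᶠ t in 𝓝[≠] (0 : ℂ), AnalyticAt ℂ γ t := hγ.eventually_analyticAt.filter_mono nhdsWithin_le_nhds
      have e3 : ∀ᶠ t in 𝓝[≠] (0 : ℂ), ∀ᶠ s in 𝓝 t, (ldD v)^[i] q (γ s) = 0 := (eventually_eventually_nhds.2 ih).filter_mono nhdsWithin_le_nhds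
      filter_upwards [e1, e2, e3, h3, h1.filter_mono nhdsWithin_le_nhds] with t a1 a2 a3 a4 a5
      have h4 := ld_chain a1 a2 a3
      rw [Function.iterate_succ_apply']
      show fderiv ℂ ((ldD v)^[i] q) (γ t) (v (γ t)) = 0
      generalize fderiv ℂ ((ldD v)^[i] q) (γ t) = L at h4 ⊢
      have h5 := a5.1
      generalize v (γ t) = w at h5 ⊢
      generalize deriv γ t = z at h4 h5 a4
      have f1 : w.1 • z = z.1 • w := by
        ext
        · simp [mul_comm]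
        · simp only [Prod.smul_snd, smul_eq_mul]
          rw [h5]; ring
      have f2 : w.2 • z = z.2 • w := by
        ext
        · simp only [Prod.smul_fst, smul_eq_mul]
          rw [← h5]; ring
        · simp [mul_comm]
      have g1 : z.1 * L w = 0 := by
        have := congrArg L f1
        rw [map_smul, map_smul, h4, smul_zero] at this
        exact this.symm
      have g2 : z.2 * L w = 0 := by
        have := congrArg L f2
        rw [map_smul, map_smul, h4, smul_zero] at this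
        exact this.symm
      rcases mul_eq_zero.1 g1 with g1 | g1
      · rcases mul_eq_zero.1 g2 with g2 | g2
        · exact absurd (Prod.ext g1 g2) a4
        · exact g2
      · exact g1
  exact key.self_of_nhds

theorem leaf_disc {v : ℂ × ℂ → ℂ × ℂ} (hv : AnalyticAt ℂ v 0) (hv0 : ∀ᶠ p in 𝓝 (0 : ℂ × ℂ), p ≠ 0 → v p ≠ 0) {q : ℂ × ℂ → ℂ} (hq : AnalyticAt ℂ q 0)
    (hq0 : ∃ᶠ p in 𝓝 (0 : ℂ × ℂ), q p ≠ 0) {T : ℂ × ℂ → Prop} (hT : ∃ᶠ p in 𝓝 (0 : ℂ × ℂ), p ≠ 0 ∧ T p ∧ LeafIn v q p) :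
    ∃ c : ℂ → ℂ × ℂ, AnalyticAt ℂ c 0 ∧ c 0 = 0 ∧
      (∀ᶠ t in 𝓝 (0 : ℂ), (v (c t)).1 * (deriv c t).2 = (v (c t)).2 * (deriv c t).1 ∧ q (c t) = 0) ∧ ∃ᶠ t in 𝓝 (0 : ℂ), c t ≠ 0 ∧ T (c t) := by
  have _ := hv0
  obtain ⟨n, hn⟩ := Pool.Agent.H17BP.exists_resN hq fun h => hq0 (h.mono fun p hp => not_not.2 hp)
  obtain ⟨r, d, hd1, hd2, hd3⟩ := Pool.Agent.E1.disc_cover n hn (W := Set.univ) univ_mem
  -- the point of the cover
  obtain ⟨i, z₀, hz₀, hz0, hfr⟩ : ∃ (i : Fin r) (z₀ : ℂ), z₀ ∈ Metric.closedBall (0 : ℂ) (1 / 2) ∧ d i z₀ = 0 ∧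
      ∃ᶠ z in 𝓝 z₀, d i z ≠ 0 ∧ T (d i z) ∧ LeafIn v q (d i z) := by
    by_contra hcon
    push Not at hcon
    have h1 : ∀ i : Fin r, ∀ᶠ p in 𝓝 (0 : ℂ × ℂ), ∀ z ∈ Metric.closedBall (0 : ℂ) (1 / 2), d i z = p → ¬ (p ≠ 0 ∧ T p ∧ LeafIn v q p) := by
      intro i
      refine (isCompact_closedBall (0 : ℂ) (1 / 2)).eventually_forall_of_forall_eventually fun z₀ hz₀ => ?_
      have hz1 : z₀ ∈ Metric.closedBall (0 : ℂ) 1 := Metric.closedBall_subset_closedBall (by norm_num) hz₀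
      have hcont : ContinuousAt (d i) z₀ := (hd1 i z₀ hz1).continuousAt
      by_cases h0 : d i z₀ = 0
      · have h2 := hcon i z₀ hz₀ h0
        have h3 : ∀ᶠ x : (ℂ × ℂ) × ℂ in 𝓝 ((0 : ℂ × ℂ), z₀), d i x.2 ≠ 0 → T (d i x.2) → ¬ LeafIn v q (d i x.2) :=
          continuousAt_snd.eventually (p := fun z => d i z ≠ 0 → T (d i z) → ¬ LeafIn v q (d i z)) h2
        filter_upwards [h3] with x hx he
        rw [← he]
        exact fun hh => hx hh.1 hh.2.1 hh.2.2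
      · have h3 : ContinuousAt (fun x : (ℂ × ℂ) × ℂ => d i x.2 - x.1) ((0 : ℂ × ℂ), z₀) :=
          (ContinuousAt.comp (f := fun x : (ℂ × ℂ) × ℂ => x.2) (g := d i) hcont continuousAt_snd).sub continuousAt_fst
        have h4 : ∀ᶠ x : (ℂ × ℂ) × ℂ in 𝓝 ((0 : ℂ × ℂ), z₀), d i x.2 - x.1 ≠ 0 := h3.eventually_ne (by simpa using h0)
        filter_upwards [h4] with x hx he
        exact absurd (sub_eq_zero.2 he) hx
    refine hT ?_
    filter_upwards [eventually_all.2 h1, hd3] with p a1 a2 a3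
    have hqp : q p = 0 := by
      obtain ⟨γ, _, rfl, h3, _⟩ := a3.2.2
      exact h3.self_of_nhds.2
    obtain ⟨i, z, hz, he⟩ := a2 hqp
    exact a1 i z hz he a3
  have hz1 : z₀ ∈ Metric.closedBall (0 : ℂ) 1 := Metric.closedBall_subset_closedBall (by norm_num) hz₀
  have hsh : Tendsto (fun t : ℂ => z₀ + t) (𝓝 0) (𝓝 z₀) := by
    have : ContinuousAt (fun t : ℂ => z₀ + t) 0 := by fun_prop
    simpa using this.tendsto
  set c : ℂ → ℂ × ℂ := fun t => d i (z₀ + t) with hcdef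
  have hc0 : c 0 = 0 := by rw [hcdef]; simpa using hz0
  have hc : AnalyticAt ℂ c 0 := by
    refine AnalyticAt.fun_comp (g := d i) (f := fun t : ℂ => z₀ + t) ?_ (analyticAt_const.add analyticAt_id)
    rw [add_zero]
    exact hd1 i z₀ hz1
  have hct : Tendsto c (𝓝 0) (𝓝 0) := by
    have := hc.continuousAt.tendsto
    rwa [hc0] at this
  have hqc : ∀ᶠ t in 𝓝 (0 : ℂ), q (c t) = 0 := by
    have h1 : ∀ᶠ t in 𝓝 (0 : ℂ), t ∈ Metric.closedBall (0 : ℂ) (1 / 2) := Metric.closedBall_mem_nhds _ (by norm_num)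
    filter_upwards [h1] with t ht
    refine (hd2 i (z₀ + t) ?_).2
    rw [mem_closedBall_zero_iff] at hz₀ ht ⊢
    exact (norm_add_le _ _).trans (by linarith)
  have hfr' : ∃ᶠ t in 𝓝 (0 : ℂ), c t ≠ 0 ∧ T (c t) ∧ LeafIn v q (c t) := by
    intro hcon
    apply hfr
    have h1 : Tendsto (fun z : ℂ => z - z₀) (𝓝 z₀) (𝓝 0) := by
      have : ContinuousAt (fun z : ℂ => z - z₀) z₀ := by fun_prop
      simpa using this.tendsto
    filter_upwards [h1.eventually hcon] with z hz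
    simpa [hcdef] using hz
  have hne : ∃ᶠ t in 𝓝[≠] (0 : ℂ), c t ≠ 0 ∧ T (c t) ∧ LeafIn v q (c t) := by
    rw [frequently_nhdsWithin_iff]
    refine hfr'.mono fun t ht => ⟨ht, ?_⟩
    rintro rfl
    exact ht.1 hc0
  refine ⟨c, hc, hc0, ?_, hfr'.mono fun t ht => ⟨ht.1, ht.2.1⟩⟩
  -- tangency
  have hvc : AnalyticAt ℂ (fun t => v (c t)) 0 := AnalyticAt.fun_comp (by rw [hc0]; exact hv) hc
  have hJa : AnalyticAt ℂ (fun t => (v (c t)).1 * (deriv c t).2 - (v (c t)).2 * (deriv c t).1) 0 := by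
    have a1 := AnalyticAt.fun_comp (g := fun x : ℂ × ℂ => x.1) (f := fun t => v (c t)) analyticAt_fst hvc
    have a2 := AnalyticAt.fun_comp (g := fun x : ℂ × ℂ => x.2) (f := fun t => v (c t)) analyticAt_snd hvc
    have b1 := AnalyticAt.fun_comp (g := fun x : ℂ × ℂ => x.1) (f := fun t => deriv c t) analyticAt_fst hc.deriv
    have b2 := AnalyticAt.fun_comp (g := fun x : ℂ × ℂ => x.2) (f := fun t => deriv c t) analyticAt_snd hc.deriv
    exact (a1.mul b2).sub (a2.mul b1)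
  rcases hJa.eventually_eq_zero_or_eventually_ne_zero with hJ | hJ
  · filter_upwards [hJ, hqc] with t h1 h2
    exact ⟨sub_eq_zero.1 h1, h2⟩
  · exfalso
    have hK : ∀ j, LdK v c j q := by
      intro j
      refine LdK.of_iter fun i => ⟨ldD_iter_analyticAt hv hq i, ?_⟩
      refine ld_ext (by rw [hc0]; exact ldD_iter_analyticAt hv hq i) hc ?_
      have e1 : ∀ᶠ t in 𝓝[≠] (0 : ℂ), AnalyticAt ℂ v (c t) := (hct.eventually hv.eventually_analyticAt).filter_mono nhdsWithin_le_nhds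
      have e2 : ∀ᶠ t in 𝓝[≠] (0 : ℂ), AnalyticAt ℂ q (c t) := (hct.eventually hq.eventually_analyticAt).filter_mono nhdsWithin_le_nhds
      exact (hne.and_eventually (e1.and e2)).mono fun t ht => ht.1.2.2.ldD_eq_zero ht.2.1 ht.2.2 i
    have h0 : ∀ᶠ p in 𝓝 (0 : ℂ × ℂ), q p = 0 := by
      refine ld_taylor (S := fun f => ∀ j, LdK v c j f) (fun f hf => (hf 0).1) (fun f hf => ?_)
        (fun f hf e j => LdK.part hc hc0 hv hJ (hf (j + 1)) e) hK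
      have := (hf 0).2.self_of_nhds
      rwa [hc0] at this
    exact hq0 (h0.mono fun p hp => not_not.2 hp)

end Pool.Agent.MQ
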