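import Pool.Agent.MQ.CDefs

/-!
# MQ/LeafReg: the leaves of a regular foliation in the zero set of a function
-/

set_option autoImplicit false

open Topology Filter MvPolynomial Asymptotics

noncomputable section

namespace Pool.Agent.MQ

namespace LeafReg

theorem deriv_fst {γ : ℂ → ℂ × ℂ} {t : ℂ} (h : AnalyticAt ℂ γ t) : deriv (fun s => (γ s).1) t = (deriv γ t).1 := by
  have h1 : HasDerivAt γ (deriv γ t) t := h.differentiableAt.hasDerivAt
  exact ((ContinuousLinearMap.fst ℂ ℂ ℂ).hasFDerivAt.comp_hasDerivAt t h1).deriv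

/-- a function which vanishes on a leaf through `p` vanishes on the whole line -/
theorem zero_of_leaf {q : ℂ × ℂ → ℂ} {ρ : ℝ} (hq : ∀ p ∈ Metric.ball (0 : ℂ × ℂ) ρ, AnalyticAt ℂ q p) {p : ℂ × ℂ} (hp : p ∈ Metric.ball (0 : ℂ × ℂ) ρ)
    (h : LeafIn (fun _ => (0, 1)) q p) : ∀ y ∈ Metric.ball (0 : ℂ) ρ, q (p.1, y) = 0 := by
  obtain ⟨γ, hγ, h0, he, hf⟩ := h
  have hp1 : p.1 ∈ Metric.ball (0 : ℂ) ρ := by
    rw [mem_ball_zero_iff] at hp ⊢
    exact lt_of_le_of_lt (norm_fst_le p) hp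
  have hp2 : p.2 ∈ Metric.ball (0 : ℂ) ρ := by
    rw [mem_ball_zero_iff] at hp ⊢
    exact lt_of_le_of_lt (norm_snd_le p) hp
  have hg : AnalyticAt ℂ (fun t => (γ t).1) 0 := (ContinuousLinearMap.fst ℂ ℂ ℂ).analyticAt _ |>.comp hγ
  have hk : AnalyticAt ℂ (fun t => (γ t).2) 0 := (ContinuousLinearMap.snd ℂ ℂ ℂ).analyticAt _ |>.comp hγ
  have hd : ∀ᶠ t in 𝓝 (0 : ℂ), deriv (fun s => (γ s).1) t = 0 := by
    filter_upwards [he, hγ.eventually_analyticAt] with t ht hat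
    rw [deriv_fst hat]
    have := ht.1
    simpa using this.symm
  have hc : ∀ᶠ t in 𝓝 (0 : ℂ), (γ t).1 = p.1 := by
    obtain ⟨r, hr, hall⟩ := Metric.eventually_nhds_iff_ball.1 (hd.and hg.eventually_analyticAt)
    refine Metric.eventually_nhds_iff_ball.2 ⟨r, hr, fun t ht => ?_⟩
    have h1 := Metric.isOpen_ball.is_const_of_deriv_eq_zero (f := fun s => (γ s).1) (convex_ball (0 : ℂ) r).isPreconnected
      (fun s hs => (hall s hs).2.differentiableAt.differentiableWithinAt) (fun s hs => (hall s hs).1) ht (Metric.mem_ball_self hr)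
    have h2 : (γ t).1 = (γ 0).1 := h1
    rw [h2, h0]
  have hk2 : 𝓝 p.2 ≤ map (fun t => (γ t).2) (𝓝 0) := by
    rcases hk.eventually_constant_or_nhds_le_map_nhds with h1 | h1
    · exfalso
      refine hf ?_
      filter_upwards [hc, h1] with t a b
      simp only [not_not]
      rw [h0] at b
      exact Prod.ext a b
    · rwa [h0] at h1
  have hz : ∀ᶠ y in 𝓝 p.2, q (p.1, y) = 0 := by
    refine hk2 ?_
    change ∀ᶠ t in 𝓝 (0 : ℂ), q (p.1, (γ t).2) = 0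
    filter_upwards [he, hc] with t a b
    rw [← b]
    exact a.2
  have ha : AnalyticOnNhd ℂ (fun y => q (p.1, y)) (Metric.ball 0 ρ) := by
    intro y hy
    have h1 : AnalyticAt ℂ (fun y : ℂ => (p.1, y)) y := analyticAt_const.prod analyticAt_id
    refine AnalyticAt.fun_comp (f := fun y : ℂ => (p.1, y)) ?_ h1
    refine hq _ ?_
    rw [mem_ball_zero_iff] at hp1 hy ⊢
    exact max_lt hp1 hy
  exact fun y hy => ha.eqOn_zero_of_preconnected_of_eventuallyEq_zero (convex_ball _ _).isPreconnected hp2 hz hy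

theorem leaf_of_zero {q : ℂ × ℂ → ℂ} {ρ : ℝ} {p : ℂ × ℂ} (hp : p ∈ Metric.ball (0 : ℂ × ℂ) ρ)
    (h : ∀ y ∈ Metric.ball (0 : ℂ) ρ, q (p.1, y) = 0) : LeafIn (fun _ => (0, 1)) q p := by
  have hp2 : p.2 ∈ Metric.ball (0 : ℂ) ρ := by
    rw [mem_ball_zero_iff] at hp ⊢
    exact lt_of_le_of_lt (norm_snd_le p) hp
  have hd : ∀ t : ℂ, HasDerivAt (fun t : ℂ => (p.1, p.2 + t)) ((0 : ℂ), (1 : ℂ)) t := fun t =>
    (hasDerivAt_const t p.1).prodMk ((hasDerivAt_id t).const_add p.2)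
  refine ⟨fun t => (p.1, p.2 + t), analyticAt_const.prod (analyticAt_const.add analyticAt_id), by simp, ?_, ?_⟩
  · have h1 : ∀ᶠ t in 𝓝 (0 : ℂ), p.2 + t ∈ Metric.ball (0 : ℂ) ρ := by
      have hcont : Continuous fun t : ℂ => p.2 + t := by fun_prop
      have h2 := hcont.tendsto 0
      simp only [add_zero] at h2
      exact h2.eventually (Metric.isOpen_ball.mem_nhds hp2)
    filter_upwards [h1] with t ht
    rw [(hd t).deriv]
    exact ⟨by simp, h _ ht⟩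
  · intro hcon
    have h1 : ∀ᶠ t : ℂ in 𝓝[≠] 0, t ≠ 0 := self_mem_nhdsWithin
    have h2 : ∀ᶠ t : ℂ in 𝓝[≠] 0, ¬ ((p.1, p.2 + t) ≠ p) := nhdsWithin_le_nhds hcon
    obtain ⟨t, ht1, ht2⟩ := (h2.and h1).exists
    apply ht1
    intro he
    have := congrArg Prod.snd he
    simp at this
    exact ht2 this

end LeafReg

open LeafReg

/-- **Module C2.** -/
theorem leaf_regular {q : ℂ × ℂ → ℂ} (hq : AnalyticAt ℂ q 0) (hq0 : ∃ᶠ p in 𝓝 (0 : ℂ × ℂ), q p ≠ 0) :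
    (∀ᶠ p in 𝓝 (0 : ℂ × ℂ), ¬ LeafIn (fun _ => (0, 1)) q p) ∨ ∀ᶠ p in 𝓝 (0 : ℂ × ℂ), (LeafIn (fun _ => (0, 1)) q p ↔ p.1 = 0) := by
  obtain ⟨ρ, hρ, hball⟩ := Metric.eventually_nhds_iff_ball.1 hq.eventually_analyticAt
  have hiff : ∀ p ∈ Metric.ball (0 : ℂ × ℂ) ρ, (LeafIn (fun _ => (0, 1)) q p ↔ ∀ y ∈ Metric.ball (0 : ℂ) ρ, q (p.1, y) = 0) :=
    fun p hp => ⟨zero_of_leaf hball hp, leaf_of_zero hp⟩
  have hmem : ∀ᶠ p in 𝓝 (0 : ℂ × ℂ), p ∈ Metric.ball (0 : ℂ × ℂ) ρ := Metric.ball_mem_nhds _ hρ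
  -- other lines are not contained in the zero set
  have hiso : ∀ᶠ x in 𝓝[≠] (0 : ℂ), ¬ ∀ y ∈ Metric.ball (0 : ℂ) ρ, q (x, y) = 0 := by
    by_contra hcon
    have hfr : ∃ᶠ x in 𝓝[≠] (0 : ℂ), ∀ y ∈ Metric.ball (0 : ℂ) ρ, q (x, y) = 0 := by
      rw [Filter.not_eventually] at hcon
      exact hcon.mono fun x hx => not_not.1 hx
    apply hq0
    filter_upwards [hmem] with p hp
    rw [not_not]
    have hp1 : p.1 ∈ Metric.ball (0 : ℂ) ρ := by
      rw [mem_ball_zero_iff] at hp ⊢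
      exact lt_of_le_of_lt (norm_fst_le p) hp
    have hp2 : p.2 ∈ Metric.ball (0 : ℂ) ρ := by
      rw [mem_ball_zero_iff] at hp ⊢
      exact lt_of_le_of_lt (norm_snd_le p) hp
    have ha : AnalyticOnNhd ℂ (fun x => q (x, p.2)) (Metric.ball 0 ρ) := by
      intro x hx
      have h1 : AnalyticAt ℂ (fun x : ℂ => (x, p.2)) x := analyticAt_id.prod analyticAt_const
      refine AnalyticAt.fun_comp (f := fun x : ℂ => (x, p.2)) ?_ h1
      refine hball _ ?_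
      rw [mem_ball_zero_iff] at hp2 hx ⊢
      exact max_lt hx hp2
    exact ha.eqOn_zero_of_preconnected_of_frequently_eq_zero (convex_ball _ _).isPreconnected (Metric.mem_ball_self hρ)
      (hfr.mono fun x hx => hx _ hp2) hp1
  rw [eventually_nhdsWithin_iff] at hiso
  have hfst : Tendsto (fun p : ℂ × ℂ => p.1) (𝓝 0) (𝓝 (0 : ℂ)) := continuous_fst.tendsto' _ _ rfl
  have hiso2 : ∀ᶠ p : ℂ × ℂ in 𝓝 0, p.1 ≠ 0 → ¬ ∀ y ∈ Metric.ball (0 : ℂ) ρ, q (p.1, y) = 0 := by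
    filter_upwards [hfst.eventually hiso] with p hp h1 using hp h1
  by_cases h0 : ∀ y ∈ Metric.ball (0 : ℂ) ρ, q (0, y) = 0
  · right
    filter_upwards [hmem, hiso2] with p hp h1
    rw [hiff p hp]
    constructor
    · intro h2
      by_contra h3
      exact h1 h3 h2
    · intro h2
      rw [h2]
      exact h0
  · left
    filter_upwards [hmem, hiso2] with p hp h1
    rw [hiff p hp]
    by_cases h2 : p.1 = 0
    · rw [h2]; exact h0
    · exact h1 h2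

end Pool.Agent.MQ
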