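import Mathlib

/-!
# MQ NoDisc: the invariant discs through a node or a saddle-node with two separatrices

PROOF.  Write `x = t ^ p u`, `y = t ^ q w` with units `u`, `w`; compare the orders (and the leading coefficients) of the two sides of the equation.
-/

set_option autoImplicit false

open Topology Filter

noncomputable section

namespace Pool.Agent.MQ

/-- the order of a germ and of its derivative -/
private theorem nd_order {x : ℂ → ℂ} (hx : AnalyticAt ℂ x 0) (hx0 : x 0 = 0) (hne : ¬ ∀ᶠ t in 𝓝 (0 : ℂ), x t = 0) :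
    ∃ (p : ℕ) (u : ℂ → ℂ), 1 ≤ p ∧ AnalyticAt ℂ u 0 ∧ u 0 ≠ 0 ∧ (∀ᶠ t in 𝓝 (0 : ℂ), x t = t ^ p * u t) ∧
      ∀ᶠ t in 𝓝 (0 : ℂ), t * deriv x t = t ^ p * (p * u t + t * deriv u t) := by
  obtain ⟨p, u, hu, hu0, h⟩ := hx.exists_eventuallyEq_pow_smul_nonzero_iff.2 hne
  have h' : ∀ᶠ t in 𝓝 (0 : ℂ), x t = t ^ p * u t := by
    filter_upwards [h] with t ht
    simpa using ht
  have hp : 1 ≤ p := by
    rcases Nat.eq_zero_or_pos p with h0 | h0
    · subst h0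
      have := h'.self_of_nhds
      rw [hx0] at this
      simp at this
      exact absurd this.symm hu0
    · exact h0
  refine ⟨p, u, hp, hu, hu0, h', ?_⟩
  filter_upwards [h'.eventually_nhds, hu.eventually_analyticAt] with t ht hut
  have e : x =ᶠ[𝓝 t] fun s => s ^ p * u s := ht
  have hd : HasDerivAt (fun s : ℂ => s ^ p * u s) (p * t ^ (p - 1) * u t + t ^ p * deriv u t) t :=
    (hasDerivAt_pow p t).mul hut.differentiableAt.hasDerivAt
  rw [e.deriv_eq, hd.deriv]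
  obtain ⟨n, rfl⟩ : ∃ n, p = n + 1 := ⟨p - 1, by omega⟩
  simp only [Nat.add_sub_cancel]
  ring

/-- the equation for the units -/
private theorem nd_unit {k : ℕ} {a b : ℂ × ℂ → ℂ} (ha : AnalyticAt ℂ a 0) (hb : AnalyticAt ℂ b 0)
    {c : ℂ → ℂ × ℂ} (hc : AnalyticAt ℂ c 0) (hc0 : c 0 = 0)
    (ht : ∀ᶠ t in 𝓝 (0 : ℂ), (c t).1 ^ (k + 1) * a (c t) * (deriv c t).2 = (c t).2 * b (c t) * (deriv c t).1)
    (h1 : ¬ ∀ᶠ t in 𝓝 (0 : ℂ), (c t).1 = 0) (h2 : ¬ ∀ᶠ t in 𝓝 (0 : ℂ), (c t).2 = 0) :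
    ∃ (p q : ℕ) (u w : ℂ), 1 ≤ p ∧ 1 ≤ q ∧ u ≠ 0 ∧ w ≠ 0 ∧ (0 : ℂ) ^ (k * p) * u ^ (k + 1) * (q * w) * a 0 = w * (p * u) * b 0 := by
  have hc1 : AnalyticAt ℂ (fun t => (c t).1) 0 := analyticAt_fst.fun_comp hc
  have hc2 : AnalyticAt ℂ (fun t => (c t).2) 0 := analyticAt_snd.fun_comp hc
  obtain ⟨p, u, hp, hu, hu0, hxu, hxd⟩ := nd_order hc1 (by simp [hc0]) h1
  obtain ⟨q, w, hq, hw, hw0, hyw, hyd⟩ := nd_order hc2 (by simp [hc0]) h2
  refine ⟨p, q, u 0, w 0, hp, hq, hu0, hw0, ?_⟩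
  have hac : AnalyticAt ℂ (fun t => a (c t)) 0 := by
    refine AnalyticAt.fun_comp ?_ hc
    rw [hc0]; exact ha
  have hbc : AnalyticAt ℂ (fun t => b (c t)) 0 := by
    refine AnalyticAt.fun_comp ?_ hc
    rw [hc0]; exact hb
  have key : ∀ᶠ t in 𝓝[≠] (0 : ℂ), t ^ (k * p) * u t ^ (k + 1) * (q * w t + t * deriv w t) * a (c t) =
      w t * (p * u t + t * deriv u t) * b (c t) := by
    have hall := ht.and (hxu.and (hxd.and (hyw.and (hyd.and hc.eventually_analyticAt))))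
    filter_upwards [hall.filter_mono nhdsWithin_le_nhds, self_mem_nhdsWithin] with t ⟨e, e1, e2, e3, e4, han⟩ hne
    have hne : t ≠ 0 := hne
    have d1 : deriv (fun s => (c s).1) t = (deriv c t).1 := by
      have := (hasFDerivAt_fst (𝕜 := ℂ) (p := c t)).comp_hasDerivAt t han.differentiableAt.hasDerivAt
      exact this.deriv
    have d2 : deriv (fun s => (c s).2) t = (deriv c t).2 := by
      have := (hasFDerivAt_snd (𝕜 := ℂ) (p := c t)).comp_hasDerivAt t han.differentiableAt.hasDerivAt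
      exact this.deriv
    rw [d1] at e2
    rw [d2] at e4
    have hpq : t ^ (p + q) ≠ 0 := pow_ne_zero _ hne
    have E : (c t).1 ^ (k + 1) * a (c t) * (t * (deriv c t).2) = (c t).2 * b (c t) * (t * (deriv c t).1) := by
      calc (c t).1 ^ (k + 1) * a (c t) * (t * (deriv c t).2) = t * ((c t).1 ^ (k + 1) * a (c t) * (deriv c t).2) := by ring
        _ = t * ((c t).2 * b (c t) * (deriv c t).1) := by rw [e]
        _ = _ := by ring
    rw [e2, e4] at E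
    have E' : (t ^ p * u t) ^ (k + 1) * a (c t) * (t ^ q * (q * w t + t * deriv w t)) =
        (t ^ q * w t) * b (c t) * (t ^ p * (p * u t + t * deriv u t)) := by
      rw [← e1, ← e3]; exact E
    refine mul_left_cancel₀ hpq ?_
    calc t ^ (p + q) * (t ^ (k * p) * u t ^ (k + 1) * (q * w t + t * deriv w t) * a (c t)) =
        (t ^ p * u t) ^ (k + 1) * a (c t) * (t ^ q * (q * w t + t * deriv w t)) := by ring
      _ = (t ^ q * w t) * b (c t) * (t ^ p * (p * u t + t * deriv u t)) := E'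
      _ = t ^ (p + q) * (w t * (p * u t + t * deriv u t) * b (c t)) := by ring
  have cu := hu.continuousAt
  have cw := hw.continuousAt
  have cu' := hu.deriv.continuousAt
  have cw' := hw.deriv.continuousAt
  have ca : ContinuousAt (fun t => a (c t)) 0 := hac.continuousAt
  have cb : ContinuousAt (fun t => b (c t)) 0 := hbc.continuousAt
  have cid : ContinuousAt (fun t : ℂ => t) 0 := continuousAt_id
  have cL : ContinuousAt (fun t : ℂ => t ^ (k * p) * u t ^ (k + 1) * (q * w t + t * deriv w t) * a (c t)) 0 :=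
    (((cid.pow _).mul (cu.pow _)).mul ((continuousAt_const.mul cw).add (cid.mul cw'))).mul ca
  have cR : ContinuousAt (fun t : ℂ => w t * (p * u t + t * deriv u t) * b (c t)) 0 :=
    (cw.mul ((continuousAt_const.mul cu).add (cid.mul cu'))).mul cb
  have hL : Tendsto (fun t : ℂ => t ^ (k * p) * u t ^ (k + 1) * (q * w t + t * deriv w t) * a (c t)) (𝓝[≠] 0)
      (𝓝 ((0 : ℂ) ^ (k * p) * u 0 ^ (k + 1) * (q * w 0 + 0 * deriv w 0) * a (c 0))) := cL.tendsto.mono_left nhdsWithin_le_nhds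
  have hR : Tendsto (fun t : ℂ => w t * (p * u t + t * deriv u t) * b (c t)) (𝓝[≠] 0)
      (𝓝 (w 0 * (p * u 0 + 0 * deriv u 0) * b (c 0))) := cR.tendsto.mono_left nhdsWithin_le_nhds
  have := tendsto_nhds_unique_of_eventuallyEq hL hR key
  rw [hc0] at this
  simpa using this

theorem node_no {a b : ℂ × ℂ → ℂ} (ha : AnalyticAt ℂ a 0) (hb : AnalyticAt ℂ b 0) (ha0 : a 0 ≠ 0) (hb0 : b 0 ≠ 0)
    (hq : ∀ k l : ℕ, 1 ≤ k → 1 ≤ l → k * a 0 ≠ l * b 0) {c : ℂ → ℂ × ℂ} (hc : AnalyticAt ℂ c 0) (hc0 : c 0 = 0)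
    (ht : ∀ᶠ t in 𝓝 (0 : ℂ), (c t).1 * a (c t) * (deriv c t).2 = (c t).2 * b (c t) * (deriv c t).1) :
    (∀ᶠ t in 𝓝 (0 : ℂ), (c t).1 = 0) ∨ ∀ᶠ t in 𝓝 (0 : ℂ), (c t).2 = 0 := by
  by_contra hcon
  push Not at hcon
  obtain ⟨h1, h2⟩ := hcon
  have ht' : ∀ᶠ t in 𝓝 (0 : ℂ), (c t).1 ^ (0 + 1) * a (c t) * (deriv c t).2 = (c t).2 * b (c t) * (deriv c t).1 := by
    filter_upwards [ht] with t e
    simpa using e
  obtain ⟨p, q, u, w, hp, hq', hu, hw, e⟩ := nd_unit (k := 0) ha hb hc hc0 ht' (by simpa using h1) (by simpa using h2)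
  apply hq q p hq' hp
  have : u * w * (q * a 0) = u * w * (p * b 0) := by
    simp only [zero_mul, pow_zero, one_mul, zero_add, pow_one] at e
    linear_combination e
  exact mul_left_cancel₀ (mul_ne_zero hu hw) this

theorem saddle_no {k : ℕ} (hk : 1 ≤ k) {a b : ℂ × ℂ → ℂ} (ha : AnalyticAt ℂ a 0) (hb : AnalyticAt ℂ b 0) (ha0 : a 0 ≠ 0) (hb0 : b 0 ≠ 0)
    {c : ℂ → ℂ × ℂ} (hc : AnalyticAt ℂ c 0) (hc0 : c 0 = 0)
    (ht : ∀ᶠ t in 𝓝 (0 : ℂ), (c t).1 ^ (k + 1) * a (c t) * (deriv c t).2 = (c t).2 * b (c t) * (deriv c t).1) :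
    (∀ᶠ t in 𝓝 (0 : ℂ), (c t).1 = 0) ∨ ∀ᶠ t in 𝓝 (0 : ℂ), (c t).2 = 0 := by
  by_contra hcon
  push Not at hcon
  obtain ⟨h1, h2⟩ := hcon
  obtain ⟨p, q, u, w, hp, hq', hu, hw, e⟩ := nd_unit (k := k) ha hb hc hc0 ht (by simpa using h1) (by simpa using h2)
  have hkp : k * p ≠ 0 := by positivity
  rw [zero_pow hkp] at e
  simp only [zero_mul] at e
  have hp0 : (p : ℂ) ≠ 0 := by
    exact_mod_cast (by omega : p ≠ 0)
  exact (mul_ne_zero (mul_ne_zero hw (mul_ne_zero hp0 hu)) hb0) e.symm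

end Pool.Agent.MQ
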