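import Pool.Agent.MQ.InvL
import Pool.Agent.MQ.LeafReg
import Pool.Agent.MQ.LeafDisc
import Pool.Agent.MQ.NoDisc
import Pool.Agent.MQ.FormC
import Pool.Agent.MQ.LeafAxis
import Pool.Agent.MQ.AlgR
import Pool.Agent.H17EF.Alg
import Pool.Agent.H14.PP.Poly

/-!
# MQ ExC: the invariant part of a suitable algebraic curve and its local equations
-/

set_option autoImplicit false

open Topology Filter MvPolynomial Asymptotics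

noncomputable section

namespace Pool.Agent.MQ

open Pool.Agent.H36.BP (EN)
open Pool.Agent.H17BP (IsChart Pr Surface)
open Pool.Agent.H17EF (projVar coneE)

variable {M : ℕ} {P : Ideal (MvPolynomial (Fin (M + 1)) ℂ)} {FF : Set (EN M × EN M)}

/-- from the axes and the complement of the axes to a neighbourhood of `0` -/
theorem ev_cases {S : ℂ × ℂ → Prop} (h1 : ∀ᶠ p in 𝓝 (0 : ℂ × ℂ), p.1 ≠ 0 → p.2 ≠ 0 → S p) (h2 : ∀ᶠ t in 𝓝 (0 : ℂ), t ≠ 0 → S (0, t))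
    (h3 : ∀ᶠ t in 𝓝 (0 : ℂ), t ≠ 0 → S (t, 0)) : ∀ᶠ p in 𝓝 (0 : ℂ × ℂ), p ≠ 0 → S p := by
  have t1 : Tendsto (fun p : ℂ × ℂ => p.1) (𝓝 0) (𝓝 0) := (continuous_fst.tendsto (0 : ℂ × ℂ))
  have t2 : Tendsto (fun p : ℂ × ℂ => p.2) (𝓝 0) (𝓝 0) := (continuous_snd.tendsto (0 : ℂ × ℂ))
  filter_upwards [h1, t2.eventually h2, t1.eventually h3] with p g1 g2 g3 hp
  by_cases a1 : p.1 = 0
  · have a2 : p.2 ≠ 0 := fun h => hp (Prod.ext a1 h)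
    have a3 : p = (0, p.2) := Prod.ext a1 rfl
    rw [a3]
    exact g2 a2
  · by_cases a2 : p.2 = 0
    · have a3 : p = (p.1, 0) := Prod.ext rfl a2
      rw [a3]
      exact g3 a1
    · exact g1 a1 a2

/-- homogeneous polynomials and scalars -/
theorem eval_smul_hom {R : MvPolynomial (Fin (M + 1)) ℂ} {d : ℕ} (hR : R.IsHomogeneous d) (c : ℂ) (x : EN M) :
    eval (c • x).ofLp R = c ^ d * eval x.ofLp R := by
  have h : (c • x).ofLp = c • x.ofLp := rfl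
  rw [h]
  exact Pool.Agent.H17EF.eval_smul_form hR c x.ofLp

theorem NonAlgC.smul {c : ℂ → EN M} (h : NonAlgC P c) {a : ℂ} (ha : a ≠ 0) : NonAlgC P fun t => a • c t := by
  intro R d hR hRP
  refine (h R d hR hRP).mono fun t ht => ?_
  rw [eval_smul_hom hR]
  exact mul_ne_zero (pow_ne_zero _ ha) ht

theorem Spans.smul {σ : ℂ × ℂ → EN M} {v : ℂ × ℂ → ℂ × ℂ} (h : Spans FF σ v) (hσ : AnalyticAt ℂ σ 0) {a : ℂ} (ha : a ≠ 0) :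
    Spans FF (fun p => a • σ p) v := by
  filter_upwards [h, hσ.eventually_analyticAt] with p hp han w b c hc
  have e : fderiv ℂ (fun p => a • σ p) p w = a • fderiv ℂ σ p w := by
    rw [fderiv_fun_const_smul han.differentiableAt]
    rfl
  have e1 : (c • a • σ p, c • fderiv ℂ (fun p => a • σ p) p w + b • a • σ p) =
      ((c * a) • σ p, (c * a) • fderiv ℂ σ p w + (b * a) • σ p) := by
    rw [e, smul_smul, smul_smul, smul_smul]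
  rw [e1]
  exact hp w (b * a) (c * a) (mul_ne_zero hc ha)

/-- the assembly of the local equation from the axes and the complement of the axes -/
theorem inv_of_cases (hX : Surface (coneE P)) {σ : ℂ × ℂ → EN M} {τ : EN M → ℂ × ℂ} {v : ℂ × ℂ → ℂ × ℂ} (hσ : IsChart (coneE P) σ τ)
    (hsp : Spans FF σ v) (hs : σ 0 ∈ Sg P FF) {R : MvPolynomial (Fin (M + 1)) ℂ} {d : ℕ} (hRh : R.IsHomogeneous d) {l : ℂ × ℂ → ℂ}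
    (h1 : ∀ᶠ p in 𝓝 (0 : ℂ × ℂ), p.1 ≠ 0 → p.2 ≠ 0 → (LeafIn v (fun p => eval (σ p).ofLp R) p ↔ l p = 0))
    (h2 : ∀ᶠ t in 𝓝 (0 : ℂ), t ≠ 0 → (LeafIn v (fun p => eval (σ p).ofLp R) (0, t) ↔ l (0, t) = 0))
    (h3 : ∀ᶠ t in 𝓝 (0 : ℂ), t ≠ 0 → (LeafIn v (fun p => eval (σ p).ofLp R) (t, 0) ↔ l (t, 0) = 0)) :
    ∀ᶠ p in 𝓝 (0 : ℂ × ℂ), σ p ∉ Sg P FF → (InvAt P FF R (σ p) ↔ l p = 0) := by
  filter_upwards [inv_iff hX hσ hsp hRh, ev_cases (S := fun p => (LeafIn v (fun p => eval (σ p).ofLp R) p ↔ l p = 0)) h1 h2 h3] with p g1 g2 g3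
  rw [g1]
  exact g2 fun h => g3 (by rw [h]; exact hs)

/-- off the axes there is no invariant point, if there is no invariant disc -/
theorem not_leaf_of_disc {v : ℂ × ℂ → ℂ × ℂ} (hv : AnalyticAt ℂ v 0) (hv0 : ∀ᶠ p in 𝓝 (0 : ℂ × ℂ), p ≠ 0 → v p ≠ 0) {q : ℂ × ℂ → ℂ} (hq : AnalyticAt ℂ q 0)
    (hq0 : ∃ᶠ p in 𝓝 (0 : ℂ × ℂ), q p ≠ 0) {T : ℂ × ℂ → Prop}
    (hT : ∀ c : ℂ → ℂ × ℂ, AnalyticAt ℂ c 0 → c 0 = 0 →
      (∀ᶠ t in 𝓝 (0 : ℂ), (v (c t)).1 * (deriv c t).2 = (v (c t)).2 * (deriv c t).1 ∧ q (c t) = 0) → ∀ᶠ t in 𝓝 (0 : ℂ), ¬ T (c t)) :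
    ∀ᶠ p in 𝓝 (0 : ℂ × ℂ), p ≠ 0 → T p → ¬ LeafIn v q p := by
  by_contra h
  rw [Filter.not_eventually] at h
  have h' : ∃ᶠ p in 𝓝 (0 : ℂ × ℂ), p ≠ 0 ∧ T p ∧ LeafIn v q p := by
    refine h.mono fun p hp => ?_
    push Not at hp
    exact hp
  obtain ⟨c, hc, hc0, hc1, hc2⟩ := leaf_disc hv hv0 hq hq0 h'
  exact hc2 ((hT c hc hc0 hc1).mono fun t ht h => ht h.2)

/-- the axis `{p.1 = 0}` and its equation -/
theorem axis_iff {v : ℂ × ℂ → ℂ × ℂ} (hv : AnalyticAt ℂ v 0) (h1 : ∀ᶠ t in 𝓝 (0 : ℂ), (v (0, t)).1 = 0)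
    (h2 : ∀ᶠ t in 𝓝 (0 : ℂ), t ≠ 0 → (v (0, t)).2 ≠ 0) {q : ℂ × ℂ → ℂ} (hq : AnalyticAt ℂ q 0) {l : ℂ × ℂ → ℂ}
    (hl : (∀ᶠ s in 𝓝 (0 : ℂ), q (0, s) = 0) ∧ (∀ t, l (0, t) = 0) ∨ ¬ (∀ᶠ s in 𝓝 (0 : ℂ), q (0, s) = 0) ∧ ∀ t, t ≠ 0 → l (0, t) ≠ 0) :
    ∀ᶠ t in 𝓝 (0 : ℂ), t ≠ 0 → (LeafIn v q (0, t) ↔ l (0, t) = 0) := by
  filter_upwards [leaf_axis hv h1 h2 hq] with t g1 g2
  rw [g1 g2]
  rcases hl with ⟨g3, g4⟩ | ⟨g3, g4⟩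
  · exact ⟨fun _ => g4 t, fun _ => g3⟩
  · exact ⟨fun g5 => absurd g5 g3, fun g5 => absurd g5 (g4 t g2)⟩

theorem axis_iff' {v : ℂ × ℂ → ℂ × ℂ} (hv : AnalyticAt ℂ v 0) (h1 : ∀ᶠ t in 𝓝 (0 : ℂ), (v (t, 0)).2 = 0)
    (h2 : ∀ᶠ t in 𝓝 (0 : ℂ), t ≠ 0 → (v (t, 0)).1 ≠ 0) {q : ℂ × ℂ → ℂ} (hq : AnalyticAt ℂ q 0) {l : ℂ × ℂ → ℂ}
    (hl : (∀ᶠ s in 𝓝 (0 : ℂ), q (s, 0) = 0) ∧ (∀ t, l (t, 0) = 0) ∨ ¬ (∀ᶠ s in 𝓝 (0 : ℂ), q (s, 0) = 0) ∧ ∀ t, t ≠ 0 → l (t, 0) ≠ 0) :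
    ∀ᶠ t in 𝓝 (0 : ℂ), t ≠ 0 → (LeafIn v q (t, 0) ↔ l (t, 0) = 0) := by
  filter_upwards [leaf_axis' hv h1 h2 hq] with t g1 g2
  rw [g1 g2]
  rcases hl with ⟨g3, g4⟩ | ⟨g3, g4⟩
  · exact ⟨fun _ => g4 t, fun _ => g3⟩
  · exact ⟨fun g5 => absurd g5 g3, fun g5 => absurd g5 (g4 t g2)⟩

/-- the type with two axes -/
theorem two_axes (hX : Surface (coneE P)) {σ : ℂ × ℂ → EN M} {τ : EN M → ℂ × ℂ} {v : ℂ × ℂ → ℂ × ℂ} (hσ : IsChart (coneE P) σ τ)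
    (hsp : Spans FF σ v) (hs : σ 0 ∈ Sg P FF) {R : MvPolynomial (Fin (M + 1)) ℂ} {d : ℕ} (hRh : R.IsHomogeneous d)
    (hR0 : ∃ᶠ p in 𝓝 (0 : ℂ × ℂ), eval (σ p).ofLp R ≠ 0) (hv : AnalyticAt ℂ v 0) (hv0 : ∀ᶠ p in 𝓝 (0 : ℂ × ℂ), p ≠ 0 → v p ≠ 0)
    (hv1 : ∀ t, (v (0, t)).1 = 0) (hv2 : ∀ t, (v (t, 0)).2 = 0)
    (hno : ∀ c : ℂ → ℂ × ℂ, AnalyticAt ℂ c 0 → c 0 = 0 → (∀ᶠ t in 𝓝 (0 : ℂ), (v (c t)).1 * (deriv c t).2 = (v (c t)).2 * (deriv c t).1) →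
      (∀ᶠ t in 𝓝 (0 : ℂ), (c t).1 = 0) ∨ ∀ᶠ t in 𝓝 (0 : ℂ), (c t).2 = 0)
    (hR1 : NonAlgC P (fun t => σ (0, t)) ∨ ∀ᶠ t in 𝓝 (0 : ℂ), eval (σ (0, t)).ofLp R = 0)
    (hR2 : NonAlgC P (fun t => σ (t, 0)) ∨ ∀ᶠ t in 𝓝 (0 : ℂ), eval (σ (t, 0)).ofLp R = 0) :
    ∃ l l₁ l₂ : ℂ × ℂ → ℂ, (∀ p, l p = l₁ p * l₂ p) ∧ ((∀ p, l₁ p = p.1) ∨ (∀ p, l₁ p = 1) ∧ NonAlgC P fun t => σ (0, t)) ∧
      ((∀ p, l₂ p = p.2) ∨ (∀ p, l₂ p = 1) ∧ NonAlgC P fun t => σ (t, 0)) ∧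
      ∀ᶠ p in 𝓝 (0 : ℂ × ℂ), σ p ∉ Sg P FF → (InvAt P FF R (σ p) ↔ l p = 0) := by
  have hq : AnalyticAt ℂ (fun p => eval (σ p).ofLp R) 0 := (Pool.Agent.H14.PP.analyticAt_evalEN R (σ 0)).fun_comp hσ.σ_an
  have t1 : Tendsto (fun t : ℂ => ((0, t) : ℂ × ℂ)) (𝓝 0) (𝓝 0) := (continuous_const.prodMk continuous_id).tendsto' _ _ rfl
  have t2 : Tendsto (fun t : ℂ => ((t, 0) : ℂ × ℂ)) (𝓝 0) (𝓝 0) := (continuous_id.prodMk continuous_const).tendsto' _ _ rfl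
  have hv3 : ∀ᶠ t in 𝓝 (0 : ℂ), t ≠ 0 → (v (0, t)).2 ≠ 0 := by
    filter_upwards [t1.eventually hv0] with t g1 g2 g3
    exact g1 (fun g4 => g2 (congrArg Prod.snd g4)) (Prod.ext (hv1 t) g3)
  have hv4 : ∀ᶠ t in 𝓝 (0 : ℂ), t ≠ 0 → (v (t, 0)).1 ≠ 0 := by
    filter_upwards [t2.eventually hv0] with t g1 g2 g3
    exact g1 (fun g4 => g2 (congrArg Prod.fst g4)) (Prod.ext g3 (hv2 t))
  have hoff : ∀ᶠ p in 𝓝 (0 : ℂ × ℂ), p.1 ≠ 0 → p.2 ≠ 0 → ¬ LeafIn v (fun p => eval (σ p).ofLp R) p := by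
    filter_upwards [not_leaf_of_disc hv hv0 hq hR0 (T := fun p => p.1 ≠ 0 ∧ p.2 ≠ 0) fun c hc hc0 hc1 => by
      rcases hno c hc hc0 (hc1.mono fun t ht => ht.1) with g | g
      · exact g.mono fun t ht h => h.1 ht
      · exact g.mono fun t ht h => h.2 ht] with p g1 g2 g3
    exact g1 (fun g4 => g2 (congrArg Prod.fst g4)) ⟨g2, g3⟩
  obtain ⟨l₁, hl₁⟩ : ∃ l₁ : ℂ × ℂ → ℂ, (∀ᶠ t in 𝓝 (0 : ℂ), eval (σ (0, t)).ofLp R = 0) ∧ (∀ p, l₁ p = p.1) ∨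
      ¬ (∀ᶠ t in 𝓝 (0 : ℂ), eval (σ (0, t)).ofLp R = 0) ∧ ∀ p, l₁ p = 1 := by
    by_cases h : ∀ᶠ t in 𝓝 (0 : ℂ), eval (σ (0, t)).ofLp R = 0
    · exact ⟨fun p => p.1, Or.inl ⟨h, fun _ => rfl⟩⟩
    · exact ⟨fun _ => 1, Or.inr ⟨h, fun _ => rfl⟩⟩
  obtain ⟨l₂, hl₂⟩ : ∃ l₂ : ℂ × ℂ → ℂ, (∀ᶠ t in 𝓝 (0 : ℂ), eval (σ (t, 0)).ofLp R = 0) ∧ (∀ p, l₂ p = p.2) ∨
      ¬ (∀ᶠ t in 𝓝 (0 : ℂ), eval (σ (t, 0)).ofLp R = 0) ∧ ∀ p, l₂ p = 1 := by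
    by_cases h : ∀ᶠ t in 𝓝 (0 : ℂ), eval (σ (t, 0)).ofLp R = 0
    · exact ⟨fun p => p.2, Or.inl ⟨h, fun _ => rfl⟩⟩
    · exact ⟨fun _ => 1, Or.inr ⟨h, fun _ => rfl⟩⟩
  have k1 : ∀ p : ℂ × ℂ, p.1 ≠ 0 → l₁ p ≠ 0 := fun p hp => by
    rcases hl₁ with ⟨-, h⟩ | ⟨-, h⟩
    · rw [h]; exact hp
    · rw [h]; exact one_ne_zero
  have k2 : ∀ p : ℂ × ℂ, p.2 ≠ 0 → l₂ p ≠ 0 := fun p hp => by
    rcases hl₂ with ⟨-, h⟩ | ⟨-, h⟩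
    · rw [h]; exact hp
    · rw [h]; exact one_ne_zero
  refine ⟨fun p => l₁ p * l₂ p, l₁, l₂, fun _ => rfl, ?_, ?_, inv_of_cases hX hσ hsp hs hRh ?_ ?_ ?_⟩
  · rcases hl₁ with ⟨-, h⟩ | ⟨g, h⟩
    · exact Or.inl h
    · exact Or.inr ⟨h, hR1.resolve_right g⟩
  · rcases hl₂ with ⟨-, h⟩ | ⟨g, h⟩
    · exact Or.inl h
    · exact Or.inr ⟨h, hR2.resolve_right g⟩
  · filter_upwards [hoff] with p g1 g2 g3
    exact ⟨fun g4 => absurd g4 (g1 g2 g3), fun g4 => absurd g4 (mul_ne_zero (k1 p g2) (k2 p g3))⟩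
  · refine axis_iff (l := fun p => l₁ p * l₂ p) hv (Eventually.of_forall hv1) hv3 hq ?_
    rcases hl₁ with ⟨g, h⟩ | ⟨g, h⟩
    · exact Or.inl ⟨g, fun t => by rw [h]; simp⟩
    · exact Or.inr ⟨g, fun t ht => mul_ne_zero (by rw [h]; exact one_ne_zero) (k2 _ ht)⟩
  · refine axis_iff' (l := fun p => l₁ p * l₂ p) hv (Eventually.of_forall hv2) hv4 hq ?_
    rcases hl₂ with ⟨g, h⟩ | ⟨g, h⟩
    · exact Or.inl ⟨g, fun t => by rw [h]; simp⟩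
    · exact Or.inr ⟨g, fun t ht => mul_ne_zero (k1 _ ht) (by rw [h]; exact one_ne_zero)⟩

/-- the local equation at a singular point -/
theorem sing_aux (hX : Surface (coneE P)) {σ : ℂ × ℂ → EN M} {τ : EN M → ℂ × ℂ} {v : ℂ × ℂ → ℂ × ℂ} (hσ : IsChart (coneE P) σ τ)
    (hsp : Spans FF σ v) (hred : Reduced P σ v) (hs : σ 0 ∈ Sg P FF) {R : MvPolynomial (Fin (M + 1)) ℂ} {d : ℕ} (hRh : R.IsHomogeneous d) (hRP : R ∉ P)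
    (hR0 : ∃ᶠ p in 𝓝 (0 : ℂ × ℂ), eval (σ p).ofLp R ≠ 0)
    (hR1 : NonAlgC P (fun t => σ (0, t)) ∨ ∀ᶠ t in 𝓝 (0 : ℂ), eval (σ (0, t)).ofLp R = 0)
    (hR2 : NonAlgC P (fun t => σ (t, 0)) ∨ ∀ᶠ t in 𝓝 (0 : ℂ), eval (σ (t, 0)).ofLp R = 0) :
    ∃ l : ℂ × ℂ → ℂ, LocC P σ v l ∧ ∀ᶠ p in 𝓝 (0 : ℂ × ℂ), σ p ∉ Sg P FF → (InvAt P FF R (σ p) ↔ l p = 0) := by
  have hv0 : ∀ᶠ p in 𝓝 (0 : ℂ × ℂ), p ≠ 0 → v p ≠ 0 := by
    rcases hred.cases with h3 | ⟨-, h3⟩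
    · exact Eventually.of_forall fun p _ => by rw [h3 p]; simp
    · exact h3
  cases hred with
  | regular h =>
    exfalso
    have h2 : v = fun _ => (0, 1) := funext h
    rw [h2] at hsp
    exact notMem_Sg_of_regular hσ hsp hs
  | node a b ha hb ha0 hb0 hq h =>
    have hv : AnalyticAt ℂ v 0 := by
      rw [funext h]
      exact (analyticAt_fst.mul ha).prod (analyticAt_snd.mul hb)
    obtain ⟨l, l₁, l₂, e1, e2, e3, e4⟩ := two_axes hX hσ hsp hs hRh hR0 hv hv0 (fun t => by rw [h]; simp) (fun t => by rw [h]; simp)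
      (fun c hc hc0 hc1 => node_no ha hb ha0 hb0 hq hc hc0 (hc1.mono fun t ht => by simpa only [h] using ht)) hR1 hR2
    exact ⟨l, .node a b l₁ l₂ ha hb ha0 hb0 hq h e1 e2 e3, e4⟩
  | saddleNode k hk a b ha hb ha0 hb0 h =>
    have hv : AnalyticAt ℂ v 0 := by
      rw [funext h]
      exact ((analyticAt_fst.pow (k + 1)).mul ha).prod (analyticAt_snd.mul hb)
    obtain ⟨l, l₁, l₂, e1, e2, e3, e4⟩ := two_axes hX hσ hsp hs hRh hR0 hv hv0 (fun t => by rw [h]; simp) (fun t => by rw [h]; simp)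
      (fun c hc hc0 hc1 => saddle_no hk ha hb ha0 hb0 hc hc0 (hc1.mono fun t ht => by simpa only [h] using ht)) hR1 hR2
    exact ⟨l, .saddleNode k hk a b l₁ l₂ ha hb ha0 hb0 h e1 e2 e3, e4⟩
  | formal k hk a b ha hb ha0 hb0 h c hc hJ hR =>
    have hv : AnalyticAt ℂ v 0 := by
      rw [funext h]
      exact ((analyticAt_fst.pow (k + 1)).mul ha).prod hb
    have hq : AnalyticAt ℂ (fun p => eval (σ p).ofLp R) 0 := (Pool.Agent.H14.PP.analyticAt_evalEN R (σ 0)).fun_comp hσ.σ_an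
    have t1 : Tendsto (fun t : ℂ => ((0, t) : ℂ × ℂ)) (𝓝 0) (𝓝 0) := (continuous_const.prodMk continuous_id).tendsto' _ _ rfl
    have t2 : Tendsto (fun t : ℂ => ((t, 0) : ℂ × ℂ)) (𝓝 0) (𝓝 0) := (continuous_id.prodMk continuous_const).tendsto' _ _ rfl
    have hv1 : ∀ t, (v (0, t)).1 = 0 := fun t => by rw [h]; simp
    have hv3 : ∀ᶠ t in 𝓝 (0 : ℂ), t ≠ 0 → (v (0, t)).2 ≠ 0 := by
      filter_upwards [t1.eventually hv0] with t g1 g2 g3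
      exact g1 (fun g4 => g2 (congrArg Prod.snd g4)) (Prod.ext (hv1 t) g3)
    have hoff : ∀ᶠ p in 𝓝 (0 : ℂ × ℂ), p.1 ≠ 0 → ¬ LeafIn v (fun p => eval (σ p).ofLp R) p := by
      filter_upwards [not_leaf_of_disc hv hv0 hq hR0 (T := fun p => p.1 ≠ 0) fun e he he0 he1 => by
        refine (formal_no (P := P) hσ.σ_an hk ha hb ha0 hb0 hc hJ (hR R d hRh hRP) he he0 (he1.mono fun t ht => ?_)).mono fun t ht h => h ht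
        exact ⟨by simpa only [h] using ht.1, ht.2⟩] with p g1 g2
      exact g1 (fun g4 => g2 (congrArg Prod.fst g4)) g2
    obtain ⟨l, hl⟩ : ∃ l : ℂ × ℂ → ℂ, (∀ᶠ t in 𝓝 (0 : ℂ), eval (σ (0, t)).ofLp R = 0) ∧ (∀ p, l p = p.1) ∨
        ¬ (∀ᶠ t in 𝓝 (0 : ℂ), eval (σ (0, t)).ofLp R = 0) ∧ ∀ p, l p = 1 := by
      by_cases h : ∀ᶠ t in 𝓝 (0 : ℂ), eval (σ (0, t)).ofLp R = 0
      · exact ⟨fun p => p.1, Or.inl ⟨h, fun _ => rfl⟩⟩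
      · exact ⟨fun _ => 1, Or.inr ⟨h, fun _ => rfl⟩⟩
    have k1 : ∀ p : ℂ × ℂ, p.1 ≠ 0 → l p ≠ 0 := fun p hp => by
      rcases hl with ⟨-, h⟩ | ⟨-, h⟩
      · rw [h]; exact hp
      · rw [h]; exact one_ne_zero
    refine ⟨l, .formal k hk a b ha hb ha0 hb0 h c hc hJ hR ?_, inv_of_cases hX hσ hsp hs hRh ?_ ?_ ?_⟩
    · rcases hl with ⟨-, h⟩ | ⟨g, h⟩
      · exact Or.inl h
      · exact Or.inr ⟨h, hR1.resolve_right g⟩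
    · filter_upwards [hoff] with p g1 g2 g3
      exact ⟨fun g4 => absurd g4 (g1 g2), fun g4 => absurd g4 (k1 p g2)⟩
    · refine axis_iff hv (Eventually.of_forall hv1) hv3 hq ?_
      rcases hl with ⟨g, h⟩ | ⟨g, h⟩
      · exact Or.inl ⟨g, fun t => by rw [h]⟩
      · exact Or.inr ⟨g, fun t ht => by rw [h]; exact one_ne_zero⟩
    · filter_upwards [t2.eventually hoff] with t g1 g2
      exact ⟨fun g4 => absurd g4 (g1 g2), fun g4 => absurd g4 (k1 _ g2)⟩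

theorem LocC.smul {σ : ℂ × ℂ → EN M} {v : ℂ × ℂ → ℂ × ℂ} {l : ℂ × ℂ → ℂ} (h : LocC P σ v l) {a : ℂ} (ha : a ≠ 0) : LocC P (fun p => a • σ p) v l := by
  cases h with
  | regular h hl => exact .regular h hl
  | node a' b l₁ l₂ ha' hb ha0 hb0 hq h hl h₁ h₂ =>
    exact .node a' b l₁ l₂ ha' hb ha0 hb0 hq h hl (h₁.imp_right fun h => ⟨h.1, h.2.smul ha⟩) (h₂.imp_right fun h => ⟨h.1, h.2.smul ha⟩)
  | saddleNode k hk a' b l₁ l₂ ha' hb ha0 hb0 h hl h₁ h₂ =>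
    exact .saddleNode k hk a' b l₁ l₂ ha' hb ha0 hb0 h hl (h₁.imp_right fun h => ⟨h.1, h.2.smul ha⟩) (h₂.imp_right fun h => ⟨h.1, h.2.smul ha⟩)
  | formal k hk a' b ha' hb ha0 hb0 h c hc hJ hR hl =>
    refine .formal k hk a' b ha' hb ha0 hb0 h c hc hJ (fun R d hRh hRP => ?_) (hl.imp_right fun h => ⟨h.1, h.2.smul ha⟩)
    obtain ⟨n, hn⟩ := hR R d hRh hRP
    refine ⟨n, fun hO => hn ?_⟩
    have h1 := hO.const_mul_left ((a ^ d)⁻¹)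
    refine h1.congr_left fun t => ?_
    have e : eval (a • σ (t, jet c n t)).ofLp R = a ^ d * eval (σ (t, jet c n t)).ofLp R := eval_smul_hom hRh a (σ (t, jet c n t))
    show (a ^ d)⁻¹ * eval (a • σ (t, jet c n t)).ofLp R = eval (σ (t, jet c n t)).ofLp R
    rw [e, ← mul_assoc, inv_mul_cancel₀ (pow_ne_zero d ha), one_mul]

/-- MODULE ExC -/
theorem exists_C [P.IsPrime] (hX : Surface (coneE P))
    (hne : ∀ (R : MvPolynomial (Fin (M + 1)) ℂ) (d : ℕ), R.IsHomogeneous d → R ∉ P → ∀ σ τ, IsChart (coneE P) σ τ →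
      ∃ᶠ p in 𝓝 (0 : ℂ × ℂ), eval (σ p).ofLp R ≠ 0) (hF : IsReduced P FF) :
    ∃ (R : MvPolynomial (Fin (M + 1)) ℂ) (d : ℕ), R.IsHomogeneous d ∧ R ∉ P ∧ ∀ x ∈ coneE P, ∃ (σ : ℂ × ℂ → EN M) (τ : EN M → ℂ × ℂ)
      (v : ℂ × ℂ → ℂ × ℂ) (l : ℂ × ℂ → ℂ), IsChart (coneE P) σ τ ∧ σ 0 = x ∧ Spans FF σ v ∧ LocC P σ v l ∧
        ∀ᶠ p in 𝓝 (0 : ℂ × ℂ), σ p ∉ Sg P FF → (InvAt P FF R (σ p) ↔ l p = 0) := by
  obtain ⟨r, y, hy1, -, hy2⟩ := exists_sing hX hF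
  choose σ τ v hσ hσ0 hsp hred using fun j => hF (y j) (hy1 j).1
  obtain ⟨R, d, hRh, hRP, hR⟩ := exists_alg (P := P) (r := r + r) fun i => Fin.addCases (fun j t => σ j (0, t)) (fun j t => σ j (t, 0)) i
  have hR1 : ∀ j, NonAlgC P (fun t => σ j (0, t)) ∨ ∀ᶠ t in 𝓝 (0 : ℂ), eval (σ j (0, t)).ofLp R = 0 := fun j => by
    have := hR (Fin.castAdd r j)
    simpa only [Fin.addCases_left] using this
  have hR2 : ∀ j, NonAlgC P (fun t => σ j (t, 0)) ∨ ∀ᶠ t in 𝓝 (0 : ℂ), eval (σ j (t, 0)).ofLp R = 0 := fun j => by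
    have := hR (Fin.natAdd r j)
    simpa only [Fin.addCases_right] using this
  refine ⟨R, d, hRh, hRP, fun x hx => ?_⟩
  by_cases hxs : ∀ j, ¬ Pr x (y j)
  · -- regular points
    obtain ⟨σ', τ', hσ', hσ'0, hsp'⟩ := hy2 x hx hxs
    have hq : AnalyticAt ℂ (fun p => eval (σ' p).ofLp R) 0 := (Pool.Agent.H14.PP.analyticAt_evalEN R (σ' 0)).fun_comp hσ'.σ_an
    rcases leaf_regular hq (hne R d hRh hRP _ _ hσ') with h1 | h1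
    · refine ⟨σ', τ', _, fun _ => 1, hσ', hσ'0, hsp', .regular (fun _ => rfl) (Or.inl fun _ => rfl), ?_⟩
      filter_upwards [inv_iff hX hσ' hsp' hRh, h1] with p g1 g2 _
      rw [g1]
      simp [g2]
    · refine ⟨σ', τ', _, fun p => p.1, hσ', hσ'0, hsp', .regular (fun _ => rfl) (Or.inr fun _ => rfl), ?_⟩
      filter_upwards [inv_iff hX hσ' hsp' hRh, h1] with p g1 g2 _
      rw [g1, g2]
  · -- singular points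
    push Not at hxs
    obtain ⟨j, a, ha, hxj⟩ := hxs
    have hsj : σ j 0 ∈ Sg P FF := by rw [hσ0]; exact hy1 j
    -- the chart multiplied by `a`
    have hσa := (hσ j).scale hX.smul ha
    have hspa : Spans FF (fun p => a • σ j p) (v j) := (hsp j).smul (hσ j).σ_an ha
    obtain ⟨l, hl1, hl2⟩ := sing_aux hX (hσ j) (hsp j) (hred j) hsj hRh hRP (hne R d hRh hRP _ _ (hσ j)) (hR1 j) (hR2 j)
    refine ⟨_, _, _, l, hσa, by rw [hσ0, hxj], hspa, hl1.smul ha, ?_⟩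
    filter_upwards [hl2, inv_iff hX hσa hspa hRh, inv_iff hX (hσ j) (hsp j) hRh] with p g1 g2 g3 g4
    have g5 : σ j p ∉ Sg P FF := fun h => g4 (Sg_smul hX hF _ h a ha)
    rw [← g1 g5, g2, g3]
    have e : ∀ x, eval (a • σ j x).ofLp R = 0 ↔ eval (σ j x).ofLp R = 0 := fun x => by
      rw [eval_smul_hom hRh]
      simp [ha]
    constructor
    · rintro ⟨γ, k1, k2, k3, k4⟩
      exact ⟨γ, k1, k2, k3.mono fun t ht => ⟨ht.1, (e _).1 ht.2⟩, k4⟩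
    · rintro ⟨γ, k1, k2, k3, k4⟩
      exact ⟨γ, k1, k2, k3.mono fun t ht => ⟨ht.1, (e _).2 ht.2⟩, k4⟩

end Pool.Agent.MQ
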