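import Pool.Agent.MQ.Green

/-!
# MQ Ext: extension by zero of `φ (p z)` from an open set
-/

set_option autoImplicit false

open Topology Filter Metric Set

noncomputable section

namespace Pool.Agent.MQ

/-- `φ ∘ p` on `U`, extended by `0` -/
def ext (U : Set ℂ) (p : ℂ → ℂ × ℂ) (φ : ℂ × ℂ → ℝ) : ℂ → ℝ := U.indicator fun z => φ (p z)

variable {U : Set ℂ} {p : ℂ → ℂ × ℂ} {r s : ℝ} {φ : ℂ × ℂ → ℝ}

theorem ext_of_mem {z : ℂ} (hz : z ∈ U) : ext U p φ z = φ (p z) := indicator_of_mem hz _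

theorem ext_of_notMem {z : ℂ} (hz : z ∉ U) : ext U p φ z = 0 := indicator_of_notMem hz _

theorem ext_ev_in (hU : IsOpen U) {z : ℂ} (hz : z ∈ U) : ext U p φ =ᶠ[𝓝 z] fun w => φ (p w) := by
  filter_upwards [hU.mem_nhds hz] with w hw
  exact ext_of_mem hw

/-- outside the closed set `{z ∈ U, ‖p z‖ ≤ s}` the extension is locally zero -/
theorem ext_ev_out (hcl : IsClosed {z | z ∈ U ∧ ‖p z‖ ≤ s}) (h0 : ∀ q, s < ‖q‖ → φ q = 0) {z : ℂ} (hz : ¬ (z ∈ U ∧ ‖p z‖ ≤ s)) :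
    ext U p φ =ᶠ[𝓝 z] fun _ => 0 := by
  filter_upwards [hcl.isOpen_compl.mem_nhds hz] with w hw
  by_cases hwU : w ∈ U
  · rw [ext_of_mem hwU]
    refine h0 _ ?_
    by_contra h
    exact hw ⟨hwU, not_lt.1 h⟩
  · exact ext_of_notMem hwU

/-- **Extension by zero** -/
theorem ext_contDiff {n : WithTop ℕ∞} (hU : IsOpen U) (hp : ∀ z ∈ U, AnalyticAt ℂ p z) (hr : ∀ z ∈ U, p z ∈ ball (0 : ℂ × ℂ) r)
    (hcl : IsClosed {z | z ∈ U ∧ ‖p z‖ ≤ s}) (hφ : ContDiffOn ℝ n φ (ball 0 r)) (h0 : ∀ q, s < ‖q‖ → φ q = 0) :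
    ContDiff ℝ n (ext U p φ) := by
  rw [contDiff_iff_contDiffAt]
  intro z
  by_cases hz : z ∈ U
  · refine ContDiffAt.congr_of_eventuallyEq ?_ (ext_ev_in hU hz)
    exact (hφ.contDiffAt (isOpen_ball.mem_nhds (hr z hz))).comp z (((hp z hz).contDiffAt (n := n)).restrict_scalars ℝ)
  · exact contDiffAt_const.congr_of_eventuallyEq (ext_ev_out hcl h0 fun h => hz h.1)

/-- the gradient of the extension, inside -/
theorem norm_gr_ext_le (hU : IsOpen U) {z : ℂ} (hz : z ∈ U) (hp : AnalyticAt ℂ p z) (hφ : DifferentiableAt ℝ φ (p z)) :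
    ‖gr (ext U p φ) z‖ ≤ ‖fderiv ℝ φ (p z)‖ * ‖deriv p z‖ := by
  rw [norm_gr, (ext_ev_in hU hz).fderiv_eq]
  have h1 : HasFDerivAt p ((ContinuousLinearMap.toSpanSingleton ℂ (deriv p z)).restrictScalars ℝ) z :=
    hp.differentiableAt.hasDerivAt.hasFDerivAt.restrictScalars ℝ
  have h2 := hφ.hasFDerivAt.comp z h1
  have h3 : HasFDerivAt (fun w => φ (p w)) _ z := h2
  rw [h3.fderiv]
  refine (ContinuousLinearMap.opNorm_comp_le _ _).trans (mul_le_mul_of_nonneg_left ?_ (norm_nonneg _))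
  refine ContinuousLinearMap.opNorm_le_bound _ (norm_nonneg _) fun v => ?_
  simp [norm_smul, mul_comm]

/-- the gradient of the extension vanishes outside the closed set -/
theorem gr_ext_eq_zero (hcl : IsClosed {z | z ∈ U ∧ ‖p z‖ ≤ s}) (h0 : ∀ q, s < ‖q‖ → φ q = 0) {z : ℂ} (hz : ¬ (z ∈ U ∧ ‖p z‖ ≤ s)) :
    gr (ext U p φ) z = 0 := by
  rw [gr_congr (ext_ev_out hcl h0 hz)]
  exact gr_const 0 z

/-- **Bound of the gradient**: the constant depends only on `φ`, `r`, `s` -/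
theorem exists_gr_ext_le (hφ : ContDiffOn ℝ 1 φ (ball 0 r)) (hs : s < r) (h0 : ∀ q, s < ‖q‖ → φ q = 0) :
    ∃ C : ℝ, 0 ≤ C ∧ ∀ {U : Set ℂ} {p : ℂ → ℂ × ℂ}, IsOpen U → (∀ z ∈ U, AnalyticAt ℂ p z) → (∀ z ∈ U, p z ∈ ball (0 : ℂ × ℂ) r) →
      IsClosed {z | z ∈ U ∧ ‖p z‖ ≤ s} → ∀ z, ‖gr (ext U p φ) z‖ ≤ C * U.indicator (fun w => ‖deriv p w‖) z := by
  have hc : ContinuousOn (fun q => ‖fderiv ℝ φ q‖) (closedBall 0 s) := by
    have h1 : ContinuousOn (fderiv ℝ φ) (ball 0 r) := hφ.continuousOn_fderiv_of_isOpen isOpen_ball (by norm_num)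
    exact (h1.mono (closedBall_subset_ball hs)).norm
  obtain ⟨C, hC⟩ := (isCompact_closedBall (0 : ℂ × ℂ) s).bddAbove_image hc
  refine ⟨max C 0, le_max_right _ _, fun {U p} hU hp hr hcl z => ?_⟩
  by_cases hz : z ∈ U ∧ ‖p z‖ ≤ s
  · rw [indicator_of_mem hz.1]
    refine (norm_gr_ext_le hU hz.1 (hp z hz.1) ((hφ.contDiffAt (isOpen_ball.mem_nhds (hr z hz.1))).differentiableAt (by norm_num))).trans ?_
    refine mul_le_mul_of_nonneg_right (le_trans ?_ (le_max_left _ _)) (norm_nonneg _)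
    exact hC ⟨p z, by simpa using hz.2, rfl⟩
  · rw [gr_ext_eq_zero hcl h0 hz, norm_zero]
    exact mul_nonneg (le_max_right _ _) (indicator_nonneg (fun _ _ => norm_nonneg _) z)

/-- bound of the values -/
theorem exists_ext_le (hφ : ContinuousOn φ (ball 0 r)) (hs : s < r) (h0 : ∀ q, s < ‖q‖ → φ q = 0) :
    ∃ C : ℝ, 0 ≤ C ∧ ∀ (U : Set ℂ) (p : ℂ → ℂ × ℂ) (z : ℂ), |ext U p φ z| ≤ C := by
  have hc : ContinuousOn (fun q => |φ q|) (closedBall 0 s) := (hφ.mono (closedBall_subset_ball hs)).abs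
  obtain ⟨C, hC⟩ := (isCompact_closedBall (0 : ℂ × ℂ) s).bddAbove_image hc
  refine ⟨max C 0, le_max_right _ _, fun U p z => ?_⟩
  by_cases hz : z ∈ U
  · rw [ext_of_mem hz]
    by_cases hq : ‖p z‖ ≤ s
    · exact (hC ⟨p z, by simpa using hq, rfl⟩).trans (le_max_left _ _)
    · rw [h0 _ (not_le.1 hq), abs_zero]; exact le_max_right _ _
  · rw [ext_of_notMem hz, abs_zero]; exact le_max_right _ _

/-- the gradient in terms of the derivative of `φ` (chain rule) -/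
theorem fderiv_ext (hU : IsOpen U) {z : ℂ} (hz : z ∈ U) (hp : AnalyticAt ℂ p z) (hφ : DifferentiableAt ℝ φ (p z)) (v : ℂ) :
    fderiv ℝ (ext U p φ) z v = fderiv ℝ φ (p z) (v • deriv p z) := by
  rw [(ext_ev_in hU hz).fderiv_eq]
  have h1 : HasFDerivAt p ((ContinuousLinearMap.toSpanSingleton ℂ (deriv p z)).restrictScalars ℝ) z :=
    hp.differentiableAt.hasDerivAt.hasFDerivAt.restrictScalars ℝ
  have h2 := hφ.hasFDerivAt.comp z h1
  have h3 : HasFDerivAt (fun w => φ (p w)) _ z := h2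
  rw [h3.fderiv]
  simp

end Pool.Agent.MQ
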