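import Pool.Agent.H17BP.Surf
import Pool.Agent.H17EF.Bridge
import Pool.Agent.H14.V.MainV

/-!
# MQ FDefs: reduced foliations

`P` is the ideal of a smooth projective surface in `ℙ^M`, `X = coneE P` its cone.  A foliation is a set `FF` of pairs `(x, v)`, `x ∈ X`, `v` a vector
at `x`: the tangent vectors of the leaves.  Near every point it is given, in a chart `σ`, by a holomorphic vector field with an isolated zero which is
reduced in the sense of Seidenberg, in the normal form of Briot-Bouquet and Dulac.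
-/

set_option autoImplicit false

open Topology Filter MvPolynomial Asymptotics

noncomputable section

namespace Pool.Agent.MQ

open Pool.Agent.H36.BP (EN)
open Pool.Agent.H17 (PN)
open Pool.Agent.H17BP (IsChart)
open Pool.Agent.H17EF (projVar coneE)
open Pool.Agent.H14.V (IsLift)

variable {M : ℕ}

/-- near `σ 0` the vectors of the foliation are the multiples of the vector field `v` -/
def Spans (FF : Set (EN M × EN M)) (σ : ℂ × ℂ → EN M) (v : ℂ × ℂ → ℂ × ℂ) : Prop :=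
  ∀ᶠ p in 𝓝 (0 : ℂ × ℂ), ∀ (w : ℂ × ℂ) (a c : ℂ), c ≠ 0 →
    ((c • σ p, c • fderiv ℂ σ p w + a • σ p) ∈ FF ↔ (v p).1 * w.2 = (v p).2 * w.1)

/-- the polynomial `∑ i ≤ J, c i * t ^ i` -/
def jet (c : ℕ → ℂ) (J : ℕ) (t : ℂ) : ℂ := ∑ i ∈ Finset.range (J + 1), c i * t ^ i

/-- A holomorphic vector field near the point `0` of the chart `σ`, up to units: it is `∂/∂y`, or it has a reduced singular point at `0`, in a normal
form: `x a ∂/∂x + y b ∂/∂y` where `a (0) / b (0)` is not a positive rational number, or a saddle-node `x^(k+1) a ∂/∂x + b ∂/∂y` whose weak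
separatrix is `{y = 0}`, or is the formal curve `y = ∑ c i x^i` and lies in no algebraic curve. -/
inductive Reduced (P : Ideal (MvPolynomial (Fin (M + 1)) ℂ)) (σ : ℂ × ℂ → EN M) (v : ℂ × ℂ → ℂ × ℂ) : Prop
  | regular (h : ∀ p, v p = (0, 1))
  | node (a b : ℂ × ℂ → ℂ) (ha : AnalyticAt ℂ a 0) (hb : AnalyticAt ℂ b 0) (ha0 : a 0 ≠ 0) (hb0 : b 0 ≠ 0)
      (hq : ∀ k l : ℕ, 1 ≤ k → 1 ≤ l → k * a 0 ≠ l * b 0) (h : ∀ p, v p = (p.1 * a p, p.2 * b p))
  | saddleNode (k : ℕ) (hk : 1 ≤ k) (a b : ℂ × ℂ → ℂ) (ha : AnalyticAt ℂ a 0) (hb : AnalyticAt ℂ b 0) (ha0 : a 0 ≠ 0) (hb0 : b 0 ≠ 0)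
      (h : ∀ p, v p = (p.1 ^ (k + 1) * a p, p.2 * b p))
  | formal (k : ℕ) (hk : 1 ≤ k) (a b : ℂ × ℂ → ℂ) (ha : AnalyticAt ℂ a 0) (hb : AnalyticAt ℂ b 0) (ha0 : a 0 ≠ 0)
      (hb0 : fderiv ℂ b 0 (0, 1) ≠ 0) (h : ∀ p, v p = (p.1 ^ (k + 1) * a p, b p)) (c : ℕ → ℂ) (hc : c 0 = 0)
      (hJ : ∀ J, (fun t => b (t, jet c J t) - deriv (jet c J) t * (t ^ (k + 1) * a (t, jet c J t))) =O[𝓝 0] fun t : ℂ => t ^ (J + 1))
      (hR : ∀ (R : MvPolynomial (Fin (M + 1)) ℂ) (d : ℕ), R.IsHomogeneous d → R ∉ P → ∃ n : ℕ,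
        ¬ (fun t => eval (σ (t, jet c n t)).ofLp R) =O[𝓝 0] fun t : ℂ => t ^ (n + 1))

/-- `FF` is a foliation with reduced singularities of the surface of `P` -/
def IsReduced (P : Ideal (MvPolynomial (Fin (M + 1)) ℂ)) (FF : Set (EN M × EN M)) : Prop :=
  ∀ x ∈ coneE P, ∃ (σ : ℂ × ℂ → EN M) (τ : EN M → ℂ × ℂ) (v : ℂ × ℂ → ℂ × ℂ), IsChart (coneE P) σ τ ∧ σ 0 = x ∧ Spans FF σ v ∧ Reduced P σ v

/-- The entire curve `g` in the surface of `P` is tangent to the foliation. -/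
def IsLeafwise (P : Ideal (MvPolynomial (Fin (M + 1)) ℂ)) (FF : Set (EN M × EN M)) (g : ℂ → PN M) : Prop :=
  ∃ G, IsLift G g ∧ ∀ z, G z ∈ coneE P ∧ (G z, deriv G z) ∈ FF

end Pool.Agent.MQ
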