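import Pool.Agent.MQ.Ord
import Pool.Agent.MQ.FS
import Pool.Agent.MQ.VDefs

/-!
# MQ OrdV: curves of order two, comparison of energies
-/

set_option autoImplicit false

open MeasureTheory Topology Filter Metric Laplacian Set

noncomputable section

namespace Pool.Agent.MQ

open Pool.Agent.H30M (tau rhoR avg rho tau_nonneg contDiff_tau hcs_tau green_tau rhoR_nonneg)
open Pool.Agent.H36.BP (EN)

variable {N M : ℕ}

/-- the Laplacian of `log ‖F‖` is twice the square of the length -/
theorem lap_eq_lam {F : ℂ → EN M} {z : ℂ} (hF : AnalyticAt ℂ F z) (h0 : F z ≠ 0) : Δ (fun w => Real.log ‖F w‖) z = 2 * lam F z ^ 2 := by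
  rw [lap_log_normV hF h0]
  have hn : ‖F z‖ ≠ 0 := norm_ne_zero_iff.2 h0
  have h1 : ‖(inner ℂ (F z) (deriv F z) : ℂ)‖ ^ 2 ≤ ‖F z‖ ^ 2 * ‖deriv F z‖ ^ 2 := by
    rw [← mul_pow]
    exact pow_le_pow_left₀ (norm_nonneg _) (norm_inner_le_norm _ _) 2
  unfold fsd lam Pool.Agent.H36.BP.fs Pool.Agent.H36.BP.wd
  rw [div_pow, Real.sq_sqrt (sub_nonneg.2 h1)]
  field_simp

theorem lam_nonneg' (F : ℂ → EN M) (z : ℂ) : 0 ≤ lam F z := by
  unfold lam Pool.Agent.H36.BP.fs Pool.Agent.H36.BP.wd
  positivity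

theorem En_nonneg' (F : ℂ → EN M) {R : ℝ} (hR : 1 ≤ R) : 0 ≤ En F R :=
  integral_nonneg fun z => mul_nonneg (tau_nonneg hR z) (sq_nonneg _)

theorem two_En {F : ℂ → EN M} (hF : Differentiable ℂ F) (h0 : ∀ z, F z ≠ 0) (R : ℝ) :
    ∫ z, tau R z * Δ (fun z => Real.log ‖F z‖) z = 2 * En F R := by
  unfold En
  rw [← integral_const_mul]
  refine integral_congr_ae (Eventually.of_forall fun z => ?_)
  simp only
  rw [lap_eq_lam (hF.analyticAt z) (h0 z)]
  ring

theorem two_En_eq {F : ℂ → EN M} (hF : Differentiable ℂ F) (h0 : ∀ z, F z ≠ 0) {R : ℝ} (hR : 1 ≤ R) :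
    2 * En F R = avg R (fun z => Real.log ‖F z‖) - avg 1 (fun z => Real.log ‖F z‖) := by
  rw [← two_En hF h0 R, green_tau hR (contDiff_log_norm hF h0 (n := 2))]

/-- V9 -/
theorem ord {F : ℂ → EN M} (hF : Differentiable ℂ F) (h0 : ∀ z, F z ≠ 0) {A : ℝ}
    (hA : ∀ r : ℝ, 0 < r → Real.circleAverage (fun z => Real.log ‖F z‖) 0 r ≤ A * (1 + r ^ 2)) : ∃ B, ∀ R, 1 ≤ R → En F R ≤ B * R ^ 2 := by
  obtain ⟨C, hC0, hC⟩ := ord_tau hF h0 hA
  refine ⟨C, fun R hR => ?_⟩
  have h1 := hC R hR
  rw [two_En hF h0 R] at h1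
  have h2 : 1 ≤ R ^ 2 := one_le_pow₀ hR
  nlinarith

/-- the average in polar coordinates -/
theorem avg_polar {u : ℂ → ℝ} (hu : Continuous u) {R : ℝ} (hR : 0 < R) :
    avg R u = 2 * Real.pi * ∫ s : ℝ, deriv Real.smoothTransition (s - Real.log R) * Real.circleAverage u 0 (Real.exp s) := by
  have hint := integrable_rho_scale_mul hR hu
  unfold Pool.Agent.H30M.avg rhoR
  simp only [rho_scale hR] at hint ⊢
  exact polar_radial (fun s => deriv Real.smoothTransition (s - Real.log R)) u hint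

/-- comparison of averages -/
theorem avg_le_of_circleAverage {u v : ℂ → ℝ} (hu : Continuous u) (hv : Continuous v) {B : ℝ}
    (hB : ∀ r : ℝ, 0 < r → Real.circleAverage v 0 r ≤ B * (1 + Real.circleAverage u 0 r)) {R : ℝ} (hR : 1 ≤ R) :
    avg R v ≤ B * (2 * Real.pi + avg R u) := by
  have hBu : Continuous fun z => B * u z := continuous_const.mul hu
  have hvu : Continuous fun z => v z - B * u z := hv.sub hBu
  have h1 : avg R (fun z => v z - B * u z) ≤ 2 * Real.pi * B := by
    refine int_rho_scale_le hvu (by linarith) fun r hr1 hr2 => ?_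
    have hr : 0 < r := by linarith
    have hci : ∀ {w : ℂ → ℝ}, Continuous w → CircleIntegrable w 0 r := fun hw => hw.continuousOn.circleIntegrable'
    have h2 : Real.circleAverage (fun z => v z - B * u z) 0 r = Real.circleAverage v 0 r - B * Real.circleAverage u 0 r := by
      rw [Real.circleAverage_fun_sub (hci hv) (hci hBu)]
      congr 1
      have := Real.circleAverage_smul (a := B) (f := u) (c := 0) (R := r)
      simpa [Pi.smul_def, smul_eq_mul] using this
    rw [h2]
    have := hB r hr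
    linarith
  have h3 : avg R (fun z => v z - B * u z) = avg R v - B * avg R u := by
    have hR0 : 0 < R := by linarith
    unfold Pool.Agent.H30M.avg
    rw [← integral_const_mul, ← integral_sub]
    · refine integral_congr_ae (Eventually.of_forall fun z => ?_)
      simp only
      ring
    · exact integrable_rho_scale_mul hR0 hv
    · exact (integrable_rho_scale_mul hR0 hu).const_mul B
  rw [h3] at h1
  linarith

/-- V9: comparison of the energies of two curves -/
theorem ord_le {F : ℂ → EN N} {G : ℂ → EN M} (hF : Differentiable ℂ F) (h0 : ∀ z, F z ≠ 0) (hG : Differentiable ℂ G) (h0' : ∀ z, G z ≠ 0) {B : ℝ}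
    (hB : ∀ r : ℝ, 0 < r → Real.circleAverage (fun z => Real.log ‖G z‖) 0 r ≤ B * (1 + Real.circleAverage (fun z => Real.log ‖F z‖) 0 r)) :
    ∃ C, ∀ R, 1 ≤ R → En G R ≤ C * (En F R + 1) := by
  set a : ℝ := avg 1 (fun z => Real.log ‖G z‖) with ha
  set b : ℝ := avg 1 (fun z => Real.log ‖F z‖) with hb
  refine ⟨|B| + |B * (2 * Real.pi + b) - a|, fun R hR => ?_⟩
  have h1 := avg_le_of_circleAverage (continuous_log_norm hF h0) (continuous_log_norm hG h0') hB hR
  have e1 := two_En_eq hF h0 hR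
  have e2 := two_En_eq hG h0' hR
  have p1 := En_nonneg' F hR
  have h2 : 2 * En G R ≤ 2 * (B * En F R) + (B * (2 * Real.pi + b) - a) := by
    rw [← ha] at e2
    rw [← hb] at e1
    have e3 : avg R (fun z => Real.log ‖F z‖) = 2 * En F R + b := by linarith
    rw [e3] at h1
    linarith
  have h3 : B * En F R ≤ |B| * En F R := mul_le_mul_of_nonneg_right (le_abs_self B) p1
  have h4 := le_abs_self (B * (2 * Real.pi + b) - a)
  have h5 := abs_nonneg (B * (2 * Real.pi + b) - a)
  have h6 := mul_nonneg h5 p1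
  have h7 := abs_nonneg B
  nlinarith

end Pool.Agent.MQ
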