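import Pool.Agent.MQ.CoordB
import Pool.Agent.H14.PP.Poly

/-!
# MQ NodeP: a curve through a node lies on an axis, and the pole of `ζ'` is killed by a form with contact

`node_T1`: the first clause of `LocalT` at a node.
-/

set_option autoImplicit false

open Topology Filter Metric MvPolynomial Asymptotics

noncomputable section

namespace Pool.Agent.MQ

open Pool.Agent.H36.BP (EN fs)
open Pool.Agent.H17EF (coneE)

variable {M : ℕ} {P : Ideal (MvPolynomial (Fin (M + 1)) ℂ)} {FF : Set (EN M × EN M)}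

/-- a germ which is `O (t ^ n)` is divisible by `t ^ n` -/
theorem np_div {f : ℂ → ℂ} (hf : AnalyticAt ℂ f 0) {n : ℕ} (h : f =O[𝓝 0] fun t : ℂ => t ^ n) :
    ∃ q : ℂ → ℂ, AnalyticAt ℂ q 0 ∧ ∀ᶠ t in 𝓝 (0 : ℂ), f t = t ^ n * q t := by
  have key : (n : ℕ∞) ≤ analyticOrderAt f 0 := by
    by_contra hlt
    rw [not_le] at hlt
    obtain ⟨m, hm⟩ : ∃ m : ℕ, analyticOrderAt f 0 = m := ENat.ne_top_iff_exists.1 (ne_top_of_lt hlt) |>.imp fun _ h => h.symm
    rw [hm, Nat.cast_lt] at hlt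
    obtain ⟨q, hq, hq0, hgq⟩ := (hf.analyticOrderAt_eq_natCast).1 hm
    have h1 : (fun z : ℂ => (z - 0) ^ m • q z) =O[𝓝 0] fun t : ℂ => t ^ n :=
      IsBigO.congr' h hgq (Eventually.of_forall fun _ => rfl)
    obtain ⟨B, hB⟩ := h1.bound
    have h2 : ∀ᶠ z in 𝓝[≠] (0 : ℂ), ‖q z‖ ≤ B * ‖z‖ ^ (n - m) := by
      filter_upwards [nhdsWithin_le_nhds hB, self_mem_nhdsWithin] with z hz hz0
      have hz0' : 0 < ‖z‖ := norm_pos_iff.2 hz0
      rw [sub_zero, norm_smul, norm_pow, norm_pow] at hz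
      have h3 : ‖z‖ ^ n = ‖z‖ ^ m * ‖z‖ ^ (n - m) := by rw [← pow_add]; congr 1; omega
      rw [h3] at hz
      have h4 : ‖z‖ ^ m * ‖q z‖ ≤ ‖z‖ ^ m * (B * ‖z‖ ^ (n - m)) := by linarith
      exact le_of_mul_le_mul_left h4 (pow_pos hz0' m)
    have h3 : Tendsto (fun z : ℂ => B * ‖z‖ ^ (n - m)) (𝓝[≠] 0) (𝓝 0) := by
      have h4 : Tendsto (fun z : ℂ => B * ‖z‖ ^ (n - m)) (𝓝 0) (𝓝 (B * ‖(0 : ℂ)‖ ^ (n - m))) :=
        (continuous_const.mul (continuous_norm.pow _)).tendsto 0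
      rw [norm_zero, zero_pow (by omega), mul_zero] at h4
      exact h4.mono_left nhdsWithin_le_nhds
    have h4 : Tendsto (fun z : ℂ => ‖q z‖) (𝓝[≠] 0) (𝓝 ‖q 0‖) := hq.continuousAt.norm.tendsto.mono_left nhdsWithin_le_nhds
    have h5 := le_of_tendsto_of_tendsto h4 h3 h2
    exact hq0 (norm_le_zero_iff.1 h5)
  obtain ⟨q, hq, hgq⟩ := (natCast_le_analyticOrderAt hf).1 key
  refine ⟨q, hq, hgq.mono fun z hz => ?_⟩
  rw [hz, sub_zero, smul_eq_mul]

/-- the logarithmic derivative at a zero -/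
theorem np_log {x : ℂ → ℂ} {z₀ : ℂ} (hx : AnalyticAt ℂ x z₀) (h0 : x z₀ = 0) (hne : ∀ᶠ z in 𝓝[≠] z₀, x z ≠ 0) :
    ∃ p : ℕ, 1 ≤ p ∧ Tendsto (fun z => (z - z₀) * (deriv x z / x z)) (𝓝[≠] z₀) (𝓝 (p : ℂ)) := by
  have hnz : ¬ ∀ᶠ z in 𝓝 z₀, x z = 0 := by
    intro h
    have h1 : ∀ᶠ z in 𝓝[≠] z₀, x z = 0 := nhdsWithin_le_nhds h
    obtain ⟨z, hz1, hz2⟩ := (hne.and h1).exists
    exact hz1 hz2
  obtain ⟨p, u, hu, hu0, hxu⟩ := (hx.exists_eventuallyEq_pow_smul_nonzero_iff).2 hnz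
  have hp : 1 ≤ p := by
    by_contra hp
    have hp0 : p = 0 := by omega
    have h1 := hxu.self_of_nhds
    rw [hp0, pow_zero, one_smul, h0] at h1
    exact hu0 h1.symm
  refine ⟨p, hp, ?_⟩
  have hder : ∀ᶠ z in 𝓝 z₀, deriv x z = (p : ℂ) * (z - z₀) ^ (p - 1) * u z + (z - z₀) ^ p * deriv u z := by
    filter_upwards [hxu.eventually_nhds, hu.eventually_analyticAt] with z hz huz
    have h1 : x =ᶠ[𝓝 z] fun w => (w - z₀) ^ p * u w := by
      filter_upwards [hz] with w hw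
      rw [hw, smul_eq_mul]
    rw [h1.deriv_eq]
    have h2 : HasDerivAt (fun w : ℂ => (w - z₀) ^ p) ((p : ℂ) * (z - z₀) ^ (p - 1)) z := by
      have h3 := ((hasDerivAt_id' z).sub_const z₀).fun_pow p
      simpa using h3
    exact (h2.mul huz.differentiableAt.hasDerivAt).deriv
  have hlim : Tendsto (fun z => (p : ℂ) + (z - z₀) * (deriv u z / u z)) (𝓝[≠] z₀) (𝓝 (p : ℂ)) := by
    have h1 : ContinuousAt (fun z => (p : ℂ) + (z - z₀) * (deriv u z / u z)) z₀ :=
      continuousAt_const.add ((continuousAt_id.sub continuousAt_const).mul (hu.deriv.continuousAt.div hu.continuousAt hu0))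
    have h2 := h1.tendsto
    simp only [sub_self, zero_mul, add_zero] at h2
    exact h2.mono_left nhdsWithin_le_nhds
  refine hlim.congr' ?_
  have hune : ∀ᶠ z in 𝓝 z₀, u z ≠ 0 := hu.continuousAt.eventually_ne hu0
  filter_upwards [nhdsWithin_le_nhds hder, nhdsWithin_le_nhds hxu, nhdsWithin_le_nhds hune, self_mem_nhdsWithin] with z h1 h2 h3 h4
  have h5 : z - z₀ ≠ 0 := sub_ne_zero.2 h4
  rw [h1, h2, smul_eq_mul]
  obtain ⟨k, rfl⟩ : ∃ k, p = k + 1 := ⟨p - 1, by omega⟩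
  rw [Nat.add_sub_cancel]
  field_simp
  ring

/-- a curve of the theorem is not constant in the box -/
theorem np_nc (B : GBox P FF) {F : ℂ → EN M} (hF : Crv P FF F) {z₀ : ℂ} (hz : z₀ ∈ B.Om F) (h : ∀ᶠ z in 𝓝 z₀, B.cc F z = 0) : False := by
  obtain ⟨-, -, c, hc, hc0, hcF⟩ := cc_lift B hF.diff hF.mem hz
  have hσ0 : B.σ 0 ≠ 0 := by
    intro h0
    have h1 := B.imm 0 (mem_closedBall_self B.pos.le)
    have h2 := h1.ne_zero 0
    exact h2 (by simpa using h0)
  obtain ⟨j, hj⟩ : ∃ j, (B.σ 0) j ≠ 0 := by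
    by_contra hcon
    push Not at hcon
    exact hσ0 (by ext i; simpa using hcon i)
  have hFi : ∀ i, Differentiable ℂ fun z => (F z) i := fun i => (differentiable_euclidean.1 hF.diff) i
  have hpar : ∀ i, ∀ z, (F z) i * (B.σ 0) j = (F z) j * (B.σ 0) i := by
    intro i
    have h1 : AnalyticOnNhd ℂ (fun z => (F z) i * (B.σ 0) j - (F z) j * (B.σ 0) i) Set.univ := fun z _ =>
      (((hFi i).mul_const _).sub ((hFi j).mul_const _)).analyticAt z
    have h2 : ∀ᶠ z in 𝓝 z₀, (F z) i * (B.σ 0) j - (F z) j * (B.σ 0) i = 0 := by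
      filter_upwards [h, hcF] with z hz1 hz2
      rw [hz2, hz1]
      simp only [PiLp.smul_apply, smul_eq_mul]
      ring
    intro z
    have h3 := h1.eqOn_zero_of_preconnected_of_eventuallyEq_zero isPreconnected_univ (Set.mem_univ z₀) h2 (Set.mem_univ z)
    simpa [sub_eq_zero] using h3
  obtain ⟨z, w, hzw⟩ := hF.nc
  have hF0 : ∀ z, (F z) j ≠ 0 := by
    intro z h0
    have h1 : F z ≠ 0 := by
      intro h2
      have h3 := hF.mem z
      rw [h2, coneE, Set.mem_preimage, map_zero] at h3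
      exact h3.1 rfl
    apply h1
    ext i
    have h2 := hpar i z
    rw [h0, zero_mul, mul_eq_zero] at h2
    simpa using h2.resolve_right hj
  apply hzw ((F z) j / (F w) j)
  ext i
  simp only [PiLp.smul_apply, smul_eq_mul]
  have h1 := hpar i z
  have h2 := hpar i w
  have h3 := hF0 w
  field_simp
  have h4 : ((F z) i * (F w) j - (F z) j * (F w) i) * (B.σ 0) j = 0 := by
    linear_combination (F w) j * h1 - (F z) j * h2
  have h5 := (mul_eq_zero.1 h4).resolve_right hj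
  linear_combination h5

/-- **The first clause of `LocalT` at a node.** -/
theorem node_T1 (B : GBox P FF) {a b : ℂ × ℂ → ℂ} (ha : AnalyticOnNhd ℂ a (closedBall 0 B.r)) (hb : AnalyticOnNhd ℂ b (closedBall 0 B.r))
    (ha0 : ∀ p ∈ closedBall (0 : ℂ × ℂ) B.r, a p ≠ 0) (hb0 : ∀ p ∈ closedBall (0 : ℂ × ℂ) B.r, b p ≠ 0)
    (hq : ∀ k l : ℕ, 1 ≤ k → 1 ≤ l → k * a 0 ≠ l * b 0) (h : ∀ p, B.v p = (p.1 * a p, p.2 * b p)) {Q : MvPolynomial (Fin (M + 1)) ℂ} {n K : ℕ}
    (hK : 1 ≤ K) (hQ1 : (fun t => eval (B.σ (0, t)).ofLp Q) =O[𝓝 0] fun t : ℂ => t ^ n)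
    (hQ2 : (fun t => eval (B.σ (t, 0)).ofLp Q) =O[𝓝 0] fun t : ℂ => t ^ n) {F : ℂ → EN M} (hF : Crv P FF F) :
    ∀ z₀ ∈ B.Om F, B.cc F z₀ = 0 → ∃ h : ℂ → ℂ, AnalyticAt ℂ h z₀ ∧
      ∀ᶠ z in 𝓝[≠] z₀, h z = B.zt F z ^ n * eval (B.σ (B.cc F z)).ofLp Q ^ K := by
  intro z₀ hz₀ hc0
  have hOm : ∀ᶠ z in 𝓝 z₀, z ∈ B.Om F := (isOpen_Om B hF.diff hF.mem).mem_nhds hz₀
  set g := B.cc F with hg
  have hga : AnalyticAt ℂ g z₀ := (cc_lift B hF.diff hF.mem hz₀).1
  have hx : AnalyticAt ℂ (fun z => (g z).1) z₀ := analyticAt_fst.comp hga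
  have hy : AnalyticAt ℂ (fun z => (g z).2) z₀ := analyticAt_snd.comp hga
  have hx0 : (g z₀).1 = 0 := by rw [hc0]; rfl
  have hy0 : (g z₀).2 = 0 := by rw [hc0]; rfl
  have hgd : ∀ᶠ z in 𝓝 z₀, deriv (fun z => (g z).1) z = (deriv g z).1 ∧ deriv (fun z => (g z).2) z = (deriv g z).2 := by
    filter_upwards [hga.eventually_analyticAt] with z hz
    exact ⟨((ContinuousLinearMap.fst ℂ ℂ ℂ).hasFDerivAt.comp_hasDerivAt z hz.differentiableAt.hasDerivAt).deriv,
      ((ContinuousLinearMap.snd ℂ ℂ ℂ).hasFDerivAt.comp_hasDerivAt z hz.differentiableAt.hasDerivAt).deriv⟩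
  have h0cl : (0 : ℂ × ℂ) ∈ closedBall (0 : ℂ × ℂ) B.r := mem_closedBall_self B.pos.le
  have hag : AnalyticAt ℂ (fun z => a (g z)) z₀ := by
    have h1 : AnalyticAt ℂ a (g z₀) := by rw [hc0]; exact ha 0 h0cl
    exact AnalyticAt.comp (g := a) (f := g) h1 hga
  have hbg : AnalyticAt ℂ (fun z => b (g z)) z₀ := by
    have h1 : AnalyticAt ℂ b (g z₀) := by rw [hc0]; exact hb 0 h0cl
    exact AnalyticAt.comp (g := b) (f := g) h1 hga
  have hag0 : a (g z₀) ≠ 0 := by rw [hc0]; exact ha0 0 h0cl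
  have hbg0 : b (g z₀) ≠ 0 := by rw [hc0]; exact hb0 0 h0cl
  have hane : ∀ᶠ z in 𝓝 z₀, a (g z) ≠ 0 := hag.continuousAt.eventually_ne hag0
  have hbne : ∀ᶠ z in 𝓝 z₀, b (g z) ≠ 0 := hbg.continuousAt.eventually_ne hbg0
  -- the equation `g' = ζ v`
  have hode : ∀ᶠ z in 𝓝 z₀, ((g z).1 ≠ 0 ∨ (g z).2 ≠ 0) → (deriv g z).1 = B.zt F z * ((g z).1 * a (g z)) ∧
      (deriv g z).2 = B.zt F z * ((g z).2 * b (g z)) := by
    filter_upwards [hOm, hane, hbne] with z hz h1 h2 h3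
    have hv : B.v (g z) ≠ 0 := by
      rw [h]
      intro h4
      rw [Prod.ext_iff] at h4
      rcases h3 with h3 | h3
      · exact (mul_ne_zero h3 h1) h4.1
      · exact (mul_ne_zero h3 h2) h4.2
    have h4 := (deriv_cc B hF hz).2 hv
    rw [h] at h4
    rw [← hg] at h4
    constructor
    · rw [h4]; rfl
    · rw [h4]; rfl
  rcases hx.eventually_eq_zero_or_eventually_ne_zero with hxz | hxn
  · rcases hy.eventually_eq_zero_or_eventually_ne_zero with hyz | hyn
    · exact (np_nc B hF hz₀ (by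
        filter_upwards [hxz, hyz] with z h1 h2
        exact Prod.ext h1 h2)).elim
    · -- the curve lies on `{x = 0}`
      have hQa : AnalyticAt ℂ (fun t : ℂ => eval (B.σ (0, t)).ofLp Q) 0 := by
        have h1 : AnalyticAt ℂ (fun t : ℂ => B.σ (0, t)) 0 := by
          have h2 : AnalyticAt ℂ (fun t : ℂ => ((0 : ℂ), t)) 0 := analyticAt_const.prod analyticAt_id
          exact AnalyticAt.comp (g := B.σ) (f := fun t : ℂ => ((0 : ℂ), t)) (B.σ_an _ h0cl) h2
        exact AnalyticAt.comp (g := fun x : EN M => eval x.ofLp Q) (f := fun t : ℂ => B.σ (0, t)) (Pool.Agent.H14.PP.analyticAt_evalEN Q _) h1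
      obtain ⟨q, hq1, hq2⟩ := np_div hQa hQ1
      have hyt : Tendsto (fun z => (g z).2) (𝓝 z₀) (𝓝 0) := by
        have := hy.continuousAt.tendsto
        rwa [hy0] at this
      refine ⟨fun z => ((deriv g z).2 / b (g z)) ^ n * ((g z).2 ^ (n * (K - 1)) * q (g z).2 ^ K), ?_, ?_⟩
      · have h1 : AnalyticAt ℂ (fun z => (deriv g z).2) z₀ := analyticAt_snd.comp hga.deriv
        have h2 : AnalyticAt ℂ (fun z => q (g z).2) z₀ := by
          have h3 : AnalyticAt ℂ q ((g z₀).2) := by rw [hy0]; exact hq1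
          exact AnalyticAt.comp (g := q) (f := fun z => (g z).2) h3 hy
        exact ((h1.div hbg hbg0).pow n).mul ((hy.pow _).mul (h2.pow K))
      · filter_upwards [nhdsWithin_le_nhds hxz, hyn, nhdsWithin_le_nhds hode, nhdsWithin_le_nhds hbne, nhdsWithin_le_nhds (hyt.eventually hq2)]
          with z h1 h2 h3 h4 h5
        have h6 := (h3 (Or.inr h2)).2
        have h7 : g z = (0, (g z).2) := Prod.ext h1 rfl
        have h8 : eval (B.σ (g z)).ofLp Q = (g z).2 ^ n * q (g z).2 := by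
          rw [← h5]
          conv_lhs => rw [h7]
        rw [h8, h6]
        obtain ⟨k, rfl⟩ : ∃ k, K = k + 1 := ⟨K - 1, by omega⟩
        rw [Nat.add_sub_cancel]
        have h9 : B.zt F z * ((g z).2 * b (g z)) / b (g z) = B.zt F z * (g z).2 := by
          field_simp
        rw [h9]
        ring
  · rcases hy.eventually_eq_zero_or_eventually_ne_zero with hyz | hyn
    · -- the curve lies on `{y = 0}`
      have hQa : AnalyticAt ℂ (fun t : ℂ => eval (B.σ (t, 0)).ofLp Q) 0 := by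
        have h1 : AnalyticAt ℂ (fun t : ℂ => B.σ (t, 0)) 0 := by
          have h2 : AnalyticAt ℂ (fun t : ℂ => (t, (0 : ℂ))) 0 := analyticAt_id.prod analyticAt_const
          exact AnalyticAt.comp (g := B.σ) (f := fun t : ℂ => (t, (0 : ℂ))) (B.σ_an _ h0cl) h2
        exact AnalyticAt.comp (g := fun x : EN M => eval x.ofLp Q) (f := fun t : ℂ => B.σ (t, 0)) (Pool.Agent.H14.PP.analyticAt_evalEN Q _) h1
      obtain ⟨q, hq1, hq2⟩ := np_div hQa hQ2
      have hxt : Tendsto (fun z => (g z).1) (𝓝 z₀) (𝓝 0) := by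
        have := hx.continuousAt.tendsto
        rwa [hx0] at this
      refine ⟨fun z => ((deriv g z).1 / a (g z)) ^ n * ((g z).1 ^ (n * (K - 1)) * q (g z).1 ^ K), ?_, ?_⟩
      · have h1 : AnalyticAt ℂ (fun z => (deriv g z).1) z₀ := analyticAt_fst.comp hga.deriv
        have h2 : AnalyticAt ℂ (fun z => q (g z).1) z₀ := by
          have h3 : AnalyticAt ℂ q ((g z₀).1) := by rw [hx0]; exact hq1
          exact AnalyticAt.comp (g := q) (f := fun z => (g z).1) h3 hx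
        exact ((h1.div hag hag0).pow n).mul ((hx.pow _).mul (h2.pow K))
      · filter_upwards [nhdsWithin_le_nhds hyz, hxn, nhdsWithin_le_nhds hode, nhdsWithin_le_nhds hane, nhdsWithin_le_nhds (hxt.eventually hq2)]
          with z h1 h2 h3 h4 h5
        have h6 := (h3 (Or.inl h2)).1
        have h7 : g z = ((g z).1, 0) := Prod.ext rfl h1
        have h8 : eval (B.σ (g z)).ofLp Q = (g z).1 ^ n * q (g z).1 := by
          rw [← h5]
          conv_lhs => rw [h7]
        rw [h8, h6]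
        obtain ⟨k, rfl⟩ : ∃ k, K = k + 1 := ⟨K - 1, by omega⟩
        rw [Nat.add_sub_cancel]
        have h9 : B.zt F z * ((g z).1 * a (g z)) / a (g z) = B.zt F z * (g z).1 := by
          field_simp
        rw [h9]
        ring
    · -- both coordinates are not zero: the quotient of the eigenvalues is a positive rational number
      exfalso
      obtain ⟨p, hp, hpl⟩ := np_log hx hx0 hxn
      obtain ⟨l, hl, hll⟩ := np_log hy hy0 hyn
      have h1 : Tendsto (fun z => (z - z₀) * (deriv (fun z => (g z).1) z / (g z).1) * b (g z)) (𝓝[≠] z₀) (𝓝 ((p : ℂ) * b 0)) := by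
        have h2 : Tendsto (fun z => b (g z)) (𝓝[≠] z₀) (𝓝 (b 0)) := by
          have := hbg.continuousAt.tendsto
          rw [hc0] at this
          exact this.mono_left nhdsWithin_le_nhds
        exact hpl.mul h2
      have h2 : Tendsto (fun z => (z - z₀) * (deriv (fun z => (g z).2) z / (g z).2) * a (g z)) (𝓝[≠] z₀) (𝓝 ((l : ℂ) * a 0)) := by
        have h2 : Tendsto (fun z => a (g z)) (𝓝[≠] z₀) (𝓝 (a 0)) := by
          have := hag.continuousAt.tendsto
          rw [hc0] at this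
          exact this.mono_left nhdsWithin_le_nhds
        exact hll.mul h2
      have h3 : (fun z => (z - z₀) * (deriv (fun z => (g z).1) z / (g z).1) * b (g z)) =ᶠ[𝓝[≠] z₀]
          fun z => (z - z₀) * (deriv (fun z => (g z).2) z / (g z).2) * a (g z) := by
        filter_upwards [hxn, hyn, nhdsWithin_le_nhds hode, nhdsWithin_le_nhds hgd] with z h4 h5 h6 h7
        obtain ⟨h8, h9⟩ := h6 (Or.inl h4)
        rw [h7.1, h7.2, h8, h9]
        field_simp
      have h4 := tendsto_nhds_unique (h1.congr' h3) h2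
      exact hq l p hl hp h4.symm

end Pool.Agent.MQ
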