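import Pool.Agent.MQ.PassF
import Pool.Agent.MQ.NodeP

/-!
# MQ FormT1: the first clause of `LocalT` at a saddle-node with a formal weak separatrix

`X = (z - z₀)^m u`; `Y - jet c n X = O (X^(n+1))` (`contact_pass`), so `Q (σ (X, Y)) = O (X^n)`; `ζ' = X' / (X^(k+1) a)` has a pole of order
`k m + 1`; `n (k m + 1) ≤ n m K` if `k + 1 ≤ K`.
-/

set_option autoImplicit false

open Topology Filter Metric MvPolynomial Asymptotics

noncomputable section

namespace Pool.Agent.MQ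

open Pool.Agent.H36.BP (EN fs)
open Pool.Agent.H17EF (coneE)

variable {M : ℕ} {P : Ideal (MvPolynomial (Fin (M + 1)) ℂ)} {FF : Set (EN M × EN M)}

/-- division at another point -/
private theorem ft_div {f : ℂ → ℂ} {z₀ : ℂ} (hf : AnalyticAt ℂ f z₀) {n : ℕ} (h : f =O[𝓝 z₀] fun z : ℂ => (z - z₀) ^ n) :
    ∃ q : ℂ → ℂ, AnalyticAt ℂ q z₀ ∧ ∀ᶠ z in 𝓝 z₀, f z = (z - z₀) ^ n * q z := by
  have ht : Tendsto (fun w : ℂ => z₀ + w) (𝓝 0) (𝓝 z₀) := by
    have : Tendsto (fun w : ℂ => z₀ + w) (𝓝 0) (𝓝 (z₀ + 0)) := tendsto_const_nhds.add tendsto_id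
    rwa [add_zero] at this
  have ht' : Tendsto (fun z : ℂ => z - z₀) (𝓝 z₀) (𝓝 0) := by
    have : Tendsto (fun z : ℂ => z - z₀) (𝓝 z₀) (𝓝 (z₀ - z₀)) := tendsto_id.sub tendsto_const_nhds
    rwa [sub_self] at this
  have h1 : AnalyticAt ℂ (fun w : ℂ => f (z₀ + w)) 0 := by
    have h2 : AnalyticAt ℂ (fun w : ℂ => z₀ + w) 0 := analyticAt_const.add analyticAt_id
    refine AnalyticAt.comp (g := f) (f := fun w : ℂ => z₀ + w) ?_ h2
    rw [add_zero]
    exact hf
  have h2 : (fun w : ℂ => f (z₀ + w)) =O[𝓝 0] fun w : ℂ => w ^ n := by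
    refine (h.comp_tendsto ht).congr (fun w => rfl) fun w => ?_
    simp only [Function.comp, add_sub_cancel_left]
  obtain ⟨q, hq, hq1⟩ := np_div h1 h2
  refine ⟨fun z => q (z - z₀), ?_, ?_⟩
  · refine AnalyticAt.comp (g := q) (f := fun z : ℂ => z - z₀) ?_ (analyticAt_id.sub analyticAt_const)
    simp only [sub_self]
    exact hq
  · filter_upwards [ht'.eventually hq1] with z hz
    rw [← hz, add_sub_cancel]

private theorem ft_alg {t w q : ℂ} (ht : t ≠ 0) (m n k j : ℕ) :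
    (t ^ (m - 1) * w / t ^ (m * (k + 1))) ^ n * (t ^ (m * n) * q) ^ (k + 1 + j) =
      t ^ (n * (m - 1) + m * n * j) * w ^ n * q ^ (k + 1 + j) := by
  have hA : (t ^ (m * (k + 1))) ^ n = (t ^ (m * n)) ^ (k + 1) := by
    rw [← pow_mul, ← pow_mul]
    congr 1
    ring
  have hT : (t ^ (m * n)) ^ (k + 1) ≠ 0 := pow_ne_zero _ (pow_ne_zero _ ht)
  rw [div_pow, mul_pow (t ^ (m - 1)), mul_pow (t ^ (m * n)), hA, pow_add (t ^ (m * n)) (k + 1) j, pow_add t, mul_comm n (m - 1), pow_mul t (m - 1) n,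
    pow_mul t (m * n) j, div_mul_eq_mul_div, div_eq_iff hT]
  ring

/-- **The first clause of `LocalT` at a saddle-node with a formal weak separatrix.** -/
theorem formal_T1 (B : GBox P FF) {a b : ℂ × ℂ → ℂ} {k : ℕ} (hk : 1 ≤ k) (ha : AnalyticOnNhd ℂ a (closedBall 0 B.r))
    (hb : AnalyticOnNhd ℂ b (closedBall 0 B.r)) (ha0 : ∀ p ∈ closedBall (0 : ℂ × ℂ) B.r, a p ≠ 0)
    (hb0 : fderiv ℂ b 0 (0, 1) ≠ 0) (h : ∀ p, B.v p = (p.1 ^ (k + 1) * a p, b p)) {c : ℕ → ℂ} (hc : c 0 = 0)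
    (hJ : ∀ J, (fun t => b (t, jet c J t) - deriv (jet c J) t * (t ^ (k + 1) * a (t, jet c J t))) =O[𝓝 0] fun t : ℂ => t ^ (J + 1))
    {Q : MvPolynomial (Fin (M + 1)) ℂ} {n K : ℕ} (hK : k + 1 ≤ K) (hQ1 : (fun t => eval (B.σ (t, jet c n t)).ofLp Q) =O[𝓝 0] fun t : ℂ => t ^ n)
    (hQ2 : (fun t => eval (B.σ (0, t)).ofLp Q) =O[𝓝 0] fun t : ℂ => t ^ n) {F : ℂ → EN M} (hF : Crv P FF F) :
    ∀ z₀ ∈ B.Om F, B.cc F z₀ = 0 → ∃ h : ℂ → ℂ, AnalyticAt ℂ h z₀ ∧
      ∀ᶠ z in 𝓝[≠] z₀, h z = B.zt F z ^ n * eval (B.σ (B.cc F z)).ofLp Q ^ K := by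
  intro z₀ hz₀ hc0
  obtain ⟨Φ, hΦd⟩ : ∃ Φ : ℂ × ℂ → ℂ, ∀ p, Φ p = eval (B.σ p).ofLp Q := ⟨fun p => eval (B.σ p).ofLp Q, fun _ => rfl⟩
  have hΦ : AnalyticAt ℂ Φ 0 := by
    have h1 : Φ = fun p => eval (B.σ p).ofLp Q := funext hΦd
    rw [h1]
    exact AnalyticAt.comp (g := fun x : EN M => eval x.ofLp Q) (f := B.σ) (Pool.Agent.H14.PP.analyticAt_evalEN Q _)
      (B.σ_an _ (mem_closedBall_self B.pos.le))
  simp only [← hΦd] at hQ1 hQ2 ⊢
  clear hΦd
  have hOm : ∀ᶠ z in 𝓝 z₀, z ∈ B.Om F := (isOpen_Om B hF.diff hF.mem).mem_nhds hz₀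
  set g := B.cc F with hg
  have hga : AnalyticAt ℂ g z₀ := (cc_lift B hF.diff hF.mem hz₀).1
  have hx : AnalyticAt ℂ (fun z => (g z).1) z₀ := analyticAt_fst.comp hga
  have hy : AnalyticAt ℂ (fun z => (g z).2) z₀ := analyticAt_snd.comp hga
  have hx0 : (g z₀).1 = 0 := by rw [hc0]; rfl
  have hy0 : (g z₀).2 = 0 := by rw [hc0]; rfl
  have hgd : ∀ᶠ z in 𝓝 z₀, deriv (fun z => (g z).1) z = (deriv g z).1 ∧ deriv (fun z => (g z).2) z = (deriv g z).2 := by
    filter_upwards [hga.eventually_analyticAt] with z hz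
    exact ⟨((ContinuousLinearMap.fst ℂ ℂ ℂ).hasFDerivAt.comp_hasDerivAt z hz.differentiableAt.hasDerivAt).deriv,
      ((ContinuousLinearMap.snd ℂ ℂ ℂ).hasFDerivAt.comp_hasDerivAt z hz.differentiableAt.hasDerivAt).deriv⟩
  have h0cl : (0 : ℂ × ℂ) ∈ closedBall (0 : ℂ × ℂ) B.r := mem_closedBall_self B.pos.le
  have hag : AnalyticAt ℂ (fun z => a (g z)) z₀ := by
    have h1 : AnalyticAt ℂ a (g z₀) := by rw [hc0]; exact ha 0 h0cl
    exact AnalyticAt.comp (g := a) (f := g) h1 hga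
  have hag0 : a (g z₀) ≠ 0 := by rw [hc0]; exact ha0 0 h0cl
  have hane : ∀ᶠ z in 𝓝 z₀, a (g z) ≠ 0 := hag.continuousAt.eventually_ne hag0
  -- `b 0 = 0`
  have hb00 : b 0 = 0 := by
    obtain ⟨C, hC⟩ := (hJ 0).bound
    have h1 := hC.self_of_nhds
    rw [pf_jet_zero, hc, zero_pow (by omega : k + 1 ≠ 0), zero_mul, mul_zero, sub_zero, zero_add, pow_one, norm_zero, mul_zero] at h1
    exact norm_le_zero_iff.1 h1
  -- the equation `g' = ζ v`
  have hode : ∀ᶠ z in 𝓝 z₀, ((g z).1 ≠ 0 ∨ b (g z) ≠ 0) → (deriv g z).1 = B.zt F z * ((g z).1 ^ (k + 1) * a (g z)) ∧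
      (deriv g z).2 = B.zt F z * b (g z) := by
    filter_upwards [hOm, hane] with z hz h1 h3
    have hv : B.v (g z) ≠ 0 := by
      rw [h]
      intro h4
      rw [Prod.ext_iff] at h4
      rcases h3 with h3 | h3
      · exact (mul_ne_zero (pow_ne_zero _ h3) h1) h4.1
      · exact h3 h4.2
    have h4 := (deriv_cc B hF hz).2 hv
    rw [h] at h4
    rw [← hg] at h4
    constructor
    · rw [h4]; rfl
    · rw [h4]; rfl
  rcases hx.eventually_eq_zero_or_eventually_ne_zero with hxz | hxn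
  · rcases hy.eventually_eq_zero_or_eventually_ne_zero with hyz | hyn
    · exact (np_nc B hF hz₀ (by
        filter_upwards [hxz, hyz] with z h1 h2
        exact Prod.ext h1 h2)).elim
    -- the curve lies on `{x = 0}`
    have hax : AnalyticAt ℂ (fun t : ℂ => ((0 : ℂ), t)) 0 := analyticAt_const.prod analyticAt_id
    have hQa : AnalyticAt ℂ (fun t : ℂ => Φ (0, t)) 0 :=
      AnalyticAt.comp (g := Φ) (f := fun t : ℂ => ((0 : ℂ), t)) hΦ hax
    obtain ⟨q, hq1, hq2⟩ := np_div hQa hQ2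
    have hba : AnalyticAt ℂ (fun t : ℂ => b (0, t)) 0 :=
      AnalyticAt.comp (g := b) (f := fun t : ℂ => ((0 : ℂ), t)) (hb 0 h0cl) hax
    have hbd : deriv (fun t : ℂ => b (0, t)) 0 = fderiv ℂ b 0 (0, 1) := by
      have h1 : HasDerivAt (fun t : ℂ => ((0 : ℂ), t)) ((0 : ℂ), (1 : ℂ)) 0 := (hasDerivAt_const (0 : ℂ) (0 : ℂ)).prodMk (hasDerivAt_id (0 : ℂ))
      exact (HasFDerivAt.comp_hasDerivAt (0 : ℂ) (f := fun t : ℂ => ((0 : ℂ), t)) ((hb 0 h0cl).differentiableAt.hasFDerivAt) h1).deriv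
    have hbO : (fun t : ℂ => b (0, t)) =O[𝓝 0] fun t : ℂ => t ^ 1 := by
      have h1 := hba.differentiableAt.isBigO_sub
      refine h1.congr (fun t => ?_) fun t => ?_
      · have h2 : b (0, 0) = 0 := hb00
        rw [h2, sub_zero]
      · rw [sub_zero, pow_one]
    obtain ⟨b₁, hb1, hb2⟩ := np_div hba hbO
    have hb10 : b₁ 0 ≠ 0 := by
      intro h0
      apply hb0
      rw [← hbd]
      have h1 : (fun t : ℂ => b (0, t)) =ᶠ[𝓝 0] fun t => t ^ 1 * b₁ t := hb2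
      rw [h1.deriv_eq]
      have h2 : HasDerivAt (fun t : ℂ => t ^ 1 * b₁ t) (1 * b₁ 0 + (0 : ℂ) ^ 1 * deriv b₁ 0) 0 := by
        have h3 : HasDerivAt (fun t : ℂ => t ^ 1) 1 0 := by
          simp only [pow_one]
          exact hasDerivAt_id' (0 : ℂ)
        exact h3.mul hb1.differentiableAt.hasDerivAt
      rw [h2.deriv, h0]
      ring
    have hyt : Tendsto (fun z => (g z).2) (𝓝 z₀) (𝓝 0) := by
      have := hy.continuousAt.tendsto
      rwa [hy0] at this
    have hb1g : AnalyticAt ℂ (fun z => b₁ (g z).2) z₀ := by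
      have h3 : AnalyticAt ℂ b₁ ((g z₀).2) := by rw [hy0]; exact hb1
      exact AnalyticAt.comp (g := b₁) (f := fun z => (g z).2) h3 hy
    have hb1g0 : b₁ (g z₀).2 ≠ 0 := by rw [hy0]; exact hb10
    have hb1ne : ∀ᶠ z in 𝓝 z₀, b₁ (g z).2 ≠ 0 := hb1g.continuousAt.eventually_ne hb1g0
    refine ⟨fun z => ((deriv g z).2 / b₁ (g z).2) ^ n * ((g z).2 ^ (n * (K - 1)) * q (g z).2 ^ K), ?_, ?_⟩
    · have h1 : AnalyticAt ℂ (fun z => (deriv g z).2) z₀ := analyticAt_snd.comp hga.deriv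
      have h2 : AnalyticAt ℂ (fun z => q (g z).2) z₀ := by
        have h3 : AnalyticAt ℂ q ((g z₀).2) := by rw [hy0]; exact hq1
        exact AnalyticAt.comp (g := q) (f := fun z => (g z).2) h3 hy
      exact ((h1.div hb1g hb1g0).pow n).mul ((hy.pow _).mul (h2.pow K))
    · filter_upwards [nhdsWithin_le_nhds hxz, hyn, nhdsWithin_le_nhds hode, nhdsWithin_le_nhds hb1ne, nhdsWithin_le_nhds (hyt.eventually hq2),
        nhdsWithin_le_nhds (hyt.eventually hb2)] with z h1 h2 h3 h4 h5 h6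
      have h7 : g z = (0, (g z).2) := Prod.ext h1 rfl
      have h8 : Φ (g z) = (g z).2 ^ n * q (g z).2 := by
        rw [← h5]
        conv_lhs => rw [h7]
      have h9 : b (g z) = (g z).2 * b₁ (g z).2 := by
        rw [pow_one] at h6
        rw [← h6]
        conv_lhs => rw [h7]
      have h10 := (h3 (Or.inr (by rw [h9]; exact mul_ne_zero h2 h4))).2
      rw [h8, h10, h9]
      obtain ⟨j, rfl⟩ : ∃ j, K = j + 1 := ⟨K - 1, by omega⟩
      rw [Nat.add_sub_cancel]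
      have h11 : B.zt F z * ((g z).2 * b₁ (g z).2) / b₁ (g z).2 = B.zt F z * (g z).2 := by
        field_simp
      rw [h11]
      ring
  · -- infinite contact with the formal separatrix
    have hode' : ∀ᶠ z in 𝓝 z₀, (g z).1 ^ (k + 1) * a (g z) * (deriv g z).2 = b (g z) * (deriv g z).1 := by
      rw [eventually_nhdsWithin_iff] at hxn
      filter_upwards [hxn, hode] with z h1 h2
      by_cases hz : z = z₀
      · rw [hz, hc0, hb00]
        simp
      · obtain ⟨h3, h4⟩ := h2 (Or.inl (h1 hz))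
        rw [h3, h4]
        ring
    rcases contact_pass hk (ha 0 h0cl) (hb 0 h0cl) hb0 hc hJ hga hc0 hode' with hX | hX
    · exfalso
      obtain ⟨z, hz1, hz2⟩ := (hxn.and (nhdsWithin_le_nhds hX)).exists
      exact hz1 hz2
    have hXn := hX n
    have hnz : ¬ ∀ᶠ z in 𝓝 z₀, (g z).1 = 0 := by
      intro h1
      obtain ⟨z, hz1, hz2⟩ := (hxn.and (nhdsWithin_le_nhds h1)).exists
      exact hz1 hz2
    obtain ⟨m, u, hu, hu0, hxu⟩ := (hx.exists_eventuallyEq_pow_smul_nonzero_iff).2 hnz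
    simp only [smul_eq_mul] at hxu
    have hm : 1 ≤ m := by
      by_contra hm
      have hm0 : m = 0 := by omega
      have h1 := hxu.self_of_nhds
      rw [hm0, pow_zero, one_mul, hx0] at h1
      exact hu0 h1.symm
    have hxt : Tendsto (fun z => (g z).1) (𝓝 z₀) (𝓝 0) := by
      have := hx.continuousAt.tendsto
      rwa [hx0] at this
    have hxO : (fun z => (g z).1) =O[𝓝 z₀] fun z => (z - z₀) ^ m := by
      have h1 : (fun z => (z - z₀) ^ m * u z) =O[𝓝 z₀] fun z => (z - z₀) ^ m * (1 : ℂ) :=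
        (isBigO_refl _ _).mul (hu.continuousAt.tendsto.isBigO_one ℂ)
      refine IsBigO.congr' h1 ?_ (Eventually.of_forall fun z => mul_one _)
      filter_upwards [hxu] with z hz
      exact hz.symm
    -- `Φ (g z) = O (X ^ n)`
    have hΦg : AnalyticAt ℂ (fun z => Φ (g z)) z₀ := by
      have h1 : AnalyticAt ℂ Φ (g z₀) := by rw [hc0]; exact hΦ
      exact AnalyticAt.comp (g := Φ) (f := g) h1 hga
    have hΦO : (fun z => Φ (g z)) =O[𝓝 z₀] fun z => (z - z₀) ^ (m * n) := by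
      have h1 := hΦ.hasStrictFDerivAt.isBigO_sub
      have hjt : ContinuousAt (fun z => jet c n (g z).1) z₀ := by
        have h2 : AnalyticAt ℂ (fun z => jet c n (g z).1) z₀ := AnalyticAt.comp (g := jet c n) (f := fun z => (g z).1) (pf_jet_an c n _) hx
        exact h2.continuousAt
      have hpt : Tendsto (fun z => (g z, ((g z).1, jet c n (g z).1))) (𝓝 z₀) (𝓝 ((0 : ℂ × ℂ), (0 : ℂ × ℂ))) := by
        have h2 : ContinuousAt (fun z => (g z, ((g z).1, jet c n (g z).1))) z₀ := hga.continuousAt.prodMk (hx.continuousAt.prodMk hjt)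
        have h3 := h2.tendsto
        rw [hx0, pf_jet_zero, hc, hc0] at h3
        exact h3
      have h2 : (fun z => Φ (g z) - Φ ((g z).1, jet c n (g z).1)) =O[𝓝 z₀]
          fun z => g z - ((g z).1, jet c n (g z).1) := h1.comp_tendsto hpt
      have h3 : (fun z => g z - ((g z).1, jet c n (g z).1)) =O[𝓝 z₀] fun z => (g z).2 - jet c n (g z).1 := by
        refine IsBigO.of_bound 1 (Eventually.of_forall fun z => ?_)
        rw [Prod.norm_def]
        simp
      have h4 : (fun z => (g z).1 ^ (n + 1)) =O[𝓝 z₀] fun z => (g z).1 ^ n := by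
        have h5 := (isBigO_refl (fun z => (g z).1 ^ n) (𝓝 z₀)).mul (hxt.isBigO_one ℂ)
        refine h5.congr (fun z => by ring) fun z => mul_one _
      have h5 : (fun z => Φ ((g z).1, jet c n (g z).1)) =O[𝓝 z₀] fun z => (g z).1 ^ n := hQ1.comp_tendsto hxt
      have h6 : (fun z => Φ (g z)) =O[𝓝 z₀] fun z => (g z).1 ^ n := by
        refine (((h2.trans h3).trans (hXn.trans h4)).add h5).congr (fun z => by ring) fun z => rfl
      refine h6.trans ((hxO.pow n).congr (fun z => rfl) fun z => ?_)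
      rw [← pow_mul]
    obtain ⟨q, hq, hq1⟩ := ft_div hΦg hΦO
    obtain ⟨j, rfl⟩ : ∃ j, K = k + 1 + j := ⟨K - (k + 1), by omega⟩
    refine ⟨fun z => (z - z₀) ^ (n * (m - 1) + m * n * j) * (((m : ℂ) * u z + (z - z₀) * deriv u z) / (u z ^ (k + 1) * a (g z))) ^ n *
      q z ^ (k + 1 + j), ?_, ?_⟩
    · have h1 : AnalyticAt ℂ (fun z : ℂ => z - z₀) z₀ := analyticAt_id.sub analyticAt_const
      have h2 : AnalyticAt ℂ (fun z : ℂ => (m : ℂ) * u z + (z - z₀) * deriv u z) z₀ := (analyticAt_const.mul hu).add (h1.mul hu.deriv)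
      exact ((h1.pow _).mul ((h2.div ((hu.pow _).mul hag) (mul_ne_zero (pow_ne_zero _ hu0) hag0)).pow n)).mul (hq.pow _)
    · have hder : ∀ᶠ z in 𝓝 z₀, deriv (fun z => (g z).1) z = (m : ℂ) * (z - z₀) ^ (m - 1) * u z + (z - z₀) ^ m * deriv u z := by
        filter_upwards [hxu.eventually_nhds, hu.eventually_analyticAt] with z hz huz
        have h1 : (fun z => (g z).1) =ᶠ[𝓝 z] fun w => (w - z₀) ^ m * u w := by
          filter_upwards [hz] with w hw
          rw [hw]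
        rw [h1.deriv_eq]
        have h2 : HasDerivAt (fun w : ℂ => (w - z₀) ^ m) ((m : ℂ) * (z - z₀) ^ (m - 1)) z := by
          have h3 := ((hasDerivAt_id' z).sub_const z₀).fun_pow m
          simpa using h3
        exact (h2.mul huz.differentiableAt.hasDerivAt).deriv
      filter_upwards [hxn, nhdsWithin_le_nhds hode, nhdsWithin_le_nhds hxu, nhdsWithin_le_nhds (hu.continuousAt.eventually_ne hu0),
        nhdsWithin_le_nhds hane, nhdsWithin_le_nhds hder, nhdsWithin_le_nhds hgd, nhdsWithin_le_nhds hq1, self_mem_nhdsWithin]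
        with z h1 h2 h3 h4 h5 h6 h7 h8 h9
      have ht : z - z₀ ≠ 0 := sub_ne_zero.2 h9
      have h10 := (h2 (Or.inl h1)).1
      rw [← h7.1, h6] at h10
      have h11 : B.zt F z = (z - z₀) ^ (m - 1) * (((m : ℂ) * u z + (z - z₀) * deriv u z) / (u z ^ (k + 1) * a (g z))) /
          (z - z₀) ^ (m * (k + 1)) := by
        have h12 : (z - z₀) ^ (m * (k + 1)) ≠ 0 := pow_ne_zero _ ht
        have h13 : u z ^ (k + 1) * a (g z) ≠ 0 := mul_ne_zero (pow_ne_zero _ h4) h5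
        rw [eq_div_iff h12, ← mul_div_assoc, eq_div_iff h13]
        rw [h3, mul_pow, ← pow_mul] at h10
        have h14 : (z - z₀) ^ m = (z - z₀) ^ (m - 1) * (z - z₀) := by
          rw [← pow_succ]
          congr 1
          omega
        rw [h14] at h10
        linear_combination -h10
      rw [h8, h11, ft_alg ht]

end Pool.Agent.MQ
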