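import Pool.Agent.MQ.GeoDefs
import Pool.Agent.MQ.Bridge

/-!
# MQ Frame: the curve in a box, in one variable

`Crv1 v r Om g`: holomorphic coordinates `g` of a curve on the open set `Om`, with values in the polydisc of radius `r`, tangent to the vector field `v`.
`ztv` is `ζ'`, `DDv` is `DD`, `LocalN1` is `LocalN`.
-/

set_option autoImplicit false

open Topology Filter Metric MeasureTheory

noncomputable section

namespace Pool.Agent.MQ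

open Pool.Agent.H36.BP (EN fs)
open Pool.Agent.H30M (tau)

/-- the curve in a box, in one variable -/
structure Crv1 (v : ℂ × ℂ → ℂ × ℂ) (r : ℝ) (Om : Set ℂ) (g : ℂ → ℂ × ℂ) : Prop where
  isOpen : IsOpen Om
  an : ∀ z ∈ Om, AnalyticAt ℂ g z
  mem : ∀ z ∈ Om, g z ∈ ball (0 : ℂ × ℂ) r
  closed : ∀ s < r, IsClosed {z | z ∈ Om ∧ g z ∈ closedBall (0 : ℂ × ℂ) s}
  ode : ∀ z ∈ Om, (v (g z)).1 * (deriv g z).2 - (v (g z)).2 * (deriv g z).1 = 0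

open Classical in
/-- `g' = ζ' v (g)` -/
def ztv (v : ℂ × ℂ → ℂ × ℂ) (g : ℂ → ℂ × ℂ) (z : ℂ) : ℂ :=
  if (v (g z)).2 = 0 then (deriv g z).1 / (v (g z)).1 else (deriv g z).2 / (v (g z)).2

/-- the logarithmic derivative of the flat section, divided by the equation `l` of the invariant curve -/
def DDv (v : ℂ × ℂ → ℂ × ℂ) (l : ℂ × ℂ → ℂ) (g : ℂ → ℂ × ℂ) (z : ℂ) : ℂ :=
  dvg v (g z) * ztv v g z - deriv (fun w => l (g w)) z / l (g z)

/-- `LocalN` in one variable; `I` is the energy, `Λ` the length -/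
def LocalN1 (v : ℂ × ℂ → ℂ × ℂ) (l : ℂ × ℂ → ℂ) (Om : Set ℂ) (g : ℂ → ℂ × ℂ) (I Λ : ℝ → ℝ) (s δ : ℝ) : Prop :=
  ∃ (C : ℝ) (η : ℂ → ℂ) (err : ℂ → ℝ), 0 ≤ C ∧ ContDiffOn ℝ 1 η Om ∧ ContinuousOn err Om ∧
    (∀ z ∈ Om, g z ∉ ball (0 : ℂ × ℂ) s → η z = (starRingEnd ℂ) (DDv v l g z) ∧ err z = 0) ∧
    (∀ z ∈ Om, g z ∈ ball (0 : ℂ × ℂ) s → ‖η z‖ ≤ C * ‖deriv g z‖) ∧ (∀ z ∈ Om, 0 ≤ err z) ∧
    (∀ z ∈ Om, 0 ≤ dv η z + err z) ∧
    ∀ R, 1 ≤ R → ∫ z in Om, tau R z * err z ≤ δ * I R + C * Λ R + C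

theorem localN_iff {M : ℕ} {P : Ideal (MvPolynomial (Fin (M + 1)) ℂ)} {FF : Set (EN M × EN M)} (B : GBox P FF) (l : ℂ × ℂ → ℂ) (F : ℂ → EN M) (s δ : ℝ) :
    LocalN B l F s δ ↔ LocalN1 B.v l (B.Om F) (B.cc F) (En F) (Len F) s δ := Iff.rfl

theorem zt_eq {M : ℕ} {P : Ideal (MvPolynomial (Fin (M + 1)) ℂ)} {FF : Set (EN M × EN M)} (B : GBox P FF) (F : ℂ → EN M) :
    B.zt F = ztv B.v (B.cc F) := rfl

variable {v : ℂ × ℂ → ℂ × ℂ} {r : ℝ} {Om : Set ℂ} {g : ℂ → ℂ × ℂ}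

theorem Crv1.ztv_fst (h : Crv1 v r Om g) {z : ℂ} (hz : z ∈ Om) (h1 : (v (g z)).1 ≠ 0) : ztv v g z = (deriv g z).1 / (v (g z)).1 := by
  classical
  unfold ztv
  split_ifs with h2
  · rfl
  · rw [div_eq_div_iff h2 h1]
    have := h.ode z hz
    linear_combination this

theorem ztv_snd {z : ℂ} (h1 : (v (g z)).2 ≠ 0) : ztv v g z = (deriv g z).2 / (v (g z)).2 := by
  classical
  unfold ztv
  rw [if_neg h1]

theorem Crv1.deriv_fst (h : Crv1 v r Om g) {z : ℂ} (hz : z ∈ Om) (h1 : v (g z) ≠ 0) : (deriv g z).1 = ztv v g z * (v (g z)).1 := by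
  by_cases h2 : (v (g z)).1 = 0
  · have h3 : (v (g z)).2 ≠ 0 := fun h3 => h1 (Prod.ext h2 h3)
    have h4 := h.ode z hz
    rw [h2, zero_mul, zero_sub, neg_eq_zero, mul_eq_zero] at h4
    rcases h4 with h4 | h4
    · exact absurd h4 h3
    · rw [h2, mul_zero, h4]
  · rw [h.ztv_fst hz h2, div_mul_cancel₀ _ h2]

theorem Crv1.deriv_snd (h : Crv1 v r Om g) {z : ℂ} (hz : z ∈ Om) (h1 : v (g z) ≠ 0) : (deriv g z).2 = ztv v g z * (v (g z)).2 := by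
  by_cases h2 : (v (g z)).2 = 0
  · have h3 : (v (g z)).1 ≠ 0 := fun h3 => h1 (Prod.ext h3 h2)
    have h4 := h.ode z hz
    rw [h2, zero_mul, sub_zero, mul_eq_zero] at h4
    rcases h4 with h4 | h4
    · exact absurd h4 h3
    · rw [h2, mul_zero, h4]
  · rw [ztv_snd h2, div_mul_cancel₀ _ h2]

theorem an_fst {g : ℂ → ℂ × ℂ} {z : ℂ} (h : AnalyticAt ℂ g z) : AnalyticAt ℂ (fun w => (g w).1) z := analyticAt_fst.comp h

theorem an_snd {g : ℂ → ℂ × ℂ} {z : ℂ} (h : AnalyticAt ℂ g z) : AnalyticAt ℂ (fun w => (g w).2) z := analyticAt_snd.comp h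

theorem deriv_fst' {z : ℂ} (h : DifferentiableAt ℂ g z) : deriv (fun w => (g w).1) z = (deriv g z).1 :=
  ((ContinuousLinearMap.fst ℂ ℂ ℂ).hasFDerivAt.comp_hasDerivAt z h.hasDerivAt).deriv

theorem deriv_snd' {z : ℂ} (h : DifferentiableAt ℂ g z) : deriv (fun w => (g w).2) z = (deriv g z).2 :=
  ((ContinuousLinearMap.snd ℂ ℂ ℂ).hasFDerivAt.comp_hasDerivAt z h.hasDerivAt).deriv

/-- `ζ'` is analytic off the zeros of `v` -/
theorem Crv1.an_ztv (h : Crv1 v r Om g) {z : ℂ} (hz : z ∈ Om) (hv : AnalyticAt ℂ v (g z)) (h1 : v (g z) ≠ 0) : AnalyticAt ℂ (ztv v g) z := by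
  have hg := h.an z hz
  have hvg : AnalyticAt ℂ (fun w => v (g w)) z := hv.comp hg
  by_cases h2 : (v (g z)).2 = 0
  · have h3 : (v (g z)).1 ≠ 0 := fun h3 => h1 (Prod.ext h3 h2)
    have h4 : (fun w => (deriv g w).1 / (v (g w)).1) =ᶠ[𝓝 z] ztv v g := by
      filter_upwards [h.isOpen.mem_nhds hz, (an_fst hvg).continuousAt.eventually_ne h3] with w hw hw2
      exact (h.ztv_fst hw hw2).symm
    exact ((an_fst hg.deriv).div (an_fst hvg) h3).congr h4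
  · have h4 : (fun w => (deriv g w).2 / (v (g w)).2) =ᶠ[𝓝 z] ztv v g := by
      filter_upwards [(an_snd hvg).continuousAt.eventually_ne h2] with w hw2
      exact (ztv_snd hw2).symm
    exact ((an_snd hg.deriv).div (an_snd hvg) h2).congr h4

end Pool.Agent.MQ
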