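import Pool.Agent.MQ.VDefs

/-!
# MQ V10 `Reg2`: two variables, near an axis
-/

set_option autoImplicit false

open MeasureTheory Topology Filter Metric

noncomputable section

namespace Pool.Agent.MQ

/-- the estimates on the axis `x = 0`, with strict inequalities, and near it -/
private theorem reg2_aux {q : ℂ × ℂ → ℂ} {n : ℕ} (hn : 1 ≤ n) {ε : ℝ} (hε : 0 < ε) {u : ℂ → ℂ} {y : ℂ} (hy : y ≠ 0)
    (hq : AnalyticAt ℂ q (0, y)) (hu : AnalyticAt ℂ u y) (hqu : ∀ᶠ t in 𝓝 y, q (0, t) = t ^ n * u t) (hu0 : u y ≠ 0)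
    (hyu : ‖y * deriv u y‖ < ε * ‖u y‖) {b₀ : ℝ} (hb : b₀ < n * Real.log ‖y‖ + Real.log ‖u y‖)
    (hb' : n * Real.log ‖y‖ + Real.log ‖u y‖ < b₀ + n) :
    ∀ᶠ p : ℂ × ℂ in 𝓝 (0, y), q (p.1, p.2) ≠ 0 ∧ b₀ ≤ Real.log ‖q (p.1, p.2)‖ ∧ Real.log ‖q (p.1, p.2)‖ ≤ b₀ + n ∧
      ‖p.1‖ * ‖fderiv ℂ q (p.1, p.2) (1, 0)‖ ≤ ε * ‖q (p.1, p.2)‖ ∧
      ‖p.2 * fderiv ℂ q (p.1, p.2) (0, 1) - n * q (p.1, p.2)‖ ≤ ε * ‖q (p.1, p.2)‖ := by
  have hq1 : q (0, y) = y ^ n * u y := hqu.self_of_nhds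
  have hyn : y ^ n ≠ 0 := pow_ne_zero n hy
  have hq0 : q (0, y) ≠ 0 := by rw [hq1]; exact mul_ne_zero hyn hu0
  have hqn : 0 < ‖q (0, y)‖ := norm_pos_iff.2 hq0
  have hlog : Real.log ‖q (0, y)‖ = n * Real.log ‖y‖ + Real.log ‖u y‖ := by
    rw [hq1, norm_mul, norm_pow, Real.log_mul (pow_ne_zero n (norm_ne_zero_iff.2 hy)) (norm_ne_zero_iff.2 hu0), Real.log_pow]
  have hd1 : HasDerivAt (fun t : ℂ => q (0, t)) (fderiv ℂ q (0, y) (0, 1)) y := by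
    have h1 : HasFDerivAt q (fderiv ℂ q (0, y)) (0, y) := hq.differentiableAt.hasFDerivAt
    have h2 : HasDerivAt (fun t : ℂ => ((0 : ℂ), t)) ((0 : ℂ), (1 : ℂ)) y := (hasDerivAt_const y (0 : ℂ)).prodMk (hasDerivAt_id y)
    exact h1.comp_hasDerivAt y h2
  have hd2 : HasDerivAt (fun t : ℂ => t ^ n * u t) (n * y ^ (n - 1) * u y + y ^ n * deriv u y) y :=
    (hasDerivAt_pow n y).mul hu.differentiableAt.hasDerivAt
  have hd3 : fderiv ℂ q (0, y) (0, 1) = n * y ^ (n - 1) * u y + y ^ n * deriv u y := by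
    have h := hd1.congr_of_eventuallyEq (f₁ := fun t : ℂ => t ^ n * u t) (hqu.mono fun t ht => ht.symm)
    exact h.unique hd2
  have hd4 : y * fderiv ℂ q (0, y) (0, 1) - n * q (0, y) = y ^ n * (y * deriv u y) := by
    rw [hd3, hq1]
    have : y ^ n = y * y ^ (n - 1) := by rw [← pow_succ', Nat.sub_add_cancel hn]
    rw [this]; ring
  have hfin : ‖y * fderiv ℂ q (0, y) (0, 1) - n * q (0, y)‖ < ε * ‖q (0, y)‖ := by
    rw [hd4, hq1, norm_mul, norm_mul (y ^ n) (u y)]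
    have := mul_lt_mul_of_pos_left hyu (norm_pos_iff.2 hyn)
    linarith
  have cq : ContinuousAt q (0, y) := hq.continuousAt
  have cf : ContinuousAt (fderiv ℂ q) (0, y) := hq.fderiv.continuousAt
  have cqn : ContinuousAt (fun p : ℂ × ℂ => ‖q p‖) (0, y) := cq.norm
  have cql : ContinuousAt (fun p : ℂ × ℂ => Real.log ‖q p‖) (0, y) := cqn.log (ne_of_gt hqn)
  have e1 : ∀ᶠ p : ℂ × ℂ in 𝓝 (0, y), q p ≠ 0 := cq.eventually_ne hq0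
  have e2 : ∀ᶠ p : ℂ × ℂ in 𝓝 (0, y), b₀ < Real.log ‖q p‖ := cql.eventually_const_lt (by show b₀ < Real.log ‖q (0, y)‖; rw [hlog]; exact hb)
  have e3 : ∀ᶠ p : ℂ × ℂ in 𝓝 (0, y), Real.log ‖q p‖ < b₀ + n := cql.eventually_lt_const (by show Real.log ‖q (0, y)‖ < b₀ + n; rw [hlog]; exact hb')
  have e4 : ∀ᶠ p : ℂ × ℂ in 𝓝 (0, y), ‖p.1‖ * ‖fderiv ℂ q p (1, 0)‖ < ε * ‖q p‖ := by
    have c1 : ContinuousAt (fun p : ℂ × ℂ => ‖p.1‖ * ‖fderiv ℂ q p (1, 0)‖) (0, y) :=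
      continuousAt_fst.norm.mul (cf.clm_apply continuousAt_const).norm
    refine ContinuousAt.eventually_lt c1 (continuousAt_const.mul cqn) ?_
    simp only [norm_zero, zero_mul]
    positivity
  have e5 : ∀ᶠ p : ℂ × ℂ in 𝓝 (0, y), ‖p.2 * fderiv ℂ q p (0, 1) - n * q p‖ < ε * ‖q p‖ := by
    have c1 : ContinuousAt (fun p : ℂ × ℂ => ‖p.2 * fderiv ℂ q p (0, 1) - n * q p‖) (0, y) :=
      ((continuousAt_snd.mul (cf.clm_apply continuousAt_const)).sub (continuousAt_const.mul cq)).norm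
    exact ContinuousAt.eventually_lt c1 (continuousAt_const.mul cqn) hfin
  filter_upwards [e1, e2, e3, e4, e5] with p h1 h2 h3 h4 h5
  exact ⟨h1, h2.le, h3.le, h4.le, h5.le⟩

theorem reg2 {q : ℂ × ℂ → ℂ} (hq : AnalyticAt ℂ q 0) {n : ℕ} (hn : 1 ≤ n) (hord : analyticOrderAt (fun t => q (0, t)) 0 = n) {ε : ℝ} (hε : 0 < ε) :
    ∀ᶠ r₀ in 𝓝[>] (0 : ℝ), ∃ (η b₀ : ℝ), 0 < η ∧ 2 * η ≤ r₀ ∧ ∀ x y : ℂ, ‖x‖ ≤ η → r₀ / 2 ≤ ‖y‖ → ‖y‖ ≤ r₀ →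
      q (x, y) ≠ 0 ∧ b₀ ≤ Real.log ‖q (x, y)‖ ∧ Real.log ‖q (x, y)‖ ≤ b₀ + n ∧ ‖x‖ * ‖fderiv ℂ q (x, y) (1, 0)‖ ≤ ε * ‖q (x, y)‖ ∧
      ‖y * fderiv ℂ q (x, y) (0, 1) - n * q (x, y)‖ ≤ ε * ‖q (x, y)‖ := by
  have hc0 : Continuous fun t : ℂ => ((0 : ℂ), t) := by fun_prop
  have hq0 : AnalyticAt ℂ (fun t : ℂ => q (0, t)) 0 := by
    have h1 : AnalyticAt ℂ (fun t : ℂ => ((0 : ℂ), t)) 0 := analyticAt_const.prod analyticAt_id
    exact AnalyticAt.fun_comp (f := fun t : ℂ => ((0 : ℂ), t)) (g := q) hq h1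
  obtain ⟨u, hu, hu0, hqu⟩ := (hq0.analyticOrderAt_eq_natCast).1 hord
  have hun : 0 < ‖u 0‖ := norm_pos_iff.2 hu0
  -- the conditions on `y`
  have E1 : ∀ᶠ y : ℂ in 𝓝 0, AnalyticAt ℂ q (0, y) :=
    hc0.continuousAt.eventually (p := fun p => AnalyticAt ℂ q p) hq.eventually_analyticAt
  have E2 : ∀ᶠ y : ℂ in 𝓝 0, ∀ᶠ t in 𝓝 y, q (0, t) = t ^ n * u t := by
    refine eventually_eventually_nhds.2 (hqu.mono fun t ht => ?_)
    simpa using ht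
  have E3 : ∀ᶠ y : ℂ in 𝓝 0, AnalyticAt ℂ u y := hu.eventually_analyticAt
  have cu : ContinuousAt u 0 := hu.continuousAt
  have cul : ContinuousAt (fun y => Real.log ‖u y‖) 0 := cu.norm.log (ne_of_gt hun)
  have E4 : ∀ᶠ y : ℂ in 𝓝 0, ‖y * deriv u y‖ < ε * ‖u y‖ := by
    have c1 : ContinuousAt (fun y : ℂ => ‖y * deriv u y‖) 0 := (continuousAt_id.mul hu.deriv.continuousAt).norm
    refine ContinuousAt.eventually_lt c1 (continuousAt_const.mul cu.norm) ?_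
    simp only [zero_mul, norm_zero]
    positivity
  have E5 : ∀ᶠ y : ℂ in 𝓝 0, Real.log ‖u 0‖ - 1 / 10 < Real.log ‖u y‖ := cul.eventually_const_lt (by linarith)
  have E5' : ∀ᶠ y : ℂ in 𝓝 0, Real.log ‖u y‖ < Real.log ‖u 0‖ + 1 / 10 := cul.eventually_lt_const (by linarith)
  have E6 : ∀ᶠ y : ℂ in 𝓝 0, u y ≠ 0 := cu.eventually_ne hu0
  obtain ⟨δ, hδ, hball⟩ := Metric.eventually_nhds_iff.1 (E1.and (E2.and (E3.and (E4.and (E5.and (E5'.and E6))))))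
  filter_upwards [Ioo_mem_nhdsGT hδ] with r₀ hr
  obtain ⟨hr0, hrδ⟩ := hr
  have hr2 : 0 < r₀ / 2 := by positivity
  have hA : IsCompact {y : ℂ | r₀ / 2 ≤ ‖y‖ ∧ ‖y‖ ≤ r₀} := by
    have h1 : IsClosed {y : ℂ | r₀ / 2 ≤ ‖y‖ ∧ ‖y‖ ≤ r₀} :=
      (isClosed_le continuous_const continuous_norm).inter (isClosed_le continuous_norm continuous_const)
    refine (isCompact_closedBall (0 : ℂ) r₀).of_isClosed_subset h1 fun y hy => ?_
    rw [mem_closedBall, dist_zero_right]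
    exact hy.2
  have key := hA.eventually_forall_of_forall_eventually (x₀ := (0 : ℂ))
    (P := fun x y => q (x, y) ≠ 0 ∧ n * Real.log (r₀ / 2) + Real.log ‖u 0‖ - 1 / 10 ≤ Real.log ‖q (x, y)‖ ∧
      Real.log ‖q (x, y)‖ ≤ n * Real.log (r₀ / 2) + Real.log ‖u 0‖ - 1 / 10 + n ∧ ‖x‖ * ‖fderiv ℂ q (x, y) (1, 0)‖ ≤ ε * ‖q (x, y)‖ ∧
      ‖y * fderiv ℂ q (x, y) (0, 1) - n * q (x, y)‖ ≤ ε * ‖q (x, y)‖) (fun y hy => by
    have hyp : 0 < ‖y‖ := hr2.trans_le hy.1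
    obtain ⟨h1, h2, h3, h4, h5, h5', h6⟩ := hball (y := y) (by rw [dist_zero_right]; exact hy.2.trans_lt hrδ)
    have hn1 : (1 : ℝ) ≤ n := by exact_mod_cast hn
    have l1 : Real.log (r₀ / 2) ≤ Real.log ‖y‖ := Real.log_le_log hr2 hy.1
    have l2 : Real.log ‖y‖ ≤ Real.log (r₀ / 2) + Real.log 2 := by
      rw [← Real.log_mul (ne_of_gt hr2) (by norm_num)]
      exact Real.log_le_log hyp (by linarith [hy.2])
    have l3 : Real.log 2 < 0.7 := Real.log_two_lt_d9.trans (by norm_num)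
    refine reg2_aux hn hε (norm_pos_iff.1 hyp) h1 h3 h2 h6 h4 ?_ ?_
    · nlinarith
    · nlinarith)
  obtain ⟨δ', hδ', hball'⟩ := Metric.eventually_nhds_iff.1 key
  refine ⟨min (δ' / 2) (r₀ / 2), n * Real.log (r₀ / 2) + Real.log ‖u 0‖ - 1 / 10, by positivity, ?_, fun x y hx h1 h2 => ?_⟩
  · have := min_le_right (δ' / 2) (r₀ / 2)
    linarith
  · refine hball' (y := x) ?_ y ⟨h1, h2⟩
    rw [dist_zero_right]
    have := min_le_left (δ' / 2) (r₀ / 2)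
    linarith

end Pool.Agent.MQ
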