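import Pool.Agent.MQ.Ax0
import Pool.Agent.MQ.Reg2

/-!
# MQ Shell: the logarithm of a form with high contact with an axis, in a shell around the axis

`q (x, y)` is the form in the coordinates of the box, `q (0, y) = c y ^ n + …`.
-/

set_option autoImplicit false

open MeasureTheory Topology Filter Metric Laplacian

noncomputable section

namespace Pool.Agent.MQ.AxisA

open Pool.Agent.H36.BP (EN fs)
open Pool.Agent.MQ

/-- the gradient of `ψ (x, y)` -/
theorem norm_gr_comp_le {ψ : ℂ × ℂ → ℝ} {x y : ℂ → ℂ} {z : ℂ} (hψ : DifferentiableAt ℝ ψ (x z, y z)) (hx : AnalyticAt ℂ x z) (hy : AnalyticAt ℂ y z)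
    {C : ℝ} (hC : ‖fderiv ℝ ψ (x z, y z)‖ ≤ C) : ‖gr (fun w => ψ (x w, y w)) z‖ ≤ C * max ‖deriv x z‖ ‖deriv y z‖ := by
  have hx' : HasFDerivAt x ((ContinuousLinearMap.toSpanSingleton ℂ (deriv x z)).restrictScalars ℝ) z :=
    hx.differentiableAt.hasDerivAt.hasFDerivAt.restrictScalars ℝ
  have hy' : HasFDerivAt y ((ContinuousLinearMap.toSpanSingleton ℂ (deriv y z)).restrictScalars ℝ) z :=
    hy.differentiableAt.hasDerivAt.hasFDerivAt.restrictScalars ℝ
  have hp := hx'.prodMk hy'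
  have h1 : HasFDerivAt (fun w => ψ (x w, y w)) ((fderiv ℝ ψ (x z, y z)).comp
      (((ContinuousLinearMap.toSpanSingleton ℂ (deriv x z)).restrictScalars ℝ).prod
        ((ContinuousLinearMap.toSpanSingleton ℂ (deriv y z)).restrictScalars ℝ))) z := hψ.hasFDerivAt.comp z hp
  have hC0 : 0 ≤ C := (norm_nonneg _).trans hC
  rw [norm_gr, h1.fderiv]
  refine ContinuousLinearMap.opNorm_le_bound _ (by positivity) fun v => ?_
  simp only [ContinuousLinearMap.comp_apply]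
  refine (ContinuousLinearMap.le_opNorm _ _).trans ?_
  have h2 : ‖(((ContinuousLinearMap.toSpanSingleton ℂ (deriv x z)).restrictScalars ℝ).prod
        ((ContinuousLinearMap.toSpanSingleton ℂ (deriv y z)).restrictScalars ℝ)) v‖ ≤ max ‖deriv x z‖ ‖deriv y z‖ * ‖v‖ := by
    simp only [ContinuousLinearMap.prod_apply, ContinuousLinearMap.coe_restrictScalars', ContinuousLinearMap.toSpanSingleton_apply, Prod.norm_def,
      norm_smul]
    refine max_le ?_ ?_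
    · rw [mul_comm]
      exact mul_le_mul_of_nonneg_right (le_max_left _ _) (norm_nonneg _)
    · rw [mul_comm]
      exact mul_le_mul_of_nonneg_right (le_max_right _ _) (norm_nonneg _)
  calc _ ≤ C * (max ‖deriv x z‖ ‖deriv y z‖ * ‖v‖) := mul_le_mul hC h2 (norm_nonneg _) hC0
    _ = _ := by ring

/-- **The shell lemma.** -/
theorem shell {q : ℂ × ℂ → ℂ} (hq : AnalyticAt ℂ q 0) {n : ℕ} (hn : 1 ≤ n) (hord : analyticOrderAt (fun t => q (0, t)) 0 = n) {ψ : ℂ × ℂ → ℝ}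
    (hψ : ContDiffAt ℝ 1 ψ 0) (d : ℕ) {K : ℝ} (hK : 0 ≤ K) {s : ℝ} (hs : 0 < s) :
    ∃ ρ η : ℝ, 0 < η ∧ 2 * η ≤ ρ ∧ ρ < s ∧ ∀ c : ℝ, 0 < c → ∃ b₀ : ℝ, ∀ {M : ℕ} {F : ℂ → EN M} (_ : Differentiable ℂ F) (_ : ∀ z, F z ≠ 0)
      {g : ℂ → ℂ} {U : Set ℂ} {x y a b : ℂ → ℂ} {rho : ℝ} (_ : Axis0 U x y a b K rho)
      (_ : ∀ z ∈ U, ‖g z‖ * Real.exp (d * ψ (x z, y z)) = c * ‖q (x z, y z)‖ * ‖F z‖ ^ d),
      ∀ z ∈ U, ‖x z‖ ≤ η → ρ / 2 ≤ ‖y z‖ → ‖y z‖ ≤ ρ → g z ≠ 0 ∧ b₀ ≤ lu F g d z ∧ lu F g d z ≤ b₀ + 2 * n ∧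
        (n / 2) * ‖b z‖ ≤ ‖gr (lu F g d) z‖ := by
  have hn0 : (1 : ℝ) ≤ n := by exact_mod_cast hn
  have hd0 : (0 : ℝ) ≤ d := Nat.cast_nonneg d
  set ε : ℝ := 1 / (8 * (1 + K)) with hε
  have hε0 : 0 < ε := by positivity
  -- the function `ψ` near `0`
  obtain ⟨C, hC0, hCb⟩ : ∃ C : ℝ, 0 < C ∧ ∀ᶠ p in 𝓝 (0 : ℂ × ℂ), DifferentiableAt ℝ ψ p ∧ ‖fderiv ℝ ψ p‖ ≤ C := by
    refine ⟨‖fderiv ℝ ψ 0‖ + 1, by positivity, ?_⟩
    have h1 : ContinuousAt (fun p => ‖fderiv ℝ ψ p‖) 0 := (hψ.fderiv_right (m := 0) (by norm_num)).continuousAt.norm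
    filter_upwards [hψ.eventually (by simp), h1.eventually (gt_mem_nhds (lt_add_one _))] with p h2 h3
    exact ⟨h2.differentiableAt (by norm_num), h3.le⟩
  have hψc : ∀ᶠ p in 𝓝 (0 : ℂ × ℂ), |ψ p - ψ 0| ≤ 1 / (2 * ((d : ℝ) + 1)) := by
    have h1 : ContinuousAt (fun p => |ψ p - ψ 0|) 0 := (hψ.continuousAt.sub continuousAt_const).abs
    have h2 : |ψ 0 - ψ 0| < 1 / (2 * ((d : ℝ) + 1)) := by
      rw [sub_self, abs_zero]
      positivity
    filter_upwards [h1.eventually (gt_mem_nhds h2)] with p hp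
    exact hp.le
  obtain ⟨t, ht0, ht⟩ := Metric.eventually_nhds_iff_ball.1 (hCb.and (hψc.and hq.eventually_analyticAt))
  -- the radius
  have hsmall : ∀ᶠ r in 𝓝[>] (0 : ℝ), 0 < r ∧ r < s ∧ r < t ∧ ((d : ℝ) + 1) * C * (1 + K) * r ≤ 1 / 4 := by
    have h1 : Tendsto (fun r : ℝ => ((d : ℝ) + 1) * C * (1 + K) * r) (𝓝[>] 0) (𝓝 0) := by
      have h2 : Tendsto (fun r : ℝ => ((d : ℝ) + 1) * C * (1 + K) * r) (𝓝 0) (𝓝 (((d : ℝ) + 1) * C * (1 + K) * 0)) :=
        (continuous_const.mul continuous_id).tendsto 0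
      rw [mul_zero] at h2
      exact h2.mono_left nhdsWithin_le_nhds
    filter_upwards [self_mem_nhdsWithin, mem_nhdsWithin_of_mem_nhds (gt_mem_nhds hs), mem_nhdsWithin_of_mem_nhds (gt_mem_nhds ht0),
      h1.eventually (gt_mem_nhds (show (0 : ℝ) < 1 / 4 by norm_num))] with r h2 h3 h4 h5
    exact ⟨h2, h3, h4, h5.le⟩
  obtain ⟨ρ, ⟨hρ0, hρs, hρt, hρC⟩, η, b₀, hη0, hη2, hreg⟩ := (hsmall.and (reg2 hq hn hord hε0)).exists
  refine ⟨ρ, η, hη0, hη2, hρs, fun c hc => ⟨b₀ + Real.log c - d * ψ 0 - n / 2, ?_⟩⟩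
  intro M F hF h0 g U x y a b rho hA hrel z hz hx1 hy1 hy2
  obtain ⟨q0, q1, q2, q3, q4⟩ := hreg (x z) (y z) hx1 hy1 hy2
  have hηρ : η ≤ ρ := by linarith
  have hpt : (x z, y z) ∈ ball (0 : ℂ × ℂ) t := by
    rw [mem_ball_zero_iff, Prod.norm_def]
    exact max_lt (lt_of_le_of_lt (hx1.trans hηρ) hρt) (lt_of_le_of_lt hy2 hρt)
  obtain ⟨⟨p1, p2⟩, p3, p4⟩ := ht _ hpt
  have hFp : 0 < ‖F z‖ := norm_pos_iff.2 (h0 z)
  have hy0 : y z ≠ 0 := norm_pos_iff.1 (by linarith)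
  have hg0 : g z ≠ 0 := by
    intro h
    have h1 := hrel z hz
    rw [h, norm_zero, zero_mul] at h1
    have h2 : 0 < c * ‖q (x z, y z)‖ * ‖F z‖ ^ d := mul_pos (mul_pos hc (norm_pos_iff.2 q0)) (pow_pos hFp d)
    linarith
  -- the formula for `lu`
  have hxc := (hA.hx z hz)
  have hyc := (hA.hy z hz)
  have hqan : AnalyticAt ℂ (fun w => q (x w, y w)) z := AnalyticAt.fun_comp (g := q) (f := fun w => (x w, y w)) p4 (hxc.prod hyc)
  have hform : ∀ w ∈ U, q (x w, y w) ≠ 0 → lu F g d w = Real.log c + Real.log ‖q (x w, y w)‖ - d * ψ (x w, y w) := by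
    intro w hw hqw
    have h1 := hrel w hw
    have h2 : 0 < ‖F w‖ := norm_pos_iff.2 (h0 w)
    have h3 : 0 < c * ‖q (x w, y w)‖ * ‖F w‖ ^ d := mul_pos (mul_pos hc (norm_pos_iff.2 hqw)) (pow_pos h2 d)
    have h4 : ‖g w‖ ≠ 0 := by
      intro h5
      rw [h5, zero_mul] at h1
      linarith
    have h5 := congrArg Real.log h1
    rw [Real.log_mul h4 (Real.exp_pos _).ne', Real.log_exp, Real.log_mul (mul_pos hc (norm_pos_iff.2 hqw)).ne' (pow_pos h2 d).ne',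
      Real.log_mul hc.ne' (norm_ne_zero_iff.2 hqw), Real.log_pow] at h5
    unfold lu
    linarith
  have hev : lu F g d =ᶠ[𝓝 z] fun w => (Real.log c + Real.log ‖q (x w, y w)‖) - d * ψ (x w, y w) := by
    filter_upwards [hA.isOpen.mem_nhds hz, hqan.continuousAt.eventually_ne q0] with w h1 h2
    exact hform w h1 h2
  have hval := hform z hz q0
  have hψz : |(d : ℝ) * (ψ (x z, y z) - ψ 0)| ≤ n / 2 := by
    rw [abs_mul, Nat.abs_cast]
    have h1 : (d : ℝ) * |ψ (x z, y z) - ψ 0| ≤ d * (1 / (2 * ((d : ℝ) + 1))) := mul_le_mul_of_nonneg_left p3 hd0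
    have h2 : (d : ℝ) * (1 / (2 * ((d : ℝ) + 1))) ≤ 1 / 2 := by
      rw [mul_one_div, div_le_div_iff₀ (by positivity) (by norm_num)]
      linarith
    linarith
  have hψz' := abs_le.1 hψz
  refine ⟨hg0, ?_, ?_, ?_⟩
  · rw [hval]
    linarith [hψz'.2]
  · rw [hval]
    linarith [hψz'.1]
  · -- the gradient
    have hd1 : DifferentiableAt ℝ (fun w => Real.log ‖q (x w, y w)‖) z :=
      (Pool.Agent.H30M.contDiffAt_log_norm hqan q0).differentiableAt (by norm_num)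
    have hd2 : DifferentiableAt ℝ (fun w => ψ (x w, y w)) z := by
      have h1 : DifferentiableAt ℝ (fun w => (x w, y w)) z :=
        (hxc.differentiableAt.restrictScalars ℝ).prodMk (hyc.differentiableAt.restrictScalars ℝ)
      exact DifferentiableAt.comp (g := ψ) z p1 h1
    have e1 : gr (lu F g d) z = (starRingEnd ℂ) (deriv (fun w => q (x w, y w)) z / q (x z, y z)) - (d : ℂ) * gr (fun w => ψ (x w, y w)) z := by
      have hd3 : DifferentiableAt ℝ (fun w => Real.log c + Real.log ‖q (x w, y w)‖) z := hd1.const_add _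
      rw [gr_congr hev, gr_sub hd3 (hd2.const_mul (d : ℝ)), gr_add (u := fun _ => Real.log c) (differentiableAt_const _) hd1, gr_const, zero_add,
        gr_const_mul (d : ℝ) hd2, gr_log_norm hqan.differentiableAt q0]
      push_cast
      rfl
    have hp : x z ≠ 0 ∨ y z ≠ 0 := Or.inr hy0
    have ha := hA.ab z hz hp
    -- the derivative of `q (x, y)`
    have e2 : deriv (fun w => q (x w, y w)) z = fderiv ℂ q (x z, y z) (1, 0) * (x z * a z) + fderiv ℂ q (x z, y z) (0, 1) * (y z * b z) := by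
      have h1 : HasDerivAt (fun w => (x w, y w)) (deriv x z, deriv y z) z := hxc.differentiableAt.hasDerivAt.prodMk hyc.differentiableAt.hasDerivAt
      have h2 : HasDerivAt (fun w => q (x w, y w)) (fderiv ℂ q (x z, y z) (deriv x z, deriv y z)) z :=
        p4.differentiableAt.hasFDerivAt.comp_hasDerivAt z h1
      have h3 : ((deriv x z, deriv y z) : ℂ × ℂ) = deriv x z • ((1, 0) : ℂ × ℂ) + deriv y z • ((0, 1) : ℂ × ℂ) := by simp
      rw [h2.deriv, h3, map_add, map_smul, map_smul, smul_eq_mul, smul_eq_mul, hA.dx z hz hp, hA.dy z hz hp]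
      ring
    have hqn : 0 < ‖q (x z, y z)‖ := norm_pos_iff.2 q0
    have e3 : ((n : ℝ) - 1 / 8) * ‖b z‖ ≤ ‖deriv (fun w => q (x w, y w)) z / q (x z, y z)‖ := by
      have h1 : deriv (fun w => q (x w, y w)) z / q (x z, y z) = n * b z +
          ((y z * fderiv ℂ q (x z, y z) (0, 1) - n * q (x z, y z)) / q (x z, y z) * b z + x z * fderiv ℂ q (x z, y z) (1, 0) / q (x z, y z) * a z) := by
        rw [e2]
        field_simp
        ring
      have h2 : ‖(y z * fderiv ℂ q (x z, y z) (0, 1) - n * q (x z, y z)) / q (x z, y z) * b z‖ ≤ ε * ‖b z‖ := by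
        rw [norm_mul, norm_div]
        exact mul_le_mul_of_nonneg_right ((div_le_iff₀ hqn).2 q4) (norm_nonneg _)
      have h3 : ‖x z * fderiv ℂ q (x z, y z) (1, 0) / q (x z, y z) * a z‖ ≤ ε * (K * ‖b z‖) := by
        rw [norm_mul, norm_div, norm_mul]
        exact mul_le_mul ((div_le_iff₀ hqn).2 q3) ha (norm_nonneg _) hε0.le
      have h4 : ε * ‖b z‖ + ε * (K * ‖b z‖) = 1 / 8 * ‖b z‖ := by
        have hK1 : (1 + K) ≠ 0 := by positivity
        rw [hε]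
        field_simp
      have h5 : ‖(n : ℂ) * b z‖ = n * ‖b z‖ := by
        rw [norm_mul, Complex.norm_natCast]
      have h6 := norm_sub_norm_le ((n : ℂ) * b z) (-((y z * fderiv ℂ q (x z, y z) (0, 1) - n * q (x z, y z)) / q (x z, y z) * b z +
        x z * fderiv ℂ q (x z, y z) (1, 0) / q (x z, y z) * a z))
      rw [norm_neg, sub_neg_eq_add, ← h1, h5] at h6
      have h7 := norm_add_le ((y z * fderiv ℂ q (x z, y z) (0, 1) - n * q (x z, y z)) / q (x z, y z) * b z)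
        (x z * fderiv ℂ q (x z, y z) (1, 0) / q (x z, y z) * a z)
      linarith
    have e4 : ‖(d : ℂ) * gr (fun w => ψ (x w, y w)) z‖ ≤ n / 4 * ‖b z‖ := by
      have h1 := norm_gr_comp_le p1 hxc hyc p2
      have h2 : ‖deriv x z‖ ≤ ρ * (K * ‖b z‖) := by
        rw [hA.dx z hz hp, norm_mul]
        exact mul_le_mul (hx1.trans hηρ) ha (norm_nonneg _) hρ0.le
      have h3 : ‖deriv y z‖ ≤ ρ * ‖b z‖ := by
        rw [hA.dy z hz hp, norm_mul]
        exact mul_le_mul_of_nonneg_right hy2 (norm_nonneg _)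
      have hb := norm_nonneg (b z)
      have h4 : max ‖deriv x z‖ ‖deriv y z‖ ≤ ρ * ((1 + K) * ‖b z‖) := by
        refine max_le (h2.trans ?_) (h3.trans ?_)
        · refine mul_le_mul_of_nonneg_left ?_ hρ0.le
          linarith only [hb]
        · refine mul_le_mul_of_nonneg_left ?_ hρ0.le
          linarith only [mul_nonneg hK hb]
      have h5 : ((d : ℝ) + 1) * (C * max ‖deriv x z‖ ‖deriv y z‖) ≤ 1 / 4 * ‖b z‖ := by
        calc ((d : ℝ) + 1) * (C * max ‖deriv x z‖ ‖deriv y z‖) ≤ ((d : ℝ) + 1) * (C * (ρ * ((1 + K) * ‖b z‖))) :=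
              mul_le_mul_of_nonneg_left (mul_le_mul_of_nonneg_left h4 hC0.le) (by positivity)
          _ = ((d : ℝ) + 1) * C * (1 + K) * ρ * ‖b z‖ := by ring
          _ ≤ 1 / 4 * ‖b z‖ := mul_le_mul_of_nonneg_right hρC hb
      rw [norm_mul, Complex.norm_natCast]
      have h6 : (d : ℝ) * ‖gr (fun w => ψ (x w, y w)) z‖ ≤ ((d : ℝ) + 1) * (C * max ‖deriv x z‖ ‖deriv y z‖) :=
        mul_le_mul (by linarith only) h1 (norm_nonneg _) (by positivity)
      have h7 : (1 / 4 : ℝ) * ‖b z‖ ≤ n / 4 * ‖b z‖ := mul_le_mul_of_nonneg_right (by linarith only [hn0]) hb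
      linarith only [h5, h6, h7]
    rw [e1]
    have h6 := norm_sub_norm_le ((starRingEnd ℂ) (deriv (fun w => q (x w, y w)) z / q (x z, y z))) ((d : ℂ) * gr (fun w => ψ (x w, y w)) z)
    rw [RCLike.norm_conj] at h6
    have hb := norm_nonneg (b z)
    have h7 : (n / 2 : ℝ) * ‖b z‖ ≤ ((n : ℝ) - 1 / 8 - n / 4) * ‖b z‖ := mul_le_mul_of_nonneg_right (by linarith only [hn0]) hb
    linarith only [h6, h7, e3, e4]

end Pool.Agent.MQ.AxisA
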