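import Pool.Agent.MQ.SNLoc
import Pool.Agent.MQ.Frame
import Pool.Agent.MQ.Shell

/-!
# MQ SNShell: a form with high contact with the formal weak separatrix of a saddle-node, in a shell around it
-/

set_option autoImplicit false

open MeasureTheory Topology Filter Metric Asymptotics

noncomputable section

namespace Pool.Agent.MQ

open Pool.Agent.H36.BP (EN fs)

/-- a function with a zero of order `N` at `0` -/
theorem order_bound {A : ℂ → ℂ} (hA : AnalyticAt ℂ A 0) {N : ℕ} (hN : 1 ≤ N) (hord : analyticOrderAt A 0 = N) :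
    ∃ e₀ : ℂ, e₀ ≠ 0 ∧ ∃ C : ℝ, 0 < C ∧ ∀ᶠ x in 𝓝 (0 : ℂ), ‖A x - x ^ N * e₀‖ ≤ C * ‖x‖ ^ (N + 1) ∧ ‖x * deriv A x - N * A x‖ ≤ C * ‖x‖ ^ (N + 1) := by
  obtain ⟨e, he, he0, hAe⟩ := (hA.analyticOrderAt_eq_natCast).1 hord
  have hAe' : ∀ᶠ x in 𝓝 (0 : ℂ), A x = x ^ N * e x := hAe.mono fun x hx => by simpa using hx
  -- bounds for `e`
  have h1 : ∃ C : ℝ, 0 < C ∧ ∀ᶠ x in 𝓝 (0 : ℂ), ‖e x - e 0‖ ≤ C * ‖x‖ := by
    obtain ⟨C, hC, h⟩ := (he.differentiableAt.isBigO_sub).exists_pos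
    rw [isBigOWith_iff] at h
    exact ⟨C, hC, h.mono fun x hx => by simpa using hx⟩
  obtain ⟨C₁, hC₁, h1⟩ := h1
  have h2 : ∀ᶠ x in 𝓝 (0 : ℂ), ‖deriv e x‖ ≤ ‖deriv e 0‖ + 1 := by
    have h3 : Tendsto (fun x => ‖deriv e x‖) (𝓝 0) (𝓝 ‖deriv e 0‖) := he.deriv.continuousAt.norm
    exact (h3.eventually (gt_mem_nhds (lt_add_one _))).mono fun x hx => le_of_lt hx
  refine ⟨e 0, he0, C₁ + (‖deriv e 0‖ + 1), by positivity, ?_⟩
  filter_upwards [hAe', hAe'.eventually_nhds, h1, h2, he.eventually_analyticAt] with x k1 k2 k3 k4 k5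
  constructor
  · rw [k1, ← mul_sub, norm_mul, norm_pow]
    calc ‖x‖ ^ N * ‖e x - e 0‖ ≤ ‖x‖ ^ N * (C₁ * ‖x‖) := mul_le_mul_of_nonneg_left k3 (by positivity)
      _ = C₁ * ‖x‖ ^ (N + 1) := by ring
      _ ≤ (C₁ + (‖deriv e 0‖ + 1)) * ‖x‖ ^ (N + 1) := mul_le_mul_of_nonneg_right (by linarith [norm_nonneg (deriv e 0)]) (by positivity)
  · have h3 : HasDerivAt (fun x => x ^ N * e x) (N * x ^ (N - 1) * e x + x ^ N * deriv e x) x :=
      (hasDerivAt_pow N x).mul k5.differentiableAt.hasDerivAt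
    have h4 : A =ᶠ[𝓝 x] fun x => x ^ N * e x := k2
    have h5 : x * deriv A x - N * A x = x ^ (N + 1) * deriv e x := by
      rw [h4.deriv_eq, h3.deriv, k1]
      obtain ⟨m, rfl⟩ : ∃ m, N = m + 1 := ⟨N - 1, by omega⟩
      simp only [Nat.add_sub_cancel]
      ring
    rw [h5, norm_mul, norm_pow]
    calc ‖x‖ ^ (N + 1) * ‖deriv e x‖ ≤ ‖x‖ ^ (N + 1) * (‖deriv e 0‖ + 1) := mul_le_mul_of_nonneg_left k4 (by positivity)
      _ ≤ (C₁ + (‖deriv e 0‖ + 1)) * ‖x‖ ^ (N + 1) := by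
        rw [mul_comm]
        exact mul_le_mul_of_nonneg_right (by linarith) (by positivity)

theorem fderiv_pair {q : ℂ × ℂ → ℂ} {p : ℂ × ℂ} (X W : ℂ) : fderiv ℂ q p (X, W) = X * fderiv ℂ q p (1, 0) + W * fderiv ℂ q p (0, 1) := by
  have h : ((X, W) : ℂ × ℂ) = X • (1, 0) + W • (0, 1) := by
    ext <;> simp
  conv_lhs => rw [h]
  rw [map_add, map_smul, map_smul, smul_eq_mul, smul_eq_mul]

/-- the form near the formal curve: local estimates -/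
theorem snq_local {k : ℕ} {a b : ℂ × ℂ → ℂ} (ha : AnalyticAt ℂ a 0) (hb : AnalyticAt ℂ b 0) (ha0 : a 0 ≠ 0)
    {c : ℕ → ℂ} (hc : c 0 = 0) (hJ : ∀ J, (fun t => b (t, jet c J t) - deriv (jet c J) t * (t ^ (k + 1) * a (t, jet c J t))) =O[𝓝 0] fun t : ℂ => t ^ (J + 1))
    {q : ℂ × ℂ → ℂ} (hq : AnalyticAt ℂ q 0) {N : ℕ} (hN : 1 ≤ N) {J : ℕ} (hord : analyticOrderAt (fun t => q (t, jet c J t)) 0 = N) :
    ∃ e₀ : ℂ, e₀ ≠ 0 ∧ ∃ B : ℝ, 0 < B ∧ ∀ᶠ p in 𝓝 (0 : ℂ × ℂ), AnalyticAt ℂ q p ∧ a p ≠ 0 ∧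
      ‖q p - p.1 ^ N * e₀‖ ≤ B * (‖p.1‖ ^ (N + 1) + ‖p.2 - jet c J p.1‖) ∧
      ∀ X W : ℂ, p.1 ≠ 0 → p.1 ^ (k + 1) * a p * W = b p * X →
        ‖W‖ ≤ (B + B * (‖p.2 - jet c J p.1‖ + ‖p.1‖ ^ (J + 1)) / ‖p.1‖ ^ (k + 1)) * ‖X‖ ∧
        ‖p.1 * fderiv ℂ q p (X, W) - N * X * q p‖ ≤
          B * (‖p.1‖ ^ (N + 1) + ‖p.2 - jet c J p.1‖ + ‖p.1‖ * ((‖p.2 - jet c J p.1‖ + ‖p.1‖ ^ (J + 1)) / ‖p.1‖ ^ (k + 1))) * ‖X‖ := by
  have hjet : AnalyticAt ℂ (fun x : ℂ => (x, jet c J x)) 0 := analyticAt_id.prod (jet_analytic c J 0)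
  have hj0 : (fun x : ℂ => (x, jet c J x)) 0 = 0 := by simp [jet_zero hc]
  have hA : AnalyticAt ℂ (fun t => q (t, jet c J t)) 0 := by
    have : AnalyticAt ℂ q ((fun x : ℂ => (x, jet c J x)) 0) := by rw [hj0]; exact hq
    exact AnalyticAt.fun_comp (f := fun x : ℂ => (x, jet c J x)) this hjet
  obtain ⟨e₀, he₀, C₁, hC₁, h1⟩ := order_bound hA hN hord
  have hD1 : AnalyticAt ℂ (fun p => fderiv ℂ q p (1, 0)) 0 := an_fderiv_apply hq _
  have hD2 : AnalyticAt ℂ (fun p => fderiv ℂ q p (0, 1)) 0 := an_fderiv_apply hq _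
  have hyv : AnalyticAt ℂ (yv k a b c J) 0 := by
    unfold yv
    refine hb.sub (AnalyticAt.mul ?_ ((analyticAt_fst.pow (k + 1)).mul ha))
    exact AnalyticAt.comp (g := deriv (jet c J)) (f := fun p : ℂ × ℂ => p.1) (jet_analytic c J _).deriv analyticAt_fst
  obtain ⟨K₀, hK₀, r₀, hr₀, hL₀⟩ := analytic_lip hq
  obtain ⟨K₁, hK₁, r₁, hr₁, hL₁⟩ := analytic_lip hD1
  obtain ⟨K₂, hK₂, r₂, hr₂, hL₂⟩ := analytic_lip hD2
  obtain ⟨K₃, hK₃, r₃, hr₃, hL₃⟩ := analytic_lip hyv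
  obtain ⟨M₂, hM₂, hB₂⟩ := analytic_bdd hD2
  obtain ⟨C₃, hC₃, h3⟩ := (hJ J).exists_pos
  rw [isBigOWith_iff] at h3
  have hfst : Tendsto (fun p : ℂ × ℂ => p.1) (𝓝 0) (𝓝 0) := continuous_fst.tendsto 0
  have hjt : Tendsto (fun p : ℂ × ℂ => (p.1, jet c J p.1)) (𝓝 0) (𝓝 0) := by
    have := (continuous_fst.prodMk ((jet_differentiable c J).continuous.comp continuous_fst)).tendsto (0 : ℂ × ℂ)
    simp only [Function.comp_apply, Prod.fst_zero, jet_zero hc] at this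
    exact this
  have hdj : ∀ᶠ x in 𝓝 (0 : ℂ), ‖deriv (jet c J) x‖ ≤ ‖deriv (jet c J) 0‖ + 1 := by
    have h4 : Tendsto (fun x => ‖deriv (jet c J) x‖) (𝓝 0) (𝓝 ‖deriv (jet c J) 0‖) := (jet_analytic c J 0).deriv.continuousAt.norm
    exact (h4.eventually (gt_mem_nhds (lt_add_one _))).mono fun x hx => le_of_lt hx
  set Cj : ℝ := ‖deriv (jet c J) 0‖ + 1 with hCj
  have hCj0 : 0 < Cj := by positivity
  have ha2 : ∀ᶠ p in 𝓝 (0 : ℂ × ℂ), ‖a 0‖ / 2 < ‖a p‖ := by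
    have h4 : ‖a 0‖ / 2 < ‖a 0‖ := half_lt_self (norm_pos_iff.2 ha0)
    exact ha.continuousAt.norm.eventually (lt_mem_nhds h4)
  have ha0' : 0 < ‖a 0‖ := norm_pos_iff.2 ha0
  set L : ℝ := 2 / ‖a 0‖ * (K₃ + C₃) with hL
  have hL0 : 0 < L := by positivity
  set B : ℝ := C₁ + K₀ + Cj + L + (K₁ + Cj * K₂) + N * K₀ + M₂ * L with hB
  have hNN : (0 : ℝ) ≤ N := Nat.cast_nonneg N
  have hB0 : 0 < B := by positivity
  refine ⟨e₀, he₀, B, hB0, ?_⟩
  have hev : ∀ᶠ p in 𝓝 (0 : ℂ × ℂ), ‖p.1‖ < 1 := by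
    have h4 : Tendsto (fun p : ℂ × ℂ => ‖p.1‖) (𝓝 0) (𝓝 0) := by simpa using continuous_fst.norm.tendsto (0 : ℂ × ℂ)
    exact h4 (Iio_mem_nhds one_pos)
  filter_upwards [hfst.eventually h1, hfst.eventually h3, hfst.eventually hdj, ha2, hB₂, hq.eventually_analyticAt, hjt.eventually hq.eventually_analyticAt,
    ball_mem_nhds (0 : ℂ × ℂ) hr₀, ball_mem_nhds (0 : ℂ × ℂ) hr₁, ball_mem_nhds (0 : ℂ × ℂ) hr₂, ball_mem_nhds (0 : ℂ × ℂ) hr₃,
    hjt.eventually (ball_mem_nhds _ hr₀), hjt.eventually (ball_mem_nhds _ hr₁), hjt.eventually (ball_mem_nhds _ hr₂), hjt.eventually (ball_mem_nhds _ hr₃),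
    hev] with p e1 e3 edj ea eB eq eqj b0 b1 b2 b3 c0 c1 c2 c3 ep
  have hn : ‖p - (p.1, jet c J p.1)‖ = ‖p.2 - jet c J p.1‖ := by
    rw [Prod.norm_def]
    simp
  have l0 := hL₀ p b0 _ c0
  have l1 := hL₁ p b1 _ c1
  have l2 := hL₂ p b2 _ c2
  have l3 := hL₃ p b3 _ c3
  rw [hn] at l0 l1 l2 l3
  set Y : ℝ := ‖p.2 - jet c J p.1‖ with hY
  set t : ℝ := ‖p.1‖ with ht
  have hY0 : 0 ≤ Y := norm_nonneg _
  have ht0 : 0 ≤ t := norm_nonneg _
  have htN : 0 ≤ t ^ (N + 1) := by positivity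
  refine ⟨eq, fun h => ?_, ?_, ?_⟩
  · rw [h, norm_zero] at ea
    linarith
  · have h4 : q p - p.1 ^ N * e₀ = (q p - q (p.1, jet c J p.1)) + (q (p.1, jet c J p.1) - p.1 ^ N * e₀) := by ring
    rw [h4]
    refine (norm_add_le _ _).trans ((add_le_add l0 e1.1).trans ?_)
    have h5 : K₀ * Y ≤ B * Y := mul_le_mul_of_nonneg_right (by
      have : 0 ≤ M₂ * L := by positivity
      have : 0 ≤ Cj * K₂ := by positivity
      have : 0 ≤ N * K₀ := by positivity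
      linarith) hY0
    have h6 : C₁ * t ^ (N + 1) ≤ B * t ^ (N + 1) := mul_le_mul_of_nonneg_right (by
      have : 0 ≤ M₂ * L := by positivity
      have : 0 ≤ Cj * K₂ := by positivity
      have : 0 ≤ N * K₀ := by positivity
      linarith) htN
    linarith
  · intro X W hx hode
    have htp : 0 < t := norm_pos_iff.2 hx
    have hxk : p.1 ^ (k + 1) ≠ 0 := pow_ne_zero _ hx
    have hap : a p ≠ 0 := fun h => by
      rw [h, norm_zero] at ea
      linarith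
    -- `Y' = yv / (x ^ (k + 1) a) X`
    set Z : ℂ := W - deriv (jet c J) p.1 * X with hZ
    have hZ1 : p.1 ^ (k + 1) * a p * Z = yv k a b c J p * X := by
      rw [hZ, yv]
      linear_combination hode
    have hyv1 : ‖yv k a b c J p‖ ≤ (K₃ + C₃) * (Y + t ^ (J + 1)) := by
      have h4 : yv k a b c J p = (yv k a b c J p - yv k a b c J (p.1, jet c J p.1)) + yv k a b c J (p.1, jet c J p.1) := by ring
      have h5 : ‖yv k a b c J (p.1, jet c J p.1)‖ ≤ C₃ * t ^ (J + 1) := by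
        have h6 := e3
        rw [norm_pow] at h6
        exact h6
      rw [h4]
      refine (norm_add_le _ _).trans ((add_le_add l3 h5).trans ?_)
      have h7 : 0 ≤ K₃ * t ^ (J + 1) := by positivity
      have h8 : 0 ≤ C₃ * Y := by positivity
      linarith only [h7, h8]
    have hZ2 : ‖Z‖ ≤ L * ((Y + t ^ (J + 1)) / t ^ (k + 1)) * ‖X‖ := by
      have h4 : ‖p.1 ^ (k + 1) * a p * Z‖ = t ^ (k + 1) * ‖a p‖ * ‖Z‖ := by rw [norm_mul, norm_mul, norm_pow]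
      rw [hZ1, norm_mul] at h4
      have h5 : t ^ (k + 1) * (‖a 0‖ / 2) * ‖Z‖ ≤ (K₃ + C₃) * (Y + t ^ (J + 1)) * ‖X‖ := by
        calc t ^ (k + 1) * (‖a 0‖ / 2) * ‖Z‖ ≤ t ^ (k + 1) * ‖a p‖ * ‖Z‖ := by
              refine mul_le_mul_of_nonneg_right (mul_le_mul_of_nonneg_left ea.le (by positivity)) (norm_nonneg _)
          _ = ‖yv k a b c J p‖ * ‖X‖ := h4.symm
          _ ≤ _ := mul_le_mul_of_nonneg_right hyv1 (norm_nonneg _)
      have htk : 0 < t ^ (k + 1) := by positivity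
      rw [hL]
      have h6 : ‖Z‖ = (t ^ (k + 1) * (‖a 0‖ / 2) * ‖Z‖) * (2 / ‖a 0‖) / t ^ (k + 1) := by
        field_simp
      rw [h6]
      calc (t ^ (k + 1) * (‖a 0‖ / 2) * ‖Z‖) * (2 / ‖a 0‖) / t ^ (k + 1)
          ≤ ((K₃ + C₃) * (Y + t ^ (J + 1)) * ‖X‖) * (2 / ‖a 0‖) / t ^ (k + 1) := by gcongr
        _ = _ := by ring
    have hW : W = Z + deriv (jet c J) p.1 * X := by rw [hZ]; ring
    set T : ℝ := (Y + t ^ (J + 1)) / t ^ (k + 1) with hT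
    have hT0 : 0 ≤ T := by positivity
    constructor
    · rw [hW]
      refine (norm_add_le _ _).trans ?_
      rw [norm_mul]
      have h4 : ‖deriv (jet c J) p.1‖ * ‖X‖ ≤ Cj * ‖X‖ := mul_le_mul_of_nonneg_right edj (norm_nonneg _)
      have h5 : L * T * ‖X‖ + Cj * ‖X‖ ≤ (B + B * (Y + t ^ (J + 1)) / t ^ (k + 1)) * ‖X‖ := by
        rw [← add_mul]
        refine mul_le_mul_of_nonneg_right ?_ (norm_nonneg _)
        have h6 : B * (Y + t ^ (J + 1)) / t ^ (k + 1) = B * T := by rw [hT]; ring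
        rw [h6]
        have h7 : L * T ≤ B * T := mul_le_mul_of_nonneg_right (by
          have : 0 ≤ M₂ * L := by positivity
          have : 0 ≤ Cj * K₂ := by positivity
          have : 0 ≤ N * K₀ := by positivity
          linarith) hT0
        have h8 : Cj ≤ B := by
          have : 0 ≤ M₂ * L := by positivity
          have : 0 ≤ Cj * K₂ := by positivity
          have : 0 ≤ N * K₀ := by positivity
          linarith
        linarith
      linarith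
    · -- the derivative of the form
      have hAd : deriv (fun t => q (t, jet c J t)) p.1 =
          fderiv ℂ q (p.1, jet c J p.1) (1, 0) + deriv (jet c J) p.1 * fderiv ℂ q (p.1, jet c J p.1) (0, 1) := by
        have h4 : HasDerivAt (fun t : ℂ => ((t, jet c J t) : ℂ × ℂ)) (1, deriv (jet c J) p.1) p.1 :=
          (hasDerivAt_id p.1).prodMk (jet_differentiable c J p.1).hasDerivAt
        have h5 := eqj.differentiableAt.hasFDerivAt.comp_hasDerivAt p.1 h4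
        have h6 := h5.deriv
        rw [fderiv_pair, one_mul] at h6
        exact h6
      have hdec : p.1 * fderiv ℂ q p (X, W) - N * X * q p =
          X * (p.1 * deriv (fun t => q (t, jet c J t)) p.1 - N * q (p.1, jet c J p.1)) -
            X * (N * (q p - q (p.1, jet c J p.1))) +
            X * (p.1 * ((fderiv ℂ q p (1, 0) - fderiv ℂ q (p.1, jet c J p.1) (1, 0)) +
              deriv (jet c J) p.1 * (fderiv ℂ q p (0, 1) - fderiv ℂ q (p.1, jet c J p.1) (0, 1)))) +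
            p.1 * (Z * fderiv ℂ q p (0, 1)) := by
        rw [fderiv_pair, hAd, hW]
        ring
      rw [hdec]
      have n1 : ‖X * (p.1 * deriv (fun t => q (t, jet c J t)) p.1 - N * q (p.1, jet c J p.1))‖ ≤ ‖X‖ * (C₁ * t ^ (N + 1)) := by
        rw [norm_mul]
        exact mul_le_mul_of_nonneg_left e1.2 (norm_nonneg _)
      have n2 : ‖X * (N * (q p - q (p.1, jet c J p.1)))‖ ≤ ‖X‖ * (N * (K₀ * Y)) := by
        rw [norm_mul, norm_mul, Complex.norm_natCast]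
        exact mul_le_mul_of_nonneg_left (mul_le_mul_of_nonneg_left l0 hNN) (norm_nonneg _)
      have n3 : ‖X * (p.1 * ((fderiv ℂ q p (1, 0) - fderiv ℂ q (p.1, jet c J p.1) (1, 0)) +
              deriv (jet c J) p.1 * (fderiv ℂ q p (0, 1) - fderiv ℂ q (p.1, jet c J p.1) (0, 1))))‖ ≤ ‖X‖ * ((K₁ + Cj * K₂) * Y) := by
        rw [norm_mul, norm_mul]
        refine mul_le_mul_of_nonneg_left ?_ (norm_nonneg _)
        have h4 : ‖(fderiv ℂ q p (1, 0) - fderiv ℂ q (p.1, jet c J p.1) (1, 0)) +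
              deriv (jet c J) p.1 * (fderiv ℂ q p (0, 1) - fderiv ℂ q (p.1, jet c J p.1) (0, 1))‖ ≤ (K₁ + Cj * K₂) * Y := by
          refine (norm_add_le _ _).trans ?_
          rw [norm_mul]
          have h5 := mul_le_mul edj l2 (norm_nonneg _) hCj0.le
          linarith
        calc ‖p.1‖ * _ ≤ 1 * ((K₁ + Cj * K₂) * Y) := mul_le_mul ep.le h4 (norm_nonneg _) zero_le_one
          _ = _ := one_mul _
      have n4 : ‖p.1 * (Z * fderiv ℂ q p (0, 1))‖ ≤ t * (L * T * ‖X‖ * M₂) := by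
        rw [norm_mul, norm_mul]
        exact mul_le_mul_of_nonneg_left (mul_le_mul hZ2 eB (norm_nonneg _) (by positivity)) ht0
      have m1 := norm_add_le (X * (p.1 * deriv (fun t => q (t, jet c J t)) p.1 - N * q (p.1, jet c J p.1)) -
            X * (N * (q p - q (p.1, jet c J p.1))) +
            X * (p.1 * ((fderiv ℂ q p (1, 0) - fderiv ℂ q (p.1, jet c J p.1) (1, 0)) +
              deriv (jet c J) p.1 * (fderiv ℂ q p (0, 1) - fderiv ℂ q (p.1, jet c J p.1) (0, 1))))) (p.1 * (Z * fderiv ℂ q p (0, 1)))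
      have m2 := norm_add_le (X * (p.1 * deriv (fun t => q (t, jet c J t)) p.1 - N * q (p.1, jet c J p.1)) -
            X * (N * (q p - q (p.1, jet c J p.1)))) (X * (p.1 * ((fderiv ℂ q p (1, 0) - fderiv ℂ q (p.1, jet c J p.1) (1, 0)) +
              deriv (jet c J) p.1 * (fderiv ℂ q p (0, 1) - fderiv ℂ q (p.1, jet c J p.1) (0, 1)))))
      have m3 := norm_sub_le (X * (p.1 * deriv (fun t => q (t, jet c J t)) p.1 - N * q (p.1, jet c J p.1))) (X * (N * (q p - q (p.1, jet c J p.1))))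
      have hgoal : ‖X‖ * (C₁ * t ^ (N + 1)) + ‖X‖ * (N * (K₀ * Y)) + ‖X‖ * ((K₁ + Cj * K₂) * Y) + t * (L * T * ‖X‖ * M₂) ≤
          B * (t ^ (N + 1) + Y + t * T) * ‖X‖ := by
        have h4 : ‖X‖ * (C₁ * t ^ (N + 1)) + ‖X‖ * (N * (K₀ * Y)) + ‖X‖ * ((K₁ + Cj * K₂) * Y) + t * (L * T * ‖X‖ * M₂) =
            (C₁ * t ^ (N + 1) + (N * K₀ + (K₁ + Cj * K₂)) * Y + (M₂ * L) * (t * T)) * ‖X‖ := by ring
        rw [h4]
        refine mul_le_mul_of_nonneg_right ?_ (norm_nonneg _)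
        have i1 : 0 ≤ M₂ * L := by positivity
        have i2 : 0 ≤ Cj * K₂ := by positivity
        have i3 : 0 ≤ N * K₀ := by positivity
        have j1 : C₁ * t ^ (N + 1) ≤ B * t ^ (N + 1) := mul_le_mul_of_nonneg_right (by linarith) htN
        have j2 : (N * K₀ + (K₁ + Cj * K₂)) * Y ≤ B * Y := mul_le_mul_of_nonneg_right (by linarith) hY0
        have j3 : (M₂ * L) * (t * T) ≤ B * (t * T) := mul_le_mul_of_nonneg_right (by linarith) (by positivity)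
        linarith
      linarith

/-- numbers in the shell -/
theorem shell_num {k N : ℕ} {ρ t Y : ℝ} (hρ0 : 0 < ρ) (hρ1 : ρ ≤ 1) (ht1 : ρ / 2 ≤ t) (ht2 : t ≤ 2 * ρ) (hY0 : 0 ≤ Y) (hY : Y ≤ ρ ^ (N + 2 * k + 2)) :
    t ^ (N + 1) + Y ≤ (2 ^ (N + 1) + 1) * ρ ^ (N + 1) ∧
      (Y + t ^ (N + 3 * k + 3 + 1)) / t ^ (k + 1) ≤ 2 ^ (k + 1) * (1 + 2 ^ (N + 3 * k + 4)) * ρ ^ (N + k + 1) := by
  have ht0 : 0 < t := by linarith
  have h1 : t ^ (N + 1) ≤ 2 ^ (N + 1) * ρ ^ (N + 1) := by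
    rw [← mul_pow]
    exact pow_le_pow_left₀ ht0.le ht2 _
  have h2 : ρ ^ (N + 2 * k + 2) ≤ ρ ^ (N + 1) := pow_le_pow_of_le_one hρ0.le hρ1 (by omega)
  have h3 : t ^ (N + 3 * k + 3 + 1) ≤ 2 ^ (N + 3 * k + 4) * ρ ^ (N + 2 * k + 2) := by
    calc t ^ (N + 3 * k + 3 + 1) ≤ (2 * ρ) ^ (N + 3 * k + 3 + 1) := pow_le_pow_left₀ ht0.le ht2 _
      _ = 2 ^ (N + 3 * k + 4) * ρ ^ (N + 3 * k + 4) := by rw [mul_pow]
      _ ≤ _ := mul_le_mul_of_nonneg_left (pow_le_pow_of_le_one hρ0.le hρ1 (by omega)) (by positivity)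
  refine ⟨by nlinarith, ?_⟩
  have hρk : 0 < (ρ / 2) ^ (k + 1) := by positivity
  calc (Y + t ^ (N + 3 * k + 3 + 1)) / t ^ (k + 1) ≤ ((1 + 2 ^ (N + 3 * k + 4)) * ρ ^ (N + 2 * k + 2)) / (ρ / 2) ^ (k + 1) := by
        refine div_le_div₀ (by positivity) (by nlinarith) hρk (pow_le_pow_left₀ (by positivity) ht1 _)
    _ = _ := by
      rw [div_pow]
      have : ρ ^ (N + 2 * k + 2) = ρ ^ (N + k + 1) * ρ ^ (k + 1) := by rw [← pow_add]; congr 1; ring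
      rw [this]
      field_simp

/-- **The shell lemma for the formal weak separatrix.** -/
theorem sn_shell {k : ℕ} (hk : 1 ≤ k) {a b : ℂ × ℂ → ℂ} (ha : AnalyticAt ℂ a 0) (hb : AnalyticAt ℂ b 0) (ha0 : a 0 ≠ 0)
    {c : ℕ → ℂ} (hc : c 0 = 0) (hJ : ∀ J, (fun t => b (t, jet c J t) - deriv (jet c J) t * (t ^ (k + 1) * a (t, jet c J t))) =O[𝓝 0] fun t : ℂ => t ^ (J + 1))
    {q : ℂ × ℂ → ℂ} (hq : AnalyticAt ℂ q 0) {N : ℕ} (hN : 1 ≤ N) (hord : ∀ J, N ≤ J → analyticOrderAt (fun t => q (t, jet c J t)) 0 = N)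
    {ψ : ℂ × ℂ → ℝ} (hψ : ContDiffAt ℝ 1 ψ 0) (d : ℕ) :
    ∀ᶠ ρ in 𝓝[>] (0 : ℝ), ∀ c' : ℝ, 0 < c' → ∃ b₀ : ℝ, ∀ {M : ℕ} {F : ℂ → EN M} (_ : Differentiable ℂ F) (_ : ∀ z, F z ≠ 0) {Qf : ℂ → ℂ}
      {v : ℂ × ℂ → ℂ × ℂ} (_ : ∀ p, v p = (p.1 ^ (k + 1) * a p, b p)) {r : ℝ} {Om : Set ℂ} {g : ℂ → ℂ × ℂ} (_ : Crv1 v r Om g)
      (_ : ∀ z ∈ Om, ‖Qf z‖ * Real.exp (d * ψ (g z)) = c' * ‖q (g z)‖ * ‖F z‖ ^ d),
      ∀ z ∈ Om, ρ / 2 ≤ ‖(g z).1‖ → ‖(g z).1‖ ≤ 2 * ρ → ‖(g z).2 - jet c (N + 3 * k + 3) (g z).1‖ ≤ ρ ^ (N + 2 * k + 2) →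
        Qf z ≠ 0 ∧ b₀ ≤ lu F Qf d z ∧ lu F Qf d z ≤ b₀ + 2 * N ∧ (N / 4 : ℝ) * ‖(deriv g z).1 / (g z).1‖ ≤ ‖gr (lu F Qf d) z‖ := by
  have _ := hk
  have hn0 : (1 : ℝ) ≤ N := by exact_mod_cast hN
  have hd0 : (0 : ℝ) ≤ d := Nat.cast_nonneg d
  obtain ⟨e₀, he₀, B, hB0, hloc⟩ := snq_local ha hb ha0 hc hJ hq hN (hord (N + 3 * k + 3) (by omega))
  have he₀' : 0 < ‖e₀‖ := norm_pos_iff.2 he₀
  obtain ⟨C, hC0, hCb⟩ : ∃ C : ℝ, 0 < C ∧ ∀ᶠ p in 𝓝 (0 : ℂ × ℂ), DifferentiableAt ℝ ψ p ∧ ‖fderiv ℝ ψ p‖ ≤ C := by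
    refine ⟨‖fderiv ℝ ψ 0‖ + 1, by positivity, ?_⟩
    have h1 : ContinuousAt (fun p => ‖fderiv ℝ ψ p‖) 0 := (hψ.fderiv_right (m := 0) (by norm_num)).continuousAt.norm
    filter_upwards [hψ.eventually (by simp), h1.eventually (gt_mem_nhds (lt_add_one _))] with p h2 h3
    exact ⟨h2.differentiableAt (by norm_num), h3.le⟩
  have hψc : ∀ᶠ p in 𝓝 (0 : ℂ × ℂ), |ψ p - ψ 0| ≤ 1 / (8 * ((d : ℝ) + 1)) := by
    have h1 : ContinuousAt (fun p => |ψ p - ψ 0|) 0 := (hψ.continuousAt.sub continuousAt_const).abs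
    have h2 : |ψ 0 - ψ 0| < 1 / (8 * ((d : ℝ) + 1)) := by
      rw [sub_self, abs_zero]
      positivity
    filter_upwards [h1.eventually (gt_mem_nhds h2)] with p hp
    exact hp.le
  -- the constants
  set T₀ : ℝ := 2 ^ (k + 1) * (1 + 2 ^ (N + 3 * k + 4)) with hT₀
  have hT₀0 : 0 < T₀ := by positivity
  set B₂ : ℝ := B * (2 ^ (N + 1) + 1 + 2 * T₀) with hB₂
  have hB₂0 : 0 < B₂ := by positivity
  set B₃ : ℝ := B + B * T₀ with hB₃
  have hB₃0 : 0 < B₃ := by positivity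
  have hsmall : ∀ᶠ ρ in 𝓝[>] (0 : ℝ), 0 < ρ ∧ ρ < 1 ∧ B₂ * ρ ≤ ‖e₀‖ / 2 ^ N / 16 ∧ ((d : ℝ) + 1) * C * (1 + B₃) * (2 * ρ) ≤ 1 / 4 := by
    have h1 : ∀ K : ℝ, Tendsto (fun r : ℝ => K * r) (𝓝[>] 0) (𝓝 0) := fun K => by
      have h2 : Tendsto (fun r : ℝ => K * r) (𝓝 0) (𝓝 (K * 0)) := (continuous_const.mul continuous_id).tendsto 0
      rw [mul_zero] at h2
      exact h2.mono_left nhdsWithin_le_nhds
    filter_upwards [self_mem_nhdsWithin, mem_nhdsWithin_of_mem_nhds (gt_mem_nhds one_pos),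
      (h1 B₂).eventually (gt_mem_nhds (show (0 : ℝ) < ‖e₀‖ / 2 ^ N / 16 by positivity)),
      (h1 (((d : ℝ) + 1) * C * (1 + B₃) * 2)).eventually (gt_mem_nhds (show (0 : ℝ) < 1 / 4 by norm_num))] with r h2 h3 h4 h5
    exact ⟨h2, h3, h4.le, by linarith⟩
  have htube := tube_small hc (N + 3 * k + 3) (n := N + 2 * k + 2) (by omega) (U := {p | _ ∧ _ ∧ _}) (hloc.and (hCb.and hψc))
  filter_upwards [hsmall, htube] with ρ hρ htb c' hc'
  obtain ⟨hρ0, hρ1, hρB, hρC⟩ := hρ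
  refine ⟨Real.log c' + N * Real.log (ρ / 2) + Real.log ‖e₀‖ - d * ψ 0 - 1 / 4, ?_⟩
  intro M F hF h0 Qf v hv r Om g hg hrel z hz hx1 hx2 hY
  obtain ⟨⟨p4, pa, pq, pXW⟩, ⟨p1, p2⟩, p3⟩ := htb (g z) hx2 hY
  set t : ℝ := ‖(g z).1‖ with ht
  set Y : ℝ := ‖(g z).2 - jet c (N + 3 * k + 3) (g z).1‖ with hYdef
  have ht0 : 0 < t := by linarith
  have hx0 : (g z).1 ≠ 0 := norm_pos_iff.1 ht0
  have hY0 : 0 ≤ Y := norm_nonneg _
  obtain ⟨num1, num2⟩ := shell_num (k := k) (N := N) hρ0 hρ1.le hx1 hx2 hY0 hY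
  have hρk : ρ ^ (N + k + 1) ≤ ρ ^ N := pow_le_pow_of_le_one hρ0.le hρ1.le (by omega)
  set T : ℝ := (Y + t ^ (N + 3 * k + 3 + 1)) / t ^ (k + 1) with hT
  have hTN : T ≤ T₀ * ρ ^ N := num2.trans (mul_le_mul_of_nonneg_left hρk hT₀0.le)
  have hT1 : T ≤ T₀ := hTN.trans (mul_le_of_le_one_right hT₀0.le (pow_le_one₀ hρ0.le hρ1.le))
  have hTt0 : 0 ≤ T := by positivity
  -- `‖e₀‖ t ^ N` is the main term
  have hmain : ‖e₀‖ / 2 ^ N * ρ ^ N ≤ ‖e₀‖ * t ^ N := by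
    have h1 : (ρ / 2) ^ N ≤ t ^ N := pow_le_pow_left₀ (by positivity) hx1 _
    rw [div_pow] at h1
    calc ‖e₀‖ / 2 ^ N * ρ ^ N = ‖e₀‖ * (ρ ^ N / 2 ^ N) := by ring
      _ ≤ _ := mul_le_mul_of_nonneg_left h1 he₀'.le
  have hmt : 0 < ‖e₀‖ * t ^ N := by positivity
  have herr : B₂ * ρ ^ (N + 1) ≤ 1 / 16 * (‖e₀‖ * t ^ N) := by
    calc B₂ * ρ ^ (N + 1) = B₂ * ρ * ρ ^ N := by ring
      _ ≤ ‖e₀‖ / 2 ^ N / 16 * ρ ^ N := mul_le_mul_of_nonneg_right hρB (by positivity)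
      _ = 1 / 16 * (‖e₀‖ / 2 ^ N * ρ ^ N) := by ring
      _ ≤ _ := mul_le_mul_of_nonneg_left hmain (by norm_num)
  have hq1 : ‖q (g z) - (g z).1 ^ N * e₀‖ ≤ 1 / 16 * (‖e₀‖ * t ^ N) := by
    refine (pq.trans ?_).trans herr
    have h1 : B * (t ^ (N + 1) + Y) ≤ B * ((2 ^ (N + 1) + 1) * ρ ^ (N + 1)) := mul_le_mul_of_nonneg_left num1 hB0.le
    have h2 : 0 ≤ B * (2 * T₀) * ρ ^ (N + 1) := by positivity
    rw [hB₂]
    linarith
  have hmn : ‖(g z).1 ^ N * e₀‖ = ‖e₀‖ * t ^ N := by rw [norm_mul, norm_pow, mul_comm]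
  have hqlo : 15 / 16 * (‖e₀‖ * t ^ N) ≤ ‖q (g z)‖ := by
    have h1 := norm_sub_norm_le ((g z).1 ^ N * e₀) (q (g z))
    rw [norm_sub_rev, hmn] at h1
    linarith
  have hqhi : ‖q (g z)‖ ≤ 17 / 16 * (‖e₀‖ * t ^ N) := by
    have h1 := norm_sub_norm_le (q (g z)) ((g z).1 ^ N * e₀)
    rw [hmn] at h1
    linarith
  have hqn : 0 < ‖q (g z)‖ := by linarith
  have q0 : q (g z) ≠ 0 := norm_pos_iff.1 hqn
  have hFp : 0 < ‖F z‖ := norm_pos_iff.2 (h0 z)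
  have hg0 : Qf z ≠ 0 := by
    intro h
    have h1 := hrel z hz
    rw [h, norm_zero, zero_mul] at h1
    have h2 : 0 < c' * ‖q (g z)‖ * ‖F z‖ ^ d := mul_pos (mul_pos hc' hqn) (pow_pos hFp d)
    linarith
  -- the formula for `lu`
  have hgan := hg.an z hz
  have hqan : AnalyticAt ℂ (fun w => q (g w)) z := AnalyticAt.fun_comp (g := q) (f := g) p4 hgan
  have hform : ∀ w ∈ Om, q (g w) ≠ 0 → lu F Qf d w = Real.log c' + Real.log ‖q (g w)‖ - d * ψ (g w) := by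
    intro w hw hqw
    have h1 := hrel w hw
    have h2 : 0 < ‖F w‖ := norm_pos_iff.2 (h0 w)
    have h3 : 0 < c' * ‖q (g w)‖ * ‖F w‖ ^ d := mul_pos (mul_pos hc' (norm_pos_iff.2 hqw)) (pow_pos h2 d)
    have h4 : ‖Qf w‖ ≠ 0 := by
      intro h5
      rw [h5, zero_mul] at h1
      linarith
    have h5 := congrArg Real.log h1
    rw [Real.log_mul h4 (Real.exp_pos _).ne', Real.log_exp, Real.log_mul (mul_pos hc' (norm_pos_iff.2 hqw)).ne' (pow_pos h2 d).ne',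
      Real.log_mul hc'.ne' (norm_ne_zero_iff.2 hqw), Real.log_pow] at h5
    unfold lu
    linarith
  have hev : lu F Qf d =ᶠ[𝓝 z] fun w => (Real.log c' + Real.log ‖q (g w)‖) - d * ψ (g w) := by
    filter_upwards [hg.isOpen.mem_nhds hz, hqan.continuousAt.eventually_ne q0] with w h1 h2
    exact hform w h1 h2
  have hval := hform z hz q0
  have hψz : |(d : ℝ) * (ψ (g z) - ψ 0)| ≤ 1 / 8 := by
    rw [abs_mul, Nat.abs_cast]
    have h1 : (d : ℝ) * |ψ (g z) - ψ 0| ≤ d * (1 / (8 * ((d : ℝ) + 1))) := mul_le_mul_of_nonneg_left p3 hd0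
    have h2 : (d : ℝ) * (1 / (8 * ((d : ℝ) + 1))) ≤ 1 / 8 := by
      rw [mul_one_div, div_le_div_iff₀ (by positivity) (by norm_num)]
      linarith
    linarith
  have hψz' := abs_le.1 hψz
  -- the logarithm of `‖q‖`
  have hlogm : Real.log (‖e₀‖ * t ^ N) = Real.log ‖e₀‖ + N * Real.log t := by
    rw [Real.log_mul he₀'.ne' (by positivity), Real.log_pow]
  have hloglo : Real.log ‖e₀‖ + N * Real.log t - 1 / 8 ≤ Real.log ‖q (g z)‖ := by
    have h1 : Real.log (15 / 16 * (‖e₀‖ * t ^ N)) ≤ Real.log ‖q (g z)‖ := Real.log_le_log (by positivity) hqlo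
    rw [Real.log_mul (by norm_num) hmt.ne', hlogm] at h1
    have h2 : -(1 / 8 : ℝ) ≤ Real.log (15 / 16) := by
      have h3 := Real.one_sub_inv_le_log_of_pos (show (0 : ℝ) < 15 / 16 by norm_num)
      norm_num at h3 ⊢
      linarith
    linarith
  have hloghi : Real.log ‖q (g z)‖ ≤ Real.log ‖e₀‖ + N * Real.log t + 1 / 8 := by
    have h1 : Real.log ‖q (g z)‖ ≤ Real.log (17 / 16 * (‖e₀‖ * t ^ N)) := Real.log_le_log hqn hqhi
    rw [Real.log_mul (by norm_num) hmt.ne', hlogm] at h1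
    have h2 : Real.log (17 / 16) ≤ (1 / 8 : ℝ) := by
      have h3 := Real.log_le_sub_one_of_pos (show (0 : ℝ) < 17 / 16 by norm_num)
      norm_num at h3 ⊢
      linarith
    linarith
  have hlogt1 : Real.log (ρ / 2) ≤ Real.log t := Real.log_le_log (by positivity) hx1
  have hlogt2 : Real.log t ≤ Real.log (ρ / 2) + 2 * Real.log 2 := by
    have h1 : Real.log t ≤ Real.log (2 * ρ) := Real.log_le_log ht0 hx2
    have h2 : Real.log (2 * ρ) = Real.log (ρ / 2) + 2 * Real.log 2 := by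
      rw [Real.log_mul (by norm_num) hρ0.ne', Real.log_div hρ0.ne' (by norm_num)]
      ring
    linarith
  have hlog2 := Real.log_two_lt_d9
  refine ⟨hg0, ?_, ?_, ?_⟩
  · rw [hval]
    have h1 : (N : ℝ) * Real.log (ρ / 2) ≤ N * Real.log t := mul_le_mul_of_nonneg_left hlogt1 (by linarith)
    linarith [hψz'.2]
  · rw [hval]
    have h1 : (N : ℝ) * Real.log t ≤ N * (Real.log (ρ / 2) + 2 * Real.log 2) := mul_le_mul_of_nonneg_left hlogt2 (by linarith)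
    have h2 : (N : ℝ) * (2 * Real.log 2) ≤ N * 1.4 := mul_le_mul_of_nonneg_left (by linarith) (by linarith)
    linarith [hψz'.1]
  · -- the gradient
    have hode : (g z).1 ^ (k + 1) * a (g z) * (deriv g z).2 = b (g z) * (deriv g z).1 := by
      have h1 := hg.ode z hz
      rw [hv] at h1
      exact sub_eq_zero.1 h1
    obtain ⟨w1, w2⟩ := pXW (deriv g z).1 (deriv g z).2 hx0 hode
    have hd1 : DifferentiableAt ℝ (fun w => Real.log ‖q (g w)‖) z :=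
      (Pool.Agent.H30M.contDiffAt_log_norm hqan q0).differentiableAt (by norm_num)
    have hd2 : DifferentiableAt ℝ (fun w => ψ (g w)) z := DifferentiableAt.comp (g := ψ) z p1 (hgan.differentiableAt.restrictScalars ℝ)
    have e1 : gr (lu F Qf d) z = (starRingEnd ℂ) (deriv (fun w => q (g w)) z / q (g z)) - (d : ℂ) * gr (fun w => ψ (g w)) z := by
      have hd3 : DifferentiableAt ℝ (fun w => Real.log c' + Real.log ‖q (g w)‖) z := hd1.const_add _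
      rw [gr_congr hev, gr_sub hd3 (hd2.const_mul (d : ℝ)), gr_add (u := fun _ => Real.log c') (differentiableAt_const _) hd1, gr_const, zero_add,
        gr_const_mul (d : ℝ) hd2, gr_log_norm hqan.differentiableAt q0]
      push_cast
      rfl
    have e2 : deriv (fun w => q (g w)) z = fderiv ℂ q (g z) ((deriv g z).1, (deriv g z).2) :=
      (p4.differentiableAt.hasFDerivAt.comp_hasDerivAt z hgan.differentiableAt.hasDerivAt).deriv
    set X : ℂ := (deriv g z).1 with hX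
    set W : ℂ := (deriv g z).2 with hW
    have hXx : ‖X‖ = t * ‖X / (g z).1‖ := by
      rw [norm_div, ← ht]
      field_simp
    -- the main part
    have hE : B * (t ^ (N + 1) + Y + t * T) * ‖X‖ ≤ 1 / 16 * (‖e₀‖ * t ^ N) * ‖X‖ := by
      refine mul_le_mul_of_nonneg_right (le_trans ?_ herr) (norm_nonneg _)
      have h1 : t * T ≤ 2 * T₀ * ρ ^ (N + 1) := by
        calc t * T ≤ 2 * ρ * (T₀ * ρ ^ N) := mul_le_mul hx2 hTN hTt0 (by positivity)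
          _ = _ := by ring
      calc B * (t ^ (N + 1) + Y + t * T) ≤ B * ((2 ^ (N + 1) + 1) * ρ ^ (N + 1) + 2 * T₀ * ρ ^ (N + 1)) :=
            mul_le_mul_of_nonneg_left (by linarith) hB0.le
        _ = B₂ * ρ ^ (N + 1) := by rw [hB₂]; ring
    have e3 : ((N : ℝ) - 1 / 8) * ‖X / (g z).1‖ ≤ ‖deriv (fun w => q (g w)) z / q (g z)‖ := by
      rw [e2]
      have h1 : ‖(g z).1 * fderiv ℂ q (g z) (X, W) - N * X * q (g z)‖ ≤ 1 / 15 * ‖q (g z)‖ * ‖X‖ := by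
        refine (w2.trans hE).trans ?_
        refine mul_le_mul_of_nonneg_right ?_ (norm_nonneg _)
        linarith
      have h2 : fderiv ℂ q (g z) (X, W) / q (g z) = N * (X / (g z).1) +
          ((g z).1 * fderiv ℂ q (g z) (X, W) - N * X * q (g z)) / ((g z).1 * q (g z)) := by
        field_simp
        ring
      have h3 : ‖((g z).1 * fderiv ℂ q (g z) (X, W) - N * X * q (g z)) / ((g z).1 * q (g z))‖ ≤ 1 / 15 * ‖X / (g z).1‖ := by
        rw [norm_div, norm_mul, ← ht, div_le_iff₀ (by positivity)]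
        refine h1.trans (le_of_eq ?_)
        rw [hXx]
        ring
      have h5 : ‖(N : ℂ) * (X / (g z).1)‖ = N * ‖X / (g z).1‖ := by
        rw [norm_mul, Complex.norm_natCast]
      have h6 := norm_sub_norm_le ((N : ℂ) * (X / (g z).1)) (-(((g z).1 * fderiv ℂ q (g z) (X, W) - N * X * q (g z)) / ((g z).1 * q (g z))))
      rw [norm_neg, sub_neg_eq_add, ← h2, h5] at h6
      have h7 := norm_nonneg (X / (g z).1)
      linarith
    have e4 : ‖(d : ℂ) * gr (fun w => ψ (g w)) z‖ ≤ 1 / 4 * ‖X / (g z).1‖ := by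
      have h1 := AxisA.norm_gr_comp_le (ψ := ψ) (x := fun w => (g w).1) (y := fun w => (g w).2) (z := z) p1 (an_fst hgan) (an_snd hgan) p2
      rw [deriv_fst' hgan.differentiableAt, deriv_snd' hgan.differentiableAt, ← hX, ← hW] at h1
      have h2 : ‖W‖ ≤ B₃ * ‖X‖ := by
        refine w1.trans (mul_le_mul_of_nonneg_right ?_ (norm_nonneg _))
        have h3 : B * (Y + t ^ (N + 3 * k + 3 + 1)) / t ^ (k + 1) = B * T := by rw [hT]; ring
        rw [h3, hB₃]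
        have h4 : B * T ≤ B * T₀ := mul_le_mul_of_nonneg_left hT1 hB0.le
        linarith
      have h3 : max ‖X‖ ‖W‖ ≤ (1 + B₃) * ‖X‖ := by
        refine max_le ?_ ?_
        · have := mul_nonneg hB₃0.le (norm_nonneg X)
          linarith
        · have := norm_nonneg X
          linarith
      have h4 : ‖gr (fun w => ψ (g w)) z‖ ≤ C * ((1 + B₃) * ‖X‖) := h1.trans (mul_le_mul_of_nonneg_left h3 hC0.le)
      rw [norm_mul, Complex.norm_natCast]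
      calc (d : ℝ) * ‖gr (fun w => ψ (g w)) z‖ ≤ ((d : ℝ) + 1) * (C * ((1 + B₃) * (2 * ρ * ‖X / (g z).1‖))) := by
            refine mul_le_mul (by linarith) (h4.trans ?_) (norm_nonneg _) (by positivity)
            refine mul_le_mul_of_nonneg_left (mul_le_mul_of_nonneg_left ?_ (by positivity)) hC0.le
            rw [hXx]
            exact mul_le_mul_of_nonneg_right hx2 (norm_nonneg _)
        _ = (((d : ℝ) + 1) * C * (1 + B₃) * (2 * ρ)) * ‖X / (g z).1‖ := by ring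
        _ ≤ 1 / 4 * ‖X / (g z).1‖ := mul_le_mul_of_nonneg_right hρC (norm_nonneg _)
    rw [e1]
    have h8 := norm_sub_norm_le ((starRingEnd ℂ) (deriv (fun w => q (g w)) z / q (g z))) ((d : ℂ) * gr (fun w => ψ (g w)) z)
    rw [RCLike.norm_conj] at h8
    have h9 := norm_nonneg (X / (g z).1)
    have h10 : (N / 4 : ℝ) * ‖X / (g z).1‖ ≤ ((N : ℝ) - 1 / 8 - 1 / 4) * ‖X / (g z).1‖ :=
      mul_le_mul_of_nonneg_right (by linarith only [hn0]) h9
    linarith only [h10, h8, e3, e4]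

end Pool.Agent.MQ
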