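import Pool.Agent.MQ.LForm
import Pool.Agent.MQ.SNShell

/-!
# MQ/LFormT: saddle-nodes with a formal weak separatrix, the normal bundle half of the local package, in one variable
-/

set_option autoImplicit false

open Topology Filter Asymptotics Complex Set ComplexConjugate Metric MeasureTheory

noncomputable section

namespace Pool.Agent.MQ

open Pool.Agent.H36.BP (EN fs)
open Pool.Agent.H30M (tau tau_nonneg)

theorem sn_bound {r : ℝ} {E : Type} [NormedAddCommGroup E] {f : ℂ × ℂ → E} (hf : ContinuousOn f (closedBall 0 r)) :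
    ∃ C : ℝ, 0 < C ∧ ∀ p ∈ closedBall (0 : ℂ × ℂ) r, ‖f p‖ ≤ C := by
  obtain ⟨C, hC⟩ := (isCompact_closedBall (0 : ℂ × ℂ) r).bddAbove_image hf.norm
  exact ⟨max C 1, lt_of_lt_of_le one_pos (le_max_right _ _), fun p hp => (hC ⟨p, hp, rfl⟩).trans (le_max_left _ _)⟩

theorem dlt_analytic {k : ℕ} {a b : ℂ × ℂ → ℂ} {p : ℂ × ℂ} (ha : AnalyticAt ℂ a p) (hb : AnalyticAt ℂ b p) (ε : ℂ) : AnalyticAt ℂ (dlt k a b ε) p := by
  unfold dlt
  exact (((analyticAt_const).mul ((analyticAt_fst.pow k).mul ha)).add ((analyticAt_fst.pow (k + 1)).mul (an_fderiv_apply ha _))).add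
    (an_fderiv_apply hb _)

theorem v_analytic {k : ℕ} {a b : ℂ × ℂ → ℂ} {v : ℂ × ℂ → ℂ × ℂ} (hv : ∀ p, v p = (p.1 ^ (k + 1) * a p, b p)) {p : ℂ × ℂ} (ha : AnalyticAt ℂ a p)
    (hb : AnalyticAt ℂ b p) : AnalyticAt ℂ v p := by
  have : v = fun p => (p.1 ^ (k + 1) * a p, b p) := funext hv
  rw [this]
  exact ((analyticAt_fst.pow (k + 1)).mul ha).prod hb

/-- a lower bound of `v` away from `0` -/
theorem v_lower {r t : ℝ} {v : ℂ × ℂ → ℂ × ℂ} (hv : ContinuousOn v (closedBall 0 r)) (hv0 : ∀ p ∈ closedBall (0 : ℂ × ℂ) r, v p = 0 → p = 0)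
    (ht : 0 < t) : ∃ m : ℝ, 0 < m ∧ ∀ p ∈ closedBall (0 : ℂ × ℂ) r, p ∉ ball (0 : ℂ × ℂ) t → m ≤ ‖v p‖ := by
  have hK : IsCompact (closedBall (0 : ℂ × ℂ) r \ ball (0 : ℂ × ℂ) t) := (isCompact_closedBall _ _).diff isOpen_ball
  rcases (closedBall (0 : ℂ × ℂ) r \ ball (0 : ℂ × ℂ) t).eq_empty_or_nonempty with h | h
  · refine ⟨1, one_pos, fun p hp hpt => ?_⟩
    have : p ∈ closedBall (0 : ℂ × ℂ) r \ ball (0 : ℂ × ℂ) t := ⟨hp, hpt⟩
    rw [h] at this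
    exact absurd this (notMem_empty _)
  · obtain ⟨p₀, hp₀, hmin⟩ := hK.exists_isMinOn h (hv.norm.mono sdiff_subset)
    refine ⟨‖v p₀‖, norm_pos_iff.2 fun h0 => ?_, fun p hp hpt => hmin ⟨hp, hpt⟩⟩
    have h1 := hv0 p₀ hp₀.1 h0
    apply hp₀.2
    rw [h1]
    exact mem_ball_self ht

theorem localN1_aux {k : ℕ} (hk : 1 ≤ k) {a b : ℂ × ℂ → ℂ} (ha : AnalyticAt ℂ a 0) (hb : AnalyticAt ℂ b 0) (ha0 : a 0 ≠ 0)
    (hb0 : fderiv ℂ b 0 (0, 1) ≠ 0) {c : ℕ → ℂ} (hc : c 0 = 0)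
    (hJ : ∀ J, (fun t => b (t, jet c J t) - deriv (jet c J) t * (t ^ (k + 1) * a (t, jet c J t))) =O[𝓝 0] fun t : ℂ => t ^ (J + 1)) (ε : ℂ) :
    ∃ C₀ : ℝ, 0 ≤ C₀ ∧ ∀ {r : ℝ} (_ : 0 < r) (_ : AnalyticOnNhd ℂ a (closedBall 0 r)) (_ : AnalyticOnNhd ℂ b (closedBall 0 r))
      {v : ℂ × ℂ → ℂ × ℂ} (_ : ∀ p, v p = (p.1 ^ (k + 1) * a p, b p)) (_ : ∀ p ∈ closedBall (0 : ℂ × ℂ) r, v p = 0 → p = 0)
      {q : ℂ × ℂ → ℂ} (_ : AnalyticAt ℂ q 0) {N : ℕ} (_ : 1 ≤ N) (_ : ∀ J, N ≤ J → analyticOrderAt (fun t => q (t, jet c J t)) 0 = N)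
      {ψ : ℂ × ℂ → ℝ} (_ : ContDiffAt ℝ 1 ψ 0) (d : ℕ) {M : ℕ} {F : ℂ → EN M} (_ : Differentiable ℂ F) (_ : ∀ z, F z ≠ 0)
      {Qf : ℂ → ℂ} (_ : Differentiable ℂ Qf) (_ : ∀ z, ‖Qf z‖ ≤ ‖F z‖ ^ d) {c' : ℝ} (_ : 0 < c') {Om : Set ℂ} {g : ℂ → ℂ × ℂ}
      (_ : Crv1 v r Om g) (_ : ∀ z ∈ Om, ‖Qf z‖ * Real.exp (d * ψ (g z)) = c' * ‖q (g z)‖ * ‖F z‖ ^ d)
      {D : ℂ → ℂ} (_ : ∀ z ∈ Om, g z ≠ 0 → D z = dlt k a b ε (g z) * ztv v g z) {s : ℝ} (_ : 0 < s) (_ : s < r),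
      ∃ (C : ℝ) (η : ℂ → ℂ) (err : ℂ → ℝ), 0 ≤ C ∧ ContDiffOn ℝ 1 η Om ∧ ContinuousOn err Om ∧
        (∀ z ∈ Om, g z ∉ ball (0 : ℂ × ℂ) s → η z = conj (D z) ∧ err z = 0) ∧
        (∀ z ∈ Om, g z ∈ ball (0 : ℂ × ℂ) s → ‖η z‖ ≤ C * ‖deriv g z‖) ∧ (∀ z ∈ Om, 0 ≤ err z) ∧
        (∀ z ∈ Om, 0 ≤ dv η z + err z) ∧
        ∀ R, 1 ≤ R → ∫ z in Om, tau R z * err z ≤ (C₀ * d / N) * En F R + C * Len F R + C := by
  obtain ⟨C, α, hC, hα, htube⟩ := sn_tube hk ha hb ha0 hb0 hc hJ ε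
  obtain ⟨B, hB, hB1, hB2⟩ := HH_bdd
  set C₂ : ℝ := (C + B * C ^ 2) * (B * C ^ 2) with hC₂
  have hC₂0 : 0 < C₂ := by positivity
  refine ⟨192 * C₂, by positivity, ?_⟩
  intro r hr haa hbb v hv hv0 q hq N hN hord ψ hψ d M F hF hF0 Qf hQf hQF c' hc' Om g hg hrel D hD s hs hsr
  have hN0 : (0 : ℝ) < N := by exact_mod_cast hN
  set J := N + 3 * k + 3 with hJdef
  set n := N + 2 * k + 2 with hn
  have hball2 : ball (0 : ℂ × ℂ) (s / 2) ∈ 𝓝 (0 : ℂ × ℂ) := ball_mem_nhds _ (by positivity)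
  obtain ⟨ρ, hρt, hρs, hρsh, hρb, hρ0⟩ := ((htube N).and ((scl_pos hk hα r).and ((sn_shell hk ha hb ha0 hc hJ hq hN hord hψ d).and
    ((tube_small hc J (show 1 ≤ n by omega) hball2).and self_mem_nhdsWithin)))).exists
  have hρ : 0 < ρ := hρ0
  obtain ⟨b₀, hb₀⟩ := hρsh c' hc'
  set η : ℂ → ℂ := snF α k c J n ρ D g with hη
  -- basic facts
  have hmemc : ∀ z ∈ Om, g z ∈ closedBall (0 : ℂ × ℂ) r := fun z hz => ball_subset_closedBall (hg.mem z hz)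
  have hx_le : ∀ z ∈ Om, ‖(g z).1‖ ≤ r := fun z hz => (norm_fst_le (g z)).trans (mem_closedBall_zero_iff.1 (hmemc z hz))
  have hvz : ∀ z ∈ Om, g z ≠ 0 → v (g z) ≠ 0 := fun z hz h0 h1 => h0 (hv0 _ (hmemc z hz) h1)
  have hDev : ∀ z ∈ Om, g z ≠ 0 → D =ᶠ[𝓝 z] fun w => dlt k a b ε (g w) * ztv v g w := by
    intro z hz h0
    filter_upwards [hg.isOpen.mem_nhds hz, (hg.an z hz).continuousAt.eventually_ne h0] with w hw hw0 using hD w hw hw0
  have hDan : ∀ z ∈ Om, g z ≠ 0 → AnalyticAt ℂ D z := by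
    intro z hz h0
    have h1 : AnalyticAt ℂ (fun w => dlt k a b ε (g w)) z :=
      AnalyticAt.fun_comp (g := dlt k a b ε) (dlt_analytic (haa _ (hmemc z hz)) (hbb _ (hmemc z hz)) ε) (hg.an z hz)
    have h2 : AnalyticAt ℂ (ztv v g) z := hg.an_ztv hz (v_analytic hv (haa _ (hmemc z hz)) (hbb _ (hmemc z hz))) (hvz z hz h0)
    exact (h1.mul h2).congr (hDev z hz h0).symm
  have hηC1 : ∀ z ∈ Om, ContDiffAt ℝ 1 η z := by
    intro z hz
    by_cases h0 : g z = 0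
    · have h1 : η =ᶠ[𝓝 z] fun _ => 0 := snF_zero hk hα hρ hc (hg.an z hz) h0 D
      exact contDiffAt_const.congr_of_eventuallyEq h1
    · exact snF_contDiffAt hk hα hρ (hg.an z hz) (hDan z hz h0)
  have hdvc : ∀ z ∈ Om, ContinuousAt (dv η) z := by
    intro z hz
    have h1 : ContinuousAt (fderiv ℝ η) z := (hηC1 z hz).continuousAt_fderiv one_ne_zero
    have h2 : ContinuousAt (fun w => (fderiv ℝ η w 1).re + (fderiv ℝ η w I).im) z :=
      (Complex.continuous_re.continuousAt.comp (h1.clm_apply continuousAt_const)).add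
        (Complex.continuous_im.continuousAt.comp (h1.clm_apply continuousAt_const))
    exact h2
  -- the derivatives along the curve
  have hd1 : ∀ z ∈ Om, g z ≠ 0 → (deriv g z).1 = (g z).1 ^ (k + 1) * a (g z) * ztv v g z := by
    intro z hz h0
    rw [hg.deriv_fst hz (hvz z hz h0), hv]
    ring
  have hd2 : ∀ z ∈ Om, g z ≠ 0 → deriv (fun w => (g w).2 - jet c J (g w).1) z = yv k a b c J (g z) * ztv v g z := by
    intro z hz h0
    have hgd : DifferentiableAt ℂ g z := (hg.an z hz).differentiableAt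
    have h1 : HasDerivAt (fun w => (g w).1) (deriv g z).1 z := by
      have := (an_fst (hg.an z hz)).differentiableAt.hasDerivAt
      rwa [deriv_fst' hgd] at this
    have h2 : HasDerivAt (fun w => (g w).2) (deriv g z).2 z := by
      have := (an_snd (hg.an z hz)).differentiableAt.hasDerivAt
      rwa [deriv_snd' hgd] at this
    have h3 : HasDerivAt (fun w => jet c J (g w).1) (deriv (jet c J) (g z).1 * (deriv g z).1) z :=
      HasDerivAt.comp z (h₂ := jet c J) ((jet_differentiable c J) _).hasDerivAt h1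
    have h4 : HasDerivAt (fun w => (g w).2 - jet c J (g w).1) ((deriv g z).2 - deriv (jet c J) (g z).1 * (deriv g z).1) z := h2.sub h3
    rw [h4.deriv, hg.deriv_fst hz (hvz z hz h0), hg.deriv_snd hz (hvz z hz h0), hv, yv]
    ring
  -- the pointwise inequality
  have hpt : ∀ z ∈ Om, -dv η z ≤ 0 ∨ ρ / 2 ≤ ‖(g z).1‖ ∧ ‖(g z).1‖ ≤ 2 * ρ ∧ ‖(g z).2 - jet c J (g z).1‖ ≤ ρ ^ n ∧
      -dv η z ≤ C₂ * ‖(deriv g z).1 / (g z).1‖ ^ 2 := by
    intro z hz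
    by_cases h0 : g z = 0
    · left
      have h1 : η =ᶠ[𝓝 z] fun _ => 0 := snF_zero hk hα hρ hc (hg.an z hz) h0 D
      rw [dv_congr h1, dv_const, neg_zero]
    · rcases snF_le hk hα hρ hC hB hB1 hB2 hρs (hg.an z hz) (hx_le z hz) (hDan z hz h0) (hD z hz h0) (hd1 z hz h0) (hd2 z hz h0)
        (fun h1 h2 => hρt (g z) h1 h2) with h1 | ⟨h1, h2, h3, h4⟩
      · exact Or.inl h1
      · refine Or.inr ⟨h1, h2, h3, h4.trans (le_of_eq ?_)⟩
        rw [hC₂]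
        ring
  -- far from the center
  have hfar0 : ∀ w ∈ Om, g w ∉ ball (0 : ℂ × ℂ) (s / 2) → η w = conj (D w) := by
    intro w hw hws
    have h1 : f₁ α k ρ g w = 0 ∨ ρ ^ n < ‖(g w).2 - jet c J (g w).1‖ := by
      by_contra hcon
      push Not at hcon
      obtain ⟨e1, e2⟩ := hcon
      apply hws
      apply hρb (g w) _ e2
      by_cases hx0 : (g w).1 = 0
      · rw [hx0, norm_zero]; positivity
      · have h2 : f₁ α k ρ g w = hp (scl α k ρ * ‖pot α k (g w).1‖ ^ 2) := by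
          rw [f₁, XX, if_neg hx0]
        by_cases h3 : scl α k ρ * ‖pot α k (g w).1‖ ^ 2 ≤ 1
        · rw [h2, hp_zero h3] at e1
          exact absurd rfl e1
        · exact (hρs _ (hx_le w hw) (not_le.1 h3).le).1
    rcases h1 with h1 | h1
    · rw [hη, snF, h1]
      simp
    · have hcont : ContinuousAt (fun w => ‖(g w).2 - jet c J (g w).1‖) w := by
        have hga := (hg.an w hw).continuousAt
        have hc2 : Continuous fun p : ℂ × ℂ => ‖p.2 - jet c J p.1‖ := (cd_jet c J).continuous.norm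
        exact hc2.continuousAt.comp hga
      have h2 : ∀ᶠ y in 𝓝 w, f₂ c J n ρ g y = 0 := by
        filter_upwards [hcont.eventually (lt_mem_nhds h1)] with y hy
        exact CC_zero hρ hy.le
      have h3 : f₃ α k c J n ρ g =ᶠ[𝓝 w] fun _ => 0 := by
        filter_upwards [h2] with y hy
        rw [f₃, hy, zero_mul]
      rw [hη, snF, gr_congr h3, gr_const, h2.self_of_nhds]
      simp
  have hfar : ∀ z ∈ Om, g z ∉ ball (0 : ℂ × ℂ) s → η =ᶠ[𝓝 z] fun w => conj (D w) := by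
    intro z hz hzs
    have h1 : ∀ᶠ w in 𝓝 z, g w ∈ (closedBall (0 : ℂ × ℂ) (s / 2))ᶜ := by
      refine (hg.an z hz).continuousAt (isClosed_closedBall.isOpen_compl.mem_nhds ?_)
      intro h2
      apply hzs
      rw [mem_ball_zero_iff]
      have := mem_closedBall_zero_iff.1 h2
      linarith
    filter_upwards [hg.isOpen.mem_nhds hz, h1] with w hw hw2
    exact hfar0 w hw fun h3 => hw2 (ball_subset_closedBall h3)
  -- the bound
  obtain ⟨t, ht0, ht⟩ : ∃ t : ℝ, 0 < t ∧ ∀ p ∈ ball (0 : ℂ × ℂ) t, XX α k ρ p.1 * CC n ρ (p.2 - jet c J p.1) = 1 := by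
    have h1 : ∀ᶠ p in 𝓝 (0 : ℂ × ℂ), XX α k ρ p.1 = 1 :=
      (continuous_fst.tendsto (0 : ℂ × ℂ)).eventually (XX_ev_one hk hα hρ)
    have h2 : ∀ᶠ p in 𝓝 (0 : ℂ × ℂ), CC n ρ (p.2 - jet c J p.1) = 1 := by
      have h3 : Tendsto (fun p : ℂ × ℂ => p.2 - jet c J p.1) (𝓝 0) (𝓝 0) := by
        have := (cd_jet c J).continuous.tendsto (0 : ℂ × ℂ)
        simpa [jet_zero hc] using this
      exact h3.eventually CC_ev_one
    obtain ⟨t, ht0, ht⟩ := Metric.eventually_nhds_iff_ball.1 (h1.and h2)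
    exact ⟨t, ht0, fun p hp => by rw [(ht p hp).1, (ht p hp).2, one_mul]⟩
  have hvan : AnalyticOnNhd ℂ v (closedBall 0 r) := fun p hp => v_analytic hv (haa p hp) (hbb p hp)
  obtain ⟨m, hm0, hm⟩ := v_lower hvan.continuousOn hv0 ht0
  obtain ⟨C₃, hC₃0, hC₃⟩ := sn_bound (f := dlt k a b ε) (r := r) fun p hp => (dlt_analytic (haa p hp) (hbb p hp) ε).continuousAt.continuousWithinAt
  obtain ⟨C₄, hC₄0, hC₄⟩ := sn_bound (f := fderiv ℝ fun p : ℂ × ℂ => CC n ρ (p.2 - jet c J p.1) * EEE α k ρ p.1) (r := r)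
    ((cd_EE α k c J n ρ).continuous_fderiv (by norm_num)).continuousOn
  have hbd : ∀ z ∈ Om, ‖η z‖ ≤ (C₃ / m + C₄) * ‖deriv g z‖ := by
    intro z hz
    by_cases h0 : g z = 0
    · have h1 : η z = 0 := (snF_zero hk hα hρ hc (hg.an z hz) h0 D).self_of_nhds
      rw [h1, norm_zero]
      positivity
    have h1 : ‖((1 - f₁ α k ρ g z * f₂ c J n ρ g z : ℝ) : ℂ) * conj (D z)‖ ≤ C₃ / m * ‖deriv g z‖ := by
      by_cases h2 : g z ∈ ball (0 : ℂ × ℂ) t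
      · have h3 : f₁ α k ρ g z * f₂ c J n ρ g z = 1 := ht _ h2
        rw [h3, sub_self, Complex.ofReal_zero, zero_mul, norm_zero]
        positivity
      · have h3 := hm _ (hmemc z hz) h2
        have h4 : ‖deriv g z‖ = ‖ztv v g z‖ * ‖v (g z)‖ := by
          have h5 : deriv g z = ztv v g z • v (g z) :=
            Prod.ext (hg.deriv_fst hz (hvz z hz h0)) (hg.deriv_snd hz (hvz z hz h0))
          rw [← norm_smul, ← h5]
        have h5 : |1 - f₁ α k ρ g z * f₂ c J n ρ g z| ≤ 1 := by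
          have e1 : 0 ≤ f₁ α k ρ g z := XX_nonneg _
          have e2 : f₁ α k ρ g z ≤ 1 := XX_le _
          have e3 : 0 ≤ f₂ c J n ρ g z := CC_nonneg _
          have e4 : f₂ c J n ρ g z ≤ 1 := CC_le _
          rw [abs_le]
          constructor <;> nlinarith [mul_nonneg e1 e3, mul_le_one₀ e2 e3 e4]
        rw [norm_mul, Complex.norm_real, Real.norm_eq_abs, RCLike.norm_conj, hD z hz h0, norm_mul]
        have h6 := hC₃ _ (hmemc z hz)
        calc |1 - f₁ α k ρ g z * f₂ c J n ρ g z| * (‖dlt k a b ε (g z)‖ * ‖ztv v g z‖) ≤ 1 * (C₃ * ‖ztv v g z‖) :=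
              mul_le_mul h5 (mul_le_mul_of_nonneg_right h6 (norm_nonneg _)) (by positivity) zero_le_one
          _ = C₃ / m * (‖ztv v g z‖ * m) := by field_simp
          _ ≤ C₃ / m * ‖deriv g z‖ := by
            rw [h4]
            exact mul_le_mul_of_nonneg_left (mul_le_mul_of_nonneg_left h3 (norm_nonneg _)) (by positivity)
    have h2 : ‖(f₁ α k ρ g z : ℂ) * (-I * gr (f₃ α k c J n ρ g) z)‖ ≤ C₄ * ‖deriv g z‖ := by
      have e1 : 0 ≤ f₁ α k ρ g z := XX_nonneg _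
      have e2 : f₁ α k ρ g z ≤ 1 := XX_le _
      have e3 : ‖gr (f₃ α k c J n ρ g) z‖ ≤ C₄ * ‖deriv g z‖ := by
        have hdd : DifferentiableAt ℝ (fun p : ℂ × ℂ => CC n ρ (p.2 - jet c J p.1) * EEE α k ρ p.1) ((g z).1, (g z).2) :=
          (cd_EE α k c J n ρ).differentiable (by norm_num) _
        have h3 := AxisA.norm_gr_comp_le (x := fun w => (g w).1) (y := fun w => (g w).2) (z := z) hdd (an_fst (hg.an z hz)) (an_snd (hg.an z hz))
          (hC₄ _ (hmemc z hz))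
        rw [deriv_fst' (hg.an z hz).differentiableAt, deriv_snd' (hg.an z hz).differentiableAt] at h3
        exact h3
      rw [norm_mul, norm_mul, norm_neg, Complex.norm_I, one_mul, Complex.norm_real, Real.norm_of_nonneg e1]
      calc _ ≤ 1 * ‖gr (f₃ α k c J n ρ g) z‖ := mul_le_mul_of_nonneg_right e2 (norm_nonneg _)
        _ ≤ _ := by rw [one_mul]; exact e3
    calc ‖η z‖ ≤ _ := norm_add_le _ _
      _ ≤ C₃ / m * ‖deriv g z‖ + C₄ * ‖deriv g z‖ := add_le_add h1 h2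
      _ = _ := by ring
  -- the integral
  obtain ⟨C₅, hC₅⟩ := charge hF hF0 hQf hQF hN b₀
  set W : ℂ → ℝ := fun z => {z | Qf z ≠ 0 ∧ b₀ ≤ lu F Qf d z ∧ lu F Qf d z ≤ b₀ + 2 * N}.indicator (fun z => ‖gr (lu F Qf d) z‖ ^ 2) z with hW
  have hW0 : ∀ z, 0 ≤ W z := fun z => Set.indicator_nonneg (fun _ _ => by positivity) z
  have hle : ∀ z ∈ Om, max 0 (-dv η z) ≤ 16 * C₂ / N ^ 2 * W z := by
    intro z hz
    refine max_le (mul_nonneg (by positivity) (hW0 z)) ?_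
    rcases hpt z hz with h1 | ⟨h1, h2, h3, h4⟩
    · exact h1.trans (mul_nonneg (by positivity) (hW0 z))
    · obtain ⟨g1, g2, g3, g4⟩ := hb₀ hF hF0 hv hg hrel z hz h1 h2 h3
      have g5 : W z = ‖gr (lu F Qf d) z‖ ^ 2 := Set.indicator_of_mem (show z ∈ {z | Qf z ≠ 0 ∧ b₀ ≤ lu F Qf d z ∧ lu F Qf d z ≤ b₀ + 2 * N} from
        ⟨g1, g2, g3⟩) _
      rw [g5]
      refine h4.trans ?_
      have g6 : ((N : ℝ) / 4 * ‖(deriv g z).1 / (g z).1‖) ^ 2 ≤ ‖gr (lu F Qf d) z‖ ^ 2 := pow_le_pow_left₀ (by positivity) g4 2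
      have g7 : 16 * C₂ / (N : ℝ) ^ 2 * ((N : ℝ) / 4 * ‖(deriv g z).1 / (g z).1‖) ^ 2 = C₂ * ‖(deriv g z).1 / (g z).1‖ ^ 2 := by
        field_simp
        ring
      rw [← g7]
      exact mul_le_mul_of_nonneg_left g6 (by positivity)
  have hCpos : 0 ≤ |16 * C₂ / (N : ℝ) ^ 2 * C₅| := abs_nonneg _
  have hce : ∀ z ∈ Om, ContinuousAt (fun z => max 0 (-dv η z)) z := fun z hz => continuousAt_const.max (hdvc z hz).neg
  have hCm : 0 ≤ C₃ / m + C₄ := by positivity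
  refine ⟨(C₃ / m + C₄) + |16 * C₂ / (N : ℝ) ^ 2 * C₅|, η, fun z => max 0 (-dv η z), by positivity, fun z hz => (hηC1 z hz).contDiffWithinAt,
    fun z hz => (hce z hz).continuousWithinAt, ?_, ?_, fun z _ => le_max_left _ _, ?_, ?_⟩
  · intro z hz hzs
    have h1 := hfar z hz hzs
    have h0 : g z ≠ 0 := by
      intro h0
      apply hzs
      rw [h0]
      exact mem_ball_self hs
    refine ⟨h1.self_of_nhds, ?_⟩
    change max 0 (-dv η z) = 0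
    rw [dv_congr h1, dv_conj (hDan z hz h0).differentiableAt, neg_zero, max_self]
  · intro z hz _
    refine (hbd z hz).trans (mul_le_mul_of_nonneg_right ?_ (norm_nonneg _))
    linarith
  · intro z _
    have := le_max_right 0 (-dv η z)
    change 0 ≤ dv η z + max 0 (-dv η z)
    linarith
  · intro R hR
    have hint := (AxisA.integrable_charge hF hF0 hQf d N b₀ hR).const_mul (16 * C₂ / (N : ℝ) ^ 2)
    have h1 : ∫ z in Om, tau R z * max 0 (-dv η z) ≤ ∫ z, 16 * C₂ / (N : ℝ) ^ 2 * (tau R z * W z) := by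
      rw [← integral_indicator hg.isOpen.measurableSet]
      refine integral_mono_of_nonneg (Eventually.of_forall fun z => ?_) hint (Eventually.of_forall fun z => ?_)
      · exact Set.indicator_nonneg (fun z _ => mul_nonneg (tau_nonneg hR z) (le_max_left _ _)) z
      · by_cases hz : z ∈ Om
        · simp only [Set.indicator_of_mem hz]
          calc tau R z * max 0 (-dv η z) ≤ tau R z * (16 * C₂ / N ^ 2 * W z) := mul_le_mul_of_nonneg_left (hle z hz) (tau_nonneg hR z)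
            _ = _ := by ring
        · simp only [Set.indicator_of_notMem hz]
          exact mul_nonneg (by positivity) (mul_nonneg (tau_nonneg hR z) (hW0 z))
    refine h1.trans ?_
    rw [integral_const_mul]
    have h2 := mul_le_mul_of_nonneg_left (hC₅ R hR) (show 0 ≤ 16 * C₂ / (N : ℝ) ^ 2 by positivity)
    refine h2.trans ?_
    have h3 : 16 * C₂ / (N : ℝ) ^ 2 * (12 * N * (d * En F R) + C₅) = 192 * C₂ * d / N * En F R + 16 * C₂ / (N : ℝ) ^ 2 * C₅ := by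
      field_simp
      ring
    rw [h3]
    have h4 := le_abs_self (16 * C₂ / (N : ℝ) ^ 2 * C₅)
    have h5 : 0 ≤ ((C₃ / m + C₄) + |16 * C₂ / (N : ℝ) ^ 2 * C₅|) * Len F R := by
      refine mul_nonneg (by positivity) (integral_nonneg fun z => mul_nonneg (norm_nonneg _) ?_)
      exact div_nonneg (Real.sqrt_nonneg _) (by positivity)
    linarith

/-- `LocalN1` is monotone in the last constant -/
theorem LocalN1.mono {v : ℂ × ℂ → ℂ × ℂ} {l : ℂ × ℂ → ℂ} {Om : Set ℂ} {g : ℂ → ℂ × ℂ} {I Λ : ℝ → ℝ} {s δ δ' : ℝ} (h : LocalN1 v l Om g I Λ s δ)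
    (hI : ∀ R, 1 ≤ R → 0 ≤ I R) (hδ : δ ≤ δ') : LocalN1 v l Om g I Λ s δ' := by
  obtain ⟨C, η, err, h1, h2, h3, h4, h5, h6, h7, h8⟩ := h
  refine ⟨C, η, err, h1, h2, h3, h4, h5, h6, h7, fun R hR => (h8 R hR).trans ?_⟩
  have := mul_le_mul_of_nonneg_right hδ (hI R hR)
  linarith

/-- `div v ζ' - l' / l = δ ζ'` -/
theorem DDv_eq {k : ℕ} {a b : ℂ × ℂ → ℂ} {v : ℂ × ℂ → ℂ × ℂ} (hv : ∀ p, v p = (p.1 ^ (k + 1) * a p, b p)) {l : ℂ × ℂ → ℂ} {ε : ℂ}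
    (hl : ε = 1 ∧ (∀ p, l p = p.1) ∨ ε = 0 ∧ ∀ p, l p = 1) {r : ℝ} {Om : Set ℂ} {g : ℂ → ℂ × ℂ} (hg : Crv1 v r Om g) {z : ℂ} (hz : z ∈ Om)
    (ha : AnalyticAt ℂ a (g z)) (hb : AnalyticAt ℂ b (g z)) (hvz : v (g z) ≠ 0) (hlz : l (g z) ≠ 0) :
    DDv v l g z = dlt k a b ε (g z) * ztv v g z := by
  have h1 : dvg v (g z) = fderiv ℂ (fun p : ℂ × ℂ => p.1 ^ (k + 1) * a p) (g z) (1, 0) + fderiv ℂ b (g z) (0, 1) := by
    have hA : AnalyticAt ℂ (fun p : ℂ × ℂ => p.1 ^ (k + 1) * a p) (g z) := (analyticAt_fst.pow (k + 1)).mul ha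
    have h2 : v = fun p => (p.1 ^ (k + 1) * a p, b p) := funext hv
    have h3 : HasFDerivAt v ((fderiv ℂ (fun p : ℂ × ℂ => p.1 ^ (k + 1) * a p) (g z)).prod (fderiv ℂ b (g z))) (g z) := by
      rw [h2]
      exact hA.differentiableAt.hasFDerivAt.prodMk hb.differentiableAt.hasFDerivAt
    rw [dvg, h3.fderiv]
    rfl
  have h2 : deriv (fun w => l (g w)) z / l (g z) = ε * ((g z).1 ^ k * a (g z)) * ztv v g z := by
    rcases hl with ⟨h3, h4⟩ | ⟨h3, h4⟩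
    · have h5 : (fun w => l (g w)) = fun w => (g w).1 := funext fun w => h4 _
      have hx : (g z).1 ≠ 0 := by rw [← h4]; exact hlz
      rw [h5, deriv_fst' (hg.an z hz).differentiableAt, hg.deriv_fst hz hvz, hv, h4, h3]
      simp only
      field_simp
      ring
    · have h5 : (fun w => l (g w)) = fun _ => 1 := funext fun w => h4 _
      rw [h5, deriv_const, zero_div, h3]
      ring
  rw [DDv, h1, h2, ← div_eq_dlt (b := b) ha.differentiableAt ε]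
  ring

/-- **The normal bundle half of the local package at a saddle-node with a formal weak separatrix.** -/
theorem localN1_formal {k : ℕ} (hk : 1 ≤ k) {a b : ℂ × ℂ → ℂ} (ha : AnalyticAt ℂ a 0) (hb : AnalyticAt ℂ b 0) (ha0 : a 0 ≠ 0)
    (hb0 : fderiv ℂ b 0 (0, 1) ≠ 0) {c : ℕ → ℂ} (hc : c 0 = 0)
    (hJ : ∀ J, (fun t => b (t, jet c J t) - deriv (jet c J) t * (t ^ (k + 1) * a (t, jet c J t))) =O[𝓝 0] fun t : ℂ => t ^ (J + 1)) :
    ∃ C₀ : ℝ, 0 ≤ C₀ ∧ ∀ {r : ℝ} (_ : 0 < r) (_ : AnalyticOnNhd ℂ a (closedBall 0 r)) (_ : AnalyticOnNhd ℂ b (closedBall 0 r))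
      {v : ℂ × ℂ → ℂ × ℂ} (_ : ∀ p, v p = (p.1 ^ (k + 1) * a p, b p)) (_ : ∀ p ∈ closedBall (0 : ℂ × ℂ) r, v p = 0 → p = 0)
      {l : ℂ × ℂ → ℂ} (_ : (∀ p, l p = p.1) ∨ ∀ p, l p = 1)
      {q : ℂ × ℂ → ℂ} (_ : AnalyticAt ℂ q 0) {N : ℕ} (_ : 1 ≤ N) (_ : ∀ J, N ≤ J → analyticOrderAt (fun t => q (t, jet c J t)) 0 = N)
      {ψ : ℂ × ℂ → ℝ} (_ : ContDiffAt ℝ 1 ψ 0) (d : ℕ) {M : ℕ} {F : ℂ → EN M} (_ : Differentiable ℂ F) (_ : ∀ z, F z ≠ 0)
      {Qf : ℂ → ℂ} (_ : Differentiable ℂ Qf) (_ : ∀ z, ‖Qf z‖ ≤ ‖F z‖ ^ d) {c' : ℝ} (_ : 0 < c') {Om : Set ℂ} {g : ℂ → ℂ × ℂ}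
      (_ : Crv1 v r Om g) (_ : ∀ z ∈ Om, ‖Qf z‖ * Real.exp (d * ψ (g z)) = c' * ‖q (g z)‖ * ‖F z‖ ^ d)
      (_ : ∀ z ∈ Om, g z ≠ 0 → l (g z) ≠ 0) {s : ℝ} (_ : 0 < s) (_ : s < r), LocalN1 v l Om g (En F) (Len F) s (C₀ * d / N) := by
  obtain ⟨C₁, hC₁, H₁⟩ := localN1_aux hk ha hb ha0 hb0 hc hJ 1
  obtain ⟨C₂, hC₂, H₂⟩ := localN1_aux hk ha hb ha0 hb0 hc hJ 0
  refine ⟨C₁ + C₂, by positivity, ?_⟩
  intro r hr haa hbb v hv hv0 l hl q hq N hN hord ψ hψ d M F hF hF0 Qf hQf hQF c' hc' Om g hg hrel hl0 s hs hsr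
  have hI : ∀ R, 1 ≤ R → 0 ≤ En F R := fun R hR => integral_nonneg fun z => mul_nonneg (tau_nonneg hR z) (sq_nonneg _)
  have hmemc : ∀ z ∈ Om, g z ∈ closedBall (0 : ℂ × ℂ) r := fun z hz => ball_subset_closedBall (hg.mem z hz)
  have hN0 : (0 : ℝ) < N := by exact_mod_cast hN
  have hd0 : (0 : ℝ) ≤ d := Nat.cast_nonneg d
  rcases hl with hl | hl
  · have hD : ∀ z ∈ Om, g z ≠ 0 → DDv v l g z = dlt k a b 1 (g z) * ztv v g z := fun z hz h0 =>
      DDv_eq hv (Or.inl ⟨rfl, hl⟩) hg hz (haa _ (hmemc z hz)) (hbb _ (hmemc z hz)) (fun h1 => h0 (hv0 _ (hmemc z hz) h1)) (hl0 z hz h0)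
    have h1 : LocalN1 v l Om g (En F) (Len F) s (C₁ * d / N) := H₁ hr haa hbb hv hv0 hq hN hord hψ d hF hF0 hQf hQF hc' hg hrel hD hs hsr
    refine h1.mono hI ?_
    gcongr
    linarith
  · have hD : ∀ z ∈ Om, g z ≠ 0 → DDv v l g z = dlt k a b 0 (g z) * ztv v g z := fun z hz h0 =>
      DDv_eq hv (Or.inr ⟨rfl, hl⟩) hg hz (haa _ (hmemc z hz)) (hbb _ (hmemc z hz)) (fun h1 => h0 (hv0 _ (hmemc z hz) h1)) (hl0 z hz h0)
    have h1 : LocalN1 v l Om g (En F) (Len F) s (C₂ * d / N) := H₂ hr haa hbb hv hv0 hq hN hord hψ d hF hF0 hQf hQF hc' hg hrel hD hs hsr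
    refine h1.mono hI ?_
    gcongr
    linarith

end Pool.Agent.MQ
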