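import Pool.Agent.MQ.LNodeB
import Pool.Agent.MQ.LFormT

/-!
# MQ LFormB: `LocalN` of a saddle-node with a formal weak separatrix
-/

set_option autoImplicit false

open Topology Filter Metric MvPolynomial MeasureTheory Asymptotics

noncomputable section

namespace Pool.Agent.MQ

open Pool.Agent.H36.BP (EN fs)
open Pool.Agent.H17EF (coneE)

/-! ### orders along the formal curve -/

theorem bigO_pow_iff {g : ℂ → ℂ} (hg : AnalyticAt ℂ g 0) (n : ℕ) :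
    (g =O[𝓝 0] fun t : ℂ => t ^ n) ↔ (n : ℕ∞) ≤ analyticOrderAt g 0 := by
  constructor
  · intro h
    by_contra hlt
    rw [not_le] at hlt
    obtain ⟨m, hm⟩ : ∃ m : ℕ, analyticOrderAt g 0 = m := ENat.ne_top_iff_exists.1 (ne_top_of_lt hlt) |>.imp fun _ h => h.symm
    rw [hm, Nat.cast_lt] at hlt
    obtain ⟨q, hq, hq0, hgq⟩ := (hg.analyticOrderAt_eq_natCast).1 hm
    have h1 : (fun z : ℂ => (z - 0) ^ m • q z) =O[𝓝 0] fun t : ℂ => t ^ n :=
      IsBigO.congr' h hgq (Eventually.of_forall fun _ => rfl)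
    obtain ⟨B, hB⟩ := h1.bound
    have h2 : ∀ᶠ z in 𝓝[≠] (0 : ℂ), ‖q z‖ ≤ B * ‖z‖ ^ (n - m) := by
      filter_upwards [nhdsWithin_le_nhds hB, self_mem_nhdsWithin] with z hz hz0
      have hz0' : 0 < ‖z‖ := norm_pos_iff.2 hz0
      rw [sub_zero, norm_smul, norm_pow, norm_pow] at hz
      have h3 : ‖z‖ ^ n = ‖z‖ ^ m * ‖z‖ ^ (n - m) := by rw [← pow_add]; congr 1; omega
      rw [h3] at hz
      have h4 : ‖z‖ ^ m * ‖q z‖ ≤ ‖z‖ ^ m * (B * ‖z‖ ^ (n - m)) := by linarith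
      exact le_of_mul_le_mul_left h4 (pow_pos hz0' m)
    have h3 : Tendsto (fun z : ℂ => B * ‖z‖ ^ (n - m)) (𝓝[≠] 0) (𝓝 0) := by
      have h4 : Tendsto (fun z : ℂ => B * ‖z‖ ^ (n - m)) (𝓝 0) (𝓝 (B * ‖(0 : ℂ)‖ ^ (n - m))) :=
        (continuous_const.mul (continuous_norm.pow _)).tendsto 0
      rw [norm_zero, zero_pow (by omega), mul_zero] at h4
      exact h4.mono_left nhdsWithin_le_nhds
    have h4 : Tendsto (fun z : ℂ => ‖q z‖) (𝓝[≠] 0) (𝓝 ‖q 0‖) := hq.continuousAt.norm.tendsto.mono_left nhdsWithin_le_nhds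
    have h5 := le_of_tendsto_of_tendsto h4 h3 h2
    exact hq0 (norm_le_zero_iff.1 h5)
  · intro h
    obtain ⟨q, hq, hgq⟩ := (natCast_le_analyticOrderAt hg).1 h
    have h1 : (fun z : ℂ => (z - 0) ^ n • q z) =O[𝓝 0] fun t : ℂ => t ^ n := by
      have h2 : q =O[𝓝 0] fun _ : ℂ => (1 : ℂ) := hq.continuousAt.isBigO_one ℂ
      have h3 := (isBigO_refl (fun t : ℂ => t ^ n) (𝓝 0)).mul h2
      simpa [smul_eq_mul] using h3
    exact IsBigO.congr' h1 (hgq.mono fun z hz => hz.symm) (Eventually.of_forall fun _ => rfl)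

theorem pow_bigO {m n : ℕ} (h : m ≤ n) : (fun t : ℂ => t ^ n) =O[𝓝 0] fun t : ℂ => t ^ m := by
  have h1 : (fun t : ℂ => t ^ n) = fun t : ℂ => t ^ m * t ^ (n - m) := by
    funext t
    rw [← pow_add]
    congr 1
    omega
  rw [h1]
  have h4 : (fun t : ℂ => t ^ (n - m)) =O[𝓝 0] fun _ : ℂ => (1 : ℂ) :=
    Tendsto.isBigO_one ℂ (ContinuousAt.tendsto (f := fun t : ℂ => t ^ (n - m)) (by fun_prop))
  simpa using (isBigO_refl (fun t : ℂ => t ^ m) (𝓝 0)).mul h4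

/-- the difference of two truncations -/
theorem jet_diff (c : ℕ → ℂ) {n J : ℕ} (h : n ≤ J) : (fun t => jet c J t - jet c n t) =O[𝓝 0] fun t : ℂ => t ^ (n + 1) := by
  induction J, h using Nat.le_induction with
  | base => simp only [sub_self]; exact isBigO_zero _ _
  | succ J hJ ih =>
    have h1 : (fun t => jet c (J + 1) t - jet c n t) = fun t => (jet c J t - jet c n t) + c (J + 1) * t ^ (J + 1) := by
      funext t
      rw [jet, Finset.sum_range_succ, ← jet]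
      ring
    rw [h1]
    refine ih.add ?_
    have h2 : (fun t : ℂ => c (J + 1) * t ^ (J + 1)) = fun t : ℂ => t ^ (n + 1) * (c (J + 1) * t ^ (J - n)) := by
      funext t
      have h3 : t ^ (J + 1) = t ^ (n + 1) * t ^ (J - n) := by rw [← pow_add]; congr 1; omega
      rw [h3]; ring
    rw [h2]
    have h4 : (fun t : ℂ => c (J + 1) * t ^ (J - n)) =O[𝓝 0] fun _ : ℂ => (1 : ℂ) :=
      Tendsto.isBigO_one ℂ (ContinuousAt.tendsto (f := fun t : ℂ => c (J + 1) * t ^ (J - n)) (by fun_prop))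
    simpa using (isBigO_refl (fun t : ℂ => t ^ (n + 1)) (𝓝 0)).mul h4

theorem an_jet {q : ℂ × ℂ → ℂ} (hq : AnalyticAt ℂ q 0) {c : ℕ → ℂ} (hc : c 0 = 0) (J : ℕ) :
    AnalyticAt ℂ (fun t : ℂ => q (t, jet c J t)) 0 := by
  have h : AnalyticAt ℂ (fun t : ℂ => (t, jet c J t)) 0 := analyticAt_id.prod (jet_analytic c J 0)
  refine AnalyticAt.comp' (f := fun t : ℂ => (t, jet c J t)) ?_ h
  have : ((0 : ℂ), jet c J 0) = (0 : ℂ × ℂ) := by rw [jet_zero hc]; rfl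
  rw [this]
  exact hq

/-- an analytic function on two truncations -/
theorem comp_jet_diff {q : ℂ × ℂ → ℂ} (hq : AnalyticAt ℂ q 0) {c : ℕ → ℂ} (hc : c 0 = 0) {n J : ℕ} (h : n ≤ J) :
    (fun t => q (t, jet c J t) - q (t, jet c n t)) =O[𝓝 0] fun t : ℂ => t ^ (n + 1) := by
  obtain ⟨K, hK0, r, hr, hK⟩ := analytic_lip hq
  refine IsBigO.trans ?_ (jet_diff c h)
  have ht : ∀ J : ℕ, ∀ᶠ t : ℂ in 𝓝 0, ((t, jet c J t) : ℂ × ℂ) ∈ ball (0 : ℂ × ℂ) r := fun J => by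
    have h1 : Tendsto (fun t : ℂ => ((t, jet c J t) : ℂ × ℂ)) (𝓝 0) (𝓝 0) := by
      have h2 := (continuous_id.prodMk (jet_differentiable c J).continuous).tendsto (0 : ℂ)
      have h3 : ((id (0 : ℂ), jet c J 0) : ℂ × ℂ) = 0 := by rw [jet_zero hc]; rfl
      rwa [h3] at h2
    exact h1.eventually (ball_mem_nhds _ hr)
  refine IsBigO.of_bound K ?_
  filter_upwards [ht J, ht n] with t h1 h2
  refine (hK _ h1 _ h2).trans (mul_le_mul_of_nonneg_left ?_ hK0)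
  rw [Prod.mk_sub_mk, sub_self, Prod.norm_mk, norm_zero]
  exact max_le (norm_nonneg _) le_rfl

/-- **the order along the formal curve** -/
theorem jet_order {q : ℂ × ℂ → ℂ} (hq : AnalyticAt ℂ q 0) {c : ℕ → ℂ} (hc : c 0 = 0) {m n : ℕ}
    (hm : ¬ (fun t => q (t, jet c m t)) =O[𝓝 0] fun t : ℂ => t ^ (m + 1))
    (hO : (fun t => q (t, jet c n t)) =O[𝓝 0] fun t : ℂ => t ^ n) :
    ∃ N : ℕ, n ≤ N ∧ ∀ J, N ≤ J → analyticOrderAt (fun t => q (t, jet c J t)) 0 = N := by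
  have han := fun J => an_jet hq hc J
  rw [bigO_pow_iff (han m), not_le] at hm
  obtain ⟨N, hN⟩ : ∃ N : ℕ, analyticOrderAt (fun t => q (t, jet c m t)) 0 = N :=
    ENat.ne_top_iff_exists.1 (ne_top_of_lt hm) |>.imp fun _ h => h.symm
  rw [hN, Nat.cast_lt] at hm
  have hmain : ∀ J, N ≤ J → analyticOrderAt (fun t => q (t, jet c J t)) 0 = N := fun J hJ => by
    have hd : (fun t => q (t, jet c J t) - q (t, jet c m t)) =O[𝓝 0] fun t : ℂ => t ^ (N + 1) := by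
      rcases le_total m J with h | h
      · exact (comp_jet_diff hq hc h).trans (pow_bigO (by omega))
      · refine ((comp_jet_diff hq hc h).neg_left.congr_left fun t => ?_).trans (pow_bigO (by omega))
        ring
    have h1 : (fun t => q (t, jet c J t)) = (fun t => q (t, jet c m t)) + fun t => (q (t, jet c J t) - q (t, jet c m t)) := by
      funext t
      simp only [Pi.add_apply]
      ring
    rw [h1, analyticOrderAt_add_eq_left_of_lt, hN]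
    rw [hN]
    refine lt_of_lt_of_le ?_ ((bigO_pow_iff ((han J).sub (han m)) (N + 1)).1 hd)
    exact_mod_cast Nat.lt_succ_self N
  refine ⟨N, ?_, hmain⟩
  by_contra hlt
  push Not at hlt
  have h2 := hmain n hlt.le
  have h3 := (bigO_pow_iff (han n) n).1 hO
  rw [h2] at h3
  exact absurd (by exact_mod_cast h3 : n ≤ N) (not_le.2 hlt)

/-! ### the box -/

variable {M : ℕ} {P : Ideal (MvPolynomial (Fin (M + 1)) ℂ)} {FF : Set (EN M × EN M)}

/-- **`LocalN` of a saddle-node with a formal weak separatrix.** -/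
theorem localN_formal (B : GBox P FF) {g a b : ℂ × ℂ → ℂ} {k : ℕ} (hk : 1 ≤ k) (ha : AnalyticOnNhd ℂ a (closedBall 0 B.r))
    (hb : AnalyticOnNhd ℂ b (closedBall 0 B.r)) (ha0 : ∀ p ∈ closedBall (0 : ℂ × ℂ) B.r, a p ≠ 0)
    (hb0 : fderiv ℂ b 0 (0, 1) ≠ 0) (h : ∀ p, B.v p = (p.1 ^ (k + 1) * a p, b p)) {c : ℕ → ℂ} (hc : c 0 = 0)
    (hJ : ∀ J, (fun t => b (t, jet c J t) - deriv (jet c J) t * (t ^ (k + 1) * a (t, jet c J t))) =O[𝓝 0] fun t : ℂ => t ^ (J + 1))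
    (hR : ∀ (R : MvPolynomial (Fin (M + 1)) ℂ) (d : ℕ), R.IsHomogeneous d → R ∉ P → ∃ n : ℕ,
      ¬ (fun t => eval (B.σ (t, jet c n t)).ofLp R) =O[𝓝 0] fun t : ℂ => t ^ (n + 1))
    (hg : (∀ p, g p = p.1) ∨ (∀ p, g p = 1) ∧ NonAlg P fun t => B.σ (0, t)) :
    ∃ C₀ : ℝ, 0 ≤ C₀ ∧ ∀ (Q : MvPolynomial (Fin (M + 1)) ℂ) (d n : ℕ), Q.IsHomogeneous d → Q ∉ P → 1 ≤ n →
      ((fun t => eval (B.σ (t, jet c n t)).ofLp Q) =O[𝓝 0] fun t : ℂ => t ^ n) →
      ∀ F : ℂ → EN M, Crv P FF F → (∀ z ∈ B.Om F, B.cc F z ≠ 0 → g (B.cc F z) ≠ 0) → ∀ s, 0 < s → s < B.r → LocalN B g F s (C₀ * d / n) := by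
  have h00 : (0 : ℂ × ℂ) ∈ closedBall (0 : ℂ × ℂ) B.r := mem_closedBall_self B.pos.le
  obtain ⟨C₀, hC₀, hmain⟩ := localN1_formal hk (ha 0 h00) (hb 0 h00) (ha0 0 h00) hb0 hc hJ
  refine ⟨C₀, hC₀, ?_⟩
  intro Q d n hQ hQP hn hO F hF hlz s hs hsr
  have hF0 : ∀ z, F z ≠ 0 := fun z => fr_cone_ne (hF.mem z)
  obtain ⟨CQ, hCQ, hCQ'⟩ := exists_scale hQ
  -- the scaled form
  set Qf : ℂ → ℂ := fun z => (CQ⁻¹ : ℝ) * eval (F z).ofLp Q with hQf
  have hQd : Differentiable ℂ Qf := fun z =>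
    ((AnalyticAt.comp (g := fun x : EN M => eval x.ofLp Q) (Pool.Agent.H14.PP.analyticAt_evalEN Q (F z)) (hF.diff.analyticAt z)).differentiableAt).const_mul _
  have hQn : ∀ z, ‖Qf z‖ = CQ⁻¹ * ‖eval (F z).ofLp Q‖ := fun z => by
    rw [hQf]
    simp only [norm_mul, Complex.norm_real, Real.norm_of_nonneg (inv_nonneg.2 hCQ.le)]
  have hQF : ∀ z, ‖Qf z‖ ≤ ‖F z‖ ^ d := fun z => by
    rw [hQn, inv_mul_le_iff₀ hCQ]
    exact hCQ' (F z)
  have hψ : ContDiffAt ℝ 1 (fun p => Real.log ‖B.σ p‖) 0 := contDiffAt_psi B h00 (n := 1)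
  have hq : AnalyticAt ℂ (fun p => eval (B.σ p).ofLp Q) 0 := an_form B Q h00
  have hcc : ∀ z ∈ B.Om F, ‖Qf z‖ * Real.exp (d * Real.log ‖B.σ (B.cc F z)‖) = CQ⁻¹ * ‖eval (B.σ (B.cc F z)).ofLp Q‖ * ‖F z‖ ^ d := fun z hz => by
    rw [hQn, mul_assoc, form_cc B hF hQ hz, mul_assoc]
  obtain ⟨m, hm⟩ := hR Q d hQ hQP
  obtain ⟨N, hnN, hord⟩ := jet_order hq hc hm hO
  have key := hmain B.pos ha hb h B.zero (l := g) (hg.imp_right fun h => h.1) hq (hn.trans hnN) hord hψ d hF.diff hF0 hQd hQF (inv_pos.2 hCQ)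
    (hF.one B) hcc hlz hs hsr
  rw [localN_iff]
  refine key.mono (fun R hR => ?_) ?_
  · exact integral_nonneg fun z => mul_nonneg (Pool.Agent.H30M.tau_nonneg hR _) (sq_nonneg _)
  · have h1 : (0 : ℝ) < n := by exact_mod_cast hn
    have h2 : (n : ℝ) ≤ N := by exact_mod_cast hnN
    exact div_le_div_of_nonneg_left (by positivity) h1 h2

end Pool.Agent.MQ
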