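import Pool.Agent.MQ.NodeT

/-!
# MQ/LgW: weights with small means

`LgW F w`: `0 ≤ w` and the mean of `w` over the annulus `R < |z| < e R` is at most `C (1 + log (1 + En F R))`.  Closed under sums and nonnegative multiples;
contains the constants, `log (1 + lam F / dq q F)` and `log (1 + ldr Q d F)`.
`localT2_of_le`: the second clause of `LocalT` from a pointwise bound by such a weight, almost everywhere.
`nt_logder`: `‖(cc F)'‖ / ‖cc F‖ ≤ C lam F / dq q F`.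
-/

set_option autoImplicit false

open Topology Filter Metric MvPolynomial MeasureTheory

noncomputable section

namespace Pool.Agent.MQ

open Pool.Agent.H36.BP (EN fs)
open Pool.Agent.H17EF (coneE)
open Pool.Agent.H30M (tau rhoR avg continuous_rhoR hcs_rhoR rhoR_nonneg int_rhoR)

variable {M : ℕ} {P : Ideal (MvPolynomial (Fin (M + 1)) ℂ)} {FF : Set (EN M × EN M)} {F : ℂ → EN M}

theorem lgw_En_nonneg (F : ℂ → EN M) {R : ℝ} (hR : 1 ≤ R) : 0 ≤ En F R := by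
  rw [← kI_eq_En]
  exact kI_nonneg F hR

theorem lgw_log_nonneg (F : ℂ → EN M) {R : ℝ} (hR : 1 ≤ R) : 0 ≤ Real.log (1 + En F R) := Real.log_nonneg (by
  have := lgw_En_nonneg F hR
  linarith)

/-- the mean over the annuli is `O (1 + log (1 + En F R))` -/
structure LgW (F : ℂ → EN M) (w : ℂ → ℝ) : Prop where
  nn : ∀ z, 0 ≤ w z
  bd : ∃ C : ℝ, 0 ≤ C ∧ ∀ R, 1 ≤ R → Integrable (fun z => rhoR R z * w z) ∧ avg R w ≤ C + C * Real.log (1 + En F R)

theorem LgW.const (F : ℂ → EN M) {c : ℝ} (hc : 0 ≤ c) : LgW F fun _ => c := by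
  have hpi := Real.pi_pos
  refine ⟨fun _ => hc, 2 * Real.pi * c, by positivity, fun R hR => ?_⟩
  have hi1 : Integrable (rhoR R) := (continuous_rhoR R).integrable_of_hasCompactSupport (hcs_rhoR hR)
  refine ⟨hi1.mul_const c, ?_⟩
  have h1 : avg R (fun _ => c) = 2 * Real.pi * c := by
    unfold avg
    rw [integral_mul_const, int_rhoR hR]
  have h2 : 0 ≤ 2 * Real.pi * c * Real.log (1 + En F R) := mul_nonneg (by positivity) (lgw_log_nonneg F hR)
  rw [h1]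
  linarith

theorem LgW.add {w₁ w₂ : ℂ → ℝ} (h₁ : LgW F w₁) (h₂ : LgW F w₂) : LgW F fun z => w₁ z + w₂ z := by
  obtain ⟨C₁, hC₁, hb₁⟩ := h₁.bd
  obtain ⟨C₂, hC₂, hb₂⟩ := h₂.bd
  refine ⟨fun z => add_nonneg (h₁.nn z) (h₂.nn z), C₁ + C₂, by positivity, fun R hR => ?_⟩
  obtain ⟨i₁, l₁⟩ := hb₁ R hR
  obtain ⟨i₂, l₂⟩ := hb₂ R hR
  have e : (fun z => rhoR R z * (w₁ z + w₂ z)) = fun z => rhoR R z * w₁ z + rhoR R z * w₂ z := by
    funext z
    ring
  have h3 : avg R (fun z => w₁ z + w₂ z) = avg R w₁ + avg R w₂ := by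
    unfold avg
    rw [← integral_add i₁ i₂, ← e]
  refine ⟨?_, ?_⟩
  · rw [e]
    exact i₁.add i₂
  · rw [h3]
    linarith

theorem LgW.const_mul {w : ℂ → ℝ} {c : ℝ} (hc : 0 ≤ c) (h : LgW F w) : LgW F fun z => c * w z := by
  obtain ⟨C, hC, hb⟩ := h.bd
  refine ⟨fun z => mul_nonneg hc (h.nn z), c * C, by positivity, fun R hR => ?_⟩
  obtain ⟨i, l⟩ := hb R hR
  have e : (fun z => rhoR R z * (c * w z)) = fun z => c * (rhoR R z * w z) := by
    funext z
    ring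
  have h3 : avg R (fun z => c * w z) = c * avg R w := by
    unfold avg
    rw [e, integral_const_mul]
  refine ⟨?_, ?_⟩
  · rw [e]
    exact i.const_mul c
  · rw [h3]
    have := mul_le_mul_of_nonneg_left l hc
    linarith

theorem LgW.sum {ι : Type*} (s : Finset ι) {w : ι → ℂ → ℝ} (h : ∀ i ∈ s, LgW F (w i)) : LgW F fun z => ∑ i ∈ s, w i z := by
  classical
  induction s using Finset.induction_on with
  | empty =>
    simp only [Finset.sum_empty]
    exact LgW.const F le_rfl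
  | insert a s ha ih =>
    simp only [Finset.sum_insert ha]
    exact (h a (Finset.mem_insert_self a s)).add (ih fun i hi => h i (Finset.mem_insert_of_mem hi))

/-- a measurable function between `0` and a weight is a weight -/
theorem LgW.mono {w v : ℂ → ℝ} (h : LgW F w) (hv : ∀ z, 0 ≤ v z) (hm : AEStronglyMeasurable v volume) (hle : ∀ᵐ z : ℂ, v z ≤ w z) : LgW F v := by
  obtain ⟨C, hC, hb⟩ := h.bd
  refine ⟨hv, C, hC, fun R hR => ?_⟩
  obtain ⟨i, l⟩ := hb R hR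
  have h1 : Integrable (fun z => rhoR R z * v z) := by
    refine i.mono' ((continuous_rhoR R).aestronglyMeasurable.mul hm) ?_
    filter_upwards [hle] with z hz
    rw [Real.norm_of_nonneg (mul_nonneg (rhoR_nonneg R z) (hv z))]
    exact mul_le_mul_of_nonneg_left hz (rhoR_nonneg R z)
  refine ⟨h1, le_trans ?_ l⟩
  refine integral_mono_ae h1 i ?_
  filter_upwards [hle] with z hz
  exact mul_le_mul_of_nonneg_left hz (rhoR_nonneg R z)

/-- the distance to a point -/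
theorem LgW.dq (hF : Crv P FF F) {q : EN M} (hq : ‖q‖ = 1) : LgW F fun z => Real.log (1 + lam F z / MQ.dq q F z) := by
  obtain ⟨A, hA⟩ := crv_En hF
  obtain ⟨C, hC, hkk⟩ := kk hF.diff (fun z => cone_ne (hF.mem z)) hq (crv_ne hF hq) hA
  have hpi := Real.pi_pos
  refine ⟨fun z => (kk_log_half hq F z).1, C + 2 * Real.pi, by positivity, fun R hR => ?_⟩
  obtain ⟨i, l⟩ := hkk R hR
  refine ⟨i, ?_⟩
  have h1 : 0 ≤ C * Real.log (1 + En F R) := mul_nonneg hC (lgw_log_nonneg F hR)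
  linarith

/-- the logarithmic derivative of a form -/
theorem LgW.ldr (hF : Crv P FF F) {d : ℕ} {Q : MvPolynomial (Fin (M + 1)) ℂ} (hQ : Q.IsHomogeneous d) (hne : ∃ z, eval (F z).ofLp Q ≠ 0) :
    LgW F fun z => Real.log (1 + MQ.ldr Q d F z) := by
  obtain ⟨C, hC, hkk⟩ := k2_crv hF hQ hne
  have hpi := Real.pi_pos
  refine ⟨fun z => (k2_log_half (ldr_nonneg Q d F z)).1, C + 2 * Real.pi, by positivity, fun R hR => ?_⟩
  obtain ⟨i, l⟩ := hkk R hR
  refine ⟨i, ?_⟩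
  have h1 : 0 ≤ C * Real.log (1 + En F R) := mul_nonneg hC (lgw_log_nonneg F hR)
  linarith

/-- `log (1 + c x) ≤ log (1 + c) + log (1 + x)` -/
theorem log_one_add_mul {c x : ℝ} (hc : 0 ≤ c) (hx : 0 ≤ x) : Real.log (1 + c * x) ≤ Real.log (1 + c) + Real.log (1 + x) := by
  rw [← Real.log_mul (by linarith) (by linarith)]
  exact Real.log_le_log (by nlinarith [mul_nonneg hc hx]) (by nlinarith)

/-- `log (1 + (x + y)) ≤ log (1 + x) + log (1 + y)` -/
theorem log_one_add_add {x y : ℝ} (hx : 0 ≤ x) (hy : 0 ≤ y) : Real.log (1 + (x + y)) ≤ Real.log (1 + x) + Real.log (1 + y) := by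
  rw [← Real.log_mul (by linarith) (by linarith)]
  exact Real.log_le_log (by linarith) (by nlinarith [mul_nonneg hx hy])

/-- the form `Q` is not zero almost everywhere along the curve -/
theorem ae_form_ne (hF : Crv P FF F) {Q : MvPolynomial (Fin (M + 1)) ℂ} (hne : ∃ z, eval (F z).ofLp Q ≠ 0) : ∀ᵐ z : ℂ, eval (F z).ofLp Q ≠ 0 :=
  nt_ae_ne (nt_form_diff Q hF.diff) hne

/-- almost everywhere the curve is not at the center of the box -/
theorem ae_cc_ne (B : GBox P FF) (hF : Crv P FF F) : ∀ᵐ z : ℂ, z ∈ B.Om F → B.cc F z ≠ 0 := by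
  obtain ⟨q, hq, -, C, hC, hd⟩ := nt_dq B
  have hne : ∀ z, F z ≠ 0 := fun z => cone_ne (hF.mem z)
  have hne' : ∃ z, kkD 0 q F z ≠ 0 := by
    obtain ⟨z, hz⟩ := crv_ne hF hq
    refine ⟨z, fun h => hz ?_⟩
    have hfp : 0 < ‖F z‖ := norm_pos_iff.2 (hne z)
    unfold kkD at h
    have h1 : ‖(inner ℂ q (F z) : ℂ)‖ ^ 2 / ‖F z‖ ^ 2 = 1 := by linarith
    rw [div_eq_one_iff_eq (by positivity)] at h1
    exact (pow_left_inj₀ (norm_nonneg _) (norm_nonneg _) two_ne_zero).1 h1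
  obtain ⟨w, -, hw⟩ := kk_major hq hF.diff hne hne'
  filter_upwards [hw] with z hz hzO h0
  have h1 := hd F hF.diff hF.mem z hzO
  rw [h0, norm_zero, mul_zero] at h1
  have h2 : MQ.dq q F z = 0 := le_antisymm h1 (dq_nonneg q F z)
  have h3 := dq_sq hq F z
  rw [h2] at h3
  have h4 := hz.1
  rw [← h3] at h4
  norm_num at h4

/-- **the logarithmic derivative of the coordinates** -/
theorem nt_logder (B : GBox P FF) : ∃ q : EN M, ‖q‖ = 1 ∧ (∃ t : ℂ, q = t • B.σ 0 ∧ t ≠ 0) ∧ ∃ C : ℝ, 0 < C ∧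
    ∀ F : ℂ → EN M, Crv P FF F → ∀ z ∈ B.Om F, ‖deriv (B.cc F) z‖ / ‖B.cc F z‖ ≤ C * (lam F z / MQ.dq q F z) := by
  obtain ⟨q, hq, ⟨t, ht, ht0⟩, C₁, hC₁, hd⟩ := nt_dq B
  obtain ⟨C₂, hC₂, hCl⟩ := lam_cc B
  refine ⟨q, hq, ⟨t, ht, ht0⟩, C₂ * C₁, by positivity, fun F hF z hz => ?_⟩
  have hlam := kk_lam_nonneg F z
  have hdq0 := dq_nonneg q F z
  rcases eq_or_ne (B.cc F z) 0 with h0 | h0
  · rw [h0, norm_zero, div_zero]
    exact mul_nonneg (by positivity) (div_nonneg hlam hdq0)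
  · have hdqp : 0 < MQ.dq q F z := lt_of_le_of_ne hdq0 fun h1 => h0 (nt_dq_zero B hq ht hF.diff hF.mem hz h1.symm)
    have hpp : 0 < ‖B.cc F z‖ := norm_pos_iff.2 h0
    have h3 := (hCl F hF.diff hF.mem z hz).1
    have h4 := hd F hF.diff hF.mem z hz
    rw [div_le_iff₀ hpp, ← mul_div_assoc, div_mul_eq_mul_div, le_div_iff₀ hdqp]
    calc ‖deriv (B.cc F) z‖ * MQ.dq q F z ≤ (C₂ * lam F z) * (C₁ * ‖B.cc F z‖) := mul_le_mul h3 h4 hdq0 (by positivity)
      _ = _ := by ring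

/-- the same, with a weight -/
theorem LgW.logder (B : GBox P FF) : ∃ C : ℝ, 0 ≤ C ∧ ∀ F : ℂ → EN M, Crv P FF F → ∃ w : ℂ → ℝ, LgW F w ∧
    ∀ z ∈ B.Om F, Real.log (1 + ‖deriv (B.cc F) z‖ / ‖B.cc F z‖) ≤ C + w z := by
  obtain ⟨q, hq, -, C, hC, hl⟩ := nt_logder B
  refine ⟨Real.log (1 + C), Real.log_nonneg (by linarith), fun F hF => ⟨_, LgW.dq hF hq, fun z hz => ?_⟩⟩
  have hx : 0 ≤ lam F z / MQ.dq q F z := div_nonneg (kk_lam_nonneg F z) (dq_nonneg q F z)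
  have hy : 0 ≤ ‖deriv (B.cc F) z‖ / ‖B.cc F z‖ := by positivity
  refine (Real.log_le_log (by linarith) ?_).trans (log_one_add_mul hC.le hx)
  have := hl F hF z hz
  linarith

theorem measurableSet_box (B : GBox P FF) (hF : Crv P FF F) (s : ℝ) : MeasurableSet (B.Om F ∩ {z | B.cc F z ∈ ball (0 : ℂ × ℂ) s}) := by
  have h1 : ContinuousOn (B.cc F) (B.Om F) := fun z hz => (cc_lift B hF.diff hF.mem hz).1.continuousAt.continuousWithinAt
  exact (h1.isOpen_inter_preimage (isOpen_Om B hF.diff hF.mem) isOpen_ball).measurableSet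

/-- **LocalT, second clause, from a pointwise bound** -/
theorem localT2_of_le (B : GBox P FF) (hF : Crv P FF F) (Q : MvPolynomial (Fin (M + 1)) ℂ) (d K n : ℕ) {s δ : ℝ} (hδ : 0 ≤ δ) {w : ℂ → ℝ}
    (hw : LgW F w) (hle : ∀ᵐ z : ℂ, z ∈ B.Om F → B.cc F z ∈ ball (0 : ℂ × ℂ) s →
      Real.log ‖B.zt F z‖ + K / n * (Real.log ‖eval (F z).ofLp Q‖ - d * Real.log ‖F z‖) ≤ w z) :
    ∃ C : ℝ, 0 ≤ C ∧ ∀ R, 1 ≤ R →
      ∫ z in B.Om F ∩ {z | B.cc F z ∈ ball (0 : ℂ × ℂ) s}, rhoR R z *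
        max 0 (Real.log ‖B.zt F z‖ + K / n * (Real.log ‖eval (F z).ofLp Q‖ - d * Real.log ‖F z‖)) ≤ δ * En F R + C * Real.log (1 + En F R) + C := by
  obtain ⟨C, hC, hb⟩ := hw.bd
  refine ⟨C, hC, fun R hR => ?_⟩
  obtain ⟨i, l⟩ := hb R hR
  have h1 := loc_int (measurableSet_box B hF s)
    (f := fun z => Real.log ‖B.zt F z‖ + K / n * (Real.log ‖eval (F z).ofLp Q‖ - d * Real.log ‖F z‖)) i hw.nn
    (by filter_upwards [hle] with z hz hzS using hz hzS.1 hzS.2)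
  have h2 : 0 ≤ δ * En F R := mul_nonneg hδ (lgw_En_nonneg F hR)
  linarith

end Pool.Agent.MQ
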