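import Pool.Agent.MQ.TLoc
import Pool.Agent.MQ.LgW
import Pool.Agent.H14.PP.Poly

/-!
# MQ/TForm: the mean of `log |ζ'|` near a formal saddle-node

`formal_T2`: the second clause of `LocalT` at a saddle-node whose weak separatrix is formal, for a form `Q` with contact of order `n` with it.
-/

set_option autoImplicit false

open Topology Filter Metric MvPolynomial MeasureTheory Asymptotics

noncomputable section

namespace Pool.Agent.MQ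

open Pool.Agent.H36.BP (EN fs)
open Pool.Agent.H17EF (coneE)
open Pool.Agent.H14.PP (eval_smulEN analyticAt_evalEN)
open Pool.Agent.H30M (tau rhoR avg)

variable {M : ℕ} {P : Ideal (MvPolynomial (Fin (M + 1)) ℂ)} {FF : Set (EN M × EN M)} {F : ℂ → EN M}

theorem tf_log_le {x : ℝ} (hx : 0 ≤ x) : Real.log x ≤ Real.log (1 + x) := by
  rcases hx.eq_or_lt with h | h
  · rw [← h]
    simp
  · exact Real.log_le_log h (by linarith)

/-- a weight which bounds the logarithmic derivative of the form `G` where `G ≠ 0` -/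
theorem tf_ldr (hF : Crv P FF F) {d : ℕ} {G : MvPolynomial (Fin (M + 1)) ℂ} (hG : G.IsHomogeneous d) :
    ∃ w : ℂ → ℝ, LgW F w ∧ ∀ z, eval (F z).ofLp G ≠ 0 → Real.log (1 + ldr G d F z) ≤ w z := by
  by_cases hne : ∃ z, eval (F z).ofLp G ≠ 0
  · exact ⟨_, LgW.ldr hF hG hne, fun z _ => le_rfl⟩
  · push Not at hne
    exact ⟨_, LgW.const F le_rfl, fun z hz => absurd (hne z) hz⟩

/-- the values of the form `Q` on the curve and on the box -/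
theorem tf_log_form (B : GBox P FF) (hF : Crv P FF F) {Q : MvPolynomial (Fin (M + 1)) ℂ} {d : ℕ} (hQ : Q.IsHomogeneous d) {z : ℂ} (hz : z ∈ B.Om F)
    (hne : eval (F z).ofLp Q ≠ 0) : eval (B.σ (B.cc F z)).ofLp Q ≠ 0 ∧
      Real.log ‖eval (F z).ofLp Q‖ - d * Real.log ‖F z‖ = Real.log ‖eval (B.σ (B.cc F z)).ofLp Q‖ - d * Real.log ‖B.σ (B.cc F z)‖ := by
  obtain ⟨-, hbl, c, hc, hc0, hev⟩ := cc_lift B hF.diff hF.mem hz
  have hFz := hev.self_of_nhds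
  have hσ : B.σ (B.cc F z) ≠ 0 := cone_ne (B.mem _ (ball_subset_closedBall hbl))
  rw [hFz, eval_smulEN hQ] at hne
  have h1 := right_ne_zero_of_mul hne
  refine ⟨h1, ?_⟩
  have e1 : Real.log ‖eval (F z).ofLp Q‖ = d * Real.log ‖c z‖ + Real.log ‖eval (B.σ (B.cc F z)).ofLp Q‖ := by
    conv_lhs => rw [hFz]
    rw [eval_smulEN hQ, norm_mul, norm_pow, Real.log_mul (by positivity) (norm_ne_zero_iff.2 h1), Real.log_pow]
  have e2 : Real.log ‖F z‖ = Real.log ‖c z‖ + Real.log ‖B.σ (B.cc F z)‖ := by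
    conv_lhs => rw [hFz]
    rw [norm_smul, Real.log_mul (norm_ne_zero_iff.2 hc0) (norm_ne_zero_iff.2 hσ)]
  rw [e1, e2]
  ring

/-- the logarithmic derivative of `Z / ℓ ^ N` along the curve -/
theorem tf_logder (B : GBox P FF) (hF : Crv P FF F) {Z ℓ : MvPolynomial (Fin (M + 1)) ℂ} {N : ℕ} (hZ : Z.IsHomogeneous N) (hℓ : ℓ.IsHomogeneous 1)
    {z : ℂ} (hz : z ∈ B.Om F) (hZ0 : eval (B.σ (B.cc F z)).ofLp Z ≠ 0) (hℓ0 : eval (B.σ (B.cc F z)).ofLp ℓ ≠ 0) :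
    eval (F z).ofLp Z ≠ 0 ∧ eval (F z).ofLp ℓ ≠ 0 ∧
      ‖deriv (fun w => eval (B.σ (B.cc F w)).ofLp Z / eval (B.σ (B.cc F w)).ofLp ℓ ^ N) z /
        (eval (B.σ (B.cc F z)).ofLp Z / eval (B.σ (B.cc F z)).ofLp ℓ ^ N)‖ ≤ ldr Z N F z + N * ldr ℓ 1 F z := by
  obtain ⟨-, hbl, c, hc, hc0, hev⟩ := cc_lift B hF.diff hF.mem hz
  have hFz := hev.self_of_nhds
  have hZF : eval (F z).ofLp Z ≠ 0 := by
    rw [hFz, eval_smulEN hZ]
    exact mul_ne_zero (pow_ne_zero _ hc0) hZ0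
  have hℓF : eval (F z).ofLp ℓ ≠ 0 := by
    rw [hFz, eval_smulEN hℓ]
    exact mul_ne_zero (pow_ne_zero _ hc0) hℓ0
  refine ⟨hZF, hℓF, ?_⟩
  have hcne : ∀ᶠ w in 𝓝 z, c w ≠ 0 := hc.continuousAt.eventually_ne hc0
  have heq : (fun w => eval (B.σ (B.cc F w)).ofLp Z / eval (B.σ (B.cc F w)).ofLp ℓ ^ N) =ᶠ[𝓝 z]
      fun w => eval (F w).ofLp Z / eval (F w).ofLp ℓ ^ N := by
    filter_upwards [hev, hcne] with w hw hcw
    rw [hw, eval_smulEN hZ, eval_smulEN hℓ, pow_one, mul_pow, mul_div_mul_left _ _ (pow_ne_zero _ hcw)]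
  have e0 : eval (B.σ (B.cc F z)).ofLp Z / eval (B.σ (B.cc F z)).ofLp ℓ ^ N = eval (F z).ofLp Z / eval (F z).ofLp ℓ ^ N := heq.self_of_nhds
  have hdZ : HasDerivAt (fun w => eval (F w).ofLp Z) (deriv (fun w => eval (F w).ofLp Z) z) z := (nt_form_diff Z hF.diff z).hasDerivAt
  have hdℓ : HasDerivAt (fun w => eval (F w).ofLp ℓ) (deriv (fun w => eval (F w).ofLp ℓ) z) z := (nt_form_diff ℓ hF.diff z).hasDerivAt
  have hdq := hdZ.div (hdℓ.pow N) (pow_ne_zero N hℓF)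
  have e1 : deriv (fun w => eval (F w).ofLp Z / eval (F w).ofLp ℓ ^ N) z =
      (deriv (fun w => eval (F w).ofLp Z) z * eval (F z).ofLp ℓ ^ N -
        eval (F z).ofLp Z * (N * eval (F z).ofLp ℓ ^ (N - 1) * deriv (fun w => eval (F w).ofLp ℓ) z)) / (eval (F z).ofLp ℓ ^ N) ^ 2 := hdq.deriv
  rw [heq.deriv_eq, e0, e1]
  set Zv := eval (F z).ofLp Z
  set lv := eval (F z).ofLp ℓ
  set Zd := deriv (fun w => eval (F w).ofLp Z) z
  set ld := deriv (fun w => eval (F w).ofLp ℓ) z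
  have e2 : (Zd * lv ^ N - Zv * (N * lv ^ (N - 1) * ld)) / (lv ^ N) ^ 2 / (Zv / lv ^ N) = Zd / Zv - N * (ld / lv) := by
    rcases N with _ | N
    · simp
    · simp only [Nat.add_sub_cancel]
      field_simp
      ring
  rw [e2]
  unfold ldr
  have e3 : Zd / Zv - N * (ld / lv) = (Zd / Zv - (N : ℕ) * (inner ℂ (F z) (deriv F z) / (‖F z‖ ^ 2 : ℝ))) -
      N * (ld / lv - (1 : ℕ) * (inner ℂ (F z) (deriv F z) / (‖F z‖ ^ 2 : ℝ))) := by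
    push_cast
    ring
  rw [e3]
  refine (norm_sub_le _ _).trans ?_
  rw [norm_mul, Complex.norm_natCast]

/-- away from the center the logarithmic derivative of the coordinates bounds `ζ'` -/
theorem tf_zt_le (B : GBox P FF) (hF : Crv P FF F) {z : ℂ} (hz : z ∈ B.Om F) (hne : B.cc F z ≠ 0) {m : ℝ} (hm : 0 < m) (hv : m ≤ ‖B.v (B.cc F z)‖) :
    ‖B.zt F z‖ ≤ B.r / m * (‖deriv (B.cc F) z‖ / ‖B.cc F z‖) := by
  obtain ⟨-, hbl, -⟩ := cc_lift B hF.diff hF.mem hz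
  have hpc := ball_subset_closedBall hbl
  have hvne : B.v (B.cc F z) ≠ 0 := fun h3 => hne (B.zero _ hpc h3)
  have h4 := (deriv_cc B hF hz).2 hvne
  have h5 : ‖deriv (B.cc F) z‖ = ‖B.zt F z‖ * ‖B.v (B.cc F z)‖ := by rw [h4, norm_smul]
  have hpp : 0 < ‖B.cc F z‖ := norm_pos_iff.2 hne
  have hr : ‖B.cc F z‖ ≤ B.r := by
    rw [mem_closedBall, dist_zero_right] at hpc
    exact hpc
  rw [← mul_div_assoc, le_div_iff₀ hpp, div_mul_eq_mul_div, le_div_iff₀ hm]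
  calc ‖B.zt F z‖ * ‖B.cc F z‖ * m = (‖B.zt F z‖ * m) * ‖B.cc F z‖ := by ring
    _ ≤ ‖deriv (B.cc F) z‖ * B.r := by
        rw [h5]
        gcongr
    _ = B.r * ‖deriv (B.cc F) z‖ := by ring

/-- **the second clause of `LocalT` at a saddle-node with a formal weak separatrix** -/
theorem formal_T2 (B : GBox P FF) {a b : ℂ × ℂ → ℂ} {k : ℕ} (ha : AnalyticOnNhd ℂ a (closedBall 0 B.r))
    (hb : AnalyticOnNhd ℂ b (closedBall 0 B.r)) (ha0 : ∀ p ∈ closedBall (0 : ℂ × ℂ) B.r, a p ≠ 0)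
    (hb0 : fderiv ℂ b 0 (0, 1) ≠ 0) (h : ∀ p, B.v p = (p.1 ^ (k + 1) * a p, b p)) {c : ℕ → ℂ} (hc : c 0 = 0) {n : ℕ} (hn : 1 ≤ n)
    (hJ : (fun t => b (t, jet c n t) - deriv (jet c n) t * (t ^ (k + 1) * a (t, jet c n t))) =O[𝓝 0] fun t : ℂ => t ^ (n + 1))
    {Q : MvPolynomial (Fin (M + 1)) ℂ} {d K : ℕ} (hQ : Q.IsHomogeneous d) (hK : k ≤ K)
    (hQc : (fun t => eval (B.σ (t, jet c n t)).ofLp Q) =O[𝓝 0] fun t : ℂ => t ^ n)
    (hF : Crv P FF F) (hQF : ∃ z, eval (F z).ofLp Q ≠ 0) {s δ : ℝ} (hδ : 0 ≤ δ) :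
    ∃ C : ℝ, 0 ≤ C ∧ ∀ R, 1 ≤ R →
      ∫ z in B.Om F ∩ {z | B.cc F z ∈ ball (0 : ℂ × ℂ) s}, rhoR R z *
        max 0 (Real.log ‖B.zt F z‖ + K / n * (Real.log ‖eval (F z).ofLp Q‖ - d * Real.log ‖F z‖)) ≤ δ * En F R + C * Real.log (1 + En F R) + C := by
  have h0 : (0 : ℂ × ℂ) ∈ closedBall (0 : ℂ × ℂ) B.r := mem_closedBall_self B.pos.le
  have hevan : ∀ G : MvPolynomial (Fin (M + 1)) ℂ, AnalyticAt ℂ (fun p => eval (B.σ p).ofLp G) 0 := fun G =>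
    AnalyticAt.fun_comp (g := fun x : EN M => eval x.ofLp G) (f := B.σ) (analyticAt_evalEN G _) (B.σ_an 0 h0)
  obtain ⟨ℓ, hℓ, hℓ0, hjet⟩ := exists_form_jet (B.σ_an 0 h0) (B.imm 0 h0)
  obtain ⟨Z, hZ, hZO⟩ := hjet (n + 1) (YY c n) (analyticAt_YY c n 0)
  have hℓev : ∀ᶠ p in 𝓝 (0 : ℂ × ℂ), eval (B.σ p).ofLp ℓ ≠ 0 := (hevan ℓ).continuousAt.eventually_ne hℓ0
  set φ : ℂ × ℂ → ℂ := fun p => eval (B.σ p).ofLp Z / eval (B.σ p).ofLp ℓ ^ (n + 1) with hφdef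
  have hφ : AnalyticAt ℂ φ 0 := (hevan Z).div ((hevan ℓ).pow _) (pow_ne_zero _ hℓ0)
  have hφY : (fun p => φ p - YY c n p) =O[𝓝 0] fun p : ℂ × ℂ => ‖p‖ ^ (n + 1) := by
    have h1 : (fun p => φ p - YY c n p) =ᶠ[𝓝 0]
        fun p => (eval (B.σ p).ofLp ℓ ^ (n + 1))⁻¹ * (eval (B.σ p).ofLp Z - YY c n p * eval (B.σ p).ofLp ℓ ^ (n + 1)) := by
      filter_upwards [hℓev] with p hp
      rw [hφdef]
      field_simp
    refine h1.trans_isBigO ?_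
    have h2 : (fun p => (eval (B.σ p).ofLp ℓ ^ (n + 1))⁻¹) =O[𝓝 0] fun _ : ℂ × ℂ => (1 : ℝ) :=
      (((hevan ℓ).pow (n + 1)).inv (pow_ne_zero _ hℓ0)).continuousAt.tendsto.isBigO_one ℝ
    simpa using h2.mul hZO
  obtain ⟨C₀, hC₀, hreg⟩ := sn_regions (k := k) (ha 0 h0) (hb 0 h0) hb0 hc hn hJ hφ hφY (hevan Q) hQc
  obtain ⟨ε₁, hε₁, hball⟩ := Metric.eventually_nhds_iff_ball.1 (hreg.and (hℓev.and hφ.eventually_analyticAt))
  set ε := min ε₁ 1 with hεdef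
  have hε : 0 < ε := lt_min hε₁ one_pos
  -- the constants
  obtain ⟨m₁, hm₁, hma⟩ := nt_lower B.pos ha ha0
  obtain ⟨m₂, hm₂, hmσ⟩ : ∃ m : ℝ, 0 < m ∧ ∀ p ∈ closedBall (0 : ℂ × ℂ) B.r, m ≤ ‖B.σ p‖ := by
    obtain ⟨p₀, hp₀, hmin⟩ := (isCompact_closedBall (0 : ℂ × ℂ) B.r).exists_isMinOn ⟨0, h0⟩ B.σ_an.continuousOn.norm
    exact ⟨‖B.σ p₀‖, norm_pos_iff.2 (cone_ne (B.mem p₀ hp₀)), fun p hp => hmin hp⟩
  obtain ⟨m₃, hm₃, hmv⟩ : ∃ m : ℝ, 0 < m ∧ ∀ p ∈ closedBall (0 : ℂ × ℂ) B.r, p ∉ ball (0 : ℂ × ℂ) ε → m ≤ ‖B.v p‖ := by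
    have hcp : IsCompact (closedBall (0 : ℂ × ℂ) B.r \ ball (0 : ℂ × ℂ) ε) := (isCompact_closedBall (0 : ℂ × ℂ) B.r).diff isOpen_ball
    rcases (closedBall (0 : ℂ × ℂ) B.r \ ball (0 : ℂ × ℂ) ε).eq_empty_or_nonempty with he | hne
    · refine ⟨1, one_pos, fun p hp hp' => ?_⟩
      have : p ∈ closedBall (0 : ℂ × ℂ) B.r \ ball (0 : ℂ × ℂ) ε := ⟨hp, hp'⟩
      rw [he] at this
      exact this.elim
    · obtain ⟨p₀, hp₀, hmin⟩ := hcp.exists_isMinOn hne (B.v_an.continuousOn.mono Set.sdiff_subset).norm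
      refine ⟨‖B.v p₀‖, norm_pos_iff.2 fun h3 => ?_, fun p hp hp' => hmin ⟨hp, hp'⟩⟩
      have h4 := B.zero p₀ hp₀.1 h3
      exact hp₀.2 (by rw [h4]; exact mem_ball_self hε)
  obtain ⟨CQ, hCQ1, hCQ⟩ := nt_form_le hQ
  obtain ⟨C₁, hC₁, hlog⟩ := LgW.logder B
  obtain ⟨w₁, hw₁, hw₁z⟩ := hlog F hF
  obtain ⟨w₂, hw₂, hw₂z⟩ := tf_ldr hF hZ
  obtain ⟨w₃, hw₃, hw₃z⟩ := tf_ldr hF hℓ
  have hKn : (0 : ℝ) ≤ K / n := by positivity
  have hk1 : 0 ≤ Real.log (1 + B.r / m₃) := Real.log_nonneg (by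
    have := div_pos B.pos hm₃
    linarith)
  have hk2 : 0 ≤ Real.log (1 + C₀) := Real.log_nonneg (by linarith)
  have hk3 : 0 ≤ Real.log (1 + ((n + 1 : ℕ) : ℝ)) := Real.log_nonneg (by
    have : (0 : ℝ) ≤ ((n + 1 : ℕ) : ℝ) := Nat.cast_nonneg _
    linarith)
  have hk4 : 0 ≤ Real.log (1 + C₀ / m₁) := Real.log_nonneg (by
    have := div_pos hC₀ hm₁
    linarith)
  have hk5 : 0 ≤ K / n * |Real.log C₀ - d * Real.log m₂| := mul_nonneg hKn (abs_nonneg _)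
  have hk6 : 0 ≤ K / n * Real.log CQ := mul_nonneg hKn (Real.log_nonneg hCQ1)
  set Cst : ℝ := Real.log (1 + B.r / m₃) + C₁ + Real.log (1 + C₀) + Real.log (1 + ((n + 1 : ℕ) : ℝ)) + Real.log (1 + C₀ / m₁) +
    K / n * |Real.log C₀ - d * Real.log m₂| + K / n * Real.log CQ with hCst
  have hCst0 : 0 ≤ Cst := by positivity
  refine localT2_of_le B hF Q d K n hδ (w := fun z => Cst + w₁ z + w₂ z + w₃ z) (((LgW.const F hCst0).add hw₁).add hw₂ |>.add hw₃) ?_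
  filter_upwards [ae_form_ne hF hQF, ae_cc_ne B hF] with z hQz hcc hz hzs
  have hne := hcc hz
  have n1 := hw₁.nn z
  have n2 := hw₂.nn z
  have n3 := hw₃.nn z
  obtain ⟨-, hbl, -⟩ := cc_lift B hF.diff hF.mem hz
  have hpc := ball_subset_closedBall hbl
  have hFne : F z ≠ 0 := cone_ne (hF.mem z)
  have hL : K / n * (Real.log ‖eval (F z).ofLp Q‖ - d * Real.log ‖F z‖) ≤ K / n * Real.log CQ :=
    mul_le_mul_of_nonneg_left (nt_log_form hCQ1 hCQ hFne hQz) hKn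
  have hld0 : 0 ≤ ‖deriv (B.cc F) z‖ / ‖B.cc F z‖ := by positivity
  have hldz := hw₁z z hz
  by_cases hin : B.cc F z ∈ ball (0 : ℂ × ℂ) ε
  swap
  · -- away from the center
    have h1 := tf_zt_le B hF hz hne hm₃ (hmv _ hpc hin)
    have h2 : Real.log ‖B.zt F z‖ ≤ Real.log (1 + B.r / m₃) + Real.log (1 + ‖deriv (B.cc F) z‖ / ‖B.cc F z‖) := by
      refine (tf_log_le (norm_nonneg _)).trans (le_trans ?_ (log_one_add_mul (div_pos B.pos hm₃).le hld0))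
      exact Real.log_le_log (by positivity) (by linarith)
    linarith
  have hin1 : B.cc F z ∈ ball (0 : ℂ × ℂ) ε₁ := ball_subset_ball (min_le_left _ _) hin
  obtain ⟨hr1, hr2, hr3⟩ := hball _ hin1
  have hvne : B.v (B.cc F z) ≠ 0 := fun h3 => hne (B.zero _ hpc h3)
  have hder := (deriv_cc B hF hz).2 hvne
  rcases hr1 hne with ⟨hA1, hA2⟩ | ⟨hB1, hB2, hB3⟩
  · -- the first region
    have hZ0 : eval (B.σ (B.cc F z)).ofLp Z ≠ 0 := fun h3 => hA1 (by rw [hφdef]; simp [h3])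
    obtain ⟨hZF, hℓF, hlg⟩ := tf_logder B hF hZ hℓ hz hZ0 hr2
    have hd1 : deriv (fun w => φ (B.cc F w)) z = B.zt F z * fderiv ℂ φ (B.cc F z) (B.v (B.cc F z)) := by
      have h3 := (cc_lift B hF.diff hF.mem hz).1.differentiableAt.hasDerivAt
      have h4 := hr3.differentiableAt.hasFDerivAt.comp_hasDerivAt z h3
      have h5 : deriv (fun w => φ (B.cc F w)) z = fderiv ℂ φ (B.cc F z) (deriv (B.cc F) z) := h4.deriv
      rw [h5, hder, map_smul, smul_eq_mul]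
    rw [← h] at hA2
    have hφp : 0 < ‖φ (B.cc F z)‖ := norm_pos_iff.2 hA1
    have h5 : ‖B.zt F z‖ ≤ C₀ * (ldr Z (n + 1) F z + (n + 1 : ℕ) * ldr ℓ 1 F z) := by
      have h6 : ‖deriv (fun w => φ (B.cc F w)) z / φ (B.cc F z)‖ ≤ ldr Z (n + 1) F z + (n + 1 : ℕ) * ldr ℓ 1 F z := hlg
      rw [hd1, norm_div, norm_mul] at h6
      have h7 : ‖B.zt F z‖ * 1 ≤ ‖B.zt F z‖ * (C₀ * ‖fderiv ℂ φ (B.cc F z) (B.v (B.cc F z))‖ / ‖φ (B.cc F z)‖) := by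
        refine mul_le_mul_of_nonneg_left ?_ (norm_nonneg _)
        rw [le_div_iff₀ hφp, one_mul]
        exact hA2
      have h8 : ‖B.zt F z‖ * (C₀ * ‖fderiv ℂ φ (B.cc F z) (B.v (B.cc F z))‖ / ‖φ (B.cc F z)‖) =
          C₀ * (‖B.zt F z‖ * ‖fderiv ℂ φ (B.cc F z) (B.v (B.cc F z))‖ / ‖φ (B.cc F z)‖) := by ring
      rw [mul_one, h8] at h7
      exact h7.trans (mul_le_mul_of_nonneg_left h6 hC₀.le)
    have l1 := ldr_nonneg Z (n + 1) F z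
    have l2 := ldr_nonneg ℓ 1 F z
    have l3 : (0 : ℝ) ≤ ((n + 1 : ℕ) : ℝ) := Nat.cast_nonneg _
    have h6 : Real.log ‖B.zt F z‖ ≤ Real.log (1 + C₀) + (Real.log (1 + ldr Z (n + 1) F z) + (Real.log (1 + ((n + 1 : ℕ) : ℝ)) + Real.log (1 + ldr ℓ 1 F z))) := by
      refine (tf_log_le (norm_nonneg _)).trans ?_
      refine (Real.log_le_log (by positivity) (show 1 + ‖B.zt F z‖ ≤ 1 + C₀ * (ldr Z (n + 1) F z + (n + 1 : ℕ) * ldr ℓ 1 F z) by linarith)).trans ?_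
      refine (log_one_add_mul hC₀.le (by positivity)).trans (add_le_add le_rfl ?_)
      refine (log_one_add_add l1 (by positivity)).trans (add_le_add le_rfl ?_)
      exact log_one_add_mul l3 l2
    have h7 := hw₂z z hZF
    have h8 := hw₃z z hℓF
    linarith
  · -- the second region
    rcases eq_or_ne (B.zt F z) 0 with hzt | hzt
    · rw [hzt, norm_zero, Real.log_zero]
      linarith
    have hx : 0 < ‖(B.cc F z).1‖ := norm_pos_iff.2 hB1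
    have hx1 : ‖(B.cc F z).1‖ ≤ 1 := by
      have h3 : ‖(B.cc F z).1‖ ≤ ‖B.cc F z‖ := norm_fst_le _
      rw [mem_ball, dist_zero_right] at hin
      exact h3.trans (hin.le.trans (min_le_right _ _))
    have hpp : 0 < ‖B.cc F z‖ := norm_pos_iff.2 hne
    obtain ⟨hQσ, hLeq⟩ := tf_log_form B hF hQ hz hQz
    have hlx : Real.log ‖(B.cc F z).1‖ ≤ 0 := Real.log_nonpos hx.le hx1
    -- the bound of `ζ'`
    have hzp : 0 < ‖B.zt F z‖ := norm_pos_iff.2 hzt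
    have h3 : ‖B.zt F z‖ * ‖(B.cc F z).1‖ ^ k ≤ C₀ / m₁ * (‖deriv (B.cc F) z‖ / ‖B.cc F z‖) := by
      have h4 : ‖B.zt F z‖ * (‖(B.cc F z).1‖ ^ (k + 1) * ‖a (B.cc F z)‖) ≤ ‖deriv (B.cc F) z‖ := by
        have h5 : (deriv (B.cc F) z).1 = B.zt F z * ((B.cc F z).1 ^ (k + 1) * a (B.cc F z)) := by
          rw [hder, h]
          rfl
        have h6 : ‖(deriv (B.cc F) z).1‖ ≤ ‖deriv (B.cc F) z‖ := norm_fst_le _
        rw [h5, norm_mul, norm_mul, norm_pow] at h6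
        exact h6
      have h5 := hma _ hpc
      rw [← mul_div_assoc, le_div_iff₀ hpp, div_mul_eq_mul_div, le_div_iff₀ hm₁]
      calc ‖B.zt F z‖ * ‖(B.cc F z).1‖ ^ k * ‖B.cc F z‖ * m₁
          ≤ ‖B.zt F z‖ * ‖(B.cc F z).1‖ ^ k * (C₀ * ‖(B.cc F z).1‖) * ‖a (B.cc F z)‖ := by gcongr
        _ = C₀ * (‖B.zt F z‖ * (‖(B.cc F z).1‖ ^ (k + 1) * ‖a (B.cc F z)‖)) := by ring
        _ ≤ C₀ * ‖deriv (B.cc F) z‖ := mul_le_mul_of_nonneg_left h4 hC₀.le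
    have h4 : Real.log ‖B.zt F z‖ + k * Real.log ‖(B.cc F z).1‖ ≤ Real.log (1 + C₀ / m₁) + Real.log (1 + ‖deriv (B.cc F) z‖ / ‖B.cc F z‖) := by
      have h5 : Real.log ‖B.zt F z‖ + k * Real.log ‖(B.cc F z).1‖ = Real.log (‖B.zt F z‖ * ‖(B.cc F z).1‖ ^ k) := by
        rw [Real.log_mul hzp.ne' (by positivity), Real.log_pow]
      rw [h5]
      refine (tf_log_le (by positivity)).trans (le_trans ?_ (log_one_add_mul (div_pos hC₀ hm₁).le hld0))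
      exact Real.log_le_log (by positivity) (by linarith)
    have h5 : Real.log ‖eval (B.σ (B.cc F z)).ofLp Q‖ ≤ Real.log C₀ + n * Real.log ‖(B.cc F z).1‖ := by
      have h6 := Real.log_le_log (norm_pos_iff.2 hQσ) hB3
      rwa [Real.log_mul hC₀.ne' (by positivity), Real.log_pow] at h6
    have h6 : d * Real.log m₂ ≤ d * Real.log ‖B.σ (B.cc F z)‖ := mul_le_mul_of_nonneg_left (Real.log_le_log hm₂ (hmσ _ hpc)) (Nat.cast_nonneg _)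
    have h7 : K / n * (Real.log ‖eval (F z).ofLp Q‖ - d * Real.log ‖F z‖) ≤
        K / n * |Real.log C₀ - d * Real.log m₂| + K * Real.log ‖(B.cc F z).1‖ := by
      have hn0 : (n : ℝ) ≠ 0 := Nat.cast_ne_zero.2 (by omega)
      have h8 : K * Real.log ‖(B.cc F z).1‖ = K / n * (n * Real.log ‖(B.cc F z).1‖) := by
        field_simp
      rw [h8, ← mul_add, hLeq]
      refine mul_le_mul_of_nonneg_left ?_ hKn
      have h9 := le_abs_self (Real.log C₀ - d * Real.log m₂)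
      linarith
    have h8 : K * Real.log ‖(B.cc F z).1‖ ≤ k * Real.log ‖(B.cc F z).1‖ := by
      have h9 : (k : ℝ) ≤ K := Nat.cast_le.2 hK
      exact mul_le_mul_of_nonpos_right h9 hlx
    linarith

/-- **`LocalT`, second clause, at a formal saddle-node**: `K₀ = k`, `C₀ = 0`. -/
theorem localT_formal (B : GBox P FF) {g a b : ℂ × ℂ → ℂ} {k : ℕ} (ha : AnalyticOnNhd ℂ a (closedBall 0 B.r))
    (hb : AnalyticOnNhd ℂ b (closedBall 0 B.r)) (ha0 : ∀ p ∈ closedBall (0 : ℂ × ℂ) B.r, a p ≠ 0)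
    (hb0 : fderiv ℂ b 0 (0, 1) ≠ 0) (h : ∀ p, B.v p = (p.1 ^ (k + 1) * a p, b p)) {c : ℕ → ℂ} (hc : c 0 = 0)
    (hJ : ∀ J, (fun t => b (t, jet c J t) - deriv (jet c J) t * (t ^ (k + 1) * a (t, jet c J t))) =O[𝓝 0] fun t : ℂ => t ^ (J + 1))
    (R₀ : MvPolynomial (Fin (M + 1)) ℂ) :
    ∃ (K₀ : ℕ) (C₀ : ℝ), 0 ≤ C₀ ∧ ∀ (Q : MvPolynomial (Fin (M + 1)) ℂ) (d n K : ℕ), Q.IsHomogeneous d → Q ∉ P → 1 ≤ n → K₀ ≤ K →
      ((fun t => eval (B.σ (t, jet c n t)).ofLp Q) =O[𝓝 0] fun t : ℂ => t ^ n) →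
      ((fun t => eval (B.σ (0, t)).ofLp Q) =O[𝓝 0] fun t : ℂ => t ^ n) →
      ∀ F : ℂ → EN M, Crv P FF F → (∃ z, eval (F z).ofLp Q ≠ 0) → (∃ z, eval (F z).ofLp R₀ ≠ 0) → (∀ z ∈ B.Om F, B.cc F z ≠ 0 → g (B.cc F z) ≠ 0) →
        ∀ s, 0 < s → s < B.r → ∃ C : ℝ, 0 ≤ C ∧ ∀ R, 1 ≤ R →
          ∫ z in B.Om F ∩ {z | B.cc F z ∈ ball (0 : ℂ × ℂ) s}, rhoR R z *
            max 0 (Real.log ‖B.zt F z‖ + K / n * (Real.log ‖eval (F z).ofLp Q‖ - d * Real.log ‖F z‖)) ≤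
              C₀ * d / n * En F R + C * Real.log (1 + En F R) + C :=
  ⟨k, 0, le_rfl, fun Q d n K hQ _ hn hK hQc _ F hF hQF _ _ s _ _ =>
    formal_T2 B ha hb ha0 hb0 h hc hn (hJ n) hQ hK hQc hF hQF (by simp)⟩

end Pool.Agent.MQ
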