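import Pool.Agent.MQ.PDefs
import Pool.Agent.MQ.FormT1
import Pool.Agent.MQ.TForm
import Pool.Agent.MQ.LFormB

/-!
# MQ PForm: the local package at a saddle-node with a formal weak separatrix

The germs are the jets of the formal separatrix and the strong separatrix, `K₀ = k + 1`.
-/

set_option autoImplicit false

open Topology Filter Metric MvPolynomial Asymptotics

noncomputable section

namespace Pool.Agent.MQ

open Pool.Agent.H36.BP (EN fs)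
open Pool.Agent.H17EF (coneE)

variable {M : ℕ} {P : Ideal (MvPolynomial (Fin (M + 1)) ℂ)} {FF : Set (EN M × EN M)}

/-- **The local package at a saddle-node with a formal weak separatrix.** -/
theorem package_formal (_hP : P.IsPrime) (B : GBox P FF) {g a b : ℂ × ℂ → ℂ} {k : ℕ} (hk : 1 ≤ k) (ha : AnalyticOnNhd ℂ a (closedBall 0 B.r))
    (hb : AnalyticOnNhd ℂ b (closedBall 0 B.r)) (ha0 : ∀ p ∈ closedBall (0 : ℂ × ℂ) B.r, a p ≠ 0)
    (hb0 : fderiv ℂ b 0 (0, 1) ≠ 0) (h : ∀ p, B.v p = (p.1 ^ (k + 1) * a p, b p)) {c : ℕ → ℂ} (hc : c 0 = 0)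
    (hJ : ∀ J, (fun t => b (t, jet c J t) - deriv (jet c J) t * (t ^ (k + 1) * a (t, jet c J t))) =O[𝓝 0] fun t : ℂ => t ^ (J + 1))
    (hR : ∀ (R : MvPolynomial (Fin (M + 1)) ℂ) (d : ℕ), R.IsHomogeneous d → R ∉ P → ∃ n : ℕ,
      ¬ (fun t => eval (B.σ (t, jet c n t)).ofLp R) =O[𝓝 0] fun t : ℂ => t ^ (n + 1))
    (hg : (∀ p, g p = p.1) ∨ (∀ p, g p = 1) ∧ NonAlg P fun t => B.σ (0, t)) {R₀ : MvPolynomial (Fin (M + 1)) ℂ} {d₀ : ℕ}
    (_hR₀ : R₀.IsHomogeneous d₀) (_hgR : ∀ p ∈ ball (0 : ℂ × ℂ) B.r, g p = 0 → eval (B.σ p).ofLp R₀ = 0) : Package B g R₀ := by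
  obtain ⟨C₀, hC₀, hN⟩ := localN_formal B hk ha hb ha0 hb0 h hc hJ hR hg
  have h00 : (0 : ℂ × ℂ) ∈ closedBall (0 : ℂ × ℂ) B.r := mem_closedBall_self B.pos.le
  have hmem : ∀ᶠ p in 𝓝 (0 : ℂ × ℂ), B.σ p ∈ coneE P := by
    filter_upwards [ball_mem_nhds (0 : ℂ × ℂ) B.pos] with p hp
    exact B.mem p (ball_subset_closedBall hp)
  have hax : ∀ e : ℂ → ℂ × ℂ, AnalyticAt ℂ e 0 → e 0 = 0 → AnalyticAt ℂ (fun t => B.σ (e t)) 0 ∧ ∀ᶠ t in 𝓝 (0 : ℂ), B.σ (e t) ∈ coneE P := by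
    intro e he he0
    refine ⟨AnalyticAt.comp (g := B.σ) (f := e) (by rw [he0]; exact B.σ_an _ h00) he, ?_⟩
    have h3 : Tendsto e (𝓝 0) (𝓝 0) := by
      have := he.continuousAt.tendsto
      rwa [he0] at this
    exact h3.eventually hmem
  have a₁ := fun n : ℕ => hax (fun t => (t, jet c n t)) (analyticAt_id.prod (pf_jet_an c n 0)) (by
    show ((0 : ℂ), jet c n 0) = 0
    rw [pf_jet_zero, hc]
    rfl)
  have a₂ := hax (fun t => (0, t)) (analyticAt_const.prod analyticAt_id) rfl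
  refine ⟨2, k + 1, fun n => ![fun t => B.σ (t, jet c n t), fun t => B.σ (0, t)], C₀, hC₀, ?_, ?_⟩
  · intro n l
    fin_cases l
    · exact a₁ n
    · exact a₂
  · intro Q d n K hQ hQP hn hK hcc F hF hQF _ hgF s hs hsr
    have c₁ : (fun t => eval (B.σ (t, jet c n t)).ofLp Q) =O[𝓝 0] fun t : ℂ => t ^ n := hcc 0
    have c₂ : (fun t => eval (B.σ (0, t)).ofLp Q) =O[𝓝 0] fun t : ℂ => t ^ n := hcc 1
    refine ⟨hN Q d n hQ hQP hn c₁ F hF hgF s hs hsr, formal_T1 B hk ha hb ha0 hb0 h hc hJ hK c₁ c₂ hF, ?_⟩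
    exact formal_T2 B ha hb ha0 hb0 h hc hn (hJ n) hQ (by omega) c₁ hF hQF (by positivity)

end Pool.Agent.MQ
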