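import Pool.Agent.MQ.Frame
import Pool.Agent.MQ.CoordB
import Pool.Agent.H14.PP.Poly

/-!
# MQ FrameB: from a box to one variable
-/

set_option autoImplicit false

open Topology Filter Metric MvPolynomial MeasureTheory Asymptotics

noncomputable section

namespace Pool.Agent.MQ

open Pool.Agent.H36.BP (EN fs)
open Pool.Agent.H17EF (coneE)
open Pool.Agent.H30M (tau)
open Pool.Agent.H14.PP (eval_smulEN)

variable {M : ℕ} {P : Ideal (MvPolynomial (Fin (M + 1)) ℂ)} {FF : Set (EN M × EN M)}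

theorem Crv.one (B : GBox P FF) {F : ℂ → EN M} (hF : Crv P FF F) : Crv1 B.v B.r (B.Om F) (B.cc F) where
  isOpen := isOpen_Om B hF.diff hF.mem
  an := fun z hz => (cc_lift B hF.diff hF.mem hz).1
  mem := fun z hz => (cc_lift B hF.diff hF.mem hz).2.1
  closed := fun s hs => isClosed_cc B hF.diff hF.mem hs
  ode := fun z hz => (deriv_cc B hF hz).1

theorem fr_cone_ne {x : EN M} (hx : x ∈ coneE P) : x ≠ 0 := by
  rintro rfl
  have h := hx
  rw [coneE, Set.mem_preimage, map_zero] at h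
  exact h.1 rfl

/-- a form along the curve and in the box -/
theorem form_cc (B : GBox P FF) {F : ℂ → EN M} (hF : Crv P FF F) {Q : MvPolynomial (Fin (M + 1)) ℂ} {d : ℕ} (hQ : Q.IsHomogeneous d) {z : ℂ}
    (hz : z ∈ B.Om F) : ‖eval (F z).ofLp Q‖ * Real.exp (d * Real.log ‖B.σ (B.cc F z)‖) = ‖eval (B.σ (B.cc F z)).ofLp Q‖ * ‖F z‖ ^ d := by
  obtain ⟨-, h2, c, -, hc, h3⟩ := cc_lift B hF.diff hF.mem hz
  have h4 := h3.self_of_nhds
  have h5 : B.σ (B.cc F z) ≠ 0 := fr_cone_ne (B.mem _ (ball_subset_closedBall h2))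
  have h6 : 0 < ‖B.σ (B.cc F z)‖ := norm_pos_iff.2 h5
  have h7 : eval (F z).ofLp Q = c z ^ d * eval (B.σ (B.cc F z)).ofLp Q := by
    rw [h4, eval_smulEN hQ]
  rw [← Real.log_pow, Real.exp_log (pow_pos h6 d), h7, h4, norm_mul, norm_smul, norm_pow, mul_pow]
  ring

/-- the form in the box -/
theorem an_form (B : GBox P FF) (Q : MvPolynomial (Fin (M + 1)) ℂ) {p : ℂ × ℂ} (hp : p ∈ closedBall (0 : ℂ × ℂ) B.r) :
    AnalyticAt ℂ (fun p => eval (B.σ p).ofLp Q) p :=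
  AnalyticAt.comp (g := fun x : EN M => eval x.ofLp Q) (Pool.Agent.H14.PP.analyticAt_evalEN Q (B.σ p)) (B.σ_an p hp)

theorem contDiffAt_psi (B : GBox P FF) {p : ℂ × ℂ} (hp : p ∈ closedBall (0 : ℂ × ℂ) B.r) {n : ℕ∞} : ContDiffAt ℝ n (fun p => Real.log ‖B.σ p‖) p := by
  have h5 : B.σ p ≠ 0 := fr_cone_ne (B.mem _ hp)
  have h1 : ContDiffAt ℝ n B.σ p := ((B.σ_an p hp).contDiffAt (n := n)).restrict_scalars ℝ
  exact (h1.norm ℂ h5).log (norm_ne_zero_iff.2 h5)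

/-- contact of order `≥ n` with a disc which is not algebraic is of a finite order `≥ n` -/
theorem exists_order {c : ℂ → EN M} (hc : AnalyticAt ℂ c 0) (hna : NonAlg P c) {Q : MvPolynomial (Fin (M + 1)) ℂ} {d n : ℕ} (hQ : Q.IsHomogeneous d)
    (hQP : Q ∉ P) (hO : (fun t => eval (c t).ofLp Q) =O[𝓝 0] fun t : ℂ => t ^ n) :
    ∃ n₁ : ℕ, n ≤ n₁ ∧ analyticOrderAt (fun t => eval (c t).ofLp Q) 0 = n₁ := by
  have h1 : AnalyticAt ℂ (fun t => eval (c t).ofLp Q) 0 := AnalyticAt.comp (g := fun x : EN M => eval x.ofLp Q) (Pool.Agent.H14.PP.analyticAt_evalEN Q (c 0)) hc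
  have h2 : analyticOrderAt (fun t => eval (c t).ofLp Q) 0 ≠ ⊤ := by
    intro h3
    rw [analyticOrderAt_eq_top] at h3
    exact (hna Q d hQ hQP) (h3.mono fun t ht h4 => h4 ht)
  obtain ⟨n₁, hn₁⟩ := ENat.ne_top_iff_exists.1 h2
  refine ⟨n₁, ?_, hn₁.symm⟩
  by_contra hlt
  push Not at hlt
  obtain ⟨u, hu, hu0, h4⟩ := (h1.analyticOrderAt_eq_natCast).1 hn₁.symm
  -- `t ^ n₁ u = O (t ^ n)` with `n₁ < n` is impossible
  have h5 : (fun t : ℂ => t ^ n₁) =O[𝓝 0] fun t : ℂ => t ^ n := by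
    have h6 : (fun t : ℂ => t ^ n₁) =O[𝓝 0] fun t => eval (c t).ofLp Q := by
      have h7 : (fun t : ℂ => eval (c t).ofLp Q) =ᶠ[𝓝 0] fun t => t ^ n₁ * u t := h4.mono fun t ht => by simpa using ht
      refine IsBigO.trans ?_ h7.symm.isBigO
      have h8 : (fun _ : ℂ => (1 : ℂ)) =O[𝓝 0] u := by
        have h9 : ∀ᶠ t in 𝓝 (0 : ℂ), ‖u 0‖ / 2 ≤ ‖u t‖ := by
          have h10 : ‖u 0‖ / 2 < ‖u 0‖ := half_lt_self (norm_pos_iff.2 hu0)
          exact (hu.continuousAt.norm.eventually (lt_mem_nhds h10)).mono fun t ht => ht.le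
        refine IsBigO.of_bound (2 / ‖u 0‖) (h9.mono fun t ht => ?_)
        have h11 : 0 < ‖u 0‖ := norm_pos_iff.2 hu0
        rw [norm_one, div_mul_eq_mul_div, le_div_iff₀ h11]
        linarith
      have h12 := (isBigO_refl (fun t : ℂ => t ^ n₁) (𝓝 0)).mul h8
      simpa using h12
    exact h6.trans hO
  obtain ⟨C, hC⟩ := h5.bound
  rw [Metric.eventually_nhds_iff] at hC
  obtain ⟨ε, hε, hC⟩ := hC
  -- at a small real point
  have hC1 : 0 < |C| + 1 := by positivity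
  set t : ℝ := min (ε / 2) (1 / (2 * (|C| + 1))) with ht
  have ht0 : 0 < t := by positivity
  have ht1 : t < ε := lt_of_le_of_lt (min_le_left _ _) (half_lt_self hε)
  have h6 := hC (y := (t : ℂ)) (by rw [dist_zero_right, Complex.norm_real, Real.norm_of_nonneg ht0.le]; exact ht1)
  rw [norm_pow, norm_pow, Complex.norm_real, Real.norm_of_nonneg ht0.le] at h6
  obtain ⟨m, rfl⟩ := Nat.exists_eq_add_of_lt hlt
  have h7 : t ^ n₁ * 1 ≤ t ^ n₁ * (C * t ^ (m + 1)) := by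
    have e : t ^ n₁ * (C * t ^ (m + 1)) = C * t ^ (n₁ + m + 1) := by ring
    rw [e, mul_one]
    exact h6
  have h8 := le_of_mul_le_mul_left h7 (pow_pos ht0 n₁)
  have ht2 : t ≤ 1 / (2 * (|C| + 1)) := min_le_right _ _
  have ht3 : t ≤ 1 := ht2.trans (by
    rw [div_le_one (by positivity)]
    linarith [abs_nonneg C])
  have h9 : t ^ (m + 1) ≤ t := by
    rw [pow_succ]
    exact mul_le_of_le_one_left ht0.le (pow_le_one₀ ht0.le ht3)
  have h10 : C * t ^ (m + 1) ≤ (|C| + 1) * t := by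
    calc C * t ^ (m + 1) ≤ (|C| + 1) * t ^ (m + 1) := mul_le_mul_of_nonneg_right (by linarith [le_abs_self C]) (by positivity)
      _ ≤ _ := mul_le_mul_of_nonneg_left h9 hC1.le
  have h11 : (|C| + 1) * t ≤ 1 / 2 := by
    calc (|C| + 1) * t ≤ (|C| + 1) * (1 / (2 * (|C| + 1))) := mul_le_mul_of_nonneg_left ht2 hC1.le
      _ = 1 / 2 := by field_simp
  linarith

end Pool.Agent.MQ
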