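import Pool.Agent.MQ.LNode
import Pool.Agent.MQ.FrameB
import Pool.Agent.MQ.Shell

/-!
# MQ LNodeB: `LocalN` of a node
-/

set_option autoImplicit false

open Topology Filter Metric MvPolynomial MeasureTheory Asymptotics

noncomputable section

namespace Pool.Agent.MQ

open Pool.Agent.H36.BP (EN fs)
open Pool.Agent.H17EF (coneE)
open AxisA (Axis0 shell)

variable {M : ℕ} {P : Ideal (MvPolynomial (Fin (M + 1)) ℂ)} {FF : Set (EN M × EN M)}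

theorem exists_ratio {r : ℝ} {a b : ℂ × ℂ → ℂ} (ha : AnalyticOnNhd ℂ a (closedBall 0 r)) (hb : AnalyticOnNhd ℂ b (closedBall 0 r))
    (hb0 : ∀ p ∈ closedBall (0 : ℂ × ℂ) r, b p ≠ 0) : ∃ K : ℝ, 0 < K ∧ ∀ p ∈ closedBall (0 : ℂ × ℂ) r, ‖a p‖ ≤ K * ‖b p‖ := by
  obtain ⟨K, hK0, hK⟩ := exists_bound (r := r) (f := fun p => a p / b p)
    (ContinuousOn.div (fun p hp => (ha p hp).continuousAt.continuousWithinAt) (fun p hp => (hb p hp).continuousAt.continuousWithinAt) hb0)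
  refine ⟨K, hK0, fun p hp => ?_⟩
  have h1 := hK p hp
  rwa [norm_div, div_le_iff₀ (norm_pos_iff.2 (hb0 p hp))] at h1

theorem exists_scale {d : ℕ} {Q : MvPolynomial (Fin (M + 1)) ℂ} (hQ : Q.IsHomogeneous d) :
    ∃ C : ℝ, 0 < C ∧ ∀ x : EN M, ‖eval x.ofLp Q‖ ≤ C * ‖x‖ ^ d := by
  refine ⟨1 + ∑ m ∈ Q.support, ‖coeff m Q‖, by
    have : 0 ≤ ∑ m ∈ Q.support, ‖coeff m Q‖ := Finset.sum_nonneg fun _ _ => norm_nonneg _
    linarith, fun x => ?_⟩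
  have h1 : ‖eval x.ofLp Q‖ ≤ (∑ m ∈ Q.support, ‖coeff m Q‖) * ‖x‖ ^ d := by
    rw [MvPolynomial.eval_eq', Finset.sum_mul]
    refine (norm_sum_le _ _).trans (Finset.sum_le_sum fun m hm => ?_)
    rw [norm_mul, norm_prod]
    refine mul_le_mul_of_nonneg_left ?_ (norm_nonneg _)
    have hdeg : ∑ i, m i = d := by
      have := hQ (MvPolynomial.mem_support_iff.1 hm)
      rw [Finsupp.weight_apply] at this
      simpa [Finsupp.sum_fintype] using this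
    calc ∏ i, ‖x.ofLp i ^ m i‖ ≤ ∏ i, ‖x‖ ^ m i := Finset.prod_le_prod (fun _ _ => norm_nonneg _) fun i _ => by
          rw [norm_pow]
          exact pow_le_pow_left₀ (norm_nonneg _) (PiLp.norm_apply_le x i) _
      _ = ‖x‖ ^ d := by rw [Finset.prod_pow_eq_pow_sum, hdeg]
  have h2 : 0 ≤ ‖x‖ ^ d := by positivity
  nlinarith

/-- **`LocalN` of a node.** -/
theorem localN_node (B : GBox P FF) {g a b g₁ g₂ : ℂ × ℂ → ℂ} (ha : AnalyticOnNhd ℂ a (closedBall 0 B.r)) (hb : AnalyticOnNhd ℂ b (closedBall 0 B.r))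
    (ha0 : ∀ p ∈ closedBall (0 : ℂ × ℂ) B.r, a p ≠ 0) (hb0 : ∀ p ∈ closedBall (0 : ℂ × ℂ) B.r, b p ≠ 0)
    (h : ∀ p, B.v p = (p.1 * a p, p.2 * b p)) (hg : ∀ p, g p = g₁ p * g₂ p)
    (h₁ : (∀ p, g₁ p = p.1) ∨ (∀ p, g₁ p = 1) ∧ NonAlg P fun t => B.σ (0, t))
    (h₂ : (∀ p, g₂ p = p.2) ∨ (∀ p, g₂ p = 1) ∧ NonAlg P fun t => B.σ (t, 0)) :
    ∃ C₀ : ℝ, 0 ≤ C₀ ∧ ∀ (Q : MvPolynomial (Fin (M + 1)) ℂ) (d n : ℕ), Q.IsHomogeneous d → Q ∉ P → 1 ≤ n →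
      ((fun t => eval (B.σ (0, t)).ofLp Q) =O[𝓝 0] fun t : ℂ => t ^ n) → ((fun t => eval (B.σ (t, 0)).ofLp Q) =O[𝓝 0] fun t : ℂ => t ^ n) →
      ∀ F : ℂ → EN M, Crv P FF F → (∀ z ∈ B.Om F, B.cc F z ≠ 0 → g (B.cc F z) ≠ 0) → ∀ s, 0 < s → s < B.r → LocalN B g F s (C₀ * d / n) := by
  obtain ⟨c₁, hc₁, hmain⟩ := localN1_node
  obtain ⟨K₁, hK₁, hK₁'⟩ := exists_ratio ha hb hb0
  obtain ⟨K₂, hK₂, hK₂'⟩ := exists_ratio hb ha ha0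
  set K : ℝ := max K₁ K₂ with hK
  have hK0 : 0 < K := lt_max_of_lt_left hK₁
  refine ⟨c₁ * K, by positivity, ?_⟩
  intro Q d n hQ hQP hn hO₁ hO₂ F hF hlz s hs hsr
  have h00 : (0 : ℂ × ℂ) ∈ closedBall (0 : ℂ × ℂ) B.r := mem_closedBall_self B.pos.le
  have hF0 : ∀ z, F z ≠ 0 := fun z => fr_cone_ne (hF.mem z)
  obtain ⟨CQ, hCQ, hCQ'⟩ := exists_scale hQ
  have hN : NodeC B.v B.r (B.Om F) (B.cc F) a b K :=
    ⟨hF.one B, ha, hb, ha0, hb0, h, fun p hp => (hK₁' p hp).trans (mul_le_mul_of_nonneg_right (le_max_left _ _) (norm_nonneg _)),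
      fun p hp => (hK₂' p hp).trans (mul_le_mul_of_nonneg_right (le_max_right _ _) (norm_nonneg _))⟩
  -- the scaled form
  set Qf : ℂ → ℂ := fun z => (CQ⁻¹ : ℝ) * eval (F z).ofLp Q with hQf
  have hQd : Differentiable ℂ Qf := fun z =>
    ((AnalyticAt.comp (g := fun x : EN M => eval x.ofLp Q) (Pool.Agent.H14.PP.analyticAt_evalEN Q (F z)) (hF.diff.analyticAt z)).differentiableAt).const_mul _
  have hQn : ∀ z, ‖Qf z‖ = CQ⁻¹ * ‖eval (F z).ofLp Q‖ := fun z => by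
    rw [hQf]
    simp only [norm_mul, Complex.norm_real, Real.norm_of_nonneg (inv_nonneg.2 hCQ.le)]
  have hQF : ∀ z, ‖Qf z‖ ≤ ‖F z‖ ^ d := fun z => by
    rw [hQn, inv_mul_le_iff₀ hCQ]
    exact hCQ' (F z)
  have hψ : ContDiffAt ℝ 1 (fun p => Real.log ‖B.σ p‖) 0 := contDiffAt_psi B h00 (n := 1)
  have hq : AnalyticAt ℂ (fun p => eval (B.σ p).ofLp Q) 0 := an_form B Q h00
  have hcc : ∀ z ∈ B.Om F, ‖Qf z‖ * Real.exp (d * Real.log ‖B.σ (B.cc F z)‖) = CQ⁻¹ * ‖eval (B.σ (B.cc F z)).ofLp Q‖ * ‖F z‖ ^ d := fun z hz => by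
    rw [hQn, mul_assoc, form_cc B hF hQ hz, mul_assoc]
  have key := hmain hN hK0.le hF.diff hF0 hQd hn hQF hg hs hsr (Λ := Len F) ?_ ?_ hlz
    (fun R _ => integral_nonneg fun z => mul_nonneg (norm_nonneg _) (div_nonneg (Real.sqrt_nonneg _) (by positivity)))
  · have e : c₁ * K * (d : ℝ) / n = c₁ * K * (d / n) := by ring
    rw [e]
    exact key
  · rcases h₁ with h₁ | ⟨h₁, hna⟩
    · exact Or.inl h₁
    · refine Or.inr ⟨h₁, ?_⟩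
      have hσ : AnalyticAt ℂ (fun t : ℂ => B.σ (0, t)) 0 :=
        AnalyticAt.comp (g := B.σ) (B.σ_an _ h00) (analyticAt_const.prod analyticAt_id)
      obtain ⟨n₁, hn₁, hord⟩ := exists_order hσ hna hQ hQP hO₁
      obtain ⟨ρ, η, k1, k2, k3, k4⟩ := shell hq (hn.trans hn₁) hord hψ d hK0.le hs
      obtain ⟨b₀, k5⟩ := k4 CQ⁻¹ (inv_pos.2 hCQ)
      exact ⟨n₁, hn₁, ρ, η, b₀, k1, k2, k3, k5 hF.diff hF0 hN.ax₁ hcc⟩
  · rcases h₂ with h₂ | ⟨h₂, hna⟩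
    · exact Or.inl h₂
    · refine Or.inr ⟨h₂, ?_⟩
      have hsw : AnalyticAt ℂ (fun p : ℂ × ℂ => (p.2, p.1)) 0 := analyticAt_snd.prod analyticAt_fst
      have hσ : AnalyticAt ℂ (fun t : ℂ => B.σ (t, 0)) 0 :=
        AnalyticAt.comp (g := B.σ) (B.σ_an _ h00) (analyticAt_id.prod analyticAt_const)
      obtain ⟨n₁, hn₁, hord⟩ := exists_order hσ hna hQ hQP hO₂
      have hq' : AnalyticAt ℂ (fun p : ℂ × ℂ => eval (B.σ (p.2, p.1)).ofLp Q) 0 :=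
        AnalyticAt.comp (g := fun p => eval (B.σ p).ofLp Q) (f := fun p : ℂ × ℂ => (p.2, p.1)) hq hsw
      have hψ' : ContDiffAt ℝ 1 (fun p : ℂ × ℂ => Real.log ‖B.σ (p.2, p.1)‖) 0 :=
        ContDiffAt.comp (g := fun p => Real.log ‖B.σ p‖) (f := fun p : ℂ × ℂ => (p.2, p.1)) 0 hψ ((hsw.contDiffAt (n := 1)).restrict_scalars ℝ)
      obtain ⟨ρ, η, k1, k2, k3, k4⟩ := shell hq' (hn.trans hn₁) hord hψ' d hK0.le hs
      obtain ⟨b₀, k5⟩ := k4 CQ⁻¹ (inv_pos.2 hCQ)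
      exact ⟨n₁, hn₁, ρ, η, b₀, k1, k2, k3, k5 hF.diff hF0 hN.ax₂ hcc⟩

end Pool.Agent.MQ
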