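import Pool.Agent.MQ.PDefs
import Pool.Agent.MQ.NodeP
import Pool.Agent.MQ.NodeT
import Pool.Agent.MQ.LNodeB

/-!
# MQ PNode: the local package at a node

The germs are the two axes, `K₀ = 1`.
-/

set_option autoImplicit false

open Topology Filter Metric MvPolynomial Asymptotics

noncomputable section

namespace Pool.Agent.MQ

open Pool.Agent.H36.BP (EN fs)
open Pool.Agent.H17EF (coneE)

variable {M : ℕ} {P : Ideal (MvPolynomial (Fin (M + 1)) ℂ)} {FF : Set (EN M × EN M)}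

/-- **The local package at a node.** -/
theorem package_node (_hP : P.IsPrime) (B : GBox P FF) {g a b g₁ g₂ : ℂ × ℂ → ℂ} (ha : AnalyticOnNhd ℂ a (closedBall 0 B.r)) (hb : AnalyticOnNhd ℂ b (closedBall 0 B.r))
    (ha0 : ∀ p ∈ closedBall (0 : ℂ × ℂ) B.r, a p ≠ 0) (hb0 : ∀ p ∈ closedBall (0 : ℂ × ℂ) B.r, b p ≠ 0)
    (hq : ∀ k l : ℕ, 1 ≤ k → 1 ≤ l → k * a 0 ≠ l * b 0) (h : ∀ p, B.v p = (p.1 * a p, p.2 * b p)) (hg : ∀ p, g p = g₁ p * g₂ p)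
    (h₁ : (∀ p, g₁ p = p.1) ∨ (∀ p, g₁ p = 1) ∧ NonAlg P fun t => B.σ (0, t))
    (h₂ : (∀ p, g₂ p = p.2) ∨ (∀ p, g₂ p = 1) ∧ NonAlg P fun t => B.σ (t, 0)) {R₀ : MvPolynomial (Fin (M + 1)) ℂ} {d₀ : ℕ}
    (_hR₀ : R₀.IsHomogeneous d₀) (_hgR : ∀ p ∈ ball (0 : ℂ × ℂ) B.r, g p = 0 → eval (B.σ p).ofLp R₀ = 0) : Package B g R₀ := by
  obtain ⟨C₀, hC₀, hN⟩ := localN_node B ha hb ha0 hb0 h hg h₁ h₂
  have h00 : (0 : ℂ × ℂ) ∈ closedBall (0 : ℂ × ℂ) B.r := mem_closedBall_self B.pos.le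
  have hmem : ∀ᶠ p in 𝓝 (0 : ℂ × ℂ), B.σ p ∈ coneE P := by
    filter_upwards [ball_mem_nhds (0 : ℂ × ℂ) B.pos] with p hp
    exact B.mem p (ball_subset_closedBall hp)
  have hax : ∀ e : ℂ → ℂ × ℂ, AnalyticAt ℂ e 0 → e 0 = 0 → AnalyticAt ℂ (fun t => B.σ (e t)) 0 ∧ ∀ᶠ t in 𝓝 (0 : ℂ), B.σ (e t) ∈ coneE P := by
    intro e he he0
    refine ⟨AnalyticAt.comp (g := B.σ) (f := e) (by rw [he0]; exact B.σ_an _ h00) he, ?_⟩
    have h3 : Tendsto e (𝓝 0) (𝓝 0) := by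
      have := he.continuousAt.tendsto
      rwa [he0] at this
    exact h3.eventually hmem
  have a₁ := hax (fun t => (0, t)) (analyticAt_const.prod analyticAt_id) rfl
  have a₂ := hax (fun t => (t, 0)) (analyticAt_id.prod analyticAt_const) rfl
  refine ⟨2, 1, fun _ => ![fun t => B.σ (0, t), fun t => B.σ (t, 0)], C₀, hC₀, ?_, ?_⟩
  · intro n l
    fin_cases l
    · exact a₁
    · exact a₂
  · intro Q d n K hQ hQP hn hK hc F hF hQF _ hgF s hs hsr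
    have c₁ : (fun t => eval (B.σ (0, t)).ofLp Q) =O[𝓝 0] fun t : ℂ => t ^ n := hc 0
    have c₂ : (fun t => eval (B.σ (t, 0)).ofLp Q) =O[𝓝 0] fun t : ℂ => t ^ n := hc 1
    refine ⟨hN Q d n hQ hQP hn c₁ c₂ F hF hgF s hs hsr, node_T1 B ha hb ha0 hb0 hq h hK c₁ c₂ hF, ?_⟩
    exact node_T2 B ha hb ha0 hb0 h hQ K n hF hQF (by positivity)

end Pool.Agent.MQ
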