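import Pool.Agent.MQ.NodeP

/-!
# MQ SNodeT1: a curve through a saddle-node lies on the strong separatrix, and the pole of `ζ'` is killed by a form with contact

`saddle_T1`: the first clause of `LocalT` at a saddle-node.
-/

set_option autoImplicit false

open Topology Filter Metric MvPolynomial Asymptotics

noncomputable section

namespace Pool.Agent.MQ

open Pool.Agent.H36.BP (EN fs)
open Pool.Agent.H17EF (coneE)

variable {M : ℕ} {P : Ideal (MvPolynomial (Fin (M + 1)) ℂ)} {FF : Set (EN M × EN M)}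

/-- a curve which is not contained in `{R₀ = 0}` is not near `z₀` in the part of `{R₀ = 0}` where `S` holds -/
theorem np_form (B : GBox P FF) {R₀ : MvPolynomial (Fin (M + 1)) ℂ} {d₀ : ℕ} (hR₀ : R₀.IsHomogeneous d₀) {S : ℂ × ℂ → Prop}
    (hS : ∀ p ∈ ball (0 : ℂ × ℂ) B.r, S p → eval (B.σ p).ofLp R₀ = 0) {F : ℂ → EN M} (hF : Crv P FF F) (hR0F : ∃ z, eval (F z).ofLp R₀ ≠ 0)
    {z₀ : ℂ} (hz : z₀ ∈ B.Om F) (h : ∀ᶠ z in 𝓝 z₀, S (B.cc F z)) : False := by
  obtain ⟨hga, hgm, c, hc, hc0, hcF⟩ := cc_lift B hF.diff hF.mem hz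
  have h1 : ∀ᶠ z in 𝓝 z₀, eval (F z).ofLp R₀ = 0 := by
    filter_upwards [h, hcF, hga.continuousAt.eventually (isOpen_ball.mem_nhds hgm)] with z h2 h3 h4
    rw [h3, Pool.Agent.H14.PP.eval_smulEN hR₀, hS _ h4 h2, mul_zero]
  have h2 : AnalyticOnNhd ℂ (fun z => eval (F z).ofLp R₀) Set.univ := fun z _ =>
    AnalyticAt.comp (g := fun x : EN M => eval x.ofLp R₀) (f := F) (Pool.Agent.H14.PP.analyticAt_evalEN R₀ _) (hF.diff.analyticAt z)
  obtain ⟨z, hz1⟩ := hR0F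
  exact hz1 (h2.eqOn_zero_of_preconnected_of_eventuallyEq_zero isPreconnected_univ (Set.mem_univ z₀) h1 (Set.mem_univ z))

/-- **The first clause of `LocalT` at a saddle-node.** -/
theorem saddle_T1 (B : GBox P FF) {a b : ℂ × ℂ → ℂ} {k : ℕ} (hk : 1 ≤ k) (ha : AnalyticOnNhd ℂ a (closedBall 0 B.r))
    (hb : AnalyticOnNhd ℂ b (closedBall 0 B.r)) (ha0 : ∀ p ∈ closedBall (0 : ℂ × ℂ) B.r, a p ≠ 0) (hb0 : ∀ p ∈ closedBall (0 : ℂ × ℂ) B.r, b p ≠ 0)
    (h : ∀ p, B.v p = (p.1 ^ (k + 1) * a p, p.2 * b p)) {R₀ : MvPolynomial (Fin (M + 1)) ℂ} {d₀ : ℕ} (hR₀ : R₀.IsHomogeneous d₀)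
    (hyR : ∀ p ∈ ball (0 : ℂ × ℂ) B.r, p.2 = 0 → eval (B.σ p).ofLp R₀ = 0) {Q : MvPolynomial (Fin (M + 1)) ℂ} {n K : ℕ} (hK : 1 ≤ K)
    (hc : (fun t => eval (B.σ (0, t)).ofLp Q) =O[𝓝 0] fun t : ℂ => t ^ n) {F : ℂ → EN M} (hF : Crv P FF F)
    (hR0F : ∃ z, eval (F z).ofLp R₀ ≠ 0) :
    ∀ z₀ ∈ B.Om F, B.cc F z₀ = 0 → ∃ h : ℂ → ℂ, AnalyticAt ℂ h z₀ ∧
      ∀ᶠ z in 𝓝[≠] z₀, h z = B.zt F z ^ n * eval (B.σ (B.cc F z)).ofLp Q ^ K := by
  intro z₀ hz₀ hc0
  have hOm : ∀ᶠ z in 𝓝 z₀, z ∈ B.Om F := (isOpen_Om B hF.diff hF.mem).mem_nhds hz₀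
  set g := B.cc F with hg
  have hga : AnalyticAt ℂ g z₀ := (cc_lift B hF.diff hF.mem hz₀).1
  have hx : AnalyticAt ℂ (fun z => (g z).1) z₀ := analyticAt_fst.comp hga
  have hy : AnalyticAt ℂ (fun z => (g z).2) z₀ := analyticAt_snd.comp hga
  have hx0 : (g z₀).1 = 0 := by rw [hc0]; rfl
  have hy0 : (g z₀).2 = 0 := by rw [hc0]; rfl
  have hgd : ∀ᶠ z in 𝓝 z₀, deriv (fun z => (g z).1) z = (deriv g z).1 ∧ deriv (fun z => (g z).2) z = (deriv g z).2 := by
    filter_upwards [hga.eventually_analyticAt] with z hz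
    exact ⟨((ContinuousLinearMap.fst ℂ ℂ ℂ).hasFDerivAt.comp_hasDerivAt z hz.differentiableAt.hasDerivAt).deriv,
      ((ContinuousLinearMap.snd ℂ ℂ ℂ).hasFDerivAt.comp_hasDerivAt z hz.differentiableAt.hasDerivAt).deriv⟩
  have h0cl : (0 : ℂ × ℂ) ∈ closedBall (0 : ℂ × ℂ) B.r := mem_closedBall_self B.pos.le
  have hag : AnalyticAt ℂ (fun z => a (g z)) z₀ := by
    have h1 : AnalyticAt ℂ a (g z₀) := by rw [hc0]; exact ha 0 h0cl
    exact AnalyticAt.comp (g := a) (f := g) h1 hga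
  have hbg : AnalyticAt ℂ (fun z => b (g z)) z₀ := by
    have h1 : AnalyticAt ℂ b (g z₀) := by rw [hc0]; exact hb 0 h0cl
    exact AnalyticAt.comp (g := b) (f := g) h1 hga
  have hag0 : a (g z₀) ≠ 0 := by rw [hc0]; exact ha0 0 h0cl
  have hbg0 : b (g z₀) ≠ 0 := by rw [hc0]; exact hb0 0 h0cl
  have hane : ∀ᶠ z in 𝓝 z₀, a (g z) ≠ 0 := hag.continuousAt.eventually_ne hag0
  have hbne : ∀ᶠ z in 𝓝 z₀, b (g z) ≠ 0 := hbg.continuousAt.eventually_ne hbg0
  -- the equation `g' = ζ v`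
  have hode : ∀ᶠ z in 𝓝 z₀, ((g z).1 ≠ 0 ∨ (g z).2 ≠ 0) → (deriv g z).1 = B.zt F z * ((g z).1 ^ (k + 1) * a (g z)) ∧
      (deriv g z).2 = B.zt F z * ((g z).2 * b (g z)) := by
    filter_upwards [hOm, hane, hbne] with z hz h1 h2 h3
    have hv : B.v (g z) ≠ 0 := by
      rw [h]
      intro h4
      rw [Prod.ext_iff] at h4
      rcases h3 with h3 | h3
      · exact (mul_ne_zero (pow_ne_zero _ h3) h1) h4.1
      · exact (mul_ne_zero h3 h2) h4.2
    have h4 := (deriv_cc B hF hz).2 hv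
    rw [h] at h4
    rw [← hg] at h4
    constructor
    · rw [h4]; rfl
    · rw [h4]; rfl
  rcases hy.eventually_eq_zero_or_eventually_ne_zero with hyz | hyn
  · exact (np_form B hR₀ (S := fun p => p.2 = 0) hyR hF hR0F hz₀ hyz).elim
  rcases hx.eventually_eq_zero_or_eventually_ne_zero with hxz | hxn
  · -- the curve lies on `{x = 0}`
    have hQa : AnalyticAt ℂ (fun t : ℂ => eval (B.σ (0, t)).ofLp Q) 0 := by
      have h1 : AnalyticAt ℂ (fun t : ℂ => B.σ (0, t)) 0 := by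
        have h2 : AnalyticAt ℂ (fun t : ℂ => ((0 : ℂ), t)) 0 := analyticAt_const.prod analyticAt_id
        exact AnalyticAt.comp (g := B.σ) (f := fun t : ℂ => ((0 : ℂ), t)) (B.σ_an _ h0cl) h2
      exact AnalyticAt.comp (g := fun x : EN M => eval x.ofLp Q) (f := fun t : ℂ => B.σ (0, t)) (Pool.Agent.H14.PP.analyticAt_evalEN Q _) h1
    obtain ⟨q, hq1, hq2⟩ := np_div hQa hc
    have hyt : Tendsto (fun z => (g z).2) (𝓝 z₀) (𝓝 0) := by
      have := hy.continuousAt.tendsto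
      rwa [hy0] at this
    refine ⟨fun z => ((deriv g z).2 / b (g z)) ^ n * ((g z).2 ^ (n * (K - 1)) * q (g z).2 ^ K), ?_, ?_⟩
    · have h1 : AnalyticAt ℂ (fun z => (deriv g z).2) z₀ := analyticAt_snd.comp hga.deriv
      have h2 : AnalyticAt ℂ (fun z => q (g z).2) z₀ := by
        have h3 : AnalyticAt ℂ q ((g z₀).2) := by rw [hy0]; exact hq1
        exact AnalyticAt.comp (g := q) (f := fun z => (g z).2) h3 hy
      exact ((h1.div hbg hbg0).pow n).mul ((hy.pow _).mul (h2.pow K))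
    · filter_upwards [nhdsWithin_le_nhds hxz, hyn, nhdsWithin_le_nhds hode, nhdsWithin_le_nhds hbne, nhdsWithin_le_nhds (hyt.eventually hq2)]
        with z h1 h2 h3 h4 h5
      have h6 := (h3 (Or.inr h2)).2
      have h7 : g z = (0, (g z).2) := Prod.ext h1 rfl
      have h8 : eval (B.σ (g z)).ofLp Q = (g z).2 ^ n * q (g z).2 := by
        rw [← h5]
        conv_lhs => rw [h7]
      rw [h8, h6]
      obtain ⟨j, rfl⟩ : ∃ j, K = j + 1 := ⟨K - 1, by omega⟩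
      rw [Nat.add_sub_cancel]
      have h9 : B.zt F z * ((g z).2 * b (g z)) / b (g z) = B.zt F z * (g z).2 := by
        field_simp
      rw [h9]
      ring
  · -- both coordinates are not zero: the orders do not match
    exfalso
    obtain ⟨p, hp, hpl⟩ := np_log hx hx0 hxn
    obtain ⟨l, hl, hll⟩ := np_log hy hy0 hyn
    have h1 : Tendsto (fun z => (z - z₀) * (deriv (fun z => (g z).1) z / (g z).1) * b (g z)) (𝓝[≠] z₀) (𝓝 ((p : ℂ) * b 0)) := by
      have h2 : Tendsto (fun z => b (g z)) (𝓝[≠] z₀) (𝓝 (b 0)) := by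
        have := hbg.continuousAt.tendsto
        rw [hc0] at this
        exact this.mono_left nhdsWithin_le_nhds
      exact hpl.mul h2
    have h2 : Tendsto (fun z => (z - z₀) * (deriv (fun z => (g z).2) z / (g z).2) * (a (g z) * (g z).1 ^ k)) (𝓝[≠] z₀) (𝓝 ((l : ℂ) * (a 0 * 0 ^ k))) := by
      have h2 : Tendsto (fun z => a (g z)) (𝓝[≠] z₀) (𝓝 (a 0)) := by
        have := hag.continuousAt.tendsto
        rw [hc0] at this
        exact this.mono_left nhdsWithin_le_nhds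
      have h3 : Tendsto (fun z => (g z).1 ^ k) (𝓝[≠] z₀) (𝓝 (0 ^ k)) := by
        have h4 : ContinuousAt (fun z => (g z).1 ^ k) z₀ := hx.continuousAt.pow k
        have h5 := h4.tendsto
        rw [show (g z₀).1 ^ k = 0 ^ k by rw [hx0]] at h5
        exact h5.mono_left nhdsWithin_le_nhds
      exact hll.mul (h2.mul h3)
    have h3 : (fun z => (z - z₀) * (deriv (fun z => (g z).1) z / (g z).1) * b (g z)) =ᶠ[𝓝[≠] z₀]
        fun z => (z - z₀) * (deriv (fun z => (g z).2) z / (g z).2) * (a (g z) * (g z).1 ^ k) := by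
      filter_upwards [hxn, hyn, nhdsWithin_le_nhds hode, nhdsWithin_le_nhds hgd] with z h4 h5 h6 h7
      obtain ⟨h8, h9⟩ := h6 (Or.inl h4)
      rw [h7.1, h7.2, h8, h9]
      field_simp
      ring
    have h4 := tendsto_nhds_unique (h1.congr' h3) h2
    rw [zero_pow (by omega : k ≠ 0), mul_zero, mul_zero, mul_eq_zero] at h4
    rcases h4 with h4 | h4
    · have h5 : p = 0 := by exact_mod_cast h4
      omega
    · exact hb0 0 h0cl h4

end Pool.Agent.MQ
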