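import Pool.Agent.MQ.LTSNb
import Pool.Agent.MQ.NodeT
import Pool.Agent.MQ.Ext
import Pool.Agent.MQ.CoordB
import Pool.Agent.MQ.SNodeT1
import Pool.Agent.H14.PP.Poly

/-!
# MQ LocTSN: the mean of `log |ζ'|` near a saddle-node with a convergent weak separatrix

`saddle_T2`: the second clause of `LocalT` at a saddle-node `x ^ (k + 1) a ∂x + y b ∂y`.  The form `R₀` vanishes on `{y = 0}`.
`localT_saddleNode`: both clauses.
-/

set_option autoImplicit false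

open Topology Filter Metric MvPolynomial Asymptotics MeasureTheory

noncomputable section

namespace Pool.Agent.MQ

open Pool.Agent.H36.BP (EN fs)
open Pool.Agent.H17EF (coneE)
open Pool.Agent.H14.PP (analyticAt_evalEN eval_smulEN)
open Pool.Agent.H30M (tau rhoR avg continuous_rhoR hcs_rhoR rhoR_nonneg int_rhoR)

variable {M : ℕ} {P : Ideal (MvPolynomial (Fin (M + 1)) ℂ)} {FF : Set (EN M × EN M)}

/-! ## the cut-off function -/

theorem lt_cut {s s' : ℝ} (hs : 0 < s) (h : s < s') : ∃ φ : ℂ × ℂ → ℝ, ContDiff ℝ 1 φ ∧ (∀ q, 0 ≤ φ q ∧ φ q ≤ 1) ∧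
    (∀ q, ‖q‖ ≤ s → φ q = 1) ∧ ∀ q, s' ≤ ‖q‖ → φ q = 0 := by
  let ψ : ContDiffBump (0 : ℂ) := ⟨s, s', hs, h⟩
  have h1 : ∀ w : ℂ, ‖w‖ ≤ s → ψ w = 1 := fun w hw => ψ.one_of_mem_closedBall (mem_closedBall_zero_iff.2 hw)
  have h2 : ∀ w : ℂ, s' ≤ ‖w‖ → ψ w = 0 := fun w hw => ψ.zero_of_le_dist (by rwa [dist_zero_right])
  refine ⟨fun q => ψ q.1 * ψ q.2, (ψ.contDiff.comp contDiff_fst).mul (ψ.contDiff.comp contDiff_snd),
    fun q => ⟨mul_nonneg ψ.nonneg ψ.nonneg, mul_le_one₀ ψ.le_one ψ.nonneg ψ.le_one⟩, fun q hq => ?_, fun q hq => ?_⟩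
  · show ψ q.1 * ψ q.2 = 1
    rw [h1 _ ((norm_fst_le q).trans hq), h1 _ ((norm_snd_le q).trans hq), mul_one]
  · show ψ q.1 * ψ q.2 = 0
    rw [Prod.norm_def] at hq
    rcases le_max_iff.1 hq with h3 | h3
    · rw [h2 _ h3, zero_mul]
    · rw [h2 _ h3, mul_zero]

/-- a bound on the closed polydisc -/
theorem lt_bd {r : ℝ} {f : ℂ × ℂ → ℂ} (hf : ContinuousOn f (closedBall 0 r)) : ∃ C : ℝ, 0 < C ∧ ∀ p ∈ closedBall (0 : ℂ × ℂ) r, ‖f p‖ ≤ C := by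
  obtain ⟨C, hC⟩ := (isCompact_closedBall (0 : ℂ × ℂ) r).bddAbove_image hf.norm
  exact ⟨max C 1, lt_of_lt_of_le one_pos (le_max_right _ _), fun p hp => (hC ⟨p, hp, rfl⟩).trans (le_max_left _ _)⟩

/-- `‖y'‖ ≤ C λ ‖y‖` off the center -/
theorem lt_dy (B : GBox P FF) {a b : ℂ × ℂ → ℂ} {k : ℕ} (ha : AnalyticOnNhd ℂ a (closedBall 0 B.r))
    (hb : AnalyticOnNhd ℂ b (closedBall 0 B.r)) (ha0 : ∀ p ∈ closedBall (0 : ℂ × ℂ) B.r, a p ≠ 0)
    (h : ∀ p, B.v p = (p.1 ^ (k + 1) * a p, p.2 * b p)) {s : ℝ} (hs : 0 < s) :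
    ∃ C : ℝ, 0 < C ∧ ∀ F : ℂ → EN M, Crv P FF F → ∀ z ∈ B.Om F, s ≤ ‖B.cc F z‖ → ‖(deriv (B.cc F) z).2‖ ≤ C * lam F z * ‖(B.cc F z).2‖ := by
  obtain ⟨ca, hca, hal⟩ := nt_lower B.pos ha ha0
  obtain ⟨Cb, hCb, hbu⟩ := lt_bd hb.continuousOn
  obtain ⟨C₁, hC₁, hl⟩ := lam_cc B
  refine ⟨C₁ / s + Cb * C₁ / (s ^ (k + 1) * ca), by positivity, fun F hF z hz hsz => ?_⟩
  have hlam := kk_lam_nonneg F z
  obtain ⟨-, hbl, -⟩ := cc_lift B hF.diff hF.mem hz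
  have hpc := ball_subset_closedBall hbl
  have hd := (hl F hF.diff hF.mem z hz).1
  set p := B.cc F z with hp
  set w := deriv (B.cc F) z with hw
  have hy0 : 0 ≤ ‖p.2‖ := norm_nonneg _
  have e1 : 0 ≤ C₁ / s * (lam F z * ‖p.2‖) := by positivity
  have e2 : 0 ≤ Cb * C₁ / (s ^ (k + 1) * ca) * (lam F z * ‖p.2‖) := by positivity
  have e3 : (C₁ / s + Cb * C₁ / (s ^ (k + 1) * ca)) * lam F z * ‖p.2‖ = C₁ / s * (lam F z * ‖p.2‖) + Cb * C₁ / (s ^ (k + 1) * ca) * (lam F z * ‖p.2‖) := by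
    ring
  rw [e3]
  rcases le_max_iff.1 (by rwa [Prod.norm_def] at hsz : s ≤ max ‖p.1‖ ‖p.2‖) with h1 | h1
  · -- `|x| ≥ s`
    have hom := (deriv_cc B hF hz).1
    unfold GBox.om at hom
    rw [← hp, ← hw, h] at hom
    simp only at hom
    have h2 : ‖p.1‖ ^ (k + 1) * ‖a p‖ * ‖w.2‖ = ‖p.2‖ * ‖b p‖ * ‖w.1‖ := by
      have := congrArg norm (sub_eq_zero.1 hom)
      simpa [norm_mul, norm_pow] using this
    have h3 : s ^ (k + 1) * ca * ‖w.2‖ ≤ ‖p.2‖ * Cb * (C₁ * lam F z) := by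
      calc s ^ (k + 1) * ca * ‖w.2‖ ≤ ‖p.1‖ ^ (k + 1) * ‖a p‖ * ‖w.2‖ :=
            mul_le_mul_of_nonneg_right (mul_le_mul (pow_le_pow_left₀ hs.le h1 _) (hal p hpc) hca.le (by positivity)) (norm_nonneg _)
        _ = ‖p.2‖ * ‖b p‖ * ‖w.1‖ := h2
        _ ≤ ‖p.2‖ * Cb * (C₁ * lam F z) := mul_le_mul (mul_le_mul_of_nonneg_left (hbu p hpc) hy0) ((norm_fst_le w).trans hd) (norm_nonneg _) (by positivity)
    have h4 : ‖w.2‖ ≤ Cb * C₁ / (s ^ (k + 1) * ca) * (lam F z * ‖p.2‖) := by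
      rw [div_mul_eq_mul_div, le_div_iff₀ (by positivity)]
      linarith
    linarith
  · -- `|y| ≥ s`
    have h4 : ‖w.2‖ ≤ C₁ / s * (lam F z * ‖p.2‖) := by
      rw [div_mul_eq_mul_div, le_div_iff₀ hs]
      have h5 : ‖w.2‖ ≤ C₁ * lam F z := (norm_snd_le w).trans hd
      have h6 : 0 ≤ C₁ * lam F z := by positivity
      calc ‖w.2‖ * s ≤ C₁ * lam F z * s := mul_le_mul_of_nonneg_right h5 hs.le
        _ ≤ C₁ * lam F z * ‖p.2‖ := mul_le_mul_of_nonneg_left h1 h6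
        _ = _ := by ring
    linarith

/-- a form which vanishes on `{y = 0}` is at most `C |y|` in the box -/
theorem lt_form (B : GBox P FF) {R₀ : MvPolynomial (Fin (M + 1)) ℂ} {d₀ : ℕ} (hR₀ : R₀.IsHomogeneous d₀)
    (hyR : ∀ p ∈ ball (0 : ℂ × ℂ) B.r, p.2 = 0 → eval (B.σ p).ofLp R₀ = 0) : ∃ C : ℝ, 0 < C ∧ ∀ F : ℂ → EN M, Differentiable ℂ F →
      (∀ z, F z ∈ coneE P) → ∀ z ∈ B.Om F, ‖eval (F z).ofLp R₀‖ ≤ C * ‖(B.cc F z).2‖ * ‖F z‖ ^ d₀ := by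
  have hG : AnalyticOnNhd ℂ (fun p => eval (B.σ p).ofLp R₀) (closedBall 0 B.r) := fun p hp =>
    (analyticAt_evalEN R₀ (B.σ p)).comp (B.σ_an p hp)
  have hK : IsCompact (closedBall (0 : ℂ × ℂ) B.r) := isCompact_closedBall 0 B.r
  have hfd : ContinuousOn (fun p => ‖fderiv ℂ (fun p => eval (B.σ p).ofLp R₀) p‖) (closedBall 0 B.r) := fun p hp =>
    (hG p hp).fderiv.continuousAt.continuousWithinAt.norm
  obtain ⟨L, hL⟩ := hK.bddAbove_image hfd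
  have hLb : ∀ p ∈ closedBall (0 : ℂ × ℂ) B.r, ‖fderiv ℂ (fun p => eval (B.σ p).ofLp R₀) p‖ ≤ max L 1 := fun p hp => (hL ⟨p, hp, rfl⟩).trans (le_max_left _ _)
  have hL1 : 0 < max L 1 := lt_of_lt_of_le one_pos (le_max_right _ _)
  obtain ⟨p₀, hp₀, hmin⟩ := hK.exists_isMinOn ⟨0, mem_closedBall_self B.pos.le⟩ (B.σ_an.continuousOn.norm)
  set m := ‖B.σ p₀‖ with hm
  have hmp : 0 < m := norm_pos_iff.2 (cone_ne (B.mem p₀ hp₀))
  refine ⟨max L 1 / m ^ d₀, by positivity, fun F hF hmem z hz => ?_⟩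
  obtain ⟨-, hbl, c, -, -, hev⟩ := cc_lift B hF hmem hz
  have hFz := hev.self_of_nhds
  have hpc := ball_subset_closedBall hbl
  set p := B.cc F z with hp
  have hq : ((p.1, 0) : ℂ × ℂ) ∈ ball (0 : ℂ × ℂ) B.r := by
    rw [mem_ball_zero_iff, Prod.norm_def] at hbl ⊢
    simp only [norm_zero]
    exact lt_of_le_of_lt (max_le (le_max_left _ _) ((norm_nonneg _).trans (le_max_right _ _))) hbl
  have h1 := (convex_closedBall (0 : ℂ × ℂ) B.r).norm_image_sub_le_of_norm_fderiv_le (𝕜 := ℂ) (f := fun p => eval (B.σ p).ofLp R₀)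
    (fun x hx => (hG x hx).differentiableAt) hLb (ball_subset_closedBall hq) hpc
  rw [hyR _ hq rfl, sub_zero] at h1
  have h2 : ‖p - (p.1, 0)‖ = ‖p.2‖ := by
    rw [Prod.norm_def]
    simp
  rw [h2] at h1
  have h3 : m * ‖c z‖ ≤ ‖F z‖ := by
    rw [hFz, norm_smul, mul_comm]
    exact mul_le_mul_of_nonneg_left (hmin hpc) (norm_nonneg _)
  rw [hFz, eval_smulEN hR₀, norm_mul, norm_pow, ← hFz]
  have h4 : (m * ‖c z‖) ^ d₀ ≤ ‖F z‖ ^ d₀ := pow_le_pow_left₀ (by positivity) h3 _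
  rw [mul_pow] at h4
  have h5 : 0 < m ^ d₀ := by positivity
  calc ‖c z‖ ^ d₀ * ‖eval (B.σ p).ofLp R₀‖ ≤ ‖c z‖ ^ d₀ * (max L 1 * ‖p.2‖) := mul_le_mul_of_nonneg_left h1 (by positivity)
    _ = max L 1 / m ^ d₀ * ‖p.2‖ * (m ^ d₀ * ‖c z‖ ^ d₀) := by
        field_simp
    _ ≤ max L 1 / m ^ d₀ * ‖p.2‖ * ‖F z‖ ^ d₀ := mul_le_mul_of_nonneg_left h4 (by positivity)

/-- **LocalT at a saddle-node, second clause** -/
theorem saddle_T2 (B : GBox P FF) {a b : ℂ × ℂ → ℂ} {k : ℕ} (ha : AnalyticOnNhd ℂ a (closedBall 0 B.r))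
    (hb : AnalyticOnNhd ℂ b (closedBall 0 B.r)) (ha0 : ∀ p ∈ closedBall (0 : ℂ × ℂ) B.r, a p ≠ 0)
    (hb0 : ∀ p ∈ closedBall (0 : ℂ × ℂ) B.r, b p ≠ 0) (h : ∀ p, B.v p = (p.1 ^ (k + 1) * a p, p.2 * b p))
    {R₀ : MvPolynomial (Fin (M + 1)) ℂ} {d₀ : ℕ} (hR₀ : R₀.IsHomogeneous d₀)
    (hyR : ∀ p ∈ ball (0 : ℂ × ℂ) B.r, p.2 = 0 → eval (B.σ p).ofLp R₀ = 0)
    {Q : MvPolynomial (Fin (M + 1)) ℂ} {d : ℕ} (hQ : Q.IsHomogeneous d) (K n : ℕ)
    {F : ℂ → EN M} (hF : Crv P FF F) (hQF : ∃ z, eval (F z).ofLp Q ≠ 0) (hR₀F : ∃ z, eval (F z).ofLp R₀ ≠ 0)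
    {s : ℝ} (hs : 0 < s) (hs' : s < B.r) {δ : ℝ} (hδ : 0 ≤ δ) :
    ∃ C : ℝ, 0 ≤ C ∧ ∀ R, 1 ≤ R →
      ∫ z in B.Om F ∩ {z | B.cc F z ∈ ball (0 : ℂ × ℂ) s}, rhoR R z *
        max 0 (Real.log ‖B.zt F z‖ + K / n * (Real.log ‖eval (F z).ofLp Q‖ - d * Real.log ‖F z‖)) ≤ δ * En F R + C * Real.log (1 + En F R) + C := by
  have hne : ∀ z, F z ≠ 0 := fun z => cone_ne (hF.mem z)
  obtain ⟨A, hA⟩ := crv_En hF
  obtain ⟨C₁, hC₁, hl⟩ := lam_cc B
  obtain ⟨C₂, hC₂, hdy⟩ := lt_dy B ha hb ha0 h hs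
  obtain ⟨C₃, hC₃, hRy⟩ := lt_form B hR₀ hyR
  obtain ⟨C₄, hC₄1, hR₀u⟩ := nt_form_le hR₀
  obtain ⟨C₅, hC₅1, hQu⟩ := nt_form_le hQ
  obtain ⟨cb, hcb, hbl⟩ := nt_lower B.pos hb hb0
  -- the cut-off function
  set s' : ℝ := (s + B.r) / 2 with hs'def
  have hss' : s < s' := by rw [hs'def]; linarith
  have hs'r : s' < B.r := by rw [hs'def]; linarith
  obtain ⟨φ, hφ, hφ01, hφ1, hφ0⟩ := lt_cut hs hss'
  set U := B.Om F with hU
  set p := B.cc F with hp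
  have hUo : IsOpen U := isOpen_Om B hF.diff hF.mem
  have hpan : ∀ z ∈ U, AnalyticAt ℂ p z := fun z hz => (cc_lift B hF.diff hF.mem hz).1
  have hpb : ∀ z ∈ U, p z ∈ ball (0 : ℂ × ℂ) B.r := fun z hz => (cc_lift B hF.diff hF.mem hz).2.1
  have hcl : IsClosed {z | z ∈ U ∧ ‖p z‖ ≤ s'} := by
    have := isClosed_cc B hF.diff hF.mem hs'r
    simpa only [mem_closedBall_zero_iff] using this
  have hφ0' : ∀ q, s' < ‖q‖ → φ q = 0 := fun q hq => hφ0 q hq.le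
  obtain ⟨Cχ, hCχ, hgr⟩ := exists_gr_ext_le hφ.contDiffOn hs'r hφ0'
  have hgr' := hgr hUo hpan hpb hcl
  set χ := ext U p φ with hχ
  have hχC : ContDiff ℝ 1 χ := ext_contDiff hUo hpan hpb hcl hφ.contDiffOn hφ0'
  have hχ01 : ∀ z, 0 ≤ χ z ∧ χ z ≤ 1 := by
    intro z
    by_cases hz : z ∈ U
    · rw [hχ, ext_of_mem hz]
      exact hφ01 _
    · rw [hχ, ext_of_notMem hz]
      exact ⟨le_rfl, zero_le_one⟩
  have hts : ∀ z ∈ tsupport χ, z ∈ U ∧ ‖p z‖ ≤ s' := by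
    have h1 : Function.support χ ⊆ {z | z ∈ U ∧ ‖p z‖ ≤ s'} := by
      intro z hz
      by_contra hcon
      exact hz ((ext_ev_out hcl hφ0' hcon).self_of_nhds)
    exact fun z hz => closure_minimal h1 hcl hz
  -- the function `y`
  set y : ℂ → ℂ := fun z => (p z).2 with hy
  have hyd : ∀ z ∈ U, deriv y z = (deriv p z).2 := by
    intro z hz
    have h1 := ((ContinuousLinearMap.snd ℂ ℂ ℂ).hasFDerivAt (x := p z)).comp_hasDerivAt z (hpan z hz).differentiableAt.hasDerivAt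
    exact h1.deriv
  have hya : ∀ z ∈ tsupport χ, AnalyticAt ℂ y z := fun z hz => ((ContinuousLinearMap.snd ℂ ℂ ℂ).analyticAt (p z)).comp (hpan z (hts z hz).1)
  set C : ℝ := Cχ * C₁ + C₂ + C₁ with hC
  have hC0 : 0 ≤ C := by positivity
  have hlam := kk_lam_nonneg F
  have hg : ∀ z, ‖gr χ z‖ ≤ C * lam F z := by
    intro z
    refine (hgr' z).trans ?_
    by_cases hz : z ∈ U
    · rw [Set.indicator_of_mem hz]
      calc Cχ * ‖deriv p z‖ ≤ Cχ * (C₁ * lam F z) := mul_le_mul_of_nonneg_left (hl F hF.diff hF.mem z hz).1 hCχ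
        _ = Cχ * C₁ * lam F z := by ring
        _ ≤ C * lam F z := mul_le_mul_of_nonneg_right (by rw [hC]; linarith) (hlam z)
    · rw [Set.indicator_of_notMem hz, mul_zero]
      exact mul_nonneg hC0 (hlam z)
  have hg2 : ∀ z ∈ tsupport χ, gr χ z ≠ 0 → ‖deriv y z‖ ≤ C * lam F z * ‖y z‖ := by
    intro z hz hgz
    have hzU := (hts z hz).1
    have h1 : s ≤ ‖p z‖ := by
      by_contra hcon
      push Not at hcon
      refine hgz ?_
      have h2 : χ =ᶠ[𝓝 z] fun _ => 1 := by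
        have h3 : ∀ᶠ w in 𝓝 z, ‖p w‖ < s := (hpan z hzU).continuousAt.norm.eventually (gt_mem_nhds hcon)
        filter_upwards [h3, hUo.mem_nhds hzU] with w hw hwU
        rw [hχ, ext_of_mem hwU]
        exact hφ1 _ hw.le
      rw [gr_congr h2]
      exact gr_const 1 z
    rw [hyd z hzU]
    refine (hdy F hF z hzU h1).trans ?_
    refine mul_le_mul_of_nonneg_right (mul_le_mul_of_nonneg_right ?_ (hlam z)) (norm_nonneg _)
    rw [hC]
    nlinarith [mul_nonneg hCχ hC₁.le]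
  have hy' : ∀ z ∈ tsupport χ, ‖deriv y z‖ ≤ C * lam F z := by
    intro z hz
    have hzU := (hts z hz).1
    rw [hyd z hzU]
    refine ((norm_snd_le _).trans (hl F hF.diff hF.mem z hzU).1).trans (mul_le_mul_of_nonneg_right ?_ (hlam z))
    rw [hC]
    nlinarith [mul_nonneg hCχ hC₁.le]
  have hN : ∀ z ∈ tsupport χ, ‖y z‖ ^ 2 + 1 ≤ B.r ^ 2 + 1 := by
    intro z hz
    have h1 : ‖y z‖ ≤ B.r := (norm_snd_le _).trans (mem_ball_zero_iff.1 (hpb z (hts z hz).1)).le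
    have := pow_le_pow_left₀ (norm_nonneg _) h1 2
    linarith
  -- the form
  have hC₄0 : 0 < C₄ := by linarith
  set g₀ : ℂ → ℂ := fun z => ((C₄⁻¹ : ℝ) : ℂ) * eval (F z).ofLp R₀ with hg₀
  have hg₀d : Differentiable ℂ g₀ := (differentiable_const _).mul (nt_form_diff R₀ hF.diff)
  have hg₀n : ∀ z, ‖g₀ z‖ = C₄⁻¹ * ‖eval (F z).ofLp R₀‖ := by
    intro z
    rw [hg₀]
    simp only
    rw [norm_mul, Complex.norm_real, Real.norm_of_nonneg (by positivity)]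
  have hg₀0 : ∃ z, g₀ z ≠ 0 := by
    obtain ⟨z, hz⟩ := hR₀F
    refine ⟨z, ?_⟩
    rw [← norm_ne_zero_iff, hg₀n]
    have := norm_pos_iff.2 hz
    positivity
  have hgF : ∀ z, ‖g₀ z‖ ≤ ‖F z‖ ^ d₀ := by
    intro z
    rw [hg₀n]
    calc C₄⁻¹ * ‖eval (F z).ofLp R₀‖ ≤ C₄⁻¹ * (C₄ * ‖F z‖ ^ d₀) := mul_le_mul_of_nonneg_left (hR₀u _) (by positivity)
      _ = ‖F z‖ ^ d₀ := by field_simp
  have hgy : ∀ z ∈ tsupport χ, ‖g₀ z‖ ≤ C₃ * ‖y z‖ * ‖F z‖ ^ d₀ := by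
    intro z hz
    rw [hg₀n]
    have h1 := hRy F hF.diff hF.mem z (hts z hz).1
    have h2 : C₄⁻¹ ≤ 1 := inv_le_one_of_one_le₀ hC₄1
    calc C₄⁻¹ * ‖eval (F z).ofLp R₀‖ ≤ 1 * ‖eval (F z).ofLp R₀‖ := mul_le_mul_of_nonneg_right h2 (norm_nonneg _)
      _ ≤ _ := by rw [one_mul]; exact h1
  -- the set
  set S := U ∩ {z | p z ∈ ball (0 : ℂ × ℂ) s} with hSd
  have hSm : MeasurableSet S := by
    have h1 : ContinuousOn p U := fun z hz => (hpan z hz).continuousAt.continuousWithinAt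
    exact (h1.isOpen_inter_preimage hUo isOpen_ball).measurableSet
  have hS1 : ∀ z ∈ S, χ z = 1 := by
    intro z hz
    rw [hχ, ext_of_mem hz.1]
    exact hφ1 _ (mem_ball_zero_iff.1 hz.2).le
  obtain ⟨C', hC'0, hlog⟩ := ts_log hF.diff hne hA hg₀d hg₀0 hgF hχC hχ01 hya hN hC0 hg hg2 hy' hC₃ hgy hSm hS1
  -- the constant
  have hpi := Real.pi_pos
  have hlC₅ : 0 ≤ Real.log C₅ := Real.log_nonneg hC₅1
  have hKn : (0 : ℝ) ≤ K / n := by positivity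
  set C₆ : ℝ := |Real.log cb| + K / n * Real.log C₅ with hC₆
  have hC₆0 : 0 ≤ C₆ := by positivity
  refine ⟨2 * Real.pi * C₆ + C', by positivity, fun R hR => ?_⟩
  obtain ⟨hi, hle⟩ := hlog R hR
  set Λ : ℂ → ℝ := fun z => Real.log (1 + (‖deriv y z‖ / ‖y z‖) ^ 2) with hΛ
  have hΛ0 : ∀ z, 0 ≤ Λ z := fun z => Real.log_nonneg (by nlinarith [sq_nonneg (‖deriv y z‖ / ‖y z‖)])
  have hi1 : Integrable (rhoR R) := (continuous_rhoR R).integrable_of_hasCompactSupport (hcs_rhoR hR)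
  have hi2 : Integrable (S.indicator fun z => rhoR R z * Λ z) := (integrable_indicator_iff hSm).2 hi
  have hind : ∀ z, rhoR R z * (C₆ + S.indicator (fun z => 1 / 2 * Λ z) z) = rhoR R z * C₆ + 1 / 2 * S.indicator (fun z => rhoR R z * Λ z) z := by
    intro z
    by_cases hz : z ∈ S
    · rw [Set.indicator_of_mem hz, Set.indicator_of_mem hz]
      ring
    · rw [Set.indicator_of_notMem hz, Set.indicator_of_notMem hz]
      ring
  have hwi : Integrable fun z => rhoR R z * (C₆ + S.indicator (fun z => 1 / 2 * Λ z) z) :=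
    ((hi1.mul_const C₆).add (hi2.const_mul (1 / 2))).congr (Eventually.of_forall fun z => (hind z).symm)
  have hb1 := loc_int (S := S) hSm
    (f := fun z => Real.log ‖B.zt F z‖ + K / n * (Real.log ‖eval (F z).ofLp Q‖ - d * Real.log ‖F z‖)) hwi
    (fun z => by
      have h1 : 0 ≤ S.indicator (fun z => 1 / 2 * Λ z) z := Set.indicator_nonneg (fun z _ => by have := hΛ0 z; positivity) z
      linarith)
    (by
      filter_upwards [nt_ae_ne (nt_form_diff Q hF.diff) hQF, nt_ae_ne (nt_form_diff R₀ hF.diff) hR₀F] with z hz hzR hzS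
      have hzU := hzS.1
      have hpc := ball_subset_closedBall (hpb z hzU)
      rw [Set.indicator_of_mem hzS]
      have h3 := mul_le_mul_of_nonneg_left (nt_log_form hC₅1 hQu (hne z) hz) hKn
      -- `y ≠ 0`
      have hyz : (p z).2 ≠ 0 := by
        intro h0
        have h4 := hRy F hF.diff hF.mem z hzU
        rw [h0, norm_zero, mul_zero, zero_mul] at h4
        exact hzR (norm_le_zero_iff.1 h4)
      have hv2 : (B.v (p z)).2 ≠ 0 := by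
        rw [h]
        exact mul_ne_zero hyz (hb0 _ hpc)
      have hzt : B.zt F z = (deriv p z).2 / ((p z).2 * b (p z)) := by
        unfold GBox.zt
        rw [if_neg hv2, h]
      have h5 : Real.log ‖B.zt F z‖ ≤ |Real.log cb| + 1 / 2 * Λ z := by
        rcases eq_or_ne (deriv p z).2 0 with h6 | h6
        · rw [hzt, h6, zero_div, norm_zero, Real.log_zero]
          have := hΛ0 z
          positivity
        · have hyp : 0 < ‖(p z).2‖ := norm_pos_iff.2 hyz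
          have hdp : 0 < ‖(deriv p z).2‖ := norm_pos_iff.2 h6
          have hbp : 0 < ‖b (p z)‖ := lt_of_lt_of_le hcb (hbl _ hpc)
          have h7 : ‖B.zt F z‖ = ‖(deriv p z).2‖ / ‖(p z).2‖ / ‖b (p z)‖ := by
            rw [hzt, norm_div, norm_mul, div_mul_eq_div_div]
          rw [h7, Real.log_div (by positivity) (by positivity)]
          have h8 : Real.log cb ≤ Real.log ‖b (p z)‖ := Real.log_le_log hcb (hbl _ hpc)
          have h9 : Real.log (‖(deriv p z).2‖ / ‖(p z).2‖) ≤ 1 / 2 * Λ z := by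
            have h10 : Real.log ((‖(deriv p z).2‖ / ‖(p z).2‖) ^ 2) ≤ Real.log (1 + (‖(deriv p z).2‖ / ‖(p z).2‖) ^ 2) :=
              Real.log_le_log (by positivity) (by linarith)
            rw [Real.log_pow] at h10
            have h11 : Λ z = Real.log (1 + (‖(deriv p z).2‖ / ‖(p z).2‖) ^ 2) := by
              rw [hΛ]
              simp only
              rw [hyd z hzU]
            rw [h11]
            push_cast at h10
            linarith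
          have := neg_abs_le (Real.log cb)
          linarith
      rw [hC₆]
      linarith)
  have h4 : avg R (fun z => C₆ + S.indicator (fun z => 1 / 2 * Λ z) z) = 2 * Real.pi * C₆ + 1 / 2 * ∫ z in S, rhoR R z * Λ z := by
    unfold avg
    rw [integral_congr_ae (Eventually.of_forall hind), integral_add (hi1.mul_const _) (hi2.const_mul _), integral_mul_const, int_rhoR hR,
      integral_const_mul, integral_indicator hSm]
  have hE : 0 ≤ En F R := by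
    rw [← kI_eq_En]
    exact kI_nonneg F hR
  have hlE : 0 ≤ Real.log (1 + En F R) := Real.log_nonneg (by linarith)
  have h5 : 0 ≤ δ * En F R := mul_nonneg hδ hE
  have h6 : 0 ≤ 2 * Real.pi * C₆ * Real.log (1 + En F R) := by positivity
  have h7 : 0 ≤ C' * Real.log (1 + En F R) := mul_nonneg hC'0 hlE
  rw [h4] at hb1
  refine hb1.trans ?_
  have h8 : (2 * Real.pi * C₆ + C') * Real.log (1 + En F R) = 2 * Real.pi * C₆ * Real.log (1 + En F R) + C' * Real.log (1 + En F R) := by ring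
  rw [h8]
  linarith

/-- **LocalT at a saddle-node** -/
theorem localT_saddleNode (B : GBox P FF) {a b : ℂ × ℂ → ℂ} {k : ℕ} (hk : 1 ≤ k) (ha : AnalyticOnNhd ℂ a (closedBall 0 B.r))
    (hb : AnalyticOnNhd ℂ b (closedBall 0 B.r)) (ha0 : ∀ p ∈ closedBall (0 : ℂ × ℂ) B.r, a p ≠ 0)
    (hb0 : ∀ p ∈ closedBall (0 : ℂ × ℂ) B.r, b p ≠ 0) (h : ∀ p, B.v p = (p.1 ^ (k + 1) * a p, p.2 * b p))
    {R₀ : MvPolynomial (Fin (M + 1)) ℂ} {d₀ : ℕ} (hR₀ : R₀.IsHomogeneous d₀)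
    (hyR : ∀ p ∈ ball (0 : ℂ × ℂ) B.r, p.2 = 0 → eval (B.σ p).ofLp R₀ = 0)
    {Q : MvPolynomial (Fin (M + 1)) ℂ} {d n K : ℕ} (hQ : Q.IsHomogeneous d) (hK : 1 ≤ K)
    (hc : (fun t => eval (B.σ (0, t)).ofLp Q) =O[𝓝 0] fun t : ℂ => t ^ n)
    {F : ℂ → EN M} (hF : Crv P FF F) (hQF : ∃ z, eval (F z).ofLp Q ≠ 0) (hR₀F : ∃ z, eval (F z).ofLp R₀ ≠ 0)
    {s : ℝ} (hs : 0 < s) (hs' : s < B.r) {δ : ℝ} (hδ : 0 ≤ δ) : LocalT B F Q d K n s δ :=
  ⟨saddle_T1 B hk ha hb ha0 hb0 h hR₀ hyR hK hc hF hR₀F, saddle_T2 B ha hb ha0 hb0 h hR₀ hyR hQ K n hF hQF hR₀F hs hs' hδ⟩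

end Pool.Agent.MQ
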