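import Pool.Agent.MQ.GeoDefs

/-!
# MQ PDefs: the statement of the local package at a singular box
-/

set_option autoImplicit false

open Topology Filter Metric MvPolynomial Asymptotics

noncomputable section

namespace Pool.Agent.MQ

open Pool.Agent.H36.BP (EN)
open Pool.Agent.H17EF (coneE)

variable {M : ℕ} {P : Ideal (MvPolynomial (Fin (M + 1)) ℂ)} {FF : Set (EN M × EN M)}

/-- The statement of the local package at a singular box: there are germs of curves `c n l` such that a form `Q` with contact of order `n` with them gives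
`LocalN` and `LocalT` with the constant `C₀ d / n`.  `R₀` is a form which vanishes on `{g = 0}`. -/
def Package (B : GBox P FF) (g : ℂ × ℂ → ℂ) (R₀ : MvPolynomial (Fin (M + 1)) ℂ) : Prop :=
  ∃ (r K₀ : ℕ) (c : ℕ → Fin r → ℂ → EN M) (C₀ : ℝ), 0 ≤ C₀ ∧ (∀ n l, AnalyticAt ℂ (c n l) 0 ∧ ∀ᶠ t in 𝓝 (0 : ℂ), c n l t ∈ coneE P) ∧
    ∀ (Q : MvPolynomial (Fin (M + 1)) ℂ) (d n K : ℕ), Q.IsHomogeneous d → Q ∉ P → 1 ≤ n → K₀ ≤ K →
      (∀ l, (fun t => eval (c n l t).ofLp Q) =O[𝓝 0] fun t : ℂ => t ^ n) →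
      ∀ F : ℂ → EN M, Crv P FF F → (∃ z, eval (F z).ofLp Q ≠ 0) → (∃ z, eval (F z).ofLp R₀ ≠ 0) → (∀ z ∈ B.Om F, B.cc F z ≠ 0 → g (B.cc F z) ≠ 0) →
        ∀ s, 0 < s → s < B.r → LocalN B g F s (C₀ * d / n) ∧ LocalT B F Q d K n s (C₀ * d / n)

end Pool.Agent.MQ
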