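import Pool.Agent.MQ.SNLocN
import Pool.Agent.MQ.FrameB
import Pool.Agent.MQ.PDefs
import Pool.Agent.MQ.LocTSN

/-!
# MQ SNPack: the package of a saddle-node whose weak separatrix is in the invariant curve

The germ is the strong separatrix; no contact is needed for the normal bundle half.
-/

set_option autoImplicit false

open Topology Filter Metric MvPolynomial Asymptotics

noncomputable section

namespace Pool.Agent.MQ

open Pool.Agent.H36.BP (EN)
open Pool.Agent.H17EF (coneE)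

variable {M : ℕ} {P : Ideal (MvPolynomial (Fin (M + 1)) ℂ)} {FF : Set (EN M × EN M)}

/-- **The package of a saddle-node whose weak separatrix is in the invariant curve.** -/
theorem package_saddleNode (_hP : P.IsPrime) (B : GBox P FF) {g a b g₁ : ℂ × ℂ → ℂ} {k : ℕ} (hk : 1 ≤ k) (ha : AnalyticOnNhd ℂ a (closedBall 0 B.r))
    (hb : AnalyticOnNhd ℂ b (closedBall 0 B.r)) (ha0 : ∀ p ∈ closedBall (0 : ℂ × ℂ) B.r, a p ≠ 0)
    (hb0 : ∀ p ∈ closedBall (0 : ℂ × ℂ) B.r, b p ≠ 0) (h : ∀ p, B.v p = (p.1 ^ (k + 1) * a p, p.2 * b p))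
    (hg : ∀ p, g p = g₁ p * p.2) (h₁ : (∀ p, g₁ p = p.1) ∨ (∀ p, g₁ p = 1) ∧ NonAlg P fun t => B.σ (0, t)) {R₀ : MvPolynomial (Fin (M + 1)) ℂ} {d₀ : ℕ}
    (hR₀ : R₀.IsHomogeneous d₀) (hgR : ∀ p ∈ ball (0 : ℂ × ℂ) B.r, g p = 0 → eval (B.σ p).ofLp R₀ = 0) : Package B g R₀ := by
  have h00 : ((0 : ℂ), (0 : ℂ)) ∈ closedBall (0 : ℂ × ℂ) B.r := mem_closedBall_self B.pos.le
  have hct : Continuous fun t : ℂ => ((0 : ℂ), t) := by fun_prop
  refine ⟨1, 1, fun _ _ t => B.σ (0, t), 1, zero_le_one, fun _ _ => ⟨?_, ?_⟩, ?_⟩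
  · have h2 : AnalyticAt ℂ (fun t : ℂ => ((0 : ℂ), t)) 0 := analyticAt_const.prod analyticAt_id
    exact AnalyticAt.comp (g := B.σ) (B.σ_an _ h00) h2
  · have h2 : ∀ᶠ t in 𝓝 (0 : ℂ), ((0 : ℂ), t) ∈ ball (0 : ℂ × ℂ) B.r :=
      hct.continuousAt.eventually (isOpen_ball.mem_nhds (mem_ball_self B.pos))
    filter_upwards [h2] with t ht
    exact B.mem _ (ball_subset_closedBall ht)
  · intro Q d n K hQ hQP hn hK hc F hF hQF hR0F hgF s hs hs'
    have hd : 1 ≤ d := by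
      by_contra hd
      have hd0 : d = 0 := by omega
      rw [hd0] at hQ
      obtain ⟨z, hz⟩ := hQF
      have h2 := (totalDegree_eq_zero_iff_eq_C.1 (Nat.le_zero.1 hQ.totalDegree_le))
      rw [h2] at hz hc
      simp only [eval_C] at hz
      have h3 := hc 0
      simp only [eval_C] at h3
      obtain ⟨C, hC⟩ := h3.bound
      have h4 := hC.self_of_nhds
      rw [zero_pow (by omega), norm_zero, mul_zero] at h4
      exact hz (norm_le_zero_iff.1 h4)
    have hδ : 0 < (1 : ℝ) * d / n := by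
      have h2 : (0 : ℝ) < d := by exact_mod_cast hd
      have h3 : (0 : ℝ) < n := by exact_mod_cast hn
      positivity
    obtain ⟨CB, -, hCB⟩ := lam_cc B
    refine ⟨?_, ?_⟩
    · exact localN_saddleNode B hk ha hb ha0 hb0 h hg (h₁.imp_right And.left) hF (Crv.one B hF)
        (fun z hz => (hCB F hF.diff hF.mem z hz).1) hgF hs hδ
    · exact localT_saddleNode B hk ha hb ha0 hb0 h hR₀ (fun p hp hp2 => hgR p hp (by rw [hg, hp2, mul_zero])) hQ hK (hc 0) hF hQF hR0F hs hs' hδ.le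

end Pool.Agent.MQ
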