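import Pool.Agent.H14.PP.Poly
import Pool.Agent.H17EF.Count

/-!
# MQ Sieg: forms of degree `d` with contact of order `k d` with finitely many germs of curves
-/

set_option autoImplicit false

open Topology Filter Metric MvPolynomial Asymptotics

noncomputable section

namespace Pool.Agent.MQ

open Pool.Agent.H36.BP (EN)
open Pool.Agent.H14.PP (analyticAt_evalEN)
open Pool.Agent.H17EF (exists_form_of_conditions)
open Pool.Agent.H17LG.Variety (FunField)

variable {N : ℕ}

/-- an analytic germ whose first `n` derivatives vanish is `O (t ^ n)` -/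
theorem isBigO_of_iteratedDeriv {g : ℂ → ℂ} (hg : AnalyticAt ℂ g 0) {n : ℕ} (h : ∀ i < n, iteratedDeriv i g 0 = 0) :
    g =O[𝓝 0] fun t : ℂ => t ^ n := by
  obtain ⟨q, hq, hgq⟩ := (natCast_le_analyticOrderAt hg).1 ((natCast_le_analyticOrderAt_iff_iteratedDeriv_eq_zero hg).2 h)
  have h1 : (fun z : ℂ => (z - 0) ^ n • q z) =O[𝓝 0] fun t : ℂ => t ^ n := by
    have h2 : q =O[𝓝 0] fun _ : ℂ => (1 : ℂ) := hq.continuousAt.isBigO_one ℂ
    have h3 := (isBigO_refl (fun t : ℂ => t ^ n) (𝓝 0)).mul h2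
    simpa [smul_eq_mul] using h3
  exact IsBigO.congr' h1 (hgq.mono fun z hz => hz.symm) (Eventually.of_forall fun _ => rfl)

/-- **Siegel's lemma.** -/
theorem sieg {P : Ideal (MvPolynomial (Fin (N + 1)) ℂ)} [P.IsPrime] {z : Fin 2 → FunField P} (hz : IsTranscendenceBasis ℂ z)
    (hX : ∃ i, (X i : MvPolynomial (Fin (N + 1)) ℂ) ∉ P) {r : ℕ} (c : ℕ → Fin r → ℂ → EN N) (hc : ∀ n i, AnalyticAt ℂ (c n i) 0) (k : ℕ) :
    ∃ (d : ℕ) (Q : MvPolynomial (Fin (N + 1)) ℂ), 1 ≤ d ∧ Q.IsHomogeneous d ∧ Q ∉ P ∧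
      ∀ i, (fun t => eval (c (k * d) i t).ofLp Q) =O[𝓝 0] fun t : ℂ => t ^ (k * d) := by
  obtain ⟨d, hd, hL⟩ := exists_form_of_conditions hz hX (r * k)
  have han : ∀ (Q : MvPolynomial (Fin (N + 1)) ℂ) (n : ℕ) (i : Fin r), AnalyticAt ℂ (fun t => eval (c n i t).ofLp Q) 0 := fun Q n i =>
    (analyticAt_evalEN Q (c n i 0)).fun_comp (hc n i)
  let e : Fin (r * k * d) ≃ Fin r × Fin (k * d) := (finCongr (mul_assoc r k d)).trans finProdFinEquiv.symm
  let L : MvPolynomial (Fin (N + 1)) ℂ →ₗ[ℂ] (Fin (r * k * d) → ℂ) :=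
    { toFun := fun Q t => iteratedDeriv ((e t).2 : ℕ) (fun z => eval (c (k * d) (e t).1 z).ofLp Q) 0
      map_add' := by
        intro Q R
        funext t
        have e1 : (fun z => eval (c (k * d) (e t).1 z).ofLp (Q + R)) =
            (fun z => eval (c (k * d) (e t).1 z).ofLp Q) + fun z => eval (c (k * d) (e t).1 z).ofLp R := by
          funext z; simp
        rw [e1, iteratedDeriv_add (han Q _ _).contDiffAt (han R _ _).contDiffAt]
        rfl
      map_smul' := by
        intro a Q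
        funext t
        have e1 : (fun z => eval (c (k * d) (e t).1 z).ofLp (a • Q)) = a • fun z => eval (c (k * d) (e t).1 z).ofLp Q := by
          funext z; simp [MvPolynomial.smul_eval]
        rw [e1, iteratedDeriv_const_smul (han Q _ _).contDiffAt]
        rfl }
  obtain ⟨Q, hQ, hQP, hLQ⟩ := hL L
  refine ⟨d, Q, hd, hQ, hQP, fun i => isBigO_of_iteratedDeriv (han Q _ i) fun n hn => ?_⟩
  have h1 := congrFun hLQ (e.symm (i, ⟨n, hn⟩))
  simpa [L] using h1

end Pool.Agent.MQ
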