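import Pool.Agent.MQ.GeoDefs
import Pool.Agent.MQ.MLog

/-!
# MQ Spd: the averages of `log⁺ lam`
-/

set_option autoImplicit false

open Topology Filter Metric MvPolynomial Asymptotics MeasureTheory Laplacian

noncomputable section

namespace Pool.Agent.MQ

open Pool.Agent.H36.BP (EN fs)
open Pool.Agent.H17EF (projVar coneE)
open Pool.Agent.H30M (tau avg rhoR LogSing rhoR_nonneg)

variable {M : ℕ} {P : Ideal (MvPolynomial (Fin (M + 1)) ℂ)} {FF : Set (EN M × EN M)}

/-- the average of the square of the length of a curve of order two is bounded -/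
theorem exists_avg_lam_sq_bdd {F : ℂ → EN M} (hF : Differentiable ℂ F) (h0 : ∀ z, F z ≠ 0) {A : ℝ}
    (hA : ∀ r : ℝ, 0 < r → Real.circleAverage (fun z => Real.log ‖F z‖) 0 r ≤ A * (1 + r ^ 2)) :
    ∃ C : ℝ, ∀ R, 1 ≤ R → avg R (fun z => lam F z ^ 2) ≤ C := by
  obtain ⟨B, hB⟩ := ord hF h0 hA
  obtain ⟨K, hK0, hK⟩ := exists_avg_lam_sq_le
  refine ⟨K * (|B| * Real.exp 2 ^ 2), fun R hR => ?_⟩
  have hR0 : 0 < R := by linarith
  have he : 1 ≤ Real.exp 2 * R := by
    have := Real.one_le_exp (zero_le_two (α := ℝ))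
    nlinarith
  refine (hK hF h0 R hR).trans ?_
  have h2 : En F (Real.exp 2 * R) ≤ |B| * (Real.exp 2 * R) ^ 2 :=
    (hB _ he).trans (mul_le_mul_of_nonneg_right (le_abs_self B) (sq_nonneg _))
  calc K / R ^ 2 * En F (Real.exp 2 * R) ≤ K / R ^ 2 * (|B| * (Real.exp 2 * R) ^ 2) := mul_le_mul_of_nonneg_left h2 (by positivity)
    _ = K * (|B| * Real.exp 2 ^ 2) := by
      field_simp

theorem max_log_le_sq {t : ℝ} (ht : 0 ≤ t) : max 0 (Real.log t) ≤ t ^ 2 := by
  refine max_le (sq_nonneg t) ?_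
  rcases ht.eq_or_lt with rfl | h
  · simp
  · have := Real.log_le_sub_one_of_pos h
    nlinarith [sq_nonneg (t - 1)]

/-- MODULE Spd: order two gives `∫ rhoR R max 0 (log spd) ≤ C`. -/
theorem log_spd_le {F : ℂ → EN M} (hF : Crv P FF F) : ∃ C : ℝ, ∀ R, 1 ≤ R → ∫ z, rhoR R z * max 0 (Real.log (lam F z)) ≤ C := by
  obtain ⟨A, hA⟩ := hF.ord
  have h0 : ∀ z, F z ≠ 0 := fun z h => (hF.mem z).1 (by rw [h, map_zero])
  obtain ⟨C, hC⟩ := exists_avg_lam_sq_bdd hF.diff h0 hA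
  refine ⟨C, fun R hR => le_trans ?_ (hC R hR)⟩
  refine integral_mono_of_nonneg (Eventually.of_forall fun z => mul_nonneg (rhoR_nonneg R z) (le_max_left _ _))
    (((Pool.Agent.H30M.continuous_rhoR R).mul (continuous_lam_sq hF.diff h0)).integrable_of_hasCompactSupport
      ((Pool.Agent.H30M.hcs_rhoR hR).mul_right)) (Eventually.of_forall fun z => ?_)
  exact mul_le_mul_of_nonneg_left (max_log_le_sq (lam_nonneg' F z)) (rhoR_nonneg R z)

end Pool.Agent.MQ
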