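import Pool.Agent.MQ.VDefs
import Pool.Agent.MQ.Fub
import Pool.Agent.H30M.Key

/-!
# MQ Jen: the number of zeros of a form along the curve
-/

set_option autoImplicit false

open MeasureTheory Topology Filter Metric Laplacian

namespace Pool.Agent.MQ

open Pool.Agent.H30M (tau rhoR avg rho LogSing gg uu II HH tau_nonneg HH_nonneg integrable_tau_mul)
open Pool.Agent.H36.BP (EN fs)

variable {N : ℕ}

section

variable {F : ℂ → EN N} (hF : Differentiable ℂ F) (h0 : ∀ z, F z ≠ 0)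

include hF h0

theorem cg_L : ContDiff ℝ 2 fun z => Real.log ‖F z‖ := by
  rw [contDiff_iff_contDiffAt]
  exact fun z => (lap_log_norm (hF.analyticAt z) (h0 z)).1

theorem cg_lap (z : ℂ) : Δ (fun w => Real.log ‖F w‖) z = 2 * lam F z ^ 2 := (lap_log_norm (hF.analyticAt z) (h0 z)).2

theorem cg_lap_nonneg (z : ℂ) : 0 ≤ Δ (fun w => Real.log ‖F w‖) z := by
  rw [cg_lap hF h0]; positivity

theorem cg_II (R : ℝ) : II (fun z => Real.log ‖F z‖) R = 2 * En F R := by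
  unfold II En
  rw [← integral_const_mul]
  refine integral_congr_ae (Eventually.of_forall fun z => ?_)
  simp only [cg_lap hF h0]
  ring

end

theorem En_nonneg (F : ℂ → EN N) {R : ℝ} (hR : 1 ≤ R) : 0 ≤ En F R :=
  integral_nonneg fun z => mul_nonneg (tau_nonneg hR z) (sq_nonneg _)

theorem cg_le {F : ℂ → EN N} (h0 : ∀ z, F z ≠ 0) {g : ℂ → ℂ} {d : ℕ} (hgF : ∀ z, ‖g z‖ ≤ ‖F z‖ ^ d) (z : ℂ) :
    ‖g z‖ ≤ Real.exp ((d : ℝ) * Real.log ‖F z‖) := by
  rw [← Real.log_pow, Real.exp_log (pow_pos (norm_pos_iff.2 (h0 z)) d)]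
  exact hgF z

/-- **The logarithm of a form along the curve**: first main theorem -/
theorem jen {F : ℂ → EN N} (hF : Differentiable ℂ F) (h0 : ∀ z, F z ≠ 0) {g : ℂ → ℂ} (hg : Differentiable ℂ g) (hg0 : ∃ z, g z ≠ 0) {d : ℕ}
    (hgF : ∀ z, ‖g z‖ ≤ ‖F z‖ ^ d) : ∃ C, ∀ R, 1 ≤ R → 2 * Real.pi * ∑ᶠ z, mult g z * tau R z ≤ 2 * d * En F R + C := by
  refine ⟨- avg 1 (uu (fun z => Real.log ‖F z‖) g d), fun R hR => ?_⟩
  have h1 := Pool.Agent.H30M.first_main (L := fun z => Real.log ‖F z‖) (d := (d : ℝ)) (cg_L hF h0) hg hg0 hR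
  have h2 := Pool.Agent.H30M.avg_uu_nonpos (L := fun z => Real.log ‖F z‖) (d := (d : ℝ)) hg hg0 (cg_le h0 hgF) R
  rw [cg_II hF h0] at h1
  unfold mult
  linarith

end Pool.Agent.MQ
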