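import Pool.Agent.MQ.GeoDefs
import Pool.Agent.MQ.Fub
import Pool.Agent.MQ.Jen
import Pool.Agent.MQ.Sel
import Pool.Agent.MQ.Bridge
import Pool.Agent.H36.BP.Main

/-!
# MQ VFin: the final inequality
-/

set_option autoImplicit false

open Topology Filter Metric MvPolynomial Asymptotics MeasureTheory Laplacian

noncomputable section

namespace Pool.Agent.MQ

open Pool.Agent.H36.BP (EN fs wd)
open Pool.Agent.H17EF (projVar coneE)
open Pool.Agent.H30M (tau avg rhoR LogSing contDiff_tau hcs_tau tau_nonneg gg)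

variable {M : ℕ} {P : Ideal (MvPolynomial (Fin (M + 1)) ℂ)} {FF : Set (EN M × EN M)}

/-- a curve which is not constant has a derivative which is not always zero -/
theorem exists_lam_ne {F : ℂ → EN M} (hF : Differentiable ℂ F) (h0 : ∀ z, F z ≠ 0) (hnc : ∃ z w, ∀ c : ℂ, F z ≠ c • F w) : ∃ z, lam F z ≠ 0 := by
  by_contra hcon
  push Not at hcon
  obtain ⟨z, w, hzw⟩ := hnc
  have hwd : ∀ y, wd (F y) (deriv F y) = 0 := by
    intro y
    have h1 := hcon y
    rw [lam, fs, div_eq_zero_iff] at h1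
    rcases h1 with h1 | h1
    · exact h1
    · exact absurd h1 (pow_ne_zero 2 (norm_ne_zero_iff.2 (h0 y)))
  have hloc := Pool.Agent.H36.BP.const_of_wedge (hF.analyticAt w) (h0 w) (Eventually.of_forall hwd)
  obtain ⟨i, hi⟩ : ∃ i, F w i ≠ 0 := by
    by_contra h
    push Not at h
    exact h0 w (by ext i; exact h i)
  have hcoord : ∀ j : Fin (M + 1), Differentiable ℂ fun y => F y j := fun j =>
    (EuclideanSpace.proj (𝕜 := ℂ) j : EN M →L[ℂ] ℂ).differentiable.comp hF
  have hmn : ∀ (j : Fin (M + 1)) (y : ℂ), F y j * F w i - F y i * F w j = 0 := by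
    intro j
    have hdiff : Differentiable ℂ fun y => F y j * F w i - F y i * F w j := ((hcoord j).mul_const _).sub ((hcoord i).mul_const _)
    have h2 : (fun y => F y j * F w i - F y i * F w j) =ᶠ[𝓝 w] fun _ => 0 := by
      filter_upwards [hloc] with y hy
      obtain ⟨c, -, hc⟩ := hy
      rw [hc, PiLp.smul_apply, PiLp.smul_apply, smul_eq_mul, smul_eq_mul]
      ring
    have h3 : AnalyticOnNhd ℂ (fun y => F y j * F w i - F y i * F w j) Set.univ := fun y _ => hdiff.analyticAt y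
    exact fun y => congrFun (h3.eq_of_eventuallyEq (g := fun _ => 0) (fun y _ => analyticAt_const) h2) y
  apply hzw (F z i / F w i)
  ext j
  rw [PiLp.smul_apply, smul_eq_mul, div_mul_eq_mul_div, eq_div_iff hi]
  linear_combination hmn j z

/-- a function with logarithmic singularities is of class `C²` almost everywhere -/
theorem ae_contDiffAt {E : ℂ → ℝ} (hE : ∀ z, ∃ c, LogSing E c z) : ∀ᵐ z, ContDiffAt ℝ 2 E z := by
  rw [ae_iff]
  refine measure_null_of_locally_null _ fun z _ => ?_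
  obtain ⟨c, hc⟩ := hE z
  have h1 := hc.eventually
  rw [eventually_nhdsWithin_iff] at h1
  refine ⟨{y | ¬ ContDiffAt ℝ 2 E y} ∩ {y | y ∈ ({z}ᶜ : Set ℂ) → ContDiffAt ℝ 2 E y}, inter_mem_nhdsWithin _ h1, ?_⟩
  refine measure_mono_null (t := {z}) ?_ (measure_singleton z)
  rintro y ⟨h2, h3⟩
  by_contra h4
  exact h2 (h3 h4)

/-- **The final inequality.** -/
theorem false_of_pack {F : ℂ → EN M} (hF : Crv P FF F) {l : ℂ → ℝ} (hl : Continuous l) (hl0 : ∀ z, 0 ≤ l z) (hle : ∀ z, lam F z ≤ l z)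
    (hB : ∃ B : ℝ, ∀ R, 1 ≤ R → ∫ z, tau R z * l z ^ 2 ≤ B * (En F R + 1)) {ε₀ δ : ℝ} (h : Pack F l ε₀ δ) (hδ : 2 * δ < ε₀) : False := by
  obtain ⟨B, hB⟩ := hB
  obtain ⟨C, E, η, err, hC, hE, hη, hηb, herr, hlap, herrb, havg⟩ := h
  choose c hc0 hE using hE
  have hF0 : ∀ z, F z ≠ 0 := fun z h0 => by
    obtain ⟨hh, -⟩ := hF.mem z
    exact hh (by rw [h0]; rfl)
  have hlc := continuous_lam hF.diff hF0
  have hLen : ∀ R, 0 ≤ ∫ z, ‖gr (tau R) z‖ * l z := fun R => integral_nonneg fun z => mul_nonneg (norm_nonneg _) (hl0 z)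
  -- integrable functions
  have hint : ∀ {u : ℂ → ℝ} {R : ℝ}, 1 ≤ R → Continuous u → Integrable fun z => tau R z * u z := fun {u R} hR hu =>
    ((contDiff_tau R).continuous.mul hu).integrable_of_hasCompactSupport (hcs_tau hR).mul_right
  -- the main inequality
  have hmain : ∀ R, 1 ≤ R → (ε₀ - 2 * δ) * En F R ≤ C * Real.log (1 + En F R) + 2 * C * (∫ z, ‖gr (tau R) z‖ * l z) + (2 * C - avg 1 E) := by
    intro R hR
    have hE' : ∀ z ∈ tsupport (tau R), LogSing E (c z) z := fun z _ => hE z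
    have h1 := LogSing.mean1 ((contDiff_tau R).of_le (by norm_num)) (hcs_tau hR) hE'
    have h2 := LogSing.mean_tau hR (w := E) (c := c) fun z _ => hE z
    have h3 : 0 ≤ ∑ᶠ z, c z * tau R z := finsum_nonneg fun z => mul_nonneg (hc0 z) (tau_nonneg hR z)
    have h4 : ∫ z, tau R z * Δ E z ≤ avg R E - avg 1 E := by
      have h5 : 0 ≤ 2 * Real.pi * ∑ᶠ z, c z * tau R z := mul_nonneg (by positivity) h3
      linarith
    have hiE := LogSing.integrable_lap (contDiff_tau R).continuous (hcs_tau hR) hE'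
    have h5 : ∫ z, tau R z * dv η z ≤ C * ∫ z, ‖gr (tau R) z‖ * l z := by
      have h6 := ibp ((contDiff_tau R).of_le (by norm_num)) (hcs_tau hR) fun z _ => hη.contDiffAt (x := z)
      have h7 : Integrable fun z => ‖gr (tau R) z‖ * l z := by
        have h8 : Continuous fun z => ‖gr (tau R) z‖ * l z := (continuous_gr ((contDiff_tau R).of_le (by norm_num))).norm.mul hl
        exact h8.integrable_of_hasCompactSupport ((hasCompactSupport_gr (hcs_tau hR)).norm.mul_right)
      have h8 : Integrable fun z => ip (gr (tau R) z) (η z) :=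
        int_ip (continuous_gr ((contDiff_tau R).of_le (by norm_num))) (hasCompactSupport_gr (hcs_tau hR)) fun z _ => hη.continuous.continuousAt
      have h9 : ∫ z, tau R z * dv η z = ∫ z, - ip (gr (tau R) z) (η z) := by rw [integral_neg, h6, neg_neg]
      rw [h9, ← integral_const_mul]
      refine integral_mono h8.neg (h7.const_mul C) fun z => ?_
      have h10 := abs_ip_le (gr (tau R) z) (η z)
      have h11 := mul_le_mul_of_nonneg_left (hηb z) (norm_nonneg (gr (tau R) z))
      calc -ip (gr (tau R) z) (η z) ≤ |ip (gr (tau R) z) (η z)| := neg_le_abs _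
        _ ≤ ‖gr (tau R) z‖ * ‖η z‖ := h10
        _ ≤ C * (‖gr (tau R) z‖ * l z) := by linarith
    have hidv : Integrable fun z => tau R z * dv η z := by
      refine hint hR ?_
      exact continuous_iff_continuousAt.2 fun z => continuousAt_dv hη.contDiffAt
    have hierr : Integrable fun z => tau R z * err z := hint hR herr
    have h6 : ε₀ * En F R ≤ ∫ z, (tau R z * Δ E z + tau R z * dv η z + tau R z * err z) := by
      rw [En, ← integral_const_mul]
      refine integral_mono_ae ((hint hR (hlc.pow 2)).const_mul ε₀) (by exact (hiE.add hidv).add hierr) ?_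
      filter_upwards [ae_contDiffAt fun z => ⟨c z, hE z⟩] with z hz
      have h7 := mul_le_mul_of_nonneg_left (hlap z hz) (tau_nonneg hR z)
      linarith
    rw [integral_add (by exact hiE.add hidv) hierr, integral_add hiE hidv] at h6
    have h7 := herrb R hR
    have h8 := havg R hR
    linarith
  -- the logarithm
  set δ' : ℝ := ε₀ - 2 * δ with hδ'
  have hδ0 : 0 < δ' := by linarith
  obtain ⟨C₁, hC₁⟩ : ∃ C₁ : ℝ, ∀ x : ℝ, 0 ≤ x → C * Real.log (1 + x) ≤ δ' / 2 * x + C₁ := by
    set b : ℝ := δ' / (2 * (C + 1)) with hb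
    have hb0 : 0 < b := by positivity
    refine ⟨(C + 1) * (b + |Real.log b|), fun x hx => ?_⟩
    have h1 : Real.log (1 + x) ≤ b * x + (b + |Real.log b|) := by
      have h2 := Real.log_le_sub_one_of_pos (mul_pos hb0 (by linarith : (0 : ℝ) < 1 + x))
      rw [Real.log_mul hb0.ne' (by linarith : (1 + x) ≠ 0)] at h2
      have h3 := neg_abs_le (Real.log b)
      linarith
    have h2 : 0 ≤ Real.log (1 + x) := Real.log_nonneg (by linarith)
    have h3 : C * Real.log (1 + x) ≤ (C + 1) * (b * x + (b + |Real.log b|)) := by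
      have h4 : C * Real.log (1 + x) ≤ (C + 1) * Real.log (1 + x) := by nlinarith
      exact h4.trans (mul_le_mul_of_nonneg_left h1 (by linarith))
    have h4 : (C + 1) * (b * x) = δ' / 2 * x := by
      rw [hb]
      field_simp
    rw [mul_add, h4] at h3
    exact h3
  have hne : ∃ z, l z ≠ 0 := by
    obtain ⟨z, hz⟩ := exists_lam_ne hF.diff hF0 hF.nc
    refine ⟨z, fun h0 => hz (le_antisymm ((hle z).trans h0.le) (lam_nonneg F z))⟩
  -- the selection
  have hq : 0 < δ' / (8 * (C + 1) * (|B| + 1)) := by positivity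
  obtain ⟨R, -, hR, hsel⟩ := sel hl hl0 hne hq (δ' + |C₁| + |2 * C - avg 1 E|) 1
  have hE0 := En_nonneg F hR
  have h1 := hmain R hR
  have h2 := hC₁ (En F R) hE0
  have h3 := hB R hR
  have h4 : δ' / (8 * (C + 1) * (|B| + 1)) * (∫ z, tau R z * l z ^ 2) ≤ δ' / (8 * (C + 1)) * (En F R + 1) := by
    have h5 : (∫ z, tau R z * l z ^ 2) ≤ (|B| + 1) * (En F R + 1) := by
      refine h3.trans ?_
      have := le_abs_self B
      nlinarith
    refine (mul_le_mul_of_nonneg_left h5 hq.le).trans (le_of_eq ?_)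
    have : |B| + 1 ≠ 0 := by positivity
    field_simp
  have hL := hLen R
  have h5 : 2 * C * (∫ z, ‖gr (tau R) z‖ * l z) ≤ 2 * (C + 1) * (δ' / (8 * (C + 1)) * (En F R + 1) - (δ' + |C₁| + |2 * C - avg 1 E|)) := by
    have h6 : (∫ z, ‖gr (tau R) z‖ * l z) ≤ δ' / (8 * (C + 1)) * (En F R + 1) - (δ' + |C₁| + |2 * C - avg 1 E|) := by linarith
    have h7 : 2 * C * (∫ z, ‖gr (tau R) z‖ * l z) ≤ 2 * (C + 1) * (∫ z, ‖gr (tau R) z‖ * l z) := by linarith
    exact h7.trans (mul_le_mul_of_nonneg_left h6 (by linarith))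
  have h6 : 2 * (C + 1) * (δ' / (8 * (C + 1)) * (En F R + 1) - (δ' + |C₁| + |2 * C - avg 1 E|)) =
      δ' / 4 * (En F R + 1) - 2 * (C + 1) * (δ' + |C₁| + |2 * C - avg 1 E|) := by
    have : C + 1 ≠ 0 := by positivity
    field_simp
    ring
  have h7 : 2 * (δ' + |C₁| + |2 * C - avg 1 E|) ≤ 2 * (C + 1) * (δ' + |C₁| + |2 * C - avg 1 E|) := by
    have h8 : 0 ≤ C * (δ' + |C₁| + |2 * C - avg 1 E|) := by positivity
    linarith
  have h8 := le_abs_self C₁
  have h9 := le_abs_self (2 * C - avg 1 E)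
  have h10 := abs_nonneg C₁
  have h11 := abs_nonneg (2 * C - avg 1 E)
  have h12 : 0 ≤ δ' / 4 * En F R := by positivity
  have h13 : (ε₀ - 2 * δ) * En F R = δ' / 2 * En F R + δ' / 4 * En F R + δ' / 4 * En F R := by rw [← hδ']; ring
  linarith

end Pool.Agent.MQ
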