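import Pool.Agent.MQ.CC
import Pool.Agent.MQ.Gauge
import Pool.Agent.MQ.PNode
import Pool.Agent.MQ.SNPack
import Pool.Agent.MQ.PForm
import Pool.Agent.MQ.Asm
import Pool.Agent.MQ.Spd
import Pool.Agent.MQ.VFin
import Pool.Agent.MQ.BetaG
import Pool.Agent.MQ.CoordB
import Pool.Agent.MQ.Fub
import Pool.Agent.MQ.Ord
import Pool.Agent.MQ.OrdV
import Pool.Agent.MQ.Sieg
import Pool.Agent.E2.Kod
import Pool.Agent.AD.T.NCProof
import Pool.Agent.H22.WL.Proj
import Pool.Agent.H36.BP.CirA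

/-!
# MQ Fin: the entire curves of order two tangent to a reduced foliation of a surface of general type lie in one algebraic curve
-/

set_option autoImplicit false

open Topology Filter Metric MvPolynomial Asymptotics MeasureTheory Laplacian

noncomputable section

namespace Pool.Agent.MQ

open Pool.Agent.H36.BP (EN fs OrdTwo circle_approx)
open Pool.Agent.H17BP (IsChart IsForm Surface)
open Pool.Agent.H17 (PN VanishesAt HolomorphicInto)
open Pool.Agent.H17EF (projVar coneE)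
open Pool.Agent.H13.OT (OrderTwo)
open Pool.Agent.H13.SM (conTan)
open Pool.Agent.H62.FC (Homog)
open Pool.Agent.H17LG.Variety (FunField)
open Pool.Agent.H30M (tau avg rhoR LogSing tau_nonneg)
open Pool.Agent.H14.V (IsLift)
open Pool.Agent.H22.WL (vanishesAt_lift)

variable {M : ℕ} {P : Ideal (MvPolynomial (Fin (M + 1)) ℂ)} {FF : Set (EN M × EN M)}

/-! ## the lift -/

/-- from the averages to the characteristic function -/
private theorem fin_ordTwo {N : ℕ} {H : ℂ → EN N} (hH : Differentiable ℂ H) (h0 : ∀ z, H z ≠ 0) {A : ℝ}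
    (hA : ∀ r : ℝ, 0 < r → Real.circleAverage (fun z => Real.log ‖H z‖) 0 r ≤ A * (1 + r ^ 2)) : OrdTwo H := by
  have hn : ∀ z, 0 < ‖H z‖ := fun z => norm_pos_iff.2 (h0 z)
  have hlc : Continuous fun z => Real.log ‖H z‖ := hH.continuous.norm.log fun z => (hn z).ne'
  refine ⟨A + 2 + |Real.log ‖H 0‖|, fun r hr => ?_⟩
  obtain ⟨u, hu, huR⟩ := circle_approx hr (fun z => Real.log ‖H z‖) hlc.continuousOn one_pos
  have hexp : ∀ z, ‖Complex.exp (-u z - 1) • H z‖ = Real.exp (-(u z).re - 1 + Real.log ‖H z‖) := by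
    intro z
    rw [norm_smul, Complex.norm_exp, Real.exp_add, Real.exp_log (hn z)]
    simp
  have hup : ∀ z ∈ ball (0 : ℂ) r, ‖Complex.exp (-u z - 1) • H z‖ ≤ 1 := by
    intro z hz
    have hd : DiffContOnCl ℂ (fun z => Complex.exp (-u z - 1) • H z) (ball (0 : ℂ) r) :=
      ((hu.neg.sub_const _).cexp.smul hH).diffContOnCl
    refine Complex.norm_le_of_forall_mem_frontier_norm_le isBounded_ball hd (fun y hy => ?_)
      (subset_closure hz)
    rw [frontier_ball _ hr.ne'] at hy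
    rw [hexp y, Real.exp_le_one_iff]
    have h1 := (abs_le.1 (huR y hy)).1
    linarith
  have hmean : (u 0).re ≤ A * (1 + r ^ 2) + 1 := by
    have h1 : Real.circleAverage (fun z => (u z).re) 0 r = (u 0).re := by
      have h2 : CircleIntegrable u 0 r := hu.continuous.continuousOn.circleIntegrable'
      have h3 := Complex.reCLM.circleAverage_comp_comm h2
      have h4 : Real.circleAverage u 0 r = u 0 := hu.diffContOnCl.circleAverage
      rw [h4] at h3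
      exact h3
    have h5 : Real.circleAverage (fun z => (u z).re) 0 r ≤ Real.circleAverage (fun z => Real.log ‖H z‖ + 1) 0 r := by
      refine Real.circleAverage_mono (Complex.continuous_re.comp hu.continuous).continuousOn.circleIntegrable'
        (hlc.add continuous_const).continuousOn.circleIntegrable' fun z hz => ?_
      rw [abs_of_pos hr] at hz
      have h6 := (abs_le.1 (huR z hz)).2
      show (u z).re ≤ Real.log ‖H z‖ + 1
      linarith
    have h7 : Real.circleAverage (fun z => Real.log ‖H z‖ + 1) 0 r = Real.circleAverage (fun z => Real.log ‖H z‖) 0 r + 1 := by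
      have h8 := Real.circleAverage_add (c := 0) (R := r) hlc.continuousOn.circleIntegrable'
        (continuous_const (y := (1 : ℝ))).continuousOn.circleIntegrable'
      have h9 : Real.circleAverage (fun _ : ℂ => (1 : ℝ)) 0 r = 1 := Real.circleAverage_const _ _ _
      rw [h9] at h8
      exact h8
    linarith [hA r hr]
  refine ⟨fun z => Complex.exp (-u z - 1) • H z, ?_, hup, ?_, fun z _ => Or.inr ?_⟩
  · exact ((hu.neg.sub_const _).cexp.smul hH).differentiableOn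
  · show _ ≤ ‖Complex.exp (-u 0 - 1) • H 0‖
    rw [hexp 0, Real.exp_le_exp]
    have h1 := neg_abs_le (Real.log ‖H 0‖)
    have h2 : 0 ≤ |Real.log ‖H 0‖| := abs_nonneg _
    have h3 : 0 ≤ r ^ 2 := sq_nonneg r
    nlinarith [mul_nonneg h2 h3]
  · refine ⟨(Complex.exp (-u z - 1))⁻¹, inv_ne_zero (Complex.exp_ne_zero _), ?_⟩
    rw [smul_smul, inv_mul_cancel₀ (Complex.exp_ne_zero _), one_smul]

/-- the growth of an arbitrary lift of a curve of order two -/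
theorem growth_of_orderTwo {g : ℂ → PN M} (hg : OrderTwo g) {G : ℂ → EN M} (hG : IsLift G g) :
    ∃ A : ℝ, ∀ r : ℝ, 0 < r → Real.circleAverage (fun z => Real.log ‖G z‖) 0 r ≤ A * (1 + r ^ 2) := by
  obtain ⟨F₀, A, hF, hFg, hA⟩ := hg
  have hF0 : ∀ z, F₀ z ≠ 0 := fun z => (hFg z).1
  obtain ⟨h1, h2, A', hA'⟩ := circleAverage_toLp_le hF hF0 hA
  have h3 : OrdTwo fun z => (WithLp.toLp 2 (F₀ z) : EN M) := fin_ordTwo h1 h2 hA'
  refine circleAverage_le_of_ordTwo hG.1 (fun z => hG.ne_zero z) (h3.congr fun z => ?_)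
  obtain ⟨h4, h5⟩ := hFg z
  obtain ⟨h6, h7⟩ := hG.2 z
  obtain ⟨c, hc, h8⟩ := Pool.Agent.H13.OT.pr_of_mk_eq h6 h4 (h7.symm.trans h5)
  refine ⟨c, hc, ?_⟩
  apply WithLp.ofLp_injective 2
  rw [h8]
  rfl

/-- the lift of a curve tangent to the foliation -/
theorem crv_of_lift {g : ℂ → PN M} (hg : OrderTwo g) (hne : ∃ z w, g z ≠ g w) {G : ℂ → EN M} (hG : IsLift G g)
    (hGF : ∀ z, G z ∈ coneE P ∧ (G z, deriv G z) ∈ FF) : Crv P FF G := by
  refine ⟨hG.1, fun z => (hGF z).1, fun z => (hGF z).2, growth_of_orderTwo hg hG, ?_⟩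
  obtain ⟨z, w, hzw⟩ := hne
  refine ⟨z, w, fun c hc => hzw ?_⟩
  obtain ⟨h1, h2⟩ := hG.2 z
  obtain ⟨h3, h4⟩ := hG.2 w
  rw [h2, h4, Projectivization.mk_eq_mk_iff']
  exact ⟨c, by rw [hc]; rfl⟩

/-! ## monotonicity in `δ` -/

theorem LocalN.mono {B : GBox P FF} {g : ℂ × ℂ → ℂ} {F : ℂ → EN M} {s δ δ' : ℝ} (h : LocalN B g F s δ) (hδ : δ ≤ δ') : LocalN B g F s δ' := by
  obtain ⟨C, η, err, h0, h1, h2, h3, h4, h5, h6, h7⟩ := h
  refine ⟨C, η, err, h0, h1, h2, h3, h4, h5, h6, fun R hR => (h7 R hR).trans ?_⟩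
  have := mul_le_mul_of_nonneg_right hδ (En_nonneg' F hR)
  linarith

theorem LocalT.mono {B : GBox P FF} {F : ℂ → EN M} {Q : MvPolynomial (Fin (M + 1)) ℂ} {d K n : ℕ} {s δ δ' : ℝ} (h : LocalT B F Q d K n s δ)
    (hδ : δ ≤ δ') : LocalT B F Q d K n s δ' := by
  obtain ⟨h1, C, h2, h3⟩ := h
  refine ⟨h1, C, h2, fun R hR => (h3 R hR).trans ?_⟩
  have := mul_le_mul_of_nonneg_right hδ (En_nonneg' F hR)
  linarith

/-- the local package at a singular box -/
theorem package_of_singBox (hP : P.IsPrime) (B : GBox P FF) {g : ℂ × ℂ → ℂ} (h : SingBox B g) {R₀ : MvPolynomial (Fin (M + 1)) ℂ} {d₀ : ℕ}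
    (hR₀ : R₀.IsHomogeneous d₀) (hgR : ∀ p ∈ ball (0 : ℂ × ℂ) B.r, g p = 0 → eval (B.σ p).ofLp R₀ = 0) : Package B g R₀ := by
  cases h with
  | node a b g₁ g₂ ha hb ha0 hb0 hq h hg h₁ h₂ => exact package_node hP B ha hb ha0 hb0 hq h hg h₁ h₂ hR₀ hgR
  | saddleNode k hk a b g₁ ha hb ha0 hb0 h hg h₁ => exact package_saddleNode hP B hk ha hb ha0 hb0 h hg h₁ hR₀ hgR
  | formal k hk a b ha hb ha0 hb0 h c hc hJ hR hg => exact package_formal hP B hk ha hb ha0 hb0 h hc hJ hR hg hR₀ hgR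

/-- **The entire curves of order two which are tangent to a reduced foliation of a surface of general type lie in one algebraic curve.** -/
theorem exists_R [P.IsPrime] (hP : Homog P) (hdim : ∃ z : Fin 2 → FunField P, IsTranscendenceBasis ℂ z)
    (hsmooth : Pool.Agent.AD.NC.IsSmooth P 2)
    (hgt : Pool.Agent.AD.NC.IsOfLogGeneralType P (Fin.elim0 : Fin 0 → MvPolynomial (Fin (M + 1)) ℂ) 2) (h : IsReduced P FF) :
    ∃ (R : MvPolynomial (Fin (M + 1)) ℂ) (d : ℕ), R.IsHomogeneous d ∧ R ∉ P ∧ ∀ g : ℂ → PN M, HolomorphicInto g Set.univ → OrderTwo g →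
      (∀ z, g z ∈ projVar P) → (∃ z w, g z ≠ g w) → IsLeafwise P FF g → ∀ z, VanishesAt R (g z) := by
  classical
  obtain ⟨z, hz⟩ := id hdim
  have hsm : ∀ y : Fin (M + 1) → ℂ, y ≠ 0 → (∀ Q ∈ P, eval y Q = 0) → Module.finrank ℂ (conTan P y) ≤ 3 :=
    fun y h0 h1 => hsmooth y h0 h1
  have hgt' : Pool.Agent.H62.FC.LogGeneralType P ∅ 2 := by
    have h1 : (Pool.Agent.H62.FC.OnBoundary P ∅ (w := 2)) = fun _ => False := by
      funext E
      apply propext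
      constructor
      · rintro ⟨j, -, -, i, hi, -⟩
        exact absurd hi (Finset.notMem_empty i)
      · exact False.elim
    have h2 := (Pool.Agent.AD.NC.isOfLogGeneralType_zero P _ 2).1 hgt
    unfold Pool.Agent.H62.FC.LogGeneralType
    rw [h1]
    exact h2
  have hX : Surface (coneE P) := Pool.Agent.H90.SG.surface_coneE hP hz hsm
  have hPp : P.IsPrime := inferInstance
  obtain ⟨A, D, hsing⟩ := exists_cdata hP hz hX hsm h
  obtain ⟨mm, hm⟩ := exists_gauge hX A D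
  -- the packages
  have hpk : ∀ i : {i : A.ι // ¬ (A.B i).Reg}, Package (A.B i) (D.g i) D.R :=
    fun i => package_of_singBox hPp (A.B i) (hsing i i.2) D.hom (D.van i)
  choose r K₀ c C₀ hC₀ hc hpack using hpk
  obtain ⟨e⟩ : Nonempty (Fin (Fintype.card (Σ i : {i : A.ι // ¬ (A.B i).Reg}, Fin (r i))) ≃ (Σ i : {i : A.ι // ¬ (A.B i).Reg}, Fin (r i))) :=
    ⟨(Fintype.equivFin _).symm⟩
  obtain ⟨K, hK⟩ : ∃ K : ℕ, ∀ i, K₀ i ≤ K := ⟨∑ i, K₀ i, fun i => Finset.single_le_sum (fun _ _ => Nat.zero_le _) (Finset.mem_univ i)⟩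
  obtain ⟨C₁, hC₁, hC₁'⟩ : ∃ C₁ : ℝ, 0 ≤ C₁ ∧ ∀ i, C₀ i ≤ C₁ :=
    ⟨∑ i, C₀ i, Finset.sum_nonneg fun i _ => hC₀ i, fun i => Finset.single_le_sum (fun i _ => hC₀ i) (Finset.mem_univ i)⟩
  obtain ⟨m, W, dW, QW, hm1, hQW, hQWP, hW, hWz⟩ := Pool.Agent.E2.exists_form_gt hP hz hsm hgt'
  -- the number `k`
  obtain ⟨k, hk⟩ := exists_nat_gt ((m : ℝ) * (Fintype.card A.ι * (C₁ + 1) + K))
  have hk0 : 0 < k := by
    have h1 : (0 : ℝ) < k := lt_of_le_of_lt (by positivity) hk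
    exact_mod_cast h1
  have hkr : (0 : ℝ) < k := by exact_mod_cast hk0
  obtain ⟨d, Q, hd, hQ, hQP, hQc⟩ := sieg hz (Pool.Agent.H62.FC.exists_X_notMem (r := 2) (by norm_num) ⟨z, hz⟩)
    (fun n t => c (e t).1 n (e t).2) (fun n t => (hc (e t).1 n (e t).2).1) k
  have hQc' : ∀ (i : {i : A.ι // ¬ (A.B i).Reg}) (l : Fin (r i)), (fun t => eval (c i (k * d) l t).ofLp Q) =O[𝓝 0] fun t : ℂ => t ^ (k * d) := by
    have h1 : ∀ x : (Σ i : {i : A.ι // ¬ (A.B i).Reg}, Fin (r i)), (fun t => eval (c x.1 (k * d) x.2 t).ofLp Q) =O[𝓝 0] fun t : ℂ => t ^ (k * d) := by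
      intro x
      obtain ⟨t, rfl⟩ := e.surjective x
      exact hQc t
    exact fun i l => h1 ⟨i, l⟩
  refine ⟨D.R * QW * Q, D.d + dW + d, (D.hom.mul hQW).mul hQ, fun h1 => ?_, fun g _ hg2 _ hgn hgF => ?_⟩
  · rcases hPp.mem_or_mem h1 with h2 | h2
    · rcases hPp.mem_or_mem h2 with h3 | h3
      · exact D.notMem h3
      · exact hQWP h3
    · exact hQP h2
  by_contra hcon
  push Not at hcon
  obtain ⟨z₀, hz₀⟩ := hcon
  obtain ⟨F, hFg, hFF⟩ := hgF
  rw [vanishesAt_lift hFg ((D.hom.mul hQW).mul hQ) z₀, map_mul, map_mul] at hz₀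
  have hRz : eval (F z₀).ofLp D.R ≠ 0 := fun h1 => hz₀ (by rw [h1]; ring)
  have hWz₀ : eval (F z₀).ofLp QW ≠ 0 := fun h1 => hz₀ (by rw [h1]; ring)
  have hQz : eval (F z₀).ofLp Q ≠ 0 := fun h1 => hz₀ (by rw [h1]; ring)
  have hF : Crv P FF F := crv_of_lift hg2 hgn hFg hFF
  have hF0 : ∀ z, F z ≠ 0 := fun z => hFg.ne_zero z
  have hWF : ∃ z w, Pool.Agent.H17BP.Tan (coneE P) (F z) w ∧ W (F z) (deriv F z) w ≠ 0 := by
    by_contra hno
    push Not at hno
    refine hWz₀ (hWz F hF.diff hF.mem hF.nc (fun z w hw => ?_) z₀)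
    obtain ⟨γ, ⟨h1, h2⟩, h3, h4⟩ := hw
    exact hno z w ⟨γ, h1, h2, h3, h4⟩
  -- the radius `s`
  have hsep : ∀ i : {i : A.ι // ¬ (A.B i).Reg}, ∃ s, 0 < s ∧ s ≤ (A.B i).r / 8 ∧ ∀ j, j ≠ (i : A.ι) → ∀ x ∈ (A.B i).U s, x ∉ (A.B j).U (A.B j).r :=
    fun i => A.sep i i.2
  choose s₀ hs₀ hs₀' hsep₀ using hsep
  obtain ⟨s, hs, hss⟩ := Pi.exists_forall_pos_add_lt (x := fun _ => (0 : ℝ)) (y := s₀) hs₀
  have hs' : ∀ i, ¬ (A.B i).Reg → s ≤ (A.B i).r / 8 := fun i hi => by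
    have h1 := hss ⟨i, hi⟩
    have h2 := hs₀' ⟨i, hi⟩
    simp only [zero_add] at h1
    exact h1.le.trans h2
  have hsep' : ∀ i, ¬ (A.B i).Reg → ∀ j, j ≠ i → ∀ x ∈ (A.B i).U s, x ∉ (A.B j).U (A.B j).r := by
    intro i hi j hj x hx
    refine hsep₀ ⟨i, hi⟩ j hj x ?_
    obtain ⟨p, hp, c', hc', hx'⟩ := hx
    have h1 := hss ⟨i, hi⟩
    simp only [zero_add] at h1
    exact ⟨p, ball_subset_ball h1.le hp, c', hc', hx'⟩
  -- the invariant curve
  have hgne : ∀ i : A.ι, ∀ z ∈ (A.B i).Om F, (A.B i).cc F z ≠ 0 → D.g i ((A.B i).cc F z) ≠ 0 := by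
    intro i z hz' hcc
    refine g_ne hF ⟨z₀, hRz⟩ hz' fun hv => hcc ((A.B i).zero _ ?_ hv)
    exact ball_subset_closedBall (cc_lift (A.B i) hF.diff hF.mem hz').2.1
  have hn1 : 1 ≤ k * d := Nat.mul_pos hk0 hd
  have hdr : (0 : ℝ) < d := by exact_mod_cast hd
  have hloc : ∀ i, ¬ (A.B i).Reg → LocalN (A.B i) (D.g i) F s ((C₁ + 1) / k) ∧ LocalT (A.B i) F Q d K (k * d) s ((C₁ + 1) / k) := by
    intro i hi
    have h1 := hpack ⟨i, hi⟩ Q d (k * d) K hQ hQP hn1 (hK _) (hQc' ⟨i, hi⟩) F hF ⟨z₀, hQz⟩ ⟨z₀, hRz⟩ (hgne i) s hs (by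
      have h2 := hs' i hi
      have h3 := (A.B i).pos
      linarith)
    have h2 : C₀ ⟨i, hi⟩ * d / ((k * d : ℕ) : ℝ) ≤ (C₁ + 1) / k := by
      push_cast
      rw [mul_div_mul_right _ _ hdr.ne']
      exact div_le_div_of_nonneg_right ((hC₁' _).trans (by linarith)) hkr.le
    exact ⟨h1.1.mono h2, h1.2.mono h2⟩
  have hpack' := pack_of_local hm hm1 hW hF ⟨z₀, hRz⟩ hWF hs hs' hsep' hQ ⟨z₀, hQz⟩ hn1 (δ := (C₁ + 1) / k) (by positivity)
    (fun i hi => (hloc i hi).1) (fun i hi => (hloc i hi).2) (log_spd_le hF)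
  have hmr : (0 : ℝ) < m := by exact_mod_cast hm1
  refine false_of_pack hF (continuous_lam hF.diff hF0) (lam_nonneg F) (fun z => le_rfl) ⟨1, fun R hR => ?_⟩ hpack' ?_
  · show En F R ≤ 1 * (En F R + 1)
    linarith
  · push_cast
    have h1 : (K : ℝ) * d / (k * d) = K / k := mul_div_mul_right _ _ hdr.ne'
    rw [h1]
    have h2 : 2 * ((Fintype.card A.ι : ℝ) * ((C₁ + 1) / k)) + 2 * (K / k) = 2 * ((Fintype.card A.ι * (C₁ + 1) + K) / k) := by ring
    have h3 : (Fintype.card A.ι * (C₁ + 1) + K) / (k : ℝ) < 1 / m := by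
      rw [div_lt_div_iff₀ hkr hmr]
      linarith
    have h4 : 2 * (1 : ℝ) / m = 2 * (1 / m) := by ring
    rw [h4]
    linarith

end Pool.Agent.MQ
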