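import Pool.Agent.MQ.GeoDefs

/-!
# MQ GStub: geometry (statements of the modules; never import this file in a hand-in)

Box, Coord, Chg, Atl, Gauge, Beta, EE, Asm.
-/

set_option autoImplicit false

open Topology Filter Metric MvPolynomial Asymptotics MeasureTheory Laplacian

noncomputable section

namespace Pool.Agent.MQ.Stub

open Pool.Agent.H36.BP (EN fs)
open Pool.Agent.H17BP (IsChart IsForm Surface)
open Pool.Agent.H17EF (projVar coneE)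
open Pool.Agent.H30M (tau avg rhoR LogSing)

variable {M : ℕ} {P : Ideal (MvPolynomial (Fin (M + 1)) ℂ)} {FF : Set (EN M × EN M)}

/-! ## module Box -/

/-- MODULE Box.  From `IsChart` (`σ_an`, `left`, `right`, `inv`), `Spans`, `Reduced`; shrink the polydisc.  For `formal` use `hb0` and `hJ` for `zero`: the
zeros of `v` are `x = 0`, `b (0, y) = 0`. -/
theorem exists_gbox (hX : Surface (coneE P)) (h : IsReduced P FF) {x : EN M} (hx : x ∈ coneE P) {W : Set (EN M)} (hW : W ∈ 𝓝 x) :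
    ∃ B : GBox P FF, B.σ 0 = x ∧ (∀ p ∈ closedBall (0 : ℂ × ℂ) B.r, B.σ p ∈ W) ∧ (B.Reg ∨ RedBox B) := by
  sorry

/-! ## module Coord -/

/-- MODULE Coord, `Crd1`. -/
theorem crd_smul (B : GBox P FF) {p : ℂ × ℂ} (hp : p ∈ ball (0 : ℂ × ℂ) B.r) {c : ℂ} (hc : c ≠ 0) : B.crd (c • B.σ p) = p := by
  sorry

/-- MODULE Coord, `Crd2`. -/
theorem isOpen_Om (B : GBox P FF) {F : ℂ → EN M} (hF : Differentiable ℂ F) (hm : ∀ z, F z ∈ coneE P) : IsOpen (B.Om F) := by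
  sorry

/-- MODULE Coord, `Crd3`. -/
theorem cc_lift (B : GBox P FF) {F : ℂ → EN M} (hF : Differentiable ℂ F) (hm : ∀ z, F z ∈ coneE P) {z₀ : ℂ} (hz : z₀ ∈ B.Om F) :
    AnalyticAt ℂ (B.cc F) z₀ ∧ B.cc F z₀ ∈ ball (0 : ℂ × ℂ) B.r ∧ ∃ c : ℂ → ℂ, AnalyticAt ℂ c z₀ ∧ c z₀ ≠ 0 ∧ ∀ᶠ z in 𝓝 z₀, F z = c z • B.σ (B.cc F z) := by
  sorry

/-- MODULE Coord, `Crd4`: `om (F') = 0` and `F' = ζ' v`. -/
theorem deriv_cc (B : GBox P FF) {F : ℂ → EN M} (hF : Crv P FF F) {z : ℂ} (hz : z ∈ B.Om F) :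
    B.om (B.cc F z) (deriv (B.cc F) z) = 0 ∧ (B.v (B.cc F z) ≠ 0 → deriv (B.cc F) z = B.zt F z • B.v (B.cc F z)) := by
  sorry

/-- MODULE Coord, `Crd5`. -/
theorem isClosed_cc (B : GBox P FF) {F : ℂ → EN M} (hF : Differentiable ℂ F) (hm : ∀ z, F z ∈ coneE P) {s : ℝ} (hs : s < B.r) :
    IsClosed {z | z ∈ B.Om F ∧ B.cc F z ∈ closedBall (0 : ℂ × ℂ) s} := by
  sorry

/-- MODULE Coord, `Crd6`: the speed in the box. -/
theorem lam_cc (B : GBox P FF) : ∃ C : ℝ, 0 < C ∧ ∀ F : ℂ → EN M, Differentiable ℂ F → (∀ z, F z ∈ coneE P) → ∀ z ∈ B.Om F,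
    ‖deriv (B.cc F) z‖ ≤ C * lam F z ∧ lam F z ≤ C * ‖deriv (B.cc F) z‖ := by
  sorry

/-- MODULE Coord, `Crd7`. -/
theorem continuous_lam_lap {F : ℂ → EN M} (hF : Differentiable ℂ F) (h0 : ∀ z, F z ≠ 0) : Continuous (lam F) ∧
    (∀ z, Δ (fun w => Real.log ‖F w‖) z = 2 * lam F z ^ 2) := by
  sorry

/-! ## module Chg -/

/-- MODULE Chg, `Chg1`.  `Φ = T ∘ σ_A / ..` with `T` from `B.opn`; `om_B (Φ; DΦ u)` and `om_A (u)` have the same kernel by `spans`. -/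
theorem exists_chg (A B : GBox P FF) {p q : ℂ × ℂ} {c : ℂ} (hp : p ∈ ball (0 : ℂ × ℂ) A.r) (hq : q ∈ ball (0 : ℂ × ℂ) B.r) (hc : c ≠ 0)
    (h : A.σ p = c • B.σ q) (hv : A.v p ≠ 0) : ∃ Φ t, Chg A B p Φ t ∧ Φ p = q := by
  sorry

/-- MODULE Chg, `Chg2`: along a curve. -/
theorem chg_curve {A B : GBox P FF} {F : ℂ → EN M} (hF : Crv P FF F) {z : ℂ} (hA : z ∈ A.Om F) (hB : z ∈ B.Om F) {Φ : ℂ × ℂ → ℂ × ℂ} {t : ℂ × ℂ → ℂ}
    (h : Chg A B (A.cc F z) Φ t) : ∀ᶠ w in 𝓝 z, w ∈ A.Om F ∧ w ∈ B.Om F ∧ B.cc F w = Φ (A.cc F w) ∧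
      t (A.cc F w) * B.zt F w = A.zt F w * (fderiv ℂ Φ (A.cc F w)).det := by
  sorry

/-- MODULE Chg, `Chg3`: regular boxes. -/
theorem chg_reg_reg {A B : GBox P FF} (hA : A.Reg) (hB : B.Reg) {F : ℂ → EN M} (hF : Crv P FF F) {z : ℂ} (hzA : z ∈ A.Om F)
    {Φ : ℂ × ℂ → ℂ × ℂ} {t : ℂ × ℂ → ℂ} (h : Chg A B (A.cc F z) Φ t) : ∀ᶠ w in 𝓝 z, t (A.cc F w) = t (A.cc F z) := by
  sorry

/-- MODULE Chg, `Chg4`: `d log t = - div v dζ` along the curves. -/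
theorem chg_sing_reg {A B : GBox P FF} (hB : B.Reg) {F : ℂ → EN M} (hF : Crv P FF F) {z : ℂ} (hzA : z ∈ A.Om F) (hv : A.v (A.cc F z) ≠ 0)
    {Φ : ℂ × ℂ → ℂ × ℂ} {t : ℂ × ℂ → ℂ} (h : Chg A B (A.cc F z) Φ t) :
    deriv (fun w => t (A.cc F w)) z = - (dvg A.v (A.cc F z) * A.zt F z * t (A.cc F z)) := by
  sorry

/-! ## module Atl -/

/-- MODULE Atl.  The singular points are isolated (`zero`), so there are finitely many up to scalars; take pairwise disjoint boxes there, then regular boxes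
(a closed regular polydisc contains no singular point) for the rest; compactness of `coneE P ∩ sphere 0 1`.  `Good` is any condition on the boxes. -/
theorem exists_atlas (hX : Surface (coneE P)) (Good : GBox P FF → Prop)
    (h : ∀ x ∈ coneE P, ∀ W ∈ 𝓝 x, ∃ B : GBox P FF, B.σ 0 = x ∧ (∀ p ∈ closedBall (0 : ℂ × ℂ) B.r, B.σ p ∈ W) ∧ (B.Reg ∨ B.v 0 = 0) ∧ Good B) :
    ∃ A : Atlas P FF, ∀ i, Good (A.B i) := by
  sorry

/-- the form for germs: all small radii are good -/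
theorem exists_atlas_of_germ (hX : Surface (coneE P)) (Good : GBox P FF → Prop)
    (h : ∀ x ∈ coneE P, ∃ σ : ℂ × ℂ → EN M, σ 0 = x ∧ ∀ᶠ r in 𝓝[>] (0 : ℝ), ∃ B : GBox P FF, B.σ = σ ∧ B.r = r ∧ (B.Reg ∨ B.v 0 = 0) ∧ Good B) :
    ∃ A : Atlas P FF, ∀ i, Good (A.B i) := by
  sorry

/-! ## module Gauge -/

/-- a smooth metric of the normal bundle twisted by the invariant curve, in the boxes -/
structure Gauge (A : Atlas P FF) (D : CData A) (mm : A.ι → ℂ × ℂ → ℝ) : Prop where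
  smooth : ∀ i, ContDiffOn ℝ 2 (mm i) (ball 0 (A.B i).r)
  comp : ∀ i j, ∀ p ∈ ball (0 : ℂ × ℂ) (A.B i).r, ∀ Φ t s, Chg (A.B i) (A.B j) p Φ t → AnalyticAt ℂ s p → s p ≠ 0 →
    (∀ᶠ w in 𝓝 p, D.g j (Φ w) = s w * D.g i w) → ∀ᶠ w in 𝓝 p, mm j (Φ w) = mm i w + Real.log ‖s w‖ - Real.log ‖t w‖

/-- MODULE Gauge.  `mm i p = log ∑_j χ_j (σ_i p) ‖t_ij p‖ / ‖s_ij p‖`, `χ_j` a smooth function of the coordinates in the box `j`, `1` on the polydisc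
of radius `r_j / 4`, `0` outside the one of radius `r_j / 2`.  At the center of a singular box only `j = i` occurs (`sep`). -/
theorem exists_gauge (hX : Surface (coneE P)) (A : Atlas P FF) (D : CData A) : ∃ mm, Gauge A D mm := by
  sorry

/-! ## module Beta -/

/-- MODULE Beta, `Be1`. -/
theorem beta_reg {A : Atlas P FF} {D : CData A} {mm : A.ι → ℂ × ℂ → ℝ} (hm : Gauge A D mm) {F : ℂ → EN M} (hF : Crv P FF F)
    (hR : ∃ z, eval (F z).ofLp D.R ≠ 0) {i j : A.ι} (hi : (A.B i).Reg) (hj : (A.B j).Reg) {z : ℂ} (hzi : z ∈ (A.B i).Om F) (hzj : z ∈ (A.B j).Om F) :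
    gr (fun w => mm i ((A.B i).cc F w)) z = gr (fun w => mm j ((A.B j).cc F w)) z := by
  sorry

/-- MODULE Beta, `Be2`. -/
theorem beta_sing {A : Atlas P FF} {D : CData A} {mm : A.ι → ℂ × ℂ → ℝ} (hm : Gauge A D mm) {F : ℂ → EN M} (hF : Crv P FF F)
    (hR : ∃ z, eval (F z).ofLp D.R ≠ 0) {i j : A.ι} (hj : (A.B j).Reg) {z : ℂ} (hzi : z ∈ (A.B i).Om F) (hzj : z ∈ (A.B j).Om F)
    (hv : (A.B i).v ((A.B i).cc F z) ≠ 0) :
    gr (fun w => mm j ((A.B j).cc F w)) z = gr (fun w => mm i ((A.B i).cc F w)) z + (starRingEnd ℂ) ((A.B i).DD (D.g i) F z) := by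
  sorry

/-- MODULE Beta, `Be3`: a curve which is not contained in the invariant curve meets it at most in singular points. -/
theorem g_ne {A : Atlas P FF} {D : CData A} {F : ℂ → EN M} (hF : Crv P FF F) (hR : ∃ z, eval (F z).ofLp D.R ≠ 0) {i : A.ι} {z : ℂ}
    (hz : z ∈ (A.B i).Om F) (hv : (A.B i).v ((A.B i).cc F z) ≠ 0) : D.g i ((A.B i).cc F z) ≠ 0 := by
  sorry

/-- MODULE Beta, `Be4`: bound of `DD` off the center.  Compactness of the shell `closedBall 0 r - ball 0 s` and `InvEq`. -/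
theorem norm_DD_le (B : GBox P FF) {g : ℂ × ℂ → ℂ} (hg : AnalyticOnNhd ℂ g (closedBall 0 B.r)) (hi : InvEq B g) {s : ℝ} (hs : 0 < s) :
    ∃ C : ℝ, 0 < C ∧ ∀ F : ℂ → EN M, Crv P FF F →
      ∀ z ∈ B.Om F, B.cc F z ∉ ball (0 : ℂ × ℂ) s → g (B.cc F z) ≠ 0 → ‖B.DD g F z‖ ≤ C * lam F z := by
  sorry

/-! ## module EE -/

/-- the coefficient of the section `W` of `m K - j H` in the box -/
def GBox.W (B : GBox P FF) (W : EN M → EN M → EN M → ℂ) (p : ℂ × ℂ) : ℂ := W (B.σ p) (fderiv ℂ B.σ p (1, 0)) (fderiv ℂ B.σ p (0, 1))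

/-- the logarithm of the length of the section `W` along the curve, in the box -/
def EE (A : Atlas P FF) (D : CData A) (mm : A.ι → ℂ × ℂ → ℝ) (m j : ℕ) (W : EN M → EN M → EN M → ℂ) (F : ℂ → EN M) (i : A.ι) (z : ℂ) : ℝ :=
  Real.log ‖(A.B i).zt F z‖ + (1 / m * Real.log ‖GBox.W (A.B i) W ((A.B i).cc F z)‖ + Real.log ‖D.g i ((A.B i).cc F z)‖ +
    j / m * Real.log ‖(A.B i).σ ((A.B i).cc F z)‖ - mm i ((A.B i).cc F z))

/-- MODULE EE, `EE1`: independent of the box, where `F' ∧ F ≠ 0`, `W ≠ 0`, `g ≠ 0`. -/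
theorem EE_eq {A : Atlas P FF} {D : CData A} {mm : A.ι → ℂ × ℂ → ℝ} (hm : Gauge A D mm) {m j : ℕ} (hm1 : 1 ≤ m) {W : EN M → EN M → EN M → ℂ}
    (hW : IsForm (coneE P) m j W) {F : ℂ → EN M} (hF : Crv P FF F) {i i' : A.ι} {z : ℂ} (hzi : z ∈ (A.B i).Om F) (hzj : z ∈ (A.B i').Om F)
    (hv : (A.B i).v ((A.B i).cc F z) ≠ 0) (hs : deriv ((A.B i).cc F) z ≠ 0) (hWz : GBox.W (A.B i) W ((A.B i).cc F z) ≠ 0)
    (hg : D.g i ((A.B i).cc F z) ≠ 0) : EE A D mm m j W F i z = EE A D mm m j W F i' z := by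
  sorry

/-- MODULE EE, `EE2`: identity theorem. -/
theorem ne_near {A : Atlas P FF} {D : CData A} {m j : ℕ} (hm1 : 1 ≤ m) {W : EN M → EN M → EN M → ℂ}
    (hW : IsForm (coneE P) m j W) {F : ℂ → EN M} (hF : Crv P FF F) (hR : ∃ z, eval (F z).ofLp D.R ≠ 0)
    (hWF : ∃ z w, Pool.Agent.H17BP.Tan (coneE P) (F z) w ∧ W (F z) (deriv F z) w ≠ 0) {i : A.ι} {z : ℂ} (hz : z ∈ (A.B i).Om F) :
    ∀ᶠ w in 𝓝[≠] z, w ∈ (A.B i).Om F ∧ (A.B i).v ((A.B i).cc F w) ≠ 0 ∧ deriv ((A.B i).cc F) w ≠ 0 ∧ (A.B i).zt F w ≠ 0 ∧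
      GBox.W (A.B i) W ((A.B i).cc F w) ≠ 0 ∧ D.g i ((A.B i).cc F w) ≠ 0 := by
  sorry

/-! ## module Asm -/

/-- MODULE Asm: the pack of a curve from the local packages.  `η = gr (mm i ∘ cc)` (regular boxes), `= gr (mm q ∘ cc) + η_q` (singular boxes);
`E = EE + K / n (log ‖Q (F)‖ - d log ‖F‖)`. -/
theorem pack_of_local {A : Atlas P FF} {D : CData A} {mm : A.ι → ℂ × ℂ → ℝ} (hm : Gauge A D mm) {m j : ℕ} (hm1 : 1 ≤ m) {W : EN M → EN M → EN M → ℂ}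
    (hW : IsForm (coneE P) m j W) {F : ℂ → EN M} (hF : Crv P FF F) (hR : ∃ z, eval (F z).ofLp D.R ≠ 0)
    (hWF : ∃ z w, Pool.Agent.H17BP.Tan (coneE P) (F z) w ∧ W (F z) (deriv F z) w ≠ 0) {s : ℝ} (hs : 0 < s) (hs' : ∀ i, ¬ (A.B i).Reg → s ≤ (A.B i).r / 8)
    (hsep : ∀ i, ¬ (A.B i).Reg → ∀ j, j ≠ i → ∀ x ∈ (A.B i).U s, x ∉ (A.B j).U (A.B j).r)
    {Q : MvPolynomial (Fin (M + 1)) ℂ} {d K n : ℕ} (hQ : Q.IsHomogeneous d) (hQF : ∃ z, eval (F z).ofLp Q ≠ 0) (hn : 1 ≤ n) {δ : ℝ} (hδ : 0 < δ)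
    (hN : ∀ i, ¬ (A.B i).Reg → LocalN (A.B i) (D.g i) F s δ) (hT : ∀ i, ¬ (A.B i).Reg → LocalT (A.B i) F Q d K n s δ)
    (hlog : ∃ C : ℝ, ∀ R, 1 ≤ R → ∫ z, rhoR R z * max 0 (Real.log (lam F z)) ≤ C) :
    Pack F (lam F) (2 * j / m - 2 * (K * d / n)) (Fintype.card A.ι * δ) := by
  sorry

end Pool.Agent.MQ.Stub
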