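import Pool.Agent.MQ.GeoDefs

/-!
# MQ GauB: bump functions on the boxes, the cones over closed polydiscs are closed
-/

set_option autoImplicit false

open Topology Filter Metric MvPolynomial

noncomputable section

namespace Pool.Agent.MQ

open Pool.Agent.H36.BP (EN)

variable {M : ℕ} {P : Ideal (MvPolynomial (Fin (M + 1)) ℂ)} {FF : Set (EN M × EN M)}

/-- a smooth function on `ℂ × ℂ` which is `1` on the closed polydisc of radius `r / 4` and `0` outside the one of radius `r / 2` -/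
theorem exists_bump {r : ℝ} (hr : 0 < r) : ∃ χ : ℂ × ℂ → ℝ, (∀ n : ℕ∞, ContDiff ℝ n χ) ∧ (∀ p, 0 ≤ χ p) ∧ (∀ p, χ p ≤ 1) ∧
    (∀ p ∈ closedBall (0 : ℂ × ℂ) (r / 4), χ p = 1) ∧ ∀ p, p ∉ ball (0 : ℂ × ℂ) (r / 2) → χ p = 0 := by
  let f : ContDiffBump (0 : ℂ × ℂ) := ⟨r / 4, r / 2, by linarith, by linarith⟩
  refine ⟨f, fun n => f.contDiff, fun p => f.nonneg, fun p => f.le_one, fun p hp => f.one_of_mem_closedBall hp, fun p hp => ?_⟩
  refine f.zero_of_le_dist ?_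
  rw [mem_ball] at hp
  push Not at hp
  exact hp

/-- the cone over the closed polydisc of radius `s` -/
def GBox.UC (B : GBox P FF) (s : ℝ) : Set (EN M) := {x | ∃ p ∈ closedBall (0 : ℂ × ℂ) s, ∃ c : ℂ, c ≠ 0 ∧ x = c • B.σ p}

theorem GBox.U_subset_UC (B : GBox P FF) (s : ℝ) : B.U s ⊆ B.UC s := by
  rintro x ⟨p, hp, c, hc, h⟩
  exact ⟨p, ball_subset_closedBall hp, c, hc, h⟩

theorem GBox.UC_subset_U (B : GBox P FF) {s s' : ℝ} (h : s < s') : B.UC s ⊆ B.U s' := by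
  rintro x ⟨p, hp, c, hc, hx⟩
  exact ⟨p, closedBall_subset_ball h hp, c, hc, hx⟩

theorem GBox.U_mono (B : GBox P FF) {s s' : ℝ} (h : s ≤ s') : B.U s ⊆ B.U s' := by
  rintro x ⟨p, hp, c, hc, hx⟩
  exact ⟨p, ball_subset_ball h hp, c, hc, hx⟩

theorem GBox.UC_mono (B : GBox P FF) {s s' : ℝ} (h : s ≤ s') : B.UC s ⊆ B.UC s' := by
  rintro x ⟨p, hp, c, hc, hx⟩
  exact ⟨p, closedBall_subset_closedBall h hp, c, hc, hx⟩

theorem GBox.UC_smul (B : GBox P FF) {s : ℝ} {x : EN M} (hx : x ∈ B.UC s) {c : ℂ} (hc : c ≠ 0) : c • x ∈ B.UC s := by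
  obtain ⟨p, hp, d, hd, rfl⟩ := hx
  exact ⟨p, hp, c * d, mul_ne_zero hc hd, by rw [smul_smul]⟩

theorem GBox.U_smul (B : GBox P FF) {s : ℝ} {x : EN M} (hx : x ∈ B.U s) {c : ℂ} (hc : c ≠ 0) : c • x ∈ B.U s := by
  obtain ⟨p, hp, d, hd, rfl⟩ := hx
  exact ⟨p, hp, c * d, mul_ne_zero hc hd, by rw [smul_smul]⟩

theorem GBox.σ_ne (B : GBox P FF) {p : ℂ × ℂ} (hp : p ∈ closedBall (0 : ℂ × ℂ) B.r) : B.σ p ≠ 0 := by
  have := (B.imm p hp).ne_zero 0
  simpa using this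

/-- the cone over a closed polydisc is closed, up to the vertex -/
theorem GBox.eventually_notMem_UC (B : GBox P FF) {s : ℝ} (hs : s ≤ B.r) {x : EN M} (hx : x ≠ 0) (h : x ∉ B.UC s) : ∀ᶠ y in 𝓝 x, y ∉ B.UC s := by
  have hK : IsCompact (closedBall (0 : ℂ × ℂ) s) := isCompact_closedBall 0 s
  have hsub : closedBall (0 : ℂ × ℂ) s ⊆ closedBall 0 B.r := closedBall_subset_closedBall hs
  have hcont : ContinuousOn B.σ (closedBall (0 : ℂ × ℂ) s) := fun p hp => (B.σ_an p (hsub hp)).continuousAt.continuousWithinAt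
  rcases (closedBall (0 : ℂ × ℂ) s).eq_empty_or_nonempty with he | hne
  · refine Eventually.of_forall fun y => ?_
    rintro ⟨p, hp, -⟩
    rw [he] at hp
    exact hp
  · obtain ⟨p₀, hp₀, hmin⟩ := hK.exists_isMinOn hne hcont.norm
    have hm : 0 < ‖B.σ p₀‖ := norm_pos_iff.2 (B.σ_ne (hsub hp₀))
    -- the compact set
    have hT : IsCompact ((fun q : (ℂ × ℂ) × ℂ => q.2 • B.σ q.1) '' (closedBall (0 : ℂ × ℂ) s ×ˢ closedBall (0 : ℂ) ((‖x‖ + 1) / ‖B.σ p₀‖))) := by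
      refine (hK.prod (isCompact_closedBall _ _)).image_of_continuousOn ?_
      refine continuousOn_snd.smul (hcont.comp continuousOn_fst ?_)
      intro q hq
      exact hq.1
    have hxT : x ∉ (fun q : (ℂ × ℂ) × ℂ => q.2 • B.σ q.1) '' (closedBall (0 : ℂ × ℂ) s ×ˢ closedBall (0 : ℂ) ((‖x‖ + 1) / ‖B.σ p₀‖)) := by
      rintro ⟨q, hq, hq2⟩
      refine h ⟨q.1, hq.1, q.2, ?_, hq2.symm⟩
      intro h0
      rw [← hq2] at hx
      simp [h0] at hx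
    filter_upwards [hT.isClosed.isOpen_compl.mem_nhds hxT, ball_mem_nhds x one_pos] with y hy1 hy2
    rintro ⟨p, hp, c, hc, rfl⟩
    refine hy1 ⟨(p, c), ⟨hp, ?_⟩, rfl⟩
    rw [mem_closedBall, dist_zero_right, le_div_iff₀ hm]
    have h1 : ‖c • B.σ p‖ ≤ ‖x‖ + 1 := by
      have h2 := norm_sub_norm_le (c • B.σ p) x
      rw [mem_ball, dist_eq_norm] at hy2
      linarith
    rw [norm_smul] at h1
    have h3 : ‖B.σ p₀‖ ≤ ‖B.σ p‖ := hmin hp
    exact (mul_le_mul_of_nonneg_left h3 (norm_nonneg c)).trans h1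

/-- the same in the coordinates of another box -/
theorem GBox.eventually_σ_notMem_UC (A B : GBox P FF) {s : ℝ} (hs : s ≤ B.r) {p : ℂ × ℂ} (hp : p ∈ closedBall (0 : ℂ × ℂ) A.r) (h : A.σ p ∉ B.UC s) :
    ∀ᶠ w in 𝓝 p, A.σ w ∉ B.UC s :=
  (A.σ_an p hp).continuousAt.eventually (B.eventually_notMem_UC hs (A.σ_ne hp) h)

/-- a point of the cone over an open polydisc: the points of the surface near it are in the cone over this polydisc -/
theorem GBox.eventually_mem_U (B : GBox P FF) {s : ℝ} (hs : s ≤ B.r) {x : EN M} (hX : ∀ y ∈ Pool.Agent.H17EF.coneE P, ∀ c : ℂ, c ≠ 0 → c • y ∈ Pool.Agent.H17EF.coneE P)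
    (h : x ∈ B.U s) : ∀ᶠ y in 𝓝 x, y ∈ Pool.Agent.H17EF.coneE P → y ∈ B.U s := by
  obtain ⟨p, hp, c, hc, rfl⟩ := h
  obtain ⟨T, d, hT, hd, hTp, hdp, hev⟩ := B.opn p (ball_subset_ball hs hp)
  have h1 : Tendsto (fun y : EN M => c⁻¹ • y) (𝓝 (c • B.σ p)) (𝓝 (B.σ p)) := by
    have h2 : ContinuousAt (fun y : EN M => c⁻¹ • y) (c • B.σ p) := by fun_prop
    have h3 := h2.tendsto
    rwa [smul_smul, inv_mul_cancel₀ hc, one_smul] at h3
  have h4 : ∀ᶠ y in 𝓝 (B.σ p), T y ∈ ball (0 : ℂ × ℂ) s := hT.continuousAt.eventually (by rw [hTp]; exact isOpen_ball.mem_nhds hp)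
  have h5 : ∀ᶠ y in 𝓝 (B.σ p), d y ≠ 0 := hd.continuousAt.eventually_ne (by rw [hdp]; exact one_ne_zero)
  filter_upwards [h1.eventually h4, h1.eventually h5, h1.eventually hev] with y h6 h7 h8 hy
  have h9 := h8 (hX y hy _ (inv_ne_zero hc))
  refine ⟨T (c⁻¹ • y), h6, c * d (c⁻¹ • y), mul_ne_zero hc h7, ?_⟩
  rw [← smul_smul, ← h9, smul_smul, mul_inv_cancel₀ hc, one_smul]

end Pool.Agent.MQ
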