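import Pool.Agent.MQ.GDefs

/-!
Integration by parts against compactly supported functions on the complex plane
(first and second Green identity), for the project MQ.
-/

namespace Pool.Agent.MQ

open MeasureTheory Complex

/-! ### regularity -/

lemma contDiffAt_gr {u : ℂ → ℝ} {z : ℂ} {m n : WithTop ℕ∞} (hu : ContDiffAt ℝ n u z)
    (hmn : m + 1 ≤ n) : ContDiffAt ℝ m (gr u) z :=
  grL.contDiff.contDiffAt.comp z (hu.fderiv_right hmn)

lemma contDiff_gr {u : ℂ → ℝ} {m n : WithTop ℕ∞} (hu : ContDiff ℝ n u)
    (hmn : m + 1 ≤ n) : ContDiff ℝ m (gr u) :=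
  grL.contDiff.comp (hu.fderiv_right hmn)

lemma continuousAt_gr {u : ℂ → ℝ} {z : ℂ} (hu : ContDiffAt ℝ 1 u z) : ContinuousAt (gr u) z :=
  (contDiffAt_gr (m := 0) hu (by norm_num)).continuousAt

lemma continuous_gr {u : ℂ → ℝ} (hu : ContDiff ℝ 1 u) : Continuous (gr u) :=
  (contDiff_gr (m := 0) hu (by norm_num)).continuous

lemma continuousAt_dv {V : ℂ → ℂ} {z : ℂ} (hV : ContDiffAt ℝ 1 V z) : ContinuousAt (dv V) z := by
  have h : ContinuousAt (fderiv ℝ V) z := (hV.fderiv_right (m := 0) (by norm_num)).continuousAt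
  have h1 : ContinuousAt (fun w => (fderiv ℝ V w 1).re) z :=
    Complex.continuous_re.continuousAt.comp (h.clm_apply continuousAt_const)
  have h2 : ContinuousAt (fun w => (fderiv ℝ V w Complex.I).im) z :=
    Complex.continuous_im.continuousAt.comp (h.clm_apply continuousAt_const)
  exact h1.add h2

lemma continuousAt_lp {u : ℂ → ℝ} {z : ℂ} (hu : ContDiffAt ℝ 2 u z) : ContinuousAt (lp u) z :=
  continuousAt_dv (contDiffAt_gr hu (by norm_num))

lemma continuous_lp {u : ℂ → ℝ} (hu : ContDiff ℝ 2 u) : Continuous (lp u) :=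
  continuous_iff_continuousAt.2 fun _ => continuousAt_lp hu.contDiffAt

lemma differentiableAt_gr {u : ℂ → ℝ} {z : ℂ} (hu : ContDiffAt ℝ 2 u z) :
    DifferentiableAt ℝ (gr u) z :=
  (contDiffAt_gr (m := 1) hu (by norm_num)).differentiableAt (by norm_num)

lemma tsupport_gr (u : ℂ → ℝ) : tsupport (gr u) ⊆ tsupport u := by
  intro z hz
  by_contra h
  have h1 : u =ᶠ[nhds z] 0 := notMem_tsupport_iff_eventuallyEq.1 h
  have h2 : gr u =ᶠ[nhds z] 0 := by
    filter_upwards [gr_eventuallyEq h1] with w hw
    rw [hw]; exact gr_const 0 w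
  exact (notMem_tsupport_iff_eventuallyEq.2 h2) hz

lemma gr_eq_zero {u : ℂ → ℝ} {z : ℂ} (hz : z ∉ tsupport u) : gr u z = 0 := by
  by_contra h
  exact hz (tsupport_gr u (subset_tsupport _ h))

lemma tsupport_lp (u : ℂ → ℝ) : tsupport (lp u) ⊆ tsupport u := by
  intro z hz
  by_contra h
  have h1 : u =ᶠ[nhds z] (fun _ => 0) := notMem_tsupport_iff_eventuallyEq.1 h
  have h2 : lp u =ᶠ[nhds z] 0 := by
    filter_upwards [h1.eventuallyEq_nhds] with w hw
    rw [lp_congr hw]
    have h3 : gr (fun _ : ℂ => (0 : ℝ)) = fun _ => 0 := by funext x; exact gr_const 0 x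
    unfold lp; rw [h3]; exact dv_const 0 w
  exact (notMem_tsupport_iff_eventuallyEq.2 h2) hz

lemma lp_eq_zero {u : ℂ → ℝ} {z : ℂ} (hz : z ∉ tsupport u) : lp u z = 0 := by
  by_contra h
  exact hz (tsupport_lp u (subset_tsupport _ h))

lemma hasCompactSupport_gr {u : ℂ → ℝ} (hc : HasCompactSupport u) : HasCompactSupport (gr u) :=
  hc.of_isClosed_subset (isClosed_tsupport _) (tsupport_gr u)

lemma hasCompactSupport_lp {u : ℂ → ℝ} (hc : HasCompactSupport u) : HasCompactSupport (lp u) :=
  hc.of_isClosed_subset (isClosed_tsupport _) (tsupport_lp u)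

/-- Products with a factor supported where the other factor is continuous. -/
lemma cont_mul {f g : ℂ → ℝ} (hg : Continuous g) (hf : ∀ z ∈ tsupport g, ContinuousAt f z) :
    Continuous (fun z => g z * f z) := by
  rw [continuous_iff_continuousAt]
  intro z
  by_cases hz : z ∈ tsupport g
  · exact hg.continuousAt.mul (hf z hz)
  · have h1 : g =ᶠ[nhds z] 0 := notMem_tsupport_iff_eventuallyEq.1 hz
    have h2 : (fun w => g w * f w) =ᶠ[nhds z] (fun _ => 0) := by
      filter_upwards [h1] with w hw
      rw [hw]; simp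
    exact h2.continuousAt

lemma cont_ip {V W : ℂ → ℂ} (hV : Continuous V) (hW : ∀ z ∈ tsupport V, ContinuousAt W z) :
    Continuous (fun z => ip (V z) (W z)) := by
  rw [continuous_iff_continuousAt]
  intro z
  by_cases hz : z ∈ tsupport V
  · have hW' := hW z hz
    have h1 : ContinuousAt (fun w => (V w).re * (W w).re) z :=
      (Complex.continuous_re.comp hV).continuousAt.mul
        (Complex.continuous_re.continuousAt.comp hW')
    have h2 : ContinuousAt (fun w => (V w).im * (W w).im) z :=
      (Complex.continuous_im.comp hV).continuousAt.mul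
        (Complex.continuous_im.continuousAt.comp hW')
    exact h1.add h2
  · have h1 : V =ᶠ[nhds z] 0 := notMem_tsupport_iff_eventuallyEq.1 hz
    have h2 : (fun w => ip (V w) (W w)) =ᶠ[nhds z] (fun _ => 0) := by
      filter_upwards [h1] with w hw
      rw [hw]; simp
    exact h2.continuousAt

lemma int_mul {f g : ℂ → ℝ} (hg : Continuous g) (hc : HasCompactSupport g)
    (hf : ∀ z ∈ tsupport g, ContinuousAt f z) : Integrable (fun z => g z * f z) :=
  (cont_mul hg hf).integrable_of_hasCompactSupport hc.mul_right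

lemma int_ip {V W : ℂ → ℂ} (hV : Continuous V) (hc : HasCompactSupport V)
    (hW : ∀ z ∈ tsupport V, ContinuousAt W z) : Integrable (fun z => ip (V z) (W z)) := by
  apply (cont_ip hV hW).integrable_of_hasCompactSupport
  apply hc.of_isClosed_subset (isClosed_tsupport _)
  apply closure_mono
  intro z hz h0
  apply hz
  simp only [h0, ip_zero_left]

/-! ### integration by parts -/

/-- Integration by parts in one direction. -/
theorem ibp_dir {g f : ℂ → ℝ} (e : ℂ) (hg : ContDiff ℝ 1 g) (hc : HasCompactSupport g)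
    (hf : ∀ z ∈ tsupport g, ContDiffAt ℝ 1 f z) :
    ∫ z, fderiv ℝ g z e * f z = - ∫ z, g z * fderiv ℝ f z e := by
  have hgd : ∀ z, DifferentiableAt ℝ g z := fun z => hg.differentiable (by norm_num) z
  have hgc : Continuous (fun z => fderiv ℝ g z e) :=
    (hg.continuous_fderiv (by norm_num)).clm_apply continuous_const
  have hsup : tsupport (fun z => fderiv ℝ g z e) ⊆ tsupport g := by
    intro z hz
    by_contra h
    have h1 : g =ᶠ[nhds z] 0 := notMem_tsupport_iff_eventuallyEq.1 h
    have h2 : (fun w => fderiv ℝ g w e) =ᶠ[nhds z] 0 := by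
      filter_upwards [h1.eventuallyEq_nhds] with w hw
      rw [hw.fderiv_eq]
      simp
    exact (notMem_tsupport_iff_eventuallyEq.2 h2) hz
  have hcc : HasCompactSupport (fun z => fderiv ℝ g z e) :=
    hc.of_isClosed_subset (isClosed_tsupport _) hsup
  have i1 : Integrable (fun z => fderiv ℝ g z e * f z) :=
    int_mul hgc hcc (fun z hz => (hf z (hsup hz)).continuousAt)
  have i2 : Integrable (fun z => g z * fderiv ℝ f z e) := by
    apply int_mul hg.continuous hc
    intro z hz
    have h := ((hf z hz).fderiv_right (m := 0) (by norm_num)).continuousAt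
    exact h.clm_apply continuousAt_const
  have i3 : Integrable (fun z => g z * f z) :=
    int_mul hg.continuous hc (fun z hz => (hf z hz).continuousAt)
  have key := integral_mul_fderiv_eq_neg_fderiv_mul_of_integrable (μ := (volume : Measure ℂ))
    (f := g) (g := f) (v := e) i1 i2 i3 (fun z _ => hgd z)
    (fun z hz => (hf z hz).differentiableAt (by norm_num))
  rw [key, neg_neg]

/-- Integration by parts for gradients and divergences. -/
theorem ibp {g : ℂ → ℝ} {V : ℂ → ℂ} (hg : ContDiff ℝ 1 g) (hc : HasCompactSupport g)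
    (hV : ∀ z ∈ tsupport g, ContDiffAt ℝ 1 V z) :
    ∫ z, ip (gr g z) (V z) = - ∫ z, g z * dv V z := by
  have hre : ∀ z ∈ tsupport g, ContDiffAt ℝ 1 (fun w => (V w).re) z := fun z hz =>
    Complex.reCLM.contDiff.contDiffAt.comp z (hV z hz)
  have him : ∀ z ∈ tsupport g, ContDiffAt ℝ 1 (fun w => (V w).im) z := fun z hz =>
    Complex.imCLM.contDiff.contDiffAt.comp z (hV z hz)
  have e1 := ibp_dir 1 hg hc hre
  have e2 := ibp_dir Complex.I hg hc him
  have f1 : (fun z => g z * fderiv ℝ (fun w => (V w).re) z 1) =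
      fun z => g z * (fderiv ℝ V z 1).re := by
    funext z
    by_cases hz : z ∈ tsupport g
    · have h : HasFDerivAt (fun w => (V w).re) (Complex.reCLM.comp (fderiv ℝ V z)) z :=
        Complex.reCLM.hasFDerivAt.comp z ((hV z hz).differentiableAt (by norm_num)).hasFDerivAt
      rw [h.fderiv]; rfl
    · rw [image_eq_zero_of_notMem_tsupport hz]; simp
  have f2 : (fun z => g z * fderiv ℝ (fun w => (V w).im) z Complex.I) =
      fun z => g z * (fderiv ℝ V z Complex.I).im := by
    funext z
    by_cases hz : z ∈ tsupport g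
    · have h : HasFDerivAt (fun w => (V w).im) (Complex.imCLM.comp (fderiv ℝ V z)) z :=
        Complex.imCLM.hasFDerivAt.comp z ((hV z hz).differentiableAt (by norm_num)).hasFDerivAt
      rw [h.fderiv]; rfl
    · rw [image_eq_zero_of_notMem_tsupport hz]; simp
  rw [f1] at e1
  rw [f2] at e2
  have hgr : Continuous (gr g) := continuous_gr hg
  have hgrc := hasCompactSupport_gr hc
  have hfd : ∀ z ∈ tsupport g, ContinuousAt (fderiv ℝ V) z := fun z hz =>
    ((hV z hz).fderiv_right (m := 0) (by norm_num)).continuousAt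
  have i1 : Integrable (fun z => fderiv ℝ g z 1 * (V z).re) := by
    refine int_mul (Complex.continuous_re.comp hgr) ?_ ?_
    · exact hgrc.comp_left (g := Complex.re) rfl
    · intro z hz
      have hz' : z ∈ tsupport g := tsupport_gr g (by
        refine closure_mono ?_ hz
        intro w hw h0
        apply hw
        show (gr g w).re = 0
        rw [h0]; rfl)
      exact (hre z hz').continuousAt
  have i2 : Integrable (fun z => fderiv ℝ g z Complex.I * (V z).im) := by
    refine int_mul (Complex.continuous_im.comp hgr) ?_ ?_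
    · exact hgrc.comp_left (g := Complex.im) rfl
    · intro z hz
      have hz' : z ∈ tsupport g := tsupport_gr g (by
        refine closure_mono ?_ hz
        intro w hw h0
        apply hw
        show (gr g w).im = 0
        rw [h0]; rfl)
      exact (him z hz').continuousAt
  have j1 : Integrable (fun z => g z * (fderiv ℝ V z 1).re) :=
    int_mul hg.continuous hc (fun z hz =>
      Complex.continuous_re.continuousAt.comp ((hfd z hz).clm_apply continuousAt_const))
  have j2 : Integrable (fun z => g z * (fderiv ℝ V z Complex.I).im) :=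
    int_mul hg.continuous hc (fun z hz =>
      Complex.continuous_im.continuousAt.comp ((hfd z hz).clm_apply continuousAt_const))
  have L : (fun z => ip (gr g z) (V z)) =
      fun z => fderiv ℝ g z 1 * (V z).re + fderiv ℝ g z Complex.I * (V z).im := rfl
  have R : (fun z => g z * dv V z) =
      fun z => g z * (fderiv ℝ V z 1).re + g z * (fderiv ℝ V z Complex.I).im := by
    funext z; unfold dv; ring
  rw [L, R, integral_add i1 i2, integral_add j1 j2, e1, e2]
  ring

/-- First Green identity. -/
theorem green1 {g u : ℂ → ℝ} (hg : ContDiff ℝ 1 g) (hc : HasCompactSupport g)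
    (hu : ∀ z ∈ tsupport g, ContDiffAt ℝ 2 u z) :
    ∫ z, ip (gr g z) (gr u z) = - ∫ z, g z * lp u z :=
  ibp hg hc (fun z hz => contDiffAt_gr (hu z hz) (by norm_num))

/-- Integration by parts, the derivatives on the compactly supported vector field. -/
theorem ibp_field {V : ℂ → ℂ} {u : ℂ → ℝ} (hV : ContDiff ℝ 1 V) (hc : HasCompactSupport V)
    (hu : ∀ z ∈ tsupport V, ContDiffAt ℝ 1 u z) :
    ∫ z, ip (V z) (gr u z) = - ∫ z, u z * dv V z := by
  have hre : ContDiff ℝ 1 (fun w => (V w).re) := Complex.reCLM.contDiff.comp hV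
  have him : ContDiff ℝ 1 (fun w => (V w).im) := Complex.imCLM.contDiff.comp hV
  have sre : tsupport (fun w => (V w).re) ⊆ tsupport V := by
    apply closure_mono
    intro w hw h0
    apply hw
    show (V w).re = 0
    rw [h0]; rfl
  have sim : tsupport (fun w => (V w).im) ⊆ tsupport V := by
    apply closure_mono
    intro w hw h0
    apply hw
    show (V w).im = 0
    rw [h0]; rfl
  have cre : HasCompactSupport (fun w => (V w).re) :=
    hc.of_isClosed_subset (isClosed_tsupport _) sre
  have cim : HasCompactSupport (fun w => (V w).im) :=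
    hc.of_isClosed_subset (isClosed_tsupport _) sim
  have e1 := ibp_dir 1 hre cre (fun z hz => hu z (sre hz))
  have e2 := ibp_dir Complex.I him cim (fun z hz => hu z (sim hz))
  have hVd : ∀ z, DifferentiableAt ℝ V z := fun z => hV.differentiable (by norm_num) z
  have d1 : ∀ z, fderiv ℝ (fun w => (V w).re) z 1 = (fderiv ℝ V z 1).re := by
    intro z
    have h : HasFDerivAt (fun w => (V w).re) (Complex.reCLM.comp (fderiv ℝ V z)) z :=
      Complex.reCLM.hasFDerivAt.comp z (hVd z).hasFDerivAt
    rw [h.fderiv]; rfl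
  have d2 : ∀ z, fderiv ℝ (fun w => (V w).im) z Complex.I = (fderiv ℝ V z Complex.I).im := by
    intro z
    have h : HasFDerivAt (fun w => (V w).im) (Complex.imCLM.comp (fderiv ℝ V z)) z :=
      Complex.imCLM.hasFDerivAt.comp z (hVd z).hasFDerivAt
    rw [h.fderiv]; rfl
  simp only [d1] at e1
  simp only [d2] at e2
  have hfd : Continuous (fderiv ℝ V) := hV.continuous_fderiv (by norm_num)
  have sfd : tsupport (fderiv ℝ V) ⊆ tsupport V := tsupport_fderiv_subset ℝ
  have cfd : HasCompactSupport (fderiv ℝ V) := hc.fderiv (𝕜 := ℝ)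
  have s1 : tsupport (fun z => (fderiv ℝ V z 1).re) ⊆ tsupport V := by
    refine (closure_mono ?_).trans sfd
    intro w hw h0
    apply hw
    show (fderiv ℝ V w 1).re = 0
    rw [h0]; rfl
  have s2 : tsupport (fun z => (fderiv ℝ V z Complex.I).im) ⊆ tsupport V := by
    refine (closure_mono ?_).trans sfd
    intro w hw h0
    apply hw
    show (fderiv ℝ V w Complex.I).im = 0
    rw [h0]; rfl
  have hug : ∀ z ∈ tsupport V, ContinuousAt (fderiv ℝ u) z := fun z hz =>
    ((hu z hz).fderiv_right (m := 0) (by norm_num)).continuousAt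
  have i1 : Integrable (fun z => (V z).re * fderiv ℝ u z 1) :=
    int_mul hre.continuous cre (fun z hz => (hug z (sre hz)).clm_apply continuousAt_const)
  have i2 : Integrable (fun z => (V z).im * fderiv ℝ u z Complex.I) :=
    int_mul him.continuous cim (fun z hz => (hug z (sim hz)).clm_apply continuousAt_const)
  have j1 : Integrable (fun z => (fderiv ℝ V z 1).re * u z) :=
    int_mul (Complex.continuous_re.comp (hfd.clm_apply continuous_const))
      (hc.of_isClosed_subset (isClosed_tsupport _) s1) (fun z hz => (hu z (s1 hz)).continuousAt)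
  have j2 : Integrable (fun z => (fderiv ℝ V z Complex.I).im * u z) :=
    int_mul (Complex.continuous_im.comp (hfd.clm_apply continuous_const))
      (hc.of_isClosed_subset (isClosed_tsupport _) s2) (fun z hz => (hu z (s2 hz)).continuousAt)
  have L : (fun z => ip (V z) (gr u z)) =
      fun z => (V z).re * fderiv ℝ u z 1 + (V z).im * fderiv ℝ u z Complex.I := rfl
  have R : (fun z => u z * dv V z) =
      fun z => (fderiv ℝ V z 1).re * u z + (fderiv ℝ V z Complex.I).im * u z := by
    funext z; unfold dv; ring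
  rw [L, R, integral_add i1 i2, integral_add j1 j2, e1, e2]
  ring

/-- First Green identity with the second derivatives on the compactly supported factor. -/
theorem green1' {g u : ℂ → ℝ} (hg : ContDiff ℝ 2 g) (hc : HasCompactSupport g)
    (hu : ∀ z ∈ tsupport g, ContDiffAt ℝ 1 u z) :
    ∫ z, ip (gr g z) (gr u z) = - ∫ z, u z * lp g z :=
  ibp_field (contDiff_gr hg (by norm_num)) (hasCompactSupport_gr hc)
    (fun z hz => hu z (tsupport_gr g hz))

/-- Second Green identity. -/
theorem green2 {g u : ℂ → ℝ} (hg : ContDiff ℝ 2 g) (hc : HasCompactSupport g)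
    (hu : ∀ z ∈ tsupport g, ContDiffAt ℝ 2 u z) :
    ∫ z, g z * lp u z = ∫ z, u z * lp g z := by
  have h1 := green1 (hg.of_le (by norm_num)) hc hu
  have h2 := green1' hg hc (fun z hz => (hu z hz).of_le (by norm_num))
  linarith

end Pool.Agent.MQ
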