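import Mathlib

/-!
# MQ/Ibp: integration by parts on `ℂ`

`dx u`, `dy u` are the partial derivatives, `lap` the Laplacian, `dot`/`jac` the scalar product and the Jacobian of two gradients.
-/

set_option autoImplicit false

open MeasureTheory Topology Filter Set

noncomputable section

namespace Pool.Agent.MQ

/-- `∂u/∂x` -/
def dx (u : ℂ → ℝ) (z : ℂ) : ℝ := fderiv ℝ u z 1

/-- `∂u/∂y` -/
def dy (u : ℂ → ℝ) (z : ℂ) : ℝ := fderiv ℝ u z Complex.I

/-- the Laplacian -/
def lap (u : ℂ → ℝ) (z : ℂ) : ℝ := dx (dx u) z + dy (dy u) z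

/-- `∇a ⬝ ∇b` -/
def dot (a b : ℂ → ℝ) (z : ℂ) : ℝ := dx a z * dx b z + dy a z * dy b z

/-- the Jacobian of `(a, b)` -/
def jac (a b : ℂ → ℝ) (z : ℂ) : ℝ := dx a z * dy b z - dy a z * dx b z

/-! ## continuity of products with a compactly supported function -/

theorem continuous_mul_of_tsupport {τ f : ℂ → ℝ} (hτ : Continuous τ) (hf : ∀ z ∈ tsupport τ, ContinuousAt f z) :
    Continuous fun z => τ z * f z := by
  rw [continuous_iff_continuousAt]
  intro z
  by_cases hz : z ∈ tsupport τ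
  · exact hτ.continuousAt.mul (hf z hz)
  · have h0 : τ =ᶠ[𝓝 z] 0 := notMem_tsupport_iff_eventuallyEq.1 hz
    have h1 : (fun z => τ z * f z) =ᶠ[𝓝 z] fun _ => 0 := by
      filter_upwards [h0] with w hw
      simp [hw]
    exact continuousAt_const.congr h1.symm

theorem hasCompactSupport_mul {τ f : ℂ → ℝ} (hc : HasCompactSupport τ) : HasCompactSupport fun z => τ z * f z :=
  hc.mul_right

theorem integrable_mul_of_tsupport {τ f : ℂ → ℝ} (hτ : Continuous τ) (hc : HasCompactSupport τ)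
    (hf : ∀ z ∈ tsupport τ, ContinuousAt f z) : Integrable fun z => τ z * f z :=
  (continuous_mul_of_tsupport hτ hf).integrable_of_hasCompactSupport hc.mul_right

theorem continuousAt_fderiv_apply {f : ℂ → ℝ} {z : ℂ} (hf : ContDiffAt ℝ 1 f z) (v : ℂ) :
    ContinuousAt (fun w => fderiv ℝ f w v) z :=
  (hf.continuousAt_fderiv one_ne_zero).clm_apply continuousAt_const

theorem continuousAt_dx {f : ℂ → ℝ} {z : ℂ} (hf : ContDiffAt ℝ 1 f z) : ContinuousAt (dx f) z := continuousAt_fderiv_apply hf 1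

theorem continuousAt_dy {f : ℂ → ℝ} {z : ℂ} (hf : ContDiffAt ℝ 1 f z) : ContinuousAt (dy f) z :=
  continuousAt_fderiv_apply hf Complex.I

/-! ## integration by parts -/

theorem ibp_fd {τ f : ℂ → ℝ} (hτ : ContDiff ℝ 1 τ) (hc : HasCompactSupport τ) (hf : ∀ z ∈ tsupport τ, ContDiffAt ℝ 1 f z) (v : ℂ) :
    ∫ z, τ z * fderiv ℝ f z v = -∫ z, fderiv ℝ τ z v * f z := by
  have hdc : Continuous fun z => fderiv ℝ τ z v := (hτ.continuous_fderiv one_ne_zero).clm_apply continuous_const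
  have hsub : tsupport (fun z => fderiv ℝ τ z v) ⊆ tsupport τ := tsupport_fderiv_apply_subset ℝ v
  refine integral_mul_fderiv_eq_neg_fderiv_mul_of_integrable ?_ ?_ ?_ ?_ ?_
  · exact integrable_mul_of_tsupport hdc (hc.of_isClosed_subset (isClosed_tsupport _) hsub) fun z hz => (hf z (hsub hz)).continuousAt
  · exact integrable_mul_of_tsupport hτ.continuous hc fun z hz => continuousAt_fderiv_apply (hf z hz) v
  · exact integrable_mul_of_tsupport hτ.continuous hc fun z hz => (hf z hz).continuousAt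
  · exact fun z _ => hτ.differentiable one_ne_zero z
  · exact fun z hz => (hf z hz).differentiableAt one_ne_zero

theorem integral_fderiv_eq_zero {τ : ℂ → ℝ} (hτ : ContDiff ℝ 1 τ) (hc : HasCompactSupport τ) (v : ℂ) : ∫ z, fderiv ℝ τ z v = 0 := by
  have h := ibp_fd hτ hc (f := fun _ => (1 : ℝ)) (fun z _ => contDiffAt_const) v
  simp at h
  linarith

/-- divergence theorem: `∫ τ div W = -∫ ∇τ ⬝ W` -/
theorem ibp_div {τ a b : ℂ → ℝ} (hτ : ContDiff ℝ 1 τ) (hc : HasCompactSupport τ) (ha : ∀ z ∈ tsupport τ, ContDiffAt ℝ 1 a z)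
    (hb : ∀ z ∈ tsupport τ, ContDiffAt ℝ 1 b z) :
    ∫ z, τ z * (dx a z + dy b z) = -∫ z, (dx τ z * a z + dy τ z * b z) := by
  have h1 := ibp_fd hτ hc ha 1
  have h2 := ibp_fd hτ hc hb Complex.I
  have hsub : ∀ v : ℂ, tsupport (fun z => fderiv ℝ τ z v) ⊆ tsupport τ := fun v => tsupport_fderiv_apply_subset ℝ v
  have hdc : ∀ v : ℂ, Continuous fun z => fderiv ℝ τ z v := fun v => (hτ.continuous_fderiv one_ne_zero).clm_apply continuous_const
  have i1 : Integrable fun z => τ z * dx a z := integrable_mul_of_tsupport hτ.continuous hc fun z hz => continuousAt_dx (ha z hz)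
  have i2 : Integrable fun z => τ z * dy b z := integrable_mul_of_tsupport hτ.continuous hc fun z hz => continuousAt_dy (hb z hz)
  have i3 : Integrable fun z => dx τ z * a z :=
    integrable_mul_of_tsupport (hdc 1) (hc.of_isClosed_subset (isClosed_tsupport _) (hsub 1)) fun z hz => (ha z (hsub 1 hz)).continuousAt
  have i4 : Integrable fun z => dy τ z * b z :=
    integrable_mul_of_tsupport (hdc _) (hc.of_isClosed_subset (isClosed_tsupport _) (hsub _)) fun z hz => (hb z (hsub _ hz)).continuousAt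
  simp_rw [mul_add]
  rw [integral_add i1 i2, integral_add i3 i4]
  have e1 : ∫ z, τ z * dx a z = -∫ z, dx τ z * a z := h1
  have e2 : ∫ z, τ z * dy b z = -∫ z, dy τ z * b z := h2
  rw [e1, e2]
  ring

theorem contDiffAt_fderiv_apply {f : ℂ → ℝ} {z : ℂ} (hf : ContDiffAt ℝ 2 f z) (v : ℂ) : ContDiffAt ℝ 1 (fun w => fderiv ℝ f w v) z :=
  (hf.fderiv_right (by norm_num)).clm_apply contDiffAt_const

theorem contDiffAt_dx {f : ℂ → ℝ} {z : ℂ} (hf : ContDiffAt ℝ 2 f z) : ContDiffAt ℝ 1 (dx f) z := contDiffAt_fderiv_apply hf 1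

theorem contDiffAt_dy {f : ℂ → ℝ} {z : ℂ} (hf : ContDiffAt ℝ 2 f z) : ContDiffAt ℝ 1 (dy f) z := contDiffAt_fderiv_apply hf Complex.I

/-- Green: `∫ τ Δu = -∫ ∇τ ⬝ ∇u` -/
theorem green {τ u : ℂ → ℝ} (hτ : ContDiff ℝ 1 τ) (hc : HasCompactSupport τ) (hu : ∀ z ∈ tsupport τ, ContDiffAt ℝ 2 u z) :
    ∫ z, τ z * lap u z = -∫ z, dot τ u z :=
  ibp_div hτ hc (fun z hz => contDiffAt_dx (hu z hz)) (fun z hz => contDiffAt_dy (hu z hz))

/-- Green: `∫ τ Δu = ∫ u Δτ` -/
theorem green_symm {τ u : ℂ → ℝ} (hτ : ContDiff ℝ 2 τ) (hc : HasCompactSupport τ) (hu : ∀ z ∈ tsupport τ, ContDiffAt ℝ 2 u z) :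
    ∫ z, τ z * lap u z = ∫ z, lap τ z * u z := by
  have hτ1 : ContDiff ℝ 1 τ := hτ.of_le (by norm_num)
  rw [green hτ1 hc hu]
  have hsub : ∀ v : ℂ, tsupport (fun z => fderiv ℝ τ z v) ⊆ tsupport τ := fun v => tsupport_fderiv_apply_subset ℝ v
  have hcd : ∀ v : ℂ, HasCompactSupport fun z => fderiv ℝ τ z v := fun v => hc.of_isClosed_subset (isClosed_tsupport _) (hsub v)
  have hdd : ∀ v : ℂ, ContDiff ℝ 1 fun z => fderiv ℝ τ z v := fun v => (hτ.fderiv_right (by norm_num)).clm_apply contDiff_const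
  have e1 : ∫ z, dx τ z * dx u z = -∫ z, dx (dx τ) z * u z :=
    ibp_fd (hdd 1) (hcd 1) (fun z hz => (hu z (hsub 1 hz)).of_le (by norm_num)) 1
  have e2 : ∫ z, dy τ z * dy u z = -∫ z, dy (dy τ) z * u z :=
    ibp_fd (hdd _) (hcd _) (fun z hz => (hu z (hsub _ hz)).of_le (by norm_num)) Complex.I
  have hcont : ∀ v : ℂ, Continuous fun z => fderiv ℝ τ z v := fun v => (hdd v).continuous
  have hcont2 : ∀ v : ℂ, Continuous fun z => fderiv ℝ (fun w => fderiv ℝ τ w v) z v := fun v =>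
    ((hdd v).continuous_fderiv one_ne_zero).clm_apply continuous_const
  have hsub2 : ∀ v : ℂ, tsupport (fun z => fderiv ℝ (fun w => fderiv ℝ τ w v) z v) ⊆ tsupport τ := fun v =>
    (tsupport_fderiv_apply_subset ℝ v).trans (hsub v)
  have hcd2 : ∀ v : ℂ, HasCompactSupport fun z => fderiv ℝ (fun w => fderiv ℝ τ w v) z v := fun v =>
    hc.of_isClosed_subset (isClosed_tsupport _) (hsub2 v)
  have i1 : Integrable fun z => dx τ z * dx u z := integrable_mul_of_tsupport (hcont 1) (hcd 1) fun z hz =>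
    continuousAt_dx ((hu z (hsub 1 hz)).of_le (by norm_num))
  have i2 : Integrable fun z => dy τ z * dy u z := integrable_mul_of_tsupport (hcont _) (hcd _) fun z hz =>
    continuousAt_dy ((hu z (hsub _ hz)).of_le (by norm_num))
  have i3 : Integrable fun z => dx (dx τ) z * u z := integrable_mul_of_tsupport (hcont2 1) (hcd2 1) fun z hz =>
    (hu z (hsub2 1 hz)).continuousAt
  have i4 : Integrable fun z => dy (dy τ) z * u z := integrable_mul_of_tsupport (hcont2 _) (hcd2 _) fun z hz =>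
    (hu z (hsub2 _ hz)).continuousAt
  simp_rw [dot, lap, add_mul]
  rw [integral_add i1 i2, integral_add i3 i4, e1, e2]
  ring

/-! ## Jacobians -/

/-- mixed partial derivatives commute -/
theorem dx_dy_comm {b : ℂ → ℝ} {z : ℂ} (hb : ContDiffAt ℝ 2 b z) : dx (dy b) z = dy (dx b) z := by
  have hs : IsSymmSndFDerivAt ℝ b z := hb.isSymmSndFDerivAt (by simp)
  have hd : DifferentiableAt ℝ (fderiv ℝ b) z := (hb.fderiv_right (m := 1) (by norm_num)).differentiableAt one_ne_zero
  have e : ∀ v w : ℂ, fderiv ℝ (fun y => fderiv ℝ b y v) z w = fderiv ℝ (fderiv ℝ b) z w v := by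
    intro v w
    rw [fderiv_clm_apply hd (differentiableAt_const _)]
    simp
  change fderiv ℝ (fun y => fderiv ℝ b y Complex.I) z 1 = fderiv ℝ (fun y => fderiv ℝ b y 1) z Complex.I
  rw [e, e]
  exact hs.eq _ _

/-- `∫ τ {a, b} = ∫ a {b, τ}` -/
theorem jac_cycle {τ a b : ℂ → ℝ} (hτ : ContDiff ℝ 1 τ) (hc : HasCompactSupport τ) (ha : ∀ z ∈ tsupport τ, ContDiffAt ℝ 1 a z)
    (hb : ∀ z ∈ tsupport τ, ContDiffAt ℝ 2 b z) : ∫ z, τ z * jac a b z = ∫ z, a z * jac b τ z := by
  have hb1 : ∀ z ∈ tsupport τ, ContDiffAt ℝ 1 b z := fun z hz => (hb z hz).of_le (by norm_num)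
  have h := ibp_div hτ hc (a := fun z => a z * dy b z) (b := fun z => -(a z * dx b z))
    (fun z hz => (ha z hz).mul (contDiffAt_dy (hb z hz))) (fun z hz => ((ha z hz).mul (contDiffAt_dx (hb z hz))).neg)
  have e1 : ∀ z, τ z * (dx (fun z => a z * dy b z) z + dy (fun z => -(a z * dx b z)) z) = τ z * jac a b z := by
    intro z
    by_cases hz : z ∈ tsupport τ
    · congr 1
      have d1 : DifferentiableAt ℝ a z := (ha z hz).differentiableAt one_ne_zero
      have d2 : DifferentiableAt ℝ (dy b) z := (contDiffAt_dy (hb z hz)).differentiableAt one_ne_zero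
      have d3 : DifferentiableAt ℝ (dx b) z := (contDiffAt_dx (hb z hz)).differentiableAt one_ne_zero
      have c1 : dx (fun z => a z * dy b z) z = a z * dx (dy b) z + dx a z * dy b z := by
        unfold dx
        rw [fderiv_fun_mul d1 d2]
        simp [mul_comm]
      have c2 : dy (fun z => -(a z * dx b z)) z = -(a z * dy (dx b) z + dy a z * dx b z) := by
        unfold dy
        rw [fderiv_fun_neg, fderiv_fun_mul d1 d3]
        simp [mul_comm]
      rw [c1, c2, dx_dy_comm (hb z hz), jac]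
      ring
    · rw [image_eq_zero_of_notMem_tsupport hz, zero_mul, zero_mul]
  have e2 : ∀ z, dx τ z * (a z * dy b z) + dy τ z * (-(a z * dx b z)) = -(a z * jac b τ z) := by
    intro z
    rw [jac]
    ring
  simp_rw [e1, e2] at h
  rw [h, integral_neg, neg_neg]

end Pool.Agent.MQ
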