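import Pool.Agent.MQ.CDefs
import Pool.Agent.E2.AhlB
import Pool.Agent.H17BP.ChLem

/-!
# MQ InvL: invariant points in a chart
-/

set_option autoImplicit false

open Topology Filter MvPolynomial Asymptotics

noncomputable section

namespace Pool.Agent.MQ

open Pool.Agent.H36.BP (EN)
open Pool.Agent.H17BP (IsChart Pr Surface)
open Pool.Agent.H17EF (projVar coneE)

variable {M : ℕ}

/-- a chart is injective at `0` up to scalars -/
theorem pr_chart {X : Set (EN M)} {σ : ℂ × ℂ → EN M} {τ : EN M → ℂ × ℂ} (hσ : IsChart X σ τ) : ∀ᶠ p in 𝓝 (0 : ℂ × ℂ), Pr (σ p) (σ 0) → p = 0 := by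
  obtain ⟨k, hk⟩ : ∃ k, (σ 0) k ≠ 0 := by
    by_contra hcon
    push Not at hcon
    exact hσ.ne (by ext k; exact hcon k)
  have hcoord : AnalyticAt ℂ (fun p => σ p k) 0 :=
    AnalyticAt.comp (g := fun v : EN M => (EuclideanSpace.proj k : EN M →L[ℂ] ℂ) v) (f := σ)
      ((EuclideanSpace.proj k : EN M →L[ℂ] ℂ).analyticAt _) hσ.σ_an
  have h1 : Tendsto (fun p : ℂ × ℂ => (σ 0, σ p k / σ 0 k)) (𝓝 0) (𝓝 (σ 0, (1 : ℂ))) := by
    refine tendsto_const_nhds.prodMk_nhds ?_
    have h2 := (hcoord.continuousAt.tendsto).div_const (σ 0 k)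
    rwa [div_self hk] at h2
  filter_upwards [h1.eventually hσ.inv, hσ.left] with p h2 h3 h4
  obtain ⟨c, hc, h5⟩ := h4
  have h6 : σ p k = c * σ 0 k := by
    rw [h5]
    rfl
  have h7 : σ p k / σ 0 k = c := by
    rw [h6]
    field_simp
  simp only [h7] at h2
  rw [← h3, h5, h2]
  exact hσ.left.self_of_nhds

/-- the case `p = 0` -/
theorem inv_iff_zero {P : Ideal (MvPolynomial (Fin (M + 1)) ℂ)} {FF : Set (EN M × EN M)} {σ : ℂ × ℂ → EN M} {τ : EN M → ℂ × ℂ} {v : ℂ × ℂ → ℂ × ℂ}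
    (hσ : IsChart (coneE P) σ τ) (hsp : Spans FF σ v) {R : MvPolynomial (Fin (M + 1)) ℂ} {d : ℕ} (hR : R.IsHomogeneous d) :
    InvAt P FF R (σ 0) ↔ LeafIn v (fun p => eval (σ p).ofLp R) 0 := by
  constructor
  · rintro ⟨γ, hγ, h0, h1, h2⟩
    obtain ⟨c, hc, hc0, hθ, hθ0, h3⟩ := Pool.Agent.E2.curve_chart hσ hγ (h1.mono fun t h => h.1) h0
    have hlim : Tendsto (fun t => τ (γ t)) (𝓝 0) (𝓝 0) := by
      have := hθ.continuousAt.tendsto
      rwa [hθ0] at this
    have h4 : ∀ᶠ t in 𝓝 (0 : ℂ), c t ≠ 0 := hc.continuousAt.eventually_ne (by rw [hc0]; exact one_ne_zero)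
    have h5 : ∀ᶠ t in 𝓝 (0 : ℂ), deriv γ t = c t • fderiv ℂ σ (τ (γ t)) (deriv (fun s => τ (γ s)) t) + deriv c t • σ (τ (γ t)) := by
      filter_upwards [eventually_eventually_nhds.2 h3, hlim.eventually hσ.σ_an.eventually_analyticAt, hθ.eventually_analyticAt,
        hc.eventually_analyticAt] with t h6 h7 h8 h9
      rw [Filter.EventuallyEq.deriv_eq h6]
      have h10 : HasDerivAt (fun s => σ (τ (γ s))) (fderiv ℂ σ (τ (γ t)) (deriv (fun s => τ (γ s)) t)) t :=
        (h7.differentiableAt.hasFDerivAt).comp_hasDerivAt t h8.differentiableAt.hasDerivAt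
      exact (h9.differentiableAt.hasDerivAt.smul h10).deriv
    refine ⟨fun t => τ (γ t), hθ, hθ0, ?_, ?_⟩
    · filter_upwards [h1, h3, h4, h5, hlim.eventually hsp] with t h6 h7 h8 h9 h10
      obtain ⟨-, h11, h12⟩ := h6
      refine ⟨(h10 _ (deriv c t) (c t) h8).1 ?_, ?_⟩
      · rw [← h9, ← h7]
        exact h11
      · rw [h7] at h12
        have h13 : eval (c t • σ (τ (γ t))).ofLp R = c t ^ d * eval (σ (τ (γ t))).ofLp R := Pool.Agent.H17EF.eval_smul_form hR _ _
        rw [h13] at h12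
        exact (mul_eq_zero.1 h12).resolve_left (pow_ne_zero _ h8)
    · refine (h2.and_eventually (h3.and h4)).mono ?_
      rintro t ⟨h6, h7, h8⟩ h9
      apply h6
      have h10 : τ (γ t) = 0 := h9
      refine ⟨c t, h8, ?_⟩
      conv_lhs => rw [h7, h10]
  · rintro ⟨γ, hγ, h0, h1, h2⟩
    have hlim : Tendsto γ (𝓝 0) (𝓝 0) := by
      have := hγ.continuousAt.tendsto
      rwa [h0] at this
    have hG : AnalyticAt ℂ (fun t => σ (γ t)) 0 := AnalyticAt.comp (g := σ) (f := γ) (by rw [h0]; exact hσ.σ_an) hγ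
    refine ⟨fun t => σ (γ t), hG, congrArg σ h0, ?_, ?_⟩
    · filter_upwards [h1, hlim.eventually hσ.σ_mem, hlim.eventually hσ.σ_an.eventually_analyticAt, hγ.eventually_analyticAt,
        hlim.eventually hsp] with t h3 h4 h5 h6 h7
      refine ⟨h4, ?_, h3.2⟩
      have h8 : deriv (fun s => σ (γ s)) t = fderiv ℂ σ (γ t) (deriv γ t) :=
        ((h5.differentiableAt.hasFDerivAt).comp_hasDerivAt t h6.differentiableAt.hasDerivAt).deriv
      rw [h8]
      have h9 := (h7 (deriv γ t) 0 1 one_ne_zero).2 h3.1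
      rwa [one_smul, one_smul, zero_smul, add_zero] at h9
    · refine (h2.and_eventually (hlim.eventually (pr_chart hσ))).mono ?_
      rintro t ⟨h3, h4⟩ h5
      exact h3 (h4 h5)

/-- MODULE InvL -/
theorem inv_iff {P : Ideal (MvPolynomial (Fin (M + 1)) ℂ)} {FF : Set (EN M × EN M)} {σ : ℂ × ℂ → EN M} {τ : EN M → ℂ × ℂ} {v : ℂ × ℂ → ℂ × ℂ}
    (hX : Surface (coneE P)) (hσ : IsChart (coneE P) σ τ) (hsp : Spans FF σ v) {R : MvPolynomial (Fin (M + 1)) ℂ} {d : ℕ} (hR : R.IsHomogeneous d) :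
    ∀ᶠ p in 𝓝 (0 : ℂ × ℂ), InvAt P FF R (σ p) ↔ LeafIn v (fun p => eval (σ p).ofLp R) p := by
  have _ := hX
  filter_upwards [hσ.near, eventually_eventually_nhds.2 hsp] with p h1 h2
  have hadd : Tendsto (fun x : ℂ × ℂ => p + x) (𝓝 0) (𝓝 p) := by
    have h3 : Continuous fun x : ℂ × ℂ => p + x := by fun_prop
    have h4 := h3.tendsto 0
    rwa [add_zero] at h4
  have h3 : Spans FF (fun x => σ (p + x)) fun x => v (p + x) := by
    filter_upwards [hadd.eventually h2] with x h4 w a c hc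
    rw [fderiv_comp_add_left]
    exact h4 w a c hc
  have h4 := inv_iff_zero h1 h3 hR
  rw [add_zero] at h4
  rw [h4]
  constructor
  · rintro ⟨γ, hγ, h0, h5, h6⟩
    refine ⟨fun t => p + γ t, analyticAt_const.add hγ, (congrArg (fun x => p + x) h0).trans (add_zero p), ?_, ?_⟩
    · filter_upwards [h5] with t h7
      have h8 : deriv (fun s => p + γ s) t = deriv γ t := deriv_const_add p
      rw [h8]
      exact h7
    · exact h6.mono fun t h7 h8 => h7 (by simpa using h8)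
  · rintro ⟨γ, hγ, h0, h5, h6⟩
    refine ⟨fun t => γ t - p, hγ.sub analyticAt_const, sub_eq_zero.2 h0, ?_, ?_⟩
    · filter_upwards [h5] with t h7
      have h8 : deriv (fun s => γ s - p) t = deriv γ t := deriv_sub_const p
      rw [h8]
      simp only [add_sub_cancel]
      exact h7
    · exact h6.mono fun t h7 h8 => h7 (sub_eq_zero.1 h8)

end Pool.Agent.MQ
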