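import Pool.Agent.MQ.KK2
import Pool.Agent.MQ.OrdV
import Pool.Agent.MQ.GeoDefs
import Pool.Agent.MQ.Fub

/-!
# MQ/KF: forms along a curve

`ldr Q d F`: the modulus of the logarithmic derivative of the form `Q` of degree `d` along `F`.  `k2_form`, `k2_crv`: the mean of `log (1 + ldr)` over the
annulus `R < |z| < e R` is at most `C + 4 π log (1 + En F R)`.
-/

set_option autoImplicit false

open Topology Filter Metric MvPolynomial MeasureTheory

noncomputable section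

namespace Pool.Agent.MQ

open Pool.Agent.H36.BP (EN fs)
open Pool.Agent.H17EF (coneE)
open Pool.Agent.H30M (tau rhoR avg continuous_rhoR hcs_rhoR rhoR_nonneg int_rhoR II)

variable {M : ℕ} {P : Ideal (MvPolynomial (Fin (M + 1)) ℂ)} {FF : Set (EN M × EN M)}

/-! ## forms -/

theorem nt_form_le {d : ℕ} {Q : MvPolynomial (Fin (M + 1)) ℂ} (hQ : Q.IsHomogeneous d) :
    ∃ C : ℝ, 1 ≤ C ∧ ∀ x : EN M, ‖eval x.ofLp Q‖ ≤ C * ‖x‖ ^ d := by
  refine ⟨1 + ∑ m ∈ Q.support, ‖coeff m Q‖, by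
    have : 0 ≤ ∑ m ∈ Q.support, ‖coeff m Q‖ := Finset.sum_nonneg fun _ _ => norm_nonneg _
    linarith, fun x => ?_⟩
  have h1 : ‖eval x.ofLp Q‖ ≤ (∑ m ∈ Q.support, ‖coeff m Q‖) * ‖x‖ ^ d := by
    rw [MvPolynomial.eval_eq', Finset.sum_mul]
    refine (norm_sum_le _ _).trans (Finset.sum_le_sum fun m hm => ?_)
    rw [norm_mul, norm_prod]
    refine mul_le_mul_of_nonneg_left ?_ (norm_nonneg _)
    have hdeg : ∑ i, m i = d := by
      have := hQ (MvPolynomial.mem_support_iff.1 hm)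
      rw [Finsupp.weight_apply] at this
      simpa [Finsupp.sum_fintype] using this
    rw [← hdeg, ← Finset.prod_pow_eq_pow_sum]
    refine Finset.prod_le_prod (fun _ _ => norm_nonneg _) fun i _ => ?_
    rw [norm_pow]
    exact pow_le_pow_left₀ (norm_nonneg _) (PiLp.norm_apply_le x i) _
  have h2 : 0 ≤ ‖x‖ ^ d := by positivity
  linarith

/-- `log |Q (F)| - d log |F| ≤ log C` where `Q (F) ≠ 0` -/
theorem nt_log_form {d : ℕ} {Q : MvPolynomial (Fin (M + 1)) ℂ} {C : ℝ} (hC1 : 1 ≤ C) (hC : ∀ x : EN M, ‖eval x.ofLp Q‖ ≤ C * ‖x‖ ^ d) {x : EN M}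
    (hx : x ≠ 0) (hQx : eval x.ofLp Q ≠ 0) : Real.log ‖eval x.ofLp Q‖ - d * Real.log ‖x‖ ≤ Real.log C := by
  have h1 : 0 < ‖x‖ := norm_pos_iff.2 hx
  have h2 := Real.log_le_log (norm_pos_iff.2 hQx) (hC x)
  rw [Real.log_mul (by positivity) (by positivity), Real.log_pow] at h2
  linarith

theorem nt_ae_ne {g : ℂ → ℂ} (hg : Differentiable ℂ g) (h0 : ∃ z, g z ≠ 0) : ∀ᵐ z : ℂ, g z ≠ 0 := by
  have hA : AnalyticOnNhd ℂ g Set.univ := fun z _ => hg.analyticAt z
  obtain ⟨w, hw⟩ := h0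
  have h1 : g ⁻¹' {0}ᶜ ∈ codiscreteWithin (Set.univ : Set ℂ) := hA.preimage_zero_mem_codiscrete (x := w) hw
  have h2 := ae_restrict_le_codiscreteWithin (μ := (volume : Measure ℂ)) MeasurableSet.univ h1
  rw [Measure.restrict_univ] at h2
  exact h2

theorem nt_form_diff (Q : MvPolynomial (Fin (M + 1)) ℂ) {F : ℂ → EN M} (hF : Differentiable ℂ F) : Differentiable ℂ fun z => eval (F z).ofLp Q := by
  have h1 : ∀ i, Differentiable ℂ fun z => (F z).ofLp i := fun i => (differentiable_euclidean.1 hF) i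
  have h2 : (fun z => eval (F z).ofLp Q) = fun z => ∑ m ∈ Q.support, coeff m Q * ∏ i, (F z).ofLp i ^ m i := by
    funext z
    rw [MvPolynomial.eval_eq']
  rw [h2]
  refine Differentiable.fun_sum fun m _ => ?_
  refine (differentiable_const _).mul ?_
  exact Differentiable.fun_finsetProd fun i _ => (h1 i).pow _

theorem cone_ne {x : EN M} (hx : x ∈ coneE P) : x ≠ 0 := by
  rintro rfl
  have h := hx
  rw [coneE, Set.mem_preimage, map_zero] at h
  exact h.1 rfl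

/-- the energy of a curve of the theorem -/
theorem crv_En {F : ℂ → EN M} (hF : Crv P FF F) : ∃ A, ∀ R, 1 ≤ R → En F R ≤ A * R ^ 2 := by
  obtain ⟨A, hA⟩ := hF.ord
  exact ord hF.diff (fun z => cone_ne (hF.mem z)) hA

/-! ## the logarithmic derivative -/

/-- the modulus of the logarithmic derivative of the form `Q` of degree `d` along `F` -/
def ldr (Q : MvPolynomial (Fin (M + 1)) ℂ) (d : ℕ) (F : ℂ → EN M) (z : ℂ) : ℝ :=
  ‖deriv (fun z => eval (F z).ofLp Q) z / eval (F z).ofLp Q - d * (inner ℂ (F z) (deriv F z) / (‖F z‖ ^ 2 : ℝ))‖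

theorem ldr_nonneg (Q : MvPolynomial (Fin (M + 1)) ℂ) (d : ℕ) (F : ℂ → EN M) (z : ℂ) : 0 ≤ ldr Q d F z := norm_nonneg _

/-- the gradient of `log |F|` -/
theorem kf_grad {F : ℂ → EN M} {z : ℂ} (hF : DifferentiableAt ℂ F z) (h0 : F z ≠ 0) :
    (⟨fderiv ℝ (fun w => Real.log ‖F w‖) z 1, -fderiv ℝ (fun w => Real.log ‖F w‖) z Complex.I⟩ : ℂ) = inner ℂ (F z) (deriv F z) / (‖F z‖ ^ 2 : ℝ) := by
  have hd : DifferentiableAt ℝ (fun w => Real.log ‖F w‖) z := by
    let : InnerProductSpace ℝ (EN M) := InnerProductSpace.complexToReal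
    exact ((hF.restrictScalars ℝ).norm ℝ h0).log (norm_ne_zero_iff.2 h0)
  have e : (fun w => Real.log (‖F w‖ ^ 2)) = fun w => 2 * Real.log ‖F w‖ := by
    funext w
    rw [Real.log_pow]
    push_cast
    ring
  have key : ∀ c : ℂ, fderiv ℝ (fun w => Real.log ‖F w‖) z c = (c * (inner ℂ (F z) (deriv F z) / (‖F z‖ ^ 2 : ℝ))).re := by
    intro c
    have h1 := kk_grad_log hF h0 c
    rw [e, (hd.hasFDerivAt.const_mul 2).fderiv] at h1
    have h2 : ((2 : ℝ) • fderiv ℝ (fun w => Real.log ‖F w‖) z) c = 2 * fderiv ℝ (fun w => Real.log ‖F w‖) z c := rfl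
    rw [h2] at h1
    linarith
  rw [key, key]
  apply Complex.ext
  · simp
  · simp

/-- **KK2** for the form `Q` along `F` -/
theorem k2_form {F : ℂ → EN M} (hF : Differentiable ℂ F) (h0 : ∀ z, F z ≠ 0) {d : ℕ} {Q : MvPolynomial (Fin (M + 1)) ℂ} (hQ : Q.IsHomogeneous d)
    (hne : ∃ z, eval (F z).ofLp Q ≠ 0) {A : ℝ} (hA : ∀ R, 1 ≤ R → En F R ≤ A * R ^ 2) : ∃ C : ℝ, 0 ≤ C ∧ ∀ R, 1 ≤ R →
      Integrable (fun z => rhoR R z * Real.log (1 + ldr Q d F z)) ∧
      avg R (fun z => Real.log (1 + ldr Q d F z)) ≤ C + 2 * Real.pi * Real.log (1 + En F R) := by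
  obtain ⟨K, hK1, hK⟩ := nt_form_le hQ
  have hK0 : 0 < K := by linarith
  set L : ℂ → ℝ := fun z => Real.log ‖F z‖ with hLdef
  set g : ℂ → ℂ := fun z => (K : ℂ)⁻¹ * eval (F z).ofLp Q with hgdef
  have hKne : (K : ℂ)⁻¹ ≠ 0 := inv_ne_zero (Complex.ofReal_ne_zero.2 hK0.ne')
  have hL : ContDiff ℝ 2 L := contDiff_iff_contDiffAt.2 fun z => (lap_log_norm (hF.analyticAt z) (h0 z)).1
  have hlap : ∀ z, Laplacian.laplacian L z = 2 * lam F z ^ 2 := fun z => (lap_log_norm (hF.analyticAt z) (h0 z)).2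
  have hq := nt_form_diff Q hF
  have hg : Differentiable ℂ g := hq.const_mul _
  have hg0 : ∃ z, g z ≠ 0 := by
    obtain ⟨z, hz⟩ := hne
    exact ⟨z, mul_ne_zero hKne hz⟩
  have hL0 : ∀ z, 0 ≤ Laplacian.laplacian L z := fun z => by
    rw [hlap]
    positivity
  have hle : ∀ z, ‖g z‖ ≤ Real.exp ((d : ℝ) * L z) := by
    intro z
    have hp : 0 < ‖F z‖ := norm_pos_iff.2 (h0 z)
    have e1 : Real.exp ((d : ℝ) * L z) = ‖F z‖ ^ d := by
      rw [hLdef, ← Real.log_pow, Real.exp_log (by positivity)]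
    rw [e1, hgdef]
    simp only [norm_mul, norm_inv, Complex.norm_real, Real.norm_of_nonneg hK0.le]
    rw [inv_mul_le_iff₀ hK0]
    exact hK (F z)
  have hII : ∀ R, II L R = 2 * En F R := by
    intro R
    unfold II En
    rw [← integral_const_mul]
    refine integral_congr_ae (Eventually.of_forall fun z => ?_)
    simp only [hlap]
    ring
  have hr : ∀ z, k2r L g d z = ldr Q d F z := by
    intro z
    unfold k2r ldr
    have e1 : deriv g z = (K : ℂ)⁻¹ * deriv (fun z => eval (F z).ofLp Q) z := deriv_const_mul _ (hq z)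
    rw [hLdef, kf_grad (hF z) (h0 z), e1, hgdef, mul_div_mul_left _ _ hKne]
    push_cast
    rfl
  obtain ⟨C, hC0, hC⟩ := k2 (L := L) (g := g) (d := d) hL hg hg0 (Nat.cast_nonneg d) hL0 hle (A := 2 * A) fun R hR => by
    rw [hII]
    have := hA R hR
    linarith
  have hpi := Real.pi_pos
  have hl2 : 0 ≤ Real.log 2 := Real.log_nonneg (by norm_num)
  refine ⟨C + 2 * Real.pi * Real.log 2, by positivity, fun R hR => ?_⟩
  obtain ⟨h1, h2⟩ := hC R hR
  simp only [hr] at h1 h2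
  refine ⟨h1, h2.trans ?_⟩
  rw [hII]
  have hE : 0 ≤ En F R := integral_nonneg fun z => mul_nonneg (Pool.Agent.H30M.tau_nonneg hR z) (sq_nonneg _)
  have h3 : Real.log (1 + 2 * En F R) ≤ Real.log 2 + Real.log (1 + En F R) := by
    rw [← Real.log_mul (by norm_num) (by linarith)]
    exact Real.log_le_log (by linarith) (by linarith)
  have h4 := mul_le_mul_of_nonneg_left h3 (show 0 ≤ 2 * Real.pi by positivity)
  linarith

/-- **KK2** for the curves of the theorem -/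
theorem k2_crv {F : ℂ → EN M} (hF : Crv P FF F) {d : ℕ} {Q : MvPolynomial (Fin (M + 1)) ℂ} (hQ : Q.IsHomogeneous d)
    (hne : ∃ z, eval (F z).ofLp Q ≠ 0) : ∃ C : ℝ, 0 ≤ C ∧ ∀ R, 1 ≤ R →
      Integrable (fun z => rhoR R z * Real.log (1 + ldr Q d F z)) ∧
      avg R (fun z => Real.log (1 + ldr Q d F z)) ≤ C + 2 * Real.pi * Real.log (1 + En F R) := by
  obtain ⟨A, hA⟩ := crv_En hF
  exact k2_form hF.diff (fun z => cone_ne (hF.mem z)) hQ hne hA

end Pool.Agent.MQ
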