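import Pool.Agent.MQ.KKp
import Pool.Agent.MQ.VDefs
import Pool.Agent.H30M.Mean2

/-!
# MQ/KK: the logarithmic derivative at a point

`F` is an entire curve in the complex inner product space `H` without zeros, `q` a unit vector, `D = 1 - |⟨q, F⟩|² / |F|²` the square of the sine of the
angle between `F` and `q`, `lam2 = |F ∧ F'|² / |F|⁴`, `kI R = ∫ tau R * lam2`.
`kk_zero`: the mean of `log (1 + lam2 / D)` over the annulus `R < |z| < e R` is at most `log (1 + C (1 + kI (e² R)) / R²) + 2 log (2 + C (1 + kI R))`.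
`kk`, `kk_le`: the form used in the project.
-/

set_option autoImplicit false

open MeasureTheory Topology Filter Set Laplacian

noncomputable section

namespace Pool.Agent.MQ

open Pool.Agent.H30M (tau rho rhoR avg hcs_tau contDiff_tau tau_nonneg tau_le tau_eq_zero one_le_tau hcs_rhoR continuous_rhoR rhoR_nonneg int_rhoR
  rhoR_eq_zero green_tau)


variable {H : Type*} [NormedAddCommGroup H] [InnerProductSpace ℂ H] [CompleteSpace H]

/-- the energy -/
def kI (F : ℂ → H) (R : ℝ) : ℝ := ∫ z, tau R z * lam2 F z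

/-! ## the Laplacian of `log (D + ε)` -/

theorem kk_lap_s {ε : ℝ} (hε : 0 < ε) {q : H} (hq : ‖q‖ = 1) {F : ℂ → H} {z : ℂ} (hF : AnalyticAt ℂ F z) (h0 : F z ≠ 0) :
    ContDiffAt ℝ 2 (fun w => Real.log (kkD ε q F w)) z ∧ -(4 * lam2 F z) ≤ kklap (fun w => Real.log (kkD ε q F w)) z := by
  obtain ⟨L, hL⟩ := kk_exists_L hq hε.le
  have hGa : AnalyticAt ℂ (fun w => L (F w)) z := L.analyticAt _ |>.comp hF
  have hfp : 0 < ‖F z‖ := norm_pos_iff.2 h0
  obtain ⟨hD1, hD2⟩ := kkD_bd (ε := ε) hq F z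
  have hGF : ‖L (F z)‖ ^ 2 = kkD ε q F z * ‖F z‖ ^ 2 := by
    rw [kkD, hL]
    field_simp
  have hG0 : L (F z) ≠ 0 := by
    intro h
    rw [h, norm_zero] at hGF
    have : 0 < kkD ε q F z * ‖F z‖ ^ 2 := mul_pos (by linarith) (by positivity)
    nlinarith
  have hev := kk_s_eq hε hq hL hF h0
  have hc : ContDiffAt ℝ 2 (fun w => Real.log (‖L (F w)‖ ^ 2) - Real.log (‖F w‖ ^ 2)) z := (kk_contDiffAt_log hGa hG0).sub (kk_contDiffAt_log hF h0)
  refine ⟨hc.congr_of_eventuallyEq hev, ?_⟩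
  have hlap2 : kklap (fun w => Real.log (kkD ε q F w)) z = kklap (fun w => Real.log (‖L (F w)‖ ^ 2) - Real.log (‖F w‖ ^ 2)) z := by
    have e : ∀ c : ℂ, (fun w => fderiv ℝ (fun w => Real.log (kkD ε q F w)) w c) =ᶠ[𝓝 z]
        fun w => fderiv ℝ (fun w => Real.log (‖L (F w)‖ ^ 2) - Real.log (‖F w‖ ^ 2)) w c := by
      intro c
      filter_upwards [hev.fderiv (𝕜 := ℝ)] with w hw
      rw [hw]
    unfold kklap kkdx kkdy
    rw [(e 1).fderiv_eq, (e Complex.I).fderiv_eq]
  rw [hlap2, kk_lap_sub (kk_contDiffAt_log hGa hG0) (kk_contDiffAt_log hF h0), kk_lap_log hGa hG0, kk_lap_log hF h0]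
  have h1 : 0 ≤ (‖L (F z)‖ ^ 2 * ‖deriv (fun w => L (F w)) z‖ ^ 2 - ‖(inner ℂ (L (F z)) (deriv (fun w => L (F w)) z) : ℂ)‖ ^ 2) / ‖L (F z)‖ ^ 4 :=
    lam2_nonneg (fun w => L (F w)) z
  unfold lam2
  linarith

/-! ## continuity -/

variable {F : ℂ → H} {q : H}

theorem kk_continuous_deriv (hF : Differentiable ℂ F) : Continuous (deriv F) := (hF.contDiff (n := 1)).continuous_deriv le_rfl

theorem continuous_lam2 (hF : Differentiable ℂ F) (h0 : ∀ z, F z ≠ 0) : Continuous (lam2 F) := by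
  have h1 := kk_continuous_deriv hF
  have h2 := hF.continuous
  refine Continuous.div ?_ (h2.norm.pow 4) fun z => pow_ne_zero 4 (norm_ne_zero_iff.2 (h0 z))
  exact ((h2.norm.pow 2).mul (h1.norm.pow 2)).sub ((h2.inner (𝕜 := ℂ) h1).norm.pow 2)

omit [CompleteSpace H] in
theorem continuous_kkD (ε : ℝ) (hF : Differentiable ℂ F) (h0 : ∀ z, F z ≠ 0) : Continuous (kkD ε q F) := by
  have h2 := hF.continuous
  refine continuous_const.sub (Continuous.div ((continuous_const.inner (𝕜 := ℂ) h2).norm.pow 2) (h2.norm.pow 2) fun z =>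
    pow_ne_zero 2 (norm_ne_zero_iff.2 (h0 z)))

/-- integrability of products with compactly supported continuous functions -/
theorem kk_int {a f : ℂ → ℝ} (ha : Continuous a) (hc : HasCompactSupport a) (hf : Continuous f) : Integrable fun z => a z * f z :=
  (ha.mul hf).integrable_of_hasCompactSupport hc.mul_right

omit [CompleteSpace H] in
theorem kI_nonneg (F : ℂ → H) {R : ℝ} (hR : 1 ≤ R) : 0 ≤ kI F R := integral_nonneg fun z => mul_nonneg (tau_nonneg hR z) (lam2_nonneg F z)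

/-- Green for continuous bounds of the Laplacian -/
theorem kk_green {R : ℝ} (hR : 1 ≤ R) {u f : ℂ → ℝ} (hu : ContDiff ℝ 2 u) (hf : Continuous f) (h : ∀ z, f z ≤ kklap u z) :
    ∫ z, tau R z * f z ≤ avg R u - avg 1 u := by
  have h1 := green_tau hR hu
  rw [← h1]
  have hl : Continuous fun z => tau R z * Δ u z := by
    have e : (fun z => tau R z * Δ u z) = fun z => tau R z * kklap u z := funext fun z => by rw [kklap_eq hu.contDiffAt]
    rw [e]
    have h2 : Continuous (kklap u) := by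
      unfold kklap
      have h3 : ∀ c : ℂ, ContDiff ℝ 1 fun z => fderiv ℝ u z c := fun c => (hu.fderiv_right (m := 1) (by norm_num)).clm_apply contDiff_const
      exact (((h3 1).continuous_fderiv one_ne_zero).clm_apply continuous_const).add (((h3 Complex.I).continuous_fderiv one_ne_zero).clm_apply continuous_const)
    exact (contDiff_tau R).continuous.mul h2
  refine integral_mono (kk_int (contDiff_tau R).continuous (hcs_tau hR) hf) (hl.integrable_of_hasCompactSupport (hcs_tau hR).mul_right) fun z => ?_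
  refine mul_le_mul_of_nonneg_left ?_ (tau_nonneg hR z)
  rw [← kklap_eq hu.contDiffAt]
  exact h z

/-- `X = lam2 / (D_ε (2 - log D_ε)²)` -/
def kkX (ε : ℝ) (q : H) (F : ℂ → H) (z : ℂ) : ℝ := lam2 F z / (kkD ε q F z * (2 - Real.log (kkD ε q F z)) ^ 2)

omit [CompleteSpace H] in
theorem kkD_pos {ε : ℝ} (hε : 0 < ε) (hq : ‖q‖ = 1) (z : ℂ) : 0 < kkD ε q F z := lt_of_lt_of_le hε (kkD_bd hq F z).1

omit [CompleteSpace H] in
theorem kk_m {ε : ℝ} (hε : 0 < ε) (hε1 : ε ≤ 1) (hq : ‖q‖ = 1) (z : ℂ) : 1 ≤ 2 - Real.log (kkD ε q F z) := by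
  have := kk_log_le hε hε1 hq F z
  linarith

omit [CompleteSpace H] in
theorem kkX_nonneg {ε : ℝ} (hε : 0 < ε) (hq : ‖q‖ = 1) (z : ℂ) : 0 ≤ kkX ε q F z :=
  div_nonneg (lam2_nonneg F z) (mul_nonneg (kkD_pos hε hq z).le (sq_nonneg _))

omit [CompleteSpace H] in
theorem kk_continuous_s {ε : ℝ} (hε : 0 < ε) (hq : ‖q‖ = 1) (hF : Differentiable ℂ F) (h0 : ∀ z, F z ≠ 0) :
    Continuous fun z => Real.log (kkD ε q F z) :=
  (continuous_kkD ε hF h0).log fun z => (kkD_pos hε hq z).ne'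

theorem continuous_kkX {ε : ℝ} (hε : 0 < ε) (hε1 : ε ≤ 1) (hq : ‖q‖ = 1) (hF : Differentiable ℂ F) (h0 : ∀ z, F z ≠ 0) :
    Continuous (kkX ε q F) := by
  refine (continuous_lam2 hF h0).div ((continuous_kkD ε hF h0).mul ((continuous_const.sub (kk_continuous_s hε hq hF h0)).pow 2)) fun z => ?_
  have h1 := kkD_pos hε hq (F := F) z
  have h2 := kk_m hε hε1 hq (F := F) z
  have : 0 < kkD ε q F z * (2 - Real.log (kkD ε q F z)) ^ 2 := mul_pos h1 (pow_pos (by linarith) 2)
  exact this.ne'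

/-- the energy of `X` -/
theorem kk_energy {ε : ℝ} (hε : 0 < ε) (hε1 : ε ≤ 1) (hq : ‖q‖ = 1) (hF : Differentiable ℂ F) (h0 : ∀ z, F z ≠ 0) {R : ℝ} (hR : 1 ≤ R) :
    4 * ∫ z, tau R z * kkX ε q F z ≤ avg 1 (fun z => Real.log (2 - Real.log (kkD ε q F z))) + 8 * kI F R := by
  have hc : ContDiff ℝ 2 (kkΦ ε q F) := contDiff_iff_contDiffAt.2 fun z => (kk_point hε hε1 hq (hF.analyticAt z) (h0 z)).1
  have h1 := kk_green hR hc (f := fun z => 4 * kkX ε q F z - 8 * lam2 F z)
    ((continuous_const.mul (continuous_kkX hε hε1 hq hF h0)).sub (continuous_const.mul (continuous_lam2 hF h0)))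
    (fun z => by
      have := (kk_point hε hε1 hq (hF.analyticAt z) (h0 z)).2
      unfold kkX
      linarith)
  have e1 : ∫ z, tau R z * (4 * kkX ε q F z - 8 * lam2 F z) = 4 * (∫ z, tau R z * kkX ε q F z) - 8 * kI F R := by
    have i1 := kk_int (contDiff_tau R).continuous (hcs_tau hR) (continuous_kkX hε hε1 hq hF h0)
    have i2 := kk_int (contDiff_tau R).continuous (hcs_tau hR) (continuous_lam2 hF h0)
    unfold kI
    rw [← integral_const_mul, ← integral_const_mul, ← integral_sub (i1.const_mul 4) (i2.const_mul 8)]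
    exact integral_congr_ae (Eventually.of_forall fun z => by ring)
  rw [e1] at h1
  have h2 : avg R (kkΦ ε q F) ≤ 0 := by
    refine integral_nonpos fun z => mul_nonpos_of_nonneg_of_nonpos (rhoR_nonneg R z) ?_
    have := Real.log_nonneg (kk_m hε hε1 hq (F := F) z)
    unfold kkΦ
    linarith
  have h3 : avg 1 (fun z => Real.log (2 - Real.log (kkD ε q F z))) = -avg 1 (kkΦ ε q F) := by
    unfold avg kkΦ
    rw [← integral_neg]
    exact integral_congr_ae (Eventually.of_forall fun z => by ring)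
  linarith

/-- the mean of `-log D_ε` -/
theorem kk_mean_s {ε : ℝ} (hε : 0 < ε) (hq : ‖q‖ = 1) (hF : Differentiable ℂ F) (h0 : ∀ z, F z ≠ 0) {R : ℝ} (hR : 1 ≤ R) :
    avg R (fun z => -Real.log (kkD ε q F z)) ≤ avg 1 (fun z => -Real.log (kkD ε q F z)) + 4 * kI F R := by
  have hc : ContDiff ℝ 2 (fun z => Real.log (kkD ε q F z)) := contDiff_iff_contDiffAt.2 fun z => (kk_lap_s hε hq (hF.analyticAt z) (h0 z)).1
  have h1 := kk_green hR hc (f := fun z => -(4 * lam2 F z)) (continuous_const.mul (continuous_lam2 hF h0)).neg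
    (fun z => (kk_lap_s hε hq (hF.analyticAt z) (h0 z)).2)
  have e1 : ∫ z, tau R z * (-(4 * lam2 F z)) = -(4 * kI F R) := by
    unfold kI
    rw [← integral_const_mul, ← integral_neg]
    exact integral_congr_ae (Eventually.of_forall fun z => by ring)
  have e2 : ∀ R : ℝ, avg R (fun z => -Real.log (kkD ε q F z)) = -avg R (fun z => Real.log (kkD ε q F z)) := by
    intro R
    unfold avg
    rw [← integral_neg]
    exact integral_congr_ae (Eventually.of_forall fun z => by ring)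
  rw [e1] at h1
  rw [e2, e2]
  linarith

/-! ## the majorant -/

omit [CompleteSpace H] in
/-- a unit vector `u` orthogonal to `q` with `⟨u, F z₀⟩ ≠ 0` -/
theorem kk_exists_u (hq : ‖q‖ = 1) {f : H} (hf : ‖(inner ℂ q f : ℂ)‖ ^ 2 ≠ ‖f‖ ^ 2) :
    ∃ u : H, ‖u‖ = 1 ∧ (inner ℂ q u : ℂ) = 0 ∧ (inner ℂ u f : ℂ) ≠ 0 := by
  set u₀ : H := f - (inner ℂ q f : ℂ) • q with hu
  have h1 : (inner ℂ q u₀ : ℂ) = 0 := by
    rw [hu, inner_sub_right, inner_smul_right, inner_self_eq_norm_sq_to_K, hq]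
    simp
  have h2 : u₀ ≠ 0 := by
    intro h
    have h3 : f = (inner ℂ q f : ℂ) • q := by rwa [hu, sub_eq_zero] at h
    apply hf
    have h4 : ‖f‖ = ‖(inner ℂ q f : ℂ)‖ := by
      conv_lhs => rw [h3]
      rw [norm_smul, hq, mul_one]
    rw [← h4]
  have h5 : (inner ℂ u₀ f : ℂ) = (‖u₀‖ ^ 2 : ℝ) := by
    have h6 : f = u₀ + (inner ℂ q f : ℂ) • q := by rw [hu]; abel
    have h7 : (inner ℂ u₀ q : ℂ) = 0 := inner_eq_zero_symm.1 h1
    conv_lhs => rw [h6]
    rw [inner_add_right, inner_smul_right, h7, inner_self_eq_norm_sq_to_K]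
    simp
  have h8 : ‖u₀‖ ≠ 0 := norm_ne_zero_iff.2 h2
  refine ⟨((‖u₀‖⁻¹ : ℝ) : ℂ) • u₀, ?_, ?_, ?_⟩
  · rw [norm_smul, Complex.norm_real, norm_inv, norm_norm, inv_mul_cancel₀ h8]
  · rw [inner_smul_right, h1, mul_zero]
  · rw [inner_smul_left, h5]
    simp [h2]

omit [CompleteSpace H] in
/-- Bessel for two vectors -/
theorem kk_bessel {q u : H} (hq : ‖q‖ = 1) (hu : ‖u‖ = 1) (hqu : (inner ℂ q u : ℂ) = 0) {f : H} (hf : f ≠ 0) :
    ‖(inner ℂ u f : ℂ)‖ ^ 2 / ‖f‖ ^ 2 ≤ 1 - ‖(inner ℂ q f : ℂ)‖ ^ 2 / ‖f‖ ^ 2 := by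
  have h1 := kk_inner_le (v := u) hq hf
  set g : H := f - (inner ℂ q f : ℂ) • q with hg
  have h2 : (inner ℂ u g : ℂ) = inner ℂ u f := by
    rw [hg, inner_sub_right, inner_smul_right, inner_eq_zero_symm.1 hqu]
    simp
  have h3 : ‖g‖ ^ 2 = ‖f‖ ^ 2 - ‖(inner ℂ q f : ℂ)‖ ^ 2 := by
    have h4 := norm_sub_sq (𝕜 := ℂ) f ((inner ℂ q f : ℂ) • q)
    have h5 : RCLike.re (inner ℂ f ((inner ℂ q f : ℂ) • q) : ℂ) = ‖(inner ℂ q f : ℂ)‖ ^ 2 := by
      obtain ⟨h6, h7⟩ := kk_conj f q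
      rw [inner_smul_right, RCLike.re_to_complex, Complex.mul_re, h6, h7, Complex.sq_norm, Complex.normSq_apply]
      ring
    rw [hg, h4, h5, norm_smul, hq]
    ring
  have h6 : ‖(inner ℂ u f : ℂ)‖ ^ 2 ≤ ‖f‖ ^ 2 - ‖(inner ℂ q f : ℂ)‖ ^ 2 := by
    rw [← h2, ← h3]
    have := norm_inner_le_norm (𝕜 := ℂ) u g
    rw [hu, one_mul] at this
    exact pow_le_pow_left₀ (norm_nonneg _) this 2
  have hfp : 0 < ‖f‖ ^ 2 := by
    have := norm_pos_iff.2 hf
    positivity
  rw [div_le_iff₀ hfp, sub_mul, div_mul_cancel₀ _ hfp.ne']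
  linarith

omit [CompleteSpace H] in
/-- the majorant of `-log D` -/
theorem kk_major (hq : ‖q‖ = 1) (hF : Differentiable ℂ F) (h0 : ∀ z, F z ≠ 0) (hne : ∃ z, kkD 0 q F z ≠ 0) :
    ∃ w : ℂ → ℝ, (∀ R, 1 ≤ R → Integrable fun z => rhoR R z * w z) ∧
      ∀ᵐ z : ℂ, 0 < kkD 0 q F z ∧ ∀ ε, 0 ≤ ε → -Real.log (kkD ε q F z) ≤ w z := by
  obtain ⟨z₀, hz₀⟩ := hne
  have hf : ‖(inner ℂ q (F z₀) : ℂ)‖ ^ 2 ≠ ‖F z₀‖ ^ 2 := by
    intro h
    apply hz₀
    have : ‖F z₀‖ ^ 2 ≠ 0 := pow_ne_zero 2 (norm_ne_zero_iff.2 (h0 z₀))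
    rw [kkD, h, div_self this]
    ring
  obtain ⟨u, hu1, hu2, hu3⟩ := kk_exists_u hq hf
  set h : ℂ → ℂ := fun z => inner ℂ u (F z) with hh
  have hhd : Differentiable ℂ h := (innerSL ℂ u).differentiable.comp hF
  have hA : AnalyticOnNhd ℂ h univ := fun z _ => hhd.analyticAt z
  have hord : ∀ z, analyticOrderAt h z ≠ ⊤ := by
    intro z htop
    have h1 : h =ᶠ[𝓝 z] fun _ => 0 := analyticOrderAt_eq_top.1 htop
    have h2 := hA.eq_of_eventuallyEq (g := fun _ => 0) (fun z _ => analyticAt_const) h1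
    exact hu3 (congrFun h2 z₀)
  refine ⟨fun z => Real.log (‖F z‖ ^ 2) - 2 * Real.log ‖h z‖, fun R hR => ?_, ?_⟩
  · have i1 : Integrable fun z => rhoR R z * Real.log ‖h z‖ :=
      Pool.Agent.H30M.integrable_mul_log (continuous_rhoR R) (hcs_rhoR hR) (fun z _ => hhd.analyticAt z) fun z _ => hord z
    have i2 : Integrable fun z => rhoR R z * Real.log (‖F z‖ ^ 2) :=
      kk_int (continuous_rhoR R) (hcs_rhoR hR) ((hF.continuous.norm.pow 2).log fun z => pow_ne_zero 2 (norm_ne_zero_iff.2 (h0 z)))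
    refine (i2.sub (i1.const_mul 2)).congr (Eventually.of_forall fun z => ?_)
    simp only [Pi.sub_apply]
    ring
  · have hae : ∀ᵐ z : ℂ, h z ≠ 0 := by
      have h1 : h ⁻¹' {0}ᶜ ∈ codiscreteWithin (univ : Set ℂ) := hA.preimage_zero_mem_codiscrete (x := z₀) hu3
      have h2 := ae_restrict_le_codiscreteWithin (μ := (volume : Measure ℂ)) MeasurableSet.univ h1
      rw [Measure.restrict_univ] at h2
      exact h2
    filter_upwards [hae] with z hz1
    have hfp : 0 < ‖F z‖ := norm_pos_iff.2 (h0 z)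
    have hb := kk_bessel hq hu1 hu2 (h0 z)
    have hp : 0 < ‖h z‖ ^ 2 / ‖F z‖ ^ 2 := by
      have := norm_pos_iff.2 hz1
      positivity
    have hD : ∀ ε, 0 ≤ ε → ‖h z‖ ^ 2 / ‖F z‖ ^ 2 ≤ kkD ε q F z := by
      intro ε hε
      unfold kkD
      have hb' : ‖h z‖ ^ 2 / ‖F z‖ ^ 2 ≤ 1 - ‖(inner ℂ q (F z) : ℂ)‖ ^ 2 / ‖F z‖ ^ 2 := hb
      linarith
    refine ⟨lt_of_lt_of_le hp (hD 0 le_rfl), fun ε hε => ?_⟩
    have h5 := Real.log_le_log hp (hD ε hε)
    rw [Real.log_div (pow_ne_zero 2 (norm_ne_zero_iff.2 hz1)) (by positivity), Real.log_pow] at h5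
    push_cast at h5
    linarith

/-! ## Jensen -/

/-- concavity of the logarithm, for the weight `rhoR R` -/
theorem kk_jensen {R : ℝ} (hR : 1 ≤ R) {f : ℂ → ℝ} (hf : Continuous f) (h1 : ∀ z, 1 ≤ f z) {A : ℝ} (hA : avg R f ≤ 2 * Real.pi * A) :
    avg R (fun z => Real.log (f z)) ≤ 2 * Real.pi * Real.log A := by
  have hpi := Real.pi_pos
  have hi := kk_int (continuous_rhoR R) (hcs_rhoR hR) hf
  have hlog : Continuous fun z => Real.log (f z) := hf.log fun z => by
    have := h1 z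
    linarith
  have hil := kk_int (continuous_rhoR R) (hcs_rhoR hR) hlog
  have hi1 : Integrable (rhoR R) := (continuous_rhoR R).integrable_of_hasCompactSupport (hcs_rhoR hR)
  have hA1 : 1 ≤ A := by
    have h2 : 2 * Real.pi ≤ avg R f := by
      rw [← int_rhoR hR]
      refine integral_mono hi1 hi fun z => ?_
      have := mul_le_mul_of_nonneg_left (h1 z) (rhoR_nonneg R z)
      simpa using this
    nlinarith
  have hA0 : 0 < A := by linarith
  have key : ∀ z, rhoR R z * Real.log (f z) ≤ A⁻¹ * (rhoR R z * f z) + (Real.log A - 1) * rhoR R z := by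
    intro z
    have hf0 : 0 < f z := by linarith [h1 z]
    have h3 : Real.log (f z) ≤ A⁻¹ * f z + (Real.log A - 1) := by
      have h4 := Real.log_le_sub_one_of_pos (show 0 < A⁻¹ * f z by positivity)
      rw [Real.log_mul (by positivity) hf0.ne', Real.log_inv] at h4
      linarith
    have := mul_le_mul_of_nonneg_left h3 (rhoR_nonneg R z)
    calc _ ≤ _ := this
      _ = _ := by ring
  have h5 := integral_mono hil ((hi.const_mul A⁻¹).add (hi1.const_mul (Real.log A - 1))) key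
  simp only [Pi.add_apply] at h5
  rw [integral_add (hi.const_mul A⁻¹) (hi1.const_mul (Real.log A - 1)), integral_const_mul, integral_const_mul, int_rhoR hR] at h5
  have h6 : A⁻¹ * (∫ z, rhoR R z * f z) ≤ A⁻¹ * (2 * Real.pi * A) := mul_le_mul_of_nonneg_left hA (by positivity)
  have h7 : A⁻¹ * (2 * Real.pi * A) = 2 * Real.pi := by
    field_simp
  have h8 : avg R (fun z => Real.log (f z)) = ∫ z, rhoR R z * Real.log (f z) := rfl
  rw [h8]
  linarith

/-- the comparison of `rhoR R` with `tau (e² R)` -/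
theorem kk_rho : ∃ S : ℝ, 0 ≤ S ∧ ∀ R, 1 ≤ R → ∀ z, rhoR R z ≤ S / R ^ 2 * tau (Real.exp 2 * R) z := by
  have hc : HasCompactSupport (rhoR 1) := hcs_rhoR le_rfl
  obtain ⟨S, hS⟩ := (continuous_rhoR 1).bounded_above_of_compact_support hc
  have hS0 : 0 ≤ S := (norm_nonneg _).trans (hS 0)
  refine ⟨S, hS0, fun R hR z => ?_⟩
  have hR0 : 0 < R := by linarith
  have he : 1 ≤ Real.exp 2 * R := by
    have := Real.one_le_exp (zero_le_two (α := ℝ))
    nlinarith
  have ht := tau_nonneg he z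
  rcases lt_or_ge ‖z‖ (Real.exp 1 * R) with h | h
  · have h1 := one_le_tau hR h.le
    have h2 : rhoR R z ≤ S / R ^ 2 := by
      unfold rhoR
      have h3 : rho (z / R) ≤ S := by
        have := hS (z / R)
        rw [Pool.Agent.H30M.rhoR_one] at this
        exact (le_abs_self _).trans this
      exact div_le_div_of_nonneg_right h3 (by positivity)
    calc rhoR R z ≤ S / R ^ 2 * 1 := by rw [mul_one]; exact h2
      _ ≤ _ := mul_le_mul_of_nonneg_left h1 (by positivity)
  · rw [rhoR_eq_zero hR (Or.inr h)]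
    positivity

omit [CompleteSpace H] in
theorem kk_cm {ε : ℝ} (hε : 0 < ε) (hε1 : ε ≤ 1) (hq : ‖q‖ = 1) (hF : Differentiable ℂ F) (h0 : ∀ z, F z ≠ 0) :
    Continuous fun z => Real.log (2 - Real.log (kkD ε q F z)) := by
  have h : Continuous fun z => 2 - Real.log (kkD ε q F z) := continuous_const.sub (kk_continuous_s hε hq hF h0)
  refine h.log fun z => ?_
  have := kk_m hε hε1 hq (F := F) z
  linarith

theorem kk_cl {ε : ℝ} (hε : 0 < ε) (hq : ‖q‖ = 1) (hF : Differentiable ℂ F) (h0 : ∀ z, F z ≠ 0) :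
    Continuous fun z => Real.log (1 + lam2 F z / kkD ε q F z) := by
  have h : Continuous fun z => 1 + lam2 F z / kkD ε q F z :=
    continuous_const.add ((continuous_lam2 hF h0).div (continuous_kkD ε hF h0) fun z => (kkD_pos hε hq z).ne')
  refine h.log fun z => ?_
  have : 0 ≤ lam2 F z / kkD ε q F z := div_nonneg (lam2_nonneg F z) (kkD_pos hε hq z).le
  linarith

/-- **KK**, for `ε > 0` -/
theorem kk_eps (hq : ‖q‖ = 1) (hF : Differentiable ℂ F) (h0 : ∀ z, F z ≠ 0) (hne : ∃ z, kkD 0 q F z ≠ 0) :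
    ∃ C : ℝ, 0 ≤ C ∧ ∀ ε, 0 < ε → ε ≤ 1 → ∀ R, 1 ≤ R → avg R (fun z => Real.log (1 + lam2 F z / kkD ε q F z)) ≤
      2 * Real.pi * Real.log (1 + C * (1 + kI F (Real.exp 2 * R)) / R ^ 2) + 4 * Real.pi * Real.log (2 + C * (1 + kI F R)) := by
  obtain ⟨w, hwi, hw⟩ := kk_major hq hF h0 hne
  obtain ⟨S, hS0, hS⟩ := kk_rho
  have hpi := Real.pi_pos
  set W : ℝ := |avg 1 w| with hW
  have hW0 : 0 ≤ W := abs_nonneg _
  -- the mean of `-log D_ε` over the first annulus
  have hS1 : ∀ ε, 0 < ε → avg 1 (fun z => -Real.log (kkD ε q F z)) ≤ W := by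
    intro ε hε
    refine le_trans ?_ (le_abs_self (avg 1 w))
    refine integral_mono_ae (kk_int (continuous_rhoR 1) (hcs_rhoR le_rfl) (kk_continuous_s hε hq hF h0).neg) (hwi 1 le_rfl) ?_
    filter_upwards [hw] with z hz
    exact mul_le_mul_of_nonneg_left (hz.2 ε hε.le) (rhoR_nonneg 1 z)
  have hS2 : ∀ ε, 0 < ε → ε ≤ 1 → avg 1 (fun z => Real.log (2 - Real.log (kkD ε q F z))) ≤ 2 * Real.pi + W := by
    intro ε hε hε1
    have hn1 : Integrable fun z => rhoR 1 z * (-Real.log (kkD ε q F z)) :=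
      kk_int (continuous_rhoR 1) (hcs_rhoR le_rfl) (kk_continuous_s hε hq hF h0).neg
    have h1 : avg 1 (fun z => Real.log (2 - Real.log (kkD ε q F z))) ≤ ∫ z, (rhoR 1 z + rhoR 1 z * (-Real.log (kkD ε q F z))) := by
      refine integral_mono (kk_int (continuous_rhoR 1) (hcs_rhoR le_rfl) (kk_cm hε hε1 hq hF h0))
        (((continuous_rhoR 1).integrable_of_hasCompactSupport (hcs_rhoR le_rfl)).add hn1) fun z => ?_
      have h2 := kk_m hε hε1 hq (F := F) z
      have h3 := Real.log_le_sub_one_of_pos (show 0 < 2 - Real.log (kkD ε q F z) by linarith)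
      calc rhoR 1 z * Real.log (2 - Real.log (kkD ε q F z)) ≤ rhoR 1 z * (1 + -Real.log (kkD ε q F z)) :=
            mul_le_mul_of_nonneg_left (by linarith) (rhoR_nonneg 1 z)
        _ = _ := by ring
    rw [integral_add ((continuous_rhoR 1).integrable_of_hasCompactSupport (hcs_rhoR le_rfl)) hn1, int_rhoR le_rfl] at h1
    have h4 := hS1 ε hε
    unfold avg at h4
    linarith
  refine ⟨max (S * (2 + W)) (W + 4), le_max_of_le_right (by linarith), fun ε hε hε1 R hR => ?_⟩
  set C := max (S * (2 + W)) (W + 4) with hC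
  have hR0 : 0 < R := by linarith
  have he : 1 ≤ Real.exp 2 * R := by
    have := Real.one_le_exp (zero_le_two (α := ℝ))
    nlinarith
  have hcX := continuous_kkX hε hε1 hq hF h0
  have hcs := kk_continuous_s hε hq hF h0
  have hX0 : ∀ z, 0 ≤ kkX ε q F z := kkX_nonneg hε hq
  have hkI := kI_nonneg F hR
  have hkI2 := kI_nonneg F he
  -- the mean of `X`
  have hX : avg R (kkX ε q F) ≤ 2 * Real.pi * (C * (1 + kI F (Real.exp 2 * R)) / R ^ 2) := by
    have h1 : avg R (kkX ε q F) ≤ S / R ^ 2 * ∫ z, tau (Real.exp 2 * R) z * kkX ε q F z := by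
      rw [← integral_const_mul]
      refine integral_mono (kk_int (continuous_rhoR R) (hcs_rhoR hR) hcX)
        ((kk_int (contDiff_tau _).continuous (hcs_tau he) hcX).const_mul _) fun z => ?_
      have := mul_le_mul_of_nonneg_right (hS R hR z) (hX0 z)
      calc _ ≤ _ := this
        _ = _ := by ring
    have h2 := kk_energy hε hε1 hq hF h0 he
    have h3 := hS2 ε hε hε1
    have h4 : (∫ z, tau (Real.exp 2 * R) z * kkX ε q F z) ≤ 2 * Real.pi * ((2 + W) * (1 + kI F (Real.exp 2 * R))) := by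
      have h5 : 4 * (∫ z, tau (Real.exp 2 * R) z * kkX ε q F z) ≤ 2 * Real.pi + W + 8 * kI F (Real.exp 2 * R) := by linarith
      have h6 : (3 : ℝ) < Real.pi := Real.pi_gt_three
      nlinarith [mul_nonneg hW0 hkI2, mul_nonneg (mul_nonneg hpi.le hW0) hkI2, mul_nonneg hpi.le hkI2, mul_nonneg hpi.le hW0]
    have h7 : S * (2 + W) ≤ C := le_max_left _ _
    have h8 : 0 ≤ 1 + kI F (Real.exp 2 * R) := by linarith
    calc avg R (kkX ε q F) ≤ S / R ^ 2 * (2 * Real.pi * ((2 + W) * (1 + kI F (Real.exp 2 * R)))) :=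
          h1.trans (mul_le_mul_of_nonneg_left h4 (by positivity))
      _ = 2 * Real.pi * ((S * (2 + W)) * (1 + kI F (Real.exp 2 * R)) / R ^ 2) := by ring
      _ ≤ 2 * Real.pi * (C * (1 + kI F (Real.exp 2 * R)) / R ^ 2) := by
          refine mul_le_mul_of_nonneg_left ?_ (by positivity)
          exact div_le_div_of_nonneg_right (mul_le_mul_of_nonneg_right h7 h8) (by positivity)
  have hJ1 : avg R (fun z => Real.log (1 + kkX ε q F z)) ≤ 2 * Real.pi * Real.log (1 + C * (1 + kI F (Real.exp 2 * R)) / R ^ 2) := by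
    refine kk_jensen hR (f := fun z => 1 + kkX ε q F z) (continuous_const.add hcX) (fun z => by linarith [hX0 z]) ?_
    have h1 : avg R (fun z => 1 + kkX ε q F z) = 2 * Real.pi + avg R (kkX ε q F) := by
      unfold avg
      rw [← int_rhoR hR, ← integral_add ((continuous_rhoR R).integrable_of_hasCompactSupport (hcs_rhoR hR))
        (kk_int (continuous_rhoR R) (hcs_rhoR hR) hcX)]
      exact integral_congr_ae (Eventually.of_forall fun z => by ring)
    rw [h1]
    linarith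
  have hJ2 : avg R (fun z => Real.log (2 - Real.log (kkD ε q F z))) ≤ 2 * Real.pi * Real.log (2 + C * (1 + kI F R)) := by
    refine kk_jensen hR (f := fun z => 2 - Real.log (kkD ε q F z)) (continuous_const.sub hcs) (fun z => kk_m hε hε1 hq z) ?_
    have hn1 : Integrable fun z => rhoR R z * (-Real.log (kkD ε q F z)) :=
      kk_int (continuous_rhoR R) (hcs_rhoR hR) hcs.neg
    have h1 : avg R (fun z => 2 - Real.log (kkD ε q F z)) = 2 * Real.pi * 2 + avg R (fun z => -Real.log (kkD ε q F z)) := by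
      unfold avg
      rw [← int_rhoR hR, ← integral_mul_const, ← integral_add (((continuous_rhoR R).integrable_of_hasCompactSupport (hcs_rhoR hR)).mul_const 2)
        hn1]
      exact integral_congr_ae (Eventually.of_forall fun z => by ring)
    rw [h1]
    have h2 := kk_mean_s hε hq hF h0 hR
    have h3 := hS1 ε hε
    have h4 : W + 4 ≤ C := le_max_right _ _
    have h6 : (3 : ℝ) < Real.pi := Real.pi_gt_three
    have h7 : W + 4 * kI F R ≤ 2 * Real.pi * (C * (1 + kI F R)) := by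
      have h8 : (W + 4) * (1 + kI F R) ≤ C * (1 + kI F R) := mul_le_mul_of_nonneg_right h4 (by linarith)
      have h9 : 0 ≤ C * (1 + kI F R) := mul_nonneg (by linarith) (by linarith)
      nlinarith [mul_nonneg hW0 hkI]
    linarith
  -- comparison
  have hcl := kk_cl hε hq hF h0
  have hcm := kk_cm hε hε1 hq hF h0
  have hc1 : Continuous fun z => 1 + kkX ε q F z := continuous_const.add hcX
  have hcX1 : Continuous fun z => Real.log (1 + kkX ε q F z) := hc1.log fun z => by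
    have := hX0 z
    positivity
  have hfin : avg R (fun z => Real.log (1 + lam2 F z / kkD ε q F z)) ≤
      avg R (fun z => Real.log (1 + kkX ε q F z)) + 2 * avg R (fun z => Real.log (2 - Real.log (kkD ε q F z))) := by
    unfold avg
    rw [← integral_const_mul, ← integral_add (kk_int (continuous_rhoR R) (hcs_rhoR hR) hcX1)
      ((kk_int (continuous_rhoR R) (hcs_rhoR hR) hcm).const_mul 2)]
    refine integral_mono (kk_int (continuous_rhoR R) (hcs_rhoR hR) hcl) ((kk_int (continuous_rhoR R) (hcs_rhoR hR) hcX1).add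
      ((kk_int (continuous_rhoR R) (hcs_rhoR hR) hcm).const_mul 2)) fun z => ?_
    have hm := kk_m hε hε1 hq (F := F) z
    set m := 2 - Real.log (kkD ε q F z) with hmdef
    have hD := kkD_pos hε hq (F := F) z
    have h1 : lam2 F z / kkD ε q F z = kkX ε q F z * m ^ 2 := by
      unfold kkX
      rw [← hmdef]
      field_simp
    have h2 : 1 + lam2 F z / kkD ε q F z ≤ (1 + kkX ε q F z) * m ^ 2 := by
      rw [h1]
      nlinarith [hX0 z]
    have h3 : Real.log (1 + lam2 F z / kkD ε q F z) ≤ Real.log (1 + kkX ε q F z) + 2 * Real.log m := by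
      have h4 : 0 < 1 + lam2 F z / kkD ε q F z := by
        have : 0 ≤ lam2 F z / kkD ε q F z := div_nonneg (lam2_nonneg F z) hD.le
        linarith
      have h5 := Real.log_le_log h4 h2
      rw [Real.log_mul (by linarith [hX0 z]) (by positivity), Real.log_pow] at h5
      push_cast at h5
      exact h5
    have := mul_le_mul_of_nonneg_left h3 (rhoR_nonneg R z)
    calc _ ≤ _ := this
      _ = _ := by ring
  linarith

/-- **KK** -/
theorem kk_zero (hq : ‖q‖ = 1) (hF : Differentiable ℂ F) (h0 : ∀ z, F z ≠ 0) (hne : ∃ z, kkD 0 q F z ≠ 0) :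
    ∃ C : ℝ, 0 ≤ C ∧ ∀ R, 1 ≤ R → Integrable (fun z => rhoR R z * Real.log (1 + lam2 F z / kkD 0 q F z)) ∧
      avg R (fun z => Real.log (1 + lam2 F z / kkD 0 q F z)) ≤
      2 * Real.pi * Real.log (1 + C * (1 + kI F (Real.exp 2 * R)) / R ^ 2) + 4 * Real.pi * Real.log (2 + C * (1 + kI F R)) := by
  obtain ⟨C, hC0, hC⟩ := kk_eps hq hF h0 hne
  obtain ⟨w, hwi, hw⟩ := kk_major hq hF h0 hne
  refine ⟨C, hC0, fun R hR => ?_⟩
  have hl1 : Continuous fun z => Real.log (1 + lam2 F z) := by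
    have h : Continuous fun z => 1 + lam2 F z := continuous_const.add (continuous_lam2 hF h0)
    refine h.log fun z => ?_
    have := lam2_nonneg F z
    linarith
  have hbi : Integrable fun z => rhoR R z * Real.log (1 + lam2 F z) + rhoR R z * w z :=
    (kk_int (continuous_rhoR R) (hcs_rhoR hR) hl1).add (hwi R hR)
  have hbd : ∀ᵐ z : ℂ, ∀ ε, 0 ≤ ε → 0 ≤ Real.log (1 + lam2 F z / kkD ε q F z) ∧
      Real.log (1 + lam2 F z / kkD ε q F z) ≤ Real.log (1 + lam2 F z) + w z := by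
    filter_upwards [hw] with z hz ε hε
    have hD0 := hz.1
    have hD1 := (kkD_bd (ε := 0) hq F z).2
    have hDe : kkD 0 q F z ≤ kkD ε q F z := by
      unfold kkD
      linarith
    have hl := lam2_nonneg F z
    have h1 : 0 ≤ lam2 F z / kkD ε q F z := div_nonneg hl (hD0.le.trans hDe)
    refine ⟨Real.log_nonneg (by linarith), ?_⟩
    have h2 : 1 + lam2 F z / kkD ε q F z ≤ (1 + lam2 F z) / kkD 0 q F z := by
      have h3 : lam2 F z / kkD ε q F z ≤ lam2 F z / kkD 0 q F z := div_le_div_of_nonneg_left hl hD0 hDe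
      have h4 : 1 ≤ 1 / kkD 0 q F z := by
        rw [le_div_iff₀ hD0]
        linarith
      rw [add_div]
      linarith
    have h5 := Real.log_le_log (by linarith) h2
    rw [Real.log_div (by linarith) hD0.ne'] at h5
    have h6 := hz.2 0 le_rfl
    linarith
  have hmeas : AEStronglyMeasurable (fun z => rhoR R z * Real.log (1 + lam2 F z / kkD 0 q F z)) volume := by
    have h1 : Measurable fun z => lam2 F z / kkD 0 q F z := (continuous_lam2 hF h0).measurable.div (continuous_kkD 0 hF h0).measurable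
    exact ((continuous_rhoR R).measurable.mul (Real.measurable_log.comp (h1.const_add 1))).aestronglyMeasurable
  have hnorm : ∀ᵐ z : ℂ, ∀ ε, 0 ≤ ε → ‖rhoR R z * Real.log (1 + lam2 F z / kkD ε q F z)‖ ≤
      rhoR R z * Real.log (1 + lam2 F z) + rhoR R z * w z := by
    filter_upwards [hbd] with z hz ε hε
    obtain ⟨h1, h2⟩ := hz ε hε
    rw [Real.norm_of_nonneg (mul_nonneg (rhoR_nonneg R z) h1), ← mul_add]
    exact mul_le_mul_of_nonneg_left h2 (rhoR_nonneg R z)
  have hi : Integrable (fun z => rhoR R z * Real.log (1 + lam2 F z / kkD 0 q F z)) :=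
    hbi.mono' hmeas (by filter_upwards [hnorm] with z hz using hz 0 le_rfl)
  refine ⟨hi, ?_⟩
  have hlim : Tendsto (fun n : ℕ => avg R (fun z => Real.log (1 + lam2 F z / kkD (1 / ((n : ℝ) + 1)) q F z))) atTop
      (𝓝 (avg R (fun z => Real.log (1 + lam2 F z / kkD 0 q F z)))) := by
    unfold avg
    refine tendsto_integral_of_dominated_convergence _ (fun n => ?_) hbi (fun n => ?_) ?_
    · exact (kk_int (continuous_rhoR R) (hcs_rhoR hR) (kk_cl (by positivity) hq hF h0)).aestronglyMeasurable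
    · filter_upwards [hnorm] with z hz
      exact hz _ (by positivity)
    · filter_upwards [hw] with z hz
      have h1 : Tendsto (fun n : ℕ => kkD (1 / ((n : ℝ) + 1)) q F z) atTop (𝓝 (kkD 0 q F z)) := by
        have h2 : Tendsto (fun n : ℕ => (1 : ℝ) / ((n : ℝ) + 1)) atTop (𝓝 0) := tendsto_one_div_add_atTop_nhds_zero_nat
        unfold kkD
        exact (tendsto_const_nhds.add h2).sub tendsto_const_nhds
      have h3 : Tendsto (fun n : ℕ => 1 + lam2 F z / kkD (1 / ((n : ℝ) + 1)) q F z) atTop (𝓝 (1 + lam2 F z / kkD 0 q F z)) :=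
        tendsto_const_nhds.add (tendsto_const_nhds.div h1 hz.1.ne')
      have h4 : (1 + lam2 F z / kkD 0 q F z) ≠ 0 := by
        have : 0 ≤ lam2 F z / kkD 0 q F z := div_nonneg (lam2_nonneg F z) hz.1.le
        linarith
      exact tendsto_const_nhds.mul (h3.log h4)
  exact le_of_tendsto' hlim fun n => hC _ (by positivity) (by
    rw [div_le_one (by positivity)]
    have : (0 : ℝ) ≤ n := Nat.cast_nonneg n
    linarith) R hR

/-! ## the final form -/

section final

open Pool.Agent.H36.BP (EN fs wd)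

variable {M : ℕ}

/-- the sine of the angle between `F z` and `q` -/
def dq (q : EN M) (F : ℂ → EN M) (z : ℂ) : ℝ := Real.sqrt (1 - ‖(inner ℂ q (F z) : ℂ)‖ ^ 2 / ‖F z‖ ^ 2)

theorem kk_lam_sq (F : ℂ → EN M) (z : ℂ) : lam F z ^ 2 = lam2 F z := by
  have h : ‖(inner ℂ (F z) (deriv F z) : ℂ)‖ ≤ ‖F z‖ * ‖deriv F z‖ := norm_inner_le_norm _ _
  have h2 : ‖(inner ℂ (F z) (deriv F z) : ℂ)‖ ^ 2 ≤ (‖F z‖ * ‖deriv F z‖) ^ 2 := pow_le_pow_left₀ (norm_nonneg _) h 2
  unfold lam fs wd lam2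
  rw [div_pow, Real.sq_sqrt (by nlinarith), ← pow_mul]

theorem kk_lam_nonneg (F : ℂ → EN M) (z : ℂ) : 0 ≤ lam F z := div_nonneg (Real.sqrt_nonneg _) (by positivity)

theorem kI_eq_En (F : ℂ → EN M) (R : ℝ) : kI F R = En F R := by
  unfold kI En
  simp only [kk_lam_sq]

theorem dq_sq {q : EN M} (hq : ‖q‖ = 1) (F : ℂ → EN M) (z : ℂ) : dq q F z ^ 2 = kkD 0 q F z := by
  have h := (kkD_bd (ε := 0) hq F z).1
  unfold kkD at h
  unfold dq kkD
  rw [Real.sq_sqrt (by linarith)]
  ring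

theorem dq_nonneg (q : EN M) (F : ℂ → EN M) (z : ℂ) : 0 ≤ dq q F z := Real.sqrt_nonneg _

/-- `log (1 + lam / δ) ≤ (log 2 + log (1 + lam² / δ²)) / 2` -/
theorem kk_log_half {q : EN M} (hq : ‖q‖ = 1) (F : ℂ → EN M) (z : ℂ) : 0 ≤ Real.log (1 + lam F z / dq q F z) ∧
    Real.log (1 + lam F z / dq q F z) ≤ (Real.log 2 + Real.log (1 + lam2 F z / kkD 0 q F z)) / 2 := by
  have h1 : lam2 F z / kkD 0 q F z = (lam F z / dq q F z) ^ 2 := by
    rw [← dq_sq hq, ← kk_lam_sq, div_pow]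
  have h2 : 0 ≤ lam F z / dq q F z := div_nonneg (kk_lam_nonneg F z) (dq_nonneg q F z)
  rw [h1]
  set t := lam F z / dq q F z with ht
  refine ⟨Real.log_nonneg (by linarith), ?_⟩
  have h3 : Real.log ((1 + t) ^ 2) ≤ Real.log (2 * (1 + t ^ 2)) := by
    refine Real.log_le_log (by positivity) ?_
    nlinarith [sq_nonneg (1 - t)]
  rw [Real.log_pow, Real.log_mul (by norm_num) (by positivity)] at h3
  push_cast at h3
  linarith

/-- **KK**: the mean of `log (1 + lam / δ)`, `δ` the distance to the point `q` -/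
theorem kk {F : ℂ → EN M} (hF : Differentiable ℂ F) (h0 : ∀ z, F z ≠ 0) {q : EN M} (hq : ‖q‖ = 1) (hne : ∃ z, ‖(inner ℂ q (F z) : ℂ)‖ ≠ ‖F z‖)
    {A : ℝ} (hA : ∀ R, 1 ≤ R → En F R ≤ A * R ^ 2) : ∃ C : ℝ, 0 ≤ C ∧ ∀ R, 1 ≤ R →
      Integrable (fun z => rhoR R z * Real.log (1 + lam F z / dq q F z)) ∧
      avg R (fun z => Real.log (1 + lam F z / dq q F z)) ≤ C + 2 * Real.pi * Real.log (1 + En F R) := by
  have hne' : ∃ z, kkD 0 q F z ≠ 0 := by
    obtain ⟨z, hz⟩ := hne
    refine ⟨z, fun h => hz ?_⟩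
    have hfp : 0 < ‖F z‖ := norm_pos_iff.2 (h0 z)
    unfold kkD at h
    have h1 : ‖(inner ℂ q (F z) : ℂ)‖ ^ 2 / ‖F z‖ ^ 2 = 1 := by linarith
    rw [div_eq_one_iff_eq (by positivity)] at h1
    exact (pow_left_inj₀ (norm_nonneg _) (norm_nonneg _) two_ne_zero).1 h1
  obtain ⟨C, hC0, hC⟩ := kk_zero hq hF h0 hne'
  have hpi := Real.pi_pos
  have hA0 : 0 ≤ A := by
    have h1 := hA 1 le_rfl
    rw [← kI_eq_En] at h1
    have h2 := kI_nonneg F (le_refl (1 : ℝ))
    linarith
  set B : ℝ := 1 + C * (1 + A * Real.exp 2 ^ 2) with hB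
  have hB1 : 1 ≤ B := by
    have : 0 ≤ C * (1 + A * Real.exp 2 ^ 2) := by positivity
    linarith
  refine ⟨Real.pi * Real.log 2 + Real.pi * Real.log B + 2 * Real.pi * Real.log (2 + C), ?_, fun R hR => ?_⟩
  · have h1 := Real.log_nonneg (show (1 : ℝ) ≤ 2 by norm_num)
    have h2 := Real.log_nonneg hB1
    have h3 := Real.log_nonneg (show (1 : ℝ) ≤ 2 + C by linarith)
    positivity
  obtain ⟨hi, hle⟩ := hC R hR
  have hR0 : 0 < R := by linarith
  have he : 1 ≤ Real.exp 2 * R := by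
    have := Real.one_le_exp (zero_le_two (α := ℝ))
    nlinarith
  have hkI := kI_nonneg F hR
  have hkI2 := kI_nonneg F he
  rw [kI_eq_En] at hkI hkI2
  simp only [kI_eq_En] at hle
  have hi1 : Integrable (rhoR R) := (continuous_rhoR R).integrable_of_hasCompactSupport (hcs_rhoR hR)
  have hbi : Integrable fun z => 1 / 2 * (Real.log 2 * rhoR R z + rhoR R z * Real.log (1 + lam2 F z / kkD 0 q F z)) :=
    ((hi1.const_mul _).add hi).const_mul _
  have hmeas : AEStronglyMeasurable (fun z => rhoR R z * Real.log (1 + lam F z / dq q F z)) volume := by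
    have h1 : Measurable (lam F) := by
      have e : lam F = fun z => Real.sqrt (lam2 F z) := funext fun z => by rw [← kk_lam_sq, Real.sqrt_sq (kk_lam_nonneg F z)]
      rw [e]
      exact (continuous_lam2 hF h0).measurable.sqrt
    have h2 : Measurable (dq q F) := by
      have e : dq q F = fun z => Real.sqrt (kkD 0 q F z) := funext fun z => by rw [← dq_sq hq, Real.sqrt_sq (dq_nonneg q F z)]
      rw [e]
      exact (continuous_kkD 0 hF h0).measurable.sqrt
    exact ((continuous_rhoR R).measurable.mul (Real.measurable_log.comp ((h1.div h2).const_add 1))).aestronglyMeasurable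
  have hbd : ∀ z, rhoR R z * Real.log (1 + lam F z / dq q F z) ≤
      1 / 2 * (Real.log 2 * rhoR R z + rhoR R z * Real.log (1 + lam2 F z / kkD 0 q F z)) := by
    intro z
    have := mul_le_mul_of_nonneg_left (kk_log_half hq F z).2 (rhoR_nonneg R z)
    calc _ ≤ _ := this
      _ = _ := by ring
  have hint : Integrable (fun z => rhoR R z * Real.log (1 + lam F z / dq q F z)) := by
    refine hbi.mono' hmeas (Eventually.of_forall fun z => ?_)
    rw [Real.norm_of_nonneg (mul_nonneg (rhoR_nonneg R z) (kk_log_half hq F z).1)]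
    exact hbd z
  refine ⟨hint, ?_⟩
  have h1 : avg R (fun z => Real.log (1 + lam F z / dq q F z)) ≤ 1 / 2 * (Real.log 2 * (2 * Real.pi) + avg R fun z => Real.log (1 + lam2 F z / kkD 0 q F z)) := by
    have h2 := integral_mono hint hbi hbd
    rw [integral_const_mul, integral_add (hi1.const_mul _) hi, integral_const_mul, int_rhoR hR] at h2
    exact h2
  have h2 : Real.log (1 + C * (1 + En F (Real.exp 2 * R)) / R ^ 2) ≤ Real.log B := by
    refine Real.log_le_log (by positivity) ?_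
    have h3 := hA _ he
    have h4 : (1 + En F (Real.exp 2 * R)) / R ^ 2 ≤ 1 + A * Real.exp 2 ^ 2 := by
      rw [div_le_iff₀ (by positivity)]
      have h5 : 1 ≤ R ^ 2 := one_le_pow₀ hR
      calc 1 + En F (Real.exp 2 * R) ≤ R ^ 2 + A * (Real.exp 2 * R) ^ 2 := add_le_add h5 h3
        _ = _ := by ring
    have h6 := mul_le_mul_of_nonneg_left h4 hC0
    rw [hB, mul_div_assoc]
    linarith
  have h3 : Real.log (2 + C * (1 + En F R)) ≤ Real.log (2 + C) + Real.log (1 + En F R) := by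
    rw [← Real.log_mul (by linarith) (by linarith)]
    refine Real.log_le_log (by positivity) ?_
    nlinarith
  have h4 := mul_le_mul_of_nonneg_left h2 (show 0 ≤ 2 * Real.pi by positivity)
  have h5 := mul_le_mul_of_nonneg_left h3 (show 0 ≤ 4 * Real.pi by positivity)
  nlinarith

/-- **KK**, second form -/
theorem kk_le {F : ℂ → EN M} (hF : Differentiable ℂ F) (h0 : ∀ z, F z ≠ 0) {q : EN M} (hq : ‖q‖ = 1) (hne : ∃ z, ‖(inner ℂ q (F z) : ℂ)‖ ≠ ‖F z‖)
    {A : ℝ} (hA : ∀ R, 1 ≤ R → En F R ≤ A * R ^ 2) {ε : ℝ} (hε : 0 < ε) : ∃ C : ℝ, 0 ≤ C ∧ ∀ R, 1 ≤ R →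
      Integrable (fun z => rhoR R z * Real.log (1 + lam F z / dq q F z)) ∧
      avg R (fun z => Real.log (1 + lam F z / dq q F z)) ≤ ε * En F R + C := by
  obtain ⟨C, hC0, hC⟩ := kk hF h0 hq hne hA
  have hpi := Real.pi_pos
  set a : ℝ := ε / (2 * Real.pi) with ha
  have ha0 : 0 < a := by positivity
  refine ⟨C + 2 * Real.pi * (a + |Real.log a|), by positivity, fun R hR => ⟨(hC R hR).1, ?_⟩⟩
  have hE : 0 ≤ En F R := by
    rw [← kI_eq_En]
    exact kI_nonneg F hR
  have h1 := (hC R hR).2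
  have h2 : Real.log (1 + En F R) ≤ a * (1 + En F R) + |Real.log a| := by
    have h3 := Real.log_le_sub_one_of_pos (show 0 < a * (1 + En F R) by positivity)
    rw [Real.log_mul ha0.ne' (by linarith)] at h3
    have h4 := neg_abs_le (Real.log a)
    linarith
  have h5 := mul_le_mul_of_nonneg_left h2 (show 0 ≤ 2 * Real.pi by positivity)
  have h6 : 2 * Real.pi * (a * (1 + En F R) + |Real.log a|) = ε * En F R + 2 * Real.pi * (a + |Real.log a|) := by
    rw [ha]
    field_simp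
    ring
  linarith

end final

end Pool.Agent.MQ
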