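import Pool.Agent.MQ.KK
import Pool.Agent.H30M.Key

/-!
# MQ/KK2: the logarithmic derivative of a form along a curve

`L` of class `C²`, `0 ≤ Δ L`, `g` entire, `|g| ≤ exp (d L)`, `u = log |g| - d L`: the mean of `log (1 + |∇ u|²)` over the annulus `R < |z| < e R` is at most
`log (1 + C (1 + I (e² R)) / R²) + 2 log (2 + C (1 + I R))`, `I R = ∫ tau R * Δ L`.
-/

set_option autoImplicit false

open MeasureTheory Topology Filter Set Laplacian

noncomputable section

namespace Pool.Agent.MQ

open Pool.Agent.H30M (tau rho rhoR avg hcs_tau contDiff_tau tau_nonneg tau_le tau_eq_zero one_le_tau hcs_rhoR continuous_rhoR rhoR_nonneg int_rhoR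
  rhoR_eq_zero green_tau gg II uu e2u GG HH KK e2u_nonneg GG_nonneg HH_nonneg e2u_eq contDiff_KK continuous_e2u continuous_GG continuous_HH contDiffAt_uu
  GG_eq lap_KK ae_ne_zero)

variable {L : ℂ → ℝ} {g : ℂ → ℂ} {d : ℝ}

theorem k2_e2u_le (hle : ∀ z, ‖g z‖ ≤ Real.exp (d * L z)) (z : ℂ) : e2u L g d z ≤ 1 := Pool.Agent.H30M.e2u_le_one hle z

/-- `KK ≤ 1` for `b ≤ 0` -/
theorem k2_KK_le (hle : ∀ z, ‖g z‖ ≤ Real.exp (d * L z)) {b : ℝ} (hb : b ≤ 0) (z : ℂ) : KK L g d b z ≤ 1 := by
  have h1 := k2_e2u_le hle z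
  have h2 := e2u_nonneg L g d z
  have h3 : Real.exp (2 * b) ≤ 1 := Real.exp_le_one_iff.2 (by linarith)
  have h4 := Real.exp_pos (2 * b)
  have h5 := Real.log_le_sub_one_of_pos (show 0 < e2u L g d z + Real.exp (2 * b) by linarith)
  unfold KK
  linarith

/-- `u ≤ KK` -/
theorem k2_le_KK (b : ℝ) {z : ℂ} (h : g z ≠ 0) : uu L g d z ≤ KK L g d b z := by
  unfold KK
  have h1 := Real.exp_pos (2 * b)
  have h2 : Real.log (Real.exp (2 * uu L g d z)) ≤ Real.log (e2u L g d z + Real.exp (2 * b)) := by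
    refine Real.log_le_log (Real.exp_pos _) ?_
    rw [e2u_eq h]
    linarith
  rw [Real.log_exp] at h2
  linarith

/-- `Φ = - log (2 - KK)` -/
def k2Φ (L : ℂ → ℝ) (g : ℂ → ℂ) (d b : ℝ) (z : ℂ) : ℝ := -Real.log (2 - KK L g d b z)

/-- `X = GG / ((e2u + e^(2b)) (2 - KK)²)` -/
def k2X (L : ℂ → ℝ) (g : ℂ → ℂ) (d b : ℝ) (z : ℂ) : ℝ := GG L g d z / ((e2u L g d z + Real.exp (2 * b)) * (2 - KK L g d b z) ^ 2)

theorem k2_contDiff (hL : ContDiff ℝ 2 L) (hg : Differentiable ℂ g) (hle : ∀ z, ‖g z‖ ≤ Real.exp (d * L z)) {b : ℝ} (hb : b ≤ 0) :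
    ContDiff ℝ 2 (k2Φ L g d b) := by
  have h1 : ContDiff ℝ 2 fun z => 2 - KK L g d b z := contDiff_const.sub (contDiff_KK hL hg b)
  exact (h1.log fun z => by
    have := k2_KK_le hle hb z
    linarith).neg

theorem k2_alg {m E e G : ℝ} (hm : 1 ≤ m) (hE : 0 < E) (he : 0 ≤ e) (hG : 0 ≤ G) :
    G / ((e + E) * m ^ 2) ≤ m⁻¹ * (2 * E * G / (e + E) ^ 2) + (m ^ 2)⁻¹ * (e * G / (e + E) ^ 2) := by
  have hm0 : 0 < m := by linarith
  have hx : 0 < e + E := by linarith
  have h2 : m⁻¹ * (2 * E * G / (e + E) ^ 2) + (m ^ 2)⁻¹ * (e * G / (e + E) ^ 2) - G / ((e + E) * m ^ 2) =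
      E * G * (2 * m - 1) / (m ^ 2 * (e + E) ^ 2) := by
    field_simp
    ring
  have h3 : 0 ≤ E * G * (2 * m - 1) / (m ^ 2 * (e + E) ^ 2) :=
    div_nonneg (mul_nonneg (mul_nonneg hE.le hG) (by linarith)) (by positivity)
  linarith

/-- the pointwise inequality -/
theorem k2_point (hL : ContDiff ℝ 2 L) (hg : Differentiable ℂ g) (hd : 0 ≤ d) (hL0 : ∀ z, 0 ≤ Δ L z) (hle : ∀ z, ‖g z‖ ≤ Real.exp (d * L z))
    {b : ℝ} (hb : b ≤ 0) {z : ℂ} (h : g z ≠ 0) : k2X L g d b z - d * Δ L z ≤ Δ (k2Φ L g d b) z := by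
  have hK := contDiff_KK (d := d) hL hg b
  have hKc := hK.contDiffAt (x := z)
  have hm : 1 ≤ 2 - KK L g d b z := by
    have := k2_KK_le hle hb z
    linarith
  set m := 2 - KK L g d b z with hmdef
  have hmne : 2 - KK L g d b z ≠ 0 := by linarith
  have h1 : ∀ᶠ t in 𝓝 (KK L g d b z), HasDerivAt (fun t : ℝ => -Real.log (2 - t)) ((2 - t)⁻¹) t := by
    have : ∀ᶠ t in 𝓝 (KK L g d b z), 2 - t ≠ 0 := (continuousAt_const.sub continuousAt_id).eventually_ne hmne
    filter_upwards [this] with t ht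
    have h : HasDerivAt (fun t : ℝ => -Real.log (2 - t)) (-(-1 / (2 - t))) t := (((hasDerivAt_id t).const_sub 2).log ht).neg
    have e : -(-1 / (2 - t)) = (2 - t)⁻¹ := by ring
    rwa [e] at h
  have h2 : HasDerivAt (fun t : ℝ => (2 - t)⁻¹) (((2 - KK L g d b z) ^ 2)⁻¹) (KK L g d b z) := by
    have h : HasDerivAt (fun t : ℝ => (2 - t)⁻¹) (-(-1) / (2 - KK L g d b z) ^ 2) (KK L g d b z) :=
      ((hasDerivAt_id (KK L g d b z)).const_sub 2).fun_inv hmne
    have e : -(-1) / (2 - KK L g d b z) ^ 2 = ((2 - KK L g d b z) ^ 2)⁻¹ := by ring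
    rwa [e] at h
  have hlap := kk_lap_comp hKc h1 h2
  have hΦ : k2Φ L g d b = fun w => -Real.log (2 - KK L g d b w) := rfl
  have hc2 : ContDiffAt ℝ 2 (k2Φ L g d b) z := (k2_contDiff hL hg hle hb).contDiffAt
  rw [← kklap_eq hc2, hΦ, hlap, kklap_eq hKc, lap_KK hL hg b h]
  -- the gradient of `KK`
  set E := Real.exp (2 * b) with hE
  have hEp : 0 < E := Real.exp_pos _
  set e := e2u L g d z with he
  have he0 : 0 ≤ e := e2u_nonneg L g d z
  have hx : 0 < e + E := by linarith
  have hgrad : ∀ c : ℂ, fderiv ℝ (KK L g d b) z c = e / (e + E) * fderiv ℝ (uu L g d) z c := by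
    intro c
    have hev : KK L g d b =ᶠ[𝓝 z] fun w => Real.log (Real.exp (2 * uu L g d w) + E) / 2 := by
      filter_upwards [hg.continuous.continuousAt.eventually_ne h] with w hw
      unfold KK
      rw [e2u_eq hw]
    have hu : DifferentiableAt ℝ (uu L g d) z := (contDiffAt_uu (d := d) hL hg h).differentiableAt (by norm_num)
    rw [hev.fderiv_eq]
    have h3 : HasFDerivAt (fun w => Real.exp (2 * uu L g d w) + E) (Real.exp (2 * uu L g d z) • (2 • fderiv ℝ (uu L g d) z)) z := by
      have h4 := (hu.hasFDerivAt.const_smul (2 : ℝ)).exp.add_const E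
      refine (h4.congr_fderiv ?_).congr_of_eventuallyEq (Eventually.of_forall fun w => ?_)
      · ext v
        simp [two_mul]
      · simp
    have hpos : 0 < Real.exp (2 * uu L g d z) + E := by positivity
    have h5 := (h3.log hpos.ne').mul_const (1 / 2 : ℝ)
    have h6 : (fun w => Real.log (Real.exp (2 * uu L g d w) + E) / 2) = fun w => Real.log (Real.exp (2 * uu L g d w) + E) * (1 / 2) := by
      funext w
      ring
    rw [h6, h5.fderiv, he, e2u_eq h]
    simp
    field_simp
  have hgsum : kkdx (KK L g d b) z ^ 2 + kkdy (KK L g d b) z ^ 2 = e * GG L g d z / (e + E) ^ 2 := by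
    unfold kkdx kkdy
    rw [hgrad, hgrad, GG_eq hL hg h]
    unfold gg
    rw [← he]
    field_simp
  rw [hgsum]
  have hHH : HH L g d b z = 2 * E * GG L g d z / (e + E) ^ 2 := rfl
  rw [hHH]
  have hG := GG_nonneg L g d z
  have halg := k2_alg (m := m) (E := E) (e := e) (G := GG L g d z) hm hEp he0 hG
  have hmi : m⁻¹ ≤ 1 := inv_le_one_of_one_le₀ hm
  have hm0 : 0 < m := by linarith
  have hfr : e / (e + E) ≤ 1 := by
    rw [div_le_one hx]
    linarith
  have hfr0 : 0 ≤ e / (e + E) := div_nonneg he0 hx.le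
  have hdL : 0 ≤ d * Δ L z := mul_nonneg hd (hL0 z)
  have h7 : m⁻¹ * (e / (e + E) * (d * Δ L z)) ≤ d * Δ L z := by
    have h8 : e / (e + E) * (d * Δ L z) ≤ d * Δ L z := mul_le_of_le_one_left hdL hfr
    have h9 : 0 ≤ e / (e + E) * (d * Δ L z) := mul_nonneg hfr0 hdL
    calc m⁻¹ * (e / (e + E) * (d * Δ L z)) ≤ 1 * (e / (e + E) * (d * Δ L z)) := mul_le_mul_of_nonneg_right hmi h9
      _ ≤ _ := by rw [one_mul]; exact h8
  have hXe : k2X L g d b z = GG L g d z / ((e + E) * m ^ 2) := rfl
  have hexp : m⁻¹ * (2 * E * GG L g d z / (e + E) ^ 2 - e / (e + E) * (d * Δ L z)) =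
      m⁻¹ * (2 * E * GG L g d z / (e + E) ^ 2) - m⁻¹ * (e / (e + E) * (d * Δ L z)) := by ring
  rw [hXe, ← hmdef, hexp]
  linarith

/-! ## integration -/

theorem k2_continuous_lap (hL : ContDiff ℝ 2 L) : Continuous (Δ L) := Pool.Agent.H30M.continuous_lap hL

theorem k2_II_nonneg (hL0 : ∀ z, 0 ≤ Δ L z) {R : ℝ} (hR : 1 ≤ R) : 0 ≤ II L R := integral_nonneg fun z => mul_nonneg (tau_nonneg hR z) (hL0 z)

theorem k2_X_nonneg (b : ℝ) (z : ℂ) : 0 ≤ k2X L g d b z := by
  unfold k2X
  have h1 := GG_nonneg L g d z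
  have h2 := e2u_nonneg L g d z
  positivity

theorem k2_continuous_X (hL : ContDiff ℝ 2 L) (hg : Differentiable ℂ g) (hle : ∀ z, ‖g z‖ ≤ Real.exp (d * L z)) {b : ℝ} (hb : b ≤ 0) :
    Continuous (k2X L g d b) := by
  refine (continuous_GG hL hg).div (((continuous_e2u hL hg).add continuous_const).mul ((continuous_const.sub (contDiff_KK hL hg b).continuous).pow 2))
    fun z => ?_
  have h1 := e2u_nonneg L g d z
  have h2 := Real.exp_pos (2 * b)
  have h3 := k2_KK_le hle hb z
  have : 0 < (e2u L g d z + Real.exp (2 * b)) * (2 - KK L g d b z) ^ 2 := mul_pos (by linarith) (pow_pos (by linarith) 2)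
  exact this.ne'

/-- the energy of `X` -/
theorem k2_energy (hL : ContDiff ℝ 2 L) (hg : Differentiable ℂ g) (h0 : ∃ z, g z ≠ 0) (hd : 0 ≤ d) (hL0 : ∀ z, 0 ≤ Δ L z)
    (hle : ∀ z, ‖g z‖ ≤ Real.exp (d * L z)) {b : ℝ} (hb : b ≤ 0) {R : ℝ} (hR : 1 ≤ R) :
    ∫ z, tau R z * k2X L g d b z ≤ avg 1 (fun z => Real.log (2 - KK L g d b z)) + d * II L R := by
  have hΦ := k2_contDiff hL hg hle hb
  have h1 := green_tau hR hΦ
  have iX := kk_int (contDiff_tau R).continuous (hcs_tau hR) (k2_continuous_X hL hg hle hb)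
  have iL := kk_int (contDiff_tau R).continuous (hcs_tau hR) (k2_continuous_lap hL)
  have iΦ := kk_int (contDiff_tau R).continuous (hcs_tau hR) (k2_continuous_lap hΦ)
  have h2 : ∫ z, (tau R z * k2X L g d b z - d * (tau R z * Δ L z)) ≤ ∫ z, tau R z * Δ (k2Φ L g d b) z := by
    refine integral_mono_ae (iX.sub (iL.const_mul d)) iΦ ?_
    filter_upwards [ae_ne_zero hg h0] with z hz
    have h3 := mul_le_mul_of_nonneg_left (k2_point hL hg hd hL0 hle hb hz) (tau_nonneg hR z)
    calc tau R z * k2X L g d b z - d * (tau R z * Δ L z) = tau R z * (k2X L g d b z - d * Δ L z) := by ring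
      _ ≤ _ := h3
  rw [integral_sub iX (iL.const_mul d), integral_const_mul, h1] at h2
  have h4 : avg R (k2Φ L g d b) ≤ 0 := by
    refine integral_nonpos fun z => mul_nonpos_of_nonneg_of_nonpos (rhoR_nonneg R z) ?_
    have := Real.log_nonneg (show (1 : ℝ) ≤ 2 - KK L g d b z by
      have := k2_KK_le hle hb z
      linarith)
    unfold k2Φ
    linarith
  have h5 : avg 1 (fun z => Real.log (2 - KK L g d b z)) = -avg 1 (k2Φ L g d b) := by
    unfold avg k2Φ
    rw [← integral_neg]
    exact integral_congr_ae (Eventually.of_forall fun z => by ring)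
  rw [h5]
  have h6 : II L R = ∫ z, tau R z * Δ L z := rfl
  rw [h6]
  linarith

/-- the mean of `-KK` -/
theorem k2_mean (hL : ContDiff ℝ 2 L) (hg : Differentiable ℂ g) (h0 : ∃ z, g z ≠ 0) (hd : 0 ≤ d) (hL0 : ∀ z, 0 ≤ Δ L z) (b : ℝ) {R : ℝ} (hR : 1 ≤ R) :
    avg R (fun z => -KK L g d b z) ≤ avg 1 (fun z => -KK L g d b z) + d * II L R := by
  have hK := contDiff_KK (d := d) hL hg b
  have h1 := green_tau hR hK
  have iL := kk_int (contDiff_tau R).continuous (hcs_tau hR) (k2_continuous_lap hL)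
  have iK := kk_int (contDiff_tau R).continuous (hcs_tau hR) (k2_continuous_lap hK)
  have h2 : ∫ z, (-d) * (tau R z * Δ L z) ≤ ∫ z, tau R z * Δ (KK L g d b) z := by
    refine integral_mono_ae (iL.const_mul (-d)) iK ?_
    filter_upwards [ae_ne_zero hg h0] with z hz
    have h3 : -(d * Δ L z) ≤ Δ (KK L g d b) z := by
      rw [lap_KK hL hg b hz]
      have h4 := HH_nonneg L g d b z
      have h5 := e2u_nonneg L g d z
      have h6 := Real.exp_pos (2 * b)
      have h7 : e2u L g d z / (e2u L g d z + Real.exp (2 * b)) * (d * Δ L z) ≤ d * Δ L z := by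
        refine mul_le_of_le_one_left (mul_nonneg hd (hL0 z)) ?_
        rw [div_le_one (by linarith)]
        linarith
      linarith
    have := mul_le_mul_of_nonneg_left h3 (tau_nonneg hR z)
    calc (-d) * (tau R z * Δ L z) = tau R z * (-(d * Δ L z)) := by ring
      _ ≤ _ := this
  rw [integral_const_mul, h1] at h2
  have e2 : ∀ R : ℝ, avg R (fun z => -KK L g d b z) = -avg R (KK L g d b) := by
    intro R
    unfold avg
    rw [← integral_neg]
    exact integral_congr_ae (Eventually.of_forall fun z => by ring)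
  have h6 : II L R = ∫ z, tau R z * Δ L z := rfl
  rw [e2, e2, h6]
  linarith

/-- `-u` is integrable over the annuli -/
theorem k2_integrable_uu (hL : ContDiff ℝ 2 L) (hg : Differentiable ℂ g) (h0 : ∃ z, g z ≠ 0) {R : ℝ} (hR : 1 ≤ R) :
    Integrable fun z => rhoR R z * (-uu L g d z) := by
  have i1 : Integrable fun z => rhoR R z * Real.log ‖g z‖ :=
    Pool.Agent.H30M.integrable_mul_log (continuous_rhoR R) (hcs_rhoR hR) (fun z _ => hg.analyticAt z) fun z _ => Pool.Agent.H30M.order_ne_top hg h0 z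
  have i2 : Integrable fun z => rhoR R z * (d * L z) := kk_int (continuous_rhoR R) (hcs_rhoR hR) (continuous_const.mul hL.continuous)
  refine (i2.sub i1).congr (Eventually.of_forall fun z => ?_)
  simp only [Pi.sub_apply, uu]
  ring

/-- **KK2**, for finite `b` -/
theorem k2_eps (hL : ContDiff ℝ 2 L) (hg : Differentiable ℂ g) (h0 : ∃ z, g z ≠ 0) (hd : 0 ≤ d) (hL0 : ∀ z, 0 ≤ Δ L z)
    (hle : ∀ z, ‖g z‖ ≤ Real.exp (d * L z)) : ∃ C : ℝ, 0 ≤ C ∧ ∀ b, b ≤ 0 → ∀ R, 1 ≤ R →
      avg R (fun z => Real.log (1 + GG L g d z / (e2u L g d z + Real.exp (2 * b)))) ≤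
      2 * Real.pi * Real.log (1 + C * (1 + II L (Real.exp 2 * R)) / R ^ 2) + 4 * Real.pi * Real.log (2 + C * (1 + II L R)) := by
  obtain ⟨S, hS0, hS⟩ := kk_rho
  have hpi := Real.pi_pos
  have hpi3 : (3 : ℝ) < Real.pi := Real.pi_gt_three
  set W : ℝ := |avg 1 (fun z => -uu L g d z)| with hW
  have hW0 : 0 ≤ W := abs_nonneg _
  have hKc : ∀ b, Continuous (KK L g d b) := fun b => (contDiff_KK hL hg b).continuous
  have hi1 : ∀ R, 1 ≤ R → Integrable (rhoR R) := fun R hR => (continuous_rhoR R).integrable_of_hasCompactSupport (hcs_rhoR hR)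
  have hS1 : ∀ b, avg 1 (fun z => -KK L g d b z) ≤ W := by
    intro b
    refine le_trans ?_ (le_abs_self (avg 1 (fun z => -uu L g d z)))
    refine integral_mono_ae (kk_int (continuous_rhoR 1) (hcs_rhoR le_rfl) (hKc b).neg) (k2_integrable_uu hL hg h0 le_rfl) ?_
    filter_upwards [ae_ne_zero hg h0] with z hz
    refine mul_le_mul_of_nonneg_left ?_ (rhoR_nonneg 1 z)
    have := k2_le_KK (L := L) (d := d) b hz
    linarith
  have hm : ∀ b, b ≤ 0 → ∀ z, 1 ≤ 2 - KK L g d b z := fun b hb z => by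
    have := k2_KK_le hle hb z
    linarith
  have hcm : ∀ b, b ≤ 0 → Continuous fun z => Real.log (2 - KK L g d b z) := fun b hb => by
    have h : Continuous fun z => 2 - KK L g d b z := continuous_const.sub (hKc b)
    exact h.log fun z => by
      have := hm b hb z
      linarith
  have hS2 : ∀ b, b ≤ 0 → avg 1 (fun z => Real.log (2 - KK L g d b z)) ≤ 2 * Real.pi + W := by
    intro b hb
    have hn1 : Integrable fun z => rhoR 1 z * (-KK L g d b z) := kk_int (continuous_rhoR 1) (hcs_rhoR le_rfl) (hKc b).neg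
    have h1 : avg 1 (fun z => Real.log (2 - KK L g d b z)) ≤ ∫ z, (rhoR 1 z + rhoR 1 z * (-KK L g d b z)) := by
      refine integral_mono (kk_int (continuous_rhoR 1) (hcs_rhoR le_rfl) (hcm b hb)) ((hi1 1 le_rfl).add hn1) fun z => ?_
      have h2 := hm b hb z
      have h3 := Real.log_le_sub_one_of_pos (show 0 < 2 - KK L g d b z by linarith)
      calc rhoR 1 z * Real.log (2 - KK L g d b z) ≤ rhoR 1 z * (1 + -KK L g d b z) :=
            mul_le_mul_of_nonneg_left (by linarith) (rhoR_nonneg 1 z)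
        _ = _ := by ring
    rw [integral_add (hi1 1 le_rfl) hn1, int_rhoR le_rfl] at h1
    have h4 := hS1 b
    unfold avg at h4
    linarith
  refine ⟨max (S * (2 + W + d)) (W + d + 4), le_max_of_le_right (by linarith), fun b hb R hR => ?_⟩
  set C := max (S * (2 + W + d)) (W + d + 4) with hC
  have hR0 : 0 < R := by linarith
  have he : 1 ≤ Real.exp 2 * R := by
    have := Real.one_le_exp (zero_le_two (α := ℝ))
    nlinarith
  have hcX := k2_continuous_X hL hg hle hb
  have hX0 := k2_X_nonneg (L := L) (g := g) (d := d) b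
  have hkI := k2_II_nonneg hL0 hR
  have hkI2 := k2_II_nonneg hL0 he
  have hX : avg R (k2X L g d b) ≤ 2 * Real.pi * (C * (1 + II L (Real.exp 2 * R)) / R ^ 2) := by
    have h1 : avg R (k2X L g d b) ≤ S / R ^ 2 * ∫ z, tau (Real.exp 2 * R) z * k2X L g d b z := by
      rw [← integral_const_mul]
      refine integral_mono (kk_int (continuous_rhoR R) (hcs_rhoR hR) hcX)
        ((kk_int (contDiff_tau _).continuous (hcs_tau he) hcX).const_mul _) fun z => ?_
      have := mul_le_mul_of_nonneg_right (hS R hR z) (hX0 z)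
      calc _ ≤ _ := this
        _ = _ := by ring
    have h2 := k2_energy hL hg h0 hd hL0 hle hb he
    have h3 := hS2 b hb
    have h4 : (∫ z, tau (Real.exp 2 * R) z * k2X L g d b z) ≤ 2 * Real.pi * ((2 + W + d) * (1 + II L (Real.exp 2 * R))) := by
      have h5 : (∫ z, tau (Real.exp 2 * R) z * k2X L g d b z) ≤ 2 * Real.pi + W + d * II L (Real.exp 2 * R) := by linarith
      have h6 : 2 * Real.pi + W + d * II L (Real.exp 2 * R) ≤ 2 * Real.pi * (1 + W + d * II L (Real.exp 2 * R)) := by
        nlinarith [mul_nonneg hd hkI2]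
      have h7 : 1 + W + d * II L (Real.exp 2 * R) ≤ (2 + W + d) * (1 + II L (Real.exp 2 * R)) := by
        nlinarith [mul_nonneg hd hkI2, mul_nonneg hW0 hkI2]
      exact h5.trans (h6.trans (mul_le_mul_of_nonneg_left h7 (by positivity)))
    have h7 : S * (2 + W + d) ≤ C := le_max_left _ _
    have h8 : 0 ≤ 1 + II L (Real.exp 2 * R) := by linarith
    calc avg R (k2X L g d b) ≤ S / R ^ 2 * (2 * Real.pi * ((2 + W + d) * (1 + II L (Real.exp 2 * R)))) :=
          h1.trans (mul_le_mul_of_nonneg_left h4 (by positivity))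
      _ = 2 * Real.pi * ((S * (2 + W + d)) * (1 + II L (Real.exp 2 * R)) / R ^ 2) := by ring
      _ ≤ 2 * Real.pi * (C * (1 + II L (Real.exp 2 * R)) / R ^ 2) := by
          refine mul_le_mul_of_nonneg_left ?_ (by positivity)
          exact div_le_div_of_nonneg_right (mul_le_mul_of_nonneg_right h7 h8) (by positivity)
  have hJ1 : avg R (fun z => Real.log (1 + k2X L g d b z)) ≤ 2 * Real.pi * Real.log (1 + C * (1 + II L (Real.exp 2 * R)) / R ^ 2) := by
    refine kk_jensen hR (f := fun z => 1 + k2X L g d b z) (continuous_const.add hcX) (fun z => by linarith [hX0 z]) ?_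
    have h1 : avg R (fun z => 1 + k2X L g d b z) = 2 * Real.pi + avg R (k2X L g d b) := by
      unfold avg
      rw [← int_rhoR hR, ← integral_add (hi1 R hR) (kk_int (continuous_rhoR R) (hcs_rhoR hR) hcX)]
      exact integral_congr_ae (Eventually.of_forall fun z => by ring)
    rw [h1]
    linarith
  have hJ2 : avg R (fun z => Real.log (2 - KK L g d b z)) ≤ 2 * Real.pi * Real.log (2 + C * (1 + II L R)) := by
    refine kk_jensen hR (f := fun z => 2 - KK L g d b z) (continuous_const.sub (hKc b)) (fun z => hm b hb z) ?_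
    have hn1 : Integrable fun z => rhoR R z * (-KK L g d b z) := kk_int (continuous_rhoR R) (hcs_rhoR hR) (hKc b).neg
    have h1 : avg R (fun z => 2 - KK L g d b z) = 2 * Real.pi * 2 + avg R (fun z => -KK L g d b z) := by
      unfold avg
      rw [← int_rhoR hR, ← integral_mul_const, ← integral_add ((hi1 R hR).mul_const 2) hn1]
      exact integral_congr_ae (Eventually.of_forall fun z => by ring)
    rw [h1]
    have h2 := k2_mean hL hg h0 hd hL0 b hR
    have h3 := hS1 b
    have h4 : W + d + 4 ≤ C := le_max_right _ _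
    have h7 : W + d * II L R ≤ 2 * Real.pi * (C * (1 + II L R)) := by
      have h8 : (W + d + 4) * (1 + II L R) ≤ C * (1 + II L R) := mul_le_mul_of_nonneg_right h4 (by linarith)
      have h9 : 0 ≤ C * (1 + II L R) := mul_nonneg (by linarith) (by linarith)
      have h10 : W + d * II L R ≤ (W + d + 4) * (1 + II L R) := by nlinarith [mul_nonneg hW0 hkI, mul_nonneg hd hkI]
      nlinarith
    linarith
  have hcl : Continuous fun z => Real.log (1 + GG L g d z / (e2u L g d z + Real.exp (2 * b))) := by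
    have h : Continuous fun z => 1 + GG L g d z / (e2u L g d z + Real.exp (2 * b)) :=
      continuous_const.add ((continuous_GG hL hg).div ((continuous_e2u hL hg).add continuous_const) fun z => by
        have := e2u_nonneg L g d z
        positivity)
    refine h.log fun z => ?_
    have h1 := e2u_nonneg L g d z
    have h2 := GG_nonneg L g d z
    positivity
  have hcX1 : Continuous fun z => Real.log (1 + k2X L g d b z) := by
    have h : Continuous fun z => 1 + k2X L g d b z := continuous_const.add hcX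
    refine h.log fun z => ?_
    have := hX0 z
    positivity
  have hfin : avg R (fun z => Real.log (1 + GG L g d z / (e2u L g d z + Real.exp (2 * b)))) ≤
      avg R (fun z => Real.log (1 + k2X L g d b z)) + 2 * avg R (fun z => Real.log (2 - KK L g d b z)) := by
    unfold avg
    rw [← integral_const_mul, ← integral_add (kk_int (continuous_rhoR R) (hcs_rhoR hR) hcX1)
      ((kk_int (continuous_rhoR R) (hcs_rhoR hR) (hcm b hb)).const_mul 2)]
    refine integral_mono (kk_int (continuous_rhoR R) (hcs_rhoR hR) hcl) ((kk_int (continuous_rhoR R) (hcs_rhoR hR) hcX1).add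
      ((kk_int (continuous_rhoR R) (hcs_rhoR hR) (hcm b hb)).const_mul 2)) fun z => ?_
    have hmz := hm b hb z
    set m := 2 - KK L g d b z with hmdef
    have hx : 0 < e2u L g d z + Real.exp (2 * b) := by
      have := e2u_nonneg L g d z
      positivity
    have h1 : GG L g d z / (e2u L g d z + Real.exp (2 * b)) = k2X L g d b z * m ^ 2 := by
      unfold k2X
      rw [← hmdef]
      field_simp
    have h2 : 1 + GG L g d z / (e2u L g d z + Real.exp (2 * b)) ≤ (1 + k2X L g d b z) * m ^ 2 := by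
      rw [h1]
      nlinarith [hX0 z]
    have h3 : Real.log (1 + GG L g d z / (e2u L g d z + Real.exp (2 * b))) ≤ Real.log (1 + k2X L g d b z) + 2 * Real.log m := by
      have h4 : 0 < 1 + GG L g d z / (e2u L g d z + Real.exp (2 * b)) := by
        have := GG_nonneg L g d z
        positivity
      have h5 := Real.log_le_log h4 h2
      rw [Real.log_mul (by linarith [hX0 z]) (by positivity), Real.log_pow] at h5
      push_cast at h5
      exact h5
    have := mul_le_mul_of_nonneg_left h3 (rhoR_nonneg R z)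
    calc _ ≤ _ := this
      _ = _ := by ring
  linarith

/-! ## the limit -/

/-- the modulus of the logarithmic derivative of the form `g` -/
def k2r (L : ℂ → ℝ) (g : ℂ → ℂ) (d : ℝ) (z : ℂ) : ℝ := ‖deriv g z / g z - d * (⟨fderiv ℝ L z 1, -fderiv ℝ L z Complex.I⟩ : ℂ)‖

theorem k2_GG {z : ℂ} (h : g z ≠ 0) : GG L g d z = e2u L g d z * k2r L g d z ^ 2 := by
  unfold GG e2u k2r
  have e1 : deriv g z - d * g z * (⟨fderiv ℝ L z 1, -fderiv ℝ L z Complex.I⟩ : ℂ) =
      g z * (deriv g z / g z - d * (⟨fderiv ℝ L z 1, -fderiv ℝ L z Complex.I⟩ : ℂ)) := by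
    field_simp
  rw [e1, norm_mul, mul_pow]
  ring

/-- **KK2**, without `b` -/
theorem k2_zero (hL : ContDiff ℝ 2 L) (hg : Differentiable ℂ g) (h0 : ∃ z, g z ≠ 0) (hd : 0 ≤ d) (hL0 : ∀ z, 0 ≤ Δ L z)
    (hle : ∀ z, ‖g z‖ ≤ Real.exp (d * L z)) : ∃ C : ℝ, 0 ≤ C ∧ ∀ R, 1 ≤ R →
      Integrable (fun z => rhoR R z * Real.log (1 + k2r L g d z ^ 2)) ∧
      avg R (fun z => Real.log (1 + k2r L g d z ^ 2)) ≤
      2 * Real.pi * Real.log (1 + C * (1 + II L (Real.exp 2 * R)) / R ^ 2) + 4 * Real.pi * Real.log (2 + C * (1 + II L R)) := by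
  obtain ⟨C, hC0, hC⟩ := k2_eps hL hg h0 hd hL0 hle
  refine ⟨C, hC0, fun R hR => ?_⟩
  have hl1 : Continuous fun z => Real.log (1 + GG L g d z) := by
    have h : Continuous fun z => 1 + GG L g d z := continuous_const.add (continuous_GG hL hg)
    refine h.log fun z => ?_
    have := GG_nonneg L g d z
    linarith
  have hbi : Integrable fun z => rhoR R z * Real.log (1 + GG L g d z) + 2 * (rhoR R z * (-uu L g d z)) :=
    (kk_int (continuous_rhoR R) (hcs_rhoR hR) hl1).add ((k2_integrable_uu hL hg h0 hR).const_mul 2)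
  have hbd : ∀ᵐ z : ℂ, ∀ E : ℝ, 0 ≤ E → 0 ≤ Real.log (1 + GG L g d z / (e2u L g d z + E)) ∧
      Real.log (1 + GG L g d z / (e2u L g d z + E)) ≤ Real.log (1 + GG L g d z) + 2 * (-uu L g d z) := by
    filter_upwards [ae_ne_zero hg h0] with z hz E hE
    have hG := GG_nonneg L g d z
    have he := e2u_eq (L := L) (d := d) hz
    have hep : 0 < e2u L g d z := by
      rw [he]
      exact Real.exp_pos _
    have he1 := k2_e2u_le hle z
    have h1 : 0 ≤ GG L g d z / (e2u L g d z + E) := div_nonneg hG (by linarith)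
    refine ⟨Real.log_nonneg (by linarith), ?_⟩
    have h2 : 1 + GG L g d z / (e2u L g d z + E) ≤ (1 + GG L g d z) / e2u L g d z := by
      have h3 : GG L g d z / (e2u L g d z + E) ≤ GG L g d z / e2u L g d z := div_le_div_of_nonneg_left hG hep (by linarith)
      have h4 : 1 ≤ 1 / e2u L g d z := by
        rw [le_div_iff₀ hep]
        linarith
      rw [add_div]
      linarith
    have h5 := Real.log_le_log (by linarith) h2
    rw [Real.log_div (by linarith) hep.ne'] at h5
    have h6 : Real.log (e2u L g d z) = 2 * uu L g d z := by rw [he, Real.log_exp]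
    linarith
  have hmeas : AEStronglyMeasurable (fun z => rhoR R z * Real.log (1 + GG L g d z / (e2u L g d z + 0))) volume := by
    have h1 : Measurable fun z => GG L g d z / (e2u L g d z + 0) := (continuous_GG hL hg).measurable.div ((continuous_e2u hL hg).measurable.add_const 0)
    exact ((continuous_rhoR R).measurable.mul (Real.measurable_log.comp (h1.const_add 1))).aestronglyMeasurable
  have hnorm : ∀ᵐ z : ℂ, ∀ E : ℝ, 0 ≤ E → ‖rhoR R z * Real.log (1 + GG L g d z / (e2u L g d z + E))‖ ≤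
      rhoR R z * Real.log (1 + GG L g d z) + 2 * (rhoR R z * (-uu L g d z)) := by
    filter_upwards [hbd] with z hz E hE
    obtain ⟨h1, h2⟩ := hz E hE
    rw [Real.norm_of_nonneg (mul_nonneg (rhoR_nonneg R z) h1)]
    have := mul_le_mul_of_nonneg_left h2 (rhoR_nonneg R z)
    calc _ ≤ _ := this
      _ = _ := by ring
  have heq : ∀ᵐ z : ℂ, rhoR R z * Real.log (1 + GG L g d z / (e2u L g d z + 0)) = rhoR R z * Real.log (1 + k2r L g d z ^ 2) := by
    filter_upwards [ae_ne_zero hg h0] with z hz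
    have hep : 0 < e2u L g d z := by
      rw [e2u_eq hz]
      exact Real.exp_pos _
    rw [k2_GG hz, add_zero]
    congr 3
    field_simp
  have hi : Integrable (fun z => rhoR R z * Real.log (1 + k2r L g d z ^ 2)) :=
    (hbi.mono' hmeas (by filter_upwards [hnorm] with z hz using hz 0 le_rfl)).congr heq
  refine ⟨hi, ?_⟩
  have hlim : Tendsto (fun n : ℕ => avg R (fun z => Real.log (1 + GG L g d z / (e2u L g d z + Real.exp (2 * (-(n : ℝ))))))) atTop
      (𝓝 (avg R (fun z => Real.log (1 + k2r L g d z ^ 2)))) := by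
    unfold avg
    refine tendsto_integral_of_dominated_convergence _ (fun n => ?_) hbi (fun n => ?_) ?_
    · have hcl : Continuous fun z => Real.log (1 + GG L g d z / (e2u L g d z + Real.exp (2 * (-(n : ℝ))))) := by
        have h : Continuous fun z => 1 + GG L g d z / (e2u L g d z + Real.exp (2 * (-(n : ℝ)))) :=
          continuous_const.add ((continuous_GG hL hg).div ((continuous_e2u hL hg).add continuous_const) fun z => by
            have := e2u_nonneg L g d z
            positivity)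
        refine h.log fun z => ?_
        have h1 := e2u_nonneg L g d z
        have h2 := GG_nonneg L g d z
        positivity
      exact (kk_int (continuous_rhoR R) (hcs_rhoR hR) hcl).aestronglyMeasurable
    · filter_upwards [hnorm] with z hz
      exact hz _ (by positivity)
    · filter_upwards [heq, ae_ne_zero hg h0] with z hz hgz
      have hep : 0 < e2u L g d z := by
        rw [e2u_eq hgz]
        exact Real.exp_pos _
      have h2 : Tendsto (fun n : ℕ => Real.exp (2 * (-(n : ℝ)))) atTop (𝓝 0) := by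
        refine Real.tendsto_exp_atBot.comp ?_
        have h3 : Tendsto (fun n : ℕ => (n : ℝ)) atTop atTop := tendsto_natCast_atTop_atTop
        exact (tendsto_neg_atTop_atBot.comp h3).const_mul_atBot (by norm_num)
      have h1 : Tendsto (fun n : ℕ => e2u L g d z + Real.exp (2 * (-(n : ℝ)))) atTop (𝓝 (e2u L g d z + 0)) := tendsto_const_nhds.add h2
      have h3 : Tendsto (fun n : ℕ => 1 + GG L g d z / (e2u L g d z + Real.exp (2 * (-(n : ℝ))))) atTop
          (𝓝 (1 + GG L g d z / (e2u L g d z + 0))) :=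
        tendsto_const_nhds.add (tendsto_const_nhds.div h1 (by rw [add_zero]; exact hep.ne'))
      have h4 : (1 + GG L g d z / (e2u L g d z + 0)) ≠ 0 := by
        have h5 : 0 ≤ GG L g d z / (e2u L g d z + 0) := div_nonneg (GG_nonneg L g d z) (by linarith)
        linarith
      rw [← hz]
      exact tendsto_const_nhds.mul (h3.log h4)
  exact le_of_tendsto' hlim fun n => hC _ (by
    have : (0 : ℝ) ≤ n := Nat.cast_nonneg n
    linarith) R hR

/-- `log (1 + t) ≤ (log 2 + log (1 + t²)) / 2` -/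
theorem k2_log_half {t : ℝ} (ht : 0 ≤ t) : 0 ≤ Real.log (1 + t) ∧ Real.log (1 + t) ≤ (Real.log 2 + Real.log (1 + t ^ 2)) / 2 := by
  refine ⟨Real.log_nonneg (by linarith), ?_⟩
  have h3 : Real.log ((1 + t) ^ 2) ≤ Real.log (2 * (1 + t ^ 2)) := by
    refine Real.log_le_log (by positivity) ?_
    nlinarith [sq_nonneg (1 - t)]
  rw [Real.log_pow, Real.log_mul (by norm_num) (by positivity)] at h3
  push_cast at h3
  linarith

theorem k2r_nonneg (L : ℂ → ℝ) (g : ℂ → ℂ) (d : ℝ) (z : ℂ) : 0 ≤ k2r L g d z := norm_nonneg _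

theorem measurable_k2r (hL : ContDiff ℝ 2 L) (hg : Differentiable ℂ g) : Measurable (k2r L g d) := by
  have h3 : Continuous (deriv g) := (hg.contDiff (n := 1)).continuous_deriv (by norm_num)
  have h4 : Continuous fun z => fderiv ℝ L z 1 := (hL.continuous_fderiv (by norm_num)).clm_apply continuous_const
  have h5 : Continuous fun z => fderiv ℝ L z Complex.I := (hL.continuous_fderiv (by norm_num)).clm_apply continuous_const
  have h6 : Continuous fun z => (⟨fderiv ℝ L z 1, -fderiv ℝ L z Complex.I⟩ : ℂ) := by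
    have e : (fun z => (⟨fderiv ℝ L z 1, -fderiv ℝ L z Complex.I⟩ : ℂ)) =
        fun z => ((fderiv ℝ L z 1 : ℝ) : ℂ) - (fderiv ℝ L z Complex.I : ℝ) * Complex.I := by
      funext z
      apply Complex.ext <;> simp
    rw [e]
    exact (Complex.continuous_ofReal.comp h4).sub ((Complex.continuous_ofReal.comp h5).mul continuous_const)
  exact ((h3.measurable.div hg.continuous.measurable).sub (h6.measurable.const_mul _)).norm

/-- **KK2**: the mean of `log (1 + |g' / g - d ∂ L|)` -/
theorem k2 (hL : ContDiff ℝ 2 L) (hg : Differentiable ℂ g) (h0 : ∃ z, g z ≠ 0) (hd : 0 ≤ d) (hL0 : ∀ z, 0 ≤ Δ L z)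
    (hle : ∀ z, ‖g z‖ ≤ Real.exp (d * L z)) {A : ℝ} (hA : ∀ R, 1 ≤ R → II L R ≤ A * R ^ 2) : ∃ C : ℝ, 0 ≤ C ∧ ∀ R, 1 ≤ R →
      Integrable (fun z => rhoR R z * Real.log (1 + k2r L g d z)) ∧
      avg R (fun z => Real.log (1 + k2r L g d z)) ≤ C + 2 * Real.pi * Real.log (1 + II L R) := by
  obtain ⟨C, hC0, hC⟩ := k2_zero hL hg h0 hd hL0 hle
  have hpi := Real.pi_pos
  have hA0 : 0 ≤ A := by
    have h1 := hA 1 le_rfl
    have h2 := k2_II_nonneg hL0 (le_refl (1 : ℝ))
    linarith
  set B : ℝ := 1 + C * (1 + A * Real.exp 2 ^ 2) with hB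
  have hB1 : 1 ≤ B := by
    have : 0 ≤ C * (1 + A * Real.exp 2 ^ 2) := by positivity
    linarith
  refine ⟨Real.pi * Real.log 2 + Real.pi * Real.log B + 2 * Real.pi * Real.log (2 + C), ?_, fun R hR => ?_⟩
  · have h1 := Real.log_nonneg (show (1 : ℝ) ≤ 2 by norm_num)
    have h2 := Real.log_nonneg hB1
    have h3 := Real.log_nonneg (show (1 : ℝ) ≤ 2 + C by linarith)
    positivity
  obtain ⟨hi, hle⟩ := hC R hR
  have hR0 : 0 < R := by linarith
  have he : 1 ≤ Real.exp 2 * R := by
    have := Real.one_le_exp (zero_le_two (α := ℝ))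
    nlinarith
  have hkI := k2_II_nonneg hL0 hR
  have hkI2 := k2_II_nonneg hL0 he
  have hi1 : Integrable (rhoR R) := (continuous_rhoR R).integrable_of_hasCompactSupport (hcs_rhoR hR)
  have hbi : Integrable fun z => 1 / 2 * (Real.log 2 * rhoR R z + rhoR R z * Real.log (1 + k2r L g d z ^ 2)) :=
    ((hi1.const_mul _).add hi).const_mul _
  have hmeas : AEStronglyMeasurable (fun z => rhoR R z * Real.log (1 + k2r L g d z)) volume :=
    ((continuous_rhoR R).measurable.mul (Real.measurable_log.comp ((measurable_k2r hL hg).const_add 1))).aestronglyMeasurable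
  have hbd : ∀ z, rhoR R z * Real.log (1 + k2r L g d z) ≤
      1 / 2 * (Real.log 2 * rhoR R z + rhoR R z * Real.log (1 + k2r L g d z ^ 2)) := by
    intro z
    have := mul_le_mul_of_nonneg_left (k2_log_half (k2r_nonneg L g d z)).2 (rhoR_nonneg R z)
    calc _ ≤ _ := this
      _ = _ := by ring
  have hint : Integrable (fun z => rhoR R z * Real.log (1 + k2r L g d z)) := by
    refine hbi.mono' hmeas (Eventually.of_forall fun z => ?_)
    rw [Real.norm_of_nonneg (mul_nonneg (rhoR_nonneg R z) (k2_log_half (k2r_nonneg L g d z)).1)]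
    exact hbd z
  refine ⟨hint, ?_⟩
  have h1 : avg R (fun z => Real.log (1 + k2r L g d z)) ≤ 1 / 2 * (Real.log 2 * (2 * Real.pi) + avg R fun z => Real.log (1 + k2r L g d z ^ 2)) := by
    have h2 := integral_mono hint hbi hbd
    rw [integral_const_mul, integral_add (hi1.const_mul _) hi, integral_const_mul, int_rhoR hR] at h2
    exact h2
  have h2 : Real.log (1 + C * (1 + II L (Real.exp 2 * R)) / R ^ 2) ≤ Real.log B := by
    refine Real.log_le_log (by positivity) ?_
    have h3 := hA _ he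
    have h4 : (1 + II L (Real.exp 2 * R)) / R ^ 2 ≤ 1 + A * Real.exp 2 ^ 2 := by
      rw [div_le_iff₀ (by positivity)]
      have h5 : 1 ≤ R ^ 2 := one_le_pow₀ hR
      calc 1 + II L (Real.exp 2 * R) ≤ R ^ 2 + A * (Real.exp 2 * R) ^ 2 := add_le_add h5 h3
        _ = _ := by ring
    have h6 := mul_le_mul_of_nonneg_left h4 hC0
    rw [hB, mul_div_assoc]
    linarith
  have h3 : Real.log (2 + C * (1 + II L R)) ≤ Real.log (2 + C) + Real.log (1 + II L R) := by
    rw [← Real.log_mul (by linarith) (by linarith)]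
    refine Real.log_le_log (by positivity) ?_
    nlinarith
  have h4 := mul_le_mul_of_nonneg_left h2 (show 0 ≤ 2 * Real.pi by positivity)
  have h5 := mul_le_mul_of_nonneg_left h3 (show 0 ≤ 4 * Real.pi by positivity)
  nlinarith

end Pool.Agent.MQ
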