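import Pool.Agent.H30M.Green

/-!
# MQ/KKp: the pointwise inequality for the logarithmic derivative at a point

`H` is a complex inner product space, `F` a holomorphic curve in `H` without zeros, `q` a unit vector, `D = 1 - |⟨q, F⟩|² / |F|²` the square of the
sine of the angle between `F` and `q`, `λ² = |F ∧ F'|² / |F|⁴`, `s = log (D + ε)`.  Then `4 λ² / ((D + ε) (2 - s)²) ≤ Δ (- log (2 - s)) + 8 λ²`.
-/

set_option autoImplicit false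

open MeasureTheory Topology Filter Set

noncomputable section

namespace Pool.Agent.MQ

/-! ## Laplacians -/

/-- `∂u/∂x` -/
def kkdx (u : ℂ → ℝ) (z : ℂ) : ℝ := fderiv ℝ u z 1

/-- `∂u/∂y` -/
def kkdy (u : ℂ → ℝ) (z : ℂ) : ℝ := fderiv ℝ u z Complex.I

/-- the Laplacian -/
def kklap (u : ℂ → ℝ) (z : ℂ) : ℝ := kkdx (kkdx u) z + kkdy (kkdy u) z

theorem kklap_eq {u : ℂ → ℝ} {z : ℂ} (hu : ContDiffAt ℝ 2 u z) : kklap u z = Laplacian.laplacian u z := (Pool.Agent.H30M.lap_eq hu).symm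

theorem kk_contDiffAt_fd {f : ℂ → ℝ} {z : ℂ} (hf : ContDiffAt ℝ 2 f z) (v : ℂ) : ContDiffAt ℝ 1 (fun w => fderiv ℝ f w v) z :=
  (hf.fderiv_right (by norm_num)).clm_apply contDiffAt_const

theorem kk_dx_comp {φ : ℝ → ℝ} {φ' : ℝ} {u : ℂ → ℝ} {z : ℂ} (hu : DifferentiableAt ℝ u z) (h : HasDerivAt φ φ' (u z)) :
    kkdx (fun w => φ (u w)) z = φ' * kkdx u z := by
  have := (h.comp_hasFDerivAt z hu.hasFDerivAt).fderiv
  unfold kkdx
  rw [show (fun w => φ (u w)) = φ ∘ u from rfl, this]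
  simp

theorem kk_dy_comp {φ : ℝ → ℝ} {φ' : ℝ} {u : ℂ → ℝ} {z : ℂ} (hu : DifferentiableAt ℝ u z) (h : HasDerivAt φ φ' (u z)) :
    kkdy (fun w => φ (u w)) z = φ' * kkdy u z := by
  have := (h.comp_hasFDerivAt z hu.hasFDerivAt).fderiv
  unfold kkdy
  rw [show (fun w => φ (u w)) = φ ∘ u from rfl, this]
  simp

/-- the Laplacian of `φ ∘ u` -/
theorem kk_lap_comp {φ φ₁ : ℝ → ℝ} {φ₂ : ℝ} {u : ℂ → ℝ} {z : ℂ} (hu : ContDiffAt ℝ 2 u z)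
    (h1 : ∀ᶠ t in 𝓝 (u z), HasDerivAt φ (φ₁ t) t) (h2 : HasDerivAt φ₁ φ₂ (u z)) :
    kklap (fun w => φ (u w)) z = φ₁ (u z) * kklap u z + φ₂ * (kkdx u z ^ 2 + kkdy u z ^ 2) := by
  have hud : ∀ᶠ w in 𝓝 z, DifferentiableAt ℝ u w := by
    filter_upwards [hu.eventually (by norm_num)] with w hw
    exact hw.differentiableAt (by norm_num)
  have huz : DifferentiableAt ℝ u z := hud.self_of_nhds
  have hev : ∀ᶠ w in 𝓝 z, HasDerivAt φ (φ₁ (u w)) (u w) := huz.continuousAt.eventually h1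
  have e1 : kkdx (fun w => φ (u w)) =ᶠ[𝓝 z] fun w => φ₁ (u w) * kkdx u w := by
    filter_upwards [hud, hev] with w hw1 hw2
    exact kk_dx_comp hw1 hw2
  have e2 : kkdy (fun w => φ (u w)) =ᶠ[𝓝 z] fun w => φ₁ (u w) * kkdy u w := by
    filter_upwards [hud, hev] with w hw1 hw2
    exact kk_dy_comp hw1 hw2
  have hφ : HasFDerivAt (fun w => φ₁ (u w)) (φ₂ • fderiv ℝ u z) z := h2.comp_hasFDerivAt z huz.hasFDerivAt
  have d1 : DifferentiableAt ℝ (kkdx u) z := (kk_contDiffAt_fd hu 1).differentiableAt one_ne_zero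
  have d2 : DifferentiableAt ℝ (kkdy u) z := (kk_contDiffAt_fd hu Complex.I).differentiableAt one_ne_zero
  have c1 : kkdx (kkdx fun w => φ (u w)) z = φ₁ (u z) * kkdx (kkdx u) z + φ₂ * kkdx u z ^ 2 := by
    have : kkdx (kkdx fun w => φ (u w)) z = kkdx (fun w => φ₁ (u w) * kkdx u w) z := by
      unfold kkdx at e1 ⊢
      rw [e1.fderiv_eq]
    rw [this]
    unfold kkdx at d1 ⊢
    rw [(hφ.fun_mul d1.hasFDerivAt).fderiv]
    simp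
    ring
  have c2 : kkdy (kkdy fun w => φ (u w)) z = φ₁ (u z) * kkdy (kkdy u) z + φ₂ * kkdy u z ^ 2 := by
    have : kkdy (kkdy fun w => φ (u w)) z = kkdy (fun w => φ₁ (u w) * kkdy u w) z := by
      unfold kkdy at e2 ⊢
      rw [e2.fderiv_eq]
    rw [this]
    unfold kkdy at d2 ⊢
    rw [(hφ.fun_mul d2.hasFDerivAt).fderiv]
    simp
    ring
  unfold kklap
  rw [c1, c2]
  ring

theorem kk_lap_sub {u v : ℂ → ℝ} {z : ℂ} (hu : ContDiffAt ℝ 2 u z) (hv : ContDiffAt ℝ 2 v z) :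
    kklap (fun w => u w - v w) z = kklap u z - kklap v z := by
  have hud : ∀ᶠ w in 𝓝 z, DifferentiableAt ℝ u w ∧ DifferentiableAt ℝ v w := by
    filter_upwards [hu.eventually (by norm_num), hv.eventually (by norm_num)] with w hw hw'
    exact ⟨hw.differentiableAt (by norm_num), hw'.differentiableAt (by norm_num)⟩
  have e : ∀ c : ℂ, (fun w => fderiv ℝ (fun w => u w - v w) w c) =ᶠ[𝓝 z] fun w => fderiv ℝ u w c - fderiv ℝ v w c := by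
    intro c
    filter_upwards [hud] with w hw
    rw [fderiv_fun_sub hw.1 hw.2]
    rfl
  have h1 : ∀ c : ℂ, DifferentiableAt ℝ (fun w => fderiv ℝ u w c) z := fun c => (kk_contDiffAt_fd hu c).differentiableAt one_ne_zero
  have h2 : ∀ c : ℂ, DifferentiableAt ℝ (fun w => fderiv ℝ v w c) z := fun c => (kk_contDiffAt_fd hv c).differentiableAt one_ne_zero
  have key : ∀ c : ℂ, fderiv ℝ (fun w => fderiv ℝ (fun w => u w - v w) w c) z c =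
      fderiv ℝ (fun w => fderiv ℝ u w c) z c - fderiv ℝ (fun w => fderiv ℝ v w c) z c := by
    intro c
    rw [(e c).fderiv_eq, fderiv_fun_sub (h1 c) (h2 c)]
    rfl
  unfold kklap kkdx kkdy
  rw [key, key]
  ring

/-! ## the Laplacian of the logarithm of a norm -/

variable {H : Type*} [NormedAddCommGroup H] [InnerProductSpace ℂ H] [CompleteSpace H]

omit [CompleteSpace H] in
theorem kk_fderiv_curve {G : ℂ → H} {w : ℂ} (hG : DifferentiableAt ℂ G w) :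
    HasFDerivAt G (((ContinuousLinearMap.toSpanSingleton ℂ (deriv G w)) : ℂ →L[ℂ] H).restrictScalars ℝ) w :=
  hG.hasDerivAt.hasFDerivAt.restrictScalars ℝ

omit [CompleteSpace H] in
theorem kk_fderiv_inner' {f g : ℂ → H} {w : ℂ} (hf : DifferentiableAt ℂ f w) (hg : DifferentiableAt ℂ g w) :
    HasFDerivAt (fun w => (inner ℂ (f w) (g w) : ℂ))
      ((fderivInnerCLM ℂ (f w, g w)).comp ((((ContinuousLinearMap.toSpanSingleton ℂ (deriv f w)) : ℂ →L[ℂ] H).restrictScalars ℝ).prod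
        (((ContinuousLinearMap.toSpanSingleton ℂ (deriv g w)) : ℂ →L[ℂ] H).restrictScalars ℝ))) w :=
  (kk_fderiv_curve hf).inner ℂ (kk_fderiv_curve hg)

omit [CompleteSpace H] in
theorem kk_fderiv_normSq {G : ℂ → H} {w : ℂ} (hG : DifferentiableAt ℂ G w) (c : ℂ) :
    fderiv ℝ (fun w => ‖G w‖ ^ 2) w c = 2 * (c * inner ℂ (G w) (deriv G w)).re := by
  have h1 := kk_fderiv_inner' hG hG
  have h2 := Complex.reCLM.hasFDerivAt.comp w h1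
  have e : (fun w => ‖G w‖ ^ 2) = Complex.reCLM ∘ fun w => (inner ℂ (G w) (G w) : ℂ) := by
    funext w
    simp [inner_self_eq_norm_sq_to_K, ← Complex.ofReal_pow]
  rw [e, h2.fderiv]
  have h3 : (inner ℂ (deriv G w) (G w) : ℂ) = (starRingEnd ℂ) (inner ℂ (G w) (deriv G w)) := (inner_conj_symm _ _).symm
  have h4 := congrArg Complex.re h3
  have h5 := congrArg Complex.im h3
  simp only [Complex.conj_re, Complex.conj_im] at h4 h5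
  simp [fderivInnerCLM_apply, inner_smul_right, inner_smul_left]
  rw [h4, h5]
  ring

theorem kk_contDiffAt_normSq {G : ℂ → H} {z : ℂ} (hG : AnalyticAt ℂ G z) : ContDiffAt ℝ 2 (fun w => ‖G w‖ ^ 2) z := by
  have h1 : ContDiffAt ℝ 2 G z := (hG.contDiffAt (n := 2)).restrict_scalars ℝ
  let : InnerProductSpace ℝ H := InnerProductSpace.complexToReal
  exact h1.norm_sq ℝ

theorem kk_fderiv_inner {G : ℂ → H} {z : ℂ} (hG : AnalyticAt ℂ G z) (c : ℂ) :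
    fderiv ℝ (fun w => 2 * (c * inner ℂ (G w) (deriv G w)).re) z c =
      2 * ‖c‖ ^ 2 * ‖deriv G z‖ ^ 2 + 2 * (c ^ 2 * inner ℂ (G z) (deriv (deriv G) z)).re := by
  have h1 := kk_fderiv_inner' hG.differentiableAt hG.deriv.differentiableAt
  have h2 := (Complex.reCLM.hasFDerivAt.comp z (h1.const_mul c)).const_mul 2
  have h3 : (fun w => 2 * (c * inner ℂ (G w) (deriv G w)).re) =
      fun w => 2 * (Complex.reCLM ∘ fun w => c * (inner ℂ (G w) (deriv G w) : ℂ)) w := rfl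
  rw [h3, h2.fderiv]
  simp [fderivInnerCLM_apply, inner_smul_right, inner_smul_left, inner_self_eq_norm_sq_to_K]
  rw [← Complex.ofReal_pow]
  have h4 : ‖c‖ ^ 2 = c.re ^ 2 + c.im ^ 2 := by rw [Complex.sq_norm, Complex.normSq_apply]; ring
  rw [h4]
  simp [pow_two]
  ring

theorem kk_lap_normSq {G : ℂ → H} {z : ℂ} (hG : AnalyticAt ℂ G z) : kklap (fun w => ‖G w‖ ^ 2) z = 4 * ‖deriv G z‖ ^ 2 := by
  have e : ∀ c : ℂ, (fun w => fderiv ℝ (fun w => ‖G w‖ ^ 2) w c) =ᶠ[𝓝 z] fun w => 2 * (c * inner ℂ (G w) (deriv G w)).re := by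
    intro c
    filter_upwards [hG.eventually_analyticAt] with w hw
    exact kk_fderiv_normSq hw.differentiableAt c
  unfold kklap kkdx kkdy
  rw [(e 1).fderiv_eq, (e Complex.I).fderiv_eq, kk_fderiv_inner hG, kk_fderiv_inner hG]
  simp
  ring

omit [CompleteSpace H] in
theorem kk_grad_log {G : ℂ → H} {w : ℂ} (hG : DifferentiableAt ℂ G w) (h0 : G w ≠ 0) (c : ℂ) :
    fderiv ℝ (fun w => Real.log (‖G w‖ ^ 2)) w c = 2 * (c * (inner ℂ (G w) (deriv G w) / (‖G w‖ ^ 2 : ℝ))).re := by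
  have hd : DifferentiableAt ℝ (fun w => ‖G w‖ ^ 2) w := by
    let : InnerProductSpace ℝ H := InnerProductSpace.complexToReal
    exact (hG.restrictScalars ℝ).norm_sq ℝ
  have h1 : (‖G w‖ ^ 2 : ℝ) ≠ 0 := pow_ne_zero 2 (norm_ne_zero_iff.2 h0)
  have h2 := hd.hasFDerivAt.log h1
  rw [h2.fderiv]
  have e : ((‖G w‖ ^ 2)⁻¹ • fderiv ℝ (fun w => ‖G w‖ ^ 2) w) c = (‖G w‖ ^ 2)⁻¹ * fderiv ℝ (fun w => ‖G w‖ ^ 2) w c := rfl
  rw [e, kk_fderiv_normSq hG, ← mul_div_assoc, Complex.div_ofReal_re]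
  ring

theorem kk_contDiffAt_log {G : ℂ → H} {z : ℂ} (hG : AnalyticAt ℂ G z) (h0 : G z ≠ 0) :
    ContDiffAt ℝ 2 (fun w => Real.log (‖G w‖ ^ 2)) z :=
  (kk_contDiffAt_normSq hG).log (pow_ne_zero 2 (norm_ne_zero_iff.2 h0))

/-- the Laplacian of `log |G|²` -/
theorem kk_lap_log {G : ℂ → H} {z : ℂ} (hG : AnalyticAt ℂ G z) (h0 : G z ≠ 0) :
    kklap (fun w => Real.log (‖G w‖ ^ 2)) z =
      4 * ((‖G z‖ ^ 2 * ‖deriv G z‖ ^ 2 - ‖(inner ℂ (G z) (deriv G z) : ℂ)‖ ^ 2) / ‖G z‖ ^ 4) := by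
  have hpos : 0 < ‖G z‖ := norm_pos_iff.2 h0
  have h1 : (‖G z‖ ^ 2 : ℝ) ≠ 0 := by positivity
  have hφ1 : ∀ᶠ t in 𝓝 (‖G z‖ ^ 2 : ℝ), HasDerivAt Real.log (t⁻¹) t := by
    filter_upwards [isOpen_ne.mem_nhds h1] with t ht
    exact Real.hasDerivAt_log ht
  have hφ2 : HasDerivAt (fun t : ℝ => t⁻¹) (-((‖G z‖ ^ 2) ^ 2 : ℝ)⁻¹) (‖G z‖ ^ 2) := hasDerivAt_inv h1
  have h2 := kk_lap_comp (kk_contDiffAt_normSq hG) hφ1 hφ2
  rw [h2, kk_lap_normSq hG]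
  have h3 : kkdx (fun w => ‖G w‖ ^ 2) z = 2 * (1 * (inner ℂ (G z) (deriv G z) : ℂ)).re := kk_fderiv_normSq hG.differentiableAt 1
  have h4 : kkdy (fun w => ‖G w‖ ^ 2) z = 2 * (Complex.I * (inner ℂ (G z) (deriv G z) : ℂ)).re :=
    kk_fderiv_normSq hG.differentiableAt Complex.I
  have h5 : ‖(inner ℂ (G z) (deriv G z) : ℂ)‖ ^ 2 = (inner ℂ (G z) (deriv G z) : ℂ).re ^ 2 + (inner ℂ (G z) (deriv G z) : ℂ).im ^ 2 := by
    rw [Complex.sq_norm, Complex.normSq_apply]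
    ring
  rw [h3, h4, h5]
  simp
  field_simp
  ring

/-! ## the inequality -/

omit [CompleteSpace H] in
theorem kk_conj (x y : H) : (inner ℂ x y : ℂ).re = (inner ℂ y x : ℂ).re ∧ (inner ℂ x y : ℂ).im = -(inner ℂ y x : ℂ).im := by
  have h := inner_conj_symm (𝕜 := ℂ) x y
  exact ⟨by rw [← h, Complex.conj_re], by rw [← h, Complex.conj_im]⟩

omit [CompleteSpace H] in
/-- the square of the wedge product does not change -/
theorem kk_gram (g w : H) (a : ℂ) :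
    ‖g‖ ^ 2 * ‖a • g + w‖ ^ 2 - ‖(inner ℂ g (a • g + w) : ℂ)‖ ^ 2 = ‖g‖ ^ 2 * ‖w‖ ^ 2 - ‖(inner ℂ g w : ℂ)‖ ^ 2 := by
  have h1 : ‖a • g + w‖ ^ 2 = ‖a‖ ^ 2 * ‖g‖ ^ 2 + 2 * ((starRingEnd ℂ a) * inner ℂ g w).re + ‖w‖ ^ 2 := by
    have := norm_add_sq (𝕜 := ℂ) (a • g) w
    rw [this, inner_smul_left, norm_smul, mul_pow]
    rfl
  have h2 : (inner ℂ g (a • g + w) : ℂ) = a * (‖g‖ ^ 2 : ℝ) + inner ℂ g w := by
    rw [inner_add_right, inner_smul_right, inner_self_eq_norm_sq_to_K]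
    simp
  have h3 : ∀ z : ℂ, ‖z‖ ^ 2 = z.re ^ 2 + z.im ^ 2 := fun z => by
    rw [Complex.sq_norm, Complex.normSq_apply]
    ring
  rw [h1, h2, h3 (_ + _), h3 (inner ℂ g w : ℂ), h3 a]
  simp only [Complex.add_re, Complex.add_im, Complex.mul_re, Complex.mul_im, Complex.ofReal_re, Complex.ofReal_im, Complex.conj_re, Complex.conj_im]
  ring

/-- `λ² = |F ∧ F'|² / |F|⁴` -/
def lam2 (F : ℂ → H) (z : ℂ) : ℝ := (‖F z‖ ^ 2 * ‖deriv F z‖ ^ 2 - ‖(inner ℂ (F z) (deriv F z) : ℂ)‖ ^ 2) / ‖F z‖ ^ 4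

omit [CompleteSpace H] in
theorem lam2_nonneg (F : ℂ → H) (z : ℂ) : 0 ≤ lam2 F z := by
  unfold lam2
  have h : ‖(inner ℂ (F z) (deriv F z) : ℂ)‖ ≤ ‖F z‖ * ‖deriv F z‖ := norm_inner_le_norm _ _
  have h2 : ‖(inner ℂ (F z) (deriv F z) : ℂ)‖ ^ 2 ≤ (‖F z‖ * ‖deriv F z‖) ^ 2 := pow_le_pow_left₀ (norm_nonneg _) h 2
  exact div_nonneg (by nlinarith) (by positivity)

omit [CompleteSpace H] in
/-- the operator with `|L x|² = (1 + ε) |x|² - |⟨q, x⟩|²` -/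
theorem kk_exists_L {q : H} (hq : ‖q‖ = 1) {ε : ℝ} (hε : 0 ≤ ε) :
    ∃ L : H →L[ℂ] H, ∀ x, ‖L x‖ ^ 2 = (1 + ε) * ‖x‖ ^ 2 - ‖(inner ℂ q x : ℂ)‖ ^ 2 := by
  set a : ℝ := Real.sqrt (1 + ε) with ha
  set b : ℝ := Real.sqrt ε with hb
  have ha2 : a ^ 2 = 1 + ε := Real.sq_sqrt (by linarith)
  have hb2 : b ^ 2 = ε := Real.sq_sqrt hε
  refine ⟨(a : ℂ) • ContinuousLinearMap.id ℂ H - ((a - b : ℝ) : ℂ) • (innerSL ℂ q).smulRight q, fun x => ?_⟩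
  have e : ((a : ℂ) • ContinuousLinearMap.id ℂ H - ((a - b : ℝ) : ℂ) • (innerSL ℂ q).smulRight q) x =
      (a : ℂ) • x - (((a - b : ℝ) : ℂ) * inner ℂ q x) • q := by
    simp [smul_smul]
  rw [e]
  have h1 := norm_sub_sq (𝕜 := ℂ) ((a : ℂ) • x) ((((a - b : ℝ) : ℂ) * inner ℂ q x) • q)
  have h3 : ∀ z : ℂ, ‖z‖ ^ 2 = z.re ^ 2 + z.im ^ 2 := fun z => by
    rw [Complex.sq_norm, Complex.normSq_apply]
    ring
  have h2 : RCLike.re (inner ℂ ((a : ℂ) • x) ((((a - b : ℝ) : ℂ) * inner ℂ q x) • q) : ℂ) = a * (a - b) * ‖(inner ℂ q x : ℂ)‖ ^ 2 := by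
    obtain ⟨h6, h7⟩ := kk_conj x q
    rw [inner_smul_left, inner_smul_right, h3]
    simp only [RCLike.re_to_complex, Complex.mul_re, Complex.mul_im, Complex.ofReal_re, Complex.ofReal_im, Complex.conj_re, Complex.conj_im, h6, h7]
    ring
  rw [h1, h2, norm_smul, norm_smul, hq, norm_mul, mul_one, mul_pow, mul_pow]
  have h4 : ‖(a : ℂ)‖ ^ 2 = a ^ 2 := by rw [Complex.norm_real, Real.norm_eq_abs, sq_abs]
  have h5 : ‖((a - b : ℝ) : ℂ)‖ ^ 2 = (a - b) ^ 2 := by rw [Complex.norm_real, Real.norm_eq_abs, sq_abs]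
  rw [h4, h5]
  linear_combination (‖x‖ ^ 2 - ‖(inner ℂ q x : ℂ)‖ ^ 2) * ha2 + ‖(inner ℂ q x : ℂ)‖ ^ 2 * hb2

omit [CompleteSpace H] in
/-- `|⟨q, v⟩|² ≤ D |v|²` for `v` orthogonal to `f` -/
theorem kk_inner_le {q f v : H} (hq : ‖q‖ = 1) (hf : f ≠ 0) (hv : (inner ℂ f v : ℂ) = 0) :
    ‖(inner ℂ q v : ℂ)‖ ^ 2 ≤ (1 - ‖(inner ℂ q f : ℂ)‖ ^ 2 / ‖f‖ ^ 2) * ‖v‖ ^ 2 := by
  have hfp : 0 < ‖f‖ := norm_pos_iff.2 hf
  set c : ℂ := inner ℂ f q / (‖f‖ ^ 2 : ℝ) with hc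
  set r : H := q - c • f with hr
  have h1 : (inner ℂ q v : ℂ) = inner ℂ r v := by
    rw [hr, inner_sub_left, inner_smul_left, hv]
    simp
  have h3 : ∀ z : ℂ, ‖z‖ ^ 2 = z.re ^ 2 + z.im ^ 2 := fun z => by
    rw [Complex.sq_norm, Complex.normSq_apply]
    ring
  have h2 : ‖r‖ ^ 2 = 1 - ‖(inner ℂ q f : ℂ)‖ ^ 2 / ‖f‖ ^ 2 := by
    have h4 := norm_sub_sq (𝕜 := ℂ) q (c • f)
    have h5 : RCLike.re (inner ℂ q (c • f) : ℂ) = ‖(inner ℂ q f : ℂ)‖ ^ 2 / ‖f‖ ^ 2 := by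
      obtain ⟨h6, h7⟩ := kk_conj f q
      rw [inner_smul_right, hc, h3]
      have : (inner ℂ f q : ℂ) / ((‖f‖ ^ 2 : ℝ) : ℂ) * inner ℂ q f = ((inner ℂ f q : ℂ) * inner ℂ q f) / ((‖f‖ ^ 2 : ℝ) : ℂ) := by
        ring
      rw [this, RCLike.re_to_complex, Complex.div_ofReal_re, Complex.mul_re, h6, h7]
      ring
    have h6 : ‖c • f‖ ^ 2 = ‖(inner ℂ q f : ℂ)‖ ^ 2 / ‖f‖ ^ 2 := by
      rw [norm_smul, hc, norm_div, norm_inner_symm f q, Complex.norm_real, Real.norm_eq_abs, abs_of_pos (by positivity)]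
      field_simp
    rw [hr, h4, h5, h6, hq]
    ring
  rw [h1, ← h2]
  calc ‖(inner ℂ r v : ℂ)‖ ^ 2 ≤ (‖r‖ * ‖v‖) ^ 2 := pow_le_pow_left₀ (norm_nonneg _) (norm_inner_le_norm _ _) 2
    _ = ‖r‖ ^ 2 * ‖v‖ ^ 2 := by ring

/-- `D + ε` -/
def kkD (ε : ℝ) (q : H) (F : ℂ → H) (w : ℂ) : ℝ := (1 + ε) - ‖(inner ℂ q (F w) : ℂ)‖ ^ 2 / ‖F w‖ ^ 2

omit [CompleteSpace H] in
theorem kkD_bd {ε : ℝ} {q : H} (hq : ‖q‖ = 1) (F : ℂ → H) (w : ℂ) : ε ≤ kkD ε q F w ∧ kkD ε q F w ≤ 1 + ε := by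
  unfold kkD
  have h : ‖(inner ℂ q (F w) : ℂ)‖ ≤ ‖F w‖ := by simpa [hq] using norm_inner_le_norm (𝕜 := ℂ) q (F w)
  have h2 : ‖(inner ℂ q (F w) : ℂ)‖ ^ 2 ≤ ‖F w‖ ^ 2 := pow_le_pow_left₀ (norm_nonneg _) h 2
  have h3 : ‖(inner ℂ q (F w) : ℂ)‖ ^ 2 / ‖F w‖ ^ 2 ≤ 1 := div_le_one_of_le₀ h2 (by positivity)
  have h4 : 0 ≤ ‖(inner ℂ q (F w) : ℂ)‖ ^ 2 / ‖F w‖ ^ 2 := by positivity
  constructor <;> linarith

/-- the function `Φ (s)` -/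
def kkΦ (ε : ℝ) (q : H) (F : ℂ → H) (w : ℂ) : ℝ := -Real.log (2 - Real.log (kkD ε q F w))

omit [CompleteSpace H] in
theorem kk_log_le {ε : ℝ} (hε : 0 < ε) (hε1 : ε ≤ 1) {q : H} (hq : ‖q‖ = 1) (F : ℂ → H) (w : ℂ) : Real.log (kkD ε q F w) ≤ 1 := by
  have h := kkD_bd (ε := ε) hq F w
  have h1 : Real.log (kkD ε q F w) ≤ kkD ε q F w - 1 := Real.log_le_sub_one_of_pos (by linarith)
  linarith

omit [CompleteSpace H] in
/-- `s = log (D + ε)` in terms of `L` -/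
theorem kk_s_eq {ε : ℝ} (hε : 0 < ε) {q : H} (hq : ‖q‖ = 1) {L : H →L[ℂ] H} (hL : ∀ x, ‖L x‖ ^ 2 = (1 + ε) * ‖x‖ ^ 2 - ‖(inner ℂ q x : ℂ)‖ ^ 2)
    {F : ℂ → H} {z : ℂ} (hF : AnalyticAt ℂ F z) (h0 : F z ≠ 0) :
    (fun w => Real.log (kkD ε q F w)) =ᶠ[𝓝 z] fun w => Real.log (‖L (F w)‖ ^ 2) - Real.log (‖F w‖ ^ 2) := by
  filter_upwards [hF.continuousAt.eventually_ne h0] with w hw
  have h1 : (‖F w‖ ^ 2 : ℝ) ≠ 0 := pow_ne_zero 2 (norm_ne_zero_iff.2 hw)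
  have h2 : kkD ε q F w = ‖L (F w)‖ ^ 2 / ‖F w‖ ^ 2 := by
    rw [hL, kkD]
    field_simp
  have h3 : ‖L (F w)‖ ^ 2 ≠ 0 := by
    intro h
    rw [h, zero_div] at h2
    linarith [(kkD_bd (ε := ε) hq F w).1]
  rw [h2, Real.log_div h3 h1]

theorem kk_final {X I lam D m : ℝ} (hIX : I ≤ X) (hlam : 0 ≤ lam) (hX : lam / D - lam ≤ X) (hm : 1 ≤ m) :
    4 * (lam / (D * m ^ 2)) ≤ m⁻¹ * (4 * (X - I) - 4 * lam) + (m ^ 2)⁻¹ * (4 * I) + 8 * lam := by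
  have hm0 : 0 < m := by linarith
  have hmi : m⁻¹ ≤ 1 := inv_le_one_of_one_le₀ hm
  have hmi2 : (m ^ 2)⁻¹ ≤ m⁻¹ := by
    rw [pow_two, mul_inv]
    exact mul_le_of_le_one_right (by positivity) hmi
  have hmi3 : 0 < (m ^ 2)⁻¹ := by positivity
  have g1 : (m ^ 2)⁻¹ * (4 * (X - I)) ≤ m⁻¹ * (4 * (X - I)) := mul_le_mul_of_nonneg_right hmi2 (by linarith)
  have g2 : m⁻¹ * (4 * lam) ≤ 4 * lam := mul_le_of_le_one_left (by positivity) hmi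
  have g3 : (m ^ 2)⁻¹ * (4 * (lam / D - lam)) ≤ (m ^ 2)⁻¹ * (4 * X) := mul_le_mul_of_nonneg_left (by linarith) hmi3.le
  have g4 : (m ^ 2)⁻¹ * (4 * lam) ≤ 4 * lam := mul_le_of_le_one_left (by positivity) (hmi2.trans hmi)
  have g5 : 4 * (lam / (D * m ^ 2)) = (m ^ 2)⁻¹ * (4 * (lam / D)) := by
    rw [div_mul_eq_div_div, div_eq_mul_inv (lam / D)]
    ring
  have g6 : m⁻¹ * (4 * (X - I) - 4 * lam) = m⁻¹ * (4 * (X - I)) - m⁻¹ * (4 * lam) := by ring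
  have g7 : (m ^ 2)⁻¹ * (4 * (lam / D - lam)) = (m ^ 2)⁻¹ * (4 * (lam / D)) - (m ^ 2)⁻¹ * (4 * lam) := by ring
  have g8 : (m ^ 2)⁻¹ * (4 * (X - I)) + (m ^ 2)⁻¹ * (4 * I) = (m ^ 2)⁻¹ * (4 * X) := by ring
  rw [g5]
  linarith

theorem kk_X {ε D lam f v l X : ℝ} (hε : 0 < ε) (hD : 0 < D) (hlam : 0 ≤ lam) (hf : 0 < f ^ 2) (hv : v ^ 2 = lam * f ^ 2)
    (hl : (1 + 2 * ε - D) * v ^ 2 ≤ l ^ 2) (hX : X * (D * f ^ 2) = l ^ 2) : lam / D - lam ≤ X := by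
  have h1 : ((1 + 2 * ε - D) * lam) * f ^ 2 ≤ (X * D) * f ^ 2 := by
    calc ((1 + 2 * ε - D) * lam) * f ^ 2 = (1 + 2 * ε - D) * v ^ 2 := by rw [hv]; ring
      _ ≤ l ^ 2 := hl
      _ = (X * D) * f ^ 2 := by rw [← hX]; ring
  have h2 : (1 + 2 * ε - D) * lam ≤ X * D := le_of_mul_le_mul_right h1 hf
  have h3 : lam / D - lam = (lam - lam * D) / D := by
    field_simp
  rw [h3, div_le_iff₀ hD]
  have h4 : 0 ≤ ε * lam := mul_nonneg hε.le hlam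
  linarith

/-- **The inequality.** -/
theorem kk_point {ε : ℝ} (hε : 0 < ε) (hε1 : ε ≤ 1) {q : H} (hq : ‖q‖ = 1) {F : ℂ → H} {z : ℂ} (hF : AnalyticAt ℂ F z) (h0 : F z ≠ 0) :
    ContDiffAt ℝ 2 (kkΦ ε q F) z ∧
      4 * (lam2 F z / (kkD ε q F z * (2 - Real.log (kkD ε q F z)) ^ 2)) ≤ kklap (kkΦ ε q F) z + 8 * lam2 F z := by
  obtain ⟨L, hL⟩ := kk_exists_L hq hε.le
  set G : ℂ → H := fun w => L (F w) with hG
  have hGa : AnalyticAt ℂ G z := L.analyticAt _ |>.comp hF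
  have hfp : 0 < ‖F z‖ := norm_pos_iff.2 h0
  obtain ⟨hD1, hD2⟩ := kkD_bd (ε := ε) hq F z
  set D : ℝ := kkD ε q F z with hD
  have hDp : 0 < D := lt_of_lt_of_le hε hD1
  have hGF : ‖G z‖ ^ 2 = D * ‖F z‖ ^ 2 := by
    rw [hG, hD, kkD]
    simp only [hL]
    field_simp
  have hG0 : G z ≠ 0 := by
    intro h
    rw [h, norm_zero] at hGF
    have : 0 < D * ‖F z‖ ^ 2 := by positivity
    nlinarith
  set s : ℂ → ℝ := fun w => Real.log (‖G w‖ ^ 2) - Real.log (‖F w‖ ^ 2) with hs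
  have hsc : ContDiffAt ℝ 2 s z := (kk_contDiffAt_log hGa hG0).sub (kk_contDiffAt_log hF h0)
  have hev := kk_s_eq hε hq hL hF h0
  have hsz : s z = Real.log D := (hev.self_of_nhds).symm
  set m : ℝ := 2 - Real.log D with hm
  have hm1 : 1 ≤ m := by
    have := kk_log_le hε hε1 hq F z
    rw [hm, hD]
    linarith
  have hΦ : kkΦ ε q F =ᶠ[𝓝 z] fun w => -Real.log (2 - s w) := by
    filter_upwards [hev] with w hw
    rw [kkΦ, hw]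
  have h2s : (2 - s z) ≠ 0 := by
    rw [hsz]
    linarith
  have hΦc : ContDiffAt ℝ 2 (fun w => -Real.log (2 - s w)) z := ((contDiffAt_const.sub hsc).log h2s).neg
  have h1 : ∀ᶠ t in 𝓝 (s z), HasDerivAt (fun t : ℝ => -Real.log (2 - t)) ((2 - t)⁻¹) t := by
    have : ∀ᶠ t in 𝓝 (s z), 2 - t ≠ 0 := (continuousAt_const.sub continuousAt_id).eventually_ne h2s
    filter_upwards [this] with t ht
    have h : HasDerivAt (fun t : ℝ => -Real.log (2 - t)) (-(-1 / (2 - t))) t := (((hasDerivAt_id t).const_sub 2).log ht).neg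
    have e : -(-1 / (2 - t)) = (2 - t)⁻¹ := by ring
    rwa [e] at h
  have h2 : HasDerivAt (fun t : ℝ => (2 - t)⁻¹) (((2 - s z) ^ 2)⁻¹) (s z) := by
    have h : HasDerivAt (fun t : ℝ => (2 - t)⁻¹) (-(-1) / (2 - s z) ^ 2) (s z) := ((hasDerivAt_id (s z)).const_sub 2).fun_inv h2s
    have e : -(-1) / (2 - s z) ^ 2 = ((2 - s z) ^ 2)⁻¹ := by ring
    rwa [e] at h
  have hlap := kk_lap_comp hsc h1 h2
  have hlap2 : kklap (kkΦ ε q F) z = kklap (fun w => -Real.log (2 - s w)) z := by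
    have e : ∀ c : ℂ, (fun w => fderiv ℝ (kkΦ ε q F) w c) =ᶠ[𝓝 z] fun w => fderiv ℝ (fun w => -Real.log (2 - s w)) w c := by
      intro c
      filter_upwards [hΦ.fderiv (𝕜 := ℝ)] with w hw
      rw [hw]
    unfold kklap kkdx kkdy
    rw [(e 1).fderiv_eq, (e Complex.I).fderiv_eq]
  refine ⟨hΦc.congr_of_eventuallyEq hΦ, ?_⟩
  rw [hlap2, hlap, hsz]
  have hlaps : kklap s z = 4 * ((‖G z‖ ^ 2 * ‖deriv G z‖ ^ 2 - ‖(inner ℂ (G z) (deriv G z) : ℂ)‖ ^ 2) / ‖G z‖ ^ 4) - 4 * lam2 F z := by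
    rw [hs, kk_lap_sub (kk_contDiffAt_log hGa hG0) (kk_contDiffAt_log hF h0), kk_lap_log hGa hG0, kk_lap_log hF h0, lam2]
  -- the orthogonal part of `F'`
  set a : ℂ := inner ℂ (F z) (deriv F z) / (‖F z‖ ^ 2 : ℝ) with ha
  set v : H := deriv F z - a • F z with hv
  have hvo : (inner ℂ (F z) v : ℂ) = 0 := by
    rw [hv, inner_sub_right, inner_smul_right, inner_self_eq_norm_sq_to_K, ha]
    have : ((‖F z‖ ^ 2 : ℝ) : ℂ) ≠ 0 := by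
      rw [Complex.ofReal_ne_zero]
      positivity
    field_simp
    simp
  have hF' : deriv F z = a • F z + v := by rw [hv]; abel
  have hvn : ‖v‖ ^ 2 = lam2 F z * ‖F z‖ ^ 2 := by
    have h := kk_gram (F z) v a
    rw [← hF', hvo, norm_zero] at h
    have h' : ‖F z‖ ^ 2 * ‖deriv F z‖ ^ 2 - ‖(inner ℂ (F z) (deriv F z) : ℂ)‖ ^ 2 = ‖F z‖ ^ 2 * ‖v‖ ^ 2 := by rw [h]; ring
    rw [lam2, h']
    field_simp
  have hG' : deriv G z = a • G z + L v := by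
    have h3 : HasDerivAt G (L (deriv F z)) z := L.hasFDerivAt.comp_hasDerivAt z hF.differentiableAt.hasDerivAt
    rw [h3.deriv, hF', map_add, map_smul]
  have hGgram := kk_gram (G z) (L v) a
  rw [← hG'] at hGgram
  have hds : kkdx s z ^ 2 + kkdy s z ^ 2 = 4 * (‖(inner ℂ (G z) (L v) : ℂ)‖ ^ 2 / ‖G z‖ ^ 4) := by
    have hd : ∀ c : ℂ, fderiv ℝ s z c = 2 * (c * (inner ℂ (G z) (L v) / (‖G z‖ ^ 2 : ℝ))).re := by
      intro c
      have e1 : fderiv ℝ s z c = fderiv ℝ (fun w => Real.log (‖G w‖ ^ 2)) z c - fderiv ℝ (fun w => Real.log (‖F w‖ ^ 2)) z c := by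
        rw [hs, fderiv_fun_sub ((kk_contDiffAt_log hGa hG0).differentiableAt (by norm_num)) ((kk_contDiffAt_log hF h0).differentiableAt (by norm_num))]
        rfl
      rw [e1, kk_grad_log hGa.differentiableAt hG0, kk_grad_log hF.differentiableAt h0, ← ha, hG', inner_add_right, inner_smul_right,
        inner_self_eq_norm_sq_to_K]
      have : ((‖G z‖ ^ 2 : ℝ) : ℂ) ≠ 0 := by
        rw [Complex.ofReal_ne_zero]
        have : 0 < ‖G z‖ := norm_pos_iff.2 hG0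
        positivity
      have e2 : (a * (‖G z‖ : ℂ) ^ 2 + inner ℂ (G z) (L v)) / ((‖G z‖ ^ 2 : ℝ) : ℂ) = a + inner ℂ (G z) (L v) / ((‖G z‖ ^ 2 : ℝ) : ℂ) := by
        field_simp
        push_cast
        ring
      change 2 * (c * ((a * (‖G z‖ : ℂ) ^ 2 + inner ℂ (G z) (L v)) / ((‖G z‖ ^ 2 : ℝ) : ℂ))).re - 2 * (c * a).re = _
      rw [e2, mul_add, Complex.add_re]
      ring
    have e3 : ∀ p : ℂ, (2 * (1 * p).re) ^ 2 + (2 * (Complex.I * p).re) ^ 2 = 4 * ‖p‖ ^ 2 := by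
      intro p
      rw [Complex.sq_norm, Complex.normSq_apply]
      simp
      ring
    unfold kkdx kkdy
    rw [hd, hd, e3, norm_div, Complex.norm_real, Real.norm_eq_abs, abs_of_nonneg (by positivity), div_pow]
    ring
  have hv3 := kk_inner_le hq h0 hvo
  have hLv := hL v
  have hDe : 1 - ‖(inner ℂ q (F z) : ℂ)‖ ^ 2 / ‖F z‖ ^ 2 = D - ε := by
    rw [hD, kkD]
    ring
  rw [hDe] at hv3
  have hLv2 : (1 + 2 * ε - D) * ‖v‖ ^ 2 ≤ ‖L v‖ ^ 2 := by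
    rw [hLv]
    linarith
  rw [hlaps, hGgram, hds, ← hm]
  have hGp : 0 < ‖G z‖ := norm_pos_iff.2 hG0
  have hlam := lam2_nonneg F z
  set X : ℝ := ‖L v‖ ^ 2 / ‖G z‖ ^ 2 with hX
  set I : ℝ := ‖(inner ℂ (G z) (L v) : ℂ)‖ ^ 2 / ‖G z‖ ^ 4 with hI
  have hI0 : 0 ≤ I := by positivity
  have e1 : (‖G z‖ ^ 2 * ‖L v‖ ^ 2 - ‖(inner ℂ (G z) (L v) : ℂ)‖ ^ 2) / ‖G z‖ ^ 4 = X - I := by
    rw [hX, hI]
    field_simp
  have hIX : I ≤ X := by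
    have h5 : ‖(inner ℂ (G z) (L v) : ℂ)‖ ^ 2 ≤ (‖G z‖ * ‖L v‖) ^ 2 := pow_le_pow_left₀ (norm_nonneg _) (norm_inner_le_norm _ _) 2
    have h6 : 0 ≤ X - I := by
      rw [← e1]
      exact div_nonneg (by nlinarith) (by positivity)
    linarith
  have hXlow : lam2 F z / D - lam2 F z ≤ X :=
    kk_X hε hDp hlam (by positivity) hvn hLv2 (by rw [← hGF, hX]; field_simp)
  rw [e1]
  exact kk_final hIX hlam hXlow hm1

end Pool.Agent.MQ
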