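import Pool.Agent.MQ.SNBox

/-!
# MQ/LForm: saddle-nodes, the field
-/

set_option autoImplicit false

open Topology Filter Asymptotics Complex Set ComplexConjugate Metric

noncomputable section

namespace Pool.Agent.MQ

variable {α : ℕ → ℂ} {k : ℕ} {ρ : ℝ} {c : ℕ → ℂ} {J n : ℕ} {g : ℂ → ℂ × ℂ}

/-- `a = χ₁` along the curve -/
def f₁ (α : ℕ → ℂ) (k : ℕ) (ρ : ℝ) (g : ℂ → ℂ × ℂ) (w : ℂ) : ℝ := XX α k ρ (g w).1

/-- `χ₂` along the curve -/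
def f₂ (c : ℕ → ℂ) (J n : ℕ) (ρ : ℝ) (g : ℂ → ℂ × ℂ) (w : ℂ) : ℝ := CC n ρ ((g w).2 - jet c J (g w).1)

/-- `χ₂ Im z` along the curve -/
def f₃ (α : ℕ → ℂ) (k : ℕ) (c : ℕ → ℂ) (J n : ℕ) (ρ : ℝ) (g : ℂ → ℂ × ℂ) (w : ℂ) : ℝ := f₂ c J n ρ g w * EEE α k ρ (g w).1

/-- the field -/
def snF (α : ℕ → ℂ) (k : ℕ) (c : ℕ → ℂ) (J n : ℕ) (ρ : ℝ) (D : ℂ → ℂ) (g : ℂ → ℂ × ℂ) (w : ℂ) : ℂ :=
  ((1 - f₁ α k ρ g w * f₂ c J n ρ g w : ℝ) : ℂ) * conj (D w) + (f₁ α k ρ g w : ℂ) * (-I * gr (f₃ α k c J n ρ g) w)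

theorem cd_pair {z : ℂ} (hg : AnalyticAt ℂ g z) {φ : ℂ × ℂ → ℝ} (hφ : ContDiff ℝ 2 φ) : ContDiffAt ℝ 2 (fun w => φ (g w)) z :=
  hφ.contDiffAt.comp z ((hg.contDiffAt (n := 2)).restrict_scalars ℝ)

theorem cd_XX (hk : 1 ≤ k) (h0 : α 0 ≠ 0) (hρ : 0 < ρ) : ContDiff ℝ 2 fun p : ℂ × ℂ => XX α k ρ p.1 :=
  (XX_contDiff hk h0 hρ).comp contDiff_fst

theorem cd_jet (c : ℕ → ℂ) (J : ℕ) : ContDiff ℝ 2 fun p : ℂ × ℂ => p.2 - jet c J p.1 := by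
  have h1 : ContDiff ℝ 2 (jet c J) := ((jet_differentiable c J).contDiff (n := 2)).restrict_scalars ℝ
  exact contDiff_snd.sub (h1.comp contDiff_fst)

theorem cd_CC (c : ℕ → ℂ) (J n : ℕ) (ρ : ℝ) : ContDiff ℝ 2 fun p : ℂ × ℂ => CC n ρ (p.2 - jet c J p.1) :=
  CC_contDiff.comp (cd_jet c J)

theorem cd_EE (α : ℕ → ℂ) (k : ℕ) (c : ℕ → ℂ) (J n : ℕ) (ρ : ℝ) :
    ContDiff ℝ 2 fun p : ℂ × ℂ => CC n ρ (p.2 - jet c J p.1) * EEE α k ρ p.1 :=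
  (cd_CC c J n ρ).mul (EEE_contDiff.comp contDiff_fst)

theorem cd_f₁ (hk : 1 ≤ k) (h0 : α 0 ≠ 0) (hρ : 0 < ρ) {z : ℂ} (hg : AnalyticAt ℂ g z) : ContDiffAt ℝ 2 (f₁ α k ρ g) z :=
  cd_pair hg (cd_XX hk h0 hρ)

theorem cd_f₂ {z : ℂ} (hg : AnalyticAt ℂ g z) : ContDiffAt ℝ 2 (f₂ c J n ρ g) z := cd_pair hg (cd_CC c J n ρ)

theorem cd_f₃ {z : ℂ} (hg : AnalyticAt ℂ g z) : ContDiffAt ℝ 2 (f₃ α k c J n ρ g) z := cd_pair hg (cd_EE α k c J n ρ)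

/-- near a pass the field is `0` -/
theorem snF_zero (hk : 1 ≤ k) (h0 : α 0 ≠ 0) (hρ : 0 < ρ) (hc : c 0 = 0) {z : ℂ} (hg : AnalyticAt ℂ g z) (hz : g z = 0) (D : ℂ → ℂ) :
    ∀ᶠ w in 𝓝 z, snF α k c J n ρ D g w = 0 := by
  have hg0 : Tendsto g (𝓝 z) (𝓝 0) := by
    have := hg.continuousAt.tendsto
    rwa [hz] at this
  have t1 : Tendsto (fun w => (g w).1) (𝓝 z) (𝓝 0) := (continuous_fst.tendsto (0 : ℂ × ℂ)).comp hg0
  have t2 : Tendsto (fun w => (g w).2 - jet c J (g w).1) (𝓝 z) (𝓝 0) := by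
    have hc2 : Continuous fun p : ℂ × ℂ => p.2 - jet c J p.1 := (cd_jet c J).continuous
    have h3 : Tendsto (fun w => (g w).2 - jet c J (g w).1) (𝓝 z) (𝓝 ((0 : ℂ × ℂ).2 - jet c J (0 : ℂ × ℂ).1)) :=
      (hc2.tendsto (0 : ℂ × ℂ)).comp hg0
    simpa [jet_zero hc] using h3
  have e1 := t1.eventually (XX_ev_one hk h0 hρ)
  have e2 := t2.eventually (CC_ev_one (n := n) (ρ := ρ))
  have e3 := t1.eventually (EEE_ev_zero (α := α) (k := k) (ρ := ρ))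
  have e4 : ∀ᶠ w in 𝓝 z, gr (f₃ α k c J n ρ g) w = 0 := by
    filter_upwards [e3.eventually_nhds] with w hw
    have : f₃ α k c J n ρ g =ᶠ[𝓝 w] fun _ => (0 : ℝ) := by
      filter_upwards [hw] with y hy
      rw [f₃, hy, mul_zero]
    rw [gr_congr this, gr_const]
  filter_upwards [e1, e2, e4] with w h1 h2 h4
  rw [snF, h4, f₁, f₂, h1, h2]
  simp

/-- `C¹` off the passes -/
theorem snF_contDiffAt (hk : 1 ≤ k) (h0 : α 0 ≠ 0) (hρ : 0 < ρ) {z : ℂ} (hg : AnalyticAt ℂ g z) {D : ℂ → ℂ} (hD : AnalyticAt ℂ D z) :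
    ContDiffAt ℝ 1 (snF α k c J n ρ D g) z := by
  have h1 : ContDiffAt ℝ 1 (f₁ α k ρ g) z := (cd_f₁ hk h0 hρ hg).of_le (by norm_num)
  have h2 : ContDiffAt ℝ 1 (f₂ c J n ρ g) z := (cd_f₂ hg).of_le (by norm_num)
  have h3 : ContDiffAt ℝ 1 (gr (f₃ α k c J n ρ g)) z := contDiffAt_gr (cd_f₃ hg) (by norm_num)
  have h4 : ContDiffAt ℝ 1 (fun w => conj (D w)) z := contDiffAt_conj_holo hD
  have h5 : ContDiffAt ℝ 1 (fun w => ((1 - f₁ α k ρ g w * f₂ c J n ρ g w : ℝ) : ℂ)) z :=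
    Complex.ofRealCLM.contDiff.contDiffAt.comp z (contDiffAt_const.sub (h1.mul h2))
  have h6 : ContDiffAt ℝ 1 (fun w => ((f₁ α k ρ g w : ℝ) : ℂ)) z := Complex.ofRealCLM.contDiff.contDiffAt.comp z h1
  unfold snF
  exact (h5.mul h4).add (h6.mul (contDiffAt_const.mul h3))

/-- the divergence of the field -/
theorem snF_dv (hk : 1 ≤ k) (h0 : α 0 ≠ 0) (hρ : 0 < ρ) {z : ℂ} (hg : AnalyticAt ℂ g z) {D : ℂ → ℂ} (hD : AnalyticAt ℂ D z) :
    -dv (snF α k c J n ρ D g) z = ip ((f₂ c J n ρ g z : ℂ) * gr (f₁ α k ρ g) z + (f₁ α k ρ g z : ℂ) * gr (f₂ c J n ρ g) z) (conj (D z)) -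
      (conj (gr (f₁ α k ρ g) z) * gr (f₃ α k c J n ρ g) z).im := by
  have h1 : DifferentiableAt ℝ (f₁ α k ρ g) z := (cd_f₁ hk h0 hρ hg).differentiableAt (by norm_num)
  have h2 : DifferentiableAt ℝ (f₂ c J n ρ g) z := (cd_f₂ hg).differentiableAt (by norm_num)
  have h3 : ContDiffAt ℝ 2 (f₃ α k c J n ρ g) z := cd_f₃ hg
  have h4 : DifferentiableAt ℝ (fun w => conj (D w)) z := (contDiffAt_conj_holo (n := 1) hD).differentiableAt one_ne_zero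
  have h5 : DifferentiableAt ℝ (fun w => (1 : ℝ) - f₁ α k ρ g w * f₂ c J n ρ g w) z := (differentiableAt_const _).sub (h1.mul h2)
  have h6 : DifferentiableAt ℝ (fun w => (((1 - f₁ α k ρ g w * f₂ c J n ρ g w : ℝ)) : ℂ) * conj (D w)) z :=
    (Complex.ofRealCLM.differentiableAt.comp z h5).mul h4
  have h7 : DifferentiableAt ℝ (fun w => (f₁ α k ρ g w : ℂ) * (-I * gr (f₃ α k c J n ρ g) w)) z :=
    (Complex.ofRealCLM.differentiableAt.comp z h1).mul ((differentiableAt_gr h3).const_mul _)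
  have e1 : dv (snF α k c J n ρ D g) z = dv (fun w => (((1 - f₁ α k ρ g w * f₂ c J n ρ g w : ℝ)) : ℂ) * conj (D w)) z +
      dv (fun w => (f₁ α k ρ g w : ℂ) * (-I * gr (f₃ α k c J n ρ g) w)) z := dv_add h6 h7
  rw [e1, dv_mul h5 h4, dv_conj hD.differentiableAt, dv_rot_gr h1 h3, ip_rot]
  have e2 : gr (fun w => (1 : ℝ) - f₁ α k ρ g w * f₂ c J n ρ g w) z =
      -((f₂ c J n ρ g z : ℂ) * gr (f₁ α k ρ g) z + (f₁ α k ρ g z : ℂ) * gr (f₂ c J n ρ g) z) := by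
    have e5 : gr (fun w => (1 : ℝ) - f₁ α k ρ g w * f₂ c J n ρ g w) z = gr (fun _ : ℂ => (1 : ℝ)) z -
        gr (fun w => f₁ α k ρ g w * f₂ c J n ρ g w) z :=
      gr_sub (u := fun _ => (1 : ℝ)) (v := fun w => f₁ α k ρ g w * f₂ c J n ρ g w) (differentiableAt_const _) (h1.mul h2)
    have e3 : gr (fun _ : ℂ => (1 : ℝ)) z = 0 := gr_const 1 z
    have e4 : gr (fun w => f₁ α k ρ g w * f₂ c J n ρ g w) z = (f₁ α k ρ g z : ℂ) * gr (f₂ c J n ρ g) z + (f₂ c J n ρ g z : ℂ) * gr (f₁ α k ρ g) z :=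
      gr_mul h1 h2
    rw [e5, e3, e4]
    ring
  rw [e2, ip_neg_left]
  ring

/-- **The pointwise inequality.**  `ζ` is `ζ'`, `θ = δ ζ'`. -/
theorem snF_le (hk : 1 ≤ k) (h0 : α 0 ≠ 0) (hρ : 0 < ρ) {C B r : ℝ} (hC : 0 < C) (hB : 0 < B) (hB1 : ∀ s, HH₁ s ≤ B) (hB2 : ∀ t, HH₂ t ≤ B)
    (hscl : ∀ x : ℂ, ‖x‖ ≤ r → 1 ≤ scl α k ρ * ‖pot α k x‖ ^ 2 → ‖x‖ ≤ 2 * ρ ∧ (scl α k ρ * ‖pot α k x‖ ^ 2 ≤ 2 → ρ / 2 ≤ ‖x‖))
    {z : ℂ} (hg : AnalyticAt ℂ g z) (hr : ‖(g z).1‖ ≤ r) {D : ℂ → ℂ} (hD : AnalyticAt ℂ D z) {ζ δ av Yv : ℂ}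
    (hDz : D z = δ * ζ) (hx' : (deriv g z).1 = (g z).1 ^ (k + 1) * av * ζ) (hY' : deriv (fun w => (g w).2 - jet c J (g w).1) z = Yv * ζ)
    (ht : ‖(g z).1‖ ≤ 2 * ρ → ‖(g z).2 - jet c J (g z).1‖ ≤ ρ ^ n →
      (ρ / 2 ≤ ‖(g z).1‖ → ∀ w : ℂ, ‖δ * w - DD α k (g z).1 * av * w‖ ≤ C * ‖(pot α k (g z).1)⁻¹‖ * ‖DD α k (g z).1 * av * w‖ ∧
        ‖DD α k (g z).1 * av * w * (pot α k (g z).1)⁻¹‖ ≤ C * ‖(g z).1 ^ k * av * w‖) ∧
      (ρ ^ n ≤ 2 * ‖(g z).2 - jet c J (g z).1‖ → ρ / 2 ≤ ‖(g z).1‖ → ∀ w : ℂ,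
        ‖Yv / ((g z).2 - jet c J (g z).1) * w - DD α k (g z).1 * av * w‖ ≤
          C * ‖(pot α k (g z).1)⁻¹‖ * ‖DD α k (g z).1 * av * w‖) ∧
      (ρ ^ n ≤ 2 * ‖(g z).2 - jet c J (g z).1‖ → ∀ w : ℂ,
        0 ≤ (conj (Yv / ((g z).2 - jet c J (g z).1) * w) * (δ * w)).re)) :
    -dv (snF α k c J n ρ D g) z ≤ 0 ∨ ρ / 2 ≤ ‖(g z).1‖ ∧ ‖(g z).1‖ ≤ 2 * ρ ∧ ‖(g z).2 - jet c J (g z).1‖ ≤ ρ ^ n ∧
      -dv (snF α k c J n ρ D g) z ≤ (C + B * C ^ 2) * (B * (C ^ 2 * ‖(deriv g z).1 / (g z).1‖ ^ 2)) := by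
  rw [snF_dv hk h0 hρ hg hD]
  set x := (g z).1 with hx
  set Y := (g z).2 - jet c J x with hY
  set t := (1 / (ρ ^ n) ^ 2) * ‖Y‖ ^ 2 with htdef
  have hρn : 0 < ρ ^ n := pow_pos hρ n
  have hgd : DifferentiableAt ℂ g z := hg.differentiableAt
  have han1 : AnalyticAt ℂ (fun w => (g w).1) z := an_fst hg
  have hYan : AnalyticAt ℂ (fun w => (g w).2 - jet c J (g w).1) z := (an_snd hg).sub ((jet_analytic c J _).fun_comp han1)
  -- the gradient of the second cut-off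
  have gr2 : gr (f₂ c J n ρ g) z = -(HH₂ t : ℂ) * conj (Yv / Y * ζ) := by
    have h1 : f₂ c J n ρ g = fun w => hm ((1 / (ρ ^ n) ^ 2) * ‖(g w).2 - jet c J (g w).1‖ ^ 2) := rfl
    rw [h1, gr_hm hYan.differentiableAt, hY']
    congr 2
    rw [← hY]
    ring
  have hHt : HH₂ t ≠ 0 → ‖Y‖ ≤ ρ ^ n ∧ ρ ^ n ≤ 2 * ‖Y‖ := by
    intro h
    by_contra hcon
    apply h
    apply HH₂_zero
    rw [htdef, one_div, ← div_eq_inv_mul]
    by_cases h1 : ‖Y‖ ≤ ρ ^ n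
    · left
      have h2 : 2 * ‖Y‖ < ρ ^ n := by
        by_contra h3
        exact hcon ⟨h1, not_lt.1 h3⟩
      rw [div_le_iff₀ (by positivity)]
      have h3 := norm_nonneg Y
      nlinarith
    · right
      push Not at h1
      rw [le_div_iff₀ (by positivity), one_mul]
      exact pow_le_pow_left₀ hρn.le h1.le 2
  have hf2 : f₂ c J n ρ g z ≠ 0 → ‖Y‖ ≤ ρ ^ n := by
    intro h
    by_contra hcon
    push Not at hcon
    exact h (CC_zero hρ hcon.le)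
  have hf1 : f₁ α k ρ g z ≠ 0 → ‖x‖ ≤ 2 * ρ := by
    intro h
    by_cases hx0 : x = 0
    · rw [hx0, norm_zero]
      positivity
    · have h2 : f₁ α k ρ g z = hp (scl α k ρ * ‖pot α k x‖ ^ 2) := by
        rw [f₁, XX, if_neg hx0]
      by_cases h3 : scl α k ρ * ‖pot α k x‖ ^ 2 ≤ 1
      · rw [h2, hp_zero h3] at h
        exact absurd rfl h
      · exact (hscl x hr (not_le.1 h3).le).1
  have hpos : HH₂ t ≠ 0 → f₁ α k ρ g z ≠ 0 → 0 ≤ (conj (Yv / Y * ζ) * (δ * ζ)).re := by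
    intro h1 h2
    obtain ⟨h3, h4⟩ := hHt h1
    exact (ht (hf1 h2) h3).2.2 h4 ζ
  by_cases hH : x ≠ 0 ∧ 1 < scl α k ρ * ‖pot α k x‖ ^ 2 ∧ scl α k ρ * ‖pot α k x‖ ^ 2 < 2
  · obtain ⟨hx0, hs1, hs2⟩ := hH
    obtain ⟨hx2, hxl'⟩ := hscl x hr hs1.le
    have hxl : ρ / 2 ≤ ‖x‖ := hxl' hs2.le
    clear hxl'
    have hpot : pot α k x ≠ 0 := by
      intro h
      rw [h] at hs1
      simp at hs1
      linarith
    set Z := DD α k x * av * ζ with hZ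
    have hpan : AnalyticAt ℂ (fun w => pot α k (g w).1) z := (pot_analytic hx0).fun_comp han1
    have hpd : deriv (fun w => pot α k (g w).1) z = Z := by
      have h1 : HasDerivAt (fun w => (g w).1) (deriv g z).1 z := by
        have := han1.differentiableAt.hasDerivAt
        rwa [deriv_fst' hgd] at this
      have h2 : HasDerivAt (fun w => pot α k (g w).1) (deriv (pot α k) x * (deriv g z).1) z :=
        HasDerivAt.comp z (h₂ := pot α k) (pot_analytic hx0).differentiableAt.hasDerivAt h1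
      rw [h2.deriv, hx', hZ, ← pot_deriv (α := α) (k := k) hx0]
      ring
    have gr1 : gr (f₁ α k ρ g) z = (HH₁ (scl α k ρ * ‖pot α k x‖ ^ 2) : ℂ) * conj (Z * (pot α k x)⁻¹) := by
      have h1 : f₁ α k ρ g =ᶠ[𝓝 z] fun w => hp (scl α k ρ * ‖pot α k (g w).1‖ ^ 2) := by
        filter_upwards [han1.continuousAt.eventually_ne hx0] with w hw
        rw [f₁, XX, if_neg hw]
      rw [gr_congr h1, gr_hp (f := fun w => pot α k (g w).1) hpan.differentiableAt hpot, hpd]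
    have gr3 : gr (f₃ α k c J n ρ g) z = (f₂ c J n ρ g z : ℂ) * (I * conj Z) + ((pot α k x).im : ℂ) * gr (f₂ c J n ρ g) z := by
      have h1 : f₃ α k c J n ρ g =ᶠ[𝓝 z] fun w => f₂ c J n ρ g w * (pot α k (g w).1).im := by
        have h2 : ∀ᶠ w in 𝓝 z, EEE α k ρ (g w).1 = (pot α k (g w).1).im := han1.continuousAt.eventually (EEE_ev hρ hxl)
        filter_upwards [h2] with w hw
        rw [f₃, hw]
      have h3 : DifferentiableAt ℝ (f₂ c J n ρ g) z := (cd_f₂ hg).differentiableAt (by norm_num)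
      have h4 : DifferentiableAt ℝ (fun w => (pot α k (g w).1).im) z :=
        Complex.imCLM.differentiableAt.comp z (hpan.differentiableAt.restrictScalars ℝ)
      rw [gr_congr h1, gr_mul h3 h4, gr_im_holo (G := fun w => pot α k (g w).1) hpan.differentiableAt, hpd]
    set s := scl α k ρ * ‖pot α k x‖ ^ 2 with hs
    set ω := (pot α k x)⁻¹ with hω
    have hω0 : ω ≠ 0 := inv_ne_zero hpot
    have him : (pot α k x).im = -ω.im / ‖ω‖ ^ 2 := by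
      have h1 : pot α k x = ω⁻¹ := by rw [hω, inv_inv]
      rw [h1, Complex.inv_im, Complex.normSq_eq_norm_sq]
    by_cases hYn : ‖Y‖ ≤ ρ ^ n
    · right
      refine ⟨hxl, hx2, hYn, ?_⟩
      obtain ⟨ht1, ht2, ht3⟩ := ht hx2 hYn
      have hsn := sn_point (ω := ω) (Z := Z) (θ := δ * ζ) (μ := Yv / Y * ζ) (c₁ := f₁ α k ρ g z) (c₂ := f₂ c J n ρ g z) (H₁ := HH₁ s) (H₂ := HH₂ t)
        (C := C) (Hm := B) hω0 (XX_nonneg _) (CC_nonneg _) (CC_le _) (HH₁_nonneg s) (HH₂_nonneg t) (hB2 t) hC.le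
        (fun _ _ => (ht1 hxl ζ).1) (fun _ h2 => ht2 (hHt h2).2 hxl ζ) hpos
      have e1 : (conj (gr (f₁ α k ρ g) z) * gr (f₃ α k c J n ρ g) z).im =
          f₂ c J n ρ g z * (HH₁ s * (‖Z‖ ^ 2 * ω.re)) + (-ω.im / ‖ω‖ ^ 2) * (-(HH₁ s * HH₂ t) * (Z * ω * conj (Yv / Y * ζ)).im) := by
        rw [gr1, gr3, gr2, him]
        have e2 : conj ((HH₁ s : ℂ) * conj (Z * ω)) = (HH₁ s : ℂ) * (Z * ω) := by
          rw [map_mul, Complex.conj_conj, Complex.conj_ofReal]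
        rw [e2]
        have e3 : (HH₁ s : ℂ) * (Z * ω) * ((f₂ c J n ρ g z : ℂ) * (I * conj Z) + ((-ω.im / ‖ω‖ ^ 2 : ℝ) : ℂ) * (-(HH₂ t : ℂ) * conj (Yv / Y * ζ))) =
          ((f₂ c J n ρ g z * HH₁ s : ℝ) : ℂ) * (I * (Z * ω * conj Z)) +
            (((-ω.im / ‖ω‖ ^ 2) * (-(HH₁ s * HH₂ t)) : ℝ) : ℂ) * (Z * ω * conj (Yv / Y * ζ)) := by
          push_cast
          ring
        have e4 : (I * (Z * ω * conj Z)).im = ‖Z‖ ^ 2 * ω.re := by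
          rw [Complex.sq_norm, Complex.normSq_apply]
          simp only [mul_re, mul_im, conj_re, conj_im, I_re, I_im]
          ring
        rw [e3, add_im, Complex.im_ofReal_mul, Complex.im_ofReal_mul, e4]
        ring
      rw [e1, gr1, gr2, hDz]
      have e5 : ‖Z * ω‖ ≤ C * ‖(deriv g z).1 / x‖ := by
        have e6 : (deriv g z).1 / x = x ^ k * av * ζ := by
          rw [hx', pow_succ]
          field_simp
        rw [e6]
        exact (ht1 hxl ζ).2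
      have e7 : HH₁ s * ‖Z * ω‖ ^ 2 ≤ B * (C ^ 2 * ‖(deriv g z).1 / x‖ ^ 2) := by
        have e8 : ‖Z * ω‖ ^ 2 ≤ (C * ‖(deriv g z).1 / x‖) ^ 2 := pow_le_pow_left₀ (norm_nonneg _) e5 2
        rw [mul_pow] at e8
        exact mul_le_mul (hB1 s) e8 (by positivity) hB.le
      have e9 : (C + B * C ^ 2) * (HH₁ s * ‖Z * ω‖ ^ 2) ≤ (C + B * C ^ 2) * (B * (C ^ 2 * ‖(deriv g z).1 / x‖ ^ 2)) :=
        mul_le_mul_of_nonneg_left e7 (by positivity)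
      linarith
    · left
      have h1 : f₂ c J n ρ g z = 0 := by
        by_contra h
        exact hYn (hf2 h)
      have h2 : HH₂ t = 0 := by
        by_contra h
        exact hYn (hHt h).1
      rw [gr3, gr2, h1, h2]
      simp
  · left
    have gr1 : gr (f₁ α k ρ g) z = 0 := by
      by_cases hx0 : x = 0
      · have h1 : f₁ α k ρ g =ᶠ[𝓝 z] fun _ => 1 := by
          have h2 : Tendsto (fun w => (g w).1) (𝓝 z) (𝓝 0) := by
            have := han1.continuousAt.tendsto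
            rwa [← hx, hx0] at this
          exact h2.eventually (XX_ev_one hk h0 hρ)
        rw [gr_congr h1, gr_const]
      · have h1 : f₁ α k ρ g =ᶠ[𝓝 z] fun w => hp (scl α k ρ * ‖pot α k (g w).1‖ ^ 2) := by
          filter_upwards [han1.continuousAt.eventually_ne hx0] with w hw
          rw [f₁, XX, if_neg hw]
        have hpan : AnalyticAt ℂ (fun w => pot α k (g w).1) z := (pot_analytic hx0).fun_comp han1
        rw [gr_congr h1, gr_comp_normSq hpan.differentiableAt ((hp_contDiff (n := 1)).differentiable one_ne_zero _)]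
        have h2 : deriv hp (scl α k ρ * ‖pot α k (g z).1‖ ^ 2) = 0 := by
          rw [deriv_hp]
          apply Pool.Agent.H30M.deriv_st_eq_zero
          by_cases h3 : scl α k ρ * ‖pot α k x‖ ^ 2 ≤ 1
          · left; rw [← hx]; linarith
          · right
            have h4 : ¬ scl α k ρ * ‖pot α k x‖ ^ 2 < 2 := fun h4 => hH ⟨hx0, not_le.1 h3, h4⟩
            rw [← hx]
            linarith
        rw [h2]
        simp
    rw [gr1, gr2, mul_zero, zero_add, map_zero, zero_mul, zero_im, sub_zero, hDz]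
    have e1 : ip ((f₁ α k ρ g z : ℂ) * (-(HH₂ t : ℂ) * conj (Yv / Y * ζ))) (conj (δ * ζ)) =
        -(f₁ α k ρ g z * (HH₂ t * (conj (Yv / Y * ζ) * (δ * ζ)).re)) := by
      simp only [ip, map_mul, mul_re, mul_im, conj_re, conj_im, ofReal_re, ofReal_im, neg_re, neg_im]
      ring
    rw [e1, neg_nonpos]
    by_cases h1 : HH₂ t = 0
    · rw [h1]; simp
    by_cases h2 : f₁ α k ρ g z = 0
    · rw [h2]; simp
    exact mul_nonneg (XX_nonneg _) (mul_nonneg (HH₂_nonneg t) (hpos h1 h2))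

end Pool.Agent.MQ
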