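import Pool.Agent.MQ.LFormT

/-!
# MQ/LFormD: `localN1_formal` with any density
-/

set_option autoImplicit false

open Topology Filter Asymptotics Complex Set ComplexConjugate Metric MeasureTheory

noncomputable section

namespace Pool.Agent.MQ

open Pool.Agent.H36.BP (EN fs)
open Pool.Agent.H30M (tau tau_nonneg)

/-- `LocalN1` is monotone in the energy and in the length -/
theorem LocalN1.mono_dens {v : ℂ × ℂ → ℂ × ℂ} {l : ℂ × ℂ → ℂ} {Om : Set ℂ} {g : ℂ → ℂ × ℂ} {I I' Λ Λ' : ℝ → ℝ} {s δ : ℝ} (h : LocalN1 v l Om g I Λ s δ)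
    (hδ : 0 ≤ δ) (hI : ∀ R, 1 ≤ R → I R ≤ I' R) (hΛ : ∀ R, 1 ≤ R → Λ R ≤ Λ' R) : LocalN1 v l Om g I' Λ' s δ := by
  obtain ⟨C, η, err, h1, h2, h3, h4, h5, h6, h7, h8⟩ := h
  refine ⟨C, η, err, h1, h2, h3, h4, h5, h6, h7, fun R hR => (h8 R hR).trans ?_⟩
  have e1 := mul_le_mul_of_nonneg_left (hI R hR) hδ
  have e2 := mul_le_mul_of_nonneg_left (hΛ R hR) h1
  linarith

variable {M : ℕ} {F : ℂ → EN M} {lm : ℂ → ℝ}

theorem sn_lam_nonneg (z : ℂ) : 0 ≤ lam F z := div_nonneg (Real.sqrt_nonneg _) (by positivity)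

theorem En_le_dens (hlm : Continuous lm) (hle : ∀ z, lam F z ≤ lm z) {R : ℝ} (hR : 1 ≤ R) : En F R ≤ ∫ z, tau R z * lm z ^ 2 := by
  refine integral_mono_of_nonneg (Eventually.of_forall fun z => mul_nonneg (tau_nonneg hR z) (sq_nonneg _))
    (Pool.Agent.H30M.integrable_tau_mul hR (hlm.pow 2)) (Eventually.of_forall fun z => ?_)
  exact mul_le_mul_of_nonneg_left (pow_le_pow_left₀ (sn_lam_nonneg z) (hle z) 2) (tau_nonneg hR z)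

theorem Len_le_dens (hlm : Continuous lm) (hle : ∀ z, lam F z ≤ lm z) {R : ℝ} (hR : 1 ≤ R) : Len F R ≤ ∫ z, ‖gr (tau R) z‖ * lm z := by
  have h1 : ContDiff ℝ 1 (tau R) := (Pool.Agent.H30M.contDiff_tau R).of_le (by norm_num)
  have hc : Continuous fun z => ‖gr (tau R) z‖ := by
    have h2 : Continuous (fderiv ℝ (tau R)) := h1.continuous_fderiv one_ne_zero
    exact (grL.continuous.comp h2).norm
  have hs : HasCompactSupport fun z => ‖gr (tau R) z‖ := by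
    have h2 : HasCompactSupport (fderiv ℝ (tau R)) := (Pool.Agent.H30M.hcs_tau hR).fderiv ℝ
    exact (h2.comp_left (g := grL) (map_zero _)).norm
  refine integral_mono_of_nonneg (Eventually.of_forall fun z => mul_nonneg (norm_nonneg _) (sn_lam_nonneg z))
    ((hc.mul hlm).integrable_of_hasCompactSupport hs.mul_right) (Eventually.of_forall fun z => ?_)
  exact mul_le_mul_of_nonneg_left (hle z) (norm_nonneg _)

/-- **`localN1_formal` with any density `lm`.** -/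
theorem localN1_formal_dens {k : ℕ} (hk : 1 ≤ k) {a b : ℂ × ℂ → ℂ} (ha : AnalyticAt ℂ a 0) (hb : AnalyticAt ℂ b 0) (ha0 : a 0 ≠ 0)
    (hb0 : fderiv ℂ b 0 (0, 1) ≠ 0) {c : ℕ → ℂ} (hc : c 0 = 0)
    (hJ : ∀ J, (fun t => b (t, jet c J t) - deriv (jet c J) t * (t ^ (k + 1) * a (t, jet c J t))) =O[𝓝 0] fun t : ℂ => t ^ (J + 1)) :
    ∃ C₀ : ℝ, 0 ≤ C₀ ∧ ∀ {r : ℝ} (_ : 0 < r) (_ : AnalyticOnNhd ℂ a (closedBall 0 r)) (_ : AnalyticOnNhd ℂ b (closedBall 0 r))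
      {v : ℂ × ℂ → ℂ × ℂ} (_ : ∀ p, v p = (p.1 ^ (k + 1) * a p, b p)) (_ : ∀ p ∈ closedBall (0 : ℂ × ℂ) r, v p = 0 → p = 0)
      {l : ℂ × ℂ → ℂ} (_ : (∀ p, l p = p.1) ∨ ∀ p, l p = 1)
      {q : ℂ × ℂ → ℂ} (_ : AnalyticAt ℂ q 0) {N : ℕ} (_ : 1 ≤ N) (_ : ∀ J, N ≤ J → analyticOrderAt (fun t => q (t, jet c J t)) 0 = N)
      {ψ : ℂ × ℂ → ℝ} (_ : ContDiffAt ℝ 1 ψ 0) (d : ℕ) {M : ℕ} {F : ℂ → EN M} (_ : Differentiable ℂ F) (_ : ∀ z, F z ≠ 0)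
      {Qf : ℂ → ℂ} (_ : Differentiable ℂ Qf) (_ : ∀ z, ‖Qf z‖ ≤ ‖F z‖ ^ d) {c' : ℝ} (_ : 0 < c') {Om : Set ℂ} {g : ℂ → ℂ × ℂ}
      (_ : Crv1 v r Om g) (_ : ∀ z ∈ Om, ‖Qf z‖ * Real.exp (d * ψ (g z)) = c' * ‖q (g z)‖ * ‖F z‖ ^ d)
      (_ : ∀ z ∈ Om, g z ≠ 0 → l (g z) ≠ 0) {lm : ℂ → ℝ} (_ : Continuous lm) (_ : ∀ z, lam F z ≤ lm z) {s : ℝ} (_ : 0 < s) (_ : s < r),
      LocalN1 v l Om g (fun R => ∫ z, tau R z * lm z ^ 2) (fun R => ∫ z, ‖gr (tau R) z‖ * lm z) s (C₀ * d / N) := by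
  obtain ⟨C₀, hC₀, H⟩ := localN1_formal hk ha hb ha0 hb0 hc hJ
  refine ⟨C₀, hC₀, ?_⟩
  intro r hr haa hbb v hv hv0 l hl q hq N hN hord ψ hψ d M F hF hF0 Qf hQf hQF c' hc' Om g hg hrel hl0 lm hlm hle s hs hsr
  refine (H hr haa hbb hv hv0 hl hq hN hord hψ d hF hF0 hQf hQF hc' hg hrel hl0 hs hsr).mono_dens (by positivity)
    (fun R hR => En_le_dens hlm hle hR) (fun R hR => Len_le_dens hlm hle hR)

end Pool.Agent.MQ
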