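import Pool.Agent.MQ.Frame
import Pool.Agent.MQ.Ax0

/-!
# MQ LNode: the normal bundle half of the local package at a node

`η = conj (a_x x' / a + b_y y' / b) + ∑ (1 - χ_i) conj (a_i ζ')`, the sum over the axes which are not in `{l = 0}`.
-/

set_option autoImplicit false

open Topology Filter Metric MeasureTheory

noncomputable section

namespace Pool.Agent.MQ

open Pool.Agent.H36.BP (EN fs)
open Pool.Agent.H30M (tau tau_nonneg)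
open AxisA

/-- one axis which is not in `{l = 0}` -/
theorem ax_piece : ∃ c₁ : ℝ, 0 < c₁ ∧ ∀ {M : ℕ} {F : ℂ → EN M} (_ : Differentiable ℂ F) (_ : ∀ z, F z ≠ 0) {Qf : ℂ → ℂ} (_ : Differentiable ℂ Qf) {d : ℕ}
    (_ : ∀ z, ‖Qf z‖ ≤ ‖F z‖ ^ d) {U : Set ℂ} {x y a b : ℂ → ℂ} {K ρ : ℝ} (_ : 0 ≤ K) (_ : Axis0 U x y a b K ρ)
    {n : ℕ} (_ : 1 ≤ n) {r₀ η s b₀ : ℝ} (_ : 0 < η) (_ : 2 * η ≤ r₀) (_ : r₀ < s) (_ : s < ρ)
    (_ : ∀ z ∈ U, ‖x z‖ ≤ η → r₀ / 2 ≤ ‖y z‖ → ‖y z‖ ≤ r₀ → Qf z ≠ 0 ∧ b₀ ≤ lu F Qf d z ∧ lu F Qf d z ≤ b₀ + 2 * n ∧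
      (n / 2) * ‖b z‖ ≤ ‖gr (lu F Qf d) z‖),
    ∃ (C : ℝ) (H : ℂ → ℂ) (err : ℂ → ℝ), 0 ≤ C ∧ (∀ z ∈ U, ContDiffAt ℝ 1 H z) ∧ Continuous err ∧
      (∀ z ∈ U, s ≤ ‖x z‖ ∨ s ≤ ‖y z‖ → H z = (starRingEnd ℂ) (a z) ∧ err z = 0) ∧
      (∀ z ∈ U, ‖H z‖ ≤ C * max ‖deriv x z‖ ‖deriv y z‖) ∧ (∀ z, 0 ≤ err z) ∧ (∀ z ∈ U, 0 ≤ dv H z + err z) ∧
      ∀ R, 1 ≤ R → ∫ z, tau R z * err z ≤ c₁ * K * (d / n) * En F R + C := by
  obtain ⟨M, hM0, hM⟩ := st_deriv_bdd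
  refine ⟨96 * M, by positivity, ?_⟩
  intro N F hF h0 Qf hQ d hQF U x y a b K ρ hK h n hn r₀ η s b₀ hη0 h2η hr hs hreg
  have hη : η ≤ r₀ := by linarith
  have hr0 : 0 < r₀ := by linarith
  have hrρ : r₀ < ρ := hr.trans hs
  obtain ⟨C₁, hC₁⟩ := ax_int hM0 hM hF h0 hQ hQF hK h hn hη0 hη hrρ hreg
  refine ⟨max C₁ (max (2 / η) (2 * K / r₀)), fun w => ((1 - chi U x y η r₀ w : ℝ) : ℂ) * (starRingEnd ℂ) (a w),
    fun z => max 0 (ip (gr (chi U x y η r₀) z) ((starRingEnd ℂ) (a z))), ?_, fun z hz => (ax_field h hη0 hη hrρ hz).1,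
    continuous_const.max (continuous_ip_chi h hη0 hη hrρ), ?_, ?_, fun z => le_max_left _ _, ?_, ?_⟩
  · exact le_max_of_le_right (le_max_of_le_left (by positivity))
  · intro z hz hsz
    have hT : z ∉ TT U x y η r₀ := by
      rintro ⟨-, h1, h2⟩
      rcases hsz with h3 | h3 <;> linarith
    have h1 : chi U x y η r₀ z = 0 := by
      by_contra h2
      exact hT (mem_TT_of_ne hη0 hr0 h2)
    refine ⟨?_, ?_⟩
    · simp only [h1, sub_zero, Complex.ofReal_one, one_mul]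
    · simp only [gr_chi_zero h hη0 hη hrρ hT, ip_zero_left, max_self]
  · intro z hz
    have hc0 : 0 ≤ 1 - chi U x y η r₀ z := sub_nonneg.2 (chi_le_one _ _ z)
    have hc1 : 1 - chi U x y η r₀ z ≤ 1 := sub_le_self _ (chi_nonneg _ _ z)
    have hH : ‖((1 - chi U x y η r₀ z : ℝ) : ℂ) * (starRingEnd ℂ) (a z)‖ = (1 - chi U x y η r₀ z) * ‖a z‖ := by
      rw [norm_mul, Complex.norm_real, Real.norm_of_nonneg hc0, RCLike.norm_conj]
    rw [hH]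
    have hm0 : 0 ≤ max ‖deriv x z‖ ‖deriv y z‖ := le_max_of_le_left (norm_nonneg _)
    have hCC1 : 2 / η ≤ max C₁ (max (2 / η) (2 * K / r₀)) := (le_max_left _ _).trans (le_max_right _ _)
    have hCC2 : 2 * K / r₀ ≤ max C₁ (max (2 / η) (2 * K / r₀)) := (le_max_right _ _).trans (le_max_right _ _)
    by_cases hx : η / 2 < ‖x z‖
    · have hx0 : x z ≠ 0 := fun h1 => by
        rw [h1, norm_zero] at hx
        linarith
      have h1 : ‖deriv x z‖ = ‖x z‖ * ‖a z‖ := by rw [h.dx z hz (Or.inl hx0), norm_mul]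
      have h2 : ‖a z‖ ≤ 2 / η * ‖deriv x z‖ := by
        rw [h1, div_mul_eq_mul_div, le_div_iff₀ hη0]
        nlinarith [norm_nonneg (a z)]
      calc (1 - chi U x y η r₀ z) * ‖a z‖ ≤ 1 * ‖a z‖ := mul_le_mul_of_nonneg_right hc1 (norm_nonneg _)
        _ = ‖a z‖ := one_mul _
        _ ≤ 2 / η * ‖deriv x z‖ := h2
        _ ≤ max C₁ (max (2 / η) (2 * K / r₀)) * max ‖deriv x z‖ ‖deriv y z‖ :=
          mul_le_mul hCC1 (le_max_left _ _) (norm_nonneg _) ((by positivity : (0 : ℝ) ≤ 2 / η).trans hCC1)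
    · by_cases hy : r₀ / 2 < ‖y z‖
      · have hy0 : y z ≠ 0 := fun h1 => by
          rw [h1, norm_zero] at hy
          linarith
        have h1 : ‖deriv y z‖ = ‖y z‖ * ‖b z‖ := by rw [h.dy z hz (Or.inr hy0), norm_mul]
        have h2 : ‖b z‖ ≤ 2 / r₀ * ‖deriv y z‖ := by
          rw [h1, div_mul_eq_mul_div, le_div_iff₀ hr0]
          nlinarith [norm_nonneg (b z)]
        have h3 : ‖a z‖ ≤ 2 * K / r₀ * ‖deriv y z‖ := by
          calc ‖a z‖ ≤ K * ‖b z‖ := h.ab z hz (Or.inr hy0)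
            _ ≤ K * (2 / r₀ * ‖deriv y z‖) := mul_le_mul_of_nonneg_left h2 hK
            _ = _ := by ring
        calc (1 - chi U x y η r₀ z) * ‖a z‖ ≤ 1 * ‖a z‖ := mul_le_mul_of_nonneg_right hc1 (norm_nonneg _)
          _ = ‖a z‖ := one_mul _
          _ ≤ 2 * K / r₀ * ‖deriv y z‖ := h3
          _ ≤ max C₁ (max (2 / η) (2 * K / r₀)) * max ‖deriv x z‖ ‖deriv y z‖ :=
            mul_le_mul hCC2 (le_max_right _ _) (norm_nonneg _) ((by positivity : (0 : ℝ) ≤ 2 * K / r₀).trans hCC2)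
      · have h1 : chi U x y η r₀ z = 1 := by
          rw [chi_of_mem hz, ct_of_le hη0 (not_lt.1 hx), ct_of_le hr0 (not_lt.1 hy), one_mul]
        rw [h1, sub_self, zero_mul]
        exact mul_nonneg ((by positivity : (0 : ℝ) ≤ 2 / η).trans hCC1) hm0
  · intro z hz
    rw [(ax_field h hη0 hη hrρ hz).2]
    have := le_max_right 0 (ip (gr (chi U x y η r₀) z) ((starRingEnd ℂ) (a z)))
    linarith
  · intro R hR
    exact (hC₁ R hR).trans (by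
      have := le_max_left C₁ (max (2 / η) (2 * K / r₀))
      linarith)

/-! ### the node -/

section

variable {v : ℂ × ℂ → ℂ × ℂ} {r : ℝ} {Om : Set ℂ} {g : ℂ → ℂ × ℂ} {a b : ℂ × ℂ → ℂ}

theorem exists_bound {r : ℝ} {f : ℂ × ℂ → ℂ} (hf : ContinuousOn f (closedBall 0 r)) : ∃ C : ℝ, 0 < C ∧ ∀ p ∈ closedBall (0 : ℂ × ℂ) r, ‖f p‖ ≤ C := by
  obtain ⟨C, hC⟩ := (isCompact_closedBall (0 : ℂ × ℂ) r).exists_bound_of_continuousOn hf
  exact ⟨max C 1, lt_of_lt_of_le one_pos (le_max_right _ _), fun p hp => (hC p hp).trans (le_max_left _ _)⟩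

/-- near a point the derivative of `p ↦ p.1 * a p` -/
theorem fderiv_fst_mul {p : ℂ × ℂ} (ha : AnalyticAt ℂ a p) : fderiv ℂ (fun p : ℂ × ℂ => p.1 * a p) p (1, 0) = a p + p.1 * fderiv ℂ a p (1, 0) := by
  have h := (hasFDerivAt_fst (𝕜 := ℂ) (E := ℂ) (F := ℂ) (p := p)).mul ha.differentiableAt.hasFDerivAt
  rw [show (fun p : ℂ × ℂ => p.1 * a p) = (fun p : ℂ × ℂ => p.1) * a from rfl, h.fderiv]
  simp
  ring

theorem fderiv_snd_mul {p : ℂ × ℂ} (hb : AnalyticAt ℂ b p) : fderiv ℂ (fun p : ℂ × ℂ => p.2 * b p) p (0, 1) = b p + p.2 * fderiv ℂ b p (0, 1) := by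
  have h := (hasFDerivAt_snd (𝕜 := ℂ) (E := ℂ) (F := ℂ) (p := p)).mul hb.differentiableAt.hasFDerivAt
  rw [show (fun p : ℂ × ℂ => p.2 * b p) = (fun p : ℂ × ℂ => p.2) * b from rfl, h.fderiv]
  simp
  ring

theorem dvg_node (hv : ∀ p, v p = (p.1 * a p, p.2 * b p)) {p : ℂ × ℂ} (ha : AnalyticAt ℂ a p) (hb : AnalyticAt ℂ b p) :
    dvg v p = a p + b p + (p.1 * fderiv ℂ a p (1, 0) + p.2 * fderiv ℂ b p (0, 1)) := by
  have e : v = fun p => (p.1 * a p, p.2 * b p) := funext hv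
  have h1 : DifferentiableAt ℂ (fun p : ℂ × ℂ => p.1 * a p) p := differentiableAt_fst.mul ha.differentiableAt
  have h2 : DifferentiableAt ℂ (fun p : ℂ × ℂ => p.2 * b p) p := differentiableAt_snd.mul hb.differentiableAt
  unfold dvg
  rw [e, (h1.hasFDerivAt.prodMk h2.hasFDerivAt).fderiv]
  simp only [ContinuousLinearMap.prod_apply]
  rw [fderiv_fst_mul ha, fderiv_snd_mul hb]
  ring

/-- the part of the field which is bounded everywhere -/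
def G0 (a b : ℂ × ℂ → ℂ) (g : ℂ → ℂ × ℂ) (z : ℂ) : ℂ :=
  fderiv ℂ a (g z) (1, 0) * (deriv g z).1 / a (g z) + fderiv ℂ b (g z) (0, 1) * (deriv g z).2 / b (g z)

theorem an_G0 {z : ℂ} (ha : AnalyticAt ℂ a (g z)) (hb : AnalyticAt ℂ b (g z)) (ha0 : a (g z) ≠ 0) (hb0 : b (g z) ≠ 0) (hg : AnalyticAt ℂ g z) :
    AnalyticAt ℂ (G0 a b g) z := by
  have h1 : AnalyticAt ℂ (fun w => fderiv ℂ a (g w) (1, 0)) z :=
    ((ContinuousLinearMap.apply ℂ ℂ ((1, 0) : ℂ × ℂ)).analyticAt _).comp (ha.fderiv.comp hg)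
  have h2 : AnalyticAt ℂ (fun w => fderiv ℂ b (g w) (0, 1)) z :=
    ((ContinuousLinearMap.apply ℂ ℂ ((0, 1) : ℂ × ℂ)).analyticAt _).comp (hb.fderiv.comp hg)
  exact ((h1.mul (an_fst hg.deriv)).div (ha.comp hg) ha0).add ((h2.mul (an_snd hg.deriv)).div (hb.comp hg) hb0)

/-- the data of a node along a curve -/
structure NodeC (v : ℂ × ℂ → ℂ × ℂ) (r : ℝ) (Om : Set ℂ) (g : ℂ → ℂ × ℂ) (a b : ℂ × ℂ → ℂ) (K : ℝ) : Prop where
  crv : Crv1 v r Om g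
  ha : AnalyticOnNhd ℂ a (closedBall 0 r)
  hb : AnalyticOnNhd ℂ b (closedBall 0 r)
  ha0 : ∀ p ∈ closedBall (0 : ℂ × ℂ) r, a p ≠ 0
  hb0 : ∀ p ∈ closedBall (0 : ℂ × ℂ) r, b p ≠ 0
  hv : ∀ p, v p = (p.1 * a p, p.2 * b p)
  hab : ∀ p ∈ closedBall (0 : ℂ × ℂ) r, ‖a p‖ ≤ K * ‖b p‖
  hba : ∀ p ∈ closedBall (0 : ℂ × ℂ) r, ‖b p‖ ≤ K * ‖a p‖

namespace NodeC

variable {K : ℝ}

theorem memc (h : NodeC v r Om g a b K) {z : ℂ} (hz : z ∈ Om) : g z ∈ closedBall (0 : ℂ × ℂ) r := ball_subset_closedBall (h.crv.mem z hz)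

theorem v_ne (h : NodeC v r Om g a b K) {z : ℂ} (hz : z ∈ Om) (hp : (g z).1 ≠ 0 ∨ (g z).2 ≠ 0) : v (g z) ≠ 0 := by
  rw [h.hv]
  intro h1
  rw [Prod.mk_eq_zero] at h1
  rcases hp with hp | hp
  · exact (mul_ne_zero hp (h.ha0 _ (h.memc hz))) h1.1
  · exact (mul_ne_zero hp (h.hb0 _ (h.memc hz))) h1.2

theorem v_an (h : NodeC v r Om g a b K) {z : ℂ} (hz : z ∈ Om) : AnalyticAt ℂ v (g z) := by
  have e : v = fun p => (p.1 * a p, p.2 * b p) := funext h.hv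
  rw [e]
  exact (analyticAt_fst.mul (h.ha _ (h.memc hz))).prod (analyticAt_snd.mul (h.hb _ (h.memc hz)))

theorem an_zt (h : NodeC v r Om g a b K) {z : ℂ} (hz : z ∈ Om) (hp : (g z).1 ≠ 0 ∨ (g z).2 ≠ 0) : AnalyticAt ℂ (ztv v g) z :=
  h.crv.an_ztv hz (h.v_an hz) (h.v_ne hz hp)

theorem an_al (h : NodeC v r Om g a b K) {z : ℂ} (hz : z ∈ Om) (hp : (g z).1 ≠ 0 ∨ (g z).2 ≠ 0) : AnalyticAt ℂ (fun w => a (g w) * ztv v g w) z :=
  ((h.ha _ (h.memc hz)).comp (h.crv.an z hz)).mul (h.an_zt hz hp)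

theorem an_be (h : NodeC v r Om g a b K) {z : ℂ} (hz : z ∈ Om) (hp : (g z).1 ≠ 0 ∨ (g z).2 ≠ 0) : AnalyticAt ℂ (fun w => b (g w) * ztv v g w) z :=
  ((h.hb _ (h.memc hz)).comp (h.crv.an z hz)).mul (h.an_zt hz hp)

theorem dfst (h : NodeC v r Om g a b K) {z : ℂ} (hz : z ∈ Om) (hp : (g z).1 ≠ 0 ∨ (g z).2 ≠ 0) : (deriv g z).1 = (g z).1 * (a (g z) * ztv v g z) := by
  rw [h.crv.deriv_fst hz (h.v_ne hz hp), h.hv]
  ring

theorem dsnd (h : NodeC v r Om g a b K) {z : ℂ} (hz : z ∈ Om) (hp : (g z).1 ≠ 0 ∨ (g z).2 ≠ 0) : (deriv g z).2 = (g z).2 * (b (g z) * ztv v g z) := by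
  rw [h.crv.deriv_snd hz (h.v_ne hz hp), h.hv]
  ring

/-- the axis `{x = 0}` -/
theorem ax₁ (h : NodeC v r Om g a b K) :
    Axis0 Om (fun z => (g z).1) (fun z => (g z).2) (fun z => a (g z) * ztv v g z) (fun z => b (g z) * ztv v g z) K r where
  isOpen := h.crv.isOpen
  hx := fun z hz => an_fst (h.crv.an z hz)
  hy := fun z hz => an_snd (h.crv.an z hz)
  ha := fun z hz hp => h.an_al hz hp
  hb := fun z hz hp => h.an_be hz hp
  dx := fun z hz hp => by rw [deriv_fst' (h.crv.an z hz).differentiableAt, h.dfst hz hp]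
  dy := fun z hz hp => by rw [deriv_snd' (h.crv.an z hz).differentiableAt, h.dsnd hz hp]
  ab := fun z hz _ => by
    rw [norm_mul, norm_mul, ← mul_assoc]
    exact mul_le_mul_of_nonneg_right (h.hab _ (h.memc hz)) (norm_nonneg _)
  closed := fun s hs => by
    have h1 := h.crv.closed s hs
    convert h1 using 1
    ext z
    simp only [Set.mem_setOf_eq, mem_closedBall, dist_zero_right, Prod.norm_def, max_le_iff]

/-- the axis `{y = 0}` -/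
theorem ax₂ (h : NodeC v r Om g a b K) :
    Axis0 Om (fun z => (g z).2) (fun z => (g z).1) (fun z => b (g z) * ztv v g z) (fun z => a (g z) * ztv v g z) K r where
  isOpen := h.crv.isOpen
  hx := fun z hz => an_snd (h.crv.an z hz)
  hy := fun z hz => an_fst (h.crv.an z hz)
  ha := fun z hz hp => h.an_be hz hp.symm
  hb := fun z hz hp => h.an_al hz hp.symm
  dx := fun z hz hp => by rw [deriv_snd' (h.crv.an z hz).differentiableAt, h.dsnd hz hp.symm]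
  dy := fun z hz hp => by rw [deriv_fst' (h.crv.an z hz).differentiableAt, h.dfst hz hp.symm]
  ab := fun z hz _ => by
    rw [norm_mul, norm_mul, ← mul_assoc]
    exact mul_le_mul_of_nonneg_right (h.hba _ (h.memc hz)) (norm_nonneg _)
  closed := fun s hs => by
    have h1 := h.crv.closed s hs
    convert h1 using 1
    ext z
    simp only [Set.mem_setOf_eq, mem_closedBall, dist_zero_right, Prod.norm_def, max_le_iff]
    tauto

/-- `D` without the part of the equation `l` -/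
theorem dvg_zt (h : NodeC v r Om g a b K) {z : ℂ} (hz : z ∈ Om) (hp : (g z).1 ≠ 0 ∨ (g z).2 ≠ 0) :
    dvg v (g z) * ztv v g z = G0 a b g z + (a (g z) * ztv v g z + b (g z) * ztv v g z) := by
  have ha := h.ha0 _ (h.memc hz)
  have hb := h.hb0 _ (h.memc hz)
  rw [dvg_node h.hv (h.ha _ (h.memc hz)) (h.hb _ (h.memc hz))]
  unfold G0
  rw [h.dfst hz hp, h.dsnd hz hp]
  field_simp
  ring

end NodeC

end

/-- the result of the construction at one axis: `κ = 1` if the axis is not in `{l = 0}`, otherwise `κ = 0` and the field is `0` -/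
def Piece (Om : Set ℂ) (g : ℂ → ℂ × ℂ) (α : ℂ → ℂ) (κ : ℂ) (I : ℝ → ℝ) (s δ : ℝ) : Prop :=
  ∃ (C : ℝ) (H : ℂ → ℂ) (err : ℂ → ℝ), 0 ≤ C ∧ (∀ z ∈ Om, ContDiffAt ℝ 1 H z) ∧ Continuous err ∧
      (∀ z ∈ Om, g z ∉ ball (0 : ℂ × ℂ) s → H z = (starRingEnd ℂ) (κ * α z) ∧ err z = 0) ∧
      (∀ z ∈ Om, ‖H z‖ ≤ C * ‖deriv g z‖) ∧ (∀ z, 0 ≤ err z) ∧ (∀ z ∈ Om, 0 ≤ dv H z + err z) ∧
      ∀ R, 1 ≤ R → ∫ z, tau R z * err z ≤ δ * I R + C

theorem piece_zero {Om : Set ℂ} {g : ℂ → ℂ × ℂ} {α : ℂ → ℂ} {I : ℝ → ℝ} {s δ : ℝ} (hI : ∀ R, 1 ≤ R → 0 ≤ δ * I R) : Piece Om g α 0 I s δ := by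
  refine ⟨0, fun _ => 0, fun _ => 0, le_rfl, fun z _ => contDiffAt_const, continuous_const, fun z _ _ => ⟨by simp, rfl⟩, fun z _ => by simp,
    fun z => le_rfl, fun z _ => by simp, fun R hR => ?_⟩
  simp only [mul_zero, integral_zero, add_zero]
  exact hI R hR

/-- the local package from the pieces of the two axes -/
theorem localN1_of_pieces {v : ℂ × ℂ → ℂ × ℂ} {l : ℂ × ℂ → ℂ} {r : ℝ} {Om : Set ℂ} {g : ℂ → ℂ × ℂ} {G α β : ℂ → ℂ} {κ₁ κ₂ : ℂ} {I Λ : ℝ → ℝ}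
    {s δ₁ δ₂ C₀ : ℝ} (hOm : IsOpen Om) (hG : ∀ z ∈ Om, AnalyticAt ℂ G z) (hGb : ∀ z ∈ Om, ‖G z‖ ≤ C₀ * ‖deriv g z‖)
    (hD : ∀ z ∈ Om, g z ∉ ball (0 : ℂ × ℂ) s → DDv v l g z = G z + (κ₁ * α z + κ₂ * β z)) (hΛ : ∀ R, 1 ≤ R → 0 ≤ Λ R)
    (h₁ : Piece Om g α κ₁ I s δ₁) (h₂ : Piece Om g β κ₂ I s δ₂) : LocalN1 v l Om g I Λ s (δ₁ + δ₂) := by
  obtain ⟨C₁, H₁, e₁, hC₁, a₁, b₁, c₁, d₁, f₁, g₁, i₁⟩ := h₁
  obtain ⟨C₂, H₂, e₂, hC₂, a₂, b₂, c₂, d₂, f₂, g₂, i₂⟩ := h₂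
  refine ⟨max C₀ 0 + C₁ + C₂, fun z => (starRingEnd ℂ) (G z) + (H₁ z + H₂ z), fun z => e₁ z + e₂ z, by positivity, ?_, (b₁.add b₂).continuousOn, ?_, ?_,
    fun z _ => add_nonneg (f₁ z) (f₂ z), ?_, ?_⟩
  · intro z hz
    exact ((contDiffAt_conj_holo (hG z hz)).add ((a₁ z hz).add (a₂ z hz))).contDiffWithinAt
  · intro z hz hs
    refine ⟨?_, ?_⟩
    · simp only [(c₁ z hz hs).1, (c₂ z hz hs).1, hD z hz hs, map_add]
    · simp only [(c₁ z hz hs).2, (c₂ z hz hs).2, add_zero]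
  · intro z hz _
    have h1 := d₁ z hz
    have h2 := d₂ z hz
    have h3 := hGb z hz
    have h4 : C₀ * ‖deriv g z‖ ≤ max C₀ 0 * ‖deriv g z‖ := mul_le_mul_of_nonneg_right (le_max_left _ _) (norm_nonneg _)
    calc ‖(starRingEnd ℂ) (G z) + (H₁ z + H₂ z)‖ ≤ ‖G z‖ + (‖H₁ z‖ + ‖H₂ z‖) := by
          refine (norm_add_le _ _).trans ?_
          rw [RCLike.norm_conj]
          exact add_le_add_right (norm_add_le _ _) _
      _ ≤ (max C₀ 0 + C₁ + C₂) * ‖deriv g z‖ := by nlinarith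
  · intro z hz
    have k0 := (contDiffAt_conj_holo (n := 1) (hG z hz)).differentiableAt (by norm_num)
    have k1 := (a₁ z hz).differentiableAt (by norm_num)
    have k2 := (a₂ z hz).differentiableAt (by norm_num)
    have k3 : dv (fun z => (starRingEnd ℂ) (G z) + (H₁ z + H₂ z)) z = dv H₁ z + dv H₂ z := by
      rw [dv_add (V := fun z => (starRingEnd ℂ) (G z)) (W := fun z => H₁ z + H₂ z) k0 (k1.fun_add k2), dv_add k1 k2,
        dv_conj (hG z hz).differentiableAt, zero_add]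
    show 0 ≤ dv (fun z => (starRingEnd ℂ) (G z) + (H₁ z + H₂ z)) z + (e₁ z + e₂ z)
    rw [k3]
    have h1 := g₁ z hz
    have h2 := g₂ z hz
    linarith
  · intro R hR
    have j₁ : Integrable fun z => tau R z * e₁ z := Pool.Agent.H30M.integrable_tau_mul hR b₁
    have j₂ : Integrable fun z => tau R z * e₂ z := Pool.Agent.H30M.integrable_tau_mul hR b₂
    have h1 : ∫ z in Om, tau R z * (e₁ z + e₂ z) ≤ ∫ z, tau R z * (e₁ z + e₂ z) := by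
      refine setIntegral_le_integral ?_ (Eventually.of_forall fun z => mul_nonneg (tau_nonneg hR z) (add_nonneg (f₁ z) (f₂ z)))
      exact (j₁.add j₂).congr (Eventually.of_forall fun z => by simp only [Pi.add_apply, mul_add])
    have h2 : ∫ z, tau R z * (e₁ z + e₂ z) = (∫ z, tau R z * e₁ z) + ∫ z, tau R z * e₂ z := by
      rw [← integral_add j₁ j₂]
      simp only [mul_add]
    have h3 := i₁ R hR
    have h4 := i₂ R hR
    have h5 : 0 ≤ (max C₀ 0 + C₁ + C₂) * Λ R := mul_nonneg (by positivity) (hΛ R hR)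
    have h6 : (0 : ℝ) ≤ max C₀ 0 := le_max_right _ _
    nlinarith

/-- the form `Q` in the shell `r₀ / 2 ≤ |y| ≤ r₀` near the axis `{x = 0}` -/
def ShellAt {M : ℕ} (U : Set ℂ) (x y b : ℂ → ℂ) (F : ℂ → EN M) (Qf : ℂ → ℂ) (d n : ℕ) (s : ℝ) : Prop :=
  ∃ r₀ η b₀ : ℝ, 0 < η ∧ 2 * η ≤ r₀ ∧ r₀ < s ∧ ∀ z ∈ U, ‖x z‖ ≤ η → r₀ / 2 ≤ ‖y z‖ → ‖y z‖ ≤ r₀ → Qf z ≠ 0 ∧ b₀ ≤ lu F Qf d z ∧
    lu F Qf d z ≤ b₀ + 2 * n ∧ (n / 2) * ‖b z‖ ≤ ‖gr (lu F Qf d) z‖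

theorem Piece.mono {Om : Set ℂ} {g : ℂ → ℂ × ℂ} {α : ℂ → ℂ} {κ : ℂ} {I : ℝ → ℝ} {s δ δ' : ℝ} (h : Piece Om g α κ I s δ) (hI : ∀ R, 1 ≤ R → 0 ≤ I R)
    (hδ : δ ≤ δ') : Piece Om g α κ I s δ' := by
  obtain ⟨C, H, e, h1, h2, h3, h4, h5, h6, h7, h8⟩ := h
  exact ⟨C, H, e, h1, h2, h3, h4, h5, h6, h7, fun R hR => (h8 R hR).trans (by
    have := mul_le_mul_of_nonneg_right hδ (hI R hR)
    linarith)⟩

/-- the logarithmic derivative of the equation of the axes -/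
theorem logDeriv_l {Om : Set ℂ} {g : ℂ → ℂ × ℂ} {l l₁ l₂ : ℂ × ℂ → ℂ} {α β κ₁ κ₂ : ℂ} {z : ℂ} (hg : DifferentiableAt ℂ g z)
    (hx : (deriv g z).1 = (g z).1 * α) (hy : (deriv g z).2 = (g z).2 * β) (hl : ∀ p, l p = l₁ p * l₂ p)
    (h₁ : (∀ p, l₁ p = p.1) ∧ κ₁ = 0 ∨ (∀ p, l₁ p = 1) ∧ κ₁ = 1) (h₂ : (∀ p, l₂ p = p.2) ∧ κ₂ = 0 ∨ (∀ p, l₂ p = 1) ∧ κ₂ = 1) (hlz : l (g z) ≠ 0) :
    deriv (fun w => l (g w)) z / l (g z) = (1 - κ₁) * α + (1 - κ₂) * β := by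
  have d₁ : HasDerivAt (fun w => l₁ (g w)) ((1 - κ₁) * α * l₁ (g z)) z := by
    rcases h₁ with ⟨h, k⟩ | ⟨h, k⟩
    · have e : (fun w => l₁ (g w)) = fun w => (g w).1 := funext fun w => h (g w)
      rw [e, h, k]
      have h3 := (ContinuousLinearMap.fst ℂ ℂ ℂ).hasFDerivAt.comp_hasDerivAt z hg.hasDerivAt
      have h4 : (ContinuousLinearMap.fst ℂ ℂ ℂ) (deriv g z) = (1 - 0) * α * (g z).1 := by
        rw [ContinuousLinearMap.coe_fst', hx]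
        ring
      rw [h4] at h3
      exact h3
    · have e : (fun w => l₁ (g w)) = fun w => 1 := funext fun w => h (g w)
      rw [e, k, sub_self, zero_mul, zero_mul]
      exact hasDerivAt_const z 1
  have d₂ : HasDerivAt (fun w => l₂ (g w)) ((1 - κ₂) * β * l₂ (g z)) z := by
    rcases h₂ with ⟨h, k⟩ | ⟨h, k⟩
    · have e : (fun w => l₂ (g w)) = fun w => (g w).2 := funext fun w => h (g w)
      rw [e, h, k]
      have h3 := (ContinuousLinearMap.snd ℂ ℂ ℂ).hasFDerivAt.comp_hasDerivAt z hg.hasDerivAt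
      have h4 : (ContinuousLinearMap.snd ℂ ℂ ℂ) (deriv g z) = (1 - 0) * β * (g z).2 := by
        rw [ContinuousLinearMap.coe_snd', hy]
        ring
      rw [h4] at h3
      exact h3
    · have e : (fun w => l₂ (g w)) = fun w => 1 := funext fun w => h (g w)
      rw [e, k, sub_self, zero_mul, zero_mul]
      exact hasDerivAt_const z 1
  have e : (fun w => l (g w)) = fun w => l₁ (g w) * l₂ (g w) := funext fun w => hl (g w)
  rw [hl] at hlz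
  rw [e, (d₁.fun_mul d₂).deriv, hl, div_eq_iff hlz]
  ring

/-- **The normal bundle half of the local package at a node.** -/
theorem localN1_node : ∃ c₁ : ℝ, 0 < c₁ ∧ ∀ {v : ℂ × ℂ → ℂ × ℂ} {r : ℝ} {Om : Set ℂ} {g : ℂ → ℂ × ℂ} {a b : ℂ × ℂ → ℂ} {K : ℝ} (_ : NodeC v r Om g a b K)
    (_ : 0 ≤ K) {M : ℕ} {F : ℂ → EN M} (_ : Differentiable ℂ F) (_ : ∀ z, F z ≠ 0) {Qf : ℂ → ℂ} (_ : Differentiable ℂ Qf) {d n : ℕ} (_ : 1 ≤ n)
    (_ : ∀ z, ‖Qf z‖ ≤ ‖F z‖ ^ d) {l l₁ l₂ : ℂ × ℂ → ℂ} (_ : ∀ p, l p = l₁ p * l₂ p) {s : ℝ} (_ : 0 < s) (_ : s < r)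
    (_ : (∀ p, l₁ p = p.1) ∨ (∀ p, l₁ p = 1) ∧ ∃ n₁, n ≤ n₁ ∧ ShellAt Om (fun z => (g z).1) (fun z => (g z).2) (fun z => b (g z) * ztv v g z) F Qf d n₁ s)
    (_ : (∀ p, l₂ p = p.2) ∨ (∀ p, l₂ p = 1) ∧ ∃ n₂, n ≤ n₂ ∧ ShellAt Om (fun z => (g z).2) (fun z => (g z).1) (fun z => a (g z) * ztv v g z) F Qf d n₂ s)
    (_ : ∀ z ∈ Om, g z ≠ 0 → l (g z) ≠ 0) {Λ : ℝ → ℝ} (_ : ∀ R, 1 ≤ R → 0 ≤ Λ R), LocalN1 v l Om g (En F) Λ s (c₁ * K * (d / n)) := by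
  obtain ⟨c₁, hc₁, hax⟩ := ax_piece
  refine ⟨2 * c₁, by positivity, ?_⟩
  intro v r Om g a b K h hK M F hF h0 Qf hQ d n hn hQF l l₁ l₂ hl s hs hsr h₁ h₂ hlz Λ hΛ
  have hE : ∀ R, 1 ≤ R → 0 ≤ En F R := fun R hR => En_nonneg F hR
  have hn0 : (0 : ℝ) < n := by exact_mod_cast hn
  have hδ0 : 0 ≤ c₁ * K * (d / n) := by positivity
  have hδle : ∀ n' : ℕ, n ≤ n' → c₁ * K * (d / n') ≤ c₁ * K * (d / n) := fun n' hn' => by
    refine mul_le_mul_of_nonneg_left ?_ (by positivity)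
    exact div_le_div_of_nonneg_left (Nat.cast_nonneg d) hn0 (by exact_mod_cast hn')
  have hmax : ∀ z ∈ Om, max ‖deriv (fun z => (g z).1) z‖ ‖deriv (fun z => (g z).2) z‖ = ‖deriv g z‖ := fun z hz => by
    rw [deriv_fst' (h.crv.an z hz).differentiableAt, deriv_snd' (h.crv.an z hz).differentiableAt, Prod.norm_def]
  have hball : ∀ z, g z ∉ ball (0 : ℂ × ℂ) s → s ≤ ‖(g z).1‖ ∨ s ≤ ‖(g z).2‖ := fun z hz => by
    rw [mem_ball, dist_zero_right, not_lt, Prod.norm_def, le_max_iff] at hz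
    exact hz
  -- the two pieces
  have p₁ : ∃ κ₁ : ℂ, ((∀ p, l₁ p = p.1) ∧ κ₁ = 0 ∨ (∀ p, l₁ p = 1) ∧ κ₁ = 1) ∧
      Piece Om g (fun z => a (g z) * ztv v g z) κ₁ (En F) s (c₁ * K * (d / n)) := by
    rcases h₁ with h₁ | ⟨h₁, n₁, hn₁, r₀, η, b₀, k1, k2, k3, k4⟩
    · exact ⟨0, Or.inl ⟨h₁, rfl⟩, piece_zero fun R hR => mul_nonneg hδ0 (hE R hR)⟩
    · refine ⟨1, Or.inr ⟨h₁, rfl⟩, Piece.mono ?_ hE (hδle n₁ hn₁)⟩
      obtain ⟨C, H, e, q1, q2, q3, q4, q5, q6, q7, q8⟩ := hax hF h0 hQ hQF hK h.ax₁ (hn.trans hn₁) k1 k2 k3 hsr k4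
      refine ⟨C, H, e, q1, q2, q3, fun z hz hz2 => ?_, fun z hz => ?_, q6, q7, q8⟩
      · rw [one_mul]
        exact q4 z hz (hball z hz2)
      · rw [← hmax z hz]
        exact q5 z hz
  have p₂ : ∃ κ₂ : ℂ, ((∀ p, l₂ p = p.2) ∧ κ₂ = 0 ∨ (∀ p, l₂ p = 1) ∧ κ₂ = 1) ∧
      Piece Om g (fun z => b (g z) * ztv v g z) κ₂ (En F) s (c₁ * K * (d / n)) := by
    rcases h₂ with h₂ | ⟨h₂, n₂, hn₂, r₀, η, b₀, k1, k2, k3, k4⟩
    · exact ⟨0, Or.inl ⟨h₂, rfl⟩, piece_zero fun R hR => mul_nonneg hδ0 (hE R hR)⟩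
    · refine ⟨1, Or.inr ⟨h₂, rfl⟩, Piece.mono ?_ hE (hδle n₂ hn₂)⟩
      obtain ⟨C, H, e, q1, q2, q3, q4, q5, q6, q7, q8⟩ := hax hF h0 hQ hQF hK h.ax₂ (hn.trans hn₂) k1 k2 k3 hsr k4
      refine ⟨C, H, e, q1, q2, q3, fun z hz hz2 => ?_, fun z hz => ?_, q6, q7, q8⟩
      · rw [one_mul]
        exact q4 z hz (hball z hz2).symm
      · rw [← hmax z hz, max_comm]
        exact q5 z hz
  obtain ⟨κ₁, hκ₁, P₁⟩ := p₁
  obtain ⟨κ₂, hκ₂, P₂⟩ := p₂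
  -- the bounded part
  have hr : 0 < r := hs.trans hsr
  obtain ⟨A, hA0, hA⟩ := exists_bound (r := r) (f := fun p => fderiv ℂ a p (1, 0) / a p)
    (ContinuousOn.div (fun p hp => (((ContinuousLinearMap.apply ℂ ℂ ((1, 0) : ℂ × ℂ)).analyticAt _).comp (h.ha p hp).fderiv).continuousAt.continuousWithinAt)
      (fun p hp => (h.ha p hp).continuousAt.continuousWithinAt) h.ha0)
  obtain ⟨B, hB0, hB⟩ := exists_bound (r := r) (f := fun p => fderiv ℂ b p (0, 1) / b p)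
    (ContinuousOn.div (fun p hp => (((ContinuousLinearMap.apply ℂ ℂ ((0, 1) : ℂ × ℂ)).analyticAt _).comp (h.hb p hp).fderiv).continuousAt.continuousWithinAt)
      (fun p hp => (h.hb p hp).continuousAt.continuousWithinAt) h.hb0)
  have hG : ∀ z ∈ Om, ‖G0 a b g z‖ ≤ (A + B) * ‖deriv g z‖ := fun z hz => by
    have e : G0 a b g z = fderiv ℂ a (g z) (1, 0) / a (g z) * (deriv g z).1 + fderiv ℂ b (g z) (0, 1) / b (g z) * (deriv g z).2 := by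
      unfold G0
      ring
    have m1 : ‖(deriv g z).1‖ ≤ ‖deriv g z‖ := norm_fst_le _
    have m2 : ‖(deriv g z).2‖ ≤ ‖deriv g z‖ := norm_snd_le _
    rw [e, add_mul]
    refine (norm_add_le _ _).trans (add_le_add ?_ ?_)
    · rw [norm_mul]
      exact mul_le_mul (hA _ (h.memc hz)) m1 (norm_nonneg _) hA0.le
    · rw [norm_mul]
      exact mul_le_mul (hB _ (h.memc hz)) m2 (norm_nonneg _) hB0.le
  have key := localN1_of_pieces (v := v) (l := l) (r := r) (Λ := Λ) h.crv.isOpen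
    (fun z hz => an_G0 (h.ha _ (h.memc hz)) (h.hb _ (h.memc hz)) (h.ha0 _ (h.memc hz)) (h.hb0 _ (h.memc hz)) (h.crv.an z hz)) hG ?_ hΛ P₁ P₂
  · have e : 2 * c₁ * K * (d / n : ℝ) = c₁ * K * (d / n) + c₁ * K * (d / n) := by ring
    rw [e]
    exact key
  · intro z hz hzs
    have hg0 : g z ≠ 0 := fun h1 => hzs (by rw [h1]; exact mem_ball_self hs)
    have hp : (g z).1 ≠ 0 ∨ (g z).2 ≠ 0 := by
      by_contra h1
      push Not at h1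
      exact hg0 (Prod.ext h1.1 h1.2)
    unfold DDv
    rw [h.dvg_zt hz hp, logDeriv_l (Om := Om) (h.crv.an z hz).differentiableAt (h.dfst hz hp) (h.dsnd hz hp) hl hκ₁ hκ₂ (hlz z hz hg0)]
    ring

end Pool.Agent.MQ
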