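import Pool.Agent.MQ.GeoDefs
import Pool.Agent.AD.T.NCDefs

/-!
# MQ LStub: the local packages at the singular points, the final inequality, the curve, the main theorem of the analysis
(statements of the modules; never import this file in a hand-in)
-/

set_option autoImplicit false

open Topology Filter Metric MvPolynomial Asymptotics MeasureTheory Laplacian

noncomputable section

namespace Pool.Agent.MQ.Stub

open Pool.Agent.H36.BP (EN fs)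
open Pool.Agent.H17BP (IsChart IsForm Surface)
open Pool.Agent.H17 (PN VanishesAt HolomorphicInto)
open Pool.Agent.H17EF (projVar coneE)
open Pool.Agent.H13.OT (OrderTwo)
open Pool.Agent.H62.FC (Homog)
open Pool.Agent.H17LG.Variety (FunField)
open Pool.Agent.H30M (tau avg rhoR LogSing)

variable {M : ℕ} {P : Ideal (MvPolynomial (Fin (M + 1)) ℂ)} {FF : Set (EN M × EN M)}

/-- The statement of the local package at a singular box: there are germs of curves `c n l` such that a form `Q` with contact of order `n` with them gives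
`LocalN` and `LocalT` with the constant `C₀ d / n`.  `R₀` is a form which vanishes on `{g = 0}`. -/
def Package (B : GBox P FF) (g : ℂ × ℂ → ℂ) (R₀ : MvPolynomial (Fin (M + 1)) ℂ) : Prop :=
  ∃ (r K₀ : ℕ) (c : ℕ → Fin r → ℂ → EN M) (C₀ : ℝ), 0 ≤ C₀ ∧ (∀ n l, AnalyticAt ℂ (c n l) 0 ∧ ∀ᶠ t in 𝓝 (0 : ℂ), c n l t ∈ coneE P) ∧
    ∀ (Q : MvPolynomial (Fin (M + 1)) ℂ) (d n K : ℕ), Q.IsHomogeneous d → Q ∉ P → 1 ≤ n → K₀ ≤ K →
      (∀ l, (fun t => eval (c n l t).ofLp Q) =O[𝓝 0] fun t : ℂ => t ^ n) →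
      ∀ F : ℂ → EN M, Crv P FF F → (∃ z, eval (F z).ofLp Q ≠ 0) → (∃ z, eval (F z).ofLp R₀ ≠ 0) → (∀ z ∈ B.Om F, B.cc F z ≠ 0 → g (B.cc F z) ≠ 0) →
        ∀ s, 0 < s → s < B.r → LocalN B g F s (C₀ * d / n) ∧ LocalT B F Q d K n s (C₀ * d / n)

/-- MODULES Node (helper82, helper93, helper52): `K₀ = 1`, germs: the axes which are not in `{g = 0}`. -/
theorem package_node (hP : P.IsPrime) (B : GBox P FF) {g a b g₁ g₂ : ℂ × ℂ → ℂ} (ha : AnalyticOnNhd ℂ a (closedBall 0 B.r)) (hb : AnalyticOnNhd ℂ b (closedBall 0 B.r))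
    (ha0 : ∀ p ∈ closedBall (0 : ℂ × ℂ) B.r, a p ≠ 0) (hb0 : ∀ p ∈ closedBall (0 : ℂ × ℂ) B.r, b p ≠ 0)
    (hq : ∀ k l : ℕ, 1 ≤ k → 1 ≤ l → k * a 0 ≠ l * b 0) (h : ∀ p, B.v p = (p.1 * a p, p.2 * b p)) (hg : ∀ p, g p = g₁ p * g₂ p)
    (h₁ : (∀ p, g₁ p = p.1) ∨ (∀ p, g₁ p = 1) ∧ NonAlg P fun t => B.σ (0, t))
    (h₂ : (∀ p, g₂ p = p.2) ∨ (∀ p, g₂ p = 1) ∧ NonAlg P fun t => B.σ (t, 0)) {R₀ : MvPolynomial (Fin (M + 1)) ℂ} {d₀ : ℕ}
    (hR₀ : R₀.IsHomogeneous d₀) (hgR : ∀ p ∈ ball (0 : ℂ × ℂ) B.r, g p = 0 → eval (B.σ p).ofLp R₀ = 0) : Package B g R₀ := by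
  sorry

/-- MODULES SN1 (helper64, helper90). -/
theorem package_saddleNode (hP : P.IsPrime) (B : GBox P FF) {g a b g₁ : ℂ × ℂ → ℂ} {k : ℕ} (hk : 1 ≤ k) (ha : AnalyticOnNhd ℂ a (closedBall 0 B.r))
    (hb : AnalyticOnNhd ℂ b (closedBall 0 B.r)) (ha0 : ∀ p ∈ closedBall (0 : ℂ × ℂ) B.r, a p ≠ 0)
    (hb0 : ∀ p ∈ closedBall (0 : ℂ × ℂ) B.r, b p ≠ 0) (h : ∀ p, B.v p = (p.1 ^ (k + 1) * a p, p.2 * b p))
    (hg : ∀ p, g p = g₁ p * p.2) (h₁ : (∀ p, g₁ p = p.1) ∨ (∀ p, g₁ p = 1) ∧ NonAlg P fun t => B.σ (0, t)) {R₀ : MvPolynomial (Fin (M + 1)) ℂ} {d₀ : ℕ}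
    (hR₀ : R₀.IsHomogeneous d₀) (hgR : ∀ p ∈ ball (0 : ℂ × ℂ) B.r, g p = 0 → eval (B.σ p).ofLp R₀ = 0) : Package B g R₀ := by
  sorry

/-- MODULES SN2 (helper64, helper90): note 4528. -/
theorem package_formal (hP : P.IsPrime) (B : GBox P FF) {g a b : ℂ × ℂ → ℂ} {k : ℕ} (hk : 1 ≤ k) (ha : AnalyticOnNhd ℂ a (closedBall 0 B.r))
    (hb : AnalyticOnNhd ℂ b (closedBall 0 B.r)) (ha0 : ∀ p ∈ closedBall (0 : ℂ × ℂ) B.r, a p ≠ 0)
    (hb0 : fderiv ℂ b 0 (0, 1) ≠ 0) (h : ∀ p, B.v p = (p.1 ^ (k + 1) * a p, b p)) {c : ℕ → ℂ} (hc : c 0 = 0)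
    (hJ : ∀ J, (fun t => b (t, jet c J t) - deriv (jet c J) t * (t ^ (k + 1) * a (t, jet c J t))) =O[𝓝 0] fun t : ℂ => t ^ (J + 1))
    (hR : ∀ (R : MvPolynomial (Fin (M + 1)) ℂ) (d : ℕ), R.IsHomogeneous d → R ∉ P → ∃ n : ℕ,
      ¬ (fun t => eval (B.σ (t, jet c n t)).ofLp R) =O[𝓝 0] fun t : ℂ => t ^ (n + 1))
    (hg : (∀ p, g p = p.1) ∨ (∀ p, g p = 1) ∧ NonAlg P fun t => B.σ (0, t)) {R₀ : MvPolynomial (Fin (M + 1)) ℂ} {d₀ : ℕ}
    (hR₀ : R₀.IsHomogeneous d₀) (hgR : ∀ p ∈ ball (0 : ℂ × ℂ) B.r, g p = 0 → eval (B.σ p).ofLp R₀ = 0) : Package B g R₀ := by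
  sorry

/-- MODULE CC (helper52): the atlas and the invariant curve.  `R` = product of forms which vanish on the algebraic axes of the singular points; `C` = the plaques
contained in `{R = 0}` (`InvAt`); then small boxes by `exists_atlas` with `Good B` = `C` has in the closed box of `B` a local equation `g` as in `CData`. -/
theorem exists_cdata [P.IsPrime] {z : Fin 2 → FunField P} (hP : Homog P) (hz : IsTranscendenceBasis ℂ z) (hX : Surface (coneE P)) (h : IsReduced P FF) :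
    ∃ (A : Atlas P FF) (D : CData A), ∀ i, ¬ (A.B i).Reg → SingBox (A.B i) (D.g i) := by
  sorry

/-- MODULE Spd (helper20): order two gives `∫ rhoR R max 0 (log spd) ≤ C`. -/
theorem log_spd_le {F : ℂ → EN M} (hF : Crv P FF F) : ∃ C : ℝ, ∀ R, 1 ≤ R → ∫ z, rhoR R z * max 0 (Real.log (lam F z)) ≤ C := by
  sorry

/-- MODULE V (helper82): `∫ τ (Δ E) ≤ avg R E - avg 1 E` (`LogSing.mean2`, `c ≥ 0`), `∫ τ dv η = - ∫ gr τ · η ≤ C LL`, `Sel`. -/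
theorem false_of_pack {F : ℂ → EN M} (hF : Crv P FF F) {l : ℂ → ℝ} (hl : Continuous l) (hl0 : ∀ z, 0 ≤ l z) (hle : ∀ z, lam F z ≤ l z)
    (hB : ∃ B : ℝ, ∀ R, 1 ≤ R → ∫ z, tau R z * l z ^ 2 ≤ B * (En F R + 1)) {ε₀ δ : ℝ} (h : Pack F l ε₀ δ) (hδ : 2 * δ < ε₀) : False := by
  sorry

/-- MODULE Fin (helper98, helper11): atlas, `exists_cdata`, `exists_form_of_smooth` for `W` (`j = 1`), the packages, one form `Q` from `Sieg`, `pack_of_local`,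
`false_of_pack`. -/
theorem exists_R [P.IsPrime] (hP : Homog P) (hdim : ∃ z : Fin 2 → FunField P, IsTranscendenceBasis ℂ z)
    (hsmooth : Pool.Agent.AD.NC.IsSmooth P 2)
    (hgt : Pool.Agent.AD.NC.IsOfLogGeneralType P (Fin.elim0 : Fin 0 → MvPolynomial (Fin (M + 1)) ℂ) 2) (h : IsReduced P FF) :
    ∃ (R : MvPolynomial (Fin (M + 1)) ℂ) (d : ℕ), R.IsHomogeneous d ∧ R ∉ P ∧ ∀ g : ℂ → PN M, HolomorphicInto g Set.univ → OrderTwo g →
      (∀ z, g z ∈ projVar P) → (∃ z w, g z ≠ g w) → IsLeafwise P FF g → ∀ z, VanishesAt R (g z) := by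
  sorry

end Pool.Agent.MQ.Stub
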