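import Pool.Agent.MQ.KK
import Pool.Agent.MQ.Bridge

/-!
# MQ LTSNa: the logarithmic derivative with a cut-off, the energy

`y` is holomorphic near the support of the cut-off function `χ`; `m = 1 + (log N - log (|y|² + ε)) / 2`; the Laplacian of `1 / m` is at least
`2 |y|² |y'|² / ((|y|² + ε)² m³)`.
-/

set_option autoImplicit false

open MeasureTheory Topology Filter Metric Set Laplacian

noncomputable section

namespace Pool.Agent.MQ

open Pool.Agent.H30M (tau rho rhoR avg hcs_tau contDiff_tau tau_nonneg tau_le tau_eq_zero one_le_tau hcs_rhoR continuous_rhoR rhoR_nonneg int_rhoR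
  rhoR_eq_zero lap_tau rhoR_one)

/-- the function `m` of `t = |y|²` -/
def tnm (N ε t : ℝ) : ℝ := 1 + (Real.log N - Real.log (t + ε)) / 2

/-- `|y|² |y'|² / ((|y|² + ε)² m³)` -/
def tnX (N ε : ℝ) (y : ℂ → ℂ) (z : ℂ) : ℝ :=
  ‖y z‖ ^ 2 * ‖deriv y z‖ ^ 2 / ((‖y z‖ ^ 2 + ε) ^ 2 * tnm N ε (‖y z‖ ^ 2) ^ 3)

theorem one_le_tnm {N ε t : ℝ} (hε : 0 < ε) (ht : 0 ≤ t) (hN : t + ε ≤ N) : 1 ≤ tnm N ε t := by
  have h := Real.log_le_log (by linarith) hN
  unfold tnm
  linarith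

theorem tnX_nonneg {N ε : ℝ} (hε : 0 < ε) {y : ℂ → ℂ} {z : ℂ} (hN : ‖y z‖ ^ 2 + ε ≤ N) : 0 ≤ tnX N ε y z := by
  have h := one_le_tnm hε (sq_nonneg ‖y z‖) hN
  unfold tnX
  positivity

theorem hasDerivAt_tnm {N ε t : ℝ} (h : 0 < t + ε) : HasDerivAt (tnm N ε) (-(1 / (2 * (t + ε)))) t := by
  have h1 : HasDerivAt (fun t => Real.log (t + ε)) (1 / (t + ε)) t := ((hasDerivAt_id t).add_const ε).log h.ne'
  have h2 : HasDerivAt (fun t => 1 + (Real.log N - Real.log (t + ε)) / 2) (-(1 / (t + ε)) / 2) t := by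
    have := ((h1.const_sub (Real.log N)).div_const 2).const_add 1
    exact this
  have e : -(1 / (2 * (t + ε))) = -(1 / (t + ε)) / 2 := by
    field_simp
  rw [e]
  exact h2

/-- the first derivative of `1 / m` -/
def tnd (N ε t : ℝ) : ℝ := 1 / (2 * (t + ε) * tnm N ε t ^ 2)

theorem hasDerivAt_inv_tnm {N ε t : ℝ} (h : 0 < t + ε) (hm : 0 < tnm N ε t) : HasDerivAt (fun t => (tnm N ε t)⁻¹) (tnd N ε t) t := by
  have h1 := (hasDerivAt_tnm (N := N) h).inv hm.ne'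
  refine h1.congr_deriv ?_
  unfold tnd
  field_simp

theorem hasDerivAt_tnd {N ε t : ℝ} (h : 0 < t + ε) (hm : 0 < tnm N ε t) :
    HasDerivAt (tnd N ε) (-((tnm N ε t - 1) / (2 * (t + ε) ^ 2 * tnm N ε t ^ 3))) t := by
  have h0 := hasDerivAt_tnm (N := N) h
  have h1 : HasDerivAt (fun t : ℝ => 2 * (t + ε)) 2 t := by
    have := ((hasDerivAt_id t).add_const ε).const_mul 2
    simpa using this
  have h2 := (h1.mul (h0.pow 2)).inv (c := fun t => 2 * (t + ε) * tnm N ε t ^ 2) (x := t) (by positivity)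
  have e : tnd N ε = fun t => (2 * (t + ε) * tnm N ε t ^ 2)⁻¹ := by
    funext t
    unfold tnd
    rw [one_div]
  rw [e]
  refine h2.congr_deriv ?_
  have h3 : t + ε ≠ 0 := h.ne'
  have h4 : tnm N ε t ≠ 0 := hm.ne'
  simp only [Nat.cast_ofNat, Pi.pow_apply]
  field_simp
  ring

/-- the function `1 / m` along `y` -/
def tnΦ (N ε : ℝ) (y : ℂ → ℂ) (z : ℂ) : ℝ := (tnm N ε (‖y z‖ ^ 2))⁻¹

theorem tnΦ_point {N ε : ℝ} (hε : 0 < ε) {y : ℂ → ℂ} {z : ℂ} (hy : AnalyticAt ℂ y z) (hN : ‖y z‖ ^ 2 + ε ≤ N) :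
    ContDiffAt ℝ 2 (tnΦ N ε y) z ∧ 2 * tnX N ε y z ≤ lp (tnΦ N ε y) z ∧ 0 ≤ tnΦ N ε y z ∧ tnΦ N ε y z ≤ 1 ∧
      ‖gr (tnΦ N ε y) z‖ ≤ ‖y z‖ * ‖deriv y z‖ / (‖y z‖ ^ 2 + ε) := by
  have hm1 := one_le_tnm hε (sq_nonneg ‖y z‖) hN
  have hm0 : 0 < tnm N ε (‖y z‖ ^ 2) := by linarith
  have hD : 0 < ‖y z‖ ^ 2 + ε := by positivity
  set u : ℂ → ℝ := fun w => ‖y w‖ ^ 2 with hu
  have huc : ContDiffAt ℝ 2 u z := kk_contDiffAt_normSq hy
  have hφc : ContDiffAt ℝ 2 (fun t : ℝ => (tnm N ε t)⁻¹) (u z) := by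
    have h1 : ContDiffAt ℝ 2 (fun t : ℝ => Real.log (t + ε)) (u z) := (contDiffAt_id.add contDiffAt_const).log hD.ne'
    have h2 : ContDiffAt ℝ 2 (tnm N ε) (u z) := contDiffAt_const.add ((contDiffAt_const.sub h1).div_const 2)
    exact h2.inv hm0.ne'
  have hc : ContDiffAt ℝ 2 (tnΦ N ε y) z := hφc.comp z huc
  have hev1 : ∀ᶠ t in 𝓝 (u z), 0 < t + ε := (continuousAt_id.add continuousAt_const).eventually (lt_mem_nhds hD)
  have hev2 : ∀ᶠ t in 𝓝 (u z), 0 < tnm N ε t := (hasDerivAt_tnm (N := N) hD).continuousAt.eventually (lt_mem_nhds hm0)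
  have h1 : ∀ᶠ t in 𝓝 (u z), HasDerivAt (fun t => (tnm N ε t)⁻¹) (tnd N ε t) t := by
    filter_upwards [hev1, hev2] with t ht1 ht2
    exact hasDerivAt_inv_tnm ht1 ht2
  have hlap := kk_lap_comp huc h1 (hasDerivAt_tnd hD hm0)
  change kklap (tnΦ N ε y) z = _ at hlap
  have hgrad : ∀ c : ℂ, fderiv ℝ u z c = 2 * (c * inner ℂ (y z) (deriv y z)).re := fun c => kk_fderiv_normSq hy.differentiableAt c
  have hin : ‖(inner ℂ (y z) (deriv y z) : ℂ)‖ = ‖y z‖ * ‖deriv y z‖ := by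
    rw [RCLike.inner_apply, norm_mul, RCLike.norm_conj, mul_comm]
  have hsq : kkdx u z ^ 2 + kkdy u z ^ 2 = 4 * (‖y z‖ ^ 2 * ‖deriv y z‖ ^ 2) := by
    unfold kkdx kkdy
    rw [hgrad, hgrad]
    have e : ‖(inner ℂ (y z) (deriv y z) : ℂ)‖ ^ 2 = ‖y z‖ ^ 2 * ‖deriv y z‖ ^ 2 := by rw [hin]; ring
    rw [← e, Complex.sq_norm, Complex.normSq_apply]
    simp
    ring
  refine ⟨hc, ?_, by unfold tnΦ; positivity, inv_le_one_of_one_le₀ hm1, ?_⟩
  · rw [lp_eq_lap hc, ← kklap_eq hc, hlap, hsq]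
    have e2 : kklap u z = 4 * ‖deriv y z‖ ^ 2 := kk_lap_normSq hy
    rw [e2]
    unfold tnX tnd
    show 2 * (‖y z‖ ^ 2 * ‖deriv y z‖ ^ 2 / ((‖y z‖ ^ 2 + ε) ^ 2 * tnm N ε (‖y z‖ ^ 2) ^ 3)) ≤
      1 / (2 * (‖y z‖ ^ 2 + ε) * tnm N ε (‖y z‖ ^ 2) ^ 2) * (4 * ‖deriv y z‖ ^ 2) +
        -((tnm N ε (‖y z‖ ^ 2) - 1) / (2 * (‖y z‖ ^ 2 + ε) ^ 2 * tnm N ε (‖y z‖ ^ 2) ^ 3)) * (4 * (‖y z‖ ^ 2 * ‖deriv y z‖ ^ 2))
    set m := tnm N ε (‖y z‖ ^ 2) with hm
    set t := ‖y z‖ ^ 2 with ht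
    set q := ‖deriv y z‖ ^ 2 with hq
    have hq0 : 0 ≤ q := sq_nonneg _
    have e3 : 1 / (2 * (t + ε) * m ^ 2) * (4 * q) + -((m - 1) / (2 * (t + ε) ^ 2 * m ^ 3)) * (4 * (t * q)) =
        2 * (t * q / ((t + ε) ^ 2 * m ^ 3)) + 2 * (ε * m * q / ((t + ε) ^ 2 * m ^ 3)) := by
      have h3 : t + ε ≠ 0 := hD.ne'
      have h4 : m ≠ 0 := hm0.ne'
      field_simp
      ring
    rw [e3]
    have : 0 ≤ ε * m * q / ((t + ε) ^ 2 * m ^ 3) := by positivity
    linarith
  · have hg : gr (tnΦ N ε y) z = ((tnd N ε (u z) : ℝ) : ℂ) * gr u z :=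
      gr_comp (hasDerivAt_inv_tnm hD hm0) (huc.differentiableAt (by norm_num))
    have hgu : ‖gr u z‖ = 2 * (‖y z‖ * ‖deriv y z‖) := by
      have h5 : ‖gr u z‖ ^ 2 = (2 * (‖y z‖ * ‖deriv y z‖)) ^ 2 := by
        have h6 : ‖gr u z‖ ^ 2 = kkdx u z ^ 2 + kkdy u z ^ 2 := by
          rw [Complex.sq_norm, Complex.normSq_apply, gr_re, gr_im]
          unfold kkdx kkdy
          ring
        rw [h6, hsq]
        ring
      exact (pow_left_inj₀ (norm_nonneg _) (by positivity) two_ne_zero).1 h5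
    rw [hg, norm_mul, hgu, Complex.norm_real, Real.norm_eq_abs]
    have hd0 : 0 ≤ tnd N ε (u z) := by
      unfold tnd
      have : 0 < u z + ε := hD
      positivity
    rw [abs_of_nonneg hd0]
    unfold tnd
    have e4 : 1 / (2 * (u z + ε) * tnm N ε (u z) ^ 2) * (2 * (‖y z‖ * ‖deriv y z‖)) =
        ‖y z‖ * ‖deriv y z‖ / (‖y z‖ ^ 2 + ε) * (tnm N ε (‖y z‖ ^ 2) ^ 2)⁻¹ := by
      have h3 : ‖y z‖ ^ 2 + ε ≠ 0 := hD.ne'
      have h4 : tnm N ε (‖y z‖ ^ 2) ≠ 0 := hm0.ne'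
      show 1 / (2 * (‖y z‖ ^ 2 + ε) * tnm N ε (‖y z‖ ^ 2) ^ 2) * (2 * (‖y z‖ * ‖deriv y z‖)) = _
      field_simp
    rw [e4]
    refine mul_le_of_le_one_right (by positivity) (inv_le_one_of_one_le₀ ?_)
    exact one_le_pow₀ hm1

/-- the support of `χ τ` -/
private theorem ts_mul {χ τ : ℂ → ℝ} : tsupport (fun z => χ z * τ z) ⊆ tsupport χ := tsupport_mul_subset_left

/-- **The energy of the logarithmic derivative.** -/
theorem ts_energy {y : ℂ → ℂ} {χ l : ℂ → ℝ} (hχ : ContDiff ℝ 1 χ) (h01 : ∀ z, 0 ≤ χ z ∧ χ z ≤ 1) (hy : ∀ z ∈ tsupport χ, AnalyticAt ℂ y z)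
    {N : ℝ} (hN : ∀ z ∈ tsupport χ, ‖y z‖ ^ 2 + 1 ≤ N) (hl : Continuous l) (hl0 : ∀ z, 0 ≤ l z) {C : ℝ} (hC : 0 ≤ C)
    (hg : ∀ z, ‖gr χ z‖ ≤ C * l z) (hg2 : ∀ z ∈ tsupport χ, gr χ z ≠ 0 → ‖deriv y z‖ ≤ C * l z * ‖y z‖) {ε : ℝ} (hε : 0 < ε) (hε1 : ε ≤ 1)
    {R : ℝ} (hR : 1 ≤ R) :
    2 * ∫ z, tau R z * (χ z * tnX N ε y z) ≤ C ^ 2 * (∫ z, tau R z * l z ^ 2) + 4 * Real.pi + C * ∫ z, ‖gr (tau R) z‖ * l z := by
  set Φ := tnΦ N ε y with hΦ
  have hN' : ∀ z ∈ tsupport χ, ‖y z‖ ^ 2 + ε ≤ N := fun z hz => (by linarith [hN z hz])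
  have hpt := fun z (hz : z ∈ tsupport χ) => tnΦ_point hε (hy z hz) (hN' z hz)
  have hτ := contDiff_tau R
  have hτ1 : ContDiff ℝ 1 (tau R) := hτ.of_le (by norm_num)
  have hτc := hcs_tau hR
  have hτd : ∀ z, DifferentiableAt ℝ (tau R) z := fun z => hτ1.differentiable (by norm_num) z
  have hχd : ∀ z, DifferentiableAt ℝ χ z := fun z => hχ.differentiable (by norm_num) z
  have hgχ : Continuous (gr χ) := continuous_gr hχ
  have hgτ : ContDiff ℝ 1 (gr (tau R)) := contDiff_gr hτ (by norm_num)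
  have hgχs : tsupport (gr χ) ⊆ tsupport χ := tsupport_gr χ
  -- the two test objects
  set g : ℂ → ℝ := fun z => tau R z * χ z with hgdef
  have hg1 : ContDiff ℝ 1 g := hτ1.mul hχ
  have hgc : HasCompactSupport g := hτc.mul_right
  have hgs : tsupport g ⊆ tsupport χ := tsupport_mul_subset_right
  set V : ℂ → ℂ := fun z => (χ z : ℂ) * gr (tau R) z with hV
  have hV1 : ContDiff ℝ 1 V := (Complex.ofRealCLM.contDiff.comp hχ).mul hgτ
  have hVs : tsupport V ⊆ tsupport χ := by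
    refine closure_mono fun z hz h0 => hz ?_
    show (χ z : ℂ) * gr (tau R) z = 0
    rw [h0]
    simp
  have hVc : HasCompactSupport V := by
    refine (hasCompactSupport_gr hτc).of_isClosed_subset (isClosed_tsupport _) (closure_mono fun z hz h0 => hz ?_)
    show (χ z : ℂ) * gr (tau R) z = 0
    rw [h0, mul_zero]
  have e1 : ∫ z, ip (gr g z) (gr Φ z) = - ∫ z, g z * lp Φ z := green1 hg1 hgc fun z hz => (hpt z (hgs hz)).1
  have e2 : ∫ z, ip (V z) (gr Φ z) = - ∫ z, Φ z * dv V z := ibp_field hV1 hVc fun z hz => (hpt z (hVs hz)).1.of_le (by norm_num)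
  have hΦc : ∀ z ∈ tsupport χ, ContinuousAt Φ z := fun z hz => (hpt z hz).1.continuousAt
  have hgΦc : ∀ z ∈ tsupport χ, ContinuousAt (gr Φ) z := fun z hz => continuousAt_gr ((hpt z hz).1.of_le (by norm_num))
  have hlΦc : ∀ z ∈ tsupport χ, ContinuousAt (lp Φ) z := fun z hz => continuousAt_lp (hpt z hz).1
  -- the field `τ gr χ`
  set W : ℂ → ℂ := fun z => (tau R z : ℂ) * gr χ z with hW
  have hWc : Continuous W := (Complex.continuous_ofReal.comp hτ1.continuous).mul hgχ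
  have hWs : tsupport W ⊆ tsupport χ := by
    have hsup : Function.support W ⊆ Function.support (gr χ) := by
      intro z hz h0
      refine hz ?_
      show (tau R z : ℂ) * gr χ z = 0
      rw [h0, mul_zero]
    exact (closure_mono hsup).trans hgχs
  have hWcs : HasCompactSupport W := by
    refine hτc.of_isClosed_subset (isClosed_tsupport _) (closure_mono fun z hz h0 => hz ?_)
    show (tau R z : ℂ) * gr χ z = 0
    rw [h0]
    simp
  have hgr : ∀ z, gr g z = W z + V z := fun z => gr_mul (hτd z) (hχd z)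
  have i1 : Integrable fun z => ip (W z) (gr Φ z) := int_ip hWc hWcs fun z hz => hgΦc z (hWs hz)
  have i2 : Integrable fun z => ip (V z) (gr Φ z) := int_ip hV1.continuous hVc fun z hz => hgΦc z (hVs hz)
  have e3 : ∫ z, ip (gr g z) (gr Φ z) = (∫ z, ip (W z) (gr Φ z)) + ∫ z, ip (V z) (gr Φ z) := by
    rw [← integral_add i1 i2]
    refine integral_congr_ae (Eventually.of_forall fun z => ?_)
    show ip (gr g z) (gr Φ z) = ip (W z) (gr Φ z) + ip (V z) (gr Φ z)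
    rw [hgr, ip_add_left]
  have e4 : ∫ z, g z * lp Φ z = -(∫ z, ip (W z) (gr Φ z)) + ∫ z, Φ z * dv V z := by
    rw [e3, e2] at e1
    linarith
  -- the bound from below
  have i3 : Integrable fun z => g z * lp Φ z := int_mul hg1.continuous hgc fun z hz => hlΦc z (hgs hz)
  have hXc : ∀ z ∈ tsupport χ, ContinuousAt (tnX N ε y) z := by
    intro z hz
    have hyc : ContinuousAt (fun w => ‖y w‖ ^ 2) z := (hy z hz).continuousAt.norm.pow 2
    have hdc : ContinuousAt (fun w => ‖deriv y w‖ ^ 2) z := (hy z hz).deriv.continuousAt.norm.pow 2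
    have hD : 0 < ‖y z‖ ^ 2 + ε := by positivity
    have hm := one_le_tnm hε (sq_nonneg ‖y z‖) (hN' z hz)
    have hmc : ContinuousAt (fun w => tnm N ε (‖y w‖ ^ 2)) z :=
      (hasDerivAt_tnm (N := N) hD).continuousAt.comp (f := fun w => ‖y w‖ ^ 2) hyc
    refine (hyc.mul hdc).div (((hyc.add continuousAt_const).pow 2).mul (hmc.pow 3)) ?_
    positivity
  have i4 : Integrable fun z => g z * tnX N ε y z := int_mul hg1.continuous hgc fun z hz => hXc z (hgs hz)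
  have b1 : 2 * ∫ z, tau R z * (χ z * tnX N ε y z) ≤ ∫ z, g z * lp Φ z := by
    rw [← integral_const_mul]
    have e5 : (fun z => 2 * (tau R z * (χ z * tnX N ε y z))) = fun z => 2 * (g z * tnX N ε y z) := by
      funext z
      rw [hgdef]
      ring
    rw [e5]
    refine integral_mono (i4.const_mul 2) i3 fun z => ?_
    show 2 * (g z * tnX N ε y z) ≤ g z * lp Φ z
    by_cases hz : z ∈ tsupport χ
    · have h1 := (hpt z hz).2.1
      have h2 : 0 ≤ g z := mul_nonneg (tau_nonneg hR z) (h01 z).1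
      calc 2 * (g z * tnX N ε y z) = g z * (2 * tnX N ε y z) := by ring
        _ ≤ _ := mul_le_mul_of_nonneg_left h1 h2
    · have h3 : g z = 0 := by
        show tau R z * χ z = 0
        rw [image_eq_zero_of_notMem_tsupport hz, mul_zero]
      rw [h3, zero_mul, zero_mul, mul_zero]
  -- the first bound from above
  have i5 : Integrable fun z => tau R z * l z ^ 2 := kk_int hτ1.continuous hτc (hl.pow 2)
  have b2 : -(∫ z, ip (W z) (gr Φ z)) ≤ C ^ 2 * ∫ z, tau R z * l z ^ 2 := by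
    rw [← integral_neg, ← integral_const_mul]
    refine integral_mono i1.neg (i5.const_mul _) fun z => ?_
    show -ip (W z) (gr Φ z) ≤ C ^ 2 * (tau R z * l z ^ 2)
    have hτ0 := tau_nonneg hR z
    by_cases hz : gr χ z = 0
    · have h3 : W z = 0 := by
        show (tau R z : ℂ) * gr χ z = 0
        rw [hz, mul_zero]
      rw [h3, ip_zero_left]
      have := hl0 z
      simp only [neg_zero]
      positivity
    · have hzs : z ∈ tsupport χ := hgχs (subset_tsupport _ hz)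
      have h1 := (hpt z hzs).2.2.2.2
      have h2 := hg2 z hzs hz
      have hD : 0 < ‖y z‖ ^ 2 + ε := by positivity
      have h4 : ‖gr Φ z‖ ≤ C * l z := by
        refine h1.trans ?_
        rw [div_le_iff₀ hD]
        have h5 := mul_le_mul_of_nonneg_left h2 (norm_nonneg (y z))
        have h6 : 0 ≤ C * l z := mul_nonneg hC (hl0 z)
        nlinarith
      have h7 : ‖W z‖ ≤ tau R z * (C * l z) := by
        show ‖(tau R z : ℂ) * gr χ z‖ ≤ _
        rw [norm_mul, Complex.norm_real, Real.norm_of_nonneg hτ0]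
        exact mul_le_mul_of_nonneg_left (hg z) hτ0
      calc -ip (W z) (gr Φ z) ≤ |ip (W z) (gr Φ z)| := neg_le_abs _
        _ ≤ ‖W z‖ * ‖gr Φ z‖ := abs_ip_le _ _
        _ ≤ (tau R z * (C * l z)) * (C * l z) := mul_le_mul h7 h4 (norm_nonneg _) (mul_nonneg hτ0 (mul_nonneg hC (hl0 z)))
        _ = _ := by ring
  -- the second bound from above
  have hdvV : ∀ z, dv V z = χ z * (rhoR R z - rho z) + ip (gr χ z) (gr (tau R) z) := by
    intro z
    have h1 := dv_mul (hχd z) (V := gr (tau R)) (hgτ.differentiable (by norm_num) z)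
    have h2 : dv (gr (tau R)) z = rhoR R z - rho z := by
      have h3 := lp_eq_lap (hτ.contDiffAt (x := z))
      rw [lap_tau hR] at h3
      exact h3
    rw [h2] at h1
    exact h1
  have i6 : Integrable fun z => Φ z * dv V z := by
    have hdc : Continuous (dv V) := continuous_iff_continuousAt.2 fun z => continuousAt_dv hV1.contDiffAt
    have hds : tsupport (dv V) ⊆ tsupport V := by
      intro z hz
      by_contra h
      have h1 : V =ᶠ[𝓝 z] 0 := notMem_tsupport_iff_eventuallyEq.1 h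
      have h2 : dv V =ᶠ[𝓝 z] 0 := by
        filter_upwards [h1.eventuallyEq_nhds] with w hw
        rw [dv_congr hw]
        exact dv_const 0 w
      exact (notMem_tsupport_iff_eventuallyEq.2 h2) hz
    have h3 := int_mul (f := Φ) hdc (hVc.of_isClosed_subset (isClosed_tsupport _) hds) fun z hz => hΦc z (hVs (hds hz))
    refine h3.congr (Eventually.of_forall fun z => ?_)
    show dv V z * Φ z = Φ z * dv V z
    ring
  have ir : ∀ R : ℝ, 1 ≤ R → Integrable (rhoR R) := fun R hR => (continuous_rhoR R).integrable_of_hasCompactSupport (hcs_rhoR hR)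
  have i7 : Integrable fun z => ‖gr (tau R) z‖ * l z :=
    kk_int hgτ.continuous.norm (hasCompactSupport_gr hτc).norm hl
  have b3 : ∫ z, Φ z * dv V z ≤ 4 * Real.pi + C * ∫ z, ‖gr (tau R) z‖ * l z := by
    have i8 : Integrable fun z => rhoR R z + rhoR 1 z := (ir R hR).add (ir 1 le_rfl)
    have e6 : 4 * Real.pi + C * ∫ z, ‖gr (tau R) z‖ * l z = ∫ z, ((rhoR R z + rhoR 1 z) + C * (‖gr (tau R) z‖ * l z)) := by
      rw [integral_add i8 (i7.const_mul C), integral_add (ir R hR) (ir 1 le_rfl), int_rhoR hR, int_rhoR le_rfl,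
        integral_const_mul]
      ring
    rw [e6]
    refine integral_mono i6 (((ir R hR).add (ir 1 le_rfl)).add (i7.const_mul C)) fun z => ?_
    show Φ z * dv V z ≤ (rhoR R z + rhoR 1 z) + C * (‖gr (tau R) z‖ * l z)
    have hr1 := rhoR_nonneg R z
    have hr2 := rhoR_nonneg 1 z
    have hlz := hl0 z
    by_cases hz : z ∈ tsupport χ
    · obtain ⟨-, -, h1, h2, -⟩ := hpt z hz
      have h3 : dv V z ≤ (rhoR R z + rhoR 1 z) + C * (‖gr (tau R) z‖ * l z) := by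
        rw [hdvV]
        have h4 : χ z * (rhoR R z - rho z) ≤ rhoR R z + rhoR 1 z := by
          have h5 := (h01 z).1
          have h6 := (h01 z).2
          have h7 : rho z = rhoR 1 z := by rw [rhoR_one]
          rw [h7]
          nlinarith
        have h8 : ip (gr χ z) (gr (tau R) z) ≤ C * (‖gr (tau R) z‖ * l z) := by
          refine (ip_le _ _).trans ?_
          calc ‖gr χ z‖ * ‖gr (tau R) z‖ ≤ (C * l z) * ‖gr (tau R) z‖ := mul_le_mul_of_nonneg_right (hg z) (norm_nonneg _)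
            _ = _ := by ring
        linarith
      have h9 : 0 ≤ (rhoR R z + rhoR 1 z) + C * (‖gr (tau R) z‖ * l z) := by positivity
      calc Φ z * dv V z ≤ Φ z * ((rhoR R z + rhoR 1 z) + C * (‖gr (tau R) z‖ * l z)) := mul_le_mul_of_nonneg_left h3 h1
        _ ≤ _ := mul_le_of_le_one_left h9 h2
    · have h3 : dv V z = 0 := by
        have h4 : V =ᶠ[𝓝 z] 0 := notMem_tsupport_iff_eventuallyEq.1 fun h => hz (hVs h)
        rw [dv_congr h4]
        exact dv_const 0 z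
      rw [h3, mul_zero]
      positivity
  linarith

end Pool.Agent.MQ
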