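import Pool.Agent.MQ.LTSNa
import Pool.Agent.MQ.Jen
import Pool.Agent.MQ.MLog

/-!
# MQ LTSNb: the logarithmic derivative with a cut-off, the outer mean

`y` is holomorphic near the support of the cut-off function `χ`, `|g₀| ≤ B₁ |y| |F|^d₀` there, `g₀` entire, not `0`: the mean of `log (1 + |y'/y|²)` over the
part of the annulus where `χ = 1` is at most `C log (1 + En) + C`.
-/

set_option autoImplicit false

open MeasureTheory Topology Filter Metric Set Laplacian

noncomputable section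

namespace Pool.Agent.MQ

open Pool.Agent.H30M (tau rho rhoR avg hcs_tau contDiff_tau tau_nonneg tau_le tau_eq_zero one_le_tau hcs_rhoR continuous_rhoR rhoR_nonneg int_rhoR
  rhoR_eq_zero lap_tau rhoR_one uu II LogSing)
open Pool.Agent.H36.BP (EN fs)

theorem ts_len {l : ℂ → ℝ} (hl : Continuous l) {R : ℝ} (hR : 1 ≤ R) :
    ∫ z, ‖gr (tau R) z‖ * l z ≤ Real.pi * (Real.exp 1 * R) ^ 2 + ∫ z, tau (Real.exp 2 * R) z * l z ^ 2 := by
  have hR0 : 0 < R := by linarith
  have he : 1 ≤ Real.exp 2 * R := by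
    have := Real.one_le_exp (zero_le_two (α := ℝ))
    exact one_le_mul_of_one_le_of_one_le this hR
  have hgτ : ContDiff ℝ 1 (gr (tau R)) := contDiff_gr (contDiff_tau R) (by norm_num)
  have i1 : Integrable fun z => ‖gr (tau R) z‖ * l z := kk_int hgτ.continuous.norm (hasCompactSupport_gr (hcs_tau hR)).norm hl
  have i2 : Integrable fun z => tau (Real.exp 2 * R) z * l z ^ 2 := kk_int (contDiff_tau _).continuous (hcs_tau he) (hl.pow 2)
  have i3 : Integrable ((closedBall (0 : ℂ) (Real.exp 1 * R)).indicator fun _ => (1 : ℝ)) :=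
    (integrable_indicator_iff measurableSet_closedBall).2 (integrableOn_const (isCompact_closedBall (0 : ℂ) _).measure_lt_top.ne)
  have e1 : ∫ z, (closedBall (0 : ℂ) (Real.exp 1 * R)).indicator (fun _ => (1 : ℝ)) z = Real.pi * (Real.exp 1 * R) ^ 2 := by
    rw [integral_indicator measurableSet_closedBall, setIntegral_const, smul_eq_mul, mul_one, Measure.real, Complex.volume_closedBall]
    rw [ENNReal.toReal_mul, ENNReal.toReal_pow, ENNReal.toReal_ofReal (by positivity)]
    simp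
    ring
  rw [← e1, ← integral_add i3 i2]
  refine integral_mono i1 (i3.add i2) fun z => ?_
  show ‖gr (tau R) z‖ * l z ≤ (closedBall (0 : ℂ) (Real.exp 1 * R)).indicator (fun _ => (1 : ℝ)) z + tau (Real.exp 2 * R) z * l z ^ 2
  have h0 : 0 ≤ tau (Real.exp 2 * R) z * l z ^ 2 := mul_nonneg (tau_nonneg he z) (sq_nonneg _)
  have h1 : ∀ z : ℂ, ‖z‖ ≤ 1 ∨ Real.exp 1 * R ≤ ‖z‖ → gr (tau R) z = 0 := by
    intro z hz
    have h2 := Pool.Agent.H30M.fderiv_tau_eq_zero hR hz
    apply Complex.ext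
    · rw [gr_re, h2]
      rfl
    · rw [gr_im, h2]
      rfl
  by_cases hz : ‖z‖ ≤ 1 ∨ Real.exp 1 * R ≤ ‖z‖
  · rw [h1 z hz, norm_zero, zero_mul]
    have : 0 ≤ (closedBall (0 : ℂ) (Real.exp 1 * R)).indicator (fun _ => (1 : ℝ)) z := indicator_nonneg (fun _ _ => zero_le_one) z
    linarith
  · push Not at hz
    obtain ⟨hz1, hz2⟩ := hz
    have h2 : ‖gr (tau R) z‖ ≤ 1 := by
      have h3 := Pool.Agent.H30M.gg_tau_le hR z
      rw [gg_self] at h3
      have h4 : 1 / ‖z‖ ^ 2 ≤ 1 := by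
        rw [div_le_one (by positivity)]
        exact one_le_pow₀ hz1.le
      have h5 : ‖gr (tau R) z‖ ^ 2 ≤ 1 := h3.trans h4
      exact (sq_le_one_iff₀ (norm_nonneg _)).1 h5
    have h6 := one_le_tau hR hz2.le
    rw [indicator_of_mem (mem_closedBall_zero_iff.2 hz2.le)]
    have h7 : l z ≤ 1 + l z ^ 2 := by
      have k1 := two_mul_le_add_sq (l z) 1
      have k2 := sq_nonneg (l z)
      linarith only [k1, k2]
    have h8 : ‖gr (tau R) z‖ * l z ≤ 1 + l z ^ 2 := by
      rcases le_total 0 (l z) with h | h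
      · exact (mul_le_of_le_one_left h h2).trans h7
      · have : ‖gr (tau R) z‖ * l z ≤ 0 := mul_nonpos_of_nonneg_of_nonpos (norm_nonneg _) h
        have k2 := sq_nonneg (l z)
        linarith only [this, k2]
    have h9 : l z ^ 2 ≤ tau (Real.exp 2 * R) z * l z ^ 2 := le_mul_of_one_le_left (sq_nonneg _) h6
    linarith

variable {M : ℕ}

/-- the function whose logarithm is estimated -/
def tnY (ε : ℝ) (y : ℂ → ℂ) (z : ℂ) : ℝ := ‖y z‖ ^ 2 * ‖deriv y z‖ ^ 2 / (‖y z‖ ^ 2 + ε) ^ 2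

/-- **The outer mean of the logarithmic derivative.** -/
theorem ts_log {F : ℂ → EN M} (hF : Differentiable ℂ F) (h0 : ∀ z, F z ≠ 0) {A : ℝ} (hA : ∀ R, 1 ≤ R → En F R ≤ A * R ^ 2)
    {g₀ : ℂ → ℂ} (hg₀ : Differentiable ℂ g₀) (hne : ∃ z, g₀ z ≠ 0) {d₀ : ℕ} (hgF : ∀ z, ‖g₀ z‖ ≤ ‖F z‖ ^ d₀)
    {y : ℂ → ℂ} {χ : ℂ → ℝ} (hχ : ContDiff ℝ 1 χ) (h01 : ∀ z, 0 ≤ χ z ∧ χ z ≤ 1) (hy : ∀ z ∈ tsupport χ, AnalyticAt ℂ y z)
    {N : ℝ} (hN : ∀ z ∈ tsupport χ, ‖y z‖ ^ 2 + 1 ≤ N) {C : ℝ} (hC : 0 ≤ C) (hg : ∀ z, ‖gr χ z‖ ≤ C * lam F z)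
    (hg2 : ∀ z ∈ tsupport χ, gr χ z ≠ 0 → ‖deriv y z‖ ≤ C * lam F z * ‖y z‖) (hy' : ∀ z ∈ tsupport χ, ‖deriv y z‖ ≤ C * lam F z)
    {B₁ : ℝ} (hB : 0 < B₁) (hgy : ∀ z ∈ tsupport χ, ‖g₀ z‖ ≤ B₁ * ‖y z‖ * ‖F z‖ ^ d₀) {S : Set ℂ} (hS : MeasurableSet S) (hS1 : ∀ z ∈ S, χ z = 1) :
    ∃ C' : ℝ, 0 ≤ C' ∧ ∀ R, 1 ≤ R → IntegrableOn (fun z => rhoR R z * Real.log (1 + (‖deriv y z‖ / ‖y z‖) ^ 2)) S ∧
      ∫ z in S, rhoR R z * Real.log (1 + (‖deriv y z‖ / ‖y z‖) ^ 2) ≤ C' * Real.log (1 + En F R) + C' := by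
  classical
  have hpi := Real.pi_pos
  have hpi3 : (3 : ℝ) < Real.pi := Real.pi_gt_three
  have hpi1 : (1 : ℝ) ≤ Real.pi := by linarith only [hpi3]
  have hlc : Continuous (lam F) := continuous_lam' hF h0
  have hl0 : ∀ z, 0 ≤ lam F z := lam_nonneg' F
  set L : ℂ → ℝ := fun z => Real.log ‖F z‖ with hLdef
  have hL : ContDiff ℝ 2 L := cg_L hF h0
  have hle := cg_le (F := F) h0 hgF
  set v : ℂ → ℝ := uu L g₀ (d₀ : ℝ) with hv
  have hae : ∀ᵐ z : ℂ, g₀ z ≠ 0 := Pool.Agent.H30M.ae_ne_zero hg₀ hne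
  have hSs : ∀ z ∈ S, z ∈ tsupport χ := fun z hz => subset_tsupport _ (by
    show χ z ≠ 0
    rw [hS1 z hz]
    exact one_ne_zero)
  set c₀ : ℝ := |Real.log N| + |Real.log B₁| with hc₀
  have hc₀0 : 0 ≤ c₀ := by positivity
  have hv0 : ∀ z, g₀ z ≠ 0 → v z ≤ 0 := fun z hz => Pool.Agent.H30M.uu_nonpos_of_ne hle hz
  -- the bound of `- log |y|`
  have hly : ∀ z ∈ tsupport χ, g₀ z ≠ 0 → y z ≠ 0 ∧ -Real.log ‖y z‖ ≤ |Real.log B₁| - v z := by
    intro z hz hgz
    have h1 := hgy z hz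
    have h2 : 0 < ‖g₀ z‖ := norm_pos_iff.2 hgz
    have h3 : 0 < ‖F z‖ := norm_pos_iff.2 (h0 z)
    have h4 : y z ≠ 0 := by
      intro h
      rw [h, norm_zero, mul_zero, zero_mul] at h1
      linarith
    have h5 : 0 < ‖y z‖ := norm_pos_iff.2 h4
    refine ⟨h4, ?_⟩
    have h6 := Real.log_le_log h2 h1
    rw [Real.log_mul (by positivity) (by positivity), Real.log_mul hB.ne' h5.ne', Real.log_pow] at h6
    have h7 : v z = Real.log ‖g₀ z‖ - d₀ * Real.log ‖F z‖ := rfl
    have h8 := le_abs_self (Real.log B₁)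
    linarith
  have hvi : ∀ R, 1 ≤ R → Integrable fun z => rhoR R z * v z := fun R hR =>
    LogSing.integrable_mul (continuous_rhoR R) (hcs_rhoR hR) fun z _ => Pool.Agent.H30M.logSing_uu hL hg₀ hne z
  have ir : ∀ R, 1 ≤ R → Integrable (rhoR R) := fun R hR => (continuous_rhoR R).integrable_of_hasCompactSupport (hcs_rhoR hR)
  set W : ℝ := |avg 1 v| with hW
  have hW0 : 0 ≤ W := abs_nonneg _
  have hEn : ∀ R, 1 ≤ R → 0 ≤ En F R := fun R hR => En_nonneg' F hR
  have hA0 : 0 ≤ A := by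
    have h1 := hA 1 le_rfl
    rw [one_pow, mul_one] at h1
    exact (hEn 1 le_rfl).trans h1
  obtain ⟨S₀, hS₀0, hS₀⟩ := kk_rho
  set A₂ : ℝ := 1 + c₀ + d₀ + W with hA₂
  have hA₂1 : 1 ≤ A₂ := by
    have : (0 : ℝ) ≤ d₀ := Nat.cast_nonneg _
    rw [hA₂]
    linarith
  set C₃ : ℝ := C ^ 2 * (A * Real.exp 2 ^ 2) + 4 * Real.pi + C * (Real.pi * (Real.exp 1 * Real.exp 2) ^ 2 + A * (Real.exp 2 * Real.exp 2) ^ 2) with hC₃
  have hC₃0 : 0 ≤ C₃ := by positivity
  set A₁ : ℝ := 1 + S₀ * C₃ with hA₁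
  have hA₁1 : 1 ≤ A₁ := by
    have : 0 ≤ S₀ * C₃ := mul_nonneg hS₀0 hC₃0
    linarith
  -- the estimate for `ε > 0`
  have main : ∀ ε, 0 < ε → ε ≤ 1 → ∀ R, 1 ≤ R → ∫ z in S, rhoR R z * Real.log (1 + tnY ε y z) ≤
      2 * Real.pi * Real.log A₁ + 3 * (2 * Real.pi * Real.log (A₂ * (1 + En F R))) := by
    intro ε hε hε1 R hR
    have hR0 : 0 < R := by linarith
    have he2 : 1 ≤ Real.exp 2 * R := by
      have := Real.one_le_exp (zero_le_two (α := ℝ))
      exact one_le_mul_of_one_le_of_one_le this hR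
    have hN' : ∀ z ∈ tsupport χ, ‖y z‖ ^ 2 + ε ≤ N := fun z hz => (by linarith [hN z hz])
    have hyc : ∀ z ∈ tsupport χ, ContinuousAt (fun w => ‖y w‖ ^ 2) z := fun z hz => (hy z hz).continuousAt.norm.pow 2
    have hmc : ∀ z ∈ tsupport χ, ContinuousAt (fun w => tnm N ε (‖y w‖ ^ 2)) z := by
      intro z hz
      have hD : 0 < ‖y z‖ ^ 2 + ε := by positivity
      exact (hasDerivAt_tnm (N := N) hD).continuousAt.comp (f := fun w => ‖y w‖ ^ 2) (hyc z hz)
    have hXc : ∀ z ∈ tsupport χ, ContinuousAt (tnX N ε y) z := by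
      intro z hz
      have hdc : ContinuousAt (fun w => ‖deriv y w‖ ^ 2) z := (hy z hz).deriv.continuousAt.norm.pow 2
      have hD : 0 < ‖y z‖ ^ 2 + ε := by positivity
      have hm := one_le_tnm hε (sq_nonneg ‖y z‖) (hN' z hz)
      refine ((hyc z hz).mul hdc).div ((((hyc z hz).add continuousAt_const).pow 2).mul ((hmc z hz).pow 3)) ?_
      positivity
    have c1 : Continuous fun z => χ z * tnX N ε y z := cont_mul hχ.continuous hXc
    have c2 : Continuous fun z => χ z * (tnm N ε (‖y z‖ ^ 2) - 1) := cont_mul hχ.continuous fun z hz => (hmc z hz).sub continuousAt_const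
    set f₁ : ℂ → ℝ := fun z => 1 + χ z * tnX N ε y z with hf₁
    set f₂ : ℂ → ℝ := fun z => 1 + χ z * (tnm N ε (‖y z‖ ^ 2) - 1) with hf₂
    have cf₁ : Continuous f₁ := continuous_const.add c1
    have cf₂ : Continuous f₂ := continuous_const.add c2
    have hX0 : ∀ z, 0 ≤ χ z * tnX N ε y z := by
      intro z
      by_cases hz : z ∈ tsupport χ
      · exact mul_nonneg (h01 z).1 (tnX_nonneg hε (hN' z hz))
      · rw [image_eq_zero_of_notMem_tsupport hz, zero_mul]
    have hm0 : ∀ z, 0 ≤ χ z * (tnm N ε (‖y z‖ ^ 2) - 1) := by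
      intro z
      by_cases hz : z ∈ tsupport χ
      · exact mul_nonneg (h01 z).1 (by linarith [one_le_tnm hε (sq_nonneg ‖y z‖) (hN' z hz)])
      · rw [image_eq_zero_of_notMem_tsupport hz, zero_mul]
    have hf₁1 : ∀ z, 1 ≤ f₁ z := fun z => (by
      show 1 ≤ 1 + χ z * tnX N ε y z
      linarith [hX0 z])
    have hf₂1 : ∀ z, 1 ≤ f₂ z := fun z => (by
      show 1 ≤ 1 + χ z * (tnm N ε (‖y z‖ ^ 2) - 1)
      linarith [hm0 z])
    -- the mean of `f₂`
    have hf₂w : ∀ᵐ z : ℂ, f₂ z ≤ (1 + c₀) - v z := by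
      filter_upwards [hae] with z hgz
      show 1 + χ z * (tnm N ε (‖y z‖ ^ 2) - 1) ≤ (1 + c₀) - v z
      have hvz := hv0 z hgz
      by_cases hz : z ∈ tsupport χ
      · obtain ⟨h1, h2⟩ := hly z hz hgz
        have h3 : 0 < ‖y z‖ := norm_pos_iff.2 h1
        have h4 : 2 * Real.log ‖y z‖ ≤ Real.log (‖y z‖ ^ 2 + ε) := by
          have h5 := Real.log_le_log (show 0 < ‖y z‖ ^ 2 by positivity) (show ‖y z‖ ^ 2 ≤ ‖y z‖ ^ 2 + ε by linarith)
          rw [Real.log_pow] at h5
          push_cast at h5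
          exact h5
        have h6 : tnm N ε (‖y z‖ ^ 2) - 1 ≤ c₀ - v z := by
          unfold tnm
          have h7 := le_abs_self (Real.log N)
          have h8 := abs_nonneg (Real.log N)
          rw [hc₀]
          linarith
        have h9 : χ z * (tnm N ε (‖y z‖ ^ 2) - 1) ≤ tnm N ε (‖y z‖ ^ 2) - 1 :=
          mul_le_of_le_one_left (by linarith [one_le_tnm hε (sq_nonneg ‖y z‖) (hN' z hz)]) (h01 z).2
        linarith
      · rw [image_eq_zero_of_notMem_tsupport hz, zero_mul]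
        linarith
    have hav₂ : avg R f₂ ≤ 2 * Real.pi * (A₂ * (1 + En F R)) := by
      have h1 : avg R f₂ ≤ ∫ z, ((1 + c₀) * rhoR R z - rhoR R z * v z) := by
        refine integral_mono_ae (kk_int (continuous_rhoR R) (hcs_rhoR hR) cf₂) (((ir R hR).const_mul _).sub (hvi R hR)) ?_
        filter_upwards [hf₂w] with z hz
        have := mul_le_mul_of_nonneg_left hz (rhoR_nonneg R z)
        calc rhoR R z * f₂ z ≤ _ := this
          _ = _ := by ring
      rw [integral_sub ((ir R hR).const_mul _) (hvi R hR), integral_const_mul, int_rhoR hR] at h1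
      have h2 := Pool.Agent.H30M.neg_avg_uu_le (d := (d₀ : ℝ)) hL hg₀ hne hR
      rw [cg_II hF h0] at h2
      have h3 : avg R v = ∫ z, rhoR R z * v z := rfl
      have h4 : -avg 1 v ≤ W := neg_le_abs _
      have h5 := hEn R hR
      have h6 : (0 : ℝ) ≤ d₀ := Nat.cast_nonneg _
      have h7 : avg R f₂ ≤ (1 + c₀) * (2 * Real.pi) + d₀ * (2 * En F R) + W := by
        have h8 : -avg R v ≤ d₀ * (2 * En F R) - avg 1 v := h2
        rw [h3] at h8
        linarith
      have h9 : A₂ * (1 + En F R) = (1 + c₀) + d₀ + W + (1 + c₀ + d₀ + W) * En F R := by rw [hA₂]; ring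
      rw [h9]
      have g1 : d₀ * (2 * En F R) ≤ 2 * Real.pi * (d₀ * En F R) := by
        have k1 : 0 ≤ (d₀ : ℝ) * En F R := mul_nonneg h6 h5
        have k2 := mul_le_mul_of_nonneg_right hpi1 k1
        linarith only [k1, k2]
      have g2 : W ≤ 2 * Real.pi * W := by
        have k2 := mul_le_mul_of_nonneg_right hpi1 hW0
        linarith only [hW0, k2]
      have g3 : 0 ≤ 2 * Real.pi * d₀ := by positivity
      have g4 : 0 ≤ 2 * Real.pi * ((1 + c₀ + W) * En F R) := by positivity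
      linarith only [h7, g1, g2, g3, g4]
    have hJ₂ := kk_jensen hR cf₂ hf₂1 hav₂
    -- the mean of `f₁`
    have hen := ts_energy hχ h01 hy hN hlc hl0 hC hg hg2 hε hε1 he2
    have hlen := ts_len hlc he2
    have hE1 : (∫ z, tau (Real.exp 2 * R) z * lam F z ^ 2) ≤ A * (Real.exp 2 * R) ^ 2 := hA _ he2
    have he4 : 1 ≤ Real.exp 2 * (Real.exp 2 * R) := by
      have := Real.one_le_exp (zero_le_two (α := ℝ))
      exact one_le_mul_of_one_le_of_one_le this he2
    have hE2 : (∫ z, tau (Real.exp 2 * (Real.exp 2 * R)) z * lam F z ^ 2) ≤ A * (Real.exp 2 * (Real.exp 2 * R)) ^ 2 := hA _ he4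
    have hR2 : 1 ≤ R ^ 2 := one_le_pow₀ hR
    have hint : ∫ z, tau (Real.exp 2 * R) z * (χ z * tnX N ε y z) ≤ C₃ * R ^ 2 := by
      have h1 : C ^ 2 * (∫ z, tau (Real.exp 2 * R) z * lam F z ^ 2) ≤ C ^ 2 * (A * (Real.exp 2 * R) ^ 2) :=
        mul_le_mul_of_nonneg_left hE1 (sq_nonneg _)
      have h2 : C * (∫ z, ‖gr (tau (Real.exp 2 * R)) z‖ * lam F z) ≤
          C * (Real.pi * (Real.exp 1 * (Real.exp 2 * R)) ^ 2 + A * (Real.exp 2 * (Real.exp 2 * R)) ^ 2) :=
        mul_le_mul_of_nonneg_left (by linarith) hC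
      have h3 : 4 * Real.pi ≤ 4 * Real.pi * R ^ 2 := le_mul_of_one_le_right (by positivity) hR2
      have h4 : 0 ≤ ∫ z, tau (Real.exp 2 * R) z * (χ z * tnX N ε y z) := integral_nonneg fun z => mul_nonneg (tau_nonneg he2 z) (hX0 z)
      have h5 : C₃ * R ^ 2 = C ^ 2 * (A * (Real.exp 2 * R) ^ 2) + 4 * Real.pi * R ^ 2 +
          C * (Real.pi * (Real.exp 1 * (Real.exp 2 * R)) ^ 2 + A * (Real.exp 2 * (Real.exp 2 * R)) ^ 2) := by
        rw [hC₃]
        ring
      rw [h5]
      linarith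
    have hav₁ : avg R f₁ ≤ 2 * Real.pi * A₁ := by
      have h1 : avg R f₁ = 2 * Real.pi + ∫ z, rhoR R z * (χ z * tnX N ε y z) := by
        rw [← int_rhoR hR, ← integral_add (ir R hR) (kk_int (continuous_rhoR R) (hcs_rhoR hR) c1)]
        refine integral_congr_ae (Eventually.of_forall fun z => ?_)
        show rhoR R z * (1 + χ z * tnX N ε y z) = rhoR R z + rhoR R z * (χ z * tnX N ε y z)
        ring
      have h2 : ∫ z, rhoR R z * (χ z * tnX N ε y z) ≤ S₀ / R ^ 2 * ∫ z, tau (Real.exp 2 * R) z * (χ z * tnX N ε y z) := by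
        rw [← integral_const_mul]
        refine integral_mono (kk_int (continuous_rhoR R) (hcs_rhoR hR) c1)
          ((kk_int (contDiff_tau _).continuous (hcs_tau he2) c1).const_mul _) fun z => ?_
        have := mul_le_mul_of_nonneg_right (hS₀ R hR z) (hX0 z)
        calc rhoR R z * (χ z * tnX N ε y z) ≤ _ := this
          _ = _ := by ring
      have h3 : S₀ / R ^ 2 * ∫ z, tau (Real.exp 2 * R) z * (χ z * tnX N ε y z) ≤ S₀ / R ^ 2 * (C₃ * R ^ 2) :=
        mul_le_mul_of_nonneg_left hint (by positivity)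
      have h4 : S₀ / R ^ 2 * (C₃ * R ^ 2) = S₀ * C₃ := by
        field_simp
      rw [h1, hA₁]
      have h5 : 0 ≤ S₀ * C₃ := mul_nonneg hS₀0 hC₃0
      have h6 := mul_le_mul_of_nonneg_right hpi1 h5
      rw [h4] at h3
      have h7 := h2.trans h3
      linarith only [h5, h6, h7]
    have hJ₁ := kk_jensen hR cf₁ hf₁1 hav₁
    -- comparison
    have cl₁ : Continuous fun z => Real.log (f₁ z) := cf₁.log fun z => (by linarith [hf₁1 z])
    have cl₂ : Continuous fun z => Real.log (f₂ z) := cf₂.log fun z => (by linarith [hf₂1 z])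
    have il₁ := kk_int (continuous_rhoR R) (hcs_rhoR hR) cl₁
    have il₂ := kk_int (continuous_rhoR R) (hcs_rhoR hR) cl₂
    have hcmp : ∫ z in S, rhoR R z * Real.log (1 + tnY ε y z) ≤ ∫ z, (rhoR R z * Real.log (f₁ z) + 3 * (rhoR R z * Real.log (f₂ z))) := by
      rw [← integral_indicator hS]
      refine integral_mono_of_nonneg (Eventually.of_forall fun z => ?_) (il₁.add (il₂.const_mul 3)) (Eventually.of_forall fun z => ?_)
      · refine indicator_nonneg (fun z _ => ?_) z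
        refine mul_nonneg (rhoR_nonneg R z) (Real.log_nonneg ?_)
        have : 0 ≤ tnY ε y z := by unfold tnY; positivity
        linarith
      · have hl₁ : 0 ≤ Real.log (f₁ z) := Real.log_nonneg (hf₁1 z)
        have hl₂ : 0 ≤ Real.log (f₂ z) := Real.log_nonneg (hf₂1 z)
        have hρ := rhoR_nonneg R z
        show S.indicator (fun z => rhoR R z * Real.log (1 + tnY ε y z)) z ≤ rhoR R z * Real.log (f₁ z) + 3 * (rhoR R z * Real.log (f₂ z))
        by_cases hz : z ∈ S
        · rw [indicator_of_mem hz]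
          have hzs := hSs z hz
          have hm := one_le_tnm hε (sq_nonneg ‖y z‖) (hN' z hzs)
          have hD : 0 < ‖y z‖ ^ 2 + ε := by positivity
          have e1 : f₁ z = 1 + tnX N ε y z := by
            show 1 + χ z * tnX N ε y z = _
            rw [hS1 z hz, one_mul]
          have e2 : f₂ z = tnm N ε (‖y z‖ ^ 2) := by
            show 1 + χ z * (tnm N ε (‖y z‖ ^ 2) - 1) = _
            rw [hS1 z hz, one_mul]
            ring
          have hX := tnX_nonneg hε (hN' z hzs)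
          have hYX : tnY ε y z = tnX N ε y z * tnm N ε (‖y z‖ ^ 2) ^ 3 := by
            have h4 : tnm N ε (‖y z‖ ^ 2) ≠ 0 := by linarith
            unfold tnY tnX
            field_simp
          have h5 : 1 + tnY ε y z ≤ (1 + tnX N ε y z) * tnm N ε (‖y z‖ ^ 2) ^ 3 := by
            rw [hYX]
            have : 1 ≤ tnm N ε (‖y z‖ ^ 2) ^ 3 := one_le_pow₀ hm
            rw [add_mul, one_mul]
            exact add_le_add_left this _
          have hY0 : 0 ≤ tnY ε y z := by unfold tnY; positivity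
          have h6 := Real.log_le_log (show 0 < 1 + tnY ε y z by linarith) h5
          rw [Real.log_mul (by linarith) (by positivity), Real.log_pow] at h6
          push_cast at h6
          rw [e1, e2]
          have := mul_le_mul_of_nonneg_left h6 hρ
          calc rhoR R z * Real.log (1 + tnY ε y z) ≤ _ := this
            _ = _ := by ring
        · rw [indicator_of_notMem hz]
          positivity
    rw [integral_add il₁ (il₂.const_mul 3), integral_const_mul] at hcmp
    have e3 : avg R (fun z => Real.log (f₁ z)) = ∫ z, rhoR R z * Real.log (f₁ z) := rfl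
    have e4 : avg R (fun z => Real.log (f₂ z)) = ∫ z, rhoR R z * Real.log (f₂ z) := rfl
    rw [e3] at hJ₁
    rw [e4] at hJ₂
    linarith
  -- the limit
  refine ⟨2 * Real.pi * Real.log A₁ + 6 * Real.pi * Real.log A₂ + 6 * Real.pi, ?_, fun R hR => ?_⟩
  · have h1 := Real.log_nonneg hA₁1
    have h2 := Real.log_nonneg hA₂1
    positivity
  set B : ℝ := 2 * Real.pi * Real.log A₁ + 3 * (2 * Real.pi * Real.log (A₂ * (1 + En F R))) with hBdef
  set N₁ : ℝ := |N| + 1 with hN₁
  have hN₁0 : 0 < N₁ := by positivity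
  -- the majorant
  have hmaj_i : Integrable fun z => rhoR R z * Real.log (N₁ + (C * lam F z) ^ 2) + 2 * (|Real.log B₁| * rhoR R z - rhoR R z * v z) := by
    refine (kk_int (continuous_rhoR R) (hcs_rhoR hR) ?_).add ((((ir R hR).const_mul _).sub (hvi R hR)).const_mul 2)
    refine (continuous_const.add ((continuous_const.mul hlc).pow 2)).log fun z => ?_
    have hsq := sq_nonneg (C * lam F z)
    have hpos : 0 < N₁ + (C * lam F z) ^ 2 := by linarith
    exact hpos.ne'
  have hmaj : ∀ᵐ z : ℂ, ∀ T : ℝ, 0 ≤ T → (z ∈ S → T ≤ (‖deriv y z‖ / ‖y z‖) ^ 2) →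
      ‖S.indicator (fun z => rhoR R z * Real.log (1 + T)) z‖ ≤
        rhoR R z * Real.log (N₁ + (C * lam F z) ^ 2) + 2 * (|Real.log B₁| * rhoR R z - rhoR R z * v z) := by
    filter_upwards [hae] with z hgz T hT hTS
    have hρ := rhoR_nonneg R z
    have hvz := hv0 z hgz
    have hlN : 0 ≤ Real.log (N₁ + (C * lam F z) ^ 2) := by
      refine Real.log_nonneg ?_
      have k1 := abs_nonneg N
      have k2 := sq_nonneg (C * lam F z)
      rw [hN₁]
      linarith only [k1, k2]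
    by_cases hz : z ∈ S
    · rw [indicator_of_mem hz]
      have hzs := hSs z hz
      obtain ⟨h1, h2⟩ := hly z hzs hgz
      have h3 : 0 < ‖y z‖ := norm_pos_iff.2 h1
      rw [Real.norm_of_nonneg (mul_nonneg hρ (Real.log_nonneg (by linarith)))]
      have h4 : 1 + T ≤ (N₁ + (C * lam F z) ^ 2) / ‖y z‖ ^ 2 := by
        have h5 := hTS hz
        have h6 := hN z hzs
        have h7 : ‖deriv y z‖ ^ 2 ≤ (C * lam F z) ^ 2 := pow_le_pow_left₀ (norm_nonneg _) (hy' z hzs) 2
        rw [le_div_iff₀ (by positivity)]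
        have h8 : (‖deriv y z‖ / ‖y z‖) ^ 2 * ‖y z‖ ^ 2 = ‖deriv y z‖ ^ 2 := by
          field_simp
        have h9 : T * ‖y z‖ ^ 2 ≤ ‖deriv y z‖ ^ 2 := by
          rw [← h8]
          exact mul_le_mul_of_nonneg_right h5 (sq_nonneg _)
        have g1 := le_abs_self N
        rw [hN₁, add_mul, one_mul]
        linarith only [h6, h7, h9, g1]
      have h5 := Real.log_le_log (by linarith) h4
      rw [Real.log_div (by positivity) (by positivity), Real.log_pow] at h5
      push_cast at h5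
      have h6 : Real.log (1 + T) ≤ Real.log (N₁ + (C * lam F z) ^ 2) + 2 * (|Real.log B₁| - v z) := by linarith
      have := mul_le_mul_of_nonneg_left h6 hρ
      calc rhoR R z * Real.log (1 + T) ≤ _ := this
        _ = _ := by ring
    · rw [indicator_of_notMem hz, norm_zero]
      have h1 := abs_nonneg (Real.log B₁)
      have h2 : 0 ≤ |Real.log B₁| * rhoR R z - rhoR R z * v z := by
        have : 0 ≤ rhoR R z * (|Real.log B₁| - v z) := mul_nonneg hρ (by linarith)
        linarith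
      have h3 := mul_nonneg hρ hlN
      linarith
  set ε : ℕ → ℝ := fun n => 1 / ((n : ℝ) + 1) with hε
  have hε0 : ∀ n, 0 < ε n := fun n => by
    show 0 < 1 / ((n : ℝ) + 1)
    positivity
  have hε1 : ∀ n, ε n ≤ 1 := fun n => by
    show 1 / ((n : ℝ) + 1) ≤ 1
    rw [div_le_one (by positivity)]
    have : (0 : ℝ) ≤ n := Nat.cast_nonneg n
    linarith
  set G : ℕ → ℂ → ℝ := fun n => S.indicator fun z => rhoR R z * Real.log (1 + tnY (ε n) y z) with hG
  set G₀ : ℂ → ℝ := S.indicator fun z => rhoR R z * Real.log (1 + (‖deriv y z‖ / ‖y z‖) ^ 2) with hG₀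
  have hGm : ∀ n, AEStronglyMeasurable (G n) volume := by
    intro n
    refine (aestronglyMeasurable_indicator_iff hS).2 (ContinuousOn.aestronglyMeasurable (fun z hz => ?_) hS)
    have hzs := hSs z hz
    have hyc : ContinuousAt (fun w => ‖y w‖ ^ 2) z := (hy z hzs).continuousAt.norm.pow 2
    have hdc : ContinuousAt (fun w => ‖deriv y w‖ ^ 2) z := (hy z hzs).deriv.continuousAt.norm.pow 2
    have hD : 0 < ‖y z‖ ^ 2 + ε n := by
      have := hε0 n
      positivity
    have hYc : ContinuousAt (fun w => 1 + tnY (ε n) y w) z :=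
      continuousAt_const.add ((hyc.mul hdc).div ((hyc.add continuousAt_const).pow 2) (by positivity))
    have hY0 : 0 ≤ tnY (ε n) y z := by unfold tnY; positivity
    exact ((continuous_rhoR R).continuousAt.mul (hYc.log (by linarith))).continuousWithinAt
  have hGlim : ∀ᵐ z : ℂ, Tendsto (fun n => G n z) atTop (𝓝 (G₀ z)) := by
    filter_upwards [hae] with z hgz
    by_cases hz : z ∈ S
    · have hzs := hSs z hz
      obtain ⟨h1, -⟩ := hly z hzs hgz
      have h3 : 0 < ‖y z‖ := norm_pos_iff.2 h1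
      have e1 : ∀ n, G n z = rhoR R z * Real.log (1 + tnY (ε n) y z) := fun n => indicator_of_mem hz _
      have e2 : G₀ z = rhoR R z * Real.log (1 + (‖deriv y z‖ / ‖y z‖) ^ 2) := indicator_of_mem hz _
      simp only [e1]
      rw [e2]
      have hεl : Tendsto ε atTop (𝓝 0) := tendsto_one_div_add_atTop_nhds_zero_nat
      have h4 : Tendsto (fun n => tnY (ε n) y z) atTop (𝓝 ((‖deriv y z‖ / ‖y z‖) ^ 2)) := by
        have h5 : Tendsto (fun n => (‖y z‖ ^ 2 + ε n) ^ 2) atTop (𝓝 ((‖y z‖ ^ 2 + 0) ^ 2)) := (tendsto_const_nhds.add hεl).pow 2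
        have h6 := (tendsto_const_nhds (x := ‖y z‖ ^ 2 * ‖deriv y z‖ ^ 2)).div h5 (by positivity)
        have e3 : ‖y z‖ ^ 2 * ‖deriv y z‖ ^ 2 / (‖y z‖ ^ 2 + 0) ^ 2 = (‖deriv y z‖ / ‖y z‖) ^ 2 := by
          rw [add_zero]
          field_simp
        rw [e3] at h6
        exact h6
      have h7 : Tendsto (fun n => 1 + tnY (ε n) y z) atTop (𝓝 (1 + (‖deriv y z‖ / ‖y z‖) ^ 2)) := tendsto_const_nhds.add h4
      exact tendsto_const_nhds.mul (h7.log (by positivity))
    · have e1 : ∀ n, G n z = 0 := fun n => indicator_of_notMem hz _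
      have e2 : G₀ z = 0 := indicator_of_notMem hz _
      simp only [e1]
      rw [e2]
      exact tendsto_const_nhds
  have hYle : ∀ n z, z ∈ S → g₀ z ≠ 0 → tnY (ε n) y z ≤ (‖deriv y z‖ / ‖y z‖) ^ 2 := by
    intro n z hz hgz
    obtain ⟨h1, -⟩ := hly z (hSs z hz) hgz
    have h3 : 0 < ‖y z‖ := norm_pos_iff.2 h1
    have hD : 0 < ‖y z‖ ^ 2 + ε n := by
      have := hε0 n
      positivity
    have e3 : (‖deriv y z‖ / ‖y z‖) ^ 2 = ‖y z‖ ^ 2 * ‖deriv y z‖ ^ 2 / (‖y z‖ ^ 2) ^ 2 := by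
      field_simp
    rw [e3]
    unfold tnY
    refine div_le_div_of_nonneg_left (by positivity) (by positivity) ?_
    exact pow_le_pow_left₀ (by positivity) (by linarith [hε0 n]) 2
  have hGb : ∀ n, ∀ᵐ z : ℂ, ‖G n z‖ ≤ rhoR R z * Real.log (N₁ + (C * lam F z) ^ 2) + 2 * (|Real.log B₁| * rhoR R z - rhoR R z * v z) := by
    intro n
    filter_upwards [hmaj, hae] with z hz hgz
    have h1 := hz (tnY (ε n) y z) (by unfold tnY; positivity) fun hzS => hYle n z hzS hgz
    have e1 : G n z = S.indicator (fun w => rhoR R w * Real.log (1 + tnY (ε n) y z)) z := by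
      by_cases hzS : z ∈ S
      · rw [hG]
        simp only [indicator_of_mem hzS]
      · rw [hG]
        simp only [indicator_of_notMem hzS]
    rw [e1]
    exact h1
  have hlim := tendsto_integral_of_dominated_convergence _ hGm hmaj_i hGb hGlim
  have hle' : ∫ z, G₀ z ≤ B := by
    refine le_of_tendsto' hlim fun n => ?_
    have h1 := main (ε n) (hε0 n) (hε1 n) R hR
    rw [← integral_indicator hS] at h1
    exact h1
  have hG₀i : Integrable G₀ := by
    refine hmaj_i.mono' (aestronglyMeasurable_of_tendsto_ae atTop hGm hGlim) ?_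
    filter_upwards [hmaj] with z hz
    have h1 := hz ((‖deriv y z‖ / ‖y z‖) ^ 2) (sq_nonneg _) fun _ => le_rfl
    have e1 : G₀ z = S.indicator (fun w => rhoR R w * Real.log (1 + (‖deriv y z‖ / ‖y z‖) ^ 2)) z := by
      by_cases hzS : z ∈ S
      · rw [hG₀]
        simp only [indicator_of_mem hzS]
      · rw [hG₀]
        simp only [indicator_of_notMem hzS]
    rw [e1]
    exact h1
  refine ⟨(integrable_indicator_iff hS).1 hG₀i, ?_⟩
  rw [integral_indicator hS] at hle'
  refine hle'.trans ?_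
  have h5 := hEn R hR
  have h6 : 0 ≤ Real.log (1 + En F R) := Real.log_nonneg (by linarith)
  rw [hBdef, Real.log_mul (by linarith) (by linarith)]
  have h1 := Real.log_nonneg hA₁1
  have h2 := Real.log_nonneg hA₂1
  have h7 : 0 ≤ 2 * Real.pi * Real.log A₁ * Real.log (1 + En F R) := by positivity
  have h8 : 0 ≤ 6 * Real.pi * Real.log A₂ * Real.log (1 + En F R) := by positivity
  linarith only [h7, h8, hpi]

end Pool.Agent.MQ
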