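import Pool.Agent.MQ.FDefs
import Pool.Agent.AD.T.NCDefs
import Pool.Agent.E1.Defs
import Pool.Agent.E2.NDefs

/-!
# MQ MDefs: curves which come from a surface with a reduced foliation
-/

set_option autoImplicit false

open Topology Filter MvPolynomial

noncomputable section

namespace Pool.Agent.MQ

open Pool.Agent.H17 (PN VanishesAt HolomorphicInto)
open Pool.Agent.H17EF (projVar)
open Pool.Agent.H13.OT (OrderTwo)

variable {N M : ℕ}

/-- The map `φ` is holomorphic on the closed subset `Y` of `ℙ^M`: near every point it is given by `N + 1` holomorphic functions of the homogeneous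
coordinates. -/
def HolomorphicMap (Y : Set (PN M)) (φ : PN M → PN N) : Prop :=
  ∀ (y : Fin (M + 1) → ℂ) (hy : y ≠ 0), Projectivization.mk ℂ y hy ∈ Y → ∃ v : (Fin (M + 1) → ℂ) → (Fin (N + 1) → ℂ), AnalyticAt ℂ v y ∧ v y ≠ 0 ∧
    ∀ᶠ w in 𝓝 y, ∀ (hw : w ≠ 0) (hv : v w ≠ 0), Projectivization.mk ℂ w hw ∈ Y → φ (Projectivization.mk ℂ w hw) = Projectivization.mk ℂ (v w) hv

/-- The entire curve `f` is the image under `φ` of an entire curve of order two in the surface of `P'`, which is tangent to the foliation `FF`. -/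
def Lifts (P' : Ideal (MvPolynomial (Fin (M + 1)) ℂ)) (FF : Set (Pool.Agent.H36.BP.EN M × Pool.Agent.H36.BP.EN M)) (φ : PN M → PN N) (f : ℂ → PN N) : Prop :=
  ∃ g : ℂ → PN M, HolomorphicInto g Set.univ ∧ OrderTwo g ∧ (∀ z, g z ∈ projVar P') ∧ IsLeafwise P' FF g ∧ ∀ z, φ (g z) = f z

end Pool.Agent.MQ
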