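import Pool.Agent.MQ.MDefs
import Pool.Agent.H90.SG.Poly

/-!
# MQ MStub: the target theorem and the descent to `X` (never import this file in a hand-in)
-/

set_option autoImplicit false

open Topology Filter MvPolynomial

noncomputable section

namespace Pool.Agent.MQ.MStub

open Pool.Agent.H36.BP (EN)
open Pool.Agent.H17 (PN VanishesAt HolomorphicInto)
open Pool.Agent.H17EF (projVar coneE)
open Pool.Agent.H17LG.Variety (FunField)
open Pool.Agent.H13.OT (OrderTwo)
open Pool.Agent.H62.FC (Homog)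
open Pool.Agent.AD.NC (IsSmooth IsOfLogGeneralType)

variable {N M : ℕ}

/-- MODULE Fin (helper60): **THE TARGET.** -/
theorem exists_R_leafwise {P : Ideal (MvPolynomial (Fin (M + 1)) ℂ)} [P.IsPrime] (hP : Homog P) (hdim : ∃ z : Fin 2 → FunField P, IsTranscendenceBasis ℂ z)
    (hsmooth : IsSmooth P 2) (hgt : IsOfLogGeneralType P (Fin.elim0 : Fin 0 → MvPolynomial (Fin (M + 1)) ℂ) 2) {FF : Set (EN M × EN M)}
    (hF : IsReduced P FF) :
    ∃ (R : MvPolynomial (Fin (M + 1)) ℂ) (d : ℕ), R.IsHomogeneous d ∧ R ∉ P ∧ ∀ g : ℂ → PN M, HolomorphicInto g Set.univ → OrderTwo g →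
      (∀ z, g z ∈ projVar P) → (∃ z w, g z ≠ g w) → IsLeafwise P FF g → ∀ z, VanishesAt R (g z) := by
  sorry

/-- MODULE Desc: the image of a curve is contained in a curve.  `{R' = 0}` in the surface of `P'` is covered by finitely many analytic discs (`E2.exists_discs`,
the set is `Proper`: in a chart the equation `R' ∘ σ` is not identically `0`), their images under the local lifts of `φ` are discs (smaller discs, by
compactness of the closed disc of radius `1 / 2`), `E1.exists_form_of_discs` with the cone `Z = {x ≠ 0 | [x] = φ y, y in the surface, R' y = 0}`. -/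
theorem descent {P : Ideal (MvPolynomial (Fin (N + 1)) ℂ)} [P.IsPrime] {z : Fin 2 → FunField P} (hz : IsTranscendenceBasis ℂ z)
    {P' : Ideal (MvPolynomial (Fin (M + 1)) ℂ)} [P'.IsPrime] (hP' : Homog P') {z' : Fin 2 → FunField P'} (hz' : IsTranscendenceBasis ℂ z')
    (hsm' : ∀ y : Fin (M + 1) → ℂ, y ≠ 0 → (∀ Q ∈ P', eval y Q = 0) → Module.finrank ℂ (Pool.Agent.H13.SM.conTan P' y) ≤ 3)
    {φ : PN M → PN N} (hφ : HolomorphicMap (projVar P') φ) {R' : MvPolynomial (Fin (M + 1)) ℂ} {d' : ℕ} (hR' : R'.IsHomogeneous d') (hRP' : R' ∉ P') :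
    ∃ (R : MvPolynomial (Fin (N + 1)) ℂ) (d : ℕ), R.IsHomogeneous d ∧ R ∉ P ∧ ∀ y ∈ projVar P', VanishesAt R' y → VanishesAt R (φ y) := by
  sorry

end Pool.Agent.MQ.MStub
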