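import Pool.Agent.MQ.VDefs
import Pool.Agent.H30M.Mean2

/-!
# MQ Mean: the flux of the gradient of a function with logarithmic singularities
-/

set_option autoImplicit false

open MeasureTheory Topology Filter Metric Laplacian

namespace Pool.Agent.MQ

open Pool.Agent.H30M (tau rhoR avg rho LogSing gg)

theorem gg_eq_ip' (u v : ℂ → ℝ) (z : ℂ) : gg u v z = ip (gr u z) (gr v z) := rfl

theorem LM.logSing {w : ℂ → ℝ} (hw : LM w) (a : ℂ) : ∃ c : ℝ, LogSing w c a := by
  obtain ⟨g, h, ψ, hg, hh, hψ, hev⟩ := hw a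
  have hne : ∀ {f : ℂ → ℂ}, AnalyticAt ℂ f a → (∀ᶠ z in 𝓝[≠] a, f z ≠ 0) → analyticOrderAt f a ≠ ⊤ := by
    intro f hf hf0 htop
    rw [analyticOrderAt_eq_top] at htop
    have h1 := (htop.filter_mono nhdsWithin_le_nhds).and hf0
    obtain ⟨z, hz, hz'⟩ := h1.exists
    exact hz' hz
  have h1 := LogSing.log_norm hg (hne hg (hev.mono fun z hz => hz.1))
  have h2 := LogSing.log_norm hh (hne hh (hev.mono fun z hz => hz.2.1))
  have h3 := (h1.sub h2).add (LogSing.of_contDiffAt hψ)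
  exact ⟨_, h3.congr (hev.mono fun z hz => hz.2.2)⟩

theorem mean {w : ℂ → ℝ} (hw : LM w) {R : ℝ} (hR : 1 ≤ R) : Integrable (fun z => rhoR R z * w z) ∧ Integrable (fun z => ip (gr (tau R) z) (gr w z)) ∧
    Fl (gr w) R = avg R w - avg 1 w := by
  choose c hc using hw.logSing
  refine ⟨LogSing.integrable_mul (Pool.Agent.H30M.continuous_rhoR R) (Pool.Agent.H30M.hcs_rhoR hR) fun z _ => hc z,
    LogSing.integrable_gg ((Pool.Agent.H30M.contDiff_tau R).of_le (by norm_num)) (Pool.Agent.H30M.hcs_tau hR) fun z _ => hc z, ?_⟩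
  exact LogSing.mean_tau hR fun z _ => hc z

end Pool.Agent.MQ
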