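import Pool.Agent.MQ.VDefs
import Pool.Agent.MQ.ResGen

/-!
# MQ ResV (V2): residues
-/

set_option autoImplicit false

open MeasureTheory Topology Filter Metric Laplacian

noncomputable section

namespace Pool.Agent.MQ

/-- `SPt` in terms of `HasRes` -/
theorem SPt.hasRes {V : ℂ → ℂ} {r a : ℂ} (h : SPt V r a) : HasRes V (dv V) r a := by
  obtain ⟨H, h1, h2⟩ := h
  refine ⟨H, h1, ?_, h2⟩
  have h3 : ∀ᶠ w in 𝓝[≠] a, V =ᶠ[𝓝 w] fun x => (starRingEnd ℂ) (r / (x - a)) + H x := by
    rw [eventually_nhdsWithin_iff] at h2 ⊢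
    filter_upwards [h2.eventually_nhds] with w hw hwz
    have : ∀ᶠ x in 𝓝 w, x ≠ a := isOpen_ne.mem_nhds hwz
    filter_upwards [hw, this] with x hx hxz
    exact hx hxz
  have h4 : ∀ᶠ w in 𝓝[≠] a, DifferentiableAt ℝ H w := by
    apply eventually_nhdsWithin_of_eventually_nhds
    filter_upwards [h1.eventually (by norm_num)] with w hw using hw.differentiableAt (by norm_num)
  filter_upwards [h3, h4, self_mem_nhdsWithin] with w e1 e2 e3
  have e3' : w - a ≠ 0 := sub_ne_zero.2 e3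
  have hG : DifferentiableAt ℂ (fun x : ℂ => r / (x - a)) w :=
    (differentiableAt_const r).div (differentiableAt_id.sub_const a) e3'
  rw [dv_congr e1, dv_add (hasFDerivAt_conj_holo hG).differentiableAt e2, dv_conj hG, zero_add]

/-- V2 -/
theorem res {φ : ℂ → ℝ} (hφ : ContDiff ℝ 1 φ) (hc : HasCompactSupport φ) {V : ℂ → ℂ} {r : ℂ → ℂ} (h : ∀ a ∈ tsupport φ, SPt V (r a) a) :
    Integrable (fun z => ip (gr φ z) (V z)) ∧ Integrable (fun z => φ z * dv V z) ∧ (Function.support fun z => (r z).re * φ z).Finite ∧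
      ∫ z, ip (gr φ z) (V z) = -(2 * Real.pi * ∑ᶠ z, (r z).re * φ z) - ∫ z, φ z * dv V z := by
  obtain ⟨h1, h2, h3, h4⟩ := res_gen hφ hc (fun a ha => (h a ha).hasRes)
  refine ⟨h1, h2, ?_, ?_⟩
  · refine h3.subset ?_
    intro z hz
    rw [Function.mem_support] at hz
    refine ⟨?_, ?_⟩
    · by_contra hn
      apply hz
      rw [image_eq_zero_of_notMem_tsupport hn, mul_zero]
    · intro h0
      apply hz
      rw [h0]; simp
  · rw [h4]; ring

end Pool.Agent.MQ
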