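import Pool.Agent.MQ.Fub
import Pool.Agent.MQ.ResV
import Pool.Agent.MQ.MeanV
import Pool.Agent.MQ.Jen
import Pool.Agent.MQ.Sel
import Pool.Agent.MQ.Bridge

/-!
# MQ OneVar: the assembly in one variable
-/

set_option autoImplicit false

open MeasureTheory Topology Filter Metric Laplacian

noncomputable section

namespace Pool.Agent.MQ

open Pool.Agent.H30M (tau rhoR avg rho contDiff_tau hcs_tau tau_nonneg)
open Pool.Agent.H36.BP (EN fs)

variable {N M : ℕ}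

/-- the flux of `s ∇ log ‖F‖` -/
theorem Fl_log {F : ℂ → EN N} (hF : Differentiable ℂ F) (hF0 : ∀ z, F z ≠ 0) (s : ℝ) {R : ℝ} (hR : 1 ≤ R) :
    Integrable (fun z => ip (gr (tau R) z) (gr (fun z => s * Real.log ‖F z‖) z)) ∧ Fl (gr fun z => s * Real.log ‖F z‖) R = 2 * s * En F R := by
  have hu : ∀ z, ContDiffAt ℝ 2 (fun z => s * Real.log ‖F z‖) z := fun z =>
    contDiffAt_const.mul (lap_log_norm (hF.analyticAt z) (hF0 z)).1
  constructor
  · exact int_ip (continuous_gr ((contDiff_tau R).of_le (by norm_num))) (hasCompactSupport_gr (hcs_tau hR)) fun z _ =>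
      continuousAt_gr ((hu z).of_le (by norm_num))
  · have h1 := green_lap' ((contDiff_tau R).of_le (by norm_num)) (hcs_tau hR) (fun z _ => hu z)
    rw [Fl, h1, neg_neg, En, ← integral_const_mul]
    refine integral_congr_ae (Eventually.of_forall fun z => ?_)
    have h2 : Δ (fun z => s * Real.log ‖F z‖) z = s * (2 * lam F z ^ 2) := by
      rw [← (lap_log_norm (hF.analyticAt z) (hF0 z)).2]
      have h3 := InnerProductSpace.laplacian_smul (v := s) (lap_log_norm (hF.analyticAt z) (hF0 z)).1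
      simpa [Pi.smul_def, smul_eq_mul] using h3
    simp only [h2]
    ring

/-- a field which is `O (lam)` has a flux `≤ C Len` -/
theorem Fl_le_of_bound {l : ℂ → ℝ} (hl : Continuous l) {V : ℂ → ℂ} {C : ℝ} (hV : ∀ᵐ z, ‖V z‖ ≤ C * l z) {R : ℝ}
    (hR : 1 ≤ R) : Fl V R ≤ C * ∫ z, ‖gr (tau R) z‖ * l z := by
  have hint : Integrable fun z => ‖gr (tau R) z‖ * l z := by
    have h1 : Continuous fun z => ‖gr (tau R) z‖ * l z :=
      (continuous_gr ((contDiff_tau R).of_le (by norm_num))).norm.mul hl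
    exact h1.integrable_of_hasCompactSupport ((hasCompactSupport_gr (hcs_tau hR)).norm.mul_right)
  rw [Fl, ← integral_neg, ← integral_const_mul]
  by_cases hi : Integrable fun z => ip (gr (tau R) z) (V z)
  · refine integral_mono_ae hi.neg (hint.const_mul C) ?_
    filter_upwards [hV] with z hz
    have h1 := abs_ip_le (gr (tau R) z) (V z)
    have h2 : ‖gr (tau R) z‖ * ‖V z‖ ≤ ‖gr (tau R) z‖ * (C * l z) := mul_le_mul_of_nonneg_left hz (norm_nonneg _)
    calc -ip (gr (tau R) z) (V z) ≤ |ip (gr (tau R) z) (V z)| := neg_le_abs _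
      _ ≤ ‖gr (tau R) z‖ * ‖V z‖ := h1
      _ ≤ C * (‖gr (tau R) z‖ * l z) := by linarith
  · have h0 : ∫ z, -ip (gr (tau R) z) (V z) = 0 := integral_undef fun h => hi (by simpa using h.neg)
    rw [h0]
    refine integral_nonneg_of_ae ?_
    filter_upwards [hV] with z hz
    have h1 : 0 ≤ C * l z := (norm_nonneg _).trans hz
    calc (0 : ℝ) ≤ ‖gr (tau R) z‖ * (C * l z) := mul_nonneg (norm_nonneg _) h1
      _ = C * (‖gr (tau R) z‖ * l z) := by ring

/-- **The assembly**, for a density `l`: `F` is the curve, `w = E + Φ`, `V` is the conjugate of the meromorphic function `Θ` (minus the fields `χ ζ'` at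
saddle-nodes), the fields `W i` are the `χ a` of the axes. -/
theorem oneVar_gen {F : ℂ → EN N} (hF : Differentiable ℂ F) (hF0 : ∀ z, F z ≠ 0) {l : ℂ → ℝ} (hl : Continuous l) (hl0 : ∀ z, 0 ≤ l z)
    (hne : ∃ z, l z ≠ 0) {B : ℝ} (hB : ∀ R, 1 ≤ R → ∫ z, tau R z * l z ^ 2 ≤ B * (En F R + 1))
    {g : ℂ → ℂ} (hg : Differentiable ℂ g) (hg0 : ∃ z, g z ≠ 0) {d : ℕ} (hgF : ∀ z, ‖g z‖ ≤ ‖F z‖ ^ d) {κ : ℝ} (hκ : 0 ≤ κ)
    {s : ℝ} {w : ℂ → ℝ} (hw : LM w) {ε₁ : ℝ} (hwb : ∃ C, ∀ R, 1 ≤ R → avg R w ≤ ε₁ * En F R + C * (1 + (∫ z, ‖gr (tau R) z‖ * l z)))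
    {V : ℂ → ℂ} {r : ℂ → ℂ} (hV : ∀ z, SPt V (r z) z) (hr : ∀ z, -(κ * mult g z) ≤ (r z).re) {ε₀ : ℝ}
    (hdv : ∃ C, ∀ R, 1 ≤ R → -(ε₀ * En F R) - C * (1 + (∫ z, ‖gr (tau R) z‖ * l z)) ≤ ∫ z, tau R z * dv V z)
    {ι : Type} [Fintype ι] {W : ι → ℂ → ℂ} {ε : ι → ℝ} (hWi : ∀ i R, 1 ≤ R → Integrable fun z => ip (gr (tau R) z) (W i z))
    (hW : ∀ i, ∃ C, ∀ R, 1 ≤ R → Fl (W i) R ≤ ε i * En F R + C * (1 + (∫ z, ‖gr (tau R) z‖ * l z)))
    (hrem : ∃ C, ∀ᵐ z, ‖V z + gr (fun z => s * Real.log ‖F z‖) z - gr w z - ∑ i, W i z‖ ≤ C * l z)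
    (hsmall : 2 * κ * d + ε₀ + ε₁ + ∑ i, ε i < 2 * s) : False := by
  obtain ⟨Cw, hwb⟩ := hwb
  obtain ⟨Cv, hdv⟩ := hdv
  choose CW hW using hW
  obtain ⟨Cr, hrem⟩ := hrem
  obtain ⟨Cj, hj⟩ := jen hF hF0 hg hg0 hgF
  have hLen : ∀ R, 0 ≤ (∫ z, ‖gr (tau R) z‖ * l z) := fun R => integral_nonneg fun z => mul_nonneg (norm_nonneg _) (hl0 z)
  -- the main inequality
  have hmain : ∃ C, 0 ≤ C ∧ ∀ R, 1 ≤ R → (2 * s - (2 * κ * d + ε₀ + ε₁ + ∑ i, ε i)) * En F R ≤ C * (1 + (∫ z, ‖gr (tau R) z‖ * l z)) := by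
    refine ⟨|Cw| + |avg 1 w| + ∑ i, |CW i| + |Cr| + |κ * Cj| + |Cv|, by positivity, fun R hR => ?_⟩
    obtain ⟨hui, hu⟩ := Fl_log hF hF0 s hR
    obtain ⟨-, hwi, hwf⟩ := mean hw hR
    obtain ⟨hVi, -, hfin, hVf⟩ := res ((contDiff_tau R).of_le (by norm_num)) (hcs_tau hR) fun a _ => hV a
    have hWs : Integrable fun z => ∑ i, ip (gr (tau R) z) (W i z) := integrable_finsetSum _ fun i _ => hWi i R hR
    -- the fluxes
    have hsum : Fl V R + 2 * s * En F R = (avg R w - avg 1 w) + ∑ i, Fl (W i) R +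
        Fl (fun z => V z + gr (fun z => s * Real.log ‖F z‖) z - gr w z - ∑ i, W i z) R := by
      have h1 : ∀ z, ip (gr (tau R) z) (V z + gr (fun z => s * Real.log ‖F z‖) z - gr w z - ∑ i, W i z) =
          ip (gr (tau R) z) (V z) + ip (gr (tau R) z) (gr (fun z => s * Real.log ‖F z‖) z) - ip (gr (tau R) z) (gr w z) -
            ∑ i, ip (gr (tau R) z) (W i z) := by
        intro z
        have h2 : ip (gr (tau R) z) (∑ i, W i z) = ∑ i, ip (gr (tau R) z) (W i z) := by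
          simp only [ip_eq_inner]
          rw [inner_sum]
        rw [ip_sub_right, ip_sub_right, ip_add_right, h2]
      have h3 : Fl (fun z => V z + gr (fun z => s * Real.log ‖F z‖) z - gr w z - ∑ i, W i z) R =
          Fl V R + Fl (gr fun z => s * Real.log ‖F z‖) R - Fl (gr w) R - ∑ i, Fl (W i) R := by
        simp only [Fl]
        rw [integral_congr_ae (Eventually.of_forall h1), integral_sub (by exact (hVi.add hui).sub hwi) hWs, integral_sub (by exact hVi.add hui) hwi,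
          integral_add hVi hui, integral_finsetSum _ fun i _ => hWi i R hR, Finset.sum_neg_distrib]
        ring
      rw [h3, hu, hwf]
      ring
    have hVlow : -(2 * κ * d * En F R) - κ * Cj - ε₀ * En F R - Cv * (1 + (∫ z, ‖gr (tau R) z‖ * l z)) ≤ Fl V R := by
      have h1 : Fl V R = 2 * Real.pi * ∑ᶠ z, (r z).re * tau R z + ∫ z, tau R z * dv V z := by
        rw [Fl, hVf]; ring
      have h2 : -(κ * ∑ᶠ z, mult g z * tau R z) ≤ ∑ᶠ z, (r z).re * tau R z := by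
        have htop : ∀ z ∈ tsupport (tau R), analyticOrderAt g z ≠ ⊤ := by
          intro z _ htop
          obtain ⟨z₁, hz₁⟩ := hg0
          have h3 : AnalyticOnNhd ℂ g Set.univ := fun w _ => hg.analyticAt w
          rw [analyticOrderAt_eq_top] at htop
          exact hz₁ (h3.eqOn_zero_of_preconnected_of_eventuallyEq_zero isPreconnected_univ (Set.mem_univ z) htop (Set.mem_univ z₁))
        have hfin2 : (Function.support fun z => mult g z * tau R z).Finite :=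
          Pool.Agent.H30M.pl_finite (hcs_tau hR) (fun z _ => hg.analyticAt z) htop
        have hfin3 : (Function.support fun z => -(κ * (mult g z * tau R z))).Finite :=
          hfin2.subset fun z hz h0 => hz (by
            have h5 : mult g z * tau R z = 0 := h0
            simp only [h5, mul_zero, neg_zero])
        rw [mul_finsum' _ _ hfin2, ← finsum_neg_distrib]
        exact finsum_le_finsum' hfin3 hfin fun z => by
          simp only
          have h4 := mul_le_mul_of_nonneg_right (hr z) (tau_nonneg hR z)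
          linarith
      have h3 := hj R hR
      have h4 := hdv R hR
      have h5 : -(κ * (2 * d * En F R + Cj)) ≤ 2 * Real.pi * ∑ᶠ z, (r z).re * tau R z := by
        have h6 : κ * (2 * Real.pi * ∑ᶠ z, mult g z * tau R z) ≤ κ * (2 * d * En F R + Cj) := mul_le_mul_of_nonneg_left h3 hκ
        have h7 := mul_le_mul_of_nonneg_left h2 (by positivity : (0 : ℝ) ≤ 2 * Real.pi)
        nlinarith
      rw [h1]
      nlinarith
    have hrl := Fl_le_of_bound hl hrem hR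
    have hWl : ∑ i, Fl (W i) R ≤ (∑ i, ε i) * En F R + (∑ i, |CW i|) * (1 + (∫ z, ‖gr (tau R) z‖ * l z)) := by
      rw [Finset.sum_mul, Finset.sum_mul, ← Finset.sum_add_distrib]
      refine Finset.sum_le_sum fun i _ => (hW i R hR).trans ?_
      have := mul_le_mul_of_nonneg_right (le_abs_self (CW i)) (by linarith [hLen R] : 0 ≤ 1 + (∫ z, ‖gr (tau R) z‖ * l z))
      linarith
    have hwl := hwb R hR
    have hL := hLen R
    have e1 := mul_le_mul_of_nonneg_right (le_abs_self Cw) (by linarith : 0 ≤ 1 + (∫ z, ‖gr (tau R) z‖ * l z))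
    have e2 : -avg 1 w ≤ |avg 1 w| * (1 + (∫ z, ‖gr (tau R) z‖ * l z)) := by
      nlinarith [neg_abs_le (avg 1 w), abs_nonneg (avg 1 w), mul_nonneg (abs_nonneg (avg 1 w)) hL]
    have e3 : Cr * (∫ z, ‖gr (tau R) z‖ * l z) ≤ |Cr| * (1 + (∫ z, ‖gr (tau R) z‖ * l z)) := by
      nlinarith [le_abs_self Cr, abs_nonneg Cr, mul_le_mul_of_nonneg_right (le_abs_self Cr) hL]
    have e4 : κ * Cj ≤ |κ * Cj| * (1 + (∫ z, ‖gr (tau R) z‖ * l z)) := by
      nlinarith [le_abs_self (κ * Cj), abs_nonneg (κ * Cj), mul_nonneg (abs_nonneg (κ * Cj)) hL]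
    have e5 := mul_le_mul_of_nonneg_right (le_abs_self Cv) (by linarith : 0 ≤ 1 + (∫ z, ‖gr (tau R) z‖ * l z))
    nlinarith
  obtain ⟨C, hC, hmain⟩ := hmain
  set δ : ℝ := 2 * s - (2 * κ * d + ε₀ + ε₁ + ∑ i, ε i) with hδ
  have hδ0 : 0 < δ := by linarith
  -- the selection
  have hq : 0 < δ / (2 * (C + 1) * (|B| + 1)) := by positivity
  obtain ⟨R, -, hR, hsel⟩ := sel hl hl0 hne hq (1 + δ) 1
  have h1 := hmain R hR
  have h2 := hB R hR
  have hE := En_nonneg F hR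
  have h3 : (∫ z, ‖gr (tau R) z‖ * l z) + (1 + δ) ≤ δ / (2 * (C + 1) * (|B| + 1)) * ((|B| + 1) * (En F R + 1)) := by
    refine hsel.trans (mul_le_mul_of_nonneg_left (h2.trans ?_) hq.le)
    have := le_abs_self B
    nlinarith
  have h4 : δ / (2 * (C + 1) * (|B| + 1)) * ((|B| + 1) * (En F R + 1)) = δ / (2 * (C + 1)) * (En F R + 1) := by
    have : |B| + 1 ≠ 0 := by positivity
    field_simp
  rw [h4] at h3
  have h5 : C * (1 + (∫ z, ‖gr (tau R) z‖ * l z)) ≤ (C + 1) * (δ / (2 * (C + 1)) * (En F R + 1) - δ) := by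
    have h6 : 1 + (∫ z, ‖gr (tau R) z‖ * l z) ≤ δ / (2 * (C + 1)) * (En F R + 1) - δ := by linarith
    have h7 := hLen R
    nlinarith
  have h6 : (C + 1) * (δ / (2 * (C + 1)) * (En F R + 1) - δ) = δ / 2 * (En F R + 1) - (C + 1) * δ := by
    have : C + 1 ≠ 0 := by positivity
    field_simp
  rw [h6] at h5
  nlinarith

theorem oneVar {F : ℂ → EN N} {G : ℂ → EN M} (hF : Differentiable ℂ F) (hF0 : ∀ z, F z ≠ 0) (hG : Differentiable ℂ G) (hG0 : ∀ z, G z ≠ 0)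
    (hne : ∃ z, lam G z ≠ 0) {B : ℝ} (hB : ∀ R, 1 ≤ R → En G R ≤ B * (En F R + 1))
    {g : ℂ → ℂ} (hg : Differentiable ℂ g) (hg0 : ∃ z, g z ≠ 0) {d : ℕ} (hgF : ∀ z, ‖g z‖ ≤ ‖F z‖ ^ d) {κ : ℝ} (hκ : 0 ≤ κ)
    {s : ℝ} {w : ℂ → ℝ} (hw : LM w) {ε₁ : ℝ} (hwb : ∃ C, ∀ R, 1 ≤ R → avg R w ≤ ε₁ * En F R + C * (1 + Len G R))
    {V : ℂ → ℂ} {r : ℂ → ℂ} (hV : ∀ z, SPt V (r z) z) (hr : ∀ z, -(κ * mult g z) ≤ (r z).re) {ε₀ : ℝ}
    (hdv : ∃ C, ∀ R, 1 ≤ R → -(ε₀ * En F R) - C * (1 + Len G R) ≤ ∫ z, tau R z * dv V z)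
    {ι : Type} [Fintype ι] {W : ι → ℂ → ℂ} {ε : ι → ℝ} (hWi : ∀ i R, 1 ≤ R → Integrable fun z => ip (gr (tau R) z) (W i z))
    (hW : ∀ i, ∃ C, ∀ R, 1 ≤ R → Fl (W i) R ≤ ε i * En F R + C * (1 + Len G R))
    (hrem : ∃ C, ∀ᵐ z, ‖V z + gr (fun z => s * Real.log ‖F z‖) z - gr w z - ∑ i, W i z‖ ≤ C * lam G z)
    (hsmall : 2 * κ * d + ε₀ + ε₁ + ∑ i, ε i < 2 * s) : False :=
  oneVar_gen hF hF0 (continuous_lam hG hG0) (lam_nonneg G) hne hB hg hg0 hgF hκ hw hwb hV hr hdv hWi hW hrem hsmall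

end Pool.Agent.MQ
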