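import Pool.Agent.MQ.FDefs

/-!
# MQ PassF: a curve through a saddle-node has infinite contact with the formal weak separatrix, or is the strong separatrix
-/

set_option autoImplicit false

open Topology Filter Asymptotics

noncomputable section

namespace Pool.Agent.MQ

/-- the order of a zero: `f = Θ((z - z₀)^n)` and `(z - z₀) f' / f → n` -/
theorem pf_order {f : ℂ → ℂ} {z₀ : ℂ} (hf : AnalyticAt ℂ f z₀) (h : ¬ ∀ᶠ z in 𝓝 z₀, f z = 0) :
    ∃ n : ℕ, f =Θ[𝓝 z₀] (fun z => (z - z₀) ^ n) ∧ Tendsto (fun z => (z - z₀) * deriv f z / f z) (𝓝[≠] z₀) (𝓝 n) ∧ (f z₀ = 0 → 1 ≤ n) := by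
  obtain ⟨n, u, hu, hu0, hfu⟩ := hf.exists_eventuallyEq_pow_smul_nonzero_iff.2 h
  simp only [smul_eq_mul] at hfu
  have huc : Tendsto u (𝓝 z₀) (𝓝 (u z₀)) := hu.continuousAt
  refine ⟨n, ?_, ?_, ?_⟩
  · have h1 : u =Θ[𝓝 z₀] fun _ => (1 : ℂ) := by
      refine ⟨huc.isBigO_one ℂ, ?_⟩
      have h2 : (fun z => (u z)⁻¹) =O[𝓝 z₀] fun _ => (1 : ℂ) := (huc.inv₀ hu0).isBigO_one ℂ
      have h3 := (isBigO_refl u (𝓝 z₀)).mul h2
      refine (IsBigO.congr' h3 ?_ ?_)
      · filter_upwards [hu.continuousAt.eventually_ne hu0] with z hz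
        exact mul_inv_cancel₀ hz
      · exact Eventually.of_forall fun z => mul_one _
    have h4 := (isTheta_refl (fun z : ℂ => (z - z₀) ^ n) (𝓝 z₀)).mul h1
    have hfu' : f =ᶠ[𝓝 z₀] fun z => (z - z₀) ^ n * u z := hfu
    refine (IsTheta.trans_eventuallyEq (hfu'.trans_isTheta h4) ?_)
    exact Eventually.of_forall fun z => mul_one _
  · have h1 : ∀ᶠ z in 𝓝 z₀, deriv f z = n * (z - z₀) ^ (n - 1) * u z + (z - z₀) ^ n * deriv u z := by
      filter_upwards [eventually_eventually_nhds.2 hfu, hu.eventually_analyticAt] with z hz hz'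
      rw [Filter.EventuallyEq.deriv_eq hz]
      have h2 : HasDerivAt (fun z : ℂ => (z - z₀) ^ n) (n * (z - z₀) ^ (n - 1) * 1) z := ((hasDerivAt_id z).sub_const z₀).pow n
      have h3 := h2.mul hz'.differentiableAt.hasDerivAt
      rw [mul_one] at h3
      exact h3.deriv
    have h2 : Tendsto (fun z => (n : ℂ) + (z - z₀) * deriv u z / u z) (𝓝[≠] z₀) (𝓝 n) := by
      have h3 : Tendsto (fun z => (n : ℂ) + (z - z₀) * deriv u z / u z) (𝓝 z₀) (𝓝 (n + (z₀ - z₀) * deriv u z₀ / u z₀)) := by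
        refine tendsto_const_nhds.add ((((continuous_id.sub continuous_const).tendsto z₀).mul hu.deriv.continuousAt.tendsto).div huc hu0)
      rw [sub_self, zero_mul, zero_div, add_zero] at h3
      exact h3.mono_left nhdsWithin_le_nhds
    refine h2.congr' ?_
    filter_upwards [h1.filter_mono nhdsWithin_le_nhds, Filter.EventuallyEq.filter_mono hfu nhdsWithin_le_nhds,
      (hu.continuousAt.eventually_ne hu0).filter_mono nhdsWithin_le_nhds, self_mem_nhdsWithin] with z h1 h2 h3 h4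
    have h5 : z - z₀ ≠ 0 := sub_ne_zero.2 h4
    rw [h1, h2]
    rcases Nat.eq_zero_or_pos n with rfl | hn
    · simp only [pow_zero, one_mul, Nat.cast_zero, zero_mul, zero_add]
    · obtain ⟨j, rfl⟩ : ∃ j, n = j + 1 := ⟨n - 1, by omega⟩
      rw [Nat.add_sub_cancel]
      field_simp
      ring
  · intro h0
    by_contra hn
    have hn0 : n = 0 := by omega
    subst hn0
    have := hfu.self_of_nhds
    rw [pow_zero, one_mul, h0] at this
    exact hu0 this.symm

/-- a function which is differentiable and bounded near `z₀`, except at `z₀`, has an analytic extension -/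
theorem pf_ext {f : ℂ → ℂ} {z₀ : ℂ} (hd : ∀ᶠ z in 𝓝[≠] z₀, DifferentiableAt ℂ f z) (hb : f =O[𝓝[≠] z₀] fun _ => (1 : ℂ)) :
    ∃ h : ℂ → ℂ, AnalyticAt ℂ h z₀ ∧ ∀ᶠ z in 𝓝[≠] z₀, h z = f z := by
  obtain ⟨C, hC⟩ := hb.bound
  obtain ⟨ε, hε, hs⟩ := Metric.mem_nhdsWithin_iff.1 (hd.and hC)
  refine ⟨Function.update f z₀ (limUnder (𝓝[≠] z₀) f), ?_, ?_⟩
  · refine (Complex.differentiableOn_update_limUnder_of_bddAbove (Metric.ball_mem_nhds z₀ hε) ?_ ?_).analyticAt (Metric.ball_mem_nhds z₀ hε)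
    · intro z hz
      exact ((hs ⟨hz.1, hz.2⟩).1).differentiableWithinAt
    · refine ⟨C, ?_⟩
      rintro _ ⟨z, hz, rfl⟩
      have := (hs ⟨hz.1, hz.2⟩).2
      rw [norm_one, mul_one] at this
      exact this
  · filter_upwards [self_mem_nhdsWithin] with z hz
    exact Function.update_of_ne hz _ _

variable {a b : ℂ × ℂ → ℂ} {k : ℕ} {c : ℕ → ℂ} {g : ℂ → ℂ × ℂ} {z₀ : ℂ}

theorem pf_jet_an (c : ℕ → ℂ) (J : ℕ) (t : ℂ) : AnalyticAt ℂ (jet c J) t := by
  unfold jet
  fun_prop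

theorem pf_jet_zero (c : ℕ → ℂ) (J : ℕ) : jet c J 0 = c 0 := by
  unfold jet
  rw [Finset.sum_eq_single 0]
  · simp
  · intro i _ hi
    simp [hi]
  · simp

/-- A curve through a saddle-node is the strong separatrix, or has infinite contact with the formal weak separatrix. -/
theorem contact_pass (hk : 1 ≤ k) (ha : AnalyticAt ℂ a 0) (hb : AnalyticAt ℂ b 0) (hb0 : fderiv ℂ b 0 (0, 1) ≠ 0) (hc : c 0 = 0)
    (hJ : ∀ J, (fun t => b (t, jet c J t) - deriv (jet c J) t * (t ^ (k + 1) * a (t, jet c J t))) =O[𝓝 0] fun t : ℂ => t ^ (J + 1))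
    (hg : AnalyticAt ℂ g z₀) (h0 : g z₀ = 0)
    (hode : ∀ᶠ z in 𝓝 z₀, (g z).1 ^ (k + 1) * a (g z) * (deriv g z).2 = b (g z) * (deriv g z).1) :
    (∀ᶠ z in 𝓝 z₀, (g z).1 = 0) ∨ ∀ J, (fun z => (g z).2 - jet c J (g z).1) =O[𝓝 z₀] fun z => (g z).1 ^ (J + 1) := by
  by_cases hX0 : ∀ᶠ z in 𝓝 z₀, (g z).1 = 0
  · exact Or.inl hX0
  refine Or.inr fun J => ?_
  have hX : AnalyticAt ℂ (fun z => (g z).1) z₀ := analyticAt_fst.comp hg
  have hY : AnalyticAt ℂ (fun z => (g z).2) z₀ := analyticAt_snd.comp hg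
  have hXz : (g z₀).1 = 0 := by rw [h0]; rfl
  have hYz : (g z₀).2 = 0 := by rw [h0]; rfl
  have hp : AnalyticAt ℂ (fun z => jet c J (g z).1) z₀ := (pf_jet_an c J _).comp hX
  have hw : AnalyticAt ℂ (fun z => (g z).2 - jet c J (g z).1) z₀ := hY.sub hp
  by_cases hw0 : ∀ᶠ z in 𝓝 z₀, (g z).2 - jet c J (g z).1 = 0
  · exact (EventuallyEq.trans_isBigO (f₁ := fun z => (g z).2 - jet c J (g z).1) (f₂ := fun _ => (0 : ℂ)) hw0 (isBigO_zero _ _))
  obtain ⟨m, hm1, hm2, hm3⟩ := pf_order hX hX0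
  obtain ⟨μ, hμ1, hμ2, hμ3⟩ := pf_order hw hw0
  have hm := hm3 hXz
  have hμ : 1 ≤ μ := hμ3 (by rw [hXz, hYz, pf_jet_zero, hc, sub_zero])
  have hpow : ∀ i j : ℕ, i ≤ j → (fun z : ℂ => (z - z₀) ^ j) =O[𝓝 z₀] fun z => (z - z₀) ^ i := fun i j hij => by
    have h1 : (fun z : ℂ => (z - z₀) ^ (j - i)) =O[𝓝 z₀] fun _ => (1 : ℂ) :=
      (((continuous_id.sub continuous_const).pow (j - i)).tendsto z₀).isBigO_one ℂ
    have h2 := (isBigO_refl (fun z : ℂ => (z - z₀) ^ i) (𝓝 z₀)).mul h1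
    refine h2.congr (fun z => ?_) fun z => mul_one _
    rw [← pow_add]
    congr 1
    omega
  by_cases hc1 : (J + 1) * m ≤ μ
  · have h2 : (fun z => (g z).1 ^ (J + 1)) =Θ[𝓝 z₀] fun z => (z - z₀) ^ (m * (J + 1)) :=
      (hm1.pow (J + 1)).trans_eventuallyEq (Eventually.of_forall fun z => (pow_mul _ _ _).symm)
    exact (hμ1.isBigO.trans (hpow _ _ (by rw [mul_comm]; exact hc1))).trans h2.symm.isBigO
  exfalso
  have hlt : μ + 1 ≤ m * (J + 1) := by
    rw [mul_comm]
    omega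
  -- the function E
  obtain ⟨E, hE⟩ : ∃ E : ℂ × ℂ → ℂ, E = fun p => b p - deriv (jet c J) p.1 * (p.1 ^ (k + 1) * a p) := ⟨_, rfl⟩
  have hEan : AnalyticAt ℂ E 0 := by
    rw [hE]
    refine hb.sub (AnalyticAt.mul ?_ ((analyticAt_fst.pow _).mul ha))
    exact ((pf_jet_an c J _).deriv).comp analyticAt_fst
  have hEd : fderiv ℂ E 0 (0, 1) = fderiv ℂ b 0 (0, 1) := by
    have h1 : HasFDerivAt (fun p : ℂ × ℂ => deriv (jet c J) p.1 * (p.1 ^ (k + 1) * a p)) (0 : ℂ × ℂ →L[ℂ] ℂ) 0 := by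
      have h2 : (fun p : ℂ × ℂ => deriv (jet c J) p.1 * (p.1 ^ (k + 1) * a p)) =O[𝓝 0] fun p => ‖p‖ ^ 2 := by
        have h3 : (fun p : ℂ × ℂ => p.1) =O[𝓝 0] fun p => ‖p‖ := IsBigO.of_bound 1 (Eventually.of_forall fun p => by
          rw [norm_norm, one_mul]; exact norm_fst_le p)
        have h4 : (fun p : ℂ × ℂ => p.1 ^ 2) =O[𝓝 0] fun p => ‖p‖ ^ 2 := h3.pow 2
        have h5 : (fun p : ℂ × ℂ => deriv (jet c J) p.1 * (p.1 ^ (k - 1) * a p)) =O[𝓝 0] fun _ => (1 : ℝ) := by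
          have h6 : AnalyticAt ℂ (fun p : ℂ × ℂ => deriv (jet c J) p.1 * (p.1 ^ (k - 1) * a p)) 0 :=
            AnalyticAt.mul (((pf_jet_an c J _).deriv).comp analyticAt_fst) ((analyticAt_fst.pow _).mul ha)
          exact h6.continuousAt.tendsto.isBigO_one ℝ
        have h7 := h4.mul h5
        refine h7.congr (fun p => ?_) fun p => mul_one _
        show p.1 ^ 2 * (deriv (jet c J) p.1 * (p.1 ^ (k - 1) * a p)) = deriv (jet c J) p.1 * (p.1 ^ (k + 1) * a p)
        have : p.1 ^ (k + 1) = p.1 ^ 2 * p.1 ^ (k - 1) := by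
          rw [← pow_add]
          congr 1
          omega
        rw [this]
        ring
      refine HasFDerivAt.of_isLittleO ?_
      simp only [sub_zero, _root_.zero_apply]
      have h8 : (fun p : ℂ × ℂ => ‖p‖ ^ 2) =o[𝓝 0] fun p => p := by
        rw [← isLittleO_norm_right]
        have h9 : (fun p : ℂ × ℂ => ‖p‖) =o[𝓝 0] fun _ => (1 : ℝ) := by
          rw [isLittleO_one_iff]
          exact tendsto_norm_zero
        have h10 := h9.mul_isBigO (isBigO_refl (fun p : ℂ × ℂ => ‖p‖) (𝓝 0))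
        refine h10.congr (fun p => by ring) fun p => by ring
      have h11 : ((0 : ℂ × ℂ).1 : ℂ) ^ (k + 1) = 0 := by simp
      rw [h11, zero_mul, mul_zero]
      simp only [sub_zero]
      exact h2.trans_isLittleO h8
    have h3 := (hb.differentiableAt.hasFDerivAt).sub h1
    have h4 : fderiv ℂ E 0 = fderiv ℂ b 0 - 0 := by
      rw [hE]
      exact h3.fderiv
    rw [h4, sub_zero]
  -- `E (X, Y) = E_y w + o (w)`
  have hE1 : (fun z => E (g z) - fderiv ℂ b 0 (0, 1) * ((g z).2 - jet c J (g z).1)) =o[𝓝 z₀] fun z => (z - z₀) ^ μ := by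
    have h1 := hEan.hasStrictFDerivAt.isLittleO
    have hpt : Tendsto (fun z => (g z, ((g z).1, jet c J (g z).1))) (𝓝 z₀) (𝓝 ((0 : ℂ × ℂ), (0 : ℂ × ℂ))) := by
      have h2 : ContinuousAt (fun z => (g z, ((g z).1, jet c J (g z).1))) z₀ := by
        exact hg.continuousAt.prodMk (hX.continuousAt.prodMk hp.continuousAt)
      have h3 := h2.tendsto
      rw [hXz, pf_jet_zero, hc, h0] at h3
      exact h3
    have h2 := h1.comp_tendsto (hpt.mono_right (by rw [nhds_prod_eq]))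
    have h3 : ((fun p : (ℂ × ℂ) × (ℂ × ℂ) => p.1 - p.2) ∘ fun z => (g z, ((g z).1, jet c J (g z).1))) =O[𝓝 z₀] fun z => (z - z₀) ^ μ := by
      refine IsBigO.trans (IsBigO.of_bound 1 (Eventually.of_forall fun z => ?_)) hμ1.isBigO
      simp only [Function.comp]
      rw [Prod.norm_def]
      simp
    have h4 := h2.trans_isBigO h3
    have h5 : (fun z => E ((g z).1, jet c J (g z).1)) =o[𝓝 z₀] fun z => (z - z₀) ^ μ := by
      have h6 : Tendsto (fun z => (g z).1) (𝓝 z₀) (𝓝 0) := by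
        have := hX.continuousAt.tendsto
        rwa [hXz] at this
      have h7 := (hJ J).comp_tendsto h6
      have h8 : (fun z => E ((g z).1, jet c J (g z).1)) =O[𝓝 z₀] fun z => (g z).1 ^ (J + 1) := by
        rw [hE]
        exact h7
      have h9 : (fun z => (g z).1 ^ (J + 1)) =O[𝓝 z₀] fun z => (z - z₀) ^ (m * (J + 1)) :=
        ((hm1.pow (J + 1)).trans_eventuallyEq (Eventually.of_forall fun z => (pow_mul _ _ _).symm)).isBigO
      have h10 := (h8.trans h9).trans (hpow (μ + 1) _ hlt)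
      have h11 : (fun z : ℂ => (z - z₀) ^ (μ + 1)) =o[𝓝 z₀] fun z => (z - z₀) ^ μ := by
        have h12 : (fun z : ℂ => z - z₀) =o[𝓝 z₀] fun _ => (1 : ℂ) := by
          rw [isLittleO_one_iff]
          have : Tendsto (fun z : ℂ => z - z₀) (𝓝 z₀) (𝓝 (z₀ - z₀)) := tendsto_id.sub tendsto_const_nhds
          rwa [sub_self] at this
        have h13 := h12.mul_isBigO (isBigO_refl (fun z : ℂ => (z - z₀) ^ μ) (𝓝 z₀))
        refine h13.congr (fun z => by ring) fun z => by ring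
      exact h10.trans_isLittleO h11
    refine (h4.add h5).congr' (Eventually.of_forall fun z => ?_) (EventuallyEq.refl _ _)
    simp only [Function.comp]
    have h6 : g z - ((g z).1, jet c J (g z).1) = ((g z).2 - jet c J (g z).1) • ((0 : ℂ), (1 : ℂ)) := by
      ext <;> simp
    rw [h6, map_smul, hEd, smul_eq_mul]
    ring
  -- the equation for w
  have heq : ∀ᶠ z in 𝓝 z₀, (g z).1 ^ (k + 1) * a (g z) * deriv (fun z => (g z).2 - jet c J (g z).1) z = deriv (fun z => (g z).1) z * E (g z) := by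
    filter_upwards [hode, hg.eventually_analyticAt] with z h1 h2
    have e1 : HasDerivAt g (deriv g z) z := h2.differentiableAt.hasDerivAt
    have e2 : HasDerivAt (fun z => (g z).1) (deriv g z).1 z := by
      have := (hasFDerivAt_fst (𝕜 := ℂ) (p := g z)).comp_hasDerivAt z e1
      exact this
    have e3 : HasDerivAt (fun z => (g z).2) (deriv g z).2 z := by
      have := (hasFDerivAt_snd (𝕜 := ℂ) (p := g z)).comp_hasDerivAt z e1
      exact this
    have e4 : HasDerivAt (fun z => jet c J (g z).1) (deriv (jet c J) (g z).1 * (deriv g z).1) z :=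
      HasDerivAt.comp z ((pf_jet_an c J _).differentiableAt.hasDerivAt) e2
    have e5 : deriv (fun z => (g z).2 - jet c J (g z).1) z = (deriv g z).2 - deriv (jet c J) (g z).1 * (deriv g z).1 := (e3.sub e4).deriv
    have e6 : deriv (fun z => (g z).1) z = (deriv g z).1 := e2.deriv
    rw [e5, e6, hE]
    linear_combination h1
  -- the limit
  have hne1 : ∀ᶠ z in 𝓝[≠] z₀, (g z).1 ≠ 0 := by
    rcases hX.eventually_eq_zero_or_eventually_ne_zero with h | h
    · exact absurd h hX0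
    · exact h
  have hne2 : ∀ᶠ z in 𝓝[≠] z₀, (g z).2 - jet c J (g z).1 ≠ 0 := by
    rcases hw.eventually_eq_zero_or_eventually_ne_zero with h | h
    · exact absurd h hw0
    · exact h
  have hL : Tendsto (fun z => (g z).1 ^ k * a (g z) * ((z - z₀) * deriv (fun z => (g z).2 - jet c J (g z).1) z / ((g z).2 - jet c J (g z).1)))
      (𝓝[≠] z₀) (𝓝 ((g z₀).1 ^ k * a (g z₀) * μ)) := by
    refine Tendsto.mul (Tendsto.mono_left ?_ nhdsWithin_le_nhds) hμ2
    have h1 : ContinuousAt (fun z => a (g z)) z₀ := by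
      refine ContinuousAt.comp ?_ hg.continuousAt
      rw [h0]
      exact ha.continuousAt
    exact ((hX.continuousAt.pow k).mul h1).tendsto
  have hR : Tendsto (fun z => (z - z₀) * deriv (fun z => (g z).1) z / (g z).1 * (E (g z) / ((g z).2 - jet c J (g z).1)))
      (𝓝[≠] z₀) (𝓝 (m * fderiv ℂ b 0 (0, 1))) := by
    refine Tendsto.mul hm2 ?_
    have h1 : (fun z => E (g z) - fderiv ℂ b 0 (0, 1) * ((g z).2 - jet c J (g z).1)) =o[𝓝[≠] z₀] fun z => (g z).2 - jet c J (g z).1 :=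
      (hE1.trans_isBigO hμ1.symm.isBigO).mono nhdsWithin_le_nhds
    have h2 := h1.tendsto_div_nhds_zero
    have h3 := h2.add (tendsto_const_nhds (x := fderiv ℂ b 0 (0, 1)))
    rw [zero_add] at h3
    refine h3.congr' ?_
    filter_upwards [hne2] with z hz
    field_simp
    ring
  rw [hXz, zero_pow (by omega), zero_mul, zero_mul] at hL
  have hLR : (fun z => (g z).1 ^ k * a (g z) * ((z - z₀) * deriv (fun z => (g z).2 - jet c J (g z).1) z / ((g z).2 - jet c J (g z).1))) =ᶠ[𝓝[≠] z₀]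
      fun z => (z - z₀) * deriv (fun z => (g z).1) z / (g z).1 * (E (g z) / ((g z).2 - jet c J (g z).1)) := by
    filter_upwards [hne1, hne2, heq.filter_mono nhdsWithin_le_nhds] with z h1 h2 h3
    rw [div_mul_div_comm, mul_assoc (z - z₀), ← h3]
    field_simp
    rw [pow_succ]
    ring
  have h5 := tendsto_nhds_unique (hL.congr' hLR) hR
  have h6 : (m : ℂ) ≠ 0 := by
    rw [Nat.cast_ne_zero]
    omega
  exact (mul_ne_zero h6 hb0) h5.symm

end Pool.Agent.MQ
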