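import Pool.Agent.MQ.Bridge
import Pool.Agent.MQ.Ker

/-!
The residue theorem against test functions: for `g` of class `C¹` with compact support,
`∫ ⟨grad g, conj (c / (z - a))⟩ = - 2 π Re c g(a)`.
-/

namespace Pool.Agent.MQ

open MeasureTheory Complex Filter Topology Metric Set

/-- The regularized field. -/
noncomputable def kf (c a : ℂ) (e : ℝ) (z : ℂ) : ℂ :=
  (((‖z - a‖ ^ 2 + e ^ 2)⁻¹ : ℝ) : ℂ) * ((starRingEnd ℂ) c * (z - a))

lemma hasFDerivAt_nsq (a z : ℂ) :
    HasFDerivAt (fun w : ℂ => ‖w - a‖ ^ 2) (2 • (innerSL ℝ (z - a))) z := by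
  have h1 : HasFDerivAt (fun w : ℂ => w - a) (ContinuousLinearMap.id ℝ ℂ) z :=
    (hasFDerivAt_id z).sub_const a
  have h2 := h1.norm_sq
  exact h2

lemma gr_nsq (a z : ℂ) : gr (fun w : ℂ => ‖w - a‖ ^ 2) z = 2 * (z - a) := by
  rw [(hasFDerivAt_nsq a z).gr, grL_apply]
  apply Complex.ext
  · simp [innerSL_apply_apply, Complex.inner]
  · simp [innerSL_apply_apply, Complex.inner]

lemma contDiff_nsq (a : ℂ) {n : WithTop ℕ∞} : ContDiff ℝ n (fun w : ℂ => ‖w - a‖ ^ 2) :=
  (contDiff_id.sub contDiff_const).norm_sq ℝ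

lemma contDiff_kf (c a : ℂ) {e : ℝ} (he : 0 < e) {n : WithTop ℕ∞} : ContDiff ℝ n (kf c a e) := by
  unfold kf
  have h1 : ContDiff ℝ n (fun w : ℂ => (‖w - a‖ ^ 2 + e ^ 2)⁻¹) := by
    apply ContDiff.inv ((contDiff_nsq a).add contDiff_const)
    intro x; positivity
  exact (Complex.ofRealCLM.contDiff.comp h1).mul
    (contDiff_const.mul (contDiff_id.sub contDiff_const))

lemma dv_kf (c a : ℂ) {e : ℝ} (he : 0 < e) (z : ℂ) :
    dv (kf c a e) z = c.re * (2 * e ^ 2 / (‖z - a‖ ^ 2 + e ^ 2) ^ 2) := by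
  have hpos : 0 < ‖z - a‖ ^ 2 + e ^ 2 := by positivity
  have hd1 : DifferentiableAt ℝ (fun w : ℂ => ‖w - a‖ ^ 2) z :=
    (hasFDerivAt_nsq a z).differentiableAt
  have hK : HasDerivAt (fun t : ℝ => (t + e ^ 2)⁻¹) (-((‖z - a‖ ^ 2 + e ^ 2) ^ 2)⁻¹)
      (‖z - a‖ ^ 2) := by
    have h1 : HasDerivAt (fun t : ℝ => t + e ^ 2) 1 (‖z - a‖ ^ 2) := (hasDerivAt_id _).add_const _
    have h2 := h1.inv hpos.ne'
    refine h2.congr_deriv ?_
    field_simp
  have hgr := gr_comp (u := fun w : ℂ => ‖w - a‖ ^ 2) hK hd1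
  have hg : DifferentiableAt ℝ (fun w : ℂ => (‖w - a‖ ^ 2 + e ^ 2)⁻¹) z := by
    have h := (hK.comp_hasFDerivAt z (hasFDerivAt_nsq a z)).differentiableAt
    exact h
  have hL : DifferentiableAt ℂ (fun w : ℂ => (starRingEnd ℂ) c * (w - a)) z := by fun_prop
  have hdL : deriv (fun w : ℂ => (starRingEnd ℂ) c * (w - a)) z = (starRingEnd ℂ) c := by
    have h : HasDerivAt (fun w : ℂ => (starRingEnd ℂ) c * (w - a)) ((starRingEnd ℂ) c * 1) z :=
      ((hasDerivAt_id z).sub_const a).const_mul _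
    rw [h.deriv, mul_one]
  have hdvL : dv (fun w : ℂ => (starRingEnd ℂ) c * (w - a)) z = 2 * c.re := by
    unfold dv
    rw [fderiv_holo hL, fderiv_holo hL, hdL]
    simp; ring
  have key := dv_mul (g := fun w : ℂ => (‖w - a‖ ^ 2 + e ^ 2)⁻¹)
    (V := fun w : ℂ => (starRingEnd ℂ) c * (w - a)) hg (hL.restrictScalars ℝ)
  have e1 : kf c a e = fun w => (((‖w - a‖ ^ 2 + e ^ 2)⁻¹ : ℝ) : ℂ) *
    ((starRingEnd ℂ) c * (w - a)) := rfl
  rw [e1, key, hdvL, hgr, gr_nsq, ip_smul_left]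
  have e2 : ip (2 * (z - a)) ((starRingEnd ℂ) c * (z - a)) = 2 * c.re * ‖z - a‖ ^ 2 := by
    rw [Complex.sq_norm, Complex.normSq_apply]
    simp [ip]; ring
  rw [e2]
  field_simp
  ring

lemma norm_kf_le (c a : ℂ) (e : ℝ) (z : ℂ) : ‖kf c a e z‖ ≤ ‖c‖ * ‖z - a‖⁻¹ := by
  unfold kf
  rw [norm_mul, norm_mul, Complex.norm_real, RCLike.norm_conj]
  by_cases h : z = a
  · rw [h]; simp
  · have hp : 0 < ‖z - a‖ := norm_pos_iff.2 (sub_ne_zero.2 h)
    have h1 : ‖(‖z - a‖ ^ 2 + e ^ 2)⁻¹‖ ≤ (‖z - a‖ ^ 2)⁻¹ := by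
      rw [Real.norm_of_nonneg (by positivity)]
      apply inv_anti₀ (by positivity)
      nlinarith [sq_nonneg e]
    calc ‖(‖z - a‖ ^ 2 + e ^ 2)⁻¹‖ * (‖c‖ * ‖z - a‖)
        ≤ (‖z - a‖ ^ 2)⁻¹ * (‖c‖ * ‖z - a‖) := by gcongr
      _ = ‖c‖ * ‖z - a‖⁻¹ := by field_simp

lemma kf_tendsto (c a z : ℂ) (hz : z ≠ a) :
    Tendsto (fun e : ℝ => kf c a e z) (𝓝[>] 0) (𝓝 ((starRingEnd ℂ) (c / (z - a)))) := by
  have hp : 0 < ‖z - a‖ := norm_pos_iff.2 (sub_ne_zero.2 hz)
  have hlim : (starRingEnd ℂ) (c / (z - a)) = kf c a 0 z := by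
    unfold kf
    have h0 : (z - a) ≠ 0 := sub_ne_zero.2 hz
    have h1 : ((‖z - a‖ ^ 2 : ℝ) : ℂ) = (z - a) * (starRingEnd ℂ) (z - a) := by
      rw [Complex.mul_conj, Complex.normSq_eq_norm_sq]
    have h2 : (starRingEnd ℂ) (z - a) ≠ 0 := (map_ne_zero _).2 h0
    rw [map_div₀]
    simp only [ne_eq, OfNat.ofNat_ne_zero, not_false_eq_true, zero_pow, add_zero,
      Complex.ofReal_inv]
    rw [h1]
    field_simp
  rw [hlim]
  have hc : ContinuousAt (fun e : ℝ => kf c a e z) 0 := by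
    unfold kf
    have h1 : ContinuousAt (fun e : ℝ => (‖z - a‖ ^ 2 + e ^ 2)⁻¹) 0 := by
      apply ContinuousAt.inv₀ (by fun_prop)
      positivity
    exact (Complex.continuous_ofReal.continuousAt.comp h1).mul continuousAt_const
  exact hc.tendsto.mono_left nhdsWithin_le_nhds

theorem integrableOn_inv_ball (r : ℝ) : IntegrableOn (fun z : ℂ => ‖z‖⁻¹) (ball 0 r) := by
  have h := (integrableOn_fun_norm_addHaar (E := ℂ) (μ := volume) (f := fun y => y⁻¹) (r := r)).2
  apply h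
  have h2 : IntegrableOn (fun _ : ℝ => (1 : ℝ)) (Ioo 0 r) := by simp
  refine h2.congr_fun (fun y hy => ?_) measurableSet_Ioo
  have hy0 : y ≠ 0 := hy.1.ne'
  simp [Complex.finrank_real_complex, hy0]

theorem locInt_inv (a : ℂ) : LocallyIntegrable (fun z : ℂ => ‖z - a‖⁻¹) := by
  have h0 : LocallyIntegrable (fun z : ℂ => ‖z‖⁻¹) := by
    intro z
    refine ⟨ball 0 (‖z‖ + 1), isOpen_ball.mem_nhds (by simp), integrableOn_inv_ball _⟩
  intro z
  obtain ⟨s, hs, hi⟩ := h0 (z - a)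
  refine ⟨(fun w => w - a) ⁻¹' s, ?_, ?_⟩
  · exact (continuous_id.sub continuous_const).continuousAt.preimage_mem_nhds hs
  · exact (measurePreserving_sub_right volume a).integrableOn_comp_preimage
      (MeasurableEquiv.subRight a).measurableEmbedding |>.2 hi

/-- The integrand of the residue formula is integrable. -/
theorem int_res (g : ℂ → ℂ) (hg : Continuous g) (hc : HasCompactSupport g) (c a : ℂ) :
    Integrable (fun z => ip (g z) ((starRingEnd ℂ) (c / (z - a)))) := by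
  have h1 : Integrable (fun z => (‖c‖ * ‖g z‖) * ‖z - a‖⁻¹) := by
    have hcn : Continuous (fun z => ‖c‖ * ‖g z‖) := by fun_prop
    have hcs : HasCompactSupport (fun z => ‖c‖ * ‖g z‖) := hc.norm.mul_left
    have := (locInt_inv a).integrable_smul_left_of_hasCompactSupport hcn hcs
    simpa [smul_eq_mul] using this
  refine h1.mono' ?_ ?_
  · have hm : Measurable (fun z => ip (g z) ((starRingEnd ℂ) (c / (z - a)))) := by
      unfold ip
      have hgm := hg.measurable
      have h2 : Measurable (fun z : ℂ => (starRingEnd ℂ) (c / (z - a))) :=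
        (Complex.continuous_conj.measurable).comp (by fun_prop)
      exact ((Complex.measurable_re.comp hgm).mul (Complex.measurable_re.comp h2)).add
        ((Complex.measurable_im.comp hgm).mul (Complex.measurable_im.comp h2))
    exact hm.aestronglyMeasurable
  · filter_upwards with z
    rw [Real.norm_eq_abs]
    refine (abs_ip_le _ _).trans (le_of_eq ?_)
    rw [RCLike.norm_conj, norm_div]
    rw [div_eq_mul_inv]; ring

/-- **Residue formula, one simple pole.** -/
theorem res_one {g : ℂ → ℝ} (hg : ContDiff ℝ 1 g) (hc : HasCompactSupport g) (c a : ℂ) :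
    ∫ z, ip (gr g z) ((starRingEnd ℂ) (c / (z - a))) = - (2 * Real.pi * (c.re * g a)) := by
  have hgr : Continuous (gr g) := continuous_gr hg
  have hgc : HasCompactSupport (gr g) := hasCompactSupport_gr hc
  -- the regularized identity
  have h1 : ∀ e : ℝ, 0 < e → ∫ z, ip (gr g z) (kf c a e z) =
      - (c.re * ∫ z, 2 * e ^ 2 / (‖z - a‖ ^ 2 + e ^ 2) ^ 2 * g z) := by
    intro e he
    rw [ibp hg hc (fun z _ => (contDiff_kf c a he).contDiffAt), ← integral_const_mul]
    congr 1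
    apply integral_congr_ae
    filter_upwards with z
    rw [dv_kf c a he]
    ring
  have hR : Tendsto (fun e : ℝ => - (c.re * ∫ z, 2 * e ^ 2 / (‖z - a‖ ^ 2 + e ^ 2) ^ 2 * g z))
      (𝓝[>] 0) (𝓝 (- (c.re * (2 * Real.pi * g a)))) :=
    ((ker_tendsto g hg.continuous hc a).const_mul c.re).neg
  have hL : Tendsto (fun e : ℝ => ∫ z, ip (gr g z) (kf c a e z)) (𝓝[>] 0)
      (𝓝 (∫ z, ip (gr g z) ((starRingEnd ℂ) (c / (z - a))))) := by
    apply tendsto_integral_filter_of_dominated_convergence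
      (fun z => (‖c‖ * ‖gr g z‖) * ‖z - a‖⁻¹)
    · filter_upwards [self_mem_nhdsWithin] with e he
      have he' : 0 < e := he
      exact (cont_ip hgr (fun z _ =>
        (contDiff_kf c a he' (n := 1)).continuous.continuousAt)).aestronglyMeasurable
    · filter_upwards with e
      filter_upwards with z
      rw [Real.norm_eq_abs]
      refine (abs_ip_le _ _).trans ?_
      calc ‖gr g z‖ * ‖kf c a e z‖ ≤ ‖gr g z‖ * (‖c‖ * ‖z - a‖⁻¹) := by
            gcongr; exact norm_kf_le c a e z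
        _ = (‖c‖ * ‖gr g z‖) * ‖z - a‖⁻¹ := by ring
    · have hcn : Continuous (fun z => ‖c‖ * ‖gr g z‖) := by fun_prop
      have hcs : HasCompactSupport (fun z => ‖c‖ * ‖gr g z‖) := hgc.norm.mul_left
      have := (locInt_inv a).integrable_smul_left_of_hasCompactSupport hcn hcs
      simpa [smul_eq_mul] using this
    · have hae : ∀ᵐ z : ℂ, z ≠ a := by
        have : ({a} : Set ℂ)ᶜ ∈ ae (volume : Measure ℂ) := by
          rw [compl_mem_ae_iff]; exact measure_singleton a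
        filter_upwards [this] with z hz using hz
      filter_upwards [hae] with z hz
      have h2 := kf_tendsto c a z hz
      have h3 : Continuous (fun w : ℂ => ip (gr g z) w) := by
        unfold ip
        exact (continuous_const.mul Complex.continuous_re).add
          (continuous_const.mul Complex.continuous_im)
      exact (h3.tendsto _).comp h2
  have hL' : Tendsto (fun e : ℝ => ∫ z, ip (gr g z) (kf c a e z)) (𝓝[>] 0)
      (𝓝 (- (c.re * (2 * Real.pi * g a)))) := by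
    refine hR.congr' ?_
    filter_upwards [self_mem_nhdsWithin] with e he
    rw [h1 e he]
  rw [tendsto_nhds_unique hL hL']
  ring

end Pool.Agent.MQ
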