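import Pool.Agent.MQ.Ibp
import Pool.Agent.MQ.Ker

/-!
# MQ/ResForm: the residue formula `-∫ ∇ψ ⬝ Re(Θ dz) = 2 π ∑ Re(res) ψ`

`Θ` has at most simple poles on the support of `ψ`.
-/

set_option autoImplicit false

open MeasureTheory Topology Filter Set

noncomputable section

namespace Pool.Agent.MQ.RF

/-- `Θ = c / (w - z) + holomorphic` near `z` -/
def HasRes (Θ : ℂ → ℂ) (c z : ℂ) : Prop :=
  ∃ h : ℂ → ℂ, AnalyticAt ℂ h z ∧ ∀ᶠ w in 𝓝[≠] z, Θ w = c / (w - z) + h w

/-- `∇ψ ⬝ Re(Θ dz)` -/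
def flx (ψ : ℂ → ℝ) (Θ : ℂ → ℂ) (z : ℂ) : ℝ := dx ψ z * (Θ z).re - dy ψ z * (Θ z).im

theorem flx_add (ψ : ℂ → ℝ) (Θ₁ Θ₂ : ℂ → ℂ) (z : ℂ) : flx ψ (fun w => Θ₁ w + Θ₂ w) z = flx ψ Θ₁ z + flx ψ Θ₂ z := by
  simp only [flx, Complex.add_re, Complex.add_im]; ring

theorem abs_flx_le (ψ : ℂ → ℝ) (Θ : ℂ → ℂ) (z : ℂ) : |flx ψ Θ z| ≤ (|dx ψ z| + |dy ψ z|) * ‖Θ z‖ := by
  unfold flx
  have h1 := Complex.abs_re_le_norm (Θ z)
  have h2 := Complex.abs_im_le_norm (Θ z)
  calc |dx ψ z * (Θ z).re - dy ψ z * (Θ z).im| ≤ |dx ψ z * (Θ z).re| + |dy ψ z * (Θ z).im| := abs_sub _ _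
    _ = |dx ψ z| * |(Θ z).re| + |dy ψ z| * |(Θ z).im| := by rw [abs_mul, abs_mul]
    _ ≤ _ := by nlinarith [abs_nonneg (dx ψ z), abs_nonneg (dy ψ z)]

section

variable {ψ : ℂ → ℝ}

theorem continuous_dx' (hψ : ContDiff ℝ 1 ψ) : Continuous (dx ψ) := (hψ.continuous_fderiv one_ne_zero).clm_apply continuous_const

theorem continuous_dy' (hψ : ContDiff ℝ 1 ψ) : Continuous (dy ψ) := (hψ.continuous_fderiv one_ne_zero).clm_apply continuous_const

theorem dx_eq_zero_of_notMem {z : ℂ} (hz : z ∉ tsupport ψ) : dx ψ z = 0 := by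
  have h : z ∉ tsupport fun z => fderiv ℝ ψ z (1 : ℂ) := fun h => hz (tsupport_fderiv_apply_subset ℝ 1 h)
  exact image_eq_zero_of_notMem_tsupport h

theorem dy_eq_zero_of_notMem {z : ℂ} (hz : z ∉ tsupport ψ) : dy ψ z = 0 := by
  have h : z ∉ tsupport fun z => fderiv ℝ ψ z Complex.I := fun h => hz (tsupport_fderiv_apply_subset ℝ Complex.I h)
  exact image_eq_zero_of_notMem_tsupport h

theorem hcs_dx (hc : HasCompactSupport ψ) : HasCompactSupport (dx ψ) :=
  hc.of_isClosed_subset (isClosed_tsupport _) (tsupport_fderiv_apply_subset ℝ (1 : ℂ))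

theorem hcs_dy (hc : HasCompactSupport ψ) : HasCompactSupport (dy ψ) :=
  hc.of_isClosed_subset (isClosed_tsupport _) (tsupport_fderiv_apply_subset ℝ Complex.I)

/-- flux of a `C^1` field -/
theorem flx_integral_smooth (hψ : ContDiff ℝ 1 ψ) (hc : HasCompactSupport ψ) {V : ℂ → ℂ}
    (hV : ∀ z ∈ tsupport ψ, ContDiffAt ℝ 1 V z) : Integrable (flx ψ V) ∧
      -∫ z, flx ψ V z = ∫ z, ψ z * (fderiv ℝ V z 1 + Complex.I * fderiv ℝ V z Complex.I).re := by
  have hre : ∀ z ∈ tsupport ψ, ContDiffAt ℝ 1 (fun z => (V z).re) z := fun z hz => Complex.reCLM.contDiff.contDiffAt.comp z (hV z hz)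
  have him : ∀ z ∈ tsupport ψ, ContDiffAt ℝ 1 (fun z => -(V z).im) z := fun z hz =>
    (Complex.imCLM.contDiff.contDiffAt.comp z (hV z hz)).neg
  have h := ibp_div hψ hc hre him
  have i1 : Integrable fun z => dx ψ z * (V z).re :=
    integrable_mul_of_tsupport (continuous_dx' hψ) (hcs_dx hc) fun z hz => (hre z (tsupport_fderiv_apply_subset ℝ (1 : ℂ) hz)).continuousAt
  have i2 : Integrable fun z => dy ψ z * -(V z).im :=
    integrable_mul_of_tsupport (continuous_dy' hψ) (hcs_dy hc) fun z hz => (him z (tsupport_fderiv_apply_subset ℝ Complex.I hz)).continuousAt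
  have e1 : ∀ z, flx ψ V z = dx ψ z * (V z).re + dy ψ z * -(V z).im := fun z => by unfold flx; ring
  refine ⟨(i1.add i2).congr (Eventually.of_forall fun z => (e1 z).symm), ?_⟩
  have e2 : ∀ z, ψ z * (fderiv ℝ V z 1 + Complex.I * fderiv ℝ V z Complex.I).re
      = ψ z * (dx (fun z => (V z).re) z + dy (fun z => -(V z).im) z) := by
    intro z
    by_cases hz : z ∈ tsupport ψ
    · have hd := (hV z hz).differentiableAt one_ne_zero
      have h1 : HasFDerivAt (fun z => (V z).re) (Complex.reCLM.comp (fderiv ℝ V z)) z := Complex.reCLM.hasFDerivAt.comp z hd.hasFDerivAt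
      have h2 : HasFDerivAt (fun z => -(V z).im) (-(Complex.imCLM.comp (fderiv ℝ V z))) z :=
        (Complex.imCLM.hasFDerivAt.comp z hd.hasFDerivAt).neg
      unfold dx dy
      rw [h1.fderiv, h2.fderiv]
      simp
    · rw [image_eq_zero_of_notMem_tsupport hz]; simp
  rw [integral_congr_ae (Eventually.of_forall e1), integral_congr_ae (Eventually.of_forall e2), h]

/-- no residues: no flux -/
theorem flx_integral_hol (hψ : ContDiff ℝ 1 ψ) (hc : HasCompactSupport ψ) {h : ℂ → ℂ} (hh : ∀ z ∈ tsupport ψ, AnalyticAt ℂ h z) :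
    Integrable (flx ψ h) ∧ -∫ z, flx ψ h z = 0 := by
  have h1 := flx_integral_smooth hψ hc (V := h) fun z hz => (hh z hz).contDiffAt.restrict_scalars ℝ
  refine ⟨h1.1, h1.2.trans ?_⟩
  rw [← integral_zero ℂ ℝ]
  refine integral_congr_ae (Eventually.of_forall fun z => ?_)
  by_cases hz : z ∈ tsupport ψ
  · have hd : fderiv ℝ h z = (fderiv ℂ h z).restrictScalars ℝ := (hh z hz).differentiableAt.fderiv_restrictScalars ℝ
    have e : fderiv ℂ h z Complex.I = Complex.I * fderiv ℂ h z 1 := by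
      rw [← smul_eq_mul, ← map_smul]; simp
    simp only [hd, ContinuousLinearMap.coe_restrictScalars', e]
    rw [← mul_assoc, Complex.I_mul_I]
    simp
  · simp [image_eq_zero_of_notMem_tsupport hz]

end

/-! ## one pole -/

/-- the regularized pole -/
def pole (c : ℂ) (ε : ℝ) (w : ℂ) : ℂ := c * (starRingEnd ℂ w * (((w.re ^ 2 + w.im ^ 2 + ε ^ 2 : ℝ)⁻¹ : ℝ) : ℂ))

theorem sq_re_im (w : ℂ) : w.re ^ 2 + w.im ^ 2 = ‖w‖ ^ 2 := by
  rw [Complex.sq_norm, Complex.normSq_apply]; ring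

theorem contDiff_pole {ε : ℝ} (hε : 0 < ε) (c : ℂ) : ContDiff ℝ 1 (pole c ε) := by
  unfold pole
  refine contDiff_const.mul (ContDiff.mul ?_ ?_)
  · exact (Complex.conjCLE : ℂ →L[ℝ] ℂ).contDiff
  · refine Complex.ofRealCLM.contDiff.comp ?_
    refine ContDiff.inv ?_ fun w => by positivity
    exact ((Complex.reCLM.contDiff.pow 2).add (Complex.imCLM.contDiff.pow 2)).add contDiff_const

theorem fderiv_pole {ε : ℝ} (hε : 0 < ε) (c w : ℂ) :
    fderiv ℝ (pole c ε) w 1 + Complex.I * fderiv ℝ (pole c ε) w Complex.I = c * (ker ε w : ℝ) := by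
  have h2 : HasFDerivAt (fun z : ℂ => starRingEnd ℂ z) (Complex.conjCLE : ℂ →L[ℝ] ℂ) w := (Complex.conjCLE : ℂ →L[ℝ] ℂ).hasFDerivAt
  have h3 : HasFDerivAt (fun z : ℂ => z.re) Complex.reCLM w := Complex.reCLM.hasFDerivAt
  have h4 : HasFDerivAt (fun z : ℂ => z.im) Complex.imCLM w := Complex.imCLM.hasFDerivAt
  have h5 : HasFDerivAt (fun z : ℂ => z.re ^ 2 + z.im ^ 2 + ε ^ 2) _ w := ((h3.pow 2).add (h4.pow 2)).add_const (ε ^ 2)
  have hD : w.re ^ 2 + w.im ^ 2 + ε ^ 2 ≠ 0 := by positivity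
  have h6 := ((hasDerivAt_inv hD).comp_hasFDerivAt w h5)
  have h7 := Complex.ofRealCLM.hasFDerivAt.comp w h6
  have h8 : HasFDerivAt (pole c ε) _ w := (h2.mul h7).const_mul c
  rw [h8.fderiv]
  simp only [Function.comp_apply, add_apply, smul_apply, ker, ← sq_re_im]
  have hD' : ((w.re : ℂ) ^ 2 + (w.im : ℂ) ^ 2 + (ε : ℂ) ^ 2) ≠ 0 := by exact_mod_cast hD
  have hc : starRingEnd ℂ w = w.re - w.im * Complex.I := by
    apply Complex.ext <;> simp
  rw [hc]
  generalize w.re = a at *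
  generalize w.im = b at *
  have hI : Complex.I ^ 2 = -1 := Complex.I_sq
  simp
  field_simp
  ring_nf
  simp only [hI]
  ring_nf

theorem norm_pole_le (c : ℂ) (ε : ℝ) (w : ℂ) : ‖pole c ε w‖ ≤ ‖c‖ * ‖w‖⁻¹ := by
  unfold pole
  rw [norm_mul]
  refine mul_le_mul_of_nonneg_left ?_ (norm_nonneg c)
  rw [norm_mul, RCLike.norm_conj, Complex.norm_real, sq_re_im, Real.norm_of_nonneg (by positivity)]
  rcases eq_or_ne w 0 with rfl | hw
  · simp
  · have h1 : 0 < ‖w‖ := norm_pos_iff.2 hw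
    have h2 : (‖w‖ ^ 2 + ε ^ 2)⁻¹ ≤ (‖w‖ ^ 2)⁻¹ := inv_anti₀ (by positivity) (by nlinarith [sq_nonneg ε])
    calc ‖w‖ * (‖w‖ ^ 2 + ε ^ 2)⁻¹ ≤ ‖w‖ * (‖w‖ ^ 2)⁻¹ := mul_le_mul_of_nonneg_left h2 (norm_nonneg w)
      _ = ‖w‖⁻¹ := by field_simp

theorem pole_tendsto (c : ℂ) {w : ℂ} (hw : w ≠ 0) : Tendsto (fun ε : ℝ => pole c ε w) (𝓝[>] 0) (𝓝 (c / w)) := by
  have h0 : w.re ^ 2 + w.im ^ 2 + 0 ^ 2 ≠ 0 := by
    rw [sq_re_im]
    have h1 : 0 < ‖w‖ := norm_pos_iff.2 hw
    positivity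
  have h1 : Tendsto (fun ε : ℝ => (w.re ^ 2 + w.im ^ 2 + ε ^ 2)⁻¹) (𝓝 0) (𝓝 (w.re ^ 2 + w.im ^ 2 + 0 ^ 2)⁻¹) := by
    refine Tendsto.inv₀ ?_ h0
    have : Continuous fun ε : ℝ => w.re ^ 2 + w.im ^ 2 + ε ^ 2 := by fun_prop
    exact this.tendsto 0
  have h2 := (((Complex.continuous_ofReal.tendsto _).comp h1).const_mul (starRingEnd ℂ w)).const_mul c
  have e : c * (starRingEnd ℂ w * (((w.re ^ 2 + w.im ^ 2 + 0 ^ 2)⁻¹ : ℝ) : ℂ)) = c / w := by
    rw [sq_re_im]
    have h3 : ((‖w‖ ^ 2 : ℝ) : ℂ) = starRingEnd ℂ w * w := by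
      rw [← Complex.normSq_eq_norm_sq, Complex.normSq_eq_conj_mul_self]
    have h4 : starRingEnd ℂ w ≠ 0 := by simpa using hw
    have h5 : ((‖w‖ ^ 2 + 0 ^ 2 : ℝ) : ℂ) = starRingEnd ℂ w * w := by rw [← h3]; simp
    rw [Complex.ofReal_inv, h5]
    field_simp
  rw [e] at h2
  exact h2.mono_left nhdsWithin_le_nhds

theorem locInt_inv (s : ℂ) : LocallyIntegrable fun z : ℂ => ‖z - s‖⁻¹ := by
  have hb : ∀ r : ℝ, IntegrableOn (fun z : ℂ => ‖z‖⁻¹) (Metric.ball 0 r) := by
    intro r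
    have h := (integrableOn_fun_norm_addHaar (E := ℂ) (μ := volume) (f := fun y : ℝ => y⁻¹) (r := r)).2
    apply h
    have h2 : IntegrableOn (fun _ : ℝ => (1 : ℝ)) (Ioo 0 r) := by simp
    refine h2.congr_fun (fun y hy => ?_) measurableSet_Ioo
    have hy0 : (0 : ℝ) < y := hy.1
    simp [Complex.finrank_real_complex, hy0.ne']
  have h0 : LocallyIntegrable (fun z : ℂ => ‖z‖⁻¹) := by
    intro z
    refine ⟨Metric.ball 0 (‖z‖ + 1), Metric.isOpen_ball.mem_nhds (by simp), hb _⟩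
  intro z
  obtain ⟨t, ht, hi⟩ := h0 (z - s)
  refine ⟨(fun w => w - s) ⁻¹' t, (continuous_sub_right s).continuousAt.preimage_mem_nhds ht, ?_⟩
  have hmp : MeasurePreserving (fun w : ℂ => w - s) volume volume := measurePreserving_sub_right volume s
  exact (hmp.integrableOn_comp_preimage (MeasurableEquiv.subRight s).measurableEmbedding).2 hi

/-- the flux of one pole -/
theorem flx_integral_pole {ψ : ℂ → ℝ} (hψ : ContDiff ℝ 1 ψ) (hc : HasCompactSupport ψ) (c s : ℂ) :
    Integrable (flx ψ fun z => c / (z - s)) ∧ -∫ z, flx ψ (fun z => c / (z - s)) z = 2 * Real.pi * (c.re * ψ s) := by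
  have hdom : Integrable fun z => (|dx ψ z| + |dy ψ z|) * (‖c‖ * ‖z - s‖⁻¹) := by
    have hcont : Continuous fun z => |dx ψ z| + |dy ψ z| := (continuous_dx' hψ).abs.add (continuous_dy' hψ).abs
    have hcs : HasCompactSupport fun z => |dx ψ z| + |dy ψ z| :=
      HasCompactSupport.intro hc fun z hz => by rw [dx_eq_zero_of_notMem hz, dy_eq_zero_of_notMem hz]; simp
    have h1 := (locInt_inv s).integrable_smul_left_of_hasCompactSupport hcont hcs
    refine (h1.const_mul ‖c‖).congr (Eventually.of_forall fun z => ?_)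
    simp only [smul_eq_mul]
    ring
  have hmeas : AEStronglyMeasurable (flx ψ fun z => c / (z - s)) := by
    have h1 : Measurable fun z : ℂ => c / (z - s) := measurable_const.div (measurable_id.sub_const s)
    exact (((continuous_dx' hψ).measurable.mul (Complex.measurable_re.comp h1)).sub
      ((continuous_dy' hψ).measurable.mul (Complex.measurable_im.comp h1))).aestronglyMeasurable
  have hle : ∀ z, |flx ψ (fun z => c / (z - s)) z| ≤ (|dx ψ z| + |dy ψ z|) * (‖c‖ * ‖z - s‖⁻¹) := fun z => by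
    refine (abs_flx_le ψ _ z).trans (le_of_eq ?_)
    rw [norm_div, div_eq_mul_inv]
  have hint : Integrable (flx ψ fun z => c / (z - s)) :=
    hdom.mono' hmeas (Eventually.of_forall fun z => by rw [Real.norm_eq_abs]; exact hle z)
  refine ⟨hint, ?_⟩
  have hε : ∀ ε : ℝ, 0 < ε → -∫ z, flx ψ (fun z => pole c ε (z - s)) z = c.re * ∫ z, ker ε (z - s) * ψ z := by
    intro ε hε
    have hcd : ContDiff ℝ 1 fun z => pole c ε (z - s) := (contDiff_pole hε c).comp (contDiff_id.sub contDiff_const)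
    rw [(flx_integral_smooth hψ hc fun z _ => hcd.contDiffAt).2, ← integral_const_mul]
    refine integral_congr_ae (Eventually.of_forall fun z => ?_)
    simp only
    have h1 : ∀ v, fderiv ℝ (fun z => pole c ε (z - s)) z v = fderiv ℝ (pole c ε) (z - s) v := by
      intro v
      rw [fderiv_comp_sub]
    rw [h1, h1, fderiv_pole hε]
    simp
    ring
  have l1 : Tendsto (fun ε : ℝ => -∫ z, flx ψ (fun z => pole c ε (z - s)) z) (𝓝[>] 0) (𝓝 (c.re * (2 * Real.pi * ψ s))) := by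
    refine ((ker_tendsto_of_compact hψ.continuous hc s).const_mul c.re).congr' ?_
    filter_upwards [self_mem_nhdsWithin] with ε h
    exact (hε ε h).symm
  have l2 : Tendsto (fun ε : ℝ => -∫ z, flx ψ (fun z => pole c ε (z - s)) z) (𝓝[>] 0) (𝓝 (-∫ z, flx ψ (fun z => c / (z - s)) z)) := by
    refine Tendsto.neg (tendsto_integral_filter_of_dominated_convergence _ ?_ ?_ hdom ?_)
    · filter_upwards [self_mem_nhdsWithin] with ε h
      have hcd : ContDiff ℝ 1 fun z => pole c ε (z - s) := (contDiff_pole h c).comp (contDiff_id.sub contDiff_const)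
      exact (flx_integral_smooth hψ hc fun z _ => hcd.contDiffAt).1.aestronglyMeasurable
    · refine Eventually.of_forall fun ε => Eventually.of_forall fun z => ?_
      rw [Real.norm_eq_abs]
      exact (abs_flx_le ψ _ z).trans (mul_le_mul_of_nonneg_left (norm_pole_le _ _ _) (by positivity))
    · have : ∀ᵐ z : ℂ, z ≠ s := by
        have := (measure_singleton s : (volume : Measure ℂ) {s} = 0)
        exact compl_mem_ae_iff.2 this
      filter_upwards [this] with z hz
      have h1 := pole_tendsto c (sub_ne_zero.2 hz)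
      unfold flx
      exact (((Complex.continuous_re.tendsto _).comp h1).const_mul _).sub (((Complex.continuous_im.tendsto _).comp h1).const_mul _)
  rw [tendsto_nhds_unique l2 l1]
  ring

/-! ## the general formula -/

theorem HasRes.tendsto {Θ : ℂ → ℂ} {c z : ℂ} (h : HasRes Θ c z) : Tendsto (fun w => (w - z) * Θ w) (𝓝[≠] z) (𝓝 c) := by
  obtain ⟨g, hg, he⟩ := h
  have h1 : Tendsto (fun w => c + (w - z) * g w) (𝓝[≠] z) (𝓝 c) := by
    have : ContinuousAt (fun w => c + (w - z) * g w) z :=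
      continuousAt_const.add (((continuous_sub_right z).continuousAt).mul hg.continuousAt)
    have h2 := this.tendsto
    simp only [sub_self, zero_mul, add_zero] at h2
    exact h2.mono_left nhdsWithin_le_nhds
  refine h1.congr' ?_
  filter_upwards [he, self_mem_nhdsWithin] with w hw hne
  have : w - z ≠ 0 := sub_ne_zero.2 hne
  rw [hw, mul_add, mul_div_cancel₀ _ this]

theorem HasRes.unique {Θ : ℂ → ℂ} {c c' z : ℂ} (h : HasRes Θ c z) (h' : HasRes Θ c' z) : c = c' :=
  tendsto_nhds_unique h.tendsto h'.tendsto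

theorem hasRes_of_analyticAt {Θ : ℂ → ℂ} {z : ℂ} (h : AnalyticAt ℂ Θ z) : HasRes Θ 0 z :=
  ⟨Θ, h, Eventually.of_forall fun w => by simp⟩

theorem HasRes.congr {Θ Θ' : ℂ → ℂ} {c z : ℂ} (h : HasRes Θ c z) (he : Θ' =ᶠ[𝓝[≠] z] Θ) : HasRes Θ' c z := by
  obtain ⟨g, hg, h1⟩ := h
  exact ⟨g, hg, by filter_upwards [he, h1] with w a b; rw [a, b]⟩

theorem HasRes.add {Θ Θ' : ℂ → ℂ} {c c' z : ℂ} (h : HasRes Θ c z) (h' : HasRes Θ' c' z) : HasRes (fun w => Θ w + Θ' w) (c + c') z := by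
  obtain ⟨g, hg, h1⟩ := h
  obtain ⟨g', hg', h1'⟩ := h'
  exact ⟨fun w => g w + g' w, hg.add hg', by filter_upwards [h1, h1'] with w a b; rw [a, b]; ring⟩

theorem HasRes.neg {Θ : ℂ → ℂ} {c z : ℂ} (h : HasRes Θ c z) : HasRes (fun w => -Θ w) (-c) z := by
  obtain ⟨g, hg, h1⟩ := h
  exact ⟨fun w => -g w, hg.neg, by filter_upwards [h1] with w a; rw [a]; ring⟩

theorem HasRes.sub {Θ Θ' : ℂ → ℂ} {c c' z : ℂ} (h : HasRes Θ c z) (h' : HasRes Θ' c' z) : HasRes (fun w => Θ w - Θ' w) (c - c') z := by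
  have := h.add h'.neg
  simpa [sub_eq_add_neg] using this

/-- product with a holomorphic function -/
theorem HasRes.mul_left {Θ f : ℂ → ℂ} {c z : ℂ} (h : HasRes Θ c z) (hf : AnalyticAt ℂ f z) : HasRes (fun w => f w * Θ w) (f z * c) z := by
  obtain ⟨g, hg, h1⟩ := h
  have h2 : AnalyticAt ℂ (dslope f z) z := by
    obtain ⟨p, hp⟩ := hf
    exact ⟨_, hp.has_fpower_series_dslope_fslope⟩
  refine ⟨fun w => c * dslope f z w + f w * g w, (analyticAt_const.mul h2).add (hf.mul hg), ?_⟩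
  filter_upwards [h1, self_mem_nhdsWithin] with w a hne
  have hw : w - z ≠ 0 := sub_ne_zero.2 hne
  rw [a, dslope_of_ne f hne, slope_def_field]
  field_simp
  ring

theorem HasRes.const_mul {Θ : ℂ → ℂ} {c z : ℂ} (a : ℂ) (h : HasRes Θ c z) : HasRes (fun w => a * Θ w) (a * c) z :=
  h.mul_left (f := fun _ => a) analyticAt_const

theorem hasRes_pole (c z : ℂ) : HasRes (fun w => c / (w - z)) c z := ⟨fun _ => 0, analyticAt_const, Eventually.of_forall fun w => by simp⟩

/-- logarithmic derivatives -/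
theorem hasRes_logDeriv {g : ℂ → ℂ} {z : ℂ} (hg : AnalyticAt ℂ g z) (h0 : analyticOrderAt g z ≠ ⊤) :
    HasRes (fun w => deriv g w / g w) (analyticOrderNatAt g z) z := by
  obtain ⟨h, hh, hz, he⟩ := (hg.analyticOrderAt_ne_top).1 h0
  set n := analyticOrderNatAt g z with hn
  refine ⟨fun w => deriv h w / h w, hh.deriv.div hh hz, ?_⟩
  have h1 : ∀ᶠ w in 𝓝 z, deriv g w = n * (w - z) ^ (n - 1) * h w + (w - z) ^ n * deriv h w := by
    have e2 : ∀ᶠ w in 𝓝 z, g =ᶠ[𝓝 w] fun w => (w - z) ^ n * h w := by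
      simpa only [smul_eq_mul] using he.eventuallyEq_nhds
    filter_upwards [e2, hh.eventually_analyticAt] with w hw hw2
    rw [hw.deriv_eq]
    have d1 : HasDerivAt (fun w : ℂ => (w - z) ^ n) (n * (w - z) ^ (n - 1) * 1) w := ((hasDerivAt_id w).sub_const z).pow n
    have d2 := hw2.differentiableAt.hasDerivAt
    have d3 : HasDerivAt (fun w => (w - z) ^ n * h w) _ w := d1.mul d2
    rw [d3.deriv]
    ring
  have h2 : ∀ᶠ w in 𝓝 z, h w ≠ 0 := hh.continuousAt.eventually_ne hz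
  filter_upwards [nhdsWithin_le_nhds h1, nhdsWithin_le_nhds he, nhdsWithin_le_nhds h2, self_mem_nhdsWithin] with w a b c hne
  have hw : w - z ≠ 0 := sub_ne_zero.2 hne
  rw [a, b, smul_eq_mul]
  rcases Nat.eq_zero_or_pos n with h0 | h0
  · rw [h0]; simp
  · obtain ⟨k, hk⟩ := Nat.exists_eq_succ_of_ne_zero h0.ne'
    rw [hk]
    simp only [Nat.succ_eq_add_one, Nat.add_sub_cancel]
    field_simp
    ring

/-- exceptional points in a compact set are finite -/
theorem finite_of_isolated {K : Set ℂ} (hK : IsCompact K) {E : Set ℂ} (hE : E ⊆ K) (h : ∀ z ∈ K, ∀ᶠ w in 𝓝[≠] z, w ∉ E) : E.Finite := by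
  have h1 : ∀ z ∈ K, {w | w ≠ z → w ∉ E} ∈ 𝓝 z := fun z hz => by
    have := h z hz
    rw [eventually_nhdsWithin_iff] at this
    exact this
  obtain ⟨t, ht⟩ := hK.elim_nhds_subcover' (fun z _ => {w | w ≠ z → w ∉ E}) fun z hz => h1 z hz
  refine (t.image Subtype.val).finite_toSet.subset fun w hw => ?_
  obtain ⟨z, hz, hzw⟩ := mem_iUnion₂.1 (ht (hE hw))
  have : w = z := by
    by_contra hne
    exact hzw hne hw
  rw [this]
  simp only [Finset.coe_image, mem_image, Finset.mem_coe]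
  exact ⟨z, hz, rfl⟩

/-- near `z` the other residues vanish -/
theorem HasRes.eventually_hol {Θ : ℂ → ℂ} {c z : ℂ} (h : HasRes Θ c z) : ∀ᶠ w in 𝓝[≠] z, AnalyticAt ℂ Θ w := by
  obtain ⟨g, hg, he⟩ := h
  have h1 : ∀ᶠ w in 𝓝[≠] z, ∀ᶠ u in 𝓝 w, Θ u = c / (u - z) + g u := by
    rw [eventually_nhdsWithin_iff] at he ⊢
    filter_upwards [he.eventually_nhds] with w hw hne
    have : ∀ᶠ u in 𝓝 w, u ∈ ({z}ᶜ : Set ℂ) := isOpen_compl_singleton.mem_nhds hne
    filter_upwards [hw, this] with u a b using a b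
  filter_upwards [h1, nhdsWithin_le_nhds hg.eventually_analyticAt, self_mem_nhdsWithin] with w a b hne
  have hw : w - z ≠ 0 := sub_ne_zero.2 hne
  have h2 : AnalyticAt ℂ (fun u => c / (u - z) + g u) w :=
    (analyticAt_const.div (analyticAt_id.sub analyticAt_const) hw).add b
  exact h2.congr (EventuallyEq.symm a)

/-- **The residue formula.** -/
theorem flx_integral {ψ : ℂ → ℝ} (hψ : ContDiff ℝ 1 ψ) (hc : HasCompactSupport ψ) {Θ : ℂ → ℂ} {c : ℂ → ℂ}
    (h : ∀ z ∈ tsupport ψ, HasRes Θ (c z) z) : Integrable (flx ψ Θ) ∧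
      (Function.support fun z => (c z).re * ψ z).Finite ∧ -∫ z, flx ψ Θ z = 2 * Real.pi * ∑ᶠ z, (c z).re * ψ z := by
  classical
  have hK : IsCompact (tsupport ψ) := hc
  have hSfin : {z | z ∈ tsupport ψ ∧ c z ≠ 0}.Finite := by
    refine finite_of_isolated hK (fun z hz => hz.1) fun z hz => ?_
    filter_upwards [(h z hz).eventually_hol] with w hw hw2
    exact hw2.2 ((h w hw2.1).unique (hasRes_of_analyticAt hw))
  set S := hSfin.toFinset with hS
  have hSm : ∀ z, z ∈ S ↔ z ∈ tsupport ψ ∧ c z ≠ 0 := fun z => by rw [hS, Set.Finite.mem_toFinset]; rfl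
  have hsum : ∀ z, HasRes (fun w => ∑ s ∈ S, c s / (w - s)) (if z ∈ S then c z else 0) z := by
    intro z
    have : ∀ T : Finset ℂ, HasRes (fun w => ∑ s ∈ T, c s / (w - s)) (if z ∈ T then c z else 0) z := by
      intro T
      induction T using Finset.induction_on with
      | empty => simpa using hasRes_of_analyticAt (Θ := fun _ => 0) analyticAt_const
      | insert a T ha ih =>
        have h1 : HasRes (fun w => c a / (w - a)) (if z = a then c z else 0) z := by
          split_ifs with hza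
          · rw [hza]; exact hasRes_pole _ _
          · exact hasRes_of_analyticAt (analyticAt_const.div (analyticAt_id.sub analyticAt_const) (sub_ne_zero.2 hza))
        have h2 := h1.add ih
        have e1 : (fun w => ∑ s ∈ insert a T, c s / (w - s)) = fun w => c a / (w - a) + ∑ s ∈ T, c s / (w - s) := by
          funext w; rw [Finset.sum_insert ha]
        have e2 : (if z ∈ insert a T then c z else 0) = (if z = a then c z else 0) + if z ∈ T then c z else 0 := by
          by_cases h3 : z = a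
          · rw [h3]; simp [ha]
          · simp [h3]
        rw [e1, e2]
        exact h2
    exact this S
  have hD : ∀ z ∈ tsupport ψ, HasRes (fun w => Θ w - ∑ s ∈ S, c s / (w - s)) 0 z := by
    intro z hz
    have h1 := (h z hz).sub (hsum z)
    have e : c z - (if z ∈ S then c z else 0) = 0 := by
      split_ifs with h2
      · ring
      · have : c z = 0 := by
          by_contra h3
          exact h2 ((hSm z).2 ⟨hz, h3⟩)
        rw [this]; ring
    rwa [e] at h1
  set H : ℂ → ℂ := fun z => limUnder (𝓝[≠] z) fun w => Θ w - ∑ s ∈ S, c s / (w - s) with hH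
  have hHa : ∀ z ∈ tsupport ψ, AnalyticAt ℂ H z ∧ ∀ᶠ w in 𝓝[≠] z, Θ w - ∑ s ∈ S, c s / (w - s) = H w := by
    intro z hz
    obtain ⟨g, hg, he⟩ := hD z hz
    have he' : ∀ᶠ w in 𝓝[≠] z, Θ w - ∑ s ∈ S, c s / (w - s) = g w := by
      filter_upwards [he] with w hw
      rw [hw]; simp
    have h1 : ∀ᶠ w in 𝓝 z, H w = g w := by
      rw [eventually_nhdsWithin_iff] at he'
      filter_upwards [he'.eventually_nhds, hg.eventually_analyticAt] with w a b
      have h2 : Tendsto (fun u => Θ u - ∑ s ∈ S, c s / (u - s)) (𝓝[≠] w) (𝓝 (g w)) := by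
        refine (b.continuousAt.tendsto.mono_left nhdsWithin_le_nhds).congr' ?_
        have h3 : ∀ᶠ u in 𝓝[≠] w, u ∈ ({z}ᶜ : Set ℂ) := by
          by_cases hwz : w = z
          · rw [hwz]; exact self_mem_nhdsWithin
          · exact nhdsWithin_le_nhds (isOpen_compl_singleton.mem_nhds hwz)
        filter_upwards [nhdsWithin_le_nhds a, h3] with u hu hu2 using (hu hu2).symm
      exact h2.limUnder_eq
    refine ⟨hg.congr (EventuallyEq.symm h1), ?_⟩
    filter_upwards [he', nhdsWithin_le_nhds h1] with w a b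
    rw [a, b]
  have hae : ∀ᵐ z : ℂ, z ∈ tsupport ψ → Θ z = ∑ s ∈ S, c s / (z - s) + H z := by
    have hEfin : {z | z ∈ tsupport ψ ∧ Θ z - ∑ s ∈ S, c s / (z - s) ≠ H z}.Finite := by
      refine finite_of_isolated hK (fun z hz => hz.1) fun z hz => ?_
      filter_upwards [(hHa z hz).2] with w hw hw2
      exact hw2.2 hw
    have h0 : (volume : Measure ℂ) {z | z ∈ tsupport ψ ∧ Θ z - ∑ s ∈ S, c s / (z - s) ≠ H z} = 0 := hEfin.measure_zero _
    filter_upwards [compl_mem_ae_iff.2 h0] with z hz hzK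
    have : Θ z - ∑ s ∈ S, c s / (z - s) = H z := by
      by_contra hne
      exact hz ⟨hzK, hne⟩
    rw [← this]; ring
  have e1 : ∀ᵐ z : ℂ, flx ψ Θ z = ∑ s ∈ S, flx ψ (fun z => c s / (z - s)) z + flx ψ H z := by
    filter_upwards [hae] with z hz
    by_cases hzK : z ∈ tsupport ψ
    · simp only [flx, hz hzK, Complex.add_re, Complex.add_im, Complex.re_sum, Complex.im_sum, mul_add, Finset.mul_sum, Finset.sum_sub_distrib]
      ring
    · simp [flx, dx_eq_zero_of_notMem hzK, dy_eq_zero_of_notMem hzK]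
  have hHi := flx_integral_hol hψ hc fun z hz => (hHa z hz).1
  have hSi : Integrable fun z => ∑ s ∈ S, flx ψ (fun z => c s / (z - s)) z :=
    integrable_finsetSum _ fun s _ => (flx_integral_pole hψ hc (c s) s).1
  have hsupp : (Function.support fun z => (c z).re * ψ z) ⊆ S := by
    intro z hz
    rw [Function.mem_support] at hz
    rw [Finset.mem_coe, hSm]
    refine ⟨?_, ?_⟩
    · by_contra h1
      exact hz (by rw [image_eq_zero_of_notMem_tsupport h1, mul_zero])
    · intro h1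
      exact hz (by rw [h1]; simp)
  refine ⟨(hSi.add hHi.1).congr (EventuallyEq.symm e1), S.finite_toSet.subset hsupp, ?_⟩
  rw [integral_congr_ae e1, integral_add hSi hHi.1, integral_finsetSum _ fun s _ => (flx_integral_pole hψ hc (c s) s).1, neg_add, hHi.2,
    add_zero, finsum_eq_sum_of_support_subset _ hsupp, Finset.mul_sum, ← Finset.sum_neg_distrib]
  exact Finset.sum_congr rfl fun s _ => (flx_integral_pole hψ hc (c s) s).2

end Pool.Agent.MQ.RF
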