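import Pool.Agent.MQ.Defs

/-!
# MQ SData: the local data at a singular point, as a type; the contact of a form with the separatrices which are not algebraic
-/

set_option autoImplicit false

open Topology Filter MvPolynomial Asymptotics

noncomputable section

namespace Pool.Agent.MQ

open Pool.Agent.H36.BP (EN)
open Pool.Agent.H17BP (Pr Surface IsChart)
open Pool.Agent.H17EF (projVar coneE)

variable {N M : ℕ} {κ ι γ : Type}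

/-- the data of `Node` -/
structure NodeAt (P : Ideal (MvPolynomial (Fin (N + 1)) ℂ)) (Y : Set (EN M)) (π : κ → EN M →L[ℂ] EN N)
    (A : ι → Fin (M + 1) → MvPolynomial (Fin (M + 1)) ℂ) (C : γ → MvPolynomial (Fin (M + 1)) ℂ) (y : EN M)
    (σ : ℂ × ℂ → EN M) (τ : EN M → ℂ × ℂ) (l l₁ l₂ a b : ℂ × ℂ → ℂ) : Prop where
  pt : σ 0 = y
  a_an : AnalyticAt ℂ a 0
  b_an : AnalyticAt ℂ b 0
  b_ne : b 0 ≠ 0
  ratio : ∀ m n : ℕ, 0 < n → n * a 0 ≠ m * b 0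
  box : Box Y π A C σ τ (fun p => (p.1 * a p, p.2 * b p)) l
  l_eq : ∀ p, l p = l₁ p * l₂ p
  ax₁ : (∀ p, l₁ p = p.1) ∨ (∀ p, l₁ p = 1) ∧ NonAlg P π fun t => σ (0, t)
  ax₂ : (∀ p, l₂ p = p.2) ∨ (∀ p, l₂ p = 1) ∧ NonAlg P π fun t => σ (t, 0)

/-- the data of `SaddleC` -/
structure SaddleCAt (P : Ideal (MvPolynomial (Fin (N + 1)) ℂ)) (Y : Set (EN M)) (π : κ → EN M →L[ℂ] EN N)
    (A : ι → Fin (M + 1) → MvPolynomial (Fin (M + 1)) ℂ) (C : γ → MvPolynomial (Fin (M + 1)) ℂ) (y : EN M) (k : ℕ)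
    (σ : ℂ × ℂ → EN M) (τ : EN M → ℂ × ℂ) (l₁ a b : ℂ × ℂ → ℂ) : Prop where
  one_k : 1 ≤ k
  pt : σ 0 = y
  a_an : AnalyticAt ℂ a 0
  b_an : AnalyticAt ℂ b 0
  a_ne : a 0 ≠ 0
  b_ne : b 0 ≠ 0
  box : Box Y π A C σ τ (fun p => (p.1 ^ (k + 1) * a p, p.2 * b p)) (fun p => l₁ p * p.2)
  ax₁ : (∀ p, l₁ p = p.1) ∨ (∀ p, l₁ p = 1) ∧ NonAlg P π fun t => σ (0, t)

/-- the data of `SaddleN` -/
structure SaddleNAt (P : Ideal (MvPolynomial (Fin (N + 1)) ℂ)) (Y : Set (EN M)) (π : κ → EN M →L[ℂ] EN N)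
    (A : ι → Fin (M + 1) → MvPolynomial (Fin (M + 1)) ℂ) (C : γ → MvPolynomial (Fin (M + 1)) ℂ) (y : EN M) (k : ℕ)
    (σ : ℂ × ℂ → EN M) (τ : EN M → ℂ × ℂ) (l₁ a b : ℂ × ℂ → ℂ) (c : ℕ → ℂ) : Prop where
  one_k : 1 ≤ k
  pt : σ 0 = y
  a_an : AnalyticAt ℂ a 0
  b_an : AnalyticAt ℂ b 0
  a_ne : a 0 ≠ 0
  db_ne : fderiv ℂ b 0 (0, 1) ≠ 0
  box : Box Y π A C σ τ (fun p => (p.1 ^ (k + 1) * a p, b p)) l₁
  ax₁ : (∀ p, l₁ p = p.1) ∨ (∀ p, l₁ p = 1) ∧ NonAlg P π fun t => σ (0, t)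
  c_zero : c 0 = 0
  formal : ∀ J, (fun t => b (t, jet c J t) - deriv (jet c J) t * (t ^ (k + 1) * a (t, jet c J t))) =O[𝓝 0] fun t : ℂ => t ^ (J + 1)
  nonalg : ∀ (R : MvPolynomial (Fin (N + 1)) ℂ) (d : ℕ), R.IsHomogeneous d → R ∉ P → ∃ (n : ℕ) (i : κ),
      ¬ (fun t : ℂ => eval (π i (σ (t, jet c n t))).ofLp R) =O[𝓝 0] fun t : ℂ => t ^ (n + 1)

/-- the local data at the singular point `y` -/
inductive SData (P : Ideal (MvPolynomial (Fin (N + 1)) ℂ)) (Y : Set (EN M)) (π : κ → EN M →L[ℂ] EN N)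
    (A : ι → Fin (M + 1) → MvPolynomial (Fin (M + 1)) ℂ) (C : γ → MvPolynomial (Fin (M + 1)) ℂ) (y : EN M) : Type
  | node (σ : ℂ × ℂ → EN M) (τ : EN M → ℂ × ℂ) (l l₁ l₂ a b : ℂ × ℂ → ℂ) (h : NodeAt P Y π A C y σ τ l l₁ l₂ a b)
  | saddleC (k : ℕ) (σ : ℂ × ℂ → EN M) (τ : EN M → ℂ × ℂ) (l₁ a b : ℂ × ℂ → ℂ) (h : SaddleCAt P Y π A C y k σ τ l₁ a b)
  | saddleN (k : ℕ) (σ : ℂ × ℂ → EN M) (τ : EN M → ℂ × ℂ) (l₁ a b : ℂ × ℂ → ℂ) (c : ℕ → ℂ) (h : SaddleNAt P Y π A C y k σ τ l₁ a b c)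

/-- the function `g` has a zero of order `n` at `0` (for analytic `g`) -/
def OrdAt (g : ℂ → ℂ) (n : ℕ) : Prop := g =O[𝓝 0] (fun t : ℂ => t ^ n) ∧ ¬ g =O[𝓝 0] fun t : ℂ => t ^ (n + 1)

/-- the form `Q` has contact of a finite order `≥ n` with the image of the germ `c` -/
def ContactAx (π : κ → EN M →L[ℂ] EN N) (Q : MvPolynomial (Fin (N + 1)) ℂ) (c : ℂ → EN M) (n : ℕ) : Prop :=
  ∃ n' : ℕ, n ≤ n' ∧ ∀ i, π i (c 0) ≠ 0 → OrdAt (fun t => eval (π i (c t)).ofLp Q) n'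

/-- the form `Q` has contact of a finite order `≥ n` with the image of the formal curve `σ (t, ∑ c i * t ^ i)` -/
def ContactFo (π : κ → EN M →L[ℂ] EN N) (Q : MvPolynomial (Fin (N + 1)) ℂ) (σ : ℂ × ℂ → EN M) (c : ℕ → ℂ) (n : ℕ) : Prop :=
  ∃ n' : ℕ, n ≤ n' ∧ ∀ J, n' ≤ J → ∀ i, π i (σ 0) ≠ 0 → OrdAt (fun t => eval (π i (σ (t, jet c J t))).ofLp Q) n'

/-- the form `Q` has contact of a finite order `≥ n` with the separatrices at `y` which are not contained in `C` -/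
def SData.Contact {P : Ideal (MvPolynomial (Fin (N + 1)) ℂ)} {Y : Set (EN M)} {π : κ → EN M →L[ℂ] EN N}
    {A : ι → Fin (M + 1) → MvPolynomial (Fin (M + 1)) ℂ} {C : γ → MvPolynomial (Fin (M + 1)) ℂ} {y : EN M}
    (Q : MvPolynomial (Fin (N + 1)) ℂ) (n : ℕ) : SData P Y π A C y → Prop
  | .node σ _ _ l₁ l₂ _ _ _ => ((∀ p, l₁ p = 1) → ContactAx π Q (fun t => σ (0, t)) n) ∧ ((∀ p, l₂ p = 1) → ContactAx π Q (fun t => σ (t, 0)) n)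
  | .saddleC _ σ _ l₁ _ _ _ => (∀ p, l₁ p = 1) → ContactAx π Q (fun t => σ (0, t)) n
  | .saddleN _ σ _ l₁ _ _ c _ => ((∀ p, l₁ p = 1) → ContactAx π Q (fun t => σ (0, t)) n) ∧ ContactFo π Q σ c n

/-- every singular point has local data -/
theorem exists_sData {P : Ideal (MvPolynomial (Fin (N + 1)) ℂ)} {Y : Set (EN M)} {π : κ → EN M →L[ℂ] EN N}
    {A : ι → Fin (M + 1) → MvPolynomial (Fin (M + 1)) ℂ} {D : ℕ} {C : γ → MvPolynomial (Fin (M + 1)) ℂ} {E : ℕ}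
    {R : MvPolynomial (Fin (N + 1)) ℂ} (hM : Model P Y π A D C E R) {y : EN M} (hy : y ∈ Y) : Regular Y π A C y ∨ Nonempty (SData P Y π A C y) := by
  rcases hM.loc y hy with h | ⟨σ, τ, l, l₁, l₂, a, b, h1, h2, h3, h4, h5, h6, h7, h8, h9⟩ | ⟨k, σ, τ, l₁, a, b, h1, h2, h3, h4, h5, h6, h7, h8⟩ |
    ⟨k, σ, τ, l₁, a, b, c, h1, h2, h3, h4, h5, h6, h7, h8, h9, h10, h11⟩
  · exact Or.inl h
  · exact Or.inr ⟨.node σ τ l l₁ l₂ a b ⟨h1, h2, h3, h4, h5, h6, h7, h8, h9⟩⟩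
  · exact Or.inr ⟨.saddleC k σ τ l₁ a b ⟨h1, h2, h3, h4, h5, h6, h7, h8⟩⟩
  · exact Or.inr ⟨.saddleN k σ τ l₁ a b c ⟨h1, h2, h3, h4, h5, h6, h7, h8, h9, h10, h11⟩⟩

end Pool.Agent.MQ
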