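import Pool.Agent.MQ.Ax0
import Pool.Agent.MQ.Ibp

/-!
# MQ/SNCalc: calculus for the exit of a saddle-node
-/

set_option autoImplicit false

open Topology Filter Complex ComplexConjugate

noncomputable section

namespace Pool.Agent.MQ

open Pool.Agent.H30M (deriv_st_eq_zero deriv_st_nonneg)

/-- `(1 - χ) conj D` rotated gradient term -/
theorem dv_rot_gr {a b : ℂ → ℝ} {z : ℂ} (ha : DifferentiableAt ℝ a z) (hb : ContDiffAt ℝ 2 b z) :
    dv (fun w => (a w : ℂ) * (-I * gr b w)) z = ip (gr a z) (-I * gr b z) := by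
  have hd : DifferentiableAt ℝ (gr b) z := differentiableAt_gr hb
  have hd2 : DifferentiableAt ℝ (fun w => -I * gr b w) z := hd.const_mul _
  rw [dv_mul ha hd2]
  have h0 : dv (fun w => -I * gr b w) z = 0 := by
    have h1 : HasFDerivAt (fun w => -I * gr b w) ((-I) • fderiv ℝ (gr b) z) z := hd.hasFDerivAt.const_mul (-I)
    have hre : fderiv ℝ (fun w => fderiv ℝ b w 1) z = Complex.reCLM.comp (fderiv ℝ (gr b) z) :=
      (Complex.reCLM.hasFDerivAt.comp z hd.hasFDerivAt).fderiv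
    have him : fderiv ℝ (fun w => fderiv ℝ b w I) z = Complex.imCLM.comp (fderiv ℝ (gr b) z) :=
      (Complex.imCLM.hasFDerivAt.comp z hd.hasFDerivAt).fderiv
    have hc := dx_dy_comm hb
    have hc' : fderiv ℝ (fun w => fderiv ℝ b w I) z 1 = fderiv ℝ (fun w => fderiv ℝ b w 1) z I := hc
    rw [hre, him] at hc'
    unfold dv
    rw [h1.fderiv]
    simp at hc' ⊢
    linarith
  rw [h0, mul_zero, zero_add]

theorem ip_rot (a b : ℂ) : ip a (-I * b) = (conj a * b).im := by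
  simp [ip, mul_re, mul_im]

theorem hasFDerivAt_holo {f : ℂ → ℂ} {z : ℂ} (hf : DifferentiableAt ℂ f z) : HasFDerivAt f (fderiv ℝ f z) z :=
  (hf.restrictScalars ℝ).hasFDerivAt

theorem gr_normSq {f : ℂ → ℂ} {z : ℂ} (hf : DifferentiableAt ℂ f z) :
    DifferentiableAt ℝ (fun w => ‖f w‖ ^ 2) z ∧ gr (fun w => ‖f w‖ ^ 2) z = 2 * (f z * conj (deriv f z)) := by
  have hfr : DifferentiableAt ℝ f z := hf.restrictScalars ℝ
  have hre : DifferentiableAt ℝ (fun w => (f w).re) z := Complex.reCLM.differentiableAt.comp z hfr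
  have him : DifferentiableAt ℝ (fun w => (f w).im) z := Complex.imCLM.differentiableAt.comp z hfr
  have e : (fun w => ‖f w‖ ^ 2) = fun w => (f w).re * (f w).re + (f w).im * (f w).im := by
    funext w
    rw [Complex.sq_norm, Complex.normSq_apply]
  rw [e]
  refine ⟨(hre.mul hre).add (him.mul him), ?_⟩
  have h1 : gr (fun w => (f w).re * (f w).re + (f w).im * (f w).im) z =
      gr (fun w => (f w).re * (f w).re) z + gr (fun w => (f w).im * (f w).im) z :=
    gr_add (u := fun w => (f w).re * (f w).re) (v := fun w => (f w).im * (f w).im) (hre.mul hre) (him.mul him)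
  rw [h1, gr_mul hre hre, gr_mul him him, gr_re_holo hf, gr_im_holo hf]
  apply Complex.ext
  · simp [mul_re, mul_im]; ring
  · simp [mul_re, mul_im]; ring

theorem contDiffAt_normSq {f : ℂ → ℂ} {z : ℂ} {n : WithTop ℕ∞} (hf : AnalyticAt ℂ f z) : ContDiffAt ℝ n (fun w => ‖f w‖ ^ 2) z :=
  ((hf.contDiffAt (n := n)).restrict_scalars ℝ).norm_sq ℂ

theorem gr_comp_normSq {f : ℂ → ℂ} {z : ℂ} (hf : DifferentiableAt ℂ f z) {h : ℝ → ℝ} {A : ℝ} (hh : DifferentiableAt ℝ h (A * ‖f z‖ ^ 2)) :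
    gr (fun w => h (A * ‖f w‖ ^ 2)) z = ((deriv h (A * ‖f z‖ ^ 2) * A : ℝ) : ℂ) * (2 * (f z * conj (deriv f z))) := by
  obtain ⟨h1, h2⟩ := gr_normSq hf
  have h3 : gr (fun w => A * ‖f w‖ ^ 2) z = (A : ℂ) * gr (fun w => ‖f w‖ ^ 2) z := gr_const_mul A h1
  have h4 : gr (fun w => h (A * ‖f w‖ ^ 2)) z = ((deriv h (A * ‖f z‖ ^ 2) : ℝ) : ℂ) * gr (fun w => A * ‖f w‖ ^ 2) z :=
    gr_comp (u := fun w => A * ‖f w‖ ^ 2) hh.hasDerivAt (h1.const_mul A)
  rw [h4, h3, h2]
  push_cast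
  ring

theorem contDiffAt_comp_normSq {f : ℂ → ℂ} {z : ℂ} (hf : AnalyticAt ℂ f z) {h : ℝ → ℝ} {A : ℝ} {n : ℕ∞} (hh : ContDiff ℝ n h) :
    ContDiffAt ℝ n (fun w => h (A * ‖f w‖ ^ 2)) z :=
  hh.contDiffAt.comp z (contDiffAt_const.mul (contDiffAt_normSq hf))

/-- `1` for `s ≥ 2`, `0` for `s ≤ 1` -/
def hp (s : ℝ) : ℝ := Real.smoothTransition (s - 1)

/-- `1` for `t ≤ 1 / 2`, `0` for `t ≥ 1` -/
def hm (t : ℝ) : ℝ := Real.smoothTransition (2 - 2 * t)

theorem hp_contDiff {n : ℕ∞} : ContDiff ℝ n hp := Real.smoothTransition.contDiff.comp (contDiff_id.sub contDiff_const)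

theorem hm_contDiff {n : ℕ∞} : ContDiff ℝ n hm :=
  Real.smoothTransition.contDiff.comp (contDiff_const.sub (contDiff_const.mul contDiff_id))

theorem hp_zero {s : ℝ} (h : s ≤ 1) : hp s = 0 := Real.smoothTransition.zero_of_nonpos (by linarith)

theorem hp_one {s : ℝ} (h : 2 ≤ s) : hp s = 1 := Real.smoothTransition.one_of_one_le (by linarith)

theorem hm_zero {t : ℝ} (h : 1 ≤ t) : hm t = 0 := Real.smoothTransition.zero_of_nonpos (by linarith)

theorem hm_one {t : ℝ} (h : t ≤ 1 / 2) : hm t = 1 := Real.smoothTransition.one_of_one_le (by linarith)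

theorem hp_nonneg (s : ℝ) : 0 ≤ hp s := Real.smoothTransition.nonneg _

theorem hp_le (s : ℝ) : hp s ≤ 1 := Real.smoothTransition.le_one _

theorem hm_nonneg (s : ℝ) : 0 ≤ hm s := Real.smoothTransition.nonneg _

theorem hm_le (s : ℝ) : hm s ≤ 1 := Real.smoothTransition.le_one _

theorem deriv_hp (s : ℝ) : deriv hp s = deriv Real.smoothTransition (s - 1) := by
  have h : HasDerivAt Real.smoothTransition (deriv Real.smoothTransition (s - 1)) (s - 1) :=
    ((Real.smoothTransition.contDiff (n := 1)).differentiable one_ne_zero _).hasDerivAt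
  have h2 : HasDerivAt hp (deriv Real.smoothTransition (s - 1) * 1) s := h.comp s ((hasDerivAt_id s).sub_const 1)
  rw [h2.deriv, mul_one]

theorem deriv_hm (t : ℝ) : deriv hm t = -2 * deriv Real.smoothTransition (2 - 2 * t) := by
  have h : HasDerivAt Real.smoothTransition (deriv Real.smoothTransition (2 - 2 * t)) (2 - 2 * t) :=
    ((Real.smoothTransition.contDiff (n := 1)).differentiable one_ne_zero _).hasDerivAt
  have h2 : HasDerivAt hm (deriv Real.smoothTransition (2 - 2 * t) * (-(2 * 1))) t :=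
    h.comp t (((hasDerivAt_id t).const_mul 2).const_sub 2)
  rw [h2.deriv]
  ring

/-- the factor of the gradient of the first cut-off -/
def HH₁ (s : ℝ) : ℝ := 2 * s * deriv hp s

/-- the factor of the gradient of the second cut-off -/
def HH₂ (t : ℝ) : ℝ := -(2 * t * deriv hm t)

theorem HH₁_zero {s : ℝ} (h : s ≤ 1 ∨ 2 ≤ s) : HH₁ s = 0 := by
  rw [HH₁, deriv_hp, deriv_st_eq_zero, mul_zero]
  rcases h with h | h
  · exact Or.inl (by linarith)
  · exact Or.inr (by linarith)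

theorem HH₂_zero {t : ℝ} (h : t ≤ 1 / 2 ∨ 1 ≤ t) : HH₂ t = 0 := by
  rw [HH₂, deriv_hm, deriv_st_eq_zero, mul_zero, mul_zero, neg_zero]
  rcases h with h | h
  · exact Or.inr (by linarith)
  · exact Or.inl (by linarith)

theorem HH₁_nonneg (s : ℝ) : 0 ≤ HH₁ s := by
  by_cases h : s ≤ 1
  · rw [HH₁_zero (Or.inl h)]
  · rw [HH₁, deriv_hp]
    have := deriv_st_nonneg (s - 1)
    have h1 : 0 ≤ s := by linarith
    positivity

theorem HH₂_nonneg (t : ℝ) : 0 ≤ HH₂ t := by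
  by_cases h : t ≤ 1 / 2
  · rw [HH₂_zero (Or.inl h)]
  · rw [HH₂, deriv_hm]
    have := deriv_st_nonneg (2 - 2 * t)
    have h1 : 0 ≤ t := by linarith
    have h2 : -(2 * t * (-2 * deriv Real.smoothTransition (2 - 2 * t))) = 4 * (t * deriv Real.smoothTransition (2 - 2 * t)) := by ring
    rw [h2]
    positivity

theorem HH_bdd : ∃ B : ℝ, 0 < B ∧ (∀ s, HH₁ s ≤ B) ∧ ∀ t, HH₂ t ≤ B := by
  obtain ⟨M, hM0, hM⟩ := AxisA.st_deriv_bdd
  refine ⟨4 * M, by positivity, fun s => ?_, fun t => ?_⟩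
  · by_cases h : s ≤ 1 ∨ 2 ≤ s
    · rw [HH₁_zero h]; positivity
    · push Not at h
      rw [HH₁, deriv_hp]
      have h1 := deriv_st_nonneg (s - 1)
      have h2 := hM (s - 1)
      nlinarith
  · by_cases h : t ≤ 1 / 2 ∨ 1 ≤ t
    · rw [HH₂_zero h]; positivity
    · push Not at h
      rw [HH₂, deriv_hm]
      have h1 := deriv_st_nonneg (2 - 2 * t)
      have h2 := hM (2 - 2 * t)
      nlinarith

/-- the gradient of the first cut-off: `f` is the potential, `f' = Z` -/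
theorem gr_hp {f : ℂ → ℂ} {z : ℂ} (hf : DifferentiableAt ℂ f z) (h0 : f z ≠ 0) (A : ℝ) :
    gr (fun w => hp (A * ‖f w‖ ^ 2)) z = (HH₁ (A * ‖f z‖ ^ 2) : ℂ) * conj (deriv f z * (f z)⁻¹) := by
  rw [gr_comp_normSq hf ((hp_contDiff (n := 1)).differentiable one_ne_zero _), HH₁]
  have h1 : (f z * conj (deriv f z)) = ((‖f z‖ ^ 2 : ℝ) : ℂ) * conj (deriv f z * (f z)⁻¹) := by
    have h2 : ((‖f z‖ ^ 2 : ℝ) : ℂ) = f z * conj (f z) := by
      rw [mul_conj, Complex.normSq_eq_norm_sq]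
    rw [h2, map_mul, map_inv₀]
    have h3 : conj (f z) ≠ 0 := (map_ne_zero _).2 h0
    field_simp
  rw [h1]
  push_cast
  ring

/-- the gradient of the second cut-off -/
theorem gr_hm {f : ℂ → ℂ} {z : ℂ} (hf : DifferentiableAt ℂ f z) (A : ℝ) :
    gr (fun w => hm (A * ‖f w‖ ^ 2)) z = -(HH₂ (A * ‖f z‖ ^ 2) : ℂ) * conj (deriv f z / f z) := by
  rw [gr_comp_normSq hf ((hm_contDiff (n := 1)).differentiable one_ne_zero _), HH₂]
  by_cases h0 : f z = 0
  · rw [h0]
    simp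
  have h1 : (f z * conj (deriv f z)) = ((‖f z‖ ^ 2 : ℝ) : ℂ) * conj (deriv f z / f z) := by
    have h2 : ((‖f z‖ ^ 2 : ℝ) : ℂ) = f z * conj (f z) := by
      rw [mul_conj, Complex.normSq_eq_norm_sq]
    rw [h2, map_div₀]
    have h3 : conj (f z) ≠ 0 := (map_ne_zero _).2 h0
    field_simp
  rw [h1]
  push_cast
  ring

end Pool.Agent.MQ
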