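import Pool.Agent.MQ.GDefs

/-!
# MQ/SNPt: the exit of a saddle-node, pointwise algebra

`Z` is the derivative of the potential `z = 1 / ω`, `θ` is `div v * ζ'`, `μ` is `Y' / Y`.
-/

set_option autoImplicit false

open Complex ComplexConjugate

namespace Pool.Agent.MQ

theorem re_conj_mul_mul (Z ω : ℂ) : (conj (Z * ω) * Z).re = ‖Z‖ ^ 2 * ω.re := by
  rw [Complex.sq_norm, Complex.normSq_apply]
  simp only [map_mul, mul_re, mul_im, conj_re, conj_im]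
  ring

theorem im_mul_conj (Z ω : ℂ) : (Z * ω * conj Z).im = ‖Z‖ ^ 2 * ω.im := by
  rw [Complex.sq_norm, Complex.normSq_apply]
  simp only [mul_re, mul_im, conj_re, conj_im]
  ring

theorem sn_point {ω Z θ μ : ℂ} {c₁ c₂ H₁ H₂ C Hm : ℝ} (hω : ω ≠ 0) (h1 : 0 ≤ c₁) (h2 : 0 ≤ c₂) (h2' : c₂ ≤ 1) (hH1 : 0 ≤ H₁) (hH2 : 0 ≤ H₂)
    (hHm : H₂ ≤ Hm) (hC : 0 ≤ C) (hθ : H₁ ≠ 0 → c₂ ≠ 0 → ‖θ - Z‖ ≤ C * ‖ω‖ * ‖Z‖) (hμ : H₁ ≠ 0 → H₂ ≠ 0 → ‖μ - Z‖ ≤ C * ‖ω‖ * ‖Z‖)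
    (hpos : H₂ ≠ 0 → c₁ ≠ 0 → 0 ≤ (conj μ * θ).re) :
    ip ((c₂ : ℂ) * ((H₁ : ℂ) * conj (Z * ω)) + (c₁ : ℂ) * (-(H₂ : ℂ) * conj μ)) (conj θ) ≤
      c₂ * (H₁ * (‖Z‖ ^ 2 * ω.re)) + (-ω.im / ‖ω‖ ^ 2) * (-(H₁ * H₂) * (Z * ω * conj μ).im) + (C + Hm * C ^ 2) * (H₁ * ‖Z * ω‖ ^ 2) := by
  have hn : 0 < ‖ω‖ := norm_pos_iff.2 hω
  have e1 : ip ((c₂ : ℂ) * ((H₁ : ℂ) * conj (Z * ω)) + (c₁ : ℂ) * (-(H₂ : ℂ) * conj μ)) (conj θ) =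
      c₂ * (H₁ * (conj (Z * ω) * θ).re) - c₁ * (H₂ * (conj μ * θ).re) := by
    simp only [ip, map_mul, mul_re, mul_im, conj_re, conj_im, add_re, add_im, ofReal_re, ofReal_im, neg_re, neg_im]
    ring
  have e2 : (conj (Z * ω) * θ).re = ‖Z‖ ^ 2 * ω.re + (conj (Z * ω) * (θ - Z)).re := by
    rw [← re_conj_mul_mul, ← add_re, ← mul_add]
    congr 2
    ring
  have e3 : (Z * ω * conj μ).im = ‖Z‖ ^ 2 * ω.im + (Z * ω * conj (μ - Z)).im := by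
    rw [← im_mul_conj, ← add_im, ← mul_add, ← map_add]
    congr 3
    ring
  have hp : 0 ≤ c₁ * (H₂ * (conj μ * θ).re) := by
    by_cases ha : H₂ = 0
    · rw [ha]; simp
    by_cases hb : c₁ = 0
    · rw [hb]; simp
    exact mul_nonneg h1 (mul_nonneg hH2 (hpos ha hb))
  have hA : c₂ * (H₁ * (conj (Z * ω) * (θ - Z)).re) ≤ C * (H₁ * ‖Z * ω‖ ^ 2) := by
    by_cases ha : H₁ = 0
    · rw [ha]; simp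
    by_cases hb : c₂ = 0
    · rw [hb, zero_mul]; positivity
    have h3 : (conj (Z * ω) * (θ - Z)).re ≤ ‖Z * ω‖ * (C * ‖ω‖ * ‖Z‖) := by
      refine (Complex.re_le_norm _).trans ?_
      rw [norm_mul, RCLike.norm_conj]
      exact mul_le_mul_of_nonneg_left (hθ ha hb) (norm_nonneg _)
    have h4 : ‖Z * ω‖ * (C * ‖ω‖ * ‖Z‖) = C * ‖Z * ω‖ ^ 2 := by rw [norm_mul]; ring
    rw [h4] at h3
    have h5 : c₂ * (H₁ * (conj (Z * ω) * (θ - Z)).re) ≤ c₂ * (H₁ * (C * ‖Z * ω‖ ^ 2)) :=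
      mul_le_mul_of_nonneg_left (mul_le_mul_of_nonneg_left h3 hH1) h2
    have h6 : c₂ * (H₁ * (C * ‖Z * ω‖ ^ 2)) ≤ 1 * (H₁ * (C * ‖Z * ω‖ ^ 2)) :=
      mul_le_mul_of_nonneg_right h2' (by positivity)
    linarith
  have hB : -(-ω.im / ‖ω‖ ^ 2) * (-(H₁ * H₂) * (Z * ω * conj μ).im) ≤ Hm * C ^ 2 * (H₁ * ‖Z * ω‖ ^ 2) := by
    by_cases ha : H₁ = 0
    · rw [ha]; simp
    by_cases hb : H₂ = 0
    · rw [hb, mul_zero, neg_zero, zero_mul, mul_zero]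
      have : 0 ≤ Hm := by rw [← hb]; exact hHm
      positivity
    have hHm0 : 0 ≤ Hm := hH2.trans hHm
    have h3 : |(Z * ω * conj (μ - Z)).im| ≤ ‖Z * ω‖ * (C * ‖ω‖ * ‖Z‖) := by
      refine (Complex.abs_im_le_norm _).trans ?_
      rw [norm_mul, RCLike.norm_conj]
      exact mul_le_mul_of_nonneg_left (hμ ha hb) (norm_nonneg _)
    have h4 : ‖Z * ω‖ * (C * ‖ω‖ * ‖Z‖) = C * ‖Z‖ ^ 2 * ‖ω‖ ^ 2 := by rw [norm_mul]; ring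
    rw [h4] at h3
    have h5 : -(ω.im * (Z * ω * conj μ).im) ≤ C ^ 2 * ‖Z‖ ^ 2 * ‖ω‖ ^ 4 := by
      rw [e3]
      have h6 : |ω.im * (Z * ω * conj (μ - Z)).im| ≤ |ω.im| * (C * ‖Z‖ ^ 2 * ‖ω‖ ^ 2) := by
        rw [abs_mul]
        exact mul_le_mul_of_nonneg_left h3 (abs_nonneg _)
      have h7 := neg_abs_le (ω.im * (Z * ω * conj (μ - Z)).im)
      have h8 : 0 ≤ ‖Z‖ ^ 2 * (|ω.im| - C * ‖ω‖ ^ 2 / 2) ^ 2 := by positivity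
      have h9 : |ω.im| ^ 2 = ω.im ^ 2 := sq_abs _
      have h10 : 0 ≤ C ^ 2 * ‖Z‖ ^ 2 * ‖ω‖ ^ 4 := by positivity
      nlinarith
    have h6 : -(-ω.im / ‖ω‖ ^ 2) * (-(H₁ * H₂) * (Z * ω * conj μ).im) = H₁ * H₂ / ‖ω‖ ^ 2 * (-(ω.im * (Z * ω * conj μ).im)) := by
      field_simp
    rw [h6]
    have h7 : H₁ * H₂ / ‖ω‖ ^ 2 * (-(ω.im * (Z * ω * conj μ).im)) ≤ H₁ * H₂ / ‖ω‖ ^ 2 * (C ^ 2 * ‖Z‖ ^ 2 * ‖ω‖ ^ 4) :=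
      mul_le_mul_of_nonneg_left h5 (by positivity)
    have h8 : H₁ * H₂ / ‖ω‖ ^ 2 * (C ^ 2 * ‖Z‖ ^ 2 * ‖ω‖ ^ 4) = H₂ * (C ^ 2 * (H₁ * ‖Z * ω‖ ^ 2)) := by
      rw [norm_mul]
      field_simp
    have h9 : H₂ * (C ^ 2 * (H₁ * ‖Z * ω‖ ^ 2)) ≤ Hm * (C ^ 2 * (H₁ * ‖Z * ω‖ ^ 2)) :=
      mul_le_mul_of_nonneg_right hHm (by positivity)
    linarith
  rw [e1, e2]
  have e4 : c₂ * (H₁ * (‖Z‖ ^ 2 * ω.re + (conj (Z * ω) * (θ - Z)).re)) = c₂ * (H₁ * (‖Z‖ ^ 2 * ω.re)) + c₂ * (H₁ * (conj (Z * ω) * (θ - Z)).re) := by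
    ring
  rw [e4]
  linarith

end Pool.Agent.MQ
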