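import Pool.Agent.MQ.SNTube
import Pool.Agent.MQ.SNCalc
import Pool.Agent.MQ.SNPt
import Pool.Agent.MQ.Frame
import Pool.Agent.MQ.Shell

/-!
# MQ/SNBox: saddle-nodes, the cut-offs in the box
-/

set_option autoImplicit false

open Topology Filter Asymptotics Complex Set ComplexConjugate Metric

noncomputable section

namespace Pool.Agent.MQ

variable {α : ℕ → ℂ} {k : ℕ} {ρ : ℝ} {c : ℕ → ℂ} {J n : ℕ}

theorem pot_analytic {x : ℂ} (hx : x ≠ 0) : AnalyticAt ℂ (pot α k) x := by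
  unfold pot
  exact ((PP_differentiable α k).analyticAt x).div (analyticAt_id.pow k) (pow_ne_zero k hx)

theorem pot_deriv {x : ℂ} (hx : x ≠ 0) : deriv (pot α k) x * x ^ (k + 1) = DD α k x := by
  have h1 : HasDerivAt (pot α k) ((deriv (PP α k) x * x ^ k - PP α k x * (k * x ^ (k - 1))) / (x ^ k) ^ 2) x := by
    have h2 := ((PP_differentiable α k).differentiableAt (x := x)).hasDerivAt
    exact h2.div (hasDerivAt_pow k x) (pow_ne_zero k hx)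
  rw [h1.deriv, ← PP_deriv]
  rcases Nat.eq_zero_or_pos k with h | h
  · subst h
    simp
    ring
  · obtain ⟨j, rfl⟩ : ∃ j, k = j + 1 := ⟨k - 1, by omega⟩
    simp only [Nat.add_sub_cancel]
    field_simp
    ring

open Classical in
/-- the first cut-off, a function of `x` -/
def XX (α : ℕ → ℂ) (k : ℕ) (ρ : ℝ) (x : ℂ) : ℝ := if x = 0 then 1 else hp (scl α k ρ * ‖pot α k x‖ ^ 2)

/-- the second cut-off, a function of `Y` -/
def CC (n : ℕ) (ρ : ℝ) (Y : ℂ) : ℝ := hm ((1 / (ρ ^ n) ^ 2) * ‖Y‖ ^ 2)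

/-- the imaginary part of the potential, cut off near `0` -/
def EEE (α : ℕ → ℂ) (k : ℕ) (ρ : ℝ) (x : ℂ) : ℝ := (1 - hm ((8 / ρ ^ 2) * ‖x‖ ^ 2)) * (pot α k x).im

theorem XX_ev_one (hk : 1 ≤ k) (h0 : α 0 ≠ 0) (hρ : 0 < ρ) : ∀ᶠ x in 𝓝 (0 : ℂ), XX α k ρ x = 1 := by
  have hP0 : 0 < ‖PP α k 0‖ := norm_pos_iff.2 (PP_zero hk h0)
  have hPc : Continuous (PP α k) := (PP_differentiable α k).continuous
  have h1 : ∀ᶠ x in 𝓝 (0 : ℂ), ‖PP α k 0‖ / 2 < ‖PP α k x‖ :=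
    (hPc.norm.tendsto 0).eventually (lt_mem_nhds (by linarith))
  have h2 : ∀ᶠ x in 𝓝 (0 : ℂ), 8 * ‖x‖ ^ (2 * k) < ρ ^ (2 * k) := by
    have hc : Continuous fun x : ℂ => 8 * ‖x‖ ^ (2 * k) := by fun_prop
    have ht : Tendsto (fun x : ℂ => 8 * ‖x‖ ^ (2 * k)) (𝓝 0) (𝓝 0) := by
      have := hc.tendsto 0
      simpa [zero_pow (by omega : 2 * k ≠ 0)] using this
    exact ht.eventually (gt_mem_nhds (by positivity))
  filter_upwards [h1, h2] with x e1 e2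
  unfold XX
  split_ifs with hx
  · rfl
  · apply hp_one
    have hxp : 0 < ‖x‖ := norm_pos_iff.2 hx
    have e3 : scl α k ρ * ‖pot α k x‖ ^ 2 = ρ ^ (2 * k) * ‖PP α k x‖ ^ 2 / (‖PP α k 0‖ ^ 2 * ‖x‖ ^ (2 * k)) := by
      rw [scl, pot, norm_div, norm_pow, pow_mul' ‖x‖]
      field_simp
    rw [e3, le_div_iff₀ (by positivity)]
    have e4 : ‖PP α k 0‖ ^ 2 ≤ 4 * ‖PP α k x‖ ^ 2 := by nlinarith
    have hx2 : 0 < ‖x‖ ^ (2 * k) := by positivity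
    calc 2 * (‖PP α k 0‖ ^ 2 * ‖x‖ ^ (2 * k)) ≤ 2 * (4 * ‖PP α k x‖ ^ 2 * ‖x‖ ^ (2 * k)) :=
          mul_le_mul_of_nonneg_left (mul_le_mul_of_nonneg_right e4 hx2.le) (by norm_num)
      _ = (8 * ‖x‖ ^ (2 * k)) * ‖PP α k x‖ ^ 2 := by ring
      _ ≤ ρ ^ (2 * k) * ‖PP α k x‖ ^ 2 := mul_le_mul_of_nonneg_right e2.le (by positivity)

theorem XX_ev {x : ℂ} (hx : x ≠ 0) : XX α k ρ =ᶠ[𝓝 x] fun y => hp (scl α k ρ * ‖pot α k y‖ ^ 2) := by
  filter_upwards [isOpen_ne.mem_nhds hx] with y hy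
  unfold XX
  rw [if_neg hy]

theorem XX_contDiff (hk : 1 ≤ k) (h0 : α 0 ≠ 0) (hρ : 0 < ρ) : ContDiff ℝ 2 (XX α k ρ) := by
  rw [contDiff_iff_contDiffAt]
  intro x
  by_cases hx : x = 0
  · rw [hx]
    exact contDiffAt_const.congr_of_eventuallyEq (XX_ev_one hk h0 hρ)
  · exact (contDiffAt_comp_normSq (n := 2) (pot_analytic hx) hp_contDiff).congr_of_eventuallyEq (XX_ev hx)

theorem XX_nonneg (x : ℂ) : 0 ≤ XX α k ρ x := by
  unfold XX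
  split_ifs
  · exact zero_le_one
  · exact hp_nonneg _

theorem XX_le (x : ℂ) : XX α k ρ x ≤ 1 := by
  unfold XX
  split_ifs
  · exact le_rfl
  · exact hp_le _

theorem CC_contDiff : ContDiff ℝ 2 (CC n ρ) := by
  unfold CC
  exact (hm_contDiff (n := 2)).comp (contDiff_const.mul (contDiff_id.norm_sq ℝ))

theorem CC_ev_one : ∀ᶠ Y in 𝓝 (0 : ℂ), CC n ρ Y = 1 := by
  have hc : Continuous fun Y : ℂ => (1 / (ρ ^ n) ^ 2) * ‖Y‖ ^ 2 := by fun_prop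
  have ht : Tendsto (fun Y : ℂ => (1 / (ρ ^ n) ^ 2) * ‖Y‖ ^ 2) (𝓝 0) (𝓝 0) := by
    have := hc.tendsto 0
    simpa using this
  filter_upwards [ht.eventually (gt_mem_nhds (show (0 : ℝ) < 1 / 2 by norm_num))] with Y hY using hm_one hY.le

theorem CC_zero (hρ : 0 < ρ) {Y : ℂ} (h : ρ ^ n ≤ ‖Y‖) : CC n ρ Y = 0 := by
  apply hm_zero
  have h1 : 0 < ρ ^ n := pow_pos hρ n
  rw [one_div, ← div_eq_inv_mul, le_div_iff₀ (by positivity), one_mul]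
  exact pow_le_pow_left₀ h1.le h 2

theorem CC_nonneg (Y : ℂ) : 0 ≤ CC n ρ Y := hm_nonneg _

theorem CC_le (Y : ℂ) : CC n ρ Y ≤ 1 := hm_le _

theorem EEE_ev_zero : ∀ᶠ x in 𝓝 (0 : ℂ), EEE α k ρ x = 0 := by
  have hc : Continuous fun Y : ℂ => (8 / ρ ^ 2) * ‖Y‖ ^ 2 := by fun_prop
  have ht : Tendsto (fun Y : ℂ => (8 / ρ ^ 2) * ‖Y‖ ^ 2) (𝓝 0) (𝓝 0) := by
    have := hc.tendsto 0
    simpa using this
  filter_upwards [ht.eventually (gt_mem_nhds (show (0 : ℝ) < 1 / 2 by norm_num))] with Y hY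
  rw [EEE, hm_one hY.le, sub_self, zero_mul]

theorem EEE_contDiff : ContDiff ℝ 2 (EEE α k ρ) := by
  rw [contDiff_iff_contDiffAt]
  intro x
  by_cases hx : x = 0
  · rw [hx]
    exact contDiffAt_const.congr_of_eventuallyEq EEE_ev_zero
  · unfold EEE
    have h1 : ContDiffAt ℝ 2 (pot α k) x := ((pot_analytic hx).contDiffAt (n := 2)).restrict_scalars ℝ
    have h2 : ContDiffAt ℝ 2 (fun y => (pot α k y).im) x := Complex.imCLM.contDiff.contDiffAt.comp x h1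
    have h3 : ContDiffAt ℝ 2 (fun y : ℂ => hm ((8 / ρ ^ 2) * ‖y‖ ^ 2)) x :=
      contDiffAt_comp_normSq (n := 2) (f := fun y => y) analyticAt_id hm_contDiff
    exact (contDiffAt_const.sub h3).mul h2

theorem EEE_ev (hρ : 0 < ρ) {x : ℂ} (hx : ρ / 2 ≤ ‖x‖) : EEE α k ρ =ᶠ[𝓝 x] fun y => (pot α k y).im := by
  have hc : Continuous fun Y : ℂ => (8 / ρ ^ 2) * ‖Y‖ ^ 2 := by fun_prop
  have h1 : 1 < (8 / ρ ^ 2) * ‖x‖ ^ 2 := by
    have h2 : (ρ / 2) ^ 2 ≤ ‖x‖ ^ 2 := pow_le_pow_left₀ (by positivity) hx 2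
    rw [div_mul_eq_mul_div, lt_div_iff₀ (by positivity)]
    nlinarith
  filter_upwards [hc.continuousAt.eventually (lt_mem_nhds h1)] with y hy
  rw [EEE, hm_zero hy.le, sub_zero, one_mul]

end Pool.Agent.MQ
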