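import Pool.Agent.MQ.VDefs
import Pool.Agent.MQ.Fub
import Pool.Agent.MQ.Ibp

/-!
# MQ SNJac: integrals of Jacobians against `tau R`
-/

set_option autoImplicit false

open MeasureTheory Topology Filter Metric Laplacian

noncomputable section

namespace Pool.Agent.MQ

open Pool.Agent.H30M (tau contDiff_tau hcs_tau)
open Pool.Agent.H36.BP (EN fs)

theorem abs_jac_le (a b : ℂ → ℝ) (z : ℂ) : |jac a b z| ≤ ‖gr a z‖ * ‖gr b z‖ := by
  have h : jac a b z = ip (gr a z) (-Complex.I * gr b z) := by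
    simp [jac, ip, gr, dx, dy]
    ring
  rw [h]
  refine (abs_ip_le _ _).trans (le_of_eq ?_)
  rw [norm_mul, norm_neg, Complex.norm_I, one_mul]

theorem jac_comm (a b : ℂ → ℝ) (z : ℂ) : jac a b z = - jac b a z := by
  unfold jac; ring

/-- `|∫ τ {a, b}| ≤ sup |a| * ∫ |∇τ| |∇b|` -/
theorem int_jac_le {a b l : ℂ → ℝ} {C₁ C₂ : ℝ} (ha : ContDiff ℝ 1 a) (hb : ContDiff ℝ 2 b) (hl : Continuous l)
    (h1 : ∀ z, |a z| ≤ C₁) (h2 : ∀ z, ‖gr b z‖ ≤ C₂ * l z) {R : ℝ} (hR : 1 ≤ R) :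
    |∫ z, tau R z * jac a b z| ≤ C₁ * C₂ * ∫ z, ‖gr (tau R) z‖ * l z := by
  have hC1 : 0 ≤ C₁ := (abs_nonneg (a 0)).trans (h1 0)
  rw [jac_cycle ((contDiff_tau R).of_le (by norm_num)) (hcs_tau hR) (fun z _ => ha.contDiffAt) (fun z _ => hb.contDiffAt)]
  have hgt : Continuous (gr (tau R)) := continuous_gr ((contDiff_tau R).of_le (by norm_num))
  have hi : Integrable fun z => ‖gr (tau R) z‖ * l z :=
    (hgt.norm.mul hl).integrable_of_hasCompactSupport ((hasCompactSupport_gr (hcs_tau hR)).norm.mul_right)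
  rw [← integral_const_mul, ← Real.norm_eq_abs]
  refine norm_integral_le_of_norm_le (hi.const_mul _) (Eventually.of_forall fun z => ?_)
  rw [norm_mul, Real.norm_eq_abs, Real.norm_eq_abs]
  calc |a z| * |jac b (tau R) z| ≤ C₁ * (‖gr b z‖ * ‖gr (tau R) z‖) :=
        mul_le_mul (h1 z) (abs_jac_le _ _ _) (abs_nonneg _) hC1
    _ ≤ C₁ * (C₂ * l z * ‖gr (tau R) z‖) :=
        mul_le_mul_of_nonneg_left (mul_le_mul_of_nonneg_right (h2 z) (norm_nonneg _)) hC1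
    _ = _ := by ring

/-- the same with `|b|` bounded -/
theorem int_jac_le' {a b l : ℂ → ℝ} {C₁ C₂ : ℝ} (ha : ContDiff ℝ 2 a) (hb : ContDiff ℝ 1 b) (hl : Continuous l)
    (h1 : ∀ z, |b z| ≤ C₁) (h2 : ∀ z, ‖gr a z‖ ≤ C₂ * l z) {R : ℝ} (hR : 1 ≤ R) :
    |∫ z, tau R z * jac a b z| ≤ C₁ * C₂ * ∫ z, ‖gr (tau R) z‖ * l z := by
  have e : ∫ z, tau R z * jac a b z = - ∫ z, tau R z * jac b a z := by
    rw [← integral_neg]
    refine integral_congr_ae (Eventually.of_forall fun z => ?_)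
    simp only [jac_comm a b]
    ring
  rw [e, abs_neg]
  exact int_jac_le hb ha hl h1 h2 hR

variable {M : ℕ}

/-- with the length of a curve -/
theorem int_jac_le_Len {F : ℂ → EN M} (hF : Differentiable ℂ F) (h0 : ∀ z, F z ≠ 0) {a b : ℂ → ℝ} {C : ℝ} (ha : ContDiff ℝ 1 a)
    (hb : ContDiff ℝ 2 b) (h1 : ∀ z, |a z| ≤ C) (h2 : ∀ z, ‖gr b z‖ ≤ C * lam F z) {R : ℝ} (hR : 1 ≤ R) :
    |∫ z, tau R z * jac a b z| ≤ C ^ 2 * Len F R := by
  have h := int_jac_le ha hb (continuous_lam hF h0) h1 h2 hR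
  rw [← sq] at h
  exact h

theorem int_jac_le_Len' {F : ℂ → EN M} (hF : Differentiable ℂ F) (h0 : ∀ z, F z ≠ 0) {a b : ℂ → ℝ} {C : ℝ} (ha : ContDiff ℝ 2 a)
    (hb : ContDiff ℝ 1 b) (h1 : ∀ z, |b z| ≤ C) (h2 : ∀ z, ‖gr a z‖ ≤ C * lam F z) {R : ℝ} (hR : 1 ≤ R) :
    |∫ z, tau R z * jac a b z| ≤ C ^ 2 * Len F R := by
  have h := int_jac_le' ha hb (continuous_lam hF h0) h1 h2 hR
  rw [← sq] at h
  exact h

end Pool.Agent.MQ
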