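import Pool.Agent.MQ.FDefs

/-!
# MQ/SNLoc: saddle-nodes, local estimates near the formal weak separatrix

`v = (x ^ (k + 1) a, b)`, `Y = y - jet c J x`.
-/

set_option autoImplicit false

open Topology Filter Asymptotics Complex Set

noncomputable section

namespace Pool.Agent.MQ

/-- `div v - ε x ^ k a` for `v = (x ^ (k + 1) a, b)` -/
def dlt (k : ℕ) (a b : ℂ × ℂ → ℂ) (ε : ℂ) (p : ℂ × ℂ) : ℂ :=
  (k + 1 - ε) * (p.1 ^ k * a p) + p.1 ^ (k + 1) * fderiv ℂ a p (1, 0) + fderiv ℂ b p (0, 1)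

/-- the derivative of `Y = y - jet c J x` along `v` -/
def yv (k : ℕ) (a b : ℂ × ℂ → ℂ) (c : ℕ → ℂ) (J : ℕ) (p : ℂ × ℂ) : ℂ :=
  b p - deriv (jet c J) p.1 * (p.1 ^ (k + 1) * a p)

theorem jet_differentiable (c : ℕ → ℂ) (J : ℕ) : Differentiable ℂ (jet c J) := by
  unfold jet
  fun_prop

theorem jet_analytic (c : ℕ → ℂ) (J : ℕ) (x : ℂ) : AnalyticAt ℂ (jet c J) x :=
  (jet_differentiable c J).analyticAt x

theorem jet_zero {c : ℕ → ℂ} (hc : c 0 = 0) (J : ℕ) : jet c J 0 = 0 := by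
  unfold jet
  refine Finset.sum_eq_zero fun i _ => ?_
  rcases Nat.eq_zero_or_pos i with h | h
  · rw [h, hc, zero_mul]
  · rw [zero_pow h.ne', mul_zero]

theorem div_eq_dlt {k : ℕ} {a b : ℂ × ℂ → ℂ} {p : ℂ × ℂ} (ha : DifferentiableAt ℂ a p) (ε : ℂ) :
    fderiv ℂ (fun p : ℂ × ℂ => p.1 ^ (k + 1) * a p) p (1, 0) + fderiv ℂ b p (0, 1) - ε * (p.1 ^ k * a p) = dlt k a b ε p := by
  have h1 : HasFDerivAt (fun p : ℂ × ℂ => p.1) (ContinuousLinearMap.fst ℂ ℂ ℂ) p := hasFDerivAt_fst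
  have h2 : HasFDerivAt (fun p : ℂ × ℂ => p.1 ^ (k + 1) * a p)
      (p.1 ^ (k + 1) • fderiv ℂ a p + a p • ((k + 1) • p.1 ^ (k + 1 - 1)) • ContinuousLinearMap.fst ℂ ℂ ℂ) p :=
    (h1.pow (k + 1)).mul ha.hasFDerivAt
  have h3 : fderiv ℂ (fun p : ℂ × ℂ => p.1 ^ (k + 1) * a p) p (1, 0) = p.1 ^ (k + 1) * fderiv ℂ a p (1, 0) + (k + 1) * (p.1 ^ k * a p) := by
    rw [h2.fderiv]
    simp
    ring
  rw [h3, dlt]
  ring

/-- the tube around the formal curve -/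
theorem tube_small {c : ℕ → ℂ} (hc : c 0 = 0) (J : ℕ) {n : ℕ} (hn : 1 ≤ n) {U : Set (ℂ × ℂ)} (hU : U ∈ 𝓝 (0 : ℂ × ℂ)) :
    ∀ᶠ ρ in 𝓝[>] (0 : ℝ), ∀ p : ℂ × ℂ, ‖p.1‖ ≤ 2 * ρ → ‖p.2 - jet c J p.1‖ ≤ ρ ^ n → p ∈ U := by
  obtain ⟨r, hr, hrU⟩ := Metric.mem_nhds_iff.1 hU
  have h1 : Tendsto (jet c J) (𝓝 0) (𝓝 0) := by
    have := (jet_differentiable c J).continuous.tendsto 0
    rwa [jet_zero hc] at this
  obtain ⟨r1, hr1, h1'⟩ := Metric.mem_nhds_iff.1 (h1 (Metric.ball_mem_nhds (0 : ℂ) (half_pos hr)))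
  have h2 : ∀ᶠ ρ in 𝓝[>] (0 : ℝ), ρ < min (min (r / 2) (r1 / 2)) (min (1 / 2) (r / 4)) :=
    nhdsWithin_le_nhds (Iio_mem_nhds (by positivity))
  filter_upwards [h2, self_mem_nhdsWithin] with ρ hρ hρ0 p hp1 hp2
  have hρ0' : 0 < ρ := hρ0
  have e1 : ρ < r / 2 := hρ.trans_le ((min_le_left _ _).trans (min_le_left _ _))
  have e2 : ρ < r1 / 2 := hρ.trans_le ((min_le_left _ _).trans (min_le_right _ _))
  have e3 : ρ < 1 / 2 := hρ.trans_le ((min_le_right _ _).trans (min_le_left _ _))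
  have e4 : ρ < r / 4 := hρ.trans_le ((min_le_right _ _).trans (min_le_right _ _))
  apply hrU
  have hx : ‖p.1‖ < r1 := by linarith
  have hj : jet c J p.1 ∈ Metric.ball (0 : ℂ) (r / 2) := h1' (by simpa using hx)
  have hj' : ‖jet c J p.1‖ < r / 2 := by simpa using hj
  have hn' : ρ ^ n ≤ ρ := by
    calc ρ ^ n ≤ ρ ^ 1 := pow_le_pow_of_le_one hρ0'.le (by linarith) hn
      _ = ρ := pow_one _
  have hy : ‖p.2‖ < r := by
    have h3 : p.2 = (p.2 - jet c J p.1) + jet c J p.1 := by ring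
    rw [h3]
    refine (norm_add_le _ _).trans_lt ?_
    linarith
  rw [Metric.mem_ball, dist_zero_right]
  exact max_lt (by linarith) hy

/-- a function which is analytic at `0` does not vary much in the second variable -/
theorem analytic_lip {A : ℂ × ℂ → ℂ} (hA : AnalyticAt ℂ A 0) :
    ∃ K : ℝ, 0 ≤ K ∧ ∃ r : ℝ, 0 < r ∧ ∀ p ∈ Metric.ball (0 : ℂ × ℂ) r, ∀ q ∈ Metric.ball (0 : ℂ × ℂ) r, ‖A p - A q‖ ≤ K * ‖p - q‖ := by
  obtain ⟨K, t, ht, hL⟩ := (hA.contDiffAt (n := 1)).exists_lipschitzOnWith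
  obtain ⟨r, hr, hrt⟩ := Metric.mem_nhds_iff.1 ht
  refine ⟨K, K.2, r, hr, fun p hp q hq => ?_⟩
  have := hL.dist_le_mul p (hrt hp) q (hrt hq)
  rwa [dist_eq_norm, dist_eq_norm] at this

theorem analytic_bdd {A : ℂ × ℂ → ℂ} (hA : AnalyticAt ℂ A 0) :
    ∃ M : ℝ, 0 < M ∧ ∀ᶠ p in 𝓝 (0 : ℂ × ℂ), ‖A p‖ ≤ M := by
  refine ⟨‖A 0‖ + 1, by positivity, ?_⟩
  have h : Tendsto (fun p => ‖A p‖) (𝓝 0) (𝓝 ‖A 0‖) := hA.continuousAt.norm
  filter_upwards [h (Iio_mem_nhds (lt_add_one ‖A 0‖))] with p hp using le_of_lt hp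

/-- the principal part of `x ^ (k + 1) z'` -/
def DD (α : ℕ → ℂ) (k : ℕ) (x : ℂ) : ℂ := ∑ i ∈ Finset.range k, α i * x ^ i

/-- `x ^ k z` -/
def PP (α : ℕ → ℂ) (k : ℕ) (x : ℂ) : ℂ := -∑ i ∈ Finset.range k, α i / ((k : ℂ) - i) * x ^ i

theorem DD_differentiable (α : ℕ → ℂ) (k : ℕ) : Differentiable ℂ (DD α k) := by
  unfold DD
  fun_prop

theorem PP_differentiable (α : ℕ → ℂ) (k : ℕ) : Differentiable ℂ (PP α k) := by
  unfold PP
  fun_prop

theorem PP_deriv (α : ℕ → ℂ) (k : ℕ) (x : ℂ) : x * deriv (PP α k) x - k * PP α k x = DD α k x := by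
  have h : HasDerivAt (PP α k) (-∑ i ∈ Finset.range k, α i / ((k : ℂ) - i) * (i * x ^ (i - 1))) x := by
    unfold PP
    refine (HasDerivAt.fun_sum fun i _ => ?_).neg
    exact (hasDerivAt_pow i x).const_mul _
  rw [h.deriv, PP, DD, mul_neg, mul_neg, sub_neg_eq_add, Finset.mul_sum, Finset.mul_sum, ← Finset.sum_neg_distrib, ← Finset.sum_add_distrib]
  refine Finset.sum_congr rfl fun i hi => ?_
  have hi' : (k : ℂ) - i ≠ 0 := by
    have h1 : i < k := Finset.mem_range.1 hi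
    intro h0
    have h2 : (k : ℂ) = i := sub_eq_zero.1 h0
    have h3 : k = i := by exact_mod_cast h2
    omega
  have hx : x * (i * x ^ (i - 1)) = i * x ^ i := by
    rcases Nat.eq_zero_or_pos i with h0 | h0
    · rw [h0]; simp
    · obtain ⟨j, rfl⟩ : ∃ j, i = j + 1 := ⟨i - 1, by omega⟩
      simp only [Nat.add_sub_cancel, pow_succ]
      ring
  have e1 : x * (α i / ((k : ℂ) - i) * (i * x ^ (i - 1))) = α i / ((k : ℂ) - i) * (i * x ^ i) := by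
    rw [← hx]; ring
  rw [e1]
  field_simp
  ring

theorem DD_zero {α : ℕ → ℂ} {k : ℕ} (hk : 1 ≤ k) : DD α k 0 = α 0 := by
  unfold DD
  rw [Finset.sum_eq_single_of_mem 0 (by simpa using (by omega : 0 < k))]
  · simp
  · intro i _ hi
    rw [zero_pow hi, mul_zero]

theorem PP_zero {α : ℕ → ℂ} {k : ℕ} (hk : 1 ≤ k) (h0 : α 0 ≠ 0) : PP α k 0 ≠ 0 := by
  intro h
  have h1 := PP_deriv α k 0
  rw [h, zero_mul, mul_zero, sub_zero, DD_zero hk] at h1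
  exact h0 h1.symm

theorem taylor_poly {A : ℂ → ℂ} (hA : AnalyticAt ℂ A 0) (k : ℕ) :
    ∃ α : ℕ → ℂ, α 0 = A 0 ∧ (fun x => A x - DD α k x) =O[𝓝 0] fun x : ℂ => x ^ k := by
  obtain ⟨p, hp⟩ := hA
  refine ⟨p.coeff, ?_, ?_⟩
  · exact hp.coeff_zero 1
  · have h := hp.isBigO_sub_partialSum_pow k
    have e : ∀ x : ℂ, p.partialSum k x = DD p.coeff k x := by
      intro x
      rw [FormalMultilinearSeries.partialSum, DD]
      refine Finset.sum_congr rfl fun i _ => ?_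
      rw [FormalMultilinearSeries.apply_eq_pow_smul_coeff, smul_eq_mul, mul_comm]
    have h2 : (fun x => A x - DD p.coeff k x) =O[𝓝 0] fun x : ℂ => ‖x‖ ^ k := by
      refine h.congr_left fun x => ?_
      rw [zero_add, e]
    refine h2.trans (IsBigO.of_bound 1 (Eventually.of_forall fun x => ?_))
    simp

theorem an_fderiv_apply {a : ℂ × ℂ → ℂ} {p : ℂ × ℂ} (ha : AnalyticAt ℂ a p) (w : ℂ × ℂ) : AnalyticAt ℂ (fun p => fderiv ℂ a p w) p :=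
  AnalyticAt.fun_comp (f := fderiv ℂ a) ((ContinuousLinearMap.apply ℂ ℂ w).analyticAt _) ha.fderiv

/-- first estimate: `D a - δ` -/
theorem sn_est1 {k : ℕ} (hk : 1 ≤ k) {a b : ℂ × ℂ → ℂ} (ha : AnalyticAt ℂ a 0) (hb : AnalyticAt ℂ b 0) (ha0 : a 0 ≠ 0)
    (hb0 : fderiv ℂ b 0 (0, 1) ≠ 0) {c : ℕ → ℂ} (hc : c 0 = 0) (ε : ℂ) :
    ∃ (C : ℝ) (α : ℕ → ℂ), 0 < C ∧ α 0 ≠ 0 ∧ ∀ᶠ p in 𝓝 (0 : ℂ × ℂ),
      ‖DD α k p.1 * a p - dlt k a b ε p‖ ≤ C * (‖p.2 - jet c k p.1‖ + ‖p.1‖ ^ k) := by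
  have hda : AnalyticAt ℂ (fun p => fderiv ℂ a p (1, 0)) 0 := an_fderiv_apply ha _
  have hdb : AnalyticAt ℂ (fun p => fderiv ℂ b p (0, 1)) 0 := an_fderiv_apply hb _
  have hδ : AnalyticAt ℂ (dlt k a b ε) 0 := by
    unfold dlt
    exact (((analyticAt_const).mul ((analyticAt_fst.pow k).mul ha)).add ((analyticAt_fst.pow (k + 1)).mul hda)).add hdb
  have hδ0 : dlt k a b ε 0 ≠ 0 := by
    unfold dlt
    simpa [zero_pow (by omega : k ≠ 0)] using hb0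
  have hA : AnalyticAt ℂ (fun p => dlt k a b ε p / a p) 0 := hδ.div ha ha0
  have hjet : AnalyticAt ℂ (fun x : ℂ => (x, jet c k x)) 0 := analyticAt_id.prod (jet_analytic c k 0)
  have hj0 : (fun x : ℂ => (x, jet c k x)) 0 = 0 := by simp [jet_zero hc]
  have hA1 : AnalyticAt ℂ (fun x : ℂ => dlt k a b ε (x, jet c k x) / a (x, jet c k x)) 0 := by
    have : AnalyticAt ℂ (fun p => dlt k a b ε p / a p) ((fun x : ℂ => (x, jet c k x)) 0) := by rw [hj0]; exact hA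
    exact AnalyticAt.fun_comp (f := fun x : ℂ => (x, jet c k x)) this hjet
  obtain ⟨α, hα0, hα⟩ := taylor_poly hA1 k
  obtain ⟨K, hK, r, hr, hL⟩ := analytic_lip hA
  obtain ⟨C1, hC1, h1⟩ := hα.exists_pos
  rw [isBigOWith_iff] at h1
  obtain ⟨M, hM, h2⟩ := analytic_bdd ha
  have hα0' : α 0 ≠ 0 := by
    rw [hα0, jet_zero hc]
    exact div_ne_zero hδ0 ha0
  have h3 : ∀ᶠ p : ℂ × ℂ in 𝓝 0, ‖dlt k a b ε (p.1, jet c k p.1) / a (p.1, jet c k p.1) - DD α k p.1‖ ≤ C1 * ‖p.1 ^ k‖ := by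
    have ht : Tendsto (fun p : ℂ × ℂ => p.1) (𝓝 0) (𝓝 0) := continuous_fst.tendsto 0
    exact ht.eventually h1
  have h4 : ∀ᶠ p : ℂ × ℂ in 𝓝 0, (p.1, jet c k p.1) ∈ Metric.ball (0 : ℂ × ℂ) r := by
    have ht : Tendsto (fun p : ℂ × ℂ => (p.1, jet c k p.1)) (𝓝 0) (𝓝 0) := by
      have := (continuous_fst.prodMk ((jet_differentiable c k).continuous.comp continuous_fst)).tendsto (0 : ℂ × ℂ)
      simp only [Function.comp_apply, Prod.fst_zero, jet_zero hc] at this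
      exact this
    exact ht (Metric.ball_mem_nhds _ hr)
  have h5 : ∀ᶠ p : ℂ × ℂ in 𝓝 0, a p ≠ 0 := ha.continuousAt.eventually_ne ha0
  refine ⟨M * (K + C1), α, by positivity, hα0', ?_⟩
  filter_upwards [h2, h3, h4, h5, Metric.ball_mem_nhds (0 : ℂ × ℂ) hr] with p e2 e3 e4 e5 e6
  have e7 := hL p e6 _ e4
  have e8 : ‖p - (p.1, jet c k p.1)‖ = ‖p.2 - jet c k p.1‖ := by
    rw [Prod.norm_def]
    simp
  rw [e8] at e7
  have e9 : DD α k p.1 * a p - dlt k a b ε p = -(a p * ((dlt k a b ε p / a p - dlt k a b ε (p.1, jet c k p.1) / a (p.1, jet c k p.1)) +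
      (dlt k a b ε (p.1, jet c k p.1) / a (p.1, jet c k p.1) - DD α k p.1))) := by
    field_simp
    ring
  rw [e9, norm_neg, norm_mul]
  have e10 : ‖(dlt k a b ε p / a p - dlt k a b ε (p.1, jet c k p.1) / a (p.1, jet c k p.1)) +
      (dlt k a b ε (p.1, jet c k p.1) / a (p.1, jet c k p.1) - DD α k p.1)‖ ≤ K * ‖p.2 - jet c k p.1‖ + C1 * ‖p.1 ^ k‖ :=
    (norm_add_le _ _).trans (add_le_add e7 e3)
  rw [norm_pow] at e10
  calc ‖a p‖ * _ ≤ M * (K * ‖p.2 - jet c k p.1‖ + C1 * ‖p.1‖ ^ k) := mul_le_mul e2 e10 (norm_nonneg _) hM.le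
    _ ≤ M * (K + C1) * (‖p.2 - jet c k p.1‖ + ‖p.1‖ ^ k) := by
      have h6 : 0 ≤ M * (C1 * ‖p.2 - jet c k p.1‖) := by positivity
      have h7 : 0 ≤ M * (K * ‖p.1‖ ^ k) := by positivity
      nlinarith

/-- second estimate: `Y' - δ Y`; the constant `C` does not depend on `J` -/
theorem sn_est2 {k : ℕ} {a b : ℂ × ℂ → ℂ} (ha : AnalyticAt ℂ a 0) (hb : AnalyticAt ℂ b 0) {c : ℕ → ℂ} (hc : c 0 = 0) (ε : ℂ) :
    ∃ C : ℝ, 0 < C ∧ ∀ J : ℕ, ∀ᶠ p in 𝓝 (0 : ℂ × ℂ),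
      ‖yv k a b c J p - yv k a b c J (p.1, jet c J p.1) - dlt k a b ε p * (p.2 - jet c J p.1)‖ ≤
        C * (‖p.2 - jet c J p.1‖ + ‖p.1‖ ^ k) * ‖p.2 - jet c J p.1‖ := by
  have hda1 : AnalyticAt ℂ (fun p => fderiv ℂ a p (1, 0)) 0 := an_fderiv_apply ha _
  have hda : AnalyticAt ℂ (fun p => fderiv ℂ a p (0, 1)) 0 := an_fderiv_apply ha _
  have hdb : AnalyticAt ℂ (fun p => fderiv ℂ b p (0, 1)) 0 := an_fderiv_apply hb _
  obtain ⟨M0, hM0, h0⟩ := analytic_bdd ha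
  obtain ⟨M1, hM1, h1⟩ := analytic_bdd hda1
  obtain ⟨M2, hM2, h2⟩ := analytic_bdd hda
  obtain ⟨K, hK, r, hr, hL⟩ := analytic_lip hdb
  have h3 : ∀ᶠ p in 𝓝 (0 : ℂ × ℂ), DifferentiableAt ℂ a p ∧ DifferentiableAt ℂ b p := by
    filter_upwards [ha.eventually_analyticAt, hb.eventually_analyticAt] with p e1 e2 using ⟨e1.differentiableAt, e2.differentiableAt⟩
  obtain ⟨r', hr', hU⟩ := Metric.eventually_nhds_iff_ball.1 (h0.and (h1.and (h2.and h3)))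
  refine ⟨2 * K + (‖(k : ℂ) + 1 - ε‖ * M0 + M1 + M2), by positivity, fun J => ?_⟩
  have hcont : Continuous fun p : ℂ × ℂ => jet c J p.1 := (jet_differentiable c J).continuous.comp continuous_fst
  have hdcont : Continuous fun p : ℂ × ℂ => deriv (jet c J) p.1 :=
    ((jet_differentiable c J).contDiff (n := 1)).continuous_deriv le_rfl |>.comp continuous_fst
  have h4 : ∀ᶠ p : ℂ × ℂ in 𝓝 0, ‖p.1‖ * ‖deriv (jet c J) p.1‖ < 1 := by
    have : Tendsto (fun p : ℂ × ℂ => ‖p.1‖ * ‖deriv (jet c J) p.1‖) (𝓝 0) (𝓝 0) := by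
      have hcc : Continuous (fun p : ℂ × ℂ => ‖p.1‖ * ‖deriv (jet c J) p.1‖) := continuous_fst.norm.mul hdcont.norm
      simpa using hcc.tendsto (0 : ℂ × ℂ)
    exact this (Iio_mem_nhds one_pos)
  have h5 : ∀ᶠ p : ℂ × ℂ in 𝓝 0, ‖p.1‖ < min 1 (min r r') := by
    have : Tendsto (fun p : ℂ × ℂ => ‖p.1‖) (𝓝 0) (𝓝 0) := by simpa using (continuous_fst.norm).tendsto (0 : ℂ × ℂ)
    exact this (Iio_mem_nhds (by positivity))
  have h6 : ∀ᶠ p : ℂ × ℂ in 𝓝 0, ‖jet c J p.1‖ + ‖p.2 - jet c J p.1‖ < min r r' := by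
    have : Tendsto (fun p : ℂ × ℂ => ‖jet c J p.1‖ + ‖p.2 - jet c J p.1‖) (𝓝 0) (𝓝 0) := by
      have hcc : Continuous (fun p : ℂ × ℂ => ‖jet c J p.1‖ + ‖p.2 - jet c J p.1‖) := hcont.norm.add (continuous_snd.sub hcont).norm
      simpa [jet_zero hc] using hcc.tendsto (0 : ℂ × ℂ)
    exact this (Iio_mem_nhds (by positivity))
  filter_upwards [h4, h5, h6] with p e4 e5 e6
  set x := p.1 with hx
  set Y := p.2 - jet c J x with hY
  have hball : ∀ t : ℂ, ‖t‖ ≤ ‖Y‖ → (x, jet c J x + t) ∈ Metric.ball (0 : ℂ × ℂ) (min r r') := by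
    intro t ht
    rw [Metric.mem_ball, dist_zero_right, Prod.norm_def]
    refine max_lt (e5.trans_le (min_le_right _ _)) ?_
    refine (norm_add_le _ _).trans_lt ?_
    linarith
  have hp : p = (x, jet c J x + Y) := by
    rw [hY, hx]
    ext <;> simp
  have hpb : p ∈ Metric.ball (0 : ℂ × ℂ) (min r r') := by
    rw [hp]; exact hball Y le_rfl
  set h : ℂ → ℂ := fun t => yv k a b c J (x, jet c J x + t) - dlt k a b ε p * t with hh
  have hline : ∀ t : ℂ, HasDerivAt (fun t : ℂ => ((x, jet c J x + t) : ℂ × ℂ)) (0, 1) t := by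
    intro t
    exact (hasDerivAt_const t x).prodMk ((hasDerivAt_id t).const_add _)
  have hder : ∀ t : ℂ, ‖t‖ ≤ ‖Y‖ → HasDerivAt h (fderiv ℂ b (x, jet c J x + t) (0, 1) -
      deriv (jet c J) x * (x ^ (k + 1) * fderiv ℂ a (x, jet c J x + t) (0, 1)) - dlt k a b ε p) t := by
    intro t ht
    have hb1 := hball t ht
    obtain ⟨-, -, -, d1, d2⟩ := hU _ (Metric.ball_subset_ball (min_le_right _ _) hb1)
    have g1 : HasDerivAt (fun t => b (x, jet c J x + t)) (fderiv ℂ b (x, jet c J x + t) (0, 1)) t :=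
      d2.hasFDerivAt.comp_hasDerivAt t (hline t)
    have g2 : HasDerivAt (fun t => a (x, jet c J x + t)) (fderiv ℂ a (x, jet c J x + t) (0, 1)) t :=
      d1.hasFDerivAt.comp_hasDerivAt t (hline t)
    have g3 := (g1.sub ((g2.const_mul (x ^ (k + 1))).const_mul (deriv (jet c J) x))).sub ((hasDerivAt_id t).const_mul (dlt k a b ε p))
    rw [mul_one] at g3
    exact g3
  have hbound : ∀ t ∈ Metric.closedBall (0 : ℂ) ‖Y‖, ‖deriv h t‖ ≤ (2 * K + (‖(k : ℂ) + 1 - ε‖ * M0 + M1 + M2)) * (‖Y‖ + ‖x‖ ^ k) := by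
    intro t ht
    have ht' : ‖t‖ ≤ ‖Y‖ := by simpa using ht
    rw [(hder t ht').deriv]
    have hb1 := hball t ht'
    obtain ⟨q0, q1, q2, -, -⟩ := hU _ (Metric.ball_subset_ball (min_le_right _ _) hb1)
    obtain ⟨p0, p1, p2, -, -⟩ := hU _ (Metric.ball_subset_ball (min_le_right _ _) hpb)
    have e7 := hL _ (Metric.ball_subset_ball (min_le_left _ _) hb1) p (Metric.ball_subset_ball (min_le_left _ _) hpb)
    have e8 : ‖(x, jet c J x + t) - p‖ ≤ 2 * ‖Y‖ := by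
      rw [hp, Prod.norm_def]
      simp only [Prod.mk_sub_mk, sub_self, norm_zero, add_sub_add_left_eq_sub]
      refine max_le (by positivity) ((norm_sub_le _ _).trans ?_)
      linarith
    have hx1 : ‖x‖ < 1 := e5.trans_le (min_le_left _ _)
    have hxk : 0 ≤ ‖x‖ ^ k := by positivity
    have hY0 : 0 ≤ ‖Y‖ := norm_nonneg _
    have hdec : fderiv ℂ b (x, jet c J x + t) (0, 1) - deriv (jet c J) x * (x ^ (k + 1) * fderiv ℂ a (x, jet c J x + t) (0, 1)) - dlt k a b ε p =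
        (fderiv ℂ b (x, jet c J x + t) (0, 1) - fderiv ℂ b p (0, 1)) - x ^ k * ((x * deriv (jet c J) x) * fderiv ℂ a (x, jet c J x + t) (0, 1)) -
          x ^ k * ((k + 1 - ε) * a p) - x ^ k * (x * fderiv ℂ a p (1, 0)) := by
      rw [dlt, ← hx]
      ring
    rw [hdec]
    have n1 : ‖fderiv ℂ b (x, jet c J x + t) (0, 1) - fderiv ℂ b p (0, 1)‖ ≤ K * (2 * ‖Y‖) :=
      e7.trans (mul_le_mul_of_nonneg_left e8 hK)
    have n2 : ‖x ^ k * ((x * deriv (jet c J) x) * fderiv ℂ a (x, jet c J x + t) (0, 1))‖ ≤ ‖x‖ ^ k * M2 := by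
      rw [norm_mul, norm_pow]
      refine mul_le_mul_of_nonneg_left ?_ hxk
      rw [norm_mul, norm_mul]
      calc ‖x‖ * ‖deriv (jet c J) x‖ * _ ≤ 1 * M2 := mul_le_mul e4.le q2 (norm_nonneg _) zero_le_one
        _ = M2 := one_mul _
    have n3 : ‖x ^ k * (((k : ℂ) + 1 - ε) * a p)‖ ≤ ‖x‖ ^ k * (‖(k : ℂ) + 1 - ε‖ * M0) := by
      rw [norm_mul, norm_pow]
      refine mul_le_mul_of_nonneg_left ?_ hxk
      rw [norm_mul]
      exact mul_le_mul_of_nonneg_left p0 (norm_nonneg _)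
    have n4 : ‖x ^ k * (x * fderiv ℂ a p (1, 0))‖ ≤ ‖x‖ ^ k * M1 := by
      rw [norm_mul, norm_pow]
      refine mul_le_mul_of_nonneg_left ?_ hxk
      rw [norm_mul]
      calc ‖x‖ * _ ≤ 1 * M1 := mul_le_mul hx1.le p1 (norm_nonneg _) zero_le_one
        _ = M1 := one_mul _
    have n5 := norm_sub_le (fderiv ℂ b (x, jet c J x + t) (0, 1) - fderiv ℂ b p (0, 1) -
      x ^ k * ((x * deriv (jet c J) x) * fderiv ℂ a (x, jet c J x + t) (0, 1)) - x ^ k * ((k + 1 - ε) * a p)) (x ^ k * (x * fderiv ℂ a p (1, 0)))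
    have n6 := norm_sub_le (fderiv ℂ b (x, jet c J x + t) (0, 1) - fderiv ℂ b p (0, 1) -
      x ^ k * ((x * deriv (jet c J) x) * fderiv ℂ a (x, jet c J x + t) (0, 1))) (x ^ k * ((k + 1 - ε) * a p))
    have n7 := norm_sub_le (fderiv ℂ b (x, jet c J x + t) (0, 1) - fderiv ℂ b p (0, 1))
      (x ^ k * ((x * deriv (jet c J) x) * fderiv ℂ a (x, jet c J x + t) (0, 1)))
    have n8 : 0 ≤ (‖(k : ℂ) + 1 - ε‖ * M0 + M1 + M2) * ‖Y‖ := by positivity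
    have n9 : 0 ≤ 2 * K * ‖x‖ ^ k := by positivity
    nlinarith
  have hmv := (convex_closedBall (0 : ℂ) ‖Y‖).norm_image_sub_le_of_norm_deriv_le (f := h) (x := 0) (y := Y)
    (fun t ht => (hder t (by simpa using ht)).differentiableAt) hbound (by simp) (by simp)
  have e9 : h Y - h 0 = yv k a b c J p - yv k a b c J (x, jet c J x) - dlt k a b ε p * Y := by
    simp only [hh, add_zero, mul_zero, sub_zero]
    rw [← hp]
    ring
  rw [e9, sub_zero] at hmv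
  exact hmv

end Pool.Agent.MQ
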