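import Pool.Agent.MQ.SData
import Pool.Agent.MQ.Sieg

/-!
# MQ Siegel: forms with high contact with all the separatrices which are not algebraic
-/

set_option autoImplicit false
set_option linter.unusedVariables false

open Topology Filter MvPolynomial Asymptotics

noncomputable section

namespace Pool.Agent.MQ

open Pool.Agent.H36.BP (EN)
open Pool.Agent.H17BP (Pr Surface IsChart)
open Pool.Agent.H17EF (projVar coneE)
open Pool.Agent.H17LG.Variety (FunField)
open Pool.Agent.H62.FC (Homog)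
open Pool.Agent.H14.PP (analyticAt_evalEN eval_smulEN)

variable {N M : ℕ} {κ ι γ : Type} {P : Ideal (MvPolynomial (Fin (N + 1)) ℂ)} {Y : Set (EN M)} {π : κ → EN M →L[ℂ] EN N}
  {A : ι → Fin (M + 1) → MvPolynomial (Fin (M + 1)) ℂ} {D : ℕ} {C : γ → MvPolynomial (Fin (M + 1)) ℂ} {E : ℕ}
  {R : MvPolynomial (Fin (N + 1)) ℂ}

/-! ### Orders of germs in one variable -/

theorem isBigO_pow_iff {g : ℂ → ℂ} (hg : AnalyticAt ℂ g 0) (n : ℕ) :
    (g =O[𝓝 0] fun t : ℂ => t ^ n) ↔ (n : ℕ∞) ≤ analyticOrderAt g 0 := by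
  constructor
  · intro h
    by_contra hlt
    rw [not_le] at hlt
    obtain ⟨m, hm⟩ : ∃ m : ℕ, analyticOrderAt g 0 = m := ENat.ne_top_iff_exists.1 (ne_top_of_lt hlt) |>.imp fun _ h => h.symm
    rw [hm, Nat.cast_lt] at hlt
    obtain ⟨q, hq, hq0, hgq⟩ := (hg.analyticOrderAt_eq_natCast).1 hm
    have h1 : (fun z : ℂ => (z - 0) ^ m • q z) =O[𝓝 0] fun t : ℂ => t ^ n :=
      IsBigO.congr' h hgq (Eventually.of_forall fun _ => rfl)
    obtain ⟨B, hB⟩ := h1.bound
    have h2 : ∀ᶠ z in 𝓝[≠] (0 : ℂ), ‖q z‖ ≤ B * ‖z‖ ^ (n - m) := by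
      filter_upwards [nhdsWithin_le_nhds hB, self_mem_nhdsWithin] with z hz hz0
      have hz0' : 0 < ‖z‖ := norm_pos_iff.2 hz0
      rw [sub_zero, norm_smul, norm_pow, norm_pow] at hz
      have h3 : ‖z‖ ^ n = ‖z‖ ^ m * ‖z‖ ^ (n - m) := by rw [← pow_add]; congr 1; omega
      rw [h3] at hz
      have h4 : ‖z‖ ^ m * ‖q z‖ ≤ ‖z‖ ^ m * (B * ‖z‖ ^ (n - m)) := by linarith
      exact le_of_mul_le_mul_left h4 (pow_pos hz0' m)
    have h3 : Tendsto (fun z : ℂ => B * ‖z‖ ^ (n - m)) (𝓝[≠] 0) (𝓝 0) := by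
      have h4 : Tendsto (fun z : ℂ => B * ‖z‖ ^ (n - m)) (𝓝 0) (𝓝 (B * ‖(0 : ℂ)‖ ^ (n - m))) :=
        (continuous_const.mul (continuous_norm.pow _)).tendsto 0
      rw [norm_zero, zero_pow (by omega), mul_zero] at h4
      exact h4.mono_left nhdsWithin_le_nhds
    have h4 : Tendsto (fun z : ℂ => ‖q z‖) (𝓝[≠] 0) (𝓝 ‖q 0‖) := hq.continuousAt.norm.tendsto.mono_left nhdsWithin_le_nhds
    have h5 := le_of_tendsto_of_tendsto h4 h3 h2
    exact hq0 (norm_le_zero_iff.1 h5)
  · intro h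
    obtain ⟨q, hq, hgq⟩ := (natCast_le_analyticOrderAt hg).1 h
    have h1 : (fun z : ℂ => (z - 0) ^ n • q z) =O[𝓝 0] fun t : ℂ => t ^ n := by
      have h2 : q =O[𝓝 0] fun _ : ℂ => (1 : ℂ) := hq.continuousAt.isBigO_one ℂ
      have h3 := (isBigO_refl (fun t : ℂ => t ^ n) (𝓝 0)).mul h2
      simpa [smul_eq_mul] using h3
    exact IsBigO.congr' h1 (hgq.mono fun z hz => hz.symm) (Eventually.of_forall fun _ => rfl)

theorem ordAt_iff {g : ℂ → ℂ} (hg : AnalyticAt ℂ g 0) (n : ℕ) : OrdAt g n ↔ analyticOrderAt g 0 = n := by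
  rw [OrdAt, isBigO_pow_iff hg, isBigO_pow_iff hg]
  constructor
  · rintro ⟨h1, h2⟩
    rw [not_le] at h2
    have h3 : analyticOrderAt g 0 < (n : ℕ∞) + 1 := by simpa using h2
    exact le_antisymm (ENat.lt_add_one_iff (ENat.natCast_ne_top n) |>.1 h3) h1
  · intro h
    rw [h]
    exact ⟨le_rfl, by rw [not_le]; exact_mod_cast Nat.lt_succ_self n⟩

/-! ### The maps `π i` in a chart -/

/-- the maps `π i` differ by a factor -/
theorem exists_factor (hM : Model P Y π A D C E R) {σ : ℂ × ℂ → EN M} {τ : EN M → ℂ × ℂ} (hσ : IsChart Y σ τ) {i i' : κ} (hi : π i (σ 0) ≠ 0) :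
    ∃ u : ℂ × ℂ → ℂ, AnalyticAt ℂ u 0 ∧ (π i' (σ 0) ≠ 0 → u 0 ≠ 0) ∧ ∀ᶠ p in 𝓝 (0 : ℂ × ℂ), π i' (σ p) = u p • π i (σ p) := by
  obtain ⟨l, hl⟩ : ∃ l, (π i (σ 0)).ofLp l ≠ 0 := by
    by_contra h
    push Not at h
    exact hi (by ext l; simpa using h l)
  have han : ∀ j : κ, AnalyticAt ℂ (fun p => (π j (σ p)).ofLp l) 0 := fun j =>
    (((EuclideanSpace.proj (𝕜 := ℂ) (ι := Fin (N + 1)) l : EN N →L[ℂ] ℂ).comp (π j)).analyticAt _).comp hσ.σ_an
  have hpr : ∀ᶠ p in 𝓝 (0 : ℂ × ℂ), π i' (σ p) = ((π i' (σ p)).ofLp l / (π i (σ p)).ofLp l) • π i (σ p) := by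
    filter_upwards [hσ.σ_mem, (han i).continuousAt.eventually_ne hl] with p hp hpl
    have hne : π i (σ p) ≠ 0 := by
      intro h0
      rw [h0] at hpl
      exact hpl rfl
    by_cases h' : π i' (σ p) = 0
    · simp [h']
    · obtain ⟨c, hc, he⟩ := hM.pr (σ p) hp i' i h' hne
      have hcl : (π i' (σ p)).ofLp l = c * (π i (σ p)).ofLp l := by rw [he]; simp
      rw [hcl, mul_div_assoc, div_self hpl, mul_one, he]
  refine ⟨fun p => (π i' (σ p)).ofLp l / (π i (σ p)).ofLp l, (han i').div (han i) hl, fun hi' h0 => ?_, hpr⟩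
  have h1 := hpr.self_of_nhds
  rw [show ((π i' (σ 0)).ofLp l / (π i (σ 0)).ofLp l) = 0 from h0, zero_smul] at h1
  exact hi' h1

theorem analyticAt_eval_pi {σ : ℂ × ℂ → EN M} {τ : EN M → ℂ × ℂ} (hσ : IsChart Y σ τ) (Q : MvPolynomial (Fin (N + 1)) ℂ) (i : κ)
    {c : ℂ → ℂ × ℂ} (hc : AnalyticAt ℂ c 0) (h0 : c 0 = 0) : AnalyticAt ℂ (fun t => eval (π i (σ (c t))).ofLp Q) 0 := by
  have h1 : AnalyticAt ℂ (fun t => π i (σ (c t))) 0 := by
    have h2 : AnalyticAt ℂ σ (c 0) := by rw [h0]; exact hσ.σ_an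
    have h3 : AnalyticAt ℂ (fun t => σ (c t)) 0 := h2.fun_comp hc
    exact AnalyticAt.fun_comp (f := fun t => σ (c t)) ((π i).analyticAt _) h3
  exact AnalyticAt.fun_comp (f := fun t => π i (σ (c t))) (analyticAt_evalEN Q (π i (σ (c 0)))) h1

/-- the order does not depend on the map `π i` -/
theorem order_eq (hM : Model P Y π A D C E R) {σ : ℂ × ℂ → EN M} {τ : EN M → ℂ × ℂ} (hσ : IsChart Y σ τ) {Q : MvPolynomial (Fin (N + 1)) ℂ} {d : ℕ}
    (hQ : Q.IsHomogeneous d) {c : ℂ → ℂ × ℂ} (hc : AnalyticAt ℂ c 0) (h0 : c 0 = 0) {i i' : κ} (hi : π i (σ 0) ≠ 0) (hi' : π i' (σ 0) ≠ 0) :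
    analyticOrderAt (fun t => eval (π i' (σ (c t))).ofLp Q) 0 = analyticOrderAt (fun t => eval (π i (σ (c t))).ofLp Q) 0 := by
  obtain ⟨u, hu, hu0, he⟩ := exists_factor hM hσ (i := i) (i' := i') hi
  have hct : Tendsto c (𝓝 0) (𝓝 0) := by
    have := hc.continuousAt.tendsto
    rwa [h0] at this
  have hua : AnalyticAt ℂ (fun t => u (c t) ^ d) 0 := by
    have h2 : AnalyticAt ℂ u (c 0) := by rw [h0]; exact hu
    exact (h2.fun_comp hc).pow d
  have h1 : (fun t => eval (π i' (σ (c t))).ofLp Q) =ᶠ[𝓝 0] (fun t => u (c t) ^ d) * fun t => eval (π i (σ (c t))).ofLp Q := by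
    filter_upwards [hct.eventually he] with t ht
    rw [ht, eval_smulEN hQ]
    rfl
  rw [analyticOrderAt_congr h1, analyticOrderAt_mul hua (analyticAt_eval_pi hσ Q i hc h0)]
  have h2 : analyticOrderAt (fun t => u (c t) ^ d) 0 = 0 := by
    rw [hua.analyticOrderAt_eq_zero, h0]
    exact pow_ne_zero d (hu0 hi')
  rw [h2, zero_add]

/-- a form which does not vanish on the surface does not vanish on a germ which is not algebraic -/
theorem order_ne_top (hM : Model P Y π A D C E R) {σ : ℂ × ℂ → EN M} {τ : EN M → ℂ × ℂ} (hσ : IsChart Y σ τ) {Q : MvPolynomial (Fin (N + 1)) ℂ} {d : ℕ}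
    (hQ : Q.IsHomogeneous d) (hQP : Q ∉ P) {c : ℂ → ℂ × ℂ} (hc : AnalyticAt ℂ c 0) (h0 : c 0 = 0) (hn : NonAlg P π fun t => σ (c t)) {i : κ}
    (hi : π i (σ 0) ≠ 0) : analyticOrderAt (fun t => eval (π i (σ (c t))).ofLp Q) 0 ≠ ⊤ := by
  intro htop
  rw [analyticOrderAt_eq_top] at htop
  have hct : Tendsto c (𝓝 0) (𝓝 0) := by
    have := hc.continuousAt.tendsto
    rwa [h0] at this
  have hne : ∀ᶠ p in 𝓝 (0 : ℂ × ℂ), π i (σ p) ≠ 0 :=
    (((π i).continuous.continuousAt.comp hσ.σ_an.continuousAt : ContinuousAt (fun p => π i (σ p)) 0)).eventually_ne hi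
  have h1 : ∀ᶠ t in 𝓝 (0 : ℂ), ∀ k, eval (π k (σ (c t))).ofLp Q = 0 := by
    filter_upwards [htop, hct.eventually hne, hct.eventually hσ.σ_mem] with t ht h2 h3 k
    by_cases hk : π k (σ (c t)) = 0
    · obtain ⟨a, ha⟩ : ∃ a : ℂ, π k (σ (c t)) = a • π i (σ (c t)) := ⟨0, by rw [hk, zero_smul]⟩
      rcases Nat.eq_zero_or_pos d with hd | hd
      · subst hd
        rw [hk, ← show (0 : ℂ) • π i (σ (c t)) = 0 from zero_smul _ _, eval_smulEN hQ, ht, mul_zero]
      · rw [ha, eval_smulEN hQ, ht, mul_zero]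
    · obtain ⟨a, -, ha⟩ := hM.pr _ h3 k i hk h2
      rw [ha, eval_smulEN hQ, ht, mul_zero]
  have h2 := hn Q d hQ hQP
  exact h2 (h1.mono fun t ht ⟨k, hk⟩ => hk (ht k))

/-! ### The germs -/

/-- the chart of the local data -/
def SData.sig {y : EN M} : SData P Y π A C y → (ℂ × ℂ → EN M)
  | .node σ _ _ _ _ _ _ _ => σ
  | .saddleC _ σ _ _ _ _ _ => σ
  | .saddleN _ σ _ _ _ _ _ _ => σ

/-- the first germ: the axis `{p.1 = 0}`; the second germ: the axis `{p.2 = 0}`, or the formal separatrix -/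
def SData.germ {y : EN M} : SData P Y π A C y → ℕ → Fin 2 → (ℂ → ℂ × ℂ)
  | .node _ _ _ _ _ _ _ _, _, b => if b = 0 then fun t => (0, t) else fun t => (t, 0)
  | .saddleC _ _ _ _ _ _ _, _, b => if b = 0 then fun t => (0, t) else fun t => (t, 0)
  | .saddleN _ _ _ _ _ _ c _, n, b => if b = 0 then fun t => (0, t) else fun t => (t, jet c n t)

theorem analyticAt_jet (c : ℕ → ℂ) (n : ℕ) (t : ℂ) : AnalyticAt ℂ (jet c n) t := by
  have : jet c n = fun t => ∑ i ∈ Finset.range (n + 1), c i * t ^ i := rfl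
  rw [this]
  exact Finset.analyticAt_fun_sum _ fun i _ => analyticAt_const.mul (analyticAt_id.pow i)

theorem jet_zero {c : ℕ → ℂ} (hc : c 0 = 0) (n : ℕ) : jet c n 0 = 0 := by
  rw [jet, Finset.sum_eq_zero]
  intro i _
  rcases Nat.eq_zero_or_pos i with rfl | hi
  · rw [hc, zero_mul]
  · rw [zero_pow hi.ne', mul_zero]

theorem analyticAt_ax₁ : AnalyticAt ℂ (fun t : ℂ => ((0 : ℂ), t)) 0 := AnalyticAt.prod analyticAt_const analyticAt_id

theorem analyticAt_ax₂ : AnalyticAt ℂ (fun t : ℂ => (t, (0 : ℂ))) 0 := AnalyticAt.prod analyticAt_id analyticAt_const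

theorem SData.germ_an {y : EN M} (S : SData P Y π A C y) (n : ℕ) (b : Fin 2) : AnalyticAt ℂ (S.germ n b) 0 ∧ S.germ n b 0 = 0 := by
  cases S with
  | node σ τ l l₁ l₂ a b' h =>
    simp only [SData.germ]
    split_ifs
    · exact ⟨analyticAt_ax₁, rfl⟩
    · exact ⟨analyticAt_ax₂, rfl⟩
  | saddleC k σ τ l₁ a b' h =>
    simp only [SData.germ]
    split_ifs
    · exact ⟨analyticAt_ax₁, rfl⟩
    · exact ⟨analyticAt_ax₂, rfl⟩
  | saddleN k σ τ l₁ a b' c h =>
    simp only [SData.germ]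
    split_ifs
    · exact ⟨analyticAt_ax₁, rfl⟩
    · refine ⟨AnalyticAt.prod analyticAt_id (analyticAt_jet c n 0), ?_⟩
      simp only [jet_zero h.c_zero, Prod.mk_zero_zero]

theorem SData.chart {y : EN M} (S : SData P Y π A C y) : ∃ τ, IsChart Y S.sig τ := by
  cases S with
  | node σ τ l l₁ l₂ a b' h => exact ⟨τ, h.box.chart⟩
  | saddleC k σ τ l₁ a b' h => exact ⟨τ, h.box.chart⟩
  | saddleN k σ τ l₁ a b' c h => exact ⟨τ, h.box.chart⟩

theorem SData.sig_zero {y : EN M} (S : SData P Y π A C y) : S.sig 0 = y := by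
  cases S with
  | node σ τ l l₁ l₂ a b' h => exact h.pt
  | saddleC k σ τ l₁ a b' h => exact h.pt
  | saddleN k σ τ l₁ a b' c h => exact h.pt

/-! ### The contact -/

/-- contact with an axis -/
theorem contactAx (hM : Model P Y π A D C E R) {σ : ℂ × ℂ → EN M} {τ : EN M → ℂ × ℂ} (hσ : IsChart Y σ τ) {Q : MvPolynomial (Fin (N + 1)) ℂ} {d : ℕ}
    (hQ : Q.IsHomogeneous d) (hQP : Q ∉ P) {c : ℂ → ℂ × ℂ} (hc : AnalyticAt ℂ c 0) (h0 : c 0 = 0) (hn : NonAlg P π fun t => σ (c t)) {i : κ}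
    (hi : π i (σ 0) ≠ 0) {n : ℕ} (hO : (fun t => eval (π i (σ (c t))).ofLp Q) =O[𝓝 0] fun t : ℂ => t ^ n) :
    ContactAx π Q (fun t => σ (c t)) n := by
  have han := fun j => analyticAt_eval_pi (π := π) hσ Q j hc h0
  obtain ⟨n', hn'⟩ : ∃ n' : ℕ, analyticOrderAt (fun t => eval (π i (σ (c t))).ofLp Q) 0 = n' :=
    (ENat.ne_top_iff_exists.1 (order_ne_top hM hσ hQ hQP hc h0 hn hi)).imp fun _ h => h.symm
  refine ⟨n', ?_, fun i' hi' => ?_⟩
  · have h1 := (isBigO_pow_iff (han i) n).1 hO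
    rw [hn'] at h1
    exact_mod_cast h1
  · have hi'' : π i' (σ 0) ≠ 0 := by simpa only [h0] using hi'
    rw [ordAt_iff (han i'), order_eq hM hσ hQ hc h0 hi hi'', hn']

/-- the difference of two truncations -/
theorem jet_sub (c : ℕ → ℂ) {n J : ℕ} (h : n ≤ J) : (fun t => jet c J t - jet c n t) =O[𝓝 0] fun t : ℂ => t ^ (n + 1) := by
  induction J, h using Nat.le_induction with
  | base => simp only [sub_self]; exact isBigO_zero _ _
  | succ J hJ ih =>
    have h1 : (fun t => jet c (J + 1) t - jet c n t) = fun t => (jet c J t - jet c n t) + c (J + 1) * t ^ (J + 1) := by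
      funext t
      rw [jet, Finset.sum_range_succ, ← jet]
      ring
    rw [h1]
    refine ih.add ?_
    have h2 : (fun t : ℂ => c (J + 1) * t ^ (J + 1)) = fun t : ℂ => t ^ (n + 1) * (c (J + 1) * t ^ (J - n)) := by
      funext t
      have h3 : t ^ (J + 1) = t ^ (n + 1) * t ^ (J - n) := by rw [← pow_add]; congr 1; omega
      rw [h3]; ring
    rw [h2]
    have h4 : (fun t : ℂ => c (J + 1) * t ^ (J - n)) =O[𝓝 0] fun _ : ℂ => (1 : ℂ) :=
      Tendsto.isBigO_one ℂ (ContinuousAt.tendsto (f := fun t : ℂ => c (J + 1) * t ^ (J - n)) (by fun_prop))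
    simpa using (isBigO_refl (fun t : ℂ => t ^ (n + 1)) (𝓝 0)).mul h4

/-- a form on two truncations -/
theorem eval_jet_sub {σ : ℂ × ℂ → EN M} {τ : EN M → ℂ × ℂ} (hσ : IsChart Y σ τ) (Q : MvPolynomial (Fin (N + 1)) ℂ) (i : κ) {c : ℕ → ℂ} (hc : c 0 = 0)
    {n J : ℕ} (h : n ≤ J) :
    (fun t => eval (π i (σ (t, jet c J t))).ofLp Q - eval (π i (σ (t, jet c n t))).ofLp Q) =O[𝓝 0] fun t : ℂ => t ^ (n + 1) := by
  have hg : AnalyticAt ℂ (fun p : ℂ × ℂ => eval (π i (σ p)).ofLp Q) 0 :=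
    AnalyticAt.fun_comp (f := fun p => π i (σ p)) (analyticAt_evalEN Q (π i (σ 0)))
      (AnalyticAt.fun_comp (f := σ) ((π i).analyticAt _) hσ.σ_an)
  obtain ⟨K, s, hs, hK⟩ := (hg.contDiffAt (n := 1)).exists_lipschitzOnWith
  have hj : ∀ J, Tendsto (fun t : ℂ => (t, jet c J t)) (𝓝 0) (𝓝 (0 : ℂ × ℂ)) := by
    intro J
    have h1 : ContinuousAt (fun t : ℂ => (t, jet c J t)) 0 := continuousAt_id.prodMk (analyticAt_jet c J 0).continuousAt
    have h2 := h1.tendsto
    simpa only [jet_zero hc, Prod.mk_zero_zero] using h2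
  have h1 : (fun t => eval (π i (σ (t, jet c J t))).ofLp Q - eval (π i (σ (t, jet c n t))).ofLp Q) =O[𝓝 0] fun t => jet c J t - jet c n t := by
    refine IsBigO.of_bound K ?_
    filter_upwards [(hj J).eventually hs, (hj n).eventually hs] with t h1 h2
    have h3 := hK.dist_le_mul _ h1 _ h2
    rw [dist_eq_norm] at h3
    refine h3.trans (le_of_eq ?_)
    rw [Prod.dist_eq, dist_self, dist_eq_norm, max_eq_right (norm_nonneg _)]
  exact h1.trans (jet_sub c h)

/-- **contact with all the separatrices which are not algebraic** -/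
theorem siegel [P.IsPrime] (hP : Homog P) {z : Fin 2 → FunField P} (hz : IsTranscendenceBasis ℂ z)
    (hX : ∃ i, (X i : MvPolynomial (Fin (N + 1)) ℂ) ∉ P) [Finite κ] (hM : Model P Y π A D C E R) {r : ℕ} {y : Fin r → EN M} (hy : ∀ j, y j ∈ Y)
    (S : ∀ j, SData P Y π A C (y j)) (k : ℕ) :
    ∃ (d : ℕ) (Q : MvPolynomial (Fin (N + 1)) ℂ), 1 ≤ d ∧ Q.IsHomogeneous d ∧ Q ∉ P ∧ ∀ j, (S j).Contact Q (k * d) := by
  choose i hi using fun j => hM.ne (y j) (hy j)
  let e : Fin (r * 2) ≃ Fin r × Fin 2 := finProdFinEquiv.symm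
  obtain ⟨d, Q, hd, hQ, hQP, hO⟩ := sieg hz hX (r := r * 2) (fun n x t => π (i (e x).1) ((S (e x).1).sig ((S (e x).1).germ n (e x).2 t)))
    (by
      intro n x
      obtain ⟨τ, hτ⟩ := (S (e x).1).chart
      obtain ⟨h1, h2⟩ := (S (e x).1).germ_an n (e x).2
      have h3 : AnalyticAt ℂ (S (e x).1).sig ((S (e x).1).germ n (e x).2 0) := by rw [h2]; exact hτ.σ_an
      exact ((π _).analyticAt _).comp (h3.comp h1)) k
  have hO' : ∀ j b, (fun t => eval (π (i j) ((S j).sig ((S j).germ (k * d) b t))).ofLp Q) =O[𝓝 0] fun t : ℂ => t ^ (k * d) := by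
    intro j b
    have h1 := hO (e.symm (j, b))
    rwa [Equiv.apply_symm_apply] at h1
  refine ⟨d, Q, hd, hQ, hQP, fun j => ?_⟩
  have h0 := hO' j 0
  have h1 := hO' j 1
  have hij : π (i j) ((S j).sig 0) ≠ 0 := by rw [(S j).sig_zero]; exact hi j
  generalize hSj : S j = Sj at h0 h1 hij
  cases Sj with
  | node σ τ l l₁ l₂ a b h =>
    simp only [SData.germ, SData.sig, if_true] at h0 h1 hij
    simp only [Fin.isValue, one_ne_zero, if_false] at h1
    refine ⟨fun hl => ?_, fun hl => ?_⟩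
    · rcases h.ax₁ with hh | ⟨-, hh⟩
      · have := hl 0
        rw [hh 0] at this
        simp at this
      · exact contactAx hM h.box.chart hQ hQP analyticAt_ax₁ rfl hh hij h0
    · rcases h.ax₂ with hh | ⟨-, hh⟩
      · have := hl 0
        rw [hh 0] at this
        simp at this
      · exact contactAx hM h.box.chart hQ hQP analyticAt_ax₂ rfl hh hij h1
  | saddleC k' σ τ l₁ a b h =>
    simp only [SData.germ, SData.sig, if_true] at h0 h1 hij
    intro hl
    rcases h.ax₁ with hh | ⟨-, hh⟩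
    · have := hl 0
      rw [hh 0] at this
      simp at this
    · exact contactAx hM h.box.chart hQ hQP analyticAt_ax₁ rfl hh hij h0
  | saddleN k' σ τ l₁ a b c h =>
    simp only [SData.germ, SData.sig, if_true] at h0 h1 hij
    simp only [Fin.isValue, one_ne_zero, if_false] at h1
    refine ⟨fun hl => ?_, ?_⟩
    · rcases h.ax₁ with hh | ⟨-, hh⟩
      · have := hl 0
        rw [hh 0] at this
        simp at this
      · exact contactAx hM h.box.chart hQ hQP analyticAt_ax₁ rfl hh hij h0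
    · -- the formal separatrix
      have hja : ∀ J, AnalyticAt ℂ (fun t : ℂ => (t, jet c J t)) 0 := fun J => AnalyticAt.prod analyticAt_id (analyticAt_jet c J 0)
      have hj0 : ∀ J, (fun t : ℂ => (t, jet c J t)) 0 = 0 := fun J => by simp only [jet_zero h.c_zero, Prod.mk_zero_zero]
      have han := fun J i' => analyticAt_eval_pi (π := π) h.box.chart Q i' (hja J) (hj0 J)
      obtain ⟨n, i', hn⟩ := h.nonalg Q d hQ hQP
      -- the same for `i j`
      have hn1 : ¬ (fun t : ℂ => eval (π (i j) (σ (t, jet c n t))).ofLp Q) =O[𝓝 0] fun t : ℂ => t ^ (n + 1) := by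
        intro hO2
        apply hn
        obtain ⟨u, hu, -, he⟩ := exists_factor hM h.box.chart (i := i j) (i' := i') hij
        have hct : Tendsto (fun t : ℂ => (t, jet c n t)) (𝓝 0) (𝓝 0) := by
          have := (hja n).continuousAt.tendsto
          rwa [show ((0 : ℂ), jet c n 0) = (0 : ℂ × ℂ) from hj0 n] at this
        have h3 : (fun t : ℂ => u (t, jet c n t) ^ d) =O[𝓝 0] fun _ : ℂ => (1 : ℂ) := by
          have h4 : ContinuousAt (fun t : ℂ => u (t, jet c n t) ^ d) 0 := by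
            have h5 : ContinuousAt u ((0 : ℂ), jet c n 0) := by rw [show ((0 : ℂ), jet c n 0) = (0 : ℂ × ℂ) from hj0 n]; exact hu.continuousAt
            exact (ContinuousAt.comp (g := u) (f := fun t : ℂ => (t, jet c n t)) h5 (hja n).continuousAt).pow d
          exact h4.isBigO_one ℂ
        have h5 := h3.mul hO2
        simp only [one_mul] at h5
        refine IsBigO.congr' h5 ?_ (Eventually.of_forall fun _ => rfl)
        filter_upwards [hct.eventually he] with t ht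
        rw [ht, eval_smulEN hQ]
      -- the order `m`
      obtain ⟨m, hm⟩ : ∃ m : ℕ, analyticOrderAt (fun t => eval (π (i j) (σ (t, jet c n t))).ofLp Q) 0 = m := by
        have h3 : analyticOrderAt (fun t => eval (π (i j) (σ (t, jet c n t))).ofLp Q) 0 ≠ ⊤ := by
          intro h4
          apply hn1
          rw [isBigO_pow_iff (han n (i j)), h4]
          exact le_top
        exact (ENat.ne_top_iff_exists.1 h3).imp fun _ h => h.symm
      have hmn : m ≤ n := by
        by_contra h3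
        rw [not_le] at h3
        apply hn1
        rw [isBigO_pow_iff (han n (i j)), hm]
        exact_mod_cast h3
      have hord : ∀ J, m ≤ J → analyticOrderAt (fun t => eval (π (i j) (σ (t, jet c J t))).ofLp Q) 0 = m := by
        intro J hJ
        have hmin : (m : ℕ∞) < ((min J n + 1 : ℕ) : ℕ∞) := by exact_mod_cast Nat.lt_succ_of_le (le_min hJ hmn)
        have h3 : (fun t => eval (π (i j) (σ (t, jet c J t))).ofLp Q - eval (π (i j) (σ (t, jet c n t))).ofLp Q) =O[𝓝 0]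
            fun t : ℂ => t ^ (min J n + 1) := by
          rcases le_total J n with h4 | h4
          · rw [min_eq_left h4]
            have h5 := (eval_jet_sub (π := π) h.box.chart Q (i j) h.c_zero h4).neg_left
            refine IsBigO.congr_left h5 fun t => ?_
            ring
          · rw [min_eq_right h4]
            exact eval_jet_sub (π := π) h.box.chart Q (i j) h.c_zero h4
        have h4 : ((min J n + 1 : ℕ) : ℕ∞) ≤ analyticOrderAt (fun t => eval (π (i j) (σ (t, jet c J t))).ofLp Q -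
            eval (π (i j) (σ (t, jet c n t))).ofLp Q) 0 := (isBigO_pow_iff ((han J (i j)).fun_sub (han n (i j))) _).1 h3
        have h5 : (fun t => eval (π (i j) (σ (t, jet c J t))).ofLp Q) =
            (fun t => eval (π (i j) (σ (t, jet c n t))).ofLp Q) +
              fun t => (eval (π (i j) (σ (t, jet c J t))).ofLp Q - eval (π (i j) (σ (t, jet c n t))).ofLp Q) := by
          funext t
          simp only [Pi.add_apply]
          ring
        rw [h5, analyticOrderAt_add_eq_left_of_lt (by rw [hm]; exact hmin.trans_le h4), hm]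
      refine ⟨m, ?_, fun J hJ i'' hi'' => ?_⟩
      · by_contra h3
        rw [not_le] at h3
        have h4 := hord (k * d) h3.le
        have h5 := (isBigO_pow_iff (han (k * d) (i j)) (k * d)).1 h1
        rw [h4] at h5
        have h6 : k * d ≤ m := by exact_mod_cast h5
        omega
      · rw [ordAt_iff (han J i''), order_eq hM h.box.chart hQ (hja J) (hj0 J) hij hi'', hord J hJ]

end Pool.Agent.MQ
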