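import Pool.Agent.MQ.SmallD
import Pool.Agent.MQ.Fin
import Pool.Agent.MQ.Desc
import Pool.Agent.E2.Small

/-!
# MQ Small: the main theorem for small classes
-/

set_option autoImplicit false

open Topology Filter Metric MvPolynomial

noncomputable section

namespace Pool.Agent.MQ

open Pool.Agent.H36.BP (EN)
open Pool.Agent.H17 (PN VanishesAt HolomorphicInto)
open Pool.Agent.H17EF (projVar coneE)
open Pool.Agent.H17LG.Variety (FunField)
open Pool.Agent.H13.SM (conTan)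
open Pool.Agent.H13.OT (OrderTwo)
open Pool.Agent.H62.FC (Homog)
open Pool.Agent.AD (NullClass)
open Pool.Agent.AD.NC (IsSmooth IsOfLogGeneralType isOfLogGeneralType_zero)
open Pool.Agent.SY (IsHyperbolicSurface)
open Pool.Agent.SG2 (NegSurf)

variable {N : ℕ}

/-- the members of a small class lie in one curve -/
theorem exists_R_small {P : Ideal (MvPolynomial (Fin (N + 1)) ℂ)} [P.IsPrime] (hP : Homog P) (hdim : ∃ z : Fin 2 → FunField P, IsTranscendenceBasis ℂ z)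
    (hsmooth : IsSmooth P 2) (hgt : IsOfLogGeneralType P (Fin.elim0 : Fin 0 → MvPolynomial (Fin (N + 1)) ℂ) 2) {A : Set (ℂ → PN N)}
    (hs : SmallClass P A) :
    ∃ (R : MvPolynomial (Fin (N + 1)) ℂ) (d : ℕ), R.IsHomogeneous d ∧ R ∉ P ∧ ∀ f : ℂ → PN N, HolomorphicInto f Set.univ → OrderTwo f →
      (∀ z, f z ∈ projVar P) → (∃ z w, f z ≠ f w) → f ∈ A → ∀ z, VanishesAt R (f z) := by
  induction hs with
  | curve A R d hR hRP h => exact ⟨R, d, hR, hRP, h⟩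
  | coprime A m₁ m₂ h₁ h₂ θ₁ θ₂ hd h =>
    exact Pool.Agent.E2.exists_R_small hP hdim hsmooth hgt (Pool.Agent.E2.SmallClass.coprime A m₁ m₂ h₁ h₂ θ₁ θ₂ hd h)
  | torus A g Λ hΛ u hu hn h =>
    exact Pool.Agent.E2.exists_R_small hP hdim hsmooth hgt (Pool.Agent.E2.SmallClass.torus A g Λ hΛ u hu hn h)
  | model A M P' hP' hH hdim' hsm' hgt' FF hF φ hφ h =>
    obtain ⟨R', d', hR', hRP', h'⟩ := Pool.Agent.MQ.exists_R hH hdim' hsm' hgt' hF
    obtain ⟨z, hz⟩ := id hdim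
    obtain ⟨z', hz'⟩ := id hdim'
    obtain ⟨R, d, hR, hRP, hd⟩ := descent hz hH hz' (fun y h0 h1 => hsm' y h0 h1) hφ hR' hRP'
    refine ⟨R, d, hR, hRP, fun f hf h2 hfX hfn hfA w => ?_⟩
    obtain ⟨g, hg, hg2, hgX, hgF, hφg⟩ := h f hf h2 hfX hfn hfA
    have hne : ∃ z w, g z ≠ g w := by
      obtain ⟨a, b, hab⟩ := hfn
      exact ⟨a, b, fun h5 => hab (by rw [← hφg a, ← hφg b, h5])⟩
    have h6 := hd (g w) (hgX w) (h' g hg hg2 hgX hne hgF w)
    rwa [hφg w] at h6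
  | union A A₁ A₂ _ _ h ih₁ ih₂ =>
    obtain ⟨R₁, d₁, hR₁, hRP₁, h₁⟩ := ih₁
    obtain ⟨R₂, d₂, hR₂, hRP₂, h₂⟩ := ih₂
    refine ⟨R₁ * R₂, d₁ + d₂, hR₁.mul hR₂, fun h3 => ?_, fun f hf h2 hfX hfn hfA w => ?_⟩
    · rcases (inferInstance : P.IsPrime).mem_or_mem h3 with h4 | h4
      · exact hRP₁ h4
      · exact hRP₂ h4
    · show eval (f w).rep (R₁ * R₂) = 0
      rw [map_mul]
      rcases h hfA with h4 | h4
      · have h5 : eval (f w).rep R₁ = 0 := h₁ f hf h2 hfX hfn h4 w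
        rw [h5, zero_mul]
      · have h5 : eval (f w).rep R₂ = 0 := h₂ f hf h2 hfX hfn h4 w
        rw [h5, mul_zero]

/-- **SE**, for small null classes. -/
theorem main_small {P : Ideal (MvPolynomial (Fin (N + 1)) ℂ)} {m j : ℕ} {Ω : EN N → EN N → EN N → ℂ} {κ : Type}
    {Q : κ → MvPolynomial (Fin (N + 1)) ℂ} {e μ : ℕ} [P.IsPrime] (hP : Homog P) (hdim : ∃ z : Fin 2 → FunField P, IsTranscendenceBasis ℂ z)
    (hsmooth : IsSmooth P 2) (hgt : IsOfLogGeneralType P (Fin.elim0 : Fin 0 → MvPolynomial (Fin (N + 1)) ℂ) 2)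
    (hX : NegSurf P m j Ω Q e μ) (A : Set (ℂ → PN N)) (hA : NullClass P A) (hs : SmallClass P A) : IsHyperbolicSurface P := by
  obtain ⟨R, d, hR, hRP, h⟩ := exists_R_small hP hdim hsmooth hgt hs
  exact Pool.Agent.SG2.main_neg hP hdim hsmooth hgt hX A hA R d hR hRP h

end Pool.Agent.MQ
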