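import Pool.Agent.MQ.MDefs

/-!
# MQ SmallD: small classes of entire curves
-/

set_option autoImplicit false

open MvPolynomial

namespace Pool.Agent.MQ

open Pool.Agent.H36.BP (EN)
open Pool.Agent.H17 (PN VanishesAt HolomorphicInto)
open Pool.Agent.H17EF (projVar coneE)
open Pool.Agent.H17LG.Variety (FunField)
open Pool.Agent.H13.OT (OrderTwo)
open Pool.Agent.H62.FC (Homog)
open Pool.Agent.AD (SymDiff TangentTo IsHolomorphicTorusMap)
open Pool.Agent.AD.NC (IsSmooth IsOfLogGeneralType)
open Pool.Agent.E1 (ComNull)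
open Pool.Agent.E2 (NowhereConstant)

variable {N : ℕ}

/-- The set `A` of entire curves in the surface of `P` is small: its nonconstant members with `T_f (r) = O (r ^ 2)` lie in one curve `{R = 0}`, or its
members are tangent to two symmetric differentials which have no common null direction at the points of a dense subset of the surface, or they lie in the
fibres of a holomorphic map to a complex torus which is constant on no nonempty open subset, or its nonconstant members with `T_f (r) = O (r ^ 2)` are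
images of curves with the same property which are tangent to a foliation with reduced singularities of a smooth projective surface of general type, under a
holomorphic map, or `A` is covered by two such sets. -/
inductive SmallClass (P : Ideal (MvPolynomial (Fin (N + 1)) ℂ)) : Set (ℂ → PN N) → Prop
  | curve (A : Set (ℂ → PN N)) (R : MvPolynomial (Fin (N + 1)) ℂ) (d : ℕ) (hR : R.IsHomogeneous d) (hRP : R ∉ P)
      (h : ∀ f : ℂ → PN N, HolomorphicInto f Set.univ → OrderTwo f → (∀ z, f z ∈ projVar P) → (∃ z w, f z ≠ f w) → f ∈ A →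
        ∀ z, VanishesAt R (f z)) : SmallClass P A
  | coprime (A : Set (ℂ → PN N)) (m₁ m₂ : ℕ) (h₁ : 1 ≤ m₁) (h₂ : 1 ≤ m₂) (θ₁ : SymDiff (coneE P) m₁) (θ₂ : SymDiff (coneE P) m₂)
      (hd : coneE P ⊆ closure (coneE P \ ComNull θ₁ θ₂))
      (h : ∀ f : ℂ → PN N, HolomorphicInto f Set.univ → (∀ z, f z ∈ projVar P) → f ∈ A → TangentTo θ₁ f ∧ TangentTo θ₂ f) : SmallClass P A
  | torus (A : Set (ℂ → PN N)) (g : ℕ) (Λ : AddSubgroup (Fin g → ℂ)) (hΛ : DiscreteTopology Λ) (u : PN N → (Fin g → ℂ) ⧸ Λ)
      (hu : IsHolomorphicTorusMap (projVar P) Λ u) (hn : NowhereConstant (projVar P) u)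
      (h : ∀ f : ℂ → PN N, HolomorphicInto f Set.univ → (∀ z, f z ∈ projVar P) → f ∈ A → ∀ z w, u (f z) = u (f w)) : SmallClass P A
  | model (A : Set (ℂ → PN N)) (M : ℕ) (P' : Ideal (MvPolynomial (Fin (M + 1)) ℂ)) (hP : P'.IsPrime) (hH : Homog P')
      (hdim : ∃ z : Fin 2 → FunField P', IsTranscendenceBasis ℂ z) (hsm : IsSmooth P' 2)
      (hgt : IsOfLogGeneralType P' (Fin.elim0 : Fin 0 → MvPolynomial (Fin (M + 1)) ℂ) 2) (FF : Set (EN M × EN M)) (hF : IsReduced P' FF)
      (φ : PN M → PN N) (hφ : HolomorphicMap (projVar P') φ)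
      (h : ∀ f : ℂ → PN N, HolomorphicInto f Set.univ → OrderTwo f → (∀ z, f z ∈ projVar P) → (∃ z w, f z ≠ f w) → f ∈ A →
        Lifts P' FF φ f) : SmallClass P A
  | union (A A₁ A₂ : Set (ℂ → PN N)) (h₁ : SmallClass P A₁) (h₂ : SmallClass P A₂) (h : A ⊆ A₁ ∪ A₂) : SmallClass P A

end Pool.Agent.MQ
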