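import Pool.Agent.MQ.SData
import Pool.Agent.H17LG.Variety
import Pool.Agent.H68.KR.SMC

/-!
# MQ StubE: the statements around the core (never import this file in a hand-in)

* `sieg` (helper82), `siegel`: a form with high contact with all separatrices which are not algebraic;
* `exists_sing`: finitely many singular points;
* `exists_W`: the form `Ω` on `X`;
* `core`: the analytic theorem for one curve;
* `curve_of_model`: assembly.
-/

set_option autoImplicit false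

open Topology Filter MvPolynomial Asymptotics

noncomputable section

namespace Pool.Agent.MQ

open Pool.Agent.H36.BP (EN)
open Pool.Agent.H17 (PN VanishesAt HolomorphicInto)
open Pool.Agent.H17BP (Pr Surface IsChart IsForm)
open Pool.Agent.H17EF (projVar coneE)
open Pool.Agent.H17LG.Variety (FunField)
open Pool.Agent.H14.PP (Tan)
open Pool.Agent.H13.OT (OrderTwo)
open Pool.Agent.H62.FC (Homog)

variable {N M : ℕ} {κ ι γ : Type} {P : Ideal (MvPolynomial (Fin (N + 1)) ℂ)} {Y : Set (EN M)} {π : κ → EN M →L[ℂ] EN N}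
  {A : ι → Fin (M + 1) → MvPolynomial (Fin (M + 1)) ℂ} {D : ℕ} {C : γ → MvPolynomial (Fin (M + 1)) ℂ} {E : ℕ}
  {R : MvPolynomial (Fin (N + 1)) ℂ}

/-- a lift `F` of an entire curve in `X` and a curve `G` in `Y` over it which is tangent to the foliation -/
structure LiftD (P : Ideal (MvPolynomial (Fin (N + 1)) ℂ)) (Y : Set (EN M)) (π : κ → EN M →L[ℂ] EN N)
    (A : ι → Fin (M + 1) → MvPolynomial (Fin (M + 1)) ℂ) (F : ℂ → EN N) (G : ℂ → EN M) : Prop where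
  F_diff : Differentiable ℂ F
  F_mem : ∀ z, F z ∈ coneE P
  G_diff : Differentiable ℂ G
  G_mem : ∀ z, G z ∈ Y
  pr : ∀ z k, π k (G z) ≠ 0 → Pr (π k (G z)) (F z)
  tan : ∀ z i, ev (A i) (G z) (deriv G z) = 0
  growth : ∃ B : ℝ, ∀ r : ℝ, 0 < r →
    Real.circleAverage (fun z => Real.log ‖G z‖) 0 r ≤ B * (1 + Real.circleAverage (fun z => Real.log ‖F z‖) 0 r)
  order : ∃ B : ℝ, ∀ r : ℝ, 0 < r → Real.circleAverage (fun z => Real.log ‖F z‖) 0 r ≤ B * (1 + r ^ 2)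
  nonconst : ∃ z w, ∀ c : ℂ, F z ≠ c • F w

namespace StubE

/-- MODULE Sieg (helper82): forms on a surface with high contact with finitely many germs; `k` is large, the degree is `d` -/
theorem sieg [P.IsPrime] {z : Fin 2 → FunField P} (hz : IsTranscendenceBasis ℂ z) (hX : ∃ i, (X i : MvPolynomial (Fin (N + 1)) ℂ) ∉ P)
    {r : ℕ} (c : ℕ → Fin r → ℂ → EN N) (hc : ∀ n i, AnalyticAt ℂ (c n i) 0) (k : ℕ) :
    ∃ (d : ℕ) (Q : MvPolynomial (Fin (N + 1)) ℂ), 1 ≤ d ∧ Q.IsHomogeneous d ∧ Q ∉ P ∧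
      ∀ i, (fun t => eval (c (k * d) i t).ofLp Q) =O[𝓝 0] fun t : ℂ => t ^ (k * d) := by
  sorry

/-- MODULE Siegel: contact of a finite order `≥ k d` with all separatrices which are not algebraic (from `sieg`, `NonAlg`, `SaddleNAt.nonalg`) -/
theorem siegel [P.IsPrime] (hP : Homog P) {z : Fin 2 → FunField P} (hz : IsTranscendenceBasis ℂ z)
    (hX : ∃ i, (X i : MvPolynomial (Fin (N + 1)) ℂ) ∉ P) [Finite κ] (hM : Model P Y π A D C E R) {r : ℕ} {y : Fin r → EN M} (hy : ∀ j, y j ∈ Y)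
    (S : ∀ j, SData P Y π A C (y j)) (k : ℕ) :
    ∃ (d : ℕ) (Q : MvPolynomial (Fin (N + 1)) ℂ), 1 ≤ d ∧ Q.IsHomogeneous d ∧ Q ∉ P ∧ ∀ j, (S j).Contact Q (k * d) := by
  sorry

/-- MODULE Sing: finitely many singular points (they are isolated: in a chart the forms `A i` vanish only where `v` does; compactness of `Y` in `ℙ^M`) -/
theorem exists_sing [Finite ι] (hM : Model P Y π A D C E R) :
    ∃ (r : ℕ) (y : Fin r → EN M), (∀ j, y j ∈ Y) ∧ (∀ i j, i ≠ j → ¬ Pr (y i) (y j)) ∧ (∀ j, Nonempty (SData P Y π A C (y j))) ∧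
      ∀ x ∈ Y, (∀ j, ¬ Pr x (y j)) → Regular Y π A C x := by
  sorry

/-- MODULE WX: a section of `M K - H` on `X` which does not vanish along a curve outside `{Q₀ = 0}` (`H68.KR.exists_form_of_smooth`, `E2/Kod`) -/
theorem exists_W [P.IsPrime] (hP : Homog P) {z : Fin 2 → FunField P} (hz : IsTranscendenceBasis ℂ z)
    (hsm : ∀ y : Fin (N + 1) → ℂ, y ≠ 0 → (∀ Q ∈ P, eval y Q = 0) → Module.finrank ℂ (Pool.Agent.H13.SM.conTan P y) ≤ 3)
    (hgt : Pool.Agent.H62.FC.LogGeneralType P ∅ 2) :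
    ∃ (m : ℕ) (Ω : EN N → EN N → EN N → ℂ) (d : ℕ) (Q : MvPolynomial (Fin (N + 1)) ℂ), 1 ≤ m ∧ Q.IsHomogeneous d ∧ Q ∉ P ∧ IsForm (coneE P) m 1 Ω ∧
      ∀ F : ℂ → EN N, Differentiable ℂ F → (∀ z, F z ∈ coneE P) → (∃ z w, ∀ c : ℂ, F z ≠ c • F w) →
        (∀ z w, Tan (coneE P) (F z) w → Ω (F z) (deriv F z) w = 0) → ∀ z, eval (F z).ofLp Q = 0 := by
  sorry

/-- THE CORE (StubG, StubL, the one-variable part): one curve; `k` depends only on the model, `Ω` and the local data -/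
theorem core [P.IsPrime] (hP : Homog P) (hsX : Surface (coneE P)) [Finite κ] [Finite ι] [Finite γ] (hM : Model P Y π A D C E R)
    {m : ℕ} (hm : 1 ≤ m) {Ω : EN N → EN N → EN N → ℂ} (hΩ : IsForm (coneE P) m 1 Ω)
    {r : ℕ} {y : Fin r → EN M} (hy : ∀ j, y j ∈ Y) (hne : ∀ i j, i ≠ j → ¬ Pr (y i) (y j)) (S : ∀ j, SData P Y π A C (y j))
    (hreg : ∀ x ∈ Y, (∀ j, ¬ Pr x (y j)) → Regular Y π A C x) :
    ∃ k : ℕ, 1 ≤ k ∧ ∀ (d : ℕ) (Q : MvPolynomial (Fin (N + 1)) ℂ), 1 ≤ d → Q.IsHomogeneous d → Q ∉ P → (∀ j, (S j).Contact Q (k * d)) →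
      ∀ (F : ℂ → EN N) (G : ℂ → EN M), LiftD P Y π A F G → (∃ z, eval (F z).ofLp R ≠ 0) → (∃ z, eval (F z).ofLp Q ≠ 0) →
        (∃ z w, Tan (coneE P) (F z) w ∧ Ω (F z) (deriv F z) w ≠ 0) → False := by
  sorry

end StubE

end Pool.Agent.MQ
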