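import Pool.Agent.MQ.FDefs
import Pool.Agent.H17BP.Div

/-!
# MQ TJet: forms with a given Taylor polynomial in a chart

`exists_form_jet`: for a germ `f` of a holomorphic function at the center of a chart `σ` there is a form `Z` of degree `N` with
`Z (σ p) - f p * ℓ (σ p) ^ N = O (‖p‖ ^ N)`, `ℓ` a fixed linear form with `ℓ (σ 0) ≠ 0`.
`fderiv_isBigO`: the derivative of a germ `O (‖p‖ ^ (m + 1))` is `O (‖p‖ ^ m)`.
-/

set_option autoImplicit false

open Topology Filter MvPolynomial Asymptotics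

noncomputable section

namespace Pool.Agent.MQ

open Pool.Agent.H36.BP (EN)
open Pool.Agent.H17BP (exists_div_x exists_div_y)

variable {M : ℕ}

/-- **The lemma of Hadamard.** -/
theorem tj_hadamard {f : ℂ × ℂ → ℂ} (hf : AnalyticAt ℂ f 0) :
    ∃ f₁ f₂ : ℂ × ℂ → ℂ, AnalyticAt ℂ f₁ 0 ∧ AnalyticAt ℂ f₂ 0 ∧
      ∀ᶠ p in 𝓝 (0 : ℂ × ℂ), f p = f 0 + p.1 * f₁ p + p.2 * f₂ p := by
  have hs : AnalyticAt ℂ (fun p : ℂ × ℂ => ((0 : ℂ), p.2)) 0 := analyticAt_const.prod analyticAt_snd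
  have hf2 : AnalyticAt ℂ (fun p : ℂ × ℂ => f (0, p.2)) 0 :=
    AnalyticAt.fun_comp (g := f) (f := fun p : ℂ × ℂ => ((0 : ℂ), p.2)) hf hs
  obtain ⟨f₁, h1, e1⟩ := exists_div_x (f := fun p : ℂ × ℂ => f p - f (0, p.2)) (hf.sub hf2)
    (Eventually.of_forall fun y => by simp)
  obtain ⟨f₂, h2, e2⟩ := exists_div_y (f := fun p : ℂ × ℂ => f (0, p.2) - f 0) (hf2.sub analyticAt_const)
    (Eventually.of_forall fun y => sub_self (f 0))
  refine ⟨f₁, f₂, h1, h2, ?_⟩
  filter_upwards [e1, e2] with p h3 h4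
  simp only [smul_eq_mul] at h3 h4
  rw [add_assoc, ← h3, ← h4]
  ring

/-- the polynomial of a linear form -/
def lpoly (φ : EN M →ₗ[ℂ] ℂ) : MvPolynomial (Fin (M + 1)) ℂ :=
  ∑ j, C (φ (EuclideanSpace.single j 1)) * X j

theorem lpoly_hom (φ : EN M →ₗ[ℂ] ℂ) : (lpoly φ).IsHomogeneous 1 := by
  refine MvPolynomial.IsHomogeneous.sum _ _ _ fun j _ => ?_
  have h := (isHomogeneous_C (Fin (M + 1)) (φ (EuclideanSpace.single j 1))).mul (isHomogeneous_X ℂ j)
  rwa [zero_add] at h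

theorem eval_lpoly (φ : EN M →ₗ[ℂ] ℂ) (x : EN M) : eval x.ofLp (lpoly φ) = φ x := by
  rw [lpoly, map_sum]
  have hx : x = ∑ j, x.ofLp j • (EuclideanSpace.single j (1 : ℂ) : EN M) := by
    ext i
    simp [Finset.sum_apply, Pi.single_apply]
  conv_rhs => rw [hx, map_sum]
  refine Finset.sum_congr rfl fun j _ => ?_
  rw [map_mul, eval_C, eval_X, map_smul, smul_eq_mul, mul_comm]

/-- the dual linear forms -/
theorem tj_dual {e : Fin 3 → EN M} (h : LinearIndependent ℂ e) :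
    ∃ L : Fin 3 → EN M →ₗ[ℂ] ℂ, ∀ i j, L i (e j) = if i = j then 1 else 0 := by
  obtain ⟨g, hg⟩ := LinearMap.exists_leftInverse_of_injective (Finsupp.linearCombination ℂ e)
    (LinearMap.ker_eq_bot.2 h)
  refine ⟨fun i => (Finsupp.lapply i).comp g, fun i j => ?_⟩
  have h1 := LinearMap.congr_fun hg (Finsupp.single j 1)
  rw [LinearMap.comp_apply, Finsupp.linearCombination_single, one_smul, LinearMap.id_apply] at h1
  rw [LinearMap.comp_apply, h1, Finsupp.lapply_apply, Finsupp.single_apply]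
  by_cases hij : i = j
  · rw [if_pos hij, if_pos hij.symm]
  · rw [if_neg hij, if_neg (Ne.symm hij)]

private theorem tj_fderiv {β₁ β₂ : ℂ × ℂ → ℂ} (h₁ : AnalyticAt ℂ β₁ 0) (h₂ : AnalyticAt ℂ β₂ 0) (w : ℂ × ℂ) :
    fderiv ℂ (fun p : ℂ × ℂ => p.1 * β₁ p + p.2 * β₂ p) 0 w = w.1 * β₁ 0 + w.2 * β₂ 0 := by
  have e1 : HasFDerivAt (fun p : ℂ × ℂ => p.1) (ContinuousLinearMap.fst ℂ ℂ ℂ) 0 := hasFDerivAt_fst
  have e2 : HasFDerivAt (fun p : ℂ × ℂ => p.2) (ContinuousLinearMap.snd ℂ ℂ ℂ) 0 := hasFDerivAt_snd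
  have e3 := (e1.mul h₁.differentiableAt.hasFDerivAt).add (e2.mul h₂.differentiableAt.hasFDerivAt)
  rw [show (fun p : ℂ × ℂ => p.1 * β₁ p + p.2 * β₂ p) =
    ((fun p : ℂ × ℂ => p.1) * β₁ + (fun p : ℂ × ℂ => p.2) * β₂) from rfl, e3.fderiv]
  simp
  ring

/-- **Forms with a given Taylor polynomial.** -/
theorem exists_form_jet {σ : ℂ × ℂ → EN M} (hσ : AnalyticAt ℂ σ 0)
    (hli : LinearIndependent ℂ ![σ 0, fderiv ℂ σ 0 (1, 0), fderiv ℂ σ 0 (0, 1)]) :
    ∃ ℓ : MvPolynomial (Fin (M + 1)) ℂ, ℓ.IsHomogeneous 1 ∧ eval (σ 0).ofLp ℓ ≠ 0 ∧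
      ∀ (N : ℕ) (f : ℂ × ℂ → ℂ), AnalyticAt ℂ f 0 → ∃ Z : MvPolynomial (Fin (M + 1)) ℂ, Z.IsHomogeneous N ∧
        (fun p => eval (σ p).ofLp Z - f p * eval (σ p).ofLp ℓ ^ N) =O[𝓝 0] fun p : ℂ × ℂ => ‖p‖ ^ N := by
  obtain ⟨L, hL⟩ := tj_dual hli
  have hLan : ∀ i, AnalyticAt ℂ (fun p => L i (σ p)) 0 := by
    intro i
    have h1 : AnalyticAt ℂ (LinearMap.toContinuousLinearMap (L i)) (σ 0) := ContinuousLinearMap.analyticAt _ _
    exact AnalyticAt.fun_comp (g := LinearMap.toContinuousLinearMap (L i)) (f := σ) h1 hσ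
  have hL00 : L 0 (σ 0) = 1 := by simpa using hL 0 0
  have hL10 : L 1 (σ 0) = 0 := by simpa using hL 1 0
  have hL20 : L 2 (σ 0) = 0 := by simpa using hL 2 0
  have hder : ∀ i (w : ℂ × ℂ), fderiv ℂ (fun p => L i (σ p)) 0 w = L i (fderiv ℂ σ 0 w) := by
    intro i w
    have h1 : HasFDerivAt (fun p => (LinearMap.toContinuousLinearMap (L i)) (σ p))
        ((LinearMap.toContinuousLinearMap (L i)).comp (fderiv ℂ σ 0)) 0 :=
      (LinearMap.toContinuousLinearMap (L i)).hasFDerivAt.comp 0 hσ.differentiableAt.hasFDerivAt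
    have h2 := h1.fderiv
    have h3 : (fun p => (LinearMap.toContinuousLinearMap (L i)) (σ p)) = fun p => L i (σ p) := rfl
    rw [h3] at h2
    rw [h2]
    rfl
  obtain ⟨β11, β12, a11, a12, e1⟩ := tj_hadamard (hLan 1)
  obtain ⟨β21, β22, a21, a22, e2⟩ := tj_hadamard (hLan 2)
  rw [hL10] at e1
  rw [hL20] at e2
  have e1' : (fun p => L 1 (σ p)) =ᶠ[𝓝 0] fun p : ℂ × ℂ => p.1 * β11 p + p.2 * β12 p := by
    filter_upwards [e1] with p hp
    rw [hp, zero_add]
  have e2' : (fun p => L 2 (σ p)) =ᶠ[𝓝 0] fun p : ℂ × ℂ => p.1 * β21 p + p.2 * β22 p := by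
    filter_upwards [e2] with p hp
    rw [hp, zero_add]
  have d1 : ∀ w : ℂ × ℂ, w.1 * β11 0 + w.2 * β12 0 = L 1 (fderiv ℂ σ 0 w) := by
    intro w
    rw [← hder, e1'.fderiv_eq, tj_fderiv a11 a12]
  have d2 : ∀ w : ℂ × ℂ, w.1 * β21 0 + w.2 * β22 0 = L 2 (fderiv ℂ σ 0 w) := by
    intro w
    rw [← hder, e2'.fderiv_eq, tj_fderiv a21 a22]
  have b11 : β11 0 = 1 := by
    have h := d1 (1, 0)
    have h' : L 1 (fderiv ℂ σ 0 (1, 0)) = 1 := by simpa using hL 1 1
    rw [h'] at h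
    simpa using h
  have b12 : β12 0 = 0 := by
    have h := d1 (0, 1)
    have h' : L 1 (fderiv ℂ σ 0 (0, 1)) = 0 := by simpa using hL 1 2
    rw [h'] at h
    simpa using h
  have b21 : β21 0 = 0 := by
    have h := d2 (1, 0)
    have h' : L 2 (fderiv ℂ σ 0 (1, 0)) = 0 := by simpa using hL 2 1
    rw [h'] at h
    simpa using h
  have b22 : β22 0 = 1 := by
    have h := d2 (0, 1)
    have h' : L 2 (fderiv ℂ σ 0 (0, 1)) = 1 := by simpa using hL 2 2
    rw [h'] at h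
    simpa using h
  set Dt : ℂ × ℂ → ℂ := fun p => β11 p * β22 p - β12 p * β21 p with hDt
  have Dan : AnalyticAt ℂ Dt 0 := (a11.mul a22).sub (a12.mul a21)
  have D0 : Dt 0 ≠ 0 := by
    rw [hDt]
    simp [b11, b12, b21, b22]
  have Dne : ∀ᶠ p in 𝓝 (0 : ℂ × ℂ), Dt p ≠ 0 := Dan.continuousAt.eventually_ne D0
  refine ⟨lpoly (L 0), lpoly_hom _, ?_, ?_⟩
  · rw [eval_lpoly, hL00]
    exact one_ne_zero
  have hO : ∀ i, L i (σ 0) = 0 → (fun p => L i (σ p)) =O[𝓝 0] fun p : ℂ × ℂ => ‖p‖ := by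
    intro i hi
    have h1 := (hLan i).differentiableAt.isBigO_sub
    rw [hi] at h1
    simp only [sub_zero] at h1
    exact h1.norm_right
  intro N
  induction N with
  | zero =>
    intro f hf
    refine ⟨0, isHomogeneous_zero _ _ _, ?_⟩
    simp only [map_zero, pow_zero, mul_one, zero_sub]
    refine IsBigO.neg_left ?_
    exact hf.continuousAt.norm.isBoundedUnder_le.isBigO_one ℝ
  | succ N ih =>
    intro f hf
    obtain ⟨f₁, f₂, hf₁, hf₂, ef⟩ := tj_hadamard hf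
    have g1an : AnalyticAt ℂ (fun p => L 0 (σ p) * ((β22 p * f₁ p - β21 p * f₂ p) / Dt p)) 0 :=
      (hLan 0).mul (((a22.mul hf₁).sub (a21.mul hf₂)).div Dan D0)
    have g2an : AnalyticAt ℂ (fun p => L 0 (σ p) * ((β11 p * f₂ p - β12 p * f₁ p) / Dt p)) 0 :=
      (hLan 0).mul (((a11.mul hf₂).sub (a12.mul hf₁)).div Dan D0)
    obtain ⟨Z₁, hZ₁, hO₁⟩ := ih _ g1an
    obtain ⟨Z₂, hZ₂, hO₂⟩ := ih _ g2an
    refine ⟨C (f 0) * lpoly (L 0) ^ (N + 1) + (lpoly (L 1) * Z₁ + lpoly (L 2) * Z₂), ?_, ?_⟩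
    · refine MvPolynomial.IsHomogeneous.add ?_ (MvPolynomial.IsHomogeneous.add ?_ ?_)
      · have h := (isHomogeneous_C (Fin (M + 1)) (f 0)).mul ((lpoly_hom (L 0)).pow (N + 1))
        rwa [zero_add, one_mul] at h
      · rw [add_comm N 1]
        exact (lpoly_hom (L 1)).mul hZ₁
      · rw [add_comm N 1]
        exact (lpoly_hom (L 2)).mul hZ₂
    · have hO₃ := (hO 1 hL10).mul hO₁
      have hO₄ := (hO 2 hL20).mul hO₂
      have hO₅ := hO₃.add hO₄
      refine IsBigO.congr' hO₅ ?_ ?_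
      · filter_upwards [e1, e2, ef, Dne] with p h1 h2 h3 h4
        simp only [eval_lpoly, map_add, map_mul, map_pow, eval_C]
        rw [h3]
        have h5 : p.1 * f₁ p + p.2 * f₂ p =
            L 1 (σ p) * ((β22 p * f₁ p - β21 p * f₂ p) / Dt p) +
              L 2 (σ p) * ((β11 p * f₂ p - β12 p * f₁ p) / Dt p) := by
          rw [h1, h2]
          field_simp
          rw [hDt]
          ring
        have h6 : f 0 + p.1 * f₁ p + p.2 * f₂ p = f 0 + (L 1 (σ p) * ((β22 p * f₁ p - β21 p * f₂ p) / Dt p) +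
              L 2 (σ p) * ((β11 p * f₂ p - β12 p * f₁ p) / Dt p)) := by
          rw [add_assoc, h5]
        rw [h6]
        ring
      · filter_upwards with p
        rw [pow_succ]
        ring

/-- **The derivative of a small germ.** -/
theorem fderiv_isBigO {f : ℂ × ℂ → ℂ} (hf : AnalyticAt ℂ f 0) {m : ℕ}
    (h : f =O[𝓝 0] fun p : ℂ × ℂ => ‖p‖ ^ (m + 1)) :
    (fun p => fderiv ℂ f p) =O[𝓝 0] fun p : ℂ × ℂ => ‖p‖ ^ m := by
  obtain ⟨C, hC0, hC⟩ := h.exists_pos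
  rw [isBigOWith_iff] at hC
  obtain ⟨ε, hε, hball⟩ := Metric.eventually_nhds_iff_ball.1 (hC.and hf.eventually_analyticAt)
  refine IsBigO.of_bound (C * 2 ^ (m + 1)) ?_
  filter_upwards [Metric.ball_mem_nhds (0 : ℂ × ℂ) (half_pos hε)] with p hp
  rw [Metric.mem_ball, dist_zero_right] at hp
  rw [Real.norm_of_nonneg (by positivity : (0 : ℝ) ≤ ‖p‖ ^ m)]
  by_cases hp0 : p = 0
  · subst hp0
    have hd : fderiv ℂ f 0 = 0 ∨ m = 0 := by
      by_cases hm : m = 0
      · exact Or.inr hm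
      · left
        have h1 : f =o[𝓝 0] fun p : ℂ × ℂ => p := by
          refine h.trans_isLittleO ?_
          have h2 : (fun p : ℂ × ℂ => ‖p‖ ^ (m + 1)) =o[𝓝 0] fun p : ℂ × ℂ => ‖p‖ ^ 1 := by
            have h3 := (isLittleO_pow_pow (𝕜 := ℝ) (m := 1) (n := m + 1) (by omega)).comp_tendsto
              (tendsto_norm_zero (E := ℂ × ℂ))
            exact h3
          simp only [pow_one] at h2
          exact h2.of_norm_right
        have h4 : f 0 = 0 := by
          have h5 := (hball 0 (Metric.mem_ball_self hε)).1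
          rw [norm_zero, zero_pow (by omega), norm_zero, mul_zero] at h5
          exact norm_le_zero_iff.1 h5
        have h6 : HasFDerivAt f (0 : ℂ × ℂ →L[ℂ] ℂ) 0 := by
          rw [hasFDerivAt_iff_isLittleO_nhds_zero]
          simpa [h4] using h1
        exact h6.fderiv
    rcases hd with hd | hm
    · rw [hd, norm_zero]
      positivity
    · subst hm
      rw [pow_zero, mul_one, zero_add, pow_one]
      have h7 : ∀ w : ℂ × ℂ, ‖fderiv ℂ f 0 w‖ ≤ C * 2 * ‖w‖ := by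
        intro w
        have h4 : f 0 = 0 := by
          have h5 := (hball 0 (Metric.mem_ball_self hε)).1
          rw [norm_zero, zero_add, pow_one, norm_zero, mul_zero] at h5
          exact norm_le_zero_iff.1 h5
        have h8 : ‖fderiv ℂ f 0‖ ≤ C := by
          refine HasFDerivAt.le_of_lip' hf.differentiableAt.hasFDerivAt hC0.le ?_
          filter_upwards [Metric.ball_mem_nhds (0 : ℂ × ℂ) hε] with q hq
          have h9 := (hball q hq).1
          rw [h4, sub_zero, sub_zero]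
          simpa using h9
        calc ‖fderiv ℂ f 0 w‖ ≤ ‖fderiv ℂ f 0‖ * ‖w‖ := (fderiv ℂ f 0).le_opNorm w
          _ ≤ C * 2 * ‖w‖ := by
            refine mul_le_mul_of_nonneg_right ?_ (norm_nonneg w)
            linarith
      exact ContinuousLinearMap.opNorm_le_bound _ (by positivity) h7
  · have hpp : 0 < ‖p‖ := norm_pos_iff.2 hp0
    have hbd : ∀ q ∈ Metric.closedBall p ‖p‖, ‖f q‖ ≤ C * 2 ^ (m + 1) * ‖p‖ ^ (m + 1) := by
      intro q hq
      rw [Metric.mem_closedBall, dist_eq_norm] at hq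
      have hq2 : ‖q‖ ≤ 2 * ‖p‖ := by
        calc ‖q‖ = ‖p + (q - p)‖ := by rw [add_sub_cancel]
          _ ≤ ‖p‖ + ‖q - p‖ := norm_add_le _ _
          _ ≤ 2 * ‖p‖ := by linarith
      have hqb : q ∈ Metric.ball (0 : ℂ × ℂ) ε := by
        rw [Metric.mem_ball, dist_zero_right]
        linarith
      have h1 := (hball q hqb).1
      rw [Real.norm_of_nonneg (by positivity : (0 : ℝ) ≤ ‖q‖ ^ (m + 1))] at h1
      calc ‖f q‖ ≤ C * ‖q‖ ^ (m + 1) := h1
        _ ≤ C * (2 * ‖p‖) ^ (m + 1) := by gcongr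
        _ = C * 2 ^ (m + 1) * ‖p‖ ^ (m + 1) := by rw [mul_pow]; ring
    have hw : ∀ w : ℂ × ℂ, ‖fderiv ℂ f p w‖ ≤ C * 2 ^ (m + 1) * ‖p‖ ^ m * ‖w‖ := by
      intro w
      by_cases hw0 : w = 0
      · subst hw0
        simp
      have hwp : 0 < ‖w‖ := norm_pos_iff.2 hw0
      have hR : 0 < ‖p‖ / ‖w‖ := by positivity
      have hin : ∀ t ∈ Metric.closedBall (0 : ℂ) (‖p‖ / ‖w‖), p + t • w ∈ Metric.closedBall p ‖p‖ := by
        intro t ht
        rw [Metric.mem_closedBall, dist_zero_right] at ht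
        rw [Metric.mem_closedBall, dist_eq_norm, add_sub_cancel_left, norm_smul]
        calc ‖t‖ * ‖w‖ ≤ ‖p‖ / ‖w‖ * ‖w‖ := by gcongr
          _ = ‖p‖ := by field_simp
      have hinb : ∀ t ∈ Metric.closedBall (0 : ℂ) (‖p‖ / ‖w‖), p + t • w ∈ Metric.ball (0 : ℂ × ℂ) ε := by
        intro t ht
        have h1 := hin t ht
        rw [Metric.mem_closedBall, dist_eq_norm] at h1
        rw [Metric.mem_ball, dist_zero_right]
        calc ‖p + t • w‖ = ‖p + (p + t • w - p)‖ := by rw [add_sub_cancel]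
          _ ≤ ‖p‖ + ‖p + t • w - p‖ := norm_add_le _ _
          _ < ε := by linarith
      have hg : ∀ t ∈ Metric.closedBall (0 : ℂ) (‖p‖ / ‖w‖),
          HasDerivAt (fun t : ℂ => f (p + t • w)) (fderiv ℂ f (p + t • w) w) t := by
        intro t ht
        have h1 := (hball _ (hinb t ht)).2.differentiableAt.hasFDerivAt
        have h2 : HasDerivAt (fun t : ℂ => p + t • w) w t := by
          have h3 := ((hasDerivAt_id t).smul_const w).const_add p
          simpa using h3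
        exact h1.comp_hasDerivAt t h2
      have hdc : DiffContOnCl ℂ (fun t : ℂ => f (p + t • w)) (Metric.ball 0 (‖p‖ / ‖w‖)) := by
        refine DifferentiableOn.diffContOnCl fun t ht => ?_
        rw [closure_ball _ hR.ne'] at ht
        exact (hg t ht).differentiableAt.differentiableWithinAt
      have h4 := Complex.norm_deriv_le_of_forall_mem_sphere_norm_le hR hdc
        (C := C * 2 ^ (m + 1) * ‖p‖ ^ (m + 1)) fun t ht => hbd _ (hin t (Metric.sphere_subset_closedBall ht))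
      have h5 := (hg 0 (Metric.mem_closedBall_self hR.le)).deriv
      rw [zero_smul, add_zero] at h5
      rw [h5] at h4
      refine h4.trans (le_of_eq ?_)
      rw [pow_succ ‖p‖ m]
      field_simp
    exact ContinuousLinearMap.opNorm_le_bound _ (by positivity) hw

end Pool.Agent.MQ
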