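import Pool.Agent.MQ.TJet

/-!
# MQ TLoc: pointwise estimates at a formal saddle-node

`v = x ^ (k + 1) a ∂/∂x + b ∂/∂y`, `Y = y - jet c n x` the `n`-th approximation of the equation of the formal weak separatrix, `φ = Y + O (‖p‖ ^ (n + 1))`.
Where `‖x‖ ^ n ≤ ‖Y‖` the logarithmic derivative `v φ / φ` is bounded below.  Elsewhere `‖p‖ ≤ C ‖x‖` and a function `q` with contact of order `n` is
at most `C ‖x‖ ^ n`.
-/

set_option autoImplicit false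

open Topology Filter Asymptotics

noncomputable section

namespace Pool.Agent.MQ

theorem tl_jet_zero {c : ℕ → ℂ} (hc : c 0 = 0) (n : ℕ) : jet c n 0 = 0 := by
  rw [jet, Finset.sum_range_succ']
  simp [hc]

theorem tl_analyticAt_jet (c : ℕ → ℂ) (n : ℕ) (t : ℂ) : AnalyticAt ℂ (jet c n) t := by
  unfold jet
  refine Finset.analyticAt_fun_sum _ fun i _ => ?_
  exact analyticAt_const.mul (analyticAt_id.pow i)

/-- the approximate equation of the formal separatrix -/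
def YY (c : ℕ → ℂ) (n : ℕ) (p : ℂ × ℂ) : ℂ := p.2 - jet c n p.1

theorem analyticAt_YY (c : ℕ → ℂ) (n : ℕ) (p : ℂ × ℂ) : AnalyticAt ℂ (YY c n) p := by
  unfold YY
  refine analyticAt_snd.sub ?_
  exact AnalyticAt.fun_comp (g := jet c n) (f := fun p : ℂ × ℂ => p.1) (tl_analyticAt_jet c n _) analyticAt_fst

theorem fderiv_YY (c : ℕ → ℂ) (n : ℕ) (p w : ℂ × ℂ) : fderiv ℂ (YY c n) p w = w.2 - deriv (jet c n) p.1 * w.1 := by
  have h1 : HasFDerivAt (fun p : ℂ × ℂ => p.2) (ContinuousLinearMap.snd ℂ ℂ ℂ) p := hasFDerivAt_snd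
  have h2 : HasFDerivAt (fun p : ℂ × ℂ => p.1) (ContinuousLinearMap.fst ℂ ℂ ℂ) p := hasFDerivAt_fst
  have h3 : HasDerivAt (jet c n) (deriv (jet c n) p.1) p.1 := (tl_analyticAt_jet c n p.1).differentiableAt.hasDerivAt
  have h4 := h1.sub (h3.comp_hasFDerivAt p h2)
  have h5 : YY c n = (fun p : ℂ × ℂ => p.2) - (jet c n ∘ fun p : ℂ × ℂ => p.1) := rfl
  rw [h5, h4.fderiv]
  simp

/-- **The two regions at a formal saddle-node.** -/
theorem sn_regions {k : ℕ} {a b φ q : ℂ × ℂ → ℂ} (ha : AnalyticAt ℂ a 0) (hb : AnalyticAt ℂ b 0)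
    (hb0 : fderiv ℂ b 0 (0, 1) ≠ 0) {c : ℕ → ℂ} (hc : c 0 = 0) {n : ℕ} (hn : 1 ≤ n)
    (hJ : (fun t => b (t, jet c n t) - deriv (jet c n) t * (t ^ (k + 1) * a (t, jet c n t))) =O[𝓝 0] fun t : ℂ => t ^ (n + 1))
    (hφ : AnalyticAt ℂ φ 0) (hφY : (fun p => φ p - YY c n p) =O[𝓝 0] fun p : ℂ × ℂ => ‖p‖ ^ (n + 1))
    (hq : AnalyticAt ℂ q 0) (hqc : (fun t => q (t, jet c n t)) =O[𝓝 0] fun t : ℂ => t ^ n) :
    ∃ C : ℝ, 0 < C ∧ ∀ᶠ p in 𝓝 (0 : ℂ × ℂ), p ≠ 0 →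
      (φ p ≠ 0 ∧ ‖φ p‖ ≤ C * ‖fderiv ℂ φ p (p.1 ^ (k + 1) * a p, b p)‖) ∨
      (p.1 ≠ 0 ∧ ‖p‖ ≤ C * ‖p.1‖ ∧ ‖q p‖ ≤ C * ‖p.1‖ ^ n) := by
  set lam : ℂ := fderiv ℂ b 0 (0, 1) with hlam
  have hlp : 0 < ‖lam‖ := norm_pos_iff.2 hb0
  have hfst : Tendsto (fun p : ℂ × ℂ => p.1) (𝓝 0) (𝓝 0) := continuous_fst.tendsto' _ _ rfl
  have hjt : Tendsto (fun t : ℂ => jet c n t) (𝓝 0) (𝓝 0) := by
    have h := (tl_analyticAt_jet c n 0).continuousAt.tendsto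
    rwa [tl_jet_zero hc] at h
  have hpt : Tendsto (fun p : ℂ × ℂ => (p.1, jet c n p.1)) (𝓝 0) (𝓝 0) := by
    have h := hfst.prodMk_nhds (hjt.comp hfst)
    exact h
  -- the value of `b` at `0`
  have hb00 : b 0 = 0 := by
    have h1 : Tendsto (fun t : ℂ => b (t, jet c n t) - deriv (jet c n) t * (t ^ (k + 1) * a (t, jet c n t))) (𝓝 0) (𝓝 0) := by
      refine hJ.trans_tendsto ?_
      have h2 : Tendsto (fun t : ℂ => t ^ (n + 1)) (𝓝 0) (𝓝 ((0 : ℂ) ^ (n + 1))) := (continuous_pow (n + 1)).tendsto 0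
      rwa [zero_pow (by omega)] at h2
    have hpt1 : Tendsto (fun t : ℂ => ((t, jet c n t) : ℂ × ℂ)) (𝓝 0) (𝓝 0) := tendsto_id.prodMk_nhds hjt
    have h3 : Tendsto (fun t : ℂ => b (t, jet c n t)) (𝓝 0) (𝓝 (b 0)) := hb.continuousAt.tendsto.comp hpt1
    have h4 : Tendsto (fun t : ℂ => a (t, jet c n t)) (𝓝 0) (𝓝 (a 0)) := ha.continuousAt.tendsto.comp hpt1
    have h5 : Tendsto (fun t : ℂ => t ^ (k + 1)) (𝓝 0) (𝓝 0) := by
      have h2 : Tendsto (fun t : ℂ => t ^ (k + 1)) (𝓝 0) (𝓝 ((0 : ℂ) ^ (k + 1))) := (continuous_pow (k + 1)).tendsto 0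
      rwa [zero_pow (by omega)] at h2
    have h6 : Tendsto (fun t : ℂ => deriv (jet c n) t) (𝓝 0) (𝓝 (deriv (jet c n) 0)) := (tl_analyticAt_jet c n 0).deriv.continuousAt.tendsto
    have h7 := h3.sub (h6.mul (h5.mul h4))
    rw [zero_mul, mul_zero, sub_zero] at h7
    exact tendsto_nhds_unique h7 h1
  -- the function `G = v Y`
  set G : ℂ × ℂ → ℂ := fun p => b p - deriv (jet c n) p.1 * (p.1 ^ (k + 1) * a p) with hG
  have hjd : AnalyticAt ℂ (fun p : ℂ × ℂ => deriv (jet c n) p.1) 0 :=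
    AnalyticAt.fun_comp (g := deriv (jet c n)) (f := fun p : ℂ × ℂ => p.1) (tl_analyticAt_jet c n _).deriv analyticAt_fst
  have hGan : AnalyticAt ℂ G 0 := hb.sub (hjd.mul ((analyticAt_fst.pow (k + 1)).mul ha))
  have hGd : fderiv ℂ G 0 (0, 1) = lam := by
    have h1 : HasFDerivAt (fun p : ℂ × ℂ => p.1) (ContinuousLinearMap.fst ℂ ℂ ℂ) 0 := hasFDerivAt_fst
    have hW : AnalyticAt ℂ (fun p : ℂ × ℂ => p.1 ^ k * a p) 0 := (analyticAt_fst.pow k).mul ha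
    have h2 := h1.mul hW.differentiableAt.hasFDerivAt
    have h3 := hb.differentiableAt.hasFDerivAt.sub (hjd.differentiableAt.hasFDerivAt.mul h2)
    have h4 : G = b - (fun p : ℂ × ℂ => deriv (jet c n) p.1) * ((fun p : ℂ × ℂ => p.1) * fun p : ℂ × ℂ => p.1 ^ k * a p) := by
      funext p
      simp only [hG, Pi.sub_apply, Pi.mul_apply]
      ring
    rw [h4, h3.fderiv]
    simp [hlam]
  -- strict differentiability
  have hstr := hGan.hasStrictFDerivAt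
  have hS : ∀ᶠ p in 𝓝 (0 : ℂ × ℂ), ‖G p - G (p.1, jet c n p.1) - YY c n p * lam‖ ≤ ‖lam‖ / 4 * ‖YY c n p‖ := by
    have h1 := (hstr.isLittleO.comp_tendsto (tendsto_id.prodMk_nhds hpt)).bound (by positivity : 0 < ‖lam‖ / 4)
    filter_upwards [h1] with p hp
    have e1 : (p : ℂ × ℂ) - (p.1, jet c n p.1) = (0, YY c n p) := by
      ext <;> simp [YY]
    have e2 : fderiv ℂ G 0 ((p : ℂ × ℂ) - (p.1, jet c n p.1)) = YY c n p * lam := by
      rw [e1, ← hGd]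
      have e3 : ((0, YY c n p) : ℂ × ℂ) = YY c n p • ((0, 1) : ℂ × ℂ) := by
        simp
      rw [e3, map_smul, smul_eq_mul]
    have e4 : ‖(p : ℂ × ℂ) - (p.1, jet c n p.1)‖ = ‖YY c n p‖ := by
      rw [e1, Prod.norm_def]
      simp
    simp only [Function.comp_apply, id_eq] at hp
    rw [e2, e4] at hp
    exact hp
  obtain ⟨CG, hCG0, hCG⟩ := hJ.exists_pos
  rw [isBigOWith_iff] at hCG
  have hCG' := hfst.eventually hCG
  -- the jet
  have hjO : (fun t : ℂ => jet c n t) =O[𝓝 0] fun t : ℂ => t := by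
    have h1 := (tl_analyticAt_jet c n 0).differentiableAt.isBigO_sub
    rw [tl_jet_zero hc] at h1
    simpa using h1
  obtain ⟨C1, hC10, hC1⟩ := hjO.exists_pos
  rw [isBigOWith_iff] at hC1
  have hC1' := hfst.eventually hC1
  -- the error
  have hEan : AnalyticAt ℂ (fun p => φ p - YY c n p) 0 := hφ.sub (analyticAt_YY c n 0)
  obtain ⟨CE, hCE0, hCE⟩ := hφY.exists_pos
  rw [isBigOWith_iff] at hCE
  obtain ⟨CD, hCD0, hCD⟩ := (fderiv_isBigO hEan hφY).exists_pos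
  rw [isBigOWith_iff] at hCD
  -- the vector field
  have hv : (fun p : ℂ × ℂ => ((p.1 ^ (k + 1) * a p, b p) : ℂ × ℂ)) =O[𝓝 0] fun p : ℂ × ℂ => p := by
    have h1 : AnalyticAt ℂ (fun p : ℂ × ℂ => ((p.1 ^ (k + 1) * a p, b p) : ℂ × ℂ)) 0 := ((analyticAt_fst.pow (k + 1)).mul ha).prod hb
    have h2 := h1.differentiableAt.isBigO_sub
    have h3 : (((0 : ℂ × ℂ).1 ^ (k + 1) * a 0, b 0) : ℂ × ℂ) = 0 := by
      rw [hb00]
      simp
    rw [h3] at h2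
    simpa using h2
  obtain ⟨CV, hCV0, hCV⟩ := hv.exists_pos
  rw [isBigOWith_iff] at hCV
  -- the function `q`
  obtain ⟨Kq, s, hs, hLip⟩ := hq.hasStrictFDerivAt.exists_lipschitzOnWith
  obtain ⟨Cq, hCq0, hCq⟩ := hqc.exists_pos
  rw [isBigOWith_iff] at hCq
  have hCq' := hfst.eventually hCq
  -- the constants
  set C2 : ℝ := 1 + C1 with hC2
  set C3 : ℝ := 2 * (2 * C2) ^ n with hC3
  have hC20 : 0 < C2 := by positivity
  have hC30 : 0 < C3 := by positivity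
  -- smallness
  obtain ⟨ε, hε0, hε1, hεE, hεD, hεG⟩ : ∃ ε : ℝ, 0 < ε ∧ ε ≤ 1 / (2 * C2 + 2) ∧ CE * C3 * ε ≤ 1 / 2 ∧ CD * CV * C3 * ε ≤ ‖lam‖ / 8 ∧
      CG * ε ≤ ‖lam‖ / 8 := by
    have h1 : ∀ A B : ℝ, 0 < A → 0 < B → ∀ᶠ ε in 𝓝[>] (0 : ℝ), A * ε ≤ B := by
      intro A B hA hB
      have h2 : Tendsto (fun ε : ℝ => A * ε) (𝓝[>] 0) (𝓝 (A * 0)) := (continuous_const.mul continuous_id).continuousAt.tendsto.mono_left nhdsWithin_le_nhds
      rw [mul_zero] at h2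
      exact (h2.eventually (gt_mem_nhds hB)).mono fun x hx => le_of_lt hx
    have h3 : ∀ᶠ ε in 𝓝[>] (0 : ℝ), ε ≤ 1 / (2 * C2 + 2) := by
      have := h1 1 (1 / (2 * C2 + 2)) one_pos (by positivity)
      simpa using this
    obtain ⟨ε, h4⟩ := (h3.and ((h1 (CE * C3) (1 / 2) (by positivity) (by positivity)).and
      ((h1 (CD * CV * C3) (‖lam‖ / 8) (by positivity) (by positivity)).and
        ((h1 CG (‖lam‖ / 8) hCG0 (by positivity)).and self_mem_nhdsWithin)))).exists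
    exact ⟨ε, h4.2.2.2.2, h4.1, h4.2.1, h4.2.2.1, h4.2.2.2.1⟩
  have hb1 : ∀ᶠ p in 𝓝 (0 : ℂ × ℂ), ‖p‖ < ε := by
    filter_upwards [Metric.ball_mem_nhds (0 : ℂ × ℂ) hε0] with p hp
    rwa [Metric.mem_ball, dist_zero_right] at hp
  have hs1 : ∀ᶠ p in 𝓝 (0 : ℂ × ℂ), p ∈ s := hs
  have hs2 : ∀ᶠ p in 𝓝 (0 : ℂ × ℂ), ((p.1, jet c n p.1) : ℂ × ℂ) ∈ s := hpt.eventually hs
  refine ⟨max (4 / ‖lam‖) (max C2 (Cq + Kq)), lt_max_of_lt_left (by positivity), ?_⟩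
  filter_upwards [hS, hCG', hC1', hCE, hCD, hCV, hCq', hb1, hs1, hs2, hEan.eventually_analyticAt] with p gS gG g1 gE gD gV gq gb gs1 gs2 gEa hp0
  have hx1 : ‖p.1‖ ≤ ‖p‖ := norm_fst_le p
  have hε2 : ε ≤ 1 / 2 := hε1.trans (by
    rw [div_le_div_iff₀ (by positivity) (by norm_num)]
    nlinarith)
  have hpY : ‖p‖ ≤ C2 * (‖p.1‖ + ‖YY c n p‖) := by
    have h1 : ‖p.2‖ ≤ ‖YY c n p‖ + C1 * ‖p.1‖ := by
      have h2 : p.2 = YY c n p + jet c n p.1 := by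
        rw [YY]
        ring
      calc ‖p.2‖ = ‖YY c n p + jet c n p.1‖ := by rw [← h2]
        _ ≤ ‖YY c n p‖ + ‖jet c n p.1‖ := norm_add_le _ _
        _ ≤ ‖YY c n p‖ + C1 * ‖p.1‖ := by linarith
    rw [Prod.norm_def]
    have h3 := norm_nonneg p.1
    have h4 := norm_nonneg (YY c n p)
    refine max_le ?_ ?_
    · rw [hC2]
      nlinarith
    · rw [hC2]
      nlinarith
  by_cases hreg : ‖p.1‖ ^ n ≤ ‖YY c n p‖
  · -- the first region
    left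
    have hY0 : YY c n p ≠ 0 := by
      intro h
      rw [h, norm_zero] at hreg
      have h1 : ‖p.1‖ ^ n = 0 := le_antisymm hreg (by positivity)
      have h2 : p.1 = 0 := norm_eq_zero.1 (pow_eq_zero_iff (by omega) |>.1 h1)
      refine hp0 (Prod.ext h2 ?_)
      have h3 : p.2 = YY c n p + jet c n p.1 := by
        rw [YY]
        ring
      rw [h3, h, h2, tl_jet_zero hc, add_zero]
      rfl
    have hYp : 0 < ‖YY c n p‖ := norm_pos_iff.2 hY0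
    have hY1 : ‖YY c n p‖ ≤ 1 := by
      have h1 : ‖YY c n p‖ ≤ ‖p.2‖ + ‖jet c n p.1‖ := by
        rw [YY]
        exact norm_sub_le _ _
      have h2 : ‖p.2‖ ≤ ‖p‖ := norm_snd_le p
      have h3 : ‖YY c n p‖ ≤ C2 * ‖p‖ := by
        rw [hC2]
        nlinarith
      have h4 : C2 * ε ≤ 1 := by
        have h5 : C2 * ε ≤ C2 * (1 / (2 * C2 + 2)) := by gcongr
        refine h5.trans ?_
        rw [mul_one_div, div_le_one (by positivity)]
        linarith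
      calc ‖YY c n p‖ ≤ C2 * ‖p‖ := h3
        _ ≤ C2 * ε := by gcongr
        _ ≤ 1 := h4
    have hpow : ‖p‖ ^ (n + 1) ≤ C3 * ‖p‖ * ‖YY c n p‖ := by
      have h1 : ‖p‖ ^ n ≤ C3 * ‖YY c n p‖ := by
        have h2 : ‖p.1‖ + ‖YY c n p‖ ≤ 2 * max ‖p.1‖ ‖YY c n p‖ := by
          have := le_max_left ‖p.1‖ ‖YY c n p‖
          have := le_max_right ‖p.1‖ ‖YY c n p‖
          linarith
        have h3 : ‖p‖ ≤ 2 * C2 * max ‖p.1‖ ‖YY c n p‖ := by
          calc ‖p‖ ≤ C2 * (‖p.1‖ + ‖YY c n p‖) := hpY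
            _ ≤ C2 * (2 * max ‖p.1‖ ‖YY c n p‖) := by gcongr
            _ = 2 * C2 * max ‖p.1‖ ‖YY c n p‖ := by ring
        have h4 : (max ‖p.1‖ ‖YY c n p‖) ^ n ≤ 2 * ‖YY c n p‖ := by
          rcases max_cases ‖p.1‖ ‖YY c n p‖ with ⟨h5, -⟩ | ⟨h5, -⟩
          · rw [h5]
            linarith
          · rw [h5]
            have h6 : ‖YY c n p‖ ^ n ≤ ‖YY c n p‖ ^ 1 := pow_le_pow_of_le_one hYp.le hY1 hn
            rw [pow_one] at h6
            linarith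
        calc ‖p‖ ^ n ≤ (2 * C2 * max ‖p.1‖ ‖YY c n p‖) ^ n := by gcongr
          _ = (2 * C2) ^ n * (max ‖p.1‖ ‖YY c n p‖) ^ n := mul_pow _ _ _
          _ ≤ (2 * C2) ^ n * (2 * ‖YY c n p‖) := by gcongr
          _ = C3 * ‖YY c n p‖ := by
            rw [hC3]
            ring
      calc ‖p‖ ^ (n + 1) = ‖p‖ * ‖p‖ ^ n := by rw [pow_succ, mul_comm]
        _ ≤ ‖p‖ * (C3 * ‖YY c n p‖) := by gcongr
        _ = C3 * ‖p‖ * ‖YY c n p‖ := by ring
    have hE : ‖φ p - YY c n p‖ ≤ 1 / 2 * ‖YY c n p‖ := by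
      rw [Real.norm_of_nonneg (by positivity : (0 : ℝ) ≤ ‖p‖ ^ (n + 1))] at gE
      calc ‖φ p - YY c n p‖ ≤ CE * ‖p‖ ^ (n + 1) := gE
        _ ≤ CE * (C3 * ‖p‖ * ‖YY c n p‖) := by gcongr
        _ = CE * C3 * ‖p‖ * ‖YY c n p‖ := by ring
        _ ≤ CE * C3 * ε * ‖YY c n p‖ := by gcongr
        _ ≤ 1 / 2 * ‖YY c n p‖ := by gcongr
    have hGp : ‖G (p.1, jet c n p.1)‖ ≤ ‖lam‖ / 8 * ‖YY c n p‖ := by
      have h1 : ‖G (p.1, jet c n p.1)‖ ≤ CG * ‖p.1‖ ^ (n + 1) := by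
        rw [norm_pow] at gG
        exact gG
      calc ‖G (p.1, jet c n p.1)‖ ≤ CG * ‖p.1‖ ^ (n + 1) := h1
        _ = CG * ‖p.1‖ * ‖p.1‖ ^ n := by rw [pow_succ]; ring
        _ ≤ CG * ‖p.1‖ * ‖YY c n p‖ := by gcongr
        _ ≤ CG * ε * ‖YY c n p‖ := by
          have : ‖p.1‖ ≤ ε := hx1.trans gb.le
          gcongr
        _ ≤ ‖lam‖ / 8 * ‖YY c n p‖ := by gcongr
    have hGlow : ‖lam‖ * ‖YY c n p‖ * (5 / 8) ≤ ‖G p‖ := by
      have h1 : ‖YY c n p * lam‖ ≤ ‖G p - G (p.1, jet c n p.1) - YY c n p * lam‖ + ‖G p‖ + ‖G (p.1, jet c n p.1)‖ := by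
        have h2 : YY c n p * lam = -(G p - G (p.1, jet c n p.1) - YY c n p * lam) + G p + -G (p.1, jet c n p.1) := by ring
        calc ‖YY c n p * lam‖ = ‖-(G p - G (p.1, jet c n p.1) - YY c n p * lam) + G p + -G (p.1, jet c n p.1)‖ := by rw [← h2]
          _ ≤ ‖-(G p - G (p.1, jet c n p.1) - YY c n p * lam)‖ + ‖G p‖ + ‖-G (p.1, jet c n p.1)‖ := norm_add₃_le
          _ = _ := by rw [norm_neg, norm_neg]
      rw [norm_mul] at h1
      nlinarith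
    have hEv : ‖fderiv ℂ (fun p => φ p - YY c n p) p (p.1 ^ (k + 1) * a p, b p)‖ ≤ ‖lam‖ / 8 * ‖YY c n p‖ := by
      rw [Real.norm_of_nonneg (by positivity : (0 : ℝ) ≤ ‖p‖ ^ n)] at gD
      calc ‖fderiv ℂ (fun p => φ p - YY c n p) p (p.1 ^ (k + 1) * a p, b p)‖
          ≤ ‖fderiv ℂ (fun p => φ p - YY c n p) p‖ * ‖((p.1 ^ (k + 1) * a p, b p) : ℂ × ℂ)‖ := ContinuousLinearMap.le_opNorm _ _
        _ ≤ CD * ‖p‖ ^ n * (CV * ‖p‖) := by gcongr
        _ = CD * CV * ‖p‖ ^ (n + 1) := by rw [pow_succ]; ring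
        _ ≤ CD * CV * (C3 * ‖p‖ * ‖YY c n p‖) := by gcongr
        _ = CD * CV * C3 * ‖p‖ * ‖YY c n p‖ := by ring
        _ ≤ CD * CV * C3 * ε * ‖YY c n p‖ := by gcongr
        _ ≤ ‖lam‖ / 8 * ‖YY c n p‖ := by gcongr
    have hsum : fderiv ℂ φ p (p.1 ^ (k + 1) * a p, b p) = fderiv ℂ (fun p => φ p - YY c n p) p (p.1 ^ (k + 1) * a p, b p) + G p := by
      have h1 : φ = (fun p => φ p - YY c n p) + YY c n := by
        funext x
        simp
      have h2 := gEa.differentiableAt.hasFDerivAt.add (analyticAt_YY c n p).differentiableAt.hasFDerivAt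
      rw [← h1] at h2
      rw [h2.fderiv, add_apply, fderiv_YY]
    refine ⟨?_, ?_⟩
    · intro h0
      rw [h0, zero_sub, norm_neg] at hE
      linarith
    · have h1 : ‖φ p‖ ≤ 3 / 2 * ‖YY c n p‖ := by
        calc ‖φ p‖ = ‖(φ p - YY c n p) + YY c n p‖ := by rw [sub_add_cancel]
          _ ≤ ‖φ p - YY c n p‖ + ‖YY c n p‖ := norm_add_le _ _
          _ ≤ 3 / 2 * ‖YY c n p‖ := by linarith
      have h2 : ‖lam‖ * ‖YY c n p‖ * (1 / 2) ≤ ‖fderiv ℂ φ p (p.1 ^ (k + 1) * a p, b p)‖ := by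
        rw [hsum]
        have h3 := norm_sub_le_norm_add (G p) (fderiv ℂ (fun p => φ p - YY c n p) p (p.1 ^ (k + 1) * a p, b p))
        rw [add_comm (G p)] at h3
        nlinarith
      have h3 : ‖φ p‖ ≤ 4 / ‖lam‖ * ‖fderiv ℂ φ p (p.1 ^ (k + 1) * a p, b p)‖ := by
        have h4 : 4 / ‖lam‖ * (‖lam‖ * ‖YY c n p‖ * (1 / 2)) ≤ 4 / ‖lam‖ * ‖fderiv ℂ φ p (p.1 ^ (k + 1) * a p, b p)‖ := by gcongr
        have h5 : 4 / ‖lam‖ * (‖lam‖ * ‖YY c n p‖ * (1 / 2)) = 2 * ‖YY c n p‖ := by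
          field_simp
          ring
        linarith
      refine h3.trans ?_
      gcongr
      exact le_max_left _ _
  · -- the second region
    right
    push Not at hreg
    have hx0 : p.1 ≠ 0 := by
      intro h
      rw [h, norm_zero, zero_pow (by omega)] at hreg
      exact absurd hreg (not_lt.2 (norm_nonneg _))
    have hxle : ‖p.1‖ ≤ 1 := hx1.trans (gb.le.trans (hε2.trans (by norm_num)))
    have hxn : ‖p.1‖ ^ n ≤ ‖p.1‖ := by
      have h6 : ‖p.1‖ ^ n ≤ ‖p.1‖ ^ 1 := pow_le_pow_of_le_one (norm_nonneg _) hxle hn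
      rwa [pow_one] at h6
    refine ⟨hx0, ?_, ?_⟩
    · have h1 : ‖p.2‖ ≤ ‖YY c n p‖ + C1 * ‖p.1‖ := by
        have h2 : p.2 = YY c n p + jet c n p.1 := by
          rw [YY]
          ring
        calc ‖p.2‖ = ‖YY c n p + jet c n p.1‖ := by rw [← h2]
          _ ≤ ‖YY c n p‖ + ‖jet c n p.1‖ := norm_add_le _ _
          _ ≤ ‖YY c n p‖ + C1 * ‖p.1‖ := by linarith
      have h2 : ‖p‖ ≤ C2 * ‖p.1‖ := by
        rw [Prod.norm_def]
        have h3 := norm_nonneg p.1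
        refine max_le ?_ ?_
        · rw [hC2]
          nlinarith
        · rw [hC2]
          nlinarith
      refine h2.trans ?_
      gcongr
      exact (le_max_left _ _).trans (le_max_right _ _)
    · have h1 : ‖q p - q (p.1, jet c n p.1)‖ ≤ Kq * ‖YY c n p‖ := by
        have h2 := hLip.dist_le_mul p gs1 (p.1, jet c n p.1) gs2
        rw [dist_eq_norm, dist_eq_norm] at h2
        have e1 : (p : ℂ × ℂ) - (p.1, jet c n p.1) = (0, YY c n p) := by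
          ext <;> simp [YY]
        have e4 : ‖(p : ℂ × ℂ) - (p.1, jet c n p.1)‖ = ‖YY c n p‖ := by
          rw [e1, Prod.norm_def]
          simp
        rwa [e4] at h2
      have h3 : ‖q (p.1, jet c n p.1)‖ ≤ Cq * ‖p.1‖ ^ n := by
        rw [norm_pow] at gq
        exact gq
      have h4 : ‖q p‖ ≤ (Cq + Kq) * ‖p.1‖ ^ n := by
        calc ‖q p‖ = ‖(q p - q (p.1, jet c n p.1)) + q (p.1, jet c n p.1)‖ := by rw [sub_add_cancel]
          _ ≤ ‖q p - q (p.1, jet c n p.1)‖ + ‖q (p.1, jet c n p.1)‖ := norm_add_le _ _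
          _ ≤ Kq * ‖YY c n p‖ + Cq * ‖p.1‖ ^ n := by linarith
          _ ≤ Kq * ‖p.1‖ ^ n + Cq * ‖p.1‖ ^ n := by gcongr
          _ = (Cq + Kq) * ‖p.1‖ ^ n := by ring
      refine h4.trans ?_
      gcongr
      exact (le_max_right _ _).trans (le_max_right _ _)

end Pool.Agent.MQ
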