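import Pool.Agent.MQ.VDefs

/-!
# MQ VStub: one variable (stub)

Every theorem is one module `Pool/Agent/MQ/<Name>.lean`, with the same statement.
-/

set_option autoImplicit false

open MeasureTheory Topology Filter Metric Laplacian

noncomputable section

namespace Pool.Agent.MQ.VStub

open Pool.Agent.H30M (tau rhoR avg rho)
open Pool.Agent.H36.BP (EN fs)
open Pool.Agent.MQ

variable {N M : ℕ}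

/-! ## V1 `Fub` (helper84) -/

theorem lap_log_norm {F : ℂ → EN M} {z : ℂ} (hF : AnalyticAt ℂ F z) (h0 : F z ≠ 0) :
    ContDiffAt ℝ 2 (fun w => Real.log ‖F w‖) z ∧ Δ (fun w => Real.log ‖F w‖) z = 2 * lam F z ^ 2 := sorry

theorem continuous_lam {F : ℂ → EN M} (hF : Differentiable ℂ F) (h0 : ∀ z, F z ≠ 0) : Continuous (lam F) := sorry

/-! ## V2 `Res` (helper84): residues -/

theorem res {φ : ℂ → ℝ} (hφ : ContDiff ℝ 1 φ) (hc : HasCompactSupport φ) {V : ℂ → ℂ} {r : ℂ → ℂ} (h : ∀ a ∈ tsupport φ, SPt V (r a) a) :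
    Integrable (fun z => ip (gr φ z) (V z)) ∧ Integrable (fun z => φ z * dv V z) ∧ (Function.support fun z => (r z).re * φ z).Finite ∧
      ∫ z, ip (gr φ z) (V z) = -(2 * Real.pi * ∑ᶠ z, (r z).re * φ z) - ∫ z, φ z * dv V z := sorry

/-! ## V3 `Mean` (helper30) -/

theorem mean {w : ℂ → ℝ} (hw : LM w) {R : ℝ} (hR : 1 ≤ R) : Integrable (fun z => rhoR R z * w z) ∧ Integrable (fun z => ip (gr (tau R) z) (gr w z)) ∧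
    Fl (gr w) R = avg R w - avg 1 w := sorry

/-! ## V4 `Sel` (helper93) -/

theorem sel {l : ℂ → ℝ} (hc : Continuous l) (h0 : ∀ z, 0 ≤ l z) (hne : ∃ z, l z ≠ 0) {ε : ℝ} (hε : 0 < ε) (C R₀ : ℝ) :
    ∃ R, R₀ ≤ R ∧ 1 ≤ R ∧ (∫ z, ‖gr (tau R) z‖ * l z) + C ≤ ε * ∫ z, tau R z * l z ^ 2 := sorry

/-! ## V5 `Jen` -/

theorem jen {F : ℂ → EN N} (hF : Differentiable ℂ F) (h0 : ∀ z, F z ≠ 0) {g : ℂ → ℂ} (hg : Differentiable ℂ g) (hg0 : ∃ z, g z ≠ 0) {d : ℕ}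
    (hgF : ∀ z, ‖g z‖ ≤ ‖F z‖ ^ d) : ∃ C, ∀ R, 1 ≤ R → 2 * Real.pi * ∑ᶠ z, mult g z * tau R z ≤ 2 * d * En F R + C := sorry

/-! ## V6 `Charge` -/

theorem charge {F : ℂ → EN N} (hF : Differentiable ℂ F) (h0 : ∀ z, F z ≠ 0) {g : ℂ → ℂ} (hg : Differentiable ℂ g) {d : ℕ}
    (hgF : ∀ z, ‖g z‖ ≤ ‖F z‖ ^ d) {n : ℕ} (hn : 1 ≤ n) (b₀ : ℝ) : ∃ C, ∀ R, 1 ≤ R →
      ∫ z, tau R z * {z | g z ≠ 0 ∧ b₀ ≤ lu F g d z ∧ lu F g d z ≤ b₀ + 2 * n}.indicator (fun z => ‖gr (lu F g d) z‖ ^ 2) z ≤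
        12 * n * (d * En F R) + C := sorry

/-! ## V7 `AxisT` -/

theorem axis : ∃ c₁ : ℝ, 0 < c₁ ∧ ∀ {N : ℕ} {F : ℂ → EN N} (_ : Differentiable ℂ F) (_ : ∀ z, F z ≠ 0) {g : ℂ → ℂ} (_ : Differentiable ℂ g)
    (_ : ∃ z, g z ≠ 0) {d : ℕ} (_ : ∀ z, ‖g z‖ ≤ ‖F z‖ ^ d) {U : Set ℂ} {x y a b : ℂ → ℂ} {K κ : ℝ} (_ : 0 ≤ K) (_ : 0 ≤ κ) (_ : Axis U x y a b K κ g)
    {n : ℕ} (_ : 1 ≤ n) {r₀ η b₀ : ℝ} (_ : 0 < η) (_ : 2 * η ≤ r₀) (_ : r₀ < 1)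
    (_ : ∀ z ∈ U, ‖x z‖ ≤ η → r₀ / 2 ≤ ‖y z‖ → ‖y z‖ ≤ r₀ → g z ≠ 0 ∧ b₀ ≤ lu F g d z ∧ lu F g d z ≤ b₀ + 2 * n ∧
      (n / 2) * ‖b z‖ ≤ ‖gr (lu F g d) z‖),
    ∃ χ : ℂ → ℝ, (∀ z, 0 ≤ χ z ∧ χ z ≤ 1) ∧ (∀ z, χ z ≠ 0 → z ∈ U ∧ ‖x z‖ ≤ η ∧ ‖y z‖ ≤ r₀) ∧
      (∀ z ∈ U, ‖x z‖ ≤ η / 2 → ‖y z‖ ≤ r₀ / 2 → χ z = 1) ∧
      (∀ R, 1 ≤ R → Integrable fun z => ip (gr (tau R) z) (χ z * (starRingEnd ℂ) (a z))) ∧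
      ∃ C, ∀ R, 1 ≤ R → Fl (fun z => χ z * (starRingEnd ℂ) (a z)) R ≤ (c₁ * K * (d / n) + 2 * κ * d) * En F R + C := sorry

/-! ## V8 `MLog` -/

theorem mlog {F : ℂ → EN M} (hF : Differentiable ℂ F) (h0 : ∀ z, F z ≠ 0) {A : ℝ} (hA : ∀ R, 1 ≤ R → En F R ≤ A * R ^ 2) :
    ∃ C, ∀ R, 1 ≤ R → avg R (fun z => Real.log (1 + lam F z)) ≤ C := sorry

/-! ## V9 `Ord` (helper20) -/

theorem ord {F : ℂ → EN M} (hF : Differentiable ℂ F) (h0 : ∀ z, F z ≠ 0) {A : ℝ}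
    (hA : ∀ r : ℝ, 0 < r → Real.circleAverage (fun z => Real.log ‖F z‖) 0 r ≤ A * (1 + r ^ 2)) : ∃ B, ∀ R, 1 ≤ R → En F R ≤ B * R ^ 2 := sorry

/-- comparison of the energies of two curves -/
theorem ord_le {F : ℂ → EN N} {G : ℂ → EN M} (hF : Differentiable ℂ F) (h0 : ∀ z, F z ≠ 0) (hG : Differentiable ℂ G) (h0' : ∀ z, G z ≠ 0) {B : ℝ}
    (hB : ∀ r : ℝ, 0 < r → Real.circleAverage (fun z => Real.log ‖G z‖) 0 r ≤ B * (1 + Real.circleAverage (fun z => Real.log ‖F z‖) 0 r)) :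
    ∃ C, ∀ R, 1 ≤ R → En G R ≤ C * (En F R + 1) := sorry

/-! ## V10 `Reg2`: two variables, near an axis -/

theorem reg2 {q : ℂ × ℂ → ℂ} (hq : AnalyticAt ℂ q 0) {n : ℕ} (hn : 1 ≤ n) (hord : analyticOrderAt (fun t => q (0, t)) 0 = n) {ε : ℝ} (hε : 0 < ε) :
    ∀ᶠ r₀ in 𝓝[>] (0 : ℝ), ∃ (η b₀ : ℝ), 0 < η ∧ 2 * η ≤ r₀ ∧ ∀ x y : ℂ, ‖x‖ ≤ η → r₀ / 2 ≤ ‖y‖ → ‖y‖ ≤ r₀ →
      q (x, y) ≠ 0 ∧ b₀ ≤ Real.log ‖q (x, y)‖ ∧ Real.log ‖q (x, y)‖ ≤ b₀ + n ∧ ‖x‖ * ‖fderiv ℂ q (x, y) (1, 0)‖ ≤ ε * ‖q (x, y)‖ ∧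
      ‖y * fderiv ℂ q (x, y) (0, 1) - n * q (x, y)‖ ≤ ε * ‖q (x, y)‖ := sorry

/-! ## V11 `OneVar` (helper82): the assembly

`F` is the curve, `l` an energy density (`lam F` or larger), `g = Q (F)`, `s = j / m`, `w = E0`; `V` is the conjugate of the meromorphic function `Θ` (minus
the fields `χ ζ'` at saddle-nodes); the fields `W i` are the `χ a` of the axes. -/

theorem oneVar {F : ℂ → EN N} (hF : Differentiable ℂ F) (hF0 : ∀ z, F z ≠ 0)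
    {l : ℂ → ℝ} (hl : Continuous l) (hl0 : ∀ z, 0 ≤ l z) (hne : ∃ z, l z ≠ 0) {B : ℝ}
    (hB : ∀ R, 1 ≤ R → ∫ z, tau R z * l z ^ 2 ≤ B * (En F R + 1))
    {g : ℂ → ℂ} (hg : Differentiable ℂ g) (hg0 : ∃ z, g z ≠ 0) {d : ℕ} (hgF : ∀ z, ‖g z‖ ≤ ‖F z‖ ^ d) {κ : ℝ} (hκ : 0 ≤ κ)
    {s : ℝ} (hs : 0 < s) {w : ℂ → ℝ} (hw : LM w) {ε₁ : ℝ}
    (hwb : ∃ C, ∀ R, 1 ≤ R → avg R w ≤ ε₁ * En F R + C * (1 + ∫ z, ‖gr (tau R) z‖ * l z))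
    {V : ℂ → ℂ} {r : ℂ → ℂ} (hV : ∀ z, SPt V (r z) z) (hr : ∀ z, -(κ * mult g z) ≤ (r z).re) {ε₀ : ℝ}
    (hdv : ∃ C, ∀ R, 1 ≤ R → -(ε₀ * En F R) - C * (1 + ∫ z, ‖gr (tau R) z‖ * l z) ≤ ∫ z, tau R z * dv V z)
    {ι : Type} [Fintype ι] {W : ι → ℂ → ℂ} {ε : ι → ℝ} (hWi : ∀ i R, 1 ≤ R → Integrable fun z => ip (gr (tau R) z) (W i z))
    (hW : ∀ i, ∃ C, ∀ R, 1 ≤ R → Fl (W i) R ≤ ε i * En F R + C * (1 + ∫ z, ‖gr (tau R) z‖ * l z))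
    (hrem : ∃ C, ∀ᵐ z, ‖V z + gr (fun z => s * Real.log ‖F z‖) z - gr w z - ∑ i, W i z‖ ≤ C * l z)
    (hsmall : 2 * κ * d + ε₀ + ε₁ + ∑ i, ε i < 2 * s) : False := sorry

end Pool.Agent.MQ.VStub
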